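import Pool.Agent.Lib.MP_40a0b6_an.Defs
set_option autoImplicit false
open MeasureTheory
open scoped ENNReal FourierTransform SchwartzMap
namespace Pool.Agent.FlatRes

private theorem Bil_pow_rpow (x : ℝ≥0∞) (n : ℕ) (y : ℝ) : (x ^ n) ^ y = x ^ ((n : ℝ) * y) := by
  rw [← ENNReal.rpow_natCast, ← ENNReal.rpow_mul]

/-- JOB O1.  Hölder with sup bounds. -/
theorem bil_one (F G : E3 → ℝ≥0∞) (hF : Measurable F) (hG : Measurable G) (Q δ : ℝ)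
    (hδ : |δ| ≤ 3) (hQ : 3 + |δ| ≤ Q) (VF VG : ℝ≥0∞) (hVF : ∀ ξ, F ξ ≤ VF) (hVG : ∀ ξ, G ξ ≤ VG)
    (hVF' : VF ≠ ⊤) (hVG' : VG ≠ ⊤) :
    ∫⁻ ξ, (F ξ * G ξ) ^ Q ≤
      (∫⁻ ξ, F ξ ^ (6 : ℕ)) ^ ((3 + δ) / 6) * (∫⁻ ξ, G ξ ^ (6 : ℕ)) ^ ((3 - δ) / 6) *
        VF ^ (Q - 3 - δ) * VG ^ (Q - 3 + δ) := by
  obtain ⟨hd1, hd2⟩ := abs_le.mp hδ
  have hd3 := le_abs_self δ
  have hd4 := neg_abs_le δ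
  have hQ0 : 0 ≤ Q := by linarith
  have e1 : 0 ≤ Q - 3 - δ := by linarith
  have e2 : 0 ≤ Q - 3 + δ := by linarith
  have e3 : 0 ≤ 3 + δ := by linarith
  have e4 : 0 ≤ 3 - δ := by linarith
  have hc : VF ^ (Q - 3 - δ) * VG ^ (Q - 3 + δ) ≠ ⊤ :=
    ENNReal.mul_ne_top (ENNReal.rpow_ne_top_of_nonneg e1 hVF')
      (ENNReal.rpow_ne_top_of_nonneg e2 hVG')
  have hpt : ∀ ξ, (F ξ * G ξ) ^ Q ≤ ((F ξ ^ (6 : ℕ)) ^ ((3 + δ) / 6) *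
      (G ξ ^ (6 : ℕ)) ^ ((3 - δ) / 6)) * (VF ^ (Q - 3 - δ) * VG ^ (Q - 3 + δ)) := by
    intro ξ
    rw [ENNReal.mul_rpow_of_nonneg _ _ hQ0, Bil_pow_rpow, Bil_pow_rpow]
    have a1 : ((6 : ℕ) : ℝ) * ((3 + δ) / 6) = 3 + δ := by push_cast; ring
    have a2 : ((6 : ℕ) : ℝ) * ((3 - δ) / 6) = 3 - δ := by push_cast; ring
    rw [a1, a2]
    have a3 : F ξ ^ Q = F ξ ^ (3 + δ) * F ξ ^ (Q - 3 - δ) := by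
      rw [← ENNReal.rpow_add_of_nonneg _ _ e3 e1]
      congr 1
      ring
    have a4 : G ξ ^ Q = G ξ ^ (3 - δ) * G ξ ^ (Q - 3 + δ) := by
      rw [← ENNReal.rpow_add_of_nonneg _ _ e4 e2]
      congr 1
      ring
    rw [a3, a4]
    calc F ξ ^ (3 + δ) * F ξ ^ (Q - 3 - δ) * (G ξ ^ (3 - δ) * G ξ ^ (Q - 3 + δ))
        = (F ξ ^ (3 + δ) * G ξ ^ (3 - δ)) * (F ξ ^ (Q - 3 - δ) * G ξ ^ (Q - 3 + δ)) := by ring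
      _ ≤ _ := by
        gcongr
        · exact hVF ξ
        · exact hVG ξ
  calc ∫⁻ ξ, (F ξ * G ξ) ^ Q
      ≤ ∫⁻ ξ, ((F ξ ^ (6 : ℕ)) ^ ((3 + δ) / 6) *
      (G ξ ^ (6 : ℕ)) ^ ((3 - δ) / 6)) * (VF ^ (Q - 3 - δ) * VG ^ (Q - 3 + δ)) :=
        lintegral_mono hpt
    _ = (∫⁻ ξ, (F ξ ^ (6 : ℕ)) ^ ((3 + δ) / 6) *
      (G ξ ^ (6 : ℕ)) ^ ((3 - δ) / 6)) * (VF ^ (Q - 3 - δ) * VG ^ (Q - 3 + δ)) :=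
        lintegral_mul_const' _ _ hc
    _ ≤ ((∫⁻ ξ, F ξ ^ (6 : ℕ)) ^ ((3 + δ) / 6) * (∫⁻ ξ, G ξ ^ (6 : ℕ)) ^ ((3 - δ) / 6)) *
        (VF ^ (Q - 3 - δ) * VG ^ (Q - 3 + δ)) := by
        gcongr
        exact ENNReal.lintegral_mul_norm_pow_le (hF.pow_const 6).aemeasurable
          (hG.pow_const 6).aemeasurable (by positivity) (by positivity) (by ring)
    _ = _ := by ring

/-- JOB O2.  Hölder: `F^Q G^Q = (F^6G^2)^θ (F^3G^3)^{1-θ} F^{Q-3-3θ} G^{Q-3+θ}`, and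
`∫F³G³ ≤ (∫F⁶)^{1/2}(∫G⁶)^{1/2}`. -/
theorem bil_two (F G : E3 → ℝ≥0∞) (hF : Measurable F) (hG : Measurable G) (Q θ : ℝ)
    (hθ : 0 ≤ θ) (hθ1 : θ ≤ 1) (hQ : 3 + 3 * θ ≤ Q) (VF VG : ℝ≥0∞) (hVF : ∀ ξ, F ξ ≤ VF)
    (hVG : ∀ ξ, G ξ ≤ VG) (hVF' : VF ≠ ⊤) (hVG' : VG ≠ ⊤) :
    ∫⁻ ξ, (F ξ * G ξ) ^ Q ≤
      (∫⁻ ξ, F ξ ^ (6 : ℕ) * G ξ ^ (2 : ℕ)) ^ θ *
      ((∫⁻ ξ, F ξ ^ (6 : ℕ)) ^ (1 / 2 : ℝ) * (∫⁻ ξ, G ξ ^ (6 : ℕ)) ^ (1 / 2 : ℝ)) ^ (1 - θ) *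
        VF ^ (Q - 3 - 3 * θ) * VG ^ (Q - 3 + θ) := by
  have hQ0 : 0 ≤ Q := by linarith
  have e1 : 0 ≤ Q - 3 - 3 * θ := by linarith
  have e2 : 0 ≤ Q - 3 + θ := by linarith
  have e3 : 0 ≤ 1 - θ := by linarith
  have hc : VF ^ (Q - 3 - 3 * θ) * VG ^ (Q - 3 + θ) ≠ ⊤ :=
    ENNReal.mul_ne_top (ENNReal.rpow_ne_top_of_nonneg e1 hVF')
      (ENNReal.rpow_ne_top_of_nonneg e2 hVG')
  have hpt : ∀ ξ, (F ξ * G ξ) ^ Q ≤ ((F ξ ^ (6 : ℕ) * G ξ ^ (2 : ℕ)) ^ θ *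
      (F ξ ^ (3 : ℕ) * G ξ ^ (3 : ℕ)) ^ (1 - θ)) * (VF ^ (Q - 3 - 3 * θ) * VG ^ (Q - 3 + θ)) := by
    intro ξ
    rw [ENNReal.mul_rpow_of_nonneg _ _ hQ0, ENNReal.mul_rpow_of_nonneg _ _ hθ,
      ENNReal.mul_rpow_of_nonneg _ _ e3, Bil_pow_rpow, Bil_pow_rpow, Bil_pow_rpow, Bil_pow_rpow]
    have a3 : F ξ ^ Q = F ξ ^ (((6 : ℕ) : ℝ) * θ) * F ξ ^ (((3 : ℕ) : ℝ) * (1 - θ)) *
        F ξ ^ (Q - 3 - 3 * θ) := by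
      rw [← ENNReal.rpow_add_of_nonneg _ _ (by positivity) (by positivity),
        ← ENNReal.rpow_add_of_nonneg _ _ (by positivity) e1]
      congr 1
      push_cast
      ring
    have a4 : G ξ ^ Q = G ξ ^ (((2 : ℕ) : ℝ) * θ) * G ξ ^ (((3 : ℕ) : ℝ) * (1 - θ)) *
        G ξ ^ (Q - 3 + θ) := by
      rw [← ENNReal.rpow_add_of_nonneg _ _ (by positivity) (by positivity),
        ← ENNReal.rpow_add_of_nonneg _ _ (by positivity) e2]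
      congr 1
      push_cast
      ring
    rw [a3, a4]
    calc F ξ ^ (((6 : ℕ) : ℝ) * θ) * F ξ ^ (((3 : ℕ) : ℝ) * (1 - θ)) * F ξ ^ (Q - 3 - 3 * θ) *
          (G ξ ^ (((2 : ℕ) : ℝ) * θ) * G ξ ^ (((3 : ℕ) : ℝ) * (1 - θ)) * G ξ ^ (Q - 3 + θ))
        = (F ξ ^ (((6 : ℕ) : ℝ) * θ) * G ξ ^ (((2 : ℕ) : ℝ) * θ) *
          (F ξ ^ (((3 : ℕ) : ℝ) * (1 - θ)) * G ξ ^ (((3 : ℕ) : ℝ) * (1 - θ)))) *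
          (F ξ ^ (Q - 3 - 3 * θ) * G ξ ^ (Q - 3 + θ)) := by ring
      _ ≤ _ := by
        gcongr
        · exact hVF ξ
        · exact hVG ξ
  have h3 : ∫⁻ ξ, F ξ ^ (3 : ℕ) * G ξ ^ (3 : ℕ) ≤
      (∫⁻ ξ, F ξ ^ (6 : ℕ)) ^ (1 / 2 : ℝ) * (∫⁻ ξ, G ξ ^ (6 : ℕ)) ^ (1 / 2 : ℝ) := by
    have h4 : ∀ ξ, F ξ ^ (3 : ℕ) * G ξ ^ (3 : ℕ) =
        (F ξ ^ (6 : ℕ)) ^ (1 / 2 : ℝ) * (G ξ ^ (6 : ℕ)) ^ (1 / 2 : ℝ) := by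
      intro ξ
      rw [Bil_pow_rpow, Bil_pow_rpow]
      have a1 : ((6 : ℕ) : ℝ) * (1 / 2) = ((3 : ℕ) : ℝ) := by norm_num
      rw [a1, ENNReal.rpow_natCast, ENNReal.rpow_natCast]
    rw [lintegral_congr h4]
    exact ENNReal.lintegral_mul_norm_pow_le (hF.pow_const 6).aemeasurable
          (hG.pow_const 6).aemeasurable (by positivity) (by positivity) (by norm_num)
  calc ∫⁻ ξ, (F ξ * G ξ) ^ Q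
      ≤ ∫⁻ ξ, ((F ξ ^ (6 : ℕ) * G ξ ^ (2 : ℕ)) ^ θ *
      (F ξ ^ (3 : ℕ) * G ξ ^ (3 : ℕ)) ^ (1 - θ)) * (VF ^ (Q - 3 - 3 * θ) * VG ^ (Q - 3 + θ)) :=
        lintegral_mono hpt
    _ = (∫⁻ ξ, (F ξ ^ (6 : ℕ) * G ξ ^ (2 : ℕ)) ^ θ *
      (F ξ ^ (3 : ℕ) * G ξ ^ (3 : ℕ)) ^ (1 - θ)) * (VF ^ (Q - 3 - 3 * θ) * VG ^ (Q - 3 + θ)) :=
        lintegral_mul_const' _ _ hc
    _ ≤ ((∫⁻ ξ, F ξ ^ (6 : ℕ) * G ξ ^ (2 : ℕ)) ^ θ *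
        (∫⁻ ξ, F ξ ^ (3 : ℕ) * G ξ ^ (3 : ℕ)) ^ (1 - θ)) *
        (VF ^ (Q - 3 - 3 * θ) * VG ^ (Q - 3 + θ)) := by
        gcongr
        exact ENNReal.lintegral_mul_norm_pow_le
          ((hF.pow_const 6).mul (hG.pow_const 2)).aemeasurable
          ((hF.pow_const 3).mul (hG.pow_const 3)).aemeasurable hθ e3 (by ring)
    _ ≤ ((∫⁻ ξ, F ξ ^ (6 : ℕ) * G ξ ^ (2 : ℕ)) ^ θ *
        ((∫⁻ ξ, F ξ ^ (6 : ℕ)) ^ (1 / 2 : ℝ) * (∫⁻ ξ, G ξ ^ (6 : ℕ)) ^ (1 / 2 : ℝ)) ^ (1 - θ)) *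
        (VF ^ (Q - 3 - 3 * θ) * VG ^ (Q - 3 + θ)) := by
        gcongr
    _ = _ := by ring

end Pool.Agent.FlatRes
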