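import Pool.Agent.Lib.MP_40a0b6_an.FamDef
import Pool.Agent.Lib.MP_40a0b6_an.Bil
set_option autoImplicit false
open MeasureTheory
open scoped ENNReal FourierTransform SchwartzMap
namespace Pool.Agent.FlatRes

theorem BilI_exists_two_rpow (x : ℝ≥0∞) (h0 : x ≠ 0) (ht : x ≠ ⊤) :
    ∃ t : ℝ, x = (2 : ℝ≥0∞) ^ t := by
  refine ⟨Real.logb 2 x.toReal, ?_⟩
  have hpos : 0 < x.toReal := ENNReal.toReal_pos h0 ht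
  have h2 : (2 : ℝ≥0∞) = ENNReal.ofReal 2 := by simp
  rw [h2, ENNReal.ofReal_rpow_of_pos (by norm_num), Real.rpow_logb (by norm_num) (by norm_num) hpos,
    ENNReal.ofReal_toReal ht]

theorem BilI_add (x y : ℝ) : (2 : ℝ≥0∞) ^ x * (2 : ℝ≥0∞) ^ y = (2 : ℝ≥0∞) ^ (x + y) :=
  (ENNReal.rpow_add x y two_ne_zero ENNReal.ofNat_ne_top).symm

theorem BilI_mono {x y : ℝ} (h : x ≤ y) : (2 : ℝ≥0∞) ^ x ≤ (2 : ℝ≥0∞) ^ y :=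
  ENNReal.rpow_le_rpow_of_exponent_le (by norm_num) h

theorem BilI_ne_top (x : ℝ) : (2 : ℝ≥0∞) ^ x ≠ ⊤ :=
  ENNReal.rpow_ne_top_of_ne_zero two_ne_zero ENNReal.ofNat_ne_top

theorem BilI_sup {n m : ℕ} {C0 : ℝ≥0∞} {F : ℕ × ℕ × ℕ → E3 → ℂ} {M : ℕ × ℕ × ℕ → ℝ≥0∞}
    (hF : Fam n m C0 F M) (c0 : ℝ) (hc : C0 ≤ (2 : ℝ≥0∞) ^ c0) (α : ℕ × ℕ × ℕ) (a : ℝ)
    (ha : M α = (2 : ℝ≥0∞) ^ a) (ξ : E3) :
    ‖F α ξ‖ₑ ≤ (2 : ℝ≥0∞) ^ ((c0 - ((α.1 : ℝ) + α.2.1 + α.2.2) + a) / 2) := by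
  have h := hF.sup α ξ
  have h2 : ‖F α ξ‖ₑ ^ (2 : ℕ) ≤ (2 : ℝ≥0∞) ^ (c0 - ((α.1 : ℝ) + α.2.1 + α.2.2) + a) := by
    calc ‖F α ξ‖ₑ ^ (2 : ℕ)
        ≤ C0 * (2 : ℝ≥0∞) ^ (-((α.1 : ℝ) + α.2.1 + α.2.2)) * M α := h
      _ ≤ (2 : ℝ≥0∞) ^ c0 * (2 : ℝ≥0∞) ^ (-((α.1 : ℝ) + α.2.1 + α.2.2)) * (2 : ℝ≥0∞) ^ a := by
          rw [ha]; gcongr
      _ = (2 : ℝ≥0∞) ^ (c0 - ((α.1 : ℝ) + α.2.1 + α.2.2) + a) := by
          rw [BilI_add, BilI_add]; congr 1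
  have h3 := ENNReal.rpow_le_rpow h2 (by norm_num : (0 : ℝ) ≤ 1 / 2)
  rw [← ENNReal.rpow_natCast, ← ENNReal.rpow_mul, ← ENNReal.rpow_mul] at h3
  have e1 : ((2 : ℕ) : ℝ) * (1 / 2) = 1 := by norm_num
  rw [e1, ENNReal.rpow_one] at h3
  refine h3.trans (le_of_eq ?_)
  congr 1
  ring

theorem BilI_six {n m : ℕ} {C0 : ℝ≥0∞} {F : ℕ × ℕ × ℕ → E3 → ℂ} {M : ℕ × ℕ × ℕ → ℝ≥0∞}
    (hF : Fam n m C0 F M) (c0 : ℝ) (hc : C0 ≤ (2 : ℝ≥0∞) ^ c0) (α : ℕ × ℕ × ℕ) (a : ℝ)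
    (ha : M α = (2 : ℝ≥0∞) ^ a) :
    ∫⁻ ξ, ‖F α ξ‖ₑ ^ (6 : ℕ) ≤ (2 : ℝ≥0∞) ^ (c0 + (((m : ℝ) - 2) * α.1 +
      ((n : ℝ) - 3) * ((α.2.1 : ℝ) + α.2.2)) + 3 * a) := by
  calc ∫⁻ ξ, ‖F α ξ‖ₑ ^ (6 : ℕ)
      ≤ C0 * (2 : ℝ≥0∞) ^ (((m : ℝ) - 2) * α.1 + ((n : ℝ) - 3) * ((α.2.1 : ℝ) + α.2.2)) *
          (M α) ^ (3 : ℕ) := hF.six α
    _ ≤ (2 : ℝ≥0∞) ^ c0 * (2 : ℝ≥0∞) ^ (((m : ℝ) - 2) * α.1 + ((n : ℝ) - 3) *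
          ((α.2.1 : ℝ) + α.2.2)) * (2 : ℝ≥0∞) ^ (3 * a) := by
        have e : (M α) ^ (3 : ℕ) = (2 : ℝ≥0∞) ^ (3 * a) := by
          rw [ha, ← ENNReal.rpow_natCast, ← ENNReal.rpow_mul]; congr 1; push_cast; ring
        rw [e]; gcongr
    _ = _ := by rw [BilI_add, BilI_add]

theorem BilI_one {n m : ℕ} {C0 : ℝ≥0∞} {F : ℕ × ℕ × ℕ → E3 → ℂ} {M : ℕ × ℕ × ℕ → ℝ≥0∞}
    (hF : Fam n m C0 F M) (c0 : ℝ) (hc : C0 ≤ (2 : ℝ≥0∞) ^ c0) (α β : ℕ × ℕ × ℕ) (a b : ℝ)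
    (ha : M α = (2 : ℝ≥0∞) ^ a) (hb : M β = (2 : ℝ≥0∞) ^ b) (Q δ : ℝ) (hδ : |δ| ≤ 3)
    (hQ : 3 + |δ| ≤ Q) :
    ∫⁻ ξ, (‖F α ξ‖ₑ * ‖F β ξ‖ₑ) ^ Q ≤ (2 : ℝ≥0∞) ^ (
      (c0 + (((m : ℝ) - 2) * α.1 + ((n : ℝ) - 3) * ((α.2.1 : ℝ) + α.2.2)) + 3 * a) * ((3 + δ) / 6) +
      (c0 + (((m : ℝ) - 2) * β.1 + ((n : ℝ) - 3) * ((β.2.1 : ℝ) + β.2.2)) + 3 * b) * ((3 - δ) / 6) +
      ((c0 - ((α.1 : ℝ) + α.2.1 + α.2.2) + a) / 2) * (Q - 3 - δ) +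
      ((c0 - ((β.1 : ℝ) + β.2.1 + β.2.2) + b) / 2) * (Q - 3 + δ)) := by
  have h := bil_one (fun ξ => ‖F α ξ‖ₑ) (fun ξ => ‖F β ξ‖ₑ) (hF.meas α).enorm (hF.meas β).enorm
    Q δ hδ hQ _ _ (BilI_sup hF c0 hc α a ha) (BilI_sup hF c0 hc β b hb) (BilI_ne_top _)
    (BilI_ne_top _)
  have h1 := abs_le.1 hδ
  have h2 := abs_le.1 (le_refl |δ|)
  refine h.trans ?_
  have e1 : (∫⁻ ξ, ‖F α ξ‖ₑ ^ (6 : ℕ)) ^ ((3 + δ) / 6) ≤ _ :=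
    ENNReal.rpow_le_rpow (BilI_six hF c0 hc α a ha) (by linarith)
  have e2 : (∫⁻ ξ, ‖F β ξ‖ₑ ^ (6 : ℕ)) ^ ((3 - δ) / 6) ≤ _ :=
    ENNReal.rpow_le_rpow (BilI_six hF c0 hc β b hb) (by linarith)
  rw [← ENNReal.rpow_mul] at e1 e2
  rw [← BilI_add, ← BilI_add, ← BilI_add, ENNReal.rpow_mul (2 : ℝ≥0∞) _ (Q - 3 - δ),
    ENNReal.rpow_mul (2 : ℝ≥0∞) _ (Q - 3 + δ)]
  gcongr

theorem BilI_zero {n m : ℕ} {C0 : ℝ≥0∞} {F : ℕ × ℕ × ℕ → E3 → ℂ} {M : ℕ × ℕ × ℕ → ℝ≥0∞}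
    (hF : Fam n m C0 F M) (α : ℕ × ℕ × ℕ) (h : M α = 0) (ξ : E3) : ‖F α ξ‖ₑ = 0 := by
  have h1 := hF.sup α ξ
  rw [h, mul_zero] at h1
  have h2 : ‖F α ξ‖ₑ ^ (2 : ℕ) = 0 := le_antisymm h1 zero_le
  exact pow_eq_zero_iff (two_ne_zero) |>.1 h2

/-- JOB P.  Bilinear bound, `3 ≤ n ≤ m`; here `Q = pcrit/2 = d+1 > n ≥ 3`.
If one of the pieces has `s < m k` both sides are `0`.  Otherwise `bil_one` with `|δ|` small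
(`δ0 = min 1 (Q-3)`, sign to be chosen) gives, with `i = s+l`,
`∫(F_αF_β)^Q ≤ C (M_αM_β)^{Q/2} 2^{-ρ_α/2 - ρ_β/2 + (δ/6)(θ_α-θ_β)}`, `ρ = (Q-m-1)k + (Q-n)i`,
`θ = (m+1)k + n i`.  With `i = mk+j`: `ρ = (Q-n) j` (because `(Q-m-1)+m(Q-n)=0`),
`θ = (m+1+mn)k + n j`, `j ≥ 0`.  Choose the sign of `δ` so that the last term is
`-(δ0/6)|θ_α-θ_β|`, and interpolate (geometric mean with weight) to get
`2^{-c(j_α+j_β+|k_α-k_β|)}`. -/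
theorem bil_caseI (n m : ℕ) (hn : 3 ≤ n) (hnm : n ≤ m) (C0 : ℝ≥0∞) (hC0 : C0 ≠ ⊤) :
    ∃ C : ℝ≥0∞, C ≠ ⊤ ∧ ∃ c : ℝ, 0 < c ∧ ∀ F M, Fam n m C0 F M → ∀ α β : ℕ × ℕ × ℕ,
      (m * α.1 ≤ α.2.1) → (m * β.1 ≤ β.2.1) →
      (∫⁻ ξ, (‖F α ξ‖ₑ * ‖F β ξ‖ₑ) ^ (pcrit n m / 2)) ^ (1 / (pcrit n m / 2)) ≤
        C * (2 : ℝ≥0∞) ^ (-c * (jj m α + jj m β + |(α.1 : ℝ) - β.1|)) *
          (M α) ^ (1 / 2 : ℝ) * (M β) ^ (1 / 2 : ℝ) := by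
  obtain ⟨c0, hc0⟩ := BilI_exists_two_rpow (C0 + 1) (by simp) (by simp [hC0])
  have hc : C0 ≤ (2 : ℝ≥0∞) ^ c0 := by rw [← hc0]; exact le_self_add
  have hn' : (3 : ℝ) ≤ n := by exact_mod_cast hn
  have hnm' : (n : ℝ) ≤ m := by exact_mod_cast hnm
  -- the exponent Q
  obtain ⟨Q, hQ⟩ : ∃ Q : ℝ, Q = pcrit n m / 2 := ⟨_, rfl⟩
  have hQ1 : (Q - 1) * (m + 1) = n * m := by
    rw [hQ, pcrit, if_pos (by omega)]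
    field_simp
    ring
  have hQn : (Q - n) * (m + 1) = m + 1 - n := by nlinarith
  have hQn0 : 0 < Q - n := by
    have h1 : (0 : ℝ) < m + 1 - n := by linarith
    rw [← hQn] at h1
    exact (mul_pos_iff_of_pos_right (by positivity)).1 h1
  rw [← hQ]
  have hQpos : 0 < Q := by linarith
  have hQ3 : 0 < Q - 3 := by linarith
  obtain ⟨δ0, hδ0⟩ : ∃ δ0 : ℝ, δ0 = min 1 (Q - 3) := ⟨_, rfl⟩
  have hδpos : 0 < δ0 := by rw [hδ0]; exact lt_min one_pos hQ3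
  have hδ1 : δ0 ≤ 1 := by rw [hδ0]; exact min_le_left _ _
  have hδQ : δ0 ≤ Q - 3 := by rw [hδ0]; exact min_le_right _ _
  obtain ⟨c', hc'⟩ : ∃ c' : ℝ, c' = min ((Q - n) / 4) (δ0 / 6) := ⟨_, rfl⟩
  have hc'pos : 0 < c' := by rw [hc']; exact lt_min (by linarith) (by linarith)
  have hc'1 : c' ≤ (Q - n) / 4 := by rw [hc']; exact min_le_left _ _
  have hc'2 : c' ≤ δ0 / 6 := by rw [hc']; exact min_le_right _ _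
  refine ⟨(2 : ℝ≥0∞) ^ ((Q - 2) * c0 / Q), BilI_ne_top _, c' / Q, by positivity, ?_⟩
  intro F M hF α β hα hβ
  by_cases hMα : M α = 0
  · have : ∀ ξ, (‖F α ξ‖ₑ * ‖F β ξ‖ₑ) ^ Q = 0 := by
      intro ξ
      rw [BilI_zero hF α hMα ξ, zero_mul, ENNReal.zero_rpow_of_pos hQpos]
    simp only [this, lintegral_zero]
    rw [ENNReal.zero_rpow_of_pos (by positivity)]
    exact zero_le
  by_cases hMβ : M β = 0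
  · have : ∀ ξ, (‖F α ξ‖ₑ * ‖F β ξ‖ₑ) ^ Q = 0 := by
      intro ξ
      rw [BilI_zero hF β hMβ ξ, mul_zero, ENNReal.zero_rpow_of_pos hQpos]
    simp only [this, lintegral_zero]
    rw [ENNReal.zero_rpow_of_pos (by positivity)]
    exact zero_le
  obtain ⟨a, ha⟩ := BilI_exists_two_rpow (M α) hMα (hF.fin α)
  obtain ⟨b, hb⟩ := BilI_exists_two_rpow (M β) hMβ (hF.fin β)
  -- real quantities
  obtain ⟨k1, hk1⟩ : ∃ k1 : ℝ, k1 = (α.1 : ℝ) := ⟨_, rfl⟩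
  obtain ⟨k2, hk2⟩ : ∃ k2 : ℝ, k2 = (β.1 : ℝ) := ⟨_, rfl⟩
  obtain ⟨j1, hj1⟩ : ∃ j1 : ℝ, j1 = jj m α := ⟨_, rfl⟩
  obtain ⟨j2, hj2⟩ : ∃ j2 : ℝ, j2 = jj m β := ⟨_, rfl⟩
  have hj1' : (α.2.1 : ℝ) + α.2.2 = m * k1 + j1 := by rw [hj1, jj, hk1]; ring
  have hj2' : (β.2.1 : ℝ) + β.2.2 = m * k2 + j2 := by rw [hj2, jj, hk2]; ring
  have hj1n : 0 ≤ j1 := by
    have : ((m * α.1 : ℕ) : ℝ) ≤ (α.2.1 : ℝ) := by exact_mod_cast hα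
    push_cast at this
    rw [hj1, jj]
    have h2 : (0 : ℝ) ≤ (α.2.2 : ℝ) := Nat.cast_nonneg _
    linarith
  have hj2n : 0 ≤ j2 := by
    have : ((m * β.1 : ℕ) : ℝ) ≤ (β.2.1 : ℝ) := by exact_mod_cast hβ
    push_cast at this
    rw [hj2, jj]
    have h2 : (0 : ℝ) ≤ (β.2.2 : ℝ) := Nat.cast_nonneg _
    linarith
  -- theta
  obtain ⟨T, hT⟩ : ∃ T : ℝ, T = (m + 1 + m * n) * (k1 - k2) + n * (j1 - j2) := ⟨_, rfl⟩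
  -- the main bound for both signs
  have key : ∀ δ : ℝ, |δ| = δ0 → ∫⁻ ξ, (‖F α ξ‖ₑ * ‖F β ξ‖ₑ) ^ Q ≤
      (2 : ℝ≥0∞) ^ ((Q - 2) * c0 + Q / 2 * (a + b) - (Q - n) / 2 * (j1 + j2) + δ / 6 * T) := by
    intro δ hδ
    refine (BilI_one hF c0 hc α β a b ha hb Q δ (by rw [hδ]; linarith)
      (by rw [hδ]; linarith)).trans (le_of_eq ?_)
    congr 1
    have s1 : (α.1 : ℝ) + α.2.1 + α.2.2 = k1 + (m * k1 + j1) := by rw [← hj1', hk1]; ring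
    have s2 : (β.1 : ℝ) + β.2.1 + β.2.2 = k2 + (m * k2 + j2) := by rw [← hj2', hk2]; ring
    rw [s1, s2, hj1', hj2', ← hk1, ← hk2, hT]
    have hQQ : (Q - 1) * m = n * m - (Q - 1) := by linarith
    linear_combination (-(k1 + k2) / 2) * hQ1
  have key2 : ∫⁻ ξ, (‖F α ξ‖ₑ * ‖F β ξ‖ₑ) ^ Q ≤
      (2 : ℝ≥0∞) ^ ((Q - 2) * c0 + Q / 2 * (a + b) - c' * (j1 + j2 + |k1 - k2|)) := by
    have hK : |k1 - k2| ≤ |T| + (j1 + j2) := by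
      have hm0 : (0 : ℝ) ≤ m := Nat.cast_nonneg _
      have hn0 : (0 : ℝ) ≤ n := Nat.cast_nonneg _
      have hmn : (0 : ℝ) ≤ m * n := by positivity
      have h1 : (m + 1 + m * n : ℝ) * |k1 - k2| ≤ |T| + n * (j1 + j2) := by
        have h3 : (m + 1 + m * n : ℝ) * (k1 - k2) = T - n * (j1 - j2) := by rw [hT]; ring
        have h4 : (m + 1 + m * n : ℝ) * |k1 - k2| = |T - n * (j1 - j2)| := by
          rw [← h3, abs_mul, abs_of_pos (by positivity : (0 : ℝ) < m + 1 + m * n)]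
        rw [h4]
        have h5 : |T - n * (j1 - j2)| ≤ |T| + |(n : ℝ) * (j1 - j2)| := abs_sub _ _
        have h6 : |(n : ℝ) * (j1 - j2)| ≤ n * (j1 + j2) := by
          rw [abs_mul, abs_of_nonneg hn0]
          apply mul_le_mul_of_nonneg_left _ hn0
          rw [abs_le]; constructor <;> linarith
        linarith
      have h7 : (n : ℝ) * |k1 - k2| ≤ |T| + n * (j1 + j2) := by
        have : (n : ℝ) * |k1 - k2| ≤ (m + 1 + m * n : ℝ) * |k1 - k2| := by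
          apply mul_le_mul_of_nonneg_right _ (abs_nonneg _)
          nlinarith
        linarith
      have h8 : (n : ℝ) * |k1 - k2| ≤ n * (|T| + (j1 + j2)) := by
        have : |T| ≤ n * |T| := by
          have := abs_nonneg T
          nlinarith
        linarith
      exact le_of_mul_le_mul_left h8 (by linarith)
    have hTn := abs_nonneg T
    have hfin : -((Q - n) / 2 * (j1 + j2)) - δ0 / 6 * |T| ≤ - (c' * (j1 + j2 + |k1 - k2|)) := by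
      have h1 : c' * (j1 + j2 + |k1 - k2|) ≤ c' * (|T| + 2 * (j1 + j2)) := by
        apply mul_le_mul_of_nonneg_left _ hc'pos.le
        linarith
      have h2 : c' * |T| ≤ δ0 / 6 * |T| := mul_le_mul_of_nonneg_right hc'2 hTn
      have h3 : c' * (2 * (j1 + j2)) ≤ (Q - n) / 4 * (2 * (j1 + j2)) :=
        mul_le_mul_of_nonneg_right hc'1 (by linarith)
      linarith
    rcases le_total 0 T with hT0 | hT0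
    · refine (key (-δ0) (by rw [abs_neg, abs_of_pos hδpos])).trans (BilI_mono ?_)
      rw [abs_of_nonneg hT0] at hfin
      linarith
    · refine (key δ0 (abs_of_pos hδpos)).trans (BilI_mono ?_)
      rw [abs_of_nonpos hT0] at hfin
      linarith
  have key3 := ENNReal.rpow_le_rpow key2 (by positivity : (0 : ℝ) ≤ 1 / Q)
  refine key3.trans (le_of_eq ?_)
  rw [ha, hb, ← ENNReal.rpow_mul, ← ENNReal.rpow_mul, ← ENNReal.rpow_mul, BilI_add, BilI_add,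
    BilI_add]
  congr 1
  rw [← hj1, ← hj2, ← hk1, ← hk2]
  field_simp
  ring

end Pool.Agent.FlatRes
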