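import Pool.Agent.Lib.MP_40a0b6_an.FamDef
import Pool.Agent.Lib.MP_40a0b6_an.Bil
set_option autoImplicit false
open MeasureTheory
open scoped ENNReal FourierTransform SchwartzMap
namespace Pool.Agent.FlatRes

theorem BilII_arith (N Mm k1 k2 s1 s2 l1 l2 L : ℝ) (hN : 4 ≤ N) (hM : 0 ≤ Mm)
    (hl1 : 0 ≤ l1) (hl2 : 0 ≤ l2) (hk : k1 ≤ k2)
    (h1 : 12 * L ≤ -|(Mm + 1) * (k1 - k2) + N * ((s1 + l1) - (s2 + l2))|)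
    (hX1 : 3 * L ≤ (Mm + 1) / 2 * (k1 - k2) + (N - 2) / 2 * ((s1 + l1) - (s2 + l2)) +
      max 0 (s1 - (s2 + l2)))
    (hX2 : 3 * L ≤ (Mm + 1) / 2 * (k1 - k2) + ((s1 + l1) - (s2 + l2)) / 2 - (s1 - s2) / 2 +
      max 0 (s1 - (s2 + l2)))
    (hX2' : 3 * L ≤ (Mm + 1) / 2 * (k2 - k1) + ((s2 + l2) - (s1 + l1)) / 2 - (s2 - s1) / 2 +
      max 0 (s2 - (s1 + l1))) :
    |k1 - k2| + |s1 - s2| + |l1 - l2| ≤ -(60 * N + 200) * L := by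
  obtain ⟨K, hK⟩ : ∃ K : ℝ, K = k2 - k1 := ⟨_, rfl⟩
  obtain ⟨I, hI⟩ : ∃ I : ℝ, I = (s1 + l1) - (s2 + l2) := ⟨_, rfl⟩
  obtain ⟨x, hx⟩ : ∃ x : ℝ, x = (Mm + 1) * K := ⟨_, rfl⟩
  obtain ⟨y, hy⟩ : ∃ y : ℝ, y = N * I := ⟨_, rfl⟩
  obtain ⟨t, ht⟩ : ∃ t : ℝ, t = |-x + y| := ⟨_, rfl⟩
  have hK0 : 0 ≤ K := by rw [hK]; linarith
  have hx0 : K ≤ x := by rw [hx]; nlinarith
  have eT : (Mm + 1) * (k1 - k2) + N * ((s1 + l1) - (s2 + l2)) = -x + y := by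
    rw [hx, hy, hK, hI]; ring
  rw [eT, ← ht] at h1
  have ht0 : 0 ≤ t := by rw [ht]; exact abs_nonneg _
  have hL : L ≤ 0 := by linarith
  have ht1 : -x + y ≤ t := by rw [ht]; exact le_abs_self _
  have ht2 : -(-x + y) ≤ t := by rw [ht]; exact neg_le_abs _
  have htL : t ≤ -12 * L := by linarith
  have hNL : N * L ≤ 4 * L := by nlinarith
  have e1 : (Mm + 1) / 2 * (k1 - k2) = -x / 2 := by rw [hx, hK]; ring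
  have e2 : (Mm + 1) / 2 * (k2 - k1) = x / 2 := by rw [hx, hK]; ring
  rw [e1, ← hI] at hX1 hX2
  have e3 : ((s2 + l2) - (s1 + l1)) = -I := by rw [hI]; ring
  rw [e2, e3] at hX2'
  have hKabs : |k1 - k2| = K := by rw [abs_sub_comm, abs_of_nonneg (by linarith), hK]
  have hlabs : |l1 - l2| ≤ |I| + |s1 - s2| := by
    have : l1 - l2 = I - (s1 - s2) := by rw [hI]; ring
    rw [this]
    exact abs_sub _ _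
  have hN0 : 0 < N := by linarith
  have hIN : N * |I| ≤ t + x := by
    have : N * |I| = |y| := by rw [hy, abs_mul, abs_of_pos hN0]
    rw [this, abs_le]
    constructor <;> linarith
  rcases le_total s1 s2 with hs | hs
  · have hm1 : max 0 (s1 - (s2 + l2)) = 0 := max_eq_left (by linarith)
    rw [hm1] at hX1
    have hm2 : N * max 0 (s2 - (s1 + l1)) ≤ t := by
      rcases le_total 0 (s2 - (s1 + l1)) with h | h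
      · rw [max_eq_right h]
        have : s2 - (s1 + l1) ≤ -I := by rw [hI]; linarith
        have h2 := mul_le_mul_of_nonneg_left this hN0.le
        have h3 : N * -I = -y := by rw [hy]; ring
        linarith
      · rw [max_eq_left h]; linarith
    -- (b)
    have hb : x ≤ -9 * (N * L) := by
      have h2 := mul_le_mul_of_nonneg_left hX1 hN0.le
      have h3 : N * (-x / 2 + (N - 2) / 2 * I + 0) = -x + (N - 2) / 2 * (-x + y) := by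
        rw [hy]; ring
      rw [h3] at h2
      have h4 : (N - 2) / 2 * (-x + y) ≤ (N - 2) / 2 * (-12 * L) :=
        mul_le_mul_of_nonneg_left (by linarith) (by linarith)
      linarith
    obtain ⟨S, hS⟩ : ∃ S : ℝ, S = s2 - s1 := ⟨_, rfl⟩
    have hS0 : 0 ≤ S := by rw [hS]; linarith
    have hSabs : |s1 - s2| = S := by rw [abs_sub_comm, abs_of_nonneg (by linarith), hS]
    rw [← hS] at hX2'
    have hSb : S ≤ -(9 * N + 15) * L := by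
      have h2 := mul_le_mul_of_nonneg_left hX2' hN0.le
      have h3 : N * (x / 2 + -I / 2 - S / 2 + max 0 (s2 - (s1 + l1))) =
          N * x / 2 - y / 2 - N * S / 2 + N * max 0 (s2 - (s1 + l1)) := by
        rw [hy]; ring
      rw [h3] at h2
      have h5 : N * x ≤ N * (-9 * (N * L)) := mul_le_mul_of_nonneg_left hb hN0.le
      have h6 : N * S ≤ N * (-(9 * N + 15) * L) := by
        nlinarith
      exact le_of_mul_le_mul_left h6 hN0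
    have hIb : |I| ≤ -12 * L := by
      have h2 : N * |I| ≤ N * (-12 * L) := by linarith
      exact le_of_mul_le_mul_left h2 hN0
    rw [hKabs, hSabs]
    rw [hSabs] at hlabs
    linarith
  · have hm1 : N * max 0 (s1 - (s2 + l2)) ≤ t + x := by
      rcases le_total 0 (s1 - (s2 + l2)) with h | h
      · rw [max_eq_right h]
        have : s1 - (s2 + l2) ≤ I := by rw [hI]; linarith
        have h2 := mul_le_mul_of_nonneg_left this hN0.le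
        linarith
      · rw [max_eq_left h]; linarith
    obtain ⟨S, hS⟩ : ∃ S : ℝ, S = s1 - s2 := ⟨_, rfl⟩
    have hS0 : 0 ≤ S := by rw [hS]; linarith
    have hSabs : |s1 - s2| = S := by rw [abs_of_nonneg (by linarith), hS]
    rw [← hS] at hX2
    have h2 := mul_le_mul_of_nonneg_left hX2 hN0.le
    have h3 : N * (-x / 2 + I / 2 - S / 2 + max 0 (s1 - (s2 + l2))) =
        -(N * x) / 2 + y / 2 - N * S / 2 + N * max 0 (s1 - (s2 + l2)) := by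
      rw [hy]; ring
    rw [h3] at h2
    have hx0' : 0 ≤ x := by linarith
    have h4 : 4 * x ≤ N * x := mul_le_mul_of_nonneg_right hN hx0'
    have h5 : 0 ≤ N * S := by positivity
    have hxb : x ≤ -(36 + 6 * N) * L := by linarith
    have hSb : S ≤ -15 * L := by
      have h6 : N * S ≤ N * (-15 * L) := by linarith
      exact le_of_mul_le_mul_left h6 hN0
    have hIb : |I| ≤ -18 * L := by
      have h6 : N * |I| ≤ N * (-18 * L) := by linarith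
      exact le_of_mul_le_mul_left h6 hN0
    rw [hKabs, hSabs]
    rw [hSabs] at hlabs
    linarith

theorem BilII_exists_two_rpow (x : ℝ≥0∞) (h0 : x ≠ 0) (ht : x ≠ ⊤) :
    ∃ t : ℝ, x = (2 : ℝ≥0∞) ^ t := by
  refine ⟨Real.logb 2 x.toReal, ?_⟩
  have hpos : 0 < x.toReal := ENNReal.toReal_pos h0 ht
  have h2 : (2 : ℝ≥0∞) = ENNReal.ofReal 2 := by simp
  rw [h2, ENNReal.ofReal_rpow_of_pos (by norm_num), Real.rpow_logb (by norm_num) (by norm_num) hpos,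
    ENNReal.ofReal_toReal ht]

theorem BilII_add (x y : ℝ) : (2 : ℝ≥0∞) ^ x * (2 : ℝ≥0∞) ^ y = (2 : ℝ≥0∞) ^ (x + y) :=
  (ENNReal.rpow_add x y two_ne_zero ENNReal.ofNat_ne_top).symm

theorem BilII_mono {x y : ℝ} (h : x ≤ y) : (2 : ℝ≥0∞) ^ x ≤ (2 : ℝ≥0∞) ^ y :=
  ENNReal.rpow_le_rpow_of_exponent_le (by norm_num) h

theorem BilII_ne_top (x : ℝ) : (2 : ℝ≥0∞) ^ x ≠ ⊤ :=
  ENNReal.rpow_ne_top_of_ne_zero two_ne_zero ENNReal.ofNat_ne_top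

theorem BilII_sup {n m : ℕ} {C0 : ℝ≥0∞} {F : ℕ × ℕ × ℕ → E3 → ℂ} {M : ℕ × ℕ × ℕ → ℝ≥0∞}
    (hF : Fam n m C0 F M) (c0 : ℝ) (hc : C0 ≤ (2 : ℝ≥0∞) ^ c0) (α : ℕ × ℕ × ℕ) (a : ℝ)
    (ha : M α = (2 : ℝ≥0∞) ^ a) (ξ : E3) :
    ‖F α ξ‖ₑ ≤ (2 : ℝ≥0∞) ^ ((c0 - ((α.1 : ℝ) + α.2.1 + α.2.2) + a) / 2) := by
  have h := hF.sup α ξ
  have h2 : ‖F α ξ‖ₑ ^ (2 : ℕ) ≤ (2 : ℝ≥0∞) ^ (c0 - ((α.1 : ℝ) + α.2.1 + α.2.2) + a) := by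
    calc ‖F α ξ‖ₑ ^ (2 : ℕ)
        ≤ C0 * (2 : ℝ≥0∞) ^ (-((α.1 : ℝ) + α.2.1 + α.2.2)) * M α := h
      _ ≤ (2 : ℝ≥0∞) ^ c0 * (2 : ℝ≥0∞) ^ (-((α.1 : ℝ) + α.2.1 + α.2.2)) * (2 : ℝ≥0∞) ^ a := by
          rw [ha]; gcongr
      _ = (2 : ℝ≥0∞) ^ (c0 - ((α.1 : ℝ) + α.2.1 + α.2.2) + a) := by
          rw [BilII_add, BilII_add]; congr 1
  have h3 := ENNReal.rpow_le_rpow h2 (by norm_num : (0 : ℝ) ≤ 1 / 2)
  rw [← ENNReal.rpow_natCast, ← ENNReal.rpow_mul, ← ENNReal.rpow_mul] at h3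
  have e1 : ((2 : ℕ) : ℝ) * (1 / 2) = 1 := by norm_num
  rw [e1, ENNReal.rpow_one] at h3
  refine h3.trans (le_of_eq ?_)
  congr 1
  ring

theorem BilII_six {n m : ℕ} {C0 : ℝ≥0∞} {F : ℕ × ℕ × ℕ → E3 → ℂ} {M : ℕ × ℕ × ℕ → ℝ≥0∞}
    (hF : Fam n m C0 F M) (c0 : ℝ) (hc : C0 ≤ (2 : ℝ≥0∞) ^ c0) (α : ℕ × ℕ × ℕ) (a : ℝ)
    (ha : M α = (2 : ℝ≥0∞) ^ a) :
    ∫⁻ ξ, ‖F α ξ‖ₑ ^ (6 : ℕ) ≤ (2 : ℝ≥0∞) ^ (c0 + (((m : ℝ) - 2) * α.1 +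
      ((n : ℝ) - 3) * ((α.2.1 : ℝ) + α.2.2)) + 3 * a) := by
  calc ∫⁻ ξ, ‖F α ξ‖ₑ ^ (6 : ℕ)
      ≤ C0 * (2 : ℝ≥0∞) ^ (((m : ℝ) - 2) * α.1 + ((n : ℝ) - 3) * ((α.2.1 : ℝ) + α.2.2)) *
          (M α) ^ (3 : ℕ) := hF.six α
    _ ≤ (2 : ℝ≥0∞) ^ c0 * (2 : ℝ≥0∞) ^ (((m : ℝ) - 2) * α.1 + ((n : ℝ) - 3) *
          ((α.2.1 : ℝ) + α.2.2)) * (2 : ℝ≥0∞) ^ (3 * a) := by
        have e : (M α) ^ (3 : ℕ) = (2 : ℝ≥0∞) ^ (3 * a) := by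
          rw [ha, ← ENNReal.rpow_natCast, ← ENNReal.rpow_mul]; congr 1; push_cast; ring
        rw [e]; gcongr
    _ = _ := by rw [BilII_add, BilII_add]

theorem BilII_one {n m : ℕ} {C0 : ℝ≥0∞} {F : ℕ × ℕ × ℕ → E3 → ℂ} {M : ℕ × ℕ × ℕ → ℝ≥0∞}
    (hF : Fam n m C0 F M) (c0 : ℝ) (hc : C0 ≤ (2 : ℝ≥0∞) ^ c0) (α β : ℕ × ℕ × ℕ) (a b : ℝ)
    (ha : M α = (2 : ℝ≥0∞) ^ a) (hb : M β = (2 : ℝ≥0∞) ^ b) (Q δ : ℝ) (hδ : |δ| ≤ 3)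
    (hQ : 3 + |δ| ≤ Q) :
    ∫⁻ ξ, (‖F α ξ‖ₑ * ‖F β ξ‖ₑ) ^ Q ≤ (2 : ℝ≥0∞) ^ (
      (c0 + (((m : ℝ) - 2) * α.1 + ((n : ℝ) - 3) * ((α.2.1 : ℝ) + α.2.2)) + 3 * a) * ((3 + δ) / 6) +
      (c0 + (((m : ℝ) - 2) * β.1 + ((n : ℝ) - 3) * ((β.2.1 : ℝ) + β.2.2)) + 3 * b) * ((3 - δ) / 6) +
      ((c0 - ((α.1 : ℝ) + α.2.1 + α.2.2) + a) / 2) * (Q - 3 - δ) +
      ((c0 - ((β.1 : ℝ) + β.2.1 + β.2.2) + b) / 2) * (Q - 3 + δ)) := by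
  have h := bil_one (fun ξ => ‖F α ξ‖ₑ) (fun ξ => ‖F β ξ‖ₑ) (hF.meas α).enorm (hF.meas β).enorm
    Q δ hδ hQ _ _ (BilII_sup hF c0 hc α a ha) (BilII_sup hF c0 hc β b hb) (BilII_ne_top _)
    (BilII_ne_top _)
  have h1 := abs_le.1 hδ
  have h2 := abs_le.1 (le_refl |δ|)
  refine h.trans ?_
  have e1 : (∫⁻ ξ, ‖F α ξ‖ₑ ^ (6 : ℕ)) ^ ((3 + δ) / 6) ≤ _ :=
    ENNReal.rpow_le_rpow (BilII_six hF c0 hc α a ha) (by linarith)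
  have e2 : (∫⁻ ξ, ‖F β ξ‖ₑ ^ (6 : ℕ)) ^ ((3 - δ) / 6) ≤ _ :=
    ENNReal.rpow_le_rpow (BilII_six hF c0 hc β b hb) (by linarith)
  rw [← ENNReal.rpow_mul] at e1 e2
  rw [← BilII_add, ← BilII_add, ← BilII_add, ENNReal.rpow_mul (2 : ℝ≥0∞) _ (Q - 3 - δ),
    ENNReal.rpow_mul (2 : ℝ≥0∞) _ (Q - 3 + δ)]
  gcongr

theorem BilII_zero {n m : ℕ} {C0 : ℝ≥0∞} {F : ℕ × ℕ × ℕ → E3 → ℂ} {M : ℕ × ℕ × ℕ → ℝ≥0∞}
    (hF : Fam n m C0 F M) (α : ℕ × ℕ × ℕ) (h : M α = 0) (ξ : E3) : ‖F α ξ‖ₑ = 0 := by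
  have h1 := hF.sup α ξ
  rw [h, mul_zero] at h1
  have h2 : ‖F α ξ‖ₑ ^ (2 : ℕ) = 0 := le_antisymm h1 zero_le
  exact pow_eq_zero_iff (two_ne_zero) |>.1 h2

theorem BilII_le {x y : ℝ} (h : (2 : ℝ≥0∞) ^ x ≤ (2 : ℝ≥0∞) ^ y) : x ≤ y := by
  by_contra hc
  push Not at hc
  exact absurd (ENNReal.rpow_lt_rpow_of_exponent_lt (by norm_num) ENNReal.ofNat_ne_top hc)
    (not_lt.2 h)

theorem BilII_two {n m : ℕ} {C0 : ℝ≥0∞} {F : ℕ × ℕ × ℕ → E3 → ℂ} {M : ℕ × ℕ × ℕ → ℝ≥0∞}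
    (hF : Fam n m C0 F M) (c0 : ℝ) (hc : C0 ≤ (2 : ℝ≥0∞) ^ c0) (α β : ℕ × ℕ × ℕ) (a b : ℝ)
    (ha : M α = (2 : ℝ≥0∞) ^ a) (hb : M β = (2 : ℝ≥0∞) ^ b) (Q : ℝ) (hQ : 4 ≤ Q) :
    ∫⁻ ξ, (‖F α ξ‖ₑ * ‖F β ξ‖ₑ) ^ Q ≤ (2 : ℝ≥0∞) ^ (
      (c0 + min (E1 n m α β) (E2 n m α β) + 3 * a + b) * (1 / 3 : ℝ) +
      ((c0 + (((m : ℝ) - 2) * α.1 + ((n : ℝ) - 3) * ((α.2.1 : ℝ) + α.2.2)) + 3 * a) * (1 / 2 : ℝ) +
      (c0 + (((m : ℝ) - 2) * β.1 + ((n : ℝ) - 3) * ((β.2.1 : ℝ) + β.2.2)) + 3 * b) *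
        (1 / 2 : ℝ)) * (1 - (1 / 3 : ℝ)) +
      ((c0 - ((α.1 : ℝ) + α.2.1 + α.2.2) + a) / 2) * (Q - 3 - 3 * (1 / 3 : ℝ)) +
      ((c0 - ((β.1 : ℝ) + β.2.1 + β.2.2) + b) / 2) * (Q - 3 + (1 / 3 : ℝ))) := by
  have h := bil_two (fun ξ => ‖F α ξ‖ₑ) (fun ξ => ‖F β ξ‖ₑ) (hF.meas α).enorm (hF.meas β).enorm
    Q (1 / 3) (by norm_num) (by norm_num) (by linarith) _ _ (BilII_sup hF c0 hc α a ha)
    (BilII_sup hF c0 hc β b hb) (BilII_ne_top _) (BilII_ne_top _)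
  refine h.trans ?_
  have e0 : ∫⁻ ξ, ‖F α ξ‖ₑ ^ (6 : ℕ) * ‖F β ξ‖ₑ ^ (2 : ℕ) ≤
      (2 : ℝ≥0∞) ^ (c0 + min (E1 n m α β) (E2 n m α β) + 3 * a + b) := by
    calc ∫⁻ ξ, ‖F α ξ‖ₑ ^ (6 : ℕ) * ‖F β ξ‖ₑ ^ (2 : ℕ)
        ≤ C0 * (2 : ℝ≥0∞) ^ (min (E1 n m α β) (E2 n m α β)) * (M α) ^ (3 : ℕ) * M β :=
          hF.eight α β
      _ ≤ (2 : ℝ≥0∞) ^ c0 * (2 : ℝ≥0∞) ^ (min (E1 n m α β) (E2 n m α β)) *
            (2 : ℝ≥0∞) ^ (3 * a) * (2 : ℝ≥0∞) ^ b := by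
          have e : (M α) ^ (3 : ℕ) = (2 : ℝ≥0∞) ^ (3 * a) := by
            rw [ha, ← ENNReal.rpow_natCast, ← ENNReal.rpow_mul]; congr 1; push_cast; ring
          rw [e, hb]; gcongr
      _ = _ := by rw [BilII_add, BilII_add, BilII_add]
  have e1 := ENNReal.rpow_le_rpow e0 (by norm_num : (0 : ℝ) ≤ 1 / 3)
  have e2 : (∫⁻ ξ, ‖F α ξ‖ₑ ^ (6 : ℕ)) ^ (1 / 2 : ℝ) ≤ _ :=
    ENNReal.rpow_le_rpow (BilII_six hF c0 hc α a ha) (by norm_num)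
  have e3 : (∫⁻ ξ, ‖F β ξ‖ₑ ^ (6 : ℕ)) ^ (1 / 2 : ℝ) ≤ _ :=
    ENNReal.rpow_le_rpow (BilII_six hF c0 hc β b hb) (by norm_num)
  have e4 := ENNReal.rpow_le_rpow (mul_le_mul' e2 e3) (by norm_num : (0 : ℝ) ≤ 1 - (1 / 3))
  rw [← ENNReal.rpow_mul] at e1
  rw [← ENNReal.rpow_mul, ← ENNReal.rpow_mul, BilII_add, ← ENNReal.rpow_mul] at e4
  rw [← BilII_add, ← BilII_add, ← BilII_add,
    ENNReal.rpow_mul (2 : ℝ≥0∞) _ (Q - 3 - 3 * (1 / 3)),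
    ENNReal.rpow_mul (2 : ℝ≥0∞) _ (Q - 3 + (1 / 3))]
  exact mul_le_mul' (mul_le_mul' (mul_le_mul' e1 e4) le_rfl) le_rfl

/-- JOB Q.  Bilinear bound, `n ≥ 4`, `n ≥ m+1` (`pcrit = 2n`).
Write `i = s+l`, `Δk = k_α-k_β`, `Δs = s_α - s_β`, `Δi = i_α-i_β`, `θ = (m+1)k+n i`, `Δθ = θ_α-θ_β`.
(1) `bil_one` with `δ = ±1/2`: exponent (base 2, of `∫(F_αF_β)^n` over `(M_αM_β)^{n/2}`)
   `≤ C - (n-m-1)(k_α+k_β)/2 - (1/12)|Δθ| ≤ C - (1/12)|Δθ|`.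
(2) `bil_two` with `θ = 1/3`, for `(α,β)` and for `(β,α)`: exponent `≤ C + (1/3)·X` with
   `X = X1(α,β) = (m+1)/2·Δk + (n-2)/2·Δi + max(0, s_α-i_β)` (from `E1`) and
   `X = X2(α,β) = X1 + (s_β-s_α)/2 + (n-3)(i_β-i_α)/2 = (m+1)/2·Δk + Δi/2 - Δs/2 + max(0,s_α-i_β)` (from `E2`).
   Use `Δi = (Δθ-(m+1)Δk)/n`.  WLOG `Δk ≤ 0` (symmetry).
   Case `Δs ≤ 0`: `X1(α,β) ≤ -((m+1)/n)|Δk| + C|Δθ|` (as `s_α ≤ s_β ≤ i_β`), and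
   `X2(β,α) ≤ C|Δk| - |Δs|/2 + C|Δθ|` (as `s_β ≤ i_β ≤ i_α + |Δθ|/n`).
   Case `Δs > 0`: `X2(α,β) ≤ -(m+1)(n-3)/(2n)·|Δk| - |Δs|/2 + C|Δθ|` (as `s_α - i_β ≤ i_α-i_β`).
(3) Geometric means of these bounds give `2^{-c(|Δk|+|Δs|+|Δθ|)}`, and `|Δl| ≤ |Δs| + |Δi|`,
   `|Δi| ≤ (|Δθ|+(m+1)|Δk|)/n`. -/
theorem bil_caseII (n m : ℕ) (hn : 4 ≤ n) (hm : 2 ≤ m) (hnm : m + 1 ≤ n) (C0 : ℝ≥0∞)
    (hC0 : C0 ≠ ⊤) :
    ∃ C : ℝ≥0∞, C ≠ ⊤ ∧ ∃ c : ℝ, 0 < c ∧ ∀ F M, Fam n m C0 F M → ∀ α β : ℕ × ℕ × ℕ,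
      (∫⁻ ξ, (‖F α ξ‖ₑ * ‖F β ξ‖ₑ) ^ (n : ℝ)) ^ (1 / (n : ℝ)) ≤
        C * (2 : ℝ≥0∞) ^ (-c * (|(α.1 : ℝ) - β.1| + |(α.2.1 : ℝ) - β.2.1| + |(α.2.2 : ℝ) - β.2.2|)) *
          (M α) ^ (1 / 2 : ℝ) * (M β) ^ (1 / 2 : ℝ) := by
  obtain ⟨c1, hc1⟩ := BilII_exists_two_rpow (C0 + 1) (by simp) (by simp [hC0])
  obtain ⟨c0, hc0d⟩ : ∃ c0 : ℝ, c0 = |c1| := ⟨_, rfl⟩
  have hc0p : 0 ≤ c0 := by rw [hc0d]; exact abs_nonneg _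
  have hc : C0 ≤ (2 : ℝ≥0∞) ^ c0 := by
    have h1 : C0 ≤ (2 : ℝ≥0∞) ^ c1 := by rw [← hc1]; exact le_self_add
    exact h1.trans (BilII_mono (by rw [hc0d]; exact le_abs_self _))
  have hn' : (4 : ℝ) ≤ n := by exact_mod_cast hn
  have hm' : (2 : ℝ) ≤ m := by exact_mod_cast hm
  have hnm' : (m : ℝ) + 1 ≤ n := by exact_mod_cast hnm
  have hnpos : (0 : ℝ) < n := by linarith
  refine ⟨(2 : ℝ≥0∞) ^ ((n - 2) * c0 / n), BilII_ne_top _, 1 / (n * (60 * n + 200)),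
    by positivity, ?_⟩
  intro F M hF α β
  by_cases hMα : M α = 0
  · have : ∀ ξ, (‖F α ξ‖ₑ * ‖F β ξ‖ₑ) ^ (n : ℝ) = 0 := by
      intro ξ
      rw [BilII_zero hF α hMα ξ, zero_mul, ENNReal.zero_rpow_of_pos hnpos]
    simp only [this, lintegral_zero]
    rw [ENNReal.zero_rpow_of_pos (by positivity)]
    exact zero_le
  by_cases hMβ : M β = 0
  · have : ∀ ξ, (‖F α ξ‖ₑ * ‖F β ξ‖ₑ) ^ (n : ℝ) = 0 := by
      intro ξ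
      rw [BilII_zero hF β hMβ ξ, mul_zero, ENNReal.zero_rpow_of_pos hnpos]
    simp only [this, lintegral_zero]
    rw [ENNReal.zero_rpow_of_pos (by positivity)]
    exact zero_le
  obtain ⟨a, ha⟩ := BilII_exists_two_rpow (M α) hMα (hF.fin α)
  obtain ⟨b, hb⟩ := BilII_exists_two_rpow (M β) hMβ (hF.fin β)
  obtain ⟨J, hJ⟩ : ∃ J : ℝ≥0∞, J = ∫⁻ ξ, (‖F α ξ‖ₑ * ‖F β ξ‖ₑ) ^ (n : ℝ) := ⟨_, rfl⟩
  have hJ' : J = ∫⁻ ξ, (‖F β ξ‖ₑ * ‖F α ξ‖ₑ) ^ (n : ℝ) := by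
    rw [hJ]; congr 1; ext ξ; rw [mul_comm]
  have b1 := BilII_one hF c0 hc α β a b ha hb n (1 / 2) (by norm_num [abs_of_pos])
    (by norm_num [abs_of_pos]; linarith)
  have b2 := BilII_one hF c0 hc α β a b ha hb n (-(1 / 2)) (by norm_num [abs_of_neg])
    (by norm_num [abs_of_neg]; linarith)
  have b3 := BilII_two hF c0 hc α β a b ha hb n hn'
  have b4 := BilII_two hF c0 hc β α b a hb ha n hn'
  rw [← hJ] at b1 b2 b3 ⊢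
  rw [← hJ'] at b4
  by_cases hJ0 : J = 0
  · rw [hJ0, ENNReal.zero_rpow_of_pos (by positivity)]
    exact zero_le
  have hJt : J ≠ ⊤ := ne_top_of_le_ne_top (BilII_ne_top _) b1
  obtain ⟨lam, hlam⟩ := BilII_exists_two_rpow J hJ0 hJt
  rw [hlam] at b1 b2 b3 b4 ⊢
  have b1' := BilII_le b1
  have b2' := BilII_le b2
  have b3' := BilII_le b3
  have b4' := BilII_le b4
  clear b1 b2 b3 b4
  -- real quantities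
  obtain ⟨k1, hk1⟩ : ∃ k1 : ℝ, k1 = (α.1 : ℝ) := ⟨_, rfl⟩
  obtain ⟨k2, hk2⟩ : ∃ k2 : ℝ, k2 = (β.1 : ℝ) := ⟨_, rfl⟩
  obtain ⟨s1, hs1⟩ : ∃ s1 : ℝ, s1 = (α.2.1 : ℝ) := ⟨_, rfl⟩
  obtain ⟨s2, hs2⟩ : ∃ s2 : ℝ, s2 = (β.2.1 : ℝ) := ⟨_, rfl⟩
  obtain ⟨l1, hl1⟩ : ∃ l1 : ℝ, l1 = (α.2.2 : ℝ) := ⟨_, rfl⟩
  obtain ⟨l2, hl2⟩ : ∃ l2 : ℝ, l2 = (β.2.2 : ℝ) := ⟨_, rfl⟩
  have hk1n : 0 ≤ k1 := by rw [hk1]; exact Nat.cast_nonneg _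
  have hk2n : 0 ≤ k2 := by rw [hk2]; exact Nat.cast_nonneg _
  have hl1n : 0 ≤ l1 := by rw [hl1]; exact Nat.cast_nonneg _
  have hl2n : 0 ≤ l2 := by rw [hl2]; exact Nat.cast_nonneg _
  have hE1 := min_le_left (E1 n m α β) (E2 n m α β)
  have hE2 := min_le_right (E1 n m α β) (E2 n m α β)
  have hE1' := min_le_left (E1 n m β α) (E2 n m β α)
  have hE2' := min_le_right (E1 n m β α) (E2 n m β α)
  have mx : ∀ x y : ℝ, max (-x) (-y) = max 0 (x - y) - x := by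
    intro x y
    rcases le_total x y with h | h
    · rw [max_eq_left (by linarith), max_eq_left (by linarith)]; ring
    · rw [max_eq_right (by linarith), max_eq_right (by linarith)]; ring
  obtain ⟨p, hp⟩ : ∃ p : ℝ, p = max 0 (s1 - (s2 + l2)) := ⟨_, rfl⟩
  obtain ⟨q, hq⟩ : ∃ q : ℝ, q = max 0 (s2 - (s1 + l1)) := ⟨_, rfl⟩
  obtain ⟨N, hN⟩ : ∃ N : ℝ, N = (n : ℝ) := ⟨_, rfl⟩
  obtain ⟨Mm, hMm⟩ : ∃ Mm : ℝ, Mm = (m : ℝ) := ⟨_, rfl⟩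
  have hE1v : E1 n m α β = -k2 - (s1 + l1) + (p - s1) + (Mm - 2) * k1 + s1 * (N - 2) +
      l1 * (N - 3) := by
    rw [E1, mx, ← hk1, ← hk2, ← hs1, ← hs2, ← hl1, ← hl2, ← hp, ← hN, ← hMm]
  have hE2v : E2 n m α β = -k2 - (s1 + l1) + (p - s1) + (Mm - 2) * k1 + s1 * (N - 2) +
      l1 * (N - 3) + ((s2 - s1) * (N - 2) + (l2 - l1) * (N - 3)) / 2 := by
    rw [E2, hE1v, ← hs1, ← hs2, ← hl1, ← hl2, ← hN]
  have hE1v' : E1 n m β α = -k1 - (s2 + l2) + (q - s2) + (Mm - 2) * k2 + s2 * (N - 2) +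
      l2 * (N - 3) := by
    rw [E1, mx, ← hk1, ← hk2, ← hs1, ← hs2, ← hl1, ← hl2, ← hq, ← hN, ← hMm]
  have hE2v' : E2 n m β α = -k1 - (s2 + l2) + (q - s2) + (Mm - 2) * k2 + s2 * (N - 2) +
      l2 * (N - 3) + ((s1 - s2) * (N - 2) + (l1 - l2) * (N - 3)) / 2 := by
    rw [E2, hE1v', ← hs1, ← hs2, ← hl1, ← hl2, ← hN]
  rw [← hk1, ← hk2, ← hs1, ← hs2, ← hl1, ← hl2, ← hN, ← hMm] at b1' b2'
  obtain ⟨u, hu⟩ : ∃ u : ℝ, u = min (E1 n m α β) (E2 n m α β) := ⟨_, rfl⟩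
  obtain ⟨u', hu'⟩ : ∃ u' : ℝ, u' = min (E1 n m β α) (E2 n m β α) := ⟨_, rfl⟩
  rw [← hu, ← hk1, ← hk2, ← hs1, ← hs2, ← hl1, ← hl2, ← hN, ← hMm] at b3'
  rw [← hu', ← hk1, ← hk2, ← hs1, ← hs2, ← hl1, ← hl2, ← hN, ← hMm] at b4'
  rw [← hu] at hE1 hE2
  rw [← hu'] at hE1' hE2'
  rw [hE1v] at hE1
  rw [hE2v] at hE2
  rw [hE1v'] at hE1'
  rw [hE2v'] at hE2'
  rw [← hN] at hn' hnm' hnpos
  rw [← hMm] at hm' hnm'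
  -- the normalised logarithm
  obtain ⟨L, hL⟩ : ∃ L : ℝ, L = lam - (N - 2) * c0 - N / 2 * (a + b) := ⟨_, rfl⟩
  have hkk : 0 ≤ (N - Mm - 1) * (k1 + k2) := mul_nonneg (by linarith) (by linarith)
  have r1 : 12 * L ≤ ((Mm + 1) * (k1 - k2) + N * ((s1 + l1) - (s2 + l2))) := by
    rw [hL]; linarith
  have r2 : 12 * L ≤ -((Mm + 1) * (k1 - k2) + N * ((s1 + l1) - (s2 + l2))) := by
    rw [hL]; linarith
  have r0 : 12 * L ≤ -|(Mm + 1) * (k1 - k2) + N * ((s1 + l1) - (s2 + l2))| := by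
    rcases abs_cases ((Mm + 1) * (k1 - k2) + N * ((s1 + l1) - (s2 + l2))) with h | h <;>
    · rw [h.1]; linarith
  have r0' : 12 * L ≤ -|(Mm + 1) * (k2 - k1) + N * ((s2 + l2) - (s1 + l1))| := by
    have : (Mm + 1) * (k2 - k1) + N * ((s2 + l2) - (s1 + l1)) =
        -((Mm + 1) * (k1 - k2) + N * ((s1 + l1) - (s2 + l2))) := by ring
    rw [this, abs_neg]; exact r0
  have x1 : 3 * L ≤ (Mm + 1) / 2 * (k1 - k2) + (N - 2) / 2 * ((s1 + l1) - (s2 + l2)) + p := by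
    rw [hL]; linarith
  have x2 : 3 * L ≤ (Mm + 1) / 2 * (k1 - k2) + ((s1 + l1) - (s2 + l2)) / 2 - (s1 - s2) / 2 +
      p := by
    rw [hL]; linarith
  have x1' : 3 * L ≤ (Mm + 1) / 2 * (k2 - k1) + (N - 2) / 2 * ((s2 + l2) - (s1 + l1)) + q := by
    rw [hL]; linarith
  have x2' : 3 * L ≤ (Mm + 1) / 2 * (k2 - k1) + ((s2 + l2) - (s1 + l1)) / 2 - (s2 - s1) / 2 +
      q := by
    rw [hL]; linarith
  rw [hp] at x1 x2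
  rw [hq] at x1' x2'
  have fin : |k1 - k2| + |s1 - s2| + |l1 - l2| ≤ -(60 * N + 200) * L := by
    rcases le_total k1 k2 with hk | hk
    · exact BilII_arith N Mm k1 k2 s1 s2 l1 l2 L hn' (by linarith) hl1n hl2n hk r0 x1 x2 x2'
    · have := BilII_arith N Mm k2 k1 s2 s1 l2 l1 L hn' (by linarith) hl2n hl1n hk r0' x1' x2' x2
      rw [abs_sub_comm k2 k1, abs_sub_comm s2 s1, abs_sub_comm l2 l1] at this
      exact this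
  rw [ha, hb, ← ENNReal.rpow_mul, ← ENNReal.rpow_mul, ← ENNReal.rpow_mul, BilII_add, BilII_add,
    BilII_add]
  apply BilII_mono
  rw [← hk1, ← hk2, ← hs1, ← hs2, ← hl1, ← hl2, ← hN]
  obtain ⟨D, hD⟩ : ∃ D : ℝ, D = |k1 - k2| + |s1 - s2| + |l1 - l2| := ⟨_, rfl⟩
  rw [← hD] at fin ⊢
  have hd : 0 < 60 * N + 200 := by linarith
  have hLD : L ≤ -(D / (60 * N + 200)) := by
    rw [le_neg, div_le_iff₀ hd]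
    linarith
  have hlam2 : lam ≤ (N - 2) * c0 + N / 2 * (a + b) - D / (60 * N + 200) := by
    rw [hL] at hLD; linarith
  have h5 := mul_le_mul_of_nonneg_right hlam2 (by positivity : (0 : ℝ) ≤ 1 / N)
  refine h5.trans (le_of_eq ?_)
  field_simp
  ring

end Pool.Agent.FlatRes
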