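import Pool.Agent.Lib.MP_40a0b6_an.Defs
set_option autoImplicit false
open MeasureTheory
open scoped ENNReal FourierTransform SchwartzMap
namespace Pool.Agent.FlatRes

private lemma Level_mono (f : ℝ → ℝ) (J : Set ℝ) (hJ : J.OrdConnected) (hm : MonotoneOn f J)
    (c : ℝ) : (J ∩ {x | c ≤ f x}).OrdConnected ∧ (J ∩ {x | f x < c}).OrdConnected := by
  constructor
  · refine ⟨fun x hx y hy z hz => ?_⟩
    have hzJ := hJ.out hx.1 hy.1 hz
    exact ⟨hzJ, le_trans hx.2 (hm hx.1 hzJ hz.1)⟩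
  · refine ⟨fun x hx y hy z hz => ?_⟩
    have hzJ := hJ.out hx.1 hy.1 hz
    exact ⟨hzJ, lt_of_le_of_lt (hm hzJ hy.1 hz.2) hy.2⟩

private lemma Level_anti (f : ℝ → ℝ) (J : Set ℝ) (hJ : J.OrdConnected) (hm : AntitoneOn f J)
    (c : ℝ) : (J ∩ {x | c ≤ f x}).OrdConnected ∧ (J ∩ {x | f x < c}).OrdConnected := by
  constructor
  · refine ⟨fun x hx y hy z hz => ?_⟩
    have hzJ := hJ.out hx.1 hy.1 hz
    exact ⟨hzJ, le_trans hy.2 (hm hzJ hy.1 hz.2)⟩
  · refine ⟨fun x hx y hy z hz => ?_⟩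
    have hzJ := hJ.out hx.1 hy.1 hz
    exact ⟨hzJ, lt_of_le_of_lt (hm hx.1 hzJ hz.1) hx.2⟩

private lemma Level_two (n m : ℕ) (hm : m = n + n) (S : Set ℝ) (A B : Fin n → Set ℝ)
    (hA : ∀ i, (A i).OrdConnected) (hB : ∀ i, (B i).OrdConnected)
    (hS : S = (⋃ i, A i) ∪ ⋃ i, B i) :
    ∃ I : Fin m → Set ℝ, (∀ i, (I i).OrdConnected) ∧ S = ⋃ i, I i := by
  subst hm
  refine ⟨fun i => Sum.elim A B (finSumFinEquiv.symm i), fun i => ?_, ?_⟩
  · rcases h : finSumFinEquiv.symm i with j | j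
    · simp only [h, Sum.elim_inl]; exact hA j
    · simp only [h, Sum.elim_inr]; exact hB j
  · rw [hS]
    ext x
    simp only [Set.mem_union, Set.mem_iUnion]
    constructor
    · rintro (⟨i, hi⟩ | ⟨i, hi⟩)
      · exact ⟨finSumFinEquiv (Sum.inl i), by rw [Equiv.symm_apply_apply]; exact hi⟩
      · exact ⟨finSumFinEquiv (Sum.inr i), by rw [Equiv.symm_apply_apply]; exact hi⟩
    · rintro ⟨i, hi⟩
      rcases h : finSumFinEquiv.symm i with j | j
      · rw [h] at hi; exact Or.inl ⟨j, hi⟩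
      · rw [h] at hi; exact Or.inr ⟨j, hi⟩

private lemma Level_step (n m : ℕ) (hm : m = n + n) (f : ℝ → ℝ) (α β c : ℝ)
    (hf : DifferentiableOn ℝ f (Set.Ioo α β))
    (h1 : ∃ I : Fin n → Set ℝ, (∀ i, (I i).OrdConnected) ∧
      {x | x ∈ Set.Ioo α β ∧ 0 ≤ deriv f x} = ⋃ i, I i)
    (h2 : ∃ I : Fin n → Set ℝ, (∀ i, (I i).OrdConnected) ∧
      {x | x ∈ Set.Ioo α β ∧ deriv f x < 0} = ⋃ i, I i) :
    (∃ I : Fin m → Set ℝ, (∀ i, (I i).OrdConnected) ∧
      {x | x ∈ Set.Ioo α β ∧ c ≤ f x} = ⋃ i, I i) ∧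
    (∃ I : Fin m → Set ℝ, (∀ i, (I i).OrdConnected) ∧
      {x | x ∈ Set.Ioo α β ∧ f x < c} = ⋃ i, I i) := by
  obtain ⟨A, hA, hA'⟩ := h1
  obtain ⟨B, hB, hB'⟩ := h2
  have hAm : ∀ i, MonotoneOn f (A i) := by
    intro i
    have hsub : ∀ x ∈ A i, x ∈ Set.Ioo α β ∧ 0 ≤ deriv f x := by
      intro x hx
      have : x ∈ {x | x ∈ Set.Ioo α β ∧ 0 ≤ deriv f x} := by
        rw [hA']; exact Set.mem_iUnion.2 ⟨i, hx⟩
      exact this
    refine monotoneOn_of_deriv_nonneg (hA i).convex ?_ ?_ ?_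
    · exact hf.continuousOn.mono fun x hx => (hsub x hx).1
    · exact hf.mono fun x hx => (hsub x (interior_subset hx)).1
    · exact fun x hx => (hsub x (interior_subset hx)).2
  have hBm : ∀ i, AntitoneOn f (B i) := by
    intro i
    have hsub : ∀ x ∈ B i, x ∈ Set.Ioo α β ∧ deriv f x < 0 := by
      intro x hx
      have : x ∈ {x | x ∈ Set.Ioo α β ∧ deriv f x < 0} := by
        rw [hB']; exact Set.mem_iUnion.2 ⟨i, hx⟩
      exact this
    refine antitoneOn_of_deriv_nonpos (hB i).convex ?_ ?_ ?_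
    · exact hf.continuousOn.mono fun x hx => (hsub x hx).1
    · exact hf.mono fun x hx => (hsub x (interior_subset hx)).1
    · exact fun x hx => (hsub x (interior_subset hx)).2.le
  have hcov : ∀ x ∈ Set.Ioo α β, (∃ i, x ∈ A i) ∨ ∃ i, x ∈ B i := by
    intro x hx
    rcases le_or_gt 0 (deriv f x) with h | h
    · left
      have : x ∈ ⋃ i, A i := by rw [← hA']; exact ⟨hx, h⟩
      exact Set.mem_iUnion.1 this
    · right
      have : x ∈ ⋃ i, B i := by rw [← hB']; exact ⟨hx, h⟩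
      exact Set.mem_iUnion.1 this
  have hAI : ∀ i, ∀ x ∈ A i, x ∈ Set.Ioo α β := by
    intro i x hx
    have : x ∈ {x | x ∈ Set.Ioo α β ∧ 0 ≤ deriv f x} := by
      rw [hA']; exact Set.mem_iUnion.2 ⟨i, hx⟩
    exact this.1
  have hBI : ∀ i, ∀ x ∈ B i, x ∈ Set.Ioo α β := by
    intro i x hx
    have : x ∈ {x | x ∈ Set.Ioo α β ∧ deriv f x < 0} := by
      rw [hB']; exact Set.mem_iUnion.2 ⟨i, hx⟩
    exact this.1
  constructor
  · refine Level_two n m hm _ (fun i => A i ∩ {x | c ≤ f x}) (fun i => B i ∩ {x | c ≤ f x})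
      (fun i => (Level_mono f _ (hA i) (hAm i) c).1)
      (fun i => (Level_anti f _ (hB i) (hBm i) c).1) ?_
    ext x
    simp only [Set.mem_ofPred_eq, Set.mem_union, Set.mem_iUnion, Set.mem_inter_iff]
    constructor
    · rintro ⟨hx, hc⟩
      rcases hcov x hx with ⟨i, hi⟩ | ⟨i, hi⟩
      · exact Or.inl ⟨i, hi, hc⟩
      · exact Or.inr ⟨i, hi, hc⟩
    · rintro (⟨i, hi, hc⟩ | ⟨i, hi, hc⟩)
      · exact ⟨hAI i x hi, hc⟩
      · exact ⟨hBI i x hi, hc⟩
  · refine Level_two n m hm _ (fun i => A i ∩ {x | f x < c}) (fun i => B i ∩ {x | f x < c})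
      (fun i => (Level_mono f _ (hA i) (hAm i) c).2)
      (fun i => (Level_anti f _ (hB i) (hBm i) c).2) ?_
    ext x
    simp only [Set.mem_ofPred_eq, Set.mem_union, Set.mem_iUnion, Set.mem_inter_iff]
    constructor
    · rintro ⟨hx, hc⟩
      rcases hcov x hx with ⟨i, hi⟩ | ⟨i, hi⟩
      · exact Or.inl ⟨i, hi, hc⟩
      · exact Or.inr ⟨i, hi, hc⟩
    · rintro (⟨i, hi, hc⟩ | ⟨i, hi, hc⟩)
      · exact ⟨hAI i x hi, hc⟩
      · exact ⟨hBI i x hi, hc⟩

/-- JOB L.  If the `k`-th derivative has a constant sign on `(α,β)` (`k ≥ 1`), then `{c ≤ f}` and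
`{f < c}` are unions of at most `2^k` intervals.  Induction on `k`: for `k = 1` `f` is strictly
monotone; for the step apply the induction hypothesis to `deriv f` with `c = 0`: `(α,β)` is the union
of `2^k` intervals on which `deriv f ≥ 0` (`f` monotone: `monotoneOn_of_deriv_nonneg` on order
connected sets) and `2^k` intervals on which `deriv f < 0` (`f` antitone); on each of them
`{c ≤ f}`, `{f < c}` are order connected. -/
theorem level_intervals (k : ℕ) (hk : 1 ≤ k) (f : ℝ → ℝ) (α β c s : ℝ) (hs : s = 1 ∨ s = -1)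
    (hf : ContDiffOn ℝ k f (Set.Ioo α β))
    (hd : ∀ x ∈ Set.Ioo α β, 0 < s * iteratedDeriv k f x) :
    (∃ I : Fin (2 ^ k) → Set ℝ, (∀ i, (I i).OrdConnected) ∧
      {x | x ∈ Set.Ioo α β ∧ c ≤ f x} = ⋃ i, I i) ∧
    (∃ I : Fin (2 ^ k) → Set ℝ, (∀ i, (I i).OrdConnected) ∧
      {x | x ∈ Set.Ioo α β ∧ f x < c} = ⋃ i, I i) := by
  induction k, hk using Nat.le_induction generalizing f c with
  | base =>
    refine Level_step 1 (2 ^ 1) (by norm_num) f α β c (hf.differentiableOn (by norm_num)) ?_ ?_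
    · rcases hs with rfl | rfl
      · refine ⟨fun _ => Set.Ioo α β, fun _ => Set.ordConnected_Ioo, ?_⟩
        ext x
        simp only [Set.mem_ofPred_eq, Set.mem_iUnion, exists_const]
        refine ⟨fun h => h.1, fun h => ⟨h, ?_⟩⟩
        have := hd x h
        rw [iteratedDeriv_one] at this
        linarith
      · refine ⟨fun _ => ∅, fun _ => Set.ordConnected_empty, ?_⟩
        ext x
        simp only [Set.mem_ofPred_eq, Set.mem_iUnion, Set.mem_empty_iff_false, exists_const,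
          iff_false, not_and, not_le]
        intro h
        have := hd x h
        rw [iteratedDeriv_one] at this
        linarith
    · rcases hs with rfl | rfl
      · refine ⟨fun _ => ∅, fun _ => Set.ordConnected_empty, ?_⟩
        ext x
        simp only [Set.mem_ofPred_eq, Set.mem_iUnion, Set.mem_empty_iff_false, exists_const,
          iff_false, not_and, not_lt]
        intro h
        have := hd x h
        rw [iteratedDeriv_one] at this
        linarith
      · refine ⟨fun _ => Set.Ioo α β, fun _ => Set.ordConnected_Ioo, ?_⟩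
        ext x
        simp only [Set.mem_ofPred_eq, Set.mem_iUnion, exists_const]
        refine ⟨fun h => h.1, fun h => ⟨h, ?_⟩⟩
        have := hd x h
        rw [iteratedDeriv_one] at this
        linarith
  | succ k hk ih =>
    have hf1 : ContDiffOn ℝ k (deriv f) (Set.Ioo α β) := by
      have := (contDiffOn_succ_iff_deriv_of_isOpen (n := (k : WithTop ℕ∞)) isOpen_Ioo).1
        (by exact_mod_cast hf)
      exact this.2.2
    have hd1 : ∀ x ∈ Set.Ioo α β, 0 < s * iteratedDeriv k (deriv f) x := by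
      intro x hx
      have := hd x hx
      rwa [iteratedDeriv_succ'] at this
    obtain ⟨h1, h2⟩ := ih (deriv f) 0 hf1 hd1
    refine Level_step (2 ^ k) (2 ^ (k + 1)) (by ring) f α β c ?_ h1 h2
    exact hf.differentiableOn (by simp)

end Pool.Agent.FlatRes
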