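import Pool.Agent.Lib.MP_40a0b6_an.Refl
import Pool.Agent.Lib.MP_40a0b6_an.Level
set_option autoImplicit false
open MeasureTheory
open scoped ENNReal FourierTransform SchwartzMap
namespace Pool.Agent.FlatRes

/-- zeros of intermediate derivatives are countable if the last derivative has no zeros -/
theorem cover8_zeros (n : ℕ) (f : ℝ → ℝ) (α β : ℝ) (hf : ContDiffOn ℝ n f (Set.Ioo α β))
    (hd : ∀ x ∈ Set.Ioo α β, iteratedDeriv n f x ≠ 0) (i : ℕ) : ∀ j : ℕ, n = j + i →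
    {x | x ∈ Set.Ioo α β ∧ iteratedDeriv j f x = 0}.Countable := by
  induction i with
  | zero =>
    intro j hj
    have : {x | x ∈ Set.Ioo α β ∧ iteratedDeriv j f x = 0} = ∅ := by
      rw [Set.eq_empty_iff_forall_notMem]
      rintro x ⟨hx, h0⟩
      apply hd x hx
      rw [hj]
      exact h0
    rw [this]
    exact Set.countable_empty
  | succ i ih =>
    intro j hj
    have h1 := ih (j + 1) (by omega)
    obtain ⟨s, hs⟩ : ∃ s : Set ℝ, s = {x | x ∈ Set.Ioo α β ∧ iteratedDeriv j f x = 0} := ⟨_, rfl⟩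
    rw [← hs]
    have h2 := countable_setOfPred_isolated_right_within (s := s)
    refine (h1.union h2).mono ?_
    intro x hx
    have hx' := hx
    rw [hs] at hx'
    obtain ⟨hxI, hx0⟩ := hx'
    by_cases hx1 : iteratedDeriv (j + 1) f x = 0
    · exact Or.inl ⟨hxI, hx1⟩
    right
    refine ⟨hx, ?_⟩
    have hdiff : DifferentiableAt ℝ (iteratedDeriv j f) x := by
      have h3 := hf.differentiableOn_iteratedDerivWithin (m := j)
        (by exact_mod_cast (show j < n by omega)) isOpen_Ioo.uniqueDiffOn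
      have h4 : DifferentiableOn ℝ (iteratedDeriv j f) (Set.Ioo α β) :=
        h3.congr (fun y hy => (iteratedDerivWithin_of_isOpen isOpen_Ioo hy).symm)
      exact (h4 x hxI).differentiableAt (isOpen_Ioo.mem_nhds hxI)
    have h5 : HasDerivAt (iteratedDeriv j f) (iteratedDeriv (j + 1) f x) x := by
      rw [iteratedDeriv_succ]
      exact hdiff.hasDerivAt
    have h6 := h5.eventually_ne (c := 0) hx1
    rw [← Filter.eventually_false_iff_eq_bot]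
    have h7 : ∀ᶠ z in nhdsWithin x (s ∩ Set.Ioi x), iteratedDeriv j f z ≠ 0 := by
      apply h6.filter_mono
      apply nhdsWithin_mono
      rintro z ⟨-, hz⟩
      exact ne_of_gt hz
    filter_upwards [h7, self_mem_nhdsWithin] with z hz1 hz2
    have hz3 := hz2.1
    rw [hs] at hz3
    exact hz1 hz3.2

theorem cover8_sq {σ : ℝ} (h : IsSign σ) (x : ℝ) : σ * (σ * x) = x := by
  rcases h with rfl | rfl <;> ring

theorem cover8_deriv (Ψ : ℝ × ℝ → ℝ) {σ1 σ2 σ3 : ℝ} (h1 : IsSign σ1) (h2 : IsSign σ2) (j : ℕ)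
    (u v : ℝ) : iteratedDeriv j (fun t => refl Ψ σ1 σ2 σ3 (σ1 * u, t)) (σ2 * v) =
      σ3 * σ2 ^ j * iteratedDeriv j (fun t => Ψ (u, t)) v := by
  have e : (fun t => refl Ψ σ1 σ2 σ3 (σ1 * u, t)) = fun t => σ3 * Ψ (u, σ2 * t) := by
    funext t
    unfold refl
    simp only [cover8_sq h1]
  rw [e, iteratedDeriv_const_mul_field]
  rcases h2 with rfl | rfl
  · simp
  · have := iteratedDeriv_comp_neg j (fun t => Ψ (u, t)) (-1 * v)
    simp only [neg_mul, one_mul, neg_neg, smul_eq_mul] at this ⊢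
    rw [this]
    ring

theorem cover8_mem (Ψ : ℝ × ℝ → ℝ) (γ : ℝ → ℝ) (a : ℝ) {σ1 σ2 σ3 : ℝ} (h1 : IsSign σ1)
    (h2 : IsSign σ2) (x : ℝ × ℝ) : x ∈ regσ Ψ γ a σ1 σ2 σ3 ↔
      0 < σ1 * x.1 ∧ σ1 * x.1 < a ∧ σ2 * γ x.1 < σ2 * x.2 ∧ σ2 * x.2 < a ∧
        0 < σ3 * iteratedDeriv 2 (fun t => Ψ (x.1, t)) x.2 := by
  unfold regσ region reflγ
  have e := cover8_deriv Ψ (σ3 := σ3) h1 h2 2 x.1 x.2
  have e2 : σ2 ^ 2 = 1 := by rcases h2 with rfl | rfl <;> norm_num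
  rw [e2, mul_one] at e
  show (0 < σ1 * x.1 ∧ σ1 * x.1 < a ∧ σ2 * γ (σ1 * (σ1 * x.1)) < σ2 * x.2 ∧ σ2 * x.2 < a ∧
    0 < iteratedDeriv 2 (fun t => refl Ψ σ1 σ2 σ3 (σ1 * x.1, t)) (σ2 * x.2)) ↔ _
  rw [e, cover8_sq h1]

theorem cover8_meas {n m : ℕ} {Ψ : ℝ × ℝ → ℝ} {γ : ℝ → ℝ} {a c κ s e : ℝ}
    (G : Geo n m Ψ γ a c κ s e) : MeasurableSet (region Ψ γ a) := by
  have hU : IsOpen {x : ℝ × ℝ | 0 < x.1 ∧ x.1 < a ∧ γ x.1 < x.2 ∧ x.2 < a} := by
    have hA : IsOpen {x : ℝ × ℝ | x.1 ∈ Set.Ioo 0 a} := isOpen_Ioo.preimage continuous_fst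
    have hc : ContinuousOn (fun x : ℝ × ℝ => x.2 - γ x.1) {x : ℝ × ℝ | x.1 ∈ Set.Ioo 0 a} := by
      apply continuousOn_snd.sub
      exact G.contγ.comp continuousOn_fst (fun x hx => hx)
    have h1 := hc.isOpen_inter_preimage hA (isOpen_Ioi (a := (0 : ℝ)))
    have h2 : IsOpen {x : ℝ × ℝ | x.2 < a} := isOpen_Iio.preimage continuous_snd
    convert h1.inter h2 using 1
    ext x
    simp only [Set.mem_ofPred_eq, Set.mem_inter_iff, Set.mem_Ioo, Set.mem_preimage, Set.mem_Ioi,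
      sub_pos]
    tauto
  have h3 := G.contD2.isOpen_inter_preimage hU (isOpen_Ioi (a := (0 : ℝ)))
  have h4 : region Ψ γ a = {x : ℝ × ℝ | 0 < x.1 ∧ x.1 < a ∧ γ x.1 < x.2 ∧ x.2 < a} ∩
      (fun x : ℝ × ℝ => iteratedDeriv 2 (fun t => Ψ (x.1, t)) x.2) ⁻¹' Set.Ioi 0 := by
    unfold region
    ext x
    simp only [Set.mem_ofPred_eq, Set.mem_inter_iff, Set.mem_preimage, Set.mem_Ioi]
    tauto
  rw [h4]
  exact h3.measurableSet

/-- the exceptional points of a slice in one quadrant -/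
theorem cover8_slice {n m : ℕ} (hn : 3 ≤ n) {Ψ : ℝ × ℝ → ℝ} {γ : ℝ → ℝ} {a c κ s e : ℝ}
    {σ1 σ2 : ℝ} (h1 : IsSign σ1) (h2 : IsSign σ2)
    (G : Geo n m (refl Ψ σ1 σ2 1) (reflγ γ σ1 σ2) a c κ s e) (u : ℝ) (hu : 0 < σ1 * u)
    (hua : σ1 * u < a) : {v : ℝ | σ2 * γ u < σ2 * v ∧ σ2 * v < a ∧
      iteratedDeriv 2 (fun t => Ψ (u, t)) v = 0}.Countable := by
  have hI : σ1 * u ∈ Set.Ioo 0 a := ⟨hu, hua⟩
  have hg : reflγ γ σ1 σ2 (σ1 * u) = σ2 * γ u := by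
    unfold reflγ
    rw [cover8_sq h1]
  have h3 := G.smooth _ hI
  have h4 := G.dn _ hI
  rw [hg] at h3 h4
  have h5 : ∀ x ∈ Set.Ioo (σ2 * γ u) a,
      iteratedDeriv n (fun v => refl Ψ σ1 σ2 1 (σ1 * u, v)) x ≠ 0 := by
    intro x hx h0
    have := h4 x hx
    rw [h0, mul_zero] at this
    exact absurd this (not_le.2 G.hc)
  have h6 := cover8_zeros n _ _ _ h3 h5 (n - 2) 2 (by omega)
  have h7 := h6.image (fun v => σ2 * v)
  refine h7.mono ?_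
  rintro v ⟨hv1, hv2, hv3⟩
  refine ⟨σ2 * v, ⟨⟨hv1, hv2⟩, ?_⟩, cover8_sq h2 v⟩
  rw [cover8_deriv Ψ h1 h2, hv3, mul_zero]

/-- JOB V2.  The eight reflected regions are pairwise disjoint measurable subsets of the box and
cover it up to a null set.  Exceptional points: `x₁ = 0`, or `x₂ = γ(x₁)`, or `∂₂²Ψ(x) = 0`; the
last set has finite slices off the curve (`level_intervals` / Rolle: `∂₂^nΨ ≠ 0`), so it is null by
Fubini (`Measure.measure_prod_null`). -/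
theorem reg_cover (n m : ℕ) (hn : 3 ≤ n) (Ψ : ℝ × ℝ → ℝ) (γ : ℝ → ℝ) (a c κ : ℝ) (ha : 0 < a)
    (hγ : ContinuousOn γ (Set.Ioo (-a) a)) (hγm : Measurable γ) (hγa : ∀ u, |u| < a → |γ u| < a)
    (G : ∀ σ1 σ2 σ3 : ℝ, IsSign σ1 → IsSign σ2 → IsSign σ3 → ∃ s e : ℝ,
        Geo n m (refl Ψ σ1 σ2 σ3) (reflγ γ σ1 σ2) a c κ s e) :
    (∀ σ1 σ2 σ3 : ℝ, IsSign σ1 → IsSign σ2 → IsSign σ3 →
      MeasurableSet (regσ Ψ γ a σ1 σ2 σ3) ∧ regσ Ψ γ a σ1 σ2 σ3 ⊆ box a) ∧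
    (∀ σ1 σ2 σ3 τ1 τ2 τ3 : ℝ, IsSign σ1 → IsSign σ2 → IsSign σ3 → IsSign τ1 → IsSign τ2 →
      IsSign τ3 → (σ1, σ2, σ3) ≠ (τ1, τ2, τ3) →
      Disjoint (regσ Ψ γ a σ1 σ2 σ3) (regσ Ψ γ a τ1 τ2 τ3)) ∧
    volume (box a \ ⋃ σ : {σ : ℝ × ℝ × ℝ // IsSign σ.1 ∧ IsSign σ.2.1 ∧ IsSign σ.2.2},
      regσ Ψ γ a σ.1.1 σ.1.2.1 σ.1.2.2) = 0 := by
  have habs : ∀ {σ y : ℝ}, IsSign σ → σ * y ≤ |y| := by
    intro σ y h
    rcases h with rfl | rfl
    · rw [one_mul]; exact le_abs_self y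
    · rw [neg_one_mul]; exact neg_le_abs y
  have hsgn : ∀ y : ℝ, y ≠ 0 → ∃ σ, IsSign σ ∧ 0 < σ * y := by
    intro y hy
    rcases lt_or_gt_of_ne hy with h | h
    · exact ⟨-1, Or.inr rfl, by linarith⟩
    · exact ⟨1, Or.inl rfl, by linarith⟩
  have part1 : ∀ σ1 σ2 σ3 : ℝ, IsSign σ1 → IsSign σ2 → IsSign σ3 →
      MeasurableSet (regσ Ψ γ a σ1 σ2 σ3) ∧ regσ Ψ γ a σ1 σ2 σ3 ⊆ box a := by
    intro σ1 σ2 σ3 h1 h2 h3
    constructor
    · obtain ⟨s, e, hG⟩ := G σ1 σ2 σ3 h1 h2 h3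
      have hm := cover8_meas hG
      have hf : Measurable (fun x : ℝ × ℝ => (σ1 * x.1, σ2 * x.2)) := by fun_prop
      exact hf hm
    · intro x hx
      rw [cover8_mem Ψ γ a h1 h2] at hx
      obtain ⟨k1, k2, k3, k4, -⟩ := hx
      have hx1 : |x.1| < a := by
        rcases h1 with rfl | rfl
        · rw [abs_lt]; constructor <;> linarith
        · rw [abs_lt]; constructor <;> linarith
      have hg := hγa x.1 hx1
      rw [abs_lt] at hg
      have hx2 : |x.2| < a := by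
        rcases h2 with rfl | rfl
        · rw [abs_lt]; constructor <;> linarith [hg.1, hg.2]
        · rw [abs_lt]; constructor <;> linarith [hg.1, hg.2]
      rw [abs_lt] at hx1 hx2
      exact ⟨hx1, hx2⟩
  refine ⟨part1, ?_, ?_⟩
  · intro σ1 σ2 σ3 τ1 τ2 τ3 h1 h2 h3 t1 t2 t3 hne
    rw [Set.disjoint_left]
    intro x hx hy
    rw [cover8_mem Ψ γ a h1 h2] at hx
    rw [cover8_mem Ψ γ a t1 t2] at hy
    obtain ⟨a1, -, a3, -, a5⟩ := hx
    obtain ⟨b1, -, b3, -, b5⟩ := hy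
    apply hne
    have e1 : σ1 = τ1 := by
      rcases h1 with rfl | rfl <;> rcases t1 with rfl | rfl <;> first | rfl | (exfalso; linarith)
    have e2 : σ2 = τ2 := by
      rcases h2 with rfl | rfl <;> rcases t2 with rfl | rfl <;> first | rfl | (exfalso; linarith)
    have e3 : σ3 = τ3 := by
      rcases h3 with rfl | rfl <;> rcases t3 with rfl | rfl <;> first | rfl | (exfalso; linarith)
    rw [e1, e2, e3]
  · have hfin : Finite {σ : ℝ × ℝ × ℝ // IsSign σ.1 ∧ IsSign σ.2.1 ∧ IsSign σ.2.2} := by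
      have h1 : ({1, -1} ×ˢ ({1, -1} ×ˢ {1, -1}) : Set (ℝ × ℝ × ℝ)).Finite :=
        (Set.toFinite _).prod ((Set.toFinite _).prod (Set.toFinite _))
      have h2 : {σ : ℝ × ℝ × ℝ | IsSign σ.1 ∧ IsSign σ.2.1 ∧ IsSign σ.2.2}.Finite := by
        refine h1.subset ?_
        rintro ⟨x, y, z⟩ ⟨hx, hy, hz⟩
        exact ⟨hx, hy, hz⟩
      exact h2.to_subtype
    have hmeas : MeasurableSet (box a \
        ⋃ σ : {σ : ℝ × ℝ × ℝ // IsSign σ.1 ∧ IsSign σ.2.1 ∧ IsSign σ.2.2},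
        regσ Ψ γ a σ.1.1 σ.1.2.1 σ.1.2.2) := by
      refine MeasurableSet.diff ?_ (MeasurableSet.iUnion fun σ =>
        (part1 _ _ _ σ.2.1 σ.2.2.1 σ.2.2.2).1)
      exact (isOpen_Ioo.prod isOpen_Ioo).measurableSet
    rw [Measure.volume_eq_prod, Measure.measure_prod_null hmeas]
    have hae : ∀ᵐ u : ℝ, u ≠ 0 := by
      rw [ae_iff]
      simp
    filter_upwards [hae] with u hu
    obtain ⟨σ1, hσ1, hσ1u⟩ := hsgn u hu
    by_cases hua : |u| < a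
    · obtain ⟨s, e, G1⟩ := G σ1 1 1 hσ1 (Or.inl rfl) (Or.inl rfl)
      obtain ⟨s', e', G2⟩ := G σ1 (-1) 1 hσ1 (Or.inr rfl) (Or.inl rfl)
      have hu1 : σ1 * u < a := lt_of_le_of_lt (habs hσ1) hua
      have c1 := cover8_slice hn hσ1 (Or.inl rfl) G1 u hσ1u hu1
      have c2 := cover8_slice hn hσ1 (Or.inr rfl) G2 u hσ1u hu1
      have c3 := ((Set.countable_singleton (γ u)).union c1).union c2
      show volume (Prod.mk u ⁻¹' (box a \
        ⋃ σ : {σ : ℝ × ℝ × ℝ // IsSign σ.1 ∧ IsSign σ.2.1 ∧ IsSign σ.2.2},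
        regσ Ψ γ a σ.1.1 σ.1.2.1 σ.1.2.2)) = 0
      refine measure_mono_null ?_ (c3.measure_zero volume)
      rintro v ⟨hvbox, hv⟩
      by_contra hcon
      have hva : |v| < a := abs_lt.2 hvbox.2
      have hvγ : v - γ u ≠ 0 := by
        intro h
        apply hcon
        left; left
        show v = γ u
        linarith
      obtain ⟨σ2, hσ2, hσ2v⟩ := hsgn _ hvγ
      have hlt : σ2 * γ u < σ2 * v := by
        have : σ2 * (v - γ u) = σ2 * v - σ2 * γ u := by ring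
        linarith
      have hlta : σ2 * v < a := lt_of_le_of_lt (habs hσ2) hva
      have hD : iteratedDeriv 2 (fun t => Ψ (u, t)) v ≠ 0 := by
        intro h0
        apply hcon
        rcases hσ2 with rfl | rfl
        · left; right
          exact ⟨hlt, hlta, h0⟩
        · right
          exact ⟨hlt, hlta, h0⟩
      obtain ⟨σ3, hσ3, hσ3v⟩ := hsgn _ hD
      apply hv
      rw [Set.mem_iUnion]
      refine ⟨⟨(σ1, σ2, σ3), hσ1, hσ2, hσ3⟩, ?_⟩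
      rw [cover8_mem Ψ γ a hσ1 hσ2]
      exact ⟨hσ1u, hu1, hlt, hlta, hσ3v⟩
    · have : Prod.mk u ⁻¹' (box a \
        ⋃ σ : {σ : ℝ × ℝ × ℝ // IsSign σ.1 ∧ IsSign σ.2.1 ∧ IsSign σ.2.2},
        regσ Ψ γ a σ.1.1 σ.1.2.1 σ.1.2.2) = ∅ := by
        rw [Set.eq_empty_iff_forall_notMem]
        rintro v ⟨hvbox, -⟩
        exact hua (abs_lt.2 hvbox.1)
      rw [this]
      simp

end Pool.Agent.FlatRes
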