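import Pool.Agent.Lib.MP_40a0b6_an.Defs
set_option autoImplicit false
open MeasureTheory
open scoped ENNReal FourierTransform SchwartzMap
namespace Pool.Agent.FlatRes

/-- JOB L2.  A lower bound for the second derivative gives strong convexity. -/
theorem strongConvex_of_deriv2 (f : ℝ → ℝ) (α β lam : ℝ) (J : Set ℝ) (hJ : J.OrdConnected)
    (hJs : J ⊆ Set.Ioo α β) (hf : ContDiffOn ℝ 2 f (Set.Ioo α β))
    (hl : ∀ x ∈ J, lam ≤ iteratedDeriv 2 f x) : StrongConvexOn J lam f := by
  rw [strongConvexOn_iff_convex]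
  have hopen : IsOpen (Set.Ioo α β) := isOpen_Ioo
  have hd1 : ∀ x ∈ Set.Ioo α β, DifferentiableAt ℝ f x := fun x hx =>
    ((hf.differentiableOn (by norm_num)) x hx).differentiableAt (hopen.mem_nhds hx)
  have hf1 : ContDiffOn ℝ 1 (deriv f) (Set.Ioo α β) :=
    hf.deriv_of_isOpen hopen (by norm_num)
  have hd2 : ∀ x ∈ Set.Ioo α β, DifferentiableAt ℝ (deriv f) x := fun x hx =>
    ((hf1.differentiableOn (by norm_num)) x hx).differentiableAt (hopen.mem_nhds hx)
  set g : ℝ → ℝ := fun x => f x - lam / 2 * ‖x‖ ^ 2 with hg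
  have hgd : ∀ x ∈ Set.Ioo α β, HasDerivAt g (deriv f x - lam * x) x := by
    intro x hx
    have h1 := (hd1 x hx).hasDerivAt
    have h2 : HasDerivAt (fun y : ℝ => lam / 2 * y ^ 2) (lam / 2 * (2 * x)) x := by
      have := (hasDerivAt_pow 2 x).const_mul (lam / 2)
      simpa using this
    have h3 := h1.sub h2
    have h4 : (fun y => f y - lam / 2 * y ^ 2) = g := by
      funext y
      rw [hg]
      simp only [Real.norm_eq_abs, sq_abs]
    have h5 : f - (fun y : ℝ => lam / 2 * y ^ 2) = g := by
      rw [← h4]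
      rfl
    rw [h5] at h3
    have h6 : deriv f x - lam / 2 * (2 * x) = deriv f x - lam * x := by ring
    rw [h6] at h3
    exact h3
  have hgd2 : ∀ x ∈ Set.Ioo α β, HasDerivAt (deriv g) (deriv (deriv f) x - lam) x := by
    intro x hx
    have h1 : deriv g =ᶠ[nhds x] fun y => deriv f y - lam * y := by
      filter_upwards [hopen.mem_nhds hx] with y hy
      exact (hgd y hy).deriv
    have h2 : HasDerivAt (fun y => deriv f y - lam * y) (deriv (deriv f) x - lam) x := by
      have h3 := (hd2 x hx).hasDerivAt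
      have h4 := (hasDerivAt_id x).const_mul lam
      rw [mul_one] at h4
      exact h3.sub h4
    exact h2.congr_of_eventuallyEq h1
  refine convexOn_of_deriv2_nonneg' hJ.convex ?_ ?_ ?_
  · intro x hx
    exact (hgd x (hJs hx)).differentiableAt.differentiableWithinAt
  · intro x hx
    exact (hgd2 x (hJs hx)).differentiableAt.differentiableWithinAt
  · intro x hx
    have h1 := hl x hx
    rw [iteratedDeriv_succ, iteratedDeriv_one] at h1
    have h2 : deriv^[2] g x = deriv (deriv g) x := rfl
    rw [h2, (hgd2 x (hJs hx)).deriv]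
    linarith

end Pool.Agent.FlatRes
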