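import Pool.Agent.Lib.MP_40a0b6_an.Curve
import Pool.Agent.Lib.MP_40a0b6_an.StrConv
set_option autoImplicit false
open MeasureTheory
open scoped ENNReal FourierTransform SchwartzMap Topology
namespace Pool.Agent.FlatRes

/-- partial derivatives in the second variable -/
private noncomputable def geoExG (g : ℝ × ℝ → ℝ) (j : ℕ) (x : ℝ × ℝ) : ℝ :=
  iteratedDeriv j (fun t => g (x.1, t)) x.2

private theorem geoEx_refl (f : ℝ × ℝ → ℝ) {σ1 σ2 σ3 : ℝ} (h2 : IsSign σ2) (j : ℕ) (u v : ℝ) :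
    iteratedDeriv j (fun t => refl f σ1 σ2 σ3 (u, t)) v =
      σ3 * σ2 ^ j * iteratedDeriv j (fun t => f (σ1 * u, t)) (σ2 * v) := by
  unfold refl
  simp only
  rw [iteratedDeriv_const_mul_field]
  rcases h2 with rfl | rfl
  · simp
  · have h := iteratedDeriv_comp_neg j (fun t => f (σ1 * u, t)) v
    have e : (fun t => f (σ1 * u, -1 * t)) = fun t => f (σ1 * u, -t) := by
      funext t
      rw [neg_one_mul]
    rw [e, h, neg_one_mul, smul_eq_mul]
    ring

private theorem geoEx_phi (n m j : ℕ) (u v : ℝ) :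
    iteratedDeriv j (fun t => phi n m (u, t)) v =
      n.descFactorial j * (v - u ^ m) ^ (n - j) := by
  unfold phi
  have h := congrFun (iteratedDeriv_comp_sub_const j (fun t : ℝ => t ^ n) (u ^ m)) v
  simp only at h ⊢
  rw [h, iteratedDeriv_pow]

private theorem geoEx_phi_smooth (n m : ℕ) : ContDiff ℝ (⊤ : ℕ∞) (phi n m) := by
  unfold phi
  fun_prop

private theorem geoEx_box_open (a : ℝ) : IsOpen (box a) := isOpen_Ioo.prod isOpen_Ioo

private theorem geoEx_mem_box {a u v : ℝ} (hu : |u| < a) (hv : |v| < a) : (u, v) ∈ box a :=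
  ⟨abs_lt.1 hu, abs_lt.1 hv⟩

private theorem geoEx_norm {a : ℝ} {x : ℝ × ℝ} (hx : x ∈ box a) : ‖x‖ < a := by
  rw [Prod.norm_def, max_lt_iff]
  exact ⟨abs_lt.2 hx.1, abs_lt.2 hx.2⟩

private theorem geoEx_psi (n m : ℕ) {g : ℝ × ℝ → ℝ} {a : ℝ}
    (hg : ContDiffOn ℝ (⊤ : ℕ∞) g (box a)) (j : ℕ) {u v : ℝ} (hu : |u| < a) (hv : |v| < a) :
    iteratedDeriv j (fun t => psi0 n m g a (u, t)) v =
      n.descFactorial j * (v - u ^ m) ^ (n - j) + geoExG g j (u, v) := by
  have hev : (fun t => psi0 n m g a (u, t)) =ᶠ[𝓝 v] (fun t => phi n m (u, t) + g (u, t)) := by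
    have h1 : Set.Ioo (-a) a ∈ 𝓝 v := Ioo_mem_nhds (abs_lt.1 hv).1 (abs_lt.1 hv).2
    filter_upwards [h1] with t ht
    have h2 : (u, t) ∈ box a := ⟨abs_lt.1 hu, ht⟩
    exact Set.indicator_of_mem h2 _
  rw [hev.iteratedDeriv_eq j, iteratedDeriv_fun_add, geoEx_phi]
  · rfl
  · exact ((geoEx_phi_smooth n m).of_le (by exact_mod_cast le_top)).contDiffAt.comp v
      (by fun_prop : ContDiffAt ℝ j (fun t : ℝ => (u, t)) v)
  · have h1 : ContDiffAt ℝ j g (u, v) :=
      (hg.contDiffAt ((geoEx_box_open a).mem_nhds (geoEx_mem_box hu hv))).of_le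
        (by exact_mod_cast le_top)
    exact h1.comp v (by fun_prop : ContDiffAt ℝ j (fun t : ℝ => (u, t)) v)

private theorem geoEx_flat (g : ℝ × ℝ → ℝ) (hg : FlatAtZero g) (j : ℕ) :
    FlatAtZero (geoExG g j) := flat_partial g hg j

private theorem geoEx_ball {g : ℝ × ℝ → ℝ} (hg : FlatAtZero g) :
    ∃ r : ℝ, 0 < r ∧ ContDiffOn ℝ (⊤ : ℕ∞) g (Metric.ball 0 r) := by
  obtain ⟨⟨V, hV, h0, hc⟩, -⟩ := hg
  obtain ⟨r, hr, hb⟩ := Metric.isOpen_iff.1 hV 0 h0
  exact ⟨r, hr, hc.mono hb⟩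

private theorem geoEx_box_ball {a r : ℝ} (h : a ≤ r) : box a ⊆ Metric.ball (0 : ℝ × ℝ) r := by
  intro x hx
  rw [mem_ball_zero_iff]
  exact (geoEx_norm hx).trans_le h

private theorem geoEx_value {g : ℝ × ℝ → ℝ} (hg : FlatAtZero g) (j N : ℕ) {ε : ℝ} (hε : 0 < ε) :
    ∃ δ : ℝ, 0 < δ ∧ ∀ x : ℝ × ℝ, ‖x‖ < δ → |geoExG g j x| ≤ ε * ‖x‖ ^ N := by
  obtain ⟨δ, hδ, h⟩ := flat_bound (geoExG g j) (geoEx_flat g hg j) N 0 ε hε
  refine ⟨δ, hδ, fun x hx => ?_⟩
  have h1 := h x hx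
  rwa [norm_iteratedFDeriv_zero, Real.norm_eq_abs] at h1

/-- The data for the function itself. -/
private structure geoExCore (n m : ℕ) (g : ℝ × ℝ → ℝ) (a c : ℝ) (γ : ℝ → ℝ) : Prop where
  ha : 0 < a
  ha1 : a ≤ 1 / 2
  hc : 0 < c
  gb : ∀ u, |u| < a → |γ u| < a
  out : ∀ u, ¬ |u| < a → γ u = 0
  smoothγ : ContDiffOn ℝ 2 γ (Set.Ioo (-a) a)
  smoothg : ContDiffOn ℝ (⊤ : ℕ∞) g (box a)
  contG : ContinuousOn (geoExG g 2) (box a)
  bdd : ∃ M : ℝ, ∀ x ∈ box a, |phi n m x + g x| ≤ M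
  dn : ∀ u v, |u| < a → |v| < a → c ≤ (n.factorial : ℝ) + geoExG g n (u, v)
  dn1 : ∀ u v, |u| < a → |v| < a → γ u < v →
    c * (v - γ u) ≤ (n.factorial : ℝ) * (v - u ^ m) + geoExG g (n - 1) (u, v)
  dn1' : ∀ u v, |u| < a → |v| < a → v < γ u →
    (n.factorial : ℝ) * (v - u ^ m) + geoExG g (n - 1) (u, v) ≤ -(c * (γ u - v))
  outer : ∀ u v, |u| < a → |v| < a → |u| ^ m ≤ |v - γ u| →
    c * |v - γ u| ^ (n - 2) ≤
      |(n.descFactorial 2 : ℝ) * (v - u ^ m) ^ (n - 2) + geoExG g 2 (u, v)|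
  curv : ∀ u ∈ Set.Ioo (-a) a,
    |iteratedDeriv 2 γ u - (m : ℝ) * ((m : ℝ) - 1) * u ^ (m - 2)| ≤ (1 / 2) * |u| ^ (m - 2)

private theorem geoEx_outer_aux {n m : ℕ} (hn : 3 ≤ n) (hm : 2 ≤ m) {u v w G : ℝ}
    (hw1 : |v - w| ≤ 1) (hw2 : |w - u ^ m| ≤ (1 / 4) * |u| ^ m) (hu : |u| ^ m ≤ |v - w|)
    (hG : |G| ≤ (3 / 4 : ℝ) ^ (n - 2) / (9 / 4 : ℝ) ^ (m * (n - 2)) *
      (max |u| |v|) ^ (m * (n - 2))) :
    (3 / 4 : ℝ) ^ (n - 2) * |v - w| ^ (n - 2) ≤
      |(n.descFactorial 2 : ℝ) * (v - u ^ m) ^ (n - 2) + G| := by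
  set Y := |v - w| with hY
  have hY0 : 0 ≤ Y := abs_nonneg _
  have hum : 0 ≤ |u| ^ m := by positivity
  -- `|y| ≥ 3/4 |y'|`
  have hy : (3 / 4) * Y ≤ |v - u ^ m| := by
    have h1 : |v - w| ≤ |v - u ^ m| + |w - u ^ m| := by
      have h2 := abs_sub (v - u ^ m) (w - u ^ m)
      have h3 : v - u ^ m - (w - u ^ m) = v - w := by ring
      rw [h3] at h2
      exact h2
    rw [← hY] at h1
    linarith
  -- `|v| ≤ 9/4 |y'|`
  have hv : |v| ≤ (9 / 4) * Y := by
    have h1 : |v| ≤ |v - w| + |w - u ^ m| + |u ^ m| := by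
      have h2 := abs_add_le (v - w + (w - u ^ m)) (u ^ m)
      have h3 := abs_add_le (v - w) (w - u ^ m)
      have h4 : v - w + (w - u ^ m) + u ^ m = v := by ring
      rw [h4] at h2
      linarith
    rw [abs_pow, ← hY] at h1
    linarith
  have hmax : (max |u| |v|) ^ m ≤ (9 / 4) ^ m * Y := by
    have h94 : (1 : ℝ) ≤ (9 / 4) ^ m := one_le_pow₀ (by norm_num)
    rcases le_total |u| |v| with h | h
    · rw [max_eq_right h]
      calc |v| ^ m ≤ ((9 / 4) * Y) ^ m := pow_le_pow_left₀ (abs_nonneg _) hv m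
        _ = (9 / 4) ^ m * Y ^ m := mul_pow _ _ _
        _ ≤ (9 / 4) ^ m * Y := by
            refine mul_le_mul_of_nonneg_left ?_ (by positivity)
            calc Y ^ m ≤ Y ^ 1 := pow_le_pow_of_le_one hY0 hw1 (by omega)
              _ = Y := pow_one Y
    · rw [max_eq_left h]
      calc |u| ^ m ≤ Y := hu
        _ ≤ (9 / 4) ^ m * Y := le_mul_of_one_le_left hY0 h94
  have hpow : (max |u| |v|) ^ (m * (n - 2)) ≤ (9 / 4 : ℝ) ^ (m * (n - 2)) * Y ^ (n - 2) := by
    rw [pow_mul, pow_mul, ← mul_pow]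
    exact pow_le_pow_left₀ (by positivity) hmax _
  have hG' : |G| ≤ (3 / 4 : ℝ) ^ (n - 2) * Y ^ (n - 2) := by
    refine hG.trans ?_
    have h1 : (3 / 4 : ℝ) ^ (n - 2) / (9 / 4 : ℝ) ^ (m * (n - 2)) *
        (max |u| |v|) ^ (m * (n - 2)) ≤
        (3 / 4 : ℝ) ^ (n - 2) / (9 / 4 : ℝ) ^ (m * (n - 2)) *
          ((9 / 4 : ℝ) ^ (m * (n - 2)) * Y ^ (n - 2)) :=
      mul_le_mul_of_nonneg_left hpow (by positivity)
    refine h1.trans (le_of_eq ?_)
    field_simp
  have hdesc : (2 : ℝ) ≤ (n.descFactorial 2 : ℝ) := by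
    have h1 : 2 ≤ n.descFactorial 2 := by
      rw [Nat.descFactorial_succ, Nat.descFactorial_one]
      have h2 : 2 * 1 ≤ (n - 1) * n := Nat.mul_le_mul (by omega) (by omega)
      omega
    exact_mod_cast h1
  have hmain : 2 * ((3 / 4 : ℝ) ^ (n - 2) * Y ^ (n - 2)) ≤
      |(n.descFactorial 2 : ℝ) * (v - u ^ m) ^ (n - 2)| := by
    rw [abs_mul, abs_pow, ← mul_pow]
    have h1 : |(n.descFactorial 2 : ℝ)| = (n.descFactorial 2 : ℝ) := abs_of_nonneg (by positivity)
    rw [h1]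
    exact mul_le_mul hdesc (pow_le_pow_left₀ (by positivity) hy _) (by positivity) (by positivity)
  have htri : |(n.descFactorial 2 : ℝ) * (v - u ^ m) ^ (n - 2)| ≤
      |(n.descFactorial 2 : ℝ) * (v - u ^ m) ^ (n - 2) + G| + |G| := by
    have h2 := abs_sub ((n.descFactorial 2 : ℝ) * (v - u ^ m) ^ (n - 2) + G) G
    rwa [add_sub_cancel_right] at h2
  linarith

private theorem geoEx_core (n m : ℕ) (hn : 3 ≤ n) (hm : 2 ≤ m) (g : ℝ × ℝ → ℝ)
    (hg : FlatAtZero g) : ∃ a c γ, geoExCore n m g a c γ := by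
  obtain ⟨a0, γ₁, ha0, hsm, -, hzero, hclose, hcurv⟩ := curve_exists n m hn hm g hg
  obtain ⟨r0, hr0, hg0⟩ := geoEx_ball hg
  obtain ⟨r1, hr1, hg1⟩ := geoEx_ball (geoEx_flat g hg 2)
  obtain ⟨r2, hr2, hg2⟩ := geoEx_ball (geoEx_flat g hg (n - 1))
  obtain ⟨δ1, hδ1, hb1⟩ := geoEx_value hg n 0 (ε := 1 / 2) (by norm_num)
  obtain ⟨δ2, hδ2, hb2⟩ := geoEx_value hg 2 (m * (n - 2))
    (ε := (3 / 4 : ℝ) ^ (n - 2) / (9 / 4 : ℝ) ^ (m * (n - 2))) (by positivity)
  -- the size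
  obtain ⟨a, ha, h1, h2, h3, h4, h5, h6, h7⟩ : ∃ a : ℝ, 0 < a ∧ a ≤ 1 / 2 ∧ a ≤ a0 ∧ a < r0 ∧
      a ≤ r1 ∧ a ≤ r2 ∧ a ≤ δ1 ∧ a ≤ δ2 := by
    refine ⟨min (min (min (1 / 2) a0) (min (r0 / 2) r1)) (min r2 (min δ1 δ2)), by positivity,
      ?_, ?_, ?_, ?_, ?_, ?_, ?_⟩
    · exact (min_le_left _ _).trans ((min_le_left _ _).trans (min_le_left _ _))
    · exact (min_le_left _ _).trans ((min_le_left _ _).trans (min_le_right _ _))
    · have : min (min (min (1 / 2) a0) (min (r0 / 2) r1)) (min r2 (min δ1 δ2)) ≤ r0 / 2 :=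
        (min_le_left _ _).trans ((min_le_right _ _).trans (min_le_left _ _))
      linarith
    · exact (min_le_left _ _).trans ((min_le_right _ _).trans (min_le_right _ _))
    · exact (min_le_right _ _).trans (min_le_left _ _)
    · exact (min_le_right _ _).trans ((min_le_right _ _).trans (min_le_left _ _))
    · exact (min_le_right _ _).trans ((min_le_right _ _).trans (min_le_right _ _))
  set γ : ℝ → ℝ := (Set.Ioo (-a) a).indicator γ₁ with hγ
  have hγin : ∀ u, |u| < a → γ u = γ₁ u := by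
    intro u hu
    have hu' : u ∈ Set.Ioo (-a) a := abs_lt.1 hu
    exact Set.indicator_of_mem hu' _
  have hmem0 : ∀ u, |u| < a → u ∈ Set.Ioo (-a0) a0 := fun u hu =>
    abs_lt.1 (hu.trans_le h2)
  have hsmg : ContDiffOn ℝ (⊤ : ℕ∞) g (box a) := hg0.mono (geoEx_box_ball h3.le)
  have hgb : ∀ u, |u| < a → |γ u| < a := by
    intro u hu
    rw [hγin u hu]
    have e1 := hclose u (hmem0 u hu)
    have e2 : |γ₁ u| ≤ |γ₁ u - u ^ m| + |u ^ m| := by
      have := abs_add_le (γ₁ u - u ^ m) (u ^ m)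
      rwa [sub_add_cancel] at this
    rw [abs_pow] at e2
    have e3 : |u| ^ m ≤ |u| ^ 2 := pow_le_pow_of_le_one (abs_nonneg _) (by linarith) hm
    have e4 : |u| ^ 2 ≤ |u| * (1 / 2) := by
      rw [sq]
      exact mul_le_mul_of_nonneg_left (by linarith) (abs_nonneg _)
    have e5 := abs_nonneg u
    linarith
  -- the derivative of order `n - 1`
  have hDn1 : ∀ u, |u| < a → ∀ v, |v| < a →
      iteratedDeriv (n - 1) (fun t => phi n m (u, t) + g (u, t)) v =
        (n.factorial : ℝ) * (v - u ^ m) + geoExG g (n - 1) (u, v) := by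
    intro u hu v hv
    have e1 := geoEx_psi n m hsmg (n - 1) hu hv
    have hev : (fun t => psi0 n m g a (u, t)) =ᶠ[𝓝 v] (fun t => phi n m (u, t) + g (u, t)) := by
      have h1 : Set.Ioo (-a) a ∈ 𝓝 v := Ioo_mem_nhds (abs_lt.1 hv).1 (abs_lt.1 hv).2
      filter_upwards [h1] with t ht
      have h2 : (u, t) ∈ box a := ⟨abs_lt.1 hu, ht⟩
      exact Set.indicator_of_mem h2 _
    rw [hev.iteratedDeriv_eq] at e1
    rw [e1]
    have e2 : n.descFactorial (n - 1) = n.factorial := by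
      obtain ⟨k, rfl⟩ : ∃ k, n = k + 1 := ⟨n - 1, by omega⟩
      rw [Nat.add_sub_cancel]
      have e3 := Nat.factorial_mul_descFactorial (Nat.le_succ k)
      rw [Nat.succ_eq_add_one, Nat.add_sub_cancel_left] at e3
      simpa using e3
    have e3 : n - (n - 1) = 1 := by omega
    rw [e2, e3, pow_one]
  -- monotonicity
  have hfac : (1 : ℝ) ≤ (n.factorial : ℝ) := by exact_mod_cast Nat.factorial_pos n
  have hdn : ∀ u v, |u| < a → |v| < a →
      (1 / 2 : ℝ) ≤ (n.factorial : ℝ) + geoExG g n (u, v) := by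
    intro u v hu hv
    have e1 := hb1 (u, v) ((geoEx_norm (geoEx_mem_box hu hv)).trans_le h6)
    rw [pow_zero, mul_one] at e1
    have e2 := (abs_le.1 e1).1
    linarith
  have hmono : ∀ u, |u| < a → ∀ x ∈ Set.Ioo (-a) a, ∀ y ∈ Set.Ioo (-a) a, x ≤ y →
      (1 / 2) * (y - x) ≤ ((n.factorial : ℝ) * (y - u ^ m) + geoExG g (n - 1) (u, y)) -
        ((n.factorial : ℝ) * (x - u ^ m) + geoExG g (n - 1) (u, x)) := by
    intro u hu
    have hdiff : ∀ v ∈ Set.Ioo (-a) a, HasDerivAt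
        (fun v => (n.factorial : ℝ) * (v - u ^ m) + geoExG g (n - 1) (u, v))
        ((n.factorial : ℝ) + geoExG g n (u, v)) v := by
      intro v hv
      have e1 : DifferentiableAt ℝ (fun v => geoExG g (n - 1) (u, v)) v := by
        have e2 : ContDiffAt ℝ (⊤ : ℕ∞) (geoExG g (n - 1)) (u, v) := by
          refine hg2.contDiffAt (Metric.isOpen_ball.mem_nhds ?_)
          exact geoEx_box_ball h5 (⟨abs_lt.1 hu, hv⟩ : (u, v) ∈ box a)
        have e3 : ContDiffAt ℝ (⊤ : ℕ∞) (fun v => geoExG g (n - 1) (u, v)) v :=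
          e2.comp v (by fun_prop : ContDiffAt ℝ (⊤ : ℕ∞) (fun t : ℝ => (u, t)) v)
        exact e3.differentiableAt (by simp)
      have e4 : deriv (fun v => geoExG g (n - 1) (u, v)) v = geoExG g n (u, v) := by
        unfold geoExG
        simp only
        have e5 : n = (n - 1) + 1 := by omega
        conv_rhs => rw [e5, iteratedDeriv_succ]
      have e6 := e1.hasDerivAt
      rw [e4] at e6
      have e7 : HasDerivAt (fun v => (n.factorial : ℝ) * (v - u ^ m)) (n.factorial : ℝ) v := by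
        have := ((hasDerivAt_id v).sub_const (u ^ m)).const_mul (n.factorial : ℝ)
        simpa using this
      exact e7.add e6
    have hcv : Convex ℝ (Set.Ioo (-a) a) := convex_Ioo _ _
    refine hcv.mul_sub_le_image_sub_of_le_deriv
      (f := fun v => (n.factorial : ℝ) * (v - u ^ m) + geoExG g (n - 1) (u, v)) ?_ ?_ ?_
    · exact fun v hv => (hdiff v hv).continuousAt.continuousWithinAt
    · rw [interior_Ioo]
      exact fun v hv => (hdiff v hv).differentiableAt.differentiableWithinAt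
    · rw [interior_Ioo]
      intro v hv
      rw [(hdiff v hv).deriv]
      exact hdn u v hu (abs_lt.2 hv)
  have hzero' : ∀ u, |u| < a →
      (n.factorial : ℝ) * (γ u - u ^ m) + geoExG g (n - 1) (u, γ u) = 0 := by
    intro u hu
    have e1 := hzero u (hmem0 u hu)
    rw [← hγin u hu] at e1
    rwa [hDn1 u hu (γ u) (hgb u hu)] at e1
  set c : ℝ := (1 / 2) * (3 / 4 : ℝ) ^ (n - 2) with hc
  have hcpos : 0 < c := by positivity
  have hc1 : c ≤ 1 / 2 := by
    have : (3 / 4 : ℝ) ^ (n - 2) ≤ 1 := pow_le_one₀ (by norm_num) (by norm_num)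
    rw [hc]
    linarith
  have hc2 : c ≤ (3 / 4 : ℝ) ^ (n - 2) := by
    have : (0 : ℝ) ≤ (3 / 4 : ℝ) ^ (n - 2) := by positivity
    rw [hc]
    linarith
  refine ⟨a, c, γ, ⟨ha, h1, hcpos, hgb, ?_, ?_, hsmg, ?_, ?_, ?_, ?_, ?_, ?_, ?_⟩⟩
  · intro u hu
    have hu' : u ∉ Set.Ioo (-a) a := fun h => hu (abs_lt.2 h)
    exact Set.indicator_of_notMem hu' _
  · refine (hsm.mono ?_).congr fun u hu => hγin u (abs_lt.2 hu)
    exact fun u hu => hmem0 u (abs_lt.2 hu)
  · exact (hg1.continuousOn).mono (geoEx_box_ball h4)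
  · have hK : IsCompact (Set.Icc (-a) a ×ˢ Set.Icc (-a) a) := isCompact_Icc.prod isCompact_Icc
    have hcont : ContinuousOn (fun x => phi n m x + g x) (Set.Icc (-a) a ×ˢ Set.Icc (-a) a) := by
      refine ((geoEx_phi_smooth n m).continuous.continuousOn).add (hg0.continuousOn.mono ?_)
      intro x hx
      rw [mem_ball_zero_iff, Prod.norm_def]
      refine (max_le ?_ ?_).trans_lt h3
      · exact abs_le.2 hx.1
      · exact abs_le.2 hx.2
    obtain ⟨M, hM⟩ := hK.exists_bound_of_continuousOn hcont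
    refine ⟨M, fun x hx => ?_⟩
    have := hM x ⟨Set.Ioo_subset_Icc_self hx.1, Set.Ioo_subset_Icc_self hx.2⟩
    rwa [Real.norm_eq_abs] at this
  · exact fun u v hu hv => hc1.trans (hdn u v hu hv)
  · intro u v hu hv huv
    have e1 := hmono u hu (γ u) (abs_lt.1 (hgb u hu)) v (abs_lt.1 hv) huv.le
    rw [hzero' u hu, sub_zero] at e1
    refine le_trans ?_ e1
    exact mul_le_mul_of_nonneg_right hc1 (by linarith)
  · intro u v hu hv huv
    have e1 := hmono u hu v (abs_lt.1 hv) (γ u) (abs_lt.1 (hgb u hu)) huv.le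
    rw [hzero' u hu, zero_sub] at e1
    have e2 : c * (γ u - v) ≤ (1 / 2) * (γ u - v) :=
      mul_le_mul_of_nonneg_right hc1 (by linarith)
    linarith
  · intro u v hu hv huv
    have e1 : |v - γ u| ≤ 1 := by
      have e2 := abs_sub v (γ u)
      have e3 := hgb u hu
      linarith
    have e2 : |γ u - u ^ m| ≤ (1 / 4) * |u| ^ m := by
      rw [hγin u hu]
      exact hclose u (hmem0 u hu)
    have e3 := hb2 (u, v) ((geoEx_norm (geoEx_mem_box hu hv)).trans_le h7)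
    rw [Prod.norm_def] at e3
    have e4 := geoEx_outer_aux hn hm e1 e2 huv e3
    exact (mul_le_mul_of_nonneg_right hc2 (by positivity)).trans e4
  · intro u hu
    have hev : γ =ᶠ[𝓝 u] γ₁ := by
      filter_upwards [Ioo_mem_nhds hu.1 hu.2] with t ht
      exact hγin t (abs_lt.2 ht)
    have e1 := hcurv u (hmem0 u (abs_lt.2 hu))
    have e2 : iteratedDeriv 2 γ₁ u = deriv (deriv γ₁) u := by
      rw [show (2 : ℕ) = 1 + 1 from rfl, iteratedDeriv_succ, iteratedDeriv_one]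
    rw [hev.iteratedDeriv_eq 2, e2]
    exact e1

/-- JOB GC.  The geometric data exist, in all eight reflections simultaneously.
Take `a` small: the closed box of size `a` is contained in the set where `g` is smooth and in the
neighbourhoods given by `curve_exists`, `flat_bound`; `γ` is `curve_exists`' curve on `(-a,a)` and `0`
outside.  For `Ψ = φ+g` on the box: `∂₂^nΨ = n! + ∂₂^n g ∈ [n!/2, 2 n!]`; hence (mean value theorem,
`∂₂^{n-1}Ψ(u,γ(u)) = 0`) `∂₂^{n-1}Ψ(u,v)` has the sign of `v-γ(u)` and absolute value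
`≥ (n!/2)|v-γ(u)|`.  Outer condition: if `|u|^m ≤ |v-γ(u)|` then `y = v-u^m` satisfies
`|y - (v-γ(u))| ≤ |v-γ(u)|/4`, `∂₂²Ψ = n(n-1)y^{n-2} + ∂₂²g`, `|∂₂²g(x)| ≤ ε‖x‖^{m(n-2)}` and
`‖x‖ ≤ 3|v-γ(u)|^{1/m}`.  Curvature: for `u ∈ (K/2,K]`, `γ''(u) ≥ (3/2) u^{m-2} ≥ (3/2)(K/2)^{m-2}`, for
negative `u` multiply by `(-1)^m`.  Reflections: `x₂ ↦ -x₂` multiplies `∂₂^jΨ` by `(-1)^j`, so `∂₂^n` and
`∂₂^{n-1}` (which changes sign across the curve) keep a common sign `s`. -/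
theorem geo_exists (n m : ℕ) (hn : 3 ≤ n) (hm : 2 ≤ m) (g : ℝ × ℝ → ℝ) (hg : FlatAtZero g) :
    ∃ (a c κ : ℝ) (γ : ℝ → ℝ), 0 < a ∧ (∀ u, |u| < a → |γ u| < a) ∧
      ContinuousOn γ (Set.Ioo (-a) a) ∧ Measurable γ ∧
      ContDiffOn ℝ (⊤ : ℕ∞) g (box a) ∧ Measurable (psi0 n m g a) ∧
      (∃ M : ℝ, ∀ x, |psi0 n m g a x| ≤ M) ∧
      ∀ σ1 σ2 σ3 : ℝ, IsSign σ1 → IsSign σ2 → IsSign σ3 → ∃ s e : ℝ,
        Geo n m (refl (psi0 n m g a) σ1 σ2 σ3) (reflγ γ σ1 σ2) a c κ s e := by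
  obtain ⟨a, c, γ, H⟩ := geoEx_core n m hn hm g hg
  have ha := H.ha
  have hcontγ : ContinuousOn γ (Set.Ioo (-a) a) := H.smoothγ.continuousOn
  have hmeasγ : Measurable γ := by
    classical
    have e1 : γ = (Set.Ioo (-a) a).piecewise γ (fun _ => 0) := by
      funext u
      by_cases hu : u ∈ Set.Ioo (-a) a
      · rw [Set.piecewise_eq_of_mem _ _ _ hu]
      · rw [Set.piecewise_eq_of_notMem _ _ _ hu]
        exact H.out u fun h => hu (abs_lt.1 h)
    rw [e1]
    exact hcontγ.measurable_piecewise continuousOn_const measurableSet_Ioo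
  have hcontΨ : ContinuousOn (fun x => phi n m x + g x) (box a) :=
    ((geoEx_phi_smooth n m).continuous.continuousOn).add H.smoothg.continuousOn
  have hmeasΨ : Measurable (psi0 n m g a) := by
    classical
    unfold psi0
    rw [← Set.piecewise_eq_indicator]
    exact hcontΨ.measurable_piecewise continuousOn_const (geoEx_box_open a).measurableSet
  obtain ⟨M, hM⟩ := H.bdd
  have hbddΨ : ∀ x, |psi0 n m g a x| ≤ |M| := by
    intro x
    by_cases hx : x ∈ box a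
    · unfold psi0
      rw [Set.indicator_of_mem hx]
      exact (hM x hx).trans (le_abs_self M)
    · unfold psi0
      rw [Set.indicator_of_notMem hx, abs_zero]
      exact abs_nonneg M
  have hbddγ : ∀ u, |γ u| ≤ a := by
    intro u
    by_cases hu : |u| < a
    · exact (H.gb u hu).le
    · rw [H.out u hu, abs_zero]
      exact ha.le
  refine ⟨a, c, (3 / 2) * (1 / 2) ^ (m - 2), γ, ha, H.gb, hcontγ, hmeasγ, H.smoothg, hmeasΨ,
    ⟨|M|, hbddΨ⟩, ?_⟩
  intro σ1 σ2 σ3 hσ1 hσ2 hσ3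
  have habs1 : |σ1| = 1 := by rcases hσ1 with rfl | rfl <;> simp
  have habs2 : |σ2| = 1 := by rcases hσ2 with rfl | rfl <;> simp
  have habs3 : |σ3| = 1 := by rcases hσ3 with rfl | rfl <;> simp
  have hsq1 : σ1 * σ1 = 1 := by rcases hσ1 with rfl | rfl <;> norm_num
  have hsq2 : σ2 * σ2 = 1 := by rcases hσ2 with rfl | rfl <;> norm_num
  have hsq3 : σ3 * σ3 = 1 := by rcases hσ3 with rfl | rfl <;> norm_num
  have hpow_sign : ∀ {σ : ℝ}, IsSign σ → ∀ k : ℕ, IsSign (σ ^ k) := by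
    intro σ hσ k
    rcases hσ with rfl | rfl
    · left; simp
    · rcases neg_one_pow_eq_or ℝ k with h | h
      · exact Or.inl h
      · exact Or.inr h
  have hmul_sign : ∀ {σ τ : ℝ}, IsSign σ → IsSign τ → IsSign (σ * τ) := by
    intro σ τ hσ hτ
    rcases hσ with rfl | rfl <;> rcases hτ with rfl | rfl
    · left; norm_num
    · right; norm_num
    · right; norm_num
    · left; norm_num
  have hu_abs : ∀ u, 0 < u → u < a → |σ1 * u| < a := by
    intro u h0 h1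
    rw [abs_mul, habs1, one_mul, abs_of_pos h0]
    exact h1
  have hγrefl : ∀ u, 0 < u → u < a → |reflγ γ σ1 σ2 u| < a := by
    intro u h0 h1
    unfold reflγ
    rw [abs_mul, habs2, one_mul]
    exact H.gb _ (hu_abs u h0 h1)
  have hv_abs : ∀ u v, 0 < u → u < a → reflγ γ σ1 σ2 u < v → v < a → |σ2 * v| < a := by
    intro u v h0 h1 h2 h3
    rw [abs_mul, habs2, one_mul, abs_lt]
    have := (abs_lt.1 (hγrefl u h0 h1)).1
    exact ⟨by linarith, h3⟩
  -- the derivatives of the reflected function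
  have hder : ∀ (j : ℕ) (u v : ℝ), 0 < u → u < a → reflγ γ σ1 σ2 u < v → v < a →
      iteratedDeriv j (fun t => refl (psi0 n m g a) σ1 σ2 σ3 (u, t)) v =
        σ3 * σ2 ^ j * (n.descFactorial j * (σ2 * v - (σ1 * u) ^ m) ^ (n - j) +
          geoExG g j (σ1 * u, σ2 * v)) := by
    intro j u v h0 h1 h2 h3
    rw [geoEx_refl _ hσ2, geoEx_psi n m H.smoothg j (hu_abs u h0 h1) (hv_abs u v h0 h1 h2 h3)]
  refine ⟨σ3 * σ2 ^ n, σ2 * σ1 ^ m, ?_⟩
  have hs : IsSign (σ3 * σ2 ^ n) := hmul_sign hσ3 (hpow_sign hσ2 n)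
  have he : IsSign (σ2 * σ1 ^ m) := hmul_sign hσ2 (hpow_sign hσ1 m)
  have hs2 : ∀ k : ℕ, σ2 ^ k * σ2 ^ k = 1 := by
    intro k
    rw [← mul_pow, hsq2, one_pow]
  refine
    { ha := ha
      ha1 := H.ha1
      hc := H.hc
      hκ := by positivity
      hs := hs
      he := he
      measΨ := ?_
      measγ := ?_
      bddΨ := ⟨|M|, ?_⟩
      bddγ := ⟨a, ?_⟩
      gb := fun u hu => hγrefl u hu.1 hu.2
      contγ := ?_
      contD2 := ?_
      smooth := ?_
      dn := ?_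
      dn1 := ?_
      outer := ?_
      curv := ?_ }
  · unfold refl
    exact (hmeasΨ.comp (by fun_prop)).const_mul σ3
  · unfold reflγ
    exact (hmeasγ.comp (by fun_prop)).const_mul σ2
  · intro x
    unfold refl
    rw [abs_mul, habs3, one_mul]
    exact hbddΨ _
  · intro u
    unfold reflγ
    rw [abs_mul, habs2, one_mul]
    exact hbddγ _
  · unfold reflγ
    refine ContinuousOn.mul continuousOn_const (hcontγ.comp (by fun_prop) ?_)
    intro u hu
    exact abs_lt.1 (hu_abs u hu.1 hu.2)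
  · -- continuity of the second derivative
    have h1 : ContinuousOn (fun x : ℝ × ℝ => σ3 * σ2 ^ 2 *
        (n.descFactorial 2 * (σ2 * x.2 - (σ1 * x.1) ^ m) ^ (n - 2) +
          geoExG g 2 (σ1 * x.1, σ2 * x.2)))
        {x | 0 < x.1 ∧ x.1 < a ∧ reflγ γ σ1 σ2 x.1 < x.2 ∧ x.2 < a} := by
      have h2 : ContinuousOn (fun x : ℝ × ℝ => geoExG g 2 (σ1 * x.1, σ2 * x.2))
          {x | 0 < x.1 ∧ x.1 < a ∧ reflγ γ σ1 σ2 x.1 < x.2 ∧ x.2 < a} := by
        refine H.contG.comp (f := fun x : ℝ × ℝ => (σ1 * x.1, σ2 * x.2)) (by fun_prop) ?_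
        rintro x ⟨e1, e2, e3, e4⟩
        exact geoEx_mem_box (hu_abs x.1 e1 e2) (hv_abs x.1 x.2 e1 e2 e3 e4)
      refine ContinuousOn.mul continuousOn_const (ContinuousOn.add ?_ h2)
      fun_prop
    refine h1.congr ?_
    rintro x ⟨e1, e2, e3, e4⟩
    exact hder 2 x.1 x.2 e1 e2 e3 e4
  · -- smoothness of the slices
    intro u hu
    have h1 : ContDiffOn ℝ n (fun v => σ3 * (phi n m (σ1 * u, σ2 * v) + g (σ1 * u, σ2 * v)))
        (Set.Ioo (reflγ γ σ1 σ2 u) a) := by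
      have h2 : ContDiffOn ℝ n (fun v => phi n m (σ1 * u, σ2 * v))
          (Set.Ioo (reflγ γ σ1 σ2 u) a) := by
        have h3 : ContDiff ℝ n (phi n m) :=
          (geoEx_phi_smooth n m).of_le (by exact_mod_cast le_top)
        exact (h3.comp (by fun_prop : ContDiff ℝ n fun v : ℝ => (σ1 * u, σ2 * v))).contDiffOn
      have h3 : ContDiffOn ℝ n (fun v => g (σ1 * u, σ2 * v)) (Set.Ioo (reflγ γ σ1 σ2 u) a) := by
        have h4 : ContDiffOn ℝ n g (box a) := H.smoothg.of_le (by exact_mod_cast le_top)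
        refine h4.comp
          (by fun_prop : ContDiff ℝ n fun v : ℝ => (σ1 * u, σ2 * v)).contDiffOn ?_
        intro v hv
        exact geoEx_mem_box (hu_abs u hu.1 hu.2) (hv_abs u v hu.1 hu.2 hv.1 hv.2)
      exact contDiffOn_const.mul (h2.add h3)
    refine h1.congr ?_
    intro v hv
    have h2 : (σ1 * u, σ2 * v) ∈ box a :=
      geoEx_mem_box (hu_abs u hu.1 hu.2) (hv_abs u v hu.1 hu.2 hv.1 hv.2)
    show σ3 * psi0 n m g a (σ1 * u, σ2 * v) = _
    unfold psi0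
    rw [Set.indicator_of_mem h2]
  · -- the derivative of order `n`
    intro u hu v hv
    rw [hder n u v hu.1 hu.2 hv.1 hv.2, Nat.descFactorial_self, Nat.sub_self, pow_zero, mul_one]
    have h1 := H.dn (σ1 * u) (σ2 * v) (hu_abs u hu.1 hu.2) (hv_abs u v hu.1 hu.2 hv.1 hv.2)
    have h2 : σ3 * σ2 ^ n * (σ3 * σ2 ^ n *
        ((n.factorial : ℝ) + geoExG g n (σ1 * u, σ2 * v))) =
        (n.factorial : ℝ) + geoExG g n (σ1 * u, σ2 * v) := by
      have h3 := hs2 n
      linear_combination ((n.factorial : ℝ) + geoExG g n (σ1 * u, σ2 * v)) *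
        (hsq3 * (σ2 ^ n * σ2 ^ n) + h3)
    rw [h2]
    exact h1
  · -- the derivative of order `n - 1`
    intro u hu v hv
    have e2 : n.descFactorial (n - 1) = n.factorial := by
      obtain ⟨k, rfl⟩ : ∃ k, n = k + 1 := ⟨n - 1, by omega⟩
      rw [Nat.add_sub_cancel]
      have e3 := Nat.factorial_mul_descFactorial (Nat.le_succ k)
      rw [Nat.succ_eq_add_one, Nat.add_sub_cancel_left] at e3
      simpa using e3
    have e3 : n - (n - 1) = 1 := by omega
    rw [hder (n - 1) u v hu.1 hu.2 hv.1 hv.2, e2, e3, pow_one]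
    set Dv := (n.factorial : ℝ) * (σ2 * v - (σ1 * u) ^ m) + geoExG g (n - 1) (σ1 * u, σ2 * v)
      with hDv
    have h2 : σ3 * σ2 ^ n * (σ3 * σ2 ^ (n - 1) * Dv) = σ2 * Dv := by
      have h3 := hs2 (n - 1)
      have h4 : σ2 ^ n = σ2 ^ (n - 1) * σ2 := by
        rw [← pow_succ]
        congr 1
        omega
      rw [h4]
      linear_combination (σ2 * Dv) * (hsq3 * (σ2 ^ (n - 1) * σ2 ^ (n - 1)) + h3)
    rw [h2]
    have hua := hu_abs u hu.1 hu.2
    have hva := hv_abs u v hu.1 hu.2 hv.1 hv.2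
    have hlt : reflγ γ σ1 σ2 u < v := hv.1
    unfold reflγ at hlt ⊢
    rcases hσ2 with h | h
    · have h5 := H.dn1 (σ1 * u) (σ2 * v) hua hva (by rw [h] at hlt ⊢; linarith)
      rw [← hDv] at h5
      rw [h] at h5 ⊢
      rw [one_mul] at h5
      linarith
    · have h5 := H.dn1' (σ1 * u) (σ2 * v) hua hva (by rw [h] at hlt ⊢; linarith)
      rw [← hDv] at h5
      rw [h] at h5 ⊢
      linarith
  · -- the outer condition
    intro u hu v hv huv
    rw [hder 2 u v hu.1 hu.2 hv.1 hv.2, abs_mul, abs_mul, abs_pow, habs3, habs2, one_pow, one_mul,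
      one_mul]
    have h1 : |σ2 * v - γ (σ1 * u)| = v - reflγ γ σ1 σ2 u := by
      unfold reflγ
      have h2 : σ2 * v - γ (σ1 * u) = σ2 * (v - σ2 * γ (σ1 * u)) := by
        linear_combination (γ (σ1 * u)) * hsq2
      rw [h2, abs_mul, habs2, one_mul, abs_of_pos]
      have := hv.1
      unfold reflγ at this
      linarith
    have h2 := H.outer (σ1 * u) (σ2 * v) (hu_abs u hu.1 hu.2)
      (hv_abs u v hu.1 hu.2 hv.1 hv.2) (by
        rw [h1, abs_mul, habs1, one_mul, abs_of_pos hu.1]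
        exact huv)
    rw [h1] at h2
    exact h2
  · -- curvature
    intro K hK
    refine strongConvex_of_deriv2 _ 0 a _ _ ?_ ?_ ?_ ?_
    · exact Set.ordConnected_Ioc.inter Set.ordConnected_Iio
    · rintro u ⟨h1, h2⟩
      exact ⟨by linarith [h1.1], h2⟩
    · unfold reflγ
      refine contDiffOn_const.mul (contDiffOn_const.mul (H.smoothγ.comp
        (by fun_prop : ContDiff ℝ 2 fun u : ℝ => σ1 * u).contDiffOn ?_))
      intro u hu
      exact abs_lt.1 (hu_abs u hu.1 hu.2)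
    · rintro u ⟨h1, h2⟩
      have hu0 : 0 < u := by linarith [h1.1]
      have h2' : u < a := h2
      have hin : σ1 * u ∈ Set.Ioo (-a) a := abs_lt.1 (hu_abs u hu0 h2')
      have hd : iteratedDeriv 2 (fun u => σ2 * σ1 ^ m * reflγ γ σ1 σ2 u) u =
          σ1 ^ m * iteratedDeriv 2 γ (σ1 * u) := by
        unfold reflγ
        rw [iteratedDeriv_const_mul_field, iteratedDeriv_const_mul_field]
        have h3 : iteratedDeriv 2 (fun u => γ (σ1 * u)) u = iteratedDeriv 2 γ (σ1 * u) := by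
          rcases hσ1 with h | h
          · rw [h]; simp
          · rw [h]
            have h4 := iteratedDeriv_comp_neg 2 γ u
            have h5 : (fun u => γ (-1 * u)) = fun u => γ (-u) := by
              funext u
              rw [neg_one_mul]
            rw [h5, h4, neg_one_mul]
            simp
        rw [h3]
        linear_combination (σ1 ^ m * iteratedDeriv 2 γ (σ1 * u)) * hsq2
      rw [hd]
      have hc := H.curv (σ1 * u) hin
      rw [abs_mul, habs1, one_mul, abs_of_pos hu0] at hc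
      set T := iteratedDeriv 2 γ (σ1 * u) with hT
      have hup : 0 ≤ u ^ (m - 2) := by positivity
      -- `σ1^m (σ1 u)^(m-2) = u^(m-2)`
      have hsg : σ1 ^ m * (σ1 * u) ^ (m - 2) = u ^ (m - 2) := by
        have h3 : σ1 ^ m = σ1 ^ (m - 2) := by
          have h4 : m = (m - 2) + 2 := by omega
          conv_lhs => rw [h4]
          rw [pow_add, sq, hsq1, mul_one]
        rw [h3, mul_pow, ← mul_assoc, ← mul_pow, hsq1, one_pow, one_mul]
      have habm : |σ1 ^ m| = 1 := by rw [abs_pow, habs1, one_pow]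
      have hmul : |σ1 ^ m * T - (m : ℝ) * ((m : ℝ) - 1) * u ^ (m - 2)| ≤
          (1 / 2) * u ^ (m - 2) := by
        have h3 : σ1 ^ m * T - (m : ℝ) * ((m : ℝ) - 1) * u ^ (m - 2) =
            σ1 ^ m * (T - (m : ℝ) * ((m : ℝ) - 1) * (σ1 * u) ^ (m - 2)) := by
          rw [← hsg]
          ring
        rw [h3, abs_mul, habm, one_mul]
        exact hc
      have h3 := (abs_le.1 hmul).1
      have hmr : (2 : ℝ) ≤ (m : ℝ) := by exact_mod_cast hm
      have hmm : (2 : ℝ) ≤ (m : ℝ) * ((m : ℝ) - 1) := by nlinarith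
      have h4 : 2 * u ^ (m - 2) ≤ (m : ℝ) * ((m : ℝ) - 1) * u ^ (m - 2) :=
        mul_le_mul_of_nonneg_right hmm hup
      have h5 : ((1 / 2) * K) ^ (m - 2) ≤ u ^ (m - 2) :=
        pow_le_pow_left₀ (by positivity) (by linarith [h1.1]) _
      rw [mul_pow] at h5
      nlinarith

end Pool.Agent.FlatRes
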