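import Pool.Agent.Lib.MP_40a0b6_an.Region
import Pool.Agent.Lib.MP_40a0b6_an.GeoEx
import Pool.Agent.Lib.MP_40a0b6_an.Cover8
set_option autoImplicit false
open MeasureTheory
open scoped ENNReal FourierTransform SchwartzMap
namespace Pool.Agent.FlatRes

theorem boxb_pcrit (n m : ℕ) (hn : 2 ≤ n) : 2 ≤ pcrit n m := by
  unfold pcrit
  have hn' : (2 : ℝ) ≤ n := by exact_mod_cast hn
  split_ifs
  · have : (0 : ℝ) ≤ (n * m : ℝ) / (m + 1) := by positivity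
    linarith
  · linarith

theorem boxb_inner (Ψ : ℝ × ℝ → ℝ) (ξ : E3) (x : ℝ × ℝ) :
    inner ℝ ξ (gpt Ψ x) = ξ 0 * x.1 + ξ 1 * x.2 + ξ 2 * Ψ x := by
  simp only [gpt, PiLp.inner_apply, Fin.sum_univ_three]
  simp
  ring

theorem boxb_meas (Ψ : ℝ × ℝ → ℝ) (hΨ : Measurable Ψ) (h : ℝ × ℝ → ℂ) (hh : Measurable h) :
    Measurable (fun p : E3 × (ℝ × ℝ) =>
      Complex.exp (((2 * Real.pi * inner ℝ p.1 (gpt Ψ p.2) : ℝ) : ℂ) * Complex.I) * h p.2) := by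
  simp only [boxb_inner]
  have h1 : Measurable (fun p : E3 × (ℝ × ℝ) => Ψ p.2) := hΨ.comp measurable_snd
  have h2 : Measurable (fun p : E3 × (ℝ × ℝ) => h p.2) := hh.comp measurable_snd
  have h3 : ∀ i : Fin 3, Measurable (fun p : E3 × (ℝ × ℝ) => p.1 i) := by
    intro i
    have : Measurable (fun v : E3 => v i) := by fun_prop
    exact this.comp measurable_fst
  have h30 := h3 0
  have h31 := h3 1
  have h32 := h3 2
  have h4 : Measurable (fun p : E3 × (ℝ × ℝ) =>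
      (2 * Real.pi * (p.1 0 * p.2.1 + p.1 1 * p.2.2 + p.1 2 * Ψ p.2) : ℝ)) := by
    fun_prop
  have h5 : Measurable (fun p : E3 × (ℝ × ℝ) =>
      ((2 * Real.pi * (p.1 0 * p.2.1 + p.1 1 * p.2.2 + p.1 2 * Ψ p.2) : ℝ) : ℂ)) :=
    Complex.measurable_ofReal.comp h4
  exact (Complex.measurable_exp.comp (h5.mul_const Complex.I)).mul h2

theorem boxb_ext_meas (Ψ : ℝ × ℝ → ℝ) (hΨ : Measurable Ψ) (Ω : Set (ℝ × ℝ)) (h : ℝ × ℝ → ℂ)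
    (hh : Measurable h) : Measurable (fun ξ : E3 => extOn Ψ Ω h ξ) := by
  have h1 := (boxb_meas Ψ hΨ h hh).stronglyMeasurable
  exact (h1.integral_prod_right' (ν := volume.restrict Ω)).measurable

theorem boxb_norm (Ψ : ℝ × ℝ → ℝ) (ξ : E3) (h : ℝ × ℝ → ℂ) (x : ℝ × ℝ) :
    ‖Complex.exp (((2 * Real.pi * inner ℝ ξ (gpt Ψ x) : ℝ) : ℂ) * Complex.I) * h x‖ = ‖h x‖ := by
  rw [norm_mul, Complex.norm_exp_ofReal_mul_I, one_mul]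

/-- JOB V3.  The extension estimate for the box. -/
theorem box_bound (n m : ℕ) (hn : 3 ≤ n) (hm : 2 ≤ m) (h32 : ¬ (n = 3 ∧ m = 2))
    (g : ℝ × ℝ → ℝ) (hg : FlatAtZero g) :
    ∃ a : ℝ, 0 < a ∧ ContDiffOn ℝ (⊤ : ℕ∞) g (box a) ∧ Measurable (psi0 n m g a) ∧
      ∃ T : ℝ≥0∞, T ≠ ⊤ ∧ ∀ h : ℝ × ℝ → ℂ, BddMeas h →
        ∫⁻ ξ, ‖extOn (psi0 n m g a) (box a) h ξ‖ₑ ^ (pcrit n m) ≤
          (T * mass (box a) h) ^ (pcrit n m / 2) := by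
  obtain ⟨a, c, κ, γ, ha, hγa, hγc, hγm, hga, hmeas, -, hG⟩ := geo_exists n m hn hm g hg
  refine ⟨a, ha, hga, hmeas, ?_⟩
  obtain ⟨Ψ, hΨ⟩ : ∃ Ψ, Ψ = psi0 n m g a := ⟨_, rfl⟩
  rw [← hΨ] at hG hmeas ⊢
  obtain ⟨hreg, hdisj, hnull⟩ := reg_cover n m hn Ψ γ a c κ ha hγc hγm hγa hG
  obtain ⟨q, hq⟩ : ∃ q, q = pcrit n m := ⟨_, rfl⟩
  have hq2 : 2 ≤ q := by rw [hq]; exact boxb_pcrit n m (by omega)
  rw [← hq]
  have hboxvol : volume (box a) ≠ ⊤ := by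
    unfold box
    rw [Measure.volume_eq_prod, Measure.prod_prod]
    simp only [Real.volume_Ioo]
    exact ENNReal.mul_ne_top ENNReal.ofReal_ne_top ENNReal.ofReal_ne_top
  have hboxm : MeasurableSet (box a) := (isOpen_Ioo.prod isOpen_Ioo).measurableSet
  have hfin : Finite {σ : ℝ × ℝ × ℝ // IsSign σ.1 ∧ IsSign σ.2.1 ∧ IsSign σ.2.2} := by
    have h1 : ({1, -1} ×ˢ ({1, -1} ×ˢ {1, -1}) : Set (ℝ × ℝ × ℝ)).Finite :=
      (Set.toFinite _).prod ((Set.toFinite _).prod (Set.toFinite _))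
    have h2 : {σ : ℝ × ℝ × ℝ | IsSign σ.1 ∧ IsSign σ.2.1 ∧ IsSign σ.2.2}.Finite := by
      refine h1.subset ?_
      rintro ⟨x, y, z⟩ ⟨hx, hy, hz⟩
      exact ⟨hx, hy, hz⟩
    exact h2.to_subtype
  obtain ⟨hft⟩ := nonempty_fintype {σ : ℝ × ℝ × ℝ // IsSign σ.1 ∧ IsSign σ.2.1 ∧ IsSign σ.2.2}
  -- abbreviations
  obtain ⟨R, hR⟩ : ∃ R : {σ : ℝ × ℝ × ℝ // IsSign σ.1 ∧ IsSign σ.2.1 ∧ IsSign σ.2.2} →
      Set (ℝ × ℝ), R = fun σ => regσ Ψ γ a σ.1.1 σ.1.2.1 σ.1.2.2 := ⟨_, rfl⟩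
  have hRm : ∀ σ, MeasurableSet (R σ) := fun σ => by
    rw [hR]; exact (hreg _ _ _ σ.2.1 σ.2.2.1 σ.2.2.2).1
  have hRsub : ∀ σ, R σ ⊆ box a := fun σ => by
    rw [hR]; exact (hreg _ _ _ σ.2.1 σ.2.2.1 σ.2.2.2).2
  have hRd : Pairwise (Function.onFun Disjoint R) := by
    intro σ τ hne
    rw [hR]
    refine hdisj _ _ _ _ _ _ σ.2.1 σ.2.2.1 σ.2.2.2 τ.2.1 τ.2.2.1 τ.2.2.2 ?_
    intro h
    exact hne (Subtype.ext h)
  have hae : (box a : Set (ℝ × ℝ)) =ᵐ[volume] ⋃ σ, R σ := by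
    have h1 : (⋃ σ, R σ) ⊆ box a := Set.iUnion_subset hRsub
    have h2 : volume (box a \ ⋃ σ, R σ) = 0 := by rw [hR]; exact hnull
    exact (ae_le_set.2 h2).antisymm (Filter.Eventually.of_forall h1)
  -- the estimates for the regions
  have hT : ∀ σ, ∃ T : ℝ≥0∞, T ≠ ⊤ ∧ ∀ h : ℝ × ℝ → ℂ, BddMeas h →
      ∫⁻ ξ, ‖extOn Ψ (R σ) h ξ‖ₑ ^ q ≤ (T * mass (R σ) h) ^ (q / 2) := by
    rintro ⟨⟨σ1, σ2, σ3⟩, h1, h2, h3⟩
    obtain ⟨s, e, hGeo⟩ := hG σ1 σ2 σ3 h1 h2 h3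
    obtain ⟨T, hT1, hT2⟩ := region_bound n m hn hm h32 _ _ a c κ s e hGeo
    refine ⟨T, hT1, ?_⟩
    rintro h ⟨hm1, M, hM⟩
    obtain ⟨e1, e2⟩ := ext_refl Ψ hmeas γ a σ1 σ2 σ3 h1 h2 h3 h q
    rw [hR]
    show ∫⁻ ξ, ‖extOn Ψ (regσ Ψ γ a σ1 σ2 σ3) h ξ‖ₑ ^ q ≤
      (T * mass (regσ Ψ γ a σ1 σ2 σ3) h) ^ (q / 2)
    rw [e1, e2, hq]
    apply hT2
    refine ⟨hm1.comp (by fun_prop), M, fun x => hM _⟩
  choose T hT1 hT2 using hT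
  obtain ⟨k, hk⟩ : ∃ k : ℝ≥0∞, k = (Finset.univ.card (α := {σ : ℝ × ℝ × ℝ //
    IsSign σ.1 ∧ IsSign σ.2.1 ∧ IsSign σ.2.2}) : ℝ≥0∞) := ⟨_, rfl⟩
  have hktop : k ≠ ⊤ := by rw [hk]; exact ENNReal.natCast_ne_top _
  obtain ⟨Ts, hTs⟩ : ∃ Ts, Ts = ∑ σ, T σ := ⟨_, rfl⟩
  have hTstop : Ts ≠ ⊤ := by
    rw [hTs]
    exact (ENNReal.sum_lt_top.2 (fun σ _ => lt_top_iff_ne_top.2 (hT1 σ))).ne
  obtain ⟨C, hC⟩ : ∃ C : ℝ≥0∞, C = k ^ (q - 1) * k := ⟨_, rfl⟩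
  have hCtop : C ≠ ⊤ := by
    rw [hC]
    exact ENNReal.mul_ne_top (ENNReal.rpow_ne_top_of_nonneg (by linarith) hktop) hktop
  refine ⟨C ^ (2 / q) * Ts, ENNReal.mul_ne_top (ENNReal.rpow_ne_top_of_nonneg (by positivity) hCtop)
    hTstop, ?_⟩
  intro h hb
  have hb' := hb
  obtain ⟨hm1, M, hM⟩ := hb
  have hext : ∀ ξ, extOn Ψ (box a) h ξ = ∑ σ, extOn Ψ (R σ) h ξ := by
    intro ξ
    unfold extOn extN
    rw [setIntegral_congr_set hae]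
    apply integral_iUnion_fintype hRm hRd
    intro σ
    apply Measure.integrableOn_of_bounded (M := M)
    · exact ne_top_of_le_ne_top hboxvol (measure_mono (hRsub σ))
    · have h1 := boxb_meas Ψ hmeas h hm1
      have h2 : Measurable (fun x : ℝ × ℝ => (ξ, x)) := measurable_prodMk_left
      exact (h1.comp h2).aestronglyMeasurable
    · refine Filter.Eventually.of_forall (fun x => ?_)
      rw [boxb_norm]
      exact hM x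
  have hmass : ∀ σ, mass (R σ) h ≤ mass (box a) h := fun σ => by
    unfold mass
    exact lintegral_mono_set (hRsub σ)
  calc ∫⁻ ξ, ‖extOn Ψ (box a) h ξ‖ₑ ^ q
      ≤ ∫⁻ ξ, k ^ (q - 1) * ∑ σ, ‖extOn Ψ (R σ) h ξ‖ₑ ^ q := by
        apply lintegral_mono
        intro ξ
        show ‖extOn Ψ (box a) h ξ‖ₑ ^ q ≤ k ^ (q - 1) * ∑ σ, ‖extOn Ψ (R σ) h ξ‖ₑ ^ q
        rw [hext ξ, hk]
        refine (ENNReal.rpow_le_rpow (enorm_sum_le _ _) (by linarith)).trans ?_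
        exact ENNReal.rpow_sum_le_const_mul_sum_rpow _ _ (by linarith)
    _ = k ^ (q - 1) * ∑ σ, ∫⁻ ξ, ‖extOn Ψ (R σ) h ξ‖ₑ ^ q := by
        have hms : ∀ σ, Measurable (fun ξ : E3 => ‖extOn Ψ (R σ) h ξ‖ₑ ^ q) := fun σ =>
          (boxb_ext_meas Ψ hmeas (R σ) h hm1).enorm.pow_const q
        rw [lintegral_const_mul _ (Finset.measurable_fun_sum _ (fun σ _ => hms σ)),
          lintegral_finsetSum _ (fun σ _ => hms σ)]
    _ ≤ k ^ (q - 1) * ∑ _σ : {σ : ℝ × ℝ × ℝ // IsSign σ.1 ∧ IsSign σ.2.1 ∧ IsSign σ.2.2},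
          (Ts * mass (box a) h) ^ (q / 2) := by
        gcongr with σ
        refine (hT2 σ h hb').trans ?_
        apply ENNReal.rpow_le_rpow _ (by linarith)
        apply mul_le_mul' _ (hmass σ)
        rw [hTs]
        exact Finset.single_le_sum (f := T) (fun _ _ => zero_le) (Finset.mem_univ σ)
    _ = C * (Ts * mass (box a) h) ^ (q / 2) := by
        rw [Finset.sum_const, nsmul_eq_mul, hC, hk, mul_assoc]
    _ = (C ^ (2 / q) * Ts * mass (box a) h) ^ (q / 2) := by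
        rw [mul_assoc (C ^ (2 / q)), ENNReal.mul_rpow_of_nonneg (C ^ (2 / q)) _
          (by linarith : 0 ≤ q / 2), ← ENNReal.rpow_mul, show 2 / q * (q / 2) = 1 by field_simp, ENNReal.rpow_one]

end Pool.Agent.FlatRes
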