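import Pool.Agent.Lib.MP_40a0b6_an.Gauss
set_option autoImplicit false
open MeasureTheory
open scoped ENNReal FourierTransform SchwartzMap
namespace Pool.Agent.FlatRes

theorem BoxTest_meas {U : Set (ℝ × ℝ)} (hU : IsOpen U) {ψ : ℝ × ℝ → ℝ} (hψ : ContinuousOn ψ U)
    (a b c : ℝ) : MeasurableSet (U ∩ {x | |x.1| ≤ a ∧ |x.2| ≤ b ∧ |ψ x| ≤ c}) := by
  have h1 : IsOpen (U ∩ ψ ⁻¹' {y | c < |y|}) :=
    hψ.isOpen_inter_preimage hU (isOpen_lt continuous_const continuous_abs)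
  have h2 : Measurable fun x : ℝ × ℝ => |x.1| := by fun_prop
  have h3 : Measurable fun x : ℝ × ℝ => |x.2| := by fun_prop
  have h4 : U ∩ {x | |x.1| ≤ a ∧ |x.2| ≤ b ∧ |ψ x| ≤ c} =
      (U \ (U ∩ ψ ⁻¹' {y | c < |y|})) ∩ ({x | |x.1| ≤ a} ∩ {x | |x.2| ≤ b}) := by
    ext x
    simp only [Set.mem_inter_iff, Set.mem_ofPred_eq, Set.mem_sdiff, Set.mem_preimage, not_and,
      not_lt]
    tauto
  rw [h4]
  exact (hU.measurableSet.diff h1.measurableSet).inter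
    ((measurableSet_le h2 measurable_const).inter (measurableSet_le h3 measurable_const))

/-- JOB XB.  Consequence of the restriction estimate: test with `gaussian_test`. -/
theorem box_test (U : Set (ℝ × ℝ)) (hU : IsOpen U) (ψ ρ : ℝ × ℝ → ℝ) (hψ : ContinuousOn ψ U)
    (p : ℝ) (hp : 1 ≤ p)
    (hR : RestrictionEstimate U ψ ρ p) : ∃ C : ℝ, 0 ≤ C ∧ ∀ a b c : ℝ, 0 < a → 0 < b → 0 < c →
      ∫⁻ x in U ∩ {x | |x.1| ≤ a ∧ |x.2| ≤ b ∧ |ψ x| ≤ c}, ENNReal.ofReal (ρ x * areaDensity ψ x) ≤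
        ENNReal.ofReal (C * (a * b * c) ^ (2 * (1 - 1 / p))) := by
  obtain ⟨C, hC, h⟩ := hR
  refine ⟨Real.exp (6 * Real.pi) * C ^ 2, by positivity, fun a b c ha hb hc => ?_⟩
  obtain ⟨f, hf1, hf2⟩ := gaussian_test a b c ha hb hc
  have hS := BoxTest_meas hU hψ a b c
  set S := U ∩ {x | |x.1| ≤ a ∧ |x.2| ≤ b ∧ |ψ x| ≤ c} with hSdef
  have hpt : ∀ x ∈ S, 1 ≤ ENNReal.ofReal (Real.exp (6 * Real.pi)) *
      ‖𝓕 (f : E3 → ℂ) (gpt ψ x)‖ₑ ^ (2 : ℕ) := by
    intro x hx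
    obtain ⟨-, h1, h2, h3⟩ := hx
    rw [hf1, ← ofReal_norm, Complex.norm_real, Real.norm_eq_abs,
      abs_of_pos (Real.exp_pos _), ← ENNReal.ofReal_pow (Real.exp_pos _).le,
      ← ENNReal.ofReal_mul (Real.exp_pos _).le, ← Real.exp_nat_mul, ← Real.exp_add]
    rw [ENNReal.one_le_ofReal, Real.one_le_exp_iff]
    have e0 : (gpt ψ x) 0 = x.1 := by simp [gpt]
    have e1 : (gpt ψ x) 1 = x.2 := by simp [gpt]
    have e2 : (gpt ψ x) 2 = ψ x := by simp [gpt]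
    rw [e0, e1, e2]
    have q1 : (x.1 / a) ^ 2 ≤ 1 := by
      rw [div_pow, div_le_one (by positivity)]
      exact sq_le_sq' (by linarith [(abs_le.1 h1).1]) (abs_le.1 h1).2
    have q2 : (x.2 / b) ^ 2 ≤ 1 := by
      rw [div_pow, div_le_one (by positivity)]
      exact sq_le_sq' (by linarith [(abs_le.1 h2).1]) (abs_le.1 h2).2
    have q3 : (ψ x / c) ^ 2 ≤ 1 := by
      rw [div_pow, div_le_one (by positivity)]
      exact sq_le_sq' (by linarith [(abs_le.1 h3).1]) (abs_le.1 h3).2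
    have hpi := Real.pi_pos
    push_cast
    nlinarith
  calc ∫⁻ x in S, ENNReal.ofReal (ρ x * areaDensity ψ x)
      ≤ ∫⁻ x in S, ENNReal.ofReal (Real.exp (6 * Real.pi)) *
          (‖𝓕 (f : E3 → ℂ) (gpt ψ x)‖ₑ ^ (2 : ℕ) * ENNReal.ofReal (ρ x * areaDensity ψ x)) := by
        apply setLIntegral_mono' hS
        intro x hx
        rw [← mul_assoc]
        calc ENNReal.ofReal (ρ x * areaDensity ψ x)
            = 1 * ENNReal.ofReal (ρ x * areaDensity ψ x) := (one_mul _).symm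
          _ ≤ _ := by gcongr; exact hpt x hx
    _ = ENNReal.ofReal (Real.exp (6 * Real.pi)) * ∫⁻ x in S,
          (‖𝓕 (f : E3 → ℂ) (gpt ψ x)‖ₑ ^ (2 : ℕ) * ENNReal.ofReal (ρ x * areaDensity ψ x)) :=
        lintegral_const_mul' _ _ ENNReal.ofReal_ne_top
    _ ≤ ENNReal.ofReal (Real.exp (6 * Real.pi)) * ∫⁻ x in U,
          (‖𝓕 (f : E3 → ℂ) (gpt ψ x)‖ₑ ^ (2 : ℕ) * ENNReal.ofReal (ρ x * areaDensity ψ x)) := by
        gcongr
        exact Set.inter_subset_left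
    _ ≤ ENNReal.ofReal (Real.exp (6 * Real.pi)) *
          (ENNReal.ofReal C * ENNReal.ofReal ((a * b * c) ^ (1 - 1 / p))) ^ (2 : ℕ) := by
        gcongr
        refine (h f).trans ?_
        gcongr
        exact hf2 p hp
    _ = ENNReal.ofReal (Real.exp (6 * Real.pi) * C ^ 2 * (a * b * c) ^ (2 * (1 - 1 / p))) := by
        have habc : 0 ≤ a * b * c := by positivity
        rw [← ENNReal.ofReal_mul hC, ← ENNReal.ofReal_pow (by positivity),
          ← ENNReal.ofReal_mul (Real.exp_pos _).le]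
        congr 1
        have he : ((a * b * c) ^ (1 - 1 / p)) ^ 2 = (a * b * c) ^ (2 * (1 - 1 / p)) := by
          rw [← Real.rpow_natCast ((a * b * c) ^ (1 - 1 / p)) 2, ← Real.rpow_mul habc]
          congr 1
          push_cast
          ring
        rw [mul_pow, he]
        ring

end Pool.Agent.FlatRes
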