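import Pool.Agent.Lib.MP_40a0b6_an.Level
import Pool.Agent.Lib.MP_40a0b6_an.StrConv
set_option autoImplicit false
open MeasureTheory
open scoped ENNReal FourierTransform SchwartzMap
namespace Pool.Agent.FlatRes

/-- JOB N0.  Slices of the set of points above the curve where `lam ≤ D2` are covered by `2^n`
intervals of strong convexity.  For `u ∉ (0,a)` the slice is empty; for `u ∈ (0,a)` apply
`level_intervals` with `k = n-2` to `f = iteratedDeriv 2 (Ψ(u,·))` on `(γ u, a)`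
(`iteratedDeriv (n-2) (iteratedDeriv 2 F) = iteratedDeriv n F`) and `strongConvex_of_deriv2`.
(pad the `2^(n-2)` intervals with `∅` to get `4^n`). -/
theorem convSlices_of_geo (n m : ℕ) (hn : 3 ≤ n) (Ψ : ℝ × ℝ → ℝ) (γ : ℝ → ℝ) (a c κ s e : ℝ)
    (G : Geo n m Ψ γ a c κ s e) (Ω : Set (ℝ × ℝ)) (lam : ℝ) (hlam : 0 < lam)
    (hΩ : ∀ x ∈ Ω, x ∈ region Ψ γ a ∧ lam ≤ D2 Ψ x) : ConvSlices Ψ Ω (4 ^ n) lam := by
  intro u
  by_cases hu : u ∈ Set.Ioo 0 a
  · have hsm := G.smooth u hu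
    have h2 : iteratedDeriv 2 (fun v => Ψ (u, v)) = deriv (deriv (fun v => Ψ (u, v))) := by
      rw [iteratedDeriv_eq_iterate]
      rfl
    have hC2 : ContDiffOn ℝ ((n - 2 : ℕ) : WithTop ℕ∞) (iteratedDeriv 2 (fun v => Ψ (u, v)))
        (Set.Ioo (γ u) a) := by
      rw [h2]
      have h3 : ContDiffOn ℝ ((n - 1 : ℕ) : WithTop ℕ∞) (deriv (fun v => Ψ (u, v)))
          (Set.Ioo (γ u) a) := by
        refine hsm.deriv_of_isOpen isOpen_Ioo ?_
        have h4 : ((n - 1 : ℕ) : WithTop ℕ∞) + 1 = ((n - 1 + 1 : ℕ) : WithTop ℕ∞) := by push_cast; rfl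
        rw [h4]
        exact_mod_cast (by omega : n - 1 + 1 ≤ n)
      refine h3.deriv_of_isOpen isOpen_Ioo ?_
      have h4 : ((n - 2 : ℕ) : WithTop ℕ∞) + 1 = ((n - 2 + 1 : ℕ) : WithTop ℕ∞) := by push_cast; rfl
      rw [h4]
      exact_mod_cast (by omega : n - 2 + 1 ≤ n - 1)
    have hit : iteratedDeriv (n - 2) (iteratedDeriv 2 (fun v => Ψ (u, v))) =
        iteratedDeriv n (fun v => Ψ (u, v)) := by
      rw [iteratedDeriv_eq_iterate, iteratedDeriv_eq_iterate, iteratedDeriv_eq_iterate,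
        ← Function.iterate_add_apply, Nat.sub_add_cancel (by omega : 2 ≤ n)]
    have hd : ∀ x ∈ Set.Ioo (γ u) a, 0 < s *
        iteratedDeriv (n - 2) (iteratedDeriv 2 (fun v => Ψ (u, v))) x := by
      intro x hx
      rw [hit]
      exact lt_of_lt_of_le G.hc (G.dn u hu x hx)
    obtain ⟨⟨I, hI, hIu⟩, -⟩ := level_intervals (n - 2) (by omega)
      (iteratedDeriv 2 (fun v => Ψ (u, v))) (γ u) a lam s G.hs hC2 hd
    have hsub : ∀ i, ∀ x ∈ I i, x ∈ Set.Ioo (γ u) a ∧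
        lam ≤ iteratedDeriv 2 (fun v => Ψ (u, v)) x := by
      intro i x hx
      have h5 : x ∈ {x | x ∈ Set.Ioo (γ u) a ∧ lam ≤ iteratedDeriv 2 (fun v => Ψ (u, v)) x} := by
        rw [hIu]
        exact Set.mem_iUnion.2 ⟨i, hx⟩
      exact h5
    have hsm2 : ContDiffOn ℝ 2 (fun v => Ψ (u, v)) (Set.Ioo (γ u) a) :=
      hsm.of_le (by exact_mod_cast (by omega : 2 ≤ n))
    refine ⟨fun i => if h : i.val < 2 ^ (n - 2) then I ⟨i.val, h⟩ else ∅, fun i => ?_, ?_⟩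
    · by_cases h : i.val < 2 ^ (n - 2)
      · simp only [h, dite_true]
        exact ⟨hI _, strongConvex_of_deriv2 _ (γ u) a lam _ (hI _) (fun x hx => (hsub _ x hx).1)
          hsm2 (fun x hx => (hsub _ x hx).2)⟩
      · simp only [h, dite_false]
        exact ⟨Set.ordConnected_empty, convex_empty, fun x hx => hx.elim⟩
    · intro v hv
      have hv' : (u, v) ∈ Ω := hv
      obtain ⟨⟨-, -, h6, h7, -⟩, h8⟩ := hΩ _ hv'
      have h9 : v ∈ ⋃ i, I i := by
        rw [← hIu]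
        exact ⟨⟨h6, h7⟩, h8⟩
      obtain ⟨i, hi⟩ := Set.mem_iUnion.1 h9
      have h10 : i.val < 4 ^ n := by
        calc i.val < 2 ^ (n - 2) := i.2
          _ ≤ 2 ^ n := Nat.pow_le_pow_right (by norm_num) (by omega)
          _ ≤ 4 ^ n := Nat.pow_le_pow_left (by norm_num) n
      refine Set.mem_iUnion.2 ⟨⟨i.val, h10⟩, ?_⟩
      simp only [i.2, dite_true]
      exact hi
  · refine ⟨fun _ => ∅, fun i => ⟨Set.ordConnected_empty, convex_empty, fun x hx => hx.elim⟩, ?_⟩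
    intro v hv
    have hv' : (u, v) ∈ Ω := hv
    obtain ⟨⟨h1, h2, -⟩, -⟩ := hΩ _ hv'
    exact absurd ⟨h1, h2⟩ hu

end Pool.Agent.FlatRes
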