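import Pool.Agent.Lib.MP_40a0b6_an.Level
set_option autoImplicit false
open MeasureTheory
open scoped ENNReal FourierTransform SchwartzMap
namespace Pool.Agent.FlatRes

theorem sublev_interval {f : ℝ → ℝ} {α β μ ε s : ℝ} (hs : s = 1 ∨ s = -1) (hμ : 0 < μ)
    {I : Set ℝ} (hI : I.OrdConnected) (hIs : I ⊆ Set.Ioo α β)
    (hf : DifferentiableOn ℝ f (Set.Ioo α β)) (hd : ∀ x ∈ I, μ ≤ s * deriv f x) :
    volume {x | x ∈ I ∧ |f x| < ε} ≤ ENNReal.ofReal (2 * (ε / μ)) := by
  have hconv : Convex ℝ I := hI.convex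
  have hfd : ∀ x ∈ I, DifferentiableAt ℝ f x := fun x hx =>
    (hf x (hIs hx)).differentiableAt (isOpen_Ioo.mem_nhds (hIs hx))
  have key : ∀ x ∈ I, ∀ y ∈ I, x ≤ y → μ * (y - x) ≤ s * f y - s * f x := by
    refine hconv.mul_sub_le_image_sub_of_le_deriv (f := fun x => s * f x) ?_ ?_ ?_
    · intro x hx
      exact ((hfd x hx).const_mul s).continuousAt.continuousWithinAt
    · intro x hx
      exact ((hfd x (interior_subset hx)).const_mul s).differentiableWithinAt
    · intro x hx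
      rw [deriv_const_mul s (hfd x (interior_subset hx))]
      exact hd x (interior_subset hx)
  have hsabs : |s| = 1 := by rcases hs with rfl | rfl <;> simp
  have key2 : ∀ x ∈ {x | x ∈ I ∧ |f x| < ε}, ∀ y ∈ {x | x ∈ I ∧ |f x| < ε}, x ≤ y →
      y - x ≤ 2 * (ε / μ) := by
    rintro x ⟨hx, hxε⟩ y ⟨hy, hyε⟩ hxy
    have h1 := key x hx y hy hxy
    have h2 : s * f y - s * f x ≤ 2 * ε := by
      have e1 : |s * f y| < ε := by rw [abs_mul, hsabs, one_mul]; exact hyε
      have e2 : |s * f x| < ε := by rw [abs_mul, hsabs, one_mul]; exact hxε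
      rw [abs_lt] at e1 e2
      linarith [e1.2, e2.1]
    rw [← mul_div_assoc, le_div_iff₀ hμ]
    linarith
  refine (Real.volume_le_diam _).trans (Metric.ediam_le ?_)
  intro x hx y hy
  rw [edist_dist, Real.dist_eq]
  apply ENNReal.ofReal_le_ofReal
  rcases le_total x y with h | h
  · rw [abs_sub_comm, abs_of_nonneg (sub_nonneg.2 h)]
    exact key2 x hx y hy h
  · rw [abs_of_nonneg (sub_nonneg.2 h)]
    exact key2 y hy x hx h

/-- JOB M.  Sublevel sets: if `|f^{(k)}| ≥ c0` on `(α,β)` then `|{|f| < ε}| ≤ C_k (ε/c0)^{1/k}`.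
Induction on `k`.  `k = 1`: `f` is strictly monotone with slope `≥ c0`, so the set lies in an interval of
length `2ε/c0`.  Step: with `μ > 0` to be chosen, `{|f'| < μ}` has measure `≤ C_k (μ/c0)^{1/k}` by
induction, and on each of the at most `2·2^k` intervals making up `{f' ≥ μ}`, `{f' ≤ -μ}`
(`level_intervals` applied to `f'` and `-f'`, closed/open versions as convenient) the set
`{|f| < ε}` has length `≤ 2ε/μ`; choose `μ = (ε^k c0)^{1/(k+1)}`. -/
theorem sublevel (k : ℕ) (hk : 1 ≤ k) : ∃ C : ℝ, 0 < C ∧ ∀ (f : ℝ → ℝ) (α β c0 ε s : ℝ),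
    (s = 1 ∨ s = -1) → 0 < c0 → 0 < ε → ContDiffOn ℝ k f (Set.Ioo α β) →
    (∀ x ∈ Set.Ioo α β, c0 ≤ s * iteratedDeriv k f x) →
    volume {x | x ∈ Set.Ioo α β ∧ |f x| < ε} ≤ ENNReal.ofReal (C * (ε / c0) ^ (1 / (k : ℝ))) := by
  induction k, hk using Nat.le_induction with
  | base =>
    refine ⟨2, by norm_num, ?_⟩
    intro f α β c0 ε s hs hc0 hε hf hd
    have h1 := sublev_interval (ε := ε) hs hc0 (I := Set.Ioo α β) Set.ordConnected_Ioo subset_rfl
      (hf.differentiableOn (by simp)) (by simpa [iteratedDeriv_one] using hd)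
    simpa using h1
  | succ k hk ih =>
    obtain ⟨C, hC, ih⟩ := ih
    refine ⟨C + 4 * 2 ^ k, by positivity, ?_⟩
    intro f α β c0 ε s hs hc0 hε hf hd
    have hk0 : (k : ℝ) ≠ 0 := by positivity
    have hk1 : ((k : ℝ) + 1) ≠ 0 := by positivity
    set ρ : ℝ := (ε / c0) ^ (1 / ((k + 1 : ℕ) : ℝ)) with hρ
    have hρ0 : 0 < ρ := Real.rpow_pos_of_pos (by positivity) _
    set μ : ℝ := c0 * (ε / c0) ^ ((k : ℝ) / ((k : ℝ) + 1)) with hμ
    have hμ0 : 0 < μ := mul_pos hc0 (Real.rpow_pos_of_pos (by positivity) _)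
    have hr1 : (μ / c0) ^ (1 / (k : ℝ)) = ρ := by
      rw [hμ, mul_div_cancel_left₀ _ hc0.ne', ← Real.rpow_mul (by positivity), hρ]
      congr 1
      push_cast
      field_simp
    have hr2 : ε / μ = ρ := by
      have h1 : ε = c0 * (ε / c0) ^ (1 : ℝ) := by
        rw [Real.rpow_one]; field_simp
      have h2 : (1 : ℝ) = (k : ℝ) / ((k : ℝ) + 1) + 1 / ((k + 1 : ℕ) : ℝ) := by
        push_cast
        field_simp
      rw [div_eq_iff hμ0.ne']
      conv_lhs => rw [h1, h2, Real.rpow_add (by positivity)]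
      rw [hμ, hρ]
      ring
    have hdiff : DifferentiableOn ℝ f (Set.Ioo α β) :=
      hf.differentiableOn (by simp)
    have hcd : ContDiffOn ℝ k (deriv f) (Set.Ioo α β) :=
      hf.deriv_of_isOpen isOpen_Ioo (by push_cast; exact le_rfl)
    have hd' : ∀ x ∈ Set.Ioo α β, c0 ≤ s * iteratedDeriv k (deriv f) x := by
      intro x hx
      have := hd x hx
      rwa [iteratedDeriv_succ'] at this
    have hpos : ∀ x ∈ Set.Ioo α β, 0 < s * iteratedDeriv k (deriv f) x := fun x hx =>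
      hc0.trans_le (hd' x hx)
    have e1 := ih (deriv f) α β c0 μ s hs hc0 hμ0 hcd hd'
    rw [hr1] at e1
    obtain ⟨I, hI, hIe⟩ := (level_intervals k hk (deriv f) α β μ s hs hcd hpos).1
    have hsn : -s = 1 ∨ -s = -1 := by rcases hs with rfl | rfl <;> simp
    have hposn : ∀ x ∈ Set.Ioo α β, 0 < -s * iteratedDeriv k (-deriv f) x := by
      intro x hx
      have h1 : iteratedDeriv k (-deriv f) x = -iteratedDeriv k (deriv f) x := by
        rw [iteratedDeriv_neg]
      rw [h1, neg_mul_neg]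
      exact hpos x hx
    obtain ⟨J, hJ, hJe⟩ := (level_intervals k hk (-deriv f) α β μ (-s) hsn hcd.neg hposn).1
    have hIsub : ∀ i, I i ⊆ {x | x ∈ Set.Ioo α β ∧ μ ≤ deriv f x} := fun i => by
      rw [hIe]; exact Set.subset_iUnion I i
    have hJsub : ∀ i, J i ⊆ {x | x ∈ Set.Ioo α β ∧ μ ≤ (-deriv f) x} := fun i => by
      rw [hJe]; exact Set.subset_iUnion J i
    have e2 : ∀ i, volume {x | x ∈ I i ∧ |f x| < ε} ≤ ENNReal.ofReal (2 * ρ) := by
      intro i
      rw [← hr2]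
      refine sublev_interval (s := 1) (Or.inl rfl) hμ0 (hI i) (fun x hx => (hIsub i hx).1)
        hdiff ?_
      intro x hx
      rw [one_mul]
      exact (hIsub i hx).2
    have e3 : ∀ i, volume {x | x ∈ J i ∧ |f x| < ε} ≤ ENNReal.ofReal (2 * ρ) := by
      intro i
      rw [← hr2]
      refine sublev_interval (s := -1) (Or.inr rfl) hμ0 (hJ i) (fun x hx => (hJsub i hx).1)
        hdiff ?_
      intro x hx
      have := (hJsub i hx).2
      simpa using this
    have hcover : {x | x ∈ Set.Ioo α β ∧ |f x| < ε} ⊆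
        {x | x ∈ Set.Ioo α β ∧ |deriv f x| < μ} ∪
          ((⋃ i, {x | x ∈ I i ∧ |f x| < ε}) ∪ ⋃ i, {x | x ∈ J i ∧ |f x| < ε}) := by
      rintro x ⟨hx, hxε⟩
      by_cases h1 : |deriv f x| < μ
      · exact Or.inl ⟨hx, h1⟩
      · right
        push Not at h1
        rcases le_abs.1 h1 with h2 | h2
        · left
          have h3 : x ∈ ⋃ i, I i := by rw [← hIe]; exact ⟨hx, h2⟩
          obtain ⟨i, hi⟩ := Set.mem_iUnion.1 h3
          exact Set.mem_iUnion.2 ⟨i, hi, hxε⟩
        · right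
          have h3 : x ∈ ⋃ i, J i := by rw [← hJe]; exact ⟨hx, h2⟩
          obtain ⟨i, hi⟩ := Set.mem_iUnion.1 h3
          exact Set.mem_iUnion.2 ⟨i, hi, hxε⟩
    have hsum : ∀ K : Fin (2 ^ k) → Set ℝ,
        (∀ i, volume {x | x ∈ K i ∧ |f x| < ε} ≤ ENNReal.ofReal (2 * ρ)) →
        volume (⋃ i, {x | x ∈ K i ∧ |f x| < ε}) ≤ ENNReal.ofReal (2 ^ k * (2 * ρ)) := by
      intro K hK
      calc volume (⋃ i, {x | x ∈ K i ∧ |f x| < ε})
          ≤ ∑ i, volume {x | x ∈ K i ∧ |f x| < ε} := measure_iUnion_fintype_le _ _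
        _ ≤ ∑ _i : Fin (2 ^ k), ENNReal.ofReal (2 * ρ) := Finset.sum_le_sum fun i _ => hK i
        _ = ENNReal.ofReal (2 ^ k * (2 * ρ)) := by
            rw [Finset.sum_const, Finset.card_univ, Fintype.card_fin, nsmul_eq_mul,
              ENNReal.ofReal_mul (show (0 : ℝ) ≤ 2 ^ k by positivity)]
            congr 1
            rw [ENNReal.ofReal_pow (by norm_num)]
            simp
    calc volume {x | x ∈ Set.Ioo α β ∧ |f x| < ε}
        ≤ volume {x | x ∈ Set.Ioo α β ∧ |deriv f x| < μ} +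
          (volume (⋃ i, {x | x ∈ I i ∧ |f x| < ε}) +
            volume (⋃ i, {x | x ∈ J i ∧ |f x| < ε})) :=
          (measure_mono hcover).trans ((measure_union_le _ _).trans
            (add_le_add le_rfl (measure_union_le _ _)))
      _ ≤ ENNReal.ofReal (C * ρ) + (ENNReal.ofReal (2 ^ k * (2 * ρ)) +
            ENNReal.ofReal (2 ^ k * (2 * ρ))) :=
          add_le_add e1 (add_le_add (hsum I e2) (hsum J e3))
      _ = ENNReal.ofReal ((C + 4 * 2 ^ k) * ρ) := by
          rw [← ENNReal.ofReal_add (by positivity) (by positivity),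
            ← ENNReal.ofReal_add (by positivity) (by positivity)]
          congr 1
          ring

end Pool.Agent.FlatRes
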