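import Pool.Agent.Lib.MP_40a0b6_an.BuildA
import Pool.Agent.Lib.MP_40a0b6_an.Sublev
set_option autoImplicit false
open MeasureTheory
open scoped ENNReal FourierTransform SchwartzMap
namespace Pool.Agent.FlatRes

/-- covering by a finite type with at most `N` elements -/
theorem buildb_pad {κ : Type*} [Fintype κ] {N : ℕ} (hN : Fintype.card κ ≤ N) {W : ℝ}
    (I : κ → Set ℝ) (hI : ∀ i, (I i).OrdConnected ∧ volume (I i) ≤ ENNReal.ofReal W) {S : Set ℝ}
    (hS : S ⊆ ⋃ i, I i) :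
    ∃ J : Fin N → Set ℝ, (∀ i, (J i).OrdConnected ∧ volume (J i) ≤ ENNReal.ofReal W) ∧
      S ⊆ ⋃ i, J i := by
  classical
  obtain ⟨e⟩ : Nonempty (κ ↪ Fin N) :=
    Function.Embedding.nonempty_of_card_le (by rw [Fintype.card_fin]; exact hN)
  refine ⟨fun i => if h : ∃ x, e x = i then I h.choose else ∅, ?_, ?_⟩
  · intro i
    by_cases h : ∃ x, e x = i
    · simp only [h, dif_pos]
      exact hI _
    · simp only [h, dif_neg, not_false_eq_true]
      exact ⟨Set.ordConnected_empty, by simp⟩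
  · intro v hv
    obtain ⟨x, hx⟩ := Set.mem_iUnion.1 (hS hv)
    refine Set.mem_iUnion.2 ⟨e x, ?_⟩
    have h : ∃ y, e y = e x := ⟨x, rfl⟩
    simp only [h, dif_pos]
    rwa [e.injective h.choose_spec]

theorem buildb_iter (F : ℝ → ℝ) (i : ℕ) :
    iteratedDeriv i (iteratedDeriv 2 F) = iteratedDeriv (i + 2) F := by
  rw [iteratedDeriv_eq_iterate, iteratedDeriv_eq_iterate, iteratedDeriv_eq_iterate,
    Function.iterate_add_apply]

theorem buildb_smooth {F : ℝ → ℝ} {n : ℕ} {S : Set ℝ} (hS : IsOpen S) (hn : 2 ≤ n)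
    (hF : ContDiffOn ℝ n F S) : ContDiffOn ℝ ((n - 2 : ℕ) : WithTop ℕ∞) (iteratedDeriv 2 F) S := by
  have h1 : ContDiffOn ℝ ((n - 1 : ℕ) : WithTop ℕ∞) (deriv F) S :=
    hF.deriv_of_isOpen hS (by norm_cast; omega)
  have h2 : ContDiffOn ℝ ((n - 2 : ℕ) : WithTop ℕ∞) (deriv (deriv F)) S :=
    h1.deriv_of_isOpen hS (by norm_cast; omega)
  have h3 : iteratedDeriv 2 F = deriv (deriv F) := by
    rw [iteratedDeriv_eq_iterate]
    rfl
  rw [h3]
  exact h2

theorem buildb_meas {n m : ℕ} {Ψ : ℝ × ℝ → ℝ} {γ : ℝ → ℝ} {a c κ s e : ℝ}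
    (G : Geo n m Ψ γ a c κ s e) (c0 : ℝ) (k t l : ℕ) :
    MeasurableSet (inP n m Ψ γ a c0 k t l) := by
  classical
  set U : Set (ℝ × ℝ) := {x | 0 < x.1 ∧ x.1 < a ∧ γ x.1 < x.2 ∧ x.2 < a} with hU
  have hγ : Measurable fun x : ℝ × ℝ => γ x.1 := G.measγ.comp measurable_fst
  have hUm : MeasurableSet U :=
    (measurableSet_lt measurable_const measurable_fst).inter
      ((measurableSet_lt measurable_fst measurable_const).inter
        ((measurableSet_lt hγ measurable_snd).inter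
          (measurableSet_lt measurable_snd measurable_const)))
  set g : ℝ × ℝ → ℝ := U.piecewise (D2 Ψ) (fun _ => 0) with hg
  have hgm : Measurable g :=
    ContinuousOn.measurable_piecewise G.contD2 continuousOn_const hUm
  have hgU : ∀ x ∈ U, g x = D2 Ψ x := fun x hx => Set.piecewise_eq_of_mem _ _ _ hx
  have heq : inP n m Ψ γ a c0 k t l = {x | x ∈ U ∧ 0 < g x ∧ (1 / 2 : ℝ) ^ k / 2 < x.1 ∧
      x.1 ≤ (1 / 2 : ℝ) ^ k ∧ (1 / 2 : ℝ) ^ t / 2 < x.2 - γ x.1 ∧ x.2 - γ x.1 ≤ (1 / 2 : ℝ) ^ t ∧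
      x.2 - γ x.1 < x.1 ^ m ∧ lamv n c0 t l ≤ g x ∧ (l = 0 ∨ g x < lamv n c0 t (l - 1))} := by
    ext x
    constructor
    · rintro ⟨⟨h1, h2, h3, h4, h5⟩, h6⟩
      have hx : x ∈ U := ⟨h1, h2, h3, h4⟩
      refine ⟨hx, ?_, ?_⟩
      · rw [hgU x hx]; exact h5
      · rw [hgU x hx]; exact h6
    · rintro ⟨hx, h5, h6⟩
      rw [hgU x hx] at h5 h6
      exact ⟨⟨hx.1, hx.2.1, hx.2.2.1, hx.2.2.2, h5⟩, h6⟩
  rw [heq]
  have hsub : Measurable fun x : ℝ × ℝ => x.2 - γ x.1 := measurable_snd.sub hγ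
  refine hUm.inter ((measurableSet_lt measurable_const hgm).inter
    ((measurableSet_lt measurable_const measurable_fst).inter
      ((measurableSet_le measurable_fst measurable_const).inter
        ((measurableSet_lt measurable_const hsub).inter
          ((measurableSet_le hsub measurable_const).inter
            ((measurableSet_lt hsub (measurable_fst.pow_const m)).inter
              ((measurableSet_le measurable_const hgm).inter ?_)))))))
  have hlast : MeasurableSet {x : ℝ × ℝ | l = 0 ∨ g x < lamv n c0 t (l - 1)} := by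
    rcases Nat.eq_zero_or_pos l with h | h
    · have h1 : {x : ℝ × ℝ | l = 0 ∨ g x < lamv n c0 t (l - 1)} = Set.univ := by
        ext x
        simp [h]
      rw [h1]
      exact MeasurableSet.univ
    · have h1 : {x : ℝ × ℝ | l = 0 ∨ g x < lamv n c0 t (l - 1)} =
          {x | g x < lamv n c0 t (l - 1)} := by
        ext x
        simp [h.ne']
      rw [h1]
      exact measurableSet_lt hgm measurable_const
  exact hlast

theorem buildb_ratio {n : ℕ} (hn : 4 ≤ n) {c c0 : ℝ} (hc : 0 < c) (hc0 : 0 < c0)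
    (hcc : c0 ≤ c / 2) (t l : ℕ) (hl : 1 ≤ l) :
    (lamv n c0 t (l - 1) / (c * ((1 / 2 : ℝ) ^ t / 2))) ^ (1 / ((n - 3 : ℕ) : ℝ)) ≤
      2 * (1 / 2 : ℝ) ^ (t + l) := by
  obtain ⟨N, rfl⟩ : ∃ N, n = N + 4 := ⟨n - 4, by omega⟩
  obtain ⟨L, rfl⟩ : ∃ L, l = L + 1 := ⟨l - 1, by omega⟩
  have h3 : N + 4 - 3 = N + 1 := by omega
  have h2 : N + 4 - 2 = N + 2 := by omega
  unfold lamv
  rw [h3, h2, Nat.add_sub_cancel]
  have hpos : (0 : ℝ) < (1 / 2 : ℝ) ^ t := by positivity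
  have h4 : c0 * (1 / 2 : ℝ) ^ (t * (N + 2) + L * (N + 1)) / (c * ((1 / 2 : ℝ) ^ t / 2)) ≤
      ((1 / 2 : ℝ) ^ (t + L)) ^ (N + 1) := by
    rw [div_le_iff₀ (by positivity)]
    have h5 : (1 / 2 : ℝ) ^ (t * (N + 2) + L * (N + 1)) =
        ((1 / 2 : ℝ) ^ (t + L)) ^ (N + 1) * (1 / 2 : ℝ) ^ t := by
      rw [← pow_mul, ← pow_add]
      congr 1
      ring
    rw [h5]
    have h6 : 0 < ((1 / 2 : ℝ) ^ (t + L)) ^ (N + 1) * (1 / 2 : ℝ) ^ t := by positivity
    nlinarith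
  have h7 : (0 : ℝ) ≤ c0 * (1 / 2 : ℝ) ^ (t * (N + 2) + L * (N + 1)) /
      (c * ((1 / 2 : ℝ) ^ t / 2)) := by positivity
  refine (Real.rpow_le_rpow h7 h4 (by positivity)).trans (le_of_eq ?_)
  rw [one_div (((N + 1 : ℕ) : ℝ)), Real.pow_rpow_inv_natCast (by positivity) (by omega)]
  rw [show t + (L + 1) = (t + L) + 1 from rfl, pow_succ (1 / 2 : ℝ) (t + L)]
  ring

/-- JOB N1.  The inner pieces are pieces.  `c0 = min (c/2) 1`.
Short slices: for `l = 0` one interval of length `2^{-s}/2`.  For `l ≥ 1` (then `n ≥ 4` or the piece is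
empty) the slice over `u` is `{v ∈ (γ u,a) | B/2 < v-γ u ≤ B, v - γ u < u^m} ∩ {lam ≤ D2} ∩ {D2 < lam_{l-1}}`,
an intersection of an interval, a union of `2^(n-2)` intervals and a union of `2^(n-2)` intervals
(`level_intervals`), so a union of `4^(n-2)` intervals contained in
`{v ∈ (γ u + B/2, a) : |D2| < lam_{l-1}}`, which has measure
`≤ C (lam_{l-1}/(c B/2))^{1/(n-3)} ≤ C' 2^{-(s+l)}` by `sublevel` with `k = n-3` applied to `D2` on
`(γ u + B/2, a)`, where `s·∂₂^{n-1}Ψ ≥ c B/2` (`Geo.dn1`).  Measurability: `Geo.contγ`, `Geo.contD2`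
on the open set `{0<x.1<a, γ x.1 < x.2 < a}`. -/
theorem inP_piece (n m : ℕ) (hn : 3 ≤ n) (Ψ : ℝ × ℝ → ℝ) (γ : ℝ → ℝ) (a c κ s e : ℝ)
    (G : Geo n m Ψ γ a c κ s e) :
    ∃ W0 : ℝ, 0 < W0 ∧ ∀ k t l : ℕ,
      Piece Ψ γ (inP n m Ψ γ a (min (c / 2) 1) k t l) (4 ^ n) ((1 / 2) ^ k) ((1 / 2) ^ t)
        (W0 * (1 / 2) ^ (t + l)) (lamv n (min (c / 2) 1) t l) := by
  have hc := G.hc
  set c0 : ℝ := min (c / 2) 1 with hc0d
  have hc0 : 0 < c0 := lt_min (by linarith) one_pos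
  have hcc : c0 ≤ c / 2 := min_le_left _ _
  obtain ⟨C, hC, hsub⟩ : ∃ C : ℝ, 0 < C ∧ (4 ≤ n → ∀ (f : ℝ → ℝ) (α β c0 ε s : ℝ),
      (s = 1 ∨ s = -1) → 0 < c0 → 0 < ε → ContDiffOn ℝ (n - 3 : ℕ) f (Set.Ioo α β) →
      (∀ x ∈ Set.Ioo α β, c0 ≤ s * iteratedDeriv (n - 3) f x) →
      volume {x | x ∈ Set.Ioo α β ∧ |f x| < ε} ≤
        ENNReal.ofReal (C * (ε / c0) ^ (1 / ((n - 3 : ℕ) : ℝ)))) := by
    by_cases h4 : 4 ≤ n
    · obtain ⟨C, hC, h⟩ := sublevel (n - 3) (by omega)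
      exact ⟨C, hC, fun _ => h⟩
    · exact ⟨1, one_pos, fun h => absurd h h4⟩
  refine ⟨1 + 2 * C, by positivity, fun k t l => ?_⟩
  have hlam : 0 < lamv n c0 t l := by unfold lamv; positivity
  refine ⟨buildb_meas G c0 k t l, ?_, ?_, ?_, ?_⟩
  · rintro x ⟨-, h1, h2, -⟩
    exact ⟨h1, h2⟩
  · rintro x ⟨-, -, -, h1, h2, -⟩
    have : (0 : ℝ) < (1 / 2 : ℝ) ^ t := by positivity
    exact ⟨by linarith, h2⟩
  · refine convSlices_of_geo n m hn Ψ γ a c κ s e G _ _ hlam ?_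
    rintro x ⟨h1, -, -, -, -, -, h2, -⟩
    exact ⟨h1, h2⟩
  · intro u
    have hB : (0 : ℝ) < (1 / 2 : ℝ) ^ t := by positivity
    have hW : (0 : ℝ) ≤ (1 + 2 * C) * (1 / 2) ^ (t + l) := by positivity
    by_cases hu : u ∈ Set.Ioo 0 a
    swap
    · refine ⟨fun _ => ∅, fun _ => ⟨Set.ordConnected_empty, by simp⟩, ?_⟩
      rintro v ⟨⟨h1, h2, -⟩, -⟩
      exact absurd ⟨h1, h2⟩ hu
    rcases Nat.eq_zero_or_pos l with hl | hl
    · -- one interval
      subst hl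
      refine buildb_pad (κ := Unit) (by simpa using Nat.one_le_pow _ _ (by norm_num))
        (fun _ => Set.Ioc (γ u + (1 / 2 : ℝ) ^ t / 2) (γ u + (1 / 2 : ℝ) ^ t)) ?_ ?_
      · intro _
        refine ⟨Set.ordConnected_Ioc, ?_⟩
        rw [Real.volume_Ioc]
        refine ENNReal.ofReal_le_ofReal ?_
        rw [add_zero]
        nlinarith
      · rintro v ⟨-, -, -, h1, h2, -⟩
        simp only at h1 h2
        exact Set.mem_iUnion.2 ⟨(), by linarith, by linarith⟩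
    · -- `l ≥ 1`
      by_cases h4 : 4 ≤ n
      swap
      · -- `n = 3`: empty
        have hn3 : n = 3 := by omega
        refine ⟨fun _ => ∅, fun _ => ⟨Set.ordConnected_empty, by simp⟩, ?_⟩
        rintro v ⟨-, -, -, -, -, -, h1, h2⟩
        exfalso
        rcases h2 with h2 | h2
        · omega
        · subst hn3
          simp only [lamv, Nat.sub_self, mul_zero, add_zero] at h1 h2
          linarith
      set F : ℝ → ℝ := fun v => Ψ (u, v) with hF
      set f : ℝ → ℝ := iteratedDeriv 2 F with hf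
      have hsm : ContDiffOn ℝ ((n - 2 : ℕ) : WithTop ℕ∞) f (Set.Ioo (γ u) a) :=
        buildb_smooth isOpen_Ioo (by omega) (G.smooth u hu)
      set α : ℝ := γ u + (1 / 2 : ℝ) ^ t / 2 with hα
      have hαsub : Set.Ioo α a ⊆ Set.Ioo (γ u) a := Set.Ioo_subset_Ioo_left (by linarith)
      have hposn : ∀ v ∈ Set.Ioo α a, 0 < s * iteratedDeriv (n - 2) f v := by
        intro v hv
        rw [hf, buildb_iter, show n - 2 + 2 = n by omega]
        exact hc.trans_le (G.dn u hu v (hαsub hv))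
      have hsm' := hsm.mono hαsub
      obtain ⟨I, hI, hIe⟩ := (level_intervals (n - 2) (by omega) f α a (lamv n c0 t l) s G.hs
        hsm' hposn).1
      obtain ⟨J, hJ, hJe⟩ := (level_intervals (n - 2) (by omega) f α a (lamv n c0 t (l - 1)) s
        G.hs hsm' hposn).2
      have hlam1 : 0 < lamv n c0 t (l - 1) := by unfold lamv; positivity
      have hvol : volume {v | v ∈ Set.Ioo α a ∧ |f v| < lamv n c0 t (l - 1)} ≤
          ENNReal.ofReal ((1 + 2 * C) * (1 / 2) ^ (t + l)) := by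
        have h1 := hsub h4 f α a (c * ((1 / 2 : ℝ) ^ t / 2)) (lamv n c0 t (l - 1)) s G.hs
          (by positivity) hlam1 (hsm'.of_le (by norm_cast; omega)) (by
            intro v hv
            rw [hf, buildb_iter, show n - 3 + 2 = n - 1 by omega]
            refine le_trans ?_ (G.dn1 u hu v (hαsub hv))
            exact mul_le_mul_of_nonneg_left (by linarith [hv.1]) hc.le)
        refine h1.trans (ENNReal.ofReal_le_ofReal ?_)
        have h2 := buildb_ratio h4 hc hc0 hcc t l hl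
        have h3 : (0 : ℝ) < (1 / 2 : ℝ) ^ (t + l) := by positivity
        nlinarith
      refine buildb_pad (κ := Fin (2 ^ (n - 2)) × Fin (2 ^ (n - 2))) ?_
        (fun p => I p.1 ∩ J p.2) ?_ ?_
      · rw [Fintype.card_prod, Fintype.card_fin, ← pow_add]
        calc 2 ^ (n - 2 + (n - 2)) ≤ 2 ^ (2 * n) :=
              Nat.pow_le_pow_right (by norm_num) (by omega)
          _ = 4 ^ n := by rw [pow_mul]; norm_num
      · rintro ⟨i, j⟩
        refine ⟨(hI i).inter (hJ j), ?_⟩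
        refine (measure_mono ?_).trans hvol
        rintro v ⟨h1, h2⟩
        have h3 : v ∈ {x | x ∈ Set.Ioo α a ∧ lamv n c0 t l ≤ f x} := by
          rw [hIe]; exact Set.mem_iUnion.2 ⟨i, h1⟩
        have h5 : v ∈ {x | x ∈ Set.Ioo α a ∧ f x < lamv n c0 t (l - 1)} := by
          rw [hJe]; exact Set.mem_iUnion.2 ⟨j, h2⟩
        refine ⟨h3.1, ?_⟩
        rw [abs_of_nonneg (hlam.le.trans h3.2)]
        exact h5.2
      · rintro v ⟨⟨-, -, -, h2, -⟩, -, -, h3, -, -, h5, h6⟩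
        have hv : v ∈ Set.Ioo α a := by
          simp only at h2 h3
          exact ⟨by linarith, h2⟩
        have h7 : v ∈ ⋃ i, I i := by rw [← hIe]; exact ⟨hv, h5⟩
        have h8 : v ∈ ⋃ i, J i := by
          rw [← hJe]
          exact ⟨hv, h6.resolve_left (by omega)⟩
        obtain ⟨i, hi⟩ := Set.mem_iUnion.1 h7
        obtain ⟨j, hj⟩ := Set.mem_iUnion.1 h8
        exact Set.mem_iUnion.2 ⟨(i, j), hi, hj⟩

end Pool.Agent.FlatRes
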