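import Pool.Agent.Lib.MP_40a0b6_an.BuildA
set_option autoImplicit false
open MeasureTheory
open scoped ENNReal FourierTransform SchwartzMap
namespace Pool.Agent.FlatRes

/-- JOB N2.  `inP` is empty if `t < m k`. -/
theorem inP_empty (n m : ℕ) (Ψ : ℝ × ℝ → ℝ) (γ : ℝ → ℝ) (a c0 : ℝ) (k t l : ℕ)
    (h : t < m * k) : inP n m Ψ γ a c0 k t l = ∅ := by
  rw [Set.eq_empty_iff_forall_notMem]
  rintro x ⟨hr, _, h2, h3, _, h5, _⟩
  have hx0 : 0 < x.1 := hr.1
  have h6 : x.1 ^ m ≤ (1 / 2 : ℝ) ^ (m * k) := by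
    calc x.1 ^ m ≤ ((1 / 2 : ℝ) ^ k) ^ m := pow_le_pow_left₀ hx0.le h2 m
      _ = (1 / 2 : ℝ) ^ (m * k) := by rw [← pow_mul, mul_comm]
  have h7 : (1 / 2 : ℝ) ^ (m * k) ≤ (1 / 2 : ℝ) ^ (t + 1) :=
    pow_le_pow_of_le_one (by norm_num) (by norm_num) h
  have h8 : (1 / 2 : ℝ) ^ (t + 1) = (1 / 2 : ℝ) ^ t / 2 := by rw [pow_succ]; ring
  linarith

private theorem buildC_open {n m : ℕ} {Ψ : ℝ × ℝ → ℝ} {γ : ℝ → ℝ} {a c κ s e : ℝ}
    (G : Geo n m Ψ γ a c κ s e) : IsOpen (region Ψ γ a) := by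
  have hV : IsOpen {x : ℝ × ℝ | 0 < x.1 ∧ x.1 < a} :=
    (isOpen_lt continuous_const continuous_fst).inter (isOpen_lt continuous_fst continuous_const)
  have hf : ContinuousOn (fun x : ℝ × ℝ => x.2 - γ x.1) {x : ℝ × ℝ | 0 < x.1 ∧ x.1 < a} := by
    refine continuous_snd.continuousOn.sub ?_
    exact G.contγ.comp continuous_fst.continuousOn (fun x hx => hx)
  have hU : IsOpen {x : ℝ × ℝ | 0 < x.1 ∧ x.1 < a ∧ γ x.1 < x.2 ∧ x.2 < a} := by
    have h1 := hf.isOpen_inter_preimage hV (isOpen_Ioi (a := (0 : ℝ)))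
    have h2 := h1.inter (isOpen_lt continuous_snd (continuous_const (y := a)))
    convert h2 using 1
    ext x
    simp only [Set.mem_ofPred_eq, Set.mem_inter_iff, Set.mem_preimage, Set.mem_Ioi, sub_pos]
    tauto
  have h3 := G.contD2.isOpen_inter_preimage hU (isOpen_Ioi (a := (0 : ℝ)))
  convert h3 using 1
  ext x
  simp only [region, Set.mem_ofPred_eq, Set.mem_inter_iff, Set.mem_preimage, Set.mem_Ioi]
  tauto

/-- JOB N3.  Properties of the outer pieces (`outP`): measurable, convex slices with modulus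
`c (2^{-t}/2)^{n-2}` (`Geo.outer`, `convSlices_of_geo`), `0 < x.1 ≤ 2^{-t/m}`. -/
theorem outP_props (n m : ℕ) (hn : 3 ≤ n) (hm : 2 ≤ m) (Ψ : ℝ × ℝ → ℝ) (γ : ℝ → ℝ)
    (a c κ s e : ℝ) (G : Geo n m Ψ γ a c κ s e) (t : ℕ) :
    MeasurableSet (outP m Ψ γ a t) ∧
    ConvSlices Ψ (outP m Ψ γ a t) (4 ^ n) (c * ((1 / 2) ^ t / 2) ^ (n - 2)) ∧
    (∀ x ∈ outP m Ψ γ a t, 0 < x.1 ∧ x.1 ≤ (2 : ℝ) ^ (-(t : ℝ) / m)) ∧
    (∀ x ∈ outP m Ψ γ a t, |x.2| ≤ 1) ∧
    volume (outP m Ψ γ a t) ≤ ENNReal.ofReal ((2 : ℝ) ^ (-(t : ℝ) / m) * (1 / 2) ^ t) := by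
  have hmeas : MeasurableSet (outP m Ψ γ a t) := by
    have hy : Measurable (fun x : ℝ × ℝ => x.2 - γ x.1) :=
      measurable_snd.sub (G.measγ.comp measurable_fst)
    exact (buildC_open G).measurableSet.inter
      ((measurableSet_lt measurable_const hy).inter ((measurableSet_le hy measurable_const).inter
        (measurableSet_le (measurable_fst.pow_const m) hy)))
  have hx : ∀ x ∈ outP m Ψ γ a t, 0 < x.1 ∧ x.1 ≤ (2 : ℝ) ^ (-(t : ℝ) / m) := by
    rintro x ⟨hr, _, h2, h3⟩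
    have hx0 : 0 < x.1 := hr.1
    refine ⟨hx0, ?_⟩
    have hm0 : (m : ℝ) ≠ 0 := by positivity
    have h4 : x.1 ^ m ≤ (1 / 2 : ℝ) ^ t := h3.trans h2
    have h5 : x.1 = (x.1 ^ m) ^ ((1 : ℝ) / m) := by
      rw [← Real.rpow_natCast, ← Real.rpow_mul hx0.le, mul_one_div_cancel hm0, Real.rpow_one]
    have h6 : ((1 / 2 : ℝ) ^ t) ^ ((1 : ℝ) / m) = (2 : ℝ) ^ (-(t : ℝ) / m) := by
      have : (1 / 2 : ℝ) ^ t = (2 : ℝ) ^ (-(t : ℝ)) := by
        rw [Real.rpow_neg (by norm_num), Real.rpow_natCast, one_div, inv_pow]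
      rw [this, ← Real.rpow_mul (by norm_num)]
      congr 1
      ring
    rw [h5, ← h6]
    exact Real.rpow_le_rpow (by positivity) h4 (by positivity)
  refine ⟨hmeas, ?_, hx, ?_, ?_⟩
  · have hc := G.hc
    refine convSlices_of_geo n m hn Ψ γ a c κ s e G _ _ (by positivity) ?_
    rintro x ⟨hr, h1, h2, h3⟩
    refine ⟨hr, ?_⟩
    obtain ⟨r1, r2, r3, r4, r5⟩ := hr
    have h4 := G.outer x.1 ⟨r1, r2⟩ x.2 ⟨r3, r4⟩ h3
    have h5 : |iteratedDeriv 2 (fun t => Ψ (x.1, t)) x.2| = D2 Ψ x := abs_of_pos r5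
    rw [h5] at h4
    refine le_trans ?_ h4
    have h6 : ((1 / 2 : ℝ) ^ t / 2) ^ (n - 2) ≤ (x.2 - γ x.1) ^ (n - 2) :=
      pow_le_pow_left₀ (by positivity) h1.le _
    exact mul_le_mul_of_nonneg_left h6 hc.le
  · rintro x ⟨⟨r1, r2, r3, r4, r5⟩, _⟩
    have h1 := abs_lt.1 (G.gb x.1 ⟨r1, r2⟩)
    have h2 := G.ha1
    rw [abs_le]
    constructor <;> linarith
  · set U0 : ℝ := (2 : ℝ) ^ (-(t : ℝ) / m) with hU0
    have hU0' : 0 ≤ U0 := by positivity
    have e1 : volume (outP m Ψ γ a t) = ∫⁻ u, volume (Prod.mk u ⁻¹' (outP m Ψ γ a t)) := by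
      rw [Measure.volume_eq_prod]
      exact Measure.prod_apply hmeas
    rw [e1]
    calc ∫⁻ u, volume (Prod.mk u ⁻¹' (outP m Ψ γ a t))
        ≤ ∫⁻ u, (Set.Ioc (0 : ℝ) U0).indicator (fun _ => ENNReal.ofReal ((1 / 2) ^ t)) u := by
          refine lintegral_mono fun u => ?_
          by_cases hu : u ∈ Set.Ioc (0 : ℝ) U0
          · rw [Set.indicator_of_mem hu]
            have hsub : Prod.mk u ⁻¹' (outP m Ψ γ a t) ⊆ Set.Ioc (γ u) (γ u + (1 / 2) ^ t) := by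
              rintro v ⟨⟨_, _, r3, _, _⟩, _, h2, _⟩
              have r3' : γ u < v := r3
              have h2' : v - γ u ≤ (1 / 2 : ℝ) ^ t := h2
              exact ⟨r3', by linarith⟩
            refine (measure_mono hsub).trans ?_
            rw [Real.volume_Ioc]
            simp
          · rw [Set.indicator_of_notMem hu]
            have hemp : Prod.mk u ⁻¹' (outP m Ψ γ a t) = ∅ := by
              rw [Set.eq_empty_iff_forall_notMem]
              intro v hv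
              exact hu (hx (u, v) hv)
            rw [hemp, measure_empty]
      _ = ENNReal.ofReal ((1 / 2) ^ t) * volume (Set.Ioc (0 : ℝ) U0) := by
          rw [lintegral_indicator measurableSet_Ioc, setLIntegral_const]
      _ = ENNReal.ofReal (U0 * (1 / 2) ^ t) := by
          rw [Real.volume_Ioc, sub_zero, ← ENNReal.ofReal_mul (by positivity), mul_comm]

/-- Every number in `(0, 1]` lies in a dyadic interval. -/
private theorem buildC_dyadic {y : ℝ} (h0 : 0 < y) (h1 : y ≤ 1) :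
    ∃ s : ℕ, (1 / 2 : ℝ) ^ s / 2 < y ∧ y ≤ (1 / 2 : ℝ) ^ s := by
  obtain ⟨s, hs1, hs2⟩ := exists_nat_pow_near_of_lt_one h0 h1 (by norm_num : (0 : ℝ) < 1 / 2)
    (by norm_num)
  refine ⟨s, ?_, hs2⟩
  have : (1 / 2 : ℝ) ^ (s + 1) = (1 / 2 : ℝ) ^ s / 2 := by rw [pow_succ]; ring
  rw [← this]
  exact hs1

private theorem buildC_uniq {y : ℝ} {s t : ℕ} (h1 : (1 / 2 : ℝ) ^ s / 2 < y)
    (h2 : y ≤ (1 / 2 : ℝ) ^ s) (h3 : (1 / 2 : ℝ) ^ t / 2 < y) (h4 : y ≤ (1 / 2 : ℝ) ^ t) :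
    s = t := by
  have key : ∀ a b : ℕ, (1 / 2 : ℝ) ^ a / 2 < y → y ≤ (1 / 2 : ℝ) ^ b → ¬ a < b := by
    intro a b ha hb hab
    have h5 : (1 / 2 : ℝ) ^ b ≤ (1 / 2 : ℝ) ^ (a + 1) :=
      pow_le_pow_of_le_one (by norm_num) (by norm_num) hab
    have h6 : (1 / 2 : ℝ) ^ (a + 1) = (1 / 2 : ℝ) ^ a / 2 := by rw [pow_succ]; ring
    linarith
  have h5 := key s t h1 h4
  have h6 := key t s h3 h2
  omega

/-- JOB N4.  The pieces partition the quadrant region. -/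
theorem region_cover (n m : ℕ) (hn : 3 ≤ n) (Ψ : ℝ × ℝ → ℝ) (γ : ℝ → ℝ) (a c κ s e : ℝ)
    (G : Geo n m Ψ γ a c κ s e) :
    region Ψ γ a = (⋃ p : ℕ × ℕ × ℕ, inP n m Ψ γ a (min (c / 2) 1) p.1 p.2.1 p.2.2) ∪
      ⋃ t : ℕ, outP m Ψ γ a t := by
  apply Set.Subset.antisymm
  · intro x hx
    have hx' := hx
    obtain ⟨r1, r2, r3, r4, r5⟩ := hx'
    have hγ := abs_lt.1 (G.gb x.1 ⟨r1, r2⟩)
    have ha1 := G.ha1
    obtain ⟨t, ht1, ht2⟩ := buildC_dyadic (y := x.2 - γ x.1) (by linarith) (by linarith)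
    by_cases hout : x.1 ^ m ≤ x.2 - γ x.1
    · right
      exact Set.mem_iUnion.2 ⟨t, hx, ht1, ht2, hout⟩
    · left
      push Not at hout
      obtain ⟨k, hk1, hk2⟩ := buildC_dyadic (y := x.1) r1 (by linarith)
      have hc := G.hc
      have hc0 : 0 < min (c / 2) 1 := lt_min (by positivity) one_pos
      have hex : ∃ l : ℕ, lamv n (min (c / 2) 1) t l ≤ D2 Ψ x := by
        have r5' : 0 < D2 Ψ x := r5
        rcases Nat.lt_or_ge 3 n with h3 | h3
        · -- the levels tend to zero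
          obtain ⟨l, hl⟩ := exists_pow_lt_of_lt_one r5' (by norm_num : (1 / 2 : ℝ) < 1)
          refine ⟨l, le_trans ?_ hl.le⟩
          unfold lamv
          have h4 : l ≤ t * (n - 2) + l * (n - 3) := by
            have : l * 1 ≤ l * (n - 3) := Nat.mul_le_mul_left l (by omega)
            omega
          have h5 : (1 / 2 : ℝ) ^ (t * (n - 2) + l * (n - 3)) ≤ (1 / 2 : ℝ) ^ l :=
            pow_le_pow_of_le_one (by norm_num) (by norm_num) h4
          calc min (c / 2) 1 * (1 / 2 : ℝ) ^ (t * (n - 2) + l * (n - 3))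
              ≤ 1 * (1 / 2 : ℝ) ^ (t * (n - 2) + l * (n - 3)) :=
                mul_le_mul_of_nonneg_right (min_le_right _ _) (by positivity)
            _ ≤ (1 / 2 : ℝ) ^ l := by rw [one_mul]; exact h5
        · have h3' : n = 3 := by omega
          refine ⟨0, ?_⟩
          have h4 := G.dn1 x.1 ⟨r1, r2⟩ x.2 ⟨r3, r4⟩
          have e1 : iteratedDeriv (n - 1) (fun t => Ψ (x.1, t)) x.2 = D2 Ψ x := by
            rw [h3']
            rfl
          rw [e1] at h4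
          have hy : 0 < x.2 - γ x.1 := by linarith
          have hcy : 0 < c * (x.2 - γ x.1) := mul_pos hc hy
          have h5 : c * (x.2 - γ x.1) ≤ D2 Ψ x := by
            rcases G.hs with hs | hs
            · rw [hs, one_mul] at h4
              exact h4
            · rw [hs] at h4
              linarith
          refine le_trans ?_ h5
          unfold lamv
          have e2 : t * (n - 2) + 0 * (n - 3) = t := by
            rw [h3']
            omega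
          rw [e2]
          have hp : 0 < (1 / 2 : ℝ) ^ t := by positivity
          calc min (c / 2) 1 * (1 / 2 : ℝ) ^ t ≤ c / 2 * (1 / 2 : ℝ) ^ t :=
                mul_le_mul_of_nonneg_right (min_le_left _ _) hp.le
            _ = c * ((1 / 2 : ℝ) ^ t / 2) := by ring
            _ ≤ c * (x.2 - γ x.1) := mul_le_mul_of_nonneg_left ht1.le hc.le
      classical
      refine Set.mem_iUnion.2 ⟨(k, t, Nat.find hex), hx, hk1, hk2, ht1, ht2, hout,
        Nat.find_spec hex, ?_⟩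
      by_cases hl : Nat.find hex = 0
      · exact Or.inl hl
      · right
        have := Nat.find_min hex (m := Nat.find hex - 1) (by omega)
        push Not at this
        exact this
  · intro x hx
    rcases hx with hx | hx
    · obtain ⟨p, hp⟩ := Set.mem_iUnion.1 hx
      exact hp.1
    · obtain ⟨t, ht⟩ := Set.mem_iUnion.1 hx
      exact ht.1

theorem inP_disjoint (n m : ℕ) (Ψ : ℝ × ℝ → ℝ) (γ : ℝ → ℝ) (a c0 : ℝ) (hc0 : 0 < c0) :
    Pairwise (Function.onFun Disjoint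
      (fun p : ℕ × ℕ × ℕ => inP n m Ψ γ a c0 p.1 p.2.1 p.2.2)) := by
  rintro ⟨k, t, l⟩ ⟨k', t', l'⟩ hne
  rw [Function.onFun, Set.disjoint_left]
  rintro x ⟨_, a1, a2, a3, a4, _, a6, a7⟩ ⟨_, b1, b2, b3, b4, _, b6, b7⟩
  apply hne
  have hk : k = k' := buildC_uniq a1 a2 b1 b2
  have ht : t = t' := buildC_uniq a3 a4 b3 b4
  subst hk
  subst ht
  have key : ∀ i j : ℕ, lamv n c0 t i ≤ D2 Ψ x → (j = 0 ∨ D2 Ψ x < lamv n c0 t (j - 1)) →
      ¬ i < j := by
    intro i j hi hj hij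
    rcases hj with hj | hj
    · omega
    · have h5 : lamv n c0 t (j - 1) ≤ lamv n c0 t i := by
        unfold lamv
        refine mul_le_mul_of_nonneg_left ?_ hc0.le
        refine pow_le_pow_of_le_one (by norm_num) (by norm_num) ?_
        have : i * (n - 3) ≤ (j - 1) * (n - 3) := Nat.mul_le_mul_right _ (by omega)
        omega
      linarith
  have h1 := key l l' a6 b7
  have h2 := key l' l b6 a7
  have h3 : l = l' := by omega
  rw [h3]

theorem outP_disjoint (m : ℕ) (Ψ : ℝ × ℝ → ℝ) (γ : ℝ → ℝ) (a : ℝ) :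
    Pairwise (Function.onFun Disjoint (fun t : ℕ => outP m Ψ γ a t)) := by
  intro t t' hne
  rw [Function.onFun, Set.disjoint_left]
  rintro x ⟨_, a3, a4, _⟩ ⟨_, b3, b4, _⟩
  exact hne (buildC_uniq a3 a4 b3 b4)

theorem inP_outP_disjoint (n m : ℕ) (Ψ : ℝ × ℝ → ℝ) (γ : ℝ → ℝ) (a c0 : ℝ)
    (p : ℕ × ℕ × ℕ) (t : ℕ) :
    Disjoint (inP n m Ψ γ a c0 p.1 p.2.1 p.2.2) (outP m Ψ γ a t) := by
  rw [Set.disjoint_left]
  rintro x ⟨_, _, _, _, _, a5, _⟩ ⟨_, _, _, b5⟩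
  linarith

end Pool.Agent.FlatRes
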