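import Pool.Agent.Lib.MP_40a0b6_an.Defs
set_option autoImplicit false
open MeasureTheory
open scoped ENNReal FourierTransform SchwartzMap
namespace Pool.Agent.FlatRes

/-- JOB E.  A measure on `ℝ` bounded by `C ·` length on half-open intervals is `≤ C · volume`
(on every set; cover by half-open intervals: the outer measure `volume` on `ℝ` is the Stieltjes
outer measure, `Real.volume_eq_stieltjes_id`, `StieltjesFunction.outer`, `OuterMeasure.ofFunction`). -/
theorem measure_le_of_Ioc (μ : Measure ℝ) (C : ℝ≥0∞) (hC : C ≠ ⊤)
    (h : ∀ a b : ℝ, a < b → μ (Set.Ioc a b) ≤ C * ENNReal.ofReal (b - a)) (A : Set ℝ) :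
    μ A ≤ C * volume A := by
  have hbot : (botSet : Set ℝ) = ∅ := by
    ext x
    simp only [botSet, Set.mem_ofPred_eq, Set.mem_empty_iff_false, iff_false]
    intro hx
    have := hx (x - 1)
    linarith
  have hab : ∀ a b : ℝ, μ (Set.Ioc a b) ≤ C * ENNReal.ofReal (b - a) := by
    intro a b
    rcases lt_or_ge a b with h1 | h1
    · exact h a b h1
    · rw [Set.Ioc_eq_empty (not_lt.2 h1), measure_empty]
      exact zero_le
  have key : ∀ s : Set ℝ, μ.toOuterMeasure s ≤ (C • StieltjesFunction.id.length) s := by
    intro s
    show μ s ≤ C * StieltjesFunction.id.length s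
    rw [StieltjesFunction.length_eq, hbot]
    simp only [Set.sdiff_empty]
    refine ENNReal.le_of_forall_pos_le_add fun ε hε hfin => ?_
    rcases eq_or_ne C 0 with hC0 | hC0
    · have h0 : μ s ≤ 0 := by
        calc μ s ≤ μ (⋃ n : ℕ, Set.Ioc (-(n : ℝ)) n) := by
              apply measure_mono
              intro x _
              obtain ⟨n, hn⟩ := exists_nat_gt |x|
              rw [Set.mem_iUnion]
              have := abs_lt.1 hn
              exact ⟨n, this.1, this.2.le⟩
          _ ≤ ∑' n : ℕ, μ (Set.Ioc (-(n : ℝ)) n) := measure_iUnion_le _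
          _ ≤ 0 := by
              have : ∀ n : ℕ, μ (Set.Ioc (-(n : ℝ)) n) = 0 := by
                intro n
                have := hab (-(n : ℝ)) n
                rw [hC0, zero_mul] at this
                exact le_antisymm this zero_le
              simp [this]
      exact h0.trans zero_le
    · by_contra hcon
      push Not at hcon
      have h1 : (⨅ (a : ℝ) (b : ℝ) (_ : s ⊆ Set.Ioc a b),
          ENNReal.ofReal (StieltjesFunction.id b - StieltjesFunction.id a)) < μ s / C := by
        rw [ENNReal.lt_div_iff_mul_lt (Or.inl hC0) (Or.inl hC), mul_comm]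
        exact lt_of_le_of_lt le_self_add hcon
      simp only [iInf_lt_iff] at h1
      obtain ⟨a, b, hs, hlt⟩ := h1
      rw [ENNReal.lt_div_iff_mul_lt (Or.inl hC0) (Or.inl hC), mul_comm] at hlt
      exact absurd ((measure_mono hs).trans (hab a b)) (not_le.2 hlt)
  have h2 : μ.toOuterMeasure ≤ C • StieltjesFunction.id.outer := by
    unfold StieltjesFunction.outer
    rw [OuterMeasure.smul_ofFunction hC]
    exact OuterMeasure.le_ofFunction.2 key
  have h3 : StieltjesFunction.id.outer A = volume A := by
    rw [Real.volume_eq_stieltjes_id, StieltjesFunction.measure]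
    rfl
  calc μ A ≤ (C • StieltjesFunction.id.outer) A := h2 A
    _ = C * StieltjesFunction.id.outer A := rfl
    _ = C * volume A := by rw [h3]

end Pool.Agent.FlatRes
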