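import Pool.Agent.Lib.MP_40a0b6_an.FlatA
set_option autoImplicit false
open MeasureTheory
open scoped ENNReal FourierTransform SchwartzMap
namespace Pool.Agent.FlatRes

private theorem curve_phi (n m : ℕ) (hn : 3 ≤ n) (u v : ℝ) :
    iteratedDeriv (n - 1) (fun t => phi n m (u, t)) v = (n.factorial : ℝ) * (v - u ^ m) := by
  have h1 : (fun t : ℝ => phi n m (u, t)) = fun t => (fun y : ℝ => y ^ n) (t - u ^ m) := rfl
  rw [h1, congrFun (iteratedDeriv_comp_sub_const (n - 1) (fun y : ℝ => y ^ n) (u ^ m)) v]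
  rw [iteratedDeriv_pow]
  have h2 : n - (n - 1) = 1 := by omega
  have h3 : n.descFactorial (n - 1) = n.factorial := by
    obtain ⟨k, rfl⟩ : ∃ k, n = k + 1 := ⟨n - 1, by omega⟩
    rw [Nat.add_sub_cancel]
    have h4 := Nat.descFactorial_succ (k + 1) k
    rw [Nat.descFactorial_self] at h4
    rw [h4]
    have h5 : k + 1 - k = 1 := by omega
    rw [h5, one_mul]
  rw [h2, h3, pow_one]

private theorem curve_bound_iter {f : ℝ → ℝ × ℝ} (hf : ContDiffAt ℝ 2 f 0) :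
    ∃ D : ℝ, 1 ≤ D ∧ ∀ᶠ u in nhds (0 : ℝ), ∀ i, 1 ≤ i → i ≤ 2 →
      ‖iteratedFDeriv ℝ i f u‖ ≤ D ^ i := by
  have h1 : ∀ i : ℕ, i ≤ 2 → ContinuousAt (fun u => ‖iteratedFDeriv ℝ i f u‖) 0 := by
    intro i hi
    refine ContinuousAt.norm (ContDiffAt.continuousAt (𝕜 := ℝ) (n := 0) ?_)
    refine hf.iteratedFDeriv_right ?_
    rw [zero_add]
    exact_mod_cast hi
  set D := 1 + ‖iteratedFDeriv ℝ 1 f 0‖ + ‖iteratedFDeriv ℝ 2 f 0‖ with hD
  have hD1 : 1 ≤ D := by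
    have := norm_nonneg (iteratedFDeriv ℝ 1 f 0)
    have := norm_nonneg (iteratedFDeriv ℝ 2 f 0)
    linarith
  have e1 : ∀ᶠ u in nhds (0 : ℝ), ‖iteratedFDeriv ℝ 1 f u‖ < D := by
    refine (h1 1 (by norm_num)).eventually (gt_mem_nhds ?_)
    have := norm_nonneg (iteratedFDeriv ℝ 2 f 0)
    linarith
  have e2 : ∀ᶠ u in nhds (0 : ℝ), ‖iteratedFDeriv ℝ 2 f u‖ < D := by
    refine (h1 2 le_rfl).eventually (gt_mem_nhds ?_)
    have := norm_nonneg (iteratedFDeriv ℝ 1 f 0)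
    linarith
  refine ⟨D, hD1, ?_⟩
  filter_upwards [e1, e2] with u h2 h3 i hi1 hi2
  interval_cases i
  · rw [pow_one]
    exact h2.le
  · refine h3.le.trans ?_
    nlinarith

/-- JOB GB.  The zero curve of `∂₂^{n-1}(φ+g)`.  With `G1(u,v) = ∂₂^{n-1}g(u,v)/n!` (smooth, flat at `0`,
`flat_partial`), `∂₂^{n-1}(φ+g)(u,v) = n!·(v - u^m + G1(u,v))`.  Implicit/inverse function theorem for
`(u,v) ↦ (u, v - u^m + G1(u,v))` at `0` (`ContDiffAt.toOpenPartialHomeomorph`,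
`ContDiffAt.to_localInverse`) gives a smooth `γ` with `γ(0)=0`, `γ(u) - u^m = -G1(u,γ(u))`.
`w(u) = γ(u)-u^m` satisfies `|w|, |w'|, |w''| ≤ ε |u|^N` for `u` small: use `flat_bound` for `G1`, its
first and second derivatives, `|γ(u)| ≤ C|u|`, `|γ'|,|γ''| ≤ C` near `0`. -/
theorem curve_exists (n m : ℕ) (hn : 3 ≤ n) (hm : 2 ≤ m) (g : ℝ × ℝ → ℝ) (hg : FlatAtZero g) :
    ∃ (a0 : ℝ) (γ : ℝ → ℝ), 0 < a0 ∧ ContDiffOn ℝ 2 γ (Set.Ioo (-a0) a0) ∧ γ 0 = 0 ∧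
      (∀ u ∈ Set.Ioo (-a0) a0,
        iteratedDeriv (n - 1) (fun t => phi n m (u, t) + g (u, t)) (γ u) = 0) ∧
      (∀ u ∈ Set.Ioo (-a0) a0, |γ u - u ^ m| ≤ (1 / 4) * |u| ^ m) ∧
      (∀ u ∈ Set.Ioo (-a0) a0,
        |deriv (deriv γ) u - (m : ℝ) * ((m : ℝ) - 1) * u ^ (m - 2)| ≤ (1 / 2) * |u| ^ (m - 2)) := by
  classical
  have hh := flat_partial g hg (n - 1)
  set h : ℝ × ℝ → ℝ := fun x => iteratedDeriv (n - 1) (fun t => g (x.1, t)) x.2 with hhdef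
  obtain ⟨⟨V, hVo, hV0, hV⟩, hflat⟩ := hh
  obtain ⟨⟨W, hWo, hW0, hW⟩, -⟩ := hg
  have hN : (0 : ℝ) < (n.factorial : ℝ) := by exact_mod_cast n.factorial_pos
  have hN1 : (1 : ℝ) ≤ (n.factorial : ℝ) := by exact_mod_cast n.factorial_pos
  have hV2 : ContDiffOn ℝ 2 h V := hV.of_le (WithTop.coe_le_coe.2 le_top)
  have hC2 : ContDiffAt ℝ 2 h 0 := hV2.contDiffAt (hVo.mem_nhds hV0)
  have hh0 : h 0 = 0 := by
    have h1 := norm_iteratedFDeriv_zero (𝕜 := ℝ) (f := h) (x := 0)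
    rw [hflat 0, norm_zero] at h1
    exact norm_eq_zero.1 h1.symm
  have hd0 : HasFDerivAt h (0 : ℝ × ℝ →L[ℝ] ℝ) 0 := by
    have h1 := (hC2.differentiableAt (by norm_num)).hasFDerivAt
    have h2 := norm_iteratedFDeriv_one (𝕜 := ℝ) h (x := 0)
    rw [hflat 1, norm_zero] at h2
    rw [norm_eq_zero.1 h2.symm] at h1
    exact h1
  -- the implicit function
  set F : ℝ × ℝ → ℝ := fun x => x.2 - x.1 ^ m + h x / n.factorial with hF
  have hFC : ContDiffAt ℝ 2 F 0 := by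
    have h1 : ContDiffAt ℝ 2 (fun x : ℝ × ℝ => x.2 - x.1 ^ m) 0 := by fun_prop
    exact h1.add (hC2.div_const _)
  have hFd : HasFDerivAt F (ContinuousLinearMap.snd ℝ ℝ ℝ) 0 := by
    have h1 : HasFDerivAt (fun x : ℝ × ℝ => x.2) (ContinuousLinearMap.snd ℝ ℝ ℝ) 0 :=
      hasFDerivAt_snd
    have h2 : HasFDerivAt (fun x : ℝ × ℝ => x.1 ^ m) (0 : ℝ × ℝ →L[ℝ] ℝ) 0 := by
      have h3 := (hasFDerivAt_fst (𝕜 := ℝ) (E := ℝ) (F := ℝ) (p := (0 : ℝ × ℝ))).pow m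
      refine h3.congr_fderiv ?_
      have h4 : (0 : ℝ × ℝ).1 ^ (m - 1) = 0 := by
        rw [Prod.fst_zero]
        exact zero_pow (by omega)
      rw [h4, smul_zero, zero_smul]
    have h5 : HasFDerivAt (fun x => h x / n.factorial) (0 : ℝ × ℝ →L[ℝ] ℝ) 0 := by
      have h6 := hd0.const_mul ((n.factorial : ℝ)⁻¹)
      rw [smul_zero] at h6
      refine h6.congr_of_eventuallyEq (Filter.Eventually.of_forall fun x => ?_)
      simp only
      rw [div_eq_inv_mul]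
    have h7 := (h1.sub h2).add h5
    rw [sub_zero, add_zero] at h7
    exact h7
  have hinv : (fderiv ℝ F 0 ∘L .inr ℝ ℝ ℝ).IsInvertible := by
    rw [hFd.fderiv]
    refine ⟨ContinuousLinearEquiv.refl ℝ ℝ, ?_⟩
    ext
    simp
  set γ : ℝ → ℝ := hFC.implicitFunction (by norm_num) hinv with hγ
  have hγ0 : γ 0 = 0 := hFC.implicitFunction_apply_self (by norm_num) hinv
  have hγC : ContDiffAt ℝ 2 γ 0 := hFC.contDiffAt_implicitFunction (by norm_num) hinv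
  have hγF : ∀ᶠ u in nhds (0 : ℝ), F (u, γ u) = F 0 :=
    hFC.eventually_apply_implicitFunction (by norm_num) hinv
  have hF0 : F 0 = 0 := by
    simp only [hF, Prod.fst_zero, Prod.snd_zero, hh0, zero_div, add_zero, zero_sub]
    rw [zero_pow (by omega), neg_zero]
  set f : ℝ → ℝ × ℝ := fun u => (u, γ u) with hf
  have hfC : ContDiffAt ℝ 2 f 0 := contDiffAt_id.prodMk hγC
  have hf0 : f 0 = 0 := by
    simp only [hf, hγ0]
    rfl
  have hfcont : ContinuousAt f 0 := hfC.continuousAt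
  -- linear bound
  obtain ⟨A, hA, hAb⟩ : ∃ A : ℝ, 1 ≤ A ∧ ∀ᶠ u in nhds (0 : ℝ), ‖f u‖ ≤ A * |u| := by
    obtain ⟨c, hc, hcb⟩ := (hfC.differentiableAt (by norm_num)).isBigO_sub.exists_pos
    refine ⟨max c 1, le_max_right _ _, ?_⟩
    filter_upwards [hcb.bound] with u hu
    rw [hf0, sub_zero, sub_zero, Real.norm_eq_abs u] at hu
    exact hu.trans (mul_le_mul_of_nonneg_right (le_max_left _ _) (abs_nonneg _))
  obtain ⟨D, hD1, hDb⟩ := curve_bound_iter hfC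
  have hA0 : 0 < A := by linarith
  have hD0 : 0 < D := by linarith
  -- flatness
  obtain ⟨δ, hδ, hδb⟩ := flat_bound h ⟨⟨V, hVo, hV0, hV⟩, hflat⟩ m 0 (1 / (4 * A ^ m)) (by positivity)
  have hδ' : ∀ j : ℕ, ∃ δ : ℝ, 0 < δ ∧ ∀ x : ℝ × ℝ, ‖x‖ < δ →
      ‖iteratedFDeriv ℝ j h x‖ ≤ 1 / (4 * A ^ (m - 2) * D ^ 2) * ‖x‖ ^ (m - 2) := fun j =>
    flat_bound h ⟨⟨V, hVo, hV0, hV⟩, hflat⟩ (m - 2) j _ (by positivity)
  choose δ' hδ'0 hδ'b using hδ'
  have hnorm : ∀ r : ℝ, 0 < r → ∀ᶠ u in nhds (0 : ℝ), ‖f u‖ < r := by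
    intro r hr
    have h1 : ContinuousAt (fun u => ‖f u‖) 0 := hfcont.norm
    refine h1.eventually (gt_mem_nhds ?_)
    show ‖f 0‖ < r
    rw [hf0, norm_zero]
    exact hr
  have hev : ∀ᶠ u in nhds (0 : ℝ), ContDiffAt ℝ 2 γ u ∧ f u ∈ V ∧ f u ∈ W ∧ F (f u) = 0 ∧
      ‖f u‖ ≤ A * |u| ∧ (∀ i, 1 ≤ i → i ≤ 2 → ‖iteratedFDeriv ℝ i f u‖ ≤ D ^ i) ∧
      ‖f u‖ < δ ∧ ‖f u‖ < δ' 0 ∧ ‖f u‖ < δ' 1 ∧ ‖f u‖ < δ' 2 := by
    have e1 : ∀ᶠ u in nhds (0 : ℝ), ContDiffAt ℝ 2 γ u := hγC.eventually (by decide)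
    have e2 : ∀ᶠ u in nhds (0 : ℝ), f u ∈ V := by
      refine hfcont.eventually (p := fun x => x ∈ V) ?_
      rw [hf0]
      exact hVo.mem_nhds hV0
    have e3 : ∀ᶠ u in nhds (0 : ℝ), f u ∈ W := by
      refine hfcont.eventually (p := fun x => x ∈ W) ?_
      rw [hf0]
      exact hWo.mem_nhds hW0
    filter_upwards [e1, e2, e3, hγF, hAb, hDb, hnorm δ hδ, hnorm _ (hδ'0 0), hnorm _ (hδ'0 1),
      hnorm _ (hδ'0 2)] with u h1 h2 h3 h4 h5 h6 h7 h8 h9 h10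
    exact ⟨h1, h2, h3, by rw [← hF0]; exact h4, h5, h6, h7, h8, h9, h10⟩
  obtain ⟨a0, ha0, hball⟩ := Metric.eventually_nhds_iff_ball.1 hev
  have hall : ∀ u ∈ Set.Ioo (-a0) a0, ContDiffAt ℝ 2 γ u ∧ f u ∈ V ∧ f u ∈ W ∧ F (f u) = 0 ∧
      ‖f u‖ ≤ A * |u| ∧ (∀ i, 1 ≤ i → i ≤ 2 → ‖iteratedFDeriv ℝ i f u‖ ≤ D ^ i) ∧
      ‖f u‖ < δ ∧ ‖f u‖ < δ' 0 ∧ ‖f u‖ < δ' 1 ∧ ‖f u‖ < δ' 2 := by
    intro u hu
    refine hball u ?_
    rw [Metric.mem_ball, dist_zero_right, Real.norm_eq_abs]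
    exact abs_lt.2 hu
  have hγeq : ∀ u ∈ Set.Ioo (-a0) a0, γ u = u ^ m - (h ∘ f) u / n.factorial := by
    intro u hu
    have h1 := (hall u hu).2.2.2.1
    simp only [hF, hf] at h1
    simp only [Function.comp_apply, hf]
    linarith
  refine ⟨a0, γ, ha0, fun u hu => (hall u hu).1.contDiffWithinAt, hγ0, ?_, ?_, ?_⟩
  · intro u hu
    obtain ⟨-, -, h3, h4, -⟩ := hall u hu
    have hgC : ContDiffAt ℝ ((n - 1 : ℕ) : ℕ∞) (fun t => g (u, t)) (γ u) := by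
      have h5 : ContDiffAt ℝ ((n - 1 : ℕ) : ℕ∞) g (u, γ u) :=
        (hW.contDiffAt (hWo.mem_nhds h3)).of_le (by exact_mod_cast le_top)
      exact ContDiffAt.comp (γ u) h5 (by fun_prop)
    have hpC : ContDiffAt ℝ ((n - 1 : ℕ) : ℕ∞) (fun t => phi n m (u, t)) (γ u) := by
      unfold phi
      fun_prop
    rw [iteratedDeriv_fun_add (by exact_mod_cast hpC) (by exact_mod_cast hgC), curve_phi n m hn]
    have h6 : iteratedDeriv (n - 1) (fun t => g (u, t)) (γ u) = h (u, γ u) := rfl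
    rw [h6]
    simp only [hF, hf] at h4
    have h7 : (n.factorial : ℝ) * (γ u - u ^ m + h (u, γ u) / n.factorial) = 0 := by
      rw [h4, mul_zero]
    rw [mul_add, mul_div_cancel₀ _ hN.ne'] at h7
    exact h7
  · intro u hu
    obtain ⟨-, -, -, -, h5, -, h7, -⟩ := hall u hu
    rw [hγeq u hu]
    have h8 : u ^ m - (h ∘ f) u / n.factorial - u ^ m = -((h ∘ f) u / n.factorial) := by ring
    rw [h8, abs_neg, abs_div, abs_of_pos hN]
    have h9 : |(h ∘ f) u| ≤ 1 / (4 * A ^ m) * ‖f u‖ ^ m := by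
      have := hδb (f u) h7
      rw [norm_iteratedFDeriv_zero, Real.norm_eq_abs] at this
      exact this
    have h10 : ‖f u‖ ^ m ≤ (A * |u|) ^ m := pow_le_pow_left₀ (norm_nonneg _) h5 m
    have h11 : |(h ∘ f) u| ≤ 1 / 4 * |u| ^ m := by
      calc |(h ∘ f) u| ≤ 1 / (4 * A ^ m) * ‖f u‖ ^ m := h9
        _ ≤ 1 / (4 * A ^ m) * (A * |u|) ^ m := by
          exact mul_le_mul_of_nonneg_left h10 (by positivity)
        _ = 1 / 4 * |u| ^ m := by
          rw [mul_pow]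
          field_simp
    exact (div_le_self (abs_nonneg _) hN1).trans h11
  · intro u hu
    have hs : IsOpen (Set.Ioo (-a0) a0) := isOpen_Ioo
    obtain ⟨h1, h2, -, -, h5, h6, -, h8, h9, h10⟩ := hall u hu
    have hfOn : ContDiffOn ℝ 2 f (Set.Ioo (-a0) a0) := fun y hy =>
      (contDiffAt_id.prodMk (hall y hy).1).contDiffWithinAt
    have hhf : ContDiffAt ℝ 2 (h ∘ f) u :=
      (hV2.contDiffAt (hVo.mem_nhds h2)).comp u (hfOn.contDiffAt (hs.mem_nhds hu))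
    have h11 : deriv (deriv γ) u = m * ((m : ℝ) - 1) * u ^ (m - 2) -
        iteratedDeriv 2 (h ∘ f) u / n.factorial := by
      have e1 : γ =ᶠ[nhds u] fun y => y ^ m - (n.factorial : ℝ)⁻¹ * (h ∘ f) y := by
        filter_upwards [hs.mem_nhds hu] with y hy
        rw [hγeq y hy, div_eq_inv_mul]
      have e2 : deriv (deriv γ) u = iteratedDeriv 2 γ u := by
        rw [iteratedDeriv_succ, iteratedDeriv_one]
      rw [e2, e1.iteratedDeriv_eq 2, iteratedDeriv_fun_sub (by fun_prop)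
        (contDiffAt_const.mul hhf)]
      congr 1
      · rw [iteratedDeriv_pow]
        congr 1
        rw [Nat.descFactorial_succ, Nat.descFactorial_one]
        push_cast [Nat.cast_sub (by omega : 1 ≤ m)]
        ring
      · have e3 := iteratedDeriv_fun_const_smul (n := 2) hhf ((n.factorial : ℝ)⁻¹)
        simp only [smul_eq_mul] at e3
        rw [e3, div_eq_inv_mul]
    rw [h11]
    have h12 : (m : ℝ) * ((m : ℝ) - 1) * u ^ (m - 2) -
        iteratedDeriv 2 (h ∘ f) u / n.factorial - m * ((m : ℝ) - 1) * u ^ (m - 2) =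
        -(iteratedDeriv 2 (h ∘ f) u / n.factorial) := by ring
    rw [h12, abs_neg, abs_div, abs_of_pos hN]
    have hmaps : Set.MapsTo f (Set.Ioo (-a0) a0) V := fun y hy => (hall y hy).2.1
    have hfu : ‖f u‖ ^ (m - 2) ≤ (A * |u|) ^ (m - 2) := pow_le_pow_left₀ (norm_nonneg _) h5 _
    have hb := norm_iteratedFDerivWithin_comp_le (n := 2) hV2 hfOn le_rfl hVo.uniqueDiffOn
      hs.uniqueDiffOn hmaps hu (C := 1 / (4 * A ^ (m - 2) * D ^ 2) * (A * |u|) ^ (m - 2)) (D := D)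
      (by
        intro i hi
        rw [iteratedFDerivWithin_of_isOpen i hVo h2]
        have h13 : ‖iteratedFDeriv ℝ i h (f u)‖ ≤
            1 / (4 * A ^ (m - 2) * D ^ 2) * ‖f u‖ ^ (m - 2) := by
          interval_cases i
          · exact hδ'b 0 _ h8
          · exact hδ'b 1 _ h9
          · exact hδ'b 2 _ h10
        exact h13.trans (mul_le_mul_of_nonneg_left hfu (by positivity)))
      (by
        intro i hi1 hi2
        rw [iteratedFDerivWithin_of_isOpen i hs hu]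
        exact h6 i hi1 hi2)
    rw [iteratedFDerivWithin_of_isOpen 2 hs hu, norm_iteratedFDeriv_eq_norm_iteratedDeriv,
      Real.norm_eq_abs] at hb
    have h14 : |iteratedDeriv 2 (h ∘ f) u| ≤ 1 / 2 * |u| ^ (m - 2) := by
      refine hb.trans (le_of_eq ?_)
      rw [mul_pow]
      simp only [Nat.factorial]
      field_simp
      norm_num
      ring
    exact (div_le_self (abs_nonneg _) hN1).trans h14

end Pool.Agent.FlatRes
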