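import Mathlib

/-!
# Fourier restriction for flat perturbations of `(x₂ - x₁^m)^n`  (MP_40a0b6_an)

Basic definitions.  `E3` is Euclidean three-space, the base plane is `ℝ × ℝ`.
`gpt Ψ x` is the point of the graph of `Ψ` over `x`, `extN ν Φ h` the extension operator.
-/

set_option autoImplicit false

open MeasureTheory
open scoped ENNReal FourierTransform SchwartzMap

namespace Pool.Agent.FlatRes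

/-- Euclidean three-space. -/
abbrev E3 := EuclideanSpace ℝ (Fin 3)

/-- the point of the graph of `Ψ` lying over `x` -/
noncomputable def gpt (Ψ : ℝ × ℝ → ℝ) (x : ℝ × ℝ) : E3 := !₂[x.1, x.2, Ψ x]

/-- the extension operator of the measure `ν` carried by `Φ : X → E3`. -/
noncomputable def extN {X : Type*} [MeasurableSpace X] (ν : Measure X) (Φ : X → E3) (h : X → ℂ)
    (ξ : E3) : ℂ :=
  ∫ x, Complex.exp (((2 * Real.pi * inner ℝ ξ (Φ x) : ℝ) : ℂ) * Complex.I) * h x ∂ν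

/-- the extension operator of the graph of `Ψ` over the set `Ω`. -/
noncomputable def extOn (Ψ : ℝ × ℝ → ℝ) (Ω : Set (ℝ × ℝ)) (h : ℝ × ℝ → ℂ) (ξ : E3) : ℂ :=
  extN (volume.restrict Ω) (gpt Ψ) h ξ

/-- bounded measurable functions -/
def BddMeas {X : Type*} [MeasurableSpace X] (h : X → ℂ) : Prop :=
  Measurable h ∧ ∃ M : ℝ, ∀ x, ‖h x‖ ≤ M

/-- `L²`-mass of `h` on `Ω`, as an extended nonnegative real. -/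
noncomputable def mass (Ω : Set (ℝ × ℝ)) (h : ℝ × ℝ → ℂ) : ℝ≥0∞ := ∫⁻ x in Ω, ‖h x‖ₑ ^ (2 : ℕ)

/-- the slice of `Ω` over the first coordinate `u`. -/
def slice (Ω : Set (ℝ × ℝ)) (u : ℝ) : Set ℝ := {v | (u, v) ∈ Ω}

/-- every slice of `Ω` is covered by `N` intervals on which `Ψ(u, ·)` is strongly convex with
modulus `lam`. -/
def ConvSlices (Ψ : ℝ × ℝ → ℝ) (Ω : Set (ℝ × ℝ)) (N : ℕ) (lam : ℝ) : Prop :=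
  ∀ u : ℝ, ∃ I : Fin N → Set ℝ,
    (∀ i, (I i).OrdConnected ∧ StrongConvexOn (I i) lam (fun v => Ψ (u, v))) ∧
    slice Ω u ⊆ ⋃ i, I i

/-- every slice of `Ω` is covered by `N` intervals of length at most `W`. -/
def ShortSlices (Ω : Set (ℝ × ℝ)) (N : ℕ) (W : ℝ) : Prop :=
  ∀ u : ℝ, ∃ I : Fin N → Set ℝ,
    (∀ i, (I i).OrdConnected ∧ volume (I i) ≤ ENNReal.ofReal W) ∧ slice Ω u ⊆ ⋃ i, I i

/-- an inner piece: `K/2 < u ≤ K`, `0 < v - γ(u) ≤ B`, slices covered by `N` intervals of strong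
convexity (modulus `lam`) and by `N` intervals of length `≤ W`. -/
structure Piece (Ψ : ℝ × ℝ → ℝ) (γ : ℝ → ℝ) (Ω : Set (ℝ × ℝ)) (N : ℕ) (K B W lam : ℝ) : Prop where
  meas : MeasurableSet Ω
  uran : ∀ x ∈ Ω, K / 2 < x.1 ∧ x.1 ≤ K
  yran : ∀ x ∈ Ω, 0 < x.2 - γ x.1 ∧ x.2 - γ x.1 ≤ B
  conv : ConvSlices Ψ Ω N lam
  shrt : ShortSlices Ω N W

/-- The geometric data in one quadrant.  `a` is the size of the neighbourhood, `γ` the zero curve of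
`∂₂^{n-1} Ψ`, `s` the common sign of `∂₂^n Ψ` and `∂₂^{n-1} Ψ` above the curve, `e` the sign of the
curvature of `γ`. -/
structure Geo (n m : ℕ) (Ψ : ℝ × ℝ → ℝ) (γ : ℝ → ℝ) (a c κ s e : ℝ) : Prop where
  ha : 0 < a
  ha1 : a ≤ 1 / 2
  hc : 0 < c
  hκ : 0 < κ
  hs : s = 1 ∨ s = -1
  he : e = 1 ∨ e = -1
  measΨ : Measurable Ψ
  measγ : Measurable γ
  bddΨ : ∃ M : ℝ, ∀ x, |Ψ x| ≤ M
  bddγ : ∃ M : ℝ, ∀ u, |γ u| ≤ M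
  gb : ∀ u ∈ Set.Ioo 0 a, |γ u| < a
  contγ : ContinuousOn γ (Set.Ioo 0 a)
  contD2 : ContinuousOn (fun x : ℝ × ℝ => iteratedDeriv 2 (fun t => Ψ (x.1, t)) x.2)
    {x | 0 < x.1 ∧ x.1 < a ∧ γ x.1 < x.2 ∧ x.2 < a}
  smooth : ∀ u ∈ Set.Ioo 0 a, ContDiffOn ℝ n (fun v => Ψ (u, v)) (Set.Ioo (γ u) a)
  dn : ∀ u ∈ Set.Ioo 0 a, ∀ v ∈ Set.Ioo (γ u) a,
    c ≤ s * iteratedDeriv n (fun t => Ψ (u, t)) v
  dn1 : ∀ u ∈ Set.Ioo 0 a, ∀ v ∈ Set.Ioo (γ u) a,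
    c * (v - γ u) ≤ s * iteratedDeriv (n - 1) (fun t => Ψ (u, t)) v
  outer : ∀ u ∈ Set.Ioo 0 a, ∀ v ∈ Set.Ioo (γ u) a, u ^ m ≤ v - γ u →
    c * (v - γ u) ^ (n - 2) ≤ |iteratedDeriv 2 (fun t => Ψ (u, t)) v|
  curv : ∀ K : ℝ, 0 < K →
    StrongConvexOn (Set.Ioc (K / 2) K ∩ Set.Iio a) (κ * K ^ (m - 2)) (fun u => e * γ u)

/-- the quadrant region `0 < u < a`, `γ(u) < v < a` with `∂₂²Ψ > 0`. -/
def region (Ψ : ℝ × ℝ → ℝ) (γ : ℝ → ℝ) (a : ℝ) : Set (ℝ × ℝ) :=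
  {x | 0 < x.1 ∧ x.1 < a ∧ γ x.1 < x.2 ∧ x.2 < a ∧
    0 < iteratedDeriv 2 (fun t => Ψ (x.1, t)) x.2}

/-- second derivative in the second variable -/
noncomputable def D2 (Ψ : ℝ × ℝ → ℝ) (x : ℝ × ℝ) : ℝ := iteratedDeriv 2 (fun t => Ψ (x.1, t)) x.2

/-- the level `c0 · 2^{-(s(n-2)+l(n-3))}` of the second derivative -/
noncomputable def lamv (n : ℕ) (c0 : ℝ) (s l : ℕ) : ℝ := c0 * (1 / 2) ^ (s * (n - 2) + l * (n - 3))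

/-- inner dyadic pieces `u ~ 2^{-k}`, `v - γ(u) ~ 2^{-s}`, `v - γ(u) < u^m`,
`∂₂²Ψ ~ c0 2^{-(s(n-2)+l(n-3))}` (for `l = 0` only the lower bound). -/
def inP (n m : ℕ) (Ψ : ℝ × ℝ → ℝ) (γ : ℝ → ℝ) (a c0 : ℝ) (k s l : ℕ) : Set (ℝ × ℝ) :=
  {x | x ∈ region Ψ γ a ∧ (1 / 2 : ℝ) ^ k / 2 < x.1 ∧ x.1 ≤ (1 / 2 : ℝ) ^ k ∧
    (1 / 2 : ℝ) ^ s / 2 < x.2 - γ x.1 ∧ x.2 - γ x.1 ≤ (1 / 2 : ℝ) ^ s ∧ x.2 - γ x.1 < x.1 ^ m ∧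
    lamv n c0 s l ≤ D2 Ψ x ∧ (l = 0 ∨ D2 Ψ x < lamv n c0 s (l - 1))}

/-- outer dyadic pieces `v - γ(u) ~ 2^{-s}`, `u^m ≤ v - γ(u)`. -/
def outP (m : ℕ) (Ψ : ℝ × ℝ → ℝ) (γ : ℝ → ℝ) (a : ℝ) (s : ℕ) : Set (ℝ × ℝ) :=
  {x | x ∈ region Ψ γ a ∧ (1 / 2 : ℝ) ^ s / 2 < x.2 - γ x.1 ∧ x.2 - γ x.1 ≤ (1 / 2 : ℝ) ^ s ∧
    x.1 ^ m ≤ x.2 - γ x.1}

/-- `φ(x) = (x₂ - x₁^m)^n` -/
def phi (n m : ℕ) (x : ℝ × ℝ) : ℝ := (x.2 - x.1 ^ m) ^ n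

/-- the open box -/
def box (a : ℝ) : Set (ℝ × ℝ) := Set.Ioo (-a) a ×ˢ Set.Ioo (-a) a

/-- the function `φ + g`, cut off outside the box -/
noncomputable def psi0 (n m : ℕ) (g : ℝ × ℝ → ℝ) (a : ℝ) : ℝ × ℝ → ℝ :=
  (box a).indicator (fun x => phi n m x + g x)

/-- reflected function: `σ3 Ψ(σ1 x₁, σ2 x₂)` -/
def refl (Ψ : ℝ × ℝ → ℝ) (σ1 σ2 σ3 : ℝ) (x : ℝ × ℝ) : ℝ := σ3 * Ψ (σ1 * x.1, σ2 * x.2)

/-- reflected curve -/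
def reflγ (γ : ℝ → ℝ) (σ1 σ2 : ℝ) (u : ℝ) : ℝ := σ2 * γ (σ1 * u)

/-- signs -/
def IsSign (σ : ℝ) : Prop := σ = 1 ∨ σ = -1

/-- The critical exponent `p'_c`: `2d+2` with `d = nm/(m+1)` if `n ≤ m+1` and `2n` if `n > m+1`. -/
noncomputable def pcrit (n m : ℕ) : ℝ :=
  if n ≤ m + 1 then 2 * ((n * m : ℝ) / (m + 1)) + 2 else 2 * n

/-- the density of the surface measure of the graph of `ψ` in the graph chart -/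
noncomputable def areaDensity (ψ : ℝ × ℝ → ℝ) (x : ℝ × ℝ) : ℝ :=
  Real.sqrt (1 + (deriv (fun t => ψ (t, x.2)) x.1) ^ 2 + (deriv (fun t => ψ (x.1, t)) x.2) ^ 2)

/-- admissible cutoffs `0 ≤ ρ ∈ C_0^∞(S_ψ)`, transported to `U` by the graph chart -/
def IsCutoff (U : Set (ℝ × ℝ)) (ρ : ℝ × ℝ → ℝ) : Prop :=
  ContDiff ℝ (⊤ : ℕ∞) ρ ∧ HasCompactSupport ρ ∧ tsupport ρ ⊆ U ∧ ∀ x, 0 ≤ ρ x

/-- The Stein–Tomas type restriction estimate for the surface `S_ψ` over `U`, the cutoff `ρ` and the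
exponent `p`: `‖f̂‖_{L²(μ)} ≤ C ‖f‖_{L^p(ℝ³)}` for all Schwartz `f`, `μ = ρσ`. -/
def RestrictionEstimate (U : Set (ℝ × ℝ)) (ψ ρ : ℝ × ℝ → ℝ) (p : ℝ) : Prop :=
  ∃ C : ℝ, 0 ≤ C ∧ ∀ f : 𝓢(E3, ℂ),
    ∫⁻ x in U, ‖𝓕 (f : E3 → ℂ) (gpt ψ x)‖ₑ ^ (2 : ℕ) * ENNReal.ofReal (ρ x * areaDensity ψ x)
      ≤ (ENNReal.ofReal C * eLpNorm (f : E3 → ℂ) (ENNReal.ofReal p) volume) ^ (2 : ℕ)

/-- The range of validity for `S_ψ` over `U` is exactly `p' ≥ r`. -/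
def RangeExactly (U : Set (ℝ × ℝ)) (ψ : ℝ × ℝ → ℝ) (r : ℝ) : Prop :=
  (∀ ρ, IsCutoff U ρ → ∀ p : ℝ, 1 ≤ p → p ≤ 2 → (p = 1 ∨ r ≤ p / (p - 1)) →
    RestrictionEstimate U ψ ρ p) ∧
  (∀ ρ, IsCutoff U ρ → ρ 0 ≠ 0 → ∀ p : ℝ, 1 < p → p ≤ 2 → p / (p - 1) < r →
    ¬ RestrictionEstimate U ψ ρ p)

/-- smooth near `0` and flat at `0` -/
def FlatAtZero (g : ℝ × ℝ → ℝ) : Prop :=
  (∃ V : Set (ℝ × ℝ), IsOpen V ∧ (0 : ℝ × ℝ) ∈ V ∧ ContDiffOn ℝ (⊤ : ℕ∞) g V) ∧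
    ∀ k : ℕ, iteratedFDeriv ℝ k g 0 = 0

end Pool.Agent.FlatRes
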