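import Pool.Agent.Lib.MP_40a0b6_an.Defs
set_option autoImplicit false
open MeasureTheory
open scoped ENNReal FourierTransform SchwartzMap
namespace Pool.Agent.FlatRes

theorem dens3_two {f : ℝ × ℝ → ℝ≥0∞} (hf : Measurable f) : ∫⁻ p, f p = ∫⁻ u, ∫⁻ v, f (u, v) := by
  rw [Measure.volume_eq_prod, lintegral_prod _ hf.aemeasurable]

theorem dens3_pair {α β : Type*} [MeasureSpace α] [MeasureSpace β] [SFinite (volume : Measure α)]
    [SFinite (volume : Measure β)] {f : α × β → ℝ≥0∞} (hf : Measurable f) :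
    ∫⁻ p, f p = ∫⁻ u, ∫⁻ v, f (u, v) := by
  rw [Measure.volume_eq_prod, lintegral_prod _ hf.aemeasurable]

theorem dens3_swap {α β : Type*} [MeasureSpace α] [MeasureSpace β] [SFinite (volume : Measure α)]
    [SFinite (volume : Measure β)] {f : α × β → ℝ≥0∞} (hf : Measurable f) :
    ∫⁻ u, ∫⁻ v, f (u, v) = ∫⁻ v, ∫⁻ u, f (u, v) :=
  lintegral_lintegral_swap (f := fun u v => f (u, v)) hf.aemeasurable

theorem dens3_pull {U V : Type*} [MeasureSpace U] [MeasureSpace V] [SFinite (volume : Measure U)]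
    [SFinite (volume : Measure V)] {K : (ℝ × ℝ) × U × V → ℝ≥0∞} (hK : Measurable K) :
    ∫⁻ a : ℝ × ℝ, ∫⁻ u, ∫⁻ v, K (a, u, v) =
      ∫⁻ u : ℝ × U, ∫⁻ v : ℝ × V, K ((u.1, v.1), u.2, v.2) := by
  rw [dens3_pair (by fun_prop), dens3_pair (by fun_prop)]
  apply lintegral_congr
  intro a1
  rw [dens3_swap (f := fun q : ℝ × U => ∫⁻ v, K ((a1, q.1), q.2, v)) (by fun_prop)]
  apply lintegral_congr
  intro u
  rw [dens3_pair (by fun_prop)]

/-- Three-space as an iterated integral. -/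
theorem dens3_vol {A : Set E3} (hA : MeasurableSet A) :
    ∫⁻ z1 : ℝ, ∫⁻ z2 : ℝ, volume {z3 : ℝ | (!₂[z1, z2, z3] : E3) ∈ A} = volume A := by
  have hmp : MeasurePreserving (fun z : ℝ × ℝ × ℝ => (!₂[z.1, z.2.1, z.2.2] : E3)) := by
    have h1 := (MeasurePreserving.id (volume : Measure ℝ)).prod (volume_preserving_finTwoArrow ℝ).symm
    have h2 := (volume_preserving_piFinSuccAbove (fun _ : Fin 3 => ℝ) 0).symm
    have h3 := PiLp.volume_preserving_toLp (Fin 3)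
    have h4 := h3.comp (h2.comp h1)
    convert h4 using 1
    · ext z i
      fin_cases i <;> rfl
    · rfl
  rw [← hmp.measure_preimage hA.nullMeasurableSet]
  have hm : MeasurableSet ((fun z : ℝ × ℝ × ℝ => (!₂[z.1, z.2.1, z.2.2] : E3)) ⁻¹' A) :=
    hmp.measurable hA
  rw [← lintegral_indicator_one hm, dens3_pair (measurable_one.indicator hm)]
  apply lintegral_congr
  intro z1
  have hm1 : Measurable (fun v : ℝ × ℝ => ((fun z : ℝ × ℝ × ℝ => (!₂[z.1, z.2.1, z.2.2] : E3)) ⁻¹' A).indicator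
      (1 : ℝ × ℝ × ℝ → ℝ≥0∞) (z1, v)) :=
    (measurable_one.indicator hm).comp (by fun_prop)
  rw [dens3_pair hm1]
  apply lintegral_congr
  intro z2
  have hm2 : MeasurableSet {z3 : ℝ | (!₂[z1, z2, z3] : E3) ∈ A} := by
    have : Measurable (fun z3 : ℝ => ((z1, z2, z3) : ℝ × ℝ × ℝ)) := by fun_prop
    exact this hm
  rw [← lintegral_indicator_one hm2]
  rfl

theorem dens3_gpt {Ψ : ℝ × ℝ → ℝ} (hΨ : Measurable Ψ) : Measurable (gpt Ψ) := by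
  unfold gpt
  fun_prop

/-- JOB C.  Density of the threefold convolution of the measure on the graph of `Ψ` over `Ω`.

Proof.  Identify `E3` with `ℝ × ℝ × ℝ` (`EuclideanSpace.volume_preserving_...`, `MeasurableEquiv.piFinSucc...`
or write `volume A = ∫⁻ z1, ∫⁻ z2, volume {z3 | !₂[z1,z2,z3] ∈ A}`).  By Tonelli the left side is
`∫ du1 du2 du3 ∫ dv1 dv2 dv3 1_Ω(u1,v1) 1_Ω(u2,v2) 1_Ω(u3,v3) 1_A(u1+u2+u3, v1+v2+v3, ΣΨ(u_j,v_j))`.
Substitute `u3 = z1-u1-u2`, `v3 = z2-v1-v2` (translation invariance).  For fixed `z1,z2,u1,u2` the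
`(v1,v2)`-integral is `≤ d * volume {z3 | (z1,z2,z3) ∈ A}` by `H2` and vanishes unless `(u1,u2)` is in
the set of `H3` (use `lintegral_mono` with the indicator of `toMeasurable` of that set), so the
`(u1,u2)`-integral is `≤ d * e * volume {z3 | (z1,z2,z3) ∈ A}`; integrate over `z1,z2`. -/
theorem dens3 (Ψ : ℝ × ℝ → ℝ) (hΨ : Measurable Ψ) (Ω : Set (ℝ × ℝ)) (hΩ : MeasurableSet Ω)
    (d e : ℝ≥0∞)
    (H2 : ∀ u1 u2 u3 Y : ℝ, ∀ A : Set ℝ, MeasurableSet A →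
      volume {p : ℝ × ℝ | (u1, p.1) ∈ Ω ∧ (u2, p.2) ∈ Ω ∧ (u3, Y - p.1 - p.2) ∈ Ω ∧
        Ψ (u1, p.1) + Ψ (u2, p.2) + Ψ (u3, Y - p.1 - p.2) ∈ A} ≤ d * volume A)
    (H3 : ∀ z1 z2 : ℝ, volume {p : ℝ × ℝ | ∃ v1 v2 : ℝ, (p.1, v1) ∈ Ω ∧ (p.2, v2) ∈ Ω ∧
        (z1 - p.1 - p.2, z2 - v1 - v2) ∈ Ω} ≤ e)
    (A : Set E3) (hA : MeasurableSet A) :
    ((volume.restrict Ω).prod ((volume.restrict Ω).prod (volume.restrict Ω)))
      {p | gpt Ψ p.1 + (gpt Ψ p.2.1 + gpt Ψ p.2.2) ∈ A} ≤ d * e * volume A := by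
  have hg := dens3_gpt hΨ
  set S : Set ((ℝ × ℝ) × (ℝ × ℝ) × (ℝ × ℝ)) :=
    {p | (p.1 ∈ Ω ∧ p.2.1 ∈ Ω ∧ p.2.2 ∈ Ω) ∧ gpt Ψ p.1 + (gpt Ψ p.2.1 + gpt Ψ p.2.2) ∈ A} with hS
  have hΩ3 : MeasurableSet {p : (ℝ × ℝ) × (ℝ × ℝ) × (ℝ × ℝ) | p.1 ∈ Ω ∧ p.2.1 ∈ Ω ∧ p.2.2 ∈ Ω} :=
    (measurable_fst hΩ).inter (((measurable_fst.comp measurable_snd) hΩ).inter
      ((measurable_snd.comp measurable_snd) hΩ))
  have hSm : MeasurableSet S := by
    have h2 : Measurable (fun p : (ℝ × ℝ) × (ℝ × ℝ) × (ℝ × ℝ) =>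
        gpt Ψ p.1 + (gpt Ψ p.2.1 + gpt Ψ p.2.2)) := by fun_prop
    exact hΩ3.inter (h2 hA)
  obtain ⟨F, hF⟩ : ∃ F : (ℝ × ℝ) × (ℝ × ℝ) × (ℝ × ℝ) → ℝ≥0∞, F = S.indicator 1 := ⟨_, rfl⟩
  have hFm : Measurable F := by rw [hF]; exact measurable_one.indicator hSm
  have h1 : ((volume.restrict Ω).prod ((volume.restrict Ω).prod (volume.restrict Ω)))
      {p | gpt Ψ p.1 + (gpt Ψ p.2.1 + gpt Ψ p.2.2) ∈ A} = ∫⁻ p, F p := by
    rw [hF, lintegral_indicator_one hSm, Measure.prod_restrict, Measure.prod_restrict,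
      Measure.restrict_apply₀' (hΩ.prod (hΩ.prod hΩ)).nullMeasurableSet]
    congr 1
    ext p
    simp only [Set.mem_inter_iff, Set.mem_ofPred_eq, Set.mem_prod, hS]
    tauto
  -- reorder
  have h2 : ∫⁻ p, F p = ∫⁻ u : ℝ × ℝ × ℝ, ∫⁻ v : ℝ × ℝ × ℝ, F ((u.1, v.1), (u.2.1, v.2.1), (u.2.2, v.2.2)) := by
    rw [dens3_pair hFm]
    rw [← dens3_pull (K := fun q : (ℝ × ℝ) × (ℝ × ℝ) × (ℝ × ℝ) => F (q.1, (q.2.1.1, q.2.2.1), (q.2.1.2, q.2.2.2)))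
      (by fun_prop)]
    apply lintegral_congr
    intro a
    rw [dens3_pair (by fun_prop)]
    rw [← dens3_pull (K := fun q : (ℝ × ℝ) × ℝ × ℝ => F (a, q.1, (q.2.1, q.2.2))) (by fun_prop)]
    apply lintegral_congr
    intro b
    rw [dens3_pair (by fun_prop)]
  have h3 : ∀ G : ℝ × ℝ × ℝ → ℝ≥0∞, Measurable G →
      ∫⁻ v, G v = ∫⁻ z : ℝ, ∫⁻ p : ℝ × ℝ, G (p.1, p.2, z - p.1 - p.2) := by
    intro G hG
    rw [dens3_swap (f := fun q : ℝ × ℝ × ℝ => G (q.2.1, q.2.2, q.1 - q.2.1 - q.2.2)) (by fun_prop)]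
    rw [dens3_pair hG, dens3_pair (by fun_prop)]
    apply lintegral_congr
    intro a
    rw [dens3_pair (by fun_prop)]
    apply lintegral_congr
    intro b
    simp only [sub_sub]
    rw [lintegral_sub_right_eq_self (fun x => G (a, b, x))]
  have h4 : ∫⁻ p, F p = ∫⁻ z1 : ℝ, ∫⁻ z2 : ℝ, ∫⁻ p : ℝ × ℝ, ∫⁻ q : ℝ × ℝ,
      F ((p.1, q.1), (p.2, q.2), (z1 - p.1 - p.2, z2 - q.1 - q.2)) := by
    rw [h2, h3 _ (by fun_prop)]
    apply lintegral_congr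
    intro z1
    rw [← dens3_swap (f := fun w : (ℝ × ℝ) × ℝ => ∫⁻ q : ℝ × ℝ,
      F ((w.1.1, q.1), (w.1.2, q.2), (z1 - w.1.1 - w.1.2, w.2 - q.1 - q.2))) (by fun_prop)]
    apply lintegral_congr
    intro p
    rw [h3 _ (by fun_prop)]
  rw [h1, h4, ← dens3_vol hA]
  rw [← lintegral_const_mul _ (by
    have := (measurable_measure_prodMk_left (ν := (volume : Measure ℝ)) (s := {q : (ℝ × ℝ) × ℝ | (!₂[q.1.1, q.1.2, q.2] : E3) ∈ A}) ?_)
    · exact Measurable.lintegral_prod_right' (f := fun q : ℝ × ℝ => volume {z3 : ℝ | (!₂[q.1, q.2, z3] : E3) ∈ A}) this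
    · have hm : Measurable (fun q : (ℝ × ℝ) × ℝ => (!₂[q.1.1, q.1.2, q.2] : E3)) := by fun_prop
      exact hm hA)]
  apply lintegral_mono
  intro z1
  simp only
  rw [← lintegral_const_mul _ (by
    have := (measurable_measure_prodMk_left (ν := (volume : Measure ℝ)) (s := {q : ℝ × ℝ | (!₂[z1, q.1, q.2] : E3) ∈ A}) ?_)
    · exact this
    · have hm : Measurable (fun q : ℝ × ℝ => (!₂[z1, q.1, q.2] : E3)) := by fun_prop
      exact hm hA)]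
  apply lintegral_mono
  intro z2
  simp only
  -- the set of the third coordinates
  set A' : Set ℝ := {z3 : ℝ | (!₂[z1, z2, z3] : E3) ∈ A} with hA'
  have hA'm : MeasurableSet A' := by
    have hm : Measurable (fun z3 : ℝ => (!₂[z1, z2, z3] : E3)) := by fun_prop
    exact hm hA
  set T : Set (ℝ × ℝ) := {p : ℝ × ℝ | ∃ v1 v2 : ℝ, (p.1, v1) ∈ Ω ∧ (p.2, v2) ∈ Ω ∧
        (z1 - p.1 - p.2, z2 - v1 - v2) ∈ Ω} with hT
  have hinner : ∀ p : ℝ × ℝ, ∫⁻ q : ℝ × ℝ, F ((p.1, q.1), (p.2, q.2), (z1 - p.1 - p.2, z2 - q.1 - q.2)) ≤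
      (toMeasurable volume T).indicator (fun _ => d * volume A') p := by
    intro p
    by_cases hp : p ∈ T
    · rw [Set.indicator_of_mem (subset_toMeasurable _ _ hp)]
      refine le_trans (le_of_eq ?_) (H2 p.1 p.2 (z1 - p.1 - p.2) z2 A' hA'm)
      have hms : MeasurableSet {q : ℝ × ℝ | (p.1, q.1) ∈ Ω ∧ (p.2, q.2) ∈ Ω ∧ (z1 - p.1 - p.2, z2 - q.1 - q.2) ∈ Ω ∧
          Ψ (p.1, q.1) + Ψ (p.2, q.2) + Ψ (z1 - p.1 - p.2, z2 - q.1 - q.2) ∈ A'} := by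
        have m1 : Measurable (fun q : ℝ × ℝ => ((p.1, q.1) : ℝ × ℝ)) := by fun_prop
        have m2 : Measurable (fun q : ℝ × ℝ => ((p.2, q.2) : ℝ × ℝ)) := by fun_prop
        have m3 : Measurable (fun q : ℝ × ℝ => ((z1 - p.1 - p.2, z2 - q.1 - q.2) : ℝ × ℝ)) := by fun_prop
        have m4 : Measurable (fun q : ℝ × ℝ => Ψ (p.1, q.1) + Ψ (p.2, q.2) + Ψ (z1 - p.1 - p.2, z2 - q.1 - q.2)) := by
          fun_prop
        exact (m1 hΩ).inter ((m2 hΩ).inter ((m3 hΩ).inter (m4 hA'm)))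
      rw [← lintegral_indicator_one hms]
      apply lintegral_congr
      intro q
      rw [hF]
      have hiff : (((p.1, q.1), (p.2, q.2), (z1 - p.1 - p.2, z2 - q.1 - q.2)) : (ℝ × ℝ) × (ℝ × ℝ) × (ℝ × ℝ)) ∈ S ↔
          q ∈ {q : ℝ × ℝ | (p.1, q.1) ∈ Ω ∧ (p.2, q.2) ∈ Ω ∧ (z1 - p.1 - p.2, z2 - q.1 - q.2) ∈ Ω ∧
          Ψ (p.1, q.1) + Ψ (p.2, q.2) + Ψ (z1 - p.1 - p.2, z2 - q.1 - q.2) ∈ A'} := by
        simp only [hS, hA', Set.mem_ofPred_eq]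
        have he : gpt Ψ (p.1, q.1) + (gpt Ψ (p.2, q.2) + gpt Ψ (z1 - p.1 - p.2, z2 - q.1 - q.2)) =
            (!₂[z1, z2, Ψ (p.1, q.1) + Ψ (p.2, q.2) + Ψ (z1 - p.1 - p.2, z2 - q.1 - q.2)] : E3) := by
          ext i
          fin_cases i <;> (simp [gpt]; try ring)
        rw [he]
        tauto
      by_cases hq : q ∈ {q : ℝ × ℝ | (p.1, q.1) ∈ Ω ∧ (p.2, q.2) ∈ Ω ∧ (z1 - p.1 - p.2, z2 - q.1 - q.2) ∈ Ω ∧
          Ψ (p.1, q.1) + Ψ (p.2, q.2) + Ψ (z1 - p.1 - p.2, z2 - q.1 - q.2) ∈ A'}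
      · rw [Set.indicator_of_mem hq, Set.indicator_of_mem (hiff.mpr hq)]; rfl
      · rw [Set.indicator_of_notMem hq, Set.indicator_of_notMem (fun h => hq (hiff.mp h))]
    · have h0 : ∀ q : ℝ × ℝ, F ((p.1, q.1), (p.2, q.2), (z1 - p.1 - p.2, z2 - q.1 - q.2)) = 0 := by
        intro q
        rw [hF]
        apply Set.indicator_of_notMem
        intro h
        exact hp ⟨q.1, q.2, h.1.1, h.1.2.1, h.1.2.2⟩
      simp [h0]
  calc _ ≤ ∫⁻ p : ℝ × ℝ, (toMeasurable volume T).indicator (fun _ => d * volume A') p := lintegral_mono hinner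
    _ = d * volume A' * volume (toMeasurable volume T) := by
        rw [lintegral_indicator (measurableSet_toMeasurable _ _), setLIntegral_const]
    _ = d * volume A' * volume T := by rw [measure_toMeasurable]
    _ ≤ d * volume A' * e := by gcongr; exact H3 z1 z2
    _ = d * e * volume A' := by ring

end Pool.Agent.FlatRes
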