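import Pool.Agent.Lib.MP_40a0b6_an.Defs
set_option autoImplicit false
open MeasureTheory
open scoped ENNReal FourierTransform SchwartzMap
namespace Pool.Agent.FlatRes

theorem dens4_two {f : ℝ × ℝ → ℝ≥0∞} (hf : Measurable f) : ∫⁻ p, f p = ∫⁻ u, ∫⁻ v, f (u, v) := by
  rw [Measure.volume_eq_prod, lintegral_prod _ hf.aemeasurable]

theorem dens4_pair {α β : Type*} [MeasureSpace α] [MeasureSpace β] [SFinite (volume : Measure α)]
    [SFinite (volume : Measure β)] {f : α × β → ℝ≥0∞} (hf : Measurable f) :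
    ∫⁻ p, f p = ∫⁻ u, ∫⁻ v, f (u, v) := by
  rw [Measure.volume_eq_prod, lintegral_prod _ hf.aemeasurable]

theorem dens4_swap {α β : Type*} [MeasureSpace α] [MeasureSpace β] [SFinite (volume : Measure α)]
    [SFinite (volume : Measure β)] {f : α × β → ℝ≥0∞} (hf : Measurable f) :
    ∫⁻ u, ∫⁻ v, f (u, v) = ∫⁻ v, ∫⁻ u, f (u, v) :=
  lintegral_lintegral_swap (f := fun u v => f (u, v)) hf.aemeasurable

theorem dens4_pull {U V : Type*} [MeasureSpace U] [MeasureSpace V] [SFinite (volume : Measure U)]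
    [SFinite (volume : Measure V)] {K : (ℝ × ℝ) × U × V → ℝ≥0∞} (hK : Measurable K) :
    ∫⁻ a : ℝ × ℝ, ∫⁻ u, ∫⁻ v, K (a, u, v) =
      ∫⁻ u : ℝ × U, ∫⁻ v : ℝ × V, K ((u.1, v.1), u.2, v.2) := by
  rw [dens4_pair (by fun_prop), dens4_pair (by fun_prop)]
  apply lintegral_congr
  intro a1
  rw [dens4_swap (f := fun q : ℝ × U => ∫⁻ v, K ((a1, q.1), q.2, v)) (by fun_prop)]
  apply lintegral_congr
  intro u
  rw [dens4_pair (by fun_prop)]

/-- Three-space as an iterated integral. -/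
theorem dens4_vol {A : Set E3} (hA : MeasurableSet A) :
    ∫⁻ z1 : ℝ, ∫⁻ z2 : ℝ, volume {z3 : ℝ | (!₂[z1, z2, z3] : E3) ∈ A} = volume A := by
  have hmp : MeasurePreserving (fun z : ℝ × ℝ × ℝ => (!₂[z.1, z.2.1, z.2.2] : E3)) := by
    have h1 := (MeasurePreserving.id (volume : Measure ℝ)).prod (volume_preserving_finTwoArrow ℝ).symm
    have h2 := (volume_preserving_piFinSuccAbove (fun _ : Fin 3 => ℝ) 0).symm
    have h3 := PiLp.volume_preserving_toLp (Fin 3)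
    have h4 := h3.comp (h2.comp h1)
    convert h4 using 1
    · ext z i
      fin_cases i <;> rfl
    · rfl
  rw [← hmp.measure_preimage hA.nullMeasurableSet]
  have hm : MeasurableSet ((fun z : ℝ × ℝ × ℝ => (!₂[z.1, z.2.1, z.2.2] : E3)) ⁻¹' A) :=
    hmp.measurable hA
  rw [← lintegral_indicator_one hm, dens4_pair (measurable_one.indicator hm)]
  apply lintegral_congr
  intro z1
  have hm1 : Measurable (fun v : ℝ × ℝ => ((fun z : ℝ × ℝ × ℝ => (!₂[z.1, z.2.1, z.2.2] : E3)) ⁻¹' A).indicator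
      (1 : ℝ × ℝ × ℝ → ℝ≥0∞) (z1, v)) :=
    (measurable_one.indicator hm).comp (by fun_prop)
  rw [dens4_pair hm1]
  apply lintegral_congr
  intro z2
  have hm2 : MeasurableSet {z3 : ℝ | (!₂[z1, z2, z3] : E3) ∈ A} := by
    have : Measurable (fun z3 : ℝ => ((z1, z2, z3) : ℝ × ℝ × ℝ)) := by fun_prop
    exact this hm
  rw [← lintegral_indicator_one hm2]
  rfl

theorem dens4_gpt {Ψ : ℝ × ℝ → ℝ} (hΨ : Measurable Ψ) : Measurable (gpt Ψ) := by
  unfold gpt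
  fun_prop

/-- JOB D.  Density of the convolution of three copies of the graph measure over `Ω` and one over `Ω'`.
Same proof as `dens3` (JOB C): Tonelli, `z1 = Σu`, `z2 = Σv`, i.e. `u3 = z1-u4-u1-u2`,
`v4 = z2-v1-v2-v3`; for fixed `z1,z2,u4,u1,u2,v1` the `(v2,v3)`-integral is
`≤ d * volume {z3 | (z1,z2,z3) ∈ A}` by `H2` (with `Y = z2 - v1`, `A` translated by `Ψ(u1,v1)`), the
`v1`-integral costs `w`, the `(u1,u2)`-integral costs `e` by `H3` (with `z1 - u4`), the `u4`-integral `k`. -/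
theorem dens4 (Ψ : ℝ × ℝ → ℝ) (hΨ : Measurable Ψ) (Ω Ω' : Set (ℝ × ℝ)) (hΩ : MeasurableSet Ω)
    (hΩ' : MeasurableSet Ω') (w k d e : ℝ≥0∞)
    (hw : ∀ u : ℝ, volume (slice Ω u) ≤ w)
    (hk : volume {u : ℝ | (slice Ω' u).Nonempty} ≤ k)
    (H2 : ∀ u2 u3 u4 Y : ℝ, ∀ A : Set ℝ, MeasurableSet A →
      volume {p : ℝ × ℝ | (u2, p.1) ∈ Ω ∧ (u3, p.2) ∈ Ω ∧ (u4, Y - p.1 - p.2) ∈ Ω' ∧
        Ψ (u2, p.1) + Ψ (u3, p.2) + Ψ (u4, Y - p.1 - p.2) ∈ A} ≤ d * volume A)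
    (H3 : ∀ u4 z1 z2 : ℝ, volume {p : ℝ × ℝ | ∃ v1 v2 v3 : ℝ, (p.1, v1) ∈ Ω ∧ (p.2, v2) ∈ Ω ∧
        (z1 - p.1 - p.2, v3) ∈ Ω ∧ (u4, z2 - v1 - v2 - v3) ∈ Ω'} ≤ e)
    (A : Set E3) (hA : MeasurableSet A) :
    (((volume.restrict Ω).prod ((volume.restrict Ω).prod (volume.restrict Ω))).prod
      (volume.restrict Ω'))
      {p | (gpt Ψ p.1.1 + (gpt Ψ p.1.2.1 + gpt Ψ p.1.2.2)) + gpt Ψ p.2 ∈ A}
        ≤ k * w * d * e * volume A := by
  have hg := dens4_gpt hΨ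
  set S : Set (((ℝ × ℝ) × (ℝ × ℝ) × (ℝ × ℝ)) × (ℝ × ℝ)) :=
    {p | ((p.1.1 ∈ Ω ∧ p.1.2.1 ∈ Ω ∧ p.1.2.2 ∈ Ω) ∧ p.2 ∈ Ω') ∧
      (gpt Ψ p.1.1 + (gpt Ψ p.1.2.1 + gpt Ψ p.1.2.2)) + gpt Ψ p.2 ∈ A} with hS
  have hΩ4 : MeasurableSet {p : ((ℝ × ℝ) × (ℝ × ℝ) × (ℝ × ℝ)) × (ℝ × ℝ) |
      (p.1.1 ∈ Ω ∧ p.1.2.1 ∈ Ω ∧ p.1.2.2 ∈ Ω) ∧ p.2 ∈ Ω'} :=
    (((measurable_fst.comp measurable_fst) hΩ).inter
      (((measurable_fst.comp (measurable_snd.comp measurable_fst)) hΩ).inter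
      ((measurable_snd.comp (measurable_snd.comp measurable_fst)) hΩ))).inter (measurable_snd hΩ')
  have hSm : MeasurableSet S := by
    have h2 : Measurable (fun p : ((ℝ × ℝ) × (ℝ × ℝ) × (ℝ × ℝ)) × (ℝ × ℝ) =>
        (gpt Ψ p.1.1 + (gpt Ψ p.1.2.1 + gpt Ψ p.1.2.2)) + gpt Ψ p.2) := by fun_prop
    exact hΩ4.inter (h2 hA)
  obtain ⟨F, hF⟩ : ∃ F : ((ℝ × ℝ) × (ℝ × ℝ) × (ℝ × ℝ)) × (ℝ × ℝ) → ℝ≥0∞, F = S.indicator 1 := ⟨_, rfl⟩
  have hFm : Measurable F := by rw [hF]; exact measurable_one.indicator hSm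
  have h1 : (((volume.restrict Ω).prod ((volume.restrict Ω).prod (volume.restrict Ω))).prod (volume.restrict Ω'))
      {p | (gpt Ψ p.1.1 + (gpt Ψ p.1.2.1 + gpt Ψ p.1.2.2)) + gpt Ψ p.2 ∈ A} = ∫⁻ p, F p := by
    rw [hF, lintegral_indicator_one hSm, Measure.prod_restrict, Measure.prod_restrict, Measure.prod_restrict,
      Measure.restrict_apply₀' ((hΩ.prod (hΩ.prod hΩ)).prod hΩ').nullMeasurableSet]
    congr 1
    ext p
    simp only [Set.mem_inter_iff, Set.mem_ofPred_eq, Set.mem_prod, hS]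
    tauto
  -- reorder
  have h2 : ∫⁻ p, F p = ∫⁻ u : ℝ × ℝ × ℝ × ℝ, ∫⁻ v : ℝ × ℝ × ℝ × ℝ,
      F (((u.1, v.1), (u.2.1, v.2.1), (u.2.2.1, v.2.2.1)), (u.2.2.2, v.2.2.2)) := by
    rw [dens4_pair hFm, dens4_pair (by fun_prop)]
    rw [← dens4_pull (K := fun q : (ℝ × ℝ) × (ℝ × ℝ × ℝ) × (ℝ × ℝ × ℝ) =>
      F ((q.1, (q.2.1.1, q.2.2.1), (q.2.1.2.1, q.2.2.2.1)), (q.2.1.2.2, q.2.2.2.2))) (by fun_prop)]
    apply lintegral_congr
    intro a
    rw [dens4_pair (by fun_prop)]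
    rw [← dens4_pull (K := fun q : (ℝ × ℝ) × (ℝ × ℝ) × (ℝ × ℝ) =>
      F ((a, q.1, (q.2.1.1, q.2.2.1)), (q.2.1.2, q.2.2.2))) (by fun_prop)]
    apply lintegral_congr
    intro b
    rw [← dens4_pull (K := fun q : (ℝ × ℝ) × ℝ × ℝ => F ((a, b, q.1), (q.2.1, q.2.2))) (by fun_prop)]
    apply lintegral_congr
    intro c
    rw [dens4_pair (by fun_prop)]
  have hV : ∀ G : ℝ × ℝ × ℝ × ℝ → ℝ≥0∞, Measurable G →
      ∫⁻ v, G v = ∫⁻ z : ℝ, ∫⁻ a : ℝ, ∫⁻ p : ℝ × ℝ, G (a, p.1, p.2, z - a - p.1 - p.2) := by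
    intro G hG
    rw [dens4_swap (f := fun q : ℝ × ℝ => ∫⁻ p : ℝ × ℝ, G (q.2, p.1, p.2, q.1 - q.2 - p.1 - p.2)) (by fun_prop)]
    rw [dens4_pair hG]
    apply lintegral_congr
    intro a
    rw [dens4_swap (f := fun q : ℝ × ℝ × ℝ => G (a, q.2.1, q.2.2, q.1 - a - q.2.1 - q.2.2)) (by fun_prop)]
    rw [dens4_pair (by fun_prop), dens4_pair (by fun_prop)]
    apply lintegral_congr
    intro b
    rw [dens4_pair (by fun_prop)]
    apply lintegral_congr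
    intro c
    simp only [sub_sub]
    rw [lintegral_sub_right_eq_self (fun x => G (a, b, c, x))]
  have hU : ∀ G : ℝ × ℝ × ℝ × ℝ → ℝ≥0∞, Measurable G →
      ∫⁻ v, G v = ∫⁻ u4 : ℝ, ∫⁻ z : ℝ, ∫⁻ p : ℝ × ℝ, G (p.1, p.2, z - u4 - p.1 - p.2, u4) := by
    intro G hG
    have e1 : ∫⁻ u4 : ℝ, ∫⁻ z : ℝ, ∫⁻ p : ℝ × ℝ, G (p.1, p.2, z - u4 - p.1 - p.2, u4) =
        ∫⁻ u4 : ℝ, ∫⁻ p : ℝ × ℝ, ∫⁻ z : ℝ, G (p.1, p.2, z, u4) := by
      apply lintegral_congr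
      intro u4
      rw [dens4_swap (f := fun q : ℝ × ℝ × ℝ => G (q.2.1, q.2.2, q.1 - u4 - q.2.1 - q.2.2, u4)) (by fun_prop)]
      apply lintegral_congr
      intro p
      simp only [sub_sub]
      rw [lintegral_sub_right_eq_self (fun x => G (p.1, p.2, x, u4))]
    rw [e1]
    rw [dens4_swap (f := fun q : ℝ × ℝ × ℝ => ∫⁻ z : ℝ, G (q.2.1, q.2.2, z, q.1)) (by fun_prop)]
    rw [dens4_pair hG, dens4_pair (by fun_prop)]
    apply lintegral_congr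
    intro a
    rw [dens4_pair (by fun_prop)]
    apply lintegral_congr
    intro b
    rw [dens4_pair (by fun_prop)]
    rw [dens4_swap (f := fun q : ℝ × ℝ => G (a, b, q.1, q.2)) (by fun_prop)]
  have h4 : ∫⁻ p, F p = ∫⁻ u4 : ℝ, ∫⁻ z1 : ℝ, ∫⁻ z2 : ℝ, ∫⁻ p : ℝ × ℝ, ∫⁻ a : ℝ, ∫⁻ q : ℝ × ℝ,
      F (((p.1, a), (p.2, q.1), (z1 - u4 - p.1 - p.2, q.2)), (u4, z2 - a - q.1 - q.2)) := by
    rw [h2, hU _ (by fun_prop)]
    apply lintegral_congr
    intro u4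
    apply lintegral_congr
    intro z1
    rw [← dens4_swap (f := fun w : (ℝ × ℝ) × ℝ => ∫⁻ a : ℝ, ∫⁻ q : ℝ × ℝ,
      F (((w.1.1, a), (w.1.2, q.1), (z1 - u4 - w.1.1 - w.1.2, q.2)), (u4, w.2 - a - q.1 - q.2))) (by fun_prop)]
    apply lintegral_congr
    intro p
    rw [hV _ (by fun_prop)]
  have hAm2 : Measurable (fun q : ℝ × ℝ => volume {z3 : ℝ | (!₂[q.1, q.2, z3] : E3) ∈ A}) := by
    have := (measurable_measure_prodMk_left (ν := (volume : Measure ℝ))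
      (s := {q : (ℝ × ℝ) × ℝ | (!₂[q.1.1, q.1.2, q.2] : E3) ∈ A}) ?_)
    · exact this
    · have hm : Measurable (fun q : (ℝ × ℝ) × ℝ => (!₂[q.1.1, q.1.2, q.2] : E3)) := by fun_prop
      exact hm hA
  -- the bound for fixed `u4, z1, z2`
  have hB : ∀ u4 z1 z2 : ℝ, ∫⁻ p : ℝ × ℝ, ∫⁻ a : ℝ, ∫⁻ q : ℝ × ℝ,
      F (((p.1, a), (p.2, q.1), (z1 - u4 - p.1 - p.2, q.2)), (u4, z2 - a - q.1 - q.2)) ≤
      w * d * e * volume {z3 : ℝ | (!₂[z1, z2, z3] : E3) ∈ A} := by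
    intro u4 z1 z2
    set A' : Set ℝ := {z3 : ℝ | (!₂[z1, z2, z3] : E3) ∈ A} with hA'
    have hA'm : MeasurableSet A' := by
      have hm : Measurable (fun z3 : ℝ => (!₂[z1, z2, z3] : E3)) := by fun_prop
      exact hm hA
    set T : Set (ℝ × ℝ) := {p : ℝ × ℝ | ∃ v1 v2 v3 : ℝ, (p.1, v1) ∈ Ω ∧ (p.2, v2) ∈ Ω ∧
        (z1 - u4 - p.1 - p.2, v3) ∈ Ω ∧ (u4, z2 - v1 - v2 - v3) ∈ Ω'} with hT
    have hin : ∀ p : ℝ × ℝ, ∀ a : ℝ, ∫⁻ q : ℝ × ℝ,
        F (((p.1, a), (p.2, q.1), (z1 - u4 - p.1 - p.2, q.2)), (u4, z2 - a - q.1 - q.2)) ≤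
        (slice Ω p.1).indicator (fun _ => d * volume A') a := by
      intro p a
      by_cases ha : a ∈ slice Ω p.1
      · rw [Set.indicator_of_mem ha]
        have ha' : (p.1, a) ∈ Ω := ha
        set A'' : Set ℝ := {t | Ψ (p.1, a) + t ∈ A'} with hA''
        have hA''m : MeasurableSet A'' := (by fun_prop : Measurable (fun t : ℝ => Ψ (p.1, a) + t)) hA'm
        have hvol : volume A'' = volume A' := measure_preimage_add volume (Ψ (p.1, a)) A'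
        rw [← hvol]
        refine le_trans (le_of_eq ?_) (H2 p.2 (z1 - u4 - p.1 - p.2) u4 (z2 - a) A'' hA''m)
        have hms : MeasurableSet {q : ℝ × ℝ | (p.2, q.1) ∈ Ω ∧ (z1 - u4 - p.1 - p.2, q.2) ∈ Ω ∧
            (u4, z2 - a - q.1 - q.2) ∈ Ω' ∧
            Ψ (p.2, q.1) + Ψ (z1 - u4 - p.1 - p.2, q.2) + Ψ (u4, z2 - a - q.1 - q.2) ∈ A''} := by
          have m1 : Measurable (fun q : ℝ × ℝ => ((p.2, q.1) : ℝ × ℝ)) := by fun_prop
          have m2 : Measurable (fun q : ℝ × ℝ => ((z1 - u4 - p.1 - p.2, q.2) : ℝ × ℝ)) := by fun_prop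
          have m3 : Measurable (fun q : ℝ × ℝ => ((u4, z2 - a - q.1 - q.2) : ℝ × ℝ)) := by fun_prop
          have m4 : Measurable (fun q : ℝ × ℝ => Ψ (p.2, q.1) + Ψ (z1 - u4 - p.1 - p.2, q.2) +
            Ψ (u4, z2 - a - q.1 - q.2)) := by fun_prop
          exact (m1 hΩ).inter ((m2 hΩ).inter ((m3 hΩ').inter (m4 hA''m)))
        rw [← lintegral_indicator_one hms]
        apply lintegral_congr
        intro q
        rw [hF]
        have hiff : ((((p.1, a), (p.2, q.1), (z1 - u4 - p.1 - p.2, q.2)), (u4, z2 - a - q.1 - q.2)) :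
            ((ℝ × ℝ) × (ℝ × ℝ) × (ℝ × ℝ)) × (ℝ × ℝ)) ∈ S ↔
            q ∈ {q : ℝ × ℝ | (p.2, q.1) ∈ Ω ∧ (z1 - u4 - p.1 - p.2, q.2) ∈ Ω ∧
            (u4, z2 - a - q.1 - q.2) ∈ Ω' ∧
            Ψ (p.2, q.1) + Ψ (z1 - u4 - p.1 - p.2, q.2) + Ψ (u4, z2 - a - q.1 - q.2) ∈ A''} := by
          simp only [hS, hA', hA'', Set.mem_ofPred_eq]
          have he : (gpt Ψ (p.1, a) + (gpt Ψ (p.2, q.1) + gpt Ψ (z1 - u4 - p.1 - p.2, q.2))) +
              gpt Ψ (u4, z2 - a - q.1 - q.2) =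
              (!₂[z1, z2, Ψ (p.1, a) + (Ψ (p.2, q.1) + Ψ (z1 - u4 - p.1 - p.2, q.2) +
                Ψ (u4, z2 - a - q.1 - q.2))] : E3) := by
            ext i
            fin_cases i <;> (simp [gpt]; try ring)
          rw [he]
          tauto
        by_cases hq : q ∈ {q : ℝ × ℝ | (p.2, q.1) ∈ Ω ∧ (z1 - u4 - p.1 - p.2, q.2) ∈ Ω ∧
            (u4, z2 - a - q.1 - q.2) ∈ Ω' ∧
            Ψ (p.2, q.1) + Ψ (z1 - u4 - p.1 - p.2, q.2) + Ψ (u4, z2 - a - q.1 - q.2) ∈ A''}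
        · rw [Set.indicator_of_mem hq, Set.indicator_of_mem (hiff.mpr hq)]; rfl
        · rw [Set.indicator_of_notMem hq, Set.indicator_of_notMem (fun h => hq (hiff.mp h))]
      · rw [Set.indicator_of_notMem ha]
        have h0 : ∀ q : ℝ × ℝ, F (((p.1, a), (p.2, q.1), (z1 - u4 - p.1 - p.2, q.2)), (u4, z2 - a - q.1 - q.2)) = 0 := by
          intro q
          rw [hF]
          apply Set.indicator_of_notMem
          intro h
          exact ha h.1.1.1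
        simp [h0]
    have hmid : ∀ p : ℝ × ℝ, ∫⁻ a : ℝ, ∫⁻ q : ℝ × ℝ,
        F (((p.1, a), (p.2, q.1), (z1 - u4 - p.1 - p.2, q.2)), (u4, z2 - a - q.1 - q.2)) ≤
        (toMeasurable volume T).indicator (fun _ => w * d * volume A') p := by
      intro p
      by_cases hp : p ∈ T
      · rw [Set.indicator_of_mem (subset_toMeasurable _ _ hp)]
        have hsm : MeasurableSet (slice Ω p.1) := by
          have m1 : Measurable (fun v : ℝ => ((p.1, v) : ℝ × ℝ)) := by fun_prop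
          exact m1 hΩ
        calc _ ≤ ∫⁻ a : ℝ, (slice Ω p.1).indicator (fun _ => d * volume A') a := lintegral_mono (hin p)
          _ = d * volume A' * volume (slice Ω p.1) := by
              rw [lintegral_indicator hsm, setLIntegral_const]
          _ ≤ d * volume A' * w := by gcongr; exact hw p.1
          _ = _ := by ring
      · have h0 : ∀ a : ℝ, ∀ q : ℝ × ℝ,
            F (((p.1, a), (p.2, q.1), (z1 - u4 - p.1 - p.2, q.2)), (u4, z2 - a - q.1 - q.2)) = 0 := by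
          intro a q
          rw [hF]
          apply Set.indicator_of_notMem
          intro h
          exact hp ⟨a, q.1, q.2, h.1.1.1, h.1.1.2.1, h.1.1.2.2, h.1.2⟩
        simp [h0]
    calc _ ≤ ∫⁻ p : ℝ × ℝ, (toMeasurable volume T).indicator (fun _ => w * d * volume A') p := lintegral_mono hmid
      _ = w * d * volume A' * volume (toMeasurable volume T) := by
          rw [lintegral_indicator (measurableSet_toMeasurable _ _), setLIntegral_const]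
      _ = w * d * volume A' * volume T := by rw [measure_toMeasurable]
      _ ≤ w * d * volume A' * e := by gcongr; exact H3 u4 (z1 - u4) z2
      _ = w * d * e * volume A' := by ring
  rw [h1, h4]
  set U : Set ℝ := {u : ℝ | (slice Ω' u).Nonempty} with hUdef
  have hu4 : ∀ u4 : ℝ, ∫⁻ z1 : ℝ, ∫⁻ z2 : ℝ, ∫⁻ p : ℝ × ℝ, ∫⁻ a : ℝ, ∫⁻ q : ℝ × ℝ,
      F (((p.1, a), (p.2, q.1), (z1 - u4 - p.1 - p.2, q.2)), (u4, z2 - a - q.1 - q.2)) ≤
      (toMeasurable volume U).indicator (fun _ => w * d * e * volume A) u4 := by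
    intro u4
    by_cases hu : u4 ∈ U
    · rw [Set.indicator_of_mem (subset_toMeasurable _ _ hu), ← dens4_vol hA]
      rw [← lintegral_const_mul _ (Measurable.lintegral_prod_right' (f := fun q : ℝ × ℝ =>
        volume {z3 : ℝ | (!₂[q.1, q.2, z3] : E3) ∈ A}) hAm2)]
      apply lintegral_mono
      intro z1
      simp only
      have hAm1 : Measurable (fun z2 : ℝ => volume {z3 : ℝ | (!₂[z1, z2, z3] : E3) ∈ A}) :=
        hAm2.comp (by fun_prop : Measurable (fun z2 : ℝ => ((z1, z2) : ℝ × ℝ)))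
      rw [← lintegral_const_mul _ hAm1]
      apply lintegral_mono
      intro z2
      exact hB u4 z1 z2
    · have h0 : ∀ z1 z2 : ℝ, ∀ p : ℝ × ℝ, ∀ a : ℝ, ∀ q : ℝ × ℝ,
          F (((p.1, a), (p.2, q.1), (z1 - u4 - p.1 - p.2, q.2)), (u4, z2 - a - q.1 - q.2)) = 0 := by
        intro z1 z2 p a q
        rw [hF]
        apply Set.indicator_of_notMem
        intro h
        exact hu ⟨_, h.1.2⟩
      simp [h0]
  calc _ ≤ ∫⁻ u4 : ℝ, (toMeasurable volume U).indicator (fun _ => w * d * e * volume A) u4 := lintegral_mono hu4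
    _ = w * d * e * volume A * volume (toMeasurable volume U) := by
        rw [lintegral_indicator (measurableSet_toMeasurable _ _), setLIntegral_const]
    _ = w * d * e * volume A * volume U := by rw [measure_toMeasurable]
    _ ≤ w * d * e * volume A * k := by gcongr
    _ = k * w * d * e * volume A := by ring

end Pool.Agent.FlatRes
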