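import Pool.Agent.Lib.MP_40a0b6_an.Defs
set_option autoImplicit false
open MeasureTheory
open scoped ENNReal FourierTransform SchwartzMap
namespace Pool.Agent.FlatRes

private lemma Dual_enorm_integrand (Ψ : ℝ × ℝ → ℝ) (h : ℝ × ℝ → ℂ) (ξ : E3) (x : ℝ × ℝ) :
    ‖Complex.exp (((2 * Real.pi * inner ℝ ξ (gpt Ψ x) : ℝ) : ℂ) * Complex.I) * h x‖ₑ
      = ‖h x‖ₑ := by
  rw [enorm_mul]
  have : ‖Complex.exp (((2 * Real.pi * inner ℝ ξ (gpt Ψ x) : ℝ) : ℂ) * Complex.I)‖ₑ = 1 := by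
    rw [← ofReal_norm, Complex.norm_exp_ofReal_mul_I, ENNReal.ofReal_one]
  rw [this, one_mul]

private lemma Dual_mass_fin (U : Set (ℝ × ℝ)) (hfin : volume U ≠ ⊤) (h : ℝ × ℝ → ℂ)
    (hb : BddMeas h) : mass U h ≠ ⊤ := by
  obtain ⟨_, M, hM⟩ := hb
  have h1 : mass U h ≤ ENNReal.ofReal M ^ 2 * volume U := by
    unfold mass
    calc ∫⁻ x in U, ‖h x‖ₑ ^ 2 ≤ ∫⁻ _ in U, ENNReal.ofReal M ^ 2 := by
          refine lintegral_mono fun x => ?_
          gcongr
          rw [← ofReal_norm]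
          exact ENNReal.ofReal_le_ofReal (hM x)
      _ = ENNReal.ofReal M ^ 2 * volume U := by
          rw [lintegral_const, Measure.restrict_apply_univ]
  refine ne_top_of_le_ne_top ?_ h1
  exact ENNReal.mul_ne_top (ENNReal.pow_ne_top ENNReal.ofReal_ne_top) hfin

private lemma Dual_sup (U : Set (ℝ × ℝ)) (Ψ : ℝ × ℝ → ℝ) (h : ℝ × ℝ → ℂ) (hb : BddMeas h)
    (ξ : E3) : ‖extOn Ψ U h ξ‖ₑ ≤ (volume U * mass U h) ^ (1 / 2 : ℝ) := by
  have h1 : ‖extOn Ψ U h ξ‖ₑ ≤ ∫⁻ x in U, ‖h x‖ₑ := by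
    unfold extOn extN
    refine (enorm_integral_le_lintegral_enorm _).trans_eq ?_
    refine lintegral_congr fun x => ?_
    exact Dual_enorm_integrand Ψ h ξ x
  refine h1.trans ?_
  have h2 := ENNReal.lintegral_mul_le_Lp_mul_Lq (volume.restrict U)
    (p := 2) (q := 2) Real.HolderConjugate.two_two (f := fun x => ‖h x‖ₑ) (g := fun _ => 1)
    (hb.1.enorm.aemeasurable) aemeasurable_const
  refine (le_trans (le_of_eq (lintegral_congr fun x => (mul_one _).symm)) h2).trans_eq ?_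
  have h4 : ∫⁻ x in U, ‖h x‖ₑ ^ (2 : ℝ) = mass U h := by
    unfold mass
    refine lintegral_congr fun x => ?_
    rw [ENNReal.rpow_two]
  have h5 : ∫⁻ _ in U, (1 : ℝ≥0∞) ^ (2 : ℝ) = volume U := by
    rw [ENNReal.one_rpow, lintegral_const, Measure.restrict_apply_univ, one_mul]
  rw [h4, h5, ENNReal.mul_rpow_of_nonneg _ _ (by norm_num : (0 : ℝ) ≤ 1 / 2), mul_comm]

private lemma Dual_r (U : Set (ℝ × ℝ)) (hfin : volume U ≠ ⊤) (Ψ : ℝ × ℝ → ℝ) (q : ℝ)
    (hq : 2 ≤ q) (T : ℝ≥0∞)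
    (hE : ∀ h : ℝ × ℝ → ℂ, BddMeas h →
      ∫⁻ ξ, ‖extOn Ψ U h ξ‖ₑ ^ q ≤ (T * mass U h) ^ (q / 2))
    (r : ℝ) (hr : q ≤ r) (h : ℝ × ℝ → ℂ) (hb : BddMeas h) :
    ∫⁻ ξ, ‖extOn Ψ U h ξ‖ₑ ^ r ≤ ((T + volume U) * mass U h) ^ (r / 2) := by
  have hmf := Dual_mass_fin U hfin h hb
  have h0 : 0 ≤ r - q := by linarith
  have hq0 : 0 ≤ q := by linarith
  have hc : (volume U * mass U h) ^ ((r - q) / 2) ≠ ⊤ :=
    ENNReal.rpow_ne_top_of_nonneg (by linarith) (ENNReal.mul_ne_top hfin hmf)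
  calc ∫⁻ ξ, ‖extOn Ψ U h ξ‖ₑ ^ r
      ≤ ∫⁻ ξ, (volume U * mass U h) ^ ((r - q) / 2) * ‖extOn Ψ U h ξ‖ₑ ^ q := by
        refine lintegral_mono fun ξ => ?_
        have e1 : ‖extOn Ψ U h ξ‖ₑ ^ r = ‖extOn Ψ U h ξ‖ₑ ^ (r - q) * ‖extOn Ψ U h ξ‖ₑ ^ q := by
          rw [← ENNReal.rpow_add_of_nonneg _ _ h0 hq0]; congr 1; ring
        rw [e1]
        gcongr
        calc ‖extOn Ψ U h ξ‖ₑ ^ (r - q) ≤ ((volume U * mass U h) ^ (1 / 2 : ℝ)) ^ (r - q) :=
              ENNReal.rpow_le_rpow (Dual_sup U Ψ h hb ξ) h0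
          _ = (volume U * mass U h) ^ ((r - q) / 2) := by
              rw [← ENNReal.rpow_mul]; congr 1; ring
    _ = (volume U * mass U h) ^ ((r - q) / 2) * ∫⁻ ξ, ‖extOn Ψ U h ξ‖ₑ ^ q :=
        lintegral_const_mul' _ _ hc
    _ ≤ (volume U * mass U h) ^ ((r - q) / 2) * (T * mass U h) ^ (q / 2) := by
        gcongr
        exact hE h hb
    _ ≤ ((T + volume U) * mass U h) ^ ((r - q) / 2) * ((T + volume U) * mass U h) ^ (q / 2) := by
        gcongr
        · exact le_add_self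
        · exact le_self_add
    _ = ((T + volume U) * mass U h) ^ (r / 2) := by
        rw [← ENNReal.rpow_add_of_nonneg _ _ (by linarith) (by linarith)]
        congr 1; ring

private lemma Dual_gpt_meas (Ψ : ℝ × ℝ → ℝ) (hΨ : Measurable Ψ) : Measurable (gpt Ψ) := by
  unfold gpt
  refine (PiLp.continuous_toLp 2 _).measurable.comp ?_
  refine measurable_pi_lambda _ fun i => ?_
  fin_cases i
  · exact measurable_fst
  · exact measurable_snd
  · exact hΨ

private lemma Dual_joint_meas (Ψ : ℝ × ℝ → ℝ) (hΨ : Measurable Ψ) (h : ℝ × ℝ → ℂ)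
    (hh : Measurable h) : Measurable (fun z : E3 × (ℝ × ℝ) =>
      Complex.exp (((2 * Real.pi * inner ℝ z.1 (gpt Ψ z.2) : ℝ) : ℂ) * Complex.I) * h z.2) := by
  refine Measurable.mul ?_ (hh.comp measurable_snd)
  refine Complex.measurable_exp.comp ?_
  refine Measurable.mul_const ?_ _
  refine Complex.measurable_ofReal.comp ?_
  refine Measurable.const_mul ?_ _
  exact measurable_fst.inner ((Dual_gpt_meas Ψ hΨ).comp measurable_snd)

private lemma Dual_ext_meas (U : Set (ℝ × ℝ)) (Ψ : ℝ × ℝ → ℝ) (hΨ : Measurable Ψ)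
    (h : ℝ × ℝ → ℂ) (hh : Measurable h) : Measurable (extOn Ψ U h) := by
  have := (Dual_joint_meas Ψ hΨ h hh).stronglyMeasurable
  have h2 := this.integral_prod_right' (ν := volume.restrict U)
  exact h2.measurable

private lemma Dual_weight (U : Set (ℝ × ℝ)) (hU : IsOpen U) (ψ : ℝ × ℝ → ℝ)
    (hψ : ContDiffOn ℝ (⊤ : ℕ∞) ψ U) (ρ : ℝ × ℝ → ℝ) (hρ : IsCutoff U ρ) :
    ∃ B : ℝ, 0 ≤ B ∧ ∀ x ∈ U, ρ x * areaDensity ψ x ≤ B := by
  obtain ⟨hρs, hρc, hρU, hρ0⟩ := hρ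
  have hfd : ContinuousOn (fderiv ℝ ψ) U :=
    hψ.continuousOn_fderiv_of_isOpen hU (by exact_mod_cast le_top)
  have hdiff : ∀ x ∈ U, DifferentiableAt ℝ ψ x := fun x hx =>
    (hψ.differentiableOn (by simp)).differentiableAt (hU.mem_nhds hx)
  have hd1 : ∀ x ∈ U, deriv (fun t => ψ (t, x.2)) x.1 = fderiv ℝ ψ x (1, 0) := by
    intro x hx
    have h1 : HasFDerivAt ψ (fderiv ℝ ψ x) (x.1, x.2) := (hdiff x hx).hasFDerivAt
    have h2 : HasDerivAt (fun t : ℝ => (t, x.2)) ((1 : ℝ), (0 : ℝ)) x.1 :=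
      (hasDerivAt_id x.1).prodMk (hasDerivAt_const x.1 x.2)
    exact (h1.comp_hasDerivAt x.1 h2).deriv
  have hd2 : ∀ x ∈ U, deriv (fun t => ψ (x.1, t)) x.2 = fderiv ℝ ψ x (0, 1) := by
    intro x hx
    have h1 : HasFDerivAt ψ (fderiv ℝ ψ x) (x.1, x.2) := (hdiff x hx).hasFDerivAt
    have h2 : HasDerivAt (fun t : ℝ => (x.1, t)) ((0 : ℝ), (1 : ℝ)) x.2 :=
      (hasDerivAt_const x.2 x.1).prodMk (hasDerivAt_id x.2)
    exact (h1.comp_hasDerivAt x.2 h2).deriv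
  have hcont : ContinuousOn (areaDensity ψ) U := by
    have h1 : ContinuousOn (fun x => Real.sqrt (1 + (fderiv ℝ ψ x (1, 0)) ^ 2 +
        (fderiv ℝ ψ x (0, 1)) ^ 2)) U := by
      refine ContinuousOn.sqrt ?_
      refine ((continuousOn_const.add ((hfd.clm_apply continuousOn_const).pow 2))).add
        ((hfd.clm_apply continuousOn_const).pow 2)
    refine h1.congr fun x hx => ?_
    unfold areaDensity
    rw [hd1 x hx, hd2 x hx]
  have hcont2 : ContinuousOn (fun x => ρ x * areaDensity ψ x) (tsupport ρ) :=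
    hρs.continuous.continuousOn.mul (hcont.mono hρU)
  obtain ⟨B, hB⟩ := hρc.isCompact.exists_bound_of_continuousOn hcont2
  refine ⟨max B 0, le_max_right _ _, fun x _ => ?_⟩
  by_cases hx : x ∈ tsupport ρ
  · exact (le_trans (le_abs_self _) (by simpa using hB x hx)).trans (le_max_left _ _)
  · rw [image_eq_zero_of_notMem_tsupport hx, zero_mul]
    exact le_max_right _ _

private lemma Dual_fubini (U : Set (ℝ × ℝ)) (hfin : volume U ≠ ⊤) (Ψ : ℝ × ℝ → ℝ)
    (hΨ : Measurable Ψ) (h : ℝ × ℝ → ℂ) (hb : BddMeas h) (f : 𝓢(E3, ℂ)) :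
    ∫ x in U, h x * 𝓕 (f : E3 → ℂ) (gpt Ψ x) = ∫ v, f v * extOn Ψ U h (-v) := by
  have : IsFiniteMeasure (volume.restrict U) := ⟨by
    rw [Measure.restrict_apply_univ]; exact hfin.lt_top⟩
  have e1 : ∀ x, h x * 𝓕 (f : E3 → ℂ) (gpt Ψ x) = ∫ v, (f v * (Complex.exp
      (((2 * Real.pi * inner ℝ (-v) (gpt Ψ x) : ℝ) : ℂ) * Complex.I) * h x)) := by
    intro x
    rw [Real.fourier_eq', ← integral_const_mul]
    refine integral_congr_ae (Filter.Eventually.of_forall fun v => ?_)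
    simp only [smul_eq_mul]
    have : (-2 * Real.pi * inner ℝ v (gpt Ψ x) : ℝ) = 2 * Real.pi * inner ℝ (-v) (gpt Ψ x) := by
      rw [inner_neg_left]; ring
    rw [this]
    ring
  have hint : Integrable (Function.uncurry fun (x : ℝ × ℝ) (v : E3) => (f v * (Complex.exp
      (((2 * Real.pi * inner ℝ (-v) (gpt Ψ x) : ℝ) : ℂ) * Complex.I) * h x)))
      ((volume.restrict U).prod volume) := by
    have hf : Integrable (f : E3 → ℂ) := f.integrable
    have hh : Integrable h (volume.restrict U) := by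
      obtain ⟨hm, M, hM⟩ := hb
      exact Integrable.of_bound hm.aestronglyMeasurable M (Filter.Eventually.of_forall hM)
    have h1 : Integrable (fun z : (ℝ × ℝ) × E3 => h z.1 * f z.2)
      ((volume.restrict U).prod volume) := hh.mul_prod hf
    refine h1.mono ?_ (Filter.Eventually.of_forall fun z => ?_)
    · have hm := Dual_joint_meas Ψ hΨ h hb.1
      have hm2 : Measurable (fun z : (ℝ × ℝ) × E3 => ((-z.2, z.1) : E3 × (ℝ × ℝ))) :=
        (measurable_snd.neg).prodMk measurable_fst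
      have hm3 := hm.comp hm2
      have hm4 : Measurable (fun z : (ℝ × ℝ) × E3 => f z.2) :=
        f.continuous.measurable.comp measurable_snd
      exact (hm4.mul hm3).aestronglyMeasurable
    · simp only [Function.uncurry]
      rw [norm_mul, norm_mul, Complex.norm_exp_ofReal_mul_I, one_mul, norm_mul, mul_comm]
  calc ∫ x in U, h x * 𝓕 (f : E3 → ℂ) (gpt Ψ x)
      = ∫ x in U, ∫ v, (f v * (Complex.exp
      (((2 * Real.pi * inner ℝ (-v) (gpt Ψ x) : ℝ) : ℂ) * Complex.I) * h x)) := by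
        refine integral_congr_ae (Filter.Eventually.of_forall fun x => ?_)
        exact e1 x
    _ = ∫ v, ∫ x in U, (f v * (Complex.exp
      (((2 * Real.pi * inner ℝ (-v) (gpt Ψ x) : ℝ) : ℂ) * Complex.I) * h x)) :=
        integral_integral_swap hint
    _ = ∫ v, f v * extOn Ψ U h (-v) := by
        refine integral_congr_ae (Filter.Eventually.of_forall fun v => ?_)
        simp only
        rw [integral_const_mul]
        rfl

/-- JOB W.  From the extension estimate at `q` to the restriction estimate for all `p` with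
`p' ≥ q`.  (i) for `r ≥ q`, `‖E h‖_∞² ≤ volume U · mass`, so `∫‖E h‖^r ≤ C mass^{r/2}`.
(ii) Let `f` be Schwartz, `h(x) = 1_U conj(f̂(x,ψ(x)))` (bounded measurable).  Fubini:
`∫_U |f̂(gpt ψ x)|² dx = ∫_U h(x) ∫ f(ξ) e^{-2πi⟨ξ,gpt x⟩} dξ dx = ∫ f(ξ) (E h)(-ξ) dξ ≤ ‖f‖_p ‖E h‖_{p'}`
(for `p = 1` use the sup bound), hence `(∫_U|f̂|²)^{1/2} ≤ C ‖f‖_p`.
(iii) `ρ · areaDensity` is bounded on `U` (`ρ` has compact support in `U`, `ψ` is smooth on `U`;
outside the support the integrand vanishes). `ψ0` is a globally measurable version of `ψ`. -/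
theorem restriction_of_extension (U : Set (ℝ × ℝ)) (hU : IsOpen U) (hfin : volume U ≠ ⊤)
    (ψ ψ0 : ℝ × ℝ → ℝ) (hψ : ContDiffOn ℝ (⊤ : ℕ∞) ψ U) (hψ0 : Measurable ψ0)
    (heq : ∀ x ∈ U, ψ0 x = ψ x) (q : ℝ) (hq : 2 ≤ q) (T : ℝ≥0∞) (hT : T ≠ ⊤)
    (hE : ∀ h : ℝ × ℝ → ℂ, BddMeas h →
      ∫⁻ ξ, ‖extOn ψ0 U h ξ‖ₑ ^ q ≤ (T * mass U h) ^ (q / 2))
    (ρ : ℝ × ℝ → ℝ) (hρ : IsCutoff U ρ) (p : ℝ) (hp1 : 1 ≤ p) (hp2 : p ≤ 2)
    (hp : p = 1 ∨ q ≤ p / (p - 1)) : RestrictionEstimate U ψ ρ p := by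
  obtain ⟨B, hB0, hB⟩ := Dual_weight U hU ψ hψ ρ hρ
  set A : ℝ≥0∞ := T + volume U with hA
  have hAfin : A ≠ ⊤ := ENNReal.add_ne_top.2 ⟨hT, hfin⟩
  refine ⟨Real.sqrt (A.toReal * B), Real.sqrt_nonneg _, fun f => ?_⟩
  set F : E3 → ℂ := 𝓕 (f : E3 → ℂ) with hF
  have hFc : Continuous F := by
    rw [hF, ← SchwartzMap.fourier_coe]
    exact (𝓕 f).continuous
  have hFb : ∃ M : ℝ, ∀ w, ‖F w‖ ≤ M := by
    refine ⟨SchwartzMap.seminorm ℝ 0 0 (𝓕 f), fun w => ?_⟩
    rw [hF, ← SchwartzMap.fourier_coe]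
    exact SchwartzMap.norm_le_seminorm ℝ (𝓕 f) w
  obtain ⟨M, hM⟩ := hFb
  have hM0 : 0 ≤ M := (norm_nonneg _).trans (hM 0)
  set h : ℝ × ℝ → ℂ := U.indicator (fun x => (starRingEnd ℂ) (F (gpt ψ0 x))) with hh
  have hgm := Dual_gpt_meas ψ0 hψ0
  have hb : BddMeas h := by
    constructor
    · refine Measurable.indicator ?_ hU.measurableSet
      exact Complex.continuous_conj.measurable.comp (hFc.measurable.comp hgm)
    · refine ⟨M, fun x => ?_⟩
      rw [hh]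
      by_cases hx : x ∈ U
      · rw [Set.indicator_of_mem hx, RCLike.norm_conj]; exact hM _
      · rw [Set.indicator_of_notMem hx, norm_zero]; exact hM0
  set m := mass U h with hm
  have hmfin : m ≠ ⊤ := Dual_mass_fin U hfin h hb
  have hnorm : ∀ x ∈ U, ‖h x‖ₑ = ‖F (gpt ψ x)‖ₑ := by
    intro x hx
    have e1 : gpt ψ0 x = gpt ψ x := by unfold gpt; rw [heq x hx]
    rw [hh, Set.indicator_of_mem hx, e1, ← ofReal_norm, ← ofReal_norm, RCLike.norm_conj]
  have hm1 : m = ∫⁻ x in U, ‖F (gpt ψ x)‖ₑ ^ (2 : ℕ) := by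
    rw [hm]
    unfold mass
    refine setLIntegral_congr_fun hU.measurableSet fun x hx => ?_
    rw [hnorm x hx]
  -- m is the norm of the dual integral
  have hm2 : m = ‖∫ x in U, h x * F (gpt ψ0 x)‖ₑ := by
    have e1 : ∫ x in U, h x * F (gpt ψ0 x) = ((∫ x in U, ‖h x‖ ^ 2 : ℝ) : ℂ) := by
      rw [← integral_complex_ofReal]
      refine setIntegral_congr_fun hU.measurableSet fun x hx => ?_
      simp only [hh, Set.indicator_of_mem hx, RCLike.norm_conj]
      rw [mul_comm, Complex.mul_conj, Complex.normSq_eq_norm_sq]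
    have e2 : 0 ≤ ∫ x in U, ‖h x‖ ^ 2 := integral_nonneg fun x => by positivity
    rw [e1, ← ofReal_norm, Complex.norm_real, Real.norm_of_nonneg e2]
    have : IsFiniteMeasure (volume.restrict U) := ⟨by
      rw [Measure.restrict_apply_univ]; exact hfin.lt_top⟩
    have hi : Integrable (fun x => ‖h x‖ ^ 2) (volume.restrict U) := by
      obtain ⟨h1, M', h2⟩ := hb
      refine Integrable.of_bound (h1.norm.pow_const 2).aestronglyMeasurable (M' ^ 2)
        (Filter.Eventually.of_forall fun x => ?_)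
      rw [Real.norm_of_nonneg (by positivity)]
      exact pow_le_pow_left₀ (norm_nonneg _) (h2 x) 2
    rw [ofReal_integral_eq_lintegral_ofReal hi (Filter.Eventually.of_forall fun x => by positivity)]
    rw [hm]
    unfold mass
    refine lintegral_congr fun x => ?_
    rw [ENNReal.ofReal_pow (norm_nonneg _), ofReal_norm]
  set N := eLpNorm (f : E3 → ℂ) (ENNReal.ofReal p) volume with hN
  have hkey : m ≤ N * (A * m) ^ (1 / 2 : ℝ) := by
    have h1 : m ≤ ∫⁻ v, ‖f v‖ₑ * ‖extOn ψ0 U h (-v)‖ₑ := by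
      rw [hm2, hF, Dual_fubini U hfin ψ0 hψ0 h hb f]
      refine (enorm_integral_le_lintegral_enorm _).trans_eq ?_
      refine lintegral_congr fun v => ?_
      rw [enorm_mul]
    refine h1.trans ?_
    rcases hp1.eq_or_lt with hpe | hp1'
    · -- p = 1
      have e1 : N = ∫⁻ v, ‖f v‖ₑ := by
        rw [hN, ← hpe, ENNReal.ofReal_one, eLpNorm_one_eq_lintegral_enorm]
      rw [e1]
      have hc : (A * m) ^ (1 / 2 : ℝ) ≠ ⊤ :=
        ENNReal.rpow_ne_top_of_nonneg (by norm_num) (ENNReal.mul_ne_top hAfin hmfin)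
      rw [← lintegral_mul_const' _ _ hc]
      refine lintegral_mono fun v => ?_
      gcongr
      refine (Dual_sup U ψ0 h hb (-v)).trans ?_
      refine ENNReal.rpow_le_rpow ?_ (by norm_num)
      gcongr
      exact le_add_self
    · have hqp : q ≤ p / (p - 1) := by
        rcases hp with h | h
        · exact absurd h hp1'.ne'
        · exact h
      have hpp : p.HolderConjugate (p / (p - 1)) := Real.HolderConjugate.conjExponent hp1'
      have hp' : 0 < p / (p - 1) := hpp.symm.pos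
      have hEm : Measurable (fun v => ‖extOn ψ0 U h (-v)‖ₑ) :=
        ((Dual_ext_meas U ψ0 hψ0 h hb.1).comp measurable_neg).enorm
      have h2 := ENNReal.lintegral_mul_le_Lp_mul_Lq volume hpp
        (f := fun v : E3 => ‖f v‖ₑ) (g := fun v => ‖extOn ψ0 U h (-v)‖ₑ)
        f.continuous.enorm.measurable.aemeasurable hEm.aemeasurable
      refine h2.trans ?_
      have e1 : (∫⁻ v, ‖f v‖ₑ ^ p) ^ (1 / p) = N := by
        rw [hN, eLpNorm_eq_lintegral_rpow_enorm_toReal (by simp; linarith) ENNReal.ofReal_ne_top,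
          ENNReal.toReal_ofReal (by linarith)]
      rw [e1]
      gcongr
      have e2 : ∫⁻ v, ‖extOn ψ0 U h (-v)‖ₑ ^ (p / (p - 1)) =
          ∫⁻ v, ‖extOn ψ0 U h v‖ₑ ^ (p / (p - 1)) :=
        lintegral_neg_eq_self (fun v : E3 => ‖extOn ψ0 U h v‖ₑ ^ (p / (p - 1)))
      rw [e2]
      calc (∫⁻ v, ‖extOn ψ0 U h v‖ₑ ^ (p / (p - 1))) ^ (1 / (p / (p - 1)))
          ≤ ((A * m) ^ (p / (p - 1) / 2)) ^ (1 / (p / (p - 1))) :=
            ENNReal.rpow_le_rpow (Dual_r U hfin ψ0 q hq T hE _ hqp h hb) (by positivity)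
        _ = (A * m) ^ (1 / 2 : ℝ) := by
            rw [← ENNReal.rpow_mul]
            congr 1
            field_simp
  -- conclusion for m
  have hmain : m ≤ A * N ^ (2 : ℕ) := by
    rcases eq_or_ne m 0 with h0 | h0
    · rw [h0]; exact zero_le
    · have h1 : m ^ (2 : ℕ) ≤ N ^ (2 : ℕ) * (A * m) := by
        calc m ^ (2 : ℕ) ≤ (N * (A * m) ^ (1 / 2 : ℝ)) ^ (2 : ℕ) := by gcongr
          _ = N ^ (2 : ℕ) * (A * m) := by
              rw [mul_pow, ← ENNReal.rpow_natCast ((A * m) ^ (1 / 2 : ℝ)), ← ENNReal.rpow_mul]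
              norm_num
      have h2 : m * m ≤ (A * N ^ (2 : ℕ)) * m := by
        calc m * m = m ^ 2 := (sq m).symm
          _ ≤ _ := h1
          _ = _ := by ring
      exact (ENNReal.mul_le_mul_iff_left h0 hmfin).1 h2
  calc ∫⁻ x in U, ‖F (gpt ψ x)‖ₑ ^ (2 : ℕ) * ENNReal.ofReal (ρ x * areaDensity ψ x)
      ≤ ∫⁻ x in U, ‖F (gpt ψ x)‖ₑ ^ (2 : ℕ) * ENNReal.ofReal B := by
        refine setLIntegral_mono' hU.measurableSet fun x hx => ?_
        gcongr
        exact hB x hx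
    _ = m * ENNReal.ofReal B := by
        rw [lintegral_mul_const' _ _ ENNReal.ofReal_ne_top, ← hm1]
    _ ≤ A * N ^ (2 : ℕ) * ENNReal.ofReal B := by gcongr
    _ = (ENNReal.ofReal (Real.sqrt (A.toReal * B)) * N) ^ (2 : ℕ) := by
        rw [mul_pow, ← ENNReal.ofReal_pow (Real.sqrt_nonneg _), Real.sq_sqrt (by positivity),
          ENNReal.ofReal_mul ENNReal.toReal_nonneg, ENNReal.ofReal_toReal hAfin]
        ring

end Pool.Agent.FlatRes
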