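import Pool.Agent.Lib.MP_40a0b6_an.Defs
set_option autoImplicit false
open MeasureTheory
open scoped ENNReal FourierTransform SchwartzMap
namespace Pool.Agent.FlatRes

/-- real arithmetic: the axes of the rectangle containing an energy sublevel set -/
theorem shell_area (l1 l2 c : ℝ) (hl1 : 0 < l1) (hl2 : 0 < l2) (hc : 0 ≤ c) :
    (4 * Real.sqrt (c / l1)) * (4 * Real.sqrt (c / l2)) = 16 * c / Real.sqrt (l1 * l2) := by
  rw [Real.sqrt_div hc, Real.sqrt_div hc, Real.sqrt_mul hl1.le]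
  have h1 : Real.sqrt l1 ≠ 0 := (Real.sqrt_pos.2 hl1).ne'
  have h2 : Real.sqrt l2 ≠ 0 := (Real.sqrt_pos.2 hl2).ne'
  field_simp
  rw [Real.sq_sqrt hc]
  ring

/-- JOB F.  Energy shells of a sum of convex functions restricted to `x₁+x₂+x₃ = Y`.

Let `Q` be the (convex) set of `p` with `p.1 ∈ I1, p.2 ∈ I2, Y-p.1-p.2 ∈ I3` and
`h(p) = F1 p.1 + F2 p.2 + F3 (Y-p.1-p.2)`; by convexity of `F3`,
`h(tp+(1-t)q) ≤ t h(p) + (1-t) h(q) - t(1-t)/2·(l1 (p.1-q.1)² + l2 (p.2-q.2)²)`.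
Let `m = inf_Q h` (`> -∞`), `S_c = {p ∈ Q | h p ≤ c}`.
(i) For `p ∈ S_b`, `q ∈ Q` with `h q ≤ m+η`: the midpoint is in `Q`, so
`m ≤ (b + m + η)/2 - (l1 Δ1² + l2 Δ2²)/8`, hence `S_b` lies in a rectangle of area
`≤ 16 (b-m+η)/√(l1 l2)`.
(ii) If `m < a`: pick `q` with `h q ≤ m+η < a`, `ρ = (a - h q)/(b - h q) ∈ (0,1)`.  The homothety
`p ↦ q + ρ(p-q)` maps `S_b` into `S_a`, so `|S_a| ≥ ρ²|S_b|` and
`|S_b \ S_a| ≤ (1-ρ²)|S_b| ≤ 2 (b-a)/(b-h q) |S_b| ≤ 32 (b-a)/√(l1 l2) · (b-m+η)/(b-m-η)`; let `η → 0`.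
(iii) If `a ≤ m` the set is contained in `S_b`, `|S_b| ≤ 16 (b-m+η)/√(l1l2)`.
(`S_b` is convex, hence null-measurable; or use `addHaar_image_homothety` and the inequality
`|S_b| ≤ |S_b \ S_a| + |S_a|` in the right direction.) -/
theorem convex_shell (I1 I2 I3 : Set ℝ) (hI1 : I1.OrdConnected) (hI2 : I2.OrdConnected)
    (hI3 : I3.OrdConnected) (F1 F2 F3 : ℝ → ℝ) (l1 l2 : ℝ) (hl1 : 0 < l1) (hl2 : 0 < l2)
    (h1 : StrongConvexOn I1 l1 F1) (h2 : StrongConvexOn I2 l2 F2) (h3 : ConvexOn ℝ I3 F3)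
    (M : ℝ) (hM1 : ∀ x ∈ I1, M ≤ F1 x) (hM2 : ∀ x ∈ I2, M ≤ F2 x) (hM3 : ∀ x ∈ I3, M ≤ F3 x)
    (Y a b : ℝ) (hab : a < b) :
    volume {p : ℝ × ℝ | p.1 ∈ I1 ∧ p.2 ∈ I2 ∧ Y - p.1 - p.2 ∈ I3 ∧
      F1 p.1 + F2 p.2 + F3 (Y - p.1 - p.2) ∈ Set.Ioc a b} ≤
      ENNReal.ofReal (32 * (b - a) / Real.sqrt (l1 * l2)) := by
  obtain ⟨h, hh⟩ : ∃ h : ℝ × ℝ → ℝ, h = fun p => F1 p.1 + F2 p.2 + F3 (Y - p.1 - p.2) := ⟨_, rfl⟩
  obtain ⟨Q, hQ⟩ : ∃ Q : Set (ℝ × ℝ), Q = {p | p.1 ∈ I1 ∧ p.2 ∈ I2 ∧ Y - p.1 - p.2 ∈ I3} :=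
    ⟨_, rfl⟩
  have hset : {p : ℝ × ℝ | p.1 ∈ I1 ∧ p.2 ∈ I2 ∧ Y - p.1 - p.2 ∈ I3 ∧
      F1 p.1 + F2 p.2 + F3 (Y - p.1 - p.2) ∈ Set.Ioc a b} = {p | p ∈ Q ∧ a < h p ∧ h p ≤ b} := by
    ext p
    simp only [hQ, hh, Set.mem_setOf_eq, Set.mem_Ioc, and_assoc]
  rw [hset]
  -- strong convexity of `h`
  have key : ∀ p ∈ Q, ∀ q ∈ Q, ∀ s t : ℝ, 0 ≤ s → 0 ≤ t → s + t = 1 → s • p + t • q ∈ Q ∧
      h (s • p + t • q) ≤ s * h p + t * h q -
        s * t / 2 * (l1 * (p.1 - q.1) ^ 2 + l2 * (p.2 - q.2) ^ 2) := by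
    intro p hp q hq s t hs ht hst
    rw [hQ] at hp hq
    obtain ⟨p1, p2, p3⟩ := hp
    obtain ⟨q1, q2, q3⟩ := hq
    have e : Y - (s • p + t • q).1 - (s • p + t • q).2 =
        s • (Y - p.1 - p.2) + t • (Y - q.1 - q.2) := by
      simp only [Prod.fst_add, Prod.snd_add, Prod.smul_fst, Prod.smul_snd, smul_eq_mul]
      linear_combination (-Y) * hst
    have k1 := h1.2 p1 q1 hs ht hst
    have k2 := h2.2 p2 q2 hs ht hst
    have k3 := h3.2 p3 q3 hs ht hst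
    rw [hQ, hh]
    refine ⟨⟨?_, ?_, ?_⟩, ?_⟩
    · exact h1.1 p1 q1 hs ht hst
    · exact h2.1 p2 q2 hs ht hst
    · rw [e]
      exact h3.1 p3 q3 hs ht hst
    · show F1 (s • p + t • q).1 + F2 (s • p + t • q).2 +
        F3 (Y - (s • p + t • q).1 - (s • p + t • q).2) ≤ _
      rw [e]
      have n1 : ‖p.1 - q.1‖ ^ 2 = (p.1 - q.1) ^ 2 := by rw [Real.norm_eq_abs, sq_abs]
      have n2 : ‖p.2 - q.2‖ ^ 2 = (p.2 - q.2) ^ 2 := by rw [Real.norm_eq_abs, sq_abs]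
      simp only [n1, n2, smul_eq_mul] at k1 k2 k3
      simp only [Prod.fst_add, Prod.snd_add, Prod.smul_fst, Prod.smul_snd, smul_eq_mul]
      nlinarith [k1, k2, k3]
  by_cases hne : Q.Nonempty
  swap
  · have : {p | p ∈ Q ∧ a < h p ∧ h p ≤ b} = ∅ := by
      ext p
      simp only [Set.mem_setOf_eq, Set.mem_empty_iff_false, iff_false]
      rintro ⟨hp, -⟩
      exact hne ⟨p, hp⟩
    rw [this]
    simp
  -- the infimum
  have hbdd : BddBelow (h '' Q) := by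
    refine ⟨M + M + M, ?_⟩
    rintro _ ⟨p, hp, rfl⟩
    rw [hQ] at hp
    obtain ⟨p1, p2, p3⟩ := hp
    rw [hh]
    have := hM1 _ p1
    have := hM2 _ p2
    have := hM3 _ p3
    show M + M + M ≤ F1 p.1 + F2 p.2 + F3 (Y - p.1 - p.2)
    linarith
  obtain ⟨m, hm⟩ : ∃ m, m = sInf (h '' Q) := ⟨_, rfl⟩
  have hmle : ∀ p ∈ Q, m ≤ h p := fun p hp => by
    rw [hm]; exact csInf_le hbdd ⟨p, hp, rfl⟩
  have hmex : ∀ η : ℝ, 0 < η → ∃ q ∈ Q, h q < m + η := by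
    intro η hη
    obtain ⟨_, ⟨q, hq, rfl⟩, h5⟩ := exists_lt_of_csInf_lt (hne.image h)
      (show sInf (h '' Q) < m + η by rw [← hm]; linarith)
    exact ⟨q, hq, h5⟩
  -- area of the sublevel set
  have harea : ∀ q ∈ Q, ∀ η : ℝ, 0 < η → h q < m + η → m ≤ b →
      volume {p | p ∈ Q ∧ h p ≤ b} ≤ ENNReal.ofReal (16 * (b - m + η) / Real.sqrt (l1 * l2)) := by
    intro q hq η hη hqη hmb
    have hc : 0 ≤ b - m + η := by linarith
    have hsub : {p | p ∈ Q ∧ h p ≤ b} ⊆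
        Set.Icc (q.1 - 2 * Real.sqrt ((b - m + η) / l1)) (q.1 + 2 * Real.sqrt ((b - m + η) / l1)) ×ˢ
        Set.Icc (q.2 - 2 * Real.sqrt ((b - m + η) / l2))
          (q.2 + 2 * Real.sqrt ((b - m + η) / l2)) := by
      rintro p ⟨hp, hpb⟩
      obtain ⟨k1, k2⟩ := key p hp q hq (1 / 2) (1 / 2) (by norm_num) (by norm_num) (by norm_num)
      have k3 := hmle _ k1
      have hs1 : 0 ≤ l1 * (p.1 - q.1) ^ 2 := by positivity
      have hs2 : 0 ≤ l2 * (p.2 - q.2) ^ 2 := by positivity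
      have hle : l1 * (p.1 - q.1) ^ 2 + l2 * (p.2 - q.2) ^ 2 ≤ 4 * (b - m + η) := by
        nlinarith
      have r1 : |p.1 - q.1| ≤ 2 * Real.sqrt ((b - m + η) / l1) := by
        rw [show (2 : ℝ) = Real.sqrt 4 by
          rw [show (4 : ℝ) = 2 ^ 2 by norm_num]; rw [Real.sqrt_sq (by norm_num)],
          ← Real.sqrt_mul (by norm_num)]
        apply Real.abs_le_sqrt
        rw [mul_div_assoc', le_div_iff₀ hl1]
        linarith
      have r2 : |p.2 - q.2| ≤ 2 * Real.sqrt ((b - m + η) / l2) := by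
        rw [show (2 : ℝ) = Real.sqrt 4 by
          rw [show (4 : ℝ) = 2 ^ 2 by norm_num]; rw [Real.sqrt_sq (by norm_num)],
          ← Real.sqrt_mul (by norm_num)]
        apply Real.abs_le_sqrt
        rw [mul_div_assoc', le_div_iff₀ hl2]
        linarith
      rw [abs_le] at r1 r2
      exact ⟨⟨by linarith [r1.1], by linarith [r1.2]⟩, ⟨by linarith [r2.1], by linarith [r2.2]⟩⟩
    refine (measure_mono hsub).trans ?_
    rw [Measure.volume_eq_prod, Measure.prod_prod, Real.volume_Icc, Real.volume_Icc,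
      ← ENNReal.ofReal_mul (by
        have := Real.sqrt_nonneg ((b - m + η) / l1)
        linarith)]
    apply ENNReal.ofReal_le_ofReal
    rw [← shell_area l1 l2 _ hl1 hl2 hc]
    apply le_of_eq
    ring
  have hsq : 0 < Real.sqrt (l1 * l2) := Real.sqrt_pos.2 (mul_pos hl1 hl2)
  by_cases hmb : m ≤ b
  swap
  · have : {p | p ∈ Q ∧ a < h p ∧ h p ≤ b} = ∅ := by
      ext p
      simp only [Set.mem_setOf_eq, Set.mem_empty_iff_false, iff_false]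
      rintro ⟨hp, -, h6⟩
      exact hmb ((hmle p hp).trans h6)
    rw [this]
    simp
  by_cases ham : a ≤ m
  · obtain ⟨q, hq, hqη⟩ := hmex (b - a) (by linarith)
    refine (measure_mono ?_).trans ((harea q hq (b - a) (by linarith) hqη hmb).trans ?_)
    · rintro p ⟨h7, -, h8⟩
      exact ⟨h7, h8⟩
    · apply ENNReal.ofReal_le_ofReal
      apply div_le_div_of_nonneg_right _ hsq.le
      linarith
  push Not at ham
  obtain ⟨η, hη⟩ : ∃ η, η = min ((b - a) / 4) (a - m) := ⟨_, rfl⟩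
  have hη0 : 0 < η := by rw [hη]; exact lt_min (by linarith) (by linarith)
  have hη1 : η ≤ (b - a) / 4 := by rw [hη]; exact min_le_left _ _
  have hη2 : η ≤ a - m := by rw [hη]; exact min_le_right _ _
  obtain ⟨q, hq, hqη⟩ := hmex η hη0
  have hqm := hmle q hq
  have har := harea q hq η hη0 hqη hmb
  have hden : 0 < b - h q := by linarith
  obtain ⟨ρ, hρ⟩ : ∃ ρ, ρ = (a - h q) / (b - h q) := ⟨_, rfl⟩
  have hρ0 : 0 < ρ := by rw [hρ]; apply div_pos <;> linarith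
  have hρ1 : ρ < 1 := by rw [hρ, div_lt_one hden]; linarith
  have hρe : ρ * (b - h q) = a - h q := by rw [hρ]; field_simp
  -- convexity of the smaller sublevel set
  have hSaconv : Convex ℝ {p | p ∈ Q ∧ h p ≤ a} := by
    rintro p ⟨hp, hpa⟩ p' ⟨hp', hpa'⟩ s t hs ht hst
    obtain ⟨k1, k2⟩ := key p hp p' hp' s t hs ht hst
    refine ⟨k1, k2.trans ?_⟩
    have hs1 : 0 ≤ s * t / 2 * (l1 * (p.1 - p'.1) ^ 2 + l2 * (p.2 - p'.2) ^ 2) := by positivity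
    have hs2 : s * h p ≤ s * a := mul_le_mul_of_nonneg_left hpa hs
    have hs3 : t * h p' ≤ t * a := mul_le_mul_of_nonneg_left hpa' ht
    have hs4 : s * a + t * a = a := by rw [← add_mul, hst, one_mul]
    linarith
  have hSanull : NullMeasurableSet {p | p ∈ Q ∧ h p ≤ a} volume :=
    nullMeasurableSet_of_null_frontier (hSaconv.addHaar_frontier volume)
  have hsub : {p | p ∈ Q ∧ h p ≤ a} ⊆ {p | p ∈ Q ∧ h p ≤ b} := by
    rintro p ⟨h7, h8⟩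
    exact ⟨h7, h8.trans hab.le⟩
  have hbfin : volume {p | p ∈ Q ∧ h p ≤ b} ≠ ⊤ := (har.trans_lt ENNReal.ofReal_lt_top).ne
  have hafin : volume {p | p ∈ Q ∧ h p ≤ a} ≠ ⊤ := ((measure_mono hsub).trans_lt
    (lt_top_iff_ne_top.2 hbfin)).ne
  have himg : AffineMap.homothety q ρ '' {p | p ∈ Q ∧ h p ≤ b} ⊆ {p | p ∈ Q ∧ h p ≤ a} := by
    rintro _ ⟨p, ⟨hp, hpb⟩, rfl⟩
    have e : AffineMap.homothety q ρ p = ρ • p + (1 - ρ) • q := by
      rw [AffineMap.homothety_apply, vsub_eq_sub, vadd_eq_add, smul_sub, sub_smul, one_smul]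
      abel
    rw [e]
    obtain ⟨k1, k2⟩ := key p hp q hq ρ (1 - ρ) hρ0.le (by linarith) (by ring)
    refine ⟨k1, k2.trans ?_⟩
    have hs1 : 0 ≤ ρ * (1 - ρ) / 2 * (l1 * (p.1 - q.1) ^ 2 + l2 * (p.2 - q.2) ^ 2) := by
      have : 0 ≤ 1 - ρ := by linarith
      positivity
    have hs2 : ρ * h p ≤ ρ * b := mul_le_mul_of_nonneg_left hpb hρ0.le
    nlinarith
  have hvol := measure_mono (μ := volume) himg
  rw [Measure.addHaar_image_homothety] at hvol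
  have hfr : Module.finrank ℝ (ℝ × ℝ) = 2 := by simp
  rw [hfr, abs_of_nonneg (by positivity)] at hvol
  have hE : {p | p ∈ Q ∧ a < h p ∧ h p ≤ b} ⊆
      {p | p ∈ Q ∧ h p ≤ b} \ {p | p ∈ Q ∧ h p ≤ a} := by
    rintro p ⟨h7, h8, h9⟩
    refine ⟨⟨h7, h9⟩, ?_⟩
    rintro ⟨-, h10⟩
    linarith
  refine (measure_mono hE).trans ?_
  rw [measure_diff hsub hSanull hafin]
  obtain ⟨vb, hvb⟩ : ∃ vb : ℝ, vb = (volume {p | p ∈ Q ∧ h p ≤ b}).toReal := ⟨_, rfl⟩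
  have hvb' : volume {p | p ∈ Q ∧ h p ≤ b} = ENNReal.ofReal vb := by
    rw [hvb, ENNReal.ofReal_toReal hbfin]
  have hvb0 : 0 ≤ vb := by rw [hvb]; exact ENNReal.toReal_nonneg
  have hc0 : 0 ≤ 16 * (b - m + η) / Real.sqrt (l1 * l2) := by
    apply div_nonneg _ hsq.le
    linarith
  have hvble : vb ≤ 16 * (b - m + η) / Real.sqrt (l1 * l2) := by
    rw [hvb'] at har
    exact (ENNReal.ofReal_le_ofReal_iff hc0).1 har
  have hfinal : volume {p | p ∈ Q ∧ h p ≤ b} - volume {p | p ∈ Q ∧ h p ≤ a} ≤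
      ENNReal.ofReal vb - ENNReal.ofReal (ρ ^ 2) * ENNReal.ofReal vb := by
    rw [← hvb']
    exact tsub_le_tsub_left hvol _
  refine hfinal.trans ?_
  rw [← ENNReal.ofReal_mul (by positivity), ← ENNReal.ofReal_sub _ (by positivity)]
  apply ENNReal.ofReal_le_ofReal
  have e1 : vb - ρ ^ 2 * vb = (1 - ρ) * (1 + ρ) * vb := by ring
  have e2 : (1 - ρ) * (b - h q) = b - a := by
    rw [sub_mul, hρe]; ring
  have e3 : (1 + ρ) * (b - m + η) ≤ 2 * (b - h q) := by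
    -- `(1+ρ)(b-m+η) ≤ 2 (b - h q)`
    have hδ : h q - m ≤ η := by linarith
    have h11 : (1 + ρ) * (b - h q) = (b - h q) + (a - h q) := by rw [add_mul, hρe, one_mul]
    have h12 : (1 + ρ) * (b - m + η) = (1 + ρ) * (b - h q) + (1 + ρ) * (h q - m + η) := by ring
    have h13 : (1 + ρ) * (h q - m + η) ≤ 2 * (h q - m + η) := by
      apply mul_le_mul_of_nonneg_right <;> linarith
    linarith
  have h14 : 0 ≤ (1 - ρ) * (1 + ρ) := mul_nonneg (by linarith) (by linarith)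
  calc vb - ρ ^ 2 * vb = (1 - ρ) * (1 + ρ) * vb := e1
    _ ≤ (1 - ρ) * (1 + ρ) * (16 * (b - m + η) / Real.sqrt (l1 * l2)) :=
        mul_le_mul_of_nonneg_left hvble h14
    _ = 16 * (1 - ρ) * ((1 + ρ) * (b - m + η)) / Real.sqrt (l1 * l2) := by ring
    _ ≤ 16 * (1 - ρ) * (2 * (b - h q)) / Real.sqrt (l1 * l2) := by
        apply div_le_div_of_nonneg_right _ hsq.le
        apply mul_le_mul_of_nonneg_left e3
        linarith
    _ = 32 * ((1 - ρ) * (b - h q)) / Real.sqrt (l1 * l2) := by ring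
    _ = 32 * (b - a) / Real.sqrt (l1 * l2) := by rw [e2]

end Pool.Agent.FlatRes
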