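import Pool.Agent.Lib.MP_40a0b6_an.Cover
import Pool.Agent.Lib.MP_40a0b6_an.Shell
set_option autoImplicit false
open MeasureTheory
open scoped ENNReal FourierTransform SchwartzMap
namespace Pool.Agent.FlatRes

/-- one choice of covering intervals -/
private theorem Hyp2_one (Ψ : ℝ × ℝ → ℝ) (hΨ : Measurable Ψ) (M : ℝ) (hb : ∀ x, |Ψ x| ≤ M)
    (I1 I2 I3 : Set ℝ) (hI1 : I1.OrdConnected) (hI2 : I2.OrdConnected)
    (hI3 : I3.OrdConnected) (u1 u2 u3 Y l1 l2 l3 : ℝ) (hl1 : 0 < l1) (hl2 : 0 < l2) (hl3 : 0 < l3)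
    (h1 : StrongConvexOn I1 l1 (fun v => Ψ (u1, v)))
    (h2 : StrongConvexOn I2 l2 (fun v => Ψ (u2, v)))
    (h3 : StrongConvexOn I3 l3 (fun v => Ψ (u3, v))) (A : Set ℝ) (hA : MeasurableSet A) :
    volume {p : ℝ × ℝ | p.1 ∈ I1 ∧ p.2 ∈ I2 ∧ Y - p.1 - p.2 ∈ I3 ∧
        Ψ (u1, p.1) + Ψ (u2, p.2) + Ψ (u3, Y - p.1 - p.2) ∈ A} ≤
      ENNReal.ofReal (32 / Real.sqrt (l1 * l2)) * volume A := by
  let h : ℝ × ℝ → ℝ := fun p => Ψ (u1, p.1) + Ψ (u2, p.2) + Ψ (u3, Y - p.1 - p.2)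
  have hm : Measurable h := by
    have e1 : Measurable (fun p : ℝ × ℝ => Ψ (u1, p.1)) :=
      hΨ.comp (measurable_const.prodMk measurable_fst)
    have e2 : Measurable (fun p : ℝ × ℝ => Ψ (u2, p.2)) :=
      hΨ.comp (measurable_const.prodMk measurable_snd)
    have e3 : Measurable (fun p : ℝ × ℝ => Ψ (u3, Y - p.1 - p.2)) :=
      hΨ.comp (measurable_const.prodMk ((measurable_const.sub measurable_fst).sub measurable_snd))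
    exact (e1.add e2).add e3
  let Q : Set (ℝ × ℝ) := {p | p.1 ∈ I1 ∧ p.2 ∈ I2 ∧ Y - p.1 - p.2 ∈ I3}
  have hQ : MeasurableSet Q := by
    have e1 : MeasurableSet {p : ℝ × ℝ | p.1 ∈ I1} := measurable_fst hI1.measurableSet
    have e2 : MeasurableSet {p : ℝ × ℝ | p.2 ∈ I2} := measurable_snd hI2.measurableSet
    have e3 : MeasurableSet {p : ℝ × ℝ | Y - p.1 - p.2 ∈ I3} :=
      ((measurable_const.sub measurable_fst).sub measurable_snd) hI3.measurableSet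
    exact e1.inter (e2.inter e3)
  have key : ∀ B : Set ℝ, MeasurableSet B → ((volume.restrict Q).map h) B =
      volume {p : ℝ × ℝ | p.1 ∈ I1 ∧ p.2 ∈ I2 ∧ Y - p.1 - p.2 ∈ I3 ∧
        Ψ (u1, p.1) + Ψ (u2, p.2) + Ψ (u3, Y - p.1 - p.2) ∈ B} := by
    intro B hB
    rw [Measure.map_apply hm hB, Measure.restrict_apply (hm hB)]
    congr 1
    ext p
    constructor
    · rintro ⟨q1, q2, q3, q4⟩
      exact ⟨q2, q3, q4, q1⟩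
    · rintro ⟨q2, q3, q4, q1⟩
      exact ⟨q1, q2, q3, q4⟩
  rw [← key A hA]
  refine measure_le_of_Ioc _ _ ENNReal.ofReal_ne_top (fun a b hab => ?_) A
  rw [key _ measurableSet_Ioc]
  have hc3 : ConvexOn ℝ I3 (fun v => Ψ (u3, v)) := (h3.strictConvexOn hl3).convexOn
  have hlow : ∀ x, -M ≤ Ψ x := fun x => (abs_le.1 (hb x)).1
  refine (convex_shell I1 I2 I3 hI1 hI2 hI3 (fun v => Ψ (u1, v)) (fun v => Ψ (u2, v))
    (fun v => Ψ (u3, v)) l1 l2 hl1 hl2 h1 h2 hc3 (-M) (fun x _ => hlow _) (fun x _ => hlow _)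
    (fun x _ => hlow _) Y a b hab).trans ?_
  rw [← ENNReal.ofReal_mul (by positivity)]
  apply le_of_eq
  congr 1
  ring

/-- JOB G.  The hypothesis `H2` of `dens3`, `dens4` for sets with convex slices.
Fix `u1,u2,u3,Y`; for each choice `(i,j,k) ∈ (Fin N)^3` of covering intervals `I_i, J_j, L_k` apply
`convex_shell` and `measure_le_of_Ioc` (to the image of `volume` restricted to
`{p | p.1 ∈ I_i, p.2 ∈ J_j, Y-p.1-p.2 ∈ L_k}` (order connected sets are measurable) under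
`p ↦ Ψ(u1,p.1)+Ψ(u2,p.2)+Ψ(u3,Y-p.1-p.2)`), and add up the `N^3` bounds. -/
theorem hyp2 (Ψ : ℝ × ℝ → ℝ) (hΨ : Measurable Ψ) (hb : ∃ M : ℝ, ∀ x, |Ψ x| ≤ M)
    (Ω1 Ω2 Ω3 : Set (ℝ × ℝ)) (N : ℕ) (l1 l2 l3 : ℝ) (hl1 : 0 < l1) (hl2 : 0 < l2) (hl3 : 0 < l3)
    (c1 : ConvSlices Ψ Ω1 N l1) (c2 : ConvSlices Ψ Ω2 N l2) (c3 : ConvSlices Ψ Ω3 N l3)
    (u1 u2 u3 Y : ℝ) (A : Set ℝ) (hA : MeasurableSet A) :
    volume {p : ℝ × ℝ | (u1, p.1) ∈ Ω1 ∧ (u2, p.2) ∈ Ω2 ∧ (u3, Y - p.1 - p.2) ∈ Ω3 ∧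
        Ψ (u1, p.1) + Ψ (u2, p.2) + Ψ (u3, Y - p.1 - p.2) ∈ A} ≤
      (N : ℝ≥0∞) ^ 3 * ENNReal.ofReal (32 / Real.sqrt (l1 * l2)) * volume A := by
  obtain ⟨M, hM⟩ := hb
  obtain ⟨I, hI, hIc⟩ := c1 u1
  obtain ⟨J, hJ, hJc⟩ := c2 u2
  obtain ⟨K, hK, hKc⟩ := c3 u3
  let T : Fin N × Fin N × Fin N → Set (ℝ × ℝ) := fun t =>
    {p : ℝ × ℝ | p.1 ∈ I t.1 ∧ p.2 ∈ J t.2.1 ∧ Y - p.1 - p.2 ∈ K t.2.2 ∧
      Ψ (u1, p.1) + Ψ (u2, p.2) + Ψ (u3, Y - p.1 - p.2) ∈ A}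
  have hsub : {p : ℝ × ℝ | (u1, p.1) ∈ Ω1 ∧ (u2, p.2) ∈ Ω2 ∧ (u3, Y - p.1 - p.2) ∈ Ω3 ∧
        Ψ (u1, p.1) + Ψ (u2, p.2) + Ψ (u3, Y - p.1 - p.2) ∈ A} ⊆ ⋃ t, T t := by
    rintro p ⟨q1, q2, q3, q4⟩
    obtain ⟨i, hi⟩ := Set.mem_iUnion.1 (hIc q1)
    obtain ⟨j, hj⟩ := Set.mem_iUnion.1 (hJc q2)
    obtain ⟨l, hl⟩ := Set.mem_iUnion.1 (hKc q3)
    exact Set.mem_iUnion.2 ⟨(i, j, l), hi, hj, hl, q4⟩
  have hT : ∀ t, volume (T t) ≤ ENNReal.ofReal (32 / Real.sqrt (l1 * l2)) * volume A := fun t =>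
    Hyp2_one Ψ hΨ M hM (I t.1) (J t.2.1) (K t.2.2) (hI _).1 (hJ _).1 (hK _).1 u1 u2 u3 Y l1 l2 l3
      hl1 hl2 hl3 (hI _).2 (hJ _).2 (hK _).2 A hA
  refine (measure_mono hsub).trans ((measure_iUnion_fintype_le _ _).trans ?_)
  refine (Finset.sum_le_sum (fun t _ => hT t)).trans ?_
  rw [Finset.sum_const, Finset.card_univ, Fintype.card_prod, Fintype.card_prod, Fintype.card_fin,
    nsmul_eq_mul]
  apply le_of_eq
  push_cast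
  ring

/-- the same with the moduli `l1, l3`: the shear `(p.1,p.2) ↦ (p.1, Y-p.1-p.2)` preserves volume and
exchanges the roles of the second and third set. -/
theorem hyp2' (Ψ : ℝ × ℝ → ℝ) (hΨ : Measurable Ψ) (hb : ∃ M : ℝ, ∀ x, |Ψ x| ≤ M)
    (Ω1 Ω2 Ω3 : Set (ℝ × ℝ)) (N : ℕ) (l1 l2 l3 : ℝ) (hl1 : 0 < l1) (hl2 : 0 < l2) (hl3 : 0 < l3)
    (c1 : ConvSlices Ψ Ω1 N l1) (c2 : ConvSlices Ψ Ω2 N l2) (c3 : ConvSlices Ψ Ω3 N l3)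
    (u1 u2 u3 Y : ℝ) (A : Set ℝ) (hA : MeasurableSet A) :
    volume {p : ℝ × ℝ | (u1, p.1) ∈ Ω1 ∧ (u2, p.2) ∈ Ω2 ∧ (u3, Y - p.1 - p.2) ∈ Ω3 ∧
        Ψ (u1, p.1) + Ψ (u2, p.2) + Ψ (u3, Y - p.1 - p.2) ∈ A} ≤
      (N : ℝ≥0∞) ^ 3 * ENNReal.ofReal (32 / Real.sqrt (l1 * l3)) * volume A := by
  have hsh : MeasurePreserving (fun p : ℝ × ℝ => (p.1, Y - p.1 - p.2)) volume volume := by
    have h0 : MeasurePreserving (id : ℝ → ℝ) volume volume := MeasurePreserving.id _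
    have h1 := h0.skew_product (μc := (volume : Measure ℝ)) (μd := (volume : Measure ℝ))
      (g := fun x y => Y - x - y)
      ((measurable_const.sub measurable_fst).sub measurable_snd)
      (Filter.Eventually.of_forall
        (fun x => (Measure.measurePreserving_sub_left (volume : Measure ℝ) (Y - x)).map_eq))
    exact h1
  have hsub : {p : ℝ × ℝ | (u1, p.1) ∈ Ω1 ∧ (u2, p.2) ∈ Ω2 ∧ (u3, Y - p.1 - p.2) ∈ Ω3 ∧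
        Ψ (u1, p.1) + Ψ (u2, p.2) + Ψ (u3, Y - p.1 - p.2) ∈ A} ⊆
      (fun p : ℝ × ℝ => (p.1, Y - p.1 - p.2)) ⁻¹'
        {p : ℝ × ℝ | (u1, p.1) ∈ Ω1 ∧ (u3, p.2) ∈ Ω3 ∧ (u2, Y - p.1 - p.2) ∈ Ω2 ∧
        Ψ (u1, p.1) + Ψ (u3, p.2) + Ψ (u2, Y - p.1 - p.2) ∈ A} := by
    rintro ⟨x, y⟩ ⟨q1, q2, q3, q4⟩
    dsimp only at q1 q2 q3 q4
    have e : Y - x - (Y - x - y) = y := by ring
    refine ⟨q1, q3, ?_, ?_⟩
    · show (u2, Y - x - (Y - x - y)) ∈ Ω2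
      rw [e]
      exact q2
    · show Ψ (u1, x) + Ψ (u3, Y - x - y) + Ψ (u2, Y - x - (Y - x - y)) ∈ A
      rw [e]
      have e2 : Ψ (u1, x) + Ψ (u3, Y - x - y) + Ψ (u2, y) =
          Ψ (u1, x) + Ψ (u2, y) + Ψ (u3, Y - x - y) := by ring
      rw [e2]
      exact q4
  refine (measure_mono hsub).trans ?_
  refine (Measure.le_map_apply hsh.measurable.aemeasurable _).trans ?_
  rw [hsh.map_eq]
  exact hyp2 Ψ hΨ hb Ω1 Ω3 Ω2 N l1 l3 l2 hl1 hl3 hl2 c1 c3 c2 u1 u3 u2 Y A hA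

end Pool.Agent.FlatRes
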