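import Pool.Agent.Lib.MP_40a0b6_an.Shell
set_option autoImplicit false
open MeasureTheory
open scoped ENNReal FourierTransform SchwartzMap
namespace Pool.Agent.FlatRes

/-- JOB H.  The window estimate for the curve `γ`: apply `convex_shell` to `F1=F2=F3 = e γ` on
`I = (K/2,K] ∩ (-∞,a)` and the interval `(± c - τ - η, ± c + τ]`, then `η → 0`. -/
theorem window (γ : ℝ → ℝ) (a K μ0 e : ℝ) (he : e = 1 ∨ e = -1) (hμ : 0 < μ0)
    (hb : ∃ M : ℝ, ∀ u, |γ u| ≤ M)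
    (hc : StrongConvexOn (Set.Ioc (K / 2) K ∩ Set.Iio a) μ0 (fun u => e * γ u))
    (Z c τ : ℝ) (hτ : 0 ≤ τ) :
    volume {p : ℝ × ℝ | p.1 ∈ Set.Ioc (K / 2) K ∩ Set.Iio a ∧
      p.2 ∈ Set.Ioc (K / 2) K ∩ Set.Iio a ∧ Z - p.1 - p.2 ∈ Set.Ioc (K / 2) K ∩ Set.Iio a ∧
      |γ p.1 + γ p.2 + γ (Z - p.1 - p.2) - c| ≤ τ} ≤ ENNReal.ofReal (64 * τ / μ0) := by
  obtain ⟨M, hM⟩ := hb
  set I : Set ℝ := Set.Ioc (K / 2) K ∩ Set.Iio a with hI
  have hIo : I.OrdConnected := Set.ordConnected_Ioc.inter Set.ordConnected_Iio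
  have hconv : ConvexOn ℝ I (fun u => e * γ u) := strongConvexOn_zero.mp (hc.mono hμ.le)
  have hlow : ∀ x ∈ I, -M ≤ e * γ x := by
    intro x _
    have h1 := abs_le.mp (hM x)
    rcases he with rfl | rfl
    · linarith [h1.1]
    · linarith [h1.2]
  set S : Set (ℝ × ℝ) := {p : ℝ × ℝ | p.1 ∈ I ∧ p.2 ∈ I ∧ Z - p.1 - p.2 ∈ I ∧
      |γ p.1 + γ p.2 + γ (Z - p.1 - p.2) - c| ≤ τ} with hS
  have key : ∀ η : ℝ, 0 < η → volume S ≤ ENNReal.ofReal (32 * (2 * τ + η) / μ0) := by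
    intro η hη
    have h1 := convex_shell I I I hIo hIo hIo (fun u => e * γ u) (fun u => e * γ u)
      (fun u => e * γ u) μ0 μ0 hμ hμ hc hc hconv (-M) hlow hlow hlow Z (e * c - τ - η) (e * c + τ)
      (by linarith)
    rw [Real.sqrt_mul_self hμ.le] at h1
    have h2 : e * c + τ - (e * c - τ - η) = 2 * τ + η := by ring
    rw [h2] at h1
    refine (measure_mono ?_).trans h1
    rintro p ⟨hp1, hp2, hp3, hp4⟩
    refine ⟨hp1, hp2, hp3, ?_⟩
    rw [abs_le] at hp4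
    rw [Set.mem_Ioc]
    rcases he with rfl | rfl
    · constructor <;> linarith [hp4.1, hp4.2]
    · constructor <;> linarith [hp4.1, hp4.2]
  have hlim : Filter.Tendsto (fun η : ℝ => ENNReal.ofReal (32 * (2 * τ + η) / μ0))
      (nhdsWithin 0 (Set.Ioi 0)) (nhds (ENNReal.ofReal (64 * τ / μ0))) := by
    have h1 : Continuous (fun η : ℝ => ENNReal.ofReal (32 * (2 * τ + η) / μ0)) := by
      refine ENNReal.continuous_ofReal.comp ?_
      exact (continuous_const.mul (continuous_const.add continuous_id)).div_const _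
    have h2 := (h1.tendsto 0).mono_left (nhdsWithin_le_nhds (s := Set.Ioi (0 : ℝ)))
    have h3 : 32 * (2 * τ + 0) / μ0 = 64 * τ / μ0 := by ring
    rw [h3] at h2
    exact h2
  refine ge_of_tendsto hlim ?_
  filter_upwards [self_mem_nhdsWithin] with η hη
  exact key η hη

end Pool.Agent.FlatRes
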