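import Pool.Agent.Lib.MP_40a0b6_an.LemB
import Pool.Agent.Lib.MP_40a0b6_an.Dens4
import Pool.Agent.Lib.MP_40a0b6_an.Hyp2
import Pool.Agent.Lib.MP_40a0b6_an.Window
set_option autoImplicit false
open MeasureTheory
open scoped ENNReal FourierTransform SchwartzMap
namespace Pool.Agent.FlatRes

theorem eight_gpt_measurable {Ψ : ℝ × ℝ → ℝ} (hΨ : Measurable Ψ) : Measurable (gpt Ψ) := by
  unfold gpt
  refine (WithLp.measurable_toLp 2 (Fin 3 → ℝ)).comp ?_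
  rw [measurable_pi_iff]
  intro i
  fin_cases i
  · exact measurable_fst
  · exact measurable_snd
  · exact hΨ

theorem eight_finite {Ψ : ℝ × ℝ → ℝ} {γ : ℝ → ℝ} {Ω : Set (ℝ × ℝ)} {N : ℕ} {K B W lam : ℝ}
    (hbγ : ∃ M : ℝ, ∀ u, |γ u| ≤ M) (hP : Piece Ψ γ Ω N K B W lam) : volume Ω < ⊤ := by
  obtain ⟨M, hM⟩ := hbγ
  have h1 : Ω ⊆ Set.Icc (K / 2) K ×ˢ Set.Icc (-M) (M + B) := by
    intro x hx
    have h2 := hP.uran x hx
    have h3 := hP.yran x hx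
    have h4 := abs_le.1 (hM x.1)
    exact ⟨⟨h2.1.le, h2.2⟩, ⟨by linarith [h3.1, h4.1], by linarith [h3.2, h4.2]⟩⟩
  exact (measure_mono h1).trans_lt (isCompact_Icc.prod isCompact_Icc).measure_lt_top

/-- an order connected set of volume at most `W` lies in an interval of length `W`. -/
theorem eight_interval {I : Set ℝ} (hI : I.OrdConnected) {W : ℝ} (hW : 0 ≤ W)
    (hv : volume I ≤ ENNReal.ofReal W) : ∃ c : ℝ, ∀ x ∈ I, c ≤ x ∧ x ≤ c + W := by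
  have h1 : ∀ x ∈ I, ∀ y ∈ I, y - x ≤ W := by
    intro x hx y hy
    rcases le_total x y with h | h
    · have h2 : Set.Icc x y ⊆ I := hI.out hx hy
      have h3 := (measure_mono h2).trans hv
      rw [Real.volume_Icc] at h3
      exact (ENNReal.ofReal_le_ofReal_iff hW).1 h3
    · linarith
  rcases I.eq_empty_or_nonempty with h | ⟨z, hz⟩
  · exact ⟨0, fun x hx => by rw [h] at hx; exact absurd hx (Set.notMem_empty x)⟩
  · have hb : BddBelow I := ⟨z - W, fun x hx => by linarith [h1 x hx z hz]⟩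
    refine ⟨sInf I, fun x hx => ⟨csInf_le hb hx, ?_⟩⟩
    have h2 : x - W ≤ sInf I := le_csInf ⟨z, hz⟩ fun y hy => by linarith [h1 y hy x hx]
    linarith

/-- JOB J.  `L⁸`-type bound of two inner pieces (three copies of the first, one of the second).
`eight_of_density` and `dens4` with `w = N W` (`ShortSlices`), `k = K'`, `d = N³·32·min(1/lam, 1/√(lam lam'))`
(`hyp2`, `hyp2'`), `e = 32 N (3B+W')/μ0`: for fixed `u4` cover the slice of `Ω'` over `u4` by `N` intervals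
of length `≤ W'`, each contained in some `[c, c+W']`; if `v4 ∈ [c,c+W']`, `0 < v_j-γ(u_j) ≤ B` (`j ≤ 3`) and
`Σ v = z2` then `Σ_{j≤3} γ(u_j) ∈ [z2-c-W'-3B, z2-c]`, so `window` with `τ = (3B+W')/2` applies.
(`u1,u2,u3` are in `(K/2,K] ∩ (-∞,a)`.) -/
theorem eight_piece (Ψ : ℝ × ℝ → ℝ) (γ : ℝ → ℝ) (Ω Ω' : Set (ℝ × ℝ)) (N : ℕ)
    (a K B W lam K' B' W' lam' μ0 e : ℝ)
    (hΨ : Measurable Ψ) (hγ : Measurable γ) (hbΨ : ∃ M : ℝ, ∀ x, |Ψ x| ≤ M)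
    (hbγ : ∃ M : ℝ, ∀ u, |γ u| ≤ M) (hK : 0 < K) (hB : 0 < B) (hW : 0 < W) (hlam : 0 < lam)
    (hK' : 0 < K') (hB' : 0 < B') (hW' : 0 < W') (hlam' : 0 < lam') (hμ : 0 < μ0)
    (he : e = 1 ∨ e = -1)
    (hc : StrongConvexOn (Set.Ioc (K / 2) K ∩ Set.Iio a) μ0 (fun u => e * γ u))
    (hP : Piece Ψ γ Ω N K B W lam) (ha : ∀ x ∈ Ω, x.1 < a)
    (hP' : Piece Ψ γ Ω' N K' B' W' lam') (h h' : ℝ × ℝ → ℂ) (hh : BddMeas h) (hh' : BddMeas h') :
    ∫⁻ ξ, ‖extOn Ψ Ω h ξ‖ₑ ^ (6 : ℕ) * ‖extOn Ψ Ω' h' ξ‖ₑ ^ (2 : ℕ) ≤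
      ENNReal.ofReal (1024 * N ^ 5 * (K' * W * (3 * B + W') / μ0) *
        min (1 / lam) (1 / Real.sqrt (lam * lam'))) * (mass Ω h) ^ (3 : ℕ) * mass Ω' h' := by
  classical
  have f1 : volume Ω < ⊤ := eight_finite hbγ hP
  have f2 : volume Ω' < ⊤ := eight_finite hbγ hP'
  have i1 : IsFiniteMeasure (volume.restrict Ω) := ⟨by rwa [Measure.restrict_apply_univ]⟩
  have i2 : IsFiniteMeasure (volume.restrict Ω') := ⟨by rwa [Measure.restrict_apply_univ]⟩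
  have hsq : Real.sqrt (lam * lam) = lam := Real.sqrt_mul_self hlam.le
  have hmin : 0 < min (1 / lam) (1 / Real.sqrt (lam * lam')) := by
    apply lt_min (by positivity)
    have : 0 < Real.sqrt (lam * lam') := Real.sqrt_pos.2 (mul_pos hlam hlam')
    positivity
  set mn := min (1 / lam) (1 / Real.sqrt (lam * lam')) with hmn
  -- the four hypotheses of `dens4`
  have hw : ∀ u : ℝ, volume (slice Ω u) ≤ (N : ℝ≥0∞) * ENNReal.ofReal W := by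
    intro u
    obtain ⟨I, hI, hcov⟩ := hP.shrt u
    calc volume (slice Ω u) ≤ volume (⋃ i, I i) := measure_mono hcov
      _ ≤ ∑ i, volume (I i) := measure_iUnion_fintype_le _ _
      _ ≤ ∑ _i : Fin N, ENNReal.ofReal W := Finset.sum_le_sum fun i _ => (hI i).2
      _ = (N : ℝ≥0∞) * ENNReal.ofReal W := by
          rw [Finset.sum_const, Finset.card_univ, Fintype.card_fin, nsmul_eq_mul]
  have hk : volume {u : ℝ | (slice Ω' u).Nonempty} ≤ ENNReal.ofReal K' := by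
    have h1 : {u : ℝ | (slice Ω' u).Nonempty} ⊆ Set.Ioc (K' / 2) K' := by
      rintro u ⟨v, hv⟩
      exact hP'.uran (u, v) hv
    refine (measure_mono h1).trans ?_
    rw [Real.volume_Ioc]
    exact ENNReal.ofReal_le_ofReal (by linarith)
  have H2 : ∀ u2 u3 u4 Y : ℝ, ∀ A : Set ℝ, MeasurableSet A →
      volume {p : ℝ × ℝ | (u2, p.1) ∈ Ω ∧ (u3, p.2) ∈ Ω ∧ (u4, Y - p.1 - p.2) ∈ Ω' ∧
        Ψ (u2, p.1) + Ψ (u3, p.2) + Ψ (u4, Y - p.1 - p.2) ∈ A} ≤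
        ((N : ℝ≥0∞) ^ 3 * ENNReal.ofReal (32 * mn)) * volume A := by
    intro u2 u3 u4 Y A hA
    have e1 := hyp2 Ψ hΨ hbΨ Ω Ω Ω' N lam lam lam' hlam hlam hlam' hP.conv hP.conv hP'.conv
      u2 u3 u4 Y A hA
    have e2 := hyp2' Ψ hΨ hbΨ Ω Ω Ω' N lam lam lam' hlam hlam hlam' hP.conv hP.conv hP'.conv
      u2 u3 u4 Y A hA
    rw [hsq] at e1
    rcases le_total (1 / lam) (1 / Real.sqrt (lam * lam')) with h | h
    · rw [hmn, min_eq_left h, mul_one_div]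
      exact e1
    · rw [hmn, min_eq_right h, mul_one_div]
      exact e2
  have H3 : ∀ u4 z1 z2 : ℝ, volume {p : ℝ × ℝ | ∃ v1 v2 v3 : ℝ, (p.1, v1) ∈ Ω ∧
      (p.2, v2) ∈ Ω ∧ (z1 - p.1 - p.2, v3) ∈ Ω ∧ (u4, z2 - v1 - v2 - v3) ∈ Ω'} ≤
      (N : ℝ≥0∞) * ENNReal.ofReal (32 * (3 * B + W') / μ0) := by
    intro u4 z1 z2
    obtain ⟨I, hI, hcov⟩ := hP'.shrt u4
    choose c hcI using fun i => eight_interval (hI i).1 hW'.le (hI i).2
    have hsub : {p : ℝ × ℝ | ∃ v1 v2 v3 : ℝ, (p.1, v1) ∈ Ω ∧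
        (p.2, v2) ∈ Ω ∧ (z1 - p.1 - p.2, v3) ∈ Ω ∧ (u4, z2 - v1 - v2 - v3) ∈ Ω'} ⊆
        ⋃ i : Fin N, {p : ℝ × ℝ | p.1 ∈ Set.Ioc (K / 2) K ∩ Set.Iio a ∧
          p.2 ∈ Set.Ioc (K / 2) K ∩ Set.Iio a ∧ z1 - p.1 - p.2 ∈ Set.Ioc (K / 2) K ∩ Set.Iio a ∧
          |γ p.1 + γ p.2 + γ (z1 - p.1 - p.2) - (z2 - c i - (3 * B + W') / 2)| ≤
            (3 * B + W') / 2} := by
      rintro p ⟨v1, v2, v3, g1, g2, g3, g4⟩
      obtain ⟨i, hi⟩ := Set.mem_iUnion.1 (hcov g4)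
      have h4 := hcI i _ hi
      refine Set.mem_iUnion.2 ⟨i, ⟨hP.uran (p.1, v1) g1, ha (p.1, v1) g1⟩,
        ⟨hP.uran (p.2, v2) g2, ha (p.2, v2) g2⟩,
        ⟨hP.uran (z1 - p.1 - p.2, v3) g3, ha (z1 - p.1 - p.2, v3) g3⟩, ?_⟩
      have y1 : 0 < v1 - γ p.1 ∧ v1 - γ p.1 ≤ B := hP.yran (p.1, v1) g1
      have y2 : 0 < v2 - γ p.2 ∧ v2 - γ p.2 ≤ B := hP.yran (p.2, v2) g2
      have y3 : 0 < v3 - γ (z1 - p.1 - p.2) ∧ v3 - γ (z1 - p.1 - p.2) ≤ B :=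
        hP.yran (z1 - p.1 - p.2, v3) g3
      rw [abs_le]
      constructor <;> linarith [y1.1, y1.2, y2.1, y2.2, y3.1, y3.2, h4.1, h4.2]
    refine (measure_mono hsub).trans ((measure_iUnion_fintype_le _ _).trans ?_)
    calc _ ≤ ∑ _i : Fin N, ENNReal.ofReal (64 * ((3 * B + W') / 2) / μ0) :=
          Finset.sum_le_sum fun i _ => window γ a K μ0 e he hμ hbγ hc z1 _ _ (by positivity)
      _ = (N : ℝ≥0∞) * ENNReal.ofReal (32 * (3 * B + W') / μ0) := by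
          rw [Finset.sum_const, Finset.card_univ, Fintype.card_fin, nsmul_eq_mul]
          congr 2
          ring
  have hD := dens4 Ψ hΨ Ω Ω' hP.meas hP'.meas _ _ _ _ hw hk H2 H3
  have hDeq : ENNReal.ofReal K' * ((N : ℝ≥0∞) * ENNReal.ofReal W) *
      ((N : ℝ≥0∞) ^ 3 * ENNReal.ofReal (32 * mn)) *
      ((N : ℝ≥0∞) * ENNReal.ofReal (32 * (3 * B + W') / μ0)) =
      ENNReal.ofReal (1024 * N ^ 5 * (K' * W * (3 * B + W') / μ0) * mn) := by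
    rw [← ENNReal.ofReal_natCast, ← ENNReal.ofReal_pow (by positivity),
      ← ENNReal.ofReal_mul (by positivity), ← ENNReal.ofReal_mul (by positivity),
      ← ENNReal.ofReal_mul (by positivity), ← ENNReal.ofReal_mul (by positivity),
      ← ENNReal.ofReal_mul (by positivity), ← ENNReal.ofReal_mul (by positivity)]
    congr 1
    ring
  rw [hDeq] at hD
  exact eight_of_density (volume.restrict Ω) (volume.restrict Ω') (gpt Ψ)
    (eight_gpt_measurable hΨ) (gpt Ψ) (eight_gpt_measurable hΨ) h hh h' hh' _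
    ENNReal.ofReal_ne_top hD

end Pool.Agent.FlatRes
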