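import Pool.Agent.Lib.MP_40a0b6_an.Defs
set_option autoImplicit false
open MeasureTheory
open scoped ENNReal FourierTransform SchwartzMap
namespace Pool.Agent.FlatRes

/-- exponents of the `L⁸`-type bounds; an index is `(k, s, l)`. -/
noncomputable def E1 (n m : ℕ) (α β : ℕ × ℕ × ℕ) : ℝ :=
  -(β.1 : ℝ) - ((α.2.1 : ℝ) + α.2.2) + max (-(α.2.1 : ℝ)) (-((β.2.1 : ℝ) + β.2.2)) +
    ((m : ℝ) - 2) * α.1 + (α.2.1 : ℝ) * ((n : ℝ) - 2) + (α.2.2 : ℝ) * ((n : ℝ) - 3)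

noncomputable def E2 (n m : ℕ) (α β : ℕ × ℕ × ℕ) : ℝ :=
  E1 n m α β + (((β.2.1 : ℝ) - α.2.1) * ((n : ℝ) - 2) + ((β.2.2 : ℝ) - α.2.2) * ((n : ℝ) - 3)) / 2

/-- A family of functions indexed by the inner pieces `(k,s,l)` with their basic bounds.
`M α` is the mass of the input. -/
structure Fam (n m : ℕ) (C0 : ℝ≥0∞) (F : ℕ × ℕ × ℕ → E3 → ℂ) (M : ℕ × ℕ × ℕ → ℝ≥0∞) : Prop where
  meas : ∀ α, Measurable (F α)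
  fin : ∀ α, M α ≠ ⊤
  sup : ∀ α ξ, ‖F α ξ‖ₑ ^ (2 : ℕ) ≤ C0 * (2 : ℝ≥0∞) ^ (-((α.1 : ℝ) + α.2.1 + α.2.2)) * M α
  six : ∀ α, ∫⁻ ξ, ‖F α ξ‖ₑ ^ (6 : ℕ) ≤
    C0 * (2 : ℝ≥0∞) ^ (((m : ℝ) - 2) * α.1 + ((n : ℝ) - 3) * ((α.2.1 : ℝ) + α.2.2)) *
      (M α) ^ (3 : ℕ)
  zero : ∀ α, α.2.1 < m * α.1 → ∀ ξ, F α ξ = 0
  eight : ∀ α β, ∫⁻ ξ, ‖F α ξ‖ₑ ^ (6 : ℕ) * ‖F β ξ‖ₑ ^ (2 : ℕ) ≤
    C0 * (2 : ℝ≥0∞) ^ (min (E1 n m α β) (E2 n m α β)) * (M α) ^ (3 : ℕ) * M β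

/-- the parameter `j = s + l - m k` of an inner piece -/
noncomputable def jj (m : ℕ) (α : ℕ × ℕ × ℕ) : ℝ := (α.2.1 : ℝ) + α.2.2 - m * α.1

end Pool.Agent.FlatRes
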