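import Pool.Agent.Lib.MP_40a0b6_an.LemB
import Pool.Agent.Lib.MP_40a0b6_an.Dens3
import Pool.Agent.Lib.MP_40a0b6_an.Hyp2
set_option autoImplicit false
open MeasureTheory
open scoped ENNReal FourierTransform SchwartzMap
namespace Pool.Agent.FlatRes

private theorem sixout_gpt_meas (Ψ : ℝ × ℝ → ℝ) (hΨ : Measurable Ψ) : Measurable (gpt Ψ) := by
  unfold gpt
  have h1 : Measurable (fun x : ℝ × ℝ => (![x.1, x.2, Ψ x] : Fin 3 → ℝ)) := by
    refine measurable_pi_lambda _ fun i => ?_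
    fin_cases i
    · exact measurable_fst
    · exact measurable_snd
    · exact hΨ
  exact (PiLp.continuous_toLp 2 _).measurable.comp h1

/-- JOB K.  `L⁶` bound of an outer piece: `0 < u ≤ L`.  `six_of_density` with `d = N³·32/lam`
(`hyp2`) and `e = L²` (trivial). -/
theorem six_outer (Ψ : ℝ × ℝ → ℝ) (Ω : Set (ℝ × ℝ)) (N : ℕ) (L R lam : ℝ)
    (hΨ : Measurable Ψ) (hbΨ : ∃ M : ℝ, ∀ x, |Ψ x| ≤ M) (hΩ : MeasurableSet Ω)
    (hL : 0 < L) (hlam : 0 < lam) (hconv : ConvSlices Ψ Ω N lam)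
    (hu : ∀ x ∈ Ω, 0 < x.1 ∧ x.1 ≤ L) (hv : ∀ x ∈ Ω, |x.2| ≤ R) (h : ℝ × ℝ → ℂ)
    (hh : BddMeas h) :
    ∫⁻ ξ, ‖extOn Ψ Ω h ξ‖ₑ ^ (6 : ℕ) ≤
      ENNReal.ofReal (32 * N ^ 3 * L ^ 2 / lam) * (mass Ω h) ^ (3 : ℕ) := by
  have hsub : Ω ⊆ Set.Ioc 0 L ×ˢ Set.Icc (-R) R := by
    intro x hx
    exact ⟨⟨(hu x hx).1, (hu x hx).2⟩, abs_le.1 (hv x hx)⟩
  have hfin : volume Ω < ⊤ := by
    refine (measure_mono hsub).trans_lt ?_
    rw [Measure.volume_eq_prod, Measure.prod_prod, Real.volume_Ioc, Real.volume_Icc]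
    exact ENNReal.mul_lt_top ENNReal.ofReal_lt_top ENNReal.ofReal_lt_top
  have hfm : IsFiniteMeasure ((volume : Measure (ℝ × ℝ)).restrict Ω) :=
    ⟨by rw [Measure.restrict_apply_univ]; exact hfin⟩
  have hconst : (N : ℝ≥0∞) ^ 3 * ENNReal.ofReal (32 / Real.sqrt (lam * lam)) *
      ENNReal.ofReal (L ^ 2) = ENNReal.ofReal (32 * N ^ 3 * L ^ 2 / lam) := by
    rw [Real.sqrt_mul_self hlam.le, ← ENNReal.ofReal_natCast, ← ENNReal.ofReal_pow (by positivity),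
      ← ENNReal.ofReal_mul (by positivity), ← ENNReal.ofReal_mul (by positivity)]
    congr 1
    ring
  refine six_of_density (volume.restrict Ω) (gpt Ψ) (sixout_gpt_meas Ψ hΨ) h hh
    (ENNReal.ofReal (32 * N ^ 3 * L ^ 2 / lam)) ENNReal.ofReal_ne_top ?_
  intro A hA
  rw [← hconst]
  refine dens3 Ψ hΨ Ω hΩ _ _ ?_ ?_ A hA
  · intro u1 u2 u3 Y A hA
    exact hyp2 Ψ hΨ hbΨ Ω Ω Ω N lam lam lam hlam hlam hlam hconv hconv hconv u1 u2 u3 Y A hA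
  · intro z1 z2
    have hs : {p : ℝ × ℝ | ∃ v1 v2 : ℝ, (p.1, v1) ∈ Ω ∧ (p.2, v2) ∈ Ω ∧
        (z1 - p.1 - p.2, z2 - v1 - v2) ∈ Ω} ⊆ Set.Ioc 0 L ×ˢ Set.Ioc 0 L := by
      rintro ⟨u1, u2⟩ ⟨v1, v2, h1, h2, -⟩
      exact ⟨⟨(hu _ h1).1, (hu _ h1).2⟩, ⟨(hu _ h2).1, (hu _ h2).2⟩⟩
    refine (measure_mono hs).trans ?_
    rw [Measure.volume_eq_prod, Measure.prod_prod, Real.volume_Ioc, sub_zero,
      ← ENNReal.ofReal_mul hL.le, sq]

/-- JOB K2.  Sup bound (Cauchy–Schwarz). -/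
theorem sup_bound (Ψ : ℝ × ℝ → ℝ) (Ω : Set (ℝ × ℝ)) (h : ℝ × ℝ → ℂ) (hh : BddMeas h)
    (hΩ : MeasurableSet Ω) (hfin : volume Ω ≠ ⊤) (ξ : E3) :
    ‖extOn Ψ Ω h ξ‖ₑ ^ (2 : ℕ) ≤ volume Ω * mass Ω h := by
  have h1 : ‖extOn Ψ Ω h ξ‖ₑ ≤ ∫⁻ x in Ω, ‖h x‖ₑ := by
    unfold extOn extN
    refine (enorm_integral_le_lintegral_enorm _).trans (le_of_eq ?_)
    refine lintegral_congr fun x => ?_
    rw [enorm_mul]
    have : ‖Complex.exp (((2 * Real.pi * inner ℝ ξ (gpt Ψ x) : ℝ) : ℂ) * Complex.I)‖ₑ = 1 := by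
      rw [← ofReal_norm, Complex.norm_exp_ofReal_mul_I, ENNReal.ofReal_one]
    rw [this, one_mul]
  have h2 : ∫⁻ x in Ω, ‖h x‖ₑ ≤ (volume Ω) ^ (1 / 2 : ℝ) * (mass Ω h) ^ (1 / 2 : ℝ) := by
    have h3 := ENNReal.lintegral_mul_le_Lp_mul_Lq (volume.restrict Ω)
      (p := 2) (q := 2) Real.HolderConjugate.two_two
      (f := fun _ => 1) (g := fun x => ‖h x‖ₑ) aemeasurable_const hh.1.enorm.aemeasurable
    simp only [Pi.mul_apply, one_mul, ENNReal.one_rpow, lintegral_const,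
      Measure.restrict_apply_univ] at h3
    refine h3.trans (le_of_eq ?_)
    unfold mass
    congr 2
    refine lintegral_congr fun x => ?_
    rw [← ENNReal.rpow_natCast]
    norm_num
  calc ‖extOn Ψ Ω h ξ‖ₑ ^ (2 : ℕ)
      ≤ ((volume Ω) ^ (1 / 2 : ℝ) * (mass Ω h) ^ (1 / 2 : ℝ)) ^ (2 : ℕ) := by
        gcongr
        exact h1.trans h2
    _ = volume Ω * mass Ω h := by
        rw [mul_pow, ← ENNReal.rpow_natCast, ← ENNReal.rpow_natCast, ← ENNReal.rpow_mul,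
          ← ENNReal.rpow_mul]
        norm_num

/-- volume of a piece: `≤ N K W / 2` by Fubini and `ShortSlices`. -/
theorem piece_volume (Ψ : ℝ × ℝ → ℝ) (γ : ℝ → ℝ) (Ω : Set (ℝ × ℝ)) (N : ℕ) (K B W lam : ℝ)
    (hP : Piece Ψ γ Ω N K B W lam) (hK : 0 < K) (hW : 0 < W) :
    volume Ω ≤ ENNReal.ofReal (N * K * W) := by
  rw [Measure.volume_eq_prod, Measure.prod_apply hP.meas]
  have h1 : ∀ u : ℝ, volume (Prod.mk u ⁻¹' Ω) ≤
      (Set.Ioc (K / 2) K).indicator (fun _ => (N : ℝ≥0∞) * ENNReal.ofReal W) u := by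
    intro u
    by_cases hu : u ∈ Set.Ioc (K / 2) K
    · rw [Set.indicator_of_mem hu]
      obtain ⟨I, hI, hsub⟩ := hP.shrt u
      calc volume (Prod.mk u ⁻¹' Ω) ≤ volume (⋃ i, I i) := measure_mono hsub
        _ ≤ ∑ i, volume (I i) := measure_iUnion_fintype_le _ _
        _ ≤ ∑ _i : Fin N, ENNReal.ofReal W := Finset.sum_le_sum fun i _ => (hI i).2
        _ = N * ENNReal.ofReal W := by simp
    · rw [Set.indicator_of_notMem hu]
      have : Prod.mk u ⁻¹' Ω = ∅ := by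
        rw [Set.eq_empty_iff_forall_notMem]
        intro v hv
        exact hu (hP.uran _ hv)
      rw [this, measure_empty]
  calc ∫⁻ u, volume (Prod.mk u ⁻¹' Ω)
      ≤ ∫⁻ u, (Set.Ioc (K / 2) K).indicator (fun _ => (N : ℝ≥0∞) * ENNReal.ofReal W) u :=
        lintegral_mono h1
    _ = (N * ENNReal.ofReal W) * ENNReal.ofReal (K - K / 2) := by
        rw [lintegral_indicator measurableSet_Ioc, setLIntegral_const, Real.volume_Ioc]
    _ ≤ ENNReal.ofReal (N * K * W) := by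
        rw [← ENNReal.ofReal_natCast, ← ENNReal.ofReal_mul (by positivity),
          ← ENNReal.ofReal_mul (by positivity)]
        refine ENNReal.ofReal_le_ofReal ?_
        have : (0 : ℝ) ≤ N * W * K := by positivity
        nlinarith

end Pool.Agent.FlatRes
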