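import Pool.Agent.Lib.MP_40a0b6_an.Six
import Pool.Agent.Lib.MP_40a0b6_an.SixOut
import Pool.Agent.Lib.MP_40a0b6_an.Eight
import Pool.Agent.Lib.MP_40a0b6_an.BuildB
import Pool.Agent.Lib.MP_40a0b6_an.BuildC
import Pool.Agent.Lib.MP_40a0b6_an.FamDef
set_option autoImplicit false
open MeasureTheory
open scoped ENNReal FourierTransform SchwartzMap
namespace Pool.Agent.FlatRes

theorem FamGeo_two (y : ℝ) : (2 : ℝ≥0∞) ^ y = ENNReal.ofReal ((2 : ℝ) ^ y) := by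
  rw [← ENNReal.ofReal_rpow_of_pos (by norm_num)]
  norm_num

theorem FamGeo_pow (k : ℕ) : ((1 : ℝ) / 2) ^ k = (2 : ℝ) ^ (-(k : ℝ)) := by
  rw [Real.rpow_neg (by norm_num), Real.rpow_natCast, one_div, inv_pow]

theorem FamGeo_lamv (n : ℕ) (hn : 3 ≤ n) (c0 : ℝ) (t l : ℕ) :
    lamv n c0 t l = c0 * (2 : ℝ) ^ (-((t : ℝ) * ((n : ℝ) - 2) + (l : ℝ) * ((n : ℝ) - 3))) := by
  unfold lamv
  rw [FamGeo_pow]
  push_cast [Nat.cast_sub (show 2 ≤ n by omega), Nat.cast_sub (show 3 ≤ n by omega)]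
  rfl

theorem FamGeo_mu (m : ℕ) (hm : 2 ≤ m) (κ : ℝ) (k : ℕ) :
    κ * ((1 / 2 : ℝ) ^ k) ^ (m - 2) = κ * (2 : ℝ) ^ (-((k : ℝ) * ((m : ℝ) - 2))) := by
  rw [← pow_mul, FamGeo_pow]
  push_cast [Nat.cast_sub hm]
  rfl

theorem FamGeo_mass {Ω : Set (ℝ × ℝ)} (hΩ : volume Ω ≠ ⊤) (h : ℝ × ℝ → ℂ) (hh : BddMeas h) :
    mass Ω h ≠ ⊤ := by
  obtain ⟨hm, M, hM⟩ := hh
  have h1 : mass Ω h ≤ ENNReal.ofReal M ^ 2 * volume Ω := by
    unfold mass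
    calc ∫⁻ x in Ω, ‖h x‖ₑ ^ (2 : ℕ) ≤ ∫⁻ x in Ω, ENNReal.ofReal M ^ 2 := by
          refine lintegral_mono fun x => ?_
          refine pow_le_pow_left₀ (by positivity) ?_ 2
          rw [← ofReal_norm]
          exact ENNReal.ofReal_le_ofReal (hM x)
      _ = ENNReal.ofReal M ^ 2 * volume Ω := by
          rw [lintegral_const, Measure.restrict_apply_univ]
  refine ne_top_of_le_ne_top (ENNReal.mul_ne_top (by simp) hΩ) h1

theorem FamGeo_meas {Ω : Set (ℝ × ℝ)} (hΩ : volume Ω ≠ ⊤) (Ψ : ℝ × ℝ → ℝ) (hΨ : Measurable Ψ)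
    (h : ℝ × ℝ → ℂ) (hh : BddMeas h) : Measurable (extOn Ψ Ω h) := by
  have h1 : IsFiniteMeasure (volume.restrict Ω) :=
    ⟨by rw [Measure.restrict_apply_univ]; exact lt_top_iff_ne_top.2 hΩ⟩
  have h2 : Measurable (gpt Ψ) := by
    unfold gpt
    refine (WithLp.measurable_toLp 2 _).comp ?_
    refine measurable_pi_iff.2 fun i => ?_
    fin_cases i
    · exact measurable_fst
    · exact measurable_snd
    · exact hΨ
  exact (ext_continuous (volume.restrict Ω) (gpt Ψ) h2 h hh).measurable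

/-- JOB U1.  The functions `extOn Ψ (inP ... k t l) h` form a `Fam` (with
`M (k,t,l) = mass (inP ... k t l) h`), with a constant depending only on the geometric data, not on `h`.
Use `inP_piece`, `six_piece`, `eight_piece`, `sup_bound`, `piece_volume`, `inP_empty`, and
`Geo.curv` with `K = 2^{-k}`, `μ0 = κ K^(m-2)`; compare the real exponents. -/
theorem fam_of_geo (n m : ℕ) (hn : 3 ≤ n) (hm : 2 ≤ m) (Ψ : ℝ × ℝ → ℝ) (γ : ℝ → ℝ)
    (a c κ s e : ℝ) (G : Geo n m Ψ γ a c κ s e) :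
    ∃ C0 : ℝ≥0∞, C0 ≠ ⊤ ∧ ∀ h : ℝ × ℝ → ℂ, BddMeas h →
      Fam n m C0 (fun α => extOn Ψ (inP n m Ψ γ a (min (c / 2) 1) α.1 α.2.1 α.2.2) h)
        (fun α => mass (inP n m Ψ γ a (min (c / 2) 1) α.1 α.2.1 α.2.2) h) := by
  obtain ⟨W0, hW0, hpiece⟩ := inP_piece n m hn Ψ γ a c κ s e G
  obtain ⟨c0, hc0⟩ : ∃ c0 : ℝ, c0 = min (c / 2) 1 := ⟨_, rfl⟩
  have hc0p : 0 < c0 := by
    rw [hc0]
    exact lt_min (half_pos G.hc) one_pos
  rw [← hc0] at hpiece ⊢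
  have hκ := G.hκ
  obtain ⟨N, hN⟩ : ∃ N : ℕ, N = 4 ^ n := ⟨_, rfl⟩
  rw [← hN] at hpiece
  have hN0 : (0 : ℝ) ≤ N := Nat.cast_nonneg N
  obtain ⟨C1, hC1⟩ : ∃ C1 : ℝ, C1 = N * W0 := ⟨_, rfl⟩
  obtain ⟨C2, hC2⟩ : ∃ C2 : ℝ, C2 = 3072 * N ^ 3 / (c0 * κ) := ⟨_, rfl⟩
  obtain ⟨C3, hC3⟩ : ∃ C3 : ℝ, C3 = 1024 * N ^ 5 * (W0 * (3 + W0) / (κ * c0)) := ⟨_, rfl⟩
  have hC1p : 0 ≤ C1 := by rw [hC1]; positivity
  have hC2p : 0 ≤ C2 := by rw [hC2]; positivity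
  have hC3p : 0 ≤ C3 := by rw [hC3]; positivity
  have hvol : ∀ k t l : ℕ, volume (inP n m Ψ γ a c0 k t l) ≤
      ENNReal.ofReal C1 * (2 : ℝ≥0∞) ^ (-((k : ℝ) + t + l)) := by
    intro k t l
    refine (piece_volume Ψ γ _ N _ _ _ _ (hpiece k t l) (by positivity) (by positivity)).trans
      (le_of_eq ?_)
    rw [FamGeo_two, ← ENNReal.ofReal_mul hC1p, hC1, FamGeo_pow, FamGeo_pow]
    congr 1
    have h1 : (2 : ℝ) ^ (-((k : ℝ) + t + l)) = 2 ^ (-(k : ℝ)) * 2 ^ (-(((t + l : ℕ)) : ℝ)) := by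
      rw [← Real.rpow_add (by norm_num)]
      congr 1
      push_cast
      ring
    rw [h1]
    ring
  have hvolfin : ∀ k t l : ℕ, volume (inP n m Ψ γ a c0 k t l) ≠ ⊤ := by
    intro k t l
    refine ne_top_of_le_ne_top ?_ (hvol k t l)
    rw [FamGeo_two]
    exact ENNReal.mul_ne_top ENNReal.ofReal_ne_top ENNReal.ofReal_ne_top
  have hxa : ∀ k t l : ℕ, ∀ x ∈ inP n m Ψ γ a c0 k t l, x.1 < a := fun k t l x hx => hx.1.2.1
  have hcurv : ∀ k : ℕ, StrongConvexOn (Set.Ioc ((1 / 2 : ℝ) ^ k / 2) ((1 / 2 : ℝ) ^ k) ∩ Set.Iio a)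
      (κ * ((1 / 2 : ℝ) ^ k) ^ (m - 2)) (fun u => e * γ u) := fun k => G.curv _ (by positivity)
  refine ⟨ENNReal.ofReal (C1 + C2 + C3), ENNReal.ofReal_ne_top, fun h hh => ?_⟩
  have hle1 : ENNReal.ofReal C1 ≤ ENNReal.ofReal (C1 + C2 + C3) :=
    ENNReal.ofReal_le_ofReal (by linarith)
  refine ⟨?_, ?_, ?_, ?_, ?_, ?_⟩
  · intro α
    exact FamGeo_meas (hvolfin _ _ _) Ψ G.measΨ h hh
  · intro α
    exact FamGeo_mass (hvolfin _ _ _) h hh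
  · intro α ξ
    refine (sup_bound Ψ _ h hh (hpiece α.1 α.2.1 α.2.2).meas (hvolfin _ _ _) ξ).trans ?_
    exact mul_le_mul_left ((hvol _ _ _).trans (mul_le_mul_left hle1 _)) _
  · intro α
    have h1 := six_piece Ψ γ _ N a _ _ _ _ (κ * ((1 / 2 : ℝ) ^ α.1) ^ (m - 2)) e G.measΨ G.measγ
      G.bddΨ G.bddγ (by positivity) (by positivity)
      (by unfold lamv; positivity) (by positivity) G.he (hcurv α.1)
      (hpiece α.1 α.2.1 α.2.2) (hxa _ _ _) h hh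
    refine h1.trans (mul_le_mul_left ?_ _)
    rw [FamGeo_two, ← ENNReal.ofReal_mul (by linarith)]
    apply ENNReal.ofReal_le_ofReal
    rw [FamGeo_lamv n hn, FamGeo_mu m hm, FamGeo_pow]
    have h2 : 3072 * (N : ℝ) ^ 3 * (2 : ℝ) ^ (-(α.2.1 : ℝ)) /
        (c0 * (2 : ℝ) ^ (-((α.2.1 : ℝ) * ((n : ℝ) - 2) + (α.2.2 : ℝ) * ((n : ℝ) - 3))) *
          (κ * (2 : ℝ) ^ (-((α.1 : ℝ) * ((m : ℝ) - 2))))) =
        C2 * (2 : ℝ) ^ (((m : ℝ) - 2) * α.1 + ((n : ℝ) - 3) * ((α.2.1 : ℝ) + α.2.2)) := by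
      rw [hC2, div_eq_iff (by positivity)]
      have h3 : (2 : ℝ) ^ (-(α.2.1 : ℝ)) =
          (2 : ℝ) ^ (((m : ℝ) - 2) * α.1 + ((n : ℝ) - 3) * ((α.2.1 : ℝ) + α.2.2)) *
          ((2 : ℝ) ^ (-((α.2.1 : ℝ) * ((n : ℝ) - 2) + (α.2.2 : ℝ) * ((n : ℝ) - 3))) *
          (2 : ℝ) ^ (-((α.1 : ℝ) * ((m : ℝ) - 2)))) := by
        rw [← Real.rpow_add (by norm_num), ← Real.rpow_add (by norm_num)]
        congr 1
        ring
      rw [h3]
      field_simp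
    rw [h2]
    refine mul_le_mul_of_nonneg_right ?_ (by positivity)
    linarith
  · intro α hα ξ
    show extOn Ψ (inP n m Ψ γ a c0 α.1 α.2.1 α.2.2) h ξ = 0
    rw [inP_empty n m Ψ γ a c0 _ _ _ hα]
    unfold extOn extN
    rw [Measure.restrict_empty, integral_zero_measure]
  · intro α β
    have h1 := eight_piece Ψ γ _ _ N a _ _ _ _ _ _ _ _ (κ * ((1 / 2 : ℝ) ^ α.1) ^ (m - 2)) e
      G.measΨ G.measγ G.bddΨ G.bddγ (by positivity) (by positivity) (by positivity)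
      (by unfold lamv; positivity) (by positivity) (by positivity) (by positivity)
      (by unfold lamv; positivity) (by positivity) G.he (hcurv α.1)
      (hpiece α.1 α.2.1 α.2.2) (hxa _ _ _) (hpiece β.1 β.2.1 β.2.2) h h hh hh
    refine h1.trans (mul_le_mul_left (mul_le_mul_left ?_ _) _)
    rw [FamGeo_two, ← ENNReal.ofReal_mul (by linarith)]
    apply ENNReal.ofReal_le_ofReal
    rw [FamGeo_lamv n hn, FamGeo_lamv n hn, FamGeo_mu m hm, FamGeo_pow, FamGeo_pow, FamGeo_pow,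
      FamGeo_pow]
    obtain ⟨k, t, l⟩ := α
    obtain ⟨k', t', l'⟩ := β
    simp only
    obtain ⟨p, hp⟩ : ∃ p : ℝ, p = (t : ℝ) * ((n : ℝ) - 2) + (l : ℝ) * ((n : ℝ) - 3) := ⟨_, rfl⟩
    obtain ⟨p', hp'⟩ : ∃ p' : ℝ, p' = (t' : ℝ) * ((n : ℝ) - 2) + (l' : ℝ) * ((n : ℝ) - 3) :=
      ⟨_, rfl⟩
    obtain ⟨q, hq⟩ : ∃ q : ℝ, q = (k : ℝ) * ((m : ℝ) - 2) := ⟨_, rfl⟩
    rw [← hp, ← hp', ← hq]
    obtain ⟨M, hM⟩ : ∃ M : ℝ, M = max (-(t : ℝ)) (-((t' : ℝ) + l')) := ⟨_, rfl⟩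
    have hE1 : E1 n m (k, t, l) (k', t', l') = -(k' : ℝ) + -((t : ℝ) + l) + M + q + p := by
      unfold E1
      rw [hM, hq, hp]
      ring
    have hE2 : E2 n m (k, t, l) (k', t', l') =
        -(k' : ℝ) + -((t : ℝ) + l) + M + q + (p + p') / 2 := by
      unfold E2
      rw [hE1, hp, hp']
      ring
    have hsum : 3 * (2 : ℝ) ^ (-(t : ℝ)) + W0 * (2 : ℝ) ^ (-(((t' + l' : ℕ)) : ℝ)) ≤
        (3 + W0) * (2 : ℝ) ^ M := by
      have a1 : (2 : ℝ) ^ (-(t : ℝ)) ≤ (2 : ℝ) ^ M :=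
        Real.rpow_le_rpow_of_exponent_le (by norm_num) (by rw [hM]; exact le_max_left _ _)
      have a2 : (2 : ℝ) ^ (-(((t' + l' : ℕ)) : ℝ)) ≤ (2 : ℝ) ^ M := by
        refine Real.rpow_le_rpow_of_exponent_le (by norm_num) ?_
        rw [hM]
        push_cast
        exact le_max_right _ _
      have a3 := mul_le_mul_of_nonneg_left a2 hW0.le
      linarith
    obtain ⟨X, hX⟩ : ∃ X : ℝ, X = (2 : ℝ) ^ (-(k' : ℝ)) * (W0 * (2 : ℝ) ^ (-(((t + l : ℕ)) : ℝ))) *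
      (3 * (2 : ℝ) ^ (-(t : ℝ)) + W0 * (2 : ℝ) ^ (-(((t' + l' : ℕ)) : ℝ))) /
        (κ * (2 : ℝ) ^ (-q)) := ⟨_, rfl⟩
    rw [← hX]
    have hXle : X ≤ (W0 * (3 + W0) / κ) * (2 : ℝ) ^ (-(k' : ℝ) + -((t : ℝ) + l) + M + q) := by
      rw [hX, div_le_iff₀ (by positivity)]
      have b1 : (2 : ℝ) ^ (-(k' : ℝ) + -((t : ℝ) + l) + M + q) * (2 : ℝ) ^ (-q) =
          (2 : ℝ) ^ (-(k' : ℝ)) * (2 : ℝ) ^ (-(((t + l : ℕ)) : ℝ)) * (2 : ℝ) ^ M := by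
        rw [← Real.rpow_add (by norm_num), ← Real.rpow_add (by norm_num),
          ← Real.rpow_add (by norm_num)]
        congr 1
        push_cast
        ring
      have b2 : W0 * (3 + W0) / κ * (2 : ℝ) ^ (-(k' : ℝ) + -((t : ℝ) + l) + M + q) *
          (κ * (2 : ℝ) ^ (-q)) = (2 : ℝ) ^ (-(k' : ℝ)) * (W0 * (2 : ℝ) ^ (-(((t + l : ℕ)) : ℝ))) *
            ((3 + W0) * (2 : ℝ) ^ M) := by
        have b3 : W0 * (3 + W0) / κ * (2 : ℝ) ^ (-(k' : ℝ) + -((t : ℝ) + l) + M + q) *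
          (κ * (2 : ℝ) ^ (-q)) = W0 * (3 + W0) *
            ((2 : ℝ) ^ (-(k' : ℝ) + -((t : ℝ) + l) + M + q) * (2 : ℝ) ^ (-q)) := by
          field_simp
        rw [b3, b1]
        ring
      rw [b2]
      exact mul_le_mul_of_nonneg_left hsum (by positivity)
    have hX0 : 0 ≤ X := by rw [hX]; positivity
    have hu : 1 / (c0 * (2 : ℝ) ^ (-p)) = (1 / c0) * (2 : ℝ) ^ p := by
      rw [Real.rpow_neg (by norm_num)]
      field_simp
    have hv : 1 / Real.sqrt (c0 * (2 : ℝ) ^ (-p) * (c0 * (2 : ℝ) ^ (-p'))) =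
        (1 / c0) * (2 : ℝ) ^ ((p + p') / 2) := by
      have c1 : c0 * (2 : ℝ) ^ (-p) * (c0 * (2 : ℝ) ^ (-p')) =
          (c0 * (2 : ℝ) ^ (-((p + p') / 2))) ^ 2 := by
        rw [mul_pow, ← Real.rpow_natCast ((2 : ℝ) ^ (-((p + p') / 2))) 2,
          ← Real.rpow_mul (by norm_num)]
        have c2 : -((p + p') / 2) * ((2 : ℕ) : ℝ) = -p + -p' := by
          push_cast
          ring
        rw [c2, Real.rpow_add (by norm_num)]
        ring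
      rw [c1, Real.sqrt_sq (by positivity), Real.rpow_neg (by norm_num)]
      field_simp
    rw [hu, hv]
    have hC3X : 1024 * (N : ℝ) ^ 5 * X * (1 / c0) ≤
        C3 * (2 : ℝ) ^ (-(k' : ℝ) + -((t : ℝ) + l) + M + q) := by
      rw [hC3]
      have d1 : 1024 * (N : ℝ) ^ 5 * X * (1 / c0) ≤ 1024 * (N : ℝ) ^ 5 *
          ((W0 * (3 + W0) / κ) * (2 : ℝ) ^ (-(k' : ℝ) + -((t : ℝ) + l) + M + q)) * (1 / c0) := by
        gcongr
      refine d1.trans (le_of_eq ?_)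
      field_simp
    have hfin : 1024 * (N : ℝ) ^ 5 * X * min ((1 / c0) * (2 : ℝ) ^ p)
        ((1 / c0) * (2 : ℝ) ^ ((p + p') / 2)) ≤
        C3 * (2 : ℝ) ^ min (E1 n m (k, t, l) (k', t', l')) (E2 n m (k, t, l) (k', t', l')) := by
      rcases min_cases (E1 n m (k, t, l) (k', t', l')) (E2 n m (k, t, l) (k', t', l')) with
        ⟨hmin, -⟩ | ⟨hmin, -⟩
      · rw [hmin, hE1, Real.rpow_add (by norm_num) _ p, ← mul_assoc]
        refine le_trans ?_ (mul_le_mul_of_nonneg_right hC3X (by positivity))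
        refine (mul_le_mul_of_nonneg_left (min_le_left _ _) (by positivity)).trans (le_of_eq ?_)
        ring
      · rw [hmin, hE2, Real.rpow_add (by norm_num) _ ((p + p') / 2), ← mul_assoc]
        refine le_trans ?_ (mul_le_mul_of_nonneg_right hC3X (by positivity))
        refine (mul_le_mul_of_nonneg_left (min_le_right _ _) (by positivity)).trans (le_of_eq ?_)
        ring
    refine hfin.trans (mul_le_mul_of_nonneg_right ?_ (by positivity))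
    linarith

end Pool.Agent.FlatRes
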