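import Pool.Agent.Lib.MP_40a0b6_an.Defs
set_option autoImplicit false
open MeasureTheory
open scoped ENNReal FourierTransform SchwartzMap
namespace Pool.Agent.FlatRes

/-- JOB GA.  A function smooth near `0` and flat at `0` has all derivatives `≤ ε ‖x‖^N` near `0`.
Induction on `N`, for all `j`: `N = 0` continuity of `iteratedFDeriv ℝ j g` at `0`; step: mean value
inequality for `iteratedFDeriv ℝ j g` on the segment `[0,x]`
(`‖fderiv (iteratedFDeriv j g) y‖ = ‖iteratedFDeriv (j+1) g y‖`). -/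
theorem flat_bound (g : ℝ × ℝ → ℝ) (hg : FlatAtZero g) (N j : ℕ) (ε : ℝ) (hε : 0 < ε) :
    ∃ δ : ℝ, 0 < δ ∧ ∀ x : ℝ × ℝ, ‖x‖ < δ → ‖iteratedFDeriv ℝ j g x‖ ≤ ε * ‖x‖ ^ N := by
  obtain ⟨⟨V, hV, h0, hgV⟩, hflat⟩ := hg
  have hsm : ∀ (j : ℕ), ∀ x ∈ V, ContDiffAt ℝ 1 (iteratedFDeriv ℝ j g) x := by
    intro j x hx
    have h1 : ContDiffAt ℝ ((⊤ : ℕ∞) : WithTop ℕ∞) g x := hgV.contDiffAt (hV.mem_nhds hx)
    refine h1.iteratedFDeriv_right (m := 1) ?_
    exact_mod_cast le_top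
  obtain ⟨ρ, hρ, hball⟩ := Metric.isOpen_iff.1 hV 0 h0
  induction N generalizing j ε with
  | zero =>
    have hc : ContinuousAt (iteratedFDeriv ℝ j g) 0 := (hsm j 0 h0).continuousAt
    rw [Metric.continuousAt_iff] at hc
    obtain ⟨δ, hδ, h⟩ := hc ε hε
    refine ⟨δ, hδ, fun x hx => ?_⟩
    have := h (x := x) (by rwa [dist_zero_right])
    rw [hflat j, dist_zero_right] at this
    rw [pow_zero, mul_one]
    exact this.le
  | succ N ih =>
    obtain ⟨δ, hδ, h⟩ := ih (j + 1) ε hε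
    refine ⟨min δ ρ, lt_min hδ hρ, fun x hx => ?_⟩
    have hseg : ∀ y ∈ segment ℝ (0 : ℝ × ℝ) x, ‖y‖ ≤ ‖x‖ := by
      intro y hy
      rw [segment_eq_image] at hy
      obtain ⟨t, ht, rfl⟩ := hy
      simp only [smul_zero, zero_add]
      rw [norm_smul, Real.norm_eq_abs, abs_of_nonneg ht.1]
      exact mul_le_of_le_one_left (norm_nonneg _) ht.2
    have hmem : ∀ y ∈ segment ℝ (0 : ℝ × ℝ) x, y ∈ V := by
      intro y hy
      apply hball
      rw [mem_ball_zero_iff]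
      exact lt_of_le_of_lt (hseg y hy) (lt_of_lt_of_le hx (min_le_right _ _))
    have key := (convex_segment (0 : ℝ × ℝ) x).norm_image_sub_le_of_norm_fderiv_le (𝕜 := ℝ)
      (f := iteratedFDeriv ℝ j g) (C := ε * ‖x‖ ^ N) (x := 0) (y := x)
      (fun y hy => (hsm j y (hmem y hy)).differentiableAt (by norm_num))
      (fun y hy => by
        rw [norm_fderiv_iteratedFDeriv]
        refine (h y (lt_of_le_of_lt (hseg y hy) (lt_of_lt_of_le hx (min_le_left _ _)))).trans ?_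
        exact mul_le_mul_of_nonneg_left (pow_le_pow_left₀ (norm_nonneg _) (hseg y hy) N) hε.le)
      (left_mem_segment ℝ _ _) (right_mem_segment ℝ _ _)
    rw [hflat j, sub_zero, sub_zero] at key
    rw [pow_succ, ← mul_assoc]
    exact key

theorem flatA_partial_one (G : ℝ × ℝ → ℝ) (hG : FlatAtZero G) :
    FlatAtZero (fun x => deriv (fun t => G (x.1, t)) x.2) := by
  obtain ⟨⟨V, hV, h0, hGV⟩, hflat⟩ := hG
  have hder : ∀ x ∈ V, deriv (fun t => G (x.1, t)) x.2 = fderiv ℝ G x (0, 1) := by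
    intro x hx
    have h1 : DifferentiableAt ℝ G x :=
      (hGV.contDiffAt (hV.mem_nhds hx)).differentiableAt (by simp)
    have h2 : HasDerivAt (fun t : ℝ => ((x.1, t) : ℝ × ℝ)) (0, 1) x.2 :=
      (hasDerivAt_const x.2 x.1).prodMk (hasDerivAt_id x.2)
    have h3 : HasFDerivAt G (fderiv ℝ G x) ((x.1, x.2) : ℝ × ℝ) := h1.hasFDerivAt
    exact (h3.comp_hasDerivAt x.2 h2).deriv
  have hsm : ContDiffOn ℝ (⊤ : ℕ∞) (fderiv ℝ G) V :=
    hGV.fderiv_of_isOpen hV (by exact_mod_cast le_top)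
  refine ⟨⟨V, hV, h0, ?_⟩, fun k => ?_⟩
  · have : ContDiffOn ℝ (⊤ : ℕ∞) (fun x => fderiv ℝ G x (0, 1)) V := hsm.clm_apply contDiffOn_const
    exact this.congr hder
  · have heq : (fun x : ℝ × ℝ => deriv (fun t => G (x.1, t)) x.2) =ᶠ[nhds 0] fun x => fderiv ℝ G x (0, 1) := by
      filter_upwards [hV.mem_nhds h0] with x hx using hder x hx
    rw [(Filter.EventuallyEq.iteratedFDeriv ℝ heq k).eq_of_nhds]
    have hc : ContDiffAt ℝ (⊤ : ℕ∞) (fderiv ℝ G) 0 := hsm.contDiffAt (hV.mem_nhds h0)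
    have hb := norm_iteratedFDeriv_clm_apply_const (𝕜 := ℝ) (c := ((0, 1) : ℝ × ℝ)) (n := k) hc
      (by exact_mod_cast le_top)
    rw [norm_iteratedFDeriv_fderiv, hflat (k + 1), norm_zero, mul_zero] at hb
    exact norm_le_zero_iff.1 hb

/-- JOB GA2.  Partial derivatives in the second variable are again smooth and flat. -/
theorem flat_partial (g : ℝ × ℝ → ℝ) (hg : FlatAtZero g) (j : ℕ) :
    FlatAtZero (fun x => iteratedDeriv j (fun t => g (x.1, t)) x.2) := by
  induction j with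
  | zero => simpa [iteratedDeriv_zero] using hg
  | succ j ih =>
    have := flatA_partial_one _ ih
    simpa only [iteratedDeriv_succ] using this

end Pool.Agent.FlatRes
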