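import Pool.Agent.Lib.MP_40a0b6_an.BoxTest
import Pool.Agent.Lib.MP_40a0b6_an.FlatA
set_option autoImplicit false
open MeasureTheory
open scoped ENNReal FourierTransform SchwartzMap
namespace Pool.Agent.FlatRes

theorem Nec_abs {c0 κ C M θ δ : ℝ} {α β : ℕ} (hc0 : 0 < c0) (hκ : 0 < κ) (hδ : 0 < δ)
    (hM : 0 ≤ M)
    (h : ∀ τ : ℝ, 0 < τ → τ < δ → c0 * (κ * τ ^ α) ≤ C * (M * τ ^ β) ^ θ) :
    (β : ℝ) * θ ≤ α := by
  by_contra hlt
  push Not at hlt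
  set s : ℝ := (β : ℝ) * θ - α with hs
  have hs0 : 0 < s := by linarith
  have key : ∀ τ : ℝ, 0 < τ → τ < δ → c0 * κ ≤ C * M ^ θ * τ ^ s := by
    intro τ h0 h1
    have h2 := h τ h0 h1
    have h3 : (M * τ ^ β) ^ θ = M ^ θ * (τ ^ s * τ ^ α) := by
      rw [Real.mul_rpow hM (pow_nonneg h0.le _), ← Real.rpow_natCast τ β,
        ← Real.rpow_mul h0.le, ← Real.rpow_natCast τ α, ← Real.rpow_add h0]
      congr 2
      rw [hs]; ring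
    rw [h3] at h2
    have h4 : 0 < τ ^ α := pow_pos h0 _
    have h5 : c0 * κ * τ ^ α ≤ C * M ^ θ * τ ^ s * τ ^ α := by
      calc c0 * κ * τ ^ α = c0 * (κ * τ ^ α) := by ring
        _ ≤ _ := h2
        _ = _ := by ring
    exact le_of_mul_le_mul_right h5 h4
  have hc : ContinuousAt (fun τ : ℝ => C * M ^ θ * τ ^ s) 0 :=
    continuousAt_const.mul (Real.continuousAt_rpow_const 0 s (Or.inr hs0.le))
  have ht : Filter.Tendsto (fun τ : ℝ => C * M ^ θ * τ ^ s) (nhdsWithin 0 (Set.Ioi 0))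
      (nhds (C * M ^ θ * 0 ^ s)) := hc.tendsto.mono_left nhdsWithin_le_nhds
  rw [Real.zero_rpow hs0.ne', mul_zero] at ht
  have hge : c0 * κ ≤ 0 := by
    refine ge_of_tendsto ht ?_
    filter_upwards [Ioo_mem_nhdsGT hδ] with τ hτ
    exact key τ hτ.1 hτ.2
  have := mul_pos hc0 hκ
  linarith

theorem Nec_one_le_areaDensity (ψ : ℝ × ℝ → ℝ) (x : ℝ × ℝ) : 1 ≤ areaDensity ψ x := by
  unfold areaDensity
  rw [Real.one_le_sqrt]
  have h1 := sq_nonneg (deriv (fun t => ψ (t, x.2)) x.1)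
  have h2 := sq_nonneg (deriv (fun t => ψ (x.1, t)) x.2)
  linarith

theorem Nec_lower (U : Set (ℝ × ℝ)) (hU : IsOpen U) (h0 : (0 : ℝ × ℝ) ∈ U) (ρ : ℝ × ℝ → ℝ)
    (hρ : IsCutoff U ρ) (hρ0 : ρ 0 ≠ 0) (ψ : ℝ × ℝ → ℝ) :
    ∃ r > 0, ∃ c0 > 0, ∀ x : ℝ × ℝ, ‖x‖ < r → x ∈ U ∧ c0 ≤ ρ x * areaDensity ψ x := by
  have hpos : 0 < ρ 0 := lt_of_le_of_ne (hρ.2.2.2 0) (Ne.symm hρ0)
  have hc : Continuous ρ := hρ.1.continuous
  have h1 : ∀ᶠ x in nhds (0 : ℝ × ℝ), x ∈ U ∧ ρ 0 / 2 < ρ x :=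
    Filter.Eventually.and (hU.mem_nhds h0)
      (hc.continuousAt.eventually_const_lt (by linarith))
  obtain ⟨r, hr, hr'⟩ := Metric.eventually_nhds_iff.1 h1
  refine ⟨r, hr, ρ 0 / 2, by linarith, fun x hx => ?_⟩
  obtain ⟨h2, h3⟩ := hr' (by simpa [dist_zero_right] using hx)
  refine ⟨h2, ?_⟩
  have h4 := Nec_one_le_areaDensity ψ x
  have h5 : 0 ≤ ρ x := hρ.2.2.2 x
  nlinarith

theorem Nec_set {U : Set (ℝ × ℝ)} {ρ ψ : ℝ × ℝ → ℝ} {r c0 : ℝ}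
    (hl : ∀ x : ℝ × ℝ, ‖x‖ < r → x ∈ U ∧ c0 ≤ ρ x * areaDensity ψ x) {a b c : ℝ}
    {A : Set (ℝ × ℝ)} (hA : MeasurableSet A) (hA1 : ∀ x ∈ A, ‖x‖ < r)
    (hA2 : ∀ x ∈ A, |x.1| ≤ a ∧ |x.2| ≤ b ∧ |ψ x| ≤ c) :
    ENNReal.ofReal c0 * volume A ≤
      ∫⁻ x in U ∩ {x | |x.1| ≤ a ∧ |x.2| ≤ b ∧ |ψ x| ≤ c},
        ENNReal.ofReal (ρ x * areaDensity ψ x) := by
  calc ENNReal.ofReal c0 * volume A = ∫⁻ _x in A, ENNReal.ofReal c0 := by
        rw [setLIntegral_const]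
    _ ≤ ∫⁻ x in A, ENNReal.ofReal (ρ x * areaDensity ψ x) := by
        apply setLIntegral_mono' hA
        intro x hx
        exact ENNReal.ofReal_le_ofReal (hl x (hA1 x hx)).2
    _ ≤ _ := by
        apply lintegral_mono_set
        intro x hx
        exact ⟨(hl x (hA1 x hx)).1, hA2 x hx⟩

/-- the two tests -/
theorem Nec_test {U : Set (ℝ × ℝ)} {ρ ψ : ℝ × ℝ → ℝ} {r c0 p C : ℝ} (hc0 : 0 < c0)
    (hl : ∀ x : ℝ × ℝ, ‖x‖ < r → x ∈ U ∧ c0 ≤ ρ x * areaDensity ψ x) (hC : 0 ≤ C)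
    (hbox : ∀ a b c : ℝ, 0 < a → 0 < b → 0 < c →
      ∫⁻ x in U ∩ {x | |x.1| ≤ a ∧ |x.2| ≤ b ∧ |ψ x| ≤ c}, ENNReal.ofReal (ρ x * areaDensity ψ x) ≤
        ENNReal.ofReal (C * (a * b * c) ^ (2 * (1 - 1 / p))))
    {κ M δ : ℝ} {α β : ℕ} (hκ : 0 < κ) (hδ : 0 < δ) (hM : 0 < M)
    (A : ℝ → Set (ℝ × ℝ)) (a b c : ℝ → ℝ)
    (h : ∀ τ : ℝ, 0 < τ → τ < δ → MeasurableSet (A τ) ∧ (∀ x ∈ A τ, ‖x‖ < r) ∧
      (∀ x ∈ A τ, |x.1| ≤ a τ ∧ |x.2| ≤ b τ ∧ |ψ x| ≤ c τ) ∧ 0 < a τ ∧ 0 < b τ ∧ 0 < c τ ∧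
      a τ * b τ * c τ = M * τ ^ β ∧ ENNReal.ofReal (κ * τ ^ α) ≤ volume (A τ)) :
    (β : ℝ) * (2 * (1 - 1 / p)) ≤ α := by
  refine Nec_abs (C := C) hc0 hκ hδ hM.le ?_
  intro τ h0 h1
  obtain ⟨hm, hA1, hA2, ha, hb, hc, habc, hv⟩ := h τ h0 h1
  have e1 := Nec_set hl hm hA1 hA2
  have e2 := hbox (a τ) (b τ) (c τ) ha hb hc
  have e3 : ENNReal.ofReal c0 * ENNReal.ofReal (κ * τ ^ α) ≤
      ENNReal.ofReal (C * (a τ * b τ * c τ) ^ (2 * (1 - 1 / p))) :=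
    (mul_le_mul_right hv _).trans (e1.trans e2)
  rw [← ENNReal.ofReal_mul hc0.le, habc] at e3
  rwa [ENNReal.ofReal_le_ofReal_iff] at e3
  exact mul_nonneg hC (Real.rpow_nonneg (mul_nonneg hM.le (pow_nonneg h0.le _)) _)

theorem Nec_flat (g : ℝ × ℝ → ℝ) (hg : FlatAtZero g) (N : ℕ) (ε : ℝ) (hε : 0 < ε) :
    ∃ δ : ℝ, 0 < δ ∧ ∀ x : ℝ × ℝ, ‖x‖ < δ → |g x| ≤ ε * ‖x‖ ^ N := by
  obtain ⟨δ, hδ, h⟩ := flat_bound g hg N 0 ε hε
  refine ⟨δ, hδ, fun x hx => ?_⟩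
  have := h x hx
  rwa [norm_iteratedFDeriv_zero, Real.norm_eq_abs] at this

theorem Nec_vol_two {m N : ℕ} {σ : ℝ} (hσ : 0 < σ) :
    MeasurableSet {x : ℝ × ℝ | |x.1| ≤ σ ∧ |x.2 - x.1 ^ m| ≤ σ ^ N} ∧
    ENNReal.ofReal (4 * σ ^ (N + 1)) ≤
      volume {x : ℝ × ℝ | |x.1| ≤ σ ∧ |x.2 - x.1 ^ m| ≤ σ ^ N} := by
  have hm : MeasurableSet {x : ℝ × ℝ | |x.1| ≤ σ ∧ |x.2 - x.1 ^ m| ≤ σ ^ N} := by
    have h1 : Measurable fun x : ℝ × ℝ => |x.1| := by fun_prop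
    have h2 : Measurable fun x : ℝ × ℝ => |x.2 - x.1 ^ m| := by fun_prop
    exact (measurableSet_le h1 measurable_const).inter (measurableSet_le h2 measurable_const)
  refine ⟨hm, ?_⟩
  rw [Measure.volume_eq_prod, Measure.prod_apply hm]
  calc ENNReal.ofReal (4 * σ ^ (N + 1))
      = ∫⁻ _u in Set.Icc (-σ) σ, ENNReal.ofReal (2 * σ ^ N) := by
        rw [setLIntegral_const, Real.volume_Icc, ← ENNReal.ofReal_mul (by positivity)]
        congr 1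
        ring
    _ ≤ ∫⁻ u in Set.Icc (-σ) σ,
          volume (Prod.mk u ⁻¹' {x : ℝ × ℝ | |x.1| ≤ σ ∧ |x.2 - x.1 ^ m| ≤ σ ^ N}) := by
        apply setLIntegral_mono' measurableSet_Icc
        intro u hu
        have hsub : Set.Icc (u ^ m - σ ^ N) (u ^ m + σ ^ N) ⊆
            Prod.mk u ⁻¹' {x : ℝ × ℝ | |x.1| ≤ σ ∧ |x.2 - x.1 ^ m| ≤ σ ^ N} := by
          intro v hv
          simp only [Set.mem_preimage, Set.mem_ofPred_eq]
          refine ⟨abs_le.2 hu, abs_le.2 ⟨?_, ?_⟩⟩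
          · linarith [hv.1]
          · linarith [hv.2]
        refine le_trans (le_of_eq ?_) (measure_mono hsub)
        rw [Real.volume_Icc]
        congr 1
        ring
    _ ≤ _ := setLIntegral_le_lintegral _ _

/-- JOB XC.  Necessity.  `ρ·areaDensity ≥ c0 > 0` on a neighbourhood of `0`.
Test 1: `a = τ`, `b = τ^m`, `c = (2^n+1) τ^{nm}`, box `|x₁| ≤ τ, |x₂| ≤ τ^m`, where `|φ| ≤ (2τ^m)^n` and
`|g| ≤ τ^{nm}` (`flat_bound`): `c0·4τ^{1+m} ≤ C (..τ^{1+m+nm})^{2(1-1/p)}` for all small `τ` forces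
`p/(p-1) ≥ 2(1+m+nm)/(1+m)`.
Test 2: `a = b = 1`, `c = 2σ^{Nn}`, set `|x₁| ≤ σ`, `|x₂-x₁^m| ≤ σ^N`, where `|φ| ≤ σ^{Nn}`, `|g| ≤ σ^{Nn}`:
`c0·4σ^{1+N} ≤ C(2σ^{Nn})^{2(1-1/p)}` forces `p/(p-1) ≥ 2nN/(N+1)`; `N → ∞` gives `p/(p-1) ≥ 2n`. -/
theorem necessity (n m : ℕ) (hn : 2 ≤ n) (hm : 2 ≤ m) (g : ℝ × ℝ → ℝ) (hg : FlatAtZero g)
    (U : Set (ℝ × ℝ)) (hU : IsOpen U) (h0 : (0 : ℝ × ℝ) ∈ U)
    (hgU : ContDiffOn ℝ (⊤ : ℕ∞) g U) (ρ : ℝ × ℝ → ℝ) (hρ : IsCutoff U ρ) (hρ0 : ρ 0 ≠ 0)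
    (p : ℝ) (hp1 : 1 < p) (hp2 : p ≤ 2) (hp : p / (p - 1) < pcrit n m) :
    ¬ RestrictionEstimate U (fun x => phi n m x + g x) ρ p := by
  intro hR
  have hψ : ContinuousOn (fun x => phi n m x + g x) U := by
    refine ContinuousOn.add (Continuous.continuousOn ?_) hgU.continuousOn
    unfold phi
    fun_prop
  obtain ⟨C, hC, hbox⟩ := box_test U hU _ ρ hψ p hp1.le hR
  obtain ⟨r, hr, c0, hc0, hl⟩ := Nec_lower U hU h0 ρ hρ hρ0 (fun x => phi n m x + g x)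
  have hp0 : 0 < p := by linarith
  have hq : (2 * (1 - 1 / p) : ℝ) * (p / (p - 1)) = 2 := by
    have : p - 1 ≠ 0 := by linarith
    field_simp
  have hq0 : 0 < p / (p - 1) := div_pos hp0 (by linarith)
  -- test 1
  have T1 : ((1 + m + n * m : ℕ) : ℝ) * (2 * (1 - 1 / p)) ≤ ((m + 1 : ℕ) : ℝ) := by
    obtain ⟨δ, hδ, hflat⟩ := Nec_flat g hg (n * m) 1 one_pos
    refine Nec_test hc0 hl hC hbox (κ := 4) (M := 2 ^ n + 1)
      (δ := min (min δ r) 1) (by norm_num) (by positivity) (by positivity)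
      (fun τ => Set.Icc (-τ) τ ×ˢ Set.Icc (-τ ^ m) (τ ^ m)) (fun τ => τ) (fun τ => τ ^ m)
      (fun τ => (2 ^ n + 1) * τ ^ (n * m)) ?_
    intro τ hτ0 hτ1
    have hτδ : τ < δ := lt_of_lt_of_le hτ1 ((min_le_left _ _).trans (min_le_left _ _))
    have hτr : τ < r := lt_of_lt_of_le hτ1 ((min_le_left _ _).trans (min_le_right _ _))
    have hτ1' : τ < 1 := lt_of_lt_of_le hτ1 (min_le_right _ _)
    have hτm : τ ^ m ≤ τ := pow_le_of_le_one hτ0.le hτ1'.le (by omega)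
    have hmem : ∀ x ∈ Set.Icc (-τ) τ ×ˢ Set.Icc (-τ ^ m) (τ ^ m),
        |x.1| ≤ τ ∧ |x.2| ≤ τ ^ m := by
      intro x hx
      exact ⟨abs_le.2 hx.1, abs_le.2 hx.2⟩
    have hnorm : ∀ x ∈ Set.Icc (-τ) τ ×ˢ Set.Icc (-τ ^ m) (τ ^ m), ‖x‖ ≤ τ := by
      intro x hx
      obtain ⟨h1, h2⟩ := hmem x hx
      rw [Prod.norm_def, Real.norm_eq_abs, Real.norm_eq_abs]
      exact max_le h1 (h2.trans hτm)
    refine ⟨measurableSet_Icc.prod measurableSet_Icc,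
      fun x hx => lt_of_le_of_lt (hnorm x hx) hτr, fun x hx => ?_, hτ0, pow_pos hτ0 _,
      by positivity, ?_, ?_⟩
    · obtain ⟨h1, h2⟩ := hmem x hx
      refine ⟨h1, h2, ?_⟩
      have h3 := hflat x (lt_of_le_of_lt (hnorm x hx) hτδ)
      have h4 : ‖x‖ ^ (n * m) ≤ τ ^ (n * m) := pow_le_pow_left₀ (norm_nonneg _) (hnorm x hx) _
      have h5 : |phi n m x| ≤ 2 ^ n * τ ^ (n * m) := by
        unfold phi
        rw [abs_pow]
        have h6 : |x.2 - x.1 ^ m| ≤ 2 * τ ^ m := by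
          have h7 : |x.1 ^ m| ≤ τ ^ m := by
            rw [abs_pow]; exact pow_le_pow_left₀ (abs_nonneg _) h1 _
          have h8 := abs_sub x.2 (x.1 ^ m)
          linarith
        calc |x.2 - x.1 ^ m| ^ n ≤ (2 * τ ^ m) ^ n := pow_le_pow_left₀ (abs_nonneg _) h6 _
          _ = 2 ^ n * τ ^ (n * m) := by rw [mul_pow, ← pow_mul, mul_comm m n]
      calc |phi n m x + g x| ≤ |phi n m x| + |g x| := abs_add_le _ _
        _ ≤ 2 ^ n * τ ^ (n * m) + τ ^ (n * m) := by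
            have : |g x| ≤ τ ^ (n * m) := by linarith
            linarith
        _ = (2 ^ n + 1) * τ ^ (n * m) := by ring
    · ring
    · rw [Measure.volume_eq_prod, Measure.prod_prod, Real.volume_Icc, Real.volume_Icc,
        ← ENNReal.ofReal_mul (by linarith)]
      apply ENNReal.ofReal_le_ofReal
      apply le_of_eq
      ring
  -- test 2
  have T2 : ∀ N : ℕ, 1 ≤ N → ((N * n : ℕ) : ℝ) * (2 * (1 - 1 / p)) ≤ ((N + 1 : ℕ) : ℝ) := by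
    intro N hN
    obtain ⟨δ, hδ, hflat⟩ := Nec_flat g hg (N * n) ((1 / 2) ^ (N * n)) (by positivity)
    refine Nec_test hc0 hl hC hbox (κ := 4) (M := 2)
      (δ := min (min δ r) 1 / 2) (by norm_num) (by positivity) (by positivity)
      (fun σ => {x : ℝ × ℝ | |x.1| ≤ σ ∧ |x.2 - x.1 ^ m| ≤ σ ^ N}) (fun _ => 1) (fun _ => 1)
      (fun σ => 2 * σ ^ (N * n)) ?_
    intro σ hσ0 hσ1
    have hσδ : 2 * σ < δ := by
      have := (min_le_left (min δ r) 1).trans (min_le_left _ _)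
      linarith
    have hσr : 2 * σ < r := by
      have := (min_le_left (min δ r) 1).trans (min_le_right _ _)
      linarith
    have hσ1' : 2 * σ < 1 := by
      have := min_le_right (min δ r) 1
      linarith
    have hσN : σ ^ N ≤ σ := pow_le_of_le_one hσ0.le (by linarith) (by omega)
    have hσm : σ ^ m ≤ σ := pow_le_of_le_one hσ0.le (by linarith) (by omega)
    have hx2 : ∀ x : ℝ × ℝ, |x.1| ≤ σ → |x.2 - x.1 ^ m| ≤ σ ^ N → |x.2| ≤ 2 * σ := by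
      intro x h1 h2
      have h3 : |x.1 ^ m| ≤ σ ^ m := by
        rw [abs_pow]; exact pow_le_pow_left₀ (abs_nonneg _) h1 _
      have h4 : |x.2| ≤ |x.2 - x.1 ^ m| + |x.1 ^ m| := by
        have := abs_add_le (x.2 - x.1 ^ m) (x.1 ^ m)
        simpa using this
      linarith
    have hnorm : ∀ x : ℝ × ℝ, |x.1| ≤ σ → |x.2 - x.1 ^ m| ≤ σ ^ N → ‖x‖ ≤ 2 * σ := by
      intro x h1 h2
      rw [Prod.norm_def, Real.norm_eq_abs, Real.norm_eq_abs]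
      exact max_le (by linarith) (hx2 x h1 h2)
    obtain ⟨hmeas, hvol⟩ := Nec_vol_two (m := m) (N := N) hσ0
    refine ⟨hmeas, fun x hx => lt_of_le_of_lt (hnorm x hx.1 hx.2) hσr, fun x hx => ?_, one_pos,
      one_pos, by positivity, by ring, hvol⟩
    obtain ⟨h1, h2⟩ := hx
    refine ⟨by linarith, by linarith [hx2 x h1 h2], ?_⟩
    have h3 := hflat x (lt_of_le_of_lt (hnorm x h1 h2) hσδ)
    have h4 : ‖x‖ ^ (N * n) ≤ (2 * σ) ^ (N * n) :=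
      pow_le_pow_left₀ (norm_nonneg _) (hnorm x h1 h2) _
    have h5 : |g x| ≤ σ ^ (N * n) := by
      calc |g x| ≤ (1 / 2) ^ (N * n) * ‖x‖ ^ (N * n) := h3
        _ ≤ (1 / 2) ^ (N * n) * (2 * σ) ^ (N * n) :=
            mul_le_mul_of_nonneg_left h4 (by positivity)
        _ = σ ^ (N * n) := by
            rw [← mul_pow]
            congr 1
            ring
    have h6 : |phi n m x| ≤ σ ^ (N * n) := by
      unfold phi
      rw [abs_pow, pow_mul]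
      exact pow_le_pow_left₀ (abs_nonneg _) h2 _
    calc |phi n m x + g x| ≤ |phi n m x| + |g x| := abs_add_le _ _
      _ ≤ 2 * σ ^ (N * n) := by linarith
  -- conclusion
  have T1' : 2 * ((1 + m + n * m : ℕ) : ℝ) ≤ ((m + 1 : ℕ) : ℝ) * (p / (p - 1)) := by
    have := mul_le_mul_of_nonneg_right T1 hq0.le
    calc 2 * ((1 + m + n * m : ℕ) : ℝ)
        = ((1 + m + n * m : ℕ) : ℝ) * ((2 * (1 - 1 / p) : ℝ) * (p / (p - 1))) := by rw [hq]; ring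
      _ = ((1 + m + n * m : ℕ) : ℝ) * (2 * (1 - 1 / p)) * (p / (p - 1)) := by ring
      _ ≤ _ := this
  have T2' : ∀ N : ℕ, 1 ≤ N → 2 * ((N * n : ℕ) : ℝ) ≤ ((N + 1 : ℕ) : ℝ) * (p / (p - 1)) := by
    intro N hN
    have := mul_le_mul_of_nonneg_right (T2 N hN) hq0.le
    calc 2 * ((N * n : ℕ) : ℝ)
        = ((N * n : ℕ) : ℝ) * ((2 * (1 - 1 / p) : ℝ) * (p / (p - 1))) := by rw [hq]; ring
      _ = ((N * n : ℕ) : ℝ) * (2 * (1 - 1 / p)) * (p / (p - 1)) := by ring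
      _ ≤ _ := this
  set q : ℝ := p / (p - 1) with hqdef
  unfold pcrit at hp
  split_ifs at hp with hnm
  · have hm1 : (0 : ℝ) < (m : ℝ) + 1 := by positivity
    have h1 : q * ((m : ℝ) + 1) < 2 * ((n : ℝ) * m) + 2 * ((m : ℝ) + 1) := by
      have := mul_lt_mul_of_pos_right hp hm1
      have h2 : (2 * ((n * m : ℝ) / (m + 1)) + 2) * ((m : ℝ) + 1) =
          2 * ((n : ℝ) * m) + 2 * ((m : ℝ) + 1) := by
        field_simp
      linarith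
    push_cast at T1'
    nlinarith
  · -- choose `N`
    have hlt : q < 2 * n := hp
    obtain ⟨N, hN⟩ := exists_nat_gt (q / (2 * n - q))
    have hpos : 0 < 2 * (n : ℝ) - q := by linarith
    have hN1 : q < N * (2 * n - q) := (div_lt_iff₀ hpos).1 hN
    have hN0 : 1 ≤ N := by
      by_contra hlt'
      have : N = 0 := by omega
      subst this
      simp at hN1
      linarith
    have := T2' N hN0
    push_cast at this
    nlinarith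

end Pool.Agent.FlatRes
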