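import Pool.Agent.Lib.MP_40a0b6_an.BoxB
import Pool.Agent.Lib.MP_40a0b6_an.Dual
import Pool.Agent.Lib.MP_40a0b6_an.Nec
set_option autoImplicit false
open MeasureTheory
open scoped ENNReal
namespace Pool.Agent.FlatRes

theorem pcrit_ge (n m : ℕ) (hn : 2 ≤ n) (hm : 2 ≤ m) : 2 ≤ pcrit n m := by
  unfold pcrit
  have hn' : (2 : ℝ) ≤ n := by exact_mod_cast hn
  split_ifs
  · have : (0 : ℝ) ≤ (n * m : ℝ) / (m + 1) := by positivity
    linarith
  · linarith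

theorem main_ge_three (n m : ℕ) (hn : 3 ≤ n) (hm : 2 ≤ m) (h32 : ¬ (n = 3 ∧ m = 2))
    (g : ℝ × ℝ → ℝ) (hg : FlatAtZero g) :
    ∃ U : Set (ℝ × ℝ), IsOpen U ∧ (0 : ℝ × ℝ) ∈ U ∧ ContDiffOn ℝ (⊤ : ℕ∞) g U ∧
      RangeExactly U (fun x => phi n m x + g x) (pcrit n m) := by
  obtain ⟨a, ha, hga, hmeas, T, hT, hE⟩ := box_bound n m hn hm h32 g hg
  have hopen : IsOpen (box a) := isOpen_Ioo.prod isOpen_Ioo
  have h0 : (0 : ℝ × ℝ) ∈ box a := by
    constructor <;> constructor <;> simp [ha]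
  refine ⟨box a, hopen, h0, hga, ?_, ?_⟩
  · intro ρ hρ p hp1 hp2 hp
    refine restriction_of_extension (box a) hopen ?_ _ (psi0 n m g a) ?_ hmeas ?_
      (pcrit n m) (pcrit_ge n m (by omega) hm) T hT hE ρ hρ p hp1 hp2 hp
    · unfold box
      rw [Measure.volume_eq_prod, Measure.prod_prod]
      simp only [Real.volume_Ioo]
      exact ENNReal.mul_ne_top ENNReal.ofReal_ne_top ENNReal.ofReal_ne_top
    · refine ContDiffOn.add ?_ hga
      unfold phi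
      exact (by fun_prop : ContDiff ℝ (⊤ : ℕ∞) (fun x : ℝ × ℝ => (x.2 - x.1 ^ m) ^ n)).contDiffOn
    · intro x hx
      simp [psi0, Set.indicator_of_mem hx]
  · intro ρ hρ hρ0 p hp1 hp2 hp
    exact necessity n m (by omega) hm g hg (box a) hopen h0 hga ρ hρ hρ0 p hp1 hp2 hp

end Pool.Agent.FlatRes
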