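import Pool.Agent.Lib.MP_40a0b6_an.Defs
set_option autoImplicit false
open MeasureTheory
open scoped ENNReal FourierTransform SchwartzMap
namespace Pool.Agent.FlatRes

/-- the reflected quadrant region, as a subset of the box -/
def regσ (Ψ : ℝ × ℝ → ℝ) (γ : ℝ → ℝ) (a σ1 σ2 σ3 : ℝ) : Set (ℝ × ℝ) :=
  {x | (σ1 * x.1, σ2 * x.2) ∈ region (refl Ψ σ1 σ2 σ3) (reflγ γ σ1 σ2) a}

theorem refl_sq {σ : ℝ} (h : IsSign σ) : σ * σ = 1 := by
  rcases h with rfl | rfl <;> norm_num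

theorem refl_mp {σ : ℝ} (h : IsSign σ) : MeasurePreserving (fun t : ℝ => σ * t) volume volume := by
  rcases h with rfl | rfl
  · have e : (fun t : ℝ => 1 * t) = id := by ext t; simp
    rw [e]
    exact MeasurePreserving.id (volume : Measure ℝ)
  · simpa using Measure.measurePreserving_neg (volume : Measure ℝ)

/-- the reflection of the plane -/
def reflS (σ1 σ2 : ℝ) (x : ℝ × ℝ) : ℝ × ℝ := (σ1 * x.1, σ2 * x.2)

theorem reflS_invol {σ1 σ2 : ℝ} (h1 : IsSign σ1) (h2 : IsSign σ2) (x : ℝ × ℝ) :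
    reflS σ1 σ2 (reflS σ1 σ2 x) = x := by
  unfold reflS
  ext
  · simp only; rw [← mul_assoc, refl_sq h1, one_mul]
  · simp only; rw [← mul_assoc, refl_sq h2, one_mul]

theorem reflS_mp {σ1 σ2 : ℝ} (h1 : IsSign σ1) (h2 : IsSign σ2) :
    MeasurePreserving (reflS σ1 σ2) volume volume :=
  (refl_mp h1).prod (refl_mp h2)

theorem reflS_meas (σ1 σ2 : ℝ) : Measurable (reflS σ1 σ2) := by
  unfold reflS; fun_prop

theorem reflS_emb {σ1 σ2 : ℝ} (h1 : IsSign σ1) (h2 : IsSign σ2) :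
    MeasurableEmbedding (reflS σ1 σ2) :=
  (MeasurableEquiv.mk ⟨reflS σ1 σ2, reflS σ1 σ2, reflS_invol h1 h2, reflS_invol h1 h2⟩
    (reflS_meas σ1 σ2) (reflS_meas σ1 σ2)).measurableEmbedding

/-- the reflection of space, linear map -/
noncomputable def reflTl (σ1 σ2 σ3 : ℝ) : E3 →ₗ[ℝ] E3 where
  toFun ξ := !₂[σ1 * ξ 0, σ2 * ξ 1, σ3 * ξ 2]
  map_add' x y := by
    ext i; fin_cases i <;> simp [mul_add]
  map_smul' c x := by
    ext i; fin_cases i <;> simp <;> ring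

theorem reflTl_apply (σ1 σ2 σ3 : ℝ) (ξ : E3) :
    reflTl σ1 σ2 σ3 ξ = !₂[σ1 * ξ 0, σ2 * ξ 1, σ3 * ξ 2] := rfl

theorem reflTl_invol {σ1 σ2 σ3 : ℝ} (h1 : IsSign σ1) (h2 : IsSign σ2) (h3 : IsSign σ3) :
    Function.Involutive (reflTl σ1 σ2 σ3) := by
  intro ξ
  rw [reflTl_apply, reflTl_apply]
  ext i
  fin_cases i
  · simp [← mul_assoc, refl_sq h1]
  · simp [← mul_assoc, refl_sq h2]
  · simp [← mul_assoc, refl_sq h3]

/-- the reflection of space, isometry -/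
noncomputable def reflT {σ1 σ2 σ3 : ℝ} (h1 : IsSign σ1) (h2 : IsSign σ2) (h3 : IsSign σ3) :
    E3 ≃ₗᵢ[ℝ] E3 where
  toLinearEquiv := LinearEquiv.ofInvolutive (reflTl σ1 σ2 σ3) (reflTl_invol h1 h2 h3)
  norm_map' := by
    intro ξ
    change ‖reflTl σ1 σ2 σ3 ξ‖ = ‖ξ‖
    rw [reflTl_apply, EuclideanSpace.norm_eq, EuclideanSpace.norm_eq]
    congr 1
    simp only [Fin.sum_univ_three, Real.norm_eq_abs, sq_abs]
    have e1 := refl_sq h1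
    have e2 := refl_sq h2
    have e3 := refl_sq h3
    simp only [Matrix.cons_val_zero, Matrix.cons_val_one, Matrix.cons_val, mul_pow, pow_two σ1, pow_two σ2,
      pow_two σ3, e1, e2, e3, one_mul]

theorem reflT_apply {σ1 σ2 σ3 : ℝ} (h1 : IsSign σ1) (h2 : IsSign σ2) (h3 : IsSign σ3) (ξ : E3) :
    reflT h1 h2 h3 ξ = !₂[σ1 * ξ 0, σ2 * ξ 1, σ3 * ξ 2] := rfl

theorem refl_inner (Ψ : ℝ × ℝ → ℝ) {σ1 σ2 σ3 : ℝ} (h1 : IsSign σ1) (h2 : IsSign σ2) (h3 : IsSign σ3)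
    (ξ : E3) (y : ℝ × ℝ) :
    inner ℝ ξ (gpt Ψ (reflS σ1 σ2 y)) = inner ℝ (reflT h1 h2 h3 ξ) (gpt (refl Ψ σ1 σ2 σ3) y) := by
  rw [reflT_apply]
  simp only [PiLp.inner_apply, Fin.sum_univ_three, gpt, refl, reflS]
  simp only [Matrix.cons_val_zero, Matrix.cons_val_one, Matrix.cons_val, RCLike.inner_apply, conj_trivial]
  have e3 := refl_sq h3
  have : σ3 * Ψ (σ1 * y.1, σ2 * y.2) * (σ3 * ξ.ofLp 2) = (σ3 * σ3) * (Ψ (σ1 * y.1, σ2 * y.2) * ξ.ofLp 2) := by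
    ring
  rw [this, e3]
  ring

/-- JOB V1.  Change of variables `x ↦ (σ1 x₁, σ2 x₂)` in the extension operator and
`ξ ↦ (σ1 ξ₁, σ2 ξ₂, σ3 ξ₃)` in the `L^q` norm (both measure preserving). -/
theorem ext_refl (Ψ : ℝ × ℝ → ℝ) (hΨ : Measurable Ψ) (γ : ℝ → ℝ) (a σ1 σ2 σ3 : ℝ)
    (h1 : IsSign σ1) (h2 : IsSign σ2) (h3 : IsSign σ3) (h : ℝ × ℝ → ℂ) (q : ℝ) :
    (∫⁻ ξ, ‖extOn Ψ (regσ Ψ γ a σ1 σ2 σ3) h ξ‖ₑ ^ q =
      ∫⁻ ξ, ‖extOn (refl Ψ σ1 σ2 σ3) (region (refl Ψ σ1 σ2 σ3) (reflγ γ σ1 σ2) a)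
        (fun x => h (σ1 * x.1, σ2 * x.2)) ξ‖ₑ ^ q) ∧
    mass (regσ Ψ γ a σ1 σ2 σ3) h =
      mass (region (refl Ψ σ1 σ2 σ3) (reflγ γ σ1 σ2) a) (fun x => h (σ1 * x.1, σ2 * x.2)) := by
  set R := region (refl Ψ σ1 σ2 σ3) (reflγ γ σ1 σ2) a with hR
  have hreg : regσ Ψ γ a σ1 σ2 σ3 = reflS σ1 σ2 ⁻¹' R := rfl
  constructor
  · have key : ∀ ξ : E3, extOn Ψ (regσ Ψ γ a σ1 σ2 σ3) h ξ =
        extOn (refl Ψ σ1 σ2 σ3) R (fun x => h (σ1 * x.1, σ2 * x.2)) (reflT h1 h2 h3 ξ) := by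
      intro ξ
      unfold extOn extN
      rw [hreg]
      have := (reflS_mp h1 h2).setIntegral_preimage_emb (reflS_emb h1 h2)
        (fun y => Complex.exp (((2 * Real.pi * inner ℝ ξ (gpt Ψ (reflS σ1 σ2 y)) : ℝ) : ℂ) * Complex.I) *
          h (reflS σ1 σ2 y)) R
      simp only [reflS_invol h1 h2] at this
      rw [this]
      congr 1
      ext y
      rw [refl_inner Ψ h1 h2 h3]
      rfl
    simp only [key]
    exact (reflT h1 h2 h3).measurePreserving.lintegral_comp_emb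
      (reflT h1 h2 h3).toHomeomorph.measurableEmbedding
      (fun ξ => ‖extOn (refl Ψ σ1 σ2 σ3) R (fun x => h (σ1 * x.1, σ2 * x.2)) ξ‖ₑ ^ q)
  · unfold mass
    rw [hreg]
    have := (reflS_mp h1 h2).setLIntegral_comp_preimage_emb (reflS_emb h1 h2)
      (fun y => ‖h (reflS σ1 σ2 y)‖ₑ ^ 2) R
    simp only [reflS_invol h1 h2] at this
    exact this

end Pool.Agent.FlatRes
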