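import Pool.Agent.Lib.MP_40a0b6_an.N2Half
import Pool.Agent.Lib.MP_40a0b6_an.Refl
set_option autoImplicit false
open MeasureTheory
open scoped ENNReal FourierTransform SchwartzMap
namespace Pool.Agent.FlatRes

/-- the reflection of the plane as a linear isometry -/
noncomputable def boxtwoR {σ1 σ2 : ℝ} (h1 : IsSign σ1) (h2 : IsSign σ2) :
    (ℝ × ℝ) ≃ₗᵢ[ℝ] (ℝ × ℝ) where
  toLinearEquiv := LinearEquiv.ofInvolutive
    { toFun := reflS σ1 σ2
      map_add' := by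
        intro x y
        ext <;> simp [reflS, mul_add]
      map_smul' := by
        intro c x
        ext <;> simp [reflS] <;> ring } (reflS_invol h1 h2)
  norm_map' := by
    intro x
    change ‖reflS σ1 σ2 x‖ = ‖x‖
    have e : ∀ σ : ℝ, IsSign σ → ∀ t : ℝ, ‖σ * t‖ = ‖t‖ := by
      intro σ hσ t
      rcases hσ with rfl | rfl <;> simp
    simp only [reflS, Prod.norm_def, e _ h1, e _ h2]

theorem boxtwoR_apply {σ1 σ2 : ℝ} (h1 : IsSign σ1) (h2 : IsSign σ2) (x : ℝ × ℝ) :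
    boxtwoR h1 h2 x = reflS σ1 σ2 x := rfl

theorem boxtwo_flat {σ1 σ2 : ℝ} (h1 : IsSign σ1) (h2 : IsSign σ2) (g : ℝ × ℝ → ℝ)
    (hg : FlatAtZero g) : FlatAtZero (fun x => g (reflS σ1 σ2 x)) := by
  obtain ⟨⟨V, hV, h0, hVg⟩, hk⟩ := hg
  have he : (fun x => g (reflS σ1 σ2 x)) = g ∘ (boxtwoR h1 h2) := by
    ext x
    rfl
  refine ⟨⟨(boxtwoR h1 h2) ⁻¹' V, hV.preimage (boxtwoR h1 h2).continuous, ?_, ?_⟩, ?_⟩
  · rw [Set.mem_preimage, map_zero]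
    exact h0
  · rw [he]
    exact hVg.comp (boxtwoR h1 h2).contDiff.contDiffOn (fun x hx => hx)
  · intro k
    rw [he, ← norm_eq_zero, LinearIsometryEquiv.norm_iteratedFDeriv_comp_right, map_zero, hk k,
      norm_zero]

theorem boxtwo_sign (m : ℕ) : IsSign ((-1 : ℝ) ^ m) := by
  rcases Nat.even_or_odd m with h | h
  · left; exact h.neg_one_pow
  · right; exact h.neg_one_pow

theorem boxtwo_box {σ1 σ2 : ℝ} (h1 : IsSign σ1) (h2 : IsSign σ2) (r : ℝ) (x : ℝ × ℝ) :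
    reflS σ1 σ2 x ∈ box r ↔ x ∈ box r := by
  simp only [box, reflS, Set.mem_prod, Set.mem_Ioo]
  have e : ∀ σ : ℝ, IsSign σ → ∀ t : ℝ, (-r < σ * t ∧ σ * t < r ↔ -r < t ∧ t < r) := by
    intro σ hσ t
    rcases hσ with rfl | rfl
    · simp
    · constructor
      · rintro ⟨a, b⟩; constructor <;> linarith
      · rintro ⟨a, b⟩; constructor <;> linarith
  rw [e σ1 h1, e σ2 h2]

theorem boxtwo_refl (m : ℕ) (g : ℝ × ℝ → ℝ) (r : ℝ) :
    refl (psi0 2 m g r) (-1) ((-1) ^ m) 1 =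
      psi0 2 m (fun x => g (reflS (-1) ((-1) ^ m) x)) r := by
  ext x
  have hb := boxtwo_box (Or.inr rfl : IsSign (-1)) (boxtwo_sign m) r x
  unfold refl psi0
  by_cases hx : x ∈ box r
  · have hx' : ((-1 : ℝ) * x.1, (-1 : ℝ) ^ m * x.2) ∈ box r := hb.mpr hx
    rw [Set.indicator_of_mem hx', Set.indicator_of_mem hx, one_mul]
    have e2 := refl_sq (boxtwo_sign m)
    have e3 : phi 2 m ((-1 : ℝ) * x.1, (-1 : ℝ) ^ m * x.2) = phi 2 m x := by
      unfold phi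
      simp only
      rw [mul_pow, ← mul_sub, mul_pow, sq ((-1 : ℝ) ^ m), e2, one_mul]
    rw [e3]
    rfl
  · have hx' : ((-1 : ℝ) * x.1, (-1 : ℝ) ^ m * x.2) ∉ box r := fun h => hx (hb.mp h)
    rw [Set.indicator_of_notMem hx', Set.indicator_of_notMem hx, mul_zero]

/-- change of variables in the extension operator, for an arbitrary set -/
theorem boxtwo_ext (Ψ : ℝ × ℝ → ℝ) (R : Set (ℝ × ℝ)) {σ1 σ2 σ3 : ℝ}
    (h1 : IsSign σ1) (h2 : IsSign σ2) (h3 : IsSign σ3) (h : ℝ × ℝ → ℂ) (q : ℝ) :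
    (∫⁻ ξ, ‖extOn Ψ (reflS σ1 σ2 ⁻¹' R) h ξ‖ₑ ^ q =
      ∫⁻ ξ, ‖extOn (refl Ψ σ1 σ2 σ3) R (fun x => h (reflS σ1 σ2 x)) ξ‖ₑ ^ q) ∧
    mass (reflS σ1 σ2 ⁻¹' R) h = mass R (fun x => h (reflS σ1 σ2 x)) := by
  constructor
  · have key : ∀ ξ : E3, extOn Ψ (reflS σ1 σ2 ⁻¹' R) h ξ =
        extOn (refl Ψ σ1 σ2 σ3) R (fun x => h (reflS σ1 σ2 x)) (reflT h1 h2 h3 ξ) := by
      intro ξ
      unfold extOn extN
      have := (reflS_mp h1 h2).setIntegral_preimage_emb (reflS_emb h1 h2)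
        (fun y => Complex.exp (((2 * Real.pi * inner ℝ ξ (gpt Ψ (reflS σ1 σ2 y)) : ℝ) : ℂ) * Complex.I) *
          h (reflS σ1 σ2 y)) R
      simp only [reflS_invol h1 h2] at this
      rw [this]
      congr 1
      ext y
      rw [refl_inner Ψ h1 h2 h3]
    simp only [key]
    exact (reflT h1 h2 h3).measurePreserving.lintegral_comp_emb
      (reflT h1 h2 h3).toHomeomorph.measurableEmbedding
      (fun ξ => ‖extOn (refl Ψ σ1 σ2 σ3) R (fun x => h (reflS σ1 σ2 x)) ξ‖ₑ ^ q)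
  · unfold mass
    have := (reflS_mp h1 h2).setLIntegral_comp_preimage_emb (reflS_emb h1 h2)
      (fun y => ‖h (reflS σ1 σ2 y)‖ₑ ^ 2) R
    simp only [reflS_invol h1 h2] at this
    exact this

theorem boxtwo_null : volume {x : ℝ × ℝ | x.1 = 0} = 0 := by
  have e : {x : ℝ × ℝ | x.1 = 0} = ({0} : Set ℝ) ×ˢ Set.univ := by
    ext x
    simp
  rw [e, Measure.volume_eq_prod, Measure.prod_prod]
  simp

theorem boxtwo_ae (m : ℕ) (a : ℝ) :
    (hbox a ∪ reflS (-1) ((-1) ^ m) ⁻¹' (hbox a) : Set (ℝ × ℝ)) =ᵐ[volume] box a := by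
  have hb := boxtwo_box (Or.inr rfl : IsSign (-1)) (boxtwo_sign m) a
  have h0 : ∀ᵐ x : ℝ × ℝ, x.1 ≠ 0 := by
    rw [ae_iff]
    simpa using boxtwo_null
  filter_upwards [h0] with x hx
  apply propext
  change (x ∈ hbox a ∪ reflS (-1) ((-1) ^ m) ⁻¹' (hbox a)) ↔ x ∈ box a
  constructor
  · rintro (h | h)
    · exact h.1
    · exact (hb x).mp h.1
  · intro h
    rcases lt_or_gt_of_ne hx with h' | h'
    · right
      refine ⟨(hb x).mpr h, ?_⟩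
      change 0 < (-1) * x.1
      linarith
    · left
      exact ⟨h, h'⟩

/-- JOB BoxTwo.  The extension estimate for the box, `n = 2`.

Proof.  `g'(x) = g(-x₁, (-1)^m x₂)` is flat (composition with a linear isometry) and
`psi0 2 m g r (-x₁,(-1)^m x₂) = psi0 2 m g' r x` (`((-1)^m)² = 1`).  `half_bound` for `g` and `g'`, `r` = the smaller radius.  The box is, up to
the null set `{x₁ = 0}`, the union of `hbox r` and its image under the reflection `R(x) = (-x₁,(-1)^m x₂)`; `extOn` over `R(hbox r)` equals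
`extOn (psi0 2 m g' r) (hbox r) (h ∘ R)` at `(-ξ₁,(-1)^mξ₂,ξ₃)` (change of variables; see `Refl.lean` for the tools `reflS_mp`, `reflS_emb`,
`reflT`, `refl_inner` with `σ₁ = -1`, `σ₂ = (-1)^m`, `σ₃ = 1`), and the `L^q` norm is invariant.  Add the two halves
(`‖a+b‖^q ≤ 2^{q-1}(‖a‖^q+‖b‖^q)`). -/
theorem box_bound_two (m : ℕ) (hm : 2 ≤ m) (g : ℝ × ℝ → ℝ) (hg : FlatAtZero g) :
    ∃ a : ℝ, 0 < a ∧ ContDiffOn ℝ (⊤ : ℕ∞) g (box a) ∧ Measurable (psi0 2 m g a) ∧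
      ∃ T : ℝ≥0∞, T ≠ ⊤ ∧ ∀ h : ℝ × ℝ → ℂ, BddMeas h →
        ∫⁻ ξ, ‖extOn (psi0 2 m g a) (box a) h ξ‖ₑ ^ (pcrit 2 m) ≤
          (T * mass (box a) h) ^ (pcrit 2 m / 2) := by
  have hs1 : IsSign (-1) := Or.inr rfl
  have hs2 := boxtwo_sign m
  have hs3 : IsSign 1 := Or.inl rfl
  obtain ⟨r1, hr1, H1⟩ := half_bound m hm g hg
  obtain ⟨r2, hr2, H2⟩ := half_bound m hm _ (boxtwo_flat hs1 hs2 g hg)
  set a := min r1 r2 with ha
  have ha0 : 0 < a := lt_min hr1 hr2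
  obtain ⟨hgs, hΨ, T1, hT1, HT1⟩ := H1 a ha0 (min_le_left _ _)
  obtain ⟨_, _, T2, hT2, HT2⟩ := H2 a ha0 (min_le_right _ _)
  refine ⟨a, ha0, hgs, hΨ, 4 * (T1 + T2), ENNReal.mul_ne_top (by norm_num)
    (ENNReal.add_ne_top.mpr ⟨hT1, hT2⟩), ?_⟩
  intro h hh
  have hq := half_pcrit m hm
  have hh' : BddMeas (fun x => h (reflS (-1) ((-1) ^ m) x)) := by
    obtain ⟨hm1, M, hM⟩ := hh
    exact ⟨hm1.comp (reflS_meas _ _), M, fun x => hM _⟩
  have hmb : MeasurableSet (hbox a) :=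
    (half_meas_box a).inter (measurableSet_lt measurable_const measurable_fst)
  have hmb2 : MeasurableSet (reflS (-1) ((-1) ^ m) ⁻¹' (hbox a)) := (reflS_meas _ _) hmb
  have hsub : hbox a ⊆ box a := fun x hx => hx.1
  have hsub2 : reflS (-1) ((-1) ^ m) ⁻¹' (hbox a) ⊆ box a := fun x hx =>
    (boxtwo_box hs1 hs2 a x).mp hx.1
  have hd : Disjoint (hbox a) (reflS (-1) ((-1) ^ m) ⁻¹' (hbox a)) := by
    rw [Set.disjoint_left]
    rintro x ⟨_, h'⟩ ⟨_, h''⟩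
    change 0 < (-1) * x.1 at h''
    change 0 < x.1 at h'
    linarith
  have hv : ∀ S : Set (ℝ × ℝ), S ⊆ box a → volume S ≠ ⊤ := fun S hS =>
    ne_top_of_le_ne_top (half_box_vol a) (measure_mono hS)
  obtain ⟨hE, hMs⟩ := boxtwo_ext (psi0 2 m g a) (hbox a) hs1 hs2 hs3 h (pcrit 2 m)
  rw [boxtwo_refl] at hE
  have hb2 : ∫⁻ ξ, ‖extOn (psi0 2 m g a) (reflS (-1) ((-1) ^ m) ⁻¹' (hbox a)) h ξ‖ₑ ^ (pcrit 2 m) ≤
      (T2 * mass (reflS (-1) ((-1) ^ m) ⁻¹' (hbox a)) h) ^ (pcrit 2 m / 2) := by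
    rw [hE, hMs]
    exact HT2 _ hh'
  have hU := half_union (psi0 2 m g a) hΨ (hbox a) (reflS (-1) ((-1) ^ m) ⁻¹' (hbox a))
    (hv _ hsub) (hv _ hsub2) hmb2 hd (pcrit 2 m) hq h hh _ _ (HT1 h hh) hb2
  have hext : ∀ ξ, extOn (psi0 2 m g a) (hbox a ∪ reflS (-1) ((-1) ^ m) ⁻¹' (hbox a)) h ξ =
      extOn (psi0 2 m g a) (box a) h ξ := by
    intro ξ
    unfold extOn
    rw [Measure.restrict_congr_set (boxtwo_ae m a)]
  simp only [hext] at hU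
  refine hU.trans (half_combine _ hq T1 T2 _ _ _ ?_ ?_)
  · exact lintegral_mono_set hsub
  · exact lintegral_mono_set hsub2

end Pool.Agent.FlatRes
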