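import Pool.Agent.Lib.MP_40a0b6_an.FinalThree
import Pool.Agent.Lib.MP_40a0b6_an.N2BoxTwo
set_option autoImplicit false
open MeasureTheory
open scoped ENNReal
namespace Pool.Agent.FlatRes

/-- The exact range of validity for every flat perturbation, all `n, m ≥ 2`. -/
theorem main_all (n m : ℕ) (hn : 2 ≤ n) (hm : 2 ≤ m)
    (g : ℝ × ℝ → ℝ) (hg : FlatAtZero g) :
    ∃ U : Set (ℝ × ℝ), IsOpen U ∧ (0 : ℝ × ℝ) ∈ U ∧ ContDiffOn ℝ (⊤ : ℕ∞) g U ∧
      RangeExactly U (fun x => phi n m x + g x) (pcrit n m) := by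
  rcases Nat.lt_or_ge 2 n with h | h
  · exact main_ge_three_all n m h hm g hg
  · obtain rfl : n = 2 := le_antisymm h hn
    exact range_of_box 2 m le_rfl hm g hg (box_bound_two m hm g hg)

end Pool.Agent.FlatRes
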