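import Pool.Agent.Lib.MP_40a0b6_an.Defs
set_option autoImplicit false
open MeasureTheory
open scoped ENNReal FourierTransform SchwartzMap
namespace Pool.Agent.FlatRes

theorem limit_meas_gpt {Ψ : ℝ × ℝ → ℝ} (hΨ : Measurable Ψ) : Measurable (gpt Ψ) := by
  unfold gpt
  have h1 : Measurable (fun x : ℝ × ℝ => (![x.1, x.2, Ψ x] : Fin 3 → ℝ)) := by
    rw [measurable_pi_iff]
    intro i
    fin_cases i
    · exact measurable_fst
    · exact measurable_snd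
    · exact hΨ
  exact (MeasurableEquiv.toLp 2 (Fin 3 → ℝ)).measurable.comp h1

theorem limit_meas_kernel {Ψ : ℝ × ℝ → ℝ} (hΨ : Measurable Ψ) {h : ℝ × ℝ → ℂ}
    (hh : Measurable h) : Measurable (fun q : E3 × (ℝ × ℝ) =>
      Complex.exp (((2 * Real.pi * inner ℝ q.1 (gpt Ψ q.2) : ℝ) : ℂ) * Complex.I) * h q.2) := by
  have h1 : Measurable (fun q : E3 × (ℝ × ℝ) => inner ℝ q.1 (gpt Ψ q.2)) :=
    Measurable.inner measurable_fst ((limit_meas_gpt hΨ).comp measurable_snd)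
  apply Measurable.mul
  · apply Complex.continuous_exp.measurable.comp
    apply Measurable.mul_const
    exact Complex.measurable_ofReal.comp (h1.const_mul _)
  · exact hh.comp measurable_snd

theorem limit_meas_kernel1 {Ψ : ℝ × ℝ → ℝ} (hΨ : Measurable Ψ) {h : ℝ × ℝ → ℂ}
    (hh : Measurable h) (ξ : E3) : Measurable (fun x : ℝ × ℝ =>
      Complex.exp (((2 * Real.pi * inner ℝ ξ (gpt Ψ x) : ℝ) : ℂ) * Complex.I) * h x) := by
  have h1 : Measurable (fun x : ℝ × ℝ => inner ℝ ξ (gpt Ψ x)) :=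
    Measurable.inner measurable_const (limit_meas_gpt hΨ)
  apply Measurable.mul
  · apply Complex.continuous_exp.measurable.comp
    apply Measurable.mul_const
    exact Complex.measurable_ofReal.comp (h1.const_mul _)
  · exact hh

theorem limit_meas_ext {Ψ : ℝ × ℝ → ℝ} (hΨ : Measurable Ψ) (Ω : Set (ℝ × ℝ)) {h : ℝ × ℝ → ℂ}
    (hh : Measurable h) : Measurable (extOn Ψ Ω h) := by
  unfold extOn extN
  exact ((limit_meas_kernel hΨ hh).stronglyMeasurable.integral_prod_right').measurable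

theorem limit_norm_kernel (Ψ : ℝ × ℝ → ℝ) (h : ℝ × ℝ → ℂ) (ξ : E3) (x : ℝ × ℝ) :
    ‖Complex.exp (((2 * Real.pi * inner ℝ ξ (gpt Ψ x) : ℝ) : ℂ) * Complex.I) * h x‖ = ‖h x‖ := by
  rw [norm_mul, Complex.norm_exp_ofReal_mul_I, one_mul]

theorem limit_integrable {Ψ : ℝ × ℝ → ℝ} (hΨ : Measurable Ψ) {Ω : Set (ℝ × ℝ)}
    (hΩ : volume Ω ≠ ⊤) {h : ℝ × ℝ → ℂ} (hh : BddMeas h) (ξ : E3) :
    IntegrableOn (fun x => Complex.exp (((2 * Real.pi * inner ℝ ξ (gpt Ψ x) : ℝ) : ℂ) * Complex.I)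
      * h x) Ω volume := by
  obtain ⟨hm, M, hM⟩ := hh
  have h1 := limit_meas_kernel1 hΨ hm ξ
  have h2 : ∀ x, ‖Complex.exp (((2 * Real.pi * inner ℝ ξ (gpt Ψ x) : ℝ) : ℂ) * Complex.I) * h x‖
      ≤ M := fun x => (limit_norm_kernel Ψ h ξ x).le.trans (hM x)
  exact IntegrableOn.of_bound hΩ.lt_top h1.aestronglyMeasurable M
    (Filter.Eventually.of_forall h2)

/-- JOB U3.  General limiting argument: if `Ω = ⋃ i, P i` (countable, pairwise disjoint, measurable,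
finite volume) and every finite partial sum satisfies the `L^q` bound, then so does `extOn Ψ Ω h`
(`extOn Ψ Ω h ξ` is the sum of the series `Σ extOn Ψ (P i) h ξ`: `hasSum_integral_iUnion`;
Fatou's lemma along a sequence of finite sets exhausting the countable index type). -/
theorem ext_limit {ι : Type*} [Countable ι] (Ψ : ℝ × ℝ → ℝ) (hΨ : Measurable Ψ)
    (P : ι → Set (ℝ × ℝ)) (hP : ∀ i, MeasurableSet (P i))
    (hd : Pairwise (Function.onFun Disjoint P)) (hfin : volume (⋃ i, P i) ≠ ⊤)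
    (h : ℝ × ℝ → ℂ) (hh : BddMeas h) (q : ℝ) (hq : 0 < q) (T : ℝ≥0∞)
    (hS : ∀ S : Finset ι, ∫⁻ ξ, ‖∑ i ∈ S, extOn Ψ (P i) h ξ‖ₑ ^ q ≤
      (T * ∑ i ∈ S, mass (P i) h) ^ (q / 2)) :
    ∫⁻ ξ, ‖extOn Ψ (⋃ i, P i) h ξ‖ₑ ^ q ≤ (T * mass (⋃ i, P i) h) ^ (q / 2) := by
  have h1 : ∀ ξ, HasSum (fun i => extOn Ψ (P i) h ξ) (extOn Ψ (⋃ i, P i) h ξ) := by
    intro ξ
    exact hasSum_integral_iUnion hP hd (limit_integrable hΨ hfin hh ξ)
  have h2 : ∀ ξ, Filter.Tendsto (fun S : Finset ι => ‖∑ i ∈ S, extOn Ψ (P i) h ξ‖ₑ ^ q)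
      Filter.atTop (nhds (‖extOn Ψ (⋃ i, P i) h ξ‖ₑ ^ q)) := by
    intro ξ
    have h3 : Filter.Tendsto (fun S : Finset ι => ∑ i ∈ S, extOn Ψ (P i) h ξ) Filter.atTop
      (nhds (extOn Ψ (⋃ i, P i) h ξ)) := h1 ξ
    exact ((ENNReal.continuous_rpow_const.tendsto _).comp h3.enorm)
  have h3 : ∀ ξ, ‖extOn Ψ (⋃ i, P i) h ξ‖ₑ ^ q =
      Filter.liminf (fun S : Finset ι => ‖∑ i ∈ S, extOn Ψ (P i) h ξ‖ₑ ^ q) Filter.atTop :=
    fun ξ => (h2 ξ).liminf_eq.symm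
  have h4 : ∀ S : Finset ι, Measurable (fun ξ => ‖∑ i ∈ S, extOn Ψ (P i) h ξ‖ₑ ^ q) := by
    intro S
    apply Measurable.pow_const
    apply Measurable.enorm
    exact Finset.measurable_sum S fun i _ => limit_meas_ext hΨ (P i) hh.1
  have h5 : mass (⋃ i, P i) h = ∑' i, mass (P i) h := by
    unfold mass
    exact lintegral_iUnion hP hd _
  have h6 : ∀ S : Finset ι, (T * ∑ i ∈ S, mass (P i) h) ^ (q / 2) ≤
      (T * mass (⋃ i, P i) h) ^ (q / 2) := by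
    intro S
    apply ENNReal.rpow_le_rpow _ (by linarith)
    gcongr
    rw [h5]
    exact ENNReal.sum_le_tsum S
  calc ∫⁻ ξ, ‖extOn Ψ (⋃ i, P i) h ξ‖ₑ ^ q =
      ∫⁻ ξ, Filter.liminf (fun S : Finset ι => ‖∑ i ∈ S, extOn Ψ (P i) h ξ‖ₑ ^ q)
        Filter.atTop := by
        simp only [← h3]
    _ ≤ Filter.liminf (fun S : Finset ι => ∫⁻ ξ, ‖∑ i ∈ S, extOn Ψ (P i) h ξ‖ₑ ^ q)
        Filter.atTop := lintegral_liminf_le h4
    _ ≤ (T * mass (⋃ i, P i) h) ^ (q / 2) := by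
        refine Filter.liminf_le_of_le (by isBoundedDefault) ?_
        intro b hb
        obtain ⟨S, hS1⟩ := hb.exists
        exact hS1.trans ((hS S).trans (h6 S))

end Pool.Agent.FlatRes
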