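import Pool.Agent.Lib.MP_40a0b6_an.S_Basic
set_option autoImplicit false
open MeasureTheory
open scoped ENNReal
namespace Pool.Agent.FlatRes

/-- `h 1_P` in the sheared coordinates `(x, y) = (x₁, x₂ - Γ(x₁))` -/
noncomputable def shear (Γ : ℝ → ℝ) (P : Set (ℝ × ℝ)) (h : ℝ × ℝ → ℂ) (x y : ℝ) : ℂ :=
  P.indicator h (x, Γ x + y)

theorem s_trans_inner (Ψ : ℝ × ℝ → ℝ) (ξ : E3) (x : ℝ × ℝ) :
    inner ℝ ξ (gpt Ψ x) = ξ 0 * x.1 + ξ 1 * x.2 + ξ 2 * Ψ x := by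
  unfold gpt
  rw [PiLp.inner_apply, Fin.sum_univ_three]
  simp [mul_comm]

theorem s_trans_integrand_meas (Ψ : ℝ × ℝ → ℝ) (hΨ : Measurable Ψ) (h : ℝ × ℝ → ℂ)
    (hh : BddMeas h) (ξ : E3) :
    Measurable (fun x : ℝ × ℝ => ee (ξ 0 * x.1 + ξ 1 * x.2 + ξ 2 * Ψ x) * h x) := by
  have h1 := hh.1
  have h2 := measurable_ee
  exact (h2.comp (by fun_prop)).mul h1

/-- JOB S_Trans.  Passage to the sheared coordinates (four small statements).
(1) Fubini (`h 1_P` is bounded and vanishes outside a set of finite measure), and translation in the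
second variable; the inner product of `E3` is `ξ 0 * x₁ + ξ 1 * x₂ + ξ 2 * Ψ x`
(`gpt`, `PiLp.inner_apply`, `Fin.sum_univ_three`). -/
theorem ext_eq_FF (Ψ : ℝ × ℝ → ℝ) (hΨ : Measurable Ψ) (Γ : ℝ → ℝ) (hΓ : Measurable Γ)
    (Φ : ℝ → ℝ → ℝ) (P : Set (ℝ × ℝ)) (hP : MeasurableSet P) (hPf : volume P ≠ ⊤)
    (heq : ∀ x y, (x, Γ x + y) ∈ P → Φ x y = Ψ (x, Γ x + y)) (h : ℝ × ℝ → ℂ) (hh : BddMeas h)
    (ξ : E3) : extOn Ψ P h ξ = FFs Γ Φ (shear Γ P h) (ξ 0) (ξ 1) (ξ 2) := by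
  set F : ℝ × ℝ → ℂ := fun x => ee (ξ 0 * x.1 + ξ 1 * x.2 + ξ 2 * Ψ x) * h x with hF
  have hFm : Measurable F := s_trans_integrand_meas Ψ hΨ h hh ξ
  obtain ⟨M, hM⟩ := hh.2
  have e1 : extOn Ψ P h ξ = ∫ x, P.indicator F x := by
    rw [integral_indicator hP]
    unfold extOn extN
    refine integral_congr_ae (Filter.Eventually.of_forall fun x => ?_)
    simp only [hF, ee, s_trans_inner]
  have hint : Integrable (P.indicator F) (volume : Measure (ℝ × ℝ)) := by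
    rw [integrable_indicator_iff hP]
    have : IsFiniteMeasure ((volume : Measure (ℝ × ℝ)).restrict P) :=
      ⟨by rw [Measure.restrict_apply_univ]; exact lt_top_iff_ne_top.2 hPf⟩
    refine Integrable.of_bound hFm.aestronglyMeasurable M
      (Filter.Eventually.of_forall fun x => ?_)
    simp only [hF, norm_mul, norm_ee, one_mul]
    exact hM x
  rw [e1, Measure.volume_eq_prod, integral_prod _ (by rw [← Measure.volume_eq_prod]; exact hint)]
  unfold FFs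
  rw [TT]
  refine integral_congr_ae (Filter.Eventually.of_forall fun x => ?_)
  simp only
  rw [TT, ← integral_const_mul, ← integral_add_left_eq_self (fun y => P.indicator F (x, y)) (Γ x)]
  refine integral_congr_ae (Filter.Eventually.of_forall fun y => ?_)
  simp only [shear]
  by_cases hxy : (x, Γ x + y) ∈ P
  · rw [Set.indicator_of_mem hxy, Set.indicator_of_mem hxy, heq x y hxy, ← mul_assoc, ← ee_add]
    simp only [hF]
    congr 2
    ring
  · rw [Set.indicator_of_notMem hxy, Set.indicator_of_notMem hxy]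
    simp

/-- (2) Tonelli and translation invariance. -/
theorem mass_eq_mass2 (Γ : ℝ → ℝ) (hΓ : Measurable Γ) (P : Set (ℝ × ℝ)) (hP : MeasurableSet P)
    (h : ℝ × ℝ → ℂ) (hh : BddMeas h) : mass P h = mass2 (shear Γ P h) := by
  have hm : Measurable (P.indicator fun x : ℝ × ℝ => ‖h x‖ₑ ^ (2 : ℕ)) :=
    (hh.1.enorm.pow_const 2).indicator hP
  unfold mass mass2
  rw [← lintegral_indicator hP, Measure.volume_eq_prod, lintegral_prod _ hm.aemeasurable]
  refine lintegral_congr fun x => ?_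
  rw [← lintegral_add_left_eq_self
    (fun y => P.indicator (fun x : ℝ × ℝ => ‖h x‖ₑ ^ (2 : ℕ)) (x, y)) (Γ x)]
  refine lintegral_congr fun y => ?_
  simp only [shear]
  by_cases hxy : (x, Γ x + y) ∈ P
  · rw [Set.indicator_of_mem hxy, Set.indicator_of_mem hxy, ← ENNReal.rpow_natCast]
    norm_num
  · rw [Set.indicator_of_notMem hxy, Set.indicator_of_notMem hxy]
    simp

/-- (3) -/
theorem bm2_shear (Γ : ℝ → ℝ) (hΓ : Measurable Γ) (P : Set (ℝ × ℝ)) (hP : MeasurableSet P)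
    (h : ℝ × ℝ → ℂ) (hh : BddMeas h) : BM2 (shear Γ P h) := by
  obtain ⟨hm, M, hM⟩ := hh
  refine ⟨?_, M, fun x y => ?_⟩
  · exact (hm.indicator hP).comp (by fun_prop : Measurable fun p : ℝ × ℝ => (p.1, Γ p.1 + p.2))
  · exact (norm_indicator_le_norm_self h _).trans (hM _)

/-- (4) Lebesgue measure on `E3` in coordinates
(`EuclideanSpace.volume_preserving_symm_measurableEquiv_toLp` or
`EuclideanSpace.volume_preserving_measurableEquiv`, `volume_preserving_piFinSuccAbove`, Tonelli). -/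
theorem lintegral_E3 (G : ℝ → ℝ → ℝ → ℝ≥0∞)
    (hG : Measurable (fun p : ℝ × ℝ × ℝ => G p.1 p.2.1 p.2.2)) :
    ∫⁻ ξ : E3, G (ξ 0) (ξ 1) (ξ 2) = ∫⁻ t, ∫⁻ ξ₂, ∫⁻ ξ₁, G ξ₁ ξ₂ t := by
  have h1 : Measurable (fun f : Fin 3 → ℝ => G (f 0) (f 1) (f 2)) :=
    hG.comp (by fun_prop : Measurable fun f : Fin 3 → ℝ => (f 0, f 1, f 2))
  have e1 : ∫⁻ ξ : E3, G (ξ 0) (ξ 1) (ξ 2) = ∫⁻ f : Fin 3 → ℝ, G (f 0) (f 1) (f 2) :=
    (PiLp.volume_preserving_ofLp (Fin 3)).lintegral_comp h1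
  have h2 : Measurable (fun p : ℝ × (Fin 2 → ℝ) => G (p.2 0) (p.2 1) p.1) :=
    hG.comp (by fun_prop : Measurable fun p : ℝ × (Fin 2 → ℝ) => (p.2 0, p.2 1, p.1))
  have e2 : ∫⁻ f : Fin 3 → ℝ, G (f 0) (f 1) (f 2) =
      ∫⁻ p : ℝ × (Fin 2 → ℝ), G (p.2 0) (p.2 1) p.1 :=
    (volume_preserving_piFinSuccAbove (fun _ : Fin 3 => ℝ) 2).lintegral_comp h2
  rw [e1, e2, Measure.volume_eq_prod, lintegral_prod _ h2.aemeasurable]
  refine lintegral_congr fun t => ?_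
  have h3 : Measurable (fun p : ℝ × ℝ => G p.1 p.2 t) :=
    hG.comp (by fun_prop : Measurable fun p : ℝ × ℝ => (p.1, p.2, t))
  have e3 : ∫⁻ g : Fin 2 → ℝ, G (g 0) (g 1) t = ∫⁻ p : ℝ × ℝ, G p.1 p.2 t :=
    (volume_preserving_finTwoArrow ℝ).lintegral_comp h3
  rw [e3, Measure.volume_eq_prod, lintegral_prod_symm' _ h3]

end Pool.Agent.FlatRes
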