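import Pool.Agent.Lib.MP_40a0b6_an.Defs
set_option autoImplicit false
open MeasureTheory
open scoped ENNReal FourierTransform SchwartzMap
namespace Pool.Agent.FlatRes

/-- Minkowski for finite sums. -/
private theorem Schur_minkowski {ι : Type*} (S : Finset ι) (f : ι → E3 → ℝ≥0∞)
    (hf : ∀ i, Measurable (f i)) (Q : ℝ) (hQ : 1 ≤ Q) :
    (∫⁻ ξ, (∑ i ∈ S, f i ξ) ^ Q) ^ (1 / Q) ≤ ∑ i ∈ S, (∫⁻ ξ, (f i ξ) ^ Q) ^ (1 / Q) := by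
  classical
  have hQ0 : 0 < Q := by linarith
  induction S using Finset.induction_on with
  | empty =>
    simp only [Finset.sum_empty]
    rw [ENNReal.zero_rpow_of_pos hQ0, lintegral_zero, ENNReal.zero_rpow_of_pos (by positivity)]
  | insert a S ha ih =>
    simp only [Finset.sum_insert ha]
    have h1 := ENNReal.lintegral_Lp_add_le (μ := (volume : Measure E3)) (hf a).aemeasurable
      (Finset.measurable_fun_sum S fun i _ => hf i).aemeasurable hQ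
    refine le_trans h1 ?_
    gcongr

private theorem Schur_amgm (x y : ℝ≥0∞) :
    x ^ (1 / 2 : ℝ) * y ^ (1 / 2 : ℝ) ≤ x / 2 + y / 2 := by
  have hp : Real.HolderConjugate 2 2 := Real.HolderConjugate.two_two
  have h := ENNReal.young_inequality (x ^ (1 / 2 : ℝ)) (y ^ (1 / 2 : ℝ)) hp
  rw [← ENNReal.rpow_mul, ← ENNReal.rpow_mul] at h
  norm_num at h
  norm_num
  exact h

/-- JOB R.  Schur summation.  `‖ΣF‖^{2Q} ≤ (Σ_{α,β} ‖F_α‖‖F_β‖)^Q`, Minkowski in `L^Q`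
(`ENNReal.lintegral_Lp_add_le` / `eLpNorm_sum_le`), then `√(M_α M_β) ≤ (M_α+M_β)/2`. -/
theorem schur_sum {ι : Type*} (S : Finset ι) (F : ι → E3 → ℂ) (hF : ∀ α, Measurable (F α)) (Q : ℝ)
    (hQ : 1 ≤ Q) (M : ι → ℝ≥0∞) (c : ι → ι → ℝ≥0∞) (T : ℝ≥0∞)
    (hbil : ∀ α ∈ S, ∀ β ∈ S, (∫⁻ ξ, (‖F α ξ‖ₑ * ‖F β ξ‖ₑ) ^ Q) ^ (1 / Q) ≤
      c α β * (M α) ^ (1 / 2 : ℝ) * (M β) ^ (1 / 2 : ℝ))
    (hsym : ∀ α β, c α β = c β α) (hrow : ∀ α ∈ S, ∑ β ∈ S, c α β ≤ T) :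
    ∫⁻ ξ, ‖∑ α ∈ S, F α ξ‖ₑ ^ (2 * Q) ≤ (T * ∑ α ∈ S, M α) ^ Q := by
  have hQ0 : 0 < Q := by linarith
  have h1 : ∫⁻ ξ, ‖∑ α ∈ S, F α ξ‖ₑ ^ (2 * Q) ≤
      ∫⁻ ξ, (∑ p ∈ S ×ˢ S, ‖F p.1 ξ‖ₑ * ‖F p.2 ξ‖ₑ) ^ Q := by
    refine lintegral_mono fun ξ => ?_
    rw [ENNReal.rpow_mul]
    apply ENNReal.rpow_le_rpow _ hQ0.le
    have h2 : ∑ p ∈ S ×ˢ S, ‖F p.1 ξ‖ₑ * ‖F p.2 ξ‖ₑ = (∑ α ∈ S, ‖F α ξ‖ₑ) ^ (2 : ℕ) := by
      rw [Finset.sum_product, pow_two, Finset.sum_mul_sum]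
    rw [h2]
    have h3 : ‖∑ α ∈ S, F α ξ‖ₑ ^ (2 : ℝ) = ‖∑ α ∈ S, F α ξ‖ₑ ^ (2 : ℕ) := by
      rw [← ENNReal.rpow_natCast]
      norm_num
    rw [h3]
    gcongr
    exact enorm_sum_le _ _
  have h2 : (∫⁻ ξ, (∑ p ∈ S ×ˢ S, ‖F p.1 ξ‖ₑ * ‖F p.2 ξ‖ₑ) ^ Q) ^ (1 / Q) ≤
      T * ∑ α ∈ S, M α := by
    refine (Schur_minkowski (S ×ˢ S) (fun p ξ => ‖F p.1 ξ‖ₑ * ‖F p.2 ξ‖ₑ)
      (fun p => (hF p.1).enorm.mul (hF p.2).enorm) Q hQ).trans ?_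
    calc ∑ p ∈ S ×ˢ S, (∫⁻ ξ, (‖F p.1 ξ‖ₑ * ‖F p.2 ξ‖ₑ) ^ Q) ^ (1 / Q)
        ≤ ∑ p ∈ S ×ˢ S, c p.1 p.2 * (M p.1 / 2 + M p.2 / 2) := by
          refine Finset.sum_le_sum fun p hp => ?_
          rw [Finset.mem_product] at hp
          refine (hbil p.1 hp.1 p.2 hp.2).trans ?_
          rw [mul_assoc]
          gcongr
          exact Schur_amgm _ _
      _ = ∑ p ∈ S ×ˢ S, c p.1 p.2 * (M p.1 / 2) + ∑ p ∈ S ×ˢ S, c p.1 p.2 * (M p.2 / 2) := by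
          rw [← Finset.sum_add_distrib]
          exact Finset.sum_congr rfl fun p _ => mul_add _ _ _
      _ = ∑ α ∈ S, ∑ β ∈ S, c α β * (M α / 2) + ∑ α ∈ S, ∑ β ∈ S, c α β * (M β / 2) := by
          rw [Finset.sum_product, Finset.sum_product]
      _ = ∑ α ∈ S, ∑ β ∈ S, c α β * (M α / 2) + ∑ α ∈ S, ∑ β ∈ S, c α β * (M α / 2) := by
          congr 1
          rw [Finset.sum_comm]
          refine Finset.sum_congr rfl fun α _ => Finset.sum_congr rfl fun β _ => ?_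
          rw [hsym]
      _ = ∑ α ∈ S, (∑ β ∈ S, c α β) * M α := by
          rw [← Finset.sum_add_distrib]
          refine Finset.sum_congr rfl fun α _ => ?_
          rw [← Finset.sum_mul, ← mul_add, ENNReal.add_halves]
      _ ≤ ∑ α ∈ S, T * M α := by
          refine Finset.sum_le_sum fun α hα => ?_
          gcongr
          exact hrow α hα
      _ = T * ∑ α ∈ S, M α := by rw [Finset.mul_sum]
  refine h1.trans ?_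
  have h3 := ENNReal.rpow_le_rpow h2 hQ0.le
  rw [← ENNReal.rpow_mul, one_div, inv_mul_cancel₀ hQ0.ne', ENNReal.rpow_one] at h3
  exact h3

end Pool.Agent.FlatRes
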