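import Pool.Agent.Lib.MP_40a0b6_an.S_Bil32
import Pool.Agent.Lib.MP_40a0b6_an.S_Trans
import Pool.Agent.Lib.MP_40a0b6_an.Schur
import Pool.Agent.Lib.MP_40a0b6_an.Limit
set_option autoImplicit false
open MeasureTheory
open scoped ENNReal
namespace Pool.Agent.FlatRes

/-- the dyadic pieces: sign `true`: `L_j < x₂ - Γ(x₁) ≤ 2L_j`; sign `false`: `-2L_j ≤ x₂ - Γ(x₁) < -L_j`;
`L_j = a 2^{-j}`. -/
noncomputable def P32 (a : ℝ) (Γ : ℝ → ℝ) (i : ℕ × Bool) : Set (ℝ × ℝ) :=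
  {x | x ∈ box a ∧
    (if i.2 then a * (1 / 2) ^ i.1 < x.2 - Γ x.1 ∧ x.2 - Γ x.1 ≤ 2 * (a * (1 / 2) ^ i.1)
      else -(2 * (a * (1 / 2) ^ i.1)) ≤ x.2 - Γ x.1 ∧ x.2 - Γ x.1 < -(a * (1 / 2) ^ i.1))}

theorem S_Box32_meas (a : ℝ) (Γ : ℝ → ℝ) (hΓ : Measurable Γ) (i : ℕ × Bool) :
    MeasurableSet (P32 a Γ i) := by
  have hb : MeasurableSet (box a) := measurableSet_Ioo.prod measurableSet_Ioo
  have hv : Measurable (fun x : ℝ × ℝ => x.2 - Γ x.1) :=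
    measurable_snd.sub (hΓ.comp measurable_fst)
  unfold P32
  by_cases h : i.2 = true
  · simp only [h, if_true]
    exact hb.inter ((measurableSet_lt measurable_const hv).inter
      (measurableSet_le hv measurable_const))
  · simp only [h]
    exact hb.inter ((measurableSet_le measurable_const hv).inter
      (measurableSet_lt hv measurable_const))

theorem S_Box32_sub (a : ℝ) (Γ : ℝ → ℝ) (i : ℕ × Bool) : P32 a Γ i ⊆ box a := fun _ hx => hx.1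

theorem S_Box32_volbox (a : ℝ) : volume (box a) ≠ ⊤ := by
  have : Bornology.IsBounded (box a) :=
    (Metric.isBounded_Ioo _ _).prod (Metric.isBounded_Ioo _ _)
  exact this.measure_lt_top.ne

/-- the dyadic index is unique -/
theorem S_Box32_uniq {a v : ℝ} (ha : 0 < a) {i j : ℕ} (h1 : a * (1 / 2) ^ i < v)
    (h2 : v ≤ 2 * (a * (1 / 2) ^ i)) (h3 : a * (1 / 2) ^ j < v)
    (h4 : v ≤ 2 * (a * (1 / 2) ^ j)) : i = j := by
  have key : ∀ i j : ℕ, i < j → a * (1 / 2) ^ i < v → v ≤ 2 * (a * (1 / 2) ^ j) → False := by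
    intro i j hij h1 h4
    have h5 : (1 / 2 : ℝ) ^ j ≤ (1 / 2) ^ (i + 1) :=
      pow_le_pow_of_le_one (by norm_num) (by norm_num) hij
    rw [pow_succ] at h5
    nlinarith
  rcases lt_trichotomy i j with h | h | h
  · exact (key i j h h1 h4).elim
  · exact h
  · exact (key j i h h3 h2).elim

theorem S_Box32_disj {a : ℝ} (ha : 0 < a) (Γ : ℝ → ℝ) :
    Pairwise (Function.onFun Disjoint (P32 a Γ)) := by
  rintro ⟨i, s⟩ ⟨j, s'⟩ hne
  refine Set.disjoint_left.2 fun x hx hx' => hne ?_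
  have hp : ∀ k : ℕ, 0 < a * (1 / 2 : ℝ) ^ k := fun k => by positivity
  obtain ⟨_, h1⟩ := hx
  obtain ⟨_, h2⟩ := hx'
  cases s <;> cases s' <;> simp only [if_true, if_false, Bool.false_eq_true] at h1 h2
  · have := S_Box32_uniq (v := -(x.2 - Γ x.1)) ha (i := i) (j := j) (by linarith) (by linarith)
      (by linarith) (by linarith)
    rw [this]
  · have := hp i
    have := hp j
    linarith [h1.2, h2.1]
  · have := hp i
    have := hp j
    linarith [h1.1, h2.2]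
  · have := S_Box32_uniq (v := x.2 - Γ x.1) ha (i := i) (j := j) h1.1 h1.2 h2.1 h2.2
    rw [this]

/-- existence of the dyadic index -/
theorem S_Box32_dy {a v : ℝ} (ha : 0 < a) (hv : 0 < v) (hv2 : v ≤ 2 * a) :
    ∃ i : ℕ, a * (1 / 2) ^ i < v ∧ v ≤ 2 * (a * (1 / 2) ^ i) := by
  have hex : ∃ n : ℕ, a * (1 / 2) ^ n < v := by
    obtain ⟨n, hn⟩ := exists_pow_lt_of_lt_one (div_pos hv ha) (by norm_num : (1 / 2 : ℝ) < 1)
    exact ⟨n, by rwa [lt_div_iff₀ ha, mul_comm] at hn⟩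
  classical
  refine ⟨Nat.find hex, Nat.find_spec hex, ?_⟩
  rcases Nat.eq_zero_or_pos (Nat.find hex) with h0 | h0
  · rw [h0]; simpa using hv2
  · have h1 : Nat.find hex - 1 < Nat.find hex := by omega
    have h2 := Nat.find_min hex h1
    push Not at h2
    have h3 : (1 / 2 : ℝ) ^ (Nat.find hex) = (1 / 2) ^ (Nat.find hex - 1) * (1 / 2) := by
      rw [← pow_succ, Nat.sub_add_cancel h0]
    rw [h3]
    linarith

theorem S_Box32_graph (Γ : ℝ → ℝ) (hΓ : Measurable Γ) :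
    volume {x : ℝ × ℝ | x.2 = Γ x.1} = 0 := by
  have hm : MeasurableSet {x : ℝ × ℝ | x.2 = Γ x.1} :=
    measurableSet_eq_fun measurable_snd (hΓ.comp measurable_fst)
  rw [Measure.volume_eq_prod, Measure.measure_prod_null hm]
  refine Filter.Eventually.of_forall fun x => ?_
  have : (Prod.mk x ⁻¹' {x : ℝ × ℝ | x.2 = Γ x.1}) = {Γ x} := by
    ext y
    simp
  change volume (Prod.mk x ⁻¹' {x : ℝ × ℝ | x.2 = Γ x.1}) = 0
  rw [this]
  simp

theorem S_Box32_union {a : ℝ} (ha : 0 < a) (Γ : ℝ → ℝ) (hΓ : Measurable Γ)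
    (hbd : ∀ x ∈ Set.Icc (-a) a, |Γ x| ≤ a) :
    (⋃ i, P32 a Γ i : Set (ℝ × ℝ)) =ᵐ[volume] box a := by
  have h1 : (⋃ i, P32 a Γ i : Set (ℝ × ℝ)) ⊆ box a := Set.iUnion_subset fun i => S_Box32_sub a Γ i
  have h2 : box a \ {x : ℝ × ℝ | x.2 = Γ x.1} ⊆ (⋃ i, P32 a Γ i : Set (ℝ × ℝ)) := by
    intro x hx
    have hxb : x ∈ box a := hx.1
    have hne : x.2 ≠ Γ x.1 := hx.2
    have hx1 : -a < x.1 ∧ x.1 < a := hxb.1
    have hx2 : -a < x.2 ∧ x.2 < a := hxb.2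
    have hG := abs_le.1 (hbd x.1 ⟨hx1.1.le, hx1.2.le⟩)
    rcases lt_or_gt_of_ne hne with h | h
    · obtain ⟨i, hi1, hi2⟩ := S_Box32_dy (v := -(x.2 - Γ x.1)) ha (by linarith) (by linarith)
      refine Set.mem_iUnion.2 ⟨(i, false), hxb, ?_⟩
      simp only [Bool.false_eq_true, if_false]
      constructor <;> linarith
    · obtain ⟨i, hi1, hi2⟩ := S_Box32_dy (v := x.2 - Γ x.1) ha (by linarith) (by linarith)
      refine Set.mem_iUnion.2 ⟨(i, true), hxb, ?_⟩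
      simp only [if_true]
      exact ⟨hi1, hi2⟩
  refine Filter.EventuallyLE.antisymm (LE.le.eventuallyLE h1) ?_
  have h3 : (box a \ {x : ℝ × ℝ | x.2 = Γ x.1} : Set (ℝ × ℝ)) =ᵐ[volume] box a :=
    sdiff_null_ae_eq_self (S_Box32_graph Γ hΓ)
  exact h3.symm.le.trans (LE.le.eventuallyLE h2)

/-- geometric row sums -/
theorem S_Box32_geom {ρ : ℝ} (h0 : 0 < ρ) (h1 : ρ < 1) (i : ℕ) (S : Finset (ℕ × Bool)) :
    ∑ β ∈ S, ρ ^ (max i β.1 - min i β.1) ≤ 4 / (1 - ρ) := by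
  have hs : Summable (fun k : ℕ => ρ ^ k) := summable_geometric_of_lt_one h0.le h1
  have ht : ∑' k : ℕ, ρ ^ k = 1 / (1 - ρ) := by rw [tsum_geometric_of_lt_one h0.le h1, one_div]
  have hinj : ∀ (A : Finset (ℕ × Bool)), Set.InjOn (fun β : ℕ × Bool => max i β.1 - min i β.1) A →
      ∑ β ∈ A, ρ ^ (max i β.1 - min i β.1) ≤ 1 / (1 - ρ) := by
    intro A hA
    rw [← Finset.sum_image (f := fun k => ρ ^ k) (g := fun β : ℕ × Bool => max i β.1 - min i β.1) hA, ← ht]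
    exact hs.sum_le_tsum _ (fun k _ => by positivity)
  have hsplit : ∑ β ∈ S, ρ ^ (max i β.1 - min i β.1) ≤
      ∑ p : Bool × Bool, ∑ β ∈ S.filter (fun β => β.2 = p.1 ∧ decide (β.1 ≤ i) = p.2),
        ρ ^ (max i β.1 - min i β.1) := by
    rw [← Finset.sum_fiberwise S (fun β => (β.2, decide (β.1 ≤ i)))]
    refine le_of_eq (Finset.sum_congr rfl fun p _ => ?_)
    refine Finset.sum_congr (Finset.filter_congr fun β _ => ?_) fun _ _ => rfl
    exact Prod.ext_iff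
  refine hsplit.trans ?_
  have : ∀ p : Bool × Bool, ∑ β ∈ S.filter (fun β => β.2 = p.1 ∧ decide (β.1 ≤ i) = p.2),
        ρ ^ (max i β.1 - min i β.1) ≤ 1 / (1 - ρ) := by
    rintro ⟨b, d⟩
    refine hinj _ ?_
    rintro ⟨x, s⟩ hx ⟨y, s'⟩ hy hxy
    simp only [Finset.coe_filter, Set.mem_ofPred_eq] at hx hy
    obtain ⟨_, hx1, hx2⟩ := hx
    obtain ⟨_, hy1, hy2⟩ := hy
    simp only at hxy
    cases d
    · simp only [decide_eq_false_iff_not, not_le] at hx2 hy2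
      have : x = y := by omega
      rw [this, hx1, hy1]
    · simp only [decide_eq_true_eq] at hx2 hy2
      have : x = y := by omega
      rw [this, hx1, hy1]
  refine (Finset.sum_le_sum fun p _ => this p).trans ?_
  rw [Finset.sum_const, Finset.card_univ, Fintype.card_prod, Fintype.card_bool, nsmul_eq_mul]
  apply le_of_eq
  push_cast
  ring

/-- ratio of the scales -/
theorem S_Box32_ratio {a : ℝ} (ha : 0 < a) (i j : ℕ) :
    (min (a * (1 / 2 : ℝ) ^ i) (a * (1 / 2) ^ j) / max (a * (1 / 2 : ℝ) ^ i) (a * (1 / 2) ^ j)) ^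
      ((1 : ℝ) / 16) = ((1 / 2 : ℝ) ^ ((1 : ℝ) / 16)) ^ (max i j - min i j) := by
  have h : min (a * (1 / 2 : ℝ) ^ i) (a * (1 / 2) ^ j) / max (a * (1 / 2 : ℝ) ^ i) (a * (1 / 2) ^ j) =
      (1 / 2 : ℝ) ^ (max i j - min i j) := by
    rcases le_total i j with hij | hij
    · have h1 : (1 / 2 : ℝ) ^ j ≤ (1 / 2) ^ i := pow_le_pow_of_le_one (by norm_num) (by norm_num) hij
      have h2 : a * (1 / 2 : ℝ) ^ j ≤ a * (1 / 2) ^ i := mul_le_mul_of_nonneg_left h1 ha.le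
      rw [min_eq_right h2, max_eq_left h2, max_eq_right hij, min_eq_left hij]
      have h3 : (1 / 2 : ℝ) ^ j = (1 / 2) ^ (j - i) * (1 / 2) ^ i := by
        rw [← pow_add, Nat.sub_add_cancel hij]
      rw [h3]
      have : (1 / 2 : ℝ) ^ i ≠ 0 := by positivity
      field_simp
    · have h1 : (1 / 2 : ℝ) ^ i ≤ (1 / 2) ^ j := pow_le_pow_of_le_one (by norm_num) (by norm_num) hij
      have h2 : a * (1 / 2 : ℝ) ^ i ≤ a * (1 / 2) ^ j := mul_le_mul_of_nonneg_left h1 ha.le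
      rw [min_eq_left h2, max_eq_right h2, max_eq_left hij, min_eq_right hij]
      have h3 : (1 / 2 : ℝ) ^ i = (1 / 2) ^ (i - j) * (1 / 2) ^ j := by
        rw [← pow_add, Nat.sub_add_cancel hij]
      rw [h3]
      have : (1 / 2 : ℝ) ^ j ≠ 0 := by positivity
      field_simp
  rw [h, ← Real.rpow_natCast ((1 / 2 : ℝ) ^ ((1 : ℝ) / 16)), ← Real.rpow_mul (by norm_num),
    mul_comm, Real.rpow_mul (by norm_num), Real.rpow_natCast]

theorem S_Box32_lives {a : ℝ} (Γ : ℝ → ℝ) (h : ℝ × ℝ → ℂ) (i : ℕ × Bool) :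
    Lives a (a * (1 / 2) ^ i.1) (shear Γ (P32 a Γ i) h) := by
  obtain ⟨i, s⟩ := i
  cases s
  · right
    intro x y hxy
    unfold shear
    refine Set.indicator_of_notMem (fun hm => hxy ?_) _
    obtain ⟨h1, h2⟩ := hm
    simp only [Bool.false_eq_true, if_false, add_sub_cancel_left] at h2
    exact ⟨⟨h1.1.1.le, h1.1.2.le⟩, h2.1, h2.2.le⟩
  · left
    intro x y hxy
    unfold shear
    refine Set.indicator_of_notMem (fun hm => hxy ?_) _
    obtain ⟨h1, h2⟩ := hm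
    simp only [if_true, add_sub_cancel_left] at h2
    exact ⟨⟨h1.1.1.le, h1.1.2.le⟩, h2.1.le, h2.2⟩

/-- JOB S_Box32.  The extension estimate for the box, `(n,m) = (3,2)`; `pcrit 3 2 = 6`.
Proof.  Geometric data from `geo32_exists`.  The `P32 a Γ i` are measurable, pairwise disjoint,
and their union is `box a` minus the null set `{x₂ = Γ(x₁)}` (`|x₂ - Γ x₁| < 2a` on the box).
`ext_eq_FF`, `mass_eq_mass2`, `bm2_shear`, `lintegral_E3` transfer `bil32` to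
`(∫⁻ ξ, (‖extOn Ψ (P i) h ξ‖ₑ ‖extOn Ψ (P j) h ξ‖ₑ)^3)^{1/3} ≤ C 2^{-|i-j|/16} mass(P i)^{1/2} mass(P j)^{1/2}`
(`shear Γ (P i) h` satisfies `Lives a L_i`).  Row sums of `C 2^{-|i-j|/16}` are bounded (geometric series,
two signs).  `schur_sum` with `Q = 3`, then `ext_limit` with `q = 6`, and finally replace the union by the box
(they differ by a null set: `extOn`, `mass` only see `volume.restrict`).  Measurability of
`ξ ↦ extOn Ψ P h ξ`: by `ext_eq_FF` and `measurable_FF` or directly (continuity). -/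
theorem box_bound32 (g : ℝ × ℝ → ℝ) (hg : FlatAtZero g) :
    ∃ a : ℝ, 0 < a ∧ ContDiffOn ℝ (⊤ : ℕ∞) g (box a) ∧ Measurable (psi0 3 2 g a) ∧
      ∃ T : ℝ≥0∞, T ≠ ⊤ ∧ ∀ h : ℝ × ℝ → ℂ, BddMeas h →
        ∫⁻ ξ, ‖extOn (psi0 3 2 g a) (box a) h ξ‖ₑ ^ (pcrit 3 2) ≤
          (T * mass (box a) h) ^ (pcrit 3 2 / 2) := by
  obtain ⟨a, c, Γ, Γ1, Γ2, Φ, Φ1, Φ2, hgs, G⟩ := geo32_exists g hg
  refine ⟨a, G.ha, hgs, G.measΨ, ?_⟩
  obtain ⟨C, hC, hbil⟩ := bil32 G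
  have ha := G.ha
  set ρ : ℝ := (1 / 2 : ℝ) ^ ((1 : ℝ) / 16) with hρ
  have hρ0 : 0 < ρ := by positivity
  have hρ1 : ρ < 1 := Real.rpow_lt_one (by norm_num) (by norm_num) (by norm_num)
  have hpc : pcrit 3 2 = 6 := by unfold pcrit; norm_num
  refine ⟨ENNReal.ofReal (C * (4 / (1 - ρ))), ENNReal.ofReal_ne_top, fun h hh => ?_⟩
  have hmeasP : ∀ i, MeasurableSet (P32 a Γ i) := fun i => S_Box32_meas a Γ G.measΓ i
  have hPf : ∀ i, volume (P32 a Γ i) ≠ ⊤ := fun i =>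
    ne_top_of_le_ne_top (S_Box32_volbox a) (measure_mono (S_Box32_sub a Γ i))
  have hext : ∀ i ξ, extOn (psi0 3 2 g a) (P32 a Γ i) h ξ =
      FFs Γ Φ (shear Γ (P32 a Γ i) h) (ξ 0) (ξ 1) (ξ 2) := fun i ξ =>
    ext_eq_FF _ G.measΨ Γ G.measΓ Φ _ (hmeasP i) (hPf i)
      (fun x y hxy => G.eqΨ x y (S_Box32_sub a Γ i hxy)) h hh ξ
  have hbm : ∀ i, BM2 (shear Γ (P32 a Γ i) h) := fun i =>
    bm2_shear Γ G.measΓ _ (hmeasP i) h hh
  have hFFm : ∀ i, Measurable (fun p : ℝ × ℝ × ℝ =>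
      FFs Γ Φ (shear Γ (P32 a Γ i) h) p.1 p.2.1 p.2.2) := fun i =>
    measurable_FF Γ Φ G.measΓ G.measΦ _ (hbm i).1
  have hcoord : Measurable (fun ξ : E3 => (ξ 0, ξ 1, ξ 2)) := by
    refine Measurable.prodMk ?_ (Measurable.prodMk ?_ ?_) <;> fun_prop
  have hFm : ∀ i, Measurable (fun ξ => extOn (psi0 3 2 g a) (P32 a Γ i) h ξ) := by
    intro i
    have : (fun ξ => extOn (psi0 3 2 g a) (P32 a Γ i) h ξ) =
        (fun p : ℝ × ℝ × ℝ => FFs Γ Φ (shear Γ (P32 a Γ i) h) p.1 p.2.1 p.2.2) ∘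
          (fun ξ : E3 => (ξ 0, ξ 1, ξ 2)) := funext fun ξ => hext i ξ
    rw [this]
    exact (hFFm i).comp hcoord
  have hS : ∀ S : Finset (ℕ × Bool),
      ∫⁻ ξ, ‖∑ i ∈ S, extOn (psi0 3 2 g a) (P32 a Γ i) h ξ‖ₑ ^ (6 : ℝ) ≤
      (ENNReal.ofReal (C * (4 / (1 - ρ))) * ∑ i ∈ S, mass (P32 a Γ i) h) ^ ((6 : ℝ) / 2) := by
    intro S
    have hsch := schur_sum S (fun i ξ => extOn (psi0 3 2 g a) (P32 a Γ i) h ξ) hFm 3 (by norm_num)
      (fun i => mass (P32 a Γ i) h)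
      (fun i j => ENNReal.ofReal (C * (min (a * (1 / 2) ^ i.1) (a * (1 / 2) ^ j.1) /
        max (a * (1 / 2) ^ i.1) (a * (1 / 2) ^ j.1)) ^ ((1 : ℝ) / 16)))
      (ENNReal.ofReal (C * (4 / (1 - ρ)))) ?_ ?_ ?_
    · have e1 : (2 : ℝ) * 3 = 6 := by norm_num
      have e2 : (6 : ℝ) / 2 = 3 := by norm_num
      rw [e1] at hsch
      rw [e2]
      exact hsch
    · intro i _ j _
      have e : ∫⁻ ξ : E3, (‖extOn (psi0 3 2 g a) (P32 a Γ i) h ξ‖ₑ *
          ‖extOn (psi0 3 2 g a) (P32 a Γ j) h ξ‖ₑ) ^ (3 : ℝ) =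
          ∫⁻ t, ∫⁻ ξ₂, ∫⁻ ξ₁, (‖FFs Γ Φ (shear Γ (P32 a Γ i) h) ξ₁ ξ₂ t‖ₑ *
            ‖FFs Γ Φ (shear Γ (P32 a Γ j) h) ξ₁ ξ₂ t‖ₑ) ^ (3 : ℝ) := by
        rw [← lintegral_E3 (fun ξ₁ ξ₂ t => (‖FFs Γ Φ (shear Γ (P32 a Γ i) h) ξ₁ ξ₂ t‖ₑ *
            ‖FFs Γ Φ (shear Γ (P32 a Γ j) h) ξ₁ ξ₂ t‖ₑ) ^ (3 : ℝ))]
        · refine lintegral_congr fun ξ => ?_
          rw [hext, hext]
        · exact (((hFFm i).enorm).mul ((hFFm j).enorm)).pow_const _
      have hL : ∀ k : ℕ, 0 < a * (1 / 2 : ℝ) ^ k ∧ a * (1 / 2 : ℝ) ^ k ≤ a := fun k =>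
        ⟨by positivity, mul_le_of_le_one_right ha.le (pow_le_one₀ (by norm_num) (by norm_num))⟩
      have := hbil (a * (1 / 2) ^ i.1) (a * (1 / 2) ^ j.1) (hL _).1 (hL _).2 (hL _).1 (hL _).2
        (shear Γ (P32 a Γ i) h) (shear Γ (P32 a Γ j) h) (hbm i) (hbm j)
        (S_Box32_lives Γ h i) (S_Box32_lives Γ h j)
      rw [e, mass_eq_mass2 Γ G.measΓ _ (hmeasP i) h hh, mass_eq_mass2 Γ G.measΓ _ (hmeasP j) h hh]
      exact this
    · intro i j
      rw [min_comm, max_comm]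
    · intro i _
      rw [← ENNReal.ofReal_sum_of_nonneg]
      · apply ENNReal.ofReal_le_ofReal
        rw [← Finset.mul_sum]
        refine mul_le_mul_of_nonneg_left ?_ hC.le
        have := S_Box32_geom hρ0 hρ1 i.1 S
        refine le_trans (le_of_eq (Finset.sum_congr rfl fun β _ => ?_)) this
        exact S_Box32_ratio ha i.1 β.1
      · intro β _
        positivity
  have hunion := S_Box32_union ha Γ G.measΓ G.bdΓ
  have hfin : volume (⋃ i, P32 a Γ i) ≠ ⊤ :=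
    ne_top_of_le_ne_top (S_Box32_volbox a) (measure_mono (Set.iUnion_subset fun i => S_Box32_sub a Γ i))
  have hlim := ext_limit (psi0 3 2 g a) G.measΨ (P32 a Γ) hmeasP (S_Box32_disj ha Γ) hfin h hh 6
    (by norm_num) _ hS
  have hr : volume.restrict (⋃ i, P32 a Γ i) = volume.restrict (box a) :=
    Measure.restrict_congr_set hunion
  have hm : mass (⋃ i, P32 a Γ i) h = mass (box a) h := by
    unfold mass
    rw [hr]
  have he : ∀ ξ, extOn (psi0 3 2 g a) (⋃ i, P32 a Γ i) h ξ = extOn (psi0 3 2 g a) (box a) h ξ := by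
    intro ξ
    unfold extOn
    rw [hr]
  rw [hm] at hlim
  simp only [he] at hlim
  rw [hpc]
  exact hlim

end Pool.Agent.FlatRes
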