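import Pool.Agent.Lib.MP_40a0b6_an.Defs
set_option autoImplicit false
open MeasureTheory
open scoped ENNReal FourierTransform SchwartzMap
namespace Pool.Agent.FlatRes

/-- the quadratic form -/
private noncomputable def gauss_q (A : Fin 3 → ℝ) (x : E3) : ℝ :=
  -Real.pi * ∑ i, (A i * x i) ^ 2

private theorem gauss_q_growth (A : Fin 3 → ℝ) : Function.HasTemperateGrowth (gauss_q A) := by
  have h1 : ∀ i : Fin 3, Function.HasTemperateGrowth (fun x : E3 => x i) := fun i =>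
    (EuclideanSpace.proj i : E3 →L[ℝ] ℝ).hasTemperateGrowth
  have h2 : Function.HasTemperateGrowth (fun x : E3 => ∑ i : Fin 3, (A i * x i) ^ 2) := by
    refine Function.HasTemperateGrowth.sum fun i _ => ?_
    exact ((Function.HasTemperateGrowth.const (A i)).mul (h1 i)).pow 2
  exact (Function.HasTemperateGrowth.const (-Real.pi)).mul h2

private theorem gauss_deriv (n : ℕ) :
    iteratedDeriv n (fun t : ℝ => Complex.exp (t : ℂ)) = fun t : ℝ => Complex.exp (t : ℂ) := by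
  induction n with
  | zero => rfl
  | succ n ih =>
    rw [iteratedDeriv_succ, ih]
    funext t
    exact (Complex.hasDerivAt_exp (t : ℂ)).comp_ofReal.deriv

private theorem gauss_pow_exp (M : ℕ) (δ : ℝ) (hδ : 0 < δ) (r : ℝ) (hr : 0 ≤ r) :
    (1 + r) ^ M * Real.exp (-δ * r ^ 2) ≤ Real.exp ((M : ℝ) ^ 2 / (4 * δ)) := by
  have h1 : (1 + r) ^ M ≤ Real.exp (M * r) := by
    calc (1 + r) ^ M ≤ (Real.exp r) ^ M :=
          pow_le_pow_left₀ (by positivity) (by linarith [Real.add_one_le_exp r]) M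
      _ = Real.exp (M * r) := by rw [← Real.exp_nat_mul]
  calc (1 + r) ^ M * Real.exp (-δ * r ^ 2) ≤ Real.exp (M * r) * Real.exp (-δ * r ^ 2) :=
        mul_le_mul_of_nonneg_right h1 (Real.exp_pos _).le
    _ = Real.exp (M * r + -δ * r ^ 2) := by rw [Real.exp_add]
    _ ≤ Real.exp ((M : ℝ) ^ 2 / (4 * δ)) := by
        refine Real.exp_le_exp.2 ?_
        rw [le_div_iff₀ (by positivity)]
        nlinarith [sq_nonneg ((M : ℝ) - 2 * δ * r)]

private theorem gauss_q_le (A : Fin 3 → ℝ) (δ : ℝ) (hδ : ∀ i, δ ≤ Real.pi * A i ^ 2) (x : E3) :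
    gauss_q A x ≤ -δ * ‖x‖ ^ 2 := by
  unfold gauss_q
  rw [EuclideanSpace.real_norm_sq_eq, Finset.mul_sum, Finset.mul_sum]
  refine Finset.sum_le_sum fun i _ => ?_
  nlinarith [mul_le_mul_of_nonneg_right (hδ i) (sq_nonneg (x i))]

private noncomputable def gauss_fun (A : Fin 3 → ℝ) (x : E3) : ℂ :=
  Complex.exp ((gauss_q A x : ℝ) : ℂ)

private theorem gauss_smooth (A : Fin 3 → ℝ) : ContDiff ℝ (⊤ : ℕ∞) (gauss_fun A) := by
  have h : ContDiff ℝ (⊤ : ℕ∞) (fun x => ((gauss_q A x : ℝ) : ℂ)) :=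
    Complex.ofRealCLM.contDiff.comp (gauss_q_growth A).1
  exact h.cexp

private theorem gauss_decay (A : Fin 3 → ℝ) (hA : ∀ i, 0 < A i) (k n : ℕ) :
    ∃ C : ℝ, ∀ x, ‖x‖ ^ k * ‖iteratedFDeriv ℝ n (gauss_fun A) x‖ ≤ C := by
  obtain ⟨δ, hδ, hδA⟩ : ∃ δ : ℝ, 0 < δ ∧ ∀ i, δ ≤ Real.pi * A i ^ 2 := by
    refine ⟨Finset.univ.inf' Finset.univ_nonempty (fun i => Real.pi * A i ^ 2), ?_, ?_⟩
    · rw [Finset.lt_inf'_iff]
      intro i _
      have := hA i
      positivity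
    · intro i
      exact Finset.inf'_le _ (Finset.mem_univ i)
  obtain ⟨k0, C0, hC0, hq⟩ := (gauss_q_growth A).norm_iteratedFDeriv_le_uniform n
  refine ⟨n.factorial * (C0 + 1) ^ n * Real.exp (((k + k0 * n : ℕ) : ℝ) ^ 2 / (4 * δ)), fun x => ?_⟩
  have hx := norm_nonneg x
  set D : ℝ := (C0 + 1) * (1 + ‖x‖) ^ k0 with hD
  have h1p : (1 : ℝ) ≤ (1 + ‖x‖) ^ k0 := one_le_pow₀ (by linarith)
  have hD1 : 1 ≤ D := by
    rw [hD]
    nlinarith
  have hg : ContDiff ℝ (n : ℕ∞) (fun t : ℝ => Complex.exp (t : ℂ)) :=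
    (Complex.ofRealCLM.contDiff (n := (n : ℕ∞))).cexp
  have key := norm_iteratedFDeriv_comp_le (𝕜 := ℝ) (g := fun t : ℝ => Complex.exp (t : ℂ))
    (f := gauss_q A) (n := n) (N := (n : ℕ∞)) hg ((gauss_q_growth A).1.of_le (by exact_mod_cast le_top))
    le_rfl x (C := Real.exp (gauss_q A x)) (D := D) (by
      intro i _
      rw [norm_iteratedFDeriv_eq_norm_iteratedDeriv, gauss_deriv]
      simp [Complex.norm_exp]) (by
      intro i hi1 hin
      refine (hq i hin x).trans ?_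
      calc C0 * (1 + ‖x‖) ^ k0 ≤ D := by
            rw [hD]
            nlinarith
        _ ≤ D ^ i := by
            calc D = D ^ 1 := (pow_one D).symm
              _ ≤ D ^ i := pow_le_pow_right₀ hD1 hi1)
  have e1 : (fun t : ℝ => Complex.exp (t : ℂ)) ∘ gauss_q A = gauss_fun A := rfl
  rw [e1] at key
  have h2 : Real.exp (gauss_q A x) ≤ Real.exp (-δ * ‖x‖ ^ 2) :=
    Real.exp_le_exp.2 (gauss_q_le A δ hδA x)
  have h3 : ‖x‖ ^ k ≤ (1 + ‖x‖) ^ k := pow_le_pow_left₀ hx (by linarith) k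
  calc ‖x‖ ^ k * ‖iteratedFDeriv ℝ n (gauss_fun A) x‖
      ≤ (1 + ‖x‖) ^ k * (n.factorial * Real.exp (-δ * ‖x‖ ^ 2) * D ^ n) := by
        refine mul_le_mul h3 (key.trans ?_) (norm_nonneg _) (by positivity)
        have : 0 ≤ D ^ n := by positivity
        gcongr
    _ = n.factorial * (C0 + 1) ^ n * ((1 + ‖x‖) ^ (k + k0 * n) * Real.exp (-δ * ‖x‖ ^ 2)) := by
        rw [hD, mul_pow, ← pow_mul, pow_add]
        ring
    _ ≤ n.factorial * (C0 + 1) ^ n * Real.exp (((k + k0 * n : ℕ) : ℝ) ^ 2 / (4 * δ)) := by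
        refine mul_le_mul_of_nonneg_left (gauss_pow_exp _ δ hδ _ hx) (by positivity)

/-- the Gaussian as a Schwartz function -/
private noncomputable def gauss_schwartz (A : Fin 3 → ℝ) (hA : ∀ i, 0 < A i) : 𝓢(E3, ℂ) where
  toFun := gauss_fun A
  smooth' := gauss_smooth A
  decay' := gauss_decay A hA

private theorem gauss_factor (A x : ℝ) (hA : 0 < A) :
    ((Real.pi : ℂ) / (Real.pi * (A : ℂ) ^ 2)) ^ (1 / 2 : ℂ) *
      Complex.exp ((-2 * Real.pi * Complex.I * x) ^ 2 / (4 * (Real.pi * (A : ℂ) ^ 2))) =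
    ((A⁻¹ * Real.exp (-Real.pi * (x / A) ^ 2) : ℝ) : ℂ) := by
  have hpi : (Real.pi : ℂ) ≠ 0 := by exact_mod_cast Real.pi_ne_zero
  have hA' : (A : ℂ) ≠ 0 := by exact_mod_cast hA.ne'
  have e1 : (Real.pi : ℂ) / (Real.pi * (A : ℂ) ^ 2) = (((A⁻¹) ^ 2 : ℝ) : ℂ) := by
    push_cast
    field_simp
  have e2 : (1 / 2 : ℂ) = ((1 / 2 : ℝ) : ℂ) := by push_cast; rfl
  have e3 : (-2 * Real.pi * Complex.I * (x : ℂ)) ^ 2 / (4 * (Real.pi * (A : ℂ) ^ 2)) =
      ((-Real.pi * (x / A) ^ 2 : ℝ) : ℂ) := by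
    push_cast
    field_simp
    rw [Complex.I_sq]
    ring
  rw [e1, e2, ← Complex.ofReal_cpow (by positivity), e3, ← Complex.ofReal_exp, ← Complex.ofReal_mul]
  congr 2
  rw [← Real.sqrt_eq_rpow, Real.sqrt_sq (inv_nonneg.2 hA.le)]

private theorem gauss_fourier (A : Fin 3 → ℝ) (hA : ∀ i, 0 < A i) (x : E3) :
    𝓕 (gauss_fun A) x = ((∏ i, ((A i)⁻¹ * Real.exp (-Real.pi * (x i / A i) ^ 2)) : ℝ) : ℂ) := by
  rw [Real.fourier_eq', ← (PiLp.volume_preserving_toLp (Fin 3)).integral_comp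
    (MeasurableEquiv.toLp 2 _).measurableEmbedding]
  have hb : ∀ i, 0 < ((Real.pi : ℂ) * (A i : ℂ) ^ 2).re := by
    intro i
    have h := hA i
    have : ((Real.pi : ℂ) * (A i : ℂ) ^ 2) = ((Real.pi * A i ^ 2 : ℝ) : ℂ) := by push_cast; rfl
    rw [this, Complex.ofReal_re]
    positivity
  have h := GaussianFourier.integral_cexp_neg_sum_mul_add (ι := Fin 3)
    (b := fun i => (Real.pi : ℂ) * (A i : ℂ) ^ 2) hb (fun i => -2 * Real.pi * Complex.I * (x i : ℂ))
  rw [Complex.ofReal_prod]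
  refine Eq.trans ?_ (h.trans (Finset.prod_congr rfl fun i _ => gauss_factor (A i) (x i) (hA i)))
  congr 1
  funext v
  rw [smul_eq_mul, gauss_fun, ← Complex.exp_add]
  congr 1
  simp only [gauss_q, PiLp.inner_apply, RCLike.inner_apply, conj_trivial]
  push_cast
  simp only [Finset.mul_sum, Finset.sum_mul, ← Finset.sum_neg_distrib, ← Finset.sum_add_distrib]
  refine Finset.sum_congr rfl fun i _ => ?_
  ring

/-- JOB XA.  Anisotropic Gaussians.  `f(ξ) = abc·exp(-π(a²ξ₀²+b²ξ₁²+c²ξ₂²))`,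
`f̂(x) = exp(-π((x₀/a)²+(x₁/b)²+(x₂/c)²))`, `‖f‖_p = (abc)^{1-1/p} p^{-3/(2p)}`. -/
theorem gaussian_test (a b c : ℝ) (ha : 0 < a) (hb : 0 < b) (hc : 0 < c) : ∃ f : 𝓢(E3, ℂ),
    (∀ x : E3, 𝓕 (f : E3 → ℂ) x =
      (Real.exp (-Real.pi * ((x 0 / a) ^ 2 + (x 1 / b) ^ 2 + (x 2 / c) ^ 2)) : ℂ)) ∧
    ∀ p : ℝ, 1 ≤ p → eLpNorm (f : E3 → ℂ) (ENNReal.ofReal p) volume ≤
      ENNReal.ofReal ((a * b * c) ^ (1 - 1 / p)) := by
  set A : Fin 3 → ℝ := ![a, b, c] with hA'
  have hA : ∀ i, 0 < A i := by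
    intro i
    fin_cases i
    · exact ha
    · exact hb
    · exact hc
  set g : 𝓢(E3, ℂ) := gauss_schwartz A hA with hg
  set f : 𝓢(E3, ℂ) := ((a * b * c : ℝ) : ℂ) • g with hf
  have hfv : ∀ x, f x = ((a * b * c : ℝ) : ℂ) * gauss_fun A x := fun x => rfl
  have habc : 0 < a * b * c := by positivity
  have hF : ∀ x : E3, 𝓕 (f : E3 → ℂ) x =
      (Real.exp (-Real.pi * ((x 0 / a) ^ 2 + (x 1 / b) ^ 2 + (x 2 / c) ^ 2)) : ℂ) := by
    intro x
    have e1 : (f : E3 → ℂ) = ((a * b * c : ℝ) : ℂ) • gauss_fun A := by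
      funext x
      exact hfv x
    rw [e1, Real.fourier_eq']
    have e2 : (∫ v : E3, Complex.exp (((-2 * Real.pi * inner ℝ v x : ℝ) : ℂ) * Complex.I) •
        (((a * b * c : ℝ) : ℂ) • gauss_fun A) v) = ((a * b * c : ℝ) : ℂ) * 𝓕 (gauss_fun A) x := by
      rw [Real.fourier_eq', ← integral_const_mul]
      refine integral_congr_ae (Filter.Eventually.of_forall fun v => ?_)
      simp only [Pi.smul_apply, smul_eq_mul]
      ring
    rw [e2, gauss_fourier A hA x, ← Complex.ofReal_mul]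
    congr 1
    rw [Finset.prod_mul_distrib, ← Real.exp_sum, Fin.prod_univ_three, Fin.sum_univ_three]
    have e3 : A 0 = a := rfl
    have e4 : A 1 = b := rfl
    have e5 : A 2 = c := rfl
    rw [e3, e4, e5, ← mul_assoc]
    have e6 : a * b * c * (a⁻¹ * b⁻¹ * c⁻¹) = 1 := by field_simp
    rw [e6, one_mul]
    congr 1
    ring
  refine ⟨f, hF, fun p hp => ?_⟩
  -- the real density
  set w : E3 → ℝ := fun x => a * b * c * Real.exp (gauss_q A x) with hw
  have hfw : ∀ x, f x = ((w x : ℝ) : ℂ) := by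
    intro x
    rw [hfv, hw, gauss_fun]
    push_cast
    rfl
  have hw0 : ∀ x, 0 ≤ w x := fun x => by positivity
  have hwle : ∀ x, w x ≤ a * b * c := by
    intro x
    have h1 : gauss_q A x ≤ 0 := by
      have := gauss_q_le A 0 (fun i => by positivity) x
      simpa using this
    have h2 : Real.exp (gauss_q A x) ≤ 1 := Real.exp_le_one_iff.2 h1
    show a * b * c * Real.exp (gauss_q A x) ≤ a * b * c
    nlinarith
  have hint : ∫ x, w x = 1 := by
    have h1 := hF 0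
    rw [Real.fourier_eq'] at h1
    simp only [inner_zero_right, mul_zero, Complex.ofReal_zero, zero_mul, Complex.exp_zero,
      one_smul, PiLp.zero_apply, zero_div, ne_eq, OfNat.ofNat_ne_zero, not_false_eq_true,
      zero_pow, add_zero, Real.exp_zero, Complex.ofReal_one] at h1
    have h2 : ∫ x, f x = ((∫ x, w x : ℝ) : ℂ) := by
      rw [← integral_complex_ofReal]
      exact integral_congr_ae (Filter.Eventually.of_forall hfw)
    rw [h2] at h1
    exact_mod_cast h1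
  have hwi : Integrable w := by
    have h1 : Integrable (fun x => (f x).re) := f.integrable.re
    refine h1.congr (Filter.Eventually.of_forall fun x => ?_)
    simp only [hfw, Complex.ofReal_re]
  have hn : ∀ x, ‖f x‖ₑ = ENNReal.ofReal (w x) := by
    intro x
    rw [hfw, ← ofReal_norm, Complex.norm_real, Real.norm_of_nonneg (hw0 x)]
  have hl : ∫⁻ x, ‖f x‖ₑ = 1 := by
    simp only [hn]
    rw [← ofReal_integral_eq_lintegral_ofReal hwi (Filter.Eventually.of_forall hw0), hint,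
      ENNReal.ofReal_one]
  have hp0 : 0 < p := by linarith
  have hpr : (ENNReal.ofReal p).toReal = p := ENNReal.toReal_ofReal hp0.le
  rw [eLpNorm_eq_lintegral_rpow_enorm_toReal (by simpa using hp0) ENNReal.ofReal_ne_top, hpr]
  have hle : ∫⁻ x, ‖f x‖ₑ ^ p ≤ ENNReal.ofReal (a * b * c) ^ (p - 1) := by
    calc ∫⁻ x, ‖f x‖ₑ ^ p ≤ ∫⁻ x, ENNReal.ofReal (a * b * c) ^ (p - 1) * ‖f x‖ₑ := by
          refine lintegral_mono fun x => ?_
          have h1 : ‖f x‖ₑ ^ p = ‖f x‖ₑ ^ (p - 1) * ‖f x‖ₑ := by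
            have : ‖f x‖ₑ ^ p = ‖f x‖ₑ ^ ((p - 1) + 1) := by
              congr 1
              ring
            rw [this, ENNReal.rpow_add_of_nonneg _ _ (by linarith) zero_le_one, ENNReal.rpow_one]
          simp only [h1]
          gcongr
          rw [hn]
          exact ENNReal.ofReal_le_ofReal (hwle x)
      _ = ENNReal.ofReal (a * b * c) ^ (p - 1) := by
          rw [lintegral_const_mul' _ _ (ENNReal.rpow_ne_top_of_nonneg (by linarith)
            ENNReal.ofReal_ne_top), hl, mul_one]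
  calc (∫⁻ x, ‖f x‖ₑ ^ p) ^ (1 / p) ≤ (ENNReal.ofReal (a * b * c) ^ (p - 1)) ^ (1 / p) :=
        ENNReal.rpow_le_rpow hle (by positivity)
    _ = ENNReal.ofReal ((a * b * c) ^ (1 - 1 / p)) := by
        rw [← ENNReal.rpow_mul, ENNReal.ofReal_rpow_of_pos habc]
        congr 2
        field_simp

end Pool.Agent.FlatRes
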