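import Pool.Agent.Lib.MP_40a0b6_an.FamDef
set_option autoImplicit false
open MeasureTheory
open scoped ENNReal FourierTransform SchwartzMap
namespace Pool.Agent.FlatRes

/-- the two-sided geometric series -/
theorem rows_geom (c : ℝ) (hc : 0 < c) : ∑' z : ℤ, (2 : ℝ≥0∞) ^ (-c * |(z : ℝ)|) ≠ ⊤ := by
  have h1 : ∀ z : ℤ, (2 : ℝ≥0∞) ^ (-c * |(z : ℝ)|) = ENNReal.ofReal ((2 : ℝ) ^ (-c * |(z : ℝ)|)) := by
    intro z
    rw [← ENNReal.ofReal_rpow_of_pos (by norm_num)]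
    norm_num
  simp only [h1]
  apply Summable.tsum_ofReal_ne_top
  have h2 : Summable (fun n : ℕ => (2 : ℝ) ^ (-c * |((n : ℤ) : ℝ)|)) := by
    have h3 : (fun n : ℕ => (2 : ℝ) ^ (-c * |((n : ℤ) : ℝ)|)) = fun n : ℕ => ((2 : ℝ) ^ (-c)) ^ n := by
      funext n
      rw [← Real.rpow_natCast, ← Real.rpow_mul (by norm_num)]
      congr 1
      push_cast
      rw [abs_of_nonneg (Nat.cast_nonneg n)]
    rw [h3]
    apply summable_geometric_of_lt_one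
    · positivity
    · exact Real.rpow_lt_one_of_one_lt_of_neg (by norm_num) (by linarith)
  rw [summable_int_iff_summable_nat_and_neg]
  refine ⟨h2, ?_⟩
  have h4 : (fun n : ℕ => (2 : ℝ) ^ (-c * |((-(n : ℤ) : ℤ) : ℝ)|)) =
      fun n : ℕ => (2 : ℝ) ^ (-c * |((n : ℤ) : ℝ)|) := by
    funext n
    push_cast
    rw [abs_neg]
  rw [h4]
  exact h2

/-- sums over finite sets with an injection to `ℤ³` -/
theorem rows_gen (c : ℝ) (S : Finset (ℕ × ℕ × ℕ)) (φ : ℕ × ℕ × ℕ → ℤ × ℤ × ℤ)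
    (hφ : Function.Injective φ) :
    ∑ β ∈ S, (2 : ℝ≥0∞) ^ (-c * (|((φ β).1 : ℝ)| + |((φ β).2.1 : ℝ)| + |((φ β).2.2 : ℝ)|)) ≤
      (∑' z : ℤ, (2 : ℝ≥0∞) ^ (-c * |(z : ℝ)|)) ^ (3 : ℕ) := by
  set g : ℤ → ℝ≥0∞ := fun z => (2 : ℝ≥0∞) ^ (-c * |(z : ℝ)|) with hg
  set G : ℤ × ℤ × ℤ → ℝ≥0∞ := fun z => g z.1 * (g z.2.1 * g z.2.2) with hG
  have h1 : ∀ β ∈ S, (2 : ℝ≥0∞) ^ (-c * (|((φ β).1 : ℝ)| + |((φ β).2.1 : ℝ)| +
      |((φ β).2.2 : ℝ)|)) = G (φ β) := by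
    intro β _
    simp only [hG, hg]
    rw [← ENNReal.rpow_add _ _ (by norm_num) (by norm_num),
      ← ENNReal.rpow_add _ _ (by norm_num) (by norm_num)]
    congr 1
    ring
  rw [Finset.sum_congr rfl h1]
  calc ∑ β ∈ S, G (φ β) ≤ ∑' β, G (φ β) := ENNReal.sum_le_tsum S
    _ ≤ ∑' z, G z := ENNReal.tsum_comp_le_tsum_of_injective hφ G
    _ = (∑' z, g z) ^ (3 : ℕ) := by
      simp only [hG]
      rw [ENNReal.tsum_prod']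
      simp only [ENNReal.tsum_mul_left]
      rw [ENNReal.tsum_mul_right, ENNReal.tsum_prod']
      simp only [ENNReal.tsum_mul_left]
      rw [ENNReal.tsum_mul_right]
      ring

/-- JOB S1.  Row sums, case I: for fixed `α` sum over `β = (k,s,l)` with `m k ≤ s`; for given `k` and
`j = s+l-mk ∈ ℕ` there are `j+1` choices of `(s,l)`. -/
theorem row_caseI (m : ℕ) (c : ℝ) (hc : 0 < c) : ∃ T : ℝ≥0∞, T ≠ ⊤ ∧
    ∀ (S : Finset (ℕ × ℕ × ℕ)), (∀ β ∈ S, m * β.1 ≤ β.2.1) → ∀ α : ℕ × ℕ × ℕ, m * α.1 ≤ α.2.1 →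
      ∑ β ∈ S, (2 : ℝ≥0∞) ^ (-c * (jj m α + jj m β + |(α.1 : ℝ) - β.1|)) ≤ T := by
  refine ⟨(∑' z : ℤ, (2 : ℝ≥0∞) ^ (-c * |(z : ℝ)|)) ^ (3 : ℕ),
    ENNReal.pow_ne_top (rows_geom c hc), ?_⟩
  intro S hS α hα
  have hinj : Function.Injective (fun β : ℕ × ℕ × ℕ =>
      (((α.1 : ℤ) - β.1, (β.2.1 : ℤ) - m * β.1, (β.2.2 : ℤ)) : ℤ × ℤ × ℤ)) := by
    rintro ⟨a1, a2, a3⟩ ⟨b1, b2, b3⟩ h
    simp only [Prod.mk.injEq] at h
    obtain ⟨h1, h2, h3⟩ := h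
    have e1 : a1 = b1 := by omega
    subst e1
    have e2 : a2 = b2 := by omega
    have e3 : a3 = b3 := by omega
    rw [e2, e3]
  refine le_trans ?_ (rows_gen c S _ hinj)
  apply Finset.sum_le_sum
  intro β hβ
  apply ENNReal.rpow_le_rpow_of_exponent_le (by norm_num)
  have h1 : 0 ≤ jj m α := by
    unfold jj
    have : ((m * α.1 : ℕ) : ℝ) ≤ (α.2.1 : ℕ) := by exact_mod_cast hα
    push_cast at this
    have h2 : (0 : ℝ) ≤ α.2.2 := Nat.cast_nonneg _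
    linarith
  have h2 : (0 : ℝ) ≤ (β.2.1 : ℝ) - m * β.1 := by
    have : ((m * β.1 : ℕ) : ℝ) ≤ (β.2.1 : ℕ) := by exact_mod_cast hS β hβ
    push_cast at this
    linarith
  have h3 : (0 : ℝ) ≤ β.2.2 := Nat.cast_nonneg _
  push_cast
  rw [abs_of_nonneg h2, abs_of_nonneg h3]
  have h4 : jj m β = (β.2.1 : ℝ) - m * β.1 + β.2.2 := by
    unfold jj
    ring
  rw [h4]
  nlinarith

/-- JOB S2.  Row sums, case II. -/
theorem row_caseII (c : ℝ) (hc : 0 < c) : ∃ T : ℝ≥0∞, T ≠ ⊤ ∧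
    ∀ (S : Finset (ℕ × ℕ × ℕ)) (α : ℕ × ℕ × ℕ),
      ∑ β ∈ S, (2 : ℝ≥0∞) ^ (-c * (|(α.1 : ℝ) - β.1| + |(α.2.1 : ℝ) - β.2.1| +
        |(α.2.2 : ℝ) - β.2.2|)) ≤ T := by
  refine ⟨(∑' z : ℤ, (2 : ℝ≥0∞) ^ (-c * |(z : ℝ)|)) ^ (3 : ℕ),
    ENNReal.pow_ne_top (rows_geom c hc), ?_⟩
  intro S α
  have hinj : Function.Injective (fun β : ℕ × ℕ × ℕ =>
      (((α.1 : ℤ) - β.1, (α.2.1 : ℤ) - β.2.1, (α.2.2 : ℤ) - β.2.2) : ℤ × ℤ × ℤ)) := by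
    rintro ⟨a1, a2, a3⟩ ⟨b1, b2, b3⟩ h
    simp only [Prod.mk.injEq] at h
    obtain ⟨h1, h2, h3⟩ := h
    have e1 : a1 = b1 := by omega
    have e2 : a2 = b2 := by omega
    have e3 : a3 = b3 := by omega
    rw [e1, e2, e3]
  refine le_trans (le_of_eq ?_) (rows_gen c S _ hinj)
  apply Finset.sum_congr rfl
  intro β _
  push_cast
  rfl

end Pool.Agent.FlatRes
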