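import Pool.Agent.Lib.MP_40a0b6_an.BilI
import Pool.Agent.Lib.MP_40a0b6_an.BilII
import Pool.Agent.Lib.MP_40a0b6_an.Rows
import Pool.Agent.Lib.MP_40a0b6_an.Schur
set_option autoImplicit false
open MeasureTheory
open scoped ENNReal FourierTransform SchwartzMap
namespace Pool.Agent.FlatRes

theorem innerSum_caseI (n m : ℕ) (hn : 3 ≤ n) (hnm : n ≤ m) (C0 : ℝ≥0∞)
    (hC0 : C0 ≠ ⊤) : ∃ T : ℝ≥0∞, T ≠ ⊤ ∧ ∀ F M, Fam n m C0 F M → ∀ S : Finset (ℕ × ℕ × ℕ),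
      ∫⁻ ξ, ‖∑ α ∈ S, F α ξ‖ₑ ^ (pcrit n m) ≤ (T * ∑ α ∈ S, M α) ^ (pcrit n m / 2) := by
  classical
  obtain ⟨C, hC, c, hc, hbil⟩ := bil_caseI n m hn hnm C0 hC0
  obtain ⟨T, hT, hrow⟩ := row_caseI m c hc
  have hQ : 1 ≤ pcrit n m / 2 := by
    unfold pcrit
    rw [if_pos (by omega)]
    have : (0 : ℝ) ≤ (n * m : ℝ) / (m + 1) := by positivity
    linarith
  refine ⟨C * T, ENNReal.mul_ne_top hC hT, fun F M hF S => ?_⟩
  set S' := S.filter (fun α => m * α.1 ≤ α.2.1) with hS'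
  have hsum : ∀ ξ, ∑ α ∈ S, F α ξ = ∑ α ∈ S', F α ξ := by
    intro ξ
    rw [hS', Finset.sum_filter]
    refine Finset.sum_congr rfl fun α _ => ?_
    split_ifs with h
    · rfl
    · exact hF.zero α (not_le.1 h) ξ
  simp_rw [hsum]
  have key := schur_sum S' F hF.meas (pcrit n m / 2) hQ M
    (fun α β => C * (2 : ℝ≥0∞) ^ (-c * (jj m α + jj m β + |(α.1 : ℝ) - β.1|))) (C * T)
    (fun α hα β hβ => hbil F M hF α β (Finset.mem_filter.1 hα).2 (Finset.mem_filter.1 hβ).2)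
    (fun α β => by
      rw [add_comm (jj m α) (jj m β), abs_sub_comm])
    (fun α hα => by
      rw [← Finset.mul_sum]
      exact mul_le_mul_right (hrow S' (fun β hβ => (Finset.mem_filter.1 hβ).2) α
        (Finset.mem_filter.1 hα).2) C)
  have h2 : 2 * (pcrit n m / 2) = pcrit n m := by ring
  rw [h2] at key
  refine key.trans ?_
  refine ENNReal.rpow_le_rpow ?_ (by linarith)
  exact mul_le_mul_right (Finset.sum_le_sum_of_subset (Finset.filter_subset _ _)) _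

theorem innerSum_caseII (n m : ℕ) (hn : 4 ≤ n) (hm : 2 ≤ m) (hnm : m + 1 ≤ n) (C0 : ℝ≥0∞)
    (hC0 : C0 ≠ ⊤) : ∃ T : ℝ≥0∞, T ≠ ⊤ ∧ ∀ F M, Fam n m C0 F M → ∀ S : Finset (ℕ × ℕ × ℕ),
      ∫⁻ ξ, ‖∑ α ∈ S, F α ξ‖ₑ ^ (pcrit n m) ≤ (T * ∑ α ∈ S, M α) ^ (pcrit n m / 2) := by
  obtain ⟨C, hC, c, hc, hbil⟩ := bil_caseII n m hn hm hnm C0 hC0
  obtain ⟨T, hT, hrow⟩ := row_caseII c hc
  have hp : pcrit n m = 2 * n := by
    unfold pcrit
    split_ifs with h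
    · have h3 : n = m + 1 := by omega
      subst h3
      push_cast
      have : (m : ℝ) + 1 ≠ 0 := by positivity
      field_simp
    · rfl
  have hQ : (1 : ℝ) ≤ n := by exact_mod_cast (by omega : 1 ≤ n)
  refine ⟨C * T, ENNReal.mul_ne_top hC hT, fun F M hF S => ?_⟩
  have key := schur_sum S F hF.meas (n : ℝ) hQ M
    (fun α β => C * (2 : ℝ≥0∞) ^ (-c * (|(α.1 : ℝ) - β.1| + |(α.2.1 : ℝ) - β.2.1| +
      |(α.2.2 : ℝ) - β.2.2|))) (C * T)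
    (fun α _ β _ => hbil F M hF α β)
    (fun α β => by
      rw [abs_sub_comm (α.1 : ℝ), abs_sub_comm (α.2.1 : ℝ), abs_sub_comm (α.2.2 : ℝ)])
    (fun α hα => by
      rw [← Finset.mul_sum]
      exact mul_le_mul_right (hrow S α) C)
  rw [hp]
  have h2 : 2 * (n : ℝ) / 2 = n := by ring
  rw [h2]
  exact key

/-- JOB T2.  Combination of `bil_caseI`/`row_caseI` and `bil_caseII`/`row_caseII` with `schur_sum`:
the sum over the inner pieces. (`pcrit n m = 2 n` if `n ≥ m+1`.) -/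
theorem inner_sum (n m : ℕ) (hn : 3 ≤ n) (hm : 2 ≤ m) (h32 : ¬ (n = 3 ∧ m = 2)) (C0 : ℝ≥0∞)
    (hC0 : C0 ≠ ⊤) : ∃ T : ℝ≥0∞, T ≠ ⊤ ∧ ∀ F M, Fam n m C0 F M → ∀ S : Finset (ℕ × ℕ × ℕ),
      ∫⁻ ξ, ‖∑ α ∈ S, F α ξ‖ₑ ^ (pcrit n m) ≤ (T * ∑ α ∈ S, M α) ^ (pcrit n m / 2) := by
  by_cases hnm : n ≤ m
  · exact innerSum_caseI n m hn hnm C0 hC0
  · exact innerSum_caseII n m (by omega) hm (by omega) C0 hC0

end Pool.Agent.FlatRes
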