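import Pool.Agent.Lib.MP_40a0b6_an.Defs
set_option autoImplicit false
open MeasureTheory
open scoped ENNReal FourierTransform SchwartzMap
namespace Pool.Agent.FlatRes

/-- the heat kernel -/
noncomputable def lemA_K (b : ℝ) (y : E3) : ℝ :=
  (Real.pi / b) ^ (3 / 2 : ℝ) * Real.exp (-(Real.pi ^ 2 / b) * ‖y‖ ^ 2)

theorem lemA_K_nonneg {b : ℝ} (hb : 0 < b) (y : E3) : 0 ≤ lemA_K b y := by
  unfold lemA_K; positivity

theorem lemA_K_neg (b : ℝ) (x y : E3) : lemA_K b (x - y) = lemA_K b (y - x) := by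
  unfold lemA_K; rw [norm_sub_rev]

theorem lemA_K_cont (b : ℝ) : Continuous (lemA_K b) := by
  unfold lemA_K; fun_prop

theorem lemA_gauss {b : ℝ} (hb : 0 < b) : Integrable (fun y : E3 => Real.exp (-b * ‖y‖ ^ 2)) := by
  have h := (GaussianFourier.integrable_cexp_neg_mul_sq_norm_add (V := E3) (b := ((b : ℝ) : ℂ))
    (by simpa using hb) 0 0).norm
  refine h.congr (Filter.Eventually.of_forall fun y => ?_)
  simp only [Complex.norm_exp]
  congr 1
  simp only [zero_mul, add_zero]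
  norm_cast

theorem lemA_K_integrable {b : ℝ} (hb : 0 < b) : Integrable (lemA_K b) := by
  unfold lemA_K
  exact (lemA_gauss (by positivity)).const_mul _

theorem lemA_K_int {b : ℝ} (hb : 0 < b) : ∫⁻ y, ENNReal.ofReal (lemA_K b y) = 1 := by
  rw [← ofReal_integral_eq_lintegral_ofReal (lemA_K_integrable hb)
    (Filter.Eventually.of_forall (lemA_K_nonneg hb))]
  unfold lemA_K
  rw [integral_const_mul, GaussianFourier.integral_rexp_neg_mul_sq_norm (by positivity)]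
  have h3 : Module.finrank ℝ E3 = 3 := by simp
  rw [h3]
  have hpi := Real.pi_pos
  push_cast
  rw [← Real.mul_rpow (by positivity) (by positivity)]
  have : Real.pi / b * (Real.pi / (Real.pi ^ 2 / b)) = 1 := by field_simp
  rw [this]; simp

/-- the Gaussian Fourier integral -/
theorem lemA_fourier {b : ℝ} (hb : 0 < b) (w : E3) :
    ∫ v : E3, Complex.exp (((2 * Real.pi * inner ℝ v w : ℝ) : ℂ) * Complex.I) *
      ((Real.exp (-b * ‖v‖ ^ 2) : ℝ) : ℂ) = ((lemA_K b w : ℝ) : ℂ) := by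
  have h := GaussianFourier.integral_cexp_neg_mul_sq_norm_add (V := E3) (b := ((b : ℝ) : ℂ))
    (by simpa using hb) (2 * Real.pi * Complex.I) w
  have h3 : Module.finrank ℝ E3 = 3 := by simp
  rw [h3] at h
  have hb' : (b : ℂ) ≠ 0 := by exact_mod_cast hb.ne'
  calc _ = ∫ v : E3, Complex.exp (-(b : ℂ) * ‖v‖ ^ 2 + 2 * Real.pi * Complex.I * inner ℝ w v) := by
        congr 1
        ext v
        rw [Complex.ofReal_exp, ← Complex.exp_add, real_inner_comm]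
        congr 1
        push_cast
        ring
    _ = _ := by
        rw [h]
        unfold lemA_K
        push_cast
        have hpi := Real.pi_pos
        rw [Complex.ofReal_cpow (by positivity)]
        push_cast
        congr 2
        field_simp
        rw [Complex.I_sq]
        ring

theorem lemA_kernel {X : Type*} [MeasurableSpace X] (ν : Measure X)
    (Φ : X → E3) (hΦ : Measurable Φ) (D : ℝ≥0∞)
    (hD : ∀ A : Set E3, MeasurableSet A → ν (Φ ⁻¹' A) ≤ D * volume A) {b : ℝ} (hb : 0 < b) (z : E3) :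
    ∫⁻ x, ENNReal.ofReal (lemA_K b (z - Φ x)) ∂ν ≤ D := by
  have hm : Measurable (fun y : E3 => ENNReal.ofReal (lemA_K b (z - y))) := by
    apply ENNReal.measurable_ofReal.comp
    exact ((lemA_K_cont b).comp (by fun_prop)).measurable
  have hle : Measure.map Φ ν ≤ D • volume := by
    rw [Measure.le_iff]
    intro s hs
    rw [Measure.map_apply hΦ hs]
    simpa using hD s hs
  calc ∫⁻ x, ENNReal.ofReal (lemA_K b (z - Φ x)) ∂ν
      = ∫⁻ y, ENNReal.ofReal (lemA_K b (z - y)) ∂(Measure.map Φ ν) := by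
        rw [lintegral_map hm hΦ]
    _ ≤ ∫⁻ y, ENNReal.ofReal (lemA_K b (z - y)) ∂(D • volume) := lintegral_mono' hle le_rfl
    _ = D * ∫⁻ y, ENNReal.ofReal (lemA_K b (z - y)) := by rw [lintegral_smul_measure]; rfl
    _ = D * 1 := by
        rw [lintegral_sub_left_eq_self (fun y => ENNReal.ofReal (lemA_K b y)) z, lemA_K_int hb]
    _ = D := mul_one _

theorem lemA_young (a b : ℝ≥0∞) : 2 * (a * b) ≤ a ^ 2 + b ^ 2 := by
  rcases eq_or_ne a ⊤ with rfl | ha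
  · simp
  rcases eq_or_ne b ⊤ with rfl | hb
  · simp
  lift a to NNReal using ha
  lift b to NNReal using hb
  norm_cast
  have := two_mul_le_add_sq a b
  linarith [this]

/-- the regularized bound -/
theorem lemA_reg {X : Type*} [MeasurableSpace X] (ν : Measure X) [IsFiniteMeasure ν]
    (Φ : X → E3) (hΦ : Measurable Φ) (h : X → ℂ) (hh : BddMeas h) (D : ℝ≥0∞)
    (hD : ∀ A : Set E3, MeasurableSet A → ν (Φ ⁻¹' A) ≤ D * volume A) {b : ℝ} (hb : 0 < b) :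
    ∫⁻ ξ, ‖extN ν Φ h ξ‖ₑ ^ (2 : ℕ) * ENNReal.ofReal (Real.exp (-b * ‖ξ‖ ^ 2)) ≤
      D * ∫⁻ x, ‖h x‖ₑ ^ (2 : ℕ) ∂ν := by
  obtain ⟨hmeas, M, hM⟩ := hh
  obtain ⟨e, he⟩ : ∃ e : E3 → X → ℂ, e = fun ξ x =>
    Complex.exp (((2 * Real.pi * inner ℝ ξ (Φ x) : ℝ) : ℂ) * Complex.I) := ⟨_, rfl⟩
  have hen : ∀ ξ x, ‖e ξ x‖ = 1 := fun ξ x => by rw [he]; exact Complex.norm_exp_ofReal_mul_I _
  set G : E3 → ℂ := extN ν Φ h with hG
  have hem : Measurable (fun q : E3 × X => e q.1 q.2) := by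
    simp only [he]
    fun_prop
  obtain ⟨F, hF⟩ : ∃ F : E3 → X × X → ℂ, F = fun ξ p => ((Real.exp (-b * ‖ξ‖ ^ 2) : ℝ) : ℂ) *
    ((e ξ p.1 * h p.1) * (starRingEnd ℂ) (e ξ p.2 * h p.2)) := ⟨_, rfl⟩
  have hFn : ∀ ξ p, ‖F ξ p‖ = Real.exp (-b * ‖ξ‖ ^ 2) * (‖h p.1‖ * ‖h p.2‖) := by
    intro ξ p
    simp only [hF, norm_mul, RCLike.norm_conj, hen, one_mul]
    rw [Complex.norm_real, Real.norm_eq_abs, abs_of_pos (Real.exp_pos _)]
  have hgint := lemA_gauss hb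
  have hFint : Integrable (Function.uncurry F) (volume.prod (ν.prod ν)) := by
    have h1 : Integrable (fun z : E3 × (X × X) => Real.exp (-b * ‖z.1‖ ^ 2) * (M ^ 2))
        (volume.prod (ν.prod ν)) := hgint.mul_prod (integrable_const (M ^ 2))
    refine h1.mono' ?_ (Filter.Eventually.of_forall fun z => ?_)
    · apply Measurable.aestronglyMeasurable
      rw [Function.uncurry_def, hF]
      have m1 : Measurable (fun z : E3 × (X × X) => e z.1 z.2.1) :=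
        hem.comp (measurable_fst.prodMk (measurable_fst.comp measurable_snd))
      have m2 : Measurable (fun z : E3 × (X × X) => e z.1 z.2.2) :=
        hem.comp (measurable_fst.prodMk (measurable_snd.comp measurable_snd))
      have m3 : Measurable (fun z : E3 × (X × X) => h z.2.1) :=
        hmeas.comp (measurable_fst.comp measurable_snd)
      have m4 : Measurable (fun z : E3 × (X × X) => h z.2.2) :=
        hmeas.comp (measurable_snd.comp measurable_snd)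
      have m5 : Measurable (fun z : E3 × (X × X) => ((Real.exp (-b * ‖z.1‖ ^ 2) : ℝ) : ℂ)) := by
        fun_prop
      exact m5.mul ((m1.mul m3).mul (Complex.continuous_conj.measurable.comp (m2.mul m4)))
    · show ‖F z.1 z.2‖ ≤ _
      rw [hFn]
      have a1 := hM z.2.1
      have a2 := hM z.2.2
      have a3 := norm_nonneg (h z.2.1)
      have a4 := norm_nonneg (h z.2.2)
      have : ‖h z.2.1‖ * ‖h z.2.2‖ ≤ M ^ 2 := by nlinarith
      exact mul_le_mul_of_nonneg_left this (Real.exp_pos _).le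
  -- inner integral over p
  have hGG : ∀ ξ, ∫ p, F ξ p ∂(ν.prod ν) = ((‖G ξ‖ ^ 2 * Real.exp (-b * ‖ξ‖ ^ 2) : ℝ) : ℂ) := by
    intro ξ
    simp only [hF]
    rw [integral_const_mul, integral_prod_mul (fun x => e ξ x * h x)
      (fun x => (starRingEnd ℂ) (e ξ x * h x)), integral_conj]
    have : ∫ x, e ξ x * h x ∂ν = G ξ := by rw [he, hG]; rfl
    rw [this, Complex.mul_conj, Complex.normSq_eq_norm_sq]
    push_cast
    ring
  -- inner integral over ξ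
  have hKK : ∀ p : X × X, ∫ ξ, F ξ p = ((lemA_K b (Φ p.1 - Φ p.2) : ℝ) : ℂ) *
      (h p.1 * (starRingEnd ℂ) (h p.2)) := by
    intro p
    rw [← lemA_fourier hb, ← integral_mul_const]
    congr 1
    ext ξ
    simp only [hF, he, map_mul]
    rw [← Complex.exp_conj]
    have : (starRingEnd ℂ) (((2 * Real.pi * inner ℝ ξ (Φ p.2) : ℝ) : ℂ) * Complex.I) =
        -(((2 * Real.pi * inner ℝ ξ (Φ p.2) : ℝ) : ℂ) * Complex.I) := by
      rw [map_mul, Complex.conj_ofReal, Complex.conj_I]; ring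
    rw [this, inner_sub_right]
    have h2 : Complex.exp (((2 * Real.pi * (inner ℝ ξ (Φ p.1) - inner ℝ ξ (Φ p.2)) : ℝ) : ℂ) * Complex.I) =
        Complex.exp (((2 * Real.pi * inner ℝ ξ (Φ p.1) : ℝ) : ℂ) * Complex.I) *
        Complex.exp (-(((2 * Real.pi * inner ℝ ξ (Φ p.2) : ℝ) : ℂ) * Complex.I)) := by
      rw [← Complex.exp_add]
      congr 1
      push_cast
      ring
    rw [h2]
    ring
  have hswap : ∫ ξ, (∫ p, F ξ p ∂(ν.prod ν)) = ∫ p, (∫ ξ, F ξ p) ∂(ν.prod ν) :=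
    integral_integral_swap hFint
  simp only [hGG, hKK] at hswap
  -- the left side
  have hGint : Integrable (fun ξ => ‖G ξ‖ ^ 2 * Real.exp (-b * ‖ξ‖ ^ 2)) := by
    have h1 := hFint.integral_prod_left
    have h2 : Integrable (fun ξ => ((‖G ξ‖ ^ 2 * Real.exp (-b * ‖ξ‖ ^ 2) : ℝ) : ℂ)) :=
      h1.congr (Filter.Eventually.of_forall fun ξ => hGG ξ)
    exact h2.re
  have hL : ∫⁻ ξ, ‖G ξ‖ₑ ^ (2 : ℕ) * ENNReal.ofReal (Real.exp (-b * ‖ξ‖ ^ 2)) =
      ‖∫ ξ, ((‖G ξ‖ ^ 2 * Real.exp (-b * ‖ξ‖ ^ 2) : ℝ) : ℂ)‖ₑ := by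
    rw [integral_complex_ofReal]
    rw [← ofReal_norm, Complex.norm_real, Real.norm_eq_abs, abs_of_nonneg
      (integral_nonneg fun ξ => by positivity), ofReal_integral_eq_lintegral_ofReal hGint
      (Filter.Eventually.of_forall fun ξ => by positivity)]
    apply lintegral_congr
    intro ξ
    rw [ENNReal.ofReal_mul (by positivity), ENNReal.ofReal_pow (norm_nonneg _), ofReal_norm]
  rw [hL, hswap]
  have hmh : Measurable (fun x => ‖h x‖ₑ ^ (2 : ℕ)) := hmeas.enorm.pow_const 2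
  have hmK : Measurable (fun p : X × X => ENNReal.ofReal (lemA_K b (Φ p.1 - Φ p.2))) := by
    apply ENNReal.measurable_ofReal.comp
    exact (lemA_K_cont b).measurable.comp ((hΦ.comp measurable_fst).sub (hΦ.comp measurable_snd))
  have hmA : Measurable (fun p : X × X => ‖h p.1‖ₑ ^ (2 : ℕ) *
      ENNReal.ofReal (lemA_K b (Φ p.1 - Φ p.2))) := (hmh.comp measurable_fst).mul hmK
  have hmB : Measurable (fun p : X × X => ‖h p.2‖ₑ ^ (2 : ℕ) *
      ENNReal.ofReal (lemA_K b (Φ p.1 - Φ p.2))) := (hmh.comp measurable_snd).mul hmK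
  have hA : ∫⁻ p, ‖h p.1‖ₑ ^ (2 : ℕ) * ENNReal.ofReal (lemA_K b (Φ p.1 - Φ p.2)) ∂(ν.prod ν) ≤
      D * ∫⁻ x, ‖h x‖ₑ ^ (2 : ℕ) ∂ν := by
    rw [lintegral_prod _ hmA.aemeasurable]
    rw [← lintegral_const_mul _ hmh]
    apply lintegral_mono
    intro x
    simp only
    rw [lintegral_const_mul' _ _ (by simp), mul_comm D]
    exact mul_le_mul_right (lemA_kernel ν Φ hΦ D hD hb (Φ x)) _
  have hB : ∫⁻ p, ‖h p.2‖ₑ ^ (2 : ℕ) * ENNReal.ofReal (lemA_K b (Φ p.1 - Φ p.2)) ∂(ν.prod ν) ≤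
      D * ∫⁻ x, ‖h x‖ₑ ^ (2 : ℕ) ∂ν := by
    rw [lintegral_prod_symm _ hmB.aemeasurable]
    rw [← lintegral_const_mul _ hmh]
    apply lintegral_mono
    intro x
    simp only
    rw [lintegral_const_mul' _ _ (by simp), mul_comm D]
    refine mul_le_mul_right ?_ _
    have := lemA_kernel ν Φ hΦ D hD hb (Φ x)
    refine le_trans (le_of_eq ?_) this
    apply lintegral_congr
    intro y
    rw [lemA_K_neg]
  have h2 : 2 * ‖∫ p, ((lemA_K b (Φ p.1 - Φ p.2) : ℝ) : ℂ) * (h p.1 * (starRingEnd ℂ) (h p.2)) ∂(ν.prod ν)‖ₑ ≤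
      2 * (D * ∫⁻ x, ‖h x‖ₑ ^ (2 : ℕ) ∂ν) := by
    calc _ ≤ 2 * ∫⁻ p, ‖((lemA_K b (Φ p.1 - Φ p.2) : ℝ) : ℂ) * (h p.1 * (starRingEnd ℂ) (h p.2))‖ₑ ∂(ν.prod ν) := by
          gcongr
          exact enorm_integral_le_lintegral_enorm _
      _ = ∫⁻ p, 2 * ‖((lemA_K b (Φ p.1 - Φ p.2) : ℝ) : ℂ) * (h p.1 * (starRingEnd ℂ) (h p.2))‖ₑ ∂(ν.prod ν) := by
          rw [lintegral_const_mul' _ _ (by simp)]
      _ ≤ ∫⁻ p, (‖h p.1‖ₑ ^ (2 : ℕ) * ENNReal.ofReal (lemA_K b (Φ p.1 - Φ p.2)) +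
            ‖h p.2‖ₑ ^ (2 : ℕ) * ENNReal.ofReal (lemA_K b (Φ p.1 - Φ p.2))) ∂(ν.prod ν) := by
          apply lintegral_mono
          intro p
          simp only
          rw [enorm_mul, enorm_mul]
          have e1 : ‖(starRingEnd ℂ) (h p.2)‖ₑ = ‖h p.2‖ₑ := by
            rw [← ofReal_norm, ← ofReal_norm, RCLike.norm_conj]
          have e2 : ‖((lemA_K b (Φ p.1 - Φ p.2) : ℝ) : ℂ)‖ₑ = ENNReal.ofReal (lemA_K b (Φ p.1 - Φ p.2)) := by
            rw [← ofReal_norm, Complex.norm_real, Real.norm_eq_abs, abs_of_nonneg (lemA_K_nonneg hb _)]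
          rw [e1, e2, ← add_mul]
          calc _ = (2 * (‖h p.1‖ₑ * ‖h p.2‖ₑ)) * ENNReal.ofReal (lemA_K b (Φ p.1 - Φ p.2)) := by ring
            _ ≤ _ := mul_le_mul_left (lemA_young _ _) _
      _ = ∫⁻ p, ‖h p.1‖ₑ ^ (2 : ℕ) * ENNReal.ofReal (lemA_K b (Φ p.1 - Φ p.2)) ∂(ν.prod ν) +
            ∫⁻ p, ‖h p.2‖ₑ ^ (2 : ℕ) * ENNReal.ofReal (lemA_K b (Φ p.1 - Φ p.2)) ∂(ν.prod ν) :=
          lintegral_add_left hmA _
      _ ≤ D * ∫⁻ x, ‖h x‖ₑ ^ (2 : ℕ) ∂ν + D * ∫⁻ x, ‖h x‖ₑ ^ (2 : ℕ) ∂ν := add_le_add hA hB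
      _ = _ := by rw [two_mul]
  exact (ENNReal.mul_le_mul_iff_right (by simp) (by simp)).mp h2

/-- JOB A.  Density bound implies an `L²` bound for the extension operator.

Proof.  Put `G = extN ν Φ h` (bounded, continuous: dominated convergence, `ν` finite, `h` bounded).
For a Schwartz function `k`, Fubini gives `∫ G k = ∫ h(x) (𝓕⁻ k)(Φ x) dν(x)`; by Cauchy–Schwarz
`|∫ G k|² ≤ ∫|h|² dν · ∫ |𝓕⁻k|² ∘ Φ dν ≤ ∫|h|²dν · D ∫ |𝓕⁻ k|² = D ∫|h|² ∫ |k|²`
(`Measure.map Φ ν ≤ D • volume`, `lintegral_map`, and Plancherel for Schwartz functions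
`SchwartzMap.integral_norm_sq_fourier`).  Take smooth compactly supported cutoffs `0 ≤ χ_R ≤ 1`,
`χ_R = 1` on the ball of radius `R`.  `χ_R G ∈ L²`, and for Schwartz `k` also `χ_R k` is Schwartz with
`‖χ_R k‖₂ ≤ ‖k‖₂`; by density of Schwartz functions in `L²` (`SchwartzMap.denseRange_toLpCLM`)
`‖χ_R G‖₂² ≤ D ∫|h|²`.  Let `R → ∞` (monotone convergence). -/
theorem ext_plancherel {X : Type*} [MeasurableSpace X] (ν : Measure X) [IsFiniteMeasure ν]
    (Φ : X → E3) (hΦ : Measurable Φ) (h : X → ℂ) (hh : BddMeas h) (D : ℝ≥0∞) (hD0 : D ≠ ⊤)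
    (hD : ∀ A : Set E3, MeasurableSet A → ν (Φ ⁻¹' A) ≤ D * volume A) :
    ∫⁻ ξ, ‖extN ν Φ h ξ‖ₑ ^ (2 : ℕ) ≤ D * ∫⁻ x, ‖h x‖ₑ ^ (2 : ℕ) ∂ν := by
  have hGm : Measurable (extN ν Φ h) := by
    have h1 : StronglyMeasurable (Function.uncurry (fun (ξ : E3) (x : X) =>
        Complex.exp (((2 * Real.pi * inner ℝ ξ (Φ x) : ℝ) : ℂ) * Complex.I) * h x)) := by
      apply Measurable.stronglyMeasurable
      have h2 := hh.1
      simp only [Function.uncurry_def]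
      fun_prop
    exact h1.integral_prod_right.measurable
  have hlim : ∀ ξ : E3, Filter.Tendsto (fun n : ℕ => ‖extN ν Φ h ξ‖ₑ ^ (2 : ℕ) *
      ENNReal.ofReal (Real.exp (-(1 / ((n : ℝ) + 1)) * ‖ξ‖ ^ 2))) Filter.atTop
      (nhds (‖extN ν Φ h ξ‖ₑ ^ (2 : ℕ))) := by
    intro ξ
    have h1 : Filter.Tendsto (fun n : ℕ => Real.exp (-(1 / ((n : ℝ) + 1)) * ‖ξ‖ ^ 2)) Filter.atTop (nhds 1) := by
      have h2 : Filter.Tendsto (fun n : ℕ => -(1 / ((n : ℝ) + 1)) * ‖ξ‖ ^ 2) Filter.atTop (nhds 0) := by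
        have := (tendsto_one_div_add_atTop_nhds_zero_nat (𝕜 := ℝ)).neg.mul_const (‖ξ‖ ^ 2)
        simpa using this
      have h5 := (Real.continuous_exp.tendsto 0).comp h2
      rw [Real.exp_zero] at h5
      exact h5
    have h3 := ENNReal.tendsto_ofReal h1
    have h4 := ENNReal.Tendsto.const_mul (a := ‖extN ν Φ h ξ‖ₑ ^ (2 : ℕ)) h3 (Or.inl (by simp))
    simpa using h4
  calc ∫⁻ ξ, ‖extN ν Φ h ξ‖ₑ ^ (2 : ℕ)
      = ∫⁻ ξ, Filter.liminf (fun n : ℕ => ‖extN ν Φ h ξ‖ₑ ^ (2 : ℕ) *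
          ENNReal.ofReal (Real.exp (-(1 / ((n : ℝ) + 1)) * ‖ξ‖ ^ 2))) Filter.atTop := by
        apply lintegral_congr
        intro ξ
        rw [(hlim ξ).liminf_eq]
    _ ≤ Filter.liminf (fun n : ℕ => ∫⁻ ξ, ‖extN ν Φ h ξ‖ₑ ^ (2 : ℕ) *
          ENNReal.ofReal (Real.exp (-(1 / ((n : ℝ) + 1)) * ‖ξ‖ ^ 2))) Filter.atTop := by
        apply lintegral_liminf_le
        intro n
        apply (hGm.enorm.pow_const 2).mul
        fun_prop
    _ ≤ D * ∫⁻ x, ‖h x‖ₑ ^ (2 : ℕ) ∂ν := by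
        apply Filter.liminf_le_of_le
        · isBoundedDefault
        · intro c hc
          obtain ⟨n, hn⟩ := hc.exists
          exact hn.trans (lemA_reg ν Φ hΦ h hh D hD (by positivity))

end Pool.Agent.FlatRes
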