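import Pool.Agent.Lib.MP_40a0b6_an.LemA
set_option autoImplicit false
open MeasureTheory
open scoped ENNReal FourierTransform SchwartzMap
namespace Pool.Agent.FlatRes

/-- JOB B (four small statements).  The extension operator is continuous (dominated convergence). -/
theorem ext_continuous {X : Type*} [MeasurableSpace X] (ν : Measure X) [IsFiniteMeasure ν]
    (Φ : X → E3) (hΦ : Measurable Φ) (h : X → ℂ) (hh : BddMeas h) :
    Continuous (extN ν Φ h) := by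
  obtain ⟨hm, M, hM⟩ := hh
  unfold extN
  refine continuous_of_dominated (bound := fun _ => M) ?_ ?_ (integrable_const M) ?_
  · intro ξ
    apply Measurable.aestronglyMeasurable
    fun_prop
  · intro ξ
    refine Filter.Eventually.of_forall fun x => ?_
    rw [norm_mul, Complex.norm_exp_ofReal_mul_I, one_mul]
    exact hM x
  · refine Filter.Eventually.of_forall fun x => ?_
    fun_prop

/-- products of extension operators (`integral_prod_mul`, `exp` of a sum, `inner_add_right`). -/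
theorem ext_mul {X Y : Type*} [MeasurableSpace X] [MeasurableSpace Y] (ν : Measure X)
    [IsFiniteMeasure ν] (ν' : Measure Y) [IsFiniteMeasure ν'] (Φ : X → E3) (Φ' : Y → E3)
    (h : X → ℂ) (h' : Y → ℂ) (ξ : E3) :
    extN ν Φ h ξ * extN ν' Φ' h' ξ =
      extN (ν.prod ν') (fun p => Φ p.1 + Φ' p.2) (fun p => h p.1 * h' p.2) ξ := by
  unfold extN
  rw [← integral_prod_mul]
  congr 1
  ext p
  rw [inner_add_right]
  have h2 : Complex.exp (((2 * Real.pi * (inner ℝ ξ (Φ p.1) + inner ℝ ξ (Φ' p.2)) : ℝ) : ℂ) * Complex.I) =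
      Complex.exp (((2 * Real.pi * inner ℝ ξ (Φ p.1) : ℝ) : ℂ) * Complex.I) *
      Complex.exp (((2 * Real.pi * inner ℝ ξ (Φ' p.2) : ℝ) : ℂ) * Complex.I) := by
    rw [← Complex.exp_add]
    congr 1
    push_cast
    ring
  rw [h2]
  ring

theorem lemB_bdd {X Y : Type*} [MeasurableSpace X] [MeasurableSpace Y] {h : X → ℂ} {h' : Y → ℂ}
    (hh : BddMeas h) (hh' : BddMeas h') : BddMeas (fun p : X × Y => h p.1 * h' p.2) := by
  obtain ⟨hm, M, hM⟩ := hh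
  obtain ⟨hm', M', hM'⟩ := hh'
  refine ⟨(hm.comp measurable_fst).mul (hm'.comp measurable_snd), M * M', fun p => ?_⟩
  rw [norm_mul]
  have a1 := hM p.1
  have a2 := hM' p.2
  exact mul_le_mul a1 a2 (norm_nonneg _) ((norm_nonneg _).trans a1)

theorem lemB_mass {X Y : Type*} [MeasurableSpace X] [MeasurableSpace Y] (ν : Measure X)
    [IsFiniteMeasure ν] (ν' : Measure Y) [IsFiniteMeasure ν'] {h : X → ℂ} {h' : Y → ℂ}
    (hh : Measurable h) (hh' : Measurable h') :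
    ∫⁻ p, ‖h p.1 * h' p.2‖ₑ ^ (2 : ℕ) ∂(ν.prod ν') =
      (∫⁻ x, ‖h x‖ₑ ^ (2 : ℕ) ∂ν) * ∫⁻ y, ‖h' y‖ₑ ^ (2 : ℕ) ∂ν' := by
  rw [← lintegral_prod_mul (hh.enorm.pow_const 2).aemeasurable (hh'.enorm.pow_const 2).aemeasurable]
  congr 1
  ext p
  rw [enorm_mul, mul_pow]

/-- `L⁶` bound from the density of the threefold convolution: apply `ext_plancherel` to
`(extN ν Φ h)^3 = extN (ν × (ν × ν)) ...` and `lintegral_prod_mul`. -/
theorem six_of_density {X : Type*} [MeasurableSpace X] (ν : Measure X) [IsFiniteMeasure ν]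
    (Φ : X → E3) (hΦ : Measurable Φ) (h : X → ℂ) (hh : BddMeas h) (D : ℝ≥0∞) (hD0 : D ≠ ⊤)
    (hD : ∀ A : Set E3, MeasurableSet A →
      (ν.prod (ν.prod ν)) {p | Φ p.1 + (Φ p.2.1 + Φ p.2.2) ∈ A} ≤ D * volume A) :
    ∫⁻ ξ, ‖extN ν Φ h ξ‖ₑ ^ (6 : ℕ) ≤ D * (∫⁻ x, ‖h x‖ₑ ^ (2 : ℕ) ∂ν) ^ (3 : ℕ) := by
  have hb2 := lemB_bdd hh hh
  have hb3 := lemB_bdd hh hb2
  have key := ext_plancherel (ν.prod (ν.prod ν)) (fun p => Φ p.1 + (Φ p.2.1 + Φ p.2.2))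
    (by fun_prop) (fun p => h p.1 * (h p.2.1 * h p.2.2)) hb3 D hD0 hD
  calc ∫⁻ ξ, ‖extN ν Φ h ξ‖ₑ ^ (6 : ℕ)
      = ∫⁻ ξ, ‖extN (ν.prod (ν.prod ν)) (fun p => Φ p.1 + (Φ p.2.1 + Φ p.2.2))
          (fun p => h p.1 * (h p.2.1 * h p.2.2)) ξ‖ₑ ^ (2 : ℕ) := by
        apply lintegral_congr
        intro ξ
        have e1 := ext_mul ν ν Φ Φ h h ξ
        have e2 := ext_mul ν (ν.prod ν) Φ (fun p => Φ p.1 + Φ p.2) h (fun p => h p.1 * h p.2) ξ
        rw [← e2, ← e1, enorm_mul, enorm_mul]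
        ring
    _ ≤ _ := key
    _ = _ := by
        have m1 := lemB_mass ν (ν.prod ν) (h := h) (h' := fun p : X × X => h p.1 * h p.2) hh.1 hb2.1
        have m2 := lemB_mass ν ν (h := h) (h' := h) hh.1 hh.1
        rw [m1, m2]
        ring

/-- the same with three copies of one measure and one copy of another. -/
theorem eight_of_density {X Y : Type*} [MeasurableSpace X] [MeasurableSpace Y] (ν : Measure X)
    [IsFiniteMeasure ν] (ν' : Measure Y) [IsFiniteMeasure ν'] (Φ : X → E3) (hΦ : Measurable Φ)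
    (Φ' : Y → E3) (hΦ' : Measurable Φ') (h : X → ℂ) (hh : BddMeas h) (h' : Y → ℂ)
    (hh' : BddMeas h') (D : ℝ≥0∞) (hD0 : D ≠ ⊤)
    (hD : ∀ A : Set E3, MeasurableSet A →
      ((ν.prod (ν.prod ν)).prod ν') {p | (Φ p.1.1 + (Φ p.1.2.1 + Φ p.1.2.2)) + Φ' p.2 ∈ A}
        ≤ D * volume A) :
    ∫⁻ ξ, ‖extN ν Φ h ξ‖ₑ ^ (6 : ℕ) * ‖extN ν' Φ' h' ξ‖ₑ ^ (2 : ℕ) ≤
      D * (∫⁻ x, ‖h x‖ₑ ^ (2 : ℕ) ∂ν) ^ (3 : ℕ) * ∫⁻ y, ‖h' y‖ₑ ^ (2 : ℕ) ∂ν' := by
  have hb2 := lemB_bdd hh hh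
  have hb3 := lemB_bdd hh hb2
  have hb4 := lemB_bdd hb3 hh'
  have key := ext_plancherel ((ν.prod (ν.prod ν)).prod ν')
    (fun p => (Φ p.1.1 + (Φ p.1.2.1 + Φ p.1.2.2)) + Φ' p.2)
    (by fun_prop) (fun p => (h p.1.1 * (h p.1.2.1 * h p.1.2.2)) * h' p.2) hb4 D hD0 hD
  calc ∫⁻ ξ, ‖extN ν Φ h ξ‖ₑ ^ (6 : ℕ) * ‖extN ν' Φ' h' ξ‖ₑ ^ (2 : ℕ)
      = ∫⁻ ξ, ‖extN ((ν.prod (ν.prod ν)).prod ν') (fun p => (Φ p.1.1 + (Φ p.1.2.1 + Φ p.1.2.2)) + Φ' p.2)
          (fun p => (h p.1.1 * (h p.1.2.1 * h p.1.2.2)) * h' p.2) ξ‖ₑ ^ (2 : ℕ) := by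
        apply lintegral_congr
        intro ξ
        have e1 := ext_mul ν ν Φ Φ h h ξ
        have e2 := ext_mul ν (ν.prod ν) Φ (fun p => Φ p.1 + Φ p.2) h (fun p => h p.1 * h p.2) ξ
        have e3 := ext_mul (ν.prod (ν.prod ν)) ν' (fun p => Φ p.1 + (Φ p.2.1 + Φ p.2.2)) Φ'
          (fun p => h p.1 * (h p.2.1 * h p.2.2)) h' ξ
        rw [← e3, ← e2, ← e1, enorm_mul, enorm_mul, enorm_mul]
        ring
    _ ≤ _ := key
    _ = _ := by
        have m0 := lemB_mass (ν.prod (ν.prod ν)) ν' (h := fun p : X × X × X => h p.1 * (h p.2.1 * h p.2.2))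
          (h' := h') hb3.1 hh'.1
        have m1 := lemB_mass ν (ν.prod ν) (h := h) (h' := fun p : X × X => h p.1 * h p.2) hh.1 hb2.1
        have m2 := lemB_mass ν ν (h := h) (h' := h) hh.1 hh.1
        rw [m0, m1, m2]
        ring

end Pool.Agent.FlatRes
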