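import Pool.Agent.Lib.MP_40a0b6_an.N2Defs
import Pool.Agent.Lib.MP_40a0b6_an.Cover
import Pool.Agent.Lib.MP_40a0b6_an.Dens3
set_option autoImplicit false
open MeasureTheory
open scoped ENNReal FourierTransform SchwartzMap
namespace Pool.Agent.FlatRes

/-- from short intervals to all intervals -/
theorem N2Dens_Ioc (ν : Measure ℝ) (D τ0 : ℝ) (hD : 0 ≤ D) (hτ : 0 < τ0)
    (H : ∀ β β' : ℝ, β < β' → β' ≤ β + τ0 → ν (Set.Ioc β β') ≤ ENNReal.ofReal (D * (β' - β)))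
    (β β' : ℝ) (hβ : β < β') : ν (Set.Ioc β β') ≤ ENNReal.ofReal (D * (β' - β)) := by
  have key : ∀ (n : ℕ) (β β' : ℝ), β < β' → β' ≤ β + n * τ0 →
      ν (Set.Ioc β β') ≤ ENNReal.ofReal (D * (β' - β)) := by
    intro n
    induction n with
    | zero =>
      intro β β' h1 h2
      simp only [Nat.cast_zero, zero_mul, add_zero] at h2
      exact absurd h1 (not_lt.2 h2)
    | succ n ih =>
      intro β β' h1 h2
      by_cases h3 : β' ≤ β + τ0
      · exact H β β' h1 h3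
      · push Not at h3
        have h4 : Set.Ioc β β' ⊆ Set.Ioc β (β + τ0) ∪ Set.Ioc (β + τ0) β' := by
          intro x hx
          rcases le_or_gt x (β + τ0) with h | h
          · exact Or.inl ⟨hx.1, h⟩
          · exact Or.inr ⟨h, hx.2⟩
        have h5 := H β (β + τ0) (by linarith) le_rfl
        have h6 := ih (β + τ0) β' h3 (by push_cast at h2; linarith)
        calc ν (Set.Ioc β β') ≤ ν (Set.Ioc β (β + τ0) ∪ Set.Ioc (β + τ0) β') := measure_mono h4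
          _ ≤ ν (Set.Ioc β (β + τ0)) + ν (Set.Ioc (β + τ0) β') := measure_union_le _ _
          _ ≤ ENNReal.ofReal (D * (β + τ0 - β)) + ENNReal.ofReal (D * (β' - (β + τ0))) :=
            add_le_add h5 h6
          _ = ENNReal.ofReal (D * (β' - β)) := by
            rw [← ENNReal.ofReal_add]
            · congr 1; ring
            · have : 0 ≤ β + τ0 - β := by linarith
              positivity
            · have : 0 ≤ β' - (β + τ0) := by linarith
              positivity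
  obtain ⟨n, hn⟩ := exists_nat_ge ((β' - β) / τ0)
  rw [div_le_iff₀ hτ] at hn
  exact key n β β' hβ (by linarith)

/-- JOB Dens2.  From the bound on the shells `{β < Ψ(x)+Ψ(a-x) ≤ β'}` (for short intervals) to the
density bound.

Proof.  `volume A = ∫⁻ a₁, ∫⁻ a₂, volume {b | !₂[a₁,a₂,b] ∈ A}` (`dens3_vol` in `Dens3.lean`).  By Tonelli and
translation (`p = (x, a - x)`, `a = p.1 + p.2`; the map `(x,x') ↦ (x, x+x')` is measure preserving) the left
side is `∫⁻ a, volume {x | (x,a-x) ∈ W ∧ !₂[a₁,a₂,Ψ x+Ψ(a-x)] ∈ A}`.  For fixed `a` let `ν` be the image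
of `volume.restrict {x | (x,a-x) ∈ W}` under `x ↦ Ψ x + Ψ (a-x)`; `H` gives `ν (Ioc β β') ≤ ofReal(D(β'-β))`
for `β' ≤ β+τ0`, hence for all `β < β'` (cut `Ioc β β'` into `n` equal pieces, `n ≥ (β'-β)/τ0`), and
`measure_le_of_Ioc` (`Cover.lean`) gives `ν B ≤ ofReal D * volume B`. -/
theorem dens2 (Ψ : ℝ × ℝ → ℝ) (hΨ : Measurable Ψ) (W : Set ((ℝ × ℝ) × (ℝ × ℝ))) (hW : MeasurableSet W)
    (D τ0 : ℝ) (hD : 0 ≤ D) (hτ : 0 < τ0)
    (H : ∀ (a : ℝ × ℝ) (β β' : ℝ), β < β' → β' ≤ β + τ0 →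
      volume {x : ℝ × ℝ | (x, a - x) ∈ W ∧ Ψ x + Ψ (a - x) ∈ Set.Ioc β β'} ≤
        ENNReal.ofReal (D * (β' - β)))
    (A : Set E3) (hA : MeasurableSet A) :
    volume {p : (ℝ × ℝ) × (ℝ × ℝ) | p ∈ W ∧ gpt Ψ p.1 + gpt Ψ p.2 ∈ A} ≤
      ENNReal.ofReal D * volume A := by
  have hg := dens3_gpt hΨ
  set S : Set ((ℝ × ℝ) × (ℝ × ℝ)) := {p | p ∈ W ∧ gpt Ψ p.1 + gpt Ψ p.2 ∈ A} with hS
  have hSm : MeasurableSet S := by
    have h2 : Measurable (fun p : (ℝ × ℝ) × (ℝ × ℝ) => gpt Ψ p.1 + gpt Ψ p.2) := by fun_prop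
    exact hW.inter (h2 hA)
  obtain ⟨F, hF⟩ : ∃ F : (ℝ × ℝ) × (ℝ × ℝ) → ℝ≥0∞, F = S.indicator 1 := ⟨_, rfl⟩
  have hFm : Measurable F := by rw [hF]; exact measurable_one.indicator hSm
  have h1 : volume S = ∫⁻ p, F p := by rw [hF, lintegral_indicator_one hSm]
  have h2 : ∫⁻ p, F p = ∫⁻ a : ℝ × ℝ, ∫⁻ x : ℝ × ℝ, F (x, a - x) := by
    rw [dens3_pair hFm, dens3_swap (f := fun q : (ℝ × ℝ) × (ℝ × ℝ) => F (q.2, q.1 - q.2)) (by fun_prop)]
    apply lintegral_congr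
    intro x
    rw [lintegral_sub_right_eq_self (fun y => F (x, y))]
  -- the third coordinate
  have h3 : ∀ a : ℝ × ℝ, ∫⁻ x : ℝ × ℝ, F (x, a - x) ≤
      ENNReal.ofReal D * volume {b : ℝ | (!₂[a.1, a.2, b] : E3) ∈ A} := by
    intro a
    set B : Set ℝ := {b : ℝ | (!₂[a.1, a.2, b] : E3) ∈ A} with hB
    have hBm : MeasurableSet B := by
      have hm : Measurable (fun b : ℝ => (!₂[a.1, a.2, b] : E3)) := by fun_prop
      exact hm hA
    set W' : Set (ℝ × ℝ) := {x | (x, a - x) ∈ W} with hW'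
    have hW'm : MeasurableSet W' := by
      have hm : Measurable (fun x : ℝ × ℝ => ((x, a - x) : (ℝ × ℝ) × (ℝ × ℝ))) := by fun_prop
      exact hm hW
    have hfm : Measurable (fun x : ℝ × ℝ => Ψ x + Ψ (a - x)) := by fun_prop
    set ν : Measure ℝ := Measure.map (fun x : ℝ × ℝ => Ψ x + Ψ (a - x)) (volume.restrict W') with hν
    have hνapp : ∀ T : Set ℝ, MeasurableSet T →
        ν T = volume {x : ℝ × ℝ | (x, a - x) ∈ W ∧ Ψ x + Ψ (a - x) ∈ T} := by
      intro T hT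
      rw [hν, Measure.map_apply hfm hT, Measure.restrict_apply (hfm hT)]
      congr 1
      ext x
      simp only [Set.mem_inter_iff, Set.mem_preimage, Set.mem_ofPred_eq, hW']
      tauto
    have h4 : ∀ β β' : ℝ, β < β' → ν (Set.Ioc β β') ≤ ENNReal.ofReal D * ENNReal.ofReal (β' - β) := by
      intro β β' hβ
      rw [← ENNReal.ofReal_mul hD]
      refine N2Dens_Ioc ν D τ0 hD hτ (fun β β' h1 h2 => ?_) β β' hβ
      rw [hνapp _ measurableSet_Ioc]
      exact H a β β' h1 h2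
    have h5 := measure_le_of_Ioc ν (ENNReal.ofReal D) ENNReal.ofReal_ne_top h4 B
    rw [hνapp B hBm] at h5
    refine le_trans (le_of_eq ?_) h5
    have hms : MeasurableSet {x : ℝ × ℝ | (x, a - x) ∈ W ∧ Ψ x + Ψ (a - x) ∈ B} :=
      hW'm.inter (hfm hBm)
    rw [← lintegral_indicator_one hms]
    apply lintegral_congr
    intro x
    rw [hF]
    have hiff : ((x, a - x) : (ℝ × ℝ) × (ℝ × ℝ)) ∈ S ↔
        x ∈ {x : ℝ × ℝ | (x, a - x) ∈ W ∧ Ψ x + Ψ (a - x) ∈ B} := by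
      simp only [hS, hB, Set.mem_ofPred_eq]
      have he : gpt Ψ x + gpt Ψ (a - x) = (!₂[a.1, a.2, Ψ x + Ψ (a - x)] : E3) := by
        ext i
        fin_cases i <;> (simp [gpt])
      rw [he]
    by_cases hq : x ∈ {x : ℝ × ℝ | (x, a - x) ∈ W ∧ Ψ x + Ψ (a - x) ∈ B}
    · rw [Set.indicator_of_mem hq, Set.indicator_of_mem (hiff.mpr hq)]; rfl
    · rw [Set.indicator_of_notMem hq, Set.indicator_of_notMem (fun h => hq (hiff.mp h))]
  have hm2 : Measurable fun a : ℝ × ℝ => volume {b : ℝ | (!₂[a.1, a.2, b] : E3) ∈ A} := by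
    have := (measurable_measure_prodMk_left (ν := (volume : Measure ℝ))
      (s := {q : (ℝ × ℝ) × ℝ | (!₂[q.1.1, q.1.2, q.2] : E3) ∈ A}) ?_)
    · exact this
    · have hm : Measurable (fun q : (ℝ × ℝ) × ℝ => (!₂[q.1.1, q.1.2, q.2] : E3)) := by fun_prop
      exact hm hA
  calc volume S = ∫⁻ a : ℝ × ℝ, ∫⁻ x : ℝ × ℝ, F (x, a - x) := by rw [h1, h2]
    _ ≤ ∫⁻ a : ℝ × ℝ, ENNReal.ofReal D * volume {b : ℝ | (!₂[a.1, a.2, b] : E3) ∈ A} :=
      lintegral_mono h3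
    _ = ENNReal.ofReal D * ∫⁻ a : ℝ × ℝ, volume {b : ℝ | (!₂[a.1, a.2, b] : E3) ∈ A} :=
      lintegral_const_mul _ hm2
    _ = ENNReal.ofReal D * volume A := by
      rw [dens3_pair hm2, dens3_vol hA]

end Pool.Agent.FlatRes
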