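import Pool.Agent.Lib.MP_40a0b6_an.N2Defs
set_option autoImplicit false
open MeasureTheory
open scoped ENNReal FourierTransform SchwartzMap
namespace Pool.Agent.FlatRes

theorem geom_ratio {b : ℝ} (hb : 0 < b) : 0 < (2 : ℝ) ^ (-b) ∧ (2 : ℝ) ^ (-b) < 1 :=
  ⟨by positivity, Real.rpow_lt_one_of_one_lt_of_neg (by norm_num) (by linarith)⟩

theorem geom_series (x r : ℝ) (hx : 0 ≤ x) (hr0 : 0 < r) (hr1 : r < 1) :
    ∑' j : ℕ, ENNReal.ofReal (x * r ^ j) = ENNReal.ofReal ((1 - r)⁻¹ * x) := by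
  rw [← ENNReal.ofReal_tsum_of_nonneg (fun j => by positivity)
    ((summable_geometric_of_lt_one hr0.le hr1).mul_left x), tsum_mul_left,
    tsum_geometric_of_lt_one hr0.le hr1, mul_comm]

theorem geom_pow (S b : ℝ) (hS : 0 < S) (i j : ℕ) :
    (S / 2 ^ (i + j + 1)) ^ b = (S / 2 ^ (i + 1)) ^ b * ((2 : ℝ) ^ (-b)) ^ j := by
  have h1 : S / 2 ^ (i + j + 1) = (S / 2 ^ (i + 1)) * ((2 : ℝ) ^ j)⁻¹ := by
    rw [show i + j + 1 = (i + 1) + j by ring, pow_add]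
    field_simp
  rw [h1, Real.mul_rpow (by positivity) (by positivity), Real.inv_rpow (by positivity)]
  congr 1
  rw [← Real.rpow_natCast, ← Real.rpow_natCast, ← Real.rpow_mul (by norm_num),
    ← Real.rpow_mul (by norm_num), ← Real.rpow_neg (by norm_num)]
  congr 1
  ring

theorem geom_anti (S : ℝ) (hS : 0 < S) {i j : ℕ} (hij : i ≤ j) :
    S / 2 ^ (j + 1) ≤ S / 2 ^ (i + 1) := by
  apply div_le_div_of_nonneg_left hS.le (by positivity)
  exact pow_le_pow_right₀ (by norm_num) (by omega)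

/-- JOB Geom (3 statements).  Geometric sums, `s_i = S/2^{i+1}`. -/
theorem geom_small (b : ℝ) (hb : 0 < b) : ∃ C : ℝ, 0 < C ∧ ∀ S s0 : ℝ, 0 < S → 0 < s0 →
    ∑' i : ℕ, (if S / 2 ^ (i + 1) ≤ s0 then ENNReal.ofReal ((S / 2 ^ (i + 1)) ^ b) else 0) ≤
      ENNReal.ofReal (C * s0 ^ b) := by
  obtain ⟨hr0, hr1⟩ := geom_ratio hb
  refine ⟨(1 - (2 : ℝ) ^ (-b))⁻¹, inv_pos.2 (by linarith), ?_⟩
  intro S s0 hS hs0
  by_cases hex : ∃ i : ℕ, S / 2 ^ (i + 1) ≤ s0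
  · obtain ⟨n, hn, hmin⟩ : ∃ n : ℕ, S / 2 ^ (n + 1) ≤ s0 ∧ ∀ j < n, ¬ S / 2 ^ (j + 1) ≤ s0 :=
      ⟨Nat.find hex, Nat.find_spec hex, fun j hj => Nat.find_min hex hj⟩
    rw [← (ENNReal.summable).sum_add_tsum_nat_add' (k := n)]
    have h1 : ∑ i ∈ Finset.range n, (if S / 2 ^ (i + 1) ≤ s0 then
        ENNReal.ofReal ((S / 2 ^ (i + 1)) ^ b) else 0) = 0 := by
      apply Finset.sum_eq_zero
      intro i hi
      rw [if_neg (hmin i (Finset.mem_range.1 hi))]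
    rw [h1, zero_add]
    calc ∑' i : ℕ, (if S / 2 ^ (i + n + 1) ≤ s0 then
          ENNReal.ofReal ((S / 2 ^ (i + n + 1)) ^ b) else 0)
        ≤ ∑' i : ℕ, ENNReal.ofReal (s0 ^ b * ((2 : ℝ) ^ (-b)) ^ i) := by
          apply ENNReal.tsum_le_tsum
          intro i
          split_ifs
          · apply ENNReal.ofReal_le_ofReal
            rw [show i + n + 1 = n + i + 1 by ring, geom_pow S b hS]
            apply mul_le_mul_of_nonneg_right _ (by positivity)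
            exact Real.rpow_le_rpow (by positivity) hn hb.le
          · exact zero_le
      _ = _ := geom_series _ _ (by positivity) hr0 hr1
  · push Not at hex
    have h1 : ∀ i : ℕ, (if S / 2 ^ (i + 1) ≤ s0 then
        ENNReal.ofReal ((S / 2 ^ (i + 1)) ^ b) else 0) = 0 := by
      intro i
      rw [if_neg (not_le.2 (hex i))]
    simp only [h1, tsum_zero]
    exact zero_le

theorem geom_large (b : ℝ) (hb : 0 < b) : ∃ C : ℝ, 0 < C ∧ ∀ S s0 : ℝ, 0 < S → 0 < s0 →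
    ∑' i : ℕ, (if s0 < S / 2 ^ (i + 1) then ENNReal.ofReal ((S / 2 ^ (i + 1)) ^ (-b)) else 0) ≤
      ENNReal.ofReal (C * s0 ^ (-b)) := by
  obtain ⟨hr0, hr1⟩ := geom_ratio hb
  refine ⟨(1 - (2 : ℝ) ^ (-b))⁻¹, inv_pos.2 (by linarith), ?_⟩
  intro S s0 hS hs0
  have hex : ∃ i : ℕ, S / 2 ^ (i + 1) ≤ s0 := by
    obtain ⟨n, hn⟩ := pow_unbounded_of_one_lt (S / s0) (by norm_num : (1 : ℝ) < 2)
    refine ⟨n, ?_⟩
    rw [div_le_iff₀ (by positivity)]
    rw [div_lt_iff₀ hs0] at hn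
    calc S ≤ 2 ^ n * s0 := hn.le
      _ ≤ 2 ^ (n + 1) * s0 := by
        apply mul_le_mul_of_nonneg_right _ hs0.le
        exact pow_le_pow_right₀ (by norm_num) (by omega)
      _ = s0 * 2 ^ (n + 1) := mul_comm _ _
  obtain ⟨n, hn, hmin⟩ : ∃ n : ℕ, S / 2 ^ (n + 1) ≤ s0 ∧ ∀ j < n, ¬ S / 2 ^ (j + 1) ≤ s0 :=
    ⟨Nat.find hex, Nat.find_spec hex, fun j hj => Nat.find_min hex hj⟩
  have h1 : ∑' i : ℕ, (if s0 < S / 2 ^ (i + 1) then
      ENNReal.ofReal ((S / 2 ^ (i + 1)) ^ (-b)) else 0) =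
      ∑ i ∈ Finset.range n, (if s0 < S / 2 ^ (i + 1) then
      ENNReal.ofReal ((S / 2 ^ (i + 1)) ^ (-b)) else 0) := by
    apply tsum_eq_sum
    intro i hi
    rw [Finset.mem_range, not_lt] at hi
    rw [if_neg (not_lt.2 ((geom_anti S hS hi).trans hn))]
  rw [h1, ← Finset.sum_range_reflect]
  calc ∑ j ∈ Finset.range n, (if s0 < S / 2 ^ (n - 1 - j + 1) then
      ENNReal.ofReal ((S / 2 ^ (n - 1 - j + 1)) ^ (-b)) else 0) ≤
      ∑ j ∈ Finset.range n, ENNReal.ofReal (s0 ^ (-b) * ((2 : ℝ) ^ (-b)) ^ j) := by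
        apply Finset.sum_le_sum
        intro j hj
        rw [Finset.mem_range] at hj
        split_ifs
        · apply ENNReal.ofReal_le_ofReal
          have h2 := geom_pow S b hS (n - 1 - j) j
          have h3 : n - 1 - j + j + 1 = n - 1 + 1 := by omega
          rw [h3] at h2
          have h4 := hmin (n - 1) (by omega)
          push Not at h4
          have h5 : (S / 2 ^ (n - 1 - j + 1)) ^ b * ((2 : ℝ) ^ (-b)) ^ j ≥ s0 ^ b := by
            rw [← h2]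
            exact Real.rpow_le_rpow hs0.le h4.le hb.le
          rw [Real.rpow_neg (by positivity), Real.rpow_neg hs0.le]
          have h6 : 0 < (S / 2 ^ (n - 1 - j + 1)) ^ b := by positivity
          have h7 : 0 < s0 ^ b := by positivity
          rw [inv_mul_eq_div, le_div_iff₀ h7, inv_mul_le_iff₀ h6]
          exact h5
        · exact zero_le
    _ ≤ ∑' j : ℕ, ENNReal.ofReal (s0 ^ (-b) * ((2 : ℝ) ^ (-b)) ^ j) := ENNReal.sum_le_tsum _
    _ = _ := geom_series _ _ (by positivity) hr0 hr1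

theorem geom_all (b : ℝ) (hb : 0 < b) : ∃ C : ℝ, 0 < C ∧ ∀ S : ℝ, 0 < S →
    ∑' i : ℕ, ENNReal.ofReal ((S / 2 ^ (i + 1)) ^ b) ≤ ENNReal.ofReal (C * S ^ b) := by
  obtain ⟨C, hC, h⟩ := geom_small b hb
  refine ⟨C, hC, fun S hS => ?_⟩
  refine le_trans (le_of_eq ?_) (h S S hS hS)
  apply tsum_congr
  intro i
  rw [if_pos]
  rw [div_le_iff₀ (by positivity)]
  have h1 : (1 : ℝ) ≤ 2 ^ (i + 1) := one_le_pow₀ (by norm_num)
  nlinarith

end Pool.Agent.FlatRes
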