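import Pool.Agent.Lib.MP_40a0b6_an.N2IntMono
set_option autoImplicit false
open MeasureTheory
open scoped ENNReal FourierTransform SchwartzMap
namespace Pool.Agent.FlatRes

/-- the quadratic lower bound on the sublevel interval -/
theorem N2IntConv_key (φ : ℝ → ℝ) (p q μ β : ℝ) (hμ : 0 < μ)
    (H : StrongConvexOn (Set.Icc p q) μ φ) {x y z : ℝ} (hx : x ∈ Set.Icc p q) (hy : y ∈ Set.Icc p q)
    (hxβ : φ x ≤ β) (hyβ : φ y ≤ β) (hxz : x ≤ z) (hzy : z ≤ y) (hxy : x < y) :
    μ / 2 * ((z - x) * (y - z)) ≤ β - φ z := by
  have hd : 0 < y - x := by linarith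
  have ha : 0 ≤ (y - z) / (y - x) := div_nonneg (by linarith) hd.le
  have hb : 0 ≤ (z - x) / (y - x) := div_nonneg (by linarith) hd.le
  have hab : (y - z) / (y - x) + (z - x) / (y - x) = 1 := by
    rw [← add_div]
    rw [show y - z + (z - x) = y - x by ring]
    exact div_self hd.ne'
  have h1 := H.2 hx hy ha hb hab
  simp only [smul_eq_mul] at h1
  have hz : (y - z) / (y - x) * x + (z - x) / (y - x) * y = z := by
    field_simp
    ring
  rw [hz] at h1
  have hn : ‖x - y‖ ^ 2 = (y - x) ^ 2 := by
    rw [Real.norm_eq_abs, sq_abs]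
    ring
  rw [hn] at h1
  have h2 : (y - z) / (y - x) * ((z - x) / (y - x)) * (μ / 2 * (y - x) ^ 2) =
      μ / 2 * ((z - x) * (y - z)) := by
    field_simp
  rw [h2] at h1
  have h3 : (y - z) / (y - x) * φ x ≤ (y - z) / (y - x) * β := mul_le_mul_of_nonneg_left hxβ ha
  have h4 : (z - x) / (y - x) * φ y ≤ (z - x) / (y - x) * β := mul_le_mul_of_nonneg_left hyβ hb
  have h5 : (y - z) / (y - x) * β + (z - x) / (y - x) * β = β := by
    rw [← add_mul, hab, one_mul]
  linarith

/-- JOB IntConv.  `1/√(β - φ)` on an interval where `φ` is strongly convex with modulus `μ`.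

Proof.  `S = {z ∈ [p,q] | φ z < β}` is convex; let `σ0 = sInf S`, `σ1 = sSup S` (if `S` is empty the
integral is `0`).  For `z ∈ S` and `x < z < y` in `S`, `z = a x + b y`:
`φ z ≤ β - a b (μ/2) (y-x)² = β - (μ/2)(z-x)(y-z)`; let `x → σ0`, `y → σ1`:
`β - φ z ≥ (μ/2)(z-σ0)(σ1-z)`.  With `ℓ = σ1-σ0`, `(z-σ0)(σ1-z) ≥ (ℓ/2) min(z-σ0, σ1-z)`, and
`∫_0^{ℓ/2} (μℓu/4)^{-1/2} du = 2 √(ℓ/2) · 2/√(μℓ) = 2√2/√μ`, twice: `4√2/√μ ≤ 6/√μ`. -/
theorem int_conv (φ : ℝ → ℝ) (p q μ β : ℝ) (hμ : 0 < μ)
    (H : StrongConvexOn (Set.Icc p q) μ φ) :
    ∫⁻ z in Set.Icc p q, ENNReal.ofReal (1 / Real.sqrt (β - φ z)) ≤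
      ENNReal.ofReal (6 / Real.sqrt μ) := by
  set S : Set ℝ := {z | z ∈ Set.Icc p q ∧ φ z < β} with hS
  by_cases hne : S.Nonempty
  · have hbdd : BddAbove S := ⟨q, fun z hz => hz.1.2⟩
    have hbdd' : BddBelow S := ⟨p, fun z hz => hz.1.1⟩
    set c := sInf S with hc
    set d := sSup S with hd
    have hcd : c ≤ d := csInf_le_csSup hne hbdd' hbdd
    set m := (c + d) / 2 with hm
    have key : ∀ z, c < z → z < d → μ / 2 * ((z - c) * (d - z)) ≤ β - φ z := by
      intro z hcz hzd
      obtain ⟨x0, hx0, hx0z⟩ := exists_lt_of_csInf_lt hne hcz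
      obtain ⟨y0, hy0, hy0z⟩ := exists_lt_of_lt_csSup hne hzd
      -- pass to the limit
      have hstep : ∀ δ, 0 < δ → μ / 2 * ((z - c - δ) * (d - z)) - μ / 2 * (δ * |z - c - δ|) ≤
          β - φ z ∨ z - c ≤ δ := by
        intro δ hδ
        by_cases hh : z - c ≤ δ
        · exact Or.inr hh
        · left
          push Not at hh
          obtain ⟨x, hx, hxc⟩ := exists_lt_of_csInf_lt hne
            (show c < min z (c + δ) from lt_min hcz (by linarith))
          obtain ⟨y, hy, hyd⟩ := exists_lt_of_lt_csSup hne
            (show max z (d - δ) < d from max_lt hzd (by linarith))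
          have hxz : x < z := hxc.trans_le (min_le_left _ _)
          have hxd : x < c + δ := hxc.trans_le (min_le_right _ _)
          have hzy : z < y := (le_max_left _ _).trans_lt hyd
          have hdy : d - δ < y := (le_max_right _ _).trans_lt hyd
          have h1 := N2IntConv_key φ p q μ β hμ H hx.1 hy.1 hx.2.le hy.2.le hxz.le hzy.le
            (hxz.trans hzy)
          refine le_trans ?_ h1
          rw [abs_of_pos (by linarith : 0 < z - c - δ)]
          have h2 : (z - c - δ) * (d - z - δ) ≤ (z - x) * (y - z) := by
            have h3 : 0 < z - c - δ := by linarith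
            have h4 : z - c - δ ≤ z - x := by linarith
            have h5 : d - z - δ ≤ y - z := by linarith
            have h6 : 0 ≤ y - z := by linarith
            nlinarith
          nlinarith
      have hlim : Filter.Tendsto (fun δ : ℝ => μ / 2 * ((z - c - δ) * (d - z)) -
          μ / 2 * (δ * |z - c - δ|)) (nhdsWithin 0 (Set.Ioi 0))
          (nhds (μ / 2 * ((z - c - 0) * (d - z)) - μ / 2 * (0 * |z - c - 0|))) := by
        have hcont : Continuous (fun δ : ℝ => μ / 2 * ((z - c - δ) * (d - z)) -
          μ / 2 * (δ * |z - c - δ|)) := by fun_prop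
        exact (hcont.tendsto 0).mono_left nhdsWithin_le_nhds
      have h0 : μ / 2 * ((z - c - 0) * (d - z)) - μ / 2 * (0 * |z - c - 0|) ≤ β - φ z := by
        refine le_of_tendsto hlim ?_
        have hmem : Set.Ioo (0 : ℝ) (z - c) ∈ nhdsWithin (0 : ℝ) (Set.Ioi 0) :=
          Ioo_mem_nhdsGT (by linarith)
        filter_upwards [hmem] with δ hδ
        rcases hstep δ hδ.1 with h | h
        · exact h
        · exact absurd hδ.2 (not_lt.2 h)
      simpa using h0
    have hle : ∫⁻ z in Set.Icc p q, ENNReal.ofReal (1 / Real.sqrt (β - φ z)) ≤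
        (∫⁻ z in Set.Ioc c m, ENNReal.ofReal (1 / Real.sqrt (μ * (d - c) / 4 * (z - c)))) +
        ∫⁻ z in Set.Ico m d, ENNReal.ofReal (1 / Real.sqrt (μ * (d - c) / 4 * (d - z))) := by
      rw [← lintegral_indicator measurableSet_Icc, ← lintegral_indicator measurableSet_Ico,
        ← lintegral_indicator measurableSet_Ioc, ← lintegral_add_left]
      · refine lintegral_mono_ae ?_
        have hae : ∀ᵐ z : ℝ, z ≠ c := by
          simp [ae_iff, measure_singleton]
        have hae' : ∀ᵐ z : ℝ, z ≠ d := by
          simp [ae_iff, measure_singleton]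
        filter_upwards [hae, hae'] with z hzc hzd
        by_cases hz : z ∈ Set.Icc p q
        · rw [Set.indicator_of_mem hz]
          rcases lt_or_gt_of_ne hzc with h | h
          · rw [N2IntMono_zero]
            · exact bot_le
            · by_contra hcon
              exact absurd (csInf_le hbdd' (show z ∈ S from ⟨hz, not_le.1 hcon⟩)) (not_le.2 h)
          · rcases lt_or_gt_of_ne hzd with h' | h'
            · have hk := key z h h'
              rcases le_total z m with hzm | hzm
              · rw [Set.indicator_of_mem (show z ∈ Set.Ioc c m from ⟨h, hzm⟩)]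
                refine le_trans (N2IntMono_mono ?_ ?_) le_self_add
                · have : 0 < d - c := by linarith
                  have : 0 < z - c := by linarith
                  positivity
                · refine le_trans ?_ hk
                  have h1 : (d - c) / 2 ≤ d - z := by
                    rw [hm] at hzm
                    linarith
                  have h2 : 0 < z - c := by linarith
                  have h3 : (z - c) * ((d - c) / 2) ≤ (z - c) * (d - z) :=
                    mul_le_mul_of_nonneg_left h1 h2.le
                  have h4 := mul_le_mul_of_nonneg_left h3 (by positivity : (0:ℝ) ≤ μ / 2)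
                  have h5 : μ * (d - c) / 4 * (z - c) = μ / 2 * ((z - c) * ((d - c) / 2)) := by
                    ring
                  rw [h5]
                  exact h4
              · rw [Set.indicator_of_mem (show z ∈ Set.Ico m d from ⟨hzm, h'⟩)]
                refine le_trans (N2IntMono_mono ?_ ?_) le_add_self
                · have : 0 < d - c := by linarith
                  have : 0 < d - z := by linarith
                  positivity
                · refine le_trans ?_ hk
                  have h1 : (d - c) / 2 ≤ z - c := by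
                    rw [hm] at hzm
                    linarith
                  have h2 : 0 < d - z := by linarith
                  have h3 : ((d - c) / 2) * (d - z) ≤ (z - c) * (d - z) :=
                    mul_le_mul_of_nonneg_right h1 h2.le
                  have h4 := mul_le_mul_of_nonneg_left h3 (by positivity : (0:ℝ) ≤ μ / 2)
                  have h5 : μ * (d - c) / 4 * (d - z) = μ / 2 * (((d - c) / 2) * (d - z)) := by
                    ring
                  rw [h5]
                  exact h4
            · rw [N2IntMono_zero]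
              · exact bot_le
              · by_contra hcon
                exact absurd (le_csSup hbdd (show z ∈ S from ⟨hz, not_le.1 hcon⟩)) (not_le.2 h')
        · rw [Set.indicator_of_notMem hz]
          exact bot_le
      · refine Measurable.indicator ?_ measurableSet_Ioc
        fun_prop
    refine hle.trans ?_
    rcases hcd.eq_or_lt with hcd | hcd
    · rw [← hcd]
      have hm' : m = c := by rw [hm, ← hcd]; ring
      rw [hm']
      simp
    · have hlam : 0 < μ * (d - c) / 4 := by
        have : 0 < d - c := by linarith
        positivity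
      rw [N2IntMono_left _ c m hlam (by rw [hm]; linarith),
        N2IntMono_right _ m d hlam (by rw [hm]; linarith),
        ← ENNReal.ofReal_add (by positivity) (by positivity)]
      refine ENNReal.ofReal_le_ofReal ?_
      have hdc : d - c ≠ 0 := by
        have : 0 < d - c := by linarith
        exact this.ne'
      have e1 : (m - c) / (μ * (d - c) / 4) = 2 / μ := by
        rw [hm]
        field_simp
        ring
      have e2 : (d - m) / (μ * (d - c) / 4) = 2 / μ := by
        rw [hm]
        field_simp
        ring
      rw [e1, e2, Real.sqrt_div (by norm_num)]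
      have hs : Real.sqrt 2 ≤ 3 / 2 := by
        rw [Real.sqrt_le_left (by norm_num)]
        norm_num
      have hsμ : 0 < Real.sqrt μ := Real.sqrt_pos.2 hμ
      rw [show 2 * (Real.sqrt 2 / Real.sqrt μ) + 2 * (Real.sqrt 2 / Real.sqrt μ) =
        4 * Real.sqrt 2 / Real.sqrt μ by ring]
      exact div_le_div_of_nonneg_right (by linarith) hsμ.le
  · have h0 : ∫⁻ z in Set.Icc p q, ENNReal.ofReal (1 / Real.sqrt (β - φ z)) = 0 := by
      rw [setLIntegral_congr_fun measurableSet_Icc (g := fun _ => 0)]
      · simp
      · intro z hz
        refine N2IntMono_zero ?_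
        by_contra hcon
        exact hne ⟨z, hz, not_le.1 hcon⟩
    rw [h0]
    exact bot_le

end Pool.Agent.FlatRes
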