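import Pool.Agent.Lib.MP_40a0b6_an.N2IntMono
import Pool.Agent.Lib.MP_40a0b6_an.N2IntConv
import Pool.Agent.Lib.MP_40a0b6_an.StrConv
set_option autoImplicit false
open MeasureTheory
open scoped ENNReal FourierTransform SchwartzMap
namespace Pool.Agent.FlatRes

/-- mean value comparison, lower bound of the derivative on the open interval -/
theorem N2IntFar_mvt (f f' : ℝ → ℝ) (a b lam : ℝ) (hab : a ≤ b)
    (hf : ∀ t ∈ Set.Icc a b, HasDerivAt f (f' t) t) (hl : ∀ t ∈ Set.Ioo a b, lam ≤ f' t) :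
    lam * (b - a) ≤ f b - f a := by
  rcases hab.eq_or_lt with rfl | hab
  · simp
  · obtain ⟨t, ht, hte⟩ := exists_hasDerivAt_eq_slope f f' hab
      (fun x hx => (hf x hx).continuousAt.continuousWithinAt)
      (fun x hx => hf x ⟨hx.1.le, hx.2.le⟩)
    have h1 := hl t ht
    rw [hte, le_div_iff₀ (by linarith)] at h1
    exact h1

/-- second derivative bounded below gives strong convexity -/
theorem N2IntFar_sc (f f1 f2 : ℝ → ℝ) (a b lam : ℝ)
    (hf : ∀ t ∈ Set.Icc a b, HasDerivAt f (f1 t) t)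
    (hf1 : ∀ t ∈ Set.Icc a b, HasDerivAt f1 (f2 t) t)
    (hl : ∀ t ∈ Set.Ioo a b, lam ≤ f2 t) : StrongConvexOn (Set.Icc a b) lam f := by
  rw [strongConvexOn_iff_convex]
  set g : ℝ → ℝ := fun x => f x - lam / 2 * ‖x‖ ^ 2 with hg
  have hgd : ∀ x ∈ Set.Icc a b, HasDerivAt g (f1 x - lam * x) x := by
    intro x hx
    have h2 : HasDerivAt (fun y : ℝ => lam / 2 * y ^ 2) (lam / 2 * (2 * x)) x := by
      have := (hasDerivAt_pow 2 x).const_mul (lam / 2)
      simpa using this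
    have h3 := (hf x hx).sub h2
    have h5 : f - (fun y : ℝ => lam / 2 * y ^ 2) = g := by
      funext y
      rw [hg]
      simp only [Pi.sub_apply, Real.norm_eq_abs, sq_abs]
    rw [h5] at h3
    have h6 : f1 x - lam / 2 * (2 * x) = f1 x - lam * x := by ring
    rw [h6] at h3
    exact h3
  refine MonotoneOn.convexOn_of_deriv (convex_Icc a b) ?_ ?_ ?_
  · intro x hx
    exact (hgd x hx).continuousAt.continuousWithinAt
  · intro x hx
    exact (hgd x (interior_subset hx)).differentiableAt.differentiableWithinAt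
  · intro x hx y hy hxy
    have hx' := interior_subset hx
    have hy' := interior_subset hy
    rw [(hgd x hx').deriv, (hgd y hy').deriv]
    have h1 := N2IntFar_mvt f1 f2 x y lam hxy
      (fun t ht => hf1 t ⟨hx'.1.trans ht.1, ht.2.trans hy'.2⟩)
      (fun t ht => hl t ⟨hx'.1.trans_lt ht.1, ht.2.trans_le hy'.2⟩)
    linarith

/-- the lower bound `z φ2 - φ1 ≥ γ z³/3` -/
theorem N2IntFar_g (φ1 φ2 φ3 : ℝ → ℝ) (T γ : ℝ)
    (h1 : ∀ t ∈ Set.Icc 0 T, HasDerivAt φ1 (φ2 t) t)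
    (h2 : ∀ t ∈ Set.Icc 0 T, HasDerivAt φ2 (φ3 t) t) (h0 : φ1 0 = 0)
    (h3 : ∀ t ∈ Set.Icc 0 T, γ * t ≤ φ3 t) (z : ℝ) (hz : z ∈ Set.Icc 0 T) :
    γ * z ^ 3 / 3 ≤ z * φ2 z - φ1 z := by
  have hd : ∀ t ∈ Set.Icc 0 z, HasDerivAt (fun t => t * φ2 t - φ1 t - γ * t ^ 3 / 3)
      (t * φ3 t - γ * t ^ 2) t := by
    intro t ht
    have ht' : t ∈ Set.Icc 0 T := ⟨ht.1, ht.2.trans hz.2⟩
    have e1 : HasDerivAt (fun t => t * φ2 t) (1 * φ2 t + t * φ3 t) t :=
      (hasDerivAt_id t).mul (h2 t ht')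
    have e2 : HasDerivAt (fun t => t * φ2 t - φ1 t) (1 * φ2 t + t * φ3 t - φ2 t) t :=
      e1.sub (h1 t ht')
    have e3 := ((hasDerivAt_pow 3 t).const_mul γ).div_const 3
    have e4 := e2.sub e3
    refine e4.congr_deriv ?_
    norm_num
    ring
  have := N2IntFar_mvt _ _ 0 z 0 hz.1 hd (fun t ht => by
    have ht' : t ∈ Set.Icc 0 T := ⟨ht.1.le, ht.2.le.trans hz.2⟩
    have e1 := mul_le_mul_of_nonneg_left (h3 t ht') ht.1.le
    nlinarith)
  simp [h0] at this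
  linarith

/-- the cut point of a monotone function -/
theorem N2IntFar_cut (g : ℝ → ℝ) (a b κ : ℝ) (hab : a ≤ b)
    (hg : ∀ x y, a ≤ x → x ≤ y → y ≤ b → g x ≤ g y) :
    ∃ c ∈ Set.Icc a b, (∀ z ∈ Set.Icc a b, z < c → g z ≤ κ) ∧ (∀ z ∈ Set.Icc a b, c < z → κ ≤ g z) := by
  set A : Set ℝ := {z | z ∈ Set.Icc a b ∧ g z ≤ κ} with hA
  by_cases hne : A.Nonempty
  · have hbdd : BddAbove A := ⟨b, fun z hz => hz.1.2⟩
    refine ⟨sSup A, ⟨?_, csSup_le hne fun z hz => hz.1.2⟩, ?_, ?_⟩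
    · obtain ⟨z, hz⟩ := hne
      exact hz.1.1.trans (le_csSup hbdd hz)
    · intro z hz hzc
      obtain ⟨y, hy, hyz⟩ := exists_lt_of_lt_csSup hne hzc
      exact (hg z y hz.1 hyz.le hy.1.2).trans hy.2
    · intro z hz hcz
      by_contra hcon
      exact absurd (le_csSup hbdd (show z ∈ A from ⟨hz, (not_le.1 hcon).le⟩)) (not_le.2 hcz)
  · refine ⟨a, ⟨le_rfl, hab⟩, ?_, ?_⟩
    · intro z hz hza
      exact absurd hz.1 (not_le.2 hza)
    · intro z hz _
      by_contra hcon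
      exact hne ⟨z, hz, (not_le.1 hcon).le⟩

/-- JOB IntFar.  `∫_s^{2s} (β-φ)^{-1/2} ≤ 25/(√γ s)` if `φ'(0) = 0` and `φ''' ≥ γ t` on `[0,2s]`.

Proof.  `z φ2(z) - φ1(z)` has derivative `z φ3(z) ≥ γ z²` and vanishes at `0`, so it is `≥ γ z³/3`;
hence `g(z) = φ1(z)/z` satisfies `g' ≥ γ z/3 ≥ γ1 := γ s/3` on `[s,2s]`; in particular `g` is increasing.
The three sets `{g ≤ -γ1 s/2}`, `{|g| ≤ γ1 s/2}`, `{g ≥ γ1 s/2}` are intervals covering `[s,2s]`.
On the middle one `φ'' = φ2 = g + z g' ≥ -γ1 s/2 + s γ1 = γ1 s/2`: `φ` is strongly convex with modulus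
`γ1 s/2` (`StrConv.lean` has `f'' ≥ lam ⇒ StrongConvexOn`): `int_conv` gives `6/√(γ1 s/2)`.
On the outer ones `|φ'| = z|g| ≥ γ1 s²/2`: `int_mono` gives `2√(s/(γ1 s²/2))` each.
Sum: `(6√2 + 4√2)/√(γ1 s) = 10√2·√3/(√γ s) ≤ 25/(√γ s)`. -/
theorem int_far (φ : ℝ → ℝ) (s γ β : ℝ) (hs : 0 < s) (hγ : 0 < γ) (H : FarProp φ (2 * s) γ) :
    ∫⁻ z in Set.Icc s (2 * s), ENNReal.ofReal (1 / Real.sqrt (β - φ z)) ≤
      ENNReal.ofReal (25 / (Real.sqrt γ * s)) := by
  obtain ⟨φ1, φ2, φ3, hD, h0, h3⟩ := H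
  have hG := N2IntFar_g φ1 φ2 φ3 (2 * s) γ (fun t ht => (hD t ht).2.1) (fun t ht => (hD t ht).2.2) h0 h3
  have hin : ∀ z ∈ Set.Icc s (2 * s), z ∈ Set.Icc 0 (2 * s) := fun z hz => ⟨hs.le.trans hz.1, hz.2⟩
  set κ := γ * s ^ 2 / 6 with hκ
  have hκ0 : 0 < κ := by positivity
  -- g is increasing
  set g : ℝ → ℝ := fun z => φ1 z / z with hg
  have hgd : ∀ z ∈ Set.Icc s (2 * s), HasDerivAt g ((z * φ2 z - φ1 z) / z ^ 2) z := by
    intro z hz
    have hz0 : z ≠ 0 := (hs.trans_le hz.1).ne'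
    have e : HasDerivAt g ((φ2 z * z - φ1 z * 1) / z ^ 2) z :=
      (hD z (hin z hz)).2.1.div (hasDerivAt_id z) hz0
    refine e.congr_deriv ?_
    rw [mul_comm (φ2 z) z, mul_one]
  have hgl : ∀ z ∈ Set.Icc s (2 * s), γ * s / 3 ≤ (z * φ2 z - φ1 z) / z ^ 2 := by
    intro z hz
    have hz0 : 0 < z := hs.trans_le hz.1
    rw [le_div_iff₀ (by positivity)]
    refine le_trans ?_ (hG z (hin z hz))
    have : γ * s / 3 * z ^ 2 ≤ γ * z / 3 * z ^ 2 := by
      have := hz.1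
      gcongr
    nlinarith
  have hgm : ∀ x y, s ≤ x → x ≤ y → y ≤ 2 * s → g x ≤ g y := by
    intro x y hx hxy hy
    have h1 := N2IntFar_mvt g _ x y 0 hxy (fun t ht => hgd t ⟨hx.trans ht.1, ht.2.trans hy⟩)
      (fun t ht => le_trans (by positivity) (hgl t ⟨hx.trans ht.1.le, ht.2.le.trans hy⟩))
    linarith
  have hss : s ≤ 2 * s := by linarith
  -- the two cut points
  obtain ⟨c1, hc1, hc1a, hc1b⟩ := N2IntFar_cut g s (2 * s) (-κ) hss hgm
  obtain ⟨c2, hc2, hc2a, hc2b⟩ := N2IntFar_cut g s (2 * s) κ hss hgm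
  have h12 : c1 ≤ c2 := by
    by_contra hcon
    push Not at hcon
    have hz : (c1 + c2) / 2 ∈ Set.Icc s (2 * s) := ⟨by linarith [hc1.1, hc2.1], by linarith [hc1.2, hc2.2]⟩
    have e1 := hc1a _ hz (by linarith)
    have e2 := hc2b _ hz (by linarith)
    linarith
  have hlam : 0 < κ * s := by positivity
  have hsκ : 0 < Real.sqrt κ := Real.sqrt_pos.2 hκ0
  have hout : ∀ x, x ≤ s → 2 * Real.sqrt (x / (κ * s)) ≤ 2 / Real.sqrt κ := by
    intro x hx
    have h1 : x / (κ * s) ≤ 1 / κ := by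
      rw [div_le_div_iff₀ hlam hκ0]
      nlinarith
    have h2 := Real.sqrt_le_sqrt h1
    rw [Real.sqrt_div zero_le_one, Real.sqrt_one] at h2
    have : (2 : ℝ) / Real.sqrt κ = 2 * (1 / Real.sqrt κ) := by ring
    rw [this]
    linarith
  have hφ1g : ∀ z, s ≤ z → φ1 z = z * g z := by
    intro z hz
    have hz0 : z ≠ 0 := (hs.trans_le hz).ne'
    rw [hg]
    field_simp
  -- left piece
  have hL : ∫⁻ z in Set.Icc s c1, ENNReal.ofReal (1 / Real.sqrt (β - φ z)) ≤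
      ENNReal.ofReal (2 / Real.sqrt κ) := by
    rcases hc1.1.eq_or_lt with h | h
    · rw [← h]
      simp
    · refine (int_mono φ s c1 (κ * s) (-1) β h hlam (Or.inr rfl) ?_).trans
        (ENNReal.ofReal_le_ofReal (hout _ (by linarith [hc1.2])))
      intro t1 t2 ht1 ht12 ht2
      have e := N2IntFar_mvt (fun z => -φ z) (fun z => -φ1 z) t1 t2 (κ * s) ht12
        (fun t ht => (hD t ⟨hs.le.trans (ht1.trans ht.1), (ht.2.trans ht2).trans hc1.2⟩).1.neg)
        (fun t ht => by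
          have hst : s ≤ t := ht1.trans ht.1.le
          have ht' : t < c1 := ht.2.trans_le ht2
          have e1 := hc1a t ⟨hst, ht'.le.trans hc1.2⟩ ht'
          rw [hφ1g t hst]
          have e2 : s * κ ≤ t * (-g t) := by
            have : κ ≤ -g t := by linarith
            have h0 : 0 ≤ t := hs.le.trans hst
            exact mul_le_mul hst this hκ0.le h0
          linarith)
      linarith
  -- right piece
  have hR : ∫⁻ z in Set.Icc c2 (2 * s), ENNReal.ofReal (1 / Real.sqrt (β - φ z)) ≤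
      ENNReal.ofReal (2 / Real.sqrt κ) := by
    rcases hc2.2.eq_or_lt with h | h
    · rw [h]
      simp
    · refine (int_mono φ c2 (2 * s) (κ * s) 1 β h hlam (Or.inl rfl) ?_).trans
        (ENNReal.ofReal_le_ofReal (hout _ (by linarith [hc2.1])))
      intro t1 t2 ht1 ht12 ht2
      have e := N2IntFar_mvt φ φ1 t1 t2 (κ * s) ht12
        (fun t ht => (hD t ⟨hs.le.trans (hc2.1.trans (ht1.trans ht.1)), ht.2.trans ht2⟩).1)
        (fun t ht => by
          have hst' : c2 < t := ht1.trans_lt ht.1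
          have hst : s ≤ t := hc2.1.trans hst'.le
          have e1 := hc2b t ⟨hst, ht.2.le.trans ht2⟩ hst'
          rw [hφ1g t hst]
          have e2 : s * κ ≤ t * g t := by
            have h0 : 0 ≤ t := hs.le.trans hst
            exact mul_le_mul hst e1 hκ0.le h0
          linarith)
      linarith
  -- middle piece
  have hM : ∫⁻ z in Set.Icc c1 c2, ENNReal.ofReal (1 / Real.sqrt (β - φ z)) ≤
      ENNReal.ofReal (6 / Real.sqrt κ) := by
    refine int_conv φ c1 c2 κ β hκ0 (N2IntFar_sc φ φ1 φ2 c1 c2 κ ?_ ?_ ?_)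
    · intro t ht
      exact (hD t ⟨hs.le.trans (hc1.1.trans ht.1), ht.2.trans hc2.2⟩).1
    · intro t ht
      exact (hD t ⟨hs.le.trans (hc1.1.trans ht.1), ht.2.trans hc2.2⟩).2.1
    · intro t ht
      have hst : s ≤ t := hc1.1.trans ht.1.le
      have ht2 : t ≤ 2 * s := ht.2.le.trans hc2.2
      have htm : t ∈ Set.Icc s (2 * s) := ⟨hst, ht2⟩
      have e1 := hc1b t htm ht.1
      have e2 := hG t (hin t htm)
      have ht0 : 0 < t := hs.trans_le hst
      rw [hφ1g t hst] at e2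
      have e3 : γ * t ^ 2 / 3 ≤ φ2 t - g t := by
        have : t * (γ * t ^ 2 / 3) ≤ t * (φ2 t - g t) := by
          have h1 : t * (γ * t ^ 2 / 3) = γ * t ^ 3 / 3 := by ring
          have h2 : t * (φ2 t - g t) = t * φ2 t - t * g t := by ring
          rw [h1, h2]
          exact e2
        exact le_of_mul_le_mul_left this ht0
      have e4 : γ * s ^ 2 / 3 ≤ γ * t ^ 2 / 3 := by gcongr
      have e5 : γ * s ^ 2 / 3 = 2 * κ := by rw [hκ]; ring
      linarith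
  have hcov : Set.Icc s (2 * s) = (Set.Icc s c1 ∪ Set.Icc c1 c2) ∪ Set.Icc c2 (2 * s) := by
    rw [Set.Icc_union_Icc_eq_Icc hc1.1 h12, Set.Icc_union_Icc_eq_Icc hc2.1 hc2.2]
  rw [hcov]
  refine (lintegral_union_le _ _ _).trans ?_
  refine (add_le_add ((lintegral_union_le _ _ _).trans (add_le_add hL hM)) hR).trans ?_
  rw [← ENNReal.ofReal_add (by positivity) (by positivity),
    ← ENNReal.ofReal_add (by positivity) (by positivity)]
  refine ENNReal.ofReal_le_ofReal ?_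
  have e1 : 2 / Real.sqrt κ + 6 / Real.sqrt κ + 2 / Real.sqrt κ = 10 / Real.sqrt κ := by ring
  rw [e1]
  have hsγ : 0 < Real.sqrt γ := Real.sqrt_pos.2 hγ
  rw [div_le_div_iff₀ hsκ (by positivity)]
  have e2 : Real.sqrt γ * s ≤ 5 / 2 * Real.sqrt κ := by
    have e3 : Real.sqrt γ * s = Real.sqrt (γ * s ^ 2) := by
      rw [Real.sqrt_mul hγ.le, Real.sqrt_sq hs.le]
    have e4 : 5 / 2 * Real.sqrt κ = Real.sqrt (25 / 4 * κ) := by
      rw [Real.sqrt_mul (by norm_num), show (25 / 4 : ℝ) = (5 / 2) ^ 2 by norm_num,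
        Real.sqrt_sq (by norm_num)]
    rw [e3, e4]
    refine Real.sqrt_le_sqrt ?_
    rw [hκ]
    have : 0 < γ * s ^ 2 := by positivity
    linarith
  linarith

end Pool.Agent.FlatRes
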