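import Pool.Agent.Lib.MP_40a0b6_an.N2Slice
import Pool.Agent.Lib.MP_40a0b6_an.N2IntFar
set_option autoImplicit false
open MeasureTheory
open scoped ENNReal FourierTransform SchwartzMap
namespace Pool.Agent.FlatRes

theorem n2shfar_subst (g : ℝ → ℝ≥0∞) (b : ℝ) :
    ∫⁻ u : ℝ, g (2 * u - b) = ENNReal.ofReal (1 / 2) * ∫⁻ z : ℝ, g z := by
  have h1 : ∫⁻ w : ℝ, g (w - b) ∂(Measure.map (fun u : ℝ => 2 * u) volume) =
      ∫⁻ u : ℝ, g (2 * u - b) :=
    (measurableEmbedding_mulLeft₀ (two_ne_zero : (2 : ℝ) ≠ 0)).lintegral_map (fun w => g (w - b))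
  rw [← h1, Real.map_volume_mul_left (two_ne_zero : (2 : ℝ) ≠ 0), lintegral_smul_measure]
  have h3 : ∫⁻ w : ℝ, g (w - b) = ∫⁻ z : ℝ, g z := lintegral_sub_right_eq_self g b
  rw [h3, smul_eq_mul]
  norm_num

/-- JOB ShFar.  Shell bound, large differences.  As `shell_near` part (2) with `int_far` instead of
`int_mono` (if the set is nonempty then `H` applies to `a`): `½·4τ·25/(√γ s)`. -/
theorem shell_far (Ψ : ℝ × ℝ → ℝ) (hΨ : Measurable Ψ) (r : ℝ) (M vs : ℝ → ℝ × ℝ → ℝ)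
    (hM : MData Ψ r M vs) (P : Set (ℝ × ℝ)) (hP : MeasurableSet P) (hPr : P ⊆ box r) (a : ℝ × ℝ)
    (s γ : ℝ) (hs : 0 < s) (hγ : 0 < γ)
    (H : ∀ x ∈ P, a - x ∈ P → s < 2 * x.1 - a.1 → 2 * x.1 - a.1 ≤ 2 * s →
      FarProp (fun t => M t a) (2 * s) γ) (β β' : ℝ) (hβ : β < β') :
    volume {x : ℝ × ℝ | (x, a - x) ∈ WS P s ∧ Ψ x + Ψ (a - x) ∈ Set.Ioc β β'} ≤
      ENNReal.ofReal (50 / (Real.sqrt γ * s) * (β' - β)) := by
  obtain ⟨A, hA⟩ : ∃ A : Set (ℝ × ℝ), A =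
    {x : ℝ × ℝ | (x, a - x) ∈ WS P s ∧ Ψ x + Ψ (a - x) ∈ Set.Ioc β β'} := ⟨_, rfl⟩
  rw [← hA]
  rcases A.eq_empty_or_nonempty with he | ⟨x0, hx0⟩
  · rw [he]; simp
  have hmemA : ∀ x : ℝ × ℝ, x ∈ A ↔ (x ∈ P ∧ a - x ∈ P ∧ s < 2 * x.1 - a.1 ∧
      2 * x.1 - a.1 ≤ 2 * s) ∧ Ψ x + Ψ (a - x) ∈ Set.Ioc β β' := by
    intro x
    have e : x.1 - (a - x).1 = 2 * x.1 - a.1 := by
      rw [Prod.fst_sub]; ring
    rw [hA]
    show ((x ∈ P ∧ a - x ∈ P ∧ s < x.1 - (a - x).1 ∧ x.1 - (a - x).1 ≤ 2 * s) ∧ _) ↔ _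
    rw [e]
  have hfar : FarProp (fun t => M t a) (2 * s) γ := by
    obtain ⟨⟨h1, h2, h3, h4⟩, -⟩ := (hmemA x0).1 hx0
    exact H x0 h1 h2 h3 h4
  have hmeas : MeasurableSet A := by
    have hsub : Measurable fun x : ℝ × ℝ => a - x := measurable_const.sub measurable_id
    have e : A = ((P ∩ (fun x => a - x) ⁻¹' P) ∩ ((fun x : ℝ × ℝ => 2 * x.1 - a.1) ⁻¹'
        (Set.Ioc s (2 * s)))) ∩ (fun x => Ψ x + Ψ (a - x)) ⁻¹' (Set.Ioc β β') := by
      ext x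
      rw [hmemA]
      simp only [Set.mem_inter_iff, Set.mem_preimage, Set.mem_Ioc]
      tauto
    rw [e]
    refine ((hP.inter (hsub hP)).inter (?_ : MeasurableSet _)).inter
      ((hΨ.add (hΨ.comp hsub)) measurableSet_Ioc)
    exact ((measurable_fst.const_mul 2).sub_const a.1) measurableSet_Ioc
  have hτ : 0 < β' - β := by linarith
  -- the slices
  have hslice : ∀ u : ℝ, volume (Prod.mk u ⁻¹' A) ≤
      (Set.Icc s (2 * s)).indicator (fun z => ENNReal.ofReal (4 * (β' - β)) *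
        ENNReal.ofReal (1 / Real.sqrt (β' - M z a))) (2 * u - a.1) := by
    intro u
    by_cases hu : 2 * u - a.1 ∈ Set.Ioc s (2 * s)
    · rw [Set.indicator_of_mem (Set.Ioc_subset_Icc_self hu)]
      have hJ : Set.OrdConnected {v : ℝ | (u, v) ∈ box r ∧ (a.1 - u, a.2 - v) ∈ box r} := by
        constructor
        intro v1 h1 v2 h2 v hv
        simp only [box, Set.mem_ofPred_eq, Set.mem_prod, Set.mem_Ioo, Set.mem_Icc] at h1 h2 hv ⊢
        refine ⟨⟨h1.1.1, ?_⟩, h1.2.1, ?_⟩ <;> constructor <;> linarith [h1.1.2.1, h1.1.2.2, h2.1.2.1,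
          h2.1.2.2, h1.2.2.1, h1.2.2.2, h2.2.2.1, h2.2.2.2, hv.1, hv.2]
      have h1 := slice_shell (FF Ψ a u) (fun v => D1v Ψ (u, v) - D1v Ψ (a.1 - u, a.2 - v)) _ hJ
        (M (2 * u - a.1) a) (vs (2 * u - a.1) a) (fun v hv => hM.hder a u v hv.1 hv.2)
        (fun v hv => hM.low a u v hv.1 hv.2) (fun v hv => hM.up a u v hv.1 hv.2)
        (fun v hv => hM.slope a u v hv.1 hv.2) β β' hβ
      refine le_trans (measure_mono ?_) (le_trans h1 ?_)
      · intro v hv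
        obtain ⟨⟨h2, h3, -, -⟩, h4⟩ := (hmemA (u, v)).1 hv
        exact ⟨⟨hPr h2, hPr h3⟩, h4⟩
      · rw [← ENNReal.ofReal_mul (by linarith)]
        apply ENNReal.ofReal_le_ofReal
        rw [mul_one_div]
    · have : Prod.mk u ⁻¹' A = ∅ := by
        ext v
        simp only [Set.mem_preimage, Set.mem_empty_iff_false, iff_false]
        intro hv
        obtain ⟨⟨-, -, h3, h4⟩, -⟩ := (hmemA (u, v)).1 hv
        exact hu ⟨h3, h4⟩
      rw [this]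
      simp
  have hvol : volume A = ∫⁻ u : ℝ, volume (Prod.mk u ⁻¹' A) := by
    rw [Measure.volume_eq_prod, Measure.prod_apply hmeas]
  rw [hvol]
  calc ∫⁻ u : ℝ, volume (Prod.mk u ⁻¹' A)
      ≤ ∫⁻ u : ℝ, (Set.Icc s (2 * s)).indicator (fun z => ENNReal.ofReal (4 * (β' - β)) *
        ENNReal.ofReal (1 / Real.sqrt (β' - M z a))) (2 * u - a.1) := lintegral_mono hslice
    _ = ENNReal.ofReal (1 / 2) * ∫⁻ z : ℝ, (Set.Icc s (2 * s)).indicator
        (fun z => ENNReal.ofReal (4 * (β' - β)) *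
        ENNReal.ofReal (1 / Real.sqrt (β' - M z a))) z := n2shfar_subst _ _
    _ = ENNReal.ofReal (1 / 2) * (ENNReal.ofReal (4 * (β' - β)) *
        ∫⁻ z in Set.Icc s (2 * s), ENNReal.ofReal (1 / Real.sqrt (β' - M z a))) := by
      rw [lintegral_indicator measurableSet_Icc, lintegral_const_mul' _ _ ENNReal.ofReal_ne_top]
    _ ≤ ENNReal.ofReal (1 / 2) * (ENNReal.ofReal (4 * (β' - β)) *
        ENNReal.ofReal (25 / (Real.sqrt γ * s))) := by
      gcongr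
      exact int_far (fun t => M t a) s γ β' hs hγ hfar
    _ = ENNReal.ofReal (50 / (Real.sqrt γ * s) * (β' - β)) := by
      rw [← ENNReal.ofReal_mul (by linarith), ← ENNReal.ofReal_mul (by norm_num)]
      congr 1
      ring

end Pool.Agent.FlatRes
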