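import Pool.Agent.Lib.MP_40a0b6_an.N2Defs
set_option autoImplicit false
open MeasureTheory
open scoped ENNReal FourierTransform SchwartzMap
namespace Pool.Agent.FlatRes

theorem N2IntMono_rpow (lam ℓ : ℝ) (hlam : 0 < lam) (hℓ : 0 ≤ ℓ) :
    ∫⁻ u in Set.Ioc 0 ℓ, ENNReal.ofReal (1 / Real.sqrt (lam * u)) =
      ENNReal.ofReal (2 * Real.sqrt (ℓ / lam)) := by
  have hsl : 0 < Real.sqrt lam := Real.sqrt_pos.2 hlam
  have heq : ∀ u ∈ Set.Ioc 0 ℓ, 1 / Real.sqrt (lam * u) =
      (1 / Real.sqrt lam) * u ^ (-(1 / 2) : ℝ) := by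
    intro u hu
    rw [Real.sqrt_mul hlam.le, Real.rpow_neg hu.1.le, ← Real.sqrt_eq_rpow]
    rw [one_div, one_div, mul_inv]
  have hint : IntervalIntegrable (fun u : ℝ => (1 / Real.sqrt lam) * u ^ (-(1 / 2) : ℝ))
      volume 0 ℓ :=
    (intervalIntegral.intervalIntegrable_rpow' (by norm_num)).const_mul _
  rw [intervalIntegrable_iff_integrableOn_Ioc_of_le hℓ] at hint
  rw [setLIntegral_congr_fun measurableSet_Ioc
    (fun u hu => by rw [heq u hu]), ← ofReal_integral_eq_lintegral_ofReal hint
    ((ae_restrict_iff' measurableSet_Ioc).2 (Filter.Eventually.of_forall fun u hu =>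
      mul_nonneg (by positivity) (Real.rpow_nonneg hu.1.le _)))]
  congr 1
  rw [← intervalIntegral.integral_of_le hℓ, intervalIntegral.integral_const_mul,
    integral_rpow (Or.inl (by norm_num))]
  have h1 : (-(1 / 2) + 1 : ℝ) = 1 / 2 := by norm_num
  rw [h1, Real.zero_rpow (by norm_num), ← Real.sqrt_eq_rpow, Real.sqrt_div hℓ]
  field_simp
  ring

/-- from the left end point -/
theorem N2IntMono_left (lam a b : ℝ) (hlam : 0 < lam) (hab : a ≤ b) :
    ∫⁻ z in Set.Ioc a b, ENNReal.ofReal (1 / Real.sqrt (lam * (z - a))) =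
      ENNReal.ofReal (2 * Real.sqrt ((b - a) / lam)) := by
  rw [← N2IntMono_rpow lam (b - a) hlam (by linarith)]
  rw [← lintegral_indicator measurableSet_Ioc, ← lintegral_indicator measurableSet_Ioc]
  rw [← lintegral_sub_right_eq_self (fun u => (Set.Ioc 0 (b - a)).indicator
    (fun u => ENNReal.ofReal (1 / Real.sqrt (lam * u))) u) a]
  refine lintegral_congr fun z => ?_
  by_cases hz : z ∈ Set.Ioc a b
  · rw [Set.indicator_of_mem hz, Set.indicator_of_mem]
    exact ⟨by linarith [hz.1], by linarith [hz.2]⟩
  · rw [Set.indicator_of_notMem hz, Set.indicator_of_notMem]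
    intro h
    exact hz ⟨by linarith [h.1], by linarith [h.2]⟩

/-- from the right end point -/
theorem N2IntMono_right (lam a b : ℝ) (hlam : 0 < lam) (hab : a ≤ b) :
    ∫⁻ z in Set.Ico a b, ENNReal.ofReal (1 / Real.sqrt (lam * (b - z))) =
      ENNReal.ofReal (2 * Real.sqrt ((b - a) / lam)) := by
  rw [← N2IntMono_rpow lam (b - a) hlam (by linarith)]
  rw [← lintegral_indicator measurableSet_Ico, ← lintegral_indicator measurableSet_Ioc]
  rw [← lintegral_sub_left_eq_self (fun u => (Set.Ioc 0 (b - a)).indicator
    (fun u => ENNReal.ofReal (1 / Real.sqrt (lam * u))) u) b]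
  refine lintegral_congr fun z => ?_
  by_cases hz : z ∈ Set.Ico a b
  · rw [Set.indicator_of_mem hz, Set.indicator_of_mem]
    exact ⟨by linarith [hz.2], by linarith [hz.1]⟩
  · rw [Set.indicator_of_notMem hz, Set.indicator_of_notMem]
    intro h
    exact hz ⟨by linarith [h.2], by linarith [h.1]⟩

theorem N2IntMono_zero {x β : ℝ} (h : β ≤ x) : ENNReal.ofReal (1 / Real.sqrt (β - x)) = 0 := by
  rw [Real.sqrt_eq_zero_of_nonpos (by linarith), div_zero, ENNReal.ofReal_zero]

theorem N2IntMono_mono {x y : ℝ} (hx : 0 < x) (h : x ≤ y) :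
    ENNReal.ofReal (1 / Real.sqrt y) ≤ ENNReal.ofReal (1 / Real.sqrt x) :=
  ENNReal.ofReal_le_ofReal (one_div_le_one_div_of_le (Real.sqrt_pos.2 hx) (Real.sqrt_le_sqrt h))

/-- JOB IntMono.  `1/√(β - φ)` on an interval where `φ` is monotone with slope `≥ lam`
(`Real.sqrt` of a negative number is `0` and `1/0 = 0`, so only `{φ < β}` contributes).

Proof.  `σ = 1`: let `S = {z ∈ [p,q] | φ z < β}`, `c = sSup S` (if `S` is empty the integral is `0`).  For
`z ∈ S`, `z < c`: `β - φ z ≥ lam (c - z)` (compare with points of `S` near `c`), so the integrand is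
`≤ 1/√(lam (c-z))`; for `z > c` it is `0`.  `∫_p^c (lam (c-z))^{-1/2} dz = 2√(c-p)/√lam` (`integral_rpow`).
`σ = -1`: reflect `z ↦ p+q-z`, or argue from the left end. -/
theorem int_mono (φ : ℝ → ℝ) (p q lam σ β : ℝ) (hpq : p < q) (hlam : 0 < lam) (hσ : IsSign σ)
    (H : ∀ t1 t2, p ≤ t1 → t1 ≤ t2 → t2 ≤ q → lam * (t2 - t1) ≤ σ * (φ t2 - φ t1)) :
    ∫⁻ z in Set.Icc p q, ENNReal.ofReal (1 / Real.sqrt (β - φ z)) ≤
      ENNReal.ofReal (2 * Real.sqrt ((q - p) / lam)) := by
  set S : Set ℝ := {z | z ∈ Set.Icc p q ∧ φ z < β} with hS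
  by_cases hne : S.Nonempty
  · have hbdd : BddAbove S := ⟨q, fun z hz => hz.1.2⟩
    have hbdd' : BddBelow S := ⟨p, fun z hz => hz.1.1⟩
    rcases hσ with rfl | rfl
    · set c := sSup S with hc
      have hcq : c ≤ q := csSup_le hne fun z hz => hz.1.2
      have hpc : p ≤ c := by
        obtain ⟨z, hz⟩ := hne
        exact hz.1.1.trans (le_csSup hbdd hz)
      have key : ∀ z ∈ Set.Icc p q, z < c → lam * (c - z) ≤ β - φ z := by
        intro z hz hzc
        refine le_of_forall_pos_lt_add fun ε hε => ?_
        obtain ⟨y, hy, hyc⟩ := exists_lt_of_lt_csSup hne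
          (show max z (c - ε / lam) < c from max_lt hzc (by
            have : 0 < ε / lam := by positivity
            linarith))
        have h1 := H z y hz.1 ((le_max_left _ _).trans hyc.le) hy.1.2
        have h2 : c - ε / lam < y := (le_max_right _ _).trans_lt hyc
        have h3 : lam * (c - y) < ε := by
          have : c - y < ε / lam := by linarith
          rwa [lt_div_iff₀ hlam, mul_comm] at this
        have h4 := hy.2
        have e : lam * (c - z) = lam * (c - y) + lam * (y - z) := by ring
        linarith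
      have hle : ∫⁻ z in Set.Icc p q, ENNReal.ofReal (1 / Real.sqrt (β - φ z)) ≤
          ∫⁻ z in Set.Ico p c, ENNReal.ofReal (1 / Real.sqrt (lam * (c - z))) := by
        rw [← lintegral_indicator measurableSet_Icc, ← lintegral_indicator measurableSet_Ico]
        refine lintegral_mono_ae ?_
        have hae : ∀ᵐ z : ℝ, z ≠ c := by
          simp [ae_iff, measure_singleton]
        filter_upwards [hae] with z hzc
        by_cases hz : z ∈ Set.Icc p q
        · rw [Set.indicator_of_mem hz]
          rcases lt_or_gt_of_ne hzc with h | h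
          · rw [Set.indicator_of_mem (show z ∈ Set.Ico p c from ⟨hz.1, h⟩)]
            exact N2IntMono_mono (mul_pos hlam (by linarith)) (key z hz h)
          · rw [N2IntMono_zero]
            · exact bot_le
            · by_contra hcon
              exact absurd (le_csSup hbdd (show z ∈ S from ⟨hz, not_le.1 hcon⟩)) (not_le.2 h)
        · rw [Set.indicator_of_notMem hz]
          exact bot_le
      refine hle.trans ?_
      rw [N2IntMono_right lam p c hlam hpc]
      refine ENNReal.ofReal_le_ofReal ?_
      have := Real.sqrt_le_sqrt (div_le_div_of_nonneg_right (show c - p ≤ q - p by linarith) hlam.le)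
      linarith
    · set c := sInf S with hc
      have hcq : c ≤ q := by
        obtain ⟨z, hz⟩ := hne
        exact (csInf_le hbdd' hz).trans hz.1.2
      have hpc : p ≤ c := le_csInf hne fun z hz => hz.1.1
      have key : ∀ z ∈ Set.Icc p q, c < z → lam * (z - c) ≤ β - φ z := by
        intro z hz hzc
        refine le_of_forall_pos_lt_add fun ε hε => ?_
        obtain ⟨y, hy, hyc⟩ := exists_lt_of_csInf_lt hne
          (show c < min z (c + ε / lam) from lt_min hzc (by
            have : 0 < ε / lam := by positivity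
            linarith))
        have h1 := H y z hy.1.1 (hyc.le.trans (min_le_left _ _)) hz.2
        have h2 : y < c + ε / lam := hyc.trans_le (min_le_right _ _)
        have h3 : lam * (y - c) < ε := by
          have : y - c < ε / lam := by linarith
          rwa [lt_div_iff₀ hlam, mul_comm] at this
        have h4 := hy.2
        have e : lam * (z - c) = lam * (y - c) + lam * (z - y) := by ring
        linarith
      have hle : ∫⁻ z in Set.Icc p q, ENNReal.ofReal (1 / Real.sqrt (β - φ z)) ≤
          ∫⁻ z in Set.Ioc c q, ENNReal.ofReal (1 / Real.sqrt (lam * (z - c))) := by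
        rw [← lintegral_indicator measurableSet_Icc, ← lintegral_indicator measurableSet_Ioc]
        refine lintegral_mono_ae ?_
        have hae : ∀ᵐ z : ℝ, z ≠ c := by
          simp [ae_iff, measure_singleton]
        filter_upwards [hae] with z hzc
        by_cases hz : z ∈ Set.Icc p q
        · rw [Set.indicator_of_mem hz]
          rcases lt_or_gt_of_ne hzc with h | h
          · rw [N2IntMono_zero]
            · exact bot_le
            · by_contra hcon
              exact absurd (csInf_le hbdd' (show z ∈ S from ⟨hz, not_le.1 hcon⟩)) (not_le.2 h)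
          · rw [Set.indicator_of_mem (show z ∈ Set.Ioc c q from ⟨h, hz.2⟩)]
            exact N2IntMono_mono (mul_pos hlam (by linarith)) (key z hz h)
        · rw [Set.indicator_of_notMem hz]
          exact bot_le
      refine hle.trans ?_
      rw [N2IntMono_left lam c q hlam hcq]
      refine ENNReal.ofReal_le_ofReal ?_
      have := Real.sqrt_le_sqrt (div_le_div_of_nonneg_right (show q - c ≤ q - p by linarith) hlam.le)
      linarith
  · have h0 : ∫⁻ z in Set.Icc p q, ENNReal.ofReal (1 / Real.sqrt (β - φ z)) = 0 := by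
      rw [setLIntegral_congr_fun measurableSet_Icc (g := fun _ => 0)]
      · simp
      · intro z hz
        refine N2IntMono_zero ?_
        by_contra hcon
        exact hne ⟨z, hz, not_le.1 hcon⟩
    rw [h0]
    exact bot_le

end Pool.Agent.FlatRes
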