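import Pool.Agent.Lib.MP_40a0b6_an.N2Slice
import Pool.Agent.Lib.MP_40a0b6_an.N2IntMono
set_option autoImplicit false
open MeasureTheory
open scoped ENNReal FourierTransform SchwartzMap
namespace Pool.Agent.FlatRes

/-- JOB ShNear.  Shell bound, small differences.

Proof.  Fubini: the measure is `∫⁻ u, volume {v | (u,v) in the set}` (the set is measurable).  Only `u` with
`s < 2u-a₁ ≤ 2s` contribute, an interval of length `s/2`.  For fixed `u` let
`J = {v | (u,v) ∈ box r ∧ (a₁-u,a₂-v) ∈ box r}` (an interval), `f v = FF Ψ a u v`,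
`f' v = D1v Ψ (u,v) - D1v Ψ (a₁-u,a₂-v)` (monotone in `v` on `J` by `MData.mono`), `m = M (2u-a₁) a`,
`e0 = vs (2u-a₁) a`.
(1) The part with `|f' v| > w0`: `slice_shell_w` gives `2τ/w0` for each `u`, total `≤ sτ/w0`.
(2) The part with `|f' v| ≤ w0`: if it is nonempty for some `u`, the hypothesis `H` applies to `a`, and
`slice_shell` gives `4τ/√(β'-M(2u-a₁,a))`; substitute `z = 2u-a₁` (`du = dz/2`) and use `int_mono`
(lower integrals: `lintegral_mono` needs no measurability of the majorant):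
`½·4τ·2√(s/lam) = 4τ√(s/lam)`. -/
theorem shell_near (Ψ : ℝ × ℝ → ℝ) (hΨ : Measurable Ψ) (r : ℝ) (M vs : ℝ → ℝ × ℝ → ℝ)
    (hM : MData Ψ r M vs) (P : Set (ℝ × ℝ)) (hP : MeasurableSet P) (hPr : P ⊆ box r) (a : ℝ × ℝ)
    (s w0 lam : ℝ) (hs : 0 < s) (hw : 0 < w0) (hlam : 0 < lam)
    (H : ∀ x ∈ P, a - x ∈ P → s < 2 * x.1 - a.1 → 2 * x.1 - a.1 ≤ 2 * s →
      |D1v Ψ x - D1v Ψ (a - x)| ≤ w0 → ∃ σ, IsSign σ ∧ ∀ t1 t2, s ≤ t1 → t1 ≤ t2 → t2 ≤ 2 * s →
        lam * (t2 - t1) ≤ σ * (M t2 a - M t1 a)) (β β' : ℝ) (hβ : β < β') :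
    volume {x : ℝ × ℝ | (x, a - x) ∈ WS P s ∧ Ψ x + Ψ (a - x) ∈ Set.Ioc β β'} ≤
      ENNReal.ofReal ((s / w0 + 4 * Real.sqrt (s / lam)) * (β' - β)) := by
  classical
  have hτ : 0 < β' - β := sub_pos.mpr hβ
  set D : ℝ × ℝ → ℝ := (box r).indicator (D1v Ψ) with hD
  have hDm : Measurable D := hM.measD
  set S : Set (ℝ × ℝ) := {x : ℝ × ℝ | (x, a - x) ∈ WS P s ∧ Ψ x + Ψ (a - x) ∈ Set.Ioc β β'} with hS
  have hax : Measurable fun x : ℝ × ℝ => a - x := measurable_const.sub measurable_id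
  have hSm : MeasurableSet S := by
    have e : S = (P ∩ ((fun x : ℝ × ℝ => a - x) ⁻¹' P)) ∩
        (((fun x : ℝ × ℝ => x.1 - (a - x).1) ⁻¹' Set.Ioc s (2 * s)) ∩
          ((fun x : ℝ × ℝ => Ψ x + Ψ (a - x)) ⁻¹' Set.Ioc β β')) := by
      ext x
      simp only [hS, WS, Set.mem_ofPred_eq, Set.mem_inter_iff, Set.mem_preimage, Set.mem_Ioc]
      tauto
    rw [e]
    refine (hP.inter (hax hP)).inter (MeasurableSet.inter ?_ ?_)
    · exact (measurable_fst.sub (measurable_fst.comp hax)) measurableSet_Ioc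
    · exact (hΨ.add (hΨ.comp hax)) measurableSet_Ioc
  set A : Set (ℝ × ℝ) := S ∩ {x | w0 < |D x - D (a - x)|} with hA
  set B : Set (ℝ × ℝ) := S ∩ {x | w0 < |D x - D (a - x)|}ᶜ with hB
  have hTm : MeasurableSet {x : ℝ × ℝ | w0 < |D x - D (a - x)|} := by
    have h1 : Measurable fun x : ℝ × ℝ => |D x - D (a - x)| :=
      (hDm.sub (hDm.comp hax)).abs
    exact h1 measurableSet_Ioi
  have hAm : MeasurableSet A := hSm.inter hTm
  have hBm : MeasurableSet B := hSm.inter hTm.compl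
  have hSAB : S = A ∪ B := by
    rw [hA, hB, ← Set.inter_union_distrib_left, Set.union_compl_self, Set.inter_univ]
  -- facts about the members of `S`
  have hmem : ∀ x ∈ S, x ∈ box r ∧ a - x ∈ box r ∧ x ∈ P ∧ a - x ∈ P ∧ s < 2 * x.1 - a.1 ∧
      2 * x.1 - a.1 ≤ 2 * s ∧ Ψ x + Ψ (a - x) ∈ Set.Ioc β β' := by
    intro x hx
    obtain ⟨⟨h1, h2, h3, h4⟩, h5⟩ := hx
    have h6 : (x, a - x).1.1 - (x, a - x).2.1 = 2 * x.1 - a.1 := by
      simp only [Prod.fst_sub]; ring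
    rw [h6] at h3 h4
    exact ⟨hPr h1, hPr h2, h1, h2, h3, h4, h5⟩
  have hDD : ∀ x ∈ S, D x - D (a - x) = D1v Ψ x - D1v Ψ (a - x) := by
    intro x hx
    obtain ⟨h1, h2, -⟩ := hmem x hx
    rw [hD, Set.indicator_of_mem h1, Set.indicator_of_mem h2]
  -- the slices
  set J : ℝ → Set ℝ := fun u => {v | (u, v) ∈ box r ∧ (a.1 - u, a.2 - v) ∈ box r} with hJdef
  have hJ : ∀ u, (J u).OrdConnected := by
    intro u
    refine ⟨fun v1 h1 v2 h2 v hv => ?_⟩
    simp only [hJdef, box, Set.mem_ofPred_eq, Set.mem_prod, Set.mem_Ioo] at h1 h2 ⊢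
    obtain ⟨hv1, hv2⟩ := hv
    refine ⟨⟨h1.1.1, ?_, ?_⟩, ⟨h1.2.1, ?_, ?_⟩⟩
    · linarith [h1.1.2.1]
    · linarith [h2.1.2.2]
    · linarith [h2.2.2.1]
    · linarith [h1.2.2.2]
  set f : ℝ → ℝ → ℝ := fun u v => FF Ψ a u v with hf
  set f' : ℝ → ℝ → ℝ := fun u v => D1v Ψ (u, v) - D1v Ψ (a.1 - u, a.2 - v) with hf'
  have hder : ∀ u, ∀ v ∈ J u, HasDerivAt (f u) (f' u v) v :=
    fun u v hv => hM.hder a u v hv.1 hv.2
  have hmono : ∀ u, ∀ v1 ∈ J u, ∀ v2 ∈ J u, v1 ≤ v2 → f' u v1 ≤ f' u v2 := by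
    intro u v1 h1 v2 h2 h12
    have e1 := hM.mono u v1 v2 h1.1 h2.1 h12
    have e2 := hM.mono (a.1 - u) (a.2 - v2) (a.2 - v1) h2.2 h1.2 (by linarith)
    simp only [hf']
    linarith
  have hsub : ∀ (u v : ℝ), a - (u, v) = (a.1 - u, a.2 - v) := fun u v => rfl
  set p : ℝ := (a.1 + s) / 2 with hp
  set q : ℝ := (a.1 + 2 * s) / 2 with hq
  have hpq : p < q := by rw [hp, hq]; linarith
  have hupq : ∀ x ∈ S, x.1 ∈ Set.Icc p q := by
    intro x hx
    obtain ⟨-, -, -, -, h1, h2, -⟩ := hmem x hx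
    rw [hp, hq]
    constructor <;> linarith
  -- Fubini with a bound on the slices
  have fub : ∀ (E : Set (ℝ × ℝ)), MeasurableSet E → E ⊆ S → ∀ g : ℝ → ℝ≥0∞,
      (∀ u ∈ Set.Icc p q, volume (Prod.mk u ⁻¹' E) ≤ g u) →
      volume E ≤ ∫⁻ u in Set.Icc p q, g u := by
    intro E hE hES g hg
    rw [Measure.volume_eq_prod, Measure.prod_apply hE]
    rw [← lintegral_indicator measurableSet_Icc]
    refine lintegral_mono fun u => ?_
    by_cases hu : u ∈ Set.Icc p q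
    · rw [Set.indicator_of_mem hu]
      exact hg u hu
    · have h0 : (Prod.mk u ⁻¹' E) = ∅ := by
        rw [Set.eq_empty_iff_forall_notMem]
        intro v hv
        exact hu (hupq (u, v) (hES hv))
      simp only [h0, measure_empty, zero_le]
  -- part A
  have hAle : volume A ≤ ENNReal.ofReal (s / w0 * (β' - β)) := by
    have h1 := fub A hAm Set.inter_subset_left (fun _ => ENNReal.ofReal (2 * (β' - β) / w0)) (by
      intro u _
      refine le_trans (measure_mono ?_)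
        (slice_shell_w (f u) (f' u) (J u) (hJ u) (hder u) (hmono u) w0 hw β β' hβ)
      intro v hv
      have hvS : (u, v) ∈ S := hv.1
      obtain ⟨m1, m2, -, -, -, -, m3⟩ := hmem _ hvS
      refine ⟨⟨m1, m2⟩, ?_, m3⟩
      have h2 : w0 < |D (u, v) - D (a - (u, v))| := hv.2
      rw [hDD _ hvS] at h2
      exact h2)
    refine h1.trans ?_
    rw [setLIntegral_const, Real.volume_Icc, ← ENNReal.ofReal_mul (by positivity)]
    apply ENNReal.ofReal_le_ofReal
    rw [hp, hq]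
    apply le_of_eq
    field_simp
    ring
  -- part B
  have hBle : volume B ≤ ENNReal.ofReal (4 * Real.sqrt (s / lam) * (β' - β)) := by
    rcases Set.eq_empty_or_nonempty B with hBe | ⟨x0, hx0⟩
    · rw [hBe, measure_empty]; exact zero_le
    obtain ⟨-, -, hx1, hx2, hx3, hx4, -⟩ := hmem x0 hx0.1
    have hx5 : |D1v Ψ x0 - D1v Ψ (a - x0)| ≤ w0 := by
      rw [← hDD x0 hx0.1]
      exact not_lt.mp hx0.2
    obtain ⟨σ, hσ, Hσ⟩ := H x0 hx1 hx2 hx3 hx4 hx5
    have h1 := fub B hBm Set.inter_subset_left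
      (fun u => ENNReal.ofReal (4 * (β' - β)) *
        ENNReal.ofReal (1 / Real.sqrt (β' - M (2 * u - a.1) a))) (by
      intro u _
      rw [← ENNReal.ofReal_mul (by positivity), mul_one_div]
      refine le_trans (measure_mono ?_)
        (slice_shell (f u) (f' u) (J u) (hJ u) (M (2 * u - a.1) a) (vs (2 * u - a.1) a) (hder u)
          (fun v hv => hM.low a u v hv.1 hv.2) (fun v hv => hM.up a u v hv.1 hv.2)
          (fun v hv => hM.slope a u v hv.1 hv.2) β β' hβ)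
      intro v hv
      have hvS : (u, v) ∈ S := hv.1
      obtain ⟨m1, m2, -, -, -, -, m3⟩ := hmem _ hvS
      exact ⟨⟨m1, m2⟩, m3⟩)
    refine h1.trans ?_
    rw [lintegral_const_mul' _ _ ENNReal.ofReal_ne_top]
    have h2 := int_mono (fun u => M (2 * u - a.1) a) p q (2 * lam) σ β' hpq (by positivity) hσ (by
      intro t1 t2 h1 h12 h2
      have h3 := Hσ (2 * t1 - a.1) (2 * t2 - a.1) (by rw [hp] at h1; linarith) (by linarith)
        (by rw [hq] at h2; linarith)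
      calc 2 * lam * (t2 - t1) = lam * ((2 * t2 - a.1) - (2 * t1 - a.1)) := by ring
        _ ≤ _ := h3)
    refine (mul_le_mul_right h2 _).trans ?_
    rw [← ENNReal.ofReal_mul (by positivity)]
    apply ENNReal.ofReal_le_ofReal
    have h4 : (q - p) / (2 * lam) = (s / lam) / 4 := by
      rw [hp, hq]; field_simp; ring
    have h5 : Real.sqrt ((s / lam) / 4) = Real.sqrt (s / lam) / 2 := by
      rw [Real.sqrt_div (by positivity)]
      congr 1
      rw [show (4 : ℝ) = 2 ^ 2 by norm_num, Real.sqrt_sq (by norm_num)]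
    rw [h4, h5]
    apply le_of_eq
    ring
  rw [hSAB]
  refine (measure_union_le A B).trans ?_
  refine (add_le_add hAle hBle).trans ?_
  rw [← ENNReal.ofReal_add (by positivity) (by positivity)]
  apply ENNReal.ofReal_le_ofReal
  apply le_of_eq
  ring

end Pool.Agent.FlatRes
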