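import Pool.Agent.Lib.MP_40a0b6_an.N2PairThm
import Pool.Agent.Lib.MP_40a0b6_an.N2Dens
import Pool.Agent.Lib.MP_40a0b6_an.N2ShNear
import Pool.Agent.Lib.MP_40a0b6_an.N2ShFar
import Pool.Agent.Lib.MP_40a0b6_an.N2Geom
set_option autoImplicit false
open MeasureTheory
open scoped ENNReal FourierTransform SchwartzMap
namespace Pool.Agent.FlatRes

theorem ac_meas {P : Set (ℝ × ℝ)} (hP : MeasurableSet P) (s : ℝ) : MeasurableSet (WS P s) := by
  have h : WS P s = (Prod.fst ⁻¹' P ∩ Prod.snd ⁻¹' P) ∩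
      ({p : (ℝ × ℝ) × (ℝ × ℝ) | s < p.1.1 - p.2.1} ∩ {p | p.1.1 - p.2.1 ≤ 2 * s}) := by
    ext p
    simp only [WS, Set.mem_ofPred_eq, Set.mem_inter_iff, Set.mem_preimage, and_assoc]
  rw [h]
  refine ((measurable_fst hP).inter (measurable_snd hP)).inter (MeasurableSet.inter ?_ ?_)
  · exact measurableSet_lt measurable_const (by fun_prop)
  · exact measurableSet_le (by fun_prop) measurable_const

theorem ac_slab {P : Set (ℝ × ℝ)} (hP : MeasurableSet P) (w : ℝ≥0∞)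
    (hw : ∀ u : ℝ, volume {v : ℝ | (u, v) ∈ P} ≤ w) (α β : ℝ) :
    volume {x : ℝ × ℝ | x ∈ P ∧ α ≤ x.1 ∧ x.1 ≤ β} ≤ ENNReal.ofReal (β - α) * w := by
  have hm : MeasurableSet {x : ℝ × ℝ | x ∈ P ∧ α ≤ x.1 ∧ x.1 ≤ β} :=
    hP.inter ((measurableSet_le measurable_const measurable_fst).inter
      (measurableSet_le measurable_fst measurable_const))
  rw [Measure.volume_eq_prod, Measure.prod_apply hm]
  calc _ ≤ ∫⁻ u in Set.Icc α β, w := by
        rw [← lintegral_indicator measurableSet_Icc]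
        refine lintegral_mono fun u => ?_
        by_cases hu : u ∈ Set.Icc α β
        · rw [Set.indicator_of_mem hu]
          exact le_trans (measure_mono fun v hv => hv.1) (hw u)
        · rw [Set.indicator_of_notMem hu]
          have : Prod.mk u ⁻¹' {x : ℝ × ℝ | x ∈ P ∧ α ≤ x.1 ∧ x.1 ≤ β} = ∅ := by
            ext v
            simp only [Set.mem_preimage, Set.mem_ofPred_eq, Set.mem_empty_iff_false, iff_false]
            rintro ⟨-, h1, h2⟩
            exact hu ⟨h1, h2⟩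
          rw [this, measure_empty]
    _ = _ := by rw [setLIntegral_const, Real.volume_Icc, mul_comm]

/-- the dyadic scale of a positive number `≤ S` -/
theorem ac_dyadic {S z : ℝ} (hS : 0 < S) (hz : 0 < z) (hzS : z ≤ S) :
    ∃ i : ℕ, S / 2 ^ (i + 1) < z ∧ z ≤ 2 * (S / 2 ^ (i + 1)) := by
  obtain ⟨n, h1, h2⟩ := exists_nat_pow_near_of_lt_one (x := z / S) (y := (1 / 2 : ℝ))
    (div_pos hz hS) ((div_le_one hS).2 hzS) (by norm_num) (by norm_num)
  refine ⟨n, ?_, ?_⟩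
  · rw [lt_div_iff₀ hS, one_div, inv_pow] at h1
    rw [div_eq_mul_inv, mul_comm]
    exact h1
  · rw [div_le_iff₀ hS, one_div, inv_pow] at h2
    have e : 2 * (S / 2 ^ (n + 1)) = (2 ^ n)⁻¹ * S := by
      rw [pow_succ]
      field_simp
    rw [e]
    exact h2

theorem ac_disj {S : ℝ} (hS : 0 < S) {i j : ℕ} (hij : i < j) {z : ℝ}
    (h1 : S / 2 ^ (i + 1) < z) (h2 : z ≤ 2 * (S / 2 ^ (j + 1))) : False := by
  have h3 : (2 : ℝ) ^ (i + 1) ≤ 2 ^ j := pow_le_pow_right₀ (by norm_num) (by omega)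
  have h4 : S / 2 ^ j ≤ S / 2 ^ (i + 1) := div_le_div_of_nonneg_left hS.le (by positivity) h3
  have h5 : 2 * (S / 2 ^ (j + 1)) = S / 2 ^ j := by
    rw [pow_succ]
    field_simp
  linarith

theorem ac_exp {x : ℝ} (hx : 0 < x) (y : ℝ) : x ^ y = Real.exp (Real.log x * y) :=
  Real.rpow_def_of_pos hx y

/-- exponent bookkeeping, small differences -/
theorem ac_small_exp {q K c C1 δ κ : ℝ} (hq : 0 < q) (hK : 0 < K) (hc : 0 < c) (hδ : 0 < δ)
    (hκ : 0 < κ) :
    ((1 + 4 / Real.sqrt c) * (Real.sqrt δ)⁻¹) ^ (2 / q) * (K * δ / κ) ^ (1 - 4 / q) *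
      (C1 * (c * Real.sqrt δ / κ) ^ (1 - 4 / q)) =
    ((1 + 4 / Real.sqrt c) ^ (2 / q) * K ^ (1 - 4 / q) * C1 * c ^ (1 - 4 / q)) *
      δ ^ (3 / 2 - 7 / q) * κ ^ (-(2 * (1 - 4 / q))) := by
  have h1 : 0 < 1 + 4 / Real.sqrt c := by positivity
  have h2 : 0 < Real.sqrt δ := Real.sqrt_pos.2 hδ
  have l1 : Real.log (Real.sqrt δ) = Real.log δ / 2 := Real.log_sqrt hδ.le
  rw [ac_exp (by positivity) (2 / q), ac_exp (by positivity) (1 - 4 / q),
    ac_exp (x := c * Real.sqrt δ / κ) (by positivity) (1 - 4 / q),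
    ac_exp h1, ac_exp hK, ac_exp hc, ac_exp hδ, ac_exp hκ,
    Real.log_mul h1.ne' (by positivity), Real.log_inv, l1,
    Real.log_div (by positivity) hκ.ne', Real.log_mul hK.ne' hδ.ne',
    Real.log_div (by positivity) hκ.ne', Real.log_mul hc.ne' h2.ne', l1]
  have e : ∀ a b d : ℝ, Real.exp a * Real.exp b * (C1 * Real.exp d) =
      C1 * Real.exp (a + b + d) := by
    intro a b d
    rw [Real.exp_add, Real.exp_add]
    ring
  have e' : ∀ a b d f g : ℝ, Real.exp a * Real.exp b * C1 * Real.exp d * Real.exp f * Real.exp g =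
      C1 * Real.exp (a + b + d + f + g) := by
    intro a b d f g
    rw [Real.exp_add, Real.exp_add, Real.exp_add, Real.exp_add]
    ring
  rw [e, e']
  congr 2
  field_simp
  ring

/-- exponent bookkeeping, large differences -/
theorem ac_large_exp {q K c C2 δ κ : ℝ} (hq : 0 < q) (hK : 0 < K) (hc : 0 < c) (hδ : 0 < δ)
    (hκ : 0 < κ) :
    (50 / (Real.sqrt c * κ)) ^ (2 / q) * (K * δ / κ) ^ (1 - 4 / q) *
      (C2 * (c * Real.sqrt δ / κ) ^ (-(6 / q - 1))) =
    ((50 / Real.sqrt c) ^ (2 / q) * K ^ (1 - 4 / q) * C2 * c ^ (-(6 / q - 1))) *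
      δ ^ (3 / 2 - 7 / q) * κ ^ (-(2 * (1 - 4 / q))) := by
  have h1 : 0 < 50 / Real.sqrt c := by positivity
  have h2 : 0 < Real.sqrt δ := Real.sqrt_pos.2 hδ
  have h3 : 50 / (Real.sqrt c * κ) = 50 / Real.sqrt c * κ⁻¹ := by
    field_simp
  have l1 : Real.log (Real.sqrt δ) = Real.log δ / 2 := Real.log_sqrt hδ.le
  rw [h3, ac_exp (x := 50 / Real.sqrt c * κ⁻¹) (by positivity) (2 / q),
    ac_exp (x := K * δ / κ) (by positivity) (1 - 4 / q),
    ac_exp (x := c * Real.sqrt δ / κ) (by positivity) (-(6 / q - 1)),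
    ac_exp h1, ac_exp hK, ac_exp hc, ac_exp hδ, ac_exp hκ,
    Real.log_mul h1.ne' (by positivity), Real.log_inv,
    Real.log_div (by positivity) hκ.ne', Real.log_mul hK.ne' hδ.ne',
    Real.log_div (by positivity) hκ.ne', Real.log_mul hc.ne' h2.ne', l1]
  have e : ∀ a b d : ℝ, Real.exp a * Real.exp b * (C2 * Real.exp d) =
      C2 * Real.exp (a + b + d) := by
    intro a b d
    rw [Real.exp_add, Real.exp_add]
    ring
  have e' : ∀ a b d f g : ℝ, Real.exp a * Real.exp b * C2 * Real.exp d * Real.exp f * Real.exp g =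
      C2 * Real.exp (a + b + d + f + g) := by
    intro a b d f g
    rw [Real.exp_add, Real.exp_add, Real.exp_add, Real.exp_add]
    ring
  rw [e, e']
  congr 2
  field_simp
  ring

/-- JOB AC.  The bound for one curvature piece.

Proof.  Put `s0 = c√δ/κ`, `s_i = S/2^{i+1}`, `W i = WS P (s_i)` (`i : ℕ`): measurable, pairwise disjoint, inside
`P × P`, ordered, and they cover all ordered pairs (since `0 < x₁-x₁' ≤ S`).  Apply `pair_thm` with
`N i = ofReal (s_i · Kδ/κ)` (for fixed `x` the first coordinate `x₁'` runs through an interval of length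
`s_i`, and the slices of `P` have measure `≤ Kδ/κ`) and `D i = ofReal (Dᵢ)` from `dens2` (`τ0 = 1`):
 * `s_i ≤ s0`: pairs have `x₁-x₁' ≤ 2s0`; `shell_near` with `w0 = cδ/κ`, `lam = cδ s_i` (for a pair with
   `|ΔD1v| ≤ w0` the third hypothesis gives `NearProp` on `[0, 2(x₁-x₁')] ⊇ [s_i, 2s_i]`, and `σφ1 ≥ cδt ≥ cδ s_i`
   gives the slope by the mean value theorem): `Dᵢ = s_i/w0 + 4√(s_i/lam) ≤ (1 + 4/√c) δ^{-1/2}`.
 * `s_i > s0`: `shell_far` with `γ = cκ²` (`x₁-x₁' > s_i > s0`, `2s_i < 2(x₁-x₁')`; restrict `FarProp` to a smaller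
   interval): `Dᵢ = 50/(√c κ s_i)`.
Then, with `b = 1-4/q > 0` and `b' = 6/q-1 > 0`,
`Σ_{s_i ≤ s0} Dᵢ^{2/q} Nᵢ^{b} ≤ C δ^{-1/q} (Kδ/κ)^b Σ s_i^b ≤ C δ^{-1/q} (δ s0/κ)^b = C δ^{3/2-7/q} κ^{-2b}` (`geom_small`),
`Σ_{s_i > s0} ≤ C κ^{-2/q} (Kδ/κ)^b Σ s_i^{-b'} ≤ C κ^{-2/q}(δ/κ)^b s0^{-b'} = C δ^{3/2-7/q} κ^{-2b}` (`geom_large`). -/
theorem ac_piece (q : ℝ) (hq4 : 4 < q) (hq6 : q < 6) (K c : ℝ) (hK : 0 < K) (hc : 0 < c) :
    ∃ C : ℝ, 0 < C ∧ ∀ (Ψ : ℝ × ℝ → ℝ) (r : ℝ) (M vs : ℝ → ℝ × ℝ → ℝ) (P : Set (ℝ × ℝ))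
      (κ δ S : ℝ), Measurable Ψ → MData Ψ r M vs → MeasurableSet P → P ⊆ box r →
      0 < κ → 0 < δ → 0 < S →
      (∀ x ∈ P, ∀ x' ∈ P, x.1 - x'.1 ≤ S) →
      (∀ u : ℝ, volume {v : ℝ | (u, v) ∈ P} ≤ ENNReal.ofReal (K * δ / κ)) →
      (∀ x ∈ P, ∀ x' ∈ P, 0 < x.1 - x'.1 → x.1 - x'.1 ≤ 2 * (c * Real.sqrt δ / κ) →
        |D1v Ψ x - D1v Ψ x'| ≤ c * δ / κ →
        NearProp (fun t => M t (x + x')) (2 * (x.1 - x'.1)) (c * δ)) →
      (∀ x ∈ P, ∀ x' ∈ P, c * Real.sqrt δ / κ < x.1 - x'.1 →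
        FarProp (fun t => M t (x + x')) (2 * (x.1 - x'.1)) (c * κ ^ 2)) →
      ∀ h : ℝ × ℝ → ℂ, BddMeas h → ∫⁻ ξ, ‖extOn Ψ P h ξ‖ₑ ^ q ≤
        (ENNReal.ofReal (C * δ ^ (3 / 2 - 7 / q) * κ ^ (-(2 * (1 - 4 / q)))) * mass P h) ^ (q / 2) := by
  have hq : 0 < q := by linarith
  have hb : 0 < 1 - 4 / q := by
    rw [sub_pos, div_lt_one hq]
    exact hq4
  have hb' : 0 < 6 / q - 1 := by
    rw [sub_pos, lt_div_iff₀ hq]
    linarith
  obtain ⟨C1, hC1, hg1⟩ := geom_small (1 - 4 / q) hb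
  obtain ⟨C2, hC2, hg2⟩ := geom_large (6 / q - 1) hb'
  obtain ⟨c1, hc1⟩ : ∃ c1, c1 = (1 + 4 / Real.sqrt c) ^ (2 / q) * K ^ (1 - 4 / q) * C1 *
    c ^ (1 - 4 / q) := ⟨_, rfl⟩
  obtain ⟨c2, hc2⟩ : ∃ c2, c2 = (50 / Real.sqrt c) ^ (2 / q) * K ^ (1 - 4 / q) * C2 *
    c ^ (-(6 / q - 1)) := ⟨_, rfl⟩
  have hc1p : 0 < c1 := by rw [hc1]; positivity
  have hc2p : 0 < c2 := by rw [hc2]; positivity
  refine ⟨2 * (c1 + c2), by positivity, ?_⟩
  intro Ψ r M vs P κ δ S hΨ hM hP hPr hκ hδ hS hPS hsl hnear hfar h hh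
  have hsδ : 0 < Real.sqrt δ := Real.sqrt_pos.2 hδ
  have hsc : 0 < Real.sqrt c := Real.sqrt_pos.2 hc
  obtain ⟨s0, hs0⟩ : ∃ s0, s0 = c * Real.sqrt δ / κ := ⟨_, rfl⟩
  have hs0p : 0 < s0 := by rw [hs0]; positivity
  rw [← hs0] at hnear hfar
  obtain ⟨s, hs⟩ : ∃ s : ℕ → ℝ, s = fun i => S / 2 ^ (i + 1) := ⟨_, rfl⟩
  have hsv : ∀ i, s i = S / 2 ^ (i + 1) := fun i => by rw [hs]
  have hsp : ∀ i, 0 < s i := fun i => by rw [hsv]; positivity
  obtain ⟨Dr, hDr⟩ : ∃ Dr : ℕ → ℝ, Dr = fun i => if s i ≤ s0 then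
    (1 + 4 / Real.sqrt c) * (Real.sqrt δ)⁻¹ else 50 / (Real.sqrt (c * κ ^ 2) * s i) := ⟨_, rfl⟩
  have hDr1 : ∀ i, s i ≤ s0 → Dr i = (1 + 4 / Real.sqrt c) * (Real.sqrt δ)⁻¹ := fun i hi => by
    rw [hDr]
    exact if_pos hi
  have hDr2 : ∀ i, ¬ s i ≤ s0 → Dr i = 50 / (Real.sqrt (c * κ ^ 2) * s i) := fun i hi => by
    rw [hDr]
    exact if_neg hi
  have hDr0 : ∀ i, 0 ≤ Dr i := by
    intro i
    have := hsp i
    by_cases hi : s i ≤ s0
    · rw [hDr1 i hi]; positivity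
    · rw [hDr2 i hi]; positivity
  have hfin : volume P ≠ ⊤ := by
    refine ((measure_mono hPr).trans_lt ?_).ne
    unfold box
    exact ((Metric.isBounded_Ioo _ _).prod (Metric.isBounded_Ioo _ _)).measure_lt_top
  have hsum : ∀ x a : ℝ × ℝ, x.1 - (a - x).1 = 2 * x.1 - a.1 := by
    intro x a
    show x.1 - (a.1 - x.1) = _
    ring
  have key := pair_thm Ψ hΨ P hP hfin (fun i => WS P (s i)) (fun i => ac_meas hP _)
    (fun i p hp => ⟨hp.1, hp.2.1⟩)
    (fun i p hp => by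
      have h1 := hp.2.2.1
      have h2 := hsp i
      linarith)
    (by
      intro i j hij
      refine Set.disjoint_left.2 fun p hpi hpj => ?_
      rcases lt_or_gt_of_ne hij with hij | hij
      · exact ac_disj hS hij ((hsv i) ▸ hpi.2.2.1) ((hsv j) ▸ hpj.2.2.2)
      · exact ac_disj hS hij ((hsv j) ▸ hpj.2.2.1) ((hsv i) ▸ hpi.2.2.2))
    (by
      refine (measure_mono (t := ∅) ?_).trans (by rw [measure_empty]) |>.antisymm (zero_le)
      rintro p ⟨⟨h1, h2, h3⟩, h4⟩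
      obtain ⟨i, h5, h6⟩ := ac_dyadic hS (z := p.1.1 - p.2.1) (by linarith) (hPS _ h1 _ h2)
      rw [← hsv] at h5 h6
      exact h4 (Set.mem_iUnion.2 ⟨i, h1, h2, h5, h6⟩))
    (fun i => ENNReal.ofReal (Dr i)) (fun i => ENNReal.ofReal (s i * (K * δ / κ)))
    (fun i => ENNReal.ofReal_ne_top) (fun i => ENNReal.ofReal_ne_top)
    (by
      intro i A hA
      refine dens2 Ψ hΨ _ (ac_meas hP _) (Dr i) 1 (hDr0 i) one_pos ?_ A hA
      intro a β β' hβ _
      by_cases hi : s i ≤ s0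
      · have hw0 : 0 < c * δ / κ := by positivity
        have hlam : 0 < c * δ * s i := mul_pos (by positivity) (hsp i)
        refine (shell_near Ψ hΨ r M vs hM P hP hPr a (s i) (c * δ / κ) (c * δ * s i) (hsp i) hw0
          hlam ?_ β β' hβ).trans (ENNReal.ofReal_le_ofReal ?_)
        · intro x hx hx' h1 h2 h3
          have h4 := hsum x a
          obtain ⟨σ, hσ, φ1, hφ, hφ'⟩ := hnear x hx (a - x) hx' (by rw [h4]; linarith [hsp i])
            (by rw [h4]; linarith) h3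
          rw [add_sub_cancel, h4] at hφ
          rw [h4] at hφ'
          refine ⟨σ, hσ, fun t1 t2 ht1 ht12 ht2 => ?_⟩
          have hsub : ∀ t ∈ Set.Icc (s i) (2 * s i), t ∈ Set.Icc 0 (2 * (2 * x.1 - a.1)) :=
            fun t ht => ⟨(hsp i).le.trans ht.1, ht.2.trans (by linarith)⟩
          have hder : ∀ t ∈ Set.Icc (s i) (2 * s i),
              HasDerivAt (fun t => σ * M t a) (σ * φ1 t) t :=
            fun t ht => (hφ t (hsub t ht)).const_mul σ
          have := (convex_Icc (s i) (2 * s i)).mul_sub_le_image_sub_of_le_deriv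
            (f := fun t => σ * M t a) (C := c * δ * s i)
            (fun t ht => (hder t ht).continuousAt.continuousWithinAt)
            (fun t ht => (hder t (interior_subset ht)).differentiableAt.differentiableWithinAt)
            (fun t ht => by
              rw [(hder t (interior_subset ht)).deriv]
              have h5 := hφ' t (hsub t (interior_subset ht))
              have h6 : c * δ * s i ≤ c * δ * t :=
                mul_le_mul_of_nonneg_left (interior_subset ht).1 (by positivity)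
              linarith)
            t1 ⟨ht1, ht12.trans ht2⟩ t2 ⟨ht1.trans ht12, ht2⟩ ht12
          linarith
        · rw [hDr1 i hi]
          refine mul_le_mul_of_nonneg_right ?_ (by linarith)
          have e1 : s i / (c * δ / κ) ≤ (Real.sqrt δ)⁻¹ := by
            have e2 : s i / (c * δ / κ) ≤ s0 / (c * δ / κ) :=
              div_le_div_of_nonneg_right hi hw0.le
            refine e2.trans (le_of_eq ?_)
            rw [hs0]
            have e3 : δ = Real.sqrt δ * Real.sqrt δ := (Real.mul_self_sqrt hδ.le).symm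
            have e4 : c * Real.sqrt δ / κ / (c * δ / κ) = Real.sqrt δ / δ := by
              field_simp
            rw [e4]
            nth_rewrite 2 [e3]
            rw [div_mul_eq_div_div, div_self hsδ.ne', one_div]
          have e5 : Real.sqrt (s i / (c * δ * s i)) = (Real.sqrt c)⁻¹ * (Real.sqrt δ)⁻¹ := by
            have : s i / (c * δ * s i) = c⁻¹ * δ⁻¹ := by
              have := (hsp i).ne'
              field_simp
            rw [this, Real.sqrt_mul (by positivity), Real.sqrt_inv, Real.sqrt_inv]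
          rw [e5]
          have e6 : (1 + 4 / Real.sqrt c) * (Real.sqrt δ)⁻¹ =
              (Real.sqrt δ)⁻¹ + 4 * ((Real.sqrt c)⁻¹ * (Real.sqrt δ)⁻¹) := by
            ring
          rw [e6]
          linarith
      · rw [hDr2 i hi]
        refine shell_far Ψ hΨ r M vs hM P hP hPr a (s i) (c * κ ^ 2) (hsp i) (by positivity) ?_
          β β' hβ
        intro x hx hx' h1 h2
        have h4 := hsum x a
        obtain ⟨φ1, φ2, φ3, hφ, h5, h6⟩ := hfar x hx (a - x) hx' (by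
          rw [h4]
          exact (not_le.1 hi).trans h1)
        rw [add_sub_cancel, h4] at hφ
        rw [h4] at h6
        have hsub : ∀ t ∈ Set.Icc 0 (2 * s i), t ∈ Set.Icc 0 (2 * (2 * x.1 - a.1)) :=
          fun t ht => ⟨ht.1, ht.2.trans (by linarith)⟩
        exact ⟨φ1, φ2, φ3, fun t ht => hφ t (hsub t ht), h5, fun t ht => h6 t (hsub t ht)⟩)
    (by
      intro i x
      refine (measure_mono (t := {x' : ℝ × ℝ | x' ∈ P ∧ x.1 - 2 * s i ≤ x'.1 ∧
        x'.1 ≤ x.1 - s i}) ?_).trans ((ac_slab hP _ hsl _ _).trans (le_of_eq ?_))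
      · rintro x' ⟨-, h2, h3, h4⟩
        simp only at h2 h3 h4
        exact ⟨h2, by linarith, by linarith⟩
      · rw [← ENNReal.ofReal_mul (by linarith [hsp i])]
        congr 2
        ring)
    (by
      intro i x'
      refine (measure_mono (t := {x : ℝ × ℝ | x ∈ P ∧ x'.1 + s i ≤ x.1 ∧
        x.1 ≤ x'.1 + 2 * s i}) ?_).trans ((ac_slab hP _ hsl _ _).trans (le_of_eq ?_))
      · rintro x ⟨h1, -, h3, h4⟩
        simp only at h1 h3 h4
        exact ⟨h1, by linarith, by linarith⟩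
      · rw [← ENNReal.ofReal_mul (by linarith [hsp i])]
        congr 2
        ring)
    q hq4 h hh
  refine key.trans (ENNReal.rpow_le_rpow ?_ (by positivity))
  refine mul_le_mul_left ?_ _
  have hKδ : 0 < K * δ / κ := by positivity
  have hX : 0 < (1 + 4 / Real.sqrt c) * (Real.sqrt δ)⁻¹ := by positivity
  have hY : 0 < 50 / (Real.sqrt c * κ) := by positivity
  have hterm : ∀ i, ENNReal.ofReal (Dr i) ^ (2 / q) *
      ENNReal.ofReal (s i * (K * δ / κ)) ^ (1 - 4 / q) ≤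
      ENNReal.ofReal (((1 + 4 / Real.sqrt c) * (Real.sqrt δ)⁻¹) ^ (2 / q) *
        (K * δ / κ) ^ (1 - 4 / q)) *
        (if S / 2 ^ (i + 1) ≤ s0 then ENNReal.ofReal ((S / 2 ^ (i + 1)) ^ (1 - 4 / q)) else 0) +
      ENNReal.ofReal ((50 / (Real.sqrt c * κ)) ^ (2 / q) * (K * δ / κ) ^ (1 - 4 / q)) *
        (if s0 < S / 2 ^ (i + 1) then ENNReal.ofReal ((S / 2 ^ (i + 1)) ^ (-(6 / q - 1)))
          else 0) := by
    intro i
    have hsi := hsp i
    rw [← hsv]
    by_cases hi : s i ≤ s0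
    · rw [if_pos hi, if_neg (not_lt.2 hi), mul_zero, add_zero, hDr1 i hi,
        ENNReal.ofReal_rpow_of_pos hX, ENNReal.ofReal_rpow_of_pos (mul_pos hsi hKδ),
        ← ENNReal.ofReal_mul (by positivity), ← ENNReal.ofReal_mul (by positivity),
        Real.mul_rpow hsi.le hKδ.le]
      refine le_of_eq ?_
      congr 1
      ring
    · rw [if_neg hi, if_pos (not_le.1 hi), mul_zero, zero_add, hDr2 i hi]
      have e1 : 50 / (Real.sqrt (c * κ ^ 2) * s i) = 50 / (Real.sqrt c * κ) * (s i)⁻¹ := by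
        rw [Real.sqrt_mul hc.le, Real.sqrt_sq hκ.le]
        field_simp
      rw [e1, ENNReal.ofReal_rpow_of_pos (mul_pos hY (inv_pos.2 hsi)),
        ENNReal.ofReal_rpow_of_pos (mul_pos hsi hKδ),
        ← ENNReal.ofReal_mul (by positivity), ← ENNReal.ofReal_mul (by positivity),
        Real.mul_rpow hsi.le hKδ.le, Real.mul_rpow hY.le (inv_pos.2 hsi).le]
      refine le_of_eq ?_
      congr 1
      have e2 : (s i) ^ (-(6 / q - 1)) = (s i)⁻¹ ^ (2 / q) * (s i) ^ (1 - 4 / q) := by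
        rw [Real.inv_rpow hsi.le, ← Real.rpow_neg hsi.le, ← Real.rpow_add hsi]
        congr 1
        ring
      rw [e2]
      ring
  have hsumle : ∑' i, ENNReal.ofReal (Dr i) ^ (2 / q) *
      ENNReal.ofReal (s i * (K * δ / κ)) ^ (1 - 4 / q) ≤
      ENNReal.ofReal ((c1 + c2) * δ ^ (3 / 2 - 7 / q) * κ ^ (-(2 * (1 - 4 / q)))) := by
    refine (ENNReal.tsum_le_tsum hterm).trans ?_
    rw [ENNReal.tsum_add, ENNReal.tsum_mul_left, ENNReal.tsum_mul_left]
    refine (add_le_add (mul_le_mul_right (hg1 S s0 hS hs0p) _)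
      (mul_le_mul_right (hg2 S s0 hS hs0p) _)).trans (le_of_eq ?_)
    rw [← ENNReal.ofReal_mul (by positivity), ← ENNReal.ofReal_mul (by positivity),
      ← ENNReal.ofReal_add (by positivity) (by positivity)]
    congr 1
    rw [hs0, ac_small_exp hq hK hc hδ hκ, ac_large_exp hq hK hc hδ hκ, ← hc1, ← hc2]
    ring
  refine (mul_le_mul_right hsumle 2).trans (le_of_eq ?_)
  rw [← ENNReal.ofReal_ofNat, ← ENNReal.ofReal_mul (by norm_num)]
  congr 1
  ring

end Pool.Agent.FlatRes
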