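import Pool.Agent.Lib.MP_40a0b6_an.N2Defs
set_option autoImplicit false
open MeasureTheory
open scoped ENNReal FourierTransform SchwartzMap
namespace Pool.Agent.FlatRes

/-- auxiliary: monotone and one-sided bound -/
theorem alg_pow_diff_aux (u u' X : ℝ) (h0 : 0 ≤ u') (h1 : u' ≤ u) (h2 : u ≤ X) (k : ℕ) :
    0 ≤ u ^ k - u' ^ k ∧ X * (u ^ k - u' ^ k) ≤ (k : ℝ) * X ^ k * (u - u') := by
  have hX : 0 ≤ X := by linarith
  have hu : 0 ≤ u := by linarith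
  induction k with
  | zero => simp
  | succ k ih =>
    obtain ⟨ih1, ih2⟩ := ih
    have hd : 0 ≤ u - u' := by linarith
    have e : u ^ (k + 1) - u' ^ (k + 1) = u * (u ^ k - u' ^ k) + u' ^ k * (u - u') := by ring
    have hp : 0 ≤ u' ^ k := pow_nonneg h0 k
    have hpX : u' ^ k ≤ X ^ k := pow_le_pow_left₀ h0 (by linarith) k
    have hXk : 0 ≤ X ^ k := pow_nonneg hX k
    refine ⟨by rw [e]; positivity, ?_⟩
    rw [e]
    have a1 : X * (u * (u ^ k - u' ^ k)) ≤ X * ((k : ℝ) * X ^ k * (u - u')) := by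
      calc X * (u * (u ^ k - u' ^ k)) = u * (X * (u ^ k - u' ^ k)) := by ring
        _ ≤ u * ((k : ℝ) * X ^ k * (u - u')) := mul_le_mul_of_nonneg_left ih2 hu
        _ ≤ X * ((k : ℝ) * X ^ k * (u - u')) := mul_le_mul_of_nonneg_right h2 (by positivity)
    have a2 : X * (u' ^ k * (u - u')) ≤ X * (X ^ k * (u - u')) :=
      mul_le_mul_of_nonneg_left (mul_le_mul_of_nonneg_right hpX hd) hX
    push_cast
    have e3 : ((k : ℝ) + 1) * X ^ (k + 1) * (u - u') =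
      X * ((k : ℝ) * X ^ k * (u - u')) + X * (X ^ k * (u - u')) := by ring
    rw [e3, mul_add]
    linarith

/-- JOB Alg (5 statements).  Elementary differences of powers, `0 ≤ u' ≤ u ≤ X`. -/
theorem pow_diff (k : ℕ) (u u' X : ℝ) (h0 : 0 ≤ u') (h1 : u' ≤ u) (h2 : u ≤ X) :
    X * |u ^ k - u' ^ k| ≤ (k : ℝ) * X ^ k * (u - u') := by
  obtain ⟨a, b⟩ := alg_pow_diff_aux u u' X h0 h1 h2 k
  rw [abs_of_nonneg a]
  exact b

/-- second difference (Taylor, or induction on `k`) -/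
theorem pow_diff2 (k : ℕ) (u u' X : ℝ) (h0 : 0 ≤ u') (h1 : u' ≤ u) (h2 : u ≤ X) :
    X ^ 2 * |u ^ k + u' ^ k - 2 * ((u + u') / 2) ^ k| ≤ (k : ℝ) ^ 2 * X ^ k * (u - u') ^ 2 := by
  have hX : 0 ≤ X := by linarith
  have hd : 0 ≤ u - u' := by linarith
  induction k with
  | zero => norm_num
  | succ k ih =>
    have e : u ^ (k + 1) + u' ^ (k + 1) - 2 * ((u + u') / 2) ^ (k + 1) =
        ((u + u') / 2) * (u ^ k + u' ^ k - 2 * ((u + u') / 2) ^ k) +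
          ((u - u') / 2) * (u ^ k - u' ^ k) := by ring
    have hb := pow_diff k u u' X h0 h1 h2
    have hm : 0 ≤ (u + u') / 2 := by linarith
    have hmX : (u + u') / 2 ≤ X := by linarith
    have hXk : 0 ≤ X ^ k := pow_nonneg hX k
    rw [e]
    have t1 : |((u + u') / 2) * (u ^ k + u' ^ k - 2 * ((u + u') / 2) ^ k) +
          ((u - u') / 2) * (u ^ k - u' ^ k)| ≤
        X * |u ^ k + u' ^ k - 2 * ((u + u') / 2) ^ k| + (u - u') / 2 * |u ^ k - u' ^ k| := by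
      refine (abs_add_le _ _).trans ?_
      rw [abs_mul, abs_mul, abs_of_nonneg hm, abs_of_nonneg (by linarith : 0 ≤ (u - u') / 2)]
      exact add_le_add (mul_le_mul_of_nonneg_right hmX (abs_nonneg _)) le_rfl
    calc X ^ 2 * _ ≤ X ^ 2 * (X * |u ^ k + u' ^ k - 2 * ((u + u') / 2) ^ k| +
          (u - u') / 2 * |u ^ k - u' ^ k|) := mul_le_mul_of_nonneg_left t1 (by positivity)
      _ = X * (X ^ 2 * |u ^ k + u' ^ k - 2 * ((u + u') / 2) ^ k|) +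
          (u - u') / 2 * X * (X * |u ^ k - u' ^ k|) := by ring
      _ ≤ X * ((k : ℝ) ^ 2 * X ^ k * (u - u') ^ 2) +
          (u - u') / 2 * X * ((k : ℝ) * X ^ k * (u - u')) :=
        add_le_add (mul_le_mul_of_nonneg_left ih hX) (mul_le_mul_of_nonneg_left hb (by positivity))
      _ = ((k : ℝ) ^ 2 + k / 2) * (X * X ^ k * (u - u') ^ 2) := by ring
      _ ≤ ((k : ℝ) + 1) ^ 2 * (X * X ^ k * (u - u') ^ 2) := by
        refine mul_le_mul_of_nonneg_right ?_ (by positivity)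
        have : (0 : ℝ) ≤ k := Nat.cast_nonneg k
        nlinarith
      _ = _ := by push_cast; ring

/-- second difference of `u^{m-2}(v-u^m)`, `|v| ≤ C1 X^m`, `|v'| ≤ C1 X^m`:
with `ū,v̄` the means, `u^{k}v+u'^{k}v'-2ū^kv̄ = v̄(u^k+u'^k-2ū^k) + (v-v')(u^k-u'^k)/2`. -/
theorem lam0_diff2 (m : ℕ) (hm : 3 ≤ m) (u u' v v' X C1 : ℝ) (h0 : 0 ≤ u') (h1 : u' ≤ u) (h2 : u ≤ X)
    (hX : 0 < X) (hC : 0 ≤ C1) (hv : |v| ≤ C1 * X ^ m) (hv' : |v'| ≤ C1 * X ^ m) :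
    |u ^ (m - 2) * (v - u ^ m) + u' ^ (m - 2) * (v' - u' ^ m) -
      2 * (((u + u') / 2) ^ (m - 2) * ((v + v') / 2 - ((u + u') / 2) ^ m))| ≤
    ((C1 + 4) * (m : ℝ) ^ 2) * (X ^ (m - 2) * (u - u')) ^ 2 + (m : ℝ) / 2 * X ^ (m - 3) * (u - u') * |v - v'| := by
  obtain ⟨k, rfl⟩ : ∃ k, m = k + 3 := ⟨m - 3, by omega⟩
  have e1 : k + 3 - 2 = k + 1 := by omega
  have e2 : k + 3 - 3 = k := by omega
  rw [e1, e2]
  have hX0 : 0 ≤ X := hX.le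
  have hd : 0 ≤ u - u' := by linarith
  have hS1 := pow_diff2 (k + 1) u u' X h0 h1 h2
  have hS2 := pow_diff2 (2 * (k + 2)) u u' X h0 h1 h2
  have hD := pow_diff (k + 1) u u' X h0 h1 h2
  set S1 := |u ^ (k + 1) + u' ^ (k + 1) - 2 * ((u + u') / 2) ^ (k + 1)| with hS1d
  set S2 := |u ^ (2 * (k + 2)) + u' ^ (2 * (k + 2)) - 2 * ((u + u') / 2) ^ (2 * (k + 2))| with hS2d
  set Dk := |u ^ (k + 1) - u' ^ (k + 1)| with hDd
  have e : u ^ (k + 1) * (v - u ^ (k + 3)) + u' ^ (k + 1) * (v' - u' ^ (k + 3)) -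
      2 * (((u + u') / 2) ^ (k + 1) * ((v + v') / 2 - ((u + u') / 2) ^ (k + 3))) =
      (v + v') / 2 * (u ^ (k + 1) + u' ^ (k + 1) - 2 * ((u + u') / 2) ^ (k + 1)) +
      (v - v') / 2 * (u ^ (k + 1) - u' ^ (k + 1)) -
      (u ^ (2 * (k + 2)) + u' ^ (2 * (k + 2)) - 2 * ((u + u') / 2) ^ (2 * (k + 2))) := by
    generalize (u + u') / 2 = w
    ring
  rw [e]
  have hvv : |(v + v') / 2| ≤ C1 * X ^ (k + 3) := by
    rw [abs_le] at *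
    constructor <;> linarith [hv.1, hv.2, hv'.1, hv'.2]
  have b1 : |(v + v') / 2 * (u ^ (k + 1) + u' ^ (k + 1) - 2 * ((u + u') / 2) ^ (k + 1)) +
      (v - v') / 2 * (u ^ (k + 1) - u' ^ (k + 1)) -
      (u ^ (2 * (k + 2)) + u' ^ (2 * (k + 2)) - 2 * ((u + u') / 2) ^ (2 * (k + 2)))| ≤
      C1 * X ^ (k + 3) * S1 + |v - v'| / 2 * Dk + S2 := by
    refine (abs_sub _ _).trans (add_le_add ((abs_add_le _ _).trans (add_le_add ?_ ?_)) le_rfl)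
    · rw [abs_mul]
      exact mul_le_mul_of_nonneg_right hvv (abs_nonneg _)
    · rw [abs_mul, abs_div, abs_of_pos (by norm_num : (0 : ℝ) < 2)]
  refine b1.trans ?_
  have c1 : C1 * X ^ (k + 3) * S1 ≤ C1 * ((k : ℝ) + 1) ^ 2 * (X ^ (k + 1) * (u - u')) ^ 2 := by
    calc C1 * X ^ (k + 3) * S1 = C1 * X ^ (k + 1) * (X ^ 2 * S1) := by ring
      _ ≤ C1 * X ^ (k + 1) * (((k + 1 : ℕ) : ℝ) ^ 2 * X ^ (k + 1) * (u - u') ^ 2) :=
        mul_le_mul_of_nonneg_left hS1 (by positivity)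
      _ = _ := by push_cast; ring
  have c2 : Dk ≤ ((k : ℝ) + 1) * X ^ k * (u - u') := by
    have : X * Dk ≤ X * (((k : ℝ) + 1) * X ^ k * (u - u')) := by
      refine hD.trans (le_of_eq ?_)
      push_cast
      ring
    exact le_of_mul_le_mul_left this hX
  have c3 : S2 ≤ (2 * ((k : ℝ) + 2)) ^ 2 * (X ^ (k + 1) * (u - u')) ^ 2 := by
    have : X ^ 2 * S2 ≤ X ^ 2 * ((2 * ((k : ℝ) + 2)) ^ 2 * (X ^ (k + 1) * (u - u')) ^ 2) := by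
      refine hS2.trans (le_of_eq ?_)
      push_cast
      ring
    exact le_of_mul_le_mul_left this (by positivity)
  have c4 : |v - v'| / 2 * Dk ≤ |v - v'| / 2 * (((k : ℝ) + 1) * X ^ k * (u - u')) :=
    mul_le_mul_of_nonneg_left c2 (by positivity)
  have hQ : 0 ≤ (X ^ (k + 1) * (u - u')) ^ 2 := by positivity
  have hk : (0 : ℝ) ≤ k := Nat.cast_nonneg k
  have c5 : C1 * ((k : ℝ) + 1) ^ 2 * (X ^ (k + 1) * (u - u')) ^ 2 +
      (2 * ((k : ℝ) + 2)) ^ 2 * (X ^ (k + 1) * (u - u')) ^ 2 ≤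
      ((C1 + 4) * ((k + 3 : ℕ) : ℝ) ^ 2) * (X ^ (k + 1) * (u - u')) ^ 2 := by
    rw [← add_mul]
    refine mul_le_mul_of_nonneg_right ?_ hQ
    push_cast
    have f1 : ((k : ℝ) + 1) ^ 2 ≤ (k + 3) ^ 2 := by nlinarith
    have f2 : (2 * ((k : ℝ) + 2)) ^ 2 ≤ 4 * (k + 3) ^ 2 := by nlinarith
    calc C1 * ((k : ℝ) + 1) ^ 2 + (2 * ((k : ℝ) + 2)) ^ 2 ≤
        C1 * ((k : ℝ) + 3) ^ 2 + 4 * (k + 3) ^ 2 :=
          add_le_add (mul_le_mul_of_nonneg_left f1 hC) f2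
      _ = _ := by ring
  have c6 : |v - v'| / 2 * (((k : ℝ) + 1) * X ^ k * (u - u')) ≤
      ((k + 3 : ℕ) : ℝ) / 2 * X ^ k * (u - u') * |v - v'| := by
    have hR : 0 ≤ X ^ k * (u - u') * |v - v'| := by positivity
    push_cast
    calc |v - v'| / 2 * (((k : ℝ) + 1) * X ^ k * (u - u'))
        = ((k : ℝ) + 1) * (X ^ k * (u - u') * |v - v'|) / 2 := by ring
      _ ≤ ((k : ℝ) + 3) * (X ^ k * (u - u') * |v - v'|) / 2 := by
          have := mul_le_mul_of_nonneg_right (by linarith : ((k : ℝ) + 1) ≤ k + 3) hR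
          linarith
      _ = _ := by ring
  linarith

/-- `|v-v'|` from the difference of `∂₂Ψ`: `2(v-v') = Δ + 2(u^m-u'^m) - (difference of the flat part)`. -/
theorem dv_bound (m : ℕ) (hm : 2 ≤ m) (Ψ : ℝ × ℝ → ℝ) (r : ℝ) (E : ℝ × (ℝ × ℝ) → ℝ) (J : ℕ) (ρ e0 : ℝ)
    (hE : EData m Ψ r E J ρ e0) (he : 0 ≤ e0) (he1 : e0 ≤ 1) (x x' : ℝ × ℝ) (hx : x ∈ box r) (hx' : x' ∈ box r)
    (hρ : ‖x‖ ≤ ρ) (hρ' : ‖x'‖ ≤ ρ) (X : ℝ) (hX : 0 < X) (h0 : 0 ≤ x'.1) (h1 : x'.1 ≤ x.1) (h2 : x.1 ≤ X) :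
    |x.2 - x'.2| ≤ |D1v Ψ x - D1v Ψ x'| + (2 * (m : ℝ) * X ^ (m - 1) + e0) * (x.1 - x'.1) := by
  have hX0 : 0 ≤ X := hX.le
  have hd : 0 ≤ x.1 - x'.1 := by linarith
  have hP := hE.dpsi x hx x' hx' hρ hρ'
  have hD := pow_diff m x.1 x'.1 X h0 h1 h2
  obtain ⟨k, rfl⟩ : ∃ k, m = k + 2 := ⟨m - 2, by omega⟩
  have e1 : k + 2 - 1 = k + 1 := by omega
  rw [e1]
  have c2 : |x.1 ^ (k + 2) - x'.1 ^ (k + 2)| ≤ ((k + 2 : ℕ) : ℝ) * X ^ (k + 1) * (x.1 - x'.1) := by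
    have : X * |x.1 ^ (k + 2) - x'.1 ^ (k + 2)| ≤
        X * (((k + 2 : ℕ) : ℝ) * X ^ (k + 1) * (x.1 - x'.1)) := by
      refine hD.trans (le_of_eq ?_)
      ring
    exact le_of_mul_le_mul_left this hX
  rw [abs_of_nonneg hd] at hP
  have key : 2 * |x.2 - x'.2| ≤ |D1v Ψ x - D1v Ψ x'| + 2 * |x.1 ^ (k + 2) - x'.1 ^ (k + 2)| +
      e0 * ((x.1 - x'.1) + |x.2 - x'.2|) := by
    have e : 2 * (x.2 - x'.2) = (D1v Ψ x - D1v Ψ x') + 2 * (x.1 ^ (k + 2) - x'.1 ^ (k + 2)) -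
        ((D1v Ψ x - 2 * (x.2 - x.1 ^ (k + 2))) - (D1v Ψ x' - 2 * (x'.2 - x'.1 ^ (k + 2)))) := by
      ring
    have : |2 * (x.2 - x'.2)| ≤ |D1v Ψ x - D1v Ψ x'| + 2 * |x.1 ^ (k + 2) - x'.1 ^ (k + 2)| +
      e0 * ((x.1 - x'.1) + |x.2 - x'.2|) := by
      rw [e]
      refine (abs_sub _ _).trans (add_le_add ((abs_add_le _ _).trans (add_le_add le_rfl ?_)) hP)
      rw [abs_mul, abs_of_pos (by norm_num : (0 : ℝ) < 2)]
    rwa [abs_mul, abs_of_pos (by norm_num : (0 : ℝ) < 2)] at this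
  have h3 : e0 * |x.2 - x'.2| ≤ |x.2 - x'.2| := by
    have := mul_le_mul_of_nonneg_right he1 (abs_nonneg (x.2 - x'.2))
    linarith
  nlinarith

/-- differences of `lamA` in the second variable: slices of the pieces are short (`c_m u^{m-2}` is the unperturbed slope). -/
theorem lamA_slope (m : ℕ) (hm : 2 ≤ m) (Ψ : ℝ × ℝ → ℝ) (r : ℝ) (E : ℝ × (ℝ × ℝ) → ℝ) (J : ℕ) (ρ e0 : ℝ)
    (hJ : 2 ≤ J) (hE : EData m Ψ r E J ρ e0) (u v1 v2 Y : ℝ) (hx : (u, v1) ∈ box r) (hx' : (u, v2) ∈ box r)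
    (hρ : ‖(u, v1)‖ ≤ ρ) (hρ' : ‖(u, v2)‖ ≤ ρ) (hY : 0 < Y) (hYu : Y ≤ u) (he : e0 ≤ Y ^ (m - 2)) :
    Y ^ (m - 2) * |v1 - v2| ≤ |lamA m E (u, v1) - lamA m E (u, v2)| := by
  have hL := hE.lip (u, v1) hx (u, v2) hx' hρ hρ' 2 hJ
  simp only [sub_self, abs_zero, zero_add] at hL
  have hu : 0 < u := lt_of_lt_of_le hY hYu
  have hpow : Y ^ (m - 2) ≤ u ^ (m - 2) := pow_le_pow_left₀ hY.le hYu _
  have hYp : 0 < Y ^ (m - 2) := pow_pos hY _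
  have hm' : (2 : ℝ) ≤ m := by exact_mod_cast hm
  have hmm : (2 : ℝ) ≤ (m : ℝ) * (m - 1) := by nlinarith
  have e : lamA m E (u, v1) - lamA m E (u, v2) =
      -((m : ℝ) * (m - 1)) * u ^ (m - 2) * (v1 - v2) + (eJ E 2 (u, v1) - eJ E 2 (u, v2)) := by
    simp only [lamA]
    ring
  rw [e]
  have h1 : |-((m : ℝ) * (m - 1)) * u ^ (m - 2) * (v1 - v2)| =
      ((m : ℝ) * (m - 1)) * u ^ (m - 2) * |v1 - v2| := by
    rw [abs_mul, abs_mul, abs_neg, abs_of_nonneg (by linarith : 0 ≤ (m : ℝ) * (m - 1)),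
      abs_of_nonneg (by positivity)]
  have h2 : |-((m : ℝ) * (m - 1)) * u ^ (m - 2) * (v1 - v2)| - |eJ E 2 (u, v1) - eJ E 2 (u, v2)| ≤
      |-((m : ℝ) * (m - 1)) * u ^ (m - 2) * (v1 - v2) + (eJ E 2 (u, v1) - eJ E 2 (u, v2))| := by
    have := abs_sub_abs_le_abs_sub (-((m : ℝ) * (m - 1)) * u ^ (m - 2) * (v1 - v2))
      (-(eJ E 2 (u, v1) - eJ E 2 (u, v2)))
    rwa [abs_neg, sub_neg_eq_add] at this
  rw [h1] at h2
  have h3 : 2 * Y ^ (m - 2) * |v1 - v2| ≤ ((m : ℝ) * (m - 1)) * u ^ (m - 2) * |v1 - v2| := by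
    refine mul_le_mul_of_nonneg_right ?_ (abs_nonneg _)
    exact mul_le_mul hmm hpow hYp.le (by linarith)
  have h4 : e0 * |v1 - v2| ≤ Y ^ (m - 2) * |v1 - v2| :=
    mul_le_mul_of_nonneg_right he (abs_nonneg _)
  linarith

end Pool.Agent.FlatRes
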