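import Pool.Agent.Lib.MP_40a0b6_an.N2MDer
import Pool.Agent.Lib.MP_40a0b6_an.N2Alg
set_option autoImplicit false
open MeasureTheory
open scoped ENNReal FourierTransform SchwartzMap
namespace Pool.Agent.FlatRes

theorem acfar_contDiffOn {f : ℝ → ℝ} {s : Set ℝ} (hs : IsOpen s)
    (hf : ContDiffOn ℝ (⊤ : ℕ∞) f s) (k : ℕ) : ContDiffOn ℝ (⊤ : ℕ∞) (iteratedDeriv k f) s := by
  induction k with
  | zero => rwa [iteratedDeriv_zero]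
  | succ k ih =>
    rw [iteratedDeriv_succ]
    exact ih.deriv_of_isOpen hs (by simp)

theorem acfar_hasDeriv {f : ℝ → ℝ} {s : Set ℝ} (hs : IsOpen s)
    (hf : ContDiffOn ℝ (⊤ : ℕ∞) f s) (k : ℕ) {t : ℝ} (ht : t ∈ s) :
    HasDerivAt (iteratedDeriv k f) (iteratedDeriv (k + 1) f t) t := by
  rw [iteratedDeriv_succ]
  exact (((acfar_contDiffOn hs hf k).contDiffAt (hs.mem_nhds ht)).differentiableAt
    (by simp)).hasDerivAt

theorem acfar_m0_three (m : ℕ) (a : ℝ × ℝ) (t : ℝ) :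
    iteratedDeriv 3 (fun z => M0 m z a) t =
      3 * Gg m 1 a.1 t * Gg m 2 a.1 t - (a.2 - Gg m 0 a.1 t) * Gg m 3 a.1 t := by
  have e1 : deriv (fun z => M0 m z a) = fun z => -(a.2 - Gg m 0 a.1 z) * Gg m 1 a.1 z :=
    funext fun z => (m0_d1 m a z).deriv
  have e2 : deriv (fun z => -(a.2 - Gg m 0 a.1 z) * Gg m 1 a.1 z) =
      fun z => Gg m 1 a.1 z ^ 2 - (a.2 - Gg m 0 a.1 z) * Gg m 2 a.1 z :=
    funext fun z => (m0_d2 m a z).deriv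
  have e3 : deriv (fun z => Gg m 1 a.1 z ^ 2 - (a.2 - Gg m 0 a.1 z) * Gg m 2 a.1 z) =
      fun z => 3 * Gg m 1 a.1 z * Gg m 2 a.1 z - (a.2 - Gg m 0 a.1 z) * Gg m 3 a.1 z :=
    funext fun z => (m0_d3 m a z).deriv
  rw [show (3 : ℕ) = 0 + 1 + 1 + 1 from rfl, iteratedDeriv_succ, iteratedDeriv_succ,
    iteratedDeriv_succ, iteratedDeriv_zero, e1, e2, e3]

/-- the third derivative of the flat part -/
theorem acfar_e_three (m : ℕ) (Ψ : ℝ × ℝ → ℝ) (r : ℝ) (hr : 0 < r) (E : ℝ × (ℝ × ℝ) → ℝ)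
    (ρ e0 : ℝ) (hE : EData m Ψ r E 4 ρ e0) (a : ℝ × ℝ) (h1 : |a.1| ≤ 2 * r) (h2 : |a.2| ≤ 2 * r)
    (h3 : |a.1| ≤ 2 * ρ) (h4 : |a.2| ≤ 2 * ρ) (t : ℝ) (ht : 0 ≤ t) (htr : t < 4 * r)
    (htρ : t ≤ 2 * ρ) : |iteratedDeriv 3 (fun t => E (t, a)) t| ≤ e0 * t := by
  have hd : ∀ s ∈ Set.Icc 0 t, HasDerivWithinAt (iteratedDeriv 3 (fun t => E (t, a)))
      (iteratedDeriv (3 + 1) (fun t => E (t, a)) s) (Set.Icc 0 t) s := by
    intro s hs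
    exact (acfar_hasDeriv isOpen_Ioo (hE.smooth a h1 h2) 3
      ⟨by linarith [hs.1], by linarith [hs.2]⟩).hasDerivWithinAt
  have hb : ∀ s ∈ Set.Ico 0 t, ‖iteratedDeriv (3 + 1) (fun t => E (t, a)) s‖ ≤ e0 := by
    intro s hs
    rw [Real.norm_eq_abs]
    have hs' : |s| = s := abs_of_nonneg hs.1
    exact hE.bd a s h1 h2 (by rw [hs']; linarith [hs.2]) (by rw [hs']; linarith [hs.2]) h3 h4
      4 le_rfl
  have h := norm_image_sub_le_of_norm_deriv_le_segment' hd hb t ⟨ht, le_rfl⟩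
  rw [hE.odd3 a h1 h2, sub_zero, sub_zero, Real.norm_eq_abs] at h
  exact h

/-- `G₀` is nearly constant -/
theorem acfar_g_diff (m : ℕ) (hm : 3 ≤ m) (a1 z t X : ℝ) (hz : 0 ≤ z) (ht : 0 ≤ t)
    (htz : t ≤ 2 * z) (h1 : 0 ≤ (a1 - 2 * z) / 2) (h2 : (a1 + 2 * z) / 2 ≤ 2 * X) :
    |Gg m 0 a1 t - Gg m 0 a1 z| ≤ (m : ℝ) * (m - 1) * (2 * X) ^ (m - 2) * z ^ 2 := by
  have hm1 : (1 : ℝ) ≤ m := by
    have : 1 ≤ m := by omega
    exact_mod_cast this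
  have hX : 0 ≤ X := by linarith
  set K : ℝ := (m : ℝ) * (m - 1) / 2 * (2 * X) ^ (m - 2) with hK
  have hK0 : 0 ≤ K := by
    rw [hK]
    have : 0 ≤ (m : ℝ) - 1 := by linarith
    positivity
  have hb : ∀ s ∈ Set.Icc 0 (2 * z), ‖Gg m 1 a1 s‖ ≤ K * (2 * z) := by
    intro s hs
    rw [Real.norm_eq_abs]
    have h3 := gg1_upper m (by omega) a1 s (2 * X) hs.1 (by linarith [hs.2])
      (by linarith [hs.2])
    exact h3.trans (mul_le_mul_of_nonneg_left hs.2 hK0)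
  have h4 := Convex.norm_image_sub_le_of_norm_hasDerivWithin_le (f := Gg m 0 a1)
    (f' := fun s => Gg m 1 a1 s) (s := Set.Icc 0 (2 * z)) (C := K * (2 * z))
    (fun s _ => (gg_deriv m 0 a1 s).hasDerivWithinAt) hb (convex_Icc _ _)
    (x := z) (y := t) ⟨hz, by linarith⟩ ⟨ht, htz⟩
  rw [Real.norm_eq_abs, Real.norm_eq_abs] at h4
  have h5 : |t - z| ≤ z := by rw [abs_le]; constructor <;> linarith
  calc |Gg m 0 a1 t - Gg m 0 a1 z| ≤ K * (2 * z) * |t - z| := h4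
    _ ≤ K * (2 * z) * z := mul_le_mul_of_nonneg_left h5 (by positivity)
    _ = (m : ℝ) * (m - 1) * (2 * X) ^ (m - 2) * z ^ 2 := by rw [hK]; ring

/-- bound for the distance of a point of the piece from the curve -/
theorem acfar_dist (m : ℕ) (hm : 3 ≤ m) (E : ℝ × (ℝ × ℝ) → ℝ) (X τ c ε δ : ℝ) (hc : 0 < c)
    (hX : 0 < X) (hX1 : X ≤ 1) (hε : 0 ≤ ε) (hδ : c ^ 2 * δ ≤ τ ^ 2 * (X ^ (m - 2)) ^ 2 * X ^ 2)
    (x : ℝ × ℝ) (hx : X / 2 ≤ x.1) (hl : |lamA m E x| ≤ δ) (he : |eJ E 2 x| ≤ ε * X ^ (2 * m)) :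
    |x.2 - x.1 ^ m| ≤ 2 ^ m * (τ ^ 2 / c ^ 2 + ε) * X ^ m := by
  have hm3 : (3 : ℝ) ≤ m := by exact_mod_cast hm
  have hcm : (1 : ℝ) ≤ (m : ℝ) * (m - 1) := by nlinarith
  have hx0 : 0 ≤ x.1 := by linarith
  have h1 : (X / 2) ^ (m - 2) ≤ x.1 ^ (m - 2) := pow_le_pow_left₀ (by linarith) hx _
  have hκ : 0 < X ^ (m - 2) := pow_pos hX _
  have h2 : (m : ℝ) * (m - 1) * (x.1 ^ (m - 2) * |x.2 - x.1 ^ m|) ≤ δ + ε * X ^ (2 * m) := by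
    have e : (m : ℝ) * (m - 1) * (x.1 ^ (m - 2) * |x.2 - x.1 ^ m|) =
        |eJ E 2 x - lamA m E x| := by
      have : eJ E 2 x - lamA m E x = (m : ℝ) * (m - 1) * (x.1 ^ (m - 2) * (x.2 - x.1 ^ m)) := by
        rw [lamA]; ring
      rw [this, abs_mul ((m : ℝ) * (m - 1)), abs_mul (x.1 ^ (m - 2)),
        abs_of_nonneg (by linarith : (0 : ℝ) ≤ (m : ℝ) * (m - 1)),
        abs_of_nonneg (pow_nonneg hx0 _)]
    rw [e]
    have := abs_sub (eJ E 2 x) (lamA m E x)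
    linarith
  have h3 : (X / 2) ^ (m - 2) * |x.2 - x.1 ^ m| ≤ δ + ε * X ^ (2 * m) := by
    have h4 : (X / 2) ^ (m - 2) * |x.2 - x.1 ^ m| ≤ x.1 ^ (m - 2) * |x.2 - x.1 ^ m| :=
      mul_le_mul_of_nonneg_right h1 (abs_nonneg _)
    have h5 : 0 ≤ x.1 ^ (m - 2) * |x.2 - x.1 ^ m| := by positivity
    exact h4.trans ((le_mul_of_one_le_left h5 hcm).trans h2)
  have e1 : X ^ m = X ^ (m - 2) * X ^ 2 := by rw [← pow_add]; congr 1; omega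
  have e2 : X ^ (2 * m) = (X ^ (m - 2)) ^ 2 * X ^ 2 * X ^ 2 := by
    rw [← pow_mul, ← pow_add, ← pow_add]; congr 1; omega
  have e3 : (2 : ℝ) ^ m = 2 ^ (m - 2) * 4 := by
    have : (2 : ℝ) ^ m = 2 ^ (m - 2 + 2) := by congr 1; omega
    rw [this, pow_add]; norm_num
  have hc2 : 0 < c ^ 2 := by positivity
  have h6 : δ ≤ τ ^ 2 / c ^ 2 * ((X ^ (m - 2)) ^ 2 * X ^ 2) := by
    rw [div_mul_eq_mul_div, le_div_iff₀ hc2]
    linarith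
  have h7 : ε * X ^ (2 * m) ≤ ε * ((X ^ (m - 2)) ^ 2 * X ^ 2) := by
    rw [e2]
    have h8 : X ^ 2 ≤ 1 := by nlinarith
    have h9 : 0 ≤ (X ^ (m - 2)) ^ 2 * X ^ 2 := by positivity
    exact mul_le_mul_of_nonneg_left (mul_le_of_le_one_right h9 h8) hε
  have h10 : X ^ (m - 2) * |x.2 - x.1 ^ m| ≤
      2 ^ (m - 2) * ((τ ^ 2 / c ^ 2 + ε) * ((X ^ (m - 2)) ^ 2 * X ^ 2)) := by
    rw [div_pow, div_mul_eq_mul_div, div_le_iff₀ (by positivity)] at h3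
    have h11 : 0 < (2 : ℝ) ^ (m - 2) := by positivity
    calc X ^ (m - 2) * |x.2 - x.1 ^ m| ≤ (δ + ε * X ^ (2 * m)) * 2 ^ (m - 2) := h3
      _ ≤ ((τ ^ 2 / c ^ 2 + ε) * ((X ^ (m - 2)) ^ 2 * X ^ 2)) * 2 ^ (m - 2) := by
        apply mul_le_mul_of_nonneg_right _ h11.le
        linarith
      _ = _ := by ring
  have h12 : X ^ (m - 2) * |x.2 - x.1 ^ m| ≤
      X ^ (m - 2) * (2 ^ m * (τ ^ 2 / c ^ 2 + ε) * X ^ m) := by
    refine h10.trans ?_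
    rw [e1, e3]
    have h13 : 0 ≤ 2 ^ (m - 2) * ((τ ^ 2 / c ^ 2 + ε) * ((X ^ (m - 2)) ^ 2 * X ^ 2)) := by
      positivity
    linarith
  exact le_of_mul_le_mul_left h12 hκ

/-- JOB ACFar.  The far condition for the curvature pieces, `m ≥ 3`.

Proof (`κ = X^{m-2}`, `z = x₁-x₁' < (1-ϱ)X`, `c_m = m(m-1)`).  From `c√δ/κ < z < (1-ϱ)X`: `δ < ((1-ϱ)/c)²X^{2m-2}`.
`c_m x₁^{m-2}|x₂-x₁^m| ≤ |lamA x| + |eJ E 2 x| ≤ δ + εX^{2m}`, `x₁ ≥ X/2`: `|x₂-x₁^m| ≤ 2^{m}(((1-ϱ)/c)²+ε)X^m`, same for `x'`; the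
sum is `a₂ - G₀(z)` (`Gg m 0 a₁ z = x₁^m+x₁'^m`).  For `t ∈ [0,2z]` the points `(a₁±t)/2` are in `[X/2, 2X]`, and
`|G₀(t)-G₀(z)| ≤ sup|G₁|·|t-z| ≤ C_m(1-ϱ)²X^m` (`gg1_upper`, mean value).  So `|a₂-G₀(t)| ≤ η X^m` with `η` as small as we like.
`M0''' = 3G₁G₂-(a₂-G₀)G₃ ≥ (3/4)c_m²(X/2)^{2m-4}t - C_m η X^{2m-4}t` (`gg1_lower`, `gg2_lower`, `gg3_bound`), and
`|∂_t³E(t,a)| ≤ t·sup|∂_t⁴E| ≤ εX^{2m}t` (`odd3`, `bd`).  So `φ''' ≥ (1/2)c_m²(X/2)^{2m-4}t ≥ cκ²t`. -/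
theorem ac_far (m : ℕ) (hm : 3 ≤ m) (c : ℝ) (hc : 0 < c)
    (hc6 : c ≤ ((m : ℝ) * (m - 1)) ^ 2 * (1 / 2) ^ (2 * m - 2)) :
    ∃ ϱ : ℝ, 3 / 4 ≤ ϱ ∧ ϱ < 1 ∧ ∃ ε : ℝ, 0 < ε ∧
    ∀ (Ψ : ℝ × ℝ → ℝ) (r : ℝ) (E : ℝ × (ℝ × ℝ) → ℝ) (X : ℝ), 0 < r → 0 < X → X ≤ 1 →
    EData m Ψ r E 4 X (ε * X ^ (2 * m)) → ∀ δ : ℝ, 0 < δ →
    ∀ x ∈ box r, ∀ x' ∈ box r, ϱ * X < x'.1 → x'.1 < x.1 → x.1 ≤ X → ‖x‖ ≤ X → ‖x'‖ ≤ X →
    |lamA m E x| ≤ δ → |lamA m E x'| ≤ δ → c * Real.sqrt δ / X ^ (m - 2) < x.1 - x'.1 →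
    FarProp (fun t => MM m E t (x + x')) (2 * (x.1 - x'.1)) (c * (X ^ (m - 2)) ^ 2) := by
  have hm3 : (3 : ℝ) ≤ m := by exact_mod_cast hm
  obtain ⟨cm, hcm⟩ : ∃ cm : ℝ, cm = (m : ℝ) * (m - 1) := ⟨_, rfl⟩
  have hcm6 : (6 : ℝ) ≤ cm := by rw [hcm]; nlinarith
  obtain ⟨L, hL⟩ : ∃ L : ℝ, L = cm ^ 2 * (1 / 2) ^ (2 * m - 2) := ⟨_, rfl⟩
  have hL0 : 0 < L := by rw [hL]; positivity
  have hcL : c ≤ L := by rw [hL, hcm]; exact hc6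
  obtain ⟨B, hB⟩ : ∃ B : ℝ, B = (m : ℝ) ^ 4 * 2 ^ (m - 2) / 4 := ⟨_, rfl⟩
  have hB0 : 0 < B := by rw [hB]; positivity
  obtain ⟨K1, hK1⟩ : ∃ K1 : ℝ, K1 = (2 * 2 ^ m / c ^ 2 + cm * 2 ^ (m - 2)) * B := ⟨_, rfl⟩
  have hK10 : 0 < K1 := by rw [hK1]; positivity
  obtain ⟨K2, hK2⟩ : ∃ K2 : ℝ, K2 = 2 * 2 ^ m * B + 1 := ⟨_, rfl⟩
  have hK20 : 0 < K2 := by rw [hK2]; positivity
  obtain ⟨τ, hτ⟩ : ∃ τ : ℝ, τ = min (1 / 4) (L / K1) := ⟨_, rfl⟩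
  have hτ0 : 0 < τ := by rw [hτ]; exact lt_min (by norm_num) (by positivity)
  have hτ1 : τ ≤ 1 / 4 := by rw [hτ]; exact min_le_left _ _
  have hτ2 : K1 * τ ^ 2 ≤ L := by
    have h1 : τ ≤ L / K1 := by rw [hτ]; exact min_le_right _ _
    have h2 : τ * K1 ≤ L := (le_div_iff₀ hK10).1 h1
    calc K1 * τ ^ 2 = τ * K1 * τ := by ring
      _ ≤ L * τ := mul_le_mul_of_nonneg_right h2 hτ0.le
      _ ≤ L * 1 := mul_le_mul_of_nonneg_left (by linarith) hL0.le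
      _ = L := mul_one _
  refine ⟨1 - τ, by linarith, by linarith, L / K2, by positivity, ?_⟩
  intro Ψ r E X hr hX hX1 hE δ hδ x hx x' hx' hxX' hxx hxX hn hn' hl hl' hfar
  obtain ⟨ε, hε⟩ : ∃ ε : ℝ, ε = L / K2 := ⟨_, rfl⟩
  rw [← hε] at hE
  have hε0 : 0 < ε := by rw [hε]; positivity
  have hε2 : K2 * ε = L := by rw [hε]; field_simp
  obtain ⟨z, hz⟩ : ∃ z : ℝ, z = x.1 - x'.1 := ⟨_, rfl⟩
  rw [← hz] at hfar ⊢
  have hz0 : 0 < z := by rw [hz]; linarith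
  have hzX : z < τ * X := by rw [hz]; linarith
  have hX34 : 3 / 4 * X ≤ (1 - τ) * X := mul_le_mul_of_nonneg_right (by linarith) hX.le
  have hzX4 : z ≤ 1 / 4 * X := hzX.le.trans (mul_le_mul_of_nonneg_right hτ1 hX.le)
  -- the box
  have bx1 : -r < x.1 ∧ x.1 < r := hx.1
  have bx2 : -r < x.2 ∧ x.2 < r := hx.2
  have bx1' : -r < x'.1 ∧ x'.1 < r := hx'.1
  have bx2' : -r < x'.2 ∧ x'.2 < r := hx'.2
  have na1 : |x.1| ≤ X := (norm_fst_le x).trans hn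
  have na2 : |x.2| ≤ X := (norm_snd_le x).trans hn
  have nb1 : |x'.1| ≤ X := (norm_fst_le x').trans hn'
  have nb2 : |x'.2| ≤ X := (norm_snd_le x').trans hn'
  obtain ⟨a, ha⟩ : ∃ a : ℝ × ℝ, a = x + x' := ⟨_, rfl⟩
  rw [← ha]
  have ha1 : a.1 = x.1 + x'.1 := by rw [ha]; rfl
  have ha2 : a.2 = x.2 + x'.2 := by rw [ha]; rfl
  have r1 : |a.1| ≤ 2 * r := by rw [ha1, abs_le]; constructor <;> linarith
  have r2 : |a.2| ≤ 2 * r := by rw [ha2, abs_le]; constructor <;> linarith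
  have ρ1 : |a.1| ≤ 2 * X := by
    rw [ha1]; have := abs_add_le x.1 x'.1; linarith
  have ρ2 : |a.2| ≤ 2 * X := by
    rw [ha2]; have := abs_add_le x.2 x'.2; linarith
  -- the size of `δ`
  have hκ : 0 < X ^ (m - 2) := pow_pos hX _
  have hδ2 : c ^ 2 * δ ≤ τ ^ 2 * (X ^ (m - 2)) ^ 2 * X ^ 2 := by
    have h1 : c * Real.sqrt δ < τ * X * X ^ (m - 2) := by
      rw [div_lt_iff₀ hκ] at hfar
      have h2 : z * X ^ (m - 2) < τ * X * X ^ (m - 2) := mul_lt_mul_of_pos_right hzX hκ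
      linarith
    have h2 : 0 ≤ c * Real.sqrt δ := by positivity
    have h3 : (c * Real.sqrt δ) ^ 2 ≤ (τ * X * X ^ (m - 2)) ^ 2 :=
      pow_le_pow_left₀ h2 h1.le 2
    rw [mul_pow, Real.sq_sqrt hδ.le] at h3
    calc c ^ 2 * δ ≤ (τ * X * X ^ (m - 2)) ^ 2 := h3
      _ = _ := by ring
  -- distances from the curve
  have hd := acfar_dist m hm E X τ c ε δ hc hX hX1 hε0.le hδ2 x (by linarith) hl
    (hE.eval x hx hn 2 (by norm_num))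
  have hd' := acfar_dist m hm E X τ c ε δ hc hX hX1 hε0.le hδ2 x' (by linarith) hl'
    (hE.eval x' hx' hn' 2 (by norm_num))
  have hG0z : Gg m 0 a.1 z = x.1 ^ m + x'.1 ^ m := by
    have e1 : (a.1 + z) / 2 = x.1 := by rw [ha1, hz]; ring
    have e2 : (a.1 - z) / 2 = x'.1 := by rw [ha1, hz]; ring
    rw [Gg, e1, e2]
    simp
  refine ⟨iteratedDeriv 1 (fun t => MM m E t a), iteratedDeriv 2 (fun t => MM m E t a),
    iteratedDeriv 3 (fun t => MM m E t a), ?_, (mm_odd m Ψ r hr E 4 X _ hE a r1 r2).1, ?_⟩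
  · intro t ht
    have ht4 : |t| < 4 * r := by
      rw [abs_of_nonneg ht.1]
      have := ht.2
      have : z < 2 * r := by rw [hz]; linarith
      linarith
    refine ⟨?_, mm_hasDeriv m Ψ r E 4 X _ hE a r1 r2 t ht4 1,
      mm_hasDeriv m Ψ r E 4 X _ hE a r1 r2 t ht4 2⟩
    have h0 := mm_hasDeriv m Ψ r E 4 X _ hE a r1 r2 t ht4 0
    rwa [iteratedDeriv_zero] at h0
  · intro t ht
    have ht0 := ht.1
    have ht2 := ht.2
    have ht4 : |t| < 4 * r := by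
      rw [abs_of_nonneg ht.1]
      have : z < 2 * r := by rw [hz]; linarith
      linarith
    rw [mm_iter m Ψ r E 4 X _ hE a r1 r2 t ht4 3, acfar_m0_three]
    have hEt := acfar_e_three m Ψ r hr E X _ hE a r1 r2 ρ1 ρ2 t ht0
      (by rw [abs_of_nonneg ht0] at ht4; exact ht4) (by linarith)
    have hlow : X / 2 ≤ (a.1 - 2 * z) / 2 := by rw [ha1, hz]; linarith
    have hupp : (a.1 + 2 * z) / 2 ≤ 2 * X := by rw [ha1, hz]; linarith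
    have hlow' : X / 2 ≤ (a.1 - t) / 2 := by linarith
    have hg1 := gg1_lower m (by omega) a.1 t (X / 2) ht0 (by linarith) hlow'
    have hg2 := gg2_lower m (by omega) a.1 t (X / 2) ht0 (by linarith) hlow'
    have hg3 := gg3_bound m hm a.1 t (2 * X) ht0 (by linarith)
      (by rw [abs_of_nonneg (by linarith)]; linarith)
      (by rw [abs_of_nonneg (by linarith)]; linarith)
    have hgd := acfar_g_diff m hm a.1 z t X hz0.le ht0 ht2 (by linarith) hupp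
    rw [← hcm] at hg1 hg2 hgd
    -- the distance `a₂ - G₀(t)`
    obtain ⟨η, hη⟩ : ∃ η : ℝ, η = 2 * 2 ^ m * (τ ^ 2 / c ^ 2 + ε) + cm * 2 ^ (m - 2) * τ ^ 2 :=
      ⟨_, rfl⟩
    have e1 : X ^ m = X ^ (m - 2) * X ^ 2 := by rw [← pow_add]; congr 1; omega
    have hη1 : |a.2 - Gg m 0 a.1 t| ≤ η * X ^ m := by
      have h1 : a.2 - Gg m 0 a.1 t = (x.2 - x.1 ^ m) + (x'.2 - x'.1 ^ m) -
          (Gg m 0 a.1 t - Gg m 0 a.1 z) := by rw [hG0z, ha2]; ring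
      have h2 : |a.2 - Gg m 0 a.1 t| ≤ |x.2 - x.1 ^ m| + |x'.2 - x'.1 ^ m| +
          |Gg m 0 a.1 t - Gg m 0 a.1 z| := by
        rw [h1]
        have i1 := abs_sub ((x.2 - x.1 ^ m) + (x'.2 - x'.1 ^ m)) (Gg m 0 a.1 t - Gg m 0 a.1 z)
        have i2 := abs_add_le (x.2 - x.1 ^ m) (x'.2 - x'.1 ^ m)
        linarith
      have h3 : z ^ 2 ≤ τ ^ 2 * X ^ 2 := by
        have := pow_le_pow_left₀ hz0.le hzX.le 2
        rwa [mul_pow] at this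
      have h4 : cm * (2 * X) ^ (m - 2) * z ^ 2 ≤ cm * 2 ^ (m - 2) * τ ^ 2 * X ^ m := by
        have h5 : 0 ≤ cm * (2 * X) ^ (m - 2) := by positivity
        calc cm * (2 * X) ^ (m - 2) * z ^ 2 ≤ cm * (2 * X) ^ (m - 2) * (τ ^ 2 * X ^ 2) :=
              mul_le_mul_of_nonneg_left h3 h5
          _ = cm * 2 ^ (m - 2) * τ ^ 2 * X ^ m := by rw [mul_pow, e1]; ring
      rw [hη]
      linarith
    have hη0 : 0 ≤ η := by rw [hη]; positivity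
    have hηB : η * B + ε ≤ 2 * L := by
      have h1 : η * B + ε = K1 * τ ^ 2 + K2 * ε := by rw [hη, hK1, hK2]; ring
      rw [h1, hε2]
      linarith
    -- the main term
    obtain ⟨κ, hκe⟩ : ∃ κ : ℝ, κ = X ^ (m - 2) := ⟨_, rfl⟩
    rw [← hκe] at hκ ⊢
    have hmain : 3 * L * κ ^ 2 * t ≤ 3 * Gg m 1 a.1 t * Gg m 2 a.1 t := by
      have h1 : 0 ≤ cm / 2 * (X / 2) ^ (m - 2) * t := by positivity
      have h2 : 0 ≤ cm / 2 * (X / 2) ^ (m - 2) := by positivity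
      have h3 : cm / 2 * (X / 2) ^ (m - 2) * t * (cm / 2 * (X / 2) ^ (m - 2)) ≤
          Gg m 1 a.1 t * Gg m 2 a.1 t := mul_le_mul hg1 hg2 h2 (h1.trans hg1)
      have h4 : cm / 2 * (X / 2) ^ (m - 2) * t * (cm / 2 * (X / 2) ^ (m - 2)) =
          L * κ ^ 2 * t := by
        rw [hL, hκe, div_pow X 2 (m - 2)]
        have e2 : ((1 : ℝ) / 2) ^ (2 * m - 2) = (1 / 2) ^ (m - 2) * (1 / 2) ^ (m - 2) / 4 := by
          have : (2 * m - 2) = (m - 2) + (m - 2) + 2 := by omega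
          rw [this, pow_add, pow_add]; norm_num
          ring
        rw [e2, one_div, inv_pow]
        field_simp
        ring
      linarith
    have hG3 : |(a.2 - Gg m 0 a.1 t) * Gg m 3 a.1 t| ≤ η * B * κ ^ 2 * t := by
      rw [abs_mul]
      have h1 : X ^ 2 * |Gg m 3 a.1 t| ≤ B * κ * t := by
        have h2 : (2 * X) ^ 2 * |Gg m 3 a.1 t| = 4 * (X ^ 2 * |Gg m 3 a.1 t|) := by ring
        have h3 : (m : ℝ) ^ 4 * (2 * X) ^ (m - 2) * t = 4 * (B * κ * t) := by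
          rw [hB, hκe, mul_pow]; ring
        rw [h2, h3] at hg3
        linarith
      calc |a.2 - Gg m 0 a.1 t| * |Gg m 3 a.1 t| ≤ η * X ^ m * |Gg m 3 a.1 t| :=
            mul_le_mul_of_nonneg_right hη1 (abs_nonneg _)
        _ = η * κ * (X ^ 2 * |Gg m 3 a.1 t|) := by rw [e1, ← hκe]; ring
        _ ≤ η * κ * (B * κ * t) := mul_le_mul_of_nonneg_left h1 (by positivity)
        _ = η * B * κ ^ 2 * t := by ring
    have hE3 : |iteratedDeriv 3 (fun t => E (t, a)) t| ≤ ε * κ ^ 2 * t := by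
      refine hEt.trans ?_
      apply mul_le_mul_of_nonneg_right _ ht0
      apply mul_le_mul_of_nonneg_left _ hε0.le
      have e2 : X ^ (2 * m) = κ ^ 2 * X ^ 4 := by
        rw [hκe, ← pow_mul, ← pow_add]; congr 1; omega
      rw [e2]
      have h1 : X ^ 4 ≤ 1 := pow_le_one₀ hX.le hX1
      have h2 : 0 ≤ κ ^ 2 := by positivity
      exact mul_le_of_le_one_right h2 h1
    have hκt : 0 ≤ κ ^ 2 * t := by positivity
    have h1 := (abs_le.1 hG3).2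
    have h2 := (abs_le.1 hE3).1
    have h3 : c * (κ ^ 2 * t) ≤ L * (κ ^ 2 * t) := mul_le_mul_of_nonneg_right hcL hκt
    have h4 : (η * B + ε) * (κ ^ 2 * t) ≤ 2 * L * (κ ^ 2 * t) :=
      mul_le_mul_of_nonneg_right hηB hκt
    linarith

end Pool.Agent.FlatRes
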