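import Pool.Agent.Lib.MP_40a0b6_an.N2MDer
import Pool.Agent.Lib.MP_40a0b6_an.N2Alg
set_option autoImplicit false
open MeasureTheory
open scoped ENNReal FourierTransform SchwartzMap
namespace Pool.Agent.FlatRes

/-- crude mean value bound -/
theorem acNear_mvt (f f' : ℝ → ℝ) (T B : ℝ) (hd : ∀ t ∈ Set.Icc 0 T, HasDerivAt f (f' t) t)
    (hB : ∀ t ∈ Set.Icc 0 T, |f' t| ≤ B) (t : ℝ) (ht : t ∈ Set.Icc 0 T) : |f t - f 0| ≤ B * t := by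
  have h0 : (0 : ℝ) ∈ Set.Icc 0 T := ⟨le_rfl, ht.1.trans ht.2⟩
  have := (convex_Icc (0 : ℝ) T).norm_image_sub_le_of_norm_hasDerivWithin_le (f := f) (f' := f') (C := B)
    (fun x hx => (hd x hx).hasDerivWithinAt) (fun x hx => by rw [Real.norm_eq_abs]; exact hB x hx) h0 ht
  simpa [abs_of_nonneg ht.1] using this

/-- lower bound by the mean value theorem -/
theorem acNear_low (f f' : ℝ → ℝ) (T B σ : ℝ) (hd : ∀ t ∈ Set.Icc 0 T, HasDerivAt f (f' t) t)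
    (h0 : f 0 = 0) (hB : ∀ t ∈ Set.Icc 0 T, B ≤ σ * f' t) (t : ℝ) (ht : t ∈ Set.Icc 0 T) :
    B * t ≤ σ * f t := by
  rcases ht.1.eq_or_lt with h | h
  · rw [← h, h0]; simp
  · obtain ⟨s, hs, hs'⟩ := exists_hasDerivAt_eq_slope f f' h
      (fun s hs => (hd s ⟨hs.1, hs.2.trans ht.2⟩).continuousAt.continuousWithinAt)
      (fun s hs => hd s ⟨hs.1.le, hs.2.le.trans ht.2⟩)
    have h1 := hB s ⟨hs.1.le, hs.2.le.trans ht.2⟩
    rw [hs', h0, sub_zero, sub_zero] at h1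
    have h2 : σ * (f t / t) * t = σ * f t := by field_simp
    calc B * t ≤ σ * (f t / t) * t := mul_le_mul_of_nonneg_right h1 h.le
      _ = σ * f t := h2

/-- from bounds on the fourth derivative to `NearProp` -/
theorem acNear_core (φ : ℝ → ℝ) (T δ C4 σ c : ℝ) (hσ : IsSign σ) (hδ : 0 < δ) (hC4 : 0 ≤ C4)
    (hder : ∀ k : ℕ, ∀ t ∈ Set.Icc 0 T, HasDerivAt (iteratedDeriv k φ) (iteratedDeriv (k + 1) φ t) t)
    (h1 : iteratedDeriv 1 φ 0 = 0) (h3 : iteratedDeriv 3 φ 0 = 0)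
    (h2 : 3 * δ / 8 ≤ σ * iteratedDeriv 2 φ 0)
    (h4 : ∀ t ∈ Set.Icc 0 T, |iteratedDeriv 4 φ t| ≤ C4) (hC : C4 * T ^ 2 ≤ δ / 8) (hc : c ≤ 1 / 4) :
    NearProp φ T (c * δ) := by
  refine ⟨σ, hσ, iteratedDeriv 1 φ, ?_, ?_⟩
  · intro t ht
    have := hder 0 t ht
    simpa [iteratedDeriv_zero] using this
  · have hσ1 : |σ| = 1 := by rcases hσ with h | h <;> rw [h] <;> simp
    have k3 : ∀ t ∈ Set.Icc 0 T, |iteratedDeriv 3 φ t| ≤ C4 * T := by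
      intro t ht
      have := acNear_mvt (iteratedDeriv 3 φ) (iteratedDeriv 4 φ) T C4 (hder 3) h4 t ht
      rw [h3, sub_zero] at this
      exact this.trans (mul_le_mul_of_nonneg_left ht.2 hC4)
    have k2 : ∀ t ∈ Set.Icc 0 T, δ / 4 ≤ σ * iteratedDeriv 2 φ t := by
      intro t ht
      have hT : 0 ≤ T := ht.1.trans ht.2
      have := acNear_mvt (iteratedDeriv 2 φ) (iteratedDeriv 3 φ) T (C4 * T) (hder 2) k3 t ht
      have h5 : |iteratedDeriv 2 φ t - iteratedDeriv 2 φ 0| ≤ δ / 8 := by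
        refine this.trans (le_trans ?_ hC)
        calc C4 * T * t ≤ C4 * T * T := mul_le_mul_of_nonneg_left ht.2 (by positivity)
          _ = C4 * T ^ 2 := by ring
      have h6 : |σ * (iteratedDeriv 2 φ t - iteratedDeriv 2 φ 0)| ≤ δ / 8 := by
        rw [abs_mul, hσ1, one_mul]; exact h5
      have h7 := (abs_le.1 h6).1
      have h8 : σ * iteratedDeriv 2 φ t = σ * iteratedDeriv 2 φ 0 +
          σ * (iteratedDeriv 2 φ t - iteratedDeriv 2 φ 0) := by ring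
      rw [h8]; linarith
    intro t ht
    have := acNear_low (iteratedDeriv 1 φ) (iteratedDeriv 2 φ) T (δ / 4) σ (hder 1) h1 k2 t ht
    refine le_trans ?_ this
    have : c * δ ≤ δ / 4 := by nlinarith
    exact mul_le_mul_of_nonneg_right this ht.1

/-- second difference estimate, pure inequalities -/
theorem acNear_ii (C0 m c δ κ z w dv : ℝ) (hC0 : 1 ≤ C0) (hm : 3 ≤ m) (hc : 0 < c) (hc2 : c ^ 2 ≤ c)
    (hδ : 0 < δ) (hκz2 : (κ * z) ^ 2 ≤ 4 * c ^ 2 * δ)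
    (hi : w * z * dv ≤ c * δ + 4 * (2 * m + 1) * c ^ 2 * δ) :
    (C0 + 1 + 4) * m ^ 2 * (κ * z) ^ 2 + m / 2 * w * z * dv ≤
      ((C0 + 1 + 4) * m ^ 2 * 4 + m / 2 * (1 + 4 * (2 * m + 1))) * (c * δ) := by
  have hcd : c ^ 2 * δ ≤ c * δ := mul_le_mul_of_nonneg_right hc2 hδ.le
  have h1 : (C0 + 1 + 4) * m ^ 2 * (κ * z) ^ 2 ≤ (C0 + 1 + 4) * m ^ 2 * (4 * (c * δ)) := by
    apply mul_le_mul_of_nonneg_left _ (by positivity)
    refine hκz2.trans ?_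
    linarith
  have h2 : m / 2 * w * z * dv ≤ m / 2 * ((1 + 4 * (2 * m + 1)) * (c * δ)) := by
    have h3 : w * z * dv ≤ (1 + 4 * (2 * m + 1)) * (c * δ) := by
      refine hi.trans ?_
      have h4 : 4 * (2 * m + 1) * c ^ 2 * δ ≤ 4 * (2 * m + 1) * (c * δ) := by
        calc 4 * (2 * m + 1) * c ^ 2 * δ = 4 * (2 * m + 1) * (c ^ 2 * δ) := by ring
          _ ≤ _ := mul_le_mul_of_nonneg_left hcd (by positivity)
      linarith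
    calc m / 2 * w * z * dv = m / 2 * (w * z * dv) := by ring
      _ ≤ _ := mul_le_mul_of_nonneg_left h3 (by positivity)
  linarith

theorem acNear_iii (m c δ κ z X dv L : ℝ) (hm : 3 ≤ m) (hc : 0 < c) (hc2 : c ^ 2 ≤ c)
    (hδ : 0 < δ) (hκ0 : 0 < κ) (hκ1 : κ ≤ 1) (hX : 0 < X) (hX1 : X ≤ 1) (hz0 : 0 < z) (hdv0 : 0 ≤ dv)
    (hL0 : 0 < L) (hδ1 : δ ≤ L)
    (hκz2 : (κ * z) ^ 2 ≤ 4 * c ^ 2 * δ) (hdv : dv ≤ c * δ / κ + (2 * m + 1) * (κ * X) * z) :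
    κ ^ 2 * X ^ 4 * (z + dv) ^ 2 ≤ (8 + 4 * L + 16 * (2 * m + 1) ^ 2) * (c * δ) := by
  have hX4 : X ^ 4 ≤ 1 := pow_le_one₀ hX.le hX1
  have hcd : c ^ 2 * δ ≤ c * δ := mul_le_mul_of_nonneg_right hc2 hδ.le
  have h4c : 4 * c ^ 2 * δ ≤ 4 * (c * δ) := by linarith
  have he0 : 0 ≤ κ ^ 2 * X ^ 4 := by positivity
  obtain ⟨p, hp⟩ : ∃ p : ℝ, p = c * δ / κ := ⟨_, rfl⟩
  obtain ⟨q, hq⟩ : ∃ q : ℝ, q = (2 * m + 1) * (κ * X) * z := ⟨_, rfl⟩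
  rw [← hp, ← hq] at hdv
  have h1 : (z + dv) ^ 2 ≤ 2 * z ^ 2 + 4 * p ^ 2 + 4 * q ^ 2 := by
    have h2 : dv ^ 2 ≤ (p + q) ^ 2 := pow_le_pow_left₀ hdv0 hdv 2
    have h3 := sq_nonneg (z - dv)
    have h4 := sq_nonneg (p - q)
    nlinarith only [h2, h3, h4]
  have h3 : κ ^ 2 * X ^ 4 * (z + dv) ^ 2 ≤ κ ^ 2 * X ^ 4 * (2 * z ^ 2 + 4 * p ^ 2 + 4 * q ^ 2) :=
    mul_le_mul_of_nonneg_left h1 he0
  have h4 : κ ^ 2 * X ^ 4 * (2 * z ^ 2) ≤ 8 * (c * δ) := by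
    have h5 : X ^ 4 * (κ * z) ^ 2 ≤ 1 * (4 * c ^ 2 * δ) := mul_le_mul hX4 hκz2 (by positivity) (by norm_num)
    have h6 : κ ^ 2 * X ^ 4 * (2 * z ^ 2) = 2 * (X ^ 4 * (κ * z) ^ 2) := by ring
    rw [h6]; linarith
  have h5 : κ ^ 2 * X ^ 4 * (4 * p ^ 2) ≤ 4 * L * (c * δ) := by
    have h6 : κ ^ 2 * X ^ 4 * (4 * p ^ 2) = 4 * (X ^ 4 * (c ^ 2 * δ * δ)) := by
      rw [hp]; field_simp
    rw [h6]
    have h7 : c ^ 2 * δ * δ ≤ c * δ * L := mul_le_mul hcd hδ1 hδ.le (by positivity)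
    have h8 : X ^ 4 * (c ^ 2 * δ * δ) ≤ 1 * (c * δ * L) := mul_le_mul hX4 h7 (by positivity) (by norm_num)
    linarith
  have h9 : κ ^ 2 * X ^ 4 * (4 * q ^ 2) ≤ 16 * (2 * m + 1) ^ 2 * (c * δ) := by
    have h10 : κ ^ 2 * X ^ 4 * (4 * q ^ 2) = 4 * (2 * m + 1) ^ 2 * ((κ ^ 2 * X ^ 6) * (κ * z) ^ 2) := by
      rw [hq]; ring
    rw [h10]
    have h11 : κ ^ 2 * X ^ 6 ≤ 1 := by
      have h12 : κ ^ 2 ≤ 1 := pow_le_one₀ hκ0.le hκ1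
      have h13 : X ^ 6 ≤ 1 := pow_le_one₀ hX.le hX1
      calc κ ^ 2 * X ^ 6 ≤ 1 * 1 := mul_le_mul h12 h13 (by positivity) (by norm_num)
        _ = 1 := by norm_num
    have h14 : (κ ^ 2 * X ^ 6) * (κ * z) ^ 2 ≤ 4 * (c * δ) := by
      calc (κ ^ 2 * X ^ 6) * (κ * z) ^ 2 ≤ 1 * (4 * c ^ 2 * δ) :=
            mul_le_mul h11 hκz2 (by positivity) (by norm_num)
        _ ≤ 4 * (c * δ) := by linarith
    calc 4 * (2 * m + 1) ^ 2 * ((κ ^ 2 * X ^ 6) * (κ * z) ^ 2) ≤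
        4 * (2 * m + 1) ^ 2 * (4 * (c * δ)) := mul_le_mul_of_nonneg_left h14 (by positivity)
      _ = 16 * (2 * m + 1) ^ 2 * (c * δ) := by ring
  calc κ ^ 2 * X ^ 4 * (z + dv) ^ 2 ≤ κ ^ 2 * X ^ 4 * (2 * z ^ 2) + κ ^ 2 * X ^ 4 * (4 * p ^ 2) +
        κ ^ 2 * X ^ 4 * (4 * q ^ 2) := by
        refine h3.trans (le_of_eq ?_); ring
    _ ≤ (8 + 4 * L + 16 * (2 * m + 1) ^ 2) * (c * δ) := by linarith

theorem acNear_m0_4 (m : ℕ) (a : ℝ × ℝ) (t : ℝ) : iteratedDeriv 4 (fun t => M0 m t a) t =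
    3 * Gg m 2 a.1 t ^ 2 + 4 * Gg m 1 a.1 t * Gg m 3 a.1 t - (a.2 - Gg m 0 a.1 t) * Gg m 4 a.1 t := by
  have e1 : iteratedDeriv 1 (fun t => M0 m t a) =
      fun z => -(a.2 - Gg m 0 a.1 z) * Gg m 1 a.1 z := by
    rw [iteratedDeriv_one]; ext s; exact (m0_d1 m a s).deriv
  have e2 : iteratedDeriv 2 (fun t => M0 m t a) =
      fun z => Gg m 1 a.1 z ^ 2 - (a.2 - Gg m 0 a.1 z) * Gg m 2 a.1 z := by
    rw [iteratedDeriv_succ, e1]; ext s; exact (m0_d2 m a s).deriv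
  have e3 : iteratedDeriv 3 (fun t => M0 m t a) =
      fun z => 3 * Gg m 1 a.1 z * Gg m 2 a.1 z - (a.2 - Gg m 0 a.1 z) * Gg m 3 a.1 z := by
    rw [iteratedDeriv_succ, e2]; ext s; exact (m0_d3 m a s).deriv
  rw [iteratedDeriv_succ, e3]
  exact (m0_d4 m a t).deriv

/-- bound for the fourth derivative of the unperturbed minimum -/
theorem acNear_four (m : ℕ) (hm : 3 ≤ m) (a : ℝ × ℝ) (t X κ C0 : ℝ) (hC0 : 1 ≤ C0) (hX : 0 < X)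
    (hκ : κ = X ^ (m - 2)) (ht0 : 0 ≤ t) (htX' : t ≤ 2 * X) (ha10 : 0 < a.1) (ha1X' : a.1 ≤ 2 * X)
    (h1 : |a.2| ≤ 2 * (C0 + 1) * (κ * X ^ 2)) :
    |iteratedDeriv 4 (fun t => M0 m t a) t| ≤ (3 * (2 * (m.factorial : ℝ) * 2 ^ (m - 2)) ^ 2 +
      4 * (2 * (m.factorial : ℝ) * m ^ 4 * (2 ^ (m - 2)) ^ 2) +
      (2 * (C0 + 1) + 2 * (m.factorial : ℝ) * 2 ^ m) * m ^ 4 * 2 ^ (m - 2)) * κ ^ 2 := by
  rw [acNear_m0_4]
  have hκ0 : 0 < κ := by rw [hκ]; positivity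
  have hp1 : |(a.1 + t) / 2| ≤ 2 * X := by
    rw [abs_le]; constructor <;> linarith
  have hp2 : |(a.1 - t) / 2| ≤ 2 * X := by
    rw [abs_le]; constructor <;> linarith
  have h2X : 0 < 2 * X := by positivity
  have g2 := gg_bound m 2 (by omega) a.1 t (2 * X) hp1 hp2
  have g1 := gg_bound m 1 (by omega) a.1 t (2 * X) hp1 hp2
  have g0 := gg_bound m 0 (by omega) a.1 t (2 * X) hp1 hp2
  have g3 := gg3_bound m hm a.1 t (2 * X) ht0 h2X hp1 hp2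
  have g4 := gg4_bound m hm a.1 t (2 * X) h2X hp1 hp2
  obtain ⟨F, hF⟩ : ∃ F : ℝ, F = (m.factorial : ℝ) := ⟨_, rfl⟩
  have hF0 : 0 < F := by rw [hF]; exact_mod_cast m.factorial_pos
  rw [← hF] at g2 g1 g0 ⊢
  obtain ⟨P, hP⟩ : ∃ P : ℝ, P = 2 ^ (m - 2) := ⟨_, rfl⟩
  have hP0 : 0 < P := by rw [hP]; positivity
  have q2 : (2 * X) ^ (m - 2) = P * κ := by rw [mul_pow, hP, hκ]
  have q1 : (2 * X) ^ (m - 1) = P * κ * (2 * X) := by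
    rw [← q2, ← pow_succ]; congr 1; omega
  have q0 : (2 * X) ^ (m - 0) = P * κ * (4 * X ^ 2) := by
    have : (2 * X) ^ (m - 0) = (2 * X) ^ (m - 2) * (2 * X) ^ 2 := by
      rw [← pow_add]; congr 1; omega
    rw [this, q2]; ring
  have hP4 : (2 : ℝ) ^ m = 4 * P := by
    rw [hP]
    have : (2 : ℝ) ^ m = 2 ^ (m - 2) * 2 ^ 2 := by rw [← pow_add]; congr 1; omega
    rw [this]; ring
  rw [q2] at g2 g3 g4
  rw [q1] at g1
  rw [q0] at g0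
  rw [← hP, hP4]
  obtain ⟨G0, hG0⟩ : ∃ G : ℝ, G = Gg m 0 a.1 t := ⟨_, rfl⟩
  obtain ⟨G1, hG1⟩ : ∃ G : ℝ, G = Gg m 1 a.1 t := ⟨_, rfl⟩
  obtain ⟨G2, hG2⟩ : ∃ G : ℝ, G = Gg m 2 a.1 t := ⟨_, rfl⟩
  obtain ⟨G3, hG3⟩ : ∃ G : ℝ, G = Gg m 3 a.1 t := ⟨_, rfl⟩
  obtain ⟨G4, hG4⟩ : ∃ G : ℝ, G = Gg m 4 a.1 t := ⟨_, rfl⟩
  rw [← hG0] at g0
  rw [← hG1] at g1
  rw [← hG2] at g2
  rw [← hG3] at g3
  rw [← hG4] at g4
  rw [← hG0, ← hG1, ← hG2, ← hG3, ← hG4]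
  have hm4 : (0 : ℝ) ≤ (m : ℝ) ^ 4 := by positivity
  have t1 : |3 * G2 ^ 2| ≤ 3 * (2 * F * P) ^ 2 * κ ^ 2 := by
    rw [abs_mul, abs_pow, abs_of_pos (by norm_num : (0 : ℝ) < 3)]
    have := pow_le_pow_left₀ (abs_nonneg _) g2 2
    have h5 : (2 * F * (P * κ)) ^ 2 = (2 * F * P) ^ 2 * κ ^ 2 := by ring
    rw [h5] at this
    linarith
  have t2 : |4 * G1 * G3| ≤ 4 * (2 * F * m ^ 4 * P ^ 2) * κ ^ 2 := by
    rw [abs_mul, abs_mul, abs_of_pos (by norm_num : (0 : ℝ) < 4)]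
    have h1 : (2 * X) ^ 2 * (|G1| * |G3|) ≤ (2 * F * (P * κ * (2 * X))) * ((m : ℝ) ^ 4 * (P * κ) * (2 * X)) := by
      have h2 : (2 * X) ^ 2 * |G3| ≤ (m : ℝ) ^ 4 * (P * κ) * (2 * X) :=
        g3.trans (mul_le_mul_of_nonneg_left htX' (by positivity))
      calc (2 * X) ^ 2 * (|G1| * |G3|) = |G1| * ((2 * X) ^ 2 * |G3|) := by ring
        _ ≤ _ := mul_le_mul g1 h2 (by positivity) (by positivity)
    have h3 : (2 * X) ^ 2 * (|G1| * |G3|) ≤ (2 * X) ^ 2 * (2 * F * m ^ 4 * P ^ 2 * κ ^ 2) := by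
      refine h1.trans (le_of_eq ?_); ring
    have h4 := le_of_mul_le_mul_left h3 (by positivity)
    calc 4 * |G1| * |G3| = 4 * (|G1| * |G3|) := by ring
      _ ≤ 4 * (2 * F * m ^ 4 * P ^ 2 * κ ^ 2) := mul_le_mul_of_nonneg_left h4 (by norm_num)
      _ = _ := by ring
  have t3 : |(a.2 - G0) * G4| ≤ (2 * (C0 + 1) + 2 * F * (4 * P)) * m ^ 4 * P * κ ^ 2 := by
    rw [abs_mul]
    have h2 : |a.2 - G0| ≤ (2 * (C0 + 1) + 2 * F * (4 * P)) * (κ * X ^ 2) := by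
      refine (abs_sub _ _).trans ?_
      calc |a.2| + |G0| ≤ 2 * (C0 + 1) * (κ * X ^ 2) + 2 * F * (P * κ * (4 * X ^ 2)) := add_le_add h1 g0
        _ = _ := by ring
    have hco : 0 ≤ 2 * (C0 + 1) + 2 * F * (4 * P) := by positivity
    have h3 : (2 * X) ^ 2 * (|a.2 - G0| * |G4|) ≤
        ((2 * (C0 + 1) + 2 * F * (4 * P)) * (κ * X ^ 2)) * ((m : ℝ) ^ 4 * (P * κ)) := by
      calc (2 * X) ^ 2 * (|a.2 - G0| * |G4|) = |a.2 - G0| * ((2 * X) ^ 2 * |G4|) := by ring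
        _ ≤ _ := mul_le_mul h2 g4 (by positivity) (by positivity)
    have h4 : (2 * X) ^ 2 * (|a.2 - G0| * |G4|) ≤
        (2 * X) ^ 2 * ((2 * (C0 + 1) + 2 * F * (4 * P)) * m ^ 4 * P * κ ^ 2) := by
      refine h3.trans ?_
      have : ((2 * (C0 + 1) + 2 * F * (4 * P)) * (κ * X ^ 2)) * ((m : ℝ) ^ 4 * (P * κ)) =
        X ^ 2 * ((2 * (C0 + 1) + 2 * F * (4 * P)) * m ^ 4 * P * κ ^ 2) := by ring
      rw [this]
      have h5 : 0 ≤ (2 * (C0 + 1) + 2 * F * (4 * P)) * m ^ 4 * P * κ ^ 2 := by positivity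
      have h6 : X ^ 2 ≤ (2 * X) ^ 2 := by
        have h7 := sq_nonneg X
        have h8 : (2 * X) ^ 2 = 4 * X ^ 2 := by ring
        rw [h8]; linarith
      exact mul_le_mul_of_nonneg_right h6 h5
    exact le_of_mul_le_mul_left h4 (by positivity)
  have s2 := abs_sub (3 * G2 ^ 2 + 4 * G1 * G3) ((a.2 - G0) * G4)
  have s3 := abs_add_le (3 * G2 ^ 2) (4 * G1 * G3)
  have hfin : (3 * (2 * F * P) ^ 2 + 4 * (2 * F * m ^ 4 * P ^ 2) +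
      (2 * (C0 + 1) + 2 * F * (4 * P)) * m ^ 4 * P) * κ ^ 2 =
      3 * (2 * F * P) ^ 2 * κ ^ 2 + 4 * (2 * F * m ^ 4 * P ^ 2) * κ ^ 2 +
      (2 * (C0 + 1) + 2 * F * (4 * P)) * m ^ 4 * P * κ ^ 2 := by ring
  rw [hfin]
  linarith only [s2, s3, t1, t2, t3]

/-- JOB ACNear.  The near condition for the curvature pieces, `m ≥ 3`. -/
theorem ac_near (m : ℕ) (hm : 3 ≤ m) (C0 : ℝ) (hC0 : 1 ≤ C0) : ∃ c0 : ℝ, 0 < c0 ∧ ∀ c : ℝ, 0 < c →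
    c ≤ c0 → ∀ (Ψ : ℝ × ℝ → ℝ) (r : ℝ) (E : ℝ × (ℝ × ℝ) → ℝ) (X : ℝ), 0 < r → 0 < X → X ≤ 1 →
    EData m Ψ r E 4 X (X ^ (2 * m)) → ∀ δ : ℝ, 0 < δ → δ ≤ ((m : ℝ) * (m - 1) * C0 + 1) * X ^ (2 * m - 2) →
    ∀ x ∈ box r, ∀ x' ∈ box r, ∀ σ : ℝ, IsSign σ → 0 < x'.1 → x'.1 < x.1 → x.1 ≤ X →
    |x.2 - x.1 ^ m| ≤ C0 * X ^ m → |x'.2 - x'.1 ^ m| ≤ C0 * X ^ m → ‖x‖ ≤ X → ‖x'‖ ≤ X →
    δ / 2 < σ * lamA m E x → δ / 2 < σ * lamA m E x' →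
    x.1 - x'.1 ≤ 2 * (c * Real.sqrt δ / X ^ (m - 2)) → |D1v Ψ x - D1v Ψ x'| ≤ c * δ / X ^ (m - 2) →
    NearProp (fun t => MM m E t (x + x')) (2 * (x.1 - x'.1)) (c * δ) := by
  have hm' : (3 : ℝ) ≤ m := by exact_mod_cast hm
  obtain ⟨cm, hcm⟩ : ∃ cm : ℝ, cm = (m : ℝ) * (m - 1) := ⟨_, rfl⟩
  have hcm0 : 0 < cm := by rw [hcm]; apply mul_pos <;> linarith
  obtain ⟨L, hL⟩ : ∃ L : ℝ, L = cm * C0 + 1 := ⟨_, rfl⟩
  have hL0 : 0 < L := by rw [hL]; positivity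
  obtain ⟨Ka, hKa⟩ : ∃ Ka : ℝ, Ka = (C0 + 1 + 4) * (m : ℝ) ^ 2 * 4 + (m : ℝ) / 2 * (1 + 4 * (2 * m + 1)) :=
    ⟨_, rfl⟩
  obtain ⟨Kb, hKb⟩ : ∃ Kb : ℝ, Kb = 8 + 4 * L + 16 * (2 * (m : ℝ) + 1) ^ 2 := ⟨_, rfl⟩
  have hKa0 : 0 < Ka := by rw [hKa]; positivity
  have hKb0 : 0 < Kb := by rw [hKb]; positivity
  obtain ⟨K1, hK1⟩ : ∃ K1 : ℝ, K1 = cm * Ka + Kb := ⟨_, rfl⟩
  have hK10 : 0 < K1 := by rw [hK1]; positivity
  obtain ⟨C6, hC6⟩ : ∃ C6 : ℝ, C6 = 3 * (2 * (m.factorial : ℝ) * 2 ^ (m - 2)) ^ 2 +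
      4 * (2 * (m.factorial : ℝ) * m ^ 4 * (2 ^ (m - 2)) ^ 2) +
      (2 * (C0 + 1) + 2 * (m.factorial : ℝ) * 2 ^ m) * m ^ 4 * 2 ^ (m - 2) := ⟨_, rfl⟩
  have hC60 : 0 ≤ C6 := by rw [hC6]; positivity
  obtain ⟨C7, hC7⟩ : ∃ C7 : ℝ, C7 = C6 + 1 := ⟨_, rfl⟩
  have hC70 : 0 < C7 := by rw [hC7]; positivity
  refine ⟨1 / (4 * K1 + 128 * C7 + 4), by positivity, ?_⟩
  intro c hc hcc Ψ r E X hr hX hX1 hE δ hδ hδL x hx x' hx' σ hσ hx'0 hxx hxX hy hy' hnx hnx' hl hl' hz hD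
  have hcK1' := mul_pos hc hK10
  have hcC7' := mul_pos hc hC70
  have hcK : c * (4 * K1 + 128 * C7 + 4) ≤ 1 := by
    have hden : 0 < 4 * K1 + 128 * C7 + 4 := by positivity
    have := mul_le_mul_of_nonneg_right hcc hden.le
    rwa [div_mul_cancel₀ _ hden.ne'] at this
  have hcK' : 4 * (c * K1) + 128 * (c * C7) + 4 * c ≤ 1 := by
    have : c * (4 * K1 + 128 * C7 + 4) = 4 * (c * K1) + 128 * (c * C7) + 4 * c := by ring
    linarith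
  have hc4 : c ≤ 1 / 4 := by linarith
  have hcK1 : 4 * (c * K1) ≤ 1 := by linarith
  have hcC7 : 128 * (c * C7) ≤ 1 := by linarith
  have hc2 : c ^ 2 ≤ c := by nlinarith only [hc, hc4]
  clear hcK hcK' hcc
  -- powers of `X`
  obtain ⟨κ, hκ⟩ : ∃ κ : ℝ, κ = X ^ (m - 2) := ⟨_, rfl⟩
  obtain ⟨w, hw⟩ : ∃ w : ℝ, w = X ^ (m - 3) := ⟨_, rfl⟩
  have hκ0 : 0 < κ := by rw [hκ]; positivity
  have hw0 : 0 < w := by rw [hw]; positivity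
  have hwX : w * X = κ := by
    rw [hw, hκ, ← pow_succ]; congr 1; omega
  have hm1 : X ^ (m - 1) = κ * X := by
    rw [hκ, ← pow_succ]; congr 1; omega
  have hm0 : X ^ m = κ * X ^ 2 := by
    rw [hκ, ← pow_add]; congr 1; omega
  have h2m : X ^ (2 * m) = κ ^ 2 * X ^ 4 := by
    rw [hκ, ← pow_mul, ← pow_add]; congr 1; omega
  have h2m2 : X ^ (2 * m - 2) = κ ^ 2 * X ^ 2 := by
    rw [hκ, ← pow_mul, ← pow_add]; congr 1; omega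
  have hκ1 : κ ≤ 1 := by rw [hκ]; exact pow_le_one₀ hX.le hX1
  have hX2 : X ^ 2 ≤ 1 := pow_le_one₀ hX.le hX1
  have hX4 : X ^ 4 ≤ 1 := pow_le_one₀ hX.le hX1
  have hκsq : κ ^ 2 ≤ 1 := pow_le_one₀ hκ0.le hκ1
  rw [h2m] at hE
  rw [h2m2, ← hcm, ← hL] at hδL
  rw [← hκ] at hz hD
  have he0 : 0 ≤ κ ^ 2 * X ^ 4 := by positivity
  have he1 : κ ^ 2 * X ^ 4 ≤ 1 := by
    calc κ ^ 2 * X ^ 4 ≤ 1 * 1 := mul_le_mul hκsq hX4 (by positivity) (by norm_num)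
      _ = 1 := by norm_num
  obtain ⟨z, hzd⟩ : ∃ z : ℝ, z = x.1 - x'.1 := ⟨_, rfl⟩
  obtain ⟨dv, hdvd⟩ : ∃ dv : ℝ, dv = |x.2 - x'.2| := ⟨_, rfl⟩
  have hz0 : 0 < z := by rw [hzd]; linarith
  have hzX : z ≤ X := by rw [hzd]; linarith
  have hdv0 : 0 ≤ dv := by rw [hdvd]; exact abs_nonneg _
  rw [← hzd] at hz
  -- κ z ≤ 2c√δ
  have hκz : κ * z ≤ 2 * c * Real.sqrt δ := by
    have := mul_le_mul_of_nonneg_left hz hκ0.le
    calc κ * z ≤ κ * (2 * (c * Real.sqrt δ / κ)) := this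
      _ = 2 * c * Real.sqrt δ := by field_simp
  have hκz2 : (κ * z) ^ 2 ≤ 4 * c ^ 2 * δ := by
    have h1 := pow_le_pow_left₀ (by positivity) hκz 2
    have h2 : (2 * c * Real.sqrt δ) ^ 2 = 4 * c ^ 2 * δ := by
      rw [mul_pow, Real.sq_sqrt hδ.le]; ring
    rw [h2] at h1; exact h1
  have hδ1 : δ ≤ L := by
    refine hδL.trans ?_
    have : κ ^ 2 * X ^ 2 ≤ 1 := by
      calc κ ^ 2 * X ^ 2 ≤ 1 * 1 := mul_le_mul hκsq hX2 (by positivity) (by norm_num)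
        _ = 1 := by norm_num
    calc L * (κ ^ 2 * X ^ 2) ≤ L * 1 := mul_le_mul_of_nonneg_left this hL0.le
      _ = L := mul_one _
  -- dv
  have hdv : dv ≤ c * δ / κ + (2 * m + 1) * (κ * X) * z := by
    have := dv_bound m (by omega) Ψ r E 4 X (κ ^ 2 * X ^ 4) hE he0 he1 x x' hx hx' hnx hnx' X hX hx'0.le
      hxx.le hxX
    rw [← hdvd, ← hzd, hm1] at this
    have h1 : κ ^ 2 * X ^ 4 ≤ κ * X := by
      have h2 : κ * X ^ 3 ≤ 1 := by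
        have : X ^ 3 ≤ 1 := pow_le_one₀ hX.le hX1
        calc κ * X ^ 3 ≤ 1 * 1 := mul_le_mul hκ1 this (by positivity) (by norm_num)
          _ = 1 := by norm_num
      calc κ ^ 2 * X ^ 4 = (κ * X) * (κ * X ^ 3) := by ring
        _ ≤ (κ * X) * 1 := mul_le_mul_of_nonneg_left h2 (by positivity)
        _ = κ * X := mul_one _
    have h3 : (2 * (m : ℝ) * (κ * X) + κ ^ 2 * X ^ 4) * z ≤ (2 * m + 1) * (κ * X) * z := by
      apply mul_le_mul_of_nonneg_right _ hz0.le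
      linarith
    linarith
  -- (i)
  have hi : w * z * dv ≤ c * δ + 4 * (2 * m + 1) * c ^ 2 * δ := by
    have h1 : w * z * dv ≤ w * z * (c * δ / κ + (2 * m + 1) * (κ * X) * z) :=
      mul_le_mul_of_nonneg_left hdv (by positivity)
    have h2 : w * z * (c * δ / κ) ≤ c * δ := by
      have h3 : w * z ≤ κ := by rw [← hwX]; exact mul_le_mul_of_nonneg_left hzX hw0.le
      calc w * z * (c * δ / κ) ≤ κ * (c * δ / κ) := mul_le_mul_of_nonneg_right h3 (by positivity)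
        _ = c * δ := by field_simp
    have h4 : w * z * ((2 * m + 1) * (κ * X) * z) = (2 * m + 1) * (κ * z) ^ 2 := by
      rw [← hwX]; ring
    have h5 : (2 * (m : ℝ) + 1) * (κ * z) ^ 2 ≤ (2 * m + 1) * (4 * c ^ 2 * δ) :=
      mul_le_mul_of_nonneg_left hκz2 (by positivity)
    calc w * z * dv ≤ w * z * (c * δ / κ) + w * z * ((2 * m + 1) * (κ * X) * z) := by
          rw [← mul_add]; exact h1
      _ ≤ c * δ + (2 * m + 1) * (4 * c ^ 2 * δ) := by rw [h4]; exact add_le_add h2 h5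
      _ = c * δ + 4 * (2 * m + 1) * c ^ 2 * δ := by ring
  -- (ii)
  have hv : |x.2| ≤ (C0 + 1) * X ^ m := by
    have h1 : x.1 ^ m ≤ X ^ m := pow_le_pow_left₀ (by linarith) hxX m
    have h2 : 0 ≤ x.1 ^ m := by apply pow_nonneg; linarith
    have h3 := abs_le.1 hy
    have h4 : (C0 + 1) * X ^ m = C0 * X ^ m + X ^ m := by ring
    rw [h4]
    rw [abs_le]; constructor <;> linarith
  have hv' : |x'.2| ≤ (C0 + 1) * X ^ m := by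
    have h1 : x'.1 ^ m ≤ X ^ m := pow_le_pow_left₀ (by linarith) (by linarith) m
    have h2 : 0 ≤ x'.1 ^ m := by apply pow_nonneg; linarith
    have h3 := abs_le.1 hy'
    have h4 : (C0 + 1) * X ^ m = C0 * X ^ m + X ^ m := by ring
    rw [h4]
    rw [abs_le]; constructor <;> linarith
  have hii := lam0_diff2 m hm x.1 x'.1 x.2 x'.2 X (C0 + 1) hx'0.le hxx.le hxX hX (by linarith) hv hv'
  rw [← hκ, ← hw, ← hzd, ← hdvd] at hii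
  have hii' := hii.trans (acNear_ii C0 m c δ κ z w dv hC0 hm' hc hc2 hδ hκz2 hi)
  rw [← hKa] at hii'
  -- (iii)
  have hiii := hE.dif2 x hx x' hx' hnx hnx' 2 (by norm_num)
  have hz' : |x.1 - x'.1| = z := by rw [← hzd, abs_of_pos hz0]
  rw [hz', ← hdvd] at hiii
  have hiii' := hiii.trans (acNear_iii m c δ κ z X dv L hm' hc hc2 hδ hκ0 hκ1 hX hX1 hz0 hdv0 hL0 hδ1 hκz2 hdv)
  rw [← hKb] at hiii'
  -- lower bound at the midpoint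
  obtain ⟨xb, hxb⟩ : ∃ xb : ℝ × ℝ, xb = ((x.1 + x'.1) / 2, (x.2 + x'.2) / 2) := ⟨_, rfl⟩
  have hσ1 : |σ| = 1 := by rcases hσ with h | h <;> rw [h] <;> simp
  have hsec : |lamA m E x + lamA m E x' - 2 * lamA m E xb| ≤ δ / 4 := by
    have h1 : lamA m E x + lamA m E x' - 2 * lamA m E xb =
        -cm * (x.1 ^ (m - 2) * (x.2 - x.1 ^ m) + x'.1 ^ (m - 2) * (x'.2 - x'.1 ^ m) -
      2 * (((x.1 + x'.1) / 2) ^ (m - 2) * ((x.2 + x'.2) / 2 - ((x.1 + x'.1) / 2) ^ m))) +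
        (eJ E 2 x + eJ E 2 x' - 2 * eJ E 2 xb) := by
      unfold lamA; rw [hcm, hxb]; ring
    rw [h1]
    refine (abs_add_le _ _).trans ?_
    rw [abs_mul, abs_neg, abs_of_pos hcm0, hxb]
    have h2 := mul_le_mul_of_nonneg_left hii' hcm0.le
    have h4 : cm * (Ka * (c * δ)) + Kb * (c * δ) = K1 * (c * δ) := by rw [hK1]; ring
    have h5 : K1 * (c * δ) ≤ δ / 4 := by
      have h6 : K1 * (c * δ) = (c * K1) * δ := by ring
      have h7 := mul_le_mul_of_nonneg_right hcK1 hδ.le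
      rw [h6]; linarith
    linarith
  have hmid : 3 * δ / 8 ≤ σ * lamA m E xb := by
    have h1 : |σ * (lamA m E x + lamA m E x' - 2 * lamA m E xb)| ≤ δ / 4 := by
      rw [abs_mul, hσ1, one_mul]; exact hsec
    have h2 := (abs_le.1 h1).2
    have h3 : σ * (lamA m E x + lamA m E x' - 2 * lamA m E xb) =
      σ * lamA m E x + σ * lamA m E x' - 2 * (σ * lamA m E xb) := by ring
    rw [h3] at h2
    linarith
  clear hsec hiii' hiii hii' hii hi hdv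
  -- the sum
  have hb1 : |x.1| < r := abs_lt.2 ⟨hx.1.1, hx.1.2⟩
  have hb2 : |x.2| < r := abs_lt.2 ⟨hx.2.1, hx.2.2⟩
  have hb1' : |x'.1| < r := abs_lt.2 ⟨hx'.1.1, hx'.1.2⟩
  have hb2' : |x'.2| < r := abs_lt.2 ⟨hx'.2.1, hx'.2.2⟩
  have ha1 : |(x + x').1| ≤ 2 * r := by
    rw [Prod.fst_add]; exact (abs_add_le _ _).trans (by linarith)
  have ha2 : |(x + x').2| ≤ 2 * r := by
    rw [Prod.snd_add]; exact (abs_add_le _ _).trans (by linarith)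
  have hnx1 : |x.1| ≤ X := (le_trans (by rw [← Real.norm_eq_abs]; exact norm_fst_le x) hnx)
  have hnx2 : |x.2| ≤ X := (le_trans (by rw [← Real.norm_eq_abs]; exact norm_snd_le x) hnx)
  have hnx1' : |x'.1| ≤ X := (le_trans (by rw [← Real.norm_eq_abs]; exact norm_fst_le x') hnx')
  have hnx2' : |x'.2| ≤ X := (le_trans (by rw [← Real.norm_eq_abs]; exact norm_snd_le x') hnx')
  have ha1X : |(x + x').1| ≤ 2 * X := by
    rw [Prod.fst_add]; exact (abs_add_le _ _).trans (by linarith)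
  have ha2X : |(x + x').2| ≤ 2 * X := by
    rw [Prod.snd_add]; exact (abs_add_le _ _).trans (by linarith)
  have hzr : z < r := by
    have := (abs_lt.1 hb1).2
    rw [hzd]; linarith
  have htr : ∀ t ∈ Set.Icc 0 (2 * z), |t| < 4 * r ∧ |t| ≤ 2 * X := by
    intro t ht
    rw [abs_of_nonneg ht.1]
    constructor
    · linarith [ht.2]
    · linarith [ht.2]
  rw [← hzd]
  obtain ⟨hodd1, hodd3⟩ := mm_odd m Ψ r hr E 4 X (κ ^ 2 * X ^ 4) hE (x + x') ha1 ha2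
  refine acNear_core _ (2 * z) δ (C7 * κ ^ 2) σ c hσ hδ (by positivity) ?_ hodd1 hodd3 ?_ ?_ ?_ hc4
  · intro k t ht
    exact mm_hasDeriv m Ψ r E 4 X (κ ^ 2 * X ^ 4) hE (x + x') ha1 ha2 t (htr t ht).1 k
  · rw [mm_lamA m (by omega) Ψ r E 4 X (κ ^ 2 * X ^ 4) hE x x' hx hx', ← hxb]
    exact hmid
  · -- fourth derivative
    intro t ht
    obtain ⟨ht4, htX⟩ := htr t ht
    rw [mm_iter m Ψ r E 4 X (κ ^ 2 * X ^ 4) hE (x + x') ha1 ha2 t ht4 4]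
    have hEb := hE.bd (x + x') t ha1 ha2 ht4 htX ha1X ha2X 4 le_rfl
    have ht0 : 0 ≤ t := ht.1
    have htX' : t ≤ 2 * X := by rw [abs_of_nonneg ht0] at htX; exact htX
    have ha10 : 0 < (x + x').1 := by rw [Prod.fst_add]; linarith
    have ha1X' : (x + x').1 ≤ 2 * X := (le_abs_self _).trans ha1X
    have h1 : |(x + x').2| ≤ 2 * (C0 + 1) * (κ * X ^ 2) := by
      rw [Prod.snd_add]
      rw [hm0] at hv hv'
      exact (abs_add_le _ _).trans (by linarith)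
    have h4 := acNear_four m hm (x + x') t X κ C0 hC0 hX hκ ht0 htX' ha10 ha1X' h1
    rw [← hC6] at h4
    have hEb' : |iteratedDeriv 4 (fun t => E (t, x + x')) t| ≤ κ ^ 2 := by
      refine hEb.trans ?_
      calc κ ^ 2 * X ^ 4 ≤ κ ^ 2 * 1 := mul_le_mul_of_nonneg_left hX4 (by positivity)
        _ = κ ^ 2 := mul_one _
    have hfin : C7 * κ ^ 2 = C6 * κ ^ 2 + κ ^ 2 := by
      rw [hC7]; ring
    rw [hfin]
    exact (abs_add_le _ _).trans (add_le_add h4 hEb')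
  · -- C7 κ² (2z)² ≤ δ/8
    have h1 : C7 * κ ^ 2 * (2 * z) ^ 2 = 4 * C7 * (κ * z) ^ 2 := by ring
    rw [h1]
    have h2 : 4 * C7 * (κ * z) ^ 2 ≤ 4 * C7 * (4 * c ^ 2 * δ) :=
      mul_le_mul_of_nonneg_left hκz2 (by positivity)
    have h3 : C7 * (c ^ 2 * δ) ≤ C7 * (c * δ) :=
      mul_le_mul_of_nonneg_left (mul_le_mul_of_nonneg_right hc2 hδ.le) hC70.le
    have h4 : C7 * (c * δ) = (c * C7) * δ := by ring
    have h5 := mul_le_mul_of_nonneg_right hcC7 hδ.le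
    have h6 : 4 * C7 * (4 * c ^ 2 * δ) = 16 * (C7 * (c ^ 2 * δ)) := by ring
    rw [h6] at h2
    rw [h4] at h3
    linarith

end Pool.Agent.FlatRes
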