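import Pool.Agent.Lib.MP_40a0b6_an.N2PDef
import Pool.Agent.Lib.MP_40a0b6_an.N2AC
import Pool.Agent.Lib.MP_40a0b6_an.N2ACNear
import Pool.Agent.Lib.MP_40a0b6_an.N2ACFar
set_option autoImplicit false
open MeasureTheory
open scoped ENNReal FourierTransform SchwartzMap
namespace Pool.Agent.FlatRes

private theorem ACB_mono {m : ℕ} {Ψ : ℝ × ℝ → ℝ} {r : ℝ} {E : ℝ × (ℝ × ℝ) → ℝ} {J : ℕ}
    {ρ e0 e1 : ℝ} (h : EData m Ψ r E J ρ e0) (he : e0 ≤ e1) : EData m Ψ r E J ρ e1 where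
  smooth := h.smooth
  odd1 := h.odd1
  odd3 := h.odd3
  bd := fun a t h1 h2 h3 h4 h5 h6 j hj => (h.bd a t h1 h2 h3 h4 h5 h6 j hj).trans he
  lip := fun x hx x' hx' h1 h2 j hj => (h.lip x hx x' hx' h1 h2 j hj).trans
    (mul_le_mul_of_nonneg_right he (by positivity))
  dif2 := fun x hx x' hx' h1 h2 j hj => (h.dif2 x hx x' hx' h1 h2 j hj).trans
    (mul_le_mul_of_nonneg_right he (by positivity))
  dpsi := fun x hx x' hx' h1 h2 => (h.dpsi x hx x' hx' h1 h2).trans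
    (mul_le_mul_of_nonneg_right he (by positivity))
  eval := fun x hx h1 j hj => (h.eval x hx h1 j hj).trans he
  ecov := h.ecov

private theorem ACB_isOpen_box (r : ℝ) : IsOpen (box r) := isOpen_Ioo.prod isOpen_Ioo

private theorem ACB_meas {m : ℕ} {Ψ : ℝ × ℝ → ℝ} {r : ℝ} {E : ℝ × (ℝ × ℝ) → ℝ} {J : ℕ}
    {ρ e0 : ℝ} (h : EData m Ψ r E J ρ e0) (hJ : 2 ≤ J) (C0 ϱ : ℝ) (k j : ℕ) (σ : ℝ) :
    MeasurableSet (pAC m E C0 r ϱ k j σ) := by
  set A : ℝ := ((m : ℝ) * (m - 1) * C0 + 1) * (ϱ ^ k) ^ (2 * m - 2) * (1 / 2) ^ (j + 1) with hA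
  set B : ℝ := ((m : ℝ) * (m - 1) * C0 + 1) * (ϱ ^ k) ^ (2 * m - 2) * (1 / 2) ^ j with hB
  have hcont : ContinuousOn (fun x => σ * lamA m E x) (box r) := by
    apply ContinuousOn.mul continuousOn_const
    unfold lamA
    apply ContinuousOn.add
    · apply Continuous.continuousOn
      fun_prop
    · exact h.ecov 2 hJ
  have ho1 := hcont.isOpen_inter_preimage (ACB_isOpen_box r) (isOpen_Ioi (a := A))
  have ho2 := hcont.isOpen_inter_preimage (ACB_isOpen_box r) (isOpen_Ioi (a := B))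
  have h1 : MeasurableSet {x : ℝ × ℝ | 0 < x.1} := measurableSet_lt measurable_const measurable_fst
  have h2 : MeasurableSet {x : ℝ × ℝ | |x.2 - x.1 ^ m| ≤ C0 * x.1 ^ m} :=
    measurableSet_le (by fun_prop) (by fun_prop)
  have h3 : MeasurableSet {x : ℝ × ℝ | ϱ ^ (k + 1) < x.1} :=
    measurableSet_lt (by fun_prop) (by fun_prop)
  have h4 : MeasurableSet {x : ℝ × ℝ | x.1 ≤ ϱ ^ k} :=
    measurableSet_le (by fun_prop) (by fun_prop)
  have heq : pAC m E C0 r ϱ k j σ = (({x : ℝ × ℝ | 0 < x.1} ∩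
      {x : ℝ × ℝ | |x.2 - x.1 ^ m| ≤ C0 * x.1 ^ m}) ∩
      ({x : ℝ × ℝ | ϱ ^ (k + 1) < x.1} ∩ {x : ℝ × ℝ | x.1 ≤ ϱ ^ k})) ∩
      ((box r ∩ (fun x => σ * lamA m E x) ⁻¹' Set.Ioi A) \
        (box r ∩ (fun x => σ * lamA m E x) ⁻¹' Set.Ioi B)) := by
    ext x
    constructor
    · rintro ⟨⟨hx1, hx2, hx3⟩, hx4, hx5, hx6, hx7⟩
      refine ⟨⟨⟨hx2, hx3⟩, hx4, hx5⟩, ⟨hx1, hx6⟩, ?_⟩
      rintro ⟨-, hx8⟩
      exact absurd hx8 (not_lt.mpr hx7)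
    · rintro ⟨⟨⟨hx2, hx3⟩, hx4, hx5⟩, ⟨hx1, hx6⟩, hx8⟩
      refine ⟨⟨hx1, hx2, hx3⟩, hx4, hx5, hx6, ?_⟩
      by_contra hcon
      exact hx8 ⟨hx1, not_le.mp hcon⟩
  rw [heq]
  exact ((h1.inter h2).inter (h3.inter h4)).inter (ho1.measurableSet.diff ho2.measurableSet)

/-- JOB ACB.  Bound for the curvature pieces, `m ≥ 3`.

Proof.  `c0` from `ac_near m C0`; `c = min c0 (c_m²(1/2)^{2m-2})` (and anything positive smaller); `ϱ, ε` from `ac_far m c`.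
For `q ∈ (4,6)` take `C` from `ac_piece q K c`, `K = 4^m·(c_mC0+1)`-type constant (see below).  `r1`: from `GoodE` (first part `r0`; second
part with `N = 2m`, `J = 4`, `ε' = min 1 ε (2^{-2m})`), and so small that `(C0+1) r^{m-1} ≤ 1`, `r ≤ 1/2`.
Let `X = ϱ^k ≤ 1`, `κ = X^{m-2}`, `δ = L X^{2m-2}2^{-j}`, `S = X`, `P = pAC ..`.  Points of `P`: `ϱX < x₁ ≤ X`, `|x₂| ≤ (C0+1)x₁^m ≤ x₁`, so `‖x‖ ≤ X`.
`EData` with `ρ = X` gives `ε'X^{2m}` (weaken `e0` to `X^{2m}` resp. `εX^{2m}`: `EData` is monotone in `e0`).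
Slices: `lamA_slope` with `Y = ϱX ≥ X/2`: two points of a slice have `Y^{m-2}|v₁-v₂| ≤ |lamA-lamA'| ≤ δ/2`, so the measure is
`≤ 2^{m-2}δ/κ` (diameter bound).  `δ/2 = L X^{2m-2}2^{-(j+1)}`; if `δ > L X^{2m-2}` nothing to prove (`j ≥ 0` so `δ ≤ LX^{2m-2}`).
The near hypothesis is `ac_near`, the far hypothesis `ac_far` (`|lamA| ≤ δ` on `P`; the order `x₁' < x₁` follows from
`c√δ/κ < x₁-x₁'`).  Measurability of `P`: `lamA` is continuous on the box (`EData.ecov`).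
`C δ^{3/2-7/q} κ^{-2(1-4/q)} = C L^{3/2-7/q} X^{(2m-2)(3/2-7/q)-2(m-2)(1-4/q)} 2^{-j(3/2-7/q)}` and the exponent of `X` is
`(m+1)-(6m+2)/q`.  If `pAC` is empty the estimate is trivial. -/
theorem pac_bound (m : ℕ) (hm : 3 ≤ m) (g : ℝ × ℝ → ℝ) (E : ℝ × (ℝ × ℝ) → ℝ) (vs : ℝ → ℝ × ℝ → ℝ)
    (hG : GoodE m g E vs) (C0 : ℝ) (hC0 : 1 ≤ C0) : ∃ ϱ : ℝ, 3 / 4 ≤ ϱ ∧ ϱ < 1 ∧
    ∀ q : ℝ, 4 < q → q < 6 → ∃ C : ℝ, 0 < C ∧ ∃ r1 : ℝ, 0 < r1 ∧ ∀ r, 0 < r → r ≤ r1 →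
      ∀ (k j : ℕ) (σ : ℝ), IsSign σ → ∀ h : ℝ × ℝ → ℂ, BddMeas h →
        ∫⁻ ξ, ‖extOn (psi0 2 m g r) (pAC m E C0 r ϱ k j σ) h ξ‖ₑ ^ q ≤
          (ENNReal.ofReal (C * (ϱ ^ k) ^ (((m : ℝ) + 1) - (6 * m + 2) / q) *
            ((1 / 2 : ℝ) ^ j) ^ (3 / 2 - 7 / q)) * mass (pAC m E C0 r ϱ k j σ) h) ^ (q / 2) := by
  have hm3 : (3 : ℝ) ≤ m := by exact_mod_cast hm
  obtain ⟨c0, hc0, hnear⟩ := ac_near m hm C0 hC0
  have hcm : 0 < ((m : ℝ) * (m - 1)) ^ 2 * (1 / 2) ^ (2 * m - 2) := by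
    have : 0 < (m : ℝ) * (m - 1) := by nlinarith
    positivity
  set c : ℝ := min c0 (((m : ℝ) * (m - 1)) ^ 2 * (1 / 2) ^ (2 * m - 2)) with hcdef
  have hc : 0 < c := lt_min hc0 hcm
  have hcc0 : c ≤ c0 := min_le_left _ _
  obtain ⟨ϱ, hϱ, hϱ1, ε, hε, hfar⟩ := ac_far m hm c hc (min_le_right _ _)
  refine ⟨ϱ, hϱ, hϱ1, fun q hq4 hq6 => ?_⟩
  have hϱ0 : 0 < ϱ := by linarith
  set K : ℝ := 2 ^ (m - 2) with hKdef
  have hK : 0 < K := by positivity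
  obtain ⟨C, hC, hpiece⟩ := ac_piece q hq4 hq6 K c hK hc
  set Lc : ℝ := (m : ℝ) * (m - 1) * C0 + 1 with hLdef
  have hL : 0 < Lc := by
    have : 0 ≤ (m : ℝ) * (m - 1) * C0 := by
      have h1 : 0 ≤ (m : ℝ) * (m - 1) := by nlinarith
      positivity
    linarith
  obtain ⟨⟨r0, hr0, -, hr0'⟩, hG2⟩ := hG
  set ε' : ℝ := min (min 1 ε) (1 / 2 ^ (2 * m)) with hε'
  have hε'pos : 0 < ε' := lt_min (lt_min one_pos hε) (by positivity)
  obtain ⟨r1, hr1, hr1'⟩ := hG2 (2 * m) 4 ε' hε'pos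
  have hC01 : 0 < 1 / (C0 + 1) := by positivity
  refine ⟨C * Lc ^ (3 / 2 - 7 / q), mul_pos hC (Real.rpow_pos_of_pos hL _),
    min (min r0 r1) (1 / (C0 + 1)), lt_min (lt_min hr0 hr1) hC01, ?_⟩
  intro r hr hrle k j σ hσ h hh
  have hrr0 : r ≤ r0 := hrle.trans ((min_le_left _ _).trans (min_le_left _ _))
  have hrr1 : r ≤ r1 := hrle.trans ((min_le_left _ _).trans (min_le_right _ _))
  have hrC : r ≤ 1 / (C0 + 1) := hrle.trans (min_le_right _ _)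
  have hrC' : (C0 + 1) * r ≤ 1 := by
    rw [le_div_iff₀ (by linarith)] at hrC
    linarith
  have hr1le : r ≤ 1 := by nlinarith
  obtain ⟨hΨm, hMD⟩ := hr0' r hr hrr0
  set X : ℝ := ϱ ^ k with hX
  have hXpos : 0 < X := by positivity
  have hX1 : X ≤ 1 := pow_le_one₀ hϱ0.le hϱ1.le
  set κ : ℝ := X ^ (m - 2) with hκ
  have hκpos : 0 < κ := by positivity
  set T : ℝ := (1 / 2 : ℝ) ^ j with hT
  have hTpos : 0 < T := by positivity
  have hT1 : T ≤ 1 := pow_le_one₀ (by norm_num) (by norm_num)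
  set δ : ℝ := Lc * X ^ (2 * m - 2) * T with hδ
  have hδpos : 0 < δ := by positivity
  have hδle : δ ≤ Lc * X ^ (2 * m - 2) := by
    have : 0 < Lc * X ^ (2 * m - 2) := by positivity
    nlinarith
  have hX2m0 : 0 ≤ X ^ (2 * m) := by positivity
  have hED0 := hr1' r hr hrr1 X hXpos
  have hED1 : EData m (psi0 2 m g r) r E 4 X (X ^ (2 * m)) := ACB_mono hED0 (by
    calc ε' * X ^ (2 * m) ≤ 1 * X ^ (2 * m) :=
          mul_le_mul_of_nonneg_right ((min_le_left _ _).trans (min_le_left _ _)) hX2m0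
      _ = X ^ (2 * m) := one_mul _)
  have hEDε : EData m (psi0 2 m g r) r E 4 X (ε * X ^ (2 * m)) := ACB_mono hED0
    (mul_le_mul_of_nonneg_right ((min_le_left _ _).trans (min_le_right _ _)) hX2m0)
  -- points of the piece
  have hpt : ∀ x ∈ pAC m E C0 r ϱ k j σ, x ∈ box r ∧ 0 < x.1 ∧ ϱ * X < x.1 ∧ x.1 ≤ X ∧
      |x.2 - x.1 ^ m| ≤ C0 * X ^ m ∧ ‖x‖ ≤ X ∧ δ / 2 < σ * lamA m E x ∧ σ * lamA m E x ≤ δ ∧
      |lamA m E x| ≤ δ := by
    rintro x ⟨⟨hx1, hx2, hx3⟩, hx4, hx5, hx6, hx7⟩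
    have h1 : ϱ * X < x.1 := by
      rw [hX, ← pow_succ']
      exact hx4
    have h3 : |x.2 - x.1 ^ m| ≤ C0 * X ^ m :=
      hx3.trans (mul_le_mul_of_nonneg_left (pow_le_pow_left₀ hx2.le hx5 m) (by linarith))
    have hxr : x.1 < r := hx1.1.2
    have hx1m : 0 ≤ x.1 ^ m := by positivity
    have h4 : (C0 + 1) * x.1 ^ m ≤ x.1 := by
      have e1 : x.1 ^ m = x.1 ^ (m - 1) * x.1 := by
        rw [← pow_succ]
        congr 1
        omega
      have e2 : x.1 ^ (m - 1) ≤ r := by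
        calc x.1 ^ (m - 1) ≤ r ^ (m - 1) := pow_le_pow_left₀ hx2.le hxr.le _
          _ ≤ r ^ 1 := pow_le_pow_of_le_one hr.le hr1le (by omega)
          _ = r := pow_one r
      have e3 : (C0 + 1) * x.1 ^ (m - 1) ≤ 1 :=
        (mul_le_mul_of_nonneg_left e2 (by linarith)).trans hrC'
      calc (C0 + 1) * x.1 ^ m = ((C0 + 1) * x.1 ^ (m - 1)) * x.1 := by rw [e1]; ring
        _ ≤ 1 * x.1 := mul_le_mul_of_nonneg_right e3 hx2.le
        _ = x.1 := one_mul _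
    have h5 : ‖x‖ ≤ X := by
      rw [Prod.norm_def]
      apply max_le
      · rw [Real.norm_eq_abs, abs_of_pos hx2]
        exact hx5
      · rw [Real.norm_eq_abs]
        calc |x.2| = |(x.2 - x.1 ^ m) + x.1 ^ m| := by ring_nf
          _ ≤ |x.2 - x.1 ^ m| + |x.1 ^ m| := abs_add_le _ _
          _ ≤ C0 * x.1 ^ m + x.1 ^ m := by rw [abs_of_nonneg hx1m]; linarith
          _ ≤ X := by linarith
    have h6 : δ / 2 < σ * lamA m E x := by
      calc δ / 2 = Lc * X ^ (2 * m - 2) * (1 / 2) ^ (j + 1) := by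
            rw [hδ, hT, pow_succ]; ring
        _ < _ := hx6
    have h7 : σ * lamA m E x ≤ δ := hx7
    have h8 : |lamA m E x| ≤ δ := by
      rcases hσ with rfl | rfl
      · rw [abs_le]; constructor <;> linarith
      · rw [abs_le]; constructor <;> linarith
    exact ⟨hx1, hx2, h1, hx5, h3, h5, h6, h7, h8⟩
  have hsub : pAC m E C0 r ϱ k j σ ⊆ box r := fun x hx => (hpt x hx).1
  have hmeas : MeasurableSet (pAC m E C0 r ϱ k j σ) := ACB_meas hED1 (by norm_num) C0 ϱ k j σ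
  have key := hpiece (psi0 2 m g r) r (MM m E) vs (pAC m E C0 r ϱ k j σ) κ δ X hΨm hMD hmeas hsub
    hκpos hδpos hXpos ?_ ?_ ?_ ?_ h hh
  · have hexp : C * δ ^ (3 / 2 - 7 / q) * κ ^ (-(2 * (1 - 4 / q))) =
        C * Lc ^ (3 / 2 - 7 / q) * X ^ (((m : ℝ) + 1) - (6 * m + 2) / q) *
          T ^ (3 / 2 - 7 / q) := by
      have e1 : δ ^ (3 / 2 - 7 / q) = Lc ^ (3 / 2 - 7 / q) *
          X ^ (((2 * m - 2 : ℕ) : ℝ) * (3 / 2 - 7 / q)) * T ^ (3 / 2 - 7 / q) := by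
        rw [hδ, Real.mul_rpow (by positivity) hTpos.le, Real.mul_rpow hL.le (by positivity),
          ← Real.rpow_natCast X (2 * m - 2), ← Real.rpow_mul hXpos.le]
      have e2 : κ ^ (-(2 * (1 - 4 / q))) = X ^ (((m - 2 : ℕ) : ℝ) * (-(2 * (1 - 4 / q)))) := by
        rw [hκ, ← Real.rpow_natCast X (m - 2), ← Real.rpow_mul hXpos.le]
      have e3 : ((2 * m - 2 : ℕ) : ℝ) = 2 * m - 2 := by
        rw [Nat.cast_sub (by omega)]
        push_cast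
        ring
      have e4 : ((m - 2 : ℕ) : ℝ) = m - 2 := by
        rw [Nat.cast_sub (by omega)]
        push_cast
        ring
      have e5 : X ^ (((2 * m - 2 : ℕ) : ℝ) * (3 / 2 - 7 / q)) *
          X ^ (((m - 2 : ℕ) : ℝ) * (-(2 * (1 - 4 / q)))) =
          X ^ (((m : ℝ) + 1) - (6 * m + 2) / q) := by
        rw [← Real.rpow_add hXpos, e3, e4]
        congr 1
        have hq0 : q ≠ 0 := by linarith
        field_simp
        ring
      rw [e1, e2, ← e5]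
      ring
    rw [hexp] at key
    exact key
  · intro x hx x' hx'
    have h1 := (hpt x hx).2.2.2.1
    have h2 := (hpt x' hx').2.1
    linarith
  · intro u
    have hd : ∀ v1 ∈ {v : ℝ | (u, v) ∈ pAC m E C0 r ϱ k j σ},
        ∀ v2 ∈ {v : ℝ | (u, v) ∈ pAC m E C0 r ϱ k j σ}, dist v1 v2 ≤ K * δ / κ := by
      intro v1 hv1 v2 hv2
      obtain ⟨a1, a2, a3, a4, a5, a6, a7, a8, a9⟩ := hpt _ hv1
      obtain ⟨b1, b2, b3, b4, b5, b6, b7, b8, b9⟩ := hpt _ hv2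
      have hY : 0 < ϱ * X := by positivity
      have hYge : X / 2 ≤ ϱ * X := by nlinarith
      have hYpow : κ / K ≤ (ϱ * X) ^ (m - 2) := by
        calc κ / K = (X / 2) ^ (m - 2) := by rw [hκ, hKdef, div_pow]
          _ ≤ _ := pow_le_pow_left₀ (by positivity) hYge _
      have he0 : ε' * X ^ (2 * m) ≤ (ϱ * X) ^ (m - 2) := by
        calc ε' * X ^ (2 * m) ≤ (1 / 2 ^ (2 * m)) * X ^ (2 * m) :=
              mul_le_mul_of_nonneg_right (min_le_right _ _) hX2m0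
          _ = (X / 2) ^ (2 * m) := by rw [div_pow]; ring
          _ ≤ (X / 2) ^ (m - 2) :=
              pow_le_pow_of_le_one (by positivity) (by linarith) (by omega)
          _ ≤ _ := pow_le_pow_left₀ (by positivity) hYge _
      have hsl := lamA_slope m (by omega) (psi0 2 m g r) r E 4 X _ (by norm_num) hED0 u v1 v2
        (ϱ * X) a1 b1 a6 b6 hY a3.le he0
      have hdiff : |lamA m E (u, v1) - lamA m E (u, v2)| ≤ δ := by
        rcases hσ with rfl | rfl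
        · rw [abs_le]; constructor <;> linarith
        · rw [abs_le]; constructor <;> linarith
      have h1 : κ / K * |v1 - v2| ≤ δ :=
        (mul_le_mul_of_nonneg_right hYpow (abs_nonneg _)).trans (hsl.trans hdiff)
      rw [Real.dist_eq, le_div_iff₀ hκpos]
      rw [div_mul_eq_mul_div, div_le_iff₀ hK] at h1
      linarith
    have hK0 : 0 ≤ K * δ / κ := by positivity
    calc volume {v : ℝ | (u, v) ∈ pAC m E C0 r ϱ k j σ} ≤
        Metric.ediam {v : ℝ | (u, v) ∈ pAC m E C0 r ϱ k j σ} := Real.volume_le_diam _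
      _ ≤ ENNReal.ofReal (K * δ / κ) := by
        apply Metric.ediam_le
        intro v1 hv1 v2 hv2
        rw [edist_dist]
        exact ENNReal.ofReal_le_ofReal (hd v1 hv1 v2 hv2)
  · intro x hx x' hx' h1 h2 h3
    obtain ⟨a1, a2, a3, a4, a5, a6, a7, a8, a9⟩ := hpt _ hx
    obtain ⟨b1, b2, b3, b4, b5, b6, b7, b8, b9⟩ := hpt _ hx'
    exact hnear c hc hcc0 (psi0 2 m g r) r E X hr hXpos hX1 hED1 δ hδpos hδle x a1 x' b1 σ hσ b2
      (by linarith) a4 a5 b5 a6 b6 a7 b7 h2 h3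
  · intro x hx x' hx' h1
    obtain ⟨a1, a2, a3, a4, a5, a6, a7, a8, a9⟩ := hpt _ hx
    obtain ⟨b1, b2, b3, b4, b5, b6, b7, b8, b9⟩ := hpt _ hx'
    have h2 : x'.1 < x.1 := by
      have : 0 < c * Real.sqrt δ / κ := by positivity
      linarith
    exact hfar (psi0 2 m g r) r E X hr hXpos hX1 hEDε δ hδpos x a1 x' b1 b3 h2 a4 a6 b6 a9 b9 h1

end Pool.Agent.FlatRes
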