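import Pool.Agent.Lib.MP_40a0b6_an.N2PDef
import Pool.Agent.Lib.MP_40a0b6_an.N2Alg
set_option autoImplicit false
open MeasureTheory
open scoped ENNReal FourierTransform SchwartzMap
namespace Pool.Agent.FlatRes

theorem ACC_box_meas (r : ℝ) : MeasurableSet (box r) := measurableSet_Ioo.prod measurableSet_Ioo

theorem ACC_box_open (r : ℝ) : IsOpen (box r) := isOpen_Ioo.prod isOpen_Ioo

theorem ACC_reg_meas (m : ℕ) (C0 r : ℝ) : MeasurableSet (regAC m C0 r) := by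
  have h1 : MeasurableSet {x : ℝ × ℝ | 0 < x.1} := measurableSet_lt measurable_const measurable_fst
  have h2 : MeasurableSet {x : ℝ × ℝ | |x.2 - x.1 ^ m| ≤ C0 * x.1 ^ m} := by
    refine (isClosed_le ?_ ?_).measurableSet <;> fun_prop
  have : regAC m C0 r = box r ∩ ({x : ℝ × ℝ | 0 < x.1} ∩ {x : ℝ × ℝ | |x.2 - x.1 ^ m| ≤ C0 * x.1 ^ m}) := by
    ext x; rfl
  rw [this]
  exact (ACC_box_meas r).inter (h1.inter h2)

/-- points of `regAC` have norm at most `x.1` -/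
theorem ACC_norm (m : ℕ) (hm : 3 ≤ m) (C0 : ℝ) (hC0 : 1 ≤ C0) (r : ℝ) (hr : r ≤ 1 / (C0 + 1))
    (x : ℝ × ℝ) (hx : x ∈ regAC m C0 r) : ‖x‖ ≤ x.1 ∧ x.1 < 1 := by
  obtain ⟨hb, h0, hC⟩ := hx
  have hu : x.1 < r := (hb.1).2
  have hC1 : 0 < C0 + 1 := by linarith
  have hu1 : x.1 < 1 / (C0 + 1) := lt_of_lt_of_le hu hr
  have hlt1 : x.1 < 1 := by
    refine hu1.trans_le ?_
    rw [div_le_one hC1]; linarith
  refine ⟨?_, hlt1⟩
  have hp : x.1 ^ m ≤ x.1 * x.1 := by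
    calc x.1 ^ m ≤ x.1 ^ 2 := pow_le_pow_of_le_one h0.le hlt1.le (by omega)
      _ = x.1 * x.1 := by ring
  have h2 : |x.2| ≤ (C0 + 1) * x.1 ^ m := by
    have hpos : 0 ≤ x.1 ^ m := by positivity
    calc |x.2| = |(x.2 - x.1 ^ m) + x.1 ^ m| := by ring_nf
      _ ≤ |x.2 - x.1 ^ m| + |x.1 ^ m| := abs_add_le _ _
      _ ≤ C0 * x.1 ^ m + x.1 ^ m := by rw [abs_of_nonneg hpos]; linarith
      _ = _ := by ring
  have h3 : (C0 + 1) * x.1 ^ m ≤ x.1 := by
    have h4 : (C0 + 1) * x.1 ≤ 1 := by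
      have := (lt_div_iff₀ hC1).1 hu1
      linarith
    calc (C0 + 1) * x.1 ^ m ≤ (C0 + 1) * (x.1 * x.1) := mul_le_mul_of_nonneg_left hp hC1.le
      _ = ((C0 + 1) * x.1) * x.1 := by ring
      _ ≤ 1 * x.1 := mul_le_mul_of_nonneg_right h4 h0.le
      _ = x.1 := one_mul _
  rw [Prod.norm_def, max_le_iff, Real.norm_eq_abs, Real.norm_eq_abs, abs_of_pos h0]
  exact ⟨le_rfl, h2.trans h3⟩

theorem ACC_lam_cont (m : ℕ) (Ψ : ℝ × ℝ → ℝ) (r : ℝ) (E : ℝ × (ℝ × ℝ) → ℝ) (ρ e0 : ℝ)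
    (hE : EData m Ψ r E 2 ρ e0) : ContinuousOn (lamA m E) (box r) := by
  have h1 : ContinuousOn (fun x : ℝ × ℝ => -((m : ℝ) * (m - 1)) * x.1 ^ (m - 2) * (x.2 - x.1 ^ m))
      (box r) := by fun_prop
  exact h1.add (hE.ecov 2 le_rfl)

theorem ACC_lam_bound (m : ℕ) (hm : 3 ≤ m) (Ψ : ℝ × ℝ → ℝ) (r : ℝ) (E : ℝ × (ℝ × ℝ) → ℝ) (X : ℝ)
    (hE : EData m Ψ r E 2 X (1 * X ^ (2 * m))) (C0 : ℝ) (hC0 : 1 ≤ C0) (x : ℝ × ℝ)
    (hx : x ∈ regAC m C0 r) (hn : ‖x‖ ≤ x.1) (hX : x.1 ≤ X) (hX1 : X ≤ 1) :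
    |lamA m E x| ≤ ((m : ℝ) * (m - 1) * C0 + 1) * X ^ (2 * m - 2) := by
  obtain ⟨hb, h0, hC⟩ := hx
  have hX0 : 0 < X := h0.trans_le hX
  have he := hE.eval x hb (hn.trans hX) 2 le_rfl
  have hm1 : (1 : ℝ) ≤ m := by exact_mod_cast (by omega : 1 ≤ m)
  have hc : 0 ≤ (m : ℝ) * (m - 1) := mul_nonneg (by linarith) (by linarith)
  have h1 : |-((m : ℝ) * (m - 1)) * x.1 ^ (m - 2) * (x.2 - x.1 ^ m)|
      ≤ (m : ℝ) * (m - 1) * C0 * X ^ (2 * m - 2) := by
    rw [abs_mul, abs_mul, abs_neg, abs_of_nonneg hc, abs_of_nonneg (pow_nonneg h0.le _)]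
    have h2 : x.1 ^ (m - 2) * |x.2 - x.1 ^ m| ≤ X ^ (m - 2) * (C0 * X ^ m) := by
      refine mul_le_mul (pow_le_pow_left₀ h0.le hX _) ?_ (abs_nonneg _) (by positivity)
      exact hC.trans (mul_le_mul_of_nonneg_left (pow_le_pow_left₀ h0.le hX _) (by linarith))
    have h3 : X ^ (m - 2) * (C0 * X ^ m) = C0 * X ^ (2 * m - 2) := by
      have : 2 * m - 2 = (m - 2) + m := by omega
      rw [this, pow_add]; ring
    calc (m : ℝ) * (m - 1) * x.1 ^ (m - 2) * |x.2 - x.1 ^ m|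
        = (m : ℝ) * (m - 1) * (x.1 ^ (m - 2) * |x.2 - x.1 ^ m|) := by ring
      _ ≤ (m : ℝ) * (m - 1) * (C0 * X ^ (2 * m - 2)) := by
          rw [← h3]; exact mul_le_mul_of_nonneg_left h2 hc
      _ = _ := by ring
  have h4 : |eJ E 2 x| ≤ X ^ (2 * m - 2) := by
    refine he.trans ?_
    rw [one_mul]
    exact pow_le_pow_of_le_one hX0.le hX1 (by omega)
  rw [lamA]
  refine (abs_add_le _ _).trans ?_
  linarith

/-- JOB ACC.  The curvature pieces cover `regAC` up to a null set, `m ≥ 3`.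

Proof.  For `x ∈ regAC` with `lamA m E x ≠ 0`: `0 < x₁ < r < 1` lies in exactly one `(ϱ^{k+1}, ϱ^k]`; with `X = ϱ^k`:
`|lamA| ≤ c_m X^{m-2}·C0X^m + |eJ E 2 x| ≤ L X^{2m-2}` (`EData.eval` with `ρ = X`, `‖x‖ ≤ X`, `N = 2m`, `ε = 1`), so `|lamA|/(LX^{2m-2})` lies in
exactly one `(2^{-(j+1)},2^{-j}]`.  `{lamA = 0} ∩ regAC` is null: for fixed `x₁ = u` two such points `(u,v₁),(u,v₂)` coincide by
`lamA_slope` (`Y = u`, `ρ = u` — points of `regAC` have `‖x‖ ≤ x₁` for small `r` — `e0 = u^{2m} ≤ u^{m-2}`), Fubini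
(`Measure.measure_prod_null`).  Measurability: `lamA` is continuous on the box (`EData.ecov`, polynomial part). -/
theorem pac_cover (m : ℕ) (hm : 3 ≤ m) (g : ℝ × ℝ → ℝ) (E : ℝ × (ℝ × ℝ) → ℝ) (vs : ℝ → ℝ × ℝ → ℝ)
    (hG : GoodE m g E vs) (C0 : ℝ) (hC0 : 1 ≤ C0) (ϱ : ℝ) (hϱ0 : 3 / 4 ≤ ϱ) (hϱ1 : ϱ < 1) :
    ∃ r1 : ℝ, 0 < r1 ∧ ∀ r, 0 < r → r ≤ r1 →
      (∀ (k j : ℕ) (b : Bool), MeasurableSet (pAC m E C0 r ϱ k j (sgb b))) ∧
      Pairwise (Function.onFun Disjoint (fun i : ℕ × ℕ × Bool => pAC m E C0 r ϱ i.1 i.2.1 (sgb i.2.2))) ∧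
      MeasurableSet (regAC m C0 r) ∧
      volume (regAC m C0 r \ ⋃ i : ℕ × ℕ × Bool, pAC m E C0 r ϱ i.1 i.2.1 (sgb i.2.2)) = 0 := by
  obtain ⟨r2, hr2, hE⟩ := hG.2 (2 * m) 2 1 one_pos
  have hC1 : 0 < C0 + 1 := by linarith
  refine ⟨min r2 (1 / (C0 + 1)), lt_min hr2 (by positivity), fun r hr hrr => ?_⟩
  have hrA : r ≤ 1 / (C0 + 1) := hrr.trans (min_le_right _ _)
  have hE' := hE r hr (hrr.trans (min_le_left _ _))
  have hϱp : 0 < ϱ := by linarith
  have hm1 : (1 : ℝ) ≤ m := by exact_mod_cast (by omega : 1 ≤ m)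
  have hL : 0 < (m : ℝ) * (m - 1) * C0 + 1 := by
    have : 0 ≤ (m : ℝ) * (m - 1) * C0 :=
      mul_nonneg (mul_nonneg (by linarith) (by linarith)) (by linarith)
    linarith
  have hreg := ACC_reg_meas m C0 r
  have hcont := ACC_lam_cont m _ r E 1 _ (hE' 1 one_pos)
  -- a measurable version of `lamA`
  classical
  have hlm : Measurable ((box r).piecewise (lamA m E) (fun _ => 0)) :=
    hcont.measurable_piecewise continuousOn_const (ACC_box_meas r)
  have hset : ∀ p : ℝ → Prop, MeasurableSet {y : ℝ | p y} →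
      MeasurableSet {x | x ∈ regAC m C0 r ∧ p (lamA m E x)} := by
    intro p hp
    have : {x | x ∈ regAC m C0 r ∧ p (lamA m E x)}
        = regAC m C0 r ∩ ((box r).piecewise (lamA m E) (fun _ => 0)) ⁻¹' {y | p y} := by
      ext x
      simp only [Set.mem_ofPred_eq, Set.mem_inter_iff, Set.mem_preimage]
      refine and_congr_right fun hx => ?_
      rw [Set.piecewise_eq_of_mem _ _ _ hx.1]
    rw [this]
    exact hreg.inter (hlm hp)
  refine ⟨?_, ?_, hreg, ?_⟩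
  · intro k j b
    have e : pAC m E C0 r ϱ k j (sgb b) = {x | x ∈ regAC m C0 r ∧
        (((m : ℝ) * (m - 1) * C0 + 1) * (ϱ ^ k) ^ (2 * m - 2) * (1 / 2) ^ (j + 1)
          < sgb b * lamA m E x ∧
        sgb b * lamA m E x ≤ ((m : ℝ) * (m - 1) * C0 + 1) * (ϱ ^ k) ^ (2 * m - 2) * (1 / 2) ^ j)}
        ∩ {x : ℝ × ℝ | ϱ ^ (k + 1) < x.1 ∧ x.1 ≤ ϱ ^ k} := by
      ext x
      simp only [pAC, Set.mem_ofPred_eq, Set.mem_inter_iff]
      tauto
    rw [e]
    refine MeasurableSet.inter (hset (fun y =>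
      ((m : ℝ) * (m - 1) * C0 + 1) * (ϱ ^ k) ^ (2 * m - 2) * (1 / 2) ^ (j + 1) < sgb b * y ∧
      sgb b * y ≤ ((m : ℝ) * (m - 1) * C0 + 1) * (ϱ ^ k) ^ (2 * m - 2) * (1 / 2) ^ j) ?_) ?_
    · exact (measurableSet_lt measurable_const (measurable_const.mul measurable_id)).inter
        (measurableSet_le (measurable_const.mul measurable_id) measurable_const)
    · exact (measurableSet_lt measurable_const measurable_fst).inter
        (measurableSet_le measurable_fst measurable_const)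
  · rintro ⟨k, j, b⟩ ⟨k', j', b'⟩ hne
    rw [Function.onFun, Set.disjoint_left]
    rintro x ⟨_, h1, h2, h3, h4⟩ ⟨_, h1', h2', h3', h4'⟩
    have hk : k = k' := by
      rcases lt_trichotomy k k' with h | h | h
      · exact absurd (h2'.trans (pow_le_pow_of_le_one hϱp.le hϱ1.le (by omega : k + 1 ≤ k')))
          (not_le.2 h1)
      · exact h
      · exact absurd (h2.trans (pow_le_pow_of_le_one hϱp.le hϱ1.le (by omega : k' + 1 ≤ k)))
          (not_le.2 h1')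
    simp only at h3 h4 h3' h4'
    subst hk
    have hc : 0 < ((m : ℝ) * (m - 1) * C0 + 1) * (ϱ ^ k) ^ (2 * m - 2) := by positivity
    have p3 : 0 < sgb b * lamA m E x := lt_trans (by positivity) h3
    have p3' : 0 < sgb b' * lamA m E x := lt_trans (by positivity) h3'
    have hb : b = b' := by
      cases b <;> cases b' <;> simp only [sgb, if_true, Bool.false_eq_true, if_false] at p3 p3' ⊢ <;>
        first
        | rfl
        | (exfalso; linarith)
    subst hb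
    have hj : j = j' := by
      rcases lt_trichotomy j j' with h | h | h
      · refine absurd (h4'.trans (mul_le_mul_of_nonneg_left
          (pow_le_pow_of_le_one (by norm_num) (by norm_num) (by omega : j + 1 ≤ j')) hc.le))
          (not_le.2 h3)
      · exact h
      · refine absurd (h4.trans (mul_le_mul_of_nonneg_left
          (pow_le_pow_of_le_one (by norm_num) (by norm_num) (by omega : j' + 1 ≤ j)) hc.le))
          (not_le.2 h3')
    exact hne (by rw [hj])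
  · have hsub : regAC m C0 r \ ⋃ i : ℕ × ℕ × Bool, pAC m E C0 r ϱ i.1 i.2.1 (sgb i.2.2)
        ⊆ {x | x ∈ regAC m C0 r ∧ lamA m E x = 0} := by
      rintro x ⟨hx, hnot⟩
      refine ⟨hx, ?_⟩
      by_contra hne
      apply hnot
      obtain ⟨hn, hlt⟩ := ACC_norm m hm C0 hC0 r hrA x hx
      obtain ⟨k, hk1, hk2⟩ := exists_nat_pow_near_of_lt_one hx.2.1 hlt.le hϱp hϱ1
      have hX : 0 < ϱ ^ k := by positivity
      have hX1 : ϱ ^ k ≤ 1 := pow_le_one₀ hϱp.le hϱ1.le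
      have hb := ACC_lam_bound m hm _ r E (ϱ ^ k) (hE' _ hX) C0 hC0 x hx hn hk2 hX1
      have hc : 0 < ((m : ℝ) * (m - 1) * C0 + 1) * (ϱ ^ k) ^ (2 * m - 2) := by positivity
      have hz0 : 0 < |lamA m E x| / (((m : ℝ) * (m - 1) * C0 + 1) * (ϱ ^ k) ^ (2 * m - 2)) :=
        div_pos (abs_pos.2 hne) hc
      have hz1 : |lamA m E x| / (((m : ℝ) * (m - 1) * C0 + 1) * (ϱ ^ k) ^ (2 * m - 2)) ≤ 1 :=
        (div_le_one hc).2 hb
      obtain ⟨j, hj1, hj2⟩ := exists_nat_pow_near_of_lt_one hz0 hz1 (by norm_num : (0 : ℝ) < 1 / 2)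
        (by norm_num)
      rw [lt_div_iff₀ hc] at hj1
      rw [div_le_iff₀ hc] at hj2
      rw [Set.mem_iUnion]
      rcases lt_or_gt_of_ne hne with hneg | hpos
      · refine ⟨(k, j, false), hx, hk1, hk2, ?_, ?_⟩
        · simp only [sgb, Bool.false_eq_true, if_false]
          rw [abs_of_neg hneg] at hj1
          linarith
        · simp only [sgb, Bool.false_eq_true, if_false]
          rw [abs_of_neg hneg] at hj2
          linarith
      · refine ⟨(k, j, true), hx, hk1, hk2, ?_, ?_⟩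
        · simp only [sgb, if_true]
          rw [abs_of_pos hpos] at hj1
          linarith
        · simp only [sgb, if_true]
          rw [abs_of_pos hpos] at hj2
          linarith
    refine measure_mono_null hsub ?_
    have hmeas : MeasurableSet {x | x ∈ regAC m C0 r ∧ lamA m E x = 0} :=
      hset (fun y => y = 0) (measurableSet_singleton 0)
    rw [Measure.volume_eq_prod, Measure.measure_prod_null hmeas]
    refine Filter.Eventually.of_forall fun u => ?_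
    have hss : (Prod.mk u ⁻¹' {x | x ∈ regAC m C0 r ∧ lamA m E x = 0}).Subsingleton := by
      rintro v1 ⟨h1, h2⟩ v2 ⟨h3, h4⟩
      obtain ⟨n1, hlt⟩ := ACC_norm m hm C0 hC0 r hrA _ h1
      obtain ⟨n2, -⟩ := ACC_norm m hm C0 hC0 r hrA _ h3
      have hu : 0 < u := h1.2.1
      have hlt' : u < 1 := hlt
      have he : 1 * u ^ (2 * m) ≤ u ^ (m - 2) := by
        rw [one_mul]
        exact pow_le_pow_of_le_one hu.le hlt'.le (by omega)
      have := lamA_slope m (by omega) _ r E 2 u _ le_rfl (hE' u hu) u v1 v2 u h1.1 h3.1 n1 n2 hu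
        le_rfl he
      rw [h2, h4, sub_zero, abs_zero] at this
      have hp : 0 < u ^ (m - 2) := by positivity
      have h5 : |v1 - v2| ≤ 0 := by
        by_contra hcon
        push Not at hcon
        have := mul_pos hp hcon
        linarith
      exact sub_eq_zero.1 (abs_eq_zero.1 (le_antisymm h5 (abs_nonneg _)))
    exact hss.measure_zero _

end Pool.Agent.FlatRes
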