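import Pool.Agent.Lib.MP_40a0b6_an.N2M0
set_option autoImplicit false
open MeasureTheory
open scoped ENNReal FourierTransform SchwartzMap
namespace Pool.Agent.FlatRes

private theorem mder_hasDeriv {f : ℝ → ℝ} {U : Set ℝ} (hU : IsOpen U)
    (hf : ContDiffOn ℝ (⊤ : ℕ∞) f U) {t : ℝ} (ht : t ∈ U) (k : ℕ) :
    HasDerivAt (iteratedDeriv k f) (iteratedDeriv (k + 1) f t) t := by
  have h1 : DifferentiableOn ℝ (iteratedDerivWithin k f U) U :=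
    hf.differentiableOn_iteratedDerivWithin (by exact_mod_cast WithTop.coe_lt_top k)
      hU.uniqueDiffOn
  have h2 : DifferentiableAt ℝ (iteratedDerivWithin k f U) t :=
    (h1 t ht).differentiableAt (hU.mem_nhds ht)
  have h3 : iteratedDeriv k f =ᶠ[nhds t] iteratedDerivWithin k f U := by
    filter_upwards [hU.mem_nhds ht] with y hy
    exact (iteratedDerivWithin_of_isOpen hU hy).symm
  have h4 : DifferentiableAt ℝ (iteratedDeriv k f) t := h2.congr_of_eventuallyEq h3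
  have h5 := h4.hasDerivAt
  rwa [← iteratedDeriv_succ] at h5

private theorem mder_box {r : ℝ} {x : ℝ × ℝ} (hx : x ∈ box r) : 0 < r ∧ |x.1| < r ∧ |x.2| < r := by
  obtain ⟨h1, h2⟩ := hx
  have h3 : |x.1| < r := abs_lt.2 ⟨h1.1, h1.2⟩
  have h4 : |x.2| < r := abs_lt.2 ⟨h2.1, h2.2⟩
  exact ⟨lt_of_le_of_lt (abs_nonneg _) h3, h3, h4⟩

private theorem mder_sum {r : ℝ} {x x' : ℝ × ℝ} (hx : x ∈ box r) (hx' : x' ∈ box r) :
    |(x + x').1| ≤ 2 * r ∧ |(x + x').2| ≤ 2 * r := by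
  obtain ⟨-, h1, h2⟩ := mder_box hx
  obtain ⟨-, h3, h4⟩ := mder_box hx'
  constructor
  · show |x.1 + x'.1| ≤ 2 * r
    have := abs_add_le x.1 x'.1
    linarith
  · show |x.2 + x'.2| ≤ 2 * r
    have := abs_add_le x.2 x'.2
    linarith

private theorem mder_pair (x x' : ℝ × ℝ) :
    (x + x') = (2 * ((x.1 + x'.1) / 2), 2 * ((x.2 + x'.2) / 2)) := by
  ext
  · show x.1 + x'.1 = 2 * ((x.1 + x'.1) / 2)
    ring
  · show x.2 + x'.2 = 2 * ((x.2 + x'.2) / 2)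
    ring

private theorem mder_mem {r t : ℝ} (ht : |t| < 4 * r) : t ∈ Set.Ioo (-(4 * r)) (4 * r) :=
  ⟨(abs_lt.1 ht).1, (abs_lt.1 ht).2⟩

/-- JOB MDer (6 statements).  Derivatives of `MM m E t a = M0 m t a + E(t,a)` from `EData`; `a` with `|a_i| ≤ 2r`, `|t| < 4r`.
(`iteratedDeriv` of a function smooth on an open interval: `iteratedDeriv_succ`, `ContDiffOn.differentiableOn`, ...;
`hasDerivAt` of `iteratedDeriv k` is `iteratedDeriv (k+1)`.) -/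
theorem mm_hasDeriv (m : ℕ) (Ψ : ℝ × ℝ → ℝ) (r : ℝ) (E : ℝ × (ℝ × ℝ) → ℝ) (J : ℕ) (ρ e0 : ℝ)
    (hE : EData m Ψ r E J ρ e0) (a : ℝ × ℝ) (h1 : |a.1| ≤ 2 * r) (h2 : |a.2| ≤ 2 * r) (t : ℝ)
    (ht : |t| < 4 * r) (k : ℕ) :
    HasDerivAt (iteratedDeriv k (fun t => MM m E t a)) (iteratedDeriv (k + 1) (fun t => MM m E t a) t) t := by
  refine mder_hasDeriv isOpen_Ioo ?_ (mder_mem ht) k
  exact (m0_smooth m a).contDiffOn.add (hE.smooth a h1 h2)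

theorem mm_iter (m : ℕ) (Ψ : ℝ × ℝ → ℝ) (r : ℝ) (E : ℝ × (ℝ × ℝ) → ℝ) (J : ℕ) (ρ e0 : ℝ)
    (hE : EData m Ψ r E J ρ e0) (a : ℝ × ℝ) (h1 : |a.1| ≤ 2 * r) (h2 : |a.2| ≤ 2 * r) (t : ℝ)
    (ht : |t| < 4 * r) (k : ℕ) :
    iteratedDeriv k (fun t => MM m E t a) t =
      iteratedDeriv k (fun t => M0 m t a) t + iteratedDeriv k (fun t => E (t, a)) t := by
  have e1 : ContDiffAt ℝ k (fun t => M0 m t a) t :=
    (m0_smooth m a).contDiffAt.of_le (by exact_mod_cast le_top)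
  have e2 : ContDiffAt ℝ k (fun t => E (t, a)) t :=
    ((hE.smooth a h1 h2).contDiffAt (isOpen_Ioo.mem_nhds (mder_mem ht))).of_le
      (by exact_mod_cast le_top)
  exact iteratedDeriv_fun_add e1 e2

/-- `∂_z M(0;a) = 0`, `∂_z³ M(0;a) = 0` (`Gg m 1`, `Gg m 3` vanish at `z = 0`). -/
theorem mm_odd (m : ℕ) (Ψ : ℝ × ℝ → ℝ) (r : ℝ) (hr : 0 < r) (E : ℝ × (ℝ × ℝ) → ℝ) (J : ℕ) (ρ e0 : ℝ)
    (hE : EData m Ψ r E J ρ e0) (a : ℝ × ℝ) (h1 : |a.1| ≤ 2 * r) (h2 : |a.2| ≤ 2 * r) :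
    iteratedDeriv 1 (fun t => MM m E t a) 0 = 0 ∧ iteratedDeriv 3 (fun t => MM m E t a) 0 = 0 := by
  have h0 : |(0 : ℝ)| < 4 * r := by rw [abs_zero]; linarith
  have e : a.1 = 2 * (a.1 / 2) := by ring
  have g1 : Gg m 1 a.1 0 = 0 := by
    rw [e, gg_zero]
    norm_num
  have g3 : Gg m 3 a.1 0 = 0 := by
    rw [e, gg_zero]
    norm_num
  constructor
  · rw [mm_iter m Ψ r E J ρ e0 hE a h1 h2 0 h0 1, hE.odd1 a h1 h2, m0_iter m 1 le_rfl]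
    simp [Finset.sum_range_succ, g1]
  · rw [mm_iter m Ψ r E J ρ e0 hE a h1 h2 0 h0 3, hE.odd3 a h1 h2, m0_iter m 3 (by norm_num)]
    simp [Finset.sum_range_succ, g1, g3]

/-- `∂_z² M(0; x+x')` is `lamA` of the midpoint. -/
theorem mm_lamA (m : ℕ) (hm : 2 ≤ m) (Ψ : ℝ × ℝ → ℝ) (r : ℝ) (E : ℝ × (ℝ × ℝ) → ℝ) (J : ℕ) (ρ e0 : ℝ)
    (hE : EData m Ψ r E J ρ e0) (x x' : ℝ × ℝ) (hx : x ∈ box r) (hx' : x' ∈ box r) :
    iteratedDeriv 2 (fun t => MM m E t (x + x')) 0 = lamA m E ((x.1 + x'.1) / 2, (x.2 + x'.2) / 2) := by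
  obtain ⟨h1, h2⟩ := mder_sum hx hx'
  obtain ⟨hr, -, -⟩ := mder_box hx
  have h0 : |(0 : ℝ)| < 4 * r := by rw [abs_zero]; linarith
  rw [mm_iter m Ψ r E J ρ e0 hE (x + x') h1 h2 0 h0 2, m0_iter m 2 (by norm_num)]
  rw [mder_pair x x']
  unfold lamA eJ
  simp only
  congr 1
  simp only [Finset.sum_range_succ, Finset.sum_range_zero, gg_zero]
  have hm1 : m - 0 = m := Nat.sub_zero m
  rw [Nat.cast_descFactorial_two]
  simp only [Nat.descFactorial_zero, Nat.choose_zero_right, Nat.sub_zero]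
  norm_num
  ring

/-- `lamB` explicitly (`m` odd): `-A₁ x₁x₂ + A₂ x₁^{m+1} + eJ`, with `A₁ = m! 2^{3-m} > 0`. -/
theorem lamB_formula (m : ℕ) (hm : 3 ≤ m) (hodd : Odd m) : ∃ A2 : ℝ, ∀ (Ψ : ℝ × ℝ → ℝ) (r : ℝ)
    (E : ℝ × (ℝ × ℝ) → ℝ) (J : ℕ) (ρ e0 : ℝ), EData m Ψ r E J ρ e0 → ∀ x ∈ box r,
    lamB m E x = -((m.factorial : ℝ) * 8 / 2 ^ m) * x.1 * x.2 + A2 * x.1 ^ (m + 1) + eJ E (m - 1) x := by
  have heven : Even (m - 1) := by
    rcases hodd with ⟨k, hk⟩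
    exact ⟨k, by omega⟩
  refine ⟨(1 / 2) * ∑ i ∈ Finset.range (m - 1 + 1), ((m - 1).choose i : ℝ) *
    ((m.descFactorial i : ℝ) * (1 / 2) ^ i * (1 + (-1) ^ i)) *
    ((m.descFactorial (m - 1 - i) : ℝ) * (1 / 2) ^ (m - 1 - i) * (1 + (-1) ^ (m - 1 - i))), ?_⟩
  intro Ψ r E J ρ e0 hE x hx
  obtain ⟨hr, hx1, hx2⟩ := mder_box hx
  have h0 : |(0 : ℝ)| < 4 * r := by rw [abs_zero]; linarith
  have h1 : |((2 * x.1, 2 * x.2) : ℝ × ℝ).1| ≤ 2 * r := by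
    simp only
    rw [abs_mul, abs_two]
    linarith
  have h2 : |((2 * x.1, 2 * x.2) : ℝ × ℝ).2| ≤ 2 * r := by
    simp only
    rw [abs_mul, abs_two]
    linarith
  unfold lamB
  rw [mm_iter m Ψ r E J ρ e0 hE _ h1 h2 0 h0 (m - 1), m0_iter m (m - 1) (by omega)]
  unfold eJ
  congr 1
  simp only [gg_zero]
  have hdesc : (m.descFactorial (m - 1) : ℝ) = m.factorial := by
    obtain ⟨k, rfl⟩ : ∃ k, m = k + 1 := ⟨m - 1, by omega⟩
    rw [Nat.add_sub_cancel]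
    have h4 := Nat.descFactorial_succ (k + 1) k
    rw [Nat.descFactorial_self] at h4
    rw [h4]
    have h5 : k + 1 - k = 1 := by omega
    rw [h5, one_mul]
  have hsub : m - (m - 1) = 1 := by omega
  congr 1
  · rw [hdesc, hsub, heven.neg_one_pow, pow_one]
    have h6 : (2 : ℝ) ^ m = 2 ^ (m - 1) * 2 := by
      rw [← pow_succ]
      congr 1
      omega
    rw [h6, one_div, inv_pow]
    field_simp
    ring
  · rw [mul_assoc, Finset.sum_mul]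
    congr 1
    refine Finset.sum_congr rfl fun i hi => ?_
    rw [Finset.mem_range] at hi
    have h7 : x.1 ^ (m + 1) = x.1 ^ (m - i) * x.1 ^ (m - (m - 1 - i)) := by
      rw [← pow_add]
      congr 1
      omega
    rw [h7]
    ring

/-- `∂_z^{m-1} M(0; x+x')` is `lamB` of the midpoint. -/
theorem mm_lamB (m : ℕ) (E : ℝ × (ℝ × ℝ) → ℝ) (x x' : ℝ × ℝ) :
    iteratedDeriv (m - 1) (fun t => MM m E t (x + x')) 0 =
      lamB m E ((x.1 + x'.1) / 2, (x.2 + x'.2) / 2) := by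
  unfold lamB
  rw [mder_pair x x']

end Pool.Agent.FlatRes
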