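import Pool.Agent.Lib.MP_40a0b6_an.N2PDef
import Pool.Agent.Lib.MP_40a0b6_an.N2MDer
import Pool.Agent.Lib.MP_40a0b6_an.N2Alg
set_option autoImplicit false
open MeasureTheory
open scoped ENNReal FourierTransform SchwartzMap
namespace Pool.Agent.FlatRes

private theorem bc_box {r : ℝ} {x : ℝ × ℝ} (hx : x ∈ box r) : |x.1| < r ∧ |x.2| < r := by
  obtain ⟨h1, h2⟩ := hx
  exact ⟨abs_lt.2 ⟨h1.1, h1.2⟩, abs_lt.2 ⟨h2.1, h2.2⟩⟩

private theorem bc_open (r : ℝ) : IsOpen (box r) := isOpen_Ioo.prod isOpen_Ioo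

private theorem bc_meas_reg (m : ℕ) (C0 r : ℝ) : MeasurableSet (regB m C0 r) := by
  have h1 : MeasurableSet (box r) := (bc_open r).measurableSet
  have h2 : MeasurableSet {x : ℝ × ℝ | 0 < x.1} := measurableSet_lt measurable_const measurable_fst
  have h3 : MeasurableSet {x : ℝ × ℝ | C0 * x.1 ^ m < |x.2 - x.1 ^ m|} :=
    measurableSet_lt (Continuous.measurable (by fun_prop)) (Continuous.measurable (by fun_prop))
  exact h1.inter (h2.inter h3)

private theorem bc_meas_pB (m : ℕ) (C0 r : ℝ) (j : ℕ) (σ : ℝ) : MeasurableSet (pB m C0 r j σ) := by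
  have h1 := bc_meas_reg m C0 r
  have h2 : MeasurableSet {x : ℝ × ℝ | (1 / 2 : ℝ) ^ (j + 1) < σ * (x.2 - x.1 ^ m)} :=
    measurableSet_lt measurable_const (Continuous.measurable (by fun_prop))
  have h3 : MeasurableSet {x : ℝ × ℝ | σ * (x.2 - x.1 ^ m) ≤ (1 / 2 : ℝ) ^ j} :=
    measurableSet_le (Continuous.measurable (by fun_prop)) measurable_const
  exact h1.inter (h2.inter h3)

private theorem bc_half_lt {j j' : ℕ} (h : j < j') :
    (1 / 2 : ℝ) ^ j' ≤ (1 / 2 : ℝ) ^ (j + 1) :=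
  pow_le_pow_of_le_one (by norm_num) (by norm_num) h

private theorem bc_sgb (b : Bool) : sgb b = 1 ∨ sgb b = -1 := by
  cases b
  · right; rfl
  · left; rfl

private theorem bc_sign {y : ℝ} {b b' : Bool} (h : 0 < sgb b * y) (h' : 0 < sgb b' * y) :
    b = b' := by
  cases b <;> cases b' <;> first | rfl | (exfalso; simp only [sgb] at h h'; norm_num at h h'; linarith)

private theorem bc_eq {y : ℝ} {j j' : ℕ} {b b' : Bool} (h1 : (1 / 2 : ℝ) ^ (j + 1) < sgb b * y)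
    (h2 : sgb b * y ≤ (1 / 2 : ℝ) ^ j) (h1' : (1 / 2 : ℝ) ^ (j' + 1) < sgb b' * y)
    (h2' : sgb b' * y ≤ (1 / 2 : ℝ) ^ j') : j = j' ∧ b = b' := by
  have p : (0 : ℝ) < (1 / 2 : ℝ) ^ (j + 1) := by positivity
  have p' : (0 : ℝ) < (1 / 2 : ℝ) ^ (j' + 1) := by positivity
  have hb : b = b' := bc_sign (y := y) (by linarith) (by linarith)
  subst hb
  refine ⟨?_, rfl⟩
  rcases lt_trichotomy j j' with h | h | h
  · have := bc_half_lt h
    linarith
  · exact h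
  · have := bc_half_lt h
    linarith

private theorem bc_exists (m : ℕ) (hm : 3 ≤ m) (C0 r : ℝ) (hC0 : 1 ≤ C0) (hr : r ≤ 1 / 2)
    {x : ℝ × ℝ} (hx : x ∈ regB m C0 r) : ∃ (j : ℕ) (b : Bool), x ∈ pB m C0 r j (sgb b) := by
  have hx' := hx
  obtain ⟨h1, h2, h3⟩ := hx
  obtain ⟨b1, b2⟩ := bc_box h1
  have hp : 0 < x.1 ^ m := pow_pos h2 m
  have hy0 : 0 < |x.2 - x.1 ^ m| := by
    have : 0 < C0 * x.1 ^ m := mul_pos (by linarith) hp
    linarith
  have hx1 : x.1 < 1 / 2 := by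
    have := le_abs_self x.1
    linarith
  have hp1 : x.1 ^ m ≤ 1 / 2 := by
    calc x.1 ^ m ≤ x.1 ^ 1 := pow_le_pow_of_le_one h2.le (by linarith) (by omega)
      _ ≤ 1 / 2 := by rw [pow_one]; exact hx1.le
  have hy1 : |x.2 - x.1 ^ m| ≤ 1 := by
    have t := abs_sub x.2 (x.1 ^ m)
    rw [abs_of_pos hp] at t
    linarith
  obtain ⟨j, hj1, hj2⟩ := exists_nat_pow_near_of_lt_one hy0 hy1 (y := (1 / 2 : ℝ)) (by norm_num)
    (by norm_num)
  rcases le_total 0 (x.2 - x.1 ^ m) with h | h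
  · refine ⟨j, true, hx', ?_, ?_⟩
    · rw [abs_of_nonneg h] at hj1
      simpa [sgb] using hj1
    · rw [abs_of_nonneg h] at hj2
      simpa [sgb] using hj2
  · refine ⟨j, false, hx', ?_, ?_⟩
    · rw [abs_of_nonpos h] at hj1
      simpa [sgb] using hj1
    · rw [abs_of_nonpos h] at hj2
      simpa [sgb] using hj2

/-- JOB BC (2 statements).  The pieces away from the curve cover `regB` (up to a null set if `m` is odd); `C0` large, `r` small.

`pB`: `x ∈ regB` has `0 < |x₂-x₁^m| < 1`, exactly one `(2^{-(j+1)},2^{-j}]` and one sign.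
`pBo`: moreover `lamB ≠ 0`; `{lamB = 0} ∩ regB` is null: for fixed `x₂ = v`, if `(u,v),(u',v) ∈ pB .. j σ`, `u' < u`, then by `lamB_formula`
`|lamB(u,v)-lamB(u',v)| ≥ A₁(u-u')|v| - |A₂|(m+1)(V/C0)(u-u') - e0(u-u') > 0` with `V = 2^{-j}`, `|v| ≥ V/2-V/C0`, `e0 ≤ εV` (`EData.lip`, `ρ = 2V^{1/m}`,
`N = 2m`), `C0` large; so at most one zero on each horizontal slice of `pB .. j σ`: null by Fubini, countable union over `j, σ`.
Measurability: `lamB` is continuous on the box (`lamB_formula`, `EData.ecov`). -/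
theorem pb_cover (m : ℕ) (hm : 3 ≤ m) (C0 r : ℝ) (hC0 : 1 ≤ C0) (hr0 : 0 < r) (hr : r ≤ 1 / 2) :
      (∀ (j : ℕ) (b : Bool), MeasurableSet (pB m C0 r j (sgb b))) ∧
      Pairwise (Function.onFun Disjoint (fun i : ℕ × Bool => pB m C0 r i.1 (sgb i.2))) ∧
      regB m C0 r = ⋃ i : ℕ × Bool, pB m C0 r i.1 (sgb i.2) := by
  refine ⟨fun j b => bc_meas_pB m C0 r j (sgb b), ?_, ?_⟩
  · rintro ⟨j, b⟩ ⟨j', b'⟩ hne
    show Disjoint (pB m C0 r j (sgb b)) (pB m C0 r j' (sgb b'))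
    rw [Set.disjoint_left]
    rintro x ⟨-, h1, h2⟩ ⟨-, h1', h2'⟩
    obtain ⟨e1, e2⟩ := bc_eq h1 h2 h1' h2'
    exact hne (by rw [e1, e2])
  · ext x
    rw [Set.mem_iUnion]
    constructor
    · intro hx
      obtain ⟨j, b, h⟩ := bc_exists m hm C0 r hC0 hr hx
      exact ⟨(j, b), h⟩
    · rintro ⟨i, h⟩
      exact h.1

private theorem bc_pow_diff (m : ℕ) {u u' : ℝ} (h0 : 0 ≤ u') (h1 : u' < u) :
    |u ^ (m + 1) - u' ^ (m + 1)| ≤ (m + 1 : ℝ) * u ^ m * (u - u') := by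
  have hu : 0 < u := lt_of_le_of_lt h0 h1
  have h := pow_diff (m + 1) u u' u h0 h1.le le_rfl
  have h2 : u * |u ^ (m + 1) - u' ^ (m + 1)| ≤ u * ((m + 1 : ℝ) * u ^ m * (u - u')) := by
    refine h.trans (le_of_eq ?_)
    push_cast
    ring
  exact le_of_mul_le_mul_left h2 hu

/-- no two zeros on a horizontal slice -/
private theorem bc_slope (m : ℕ) (hm : 3 ≤ m) (A1 A2 C0 r e : ℝ) (hA : 0 < A1) (hC8 : 8 ≤ C0)
    (hCA : 8 * (|A2| * (m + 1)) ≤ A1 * C0) (hr : r ≤ 1 / 2) (f : ℝ × ℝ → ℝ) (he : e = A1 / 16)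
    (hf : ∀ x ∈ box r, ∀ x' ∈ box r, ∀ ρ : ℝ, 0 < ρ → ‖x‖ ≤ ρ → ‖x'‖ ≤ ρ →
      |f x - f x'| ≤ e * ρ ^ m * (|x.1 - x'.1| + |x.2 - x'.2|))
    {j : ℕ} {σ u u' v : ℝ} (hσ : σ = 1 ∨ σ = -1) (hx : (u, v) ∈ pB m C0 r j σ)
    (hx' : (u', v) ∈ pB m C0 r j σ) (huu : u' < u)
    (h0 : -A1 * u * v + A2 * u ^ (m + 1) + f (u, v) = 0)
    (h0' : -A1 * u' * v + A2 * u' ^ (m + 1) + f (u', v) = 0) : False := by
  obtain ⟨⟨hb, hu, hc⟩, hl, hu2⟩ := hx
  obtain ⟨⟨hb', hu', hc'⟩, hl', hu2'⟩ := hx'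
  simp only at hu hc hl hu2 hu' hc' hl' hu2'
  obtain ⟨b1, b2⟩ := bc_box hb
  obtain ⟨b1', b2'⟩ := bc_box hb'
  simp only at b1 b2 b1' b2'
  obtain ⟨V, hV⟩ : ∃ V, V = (1 / 2 : ℝ) ^ j := ⟨_, rfl⟩
  have hVpos : 0 < V := by rw [hV]; positivity
  rw [pow_succ, ← hV] at hl hl'
  rw [← hV] at hu2 hu2'
  have habs : |v - u ^ m| ≤ V ∧ V / 2 < |v - u ^ m| := by
    rcases hσ with rfl | rfl
    · rw [one_mul] at hl hu2
      have : 0 ≤ v - u ^ m := by linarith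
      rw [abs_of_nonneg this]
      constructor <;> linarith
    · have : v - u ^ m ≤ 0 := by linarith
      rw [abs_of_nonpos this]
      constructor <;> linarith
  obtain ⟨k1, k2⟩ := habs
  have hp : 0 < u ^ m := pow_pos hu m
  have hpc : C0 * u ^ m ≤ V := by linarith
  have hp8 : 8 * u ^ m ≤ V := by
    have : 8 * u ^ m ≤ C0 * u ^ m := mul_le_mul_of_nonneg_right hC8 hp.le
    linarith
  have hv1 : V * (3 / 8) ≤ |v| := by
    have t := abs_sub v (u ^ m)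
    rw [abs_of_pos hp] at t
    linarith
  have hv2 : |v| ≤ 2 * V := by
    have t : |v| ≤ |v - u ^ m| + |u ^ m| := by
      have := abs_add_le (v - u ^ m) (u ^ m)
      rwa [sub_add_cancel] at this
    rw [abs_of_pos hp] at t
    linarith
  -- the flat part
  obtain ⟨ρ, hρ⟩ : ∃ ρ, ρ = max u |v| := ⟨_, rfl⟩
  have hρ0 : 0 < ρ := by rw [hρ]; exact lt_max_of_lt_left hu
  have n1 : ‖((u, v) : ℝ × ℝ)‖ ≤ ρ := by
    rw [Prod.norm_def, hρ]
    simp only [Real.norm_eq_abs]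
    rw [abs_of_pos hu]
  have n2 : ‖((u', v) : ℝ × ℝ)‖ ≤ ρ := by
    rw [Prod.norm_def, hρ]
    simp only [Real.norm_eq_abs]
    rw [abs_of_pos hu']
    exact max_le_max huu.le le_rfl
  have hρm : ρ ^ m ≤ 2 * V := by
    rcases max_choice u |v| with h | h
    · rw [hρ, h]
      linarith
    · rw [hρ, h]
      calc |v| ^ m ≤ |v| ^ 1 := pow_le_pow_of_le_one (abs_nonneg _) (by linarith) (by omega)
        _ ≤ 2 * V := by rw [pow_one]; exact hv2
  have hflat := hf (u, v) hb (u', v) hb' ρ hρ0 n1 n2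
  simp only [sub_self, abs_zero, add_zero] at hflat
  have hd : 0 < u - u' := by linarith
  rw [abs_of_pos hd] at hflat
  have hflat2 : |f (u, v) - f (u', v)| ≤ A1 * V / 8 * (u - u') := by
    refine hflat.trans (mul_le_mul_of_nonneg_right ?_ hd.le)
    rw [he]
    have : A1 / 16 * ρ ^ m ≤ A1 / 16 * (2 * V) := mul_le_mul_of_nonneg_left hρm (by positivity)
    linarith
  have hpd := bc_pow_diff m hu'.le huu
  have hA2 : |A2 * u ^ (m + 1) - A2 * u' ^ (m + 1)| ≤ A1 * V / 8 * (u - u') := by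
    rw [← mul_sub, abs_mul]
    calc |A2| * |u ^ (m + 1) - u' ^ (m + 1)|
        ≤ |A2| * ((m + 1 : ℝ) * u ^ m * (u - u')) :=
          mul_le_mul_of_nonneg_left hpd (abs_nonneg _)
      _ = (|A2| * (m + 1)) * u ^ m * (u - u') := by ring
      _ ≤ A1 * V / 8 * (u - u') := by
          refine mul_le_mul_of_nonneg_right ?_ hd.le
          have s1 : 8 * (|A2| * (m + 1)) * u ^ m ≤ A1 * C0 * u ^ m :=
            mul_le_mul_of_nonneg_right hCA hp.le
          have s2 : A1 * (C0 * u ^ m) ≤ A1 * V := mul_le_mul_of_nonneg_left hpc hA.le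
          nlinarith
  have hmain : A1 * (u - u') * v =
      (A2 * u ^ (m + 1) - A2 * u' ^ (m + 1)) + (f (u, v) - f (u', v)) := by
    linear_combination h0' - h0
  have habs2 : A1 * (u - u') * |v| ≤ A1 * V / 8 * (u - u') + A1 * V / 8 * (u - u') := by
    have e1 : |A1 * (u - u') * v| = A1 * (u - u') * |v| := by
      rw [abs_mul, abs_of_pos (mul_pos hA hd)]
    rw [← e1, hmain]
    exact (abs_add_le _ _).trans (add_le_add hA2 hflat2)
  have s3 : A1 * (u - u') * (V * (3 / 8)) ≤ A1 * (u - u') * |v| :=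
    mul_le_mul_of_nonneg_left hv1 (mul_pos hA hd).le
  have s4 : 0 < A1 * (u - u') * V := mul_pos (mul_pos hA hd) hVpos
  nlinarith

theorem pbo_cover (m : ℕ) (hm : 3 ≤ m) (hodd : Odd m) : ∃ C1 : ℝ, 1 ≤ C1 ∧ ∀ C0 : ℝ, C1 ≤ C0 →
    ∀ (g : ℝ × ℝ → ℝ) (E : ℝ × (ℝ × ℝ) → ℝ) (vs : ℝ → ℝ × ℝ → ℝ), GoodE m g E vs →
    ∃ r1 : ℝ, 0 < r1 ∧ ∀ r, 0 < r → r ≤ r1 →
      (∀ (j : ℕ) (b b' : Bool), MeasurableSet (pBo m E C0 r j (sgb b) (sgb b'))) ∧
      Pairwise (Function.onFun Disjoint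
        (fun i : ℕ × Bool × Bool => pBo m E C0 r i.1 (sgb i.2.1) (sgb i.2.2))) ∧
      MeasurableSet (regB m C0 r) ∧
      (⋃ i : ℕ × Bool × Bool, pBo m E C0 r i.1 (sgb i.2.1) (sgb i.2.2)) ⊆ regB m C0 r ∧
      volume (regB m C0 r \ ⋃ i : ℕ × Bool × Bool, pBo m E C0 r i.1 (sgb i.2.1) (sgb i.2.2)) = 0 := by
  obtain ⟨A2, hlam⟩ := lamB_formula m hm hodd
  obtain ⟨A1, hA1⟩ : ∃ A1 : ℝ, A1 = (m.factorial : ℝ) * 8 / 2 ^ m := ⟨_, rfl⟩
  have hA : 0 < A1 := by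
    rw [hA1]
    have := Nat.factorial_pos m
    positivity
  refine ⟨max 8 (8 * (|A2| * (m + 1)) / A1), le_trans (by norm_num) (le_max_left _ _), ?_⟩
  intro C0 hC g E vs hG
  have hC8 : 8 ≤ C0 := le_trans (le_max_left _ _) hC
  have hCA : 8 * (|A2| * (m + 1)) ≤ A1 * C0 := by
    have h1 : 8 * (|A2| * (m + 1)) / A1 ≤ C0 := le_trans (le_max_right _ _) hC
    rw [div_le_iff₀ hA] at h1
    linarith
  obtain ⟨r1, hr1, hE⟩ := hG.2 m (m - 1) (A1 / 16) (by positivity)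
  refine ⟨min r1 (1 / 2), lt_min hr1 (by norm_num), ?_⟩
  intro r hr0 hr
  have hrr1 : r ≤ r1 := hr.trans (min_le_left _ _)
  have hr2 : r ≤ 1 / 2 := hr.trans (min_le_right _ _)
  have hform : ∀ x ∈ box r, lamB m E x = -A1 * x.1 * x.2 + A2 * x.1 ^ (m + 1) + eJ E (m - 1) x := by
    intro x hx
    rw [hlam _ r E (m - 1) 1 _ (hE r hr0 hrr1 1 one_pos) x hx, hA1]
  have hcont : ContinuousOn (lamB m E) (box r) := by
    have h1 : ContinuousOn (fun x : ℝ × ℝ => -A1 * x.1 * x.2 + A2 * x.1 ^ (m + 1) + eJ E (m - 1) x)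
        (box r) := by
      refine ContinuousOn.add (Continuous.continuousOn (by fun_prop)) ?_
      exact (hE r hr0 hrr1 1 one_pos).ecov (m - 1) le_rfl
    exact h1.congr hform
  have hmeas : ∀ (j : ℕ) (b b' : Bool), MeasurableSet (pBo m E C0 r j (sgb b) (sgb b')) := by
    intro j b b'
    have h1 : IsOpen (box r ∩ (fun x => sgb b' * lamB m E x) ⁻¹' Set.Ioi 0) :=
      (continuousOn_const.mul hcont).isOpen_inter_preimage (bc_open r) isOpen_Ioi
    have h2 : pBo m E C0 r j (sgb b) (sgb b') =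
        pB m C0 r j (sgb b) ∩ (box r ∩ (fun x => sgb b' * lamB m E x) ⁻¹' Set.Ioi 0) := by
      ext x
      constructor
      · rintro ⟨h, h'⟩
        exact ⟨h, h.1.1, h'⟩
      · rintro ⟨h, -, h'⟩
        exact ⟨h, h'⟩
    rw [h2]
    exact (bc_meas_pB m C0 r j (sgb b)).inter h1.measurableSet
  refine ⟨hmeas, ?_, bc_meas_reg m C0 r, ?_, ?_⟩
  · rintro ⟨j, b, c⟩ ⟨j', b', c'⟩ hne
    show Disjoint (pBo m E C0 r j (sgb b) (sgb c)) (pBo m E C0 r j' (sgb b') (sgb c'))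
    rw [Set.disjoint_left]
    rintro x ⟨⟨-, h1, h2⟩, h3⟩ ⟨⟨-, h1', h2'⟩, h3'⟩
    obtain ⟨e1, e2⟩ := bc_eq h1 h2 h1' h2'
    have e3 := bc_sign h3 h3'
    exact hne (by rw [e1, e2, e3])
  · intro x hx
    rw [Set.mem_iUnion] at hx
    obtain ⟨i, h⟩ := hx
    exact h.1.1
  · -- the null set
    obtain ⟨Z, hZ⟩ : ∃ Z : ℕ × Bool → Set (ℝ × ℝ), Z = fun i =>
        (pB m C0 r i.1 (sgb i.2) ∩ (box r \ ((box r ∩ (lamB m E) ⁻¹' Set.Ioi 0) ∪
          (box r ∩ (lamB m E) ⁻¹' Set.Iio 0)))) := ⟨_, rfl⟩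
    have hZm : ∀ i, MeasurableSet (Z i) := by
      intro i
      rw [hZ]
      have o1 := hcont.isOpen_inter_preimage (bc_open r) (isOpen_Ioi (a := (0 : ℝ)))
      have o2 := hcont.isOpen_inter_preimage (bc_open r) (isOpen_Iio (a := (0 : ℝ)))
      exact (bc_meas_pB m C0 r i.1 (sgb i.2)).inter
        ((bc_open r).measurableSet.diff (o1.measurableSet.union o2.measurableSet))
    have hZ0 : ∀ i, ∀ x ∈ Z i, x ∈ pB m C0 r i.1 (sgb i.2) ∧ lamB m E x = 0 := by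
      intro i x hx
      rw [hZ] at hx
      obtain ⟨h1, h2, h3⟩ := hx
      refine ⟨h1, ?_⟩
      rcases lt_trichotomy (lamB m E x) 0 with h | h | h
      · exact absurd (Or.inr ⟨h2, h⟩) h3
      · exact h
      · exact absurd (Or.inl ⟨h2, h⟩) h3
    have hsub : (regB m C0 r \ ⋃ i : ℕ × Bool × Bool,
        pBo m E C0 r i.1 (sgb i.2.1) (sgb i.2.2)) ⊆ ⋃ i, Z i := by
      rintro x ⟨hx, hn⟩
      obtain ⟨j, b, h⟩ := bc_exists m hm C0 r (by linarith) hr2 hx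
      rw [Set.mem_iUnion]
      refine ⟨(j, b), ?_⟩
      rw [hZ]
      refine ⟨h, hx.1, ?_⟩
      rintro (h' | h')
      · apply hn
        rw [Set.mem_iUnion]
        refine ⟨(j, b, true), h, ?_⟩
        show 0 < sgb true * lamB m E x
        have h2 : 0 < lamB m E x := h'.2
        simpa [sgb] using h2
      · apply hn
        rw [Set.mem_iUnion]
        refine ⟨(j, b, false), h, ?_⟩
        show 0 < sgb false * lamB m E x
        have h2 : lamB m E x < 0 := h'.2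
        simpa [sgb] using h2
    refine measure_mono_null hsub ?_
    rw [measure_iUnion_null_iff]
    intro i
    rw [Measure.volume_eq_prod, Measure.prod_apply_symm (hZm i)]
    rw [lintegral_eq_zero_iff' (Measurable.aemeasurable (measurable_measure_prodMk_right (hZm i)))]
    refine Filter.Eventually.of_forall ?_
    intro v
    show volume ((fun u => (u, v)) ⁻¹' Z i) = 0
    apply Set.Subsingleton.measure_zero
    have key : ∀ u u' : ℝ, (u, v) ∈ Z i → (u', v) ∈ Z i → u' < u → False := by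
      intro u u' h h' huu
      obtain ⟨p1, p2⟩ := hZ0 i _ h
      obtain ⟨p1', p2'⟩ := hZ0 i _ h'
      rw [hform _ p1.1.1] at p2
      rw [hform _ p1'.1.1] at p2'
      refine bc_slope m hm A1 A2 C0 r (A1 / 16) hA hC8 hCA hr2 (eJ E (m - 1)) rfl ?_
        (bc_sgb i.2) p1 p1' huu p2 p2'
      intro x hx x' hx' ρ hρ hn hn'
      exact (hE r hr0 hrr1 ρ hρ).lip x hx x' hx' hn hn' (m - 1) le_rfl
    intro u hu u' hu'
    rcases lt_trichotomy u u' with h | h | h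
    · exact (key u' u hu' hu h).elim
    · exact h
    · exact (key u u' hu hu' h).elim

end Pool.Agent.FlatRes
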