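import Pool.Agent.Lib.MP_40a0b6_an.N2MDer
import Pool.Agent.Lib.MP_40a0b6_an.N2Alg
set_option autoImplicit false
open MeasureTheory
open scoped ENNReal FourierTransform SchwartzMap
namespace Pool.Agent.FlatRes

private theorem beven_sum (m : ℕ) (a1 t W : ℝ) (h1 : |(a1 + t) / 2| ≤ W)
    (h2 : |(a1 - t) / 2| ≤ W) :
    |∑ i ∈ Finset.range (m + 1), (m.choose i : ℝ) * Gg m i a1 t * Gg m (m - i) a1 t| ≤
      2 ^ m * (4 * (m.factorial : ℝ) ^ 2 * W ^ m) := by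
  have hW : 0 ≤ W := (abs_nonneg _).trans h1
  calc |∑ i ∈ Finset.range (m + 1), (m.choose i : ℝ) * Gg m i a1 t * Gg m (m - i) a1 t|
      ≤ ∑ i ∈ Finset.range (m + 1), |(m.choose i : ℝ) * Gg m i a1 t * Gg m (m - i) a1 t| :=
        Finset.abs_sum_le_sum_abs _ _
    _ ≤ ∑ i ∈ Finset.range (m + 1), (m.choose i : ℝ) * (4 * (m.factorial : ℝ) ^ 2 * W ^ m) := by
        refine Finset.sum_le_sum ?_
        intro i hi
        have hi' : i ≤ m := Nat.lt_succ_iff.1 (Finset.mem_range.1 hi)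
        have b1 := gg_bound m i hi' a1 t W h1 h2
        have b2 := gg_bound m (m - i) (Nat.sub_le _ _) a1 t W h1 h2
        have e : m - (m - i) = i := by omega
        rw [e] at b2
        rw [mul_assoc, abs_mul, abs_mul, abs_of_nonneg (Nat.cast_nonneg (m.choose i))]
        refine mul_le_mul_of_nonneg_left ?_ (Nat.cast_nonneg _)
        calc |Gg m i a1 t| * |Gg m (m - i) a1 t|
            ≤ (2 * (m.factorial : ℝ) * W ^ (m - i)) * (2 * (m.factorial : ℝ) * W ^ i) :=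
              mul_le_mul b1 b2 (abs_nonneg _) (by positivity)
          _ = 4 * (m.factorial : ℝ) ^ 2 * (W ^ (m - i) * W ^ i) := by ring
          _ = 4 * (m.factorial : ℝ) ^ 2 * W ^ m := by rw [← pow_add, Nat.sub_add_cancel hi']
    _ = 2 ^ m * (4 * (m.factorial : ℝ) ^ 2 * W ^ m) := by
        rw [← Finset.sum_mul]
        congr 1
        exact_mod_cast Nat.sum_range_choose m

private theorem beven_sign {σ y V : ℝ} (hσ : IsSign σ) (hV : 0 < V) (h1 : V / 2 < σ * y)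
    (h2 : σ * y ≤ V) : |y| = σ * y := by
  rcases hσ with rfl | rfl
  · rw [one_mul] at h1 ⊢
    exact abs_of_pos (by linarith)
  · have : y < 0 := by linarith
    rw [abs_of_neg this]
    ring

private theorem beven_abs {σ : ℝ} (hσ : IsSign σ) (y : ℝ) : -|y| ≤ σ * y := by
  rcases hσ with rfl | rfl
  · rw [one_mul]
    exact neg_abs_le y
  · have := le_abs_self y
    linarith

private theorem beven_abs' {σ : ℝ} (hσ : IsSign σ) (y : ℝ) : σ * y ≤ |y| := by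
  rcases hσ with rfl | rfl
  · rw [one_mul]
    exact le_abs_self y
  · have := neg_abs_le y
    linarith

private theorem beven_top (m : ℕ) (heven : Even m) (a1 t : ℝ) :
    Gg m m a1 t = 2 * (m.factorial : ℝ) / 2 ^ m := by
  unfold Gg
  rw [Nat.sub_self, pow_zero, pow_zero, heven.neg_one_pow, Nat.descFactorial_self]
  rw [div_pow, one_pow]
  ring

/-- JOB BEven.  Condition on `∂_z^m M` away from the curve, `m` even.

Proof.  `V = X^m`, `y = x₂-x₁^m`, `y'`; `σy, σy' ∈ (V/2,V]`, `C0 x₁^m < |y| ≤ V`: `x₁, x₁' ≤ Z := (V/C0)^{1/m} ≤ X` (state it as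
`C0 x₁^m < X^m`); `‖x‖,‖x'‖ ≤ 2X`.  `a = x+x'`: `σa₂ = σ(y+y') + σ(x₁^m+x₁'^m) ≥ V - 2V/C0`.  For `t ∈ (s,2s)` both points
`(a₁±t)/2` are `≤ 2max(x₁,x₁')` in absolute value, so their `m`-th powers are `≤ 2^mV/C0`; `|G_i(t)||G_{m-i}(t)| ≤ 4(m!)²·(2x₁)^m`
for all `i ≤ m` (`gg_bound`).  `m0_iter` with `j = m` (`Gg m m = 2·m!/2^m`):
`σ∂_z^mM0 ≤ -(V/2)·2 m!/2^m + 2^m·4(m!)²·2^mV/C0`, and `|∂_z^mE| ≤ εX^{2m}`.  For `C0` large, `ε` small:
`-σ∂_z^mM ≥ (m!/2^{m+1})V`; `c = m!/2^{m+1}`. -/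
theorem b_even (m : ℕ) (hm : 4 ≤ m) (heven : Even m) : ∃ C1 : ℝ, 1 ≤ C1 ∧ ∀ C0 : ℝ, C1 ≤ C0 →
    ∃ c : ℝ, 0 < c ∧ ∃ ε : ℝ, 0 < ε ∧
    ∀ (Ψ : ℝ × ℝ → ℝ) (r : ℝ) (E : ℝ × (ℝ × ℝ) → ℝ) (X : ℝ), 0 < r → 0 < X → X ≤ 1 →
    EData m Ψ r E m (2 * X) (ε * X ^ (2 * m)) →
    ∀ x ∈ box r, ∀ x' ∈ box r, ∀ σ : ℝ, IsSign σ → 0 < x'.1 → x'.1 < x.1 →
    C0 * x.1 ^ m < |x.2 - x.1 ^ m| → C0 * x'.1 ^ m < |x'.2 - x'.1 ^ m| →
    X ^ m / 2 < σ * (x.2 - x.1 ^ m) → σ * (x.2 - x.1 ^ m) ≤ X ^ m →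
    X ^ m / 2 < σ * (x'.2 - x'.1 ^ m) → σ * (x'.2 - x'.1 ^ m) ≤ X ^ m →
    ∀ s : ℝ, 0 < s → s < x.1 - x'.1 → x.1 - x'.1 ≤ 2 * s →
    OrdProp (fun t => MM m E t (x + x')) s (2 * s) m (c * X ^ m) := by
  have hF : (1 : ℝ) ≤ (m.factorial : ℝ) := by exact_mod_cast Nat.factorial_pos m
  have h8 : (1 : ℝ) ≤ 8 ^ m := one_le_pow₀ (by norm_num)
  have h2m : (0 : ℝ) < 2 ^ m := by positivity
  refine ⟨8 * (m.factorial : ℝ) * 8 ^ m, ?_, ?_⟩
  · nlinarith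
  intro C0 hC0
  have hC8 : (8 : ℝ) ≤ C0 := by nlinarith
  have hCpos : 0 < C0 := by linarith
  refine ⟨(m.factorial : ℝ) / 2 ^ m / 2, by positivity, (m.factorial : ℝ) / 2 ^ m / 4,
    by positivity, ?_⟩
  intro Ψ r E X hr hX hX1 hE x hx x' hx' σ hσ hx'0 hlt hc hc' hy1 hy2 hy1' hy2' s hs hs1 hs2
  have hV : 0 < X ^ m := pow_pos hX m
  have hV1 : X ^ m ≤ X := pow_le_of_le_one hX.le hX1 (by omega)
  have hV2 : X ^ (2 * m) ≤ X ^ m := pow_le_pow_of_le_one hX.le hX1 (by omega)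
  have hx0 : 0 < x.1 := hx'0.trans hlt
  rw [beven_sign hσ hV hy1 hy2] at hc
  rw [beven_sign hσ hV hy1' hy2'] at hc'
  have hcx : C0 * x.1 ^ m < X ^ m := lt_of_lt_of_le hc hy2
  have hcx' : C0 * x'.1 ^ m < X ^ m := lt_of_lt_of_le hc' hy2'
  have hp : 0 < x.1 ^ m := pow_pos hx0 m
  have hp' : 0 < x'.1 ^ m := pow_pos hx'0 m
  have hk8 : 8 * x.1 ^ m ≤ C0 * x.1 ^ m := mul_le_mul_of_nonneg_right hC8 hp.le
  have hk8' : 8 * x'.1 ^ m ≤ C0 * x'.1 ^ m := mul_le_mul_of_nonneg_right hC8 hp'.le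
  have hu : x.1 < X := by
    refine lt_of_pow_lt_pow_left₀ m hX.le ?_
    linarith
  have hax : |x.2 - x.1 ^ m| ≤ X ^ m := by rw [beven_sign hσ hV hy1 hy2]; exact hy2
  have hax' : |x'.2 - x'.1 ^ m| ≤ X ^ m := by rw [beven_sign hσ hV hy1' hy2']; exact hy2'
  have hxm : x.1 ^ m ≤ X ^ m := by linarith
  have hxm' : x'.1 ^ m ≤ X ^ m := by linarith
  have h2a : |x.2| ≤ 2 * X := by
    have := abs_add_le (x.2 - x.1 ^ m) (x.1 ^ m)
    rw [sub_add_cancel, abs_of_pos hp] at this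
    linarith
  have h2b : |x'.2| ≤ 2 * X := by
    have := abs_add_le (x'.2 - x'.1 ^ m) (x'.1 ^ m)
    rw [sub_add_cancel, abs_of_pos hp'] at this
    linarith
  obtain ⟨⟨q1, q2⟩, ⟨q3, q4⟩⟩ := hx
  obtain ⟨⟨q5, q6⟩, ⟨q7, q8⟩⟩ := hx'
  have ha1r : |(x + x').1| ≤ 2 * r := by
    show |x.1 + x'.1| ≤ 2 * r
    rw [abs_of_pos (by linarith)]
    linarith
  have ha2r : |(x + x').2| ≤ 2 * r := by
    show |x.2 + x'.2| ≤ 2 * r
    rw [abs_le]
    constructor <;> linarith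
  have ha1X : |(x + x').1| ≤ 2 * (2 * X) := by
    show |x.1 + x'.1| ≤ 2 * (2 * X)
    rw [abs_of_pos (by linarith)]
    linarith
  have ha2X : |(x + x').2| ≤ 2 * (2 * X) := by
    show |x.2 + x'.2| ≤ 2 * (2 * X)
    have := abs_add_le x.2 x'.2
    linarith
  have hsgn : IsSign (-σ) := by
    rcases hσ with rfl | rfl
    · right; rfl
    · left; norm_num
  refine ⟨-σ, hsgn, ?_, ?_⟩
  · have e1 : ContDiffOn ℝ m (fun t => M0 m t (x + x')) (Set.Ioo s (2 * s)) :=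
      (m0_smooth m (x + x')).contDiffOn.of_le (by exact_mod_cast le_top)
    have e2 : ContDiffOn ℝ m (fun t => E (t, x + x')) (Set.Ioo s (2 * s)) := by
      refine ((hE.smooth (x + x') ha1r ha2r).mono ?_).of_le (by exact_mod_cast le_top)
      refine Set.Ioo_subset_Ioo ?_ ?_ <;> linarith
    exact e1.add e2
  · intro t ht
    obtain ⟨ht1, ht2⟩ := ht
    have ht0 : 0 < t := hs.trans ht1
    have htu : t < 2 * x.1 := by linarith
    have htr : |t| < 4 * r := by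
      rw [abs_of_pos ht0]
      linarith
    have htX : |t| ≤ 2 * (2 * X) := by
      rw [abs_of_pos ht0]
      linarith
    have hEb := hE.bd (x + x') t ha1r ha2r htr htX ha1X ha2X m le_rfl
    rw [mm_iter m Ψ r E m _ _ hE (x + x') ha1r ha2r t htr m, m0_iter m m (by omega),
      beven_top m heven]
    have hw1 : |((x + x').1 + t) / 2| ≤ 2 * x.1 := by
      show |(x.1 + x'.1 + t) / 2| ≤ 2 * x.1
      rw [abs_of_pos (by linarith)]
      linarith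
    have hw2 : |((x + x').1 - t) / 2| ≤ 2 * x.1 := by
      show |(x.1 + x'.1 - t) / 2| ≤ 2 * x.1
      rw [abs_le]
      constructor <;> linarith
    have hS := beven_sum m (x + x').1 t (2 * x.1) hw1 hw2
    set S := ∑ i ∈ Finset.range (m + 1), (m.choose i : ℝ) * Gg m i (x + x').1 t *
      Gg m (m - i) (x + x').1 t with hSdef
    have hS2 : 2 ^ m * (4 * (m.factorial : ℝ) ^ 2 * (2 * x.1) ^ m) ≤
        (m.factorial : ℝ) / 2 ^ m / 2 * X ^ m := by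
      have k1 : (2 : ℝ) ^ m * (4 * (m.factorial : ℝ) ^ 2 * (2 * x.1) ^ m) =
          (m.factorial : ℝ) / 2 ^ m / 2 * ((8 * (m.factorial : ℝ) * 8 ^ m) * x.1 ^ m) := by
        have k2 : (8 : ℝ) ^ m = 2 ^ m * 2 ^ m * 2 ^ m := by
          rw [← mul_pow, ← mul_pow]
          norm_num
        rw [k2, mul_pow]
        field_simp
        ring
      rw [k1]
      refine mul_le_mul_of_nonneg_left ?_ (by positivity)
      have k3 : (8 * (m.factorial : ℝ) * 8 ^ m) * x.1 ^ m ≤ C0 * x.1 ^ m :=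
        mul_le_mul_of_nonneg_right hC0 hp.le
      linarith
    have hA : σ * (x + x').2 ≥ 3 / 4 * X ^ m := by
      show σ * (x.2 + x'.2) ≥ 3 / 4 * X ^ m
      have k1 := beven_abs hσ (x.1 ^ m)
      have k2 := beven_abs hσ (x'.1 ^ m)
      rw [abs_of_pos hp] at k1
      rw [abs_of_pos hp'] at k2
      have k3 : x.1 ^ m ≤ X ^ m / 8 := by linarith
      have k4 : x'.1 ^ m ≤ X ^ m / 8 := by linarith
      have k5 : σ * (x.2 + x'.2) = σ * (x.2 - x.1 ^ m) + σ * (x'.2 - x'.1 ^ m) +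
        σ * x.1 ^ m + σ * x'.1 ^ m := by ring
      rw [k5]
      linarith
    have k6 := beven_abs' hσ S
    have k7 := beven_abs' hσ (iteratedDeriv m (fun t => E (t, x + x')) t)
    have k8 : (m.factorial : ℝ) / 2 ^ m / 4 * X ^ (2 * m) ≤ (m.factorial : ℝ) / 2 ^ m / 4 * X ^ m :=
      mul_le_mul_of_nonneg_left hV2 (by positivity)
    have k9 : (m.factorial : ℝ) / 2 ^ m * (3 / 4 * X ^ m) ≤
        (m.factorial : ℝ) / 2 ^ m * (σ * (x + x').2) :=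
      mul_le_mul_of_nonneg_left hA (by positivity)
    have k10 : -σ * (-(x + x').2 * (2 * (m.factorial : ℝ) / 2 ^ m) + 1 / 2 * S +
        iteratedDeriv m (fun t => E (t, x + x')) t) =
        2 * ((m.factorial : ℝ) / 2 ^ m * (σ * (x + x').2)) - 1 / 2 * (σ * S) -
        σ * iteratedDeriv m (fun t => E (t, x + x')) t := by ring
    rw [k10]
    have hQ : 0 ≤ (m.factorial : ℝ) / 2 ^ m * X ^ m := by positivity
    have k11 : (m.factorial : ℝ) / 2 ^ m * (3 / 4 * X ^ m) =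
      3 / 4 * ((m.factorial : ℝ) / 2 ^ m * X ^ m) := by ring
    have k12 : (m.factorial : ℝ) / 2 ^ m / 2 * X ^ m =
      1 / 2 * ((m.factorial : ℝ) / 2 ^ m * X ^ m) := by ring
    have k13 : (m.factorial : ℝ) / 2 ^ m / 4 * X ^ m =
      1 / 4 * ((m.factorial : ℝ) / 2 ^ m * X ^ m) := by ring
    rw [k13] at k8
    rw [k12] at hS2 ⊢
    rw [k11] at k9
    linarith

end Pool.Agent.FlatRes
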