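import Pool.Agent.Lib.MP_40a0b6_an.N2Slice
import Pool.Agent.Lib.MP_40a0b6_an.Sublev
set_option autoImplicit false
open MeasureTheory
open scoped ENNReal FourierTransform SchwartzMap
namespace Pool.Agent.FlatRes

/-- the set of the shell bound -/
private def shB_A (Ψ : ℝ × ℝ → ℝ) (P : Set (ℝ × ℝ)) (a : ℝ × ℝ) (s w β β' : ℝ) : Set (ℝ × ℝ) :=
  {x : ℝ × ℝ | (x, a - x) ∈ WSW Ψ P s w ∧ Ψ x + Ψ (a - x) ∈ Set.Ioc β β'}

private theorem shB_meas {Ψ : ℝ × ℝ → ℝ} (hΨ : Measurable Ψ) {r : ℝ}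
    (hD : Measurable ((box r).indicator (D1v Ψ))) {P : Set (ℝ × ℝ)} (hP : MeasurableSet P)
    (hPb : P ⊆ box r) (a : ℝ × ℝ) (s w β β' : ℝ) : MeasurableSet (shB_A Ψ P a s w β β') := by
  set D := (box r).indicator (D1v Ψ) with hDdef
  have e : shB_A Ψ P a s w β β' = {x : ℝ × ℝ | x ∈ P} ∩ {x | a - x ∈ P} ∩
      {x : ℝ × ℝ | s < x.1 - (a - x).1} ∩ {x : ℝ × ℝ | x.1 - (a - x).1 ≤ 2 * s} ∩
      {x | w < |D x - D (a - x)|} ∩ {x | |D x - D (a - x)| ≤ 2 * w} ∩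
      {x | β < Ψ x + Ψ (a - x)} ∩ {x | Ψ x + Ψ (a - x) ≤ β'} := by
    ext x
    simp only [shB_A, WSW, WS, Set.mem_ofPred_eq, Set.mem_inter_iff, Set.mem_Ioc]
    constructor
    · rintro ⟨⟨⟨h1, h2, h3, h4⟩, h5, h6⟩, h7, h8⟩
      have d1 : D x = D1v Ψ x := Set.indicator_of_mem (hPb h1) _
      have d2 : D (a - x) = D1v Ψ (a - x) := Set.indicator_of_mem (hPb h2) _
      rw [d1, d2]
      exact ⟨⟨⟨⟨⟨⟨⟨h1, h2⟩, h3⟩, h4⟩, h5⟩, h6⟩, h7⟩, h8⟩
    · rintro ⟨⟨⟨⟨⟨⟨⟨h1, h2⟩, h3⟩, h4⟩, h5⟩, h6⟩, h7⟩, h8⟩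
      have d1 : D x = D1v Ψ x := Set.indicator_of_mem (hPb h1) _
      have d2 : D (a - x) = D1v Ψ (a - x) := Set.indicator_of_mem (hPb h2) _
      rw [d1, d2] at h5 h6
      exact ⟨⟨⟨h1, h2, h3, h4⟩, h5, h6⟩, h7, h8⟩
  rw [e]
  have m1 : Measurable fun x : ℝ × ℝ => a - x := by fun_prop
  have m2 : Measurable fun x : ℝ × ℝ => x.1 - (a - x).1 := by fun_prop
  have m3 : Measurable fun x : ℝ × ℝ => |D x - D (a - x)| :=
    (hD.sub (hD.comp m1)).abs
  have m4 : Measurable fun x : ℝ × ℝ => Ψ x + Ψ (a - x) := hΨ.add (hΨ.comp m1)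
  exact (((((((hP.inter (m1 hP)).inter (measurableSet_lt measurable_const m2)).inter
    (measurableSet_le m2 measurable_const)).inter (measurableSet_lt measurable_const m3)).inter
    (measurableSet_le m3 measurable_const)).inter (measurableSet_lt measurable_const m4)).inter
    (measurableSet_le m4 measurable_const))

private theorem shB_slice {Ψ : ℝ × ℝ → ℝ} {r : ℝ} {M vs : ℝ → ℝ × ℝ → ℝ} (hM : MData Ψ r M vs)
    {P : Set (ℝ × ℝ)} (hPb : P ⊆ box r) (a : ℝ × ℝ) (s w β β' : ℝ) (hw : 0 < w) (hβ : β < β')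
    (u : ℝ) : volume (Prod.mk u ⁻¹' shB_A Ψ P a s w β β') ≤
      ENNReal.ofReal (2 * (β' - β) / w) := by
  set J : Set ℝ := {v | (u, v) ∈ box r ∧ (a.1 - u, a.2 - v) ∈ box r} with hJ
  have hJo : J.OrdConnected := by
    refine ⟨fun v1 h1 v2 h2 v hv => ?_⟩
    simp only [hJ, box, Set.mem_ofPred_eq, Set.mem_prod, Set.mem_Ioo, Set.mem_Icc] at h1 h2 hv ⊢
    refine ⟨⟨h1.1.1, ?_⟩, ⟨h1.2.1, ?_⟩⟩
    · constructor
      · linarith [h1.1.2.1, hv.1]
      · linarith [h2.1.2.2, hv.2]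
    · constructor
      · linarith [h2.2.2.1, hv.2]
      · linarith [h1.2.2.2, hv.1]
  have h1 := slice_shell_w (fun v => FF Ψ a u v)
    (fun v => D1v Ψ (u, v) - D1v Ψ (a.1 - u, a.2 - v)) J hJo
    (fun v hv => hM.hder a u v hv.1 hv.2)
    (fun v1 h1 v2 h2 h12 => by
      have e1 := hM.mono u v1 v2 h1.1 h2.1 h12
      have e2 := hM.mono (a.1 - u) (a.2 - v2) (a.2 - v1) h2.2 h1.2 (by linarith)
      linarith) w hw β β' hβ
  refine (measure_mono ?_).trans h1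
  intro v hv
  obtain ⟨⟨⟨h1, h2, _, _⟩, h5, _⟩, h7⟩ := hv
  exact ⟨⟨hPb h1, hPb h2⟩, h5, h7⟩

private theorem shB_main {Ψ : ℝ × ℝ → ℝ} (hΨ : Measurable Ψ) {r : ℝ} {M vs : ℝ → ℝ × ℝ → ℝ}
    (hM : MData Ψ r M vs) {P : Set (ℝ × ℝ)} (hP : MeasurableSet P) (hPb : P ⊆ box r)
    (a : ℝ × ℝ) (s w β β' : ℝ) (hw : 0 < w) (hβ : β < β') (T : Set ℝ)
    (hT : ∀ u v, (u, v) ∈ shB_A Ψ P a s w β β' → u ∈ T) :
    volume (shB_A Ψ P a s w β β') ≤ ENNReal.ofReal (2 * (β' - β) / w) * volume T := by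
  have hA := shB_meas hΨ hM.measD hP hPb a s w β β'
  rw [Measure.volume_eq_prod, Measure.prod_apply hA]
  calc ∫⁻ u, volume (Prod.mk u ⁻¹' shB_A Ψ P a s w β β')
      ≤ ∫⁻ u, (toMeasurable volume T).indicator
          (fun _ => ENNReal.ofReal (2 * (β' - β) / w)) u := by
        refine lintegral_mono fun u => ?_
        by_cases hu : u ∈ toMeasurable volume T
        · rw [Set.indicator_of_mem hu]
          exact shB_slice hM hPb a s w β β' hw hβ u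
        · have h0 : Prod.mk u ⁻¹' shB_A Ψ P a s w β β' = ∅ := by
            rw [Set.eq_empty_iff_forall_notMem]
            intro v hv
            exact hu (subset_toMeasurable volume T (hT u v hv))
          simp only [h0, measure_empty]
          exact zero_le
    _ = ENNReal.ofReal (2 * (β' - β) / w) * volume T := by
        rw [lintegral_indicator_const (measurableSet_toMeasurable _ _), measure_toMeasurable]

private theorem shB_pre (a1 : ℝ) (S : Set ℝ) :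
    volume ((fun u : ℝ => 2 * u - a1) ⁻¹' S) = ENNReal.ofReal (1 / 2) * volume S := by
  have e : (fun u : ℝ => 2 * u - a1) ⁻¹' S =
      (fun u : ℝ => 2 * u) ⁻¹' ((fun u : ℝ => u + -a1) ⁻¹' S) := by
    ext u
    simp only [Set.mem_preimage, sub_eq_add_neg]
  rw [e, Real.volume_preimage_mul_left two_ne_zero, measure_preimage_add_right]
  congr 2
  norm_num

private theorem shB_close {Ψ : ℝ × ℝ → ℝ} {r : ℝ} {M vs : ℝ → ℝ × ℝ → ℝ} (hM : MData Ψ r M vs)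
    {P : Set (ℝ × ℝ)} (hPb : P ⊆ box r) (a : ℝ × ℝ) (s w β β' : ℝ) (hw : 0 < w)
    (hβ' : β' ≤ β + w ^ 2) (u v : ℝ) (h : (u, v) ∈ shB_A Ψ P a s w β β') :
    |M (2 * u - a.1) a - β| < 6 * w ^ 2 := by
  obtain ⟨⟨⟨h1, h2, _, _⟩, _, h6⟩, h7⟩ := h
  have b1 : (u, v) ∈ box r := hPb h1
  have b2 : (a.1 - u, a.2 - v) ∈ box r := hPb h2
  have e1 := hM.low a u v b1 b2
  have e2 := hM.up a u v b1 b2
  have e3 := hM.slope a u v b1 b2
  set e := v - vs (2 * u - a.1) a with he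
  have h6' : |D1v Ψ (u, v) - D1v Ψ (a.1 - u, a.2 - v)| ≤ 2 * w := h6
  have h7' : β < FF Ψ a u v ∧ FF Ψ a u v ≤ β' := h7
  have he1 : |e| ≤ w := by
    by_contra hn
    have hlt : w < |e| := not_le.1 hn
    have h3 : (D1v Ψ (u, v) - D1v Ψ (a.1 - u, a.2 - v)) * e ≤ 2 * w * |e| := by
      refine (le_abs_self _).trans ?_
      rw [abs_mul]
      exact mul_le_mul_of_nonneg_right h6' (abs_nonneg _)
    have h4 : e ^ 2 = |e| ^ 2 := (sq_abs e).symm
    nlinarith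
  have he2 : e ^ 2 ≤ w ^ 2 := by
    rw [← sq_abs e]
    exact pow_le_pow_left₀ (abs_nonneg _) he1 2
  have hw2 : 0 < w ^ 2 := by positivity
  have he3 : 0 ≤ e ^ 2 := sq_nonneg _
  rw [abs_lt]
  constructor <;> linarith [h7'.1, h7'.2]

/-- JOB ShB.  Shell bound for the pairs with `|x₁-x₁'| ~ s`, `|∂₂Ψ(x)-∂₂Ψ(x')| ~ w`, for short shells.

Proof.  Fubini as in `shell_near`.  For each `u` the slice has measure `≤ 2τ/w` (`slice_shell_w`), `τ = β'-β ≤ w²`.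
If the slice is nonempty at `u`, pick `v` in it, `e = v - vs`: `2e² ≤ f' e` gives `|e| ≤ |f'|/2 ≤ w`, so
`0 ≤ f v - M ≤ 4e² ≤ 4w²` and `f v ∈ (β,β']`: `|M(2u-a₁,a) - β| ≤ 5w² < 6w²`.
So `z = 2u-a₁ ∈ (s,2s]` lies in `{|M(·,a)-β| < 6w²}`: an interval of length `s`, which gives the trivial bound
`(s/2)(2τ/w)`; and if `H'` holds, `sublevel` (`Sublev.lean`; its constant `C` depends on `j` only) with
`f = M(·,a) - β` on `(s,2s)`, `ε = 6w²`, `c0 = Λ`, gives `½·C(6w²/Λ)^{1/j}·2τ/w`.  State the result with `Cj` the constant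
of `sublevel j`. -/
theorem shell_b (j : ℕ) (hj : 1 ≤ j) : ∃ Cj : ℝ, 0 < Cj ∧ ∀ (Ψ : ℝ × ℝ → ℝ) (_ : Measurable Ψ) (r : ℝ)
    (M vs : ℝ → ℝ × ℝ → ℝ) (_ : MData Ψ r M vs) (P : Set (ℝ × ℝ)) (_ : MeasurableSet P)
    (_ : P ⊆ box r) (a : ℝ × ℝ) (s w : ℝ) (_ : 0 < s) (_ : 0 < w) (β β' : ℝ) (_ : β < β')
    (_ : β' ≤ β + w ^ 2),
    volume {x : ℝ × ℝ | (x, a - x) ∈ WSW Ψ P s w ∧ Ψ x + Ψ (a - x) ∈ Set.Ioc β β'} ≤
        ENNReal.ofReal (s / w * (β' - β)) ∧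
    ∀ Λ : ℝ, 0 < Λ → (∀ x ∈ P, a - x ∈ P → s < 2 * x.1 - a.1 → 2 * x.1 - a.1 ≤ 2 * s →
        w < |D1v Ψ x - D1v Ψ (a - x)| → |D1v Ψ x - D1v Ψ (a - x)| ≤ 2 * w →
          OrdProp (fun t => M t a) s (2 * s) j Λ) →
      volume {x : ℝ × ℝ | (x, a - x) ∈ WSW Ψ P s w ∧ Ψ x + Ψ (a - x) ∈ Set.Ioc β β'} ≤
        ENNReal.ofReal (Cj * (w ^ 2 / Λ) ^ (1 / (j : ℝ)) / w * (β' - β)) := by
  obtain ⟨C, hC, hsub⟩ := sublevel j hj
  refine ⟨6 * C, by positivity, ?_⟩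
  intro Ψ hΨ r M vs hM P hP hPb a s w hs hw β β' hβ hβ'
  have hτ : 0 < β' - β := sub_pos.2 hβ
  change volume (shB_A Ψ P a s w β β') ≤ _ ∧ ∀ Λ : ℝ, 0 < Λ → _ →
    volume (shB_A Ψ P a s w β β') ≤ _
  have hz : ∀ u v, (u, v) ∈ shB_A Ψ P a s w β β' → 2 * u - a.1 ∈ Set.Ioc s (2 * s) := by
    intro u v h
    obtain ⟨⟨⟨_, _, h3, h4⟩, _, _⟩, _⟩ := h
    have e : u - (a.1 - u) = 2 * u - a.1 := by ring
    have h3' : s < u - (a.1 - u) := h3
    have h4' : u - (a.1 - u) ≤ 2 * s := h4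
    rw [e] at h3' h4'
    exact ⟨h3', h4'⟩
  constructor
  · refine (shB_main hΨ hM hP hPb a s w β β' hw hβ ((fun u : ℝ => 2 * u - a.1) ⁻¹'
      Set.Ioc s (2 * s)) hz).trans ?_
    rw [shB_pre, Real.volume_Ioc, ← ENNReal.ofReal_mul (by norm_num), ← ENNReal.ofReal_mul
      (by positivity)]
    apply ENNReal.ofReal_le_ofReal
    apply le_of_eq
    field_simp
    ring
  · intro Λ hΛ hord
    by_cases hne : (shB_A Ψ P a s w β β').Nonempty
    · obtain ⟨x0, hx0⟩ := hne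
      have hord' : OrdProp (fun t => M t a) s (2 * s) j Λ := by
        obtain ⟨⟨⟨h1, h2, h3, h4⟩, h5, h6⟩, _⟩ := hx0
        have hz0 := hz x0.1 x0.2 ⟨⟨⟨h1, h2, h3, h4⟩, h5, h6⟩, by assumption⟩
        exact hord x0 h1 h2 hz0.1 hz0.2 h5 h6
      obtain ⟨σ, hσ, hcd, hder⟩ := hord'
      have hw2 : 0 < w ^ 2 := by positivity
      have h1 := hsub (fun t => M t a - β) s (2 * s) Λ (6 * w ^ 2) σ hσ hΛ (by positivity)
        (hcd.sub contDiffOn_const) (fun t ht => by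
          have e : iteratedDeriv j (fun t => M t a - β) t = iteratedDeriv j (fun t => M t a) t := by
            obtain ⟨i, rfl⟩ : ∃ i, j = i + 1 := ⟨j - 1, by omega⟩
            rw [iteratedDeriv_succ', iteratedDeriv_succ']
            congr 1
            funext t
            exact deriv_sub_const β
          rw [e]
          exact hder t ht)
      set S : Set ℝ := {t | t ∈ Set.Ioo s (2 * s) ∧ |M t a - β| < 6 * w ^ 2} with hS
      have h2 := shB_main hΨ hM hP hPb a s w β β' hw hβ ((fun u : ℝ => 2 * u - a.1) ⁻¹'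
        (S ∪ {2 * s})) (fun u v h => by
          have h3 := hz u v h
          have h4 := shB_close hM hPb a s w β β' hw hβ' u v h
          rcases eq_or_lt_of_le h3.2 with h5 | h5
          · exact Or.inr h5
          · exact Or.inl ⟨⟨h3.1, h5⟩, h4⟩)
      refine h2.trans ?_
      have h3 : volume (S ∪ {2 * s}) ≤ ENNReal.ofReal (C * (6 * w ^ 2 / Λ) ^ (1 / (j : ℝ))) := by
        refine (measure_union_le _ _).trans ?_
        rw [Real.volume_singleton, add_zero]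
        exact h1
      rw [shB_pre]
      have hpos1 : 0 ≤ 2 * (β' - β) / w := by positivity
      calc ENNReal.ofReal (2 * (β' - β) / w) * (ENNReal.ofReal (1 / 2) * volume (S ∪ {2 * s}))
          ≤ ENNReal.ofReal (2 * (β' - β) / w) * (ENNReal.ofReal (1 / 2) *
            ENNReal.ofReal (C * (6 * w ^ 2 / Λ) ^ (1 / (j : ℝ)))) := by
            gcongr
        _ = ENNReal.ofReal (2 * (β' - β) / w * (1 / 2 *
              (C * (6 * w ^ 2 / Λ) ^ (1 / (j : ℝ))))) := by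
            rw [← ENNReal.ofReal_mul (by norm_num), ← ENNReal.ofReal_mul hpos1]
        _ ≤ ENNReal.ofReal (6 * C * (w ^ 2 / Λ) ^ (1 / (j : ℝ)) / w * (β' - β)) := by
            apply ENNReal.ofReal_le_ofReal
            have hq : 0 ≤ w ^ 2 / Λ := by positivity
            have e1 : 6 * w ^ 2 / Λ = 6 * (w ^ 2 / Λ) := by ring
            have hj1 : 1 / (j : ℝ) ≤ 1 := by
              rw [div_le_one (by exact_mod_cast hj)]
              exact_mod_cast hj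
            have e2 : (6 : ℝ) ^ (1 / (j : ℝ)) ≤ 6 := by
              calc (6 : ℝ) ^ (1 / (j : ℝ)) ≤ (6 : ℝ) ^ (1 : ℝ) :=
                    Real.rpow_le_rpow_of_exponent_le (by norm_num) hj1
                _ = 6 := Real.rpow_one 6
            rw [e1, Real.mul_rpow (by norm_num) hq]
            set R := (w ^ 2 / Λ) ^ (1 / (j : ℝ)) with hR
            have hR0 : 0 ≤ R := Real.rpow_nonneg hq _
            have e3 : 2 * (β' - β) / w * (1 / 2 * (C * ((6 : ℝ) ^ (1 / (j : ℝ)) * R))) =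
                (6 : ℝ) ^ (1 / (j : ℝ)) * (C * R / w * (β' - β)) := by
              field_simp
            have e4 : 6 * C * R / w * (β' - β) = 6 * (C * R / w * (β' - β)) := by ring
            rw [e3, e4]
            exact mul_le_mul_of_nonneg_right e2 (by positivity)
    · rw [Set.not_nonempty_iff_eq_empty.1 hne, measure_empty]
      exact zero_le

end Pool.Agent.FlatRes
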