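import Pool.Agent.Lib.MP_40a0b6_an.N2PairThm
import Pool.Agent.Lib.MP_40a0b6_an.N2Dens
import Pool.Agent.Lib.MP_40a0b6_an.N2ShB
import Pool.Agent.Lib.MP_40a0b6_an.N2Geom
set_option autoImplicit false
open MeasureTheory
open scoped ENNReal FourierTransform SchwartzMap
namespace Pool.Agent.FlatRes

theorem BP_uniq {S z : ℝ} (hS : 0 < S) {i j : ℕ} (h1 : S / 2 ^ (i + 1) < z)
    (h2 : z ≤ 2 * (S / 2 ^ (i + 1))) (h3 : S / 2 ^ (j + 1) < z) (h4 : z ≤ 2 * (S / 2 ^ (j + 1))) :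
    i = j := by
  have key : ∀ i j : ℕ, S / 2 ^ (i + 1) < z → z ≤ 2 * (S / 2 ^ (j + 1)) → j ≤ i := by
    intro i j h1 h4
    by_contra hc
    push Not at hc
    have h5 : 2 * (S / 2 ^ (j + 1)) = S / 2 ^ j := by
      field_simp
      ring
    have h6 : S / 2 ^ j ≤ S / 2 ^ (i + 1) := by
      apply div_le_div_of_nonneg_left hS.le (by positivity)
      exact pow_le_pow_right₀ (by norm_num) hc
    linarith
  exact le_antisymm (key j i h3 h2) (key i j h1 h4)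

theorem BP_ex {S z : ℝ} (hz : 0 < z) (hzS : z ≤ S) :
    ∃ i : ℕ, S / 2 ^ (i + 1) < z ∧ z ≤ 2 * (S / 2 ^ (i + 1)) := by
  have h1 : 1 ≤ S / z := by rwa [le_div_iff₀ hz, one_mul]
  obtain ⟨n, hn1, hn2⟩ := exists_nat_pow_near h1 (by norm_num : (1 : ℝ) < 2)
  refine ⟨n, ?_, ?_⟩
  · rw [div_lt_iff₀ hz] at hn2
    rw [div_lt_iff₀ (by positivity)]
    linarith
  · rw [le_div_iff₀ hz] at hn1
    have h5 : 2 * (S / 2 ^ (n + 1)) = S / 2 ^ n := by
      field_simp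
      ring
    rw [h5, le_div_iff₀ (by positivity)]
    linarith

/-- volume of a strip -/
theorem BP_strip (Ψ : ℝ × ℝ → ℝ) (r : ℝ) (M vs : ℝ → ℝ × ℝ → ℝ) (hM : MData Ψ r M vs)
    (P : Set (ℝ × ℝ)) (hP : MeasurableSet P) (hPr : P ⊆ box r) (α s w c0 : ℝ) (hs : 0 ≤ s)
    (hw : 0 ≤ w) :
    volume {x' : ℝ × ℝ | x' ∈ P ∧ α ≤ x'.1 ∧ x'.1 ≤ α + s ∧ |D1v Ψ x' - c0| ≤ 2 * w} ≤
      ENNReal.ofReal (4 * s * w) := by
  have heq : {x' : ℝ × ℝ | x' ∈ P ∧ α ≤ x'.1 ∧ x'.1 ≤ α + s ∧ |D1v Ψ x' - c0| ≤ 2 * w} =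
      {x' : ℝ × ℝ | x' ∈ P ∧ α ≤ x'.1 ∧ x'.1 ≤ α + s ∧
        |(box r).indicator (D1v Ψ) x' - c0| ≤ 2 * w} := by
    ext x'
    constructor
    · rintro ⟨h1, h2, h3, h4⟩
      exact ⟨h1, h2, h3, by rwa [Set.indicator_of_mem (hPr h1)]⟩
    · rintro ⟨h1, h2, h3, h4⟩
      exact ⟨h1, h2, h3, by rwa [Set.indicator_of_mem (hPr h1)] at h4⟩
  have hmeas : MeasurableSet {x' : ℝ × ℝ | x' ∈ P ∧ α ≤ x'.1 ∧ x'.1 ≤ α + s ∧
      |D1v Ψ x' - c0| ≤ 2 * w} := by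
    rw [heq]
    have hd : Measurable (fun x' : ℝ × ℝ => |(box r).indicator (D1v Ψ) x' - c0|) :=
      (hM.measD.sub measurable_const).abs
    exact hP.inter ((measurableSet_le measurable_const measurable_fst).inter
      ((measurableSet_le measurable_fst measurable_const).inter
        (measurableSet_le hd measurable_const)))
  rw [Measure.volume_eq_prod, Measure.prod_apply hmeas]
  calc ∫⁻ u, volume (Prod.mk u ⁻¹' {x' : ℝ × ℝ | x' ∈ P ∧ α ≤ x'.1 ∧ x'.1 ≤ α + s ∧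
          |D1v Ψ x' - c0| ≤ 2 * w})
      ≤ ∫⁻ u, (Set.Icc α (α + s)).indicator (fun _ => ENNReal.ofReal (4 * w)) u := by
        refine lintegral_mono fun u => ?_
        by_cases hu : u ∈ Set.Icc α (α + s)
        · rw [Set.indicator_of_mem hu]
          refine (Real.volume_le_diam _).trans ?_
          apply Metric.ediam_le
          rintro v1 ⟨h1, _, _, h1'⟩ v2 ⟨h2, _, _, h2'⟩
          rw [edist_dist, Real.dist_eq]
          apply ENNReal.ofReal_le_ofReal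
          rw [abs_le] at h1' h2' ⊢
          rcases le_total v1 v2 with h | h
          · have := hM.mono u v1 v2 (hPr h1) (hPr h2) h
            constructor <;> linarith [h1'.1, h1'.2, h2'.1, h2'.2]
          · have := hM.mono u v2 v1 (hPr h2) (hPr h1) h
            constructor <;> linarith [h1'.1, h1'.2, h2'.1, h2'.2]
        · have : (Prod.mk u ⁻¹' {x' : ℝ × ℝ | x' ∈ P ∧ α ≤ x'.1 ∧ x'.1 ≤ α + s ∧
              |D1v Ψ x' - c0| ≤ 2 * w}) = ∅ := by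
            ext v
            simp only [Set.mem_preimage, Set.mem_ofPred_eq, Set.mem_empty_iff_false, iff_false]
            rintro ⟨_, h2, h3, _⟩
            exact hu ⟨h2, h3⟩
          rw [this]
          simp
    _ = ENNReal.ofReal (4 * s * w) := by
        rw [lintegral_indicator_const measurableSet_Icc, Real.volume_Icc,
          ← ENNReal.ofReal_mul (by linarith)]
        congr 1
        ring

theorem BP_meas (Ψ : ℝ × ℝ → ℝ) (r : ℝ) (M vs : ℝ → ℝ × ℝ → ℝ) (hM : MData Ψ r M vs)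
    (P : Set (ℝ × ℝ)) (hP : MeasurableSet P) (hPr : P ⊆ box r) (s w : ℝ) :
    MeasurableSet (WSW Ψ P s w) := by
  have heq : WSW Ψ P s w = {p : (ℝ × ℝ) × (ℝ × ℝ) | p.1 ∈ P ∧ p.2 ∈ P ∧ s < p.1.1 - p.2.1 ∧
      p.1.1 - p.2.1 ≤ 2 * s ∧
      w < |(box r).indicator (D1v Ψ) p.1 - (box r).indicator (D1v Ψ) p.2| ∧
      |(box r).indicator (D1v Ψ) p.1 - (box r).indicator (D1v Ψ) p.2| ≤ 2 * w} := by
    ext p
    constructor
    · rintro ⟨⟨h1, h2, h3, h4⟩, h5, h6⟩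
      refine ⟨h1, h2, h3, h4, ?_, ?_⟩ <;>
      rwa [Set.indicator_of_mem (hPr h1), Set.indicator_of_mem (hPr h2)]
    · rintro ⟨h1, h2, h3, h4, h5, h6⟩
      rw [Set.indicator_of_mem (hPr h1), Set.indicator_of_mem (hPr h2)] at h5 h6
      exact ⟨⟨h1, h2, h3, h4⟩, h5, h6⟩
  rw [heq]
  have hd : Measurable (fun p : (ℝ × ℝ) × (ℝ × ℝ) =>
      |(box r).indicator (D1v Ψ) p.1 - (box r).indicator (D1v Ψ) p.2|) :=
    ((hM.measD.comp measurable_fst).sub (hM.measD.comp measurable_snd)).abs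
  have hz : Measurable (fun p : (ℝ × ℝ) × (ℝ × ℝ) => p.1.1 - p.2.1) := by fun_prop
  exact (measurable_fst hP).inter ((measurable_snd hP).inter
    ((measurableSet_lt measurable_const hz).inter ((measurableSet_le hz measurable_const).inter
      ((measurableSet_lt measurable_const hd).inter (measurableSet_le hd measurable_const)))))

theorem BP_N1 (Ψ : ℝ × ℝ → ℝ) (r : ℝ) (M vs : ℝ → ℝ × ℝ → ℝ) (hM : MData Ψ r M vs)
    (P : Set (ℝ × ℝ)) (hP : MeasurableSet P) (hPr : P ⊆ box r) (s w : ℝ) (hs : 0 ≤ s)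
    (hw : 0 ≤ w) (x : ℝ × ℝ) :
    volume {x' | (x, x') ∈ WSW Ψ P s w} ≤ ENNReal.ofReal (4 * s * w) := by
  refine (measure_mono ?_).trans (BP_strip Ψ r M vs hM P hP hPr (x.1 - 2 * s) s w (D1v Ψ x) hs hw)
  rintro x' ⟨⟨h1, h2, h3, h4⟩, h5, h6⟩
  simp only at h1 h2 h3 h4 h5 h6
  refine ⟨h2, by linarith, by linarith, ?_⟩
  rw [abs_sub_comm]
  exact h6

theorem BP_N2 (Ψ : ℝ × ℝ → ℝ) (r : ℝ) (M vs : ℝ → ℝ × ℝ → ℝ) (hM : MData Ψ r M vs)
    (P : Set (ℝ × ℝ)) (hP : MeasurableSet P) (hPr : P ⊆ box r) (s w : ℝ) (hs : 0 ≤ s)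
    (hw : 0 ≤ w) (x' : ℝ × ℝ) :
    volume {x | (x, x') ∈ WSW Ψ P s w} ≤ ENNReal.ofReal (4 * s * w) := by
  refine (measure_mono ?_).trans (BP_strip Ψ r M vs hM P hP hPr (x'.1 + s) s w (D1v Ψ x') hs hw)
  rintro x ⟨⟨h1, h2, h3, h4⟩, h5, h6⟩
  simp only at h1 h2 h3 h4 h5 h6
  exact ⟨h1, by linarith, by linarith, h6⟩

theorem BP_null (Ψ : ℝ × ℝ → ℝ) (r : ℝ) (M vs : ℝ → ℝ × ℝ → ℝ) (hM : MData Ψ r M vs)
    (P : Set (ℝ × ℝ)) (hP : MeasurableSet P) (hPr : P ⊆ box r) :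
    volume {p : (ℝ × ℝ) × (ℝ × ℝ) | p.1 ∈ P ∧ p.2 ∈ P ∧ D1v Ψ p.1 = D1v Ψ p.2} = 0 := by
  have heq : {p : (ℝ × ℝ) × (ℝ × ℝ) | p.1 ∈ P ∧ p.2 ∈ P ∧ D1v Ψ p.1 = D1v Ψ p.2} =
      {p : (ℝ × ℝ) × (ℝ × ℝ) | p.1 ∈ P ∧ p.2 ∈ P ∧
        (box r).indicator (D1v Ψ) p.1 = (box r).indicator (D1v Ψ) p.2} := by
    ext p
    constructor
    · rintro ⟨h1, h2, h3⟩
      exact ⟨h1, h2, by rwa [Set.indicator_of_mem (hPr h1), Set.indicator_of_mem (hPr h2)]⟩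
    · rintro ⟨h1, h2, h3⟩
      exact ⟨h1, h2, by rwa [Set.indicator_of_mem (hPr h1), Set.indicator_of_mem (hPr h2)] at h3⟩
  have hm : MeasurableSet {p : (ℝ × ℝ) × (ℝ × ℝ) | p.1 ∈ P ∧ p.2 ∈ P ∧
      D1v Ψ p.1 = D1v Ψ p.2} := by
    rw [heq]
    exact (measurable_fst hP).inter ((measurable_snd hP).inter
      (measurableSet_eq_fun (hM.measD.comp measurable_fst) (hM.measD.comp measurable_snd)))
  rw [Measure.volume_eq_prod, Measure.measure_prod_null hm]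
  refine Filter.Eventually.of_forall fun x => ?_
  by_cases hr : 0 ≤ r
  · have h := BP_strip Ψ r M vs hM P hP hPr (-r) (2 * r) 0 (D1v Ψ x) (by linarith) le_rfl
    simp only [mul_zero, ENNReal.ofReal_zero, nonpos_iff_eq_zero] at h
    refine measure_mono_null ?_ h
    rintro x' ⟨h1, h2, h3⟩
    simp only at h1 h2 h3
    have hb := hPr h2
    have hb1 := hb.1
    simp only [Set.mem_Ioo] at hb1
    refine ⟨h2, by linarith, by linarith, ?_⟩
    rw [h3]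
    simp
  · have : P = ∅ := by
      rw [Set.eq_empty_iff_forall_notMem]
      intro y hy
      have hb := (hPr hy).1
      simp only [Set.mem_Ioo] at hb
      linarith
    subst this
    simp


/-- from two bounds to the interpolated one -/
theorem BP_min {A B τ : ℝ} (hA : 0 ≤ A) (hB : 0 ≤ B) (hτ0 : 0 < τ) (hτ1 : τ ≤ 1) :
    min A B ≤ A ^ (1 - τ) * B ^ τ := by
  rcases le_total A B with h | h
  · rw [min_eq_left h]
    rcases hA.eq_or_lt with h0 | h0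
    · rw [← h0]
      positivity
    calc A = A ^ (1 - τ) * A ^ τ := by
          rw [← Real.rpow_add h0]; simp
      _ ≤ A ^ (1 - τ) * B ^ τ := by
          have : A ^ τ ≤ B ^ τ := Real.rpow_le_rpow hA h hτ0.le
          have h2 : 0 ≤ A ^ (1 - τ) := Real.rpow_nonneg hA _
          exact mul_le_mul_of_nonneg_left this h2
  · rw [min_eq_right h]
    rcases hB.eq_or_lt with h0 | h0
    · rw [← h0]
      positivity
    calc B = B ^ (1 - τ) * B ^ τ := by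
          rw [← Real.rpow_add h0]; simp
      _ ≤ A ^ (1 - τ) * B ^ τ := by
          have : B ^ (1 - τ) ≤ A ^ (1 - τ) := Real.rpow_le_rpow hB h (by linarith)
          have h2 : 0 ≤ B ^ τ := Real.rpow_nonneg hB _
          exact mul_le_mul_of_nonneg_right this h2

/-- the interpolated density bound, both bounds available -/
theorem BP_alg1 (j : ℕ) (hj : 1 ≤ j) (τ c Cj : ℝ) (hτ0 : 0 < τ) (hτ1 : τ ≤ 1) (hc : 0 < c)
    (hC : 0 < Cj) (s w Y : ℝ) (hs : 0 < s) (hw : 0 < w) (hY : 0 < Y) :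
    min (s / w) (Cj * (w ^ 2 / (c * Y)) ^ (1 / (j : ℝ)) / w) ≤
      Cj ^ τ * c ^ (-τ / j) * (w ^ (-1 + 2 * τ / j) * s ^ (1 - τ) * Y ^ (-τ / j)) := by
  have hj' : (0 : ℝ) < j := by exact_mod_cast hj
  have hB : 0 < Cj * (w ^ 2 / (c * Y)) ^ (1 / (j : ℝ)) / w := by positivity
  refine (BP_min (by positivity : 0 ≤ s / w) hB.le hτ0 hτ1).trans (le_of_eq ?_)
  have e1 : Real.log (Cj * (w ^ 2 / (c * Y)) ^ (1 / (j : ℝ)) / w) =
      Real.log Cj + (1 / (j : ℝ)) * (2 * Real.log w - (Real.log c + Real.log Y)) - Real.log w := by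
    rw [Real.log_div (by positivity) hw.ne', Real.log_mul hC.ne' (by positivity),
      Real.log_rpow (by positivity), Real.log_div (by positivity) (by positivity),
      Real.log_pow, Real.log_mul hc.ne' hY.ne']
    push_cast
    ring
  rw [Real.rpow_def_of_pos (by positivity : 0 < s / w), Real.rpow_def_of_pos hB, e1,
    Real.log_div hs.ne' hw.ne', Real.rpow_def_of_pos hC, Real.rpow_def_of_pos hc,
    Real.rpow_def_of_pos hw, Real.rpow_def_of_pos hs, Real.rpow_def_of_pos hY]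
  simp only [← Real.exp_add]
  congr 1
  field_simp
  ring

/-- the same, in the complementary case `ι = 1` -/
theorem BP_alg2 (m : ℕ) (hm : 3 ≤ m) (τ c K : ℝ) (hτ0 : 0 < τ) (hc : 0 < c) (hK : 0 < K)
    (s w X : ℝ) (hs : 0 < s) (hw : 0 < w) (hX : 0 < X) (hsX : s ≤ K * X)
    (hwX : c * X ^ (m - 1) * s < w) :
    s / w ≤ (K ^ (m - 2) / c ^ 2) ^ (τ / ((m - 1 : ℕ) : ℝ)) *
      (w ^ (-1 + 2 * τ / ((m - 1 : ℕ) : ℝ)) * s ^ (1 - τ) *
        (X ^ m * s) ^ (-τ / ((m - 1 : ℕ) : ℝ))) := by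
  have hj' : (0 : ℝ) < ((m - 1 : ℕ) : ℝ) := by
    have : 0 < m - 1 := by omega
    exact_mod_cast this
  -- main inequality
  have key : s ^ (m - 1) ≤ (K ^ (m - 2) / c ^ 2) * (w ^ 2 / (X ^ m * s)) := by
    rw [div_mul_div_comm, le_div_iff₀ (by positivity)]
    have h1 : (c * X ^ (m - 1) * s) ^ 2 ≤ w ^ 2 := by
      apply pow_le_pow_left₀ (by positivity) hwX.le
    have h2 : s ^ (m - 2) ≤ (K * X) ^ (m - 2) := pow_le_pow_left₀ hs.le hsX _
    obtain ⟨k, rfl⟩ : ∃ k, m = k + 2 := ⟨m - 2, by omega⟩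
    simp only [Nat.add_sub_cancel, show k + 2 - 1 = k + 1 by omega] at *
    calc s ^ (k + 1) * (c ^ 2 * (X ^ (k + 2) * s))
        = (c ^ 2 * X ^ (k + 2) * s ^ 2) * s ^ k := by ring
      _ ≤ (c ^ 2 * X ^ (k + 2) * s ^ 2) * (K * X) ^ k := by
          exact mul_le_mul_of_nonneg_left h2 (by positivity)
      _ = K ^ k * (c * X ^ (k + 1) * s) ^ 2 := by
          rw [mul_pow]; ring
      _ ≤ K ^ k * w ^ 2 := mul_le_mul_of_nonneg_left h1 (by positivity)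
  have h3 : s ^ τ ≤ (K ^ (m - 2) / c ^ 2) ^ (τ / ((m - 1 : ℕ) : ℝ)) *
      (w ^ 2 / (X ^ m * s)) ^ (τ / ((m - 1 : ℕ) : ℝ)) := by
    rw [← Real.mul_rpow (by positivity) (by positivity)]
    calc s ^ τ = (s ^ (m - 1)) ^ (τ / ((m - 1 : ℕ) : ℝ)) := by
          rw [← Real.rpow_natCast s (m - 1), ← Real.rpow_mul hs.le]
          congr 1
          field_simp
      _ ≤ _ := Real.rpow_le_rpow (by positivity) key (by positivity)
  have h4 : s / w = w ^ (-1 : ℝ) * s ^ (1 - τ) * s ^ τ := by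
    rw [mul_assoc, ← Real.rpow_add hs, Real.rpow_neg_one]
    simp only [sub_add_cancel, Real.rpow_one]
    field_simp
  rw [h4]
  refine (mul_le_mul_of_nonneg_left h3 (by positivity)).trans (le_of_eq ?_)
  have hY : 0 < X ^ m * s := by positivity
  rw [Real.div_rpow (by positivity) hY.le]
  have h5 : (X ^ m * s) ^ (-τ / ((m - 1 : ℕ) : ℝ)) = ((X ^ m * s) ^ (τ / ((m - 1 : ℕ) : ℝ)))⁻¹ := by
    rw [neg_div, Real.rpow_neg hY.le]
  have h6 : w ^ (-1 + 2 * τ / ((m - 1 : ℕ) : ℝ)) =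
      w ^ (-1 : ℝ) * (w ^ 2) ^ (τ / ((m - 1 : ℕ) : ℝ)) := by
    rw [Real.rpow_add hw]
    congr 1
    rw [← Real.rpow_natCast w 2, ← Real.rpow_mul hw.le]
    congr 1
    push_cast
    ring
  rw [h5, h6]
  ring


/-- the density bound for one group -/
theorem BP_D (m ι : ℕ) (hm : 3 ≤ m) (hι : ι ≤ 1) (τ : ℝ) (hτ0 : 0 < τ) (hτ1 : τ ≤ 1)
    (K c : ℝ) (hK : 0 < K) (hc : 0 < c) :
    ∃ C : ℝ, 0 < C ∧ ∀ (Ψ : ℝ × ℝ → ℝ) (r : ℝ) (M vs : ℝ → ℝ × ℝ → ℝ) (P : Set (ℝ × ℝ)) (X : ℝ),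
      Measurable Ψ → MData Ψ r M vs → MeasurableSet P → P ⊆ box r → 0 < X →
      (∀ x ∈ P, ∀ x' ∈ P, ∀ s : ℝ, 0 < s → s < x.1 - x'.1 → x.1 - x'.1 ≤ 2 * s →
        (ι = 1 → |D1v Ψ x - D1v Ψ x'| ≤ 2 * (c * X ^ (m - 1) * s)) →
        OrdProp (fun t => M t (x + x')) s (2 * s) (m - ι) (c * X ^ m * s ^ ι)) →
      ∀ s w : ℝ, 0 < s → 0 < w → s ≤ K * X → ∀ A : Set E3, MeasurableSet A →
      volume {p : (ℝ × ℝ) × (ℝ × ℝ) | p ∈ WSW Ψ P s w ∧ gpt Ψ p.1 + gpt Ψ p.2 ∈ A} ≤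
        ENNReal.ofReal (C * (w ^ (-1 + 2 * τ / ((m - ι : ℕ) : ℝ)) * s ^ (1 - τ) *
          (X ^ m * s ^ ι) ^ (-τ / ((m - ι : ℕ) : ℝ)))) * volume A := by
  have hj : 1 ≤ m - ι := by omega
  obtain ⟨Cj, hCj, hsh⟩ := shell_b (m - ι) hj
  refine ⟨Cj ^ τ * c ^ (-τ / ((m - ι : ℕ) : ℝ)) +
    (K ^ (m - 2) / c ^ 2) ^ (τ / ((m - 1 : ℕ) : ℝ)), by positivity, ?_⟩
  intro Ψ r M vs P X hΨ hM hP hPr hX hOrd s w hs hw hsX A hA
  have hT : 0 < w ^ (-1 + 2 * τ / ((m - ι : ℕ) : ℝ)) * s ^ (1 - τ) *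
          (X ^ m * s ^ ι) ^ (-τ / ((m - ι : ℕ) : ℝ)) := by positivity
  refine dens2 Ψ hΨ (WSW Ψ P s w) (BP_meas Ψ r M vs hM P hP hPr s w) _ (w ^ 2)
    (by positivity) (by positivity) ?_ A hA
  intro a β β' h1 h2
  obtain ⟨hA1, hB1⟩ := hsh Ψ hΨ r M vs hM P hP hPr a s w hs hw β β' h1 h2
  by_cases hcase : ι = 0 ∨ w ≤ c * X ^ (m - 1) * s
  · have hB2 := hB1 (c * X ^ m * s ^ ι) (by positivity) (by
      intro x hx hx' h3 h4 h5 h6
      have h7 := hOrd x hx (a - x) hx' s hs (by simp only [Prod.fst_sub]; linarith)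
        (by simp only [Prod.fst_sub]; linarith) (by
          intro hι1
          rcases hcase with h | h
          · omega
          · linarith)
      simpa using h7)
    have hmin : volume {x : ℝ × ℝ | (x, a - x) ∈ WSW Ψ P s w ∧ Ψ x + Ψ (a - x) ∈ Set.Ioc β β'} ≤
        ENNReal.ofReal (min (s / w) (Cj * (w ^ 2 / (c * X ^ m * s ^ ι)) ^
          (1 / ((m - ι : ℕ) : ℝ)) / w) * (β' - β)) := by
      rcases le_total (s / w) (Cj * (w ^ 2 / (c * X ^ m * s ^ ι)) ^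
          (1 / ((m - ι : ℕ) : ℝ)) / w) with h | h
      · rw [min_eq_left h]; exact hA1
      · rw [min_eq_right h]; exact hB2
    refine hmin.trans (ENNReal.ofReal_le_ofReal (mul_le_mul_of_nonneg_right ?_ (by linarith)))
    have h8 := BP_alg1 (m - ι) hj τ c Cj hτ0 hτ1 hc hCj s w (X ^ m * s ^ ι) hs hw (by positivity)
    rw [← mul_assoc c] at h8
    refine h8.trans (mul_le_mul_of_nonneg_right ?_ hT.le)
    have : 0 ≤ (K ^ (m - 2) / c ^ 2) ^ (τ / ((m - 1 : ℕ) : ℝ)) := by positivity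
    linarith
  · push Not at hcase
    have hι1 : ι = 1 := by omega
    subst hι1
    refine hA1.trans (ENNReal.ofReal_le_ofReal (mul_le_mul_of_nonneg_right ?_ (by linarith)))
    have h8 := BP_alg2 m hm τ c K hτ0 hc hK s w X hs hw hX hsX hcase.2
    rw [pow_one]
    rw [pow_one] at hT
    refine h8.trans (mul_le_mul_of_nonneg_right ?_ hT.le)
    have : 0 ≤ Cj ^ τ * c ^ (-τ / ((m - 1 : ℕ) : ℝ)) := by positivity
    linarith

/-- one term of the double sum -/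
theorem BP_term (m ι : ℕ) (hm : 3 ≤ m) (hι : ι ≤ 1) (q τ : ℝ) (hq4 : 4 < q) (C : ℝ) (hC : 0 < C)
    (s w X : ℝ) (hs : 0 < s) (hw : 0 < w) (hX : 0 < X) :
    (ENNReal.ofReal (C * (w ^ (-1 + 2 * τ / ((m - ι : ℕ) : ℝ)) * s ^ (1 - τ) *
          (X ^ m * s ^ ι) ^ (-τ / ((m - ι : ℕ) : ℝ))))) ^ (2 / q) *
      (ENNReal.ofReal (4 * s * w)) ^ (1 - 4 / q) =
    ENNReal.ofReal (C ^ (2 / q) * 4 ^ (1 - 4 / q) *
      X ^ (-(2 * m * τ / (q * ((m - ι : ℕ) : ℝ))))) *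
      (ENNReal.ofReal (s ^ (1 - 2 / q - 2 * τ * m / (q * ((m - ι : ℕ) : ℝ)))) *
        ENNReal.ofReal (w ^ (1 - 6 / q + 4 * τ / (q * ((m - ι : ℕ) : ℝ))))) := by
  have hq0 : 0 < q := by linarith
  have hj' : (0 : ℝ) < ((m - ι : ℕ) : ℝ) := by
    have : 0 < m - ι := by omega
    exact_mod_cast this
  have hmj : (m : ℝ) = ((m - ι : ℕ) : ℝ) + ι := by
    rw [← Nat.cast_add]
    congr 1
    omega
  have h14 : 0 ≤ 1 - 4 / q := by
    rw [sub_nonneg, div_le_one hq0]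
    exact hq4.le
  have hT : 0 < C * (w ^ (-1 + 2 * τ / ((m - ι : ℕ) : ℝ)) * s ^ (1 - τ) *
          (X ^ m * s ^ ι) ^ (-τ / ((m - ι : ℕ) : ℝ))) := by positivity
  rw [ENNReal.ofReal_rpow_of_pos hT, ENNReal.ofReal_rpow_of_nonneg (by positivity) h14,
    ← ENNReal.ofReal_mul (by positivity), ← ENNReal.ofReal_mul (by positivity),
    ← ENNReal.ofReal_mul (by positivity)]
  congr 1
  have e1 : Real.log (C * (w ^ (-1 + 2 * τ / ((m - ι : ℕ) : ℝ)) * s ^ (1 - τ) *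
          (X ^ m * s ^ ι) ^ (-τ / ((m - ι : ℕ) : ℝ)))) =
      Real.log C + (((-1 + 2 * τ / ((m - ι : ℕ) : ℝ)) * Real.log w + (1 - τ) * Real.log s) +
        (-τ / ((m - ι : ℕ) : ℝ)) * ((m : ℝ) * Real.log X + ι * Real.log s)) := by
    rw [Real.log_mul hC.ne' (by positivity), Real.log_mul (by positivity) (by positivity),
      Real.log_mul (by positivity) (by positivity), Real.log_rpow hw, Real.log_rpow hs,
      Real.log_rpow (by positivity), Real.log_mul (by positivity) (by positivity),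
      Real.log_pow, Real.log_pow]
  have e2 : Real.log (4 * s * w) = Real.log 4 + Real.log s + Real.log w := by
    rw [Real.log_mul (by positivity) hw.ne', Real.log_mul (by norm_num) hs.ne']
  rw [Real.rpow_def_of_pos hT, e1, Real.rpow_def_of_pos (by positivity : 0 < 4 * s * w), e2,
    Real.rpow_def_of_pos hC, Real.rpow_def_of_pos (by norm_num : (0 : ℝ) < 4),
    Real.rpow_def_of_pos hX, Real.rpow_def_of_pos hs, Real.rpow_def_of_pos hw]
  simp only [← Real.exp_add]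
  congr 1
  rw [hmj]
  field_simp
  ring

/-- JOB BP.  The bound for one piece away from the curve.  `V = X^m`, `j = m - ι`, `ι ∈ {0,1}`; `τ ∈ (0,1]` is a
free parameter with `α, β > 0`.

Proof.  `s_i = KX/2^{i+1}`, `w_l = KX^m/2^{l+1}`, `W (i,l) = WSW Ψ P s_i w_l`: pairwise disjoint; they cover all ordered pairs
except those with `D1v Ψ x = D1v Ψ x'`, a null set (for given `x, x₁'` there is at most one `x₂'`, by `MData.mono`; Fubini;
measurability of the `W` through `MData.measD`, `P ⊆ box r`).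
`N = ofReal (8 s w)`: for given `x` (and `x₁'` in an interval of length `s`) the `x₂'` with `|D1v Ψ x' - c0| ≤ 2w` lie in
an interval of length `≤ 4w` (`MData.mono`).
`D`: `shell_b` and `dens2` (`τ0 = w²`): always `D ≤ s/w`; and `D ≤ C (w²/Λ)^{1/j}/w`, `Λ = c X^m s^ι`, if `ι = 0` or
`w ≤ c X^{m-1} s` (the hypothesis gives `OrdProp` for every pair of the group).
In all cases `D ≤ C w^{-1} s^{1-τ} (w²/(X^m s^ι))^{τ/j}`: if both bounds hold take the product of powers `1-τ`, `τ`;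
if `ι = 1` and `w > c X^{m-1}s` then `s^m = s² s^{m-2} ≤ K^{m-2} X^{m-2} s² ≤ K^{m-2} c^{-2} w²/X^m`, i.e.
`s^τ ≤ C (w²/(X^m s))^{τ/j}` (`j = m-1`).
So `D^{2/q} N^{1-4/q} ≤ C w^α s^β X^{-2mτ/(qj)}` with `α = 1-6/q+4τ/(qj)`, `β = 1-2/q-2τm/(qj)` and the double
geometric sum (`geom_all`) is `≤ C X^{β + mα - 2mτ/(qj)} = C X^{(m+1)-(6m+2)/q}` (use `j + ι = m`). -/
theorem b_piece (m ι : ℕ) (hm : 3 ≤ m) (hι : ι ≤ 1) (q τ : ℝ) (hq4 : 4 < q) (hτ0 : 0 < τ) (hτ1 : τ ≤ 1)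
    (hα : 0 < 1 - 6 / q + 4 * τ / (q * ((m - ι : ℕ) : ℝ)))
    (hβ : 0 < 1 - 2 / q - 2 * τ * m / (q * ((m - ι : ℕ) : ℝ))) (K c : ℝ) (hK : 0 < K) (hc : 0 < c) :
    ∃ C : ℝ, 0 < C ∧ ∀ (Ψ : ℝ × ℝ → ℝ) (r : ℝ) (M vs : ℝ → ℝ × ℝ → ℝ) (P : Set (ℝ × ℝ)) (X : ℝ),
      Measurable Ψ → MData Ψ r M vs → MeasurableSet P → P ⊆ box r → 0 < X →
      (∀ x ∈ P, ∀ x' ∈ P, x.1 - x'.1 ≤ K * X) →
      (∀ x ∈ P, ∀ x' ∈ P, |D1v Ψ x - D1v Ψ x'| ≤ K * X ^ m) →
      (∀ x ∈ P, ∀ x' ∈ P, ∀ s : ℝ, 0 < s → s < x.1 - x'.1 → x.1 - x'.1 ≤ 2 * s →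
        (ι = 1 → |D1v Ψ x - D1v Ψ x'| ≤ 2 * (c * X ^ (m - 1) * s)) →
        OrdProp (fun t => M t (x + x')) s (2 * s) (m - ι) (c * X ^ m * s ^ ι)) →
      ∀ h : ℝ × ℝ → ℂ, BddMeas h → ∫⁻ ξ, ‖extOn Ψ P h ξ‖ₑ ^ q ≤
        (ENNReal.ofReal (C * X ^ (((m : ℝ) + 1) - (6 * m + 2) / q)) * mass P h) ^ (q / 2) := by
  have hj : 1 ≤ m - ι := by omega
  have hq0 : 0 < q := by linarith
  obtain ⟨C1, hC1, hD⟩ := BP_D m ι hm hι τ hτ0 hτ1 K c hK hc
  obtain ⟨Cs, hCs, hgs⟩ := geom_all _ hβ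
  obtain ⟨Cw, hCw, hgw⟩ := geom_all _ hα
  have hj' : (0 : ℝ) < ((m - ι : ℕ) : ℝ) := by
    have : 0 < m - ι := by omega
    exact_mod_cast this
  have hmj : (m : ℝ) = ((m - ι : ℕ) : ℝ) + ι := by
    rw [← Nat.cast_add]
    congr 1
    omega
  set α : ℝ := 1 - 6 / q + 4 * τ / (q * ((m - ι : ℕ) : ℝ)) with hαdef
  set β : ℝ := 1 - 2 / q - 2 * τ * m / (q * ((m - ι : ℕ) : ℝ)) with hβdef
  refine ⟨2 * (C1 ^ (2 / q) * 4 ^ (1 - 4 / q) * (Cs * K ^ β * (Cw * K ^ α))), by positivity, ?_⟩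
  intro Ψ r M vs P X hΨ hM hP hPr hX hK1 hK2 hOrd h hh
  have hKX : 0 < K * X := by positivity
  have hKXm : 0 < K * X ^ m := by positivity
  have hfin : volume P ≠ ⊤ := by
    refine ne_top_of_le_ne_top ?_ (measure_mono hPr)
    unfold box
    rw [Measure.volume_eq_prod, Measure.prod_prod]
    simp only [Real.volume_Ioo]
    exact ENNReal.mul_ne_top ENNReal.ofReal_ne_top ENNReal.ofReal_ne_top
  have hspos : ∀ i : ℕ, 0 < K * X / 2 ^ (i + 1) := fun i => by positivity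
  have hwpos : ∀ i : ℕ, 0 < K * X ^ m / 2 ^ (i + 1) := fun i => by positivity
  have hsle : ∀ i : ℕ, K * X / 2 ^ (i + 1) ≤ K * X := fun i =>
    div_le_self hKX.le (one_le_pow₀ (by norm_num))
  have hpair := pair_thm (ι := ℕ × ℕ) Ψ hΨ P hP hfin
    (fun i => WSW Ψ P (K * X / 2 ^ (i.1 + 1)) (K * X ^ m / 2 ^ (i.2 + 1)))
    (fun i => BP_meas Ψ r M vs hM P hP hPr _ _)
    (fun i p hp => ⟨hp.1.1, hp.1.2.1⟩)
    (fun i p hp => by
      have h1 := hp.1.2.2.1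
      have h2 := hspos i.1
      linarith)
    (by
      intro i i' hii'
      rw [Function.onFun, Set.disjoint_left]
      intro p hp hp'
      apply hii'
      have h1 := BP_uniq hKX hp.1.2.2.1 hp.1.2.2.2 hp'.1.2.2.1 hp'.1.2.2.2
      have h2 := BP_uniq hKXm hp.2.1 hp.2.2 hp'.2.1 hp'.2.2
      exact Prod.ext h1 h2)
    (by
      refine measure_mono_null ?_ (BP_null Ψ r M vs hM P hP hPr)
      rintro p ⟨⟨h1, h2, h3⟩, h4⟩
      refine ⟨h1, h2, ?_⟩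
      by_contra hne
      apply h4
      obtain ⟨i, hi1, hi2⟩ := BP_ex (S := K * X) (z := p.1.1 - p.2.1) (by linarith)
        (hK1 _ h1 _ h2)
      obtain ⟨l, hl1, hl2⟩ := BP_ex (S := K * X ^ m) (z := |D1v Ψ p.1 - D1v Ψ p.2|)
        (abs_pos.mpr (sub_ne_zero.mpr hne)) (hK2 _ h1 _ h2)
      exact Set.mem_iUnion.mpr ⟨(i, l), ⟨⟨h1, h2, hi1, hi2⟩, hl1, hl2⟩⟩)
    (fun i => ENNReal.ofReal (C1 * ((K * X ^ m / 2 ^ (i.2 + 1)) ^
        (-1 + 2 * τ / ((m - ι : ℕ) : ℝ)) * (K * X / 2 ^ (i.1 + 1)) ^ (1 - τ) *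
          (X ^ m * (K * X / 2 ^ (i.1 + 1)) ^ ι) ^ (-τ / ((m - ι : ℕ) : ℝ)))))
    (fun i => ENNReal.ofReal (4 * (K * X / 2 ^ (i.1 + 1)) * (K * X ^ m / 2 ^ (i.2 + 1))))
    (fun i => ENNReal.ofReal_ne_top) (fun i => ENNReal.ofReal_ne_top)
    (fun i A hA => hD Ψ r M vs P X hΨ hM hP hPr hX hOrd _ _ (hspos i.1) (hwpos i.2)
      (hsle i.1) A hA)
    (fun i x => BP_N1 Ψ r M vs hM P hP hPr _ _ (hspos i.1).le (hwpos i.2).le x)
    (fun i x => BP_N2 Ψ r M vs hM P hP hPr _ _ (hspos i.1).le (hwpos i.2).le x)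
    q hq4 h hh
  refine hpair.trans (ENNReal.rpow_le_rpow (mul_le_mul_left ?_ _) (by positivity))
  simp only [BP_term m ι hm hι q τ hq4 C1 hC1 _ _ X (hspos _) (hwpos _) hX]
  rw [ENNReal.tsum_prod']
  simp only [ENNReal.tsum_mul_left]
  rw [ENNReal.tsum_mul_right]
  calc 2 * (ENNReal.ofReal (C1 ^ (2 / q) * 4 ^ (1 - 4 / q) *
          X ^ (-(2 * m * τ / (q * ((m - ι : ℕ) : ℝ))))) *
        ((∑' i : ℕ, ENNReal.ofReal ((K * X / 2 ^ (i + 1)) ^ β)) *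
          (∑' i : ℕ, ENNReal.ofReal ((K * X ^ m / 2 ^ (i + 1)) ^ α))))
      ≤ ENNReal.ofReal 2 * (ENNReal.ofReal (C1 ^ (2 / q) * 4 ^ (1 - 4 / q) *
          X ^ (-(2 * m * τ / (q * ((m - ι : ℕ) : ℝ))))) *
        (ENNReal.ofReal (Cs * (K * X) ^ β) * ENNReal.ofReal (Cw * (K * X ^ m) ^ α))) := by
        rw [ENNReal.ofReal_ofNat]
        gcongr
        · exact hgs _ hKX
        · exact hgw _ hKXm
    _ = ENNReal.ofReal (2 * (C1 ^ (2 / q) * 4 ^ (1 - 4 / q) * (Cs * K ^ β * (Cw * K ^ α))) *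
          X ^ (((m : ℝ) + 1) - (6 * m + 2) / q)) := by
        rw [← ENNReal.ofReal_mul (by positivity), ← ENNReal.ofReal_mul (by positivity),
          ← ENNReal.ofReal_mul (by positivity)]
        congr 1
        rw [Real.mul_rpow hK.le hX.le, Real.mul_rpow hK.le (by positivity)]
        have e1 : X ^ (((m : ℝ) + 1) - (6 * m + 2) / q) =
            X ^ (-(2 * m * τ / (q * ((m - ι : ℕ) : ℝ)))) * (X ^ β * (X ^ m) ^ α) := by
          rw [← Real.rpow_natCast X m, ← Real.rpow_mul hX.le, ← Real.rpow_add hX,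
            ← Real.rpow_add hX]
          congr 1
          rw [hαdef, hβdef, hmj]
          field_simp
          ring
        rw [e1]
        ring

end Pool.Agent.FlatRes
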