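import Pool.Agent.Lib.MP_40a0b6_an.N2Defs
set_option autoImplicit false
open MeasureTheory
open scoped ENNReal FourierTransform SchwartzMap
namespace Pool.Agent.FlatRes

/-- curvature pieces near the curve, `m ≥ 3`; `X = ϱ^k`, `δ = L X^{2m-2} 2^{-j}` -/
def pAC (m : ℕ) (E : ℝ × (ℝ × ℝ) → ℝ) (C0 r ϱ : ℝ) (k j : ℕ) (σ : ℝ) : Set (ℝ × ℝ) :=
  {x | x ∈ regAC m C0 r ∧ ϱ ^ (k + 1) < x.1 ∧ x.1 ≤ ϱ ^ k ∧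
    ((m : ℝ) * (m - 1) * C0 + 1) * (ϱ ^ k) ^ (2 * m - 2) * (1 / 2) ^ (j + 1) < σ * lamA m E x ∧
    σ * lamA m E x ≤ ((m : ℝ) * (m - 1) * C0 + 1) * (ϱ ^ k) ^ (2 * m - 2) * (1 / 2) ^ j}

/-- pieces away from the curve, `σ(x₂-x₁^m) ~ 2^{-j}` -/
def pB (m : ℕ) (C0 r : ℝ) (j : ℕ) (σ : ℝ) : Set (ℝ × ℝ) :=
  {x | x ∈ regB m C0 r ∧ (1 / 2 : ℝ) ^ (j + 1) < σ * (x.2 - x.1 ^ m) ∧
    σ * (x.2 - x.1 ^ m) ≤ (1 / 2 : ℝ) ^ j}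

/-- the same, with the sign of `lamB` -/
def pBo (m : ℕ) (E : ℝ × (ℝ × ℝ) → ℝ) (C0 r : ℝ) (j : ℕ) (σ σ' : ℝ) : Set (ℝ × ℝ) :=
  {x | x ∈ pB m C0 r j σ ∧ 0 < σ' * lamB m E x}

/-- curvature pieces, `m = 2` -/
def pTwo (E : ℝ × (ℝ × ℝ) → ℝ) (r : ℝ) (j : ℕ) (σ : ℝ) : Set (ℝ × ℝ) :=
  {x | x ∈ hbox r ∧ (1 / 2 : ℝ) ^ (j + 1) < σ * lamA 2 E x ∧ σ * lamA 2 E x ≤ (1 / 2 : ℝ) ^ j}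

/-- sign of a Boolean -/
def sgb (b : Bool) : ℝ := if b then 1 else -1

end Pool.Agent.FlatRes
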