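import Mathlib
import Pool.Agent.Lib.MP_40a0b6_an.N2PDef
import Pool.Agent.Lib.MP_40a0b6_an.N2BP
import Pool.Agent.Lib.MP_40a0b6_an.N2BEven
set_option autoImplicit false
open MeasureTheory
open scoped ENNReal FourierTransform SchwartzMap
namespace Pool.Agent.FlatRes

theorem N2BEB_pB_meas (m : ℕ) (C0 r : ℝ) (j : ℕ) (σ : ℝ) : MeasurableSet (pB m C0 r j σ) := by
  have h1 : MeasurableSet (box r) := (isOpen_Ioo.prod isOpen_Ioo).measurableSet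
  have h2 : MeasurableSet {x : ℝ × ℝ | 0 < x.1} :=
    measurableSet_lt measurable_const measurable_fst
  have h3 : MeasurableSet {x : ℝ × ℝ | C0 * x.1 ^ m < |x.2 - x.1 ^ m|} :=
    measurableSet_lt (by fun_prop) (by fun_prop)
  have h4 : MeasurableSet {x : ℝ × ℝ | (1 / 2 : ℝ) ^ (j + 1) < σ * (x.2 - x.1 ^ m)} :=
    measurableSet_lt (by fun_prop) (by fun_prop)
  have h5 : MeasurableSet {x : ℝ × ℝ | σ * (x.2 - x.1 ^ m) ≤ (1 / 2 : ℝ) ^ j} :=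
    measurableSet_le (by fun_prop) (by fun_prop)
  exact ((h1.inter (h2.inter h3)).inter (h4.inter h5))

/-- elementary facts on the points of a piece; `X ^ m = 2 ^ (-j)` -/
theorem N2BEB_pt {m : ℕ} (hm : 1 ≤ m) {C0 r : ℝ} (hC0 : 1 ≤ C0) {j : ℕ} {σ : ℝ} (hσ : IsSign σ)
    {X : ℝ} (hX0 : 0 < X) (hX1 : X ≤ 1) (hXm : X ^ m = (1 / 2 : ℝ) ^ j) {x : ℝ × ℝ}
    (hx : x ∈ pB m C0 r j σ) :
    x ∈ box r ∧ 0 < x.1 ∧ C0 * x.1 ^ m < |x.2 - x.1 ^ m| ∧ X ^ m / 2 < σ * (x.2 - x.1 ^ m) ∧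
      σ * (x.2 - x.1 ^ m) ≤ X ^ m ∧ x.1 ^ m < X ^ m ∧ x.1 < X ∧ ‖x‖ ≤ 2 * X := by
  obtain ⟨⟨hb, hx0, hC⟩, h1, h2⟩ := hx
  have h1' : X ^ m / 2 < σ * (x.2 - x.1 ^ m) := by
    rw [hXm]
    rw [pow_succ] at h1
    linarith
  have h2' : σ * (x.2 - x.1 ^ m) ≤ X ^ m := by rw [hXm]; exact h2
  have hXm0 : 0 < X ^ m := pow_pos hX0 m
  have habs : |x.2 - x.1 ^ m| = σ * (x.2 - x.1 ^ m) := by
    rcases hσ with rfl | rfl
    · rw [one_mul] at h1' ⊢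
      exact abs_of_pos (by linarith)
    · rw [neg_one_mul] at h1' ⊢
      exact abs_of_neg (by linarith)
  have hxm0 : 0 < x.1 ^ m := pow_pos hx0 m
  have h3 : x.1 ^ m < X ^ m := by
    have : x.1 ^ m ≤ C0 * x.1 ^ m := by nlinarith
    rw [habs] at hC
    linarith
  have h4 : x.1 < X := lt_of_pow_lt_pow_left₀ m hX0.le h3
  have h5 : X ^ m ≤ X := by
    calc X ^ m ≤ X ^ 1 := pow_le_pow_of_le_one hX0.le hX1 hm
      _ = X := pow_one X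
  refine ⟨hb, hx0, hC, h1', h2', h3, h4, ?_⟩
  rw [Prod.norm_def]
  refine max_le ?_ ?_
  · rw [Real.norm_of_nonneg hx0.le]
    linarith
  · rw [Real.norm_eq_abs]
    have h6 : |x.2| ≤ |x.2 - x.1 ^ m| + |x.1 ^ m| := by
      have := abs_add_le (x.2 - x.1 ^ m) (x.1 ^ m)
      simpa using this
    rw [abs_of_pos hxm0, habs] at h6
    linarith

/-- JOB BEB.  Bound for the pieces away from the curve, `m` even.

Proof.  `C0 ≥ C1`; `c, ε` from `b_even`; `b_piece m 0` with `K = 4` and `min c 1`.  `X = ((1/2)^j)^{1/m}`, `X^m = 2^{-j}`.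
`r1` from `GoodE` (`N = 2m`, `J = m`, `ε' = min ε 1 / 2^{2m}`, so that `ε'(2X)^{2m} ≤ ε X^{2m}`), `r ≤ 1/2`.  Points of `P = pB ..`:
`x₁^m < |y|/C0 ≤ X^m`, so `x₁ < X`; `‖x‖ ≤ 2X`.  `|D1v Ψ x - D1v Ψ x'| ≤ 2|y-y'| + e0(..) ≤ 4X^m` (`dpsi`; both `y` have the sign `σ`).
The third hypothesis of `b_piece` is `b_even` (`ι = 0`, `s^0 = 1`; a pair with `s < x₁-x₁'` has `x₁' < x₁`). -/
theorem pb_bound_even (m : ℕ) (hm : 4 ≤ m) (heven : Even m) : ∃ C1 : ℝ, 1 ≤ C1 ∧ ∀ C0 : ℝ, C1 ≤ C0 →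
    ∀ (g : ℝ × ℝ → ℝ) (E : ℝ × (ℝ × ℝ) → ℝ) (vs : ℝ → ℝ × ℝ → ℝ), GoodE m g E vs →
    ∀ (q τ : ℝ), 4 < q → 0 < τ → τ ≤ 1 → 0 < 1 - 6 / q + 4 * τ / (q * ((m - 0 : ℕ) : ℝ)) →
    0 < 1 - 2 / q - 2 * τ * m / (q * ((m - 0 : ℕ) : ℝ)) →
    ∃ C : ℝ, 0 < C ∧ ∃ r1 : ℝ, 0 < r1 ∧ ∀ r, 0 < r → r ≤ r1 → ∀ (j : ℕ) (σ : ℝ), IsSign σ →
      ∀ h : ℝ × ℝ → ℂ, BddMeas h → ∫⁻ ξ, ‖extOn (psi0 2 m g r) (pB m C0 r j σ) h ξ‖ₑ ^ q ≤
        (ENNReal.ofReal (C * ((1 / 2 : ℝ) ^ j) ^ ((((m : ℝ) + 1) - (6 * m + 2) / q) / m)) *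
          mass (pB m C0 r j σ) h) ^ (q / 2) := by
  obtain ⟨C1, hC1, hbe⟩ := b_even m hm heven
  refine ⟨C1, hC1, fun C0 hC0 g E vs hgood q τ hq4 hτ0 hτ1 hα hβ => ?_⟩
  obtain ⟨c, hc, ε, hε, hbe⟩ := hbe C0 hC0
  obtain ⟨C, hC, hbp⟩ := b_piece m 0 (by omega) (by omega) q τ hq4 hτ0 hτ1 hα hβ 4 c
    (by norm_num) hc
  obtain ⟨⟨r0, hr0, -, hr0p⟩, hE⟩ := hgood
  have h2m : (0 : ℝ) < 2 ^ (2 * m) := by positivity
  obtain ⟨ra, hra, hEa⟩ := hE (2 * m) m (ε / 2 ^ (2 * m)) (by positivity)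
  obtain ⟨rb, hrb, hEb⟩ := hE (2 * m) m (1 / 2 ^ (2 * m)) (by positivity)
  refine ⟨C, hC, min r0 (min ra rb), lt_min hr0 (lt_min hra hrb), fun r hr hrle j σ hσ h hh => ?_⟩
  have hrr0 : r ≤ r0 := hrle.trans (min_le_left _ _)
  have hrra : r ≤ ra := hrle.trans ((min_le_right _ _).trans (min_le_left _ _))
  have hrrb : r ≤ rb := hrle.trans ((min_le_right _ _).trans (min_le_right _ _))
  have hm0 : m ≠ 0 := by omega
  have hmR : (0 : ℝ) < m := by exact_mod_cast (by omega : 0 < m)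
  set X : ℝ := ((1 / 2 : ℝ) ^ j) ^ ((m : ℝ)⁻¹) with hX
  have hj0 : (0 : ℝ) < (1 / 2 : ℝ) ^ j := by positivity
  have hX0 : 0 < X := Real.rpow_pos_of_pos hj0 _
  have hXm : X ^ m = (1 / 2 : ℝ) ^ j := Real.rpow_inv_natCast_pow hj0.le hm0
  have hX1 : X ≤ 1 := by
    apply Real.rpow_le_one hj0.le
    · exact pow_le_one₀ (by norm_num) (by norm_num)
    · positivity
  have hC01 : 1 ≤ C0 := hC1.trans hC0
  have hpt : ∀ x ∈ pB m C0 r j σ, _ := fun x hx =>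
    N2BEB_pt (by omega : 1 ≤ m) hC01 hσ hX0 hX1 hXm hx
  have hXm0 : 0 < X ^ m := pow_pos hX0 m
  have hXm1 : X ^ m ≤ 1 := pow_le_one₀ hX0.le hX1
  have hEDa : EData m (psi0 2 m g r) r E m (2 * X) (ε * X ^ (2 * m)) := by
    have := hEa r hr hrra (2 * X) (by positivity)
    have e : ε / 2 ^ (2 * m) * (2 * X) ^ (2 * m) = ε * X ^ (2 * m) := by
      rw [mul_pow]; field_simp
    rwa [e] at this
  have hEDb : EData m (psi0 2 m g r) r E m (2 * X) (X ^ (2 * m)) := by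
    have := hEb r hr hrrb (2 * X) (by positivity)
    have e : 1 / 2 ^ (2 * m) * (2 * X) ^ (2 * m) = X ^ (2 * m) := by
      rw [mul_pow]; field_simp
    rwa [e] at this
  obtain ⟨hΨ, hMD⟩ := hr0p r hr hrr0
  have hmain := hbp (psi0 2 m g r) r (MM m E) vs (pB m C0 r j σ) X hΨ hMD
    (N2BEB_pB_meas m C0 r j σ) (fun x hx => (hpt x hx).1) hX0 ?_ ?_ ?_ h hh
  · have e : X ^ (((m : ℝ) + 1) - (6 * m + 2) / q) =
        ((1 / 2 : ℝ) ^ j) ^ ((((m : ℝ) + 1) - (6 * m + 2) / q) / m) := by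
      rw [hX, ← Real.rpow_mul hj0.le]
      congr 1
      exact (div_eq_inv_mul _ _).symm
    rwa [e] at hmain
  · intro x hx x' hx'
    obtain ⟨-, -, -, -, -, -, h1, -⟩ := hpt x hx
    obtain ⟨-, h2, -, -, -, -, -, -⟩ := hpt x' hx'
    linarith
  · intro x hx x' hx'
    obtain ⟨a1, a2, a3, a4, a5, a6, a7, a8⟩ := hpt x hx
    obtain ⟨b1, b2, b3, b4, b5, b6, b7, b8⟩ := hpt x' hx'
    have h1 := hEDb.dpsi x a1 x' b1 a8 b8
    have hxm0 : 0 < x.1 ^ m := pow_pos a2 m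
    have hxm0' : 0 < x'.1 ^ m := pow_pos b2 m
    have hy : |(x.2 - x.1 ^ m) - (x'.2 - x'.1 ^ m)| ≤ X ^ m / 2 := by
      rw [abs_le]
      rcases hσ with rfl | rfl
      · constructor <;> linarith
      · constructor <;> linarith
    have h2 : |x.1 - x'.1| ≤ X := by
      rw [abs_le]
      constructor <;> linarith
    have h3 : |x.2 - x'.2| ≤ 3 / 2 * X ^ m := by
      have hy' := abs_le.1 hy
      rw [abs_le]
      constructor <;> linarith [hy'.1, hy'.2]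
    have h4 : X ^ (2 * m) = X ^ m * X ^ m := by rw [← pow_add]; congr 1; omega
    have h5 : X ^ (2 * m) * (|x.1 - x'.1| + |x.2 - x'.2|) ≤ 5 / 2 * X ^ m := by
      rw [h4]
      calc X ^ m * X ^ m * (|x.1 - x'.1| + |x.2 - x'.2|)
          ≤ X ^ m * 1 * (1 + 3 / 2 * 1) := by
            gcongr
            · linarith
            · linarith
        _ = 5 / 2 * X ^ m := by ring
    have h6 : |D1v (psi0 2 m g r) x - D1v (psi0 2 m g r) x'| ≤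
        |(D1v (psi0 2 m g r) x - 2 * (x.2 - x.1 ^ m)) -
          (D1v (psi0 2 m g r) x' - 2 * (x'.2 - x'.1 ^ m))| +
        2 * |(x.2 - x.1 ^ m) - (x'.2 - x'.1 ^ m)| := by
      have := abs_add_le ((D1v (psi0 2 m g r) x - 2 * (x.2 - x.1 ^ m)) -
          (D1v (psi0 2 m g r) x' - 2 * (x'.2 - x'.1 ^ m)))
          (2 * ((x.2 - x.1 ^ m) - (x'.2 - x'.1 ^ m)))
      rw [abs_mul, abs_of_pos (by norm_num : (0 : ℝ) < 2)] at this
      refine le_trans (le_of_eq ?_) this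
      congr 1
      ring
    linarith
  · intro x hx x' hx' s hs hs1 hs2 _
    obtain ⟨a1, a2, a3, a4, a5, a6, a7, a8⟩ := hpt x hx
    obtain ⟨b1, b2, b3, b4, b5, b6, b7, b8⟩ := hpt x' hx'
    have := hbe (psi0 2 m g r) r E X hr hX0 hX1 hEDa x a1 x' b1 σ hσ b2 (by linarith) a3 b3
      a4 a5 b4 b5 s hs hs1 hs2
    simpa using this

end Pool.Agent.FlatRes
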