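import Pool.Agent.Lib.MP_40a0b6_an.N2MDer
import Pool.Agent.Lib.MP_40a0b6_an.N2Alg
set_option autoImplicit false
open MeasureTheory
open scoped ENNReal FourierTransform SchwartzMap
namespace Pool.Agent.FlatRes

private theorem bodd_sum (m : ℕ) (a1 t W : ℝ) (h1 : |(a1 + t) / 2| ≤ W)
    (h2 : |(a1 - t) / 2| ≤ W) :
    |∑ i ∈ Finset.range (m + 1), (m.choose i : ℝ) * Gg m i a1 t * Gg m (m - i) a1 t| ≤
      2 ^ m * (4 * (m.factorial : ℝ) ^ 2 * W ^ m) := by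
  have hW : 0 ≤ W := (abs_nonneg _).trans h1
  calc |∑ i ∈ Finset.range (m + 1), (m.choose i : ℝ) * Gg m i a1 t * Gg m (m - i) a1 t|
      ≤ ∑ i ∈ Finset.range (m + 1), |(m.choose i : ℝ) * Gg m i a1 t * Gg m (m - i) a1 t| :=
        Finset.abs_sum_le_sum_abs _ _
    _ ≤ ∑ i ∈ Finset.range (m + 1), (m.choose i : ℝ) * (4 * (m.factorial : ℝ) ^ 2 * W ^ m) := by
        refine Finset.sum_le_sum ?_
        intro i hi
        have hi' : i ≤ m := Nat.lt_succ_iff.1 (Finset.mem_range.1 hi)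
        have b1 := gg_bound m i hi' a1 t W h1 h2
        have b2 := gg_bound m (m - i) (Nat.sub_le _ _) a1 t W h1 h2
        have e : m - (m - i) = i := by omega
        rw [e] at b2
        rw [mul_assoc, abs_mul, abs_mul, abs_of_nonneg (Nat.cast_nonneg (m.choose i))]
        refine mul_le_mul_of_nonneg_left ?_ (Nat.cast_nonneg _)
        calc |Gg m i a1 t| * |Gg m (m - i) a1 t|
            ≤ (2 * (m.factorial : ℝ) * W ^ (m - i)) * (2 * (m.factorial : ℝ) * W ^ i) :=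
              mul_le_mul b1 b2 (abs_nonneg _) (by positivity)
          _ = 4 * (m.factorial : ℝ) ^ 2 * (W ^ (m - i) * W ^ i) := by ring
          _ = 4 * (m.factorial : ℝ) ^ 2 * W ^ m := by rw [← pow_add, Nat.sub_add_cancel hi']
    _ = 2 ^ m * (4 * (m.factorial : ℝ) ^ 2 * W ^ m) := by
        rw [← Finset.sum_mul]
        congr 1
        exact_mod_cast Nat.sum_range_choose m

private theorem bodd_sign {σ y V : ℝ} (hσ : IsSign σ) (hV : 0 < V) (h1 : V / 2 < σ * y)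
    (h2 : σ * y ≤ V) : |y| = σ * y := by
  rcases hσ with rfl | rfl
  · rw [one_mul] at h1 ⊢
    exact abs_of_pos (by linarith)
  · have : y < 0 := by linarith
    rw [abs_of_neg this]
    ring

private theorem bodd_abs {σ : ℝ} (hσ : IsSign σ) (y : ℝ) : |σ * y| = |y| := by
  rcases hσ with rfl | rfl
  · rw [one_mul]
  · rw [neg_one_mul, abs_neg]

private theorem bodd_top (m : ℕ) (hodd : Odd m) (a1 t : ℝ) : Gg m m a1 t = 0 := by
  unfold Gg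
  rw [Nat.sub_self, pow_zero, pow_zero, hodd.neg_one_pow]
  ring

/-- the algebra of (i) -/
private theorem bodd_core1 {A A2 η V s n T σ u v u' v' e e' P P' L L' : ℝ}
    (hσ : IsSign σ) (hA : 0 < A) (hη : 0 < η) (hV : 0 < V) (hs : 0 < s) (hn : 0 ≤ n)
    (hL : L = -A * u * v + A2 * P + e) (hL' : L' = -A * u' * v' + A2 * P' + e')
    (hT : 4 * (n + 1) * A + 2 * |A2| * (n + 1) ^ 2 + (4 * n + 6) ^ 2 ≤ T)
    (hTη : T * η ≤ A / 32)
    (h1 : |(u + u') * (v - v')| ≤ 8 * (n + 1) * η * (V * s))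
    (h3 : |P - P'| ≤ 2 * (n + 1) * η * (V * s))
    (h5 : |e - e'| ≤ (4 * n + 6) * η * (V * s))
    (h7 : 3 / 4 * V ≤ σ * (v + v')) (h8 : s ≤ u - u') : A / 4 * (V * s) ≤ |L - L'| := by
  have hW : 0 < V * s := mul_pos hV hs
  have g1 : 3 / 4 * (V * s) ≤ (u - u') * (σ * (v + v')) := by
    have k1 : s * (3 / 4 * V) ≤ (u - u') * (σ * (v + v')) :=
      mul_le_mul h8 h7 (by positivity) (hs.le.trans h8)
    have k2 : s * (3 / 4 * V) = 3 / 4 * (V * s) := by ring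
    linarith only [k1, k2]
  set W := V * s with hWdef
  have hηW : 0 < η * W := mul_pos hη hW
  have hTW : (4 * (n + 1) * A + 2 * |A2| * (n + 1) ^ 2 + (4 * n + 6) ^ 2) * (η * W) ≤
      A / 32 * W := by
    have k1 := mul_le_mul_of_nonneg_right hT hηW.le
    have k2 := mul_le_mul_of_nonneg_right hTη hW.le
    have k3 : T * (η * W) = T * η * W := by ring
    linarith only [k1, k2, k3]
  have hA2 : 0 ≤ |A2| := abs_nonneg _
  have g2 : -(8 * (n + 1) * η * W) ≤ σ * ((u + u') * (v - v')) := by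
    have k1 := neg_abs_le (σ * ((u + u') * (v - v')))
    rw [bodd_abs hσ] at k1
    linarith only [k1, h1]
  have g3 : σ * (A2 * (P - P')) ≤ |A2| * (2 * (n + 1) * η * W) := by
    have k1 := le_abs_self (σ * (A2 * (P - P')))
    rw [bodd_abs hσ, abs_mul] at k1
    have k2 := mul_le_mul_of_nonneg_left h3 hA2
    linarith only [k1, k2]
  have g4 : σ * (e - e') ≤ (4 * n + 6) * η * W := by
    have k1 := le_abs_self (σ * (e - e'))
    rw [bodd_abs hσ] at k1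
    linarith only [k1, h5]
  have k1 : -(σ * (L - L')) = A / 2 * (σ * ((u + u') * (v - v'))) +
      A / 2 * ((u - u') * (σ * (v + v'))) - σ * (A2 * (P - P')) - σ * (e - e') := by
    rw [hL, hL']
    ring
  have k2 : A / 2 * -(8 * (n + 1) * η * W) ≤ A / 2 * (σ * ((u + u') * (v - v'))) :=
    mul_le_mul_of_nonneg_left g2 (by positivity)
  have k3 : A / 2 * (3 / 4 * W) ≤ A / 2 * ((u - u') * (σ * (v + v'))) :=
    mul_le_mul_of_nonneg_left g1 (by positivity)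
  have k4 : |A2| * (n + 1) ≤ |A2| * (n + 1) ^ 2 := by
    refine mul_le_mul_of_nonneg_left ?_ hA2
    nlinarith only [hn]
  have k5 : (4 * n + 6) ≤ (4 * n + 6) ^ 2 := by nlinarith only [hn]
  have k6 : (4 * (n + 1) * A + 2 * (|A2| * (n + 1)) + (4 * n + 6)) * (η * W) ≤
      (4 * (n + 1) * A + 2 * |A2| * (n + 1) ^ 2 + (4 * n + 6) ^ 2) * (η * W) := by
    refine mul_le_mul_of_nonneg_right ?_ hηW.le
    linarith only [k4, k5]
  have k7 : (4 * (n + 1) * A + 2 * (|A2| * (n + 1)) + (4 * n + 6)) * (η * W) =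
      A / 2 * (8 * (n + 1) * η * W) + |A2| * (2 * (n + 1) * η * W) +
        (4 * n + 6) * η * W := by ring
  have k8 : 0 < A * W := mul_pos hA hW
  have k12 := neg_abs_le (σ * (L - L'))
  rw [bodd_abs hσ] at k12
  linarith only [k1, k2, k3, k6, k7, k8, k12, g3, g4, hTW]

/-- the algebra of (ii) -/
private theorem bodd_core2 {A A2 η V s n T u v u' v' e e' em P P' Pm L L' Lm : ℝ}
    (hA : 0 < A) (hη : 0 < η) (hV : 0 < V) (hs : 0 < s) (hn : 0 ≤ n)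
    (hL : L = -A * u * v + A2 * P + e) (hL' : L' = -A * u' * v' + A2 * P' + e')
    (hLm : Lm = -A * ((u + u') / 2) * ((v + v') / 2) + A2 * Pm + em)
    (hT : 4 * (n + 1) * A + 2 * |A2| * (n + 1) ^ 2 + (4 * n + 6) ^ 2 ≤ T)
    (hTη : T * η ≤ A / 32)
    (h2 : |(u - u') * (v - v')| ≤ 4 * (n + 1) * η * (V * s))
    (h4 : |P + P' - 2 * Pm| ≤ 2 * (n + 1) ^ 2 * η * (V * s))
    (h6 : |e + e' - 2 * em| ≤ (4 * n + 6) ^ 2 * η * (V * s)) :
    |L + L' - 2 * Lm| ≤ A / 32 * (V * s) := by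
  have hW : 0 < V * s := mul_pos hV hs
  set W := V * s with hWdef
  have hηW : 0 < η * W := mul_pos hη hW
  have hTW : (4 * (n + 1) * A + 2 * |A2| * (n + 1) ^ 2 + (4 * n + 6) ^ 2) * (η * W) ≤
      A / 32 * W := by
    have k1 := mul_le_mul_of_nonneg_right hT hηW.le
    have k2 := mul_le_mul_of_nonneg_right hTη hW.le
    have k3 : T * (η * W) = T * η * W := by ring
    linarith only [k1, k2, k3]
  have hA2 : 0 ≤ |A2| := abs_nonneg _
  have k1 : L + L' - 2 * Lm = -(A / 2) * ((u - u') * (v - v')) + A2 * (P + P' - 2 * Pm) +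
      (e + e' - 2 * em) := by
    rw [hL, hL', hLm]
    ring
  rw [k1]
  have k2 := abs_add_le (-(A / 2) * ((u - u') * (v - v')) + A2 * (P + P' - 2 * Pm))
    (e + e' - 2 * em)
  have k3 := abs_add_le (-(A / 2) * ((u - u') * (v - v'))) (A2 * (P + P' - 2 * Pm))
  rw [abs_mul, abs_mul A2, abs_neg, abs_of_pos (by positivity : 0 < A / 2)] at k3
  have k4 := mul_le_mul_of_nonneg_left h4 hA2
  have k5 := mul_le_mul_of_nonneg_left h2 (by positivity : 0 ≤ A / 2)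
  have k6 : (4 * (n + 1) * A + 2 * |A2| * (n + 1) ^ 2 + (4 * n + 6) ^ 2) * (η * W) =
      A / 2 * (4 * (n + 1) * η * W) + |A2| * (2 * (n + 1) ^ 2 * η * W) +
        (4 * n + 6) ^ 2 * η * W + 2 * (n + 1) * (A * (η * W)) := by ring
  have k7 : 0 ≤ 2 * (n + 1) * (A * (η * W)) := by positivity
  linarith only [k2, k3, k4, k5, k6, k7, h6, hTW]

private theorem bodd_core {A W σ' L L' Lm : ℝ} (hσ' : IsSign σ')
    (h1 : A / 4 * W ≤ |L - L'|) (h2 : |L + L' - 2 * Lm| ≤ A / 32 * W)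
    (h9 : 0 < σ' * L) (h10 : 0 < σ' * L') : 7 / 64 * A * W ≤ σ' * Lm := by
  have g7 : |L - L'| ≤ σ' * L + σ' * L' := by
    rw [← bodd_abs hσ', abs_le]
    constructor
    · rw [mul_sub]; linarith only [h9, h10]
    · rw [mul_sub]; linarith only [h9, h10]
  have g9 : σ' * (L + L' - 2 * Lm) ≤ A / 32 * W := by
    have k1 := le_abs_self (σ' * (L + L' - 2 * Lm))
    rw [bodd_abs hσ'] at k1
    linarith only [k1, h2]
  have g10 : σ' * (L + L' - 2 * Lm) = σ' * L + σ' * L' - 2 * (σ' * Lm) := by ring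
  rw [g10] at g9
  linarith only [g9, g7, h1]

private theorem bodd_dv {m : ℕ} {η X s u u' D : ℝ} (hm : 1 ≤ m) (hη : 0 < η) (hη1 : η ≤ 1)
    (hX : 0 < X) (hX1 : X ≤ 1) (hs : 0 < s) (hu' : 0 < u') (hlt : u' < u) (huX : u ≤ X)
    (hum : u ^ m ≤ η * X ^ m) (hz2 : u - u' ≤ 2 * s)
    (hD : D ≤ 2 * (η * X ^ (m - 1) * s) + (2 * (m : ℝ) * u ^ (m - 1) + η * X ^ (2 * m)) * (u - u')) :
    u * D ≤ 4 * ((m : ℝ) + 1) * η * (X ^ m * s) ∧ D ≤ (4 * (m : ℝ) + 4) * s := by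
  have hu : 0 < u := hu'.trans hlt
  have hXm : 0 < X ^ m := pow_pos hX m
  have hXm1 : X ^ m ≤ 1 := pow_le_one₀ hX.le hX1
  have hm0 : (0 : ℝ) ≤ (m : ℝ) := Nat.cast_nonneg m
  have hXX : X ^ (2 * m) ≤ X ^ m := pow_le_pow_of_le_one hX.le hX1 (by omega)
  have hz : 0 < u - u' := by linarith only [hlt]
  have e1 : u * u ^ (m - 1) = u ^ m := by
    rw [← pow_succ']
    congr 1
    omega
  have e2 : X * X ^ (m - 1) = X ^ m := by
    rw [← pow_succ']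
    congr 1
    omega
  constructor
  · have k0 := mul_le_mul_of_nonneg_left hD hu.le
    have k1 : u * (2 * (η * X ^ (m - 1) * s)) ≤ 2 * (η * X ^ m * s) := by
      have j1 : u * (η * X ^ (m - 1) * s * 2) ≤ X * (η * X ^ (m - 1) * s * 2) :=
        mul_le_mul_of_nonneg_right huX (by positivity)
      have j2 : X * (η * X ^ (m - 1) * s * 2) = 2 * (η * X ^ m * s) := by
        rw [← e2]; ring
      linarith only [j1, j2]
    have k2 : u ^ m * (u - u') ≤ (η * X ^ m) * (2 * s) :=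
      mul_le_mul hum hz2 hz.le (by positivity)
    have k3 : (u * X ^ (2 * m)) * (u - u') ≤ (1 * X ^ m) * (2 * s) := by
      refine mul_le_mul ?_ hz2 hz.le (by positivity)
      exact mul_le_mul (huX.trans hX1) hXX (by positivity) (by norm_num)
    have k4 : u * (2 * (η * X ^ (m - 1) * s) +
        (2 * (m : ℝ) * u ^ (m - 1) + η * X ^ (2 * m)) * (u - u')) =
        u * (2 * (η * X ^ (m - 1) * s)) + 2 * (m : ℝ) * (u ^ m * (u - u')) +
          η * ((u * X ^ (2 * m)) * (u - u')) := by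
      rw [← e1]; ring
    have k5 := mul_le_mul_of_nonneg_left k2 (by positivity : 0 ≤ 2 * (m : ℝ))
    have k6 := mul_le_mul_of_nonneg_left k3 hη.le
    linarith only [k0, k1, k4, k5, k6]
  · have k1 : η * X ^ (m - 1) * s ≤ 1 * 1 * s := by
      refine mul_le_mul_of_nonneg_right ?_ hs.le
      exact mul_le_mul hη1 (pow_le_one₀ hX.le hX1) (by positivity) (by norm_num)
    have k2 : (2 * (m : ℝ) * u ^ (m - 1) + η * X ^ (2 * m)) * (u - u') ≤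
        (2 * (m : ℝ) * 1 + 1 * 1) * (2 * s) := by
      refine mul_le_mul ?_ hz2 hz.le (by positivity)
      refine add_le_add ?_ ?_
      · exact mul_le_mul_of_nonneg_left (pow_le_one₀ hu.le (huX.trans hX1)) (by positivity)
      · exact mul_le_mul hη1 (hXX.trans hXm1) (by positivity) (by norm_num)
    linarith only [hD, k1, k2]

private theorem bodd_pow {m : ℕ} {η X s u u' : ℝ} (hη : 0 < η)
    (hX : 0 < X) (hu' : 0 < u') (hlt : u' < u)
    (hum : u ^ m ≤ η * X ^ m) (hz2 : u - u' ≤ 2 * s) :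
    |u ^ (m + 1) - u' ^ (m + 1)| ≤ 2 * ((m : ℝ) + 1) * η * (X ^ m * s) ∧
    |u ^ (m + 1) + u' ^ (m + 1) - 2 * ((u + u') / 2) ^ (m + 1)| ≤
      2 * ((m : ℝ) + 1) ^ 2 * η * (X ^ m * s) := by
  have hu : 0 < u := hu'.trans hlt
  have hXm : 0 < X ^ m := pow_pos hX m
  have hm0 : (0 : ℝ) ≤ (m : ℝ) := Nat.cast_nonneg m
  have hz : 0 < u - u' := by linarith only [hlt]
  have k2 : u ^ m * (u - u') ≤ (η * X ^ m) * (2 * s) :=
    mul_le_mul hum hz2 hz.le (by positivity)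
  constructor
  · have k1 := pow_diff (m + 1) u u' u hu'.le hlt.le le_rfl
    have k3 : |u ^ (m + 1) - u' ^ (m + 1)| ≤ ((m : ℝ) + 1) * (u ^ m * (u - u')) := by
      refine le_of_mul_le_mul_left ?_ hu
      refine k1.trans (le_of_eq ?_)
      push_cast
      ring
    have k4 := mul_le_mul_of_nonneg_left k2 (by positivity : 0 ≤ (m : ℝ) + 1)
    linarith only [k3, k4]
  · have k1 := pow_diff2 (m + 1) u u' u hu'.le hlt.le le_rfl
    have k3 : |u ^ (m + 1) + u' ^ (m + 1) - 2 * ((u + u') / 2) ^ (m + 1)| ≤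
        ((m : ℝ) + 1) ^ 2 * (u ^ m * (u - u')) := by
      refine le_of_mul_le_mul_left ?_ (pow_pos hu 2)
      refine k1.trans ?_
      have j1 : (u - u') ^ 2 ≤ u * (u - u') := by
        rw [sq]
        exact mul_le_mul_of_nonneg_right (by linarith only [hu']) hz.le
      have j2 := mul_le_mul_of_nonneg_left j1
        (by positivity : 0 ≤ ((m : ℝ) + 1) ^ 2 * u ^ (m + 1))
      push_cast
      refine j2.trans (le_of_eq ?_)
      ring
    have k4 := mul_le_mul_of_nonneg_left k2 (by positivity : 0 ≤ ((m : ℝ) + 1) ^ 2)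
    linarith only [k3, k4]

private theorem bodd_e {m : ℕ} {η X s d F F2 : ℝ} (hη : 0 < η)
    (hX : 0 < X) (hX1 : X ≤ 1) (hs : 0 < s) (hs1 : s ≤ 1) (hd0 : 0 ≤ d)
    (hd : d ≤ (4 * (m : ℝ) + 6) * s) (hF : F ≤ η * X ^ (2 * m) * d)
    (hF2 : F2 ≤ η * X ^ (2 * m) * d ^ 2) :
    F ≤ (4 * (m : ℝ) + 6) * η * (X ^ m * s) ∧ F2 ≤ (4 * (m : ℝ) + 6) ^ 2 * η * (X ^ m * s) := by
  have hXm : 0 < X ^ m := pow_pos hX m
  have hXX : X ^ (2 * m) ≤ X ^ m := pow_le_pow_of_le_one hX.le hX1 (by omega)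
  have hm0 : (0 : ℝ) ≤ (m : ℝ) := Nat.cast_nonneg m
  have k0 : η * X ^ (2 * m) ≤ η * X ^ m := mul_le_mul_of_nonneg_left hXX hη.le
  constructor
  · have k1 : η * X ^ (2 * m) * d ≤ η * X ^ m * ((4 * (m : ℝ) + 6) * s) :=
      mul_le_mul k0 hd hd0 (by positivity)
    linarith only [k1, hF]
  · have k2 : d ^ 2 ≤ ((4 * (m : ℝ) + 6) * s) ^ 2 := pow_le_pow_left₀ hd0 hd 2
    have k3 : s ^ 2 ≤ s := by
      rw [sq]
      exact mul_le_of_le_one_left hs.le hs1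
    have k4 : ((4 * (m : ℝ) + 6) * s) ^ 2 ≤ (4 * (m : ℝ) + 6) ^ 2 * s := by
      rw [mul_pow]
      exact mul_le_mul_of_nonneg_left k3 (by positivity)
    have k1 : η * X ^ (2 * m) * d ^ 2 ≤ η * X ^ m * ((4 * (m : ℝ) + 6) ^ 2 * s) :=
      mul_le_mul k0 (k2.trans k4) (by positivity) (by positivity)
    linarith only [k1, hF2]

private theorem bodd_mean (m : ℕ) (hm : 3 ≤ m) (hodd : Odd m) (Ψ : ℝ × ℝ → ℝ) (r : ℝ)
    (E : ℝ × (ℝ × ℝ) → ℝ) (X η : ℝ) (hX : 0 < X) (hX1 : X ≤ 1) (hη : 0 < η)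
    (hE : EData m Ψ r E m (2 * X) (η * X ^ (2 * m))) (x x' : ℝ × ℝ) (hx : x ∈ box r)
    (hx' : x' ∈ box r) (hx'0 : 0 < x'.1) (hlt : x'.1 < x.1) (huX : x.1 ≤ X)
    (h2a : |x.2| ≤ 2 * X) (h2b : |x'.2| ≤ 2 * X) (hum : x.1 ^ m ≤ η * X ^ m)
    (s : ℝ) (hs : 0 < s) (hs1 : s < x.1 - x'.1) (t : ℝ) (ht0 : 0 ≤ t) (ht2 : t ≤ 2 * s) :
    |iteratedDeriv (m - 1) (fun t => MM m E t (x + x')) t -
      lamB m E ((x.1 + x'.1) / 2, (x.2 + x'.2) / 2)| ≤
      (4 * 4 ^ m * (m.factorial : ℝ) ^ 2 + 2) * η * (X ^ m * s) := by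
  obtain ⟨⟨q1, q2⟩, ⟨q3, q4⟩⟩ := hx
  obtain ⟨⟨q5, q6⟩, ⟨q7, q8⟩⟩ := hx'
  have hXm : 0 < X ^ m := pow_pos hX m
  have hXX : X ^ (2 * m) ≤ X ^ m := pow_le_pow_of_le_one hX.le hX1 (by omega)
  have hx0 : 0 < x.1 := hx'0.trans hlt
  have ha1r : |(x + x').1| ≤ 2 * r := by
    show |x.1 + x'.1| ≤ 2 * r
    rw [abs_of_pos (by linarith only [hx0, hx'0])]
    linarith only [q2, q6]
  have ha2r : |(x + x').2| ≤ 2 * r := by
    show |x.2 + x'.2| ≤ 2 * r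
    rw [abs_le]
    constructor
    · linarith only [q3, q7]
    · linarith only [q4, q8]
  have ha1X : |(x + x').1| ≤ 2 * (2 * X) := by
    show |x.1 + x'.1| ≤ 2 * (2 * X)
    rw [abs_of_pos (by linarith only [hx0, hx'0])]
    linarith only [huX, hlt, hX]
  have ha2X : |(x + x').2| ≤ 2 * (2 * X) := by
    show |x.2 + x'.2| ≤ 2 * (2 * X)
    have := abs_add_le x.2 x'.2
    linarith only [this, h2a, h2b]
  have hder : ∀ τ ∈ Set.Icc (0 : ℝ) (2 * s),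
      HasDerivAt (iteratedDeriv (m - 1) (fun t => MM m E t (x + x')))
        (iteratedDeriv m (fun t => MM m E t (x + x')) τ) τ := by
    intro τ hτ
    have htr : |τ| < 4 * r := by
      rw [abs_of_nonneg hτ.1]
      linarith only [hτ.2, hs1, q2, hx'0, hx0]
    have h1 := mm_hasDeriv m Ψ r E m _ _ hE (x + x') ha1r ha2r τ htr (m - 1)
    have e : m - 1 + 1 = m := by omega
    rwa [e] at h1
  have hbd : ∀ τ ∈ Set.Icc (0 : ℝ) (2 * s),
      ‖iteratedDeriv m (fun t => MM m E t (x + x')) τ‖ ≤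
        (2 * 4 ^ m * (m.factorial : ℝ) ^ 2 + 1) * (η * X ^ m) := by
    intro τ hτ
    have htr : |τ| < 4 * r := by
      rw [abs_of_nonneg hτ.1]
      linarith only [hτ.2, hs1, q2, hx'0, hx0]
    have htX : |τ| ≤ 2 * (2 * X) := by
      rw [abs_of_nonneg hτ.1]
      linarith only [hτ.2, hs1, huX, hx'0, hX]
    have hEb := hE.bd (x + x') τ ha1r ha2r htr htX ha1X ha2X m le_rfl
    rw [mm_iter m Ψ r E m _ _ hE (x + x') ha1r ha2r τ htr m, m0_iter m m (by omega),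
      bodd_top m hodd, mul_zero, zero_add]
    have hw1 : |((x + x').1 + τ) / 2| ≤ 2 * x.1 := by
      show |(x.1 + x'.1 + τ) / 2| ≤ 2 * x.1
      rw [abs_of_nonneg (by linarith only [hτ.1, hx0, hx'0])]
      linarith only [hτ.2, hs1, hlt, hx'0]
    have hw2 : |((x + x').1 - τ) / 2| ≤ 2 * x.1 := by
      show |(x.1 + x'.1 - τ) / 2| ≤ 2 * x.1
      rw [abs_le]
      constructor
      · linarith only [hτ.2, hs1, hlt, hx'0]
      · linarith only [hτ.1, hlt, hx'0]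
    have hS := bodd_sum m (x + x').1 τ (2 * x.1) hw1 hw2
    set S := ∑ i ∈ Finset.range (m + 1), (m.choose i : ℝ) * Gg m i (x + x').1 τ *
      Gg m (m - i) (x + x').1 τ with hSdef
    have hS2 : 2 ^ m * (4 * (m.factorial : ℝ) ^ 2 * (2 * x.1) ^ m) =
        4 * 4 ^ m * (m.factorial : ℝ) ^ 2 * x.1 ^ m := by
      have k2 : (4 : ℝ) ^ m = 2 ^ m * 2 ^ m := by
        rw [← mul_pow]
        norm_num
      rw [k2, mul_pow]
      ring
    rw [hS2] at hS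
    have k3 := mul_le_mul_of_nonneg_left hum
      (by positivity : 0 ≤ 4 * (4 : ℝ) ^ m * (m.factorial : ℝ) ^ 2)
    have k4 := mul_le_mul_of_nonneg_left hXX hη.le
    rw [Real.norm_eq_abs]
    have k5 := abs_add_le (1 / 2 * S) (iteratedDeriv m (fun t => E (t, x + x')) τ)
    rw [abs_mul, abs_of_pos (by norm_num : (0 : ℝ) < 1 / 2)] at k5
    linarith only [k3, k4, k5, hS, hEb]
  have h0 := mm_lamB m E x x'
  rw [← h0]
  have hmv := (convex_Icc (0 : ℝ) (2 * s)).norm_image_sub_le_of_norm_hasDerivWithin_le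
    (fun τ hτ => (hder τ hτ).hasDerivWithinAt) hbd
    (Set.left_mem_Icc.2 (by linarith only [hs]) : (0 : ℝ) ∈ Set.Icc (0 : ℝ) (2 * s))
    (⟨ht0, ht2⟩ : t ∈ Set.Icc (0 : ℝ) (2 * s))
  rw [Real.norm_eq_abs, Real.norm_eq_abs, sub_zero, abs_of_nonneg ht0] at hmv
  refine hmv.trans ?_
  have k1 := mul_le_mul_of_nonneg_left ht2
    (by positivity : 0 ≤ (2 * 4 ^ m * (m.factorial : ℝ) ^ 2 + 1) * (η * X ^ m))
  linarith only [k1]

/-- JOB BOdd.  Condition on `∂_z^{m-1} M` away from the curve, `m` odd, for points with `σ' lamB > 0`.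

Proof.  Notation of `b_even`; `z = x₁-x₁' ∈ (s,2s]`, `Z = (V/C0)^{1/m}` (so `x₁,x₁',s ≤ Z`, `Z^m = V/C0`).  `lamB_formula`:
`lamB = -A₁x₁x₂ + A₂x₁^{m+1} + e`, `A₁ = 8m!/2^m`.
`dv_bound` (with `X := Z`): `|x₂-x₂'| ≤ 2cX^{m-1}s + (2mZ^{m-1}+εX^{2m})·2s ≤ c₁₁X^{m-1}s`, `c₁₁ = 2c+4m C0^{-(m-1)/m}+2ε` small.
(i) `lamB x - lamB x' = -(A₁/2)(a₁(x₂-x₂') + a₂z) + A₂(x₁^{m+1}-x₁'^{m+1}) + (e-e')`: `|a₂z| ≥ (V-2V/C0)s ≥ Vs/2`,
`|a₁(x₂-x₂')| ≤ 2Z c₁₁X^{m-1}s ≤ 2c₁₁Vs`, `|x₁^{m+1}-x₁'^{m+1}| ≤ (m+1)Z^mz ≤ 2(m+1)Vs/C0`, `|e-e'| ≤ εX^{2m}(z+|x₂-x₂'|)`.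
So `|lamB x - lamB x'| ≥ (A₁/8)Vs`, and since both `σ'lamB > 0`: `σ'(lamB x + lamB x') ≥ (A₁/8)Vs`.
(ii) second difference: `-A₁·½z(x₂-x₂') + A₂(..) + (..)`, `|z(x₂-x₂')| ≤ 2s c₁₁X^{m-1}s ≤ 2c₁₁Vs`,
`|x₁^{m+1}+x₁'^{m+1}-2x̄₁^{m+1}| ≤ (m+1)²Z^{m-1}z² ≤ 4(m+1)²Vs/C0` (`pow_diff2`), `dif2`: small.  So `σ'lamB(x̄) ≥ (A₁/32)Vs`.
(iii) `∂_z^{m-1}M(t;a) = lamB(x̄) + ∫_0^t ∂_z^mM`, and `|∂_z^mM| ≤ C_mV/C0 + εX^{2m}` on `[0,2s]`, because `Gg m m = 0` for odd `m`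
and the products `G_iG_{m-i}` are `≤ C_m V/C0` (`m0_iter`, `gg_bound`; use the mean value inequality).
Hence `σ'∂_z^{m-1}M(t) ≥ (A₁/64)Vs` for `C0` large, `c`, `ε` small; take also `c ≤ A₁/64`.
(`C1` depends on `m` only; `c, ε` may depend on `C0`.) -/
theorem b_odd (m : ℕ) (hm : 3 ≤ m) (hodd : Odd m) : ∃ C1 : ℝ, 1 ≤ C1 ∧ ∀ C0 : ℝ, C1 ≤ C0 →
    ∃ c : ℝ, 0 < c ∧ ∃ ε : ℝ, 0 < ε ∧
    ∀ (Ψ : ℝ × ℝ → ℝ) (r : ℝ) (E : ℝ × (ℝ × ℝ) → ℝ) (X : ℝ), 0 < r → 0 < X → X ≤ 1 →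
    EData m Ψ r E m (2 * X) (ε * X ^ (2 * m)) →
    ∀ x ∈ box r, ∀ x' ∈ box r, ∀ σ σ' : ℝ, IsSign σ → IsSign σ' → 0 < x'.1 → x'.1 < x.1 →
    C0 * x.1 ^ m < |x.2 - x.1 ^ m| → C0 * x'.1 ^ m < |x'.2 - x'.1 ^ m| →
    X ^ m / 2 < σ * (x.2 - x.1 ^ m) → σ * (x.2 - x.1 ^ m) ≤ X ^ m →
    X ^ m / 2 < σ * (x'.2 - x'.1 ^ m) → σ * (x'.2 - x'.1 ^ m) ≤ X ^ m →
    0 < σ' * lamB m E x → 0 < σ' * lamB m E x' →
    ∀ s : ℝ, 0 < s → s < x.1 - x'.1 → x.1 - x'.1 ≤ 2 * s →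
    |D1v Ψ x - D1v Ψ x'| ≤ 2 * (c * X ^ (m - 1) * s) →
    OrdProp (fun t => MM m E t (x + x')) s (2 * s) (m - 1) (c * X ^ m * s) := by
  have hF : (1 : ℝ) ≤ (m.factorial : ℝ) := by exact_mod_cast Nat.factorial_pos m
  obtain ⟨A2, hA2⟩ := lamB_formula m hm hodd
  set A : ℝ := (m.factorial : ℝ) * 8 / 2 ^ m with hAdef
  have hA : 0 < A := by positivity
  have hm0 : (0 : ℝ) ≤ (m : ℝ) := Nat.cast_nonneg m
  set T : ℝ := 4 * ((m : ℝ) + 1) * A + 2 * |A2| * ((m : ℝ) + 1) ^ 2 + (4 * (m : ℝ) + 6) ^ 2 +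
    (4 * 4 ^ m * (m.factorial : ℝ) ^ 2 + 2) with hTdef
  have hK : 0 < 4 * (4 : ℝ) ^ m * (m.factorial : ℝ) ^ 2 := by positivity
  have hT1 : 4 * ((m : ℝ) + 1) * A + 2 * |A2| * ((m : ℝ) + 1) ^ 2 + (4 * (m : ℝ) + 6) ^ 2 ≤ T := by
    linarith only [hTdef, hK]
  have hT2 : 4 * (4 : ℝ) ^ m * (m.factorial : ℝ) ^ 2 + 2 ≤ T := by
    have : 0 ≤ 4 * ((m : ℝ) + 1) * A + 2 * |A2| * ((m : ℝ) + 1) ^ 2 + (4 * (m : ℝ) + 6) ^ 2 := by
      positivity
    linarith only [hTdef, this]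
  have hT3 : A ≤ T := by
    have k1 : 0 ≤ 2 * |A2| * ((m : ℝ) + 1) ^ 2 + (4 * (m : ℝ) + 6) ^ 2 := by positivity
    have k2 : 0 ≤ (m : ℝ) * A := by positivity
    linarith only [hT1, k1, k2, hA]
  have hT : 0 < T := hA.trans_le hT3
  obtain ⟨η, hηdef⟩ : ∃ η : ℝ, η = A / (32 * T) := ⟨_, rfl⟩
  have hη : 0 < η := by rw [hηdef]; positivity
  have hTη : T * η = A / 32 := by
    rw [hηdef]
    field_simp
  have hη1 : η ≤ 1 := by
    rw [hηdef, div_le_one (by positivity)]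
    linarith only [hT3, hT]
  have hηA : η ≤ A / 64 := by
    have k1 : 2 * η ≤ T * η := mul_le_mul_of_nonneg_right (by linarith only [hT2, hK]) hη.le
    linarith only [k1, hTη]
  refine ⟨32 * T / A + 8, ?_, ?_⟩
  · have : 0 ≤ 32 * T / A := by positivity
    linarith only [this]
  intro C0 hC0
  have hTA : 0 ≤ 32 * T / A := by positivity
  have hC8 : (8 : ℝ) ≤ C0 := by linarith only [hC0, hTA]
  have hCη : 1 ≤ η * C0 := by
    have k1 : η * (32 * T / A) = 1 := by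
      rw [hηdef]
      field_simp
    have k2 : η * (32 * T / A) ≤ η * C0 :=
      mul_le_mul_of_nonneg_left (by linarith only [hC0]) hη.le
    linarith only [k1, k2]
  refine ⟨η, hη, η, hη, ?_⟩
  intro Ψ r E X hr hX hX1 hE x hx x' hx' σ σ' hσ hσ' hx'0 hlt hc hc' hy1 hy2 hy1' hy2' hL0 hL0'
    s hs hs1 hs2 hDv
  have hV : 0 < X ^ m := pow_pos hX m
  have hV1 : X ^ m ≤ X := pow_le_of_le_one hX.le hX1 (by omega)
  have hx0 : 0 < x.1 := hx'0.trans hlt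
  rw [bodd_sign hσ hV hy1 hy2] at hc
  rw [bodd_sign hσ hV hy1' hy2'] at hc'
  have hcx : C0 * x.1 ^ m < X ^ m := lt_of_lt_of_le hc hy2
  have hcx' : C0 * x'.1 ^ m < X ^ m := lt_of_lt_of_le hc' hy2'
  have hp : 0 < x.1 ^ m := pow_pos hx0 m
  have hp' : 0 < x'.1 ^ m := pow_pos hx'0 m
  have hk8 : 8 * x.1 ^ m ≤ C0 * x.1 ^ m := mul_le_mul_of_nonneg_right hC8 hp.le
  have hk8' : 8 * x'.1 ^ m ≤ C0 * x'.1 ^ m := mul_le_mul_of_nonneg_right hC8 hp'.le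
  have hu : x.1 < X := by
    refine lt_of_pow_lt_pow_left₀ m hX.le ?_
    linarith only [hk8, hcx, hp]
  have hax : |x.2 - x.1 ^ m| ≤ X ^ m := by rw [bodd_sign hσ hV hy1 hy2]; exact hy2
  have hax' : |x'.2 - x'.1 ^ m| ≤ X ^ m := by rw [bodd_sign hσ hV hy1' hy2']; exact hy2'
  have h2a : |x.2| ≤ 2 * X := by
    have := abs_add_le (x.2 - x.1 ^ m) (x.1 ^ m)
    rw [sub_add_cancel, abs_of_pos hp] at this
    linarith only [this, hax, hk8, hcx, hV1, hp]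
  have h2b : |x'.2| ≤ 2 * X := by
    have := abs_add_le (x'.2 - x'.1 ^ m) (x'.1 ^ m)
    rw [sub_add_cancel, abs_of_pos hp'] at this
    linarith only [this, hax', hk8', hcx', hV1, hp']
  have hnx : ‖x‖ ≤ 2 * X := by
    rw [Prod.norm_def, max_le_iff, Real.norm_eq_abs, Real.norm_eq_abs]
    exact ⟨by rw [abs_of_pos hx0]; linarith only [hu, hX], h2a⟩
  have hnx' : ‖x'‖ ≤ 2 * X := by
    rw [Prod.norm_def, max_le_iff, Real.norm_eq_abs, Real.norm_eq_abs]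
    exact ⟨by rw [abs_of_pos hx'0]; linarith only [hu, hX, hlt], h2b⟩
  have hum : x.1 ^ m ≤ η * X ^ m := by
    have k1 : 1 * x.1 ^ m ≤ η * C0 * x.1 ^ m := mul_le_mul_of_nonneg_right hCη hp.le
    have k2 := mul_le_mul_of_nonneg_left hcx.le hη.le
    linarith only [k1, k2]
  have he0 : 0 ≤ η * X ^ (2 * m) := by positivity
  have he1 : η * X ^ (2 * m) ≤ 1 :=
    mul_le_one₀ hη1 (by positivity) (pow_le_one₀ hX.le hX1)
  have hdv := dv_bound m (by omega) Ψ r E m (2 * X) (η * X ^ (2 * m)) hE he0 he1 x x' hx hx'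
    hnx hnx' x.1 hx0 hx'0.le hlt.le le_rfl
  have hdv2 : |x.2 - x'.2| ≤ 2 * (η * X ^ (m - 1) * s) +
      (2 * (m : ℝ) * x.1 ^ (m - 1) + η * X ^ (2 * m)) * (x.1 - x'.1) := by
    linarith only [hdv, hDv]
  obtain ⟨f1, f2⟩ := bodd_dv (by omega) hη hη1 hX hX1 hs hx'0 hlt hu.le hum hs2 hdv2
  obtain ⟨f3, f4⟩ := bodd_pow hη hX hx'0 hlt hum hs2
  have hz : 0 < x.1 - x'.1 := by linarith only [hlt]
  have hs1' : s ≤ 1 := by linarith only [hs1, hu, hX1, hx'0]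
  have hd : |x.1 - x'.1| + |x.2 - x'.2| ≤ (4 * (m : ℝ) + 6) * s := by
    rw [abs_of_pos hz]
    linarith only [f2, hs2]
  have hlip := hE.lip x hx x' hx' hnx hnx' (m - 1) (by omega)
  have hdif2 := hE.dif2 x hx x' hx' hnx hnx' (m - 1) (by omega)
  obtain ⟨f5, f6⟩ := bodd_e (m := m) hη hX hX1 hs hs1' (by positivity) hd hlip hdif2
  have hmid : ((x.1 + x'.1) / 2, (x.2 + x'.2) / 2) ∈ box r := by
    obtain ⟨⟨q1, q2⟩, ⟨q3, q4⟩⟩ := hx
    obtain ⟨⟨q5, q6⟩, ⟨q7, q8⟩⟩ := hx'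
    refine ⟨⟨?_, ?_⟩, ⟨?_, ?_⟩⟩
    · show -r < (x.1 + x'.1) / 2
      linarith only [q1, q5]
    · show (x.1 + x'.1) / 2 < r
      linarith only [q2, q6]
    · show -r < (x.2 + x'.2) / 2
      linarith only [q3, q7]
    · show (x.2 + x'.2) / 2 < r
      linarith only [q4, q8]
  have hL := hA2 Ψ r E m _ _ hE x hx
  have hL' := hA2 Ψ r E m _ _ hE x' hx'
  have hLm := hA2 Ψ r E m _ _ hE _ hmid
  have h1 : |(x.1 + x'.1) * (x.2 - x'.2)| ≤ 8 * ((m : ℝ) + 1) * η * (X ^ m * s) := by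
    rw [abs_mul, abs_of_pos (by linarith only [hx0, hx'0])]
    have k1 : (x.1 + x'.1) * |x.2 - x'.2| ≤ 2 * x.1 * |x.2 - x'.2| :=
      mul_le_mul_of_nonneg_right (by linarith only [hlt]) (abs_nonneg _)
    linarith only [k1, f1]
  have h2 : |(x.1 - x'.1) * (x.2 - x'.2)| ≤ 4 * ((m : ℝ) + 1) * η * (X ^ m * s) := by
    rw [abs_mul, abs_of_pos hz]
    have k1 : (x.1 - x'.1) * |x.2 - x'.2| ≤ x.1 * |x.2 - x'.2| :=
      mul_le_mul_of_nonneg_right (by linarith only [hx'0]) (abs_nonneg _)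
    linarith only [k1, f1]
  have h7 : 3 / 4 * X ^ m ≤ σ * (x.2 + x'.2) := by
    have k1 := neg_abs_le (σ * x.1 ^ m)
    have k2 := neg_abs_le (σ * x'.1 ^ m)
    rw [bodd_abs hσ, abs_of_pos hp] at k1
    rw [bodd_abs hσ, abs_of_pos hp'] at k2
    have k5 : σ * (x.2 + x'.2) = σ * (x.2 - x.1 ^ m) + σ * (x'.2 - x'.1 ^ m) +
      σ * x.1 ^ m + σ * x'.1 ^ m := by ring
    rw [k5]
    linarith only [k1, k2, hk8, hk8', hcx, hcx', hy1, hy1']
  have c1 := bodd_core1 hσ hA hη hV hs hm0 hL hL' hT1 hTη.le h1 f3 f5 h7 hs1.le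
  have c2 := bodd_core2 hA hη hV hs hm0 hL hL' hLm hT1 hTη.le h2 f4 f6
  have c3 := bodd_core hσ' c1 c2 hL0 hL0'
  have hW : 0 < X ^ m * s := mul_pos hV hs
  refine ⟨σ', hσ', ?_, ?_⟩
  · obtain ⟨⟨q1, q2⟩, ⟨q3, q4⟩⟩ := hx
    obtain ⟨⟨q5, q6⟩, ⟨q7, q8⟩⟩ := hx'
    have ha1r : |(x + x').1| ≤ 2 * r := by
      show |x.1 + x'.1| ≤ 2 * r
      rw [abs_of_pos (by linarith only [hx0, hx'0])]
      linarith only [q2, q6]
    have ha2r : |(x + x').2| ≤ 2 * r := by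
      show |x.2 + x'.2| ≤ 2 * r
      rw [abs_le]
      constructor
      · linarith only [q3, q7]
      · linarith only [q4, q8]
    have e1 : ContDiffOn ℝ ((m - 1 : ℕ) : ℕ∞) (fun t => M0 m t (x + x')) (Set.Ioo s (2 * s)) :=
      (m0_smooth m (x + x')).contDiffOn.of_le (by exact_mod_cast le_top)
    have e2 : ContDiffOn ℝ ((m - 1 : ℕ) : ℕ∞) (fun t => E (t, x + x')) (Set.Ioo s (2 * s)) := by
      refine ((hE.smooth (x + x') ha1r ha2r).mono ?_).of_le (by exact_mod_cast le_top)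
      refine Set.Ioo_subset_Ioo ?_ ?_
      · linarith only [hr, hs]
      · linarith only [hs1, q2, hx'0, hr]
    exact_mod_cast e1.add e2
  · intro t ht
    have k1 := bodd_mean m hm hodd Ψ r E X η hX hX1 hη hE x x' hx hx' hx'0 hlt hu.le h2a h2b hum
      s hs hs1 t (hs.trans ht.1).le ht.2.le
    have k2 : (4 * 4 ^ m * (m.factorial : ℝ) ^ 2 + 2) * η * (X ^ m * s) ≤
        A / 32 * (X ^ m * s) := by
      refine mul_le_mul_of_nonneg_right ?_ hW.le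
      have := mul_le_mul_of_nonneg_right hT2 hη.le
      linarith only [this, hTη]
    have k3 := neg_abs_le (σ' * (iteratedDeriv (m - 1) (fun t => MM m E t (x + x')) t -
      lamB m E ((x.1 + x'.1) / 2, (x.2 + x'.2) / 2)))
    rw [bodd_abs hσ', mul_sub] at k3
    have k4 : η * (X ^ m * s) ≤ A / 64 * (X ^ m * s) := mul_le_mul_of_nonneg_right hηA hW.le
    have k5 : 0 < A * (X ^ m * s) := mul_pos hA hW
    have k6 : η * X ^ m * s = η * (X ^ m * s) := by ring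
    rw [k6]
    linarith only [k1, k2, k3, k4, k5, c3]

end Pool.Agent.FlatRes
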