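import Pool.Agent.Lib.MP_40a0b6_an.N2PDef
import Pool.Agent.Lib.MP_40a0b6_an.N2BP
import Pool.Agent.Lib.MP_40a0b6_an.N2BOdd
set_option autoImplicit false
open MeasureTheory
open scoped ENNReal FourierTransform SchwartzMap
namespace Pool.Agent.FlatRes

private theorem BOB_mono {m : ℕ} {Ψ : ℝ × ℝ → ℝ} {r : ℝ} {E : ℝ × (ℝ × ℝ) → ℝ} {J : ℕ}
    {ρ e0 e1 : ℝ} (h : EData m Ψ r E J ρ e0) (he : e0 ≤ e1) : EData m Ψ r E J ρ e1 where
  smooth := h.smooth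
  odd1 := h.odd1
  odd3 := h.odd3
  bd := fun a t h1 h2 h3 h4 h5 h6 j hj => (h.bd a t h1 h2 h3 h4 h5 h6 j hj).trans he
  lip := fun x hx x' hx' h1 h2 j hj => (h.lip x hx x' hx' h1 h2 j hj).trans
    (mul_le_mul_of_nonneg_right he (by positivity))
  dif2 := fun x hx x' hx' h1 h2 j hj => (h.dif2 x hx x' hx' h1 h2 j hj).trans
    (mul_le_mul_of_nonneg_right he (by positivity))
  dpsi := fun x hx x' hx' h1 h2 => (h.dpsi x hx x' hx' h1 h2).trans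
    (mul_le_mul_of_nonneg_right he (by positivity))
  eval := fun x hx h1 j hj => (h.eval x hx h1 j hj).trans he
  ecov := h.ecov

private theorem BOB_isOpen_box (r : ℝ) : IsOpen (box r) := isOpen_Ioo.prod isOpen_Ioo

private theorem BOB_meas_pB (m : ℕ) (C0 r : ℝ) (j : ℕ) (σ : ℝ) : MeasurableSet (pB m C0 r j σ) := by
  have hb : MeasurableSet (box r) := (BOB_isOpen_box r).measurableSet
  have h1 : MeasurableSet {x : ℝ × ℝ | 0 < x.1} := measurableSet_lt measurable_const measurable_fst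
  have h2 : MeasurableSet {x : ℝ × ℝ | C0 * x.1 ^ m < |x.2 - x.1 ^ m|} :=
    measurableSet_lt (by fun_prop) (by fun_prop)
  have h3 : MeasurableSet {x : ℝ × ℝ | (1 / 2 : ℝ) ^ (j + 1) < σ * (x.2 - x.1 ^ m)} :=
    measurableSet_lt (by fun_prop) (by fun_prop)
  have h4 : MeasurableSet {x : ℝ × ℝ | σ * (x.2 - x.1 ^ m) ≤ (1 / 2 : ℝ) ^ j} :=
    measurableSet_le (by fun_prop) (by fun_prop)
  exact (hb.inter (h1.inter h2)).inter (h3.inter h4)

/-- JOB BOB.  Bound for the pieces away from the curve, `m` odd: as `pb_bound_even`, with `b_odd` and `b_piece m 1`. -/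
theorem pb_bound_odd (m : ℕ) (hm : 3 ≤ m) (hodd : Odd m) : ∃ C1 : ℝ, 1 ≤ C1 ∧ ∀ C0 : ℝ, C1 ≤ C0 →
    ∀ (g : ℝ × ℝ → ℝ) (E : ℝ × (ℝ × ℝ) → ℝ) (vs : ℝ → ℝ × ℝ → ℝ), GoodE m g E vs →
    ∀ (q τ : ℝ), 4 < q → 0 < τ → τ ≤ 1 → 0 < 1 - 6 / q + 4 * τ / (q * ((m - 1 : ℕ) : ℝ)) →
    0 < 1 - 2 / q - 2 * τ * m / (q * ((m - 1 : ℕ) : ℝ)) →
    ∃ C : ℝ, 0 < C ∧ ∃ r1 : ℝ, 0 < r1 ∧ ∀ r, 0 < r → r ≤ r1 → ∀ (j : ℕ) (σ σ' : ℝ), IsSign σ →
      IsSign σ' → ∀ h : ℝ × ℝ → ℂ, BddMeas h →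
      ∫⁻ ξ, ‖extOn (psi0 2 m g r) (pBo m E C0 r j σ σ') h ξ‖ₑ ^ q ≤
        (ENNReal.ofReal (C * ((1 / 2 : ℝ) ^ j) ^ ((((m : ℝ) + 1) - (6 * m + 2) / q) / m)) *
          mass (pBo m E C0 r j σ σ') h) ^ (q / 2) := by
  obtain ⟨C1, hC1, hmain⟩ := b_odd m hm hodd
  refine ⟨C1, hC1, fun C0 hC0 g E vs hG q τ hq4 hτ0 hτ1 hα hβ => ?_⟩
  obtain ⟨c, hc, ε, hε, hb⟩ := hmain C0 hC0
  have hC01 : 1 ≤ C0 := hC1.trans hC0
  obtain ⟨C, hC, hpiece⟩ := b_piece m 1 hm (le_refl 1) q τ hq4 hτ0 hτ1 hα hβ 4 c (by norm_num) hc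
  obtain ⟨⟨r0, hr0, -, hr0'⟩, hG2⟩ := hG
  set ε' : ℝ := min ε 1 / 2 ^ (2 * m) with hε'
  have hminpos : 0 < min ε 1 := lt_min hε one_pos
  have hε'pos : 0 < ε' := div_pos hminpos (by positivity)
  obtain ⟨r1, hr1, hr1'⟩ := hG2 (2 * m) m ε' hε'pos
  refine ⟨C, hC, min (min r0 r1) (1 / 2), lt_min (lt_min hr0 hr1) (by norm_num), ?_⟩
  intro r hr hrle j σ σ' hσ hσ' h hh
  have hrr0 : r ≤ r0 := hrle.trans ((min_le_left _ _).trans (min_le_left _ _))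
  have hrr1 : r ≤ r1 := hrle.trans ((min_le_left _ _).trans (min_le_right _ _))
  have hrhalf : r ≤ 1 / 2 := hrle.trans (min_le_right _ _)
  obtain ⟨hΨm, hMD⟩ := hr0' r hr hrr0
  have hm0 : (m : ℝ) ≠ 0 := by
    have : m ≠ 0 := by omega
    exact_mod_cast this
  have hT : (0 : ℝ) < (1 / 2 : ℝ) ^ j := by positivity
  have hT1 : ((1 / 2 : ℝ) ^ j) ≤ 1 := pow_le_one₀ (by norm_num) (by norm_num)
  set X : ℝ := ((1 / 2 : ℝ) ^ j) ^ (1 / (m : ℝ)) with hX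
  have hXpos : 0 < X := Real.rpow_pos_of_pos hT _
  have hX1 : X ≤ 1 := Real.rpow_le_one hT.le hT1 (by positivity)
  have hXm : X ^ m = (1 / 2 : ℝ) ^ j := by
    rw [hX, ← Real.rpow_natCast, ← Real.rpow_mul hT.le, one_div_mul_cancel hm0, Real.rpow_one]
  have hXexp : X ^ (((m : ℝ) + 1) - (6 * m + 2) / q) =
      ((1 / 2 : ℝ) ^ j) ^ ((((m : ℝ) + 1) - (6 * m + 2) / q) / m) := by
    rw [hX, ← Real.rpow_mul hT.le]
    congr 1
    ring
  have hXmX : X ^ m ≤ X := by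
    calc X ^ m ≤ X ^ 1 := pow_le_pow_of_le_one hXpos.le hX1 (by omega)
      _ = X := pow_one X
  have hX2m : X ^ (2 * m) ≤ X ^ m := pow_le_pow_of_le_one hXpos.le hX1 (by omega)
  have hX2m0 : 0 ≤ X ^ (2 * m) := by positivity
  have hED0 := hr1' r hr hrr1 (2 * X) (by positivity)
  have he0 : ε' * (2 * X) ^ (2 * m) = min ε 1 * X ^ (2 * m) := by
    rw [hε', mul_pow]
    field_simp
  rw [he0] at hED0
  have hED : EData m (psi0 2 m g r) r E m (2 * X) (ε * X ^ (2 * m)) :=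
    BOB_mono hED0 (mul_le_mul_of_nonneg_right (min_le_left _ _) hX2m0)
  have hED1 : EData m (psi0 2 m g r) r E m (2 * X) (X ^ (2 * m)) :=
    BOB_mono hED0 (by
      calc min ε 1 * X ^ (2 * m) ≤ 1 * X ^ (2 * m) :=
            mul_le_mul_of_nonneg_right (min_le_right _ _) hX2m0
        _ = X ^ (2 * m) := one_mul _)
  -- properties of points
  have hpt : ∀ x ∈ pBo m E C0 r j σ σ', x ∈ box r ∧ 0 < x.1 ∧ C0 * x.1 ^ m < |x.2 - x.1 ^ m| ∧
      X ^ m / 2 < σ * (x.2 - x.1 ^ m) ∧ σ * (x.2 - x.1 ^ m) ≤ X ^ m ∧ 0 < σ' * lamB m E x ∧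
      |x.2 - x.1 ^ m| ≤ X ^ m ∧ x.1 < X ∧ ‖x‖ ≤ 2 * X := by
    rintro x ⟨⟨⟨hx1, hx2, hx3⟩, hx4, hx5⟩, hx6⟩
    have h4 : X ^ m / 2 < σ * (x.2 - x.1 ^ m) := by
      rw [hXm]
      calc (1 / 2 : ℝ) ^ j / 2 = (1 / 2 : ℝ) ^ (j + 1) := by ring
        _ < _ := hx4
    have h5 : σ * (x.2 - x.1 ^ m) ≤ X ^ m := by rw [hXm]; exact hx5
    have h6 : |x.2 - x.1 ^ m| ≤ X ^ m := by
      have hpos : 0 < X ^ m / 2 := by positivity
      have habs : |x.2 - x.1 ^ m| = σ * (x.2 - x.1 ^ m) := by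
        rcases hσ with rfl | rfl
        · rw [one_mul] at h4 ⊢
          exact abs_of_pos (hpos.trans h4)
        · have : x.2 - x.1 ^ m < 0 := by linarith
          rw [abs_of_neg this]
          ring
      rw [habs]
      exact h5
    have hx1m : 0 ≤ x.1 ^ m := by positivity
    have h7 : x.1 < X := by
      apply lt_of_pow_lt_pow_left₀ m hXpos.le
      calc x.1 ^ m ≤ C0 * x.1 ^ m := by nlinarith
        _ < |x.2 - x.1 ^ m| := hx3
        _ ≤ X ^ m := h6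
    have h8 : ‖x‖ ≤ 2 * X := by
      rw [Prod.norm_def]
      apply max_le
      · rw [Real.norm_eq_abs, abs_of_pos hx2]
        linarith
      · rw [Real.norm_eq_abs]
        have h9 : x.1 ^ m ≤ X ^ m := pow_le_pow_left₀ hx2.le h7.le m
        calc |x.2| = |(x.2 - x.1 ^ m) + x.1 ^ m| := by ring_nf
          _ ≤ |x.2 - x.1 ^ m| + |x.1 ^ m| := abs_add_le _ _
          _ ≤ X ^ m + X ^ m := by rw [abs_of_nonneg hx1m]; linarith
          _ ≤ 2 * X := by linarith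
    exact ⟨hx1, hx2, hx3, h4, h5, hx6, h6, h7, h8⟩
  have hsub : pBo m E C0 r j σ σ' ⊆ box r := fun x hx => (hpt x hx).1
  have hmeas : MeasurableSet (pBo m E C0 r j σ σ') := by
    obtain ⟨A2, hA2⟩ := lamB_formula m hm hodd
    have hcont : ContinuousOn (fun x => σ' * (-((m.factorial : ℝ) * 8 / 2 ^ m) * x.1 * x.2 +
        A2 * x.1 ^ (m + 1) + eJ E (m - 1) x)) (box r) := by
      apply ContinuousOn.mul continuousOn_const
      apply ContinuousOn.add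
      · apply Continuous.continuousOn
        fun_prop
      · exact hED.ecov (m - 1) (by omega)
    have hopen := hcont.isOpen_inter_preimage (BOB_isOpen_box r) (isOpen_Ioi (a := (0 : ℝ)))
    have heq : pBo m E C0 r j σ σ' = pB m C0 r j σ ∩ (box r ∩ (fun x : ℝ × ℝ =>
        σ' * (-((m.factorial : ℝ) * 8 / 2 ^ m) * x.1 * x.2 +
        A2 * x.1 ^ (m + 1) + eJ E (m - 1) x)) ⁻¹' Set.Ioi 0) := by
      ext x
      constructor
      · rintro ⟨hx1, hx2⟩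
        have hxb : x ∈ box r := hx1.1.1
        refine ⟨hx1, hxb, ?_⟩
        rw [hA2 _ r E m _ _ hED x hxb] at hx2
        exact hx2
      · rintro ⟨hx1, hxb, hx2⟩
        refine ⟨hx1, ?_⟩
        rw [hA2 _ r E m _ _ hED x hxb]
        exact hx2
    rw [heq]
    exact (BOB_meas_pB m C0 r j σ).inter hopen.measurableSet
  have key := hpiece (psi0 2 m g r) r (MM m E) vs (pBo m E C0 r j σ σ') X hΨm hMD hmeas hsub hXpos
    ?_ ?_ ?_ h hh
  · rw [← hXexp]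
    exact key
  · intro x hx x' hx'
    have h1 := (hpt x hx).2.2.2.2.2.2.2.1
    have h2 := (hpt x' hx').2.1
    linarith
  · intro x hx x' hx'
    obtain ⟨hx1, hx2, hx3, hx4, hx5, hx6, hx7, hx8, hx9⟩ := hpt x hx
    obtain ⟨hy1, hy2, hy3, hy4, hy5, hy6, hy7, hy8, hy9⟩ := hpt x' hx'
    have h1 := hED1.dpsi x hx1 x' hy1 hx9 hy9
    have h2 : |x.1 - x'.1| + |x.2 - x'.2| ≤ 2 := by
      have e1 : |x.1 - x'.1| ≤ 1 := by
        rw [abs_le]
        have a1 := hx1.1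
        have a2 := hy1.1
        rw [Set.mem_Ioo] at a1 a2
        constructor <;> linarith [a1.1, a1.2, a2.1, a2.2]
      have e2 : |x.2 - x'.2| ≤ 1 := by
        rw [abs_le]
        have a1 := hx1.2
        have a2 := hy1.2
        rw [Set.mem_Ioo] at a1 a2
        constructor <;> linarith [a1.1, a1.2, a2.1, a2.2]
      linarith
    have h3 : X ^ (2 * m) * (|x.1 - x'.1| + |x.2 - x'.2|) ≤ X ^ m * 2 := by
      apply mul_le_mul hX2m h2 (by positivity) (by positivity)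
    have h4 : |2 * (x.2 - x.1 ^ m) - 2 * (x'.2 - x'.1 ^ m)| ≤ X ^ m := by
      rcases hσ with rfl | rfl
      · rw [abs_le]; constructor <;> linarith
      · rw [abs_le]; constructor <;> linarith
    calc |D1v (psi0 2 m g r) x - D1v (psi0 2 m g r) x'| =
        |((D1v (psi0 2 m g r) x - 2 * (x.2 - x.1 ^ m)) -
          (D1v (psi0 2 m g r) x' - 2 * (x'.2 - x'.1 ^ m))) +
          (2 * (x.2 - x.1 ^ m) - 2 * (x'.2 - x'.1 ^ m))| := by ring_nf
      _ ≤ X ^ (2 * m) * (|x.1 - x'.1| + |x.2 - x'.2|) + X ^ m :=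
          (abs_add_le _ _).trans (add_le_add h1 h4)
      _ ≤ 4 * X ^ m := by
          have : 0 < X ^ m := by positivity
          linarith
  · intro x hx x' hx' s hs hs1 hs2 hD
    obtain ⟨hx1, hx2, hx3, hx4, hx5, hx6, hx7, hx8, hx9⟩ := hpt x hx
    obtain ⟨hy1, hy2, hy3, hy4, hy5, hy6, hy7, hy8, hy9⟩ := hpt x' hx'
    have := hb (psi0 2 m g r) r E X hr hXpos hX1 hED x hx1 x' hy1 σ σ' hσ hσ' hy2 (by linarith)
      hx3 hy3 hx4 hx5 hy4 hy5 hx6 hy6 s hs hs1 hs2 (hD rfl)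
    rw [pow_one]
    exact this

end Pool.Agent.FlatRes
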