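import Pool.Agent.Lib.MP_40a0b6_an.Defs
set_option autoImplicit false
open MeasureTheory
open scoped ENNReal FourierTransform SchwartzMap
namespace Pool.Agent.FlatRes

/-! # The case `n = 2`: definitions.

A pair of points `x, x'` of the plane is described by `a = x + x'` and `x = (u,v)`; the difference of the
first coordinates is `z = 2u - a₁`. -/

/-- `Ψ(x) + Ψ(a - x)`, `x = (u,v)` -/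
def FF (Ψ : ℝ × ℝ → ℝ) (a : ℝ × ℝ) (u v : ℝ) : ℝ := Ψ (u, v) + Ψ (a.1 - u, a.2 - v)

/-- `∂₂Ψ` -/
noncomputable def D1v (Ψ : ℝ × ℝ → ℝ) (x : ℝ × ℝ) : ℝ := deriv (fun t => Ψ (x.1, t)) x.2

/-- `M z a` is the minimum of `v ↦ FF Ψ a ((a₁+z)/2) v`, attained at `vs z a`; quadratic comparison. -/
structure MData (Ψ : ℝ × ℝ → ℝ) (r : ℝ) (M vs : ℝ → ℝ × ℝ → ℝ) : Prop where
  hder : ∀ (a : ℝ × ℝ) (u v : ℝ), (u, v) ∈ box r → (a.1 - u, a.2 - v) ∈ box r →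
    HasDerivAt (fun t => FF Ψ a u t) (D1v Ψ (u, v) - D1v Ψ (a.1 - u, a.2 - v)) v
  low : ∀ (a : ℝ × ℝ) (u v : ℝ), (u, v) ∈ box r → (a.1 - u, a.2 - v) ∈ box r →
    (v - vs (2 * u - a.1) a) ^ 2 ≤ FF Ψ a u v - M (2 * u - a.1) a
  up : ∀ (a : ℝ × ℝ) (u v : ℝ), (u, v) ∈ box r → (a.1 - u, a.2 - v) ∈ box r →
    FF Ψ a u v - M (2 * u - a.1) a ≤ 4 * (v - vs (2 * u - a.1) a) ^ 2
  slope : ∀ (a : ℝ × ℝ) (u v : ℝ), (u, v) ∈ box r → (a.1 - u, a.2 - v) ∈ box r →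
    2 * (v - vs (2 * u - a.1) a) ^ 2 ≤
      (D1v Ψ (u, v) - D1v Ψ (a.1 - u, a.2 - v)) * (v - vs (2 * u - a.1) a)
  mono : ∀ u v1 v2 : ℝ, (u, v1) ∈ box r → (u, v2) ∈ box r → v1 ≤ v2 →
    v2 - v1 ≤ D1v Ψ (u, v2) - D1v Ψ (u, v1)
  measD : Measurable ((box r).indicator (D1v Ψ))

/-- pairs of points of `P` with `s < x₁ - x₁' ≤ 2s` -/
def WS (P : Set (ℝ × ℝ)) (s : ℝ) : Set ((ℝ × ℝ) × (ℝ × ℝ)) :=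
  {p | p.1 ∈ P ∧ p.2 ∈ P ∧ s < p.1.1 - p.2.1 ∧ p.1.1 - p.2.1 ≤ 2 * s}

/-- pairs of points of `P` with `s < x₁ - x₁' ≤ 2s` and `w < |∂₂Ψ(x) - ∂₂Ψ(x')| ≤ 2w` -/
def WSW (Ψ : ℝ × ℝ → ℝ) (P : Set (ℝ × ℝ)) (s w : ℝ) : Set ((ℝ × ℝ) × (ℝ × ℝ)) :=
  {p | p ∈ WS P s ∧ w < |D1v Ψ p.1 - D1v Ψ p.2| ∧ |D1v Ψ p.1 - D1v Ψ p.2| ≤ 2 * w}

/-- the part of `(E h)²` coming from the pairs in `W` -/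
noncomputable def Bop (Ψ : ℝ × ℝ → ℝ) (W : Set ((ℝ × ℝ) × (ℝ × ℝ))) (h : ℝ × ℝ → ℂ) (ξ : E3) : ℂ :=
  extN (volume.restrict W) (fun p : (ℝ × ℝ) × (ℝ × ℝ) => gpt Ψ p.1 + gpt Ψ p.2)
    (fun p => h p.1 * h p.2) ξ

/-- `σ φ' ≥ c t` on `[0,T]` for some sign `σ` -/
def NearProp (φ : ℝ → ℝ) (T c : ℝ) : Prop :=
  ∃ σ : ℝ, IsSign σ ∧ ∃ φ1 : ℝ → ℝ, (∀ t ∈ Set.Icc 0 T, HasDerivAt φ (φ1 t) t) ∧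
    ∀ t ∈ Set.Icc 0 T, c * t ≤ σ * φ1 t

/-- `φ'(0) = 0` and `φ''' ≥ γ t` on `[0,T]` -/
def FarProp (φ : ℝ → ℝ) (T γ : ℝ) : Prop :=
  ∃ φ1 φ2 φ3 : ℝ → ℝ, (∀ t ∈ Set.Icc 0 T, HasDerivAt φ (φ1 t) t ∧ HasDerivAt φ1 (φ2 t) t ∧
    HasDerivAt φ2 (φ3 t) t) ∧ φ1 0 = 0 ∧ ∀ t ∈ Set.Icc 0 T, γ * t ≤ φ3 t

/-- the `j`-th derivative of `φ` has a fixed sign and absolute value `≥ Λ` on `(α,β)` -/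
def OrdProp (φ : ℝ → ℝ) (α β : ℝ) (j : ℕ) (Λ : ℝ) : Prop :=
  ∃ σ : ℝ, IsSign σ ∧ ContDiffOn ℝ j φ (Set.Ioo α β) ∧
    ∀ t ∈ Set.Ioo α β, Λ ≤ σ * iteratedDeriv j φ t

/-- smooth near `0` and flat at `0`, on a normed space (for `V = ℝ × ℝ` this is `FlatAtZero`). -/
def FlatV {V : Type*} [NormedAddCommGroup V] [NormedSpace ℝ V] (f : V → ℝ) : Prop :=
  (∃ U : Set V, IsOpen U ∧ (0 : V) ∈ U ∧ ContDiffOn ℝ (⊤ : ℕ∞) f U) ∧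
    ∀ k : ℕ, iteratedFDeriv ℝ k f 0 = 0

/-- the `k`-th `z`-derivative of `G = ((a₁+z)/2)^m + ((a₁-z)/2)^m` -/
noncomputable def Gg (m k : ℕ) (a1 z : ℝ) : ℝ :=
  (m.descFactorial k : ℝ) * (1 / 2) ^ k *
    (((a1 + z) / 2) ^ (m - k) + (-1) ^ k * ((a1 - z) / 2) ^ (m - k))

/-- `H = ((a₁+z)/2)^m - ((a₁-z)/2)^m` -/
noncomputable def Hh (m : ℕ) (a1 z : ℝ) : ℝ := ((a1 + z) / 2) ^ m - ((a1 - z) / 2) ^ m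

/-- the unperturbed minimum -/
noncomputable def M0 (m : ℕ) (z : ℝ) (a : ℝ × ℝ) : ℝ := (a.2 - Gg m 0 a.1 z) ^ 2 / 2

/-- the minimum, `E` flat -/
noncomputable def MM (m : ℕ) (E : ℝ × (ℝ × ℝ) → ℝ) (z : ℝ) (a : ℝ × ℝ) : ℝ := M0 m z a + E (z, a)

/-- `j`-th `z`-derivative of `E` at `z = 0`, `a = 2x` -/
noncomputable def eJ (E : ℝ × (ℝ × ℝ) → ℝ) (j : ℕ) (x : ℝ × ℝ) : ℝ :=
  iteratedDeriv j (fun t => E (t, (2 * x.1, 2 * x.2))) 0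

/-- `∂_z²M(0; 2x)` -/
noncomputable def lamA (m : ℕ) (E : ℝ × (ℝ × ℝ) → ℝ) (x : ℝ × ℝ) : ℝ :=
  -((m : ℝ) * (m - 1)) * x.1 ^ (m - 2) * (x.2 - x.1 ^ m) + eJ E 2 x

/-- `∂_z^{m-1}M(0; 2x)` (used for odd `m`) -/
noncomputable def lamB (m : ℕ) (E : ℝ × (ℝ × ℝ) → ℝ) (x : ℝ × ℝ) : ℝ :=
  iteratedDeriv (m - 1) (fun t => MM m E t (2 * x.1, 2 * x.2)) 0

/-- Quantitative flatness of `E` on the scale `ρ` (used with `ρ` = size of the piece): all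
`z`-derivatives of order `≤ J`, the differences and second differences of the `eJ`, and of `∂₂Ψ` minus
its unperturbed value, are `≤ e0`. -/
structure EData (m : ℕ) (Ψ : ℝ × ℝ → ℝ) (r : ℝ) (E : ℝ × (ℝ × ℝ) → ℝ) (J : ℕ) (ρ e0 : ℝ) : Prop where
  smooth : ∀ a : ℝ × ℝ, |a.1| ≤ 2 * r → |a.2| ≤ 2 * r →
    ContDiffOn ℝ (⊤ : ℕ∞) (fun t => E (t, a)) (Set.Ioo (-(4 * r)) (4 * r))
  odd1 : ∀ a : ℝ × ℝ, |a.1| ≤ 2 * r → |a.2| ≤ 2 * r → iteratedDeriv 1 (fun t => E (t, a)) 0 = 0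
  odd3 : ∀ a : ℝ × ℝ, |a.1| ≤ 2 * r → |a.2| ≤ 2 * r → iteratedDeriv 3 (fun t => E (t, a)) 0 = 0
  bd : ∀ (a : ℝ × ℝ) (t : ℝ), |a.1| ≤ 2 * r → |a.2| ≤ 2 * r → |t| < 4 * r → |t| ≤ 2 * ρ →
    |a.1| ≤ 2 * ρ → |a.2| ≤ 2 * ρ → ∀ j ≤ J, |iteratedDeriv j (fun t => E (t, a)) t| ≤ e0
  lip : ∀ x ∈ box r, ∀ x' ∈ box r, ‖x‖ ≤ ρ → ‖x'‖ ≤ ρ → ∀ j ≤ J,
    |eJ E j x - eJ E j x'| ≤ e0 * (|x.1 - x'.1| + |x.2 - x'.2|)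
  dif2 : ∀ x ∈ box r, ∀ x' ∈ box r, ‖x‖ ≤ ρ → ‖x'‖ ≤ ρ → ∀ j ≤ J,
    |eJ E j x + eJ E j x' - 2 * eJ E j ((x.1 + x'.1) / 2, (x.2 + x'.2) / 2)| ≤
      e0 * (|x.1 - x'.1| + |x.2 - x'.2|) ^ 2
  dpsi : ∀ x ∈ box r, ∀ x' ∈ box r, ‖x‖ ≤ ρ → ‖x'‖ ≤ ρ →
    |(D1v Ψ x - 2 * (x.2 - x.1 ^ m)) - (D1v Ψ x' - 2 * (x'.2 - x'.1 ^ m))| ≤
      e0 * (|x.1 - x'.1| + |x.2 - x'.2|)
  eval : ∀ x ∈ box r, ‖x‖ ≤ ρ → ∀ j ≤ J, |eJ E j x| ≤ e0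
  ecov : ∀ j ≤ J, ContinuousOn (eJ E j) (box r)

/-- `E`, `vs` are the correction term and the position of the minimum for `Ψ = (x₂-x₁^m)² + g`. -/
def GoodE (m : ℕ) (g : ℝ × ℝ → ℝ) (E : ℝ × (ℝ × ℝ) → ℝ) (vs : ℝ → ℝ × ℝ → ℝ) : Prop :=
  (∃ r0 : ℝ, 0 < r0 ∧ ContDiffOn ℝ (⊤ : ℕ∞) g (box r0) ∧ ∀ r, 0 < r → r ≤ r0 →
    Measurable (psi0 2 m g r) ∧ MData (psi0 2 m g r) r (MM m E) vs) ∧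
  ∀ (N J : ℕ) (ε : ℝ), 0 < ε → ∃ r1 : ℝ, 0 < r1 ∧ ∀ r, 0 < r → r ≤ r1 → ∀ ρ, 0 < ρ →
    EData m (psi0 2 m g r) r E J ρ (ε * ρ ^ N)

/-- the region near the curve -/
def regAC (m : ℕ) (C0 r : ℝ) : Set (ℝ × ℝ) := {x | x ∈ box r ∧ 0 < x.1 ∧ |x.2 - x.1 ^ m| ≤ C0 * x.1 ^ m}

/-- the region far from the curve -/
def regB (m : ℕ) (C0 r : ℝ) : Set (ℝ × ℝ) := {x | x ∈ box r ∧ 0 < x.1 ∧ C0 * x.1 ^ m < |x.2 - x.1 ^ m|}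

/-- the right half of the box -/
def hbox (r : ℝ) : Set (ℝ × ℝ) := {x | x ∈ box r ∧ 0 < x.1}

end Pool.Agent.FlatRes
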