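import Pool.Agent.Lib.MP_40a0b6_an.N2Defs
set_option autoImplicit false
open MeasureTheory
open scoped ENNReal FourierTransform SchwartzMap
namespace Pool.Agent.FlatRes

/-- JOB NFlatB.  Composition: `f` flat on `V`, `h` smooth near `0` with `h 0 = 0`: `f ∘ h` is flat. -/
theorem flatV_comp {V W : Type*} [NormedAddCommGroup V] [NormedSpace ℝ V] [NormedAddCommGroup W]
    [NormedSpace ℝ W] (f : V → ℝ) (hf : FlatV f) (h : W → V)
    (hh : ∃ U : Set W, IsOpen U ∧ (0 : W) ∈ U ∧ ContDiffOn ℝ (⊤ : ℕ∞) h U)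
    (h0 : h 0 = 0) : FlatV (fun x => f (h x)) := by
  obtain ⟨⟨U, hUo, hU0, hfU⟩, hfl⟩ := hf
  obtain ⟨S, hSo, hS0, hhS⟩ := hh
  have hWo : IsOpen (S ∩ h ⁻¹' U) := hhS.continuousOn.isOpen_inter_preimage hSo hUo
  have hW0 : (0 : W) ∈ S ∩ h ⁻¹' U := ⟨hS0, by
    show h 0 ∈ U
    rw [h0]; exact hU0⟩
  have hmaps : Set.MapsTo h (S ∩ h ⁻¹' U) U := fun x hx => hx.2
  have hhW : ContDiffOn ℝ (⊤ : ℕ∞) h (S ∩ h ⁻¹' U) := hhS.mono Set.inter_subset_left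
  refine ⟨⟨S ∩ h ⁻¹' U, hWo, hW0, hfU.comp hhW hmaps⟩, ?_⟩
  intro k
  have key : ‖iteratedFDerivWithin ℝ k (f ∘ h) (S ∩ h ⁻¹' U) 0‖ ≤
      (k.factorial : ℝ) * 0 *
        (1 + ∑ i ∈ Finset.range (k + 1), ‖iteratedFDerivWithin ℝ i h (S ∩ h ⁻¹' U) 0‖) ^ k := by
    refine norm_iteratedFDerivWithin_comp_le (N := ((⊤ : ℕ∞) : WithTop ℕ∞)) hfU hhW ?_ hUo.uniqueDiffOn
      hWo.uniqueDiffOn hmaps hW0 ?_ ?_
    · exact_mod_cast le_top
    · intro i _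
      rw [h0, iteratedFDerivWithin_of_isOpen i hUo hU0, hfl i, norm_zero]
    · intro i hi1 hik
      have hle : ‖iteratedFDerivWithin ℝ i h (S ∩ h ⁻¹' U) 0‖ ≤
          ∑ i ∈ Finset.range (k + 1), ‖iteratedFDerivWithin ℝ i h (S ∩ h ⁻¹' U) 0‖ :=
        Finset.single_le_sum (f := fun i => ‖iteratedFDerivWithin ℝ i h (S ∩ h ⁻¹' U) 0‖)
          (fun j _ => norm_nonneg _) (Finset.mem_range.mpr (by omega))
      have hnn : 0 ≤ ∑ i ∈ Finset.range (k + 1), ‖iteratedFDerivWithin ℝ i h (S ∩ h ⁻¹' U) 0‖ :=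
        Finset.sum_nonneg fun j _ => norm_nonneg _
      have h1 : (1 : ℝ) ≤ 1 + ∑ i ∈ Finset.range (k + 1), ‖iteratedFDerivWithin ℝ i h (S ∩ h ⁻¹' U) 0‖ := by
        linarith
      have h2 := pow_le_pow_right₀ h1 hi1
      rw [pow_one] at h2
      linarith
  have hz : iteratedFDerivWithin ℝ k (f ∘ h) (S ∩ h ⁻¹' U) 0 = 0 := by
    rw [mul_zero, zero_mul] at key
    exact norm_le_zero_iff.mp key
  rw [iteratedFDerivWithin_of_isOpen k hWo hW0] at hz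
  exact hz

end Pool.Agent.FlatRes
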