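import Pool.Agent.Lib.MP_40a0b6_an.N2FlatC
import Pool.Agent.Lib.MP_40a0b6_an.N2FlatB
set_option autoImplicit false
open MeasureTheory
open scoped ENNReal FourierTransform SchwartzMap
namespace Pool.Agent.FlatRes

theorem eDat_fin {P : ℕ → ℝ → Prop} (h : ∀ j, ∃ δ : ℝ, 0 < δ ∧ ∀ r, 0 < r → r ≤ δ → P j r) (J : ℕ) :
    ∃ δ : ℝ, 0 < δ ∧ ∀ r, 0 < r → r ≤ δ → ∀ j ≤ J, P j r := by
  induction J with
  | zero =>
    obtain ⟨δ, hδ, h0⟩ := h 0
    exact ⟨δ, hδ, fun r hr hr' j hj => by rw [Nat.le_zero.1 hj]; exact h0 r hr hr'⟩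
  | succ J ih =>
    obtain ⟨δ, hδ, h1⟩ := ih
    obtain ⟨δ', hδ', h2⟩ := h (J + 1)
    refine ⟨min δ δ', lt_min hδ hδ', fun r hr hr' j hj => ?_⟩
    rcases Nat.lt_or_ge j (J + 1) with hlt | hge
    · exact h1 r hr (hr'.trans (min_le_left _ _)) j (Nat.lt_succ_iff.1 hlt)
    · rw [le_antisymm hj hge]
      exact h2 r hr (hr'.trans (min_le_right _ _))

theorem eDat_even (f : ℝ → ℝ) (r : ℝ) (hr : 0 < r) (hf : ∀ t, |t| < r → f (-t) = f t) (k : ℕ)
    (hk : Odd k) : iteratedDeriv k f 0 = 0 := by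
  have h1 : (fun t => f (-t)) =ᶠ[nhds 0] f := by
    filter_upwards [Metric.ball_mem_nhds (0 : ℝ) hr] with t ht
    rw [Metric.mem_ball, dist_zero_right, Real.norm_eq_abs] at ht
    exact hf t ht
  have h2 := h1.iteratedDeriv_eq k
  rw [iteratedDeriv_comp_neg, neg_zero, hk.neg_one_pow] at h2
  simp only [smul_eq_mul] at h2
  linarith

/-- JOB EDat.  Quantitative flatness (structure `EData`) from `FlatV E`, evenness, and flatness of `g`. -/
theorem e_data (m : ℕ) (hm : 2 ≤ m) (g : ℝ × ℝ → ℝ) (hg : FlatAtZero g) (E : ℝ × (ℝ × ℝ) → ℝ)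
    (hE : FlatV E) (r0 : ℝ) (hr0 : 0 < r0)
    (hev : ∀ z : ℝ, ∀ a : ℝ × ℝ, |z| < 4 * r0 → |a.1| < 4 * r0 → |a.2| < 4 * r0 → E (-z, a) = E (z, a))
    (N J : ℕ) (ε : ℝ) (hε : 0 < ε) :
    ∃ r1 : ℝ, 0 < r1 ∧ ∀ r, 0 < r → r ≤ r1 → ∀ ρ, 0 < ρ →
      EData m (psi0 2 m g r) r E J ρ (ε * ρ ^ N) := by
  classical
  obtain ⟨D, hD⟩ : ∃ D : ℕ → ℝ × (ℝ × ℝ) → ℝ, D = fun j p =>
    iteratedDeriv j (fun s : ℝ => E (p + s • ((1, 0) : ℝ × (ℝ × ℝ)))) 0 := ⟨_, rfl⟩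
  have hDflat : ∀ j, FlatV (D j) := fun j => by rw [hD]; exact flatV_iter E hE (1, 0) j
  have hD1 : ∀ j t a, iteratedDeriv j (fun s => E (s, a)) t = D j (t, a) := by
    intro j t a
    rw [hD]
    have h1 : (fun s : ℝ => E ((t, a) + s • ((1, 0) : ℝ × (ℝ × ℝ)))) =
        fun s => (fun s => E (s, a)) (t + s) := by
      ext s; simp
    have h2 := congrFun (iteratedDeriv_comp_const_add j (fun s => E (s, a)) t) 0
    simp only [h1]
    simpa using h2.symm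
  have heJ : ∀ j x, eJ E j x = D j (0, (2 * x.1, 2 * x.2)) := fun j x => hD1 j 0 _
  obtain ⟨ε', hε'⟩ : ∃ ε' : ℝ, ε' = ε / (4 * 2 ^ N) := ⟨_, rfl⟩
  have hε'0 : 0 < ε' := by rw [hε']; positivity
  -- bounds for `D j`
  have hb : ∀ j, ∃ δ : ℝ, 0 < δ ∧ ∀ r, 0 < r → r ≤ δ →
      (ContinuousOn (D j) (Metric.ball 0 (8 * r)) ∧ ∀ ρ : ℝ, 0 < ρ → ∀ x y : ℝ × (ℝ × ℝ), ‖x‖ < 8 * r →
        ‖y‖ < 8 * r → ‖x‖ ≤ ρ → ‖y‖ ≤ ρ →
        |D j x| ≤ ε' * ρ ^ N ∧ |D j x - D j y| ≤ ε' * ρ ^ N * ‖x - y‖ ∧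
        |D j x + D j y - 2 * D j ((1 / 2 : ℝ) • (x + y))| ≤ ε' * ρ ^ N * ‖x - y‖ ^ 2) := by
    intro j
    obtain ⟨δ, hδ, hc, h⟩ := flatV_diff (D j) (hDflat j) N ε' hε'0
    refine ⟨δ / 8, by positivity, fun r hr hr' => ⟨hc.mono (Metric.ball_subset_ball (by linarith)), ?_⟩⟩
    intro ρ hρ x y hx hy hx' hy'
    exact h ρ hρ x y (by linarith) (by linarith) hx' hy'
  obtain ⟨δ1, hδ1, hB⟩ := eDat_fin hb J
  -- smoothness of `E`
  obtain ⟨U, hU, hU0, hEU⟩ := hE.1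
  obtain ⟨δ2, hδ2, hball⟩ := Metric.isOpen_iff.1 hU 0 hU0
  -- `g`
  obtain ⟨V, hV, hV0, hgV⟩ := hg.1
  obtain ⟨δ3, hδ3, hballg⟩ := Metric.isOpen_iff.1 hV 0 hV0
  have hg' : FlatV g := hg
  obtain ⟨δ4, hδ4, _, hG⟩ := flatV_diff _ (flatV_dir g hg' (0, 1)) N ε hε
  refine ⟨min (min δ1 (δ2 / 8)) (min (min δ3 δ4) (r0 / 2)), by positivity, ?_⟩
  intro r hr hrr ρ hρ
  have hr1 : r ≤ δ1 := hrr.trans ((min_le_left _ _).trans (min_le_left _ _))
  have hr2 : r ≤ δ2 / 8 := hrr.trans ((min_le_left _ _).trans (min_le_right _ _))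
  have hr3 : r ≤ δ3 := hrr.trans ((min_le_right _ _).trans ((min_le_left _ _).trans (min_le_left _ _)))
  have hr4 : r ≤ δ4 := hrr.trans ((min_le_right _ _).trans ((min_le_left _ _).trans (min_le_right _ _)))
  have hr5 : r ≤ r0 / 2 := hrr.trans ((min_le_right _ _).trans (min_le_right _ _))
  have hB' := hB r hr hr1
  have hpow : ε' * (2 * ρ) ^ N * 4 = ε * ρ ^ N := by
    rw [hε', mul_pow]
    field_simp
  have hρN : 0 ≤ ε' * (2 * ρ) ^ N := by positivity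
  have hbox : ∀ x : ℝ × ℝ, x ∈ box r → |x.1| < r ∧ |x.2| < r := by
    intro x hx
    exact ⟨abs_lt.2 ⟨hx.1.1, hx.1.2⟩, abs_lt.2 ⟨hx.2.1, hx.2.2⟩⟩
  have hn : ∀ x : ℝ × ℝ, ‖((0, (2 * x.1, 2 * x.2)) : ℝ × (ℝ × ℝ))‖ = 2 * ‖x‖ := by
    intro x
    have h1 : ((0, (2 * x.1, 2 * x.2)) : ℝ × (ℝ × ℝ)) = (2 : ℝ) • ((0, x) : ℝ × (ℝ × ℝ)) := by
      ext <;> simp
    rw [h1, norm_smul, Prod.norm_mk, norm_zero, Real.norm_eq_abs, abs_of_pos (by norm_num : (0 : ℝ) < 2),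
      max_eq_right (norm_nonneg x)]
  have hnx : ∀ x : ℝ × ℝ, x ∈ box r → ‖x‖ < r := by
    intro x hx
    rw [Prod.norm_def]
    exact max_lt (hbox x hx).1 (hbox x hx).2
  have hsub : ∀ x x' : ℝ × ℝ, ‖x - x'‖ ≤ |x.1 - x'.1| + |x.2 - x'.2| := by
    intro x x'
    rw [Prod.norm_def]
    refine max_le ?_ ?_
    · simp only [Prod.fst_sub, Real.norm_eq_abs]
      linarith [abs_nonneg (x.2 - x'.2)]
    · simp only [Prod.snd_sub, Real.norm_eq_abs]
      linarith [abs_nonneg (x.1 - x'.1)]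
  have hsub2 : ∀ x x' : ℝ × ℝ, ‖((0, (2 * x.1, 2 * x.2)) : ℝ × (ℝ × ℝ)) - (0, (2 * x'.1, 2 * x'.2))‖ =
      2 * ‖x - x'‖ := by
    intro x x'
    rw [← hn (x - x')]
    congr 1
    ext <;> simp <;> ring
  constructor
  · -- smooth
    intro a h1 h2
    have h3 : ContDiffOn ℝ (⊤ : ℕ∞) (fun t : ℝ => ((t, a) : ℝ × (ℝ × ℝ))) (Set.Ioo (-(4 * r)) (4 * r)) :=
      (contDiff_id.prodMk contDiff_const).contDiffOn
    refine hEU.comp h3 ?_
    intro t ht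
    apply hball
    rw [Metric.mem_ball, dist_zero_right, Prod.norm_mk, Prod.norm_def]
    have : |t| < 4 * r := abs_lt.2 ht
    refine max_lt ?_ (max_lt ?_ ?_) <;> simp only [Real.norm_eq_abs] <;> linarith
  · intro a h1 h2
    refine eDat_even _ (4 * r0) (by positivity) (fun t ht => hev t a ht ?_ ?_) 1 (by decide) <;> linarith
  · intro a h1 h2
    refine eDat_even _ (4 * r0) (by positivity) (fun t ht => hev t a ht ?_ ?_) 3 (by decide) <;> linarith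
  · -- bd
    intro a t h1 h2 h3 h4 h5 h6 j hj
    rw [hD1]
    have hnorm : ‖((t, a) : ℝ × (ℝ × ℝ))‖ < 8 * r := by
      rw [Prod.norm_mk, Prod.norm_def]
      refine max_lt ?_ (max_lt ?_ ?_) <;> simp only [Real.norm_eq_abs] <;> linarith
    have hnorm2 : ‖((t, a) : ℝ × (ℝ × ℝ))‖ ≤ 2 * ρ := by
      rw [Prod.norm_mk, Prod.norm_def]
      refine max_le ?_ (max_le ?_ ?_) <;> simp only [Real.norm_eq_abs] <;> linarith
    have := ((hB' j hj).2 (2 * ρ) (by positivity) (t, a) (t, a) hnorm hnorm hnorm2 hnorm2).1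
    linarith
  · -- lip
    intro x hx x' hx' hxρ hxρ' j hj
    rw [heJ, heJ]
    have h1 := hnx x hx
    have h2 := hnx x' hx'
    have := ((hB' j hj).2 (2 * ρ) (by positivity) (0, (2 * x.1, 2 * x.2)) (0, (2 * x'.1, 2 * x'.2))
      (by rw [hn]; linarith) (by rw [hn]; linarith) (by rw [hn]; linarith) (by rw [hn]; linarith)).2.1
    rw [hsub2] at this
    refine this.trans ?_
    rw [← hpow]
    have h3 := hsub x x'
    have h4 : ε' * (2 * ρ) ^ N * (2 * ‖x - x'‖) ≤ ε' * (2 * ρ) ^ N * (4 * (|x.1 - x'.1| + |x.2 - x'.2|)) := by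
      apply mul_le_mul_of_nonneg_left _ hρN
      linarith [norm_nonneg (x - x')]
    linarith
  · -- dif2
    intro x hx x' hx' hxρ hxρ' j hj
    rw [heJ, heJ, heJ]
    have h1 := hnx x hx
    have h2 := hnx x' hx'
    have := ((hB' j hj).2 (2 * ρ) (by positivity) (0, (2 * x.1, 2 * x.2)) (0, (2 * x'.1, 2 * x'.2))
      (by rw [hn]; linarith) (by rw [hn]; linarith) (by rw [hn]; linarith) (by rw [hn]; linarith)).2.2
    rw [hsub2] at this
    have hmid : (1 / 2 : ℝ) • (((0, (2 * x.1, 2 * x.2)) : ℝ × (ℝ × ℝ)) + (0, (2 * x'.1, 2 * x'.2))) =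
        (0, (2 * ((x.1 + x'.1) / 2, (x.2 + x'.2) / 2).1, 2 * ((x.1 + x'.1) / 2, (x.2 + x'.2) / 2).2)) := by
      ext <;> simp <;> ring
    rw [hmid] at this
    refine this.trans ?_
    rw [← hpow]
    have h3 := hsub x x'
    have h4 : ‖x - x'‖ ^ 2 ≤ (|x.1 - x'.1| + |x.2 - x'.2|) ^ 2 :=
      pow_le_pow_left₀ (norm_nonneg _) h3 2
    have h5 : ε' * (2 * ρ) ^ N * (2 * ‖x - x'‖) ^ 2 ≤
        ε' * (2 * ρ) ^ N * (4 * (|x.1 - x'.1| + |x.2 - x'.2|) ^ 2) := by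
      apply mul_le_mul_of_nonneg_left _ hρN
      nlinarith
    linarith
  · -- dpsi
    intro x hx x' hx' hxρ hxρ'
    have hder : ∀ x ∈ box r, D1v (psi0 2 m g r) x - 2 * (x.2 - x.1 ^ m) = fderiv ℝ g x (0, 1) := by
      intro x hx
      have hb := hnx x hx
      have hxV : x ∈ V := hballg (by rw [mem_ball_zero_iff]; linarith)
      have h1 : DifferentiableAt ℝ g x :=
        (hgV.contDiffAt (hV.mem_nhds hxV)).differentiableAt (by simp)
      have h2 : HasDerivAt (fun t : ℝ => ((x.1, t) : ℝ × ℝ)) (0, 1) x.2 :=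
        (hasDerivAt_const x.2 x.1).prodMk (hasDerivAt_id x.2)
      have h3 : HasFDerivAt g (fderiv ℝ g x) ((x.1, x.2) : ℝ × ℝ) := h1.hasFDerivAt
      have h4 : HasDerivAt (fun t => g (x.1, t)) (fderiv ℝ g x (0, 1)) x.2 := h3.comp_hasDerivAt x.2 h2
      have h5 : HasDerivAt (fun t => phi 2 m (x.1, t)) (2 * (x.2 - x.1 ^ m)) x.2 := by
        unfold phi
        have h8 : HasDerivAt (fun t : ℝ => t - x.1 ^ m) 1 x.2 := (hasDerivAt_id x.2).sub_const (x.1 ^ m)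
        have h9 := h8.mul h8
        refine (h9.congr_deriv (by ring)).congr_of_eventuallyEq (Filter.Eventually.of_forall fun t => ?_)
        simp only [Pi.mul_apply]
        ring
      have h6 : (fun t => psi0 2 m g r (x.1, t)) =ᶠ[nhds x.2] fun t => phi 2 m (x.1, t) + g (x.1, t) := by
        have : Set.Ioo (-r) r ∈ nhds x.2 := isOpen_Ioo.mem_nhds hx.2
        filter_upwards [this] with t ht
        unfold psi0
        rw [Set.indicator_of_mem (show (x.1, t) ∈ box r from ⟨hx.1, ht⟩)]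
      have h7 : D1v (psi0 2 m g r) x = 2 * (x.2 - x.1 ^ m) + fderiv ℝ g x (0, 1) := by
        unfold D1v
        exact ((h5.add h4).congr_of_eventuallyEq h6).deriv
      rw [h7]; ring
    rw [hder x hx, hder x' hx']
    have h1 := hnx x hx
    have h2 := hnx x' hx'
    have := (hG ρ hρ x x' (by linarith) (by linarith) hxρ hxρ').2.1
    refine this.trans ?_
    exact mul_le_mul_of_nonneg_left (hsub x x') (by positivity)
  · -- eval
    intro x hx hxρ j hj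
    rw [heJ]
    have h1 := hnx x hx
    have := ((hB' j hj).2 (2 * ρ) (by positivity) (0, (2 * x.1, 2 * x.2)) (0, (2 * x.1, 2 * x.2))
      (by rw [hn]; linarith) (by rw [hn]; linarith) (by rw [hn]; linarith) (by rw [hn]; linarith)).1
    linarith
  · -- ecov
    intro j hj
    have h1 : ContinuousOn (fun x : ℝ × ℝ => D j (0, (2 * x.1, 2 * x.2))) (box r) := by
      refine (hB' j hj).1.comp (by fun_prop) ?_
      intro x hx
      rw [mem_ball_zero_iff, hn]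
      have := hnx x hx
      linarith
    exact h1.congr (fun x _ => heJ j x)

end Pool.Agent.FlatRes
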