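import Pool.Agent.Lib.MP_40a0b6_an.N2Defs
set_option autoImplicit false
open MeasureTheory
open scoped ENNReal FourierTransform SchwartzMap
namespace Pool.Agent.FlatRes

/-- the reciprocal of the critical exponent for `n = 2` -/
theorem Exp_pcrit (m : ℕ) (hm : 3 ≤ m) : pcrit 2 m = (6 * m + 2) / (m + 1) := by
  have hx : (0 : ℝ) ≤ m := Nat.cast_nonneg m
  have h1 : (2 : ℕ) ≤ m + 1 := by omega
  unfold pcrit
  rw [if_pos h1]
  push_cast
  field_simp
  ring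

theorem Exp_inv (m : ℕ) (hm : 3 ≤ m) : 1 / pcrit 2 m = ((m : ℝ) + 1) / (6 * m + 2) := by
  rw [Exp_pcrit m hm, one_div_div]

/-- the core inequalities in terms of `s = 1/q'` -/
theorem Exp_core (x s j τ ω : ℝ) (hx : 3 ≤ x) (hω : ω = 1 / (48 * x * (3 * x + 1)))
    (hs : |s - (x + 1) / (6 * x + 2)| ≤ ω) (ι : ℝ) (hι : ι = 0 ∨ ι = 1)
    (hj : j = x - ι) (hτ : τ = (2 * x + 1 - 2 * ι) / (2 * x + 2)) :
    0 < τ ∧ τ ≤ 1 ∧ 0 < 1 - 6 * s + 4 * τ * s / j ∧ 0 < 1 - 2 * s - 2 * τ * x * s / j := by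
  have hω0 : 0 < ω := by rw [hω]; positivity
  have hωs : ω ≤ 1 / 1440 := by
    rw [hω]
    apply one_div_le_one_div_of_le (by norm_num)
    nlinarith
  have hP : (x + 1) / (6 * x + 2) ≤ 1 / 5 := by
    rw [div_le_div_iff₀ (by positivity) (by norm_num)]; linarith
  have hP0 : 1 / 6 < (x + 1) / (6 * x + 2) := by
    rw [div_lt_div_iff₀ (by norm_num) (by positivity)]; linarith
  obtain ⟨hs1, hs2⟩ := abs_le.1 hs
  have hs4 : s < 1 / 4 := by linarith
  have hs0 : 0 < s := by linarith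
  have hι1 : ι ≤ 1 := by rcases hι with h | h <;> rw [h] <;> norm_num
  have hι0 : 0 ≤ ι := by rcases hι with h | h <;> rw [h] <;> norm_num
  have hj0 : 2 ≤ j := by rw [hj]; linarith
  have hjp : 0 < j := by linarith
  have hτ0 : 0 < τ := by
    rw [hτ]; apply div_pos <;> linarith
  have hτ1 : τ ≤ 1 := by
    rw [hτ, div_le_one (by linarith)]; linarith
  refine ⟨hτ0, hτ1, ?_, ?_⟩
  · -- value at the critical exponent
    have hval : 1 - 6 * ((x + 1) / (6 * x + 2)) + 4 * τ * ((x + 1) / (6 * x + 2)) / j =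
        1 / (j * (3 * x + 1)) := by
      rw [hτ]
      rcases hι with h | h
      · rw [hj, h]
        have h1 : x ≠ 0 := by linarith
        have h2 : x - 0 ≠ 0 := by linarith
        have h3 : x + 1 ≠ 0 := by linarith
        have h4 : 3 * x + 1 ≠ 0 := by linarith
        have h5 : 6 * x + 2 ≠ 0 := by linarith
        have h6 : 2 * x + 2 ≠ 0 := by linarith
        rw [show 6 * x + 2 = 2 * (3 * x + 1) by ring, show 2 * x + 2 = 2 * (x + 1) by ring]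
        simp only [sub_zero, mul_zero]
        field_simp
        ring
      · rw [hj, h]
        have h2 : x - 1 ≠ 0 := by linarith
        have h3 : x + 1 ≠ 0 := by linarith
        have h4 : 3 * x + 1 ≠ 0 := by linarith
        rw [show 6 * x + 2 = 2 * (3 * x + 1) by ring, show 2 * x + 2 = 2 * (x + 1) by ring]
        field_simp
        ring
    have hge : 1 / (j * (3 * x + 1)) ≥ 48 * ω := by
      have hjx : j ≤ x := by rw [hj]; linarith
      have e1 : 48 * ω = 1 / (x * (3 * x + 1)) := by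
        rw [hω]; field_simp
      rw [e1]
      apply one_div_le_one_div_of_le (by positivity)
      apply mul_le_mul_of_nonneg_right hjx (by linarith)
    have hdiff : 1 - 6 * s + 4 * τ * s / j =
        (1 - 6 * ((x + 1) / (6 * x + 2)) + 4 * τ * ((x + 1) / (6 * x + 2)) / j) +
        (s - (x + 1) / (6 * x + 2)) * (4 * τ / j - 6) := by
      ring
    rw [hdiff, hval]
    have hτj0 : 0 ≤ 4 * τ / j := by positivity
    have hτj1 : 4 * τ / j ≤ 2 := by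
      rw [div_le_iff₀ hjp]; linarith
    have hprod : |(s - (x + 1) / (6 * x + 2)) * (4 * τ / j - 6)| ≤ ω * 6 := by
      rw [abs_mul]
      apply mul_le_mul hs _ (abs_nonneg _) hω0.le
      rw [abs_le]; constructor <;> linarith
    have := (abs_le.1 hprod).1
    linarith
  · have hτx : τ * x ≤ j := by
      rw [hτ, div_mul_eq_mul_div, div_le_iff₀ (by linarith), hj]
      rcases hι with h | h
      · rw [h]; nlinarith
      · rw [h]; nlinarith
    have h1 : 2 * τ * x * s / j ≤ 2 * s := by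
      rw [div_le_iff₀ hjp]
      nlinarith
    linarith

/-- JOB Exp.  Choice of exponents, `m ≥ 3`, `q = pcrit 2 m = (6m+2)/(m+1) ∈ [5,6)`.

Proof.  `1/q = (m+1)/(6m+2)`; take `ω = 1/(48 m(3m+1))` and `q1, q2` with `1/q1 = 1/q+ω`, `1/q2 = 1/q-ω`.
With `j = m-ι`, `τ = (2m+1-2ι)/(2m+2)`, `θ = 2/q'`: `α = 1-3θ+2τθ/j`, `β = 1-θ-τθm/j`; at `θ_c = (m+1)/(3m+1)`:
`α_c = 1/(j(3m+1))`, `β_c = m(1-1/(2j))/(3m+1)`, and `|θ-θ_c| = 2ω`, slopes at most `3` and `3`.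
`3/2-7/q' > 0` since `7/q ≤ 7/5` and `7ω < 1/10`. -/
theorem exps (m : ℕ) (hm : 3 ≤ m) : ∃ ω q1 q2 : ℝ, 0 < ω ∧ 1 / q1 = 1 / pcrit 2 m + ω ∧
    1 / q2 = 1 / pcrit 2 m - ω ∧ 4 < q1 ∧ q1 < 6 ∧ 4 < q2 ∧ q2 < 6 ∧ 0 < 3 / 2 - 7 / q1 ∧
    0 < 3 / 2 - 7 / q2 ∧
    ((m : ℝ) + 1) - (6 * m + 2) / q1 = -((6 * m + 2) * ω) ∧
    ((m : ℝ) + 1) - (6 * m + 2) / q2 = (6 * m + 2) * ω ∧
    ∀ ι : ℕ, ι ≤ 1 → ∀ q' : ℝ, (q' = q1 ∨ q' = q2) →
      0 < ((2 * m + 1 - 2 * ι : ℝ) / (2 * m + 2)) ∧ ((2 * m + 1 - 2 * ι : ℝ) / (2 * m + 2)) ≤ 1 ∧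
      0 < 1 - 6 / q' + 4 * ((2 * m + 1 - 2 * ι : ℝ) / (2 * m + 2)) / (q' * ((m - ι : ℕ) : ℝ)) ∧
      0 < 1 - 2 / q' - 2 * ((2 * m + 1 - 2 * ι : ℝ) / (2 * m + 2)) * m / (q' * ((m - ι : ℕ) : ℝ)) := by
  have hx : (3 : ℝ) ≤ m := by exact_mod_cast hm
  set x : ℝ := (m : ℝ) with hxdef
  obtain ⟨ω, hω⟩ : ∃ ω : ℝ, ω = 1 / (48 * x * (3 * x + 1)) := ⟨_, rfl⟩
  have hω0 : 0 < ω := by rw [hω]; positivity
  have hωs : ω ≤ 1 / 1440 := by
    rw [hω]
    apply one_div_le_one_div_of_le (by norm_num)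
    nlinarith
  have hP : (x + 1) / (6 * x + 2) ≤ 1 / 5 := by
    rw [div_le_div_iff₀ (by positivity) (by norm_num)]; linarith
  have hP0 : (x + 1) / (6 * x + 2) = 1 / 6 + 16 * x * ω := by
    rw [hω, show 6 * x + 2 = 2 * (3 * x + 1) by ring]
    field_simp
    ring
  have hP1 : 1 / 6 + 48 * ω ≤ (x + 1) / (6 * x + 2) := by
    rw [hP0]; nlinarith
  have hinv := Exp_inv m hm
  rw [← hxdef] at hinv
  obtain ⟨s1, hs1⟩ : ∃ s1 : ℝ, s1 = (x + 1) / (6 * x + 2) + ω := ⟨_, rfl⟩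
  obtain ⟨s2, hs2⟩ : ∃ s2 : ℝ, s2 = (x + 1) / (6 * x + 2) - ω := ⟨_, rfl⟩
  have hs10 : 1 / 6 < s1 := by linarith
  have hs20 : 1 / 6 < s2 := by linarith
  have hs11 : s1 < 3 / 14 := by linarith
  have hs21 : s2 < 3 / 14 := by linarith
  have hPx : (6 * x + 2) * ((x + 1) / (6 * x + 2)) = x + 1 := by
    field_simp
  refine ⟨ω, 1 / s1, 1 / s2, hω0, ?_, ?_, ?_, ?_, ?_, ?_, ?_, ?_, ?_, ?_, ?_⟩
  · rw [one_div_one_div, hinv, hs1]
  · rw [one_div_one_div, hinv, hs2]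
  · rw [lt_div_iff₀ (by linarith)]; linarith
  · rw [div_lt_iff₀ (by linarith)]; linarith
  · rw [lt_div_iff₀ (by linarith)]; linarith
  · rw [div_lt_iff₀ (by linarith)]; linarith
  · rw [div_div_eq_mul_div, div_one]; linarith
  · rw [div_div_eq_mul_div, div_one]; linarith
  · rw [div_div_eq_mul_div, div_one, hs1, mul_add, hPx]; ring
  · rw [div_div_eq_mul_div, div_one, hs2, mul_sub, hPx]; ring
  · intro ι hι q' hq'
    obtain ⟨s, hq, hs0, hsabs⟩ : ∃ s : ℝ, q' = 1 / s ∧ 0 < s ∧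
        |s - (x + 1) / (6 * x + 2)| ≤ ω := by
      rcases hq' with h | h
      · refine ⟨s1, h, by linarith, ?_⟩
        rw [hs1, add_sub_cancel_left, abs_of_pos hω0]
      · refine ⟨s2, h, by linarith, ?_⟩
        rw [hs2, abs_le]; constructor <;> linarith
    have hιr : (ι : ℝ) = 0 ∨ (ι : ℝ) = 1 := by
      interval_cases ι
      · left; norm_num
      · right; norm_num
    have hcast : ((m - ι : ℕ) : ℝ) = x - ι := by
      rw [Nat.cast_sub (by omega)]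
    have hcore := Exp_core x s (x - ι) ((2 * x + 1 - 2 * ι) / (2 * x + 2)) ω hx hω hsabs ι hιr
      rfl rfl
    obtain ⟨c1, c2, c3, c4⟩ := hcore
    have hj : x - ι ≠ 0 := by
      rcases hιr with h | h <;> rw [h] <;> intro h0 <;> linarith
    rw [hcast, hq]
    refine ⟨c1, c2, ?_, ?_⟩
    · have e : 1 - 6 / (1 / s) + 4 * ((2 * x + 1 - 2 * ι) / (2 * x + 2)) / (1 / s * (x - ι)) =
          1 - 6 * s + 4 * ((2 * x + 1 - 2 * ι) / (2 * x + 2)) * s / (x - ι) := by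
        field_simp
      rw [e]; exact c3
    · have e : 1 - 2 / (1 / s) -
          2 * ((2 * x + 1 - 2 * ι) / (2 * x + 2)) * x / (1 / s * (x - ι)) =
          1 - 2 * s - 2 * ((2 * x + 1 - 2 * ι) / (2 * x + 2)) * x * s / (x - ι) := by
        field_simp
      rw [e]; exact c4

end Pool.Agent.FlatRes
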