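import Pool.Agent.Lib.MP_40a0b6_an.N2Defs
set_option autoImplicit false
open MeasureTheory
open scoped ENNReal FourierTransform SchwartzMap
namespace Pool.Agent.FlatRes

variable {V : Type*} [NormedAddCommGroup V] [NormedSpace ℝ V]

/-- JOB NFlatA (5 statements).  A flat function has all derivatives `≤ ε ‖x‖^N` near `0` (same proof as `flat_bound` in
`FlatA.lean`, induction on `N` for all `j` by the mean value inequality). -/
theorem flatV_bound (f : V → ℝ) (hf : FlatV f) (N j : ℕ) (ε : ℝ) (hε : 0 < ε) :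
    ∃ δ : ℝ, 0 < δ ∧ ∀ x : V, ‖x‖ < δ → ‖iteratedFDeriv ℝ j f x‖ ≤ ε * ‖x‖ ^ N := by
  obtain ⟨⟨U, hV, h0, hgV⟩, hflat⟩ := hf
  have hsm : ∀ (j : ℕ), ∀ x ∈ U, ContDiffAt ℝ 1 (iteratedFDeriv ℝ j f) x := by
    intro j x hx
    have h1 : ContDiffAt ℝ ((⊤ : ℕ∞) : WithTop ℕ∞) f x := hgV.contDiffAt (hV.mem_nhds hx)
    refine h1.iteratedFDeriv_right (m := 1) ?_
    exact_mod_cast le_top
  obtain ⟨ρ, hρ, hball⟩ := Metric.isOpen_iff.1 hV 0 h0
  induction N generalizing j ε with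
  | zero =>
    have hc : ContinuousAt (iteratedFDeriv ℝ j f) 0 := (hsm j 0 h0).continuousAt
    rw [Metric.continuousAt_iff] at hc
    obtain ⟨δ, hδ, h⟩ := hc ε hε
    refine ⟨δ, hδ, fun x hx => ?_⟩
    have := h (x := x) (by rwa [dist_zero_right])
    rw [hflat j, dist_zero_right] at this
    rw [pow_zero, mul_one]
    exact this.le
  | succ N ih =>
    obtain ⟨δ, hδ, h⟩ := ih (j + 1) ε hε
    refine ⟨min δ ρ, lt_min hδ hρ, fun x hx => ?_⟩
    have hseg : ∀ y ∈ segment ℝ (0 : V) x, ‖y‖ ≤ ‖x‖ := by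
      intro y hy
      rw [segment_eq_image] at hy
      obtain ⟨t, ht, rfl⟩ := hy
      simp only [smul_zero, zero_add]
      rw [norm_smul, Real.norm_eq_abs, abs_of_nonneg ht.1]
      exact mul_le_of_le_one_left (norm_nonneg _) ht.2
    have hmem : ∀ y ∈ segment ℝ (0 : V) x, y ∈ U := by
      intro y hy
      apply hball
      rw [mem_ball_zero_iff]
      exact lt_of_le_of_lt (hseg y hy) (lt_of_lt_of_le hx (min_le_right _ _))
    have key := (convex_segment (0 : V) x).norm_image_sub_le_of_norm_fderiv_le (𝕜 := ℝ)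
      (f := iteratedFDeriv ℝ j f) (C := ε * ‖x‖ ^ N) (x := 0) (y := x)
      (fun y hy => (hsm j y (hmem y hy)).differentiableAt (by norm_num))
      (fun y hy => by
        rw [norm_fderiv_iteratedFDeriv]
        refine (h y (lt_of_le_of_lt (hseg y hy) (lt_of_lt_of_le hx (min_le_left _ _)))).trans ?_
        exact mul_le_mul_of_nonneg_left (pow_le_pow_left₀ (norm_nonneg _) (hseg y hy) N) hε.le)
      (left_mem_segment ℝ _ _) (right_mem_segment ℝ _ _)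
    rw [hflat j, sub_zero, sub_zero] at key
    rw [pow_succ, ← mul_assoc]
    exact key

theorem flatV_congr (f g : V → ℝ) (hf : FlatV f) (hfg : f =ᶠ[nhds 0] g) : FlatV g := by
  obtain ⟨⟨U, hUo, hU0, hfU⟩, hfl⟩ := hf
  obtain ⟨S, hS, hSo, hS0⟩ := eventually_nhds_iff.mp hfg
  refine ⟨⟨U ∩ S, hUo.inter hSo, ⟨hU0, hS0⟩, ?_⟩, fun k => ?_⟩
  · exact (hfU.mono Set.inter_subset_left).congr fun x hx => (hS x hx.2).symm
  · rw [← (Filter.EventuallyEq.iteratedFDeriv ℝ hfg k).eq_of_nhds]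
    exact hfl k

theorem flatV_add (f g : V → ℝ) (hf : FlatV f) (hg : FlatV g) : FlatV (fun x => f x + g x) := by
  obtain ⟨⟨U, hUo, hU0, hfU⟩, hfl⟩ := hf
  obtain ⟨⟨S, hSo, hS0, hgS⟩, hgl⟩ := hg
  refine ⟨⟨U ∩ S, hUo.inter hSo, ⟨hU0, hS0⟩, ?_⟩, fun k => ?_⟩
  · exact (hfU.mono Set.inter_subset_left).add (hgS.mono Set.inter_subset_right)
  · have h1 : ContDiffAt ℝ (k : WithTop ℕ∞) f 0 :=
      (hfU.contDiffAt (hUo.mem_nhds hU0)).of_le (by exact_mod_cast le_top)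
    have h2 : ContDiffAt ℝ (k : WithTop ℕ∞) g 0 :=
      (hgS.contDiffAt (hSo.mem_nhds hS0)).of_le (by exact_mod_cast le_top)
    have h3 := iteratedFDeriv_add_apply h1 h2
    have h4 : (fun x => f x + g x) = f + g := rfl
    rw [h4, h3, hfl k, hgl k, add_zero]

theorem flatV_const_mul (c : ℝ) (f : V → ℝ) (hf : FlatV f) : FlatV (fun x => c * f x) := by
  obtain ⟨⟨U, hUo, hU0, hfU⟩, hfl⟩ := hf
  refine ⟨⟨U, hUo, hU0, contDiffOn_const.mul hfU⟩, fun k => ?_⟩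
  have h1 : ContDiffAt ℝ (k : WithTop ℕ∞) f 0 :=
    (hfU.contDiffAt (hUo.mem_nhds hU0)).of_le (by exact_mod_cast le_top)
  have h3 := iteratedFDeriv_const_smul_apply (a := c) h1
  have h4 : (fun x => c * f x) = c • f := rfl
  rw [h4, h3, hfl k, smul_zero]

/-- `f` flat, `g` smooth near `0`: the product is flat. -/
theorem flatV_mul (f g : V → ℝ) (hf : FlatV f)
    (hg : ∃ U : Set V, IsOpen U ∧ (0 : V) ∈ U ∧ ContDiffOn ℝ (⊤ : ℕ∞) g U) :
    FlatV (fun x => f x * g x) := by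
  obtain ⟨⟨U, hUo, hU0, hfU⟩, hfl⟩ := hf
  obtain ⟨S, hSo, hS0, hgS⟩ := hg
  have hWo : IsOpen (U ∩ S) := hUo.inter hSo
  have hW0 : (0 : V) ∈ U ∩ S := ⟨hU0, hS0⟩
  have hfW : ContDiffOn ℝ (⊤ : ℕ∞) f (U ∩ S) := hfU.mono Set.inter_subset_left
  have hgW : ContDiffOn ℝ (⊤ : ℕ∞) g (U ∩ S) := hgS.mono Set.inter_subset_right
  refine ⟨⟨U ∩ S, hWo, hW0, hfW.mul hgW⟩, fun k => ?_⟩
  have h1 := norm_iteratedFDerivWithin_mul_le (N := ((⊤ : ℕ∞) : WithTop ℕ∞)) hfW hgW hWo.uniqueDiffOn hW0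
    (n := k) (by exact_mod_cast le_top)
  have h2 : ∑ i ∈ Finset.range (k + 1), (k.choose i : ℝ) * ‖iteratedFDerivWithin ℝ i f (U ∩ S) 0‖ *
      ‖iteratedFDerivWithin ℝ (k - i) g (U ∩ S) 0‖ = 0 := by
    apply Finset.sum_eq_zero
    intro i _
    rw [iteratedFDerivWithin_of_isOpen i hWo hW0, hfl i, norm_zero, mul_zero, zero_mul]
  rw [h2, iteratedFDerivWithin_of_isOpen k hWo hW0] at h1
  exact norm_le_zero_iff.mp h1

end Pool.Agent.FlatRes
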