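import Pool.Agent.Lib.MP_40a0b6_an.N2FlatA
set_option autoImplicit false
open MeasureTheory
open scoped ENNReal FourierTransform SchwartzMap
namespace Pool.Agent.FlatRes

variable {V : Type*} [NormedAddCommGroup V] [NormedSpace ℝ V]

/-- JOB NFlatC (3 statements).  Directional derivatives of a flat function are flat.
(`iteratedFDeriv k (fderiv f) 0` is `iteratedFDeriv (k+1) f 0` up to currying, composed with evaluation at `e`;
see `flatA_partial_one` in `FlatA.lean`.) -/
theorem flatV_dir (f : V → ℝ) (hf : FlatV f) (e : V) : FlatV (fun x => fderiv ℝ f x e) := by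
  obtain ⟨⟨U, hU, h0, hfU⟩, hflat⟩ := hf
  have hsm : ContDiffOn ℝ (⊤ : ℕ∞) (fderiv ℝ f) U :=
    hfU.fderiv_of_isOpen hU (by exact_mod_cast le_top)
  refine ⟨⟨U, hU, h0, hsm.clm_apply contDiffOn_const⟩, fun k => ?_⟩
  have hc : ContDiffAt ℝ (⊤ : ℕ∞) (fderiv ℝ f) 0 := hsm.contDiffAt (hU.mem_nhds h0)
  have hb := norm_iteratedFDeriv_clm_apply_const (𝕜 := ℝ) (c := e) (n := k) hc
    (by exact_mod_cast le_top)
  rw [norm_iteratedFDeriv_fderiv, hflat (k + 1), norm_zero, mul_zero] at hb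
  exact norm_le_zero_iff.1 hb

/-- iterated directional derivatives: near `0`, `iteratedDeriv (k+1) (fun t => f (x + t•e)) 0` is the directional derivative
of `x ↦ iteratedDeriv k (fun t => f (x + t•e)) 0`. -/
theorem flatV_iter (f : V → ℝ) (hf : FlatV f) (e : V) (k : ℕ) :
    FlatV (fun x => iteratedDeriv k (fun t : ℝ => f (x + t • e)) 0) := by
  induction k with
  | zero => simpa [iteratedDeriv_zero] using hf
  | succ k ih =>
    have h1 := flatV_dir _ ih e
    obtain ⟨⟨U, hU, h0, hFU⟩, -⟩ := ih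
    refine flatV_congr _ _ h1 ?_
    filter_upwards [hU.mem_nhds h0] with x hx
    have hd : DifferentiableAt ℝ (fun x : V => iteratedDeriv k (fun t : ℝ => f (x + t • e)) 0) x :=
      (hFU.contDiffAt (hU.mem_nhds hx)).differentiableAt (by simp)
    have h2 : iteratedDeriv k (fun t : ℝ => f (x + t • e))
        = fun s : ℝ => iteratedDeriv k (fun t : ℝ => f ((x + s • e) + t • e)) 0 := by
      funext s
      have h4 := congrFun (iteratedDeriv_comp_const_add k (fun t : ℝ => f (x + t • e)) s) 0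
      simp only [add_zero] at h4
      rw [← h4]
      congr 1
      funext t
      rw [add_smul, add_assoc]
    rw [iteratedDeriv_succ, h2]
    have h5 : HasDerivAt (fun s : ℝ => x + s • e) e 0 := by
      simpa using ((hasDerivAt_id (0 : ℝ)).smul_const e).const_add x
    have h6 : HasFDerivAt (fun x : V => iteratedDeriv k (fun t : ℝ => f (x + t • e)) 0)
        (fderiv ℝ (fun x : V => iteratedDeriv k (fun t : ℝ => f (x + t • e)) 0) x)
        (x + (0 : ℝ) • e) := by
      simpa using hd.hasFDerivAt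
    exact ((h6.comp_hasDerivAt (0 : ℝ) h5).deriv).symm

/-- consequences: smallness, Lipschitz bound, second difference bound on small balls. -/
theorem flatV_diff (f : V → ℝ) (hf : FlatV f) (N : ℕ) (ε : ℝ) (hε : 0 < ε) :
    ∃ δ : ℝ, 0 < δ ∧ ContinuousOn f (Metric.ball 0 δ) ∧ ∀ ρ : ℝ, 0 < ρ → ∀ x y : V, ‖x‖ < δ → ‖y‖ < δ → ‖x‖ ≤ ρ → ‖y‖ ≤ ρ →
      |f x| ≤ ε * ρ ^ N ∧ |f x - f y| ≤ ε * ρ ^ N * ‖x - y‖ ∧
      |f x + f y - 2 * f ((1 / 2 : ℝ) • (x + y))| ≤ ε * ρ ^ N * ‖x - y‖ ^ 2 := by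
  obtain ⟨δ0, hδ0, hb0⟩ := flatV_bound f hf N 0 ε hε
  obtain ⟨δ1, hδ1, hb1⟩ := flatV_bound f hf N 1 ε hε
  obtain ⟨δ2, hδ2, hb2⟩ := flatV_bound f hf N 2 ε hε
  obtain ⟨⟨U, hU, h0, hfU⟩, -⟩ := hf
  obtain ⟨δ3, hδ3, hball⟩ := Metric.isOpen_iff.1 hU 0 h0
  have hfd : ContDiffOn ℝ (⊤ : ℕ∞) (fderiv ℝ f) U :=
    hfU.fderiv_of_isOpen hU (by exact_mod_cast le_top)
  refine ⟨min (min δ0 δ1) (min δ2 δ3), by positivity, ?_, ?_⟩
  · refine hfU.continuousOn.mono fun x hx => hball ?_
    rw [Metric.mem_ball] at hx ⊢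
    exact lt_of_lt_of_le hx ((min_le_right _ _).trans (min_le_right _ _))
  intro ρ hρ x y hx hy hxρ hyρ
  set δ := min (min δ0 δ1) (min δ2 δ3) with hδ
  set s : Set V := Metric.ball 0 δ ∩ Metric.closedBall 0 ρ with hs
  have hconv : Convex ℝ s := (convex_ball _ _).inter (convex_closedBall _ _)
  have hmem : ∀ z : V, z ∈ s ↔ ‖z‖ < δ ∧ ‖z‖ ≤ ρ := by
    intro z
    rw [hs, Set.mem_inter_iff, mem_ball_zero_iff, mem_closedBall_zero_iff]
  have hxs : x ∈ s := (hmem x).2 ⟨hx, hxρ⟩
  have hys : y ∈ s := (hmem y).2 ⟨hy, hyρ⟩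
  have hpow : ∀ z ∈ s, ε * ‖z‖ ^ N ≤ ε * ρ ^ N := fun z hz =>
    mul_le_mul_of_nonneg_left (pow_le_pow_left₀ (norm_nonneg _) ((hmem z).1 hz).2 N) hε.le
  have hzU : ∀ z ∈ s, z ∈ U := fun z hz => hball (by
    rw [mem_ball_zero_iff]
    exact lt_of_lt_of_le ((hmem z).1 hz).1 ((min_le_right _ _).trans (min_le_right _ _)))
  have hd : ∀ z ∈ s, DifferentiableAt ℝ f z := fun z hz =>
    (hfU.contDiffAt (hU.mem_nhds (hzU z hz))).differentiableAt (by simp)
  have hd2 : ∀ z ∈ s, DifferentiableAt ℝ (fderiv ℝ f) z := fun z hz =>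
    (hfd.contDiffAt (hU.mem_nhds (hzU z hz))).differentiableAt (by simp)
  have hn1 : ∀ z ∈ s, ‖fderiv ℝ f z‖ ≤ ε * ρ ^ N := by
    intro z hz
    have := hb1 z (lt_of_lt_of_le ((hmem z).1 hz).1 ((min_le_left _ _).trans (min_le_right _ _)))
    rw [norm_iteratedFDeriv_one] at this
    exact this.trans (hpow z hz)
  have hn2 : ∀ z ∈ s, ‖fderiv ℝ (fderiv ℝ f) z‖ ≤ ε * ρ ^ N := by
    intro z hz
    have := hb2 z (lt_of_lt_of_le ((hmem z).1 hz).1 ((min_le_right _ _).trans (min_le_left _ _)))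
    have e : ‖fderiv ℝ (fderiv ℝ f) z‖ = ‖iteratedFDeriv ℝ 2 f z‖ := by
      rw [← norm_iteratedFDeriv_one (𝕜 := ℝ) (f := fderiv ℝ f), norm_iteratedFDeriv_fderiv]
    rw [e]
    exact this.trans (hpow z hz)
  refine ⟨?_, ?_, ?_⟩
  · have := hb0 x (lt_of_lt_of_le hx ((min_le_left _ _).trans (min_le_left _ _)))
    rw [norm_iteratedFDeriv_zero, Real.norm_eq_abs] at this
    exact this.trans (hpow x hxs)
  · have := hconv.norm_image_sub_le_of_norm_fderiv_le (𝕜 := ℝ) (f := f) (C := ε * ρ ^ N)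
      (fun z hz => hd z hz) (fun z hz => hn1 z hz) hys hxs
    rwa [Real.norm_eq_abs] at this
  · set d : V := (1 / 2 : ℝ) • (x - y) with hd'
    have hm : (1 / 2 : ℝ) • (x + y) = y + d := by
      rw [hd', smul_add, smul_sub]
      have : y = (1 / 2 : ℝ) • y + (1 / 2 : ℝ) • y := by rw [← add_smul]; norm_num
      nth_rewrite 2 [this]
      abel
    have hx' : x = (y + d) + d := by
      rw [hd', add_assoc, ← add_smul]; norm_num
    set m : V := y + d with hmdef
    have hms : m ∈ s := by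
      rw [← hm, smul_add]
      exact hconv hxs hys (by norm_num) (by norm_num) (by norm_num)
    have hseg1 : ∀ z ∈ segment ℝ y m, z ∈ s := fun z hz => hconv.segment_subset hys hms hz
    have hseg2 : ∀ z ∈ segment ℝ y m, z + d ∈ s := by
      intro z hz
      have : z + d ∈ segment ℝ m x := by
        rw [segment_eq_image'] at hz ⊢
        obtain ⟨t, ht, rfl⟩ := hz
        refine ⟨t, ht, ?_⟩
        have e1 : m - y = d := by rw [hmdef]; abel
        have e2 : x - m = d := by rw [hx']; abel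
        change m + t • (x - m) = y + t • (m - y) + d
        rw [e1, e2]
        have e5 : m + t • d = (y + d) + t • d := by rw [hmdef]
        rw [e5]
        abel
      exact hconv.segment_subset hms hxs this
    have key := (convex_segment y m).norm_image_sub_le_of_norm_fderiv_le (𝕜 := ℝ)
      (f := fun z => f (z + d) - f z) (C := ε * ρ ^ N * ‖d‖)
      (fun z hz => by
        have h1 : DifferentiableAt ℝ (fun z => f (z + d)) z := by
          have := hd (z + d) (hseg2 z hz)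
          exact this.comp z (differentiableAt_id.add_const d)
        exact h1.sub (hd z (hseg1 z hz)))
      (fun z hz => by
        have h1 : DifferentiableAt ℝ (fun z => f (z + d)) z := by
          have := hd (z + d) (hseg2 z hz)
          exact this.comp z (differentiableAt_id.add_const d)
        have h2 : fderiv ℝ (fun z => f (z + d) - f z) z = fderiv ℝ f (z + d) - fderiv ℝ f z := by
          rw [fderiv_fun_sub h1 (hd z (hseg1 z hz)), fderiv_comp_add_right]
        rw [h2]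
        have := hconv.norm_image_sub_le_of_norm_fderiv_le (𝕜 := ℝ) (f := fderiv ℝ f)
          (C := ε * ρ ^ N) (fun z hz => hd2 z hz) (fun z hz => hn2 z hz) (hseg1 z hz)
          (hseg2 z hz)
        rwa [add_sub_cancel_left] at this)
      (left_mem_segment ℝ _ _) (right_mem_segment ℝ _ _)
    have e3 : m - y = d := by rw [hmdef]; abel
    rw [e3, Real.norm_eq_abs] at key
    have e4 : (f (m + d) - f m) - (f (y + d) - f y) = f x + f y - 2 * f m := by
      rw [hx']; ring
    change |(f (m + d) - f m) - (f (y + d) - f y)| ≤ ε * ρ ^ N * ‖d‖ * ‖d‖ at key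
    rw [e4] at key
    rw [hm]
    refine key.trans ?_
    have hdn : ‖d‖ = 1 / 2 * ‖x - y‖ := by
      rw [hd', norm_smul, Real.norm_eq_abs, abs_of_pos (by norm_num)]
    rw [hdn]
    have h9 : 0 ≤ ε * ρ ^ N := by positivity
    have h10 : 0 ≤ ‖x - y‖ ^ 2 := by positivity
    nlinarith [mul_nonneg h9 h10]

end Pool.Agent.FlatRes
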