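import Pool.Agent.Lib.MP_40a0b6_an.N2Defs
set_option autoImplicit false
open MeasureTheory
open scoped ENNReal FourierTransform SchwartzMap
namespace Pool.Agent.FlatRes

theorem n2g_pow_low (n : ℕ) (p r Y : ℝ) (hY : 0 ≤ Y) (hr : Y ≤ r) (hp : r ≤ p) :
    (n : ℝ) * Y ^ (n - 1) * (p - r) ≤ p ^ n - r ^ n := by
  rw [← geom_sum₂_mul]
  apply mul_le_mul_of_nonneg_right _ (sub_nonneg.2 hp)
  have h1 : ∑ i ∈ Finset.range n, Y ^ (n - 1) ≤ ∑ i ∈ Finset.range n, p ^ i * r ^ (n - 1 - i) := by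
    apply Finset.sum_le_sum
    intro i hi
    have hi' : i < n := Finset.mem_range.1 hi
    have h2 : Y ^ (n - 1) = Y ^ i * Y ^ (n - 1 - i) := by
      rw [← pow_add]
      congr 1
      omega
    rw [h2]
    have h0 : 0 ≤ p := le_trans (le_trans hY hr) hp
    exact mul_le_mul (pow_le_pow_left₀ hY (le_trans hr hp) _) (pow_le_pow_left₀ hY hr _)
      (pow_nonneg hY _) (pow_nonneg h0 _)
  simpa using h1

theorem n2g_pow_abs (n : ℕ) (p r X : ℝ) (hp : |p| ≤ X) (hr : |r| ≤ X) :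
    |p ^ n - r ^ n| ≤ (n : ℝ) * X ^ (n - 1) * |p - r| := by
  have hX : 0 ≤ X := le_trans (abs_nonneg p) hp
  rw [← geom_sum₂_mul, abs_mul]
  apply mul_le_mul_of_nonneg_right _ (abs_nonneg _)
  refine (Finset.abs_sum_le_sum_abs _ _).trans ?_
  have h1 : ∑ i ∈ Finset.range n, |p ^ i * r ^ (n - 1 - i)| ≤ ∑ i ∈ Finset.range n, X ^ (n - 1) := by
    apply Finset.sum_le_sum
    intro i hi
    have hi' : i < n := Finset.mem_range.1 hi
    have h2 : X ^ (n - 1) = X ^ i * X ^ (n - 1 - i) := by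
      rw [← pow_add]
      congr 1
      omega
    rw [h2, abs_mul, abs_pow, abs_pow]
    exact mul_le_mul (pow_le_pow_left₀ (abs_nonneg _) hp _) (pow_le_pow_left₀ (abs_nonneg _) hr _)
      (pow_nonneg (abs_nonneg _) _) (pow_nonneg hX _)
  simpa using h1

theorem n2g_sub (a1 z : ℝ) : (a1 + z) / 2 - (a1 - z) / 2 = z := by ring

theorem n2g_desc_le (m k : ℕ) (hk : k ≤ m) : (m.descFactorial k : ℝ) ≤ m.factorial := by
  have h := Nat.factorial_mul_descFactorial hk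
  have h1 : m.descFactorial k ≤ m.factorial := by
    rw [← h]
    exact Nat.le_mul_of_pos_left _ (Nat.factorial_pos _)
  exact_mod_cast h1

/-- JOB G (10 small statements).  The functions `Gg m k a1`.
`HasDerivAt`: `(m-k)·(((a₁+z)/2)^{m-k-1} + ...)/2`, `Nat.descFactorial_succ`; if `k ≥ m` both sides are `0` or constant. -/
theorem gg_deriv (m k : ℕ) (a1 z : ℝ) : HasDerivAt (Gg m k a1) (Gg m (k + 1) a1 z) z := by
  have e1 : HasDerivAt (fun t : ℝ => (a1 + t) / 2) (1 / 2) z :=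
    ((hasDerivAt_id z).const_add a1).div_const 2
  have e2 : HasDerivAt (fun t : ℝ => (a1 - t) / 2) (-1 / 2) z :=
    ((hasDerivAt_id z).const_sub a1).div_const 2
  have e3 := ((e1.pow (m - k)).add ((e2.pow (m - k)).const_mul ((-1 : ℝ) ^ k))).const_mul
    ((m.descFactorial k : ℝ) * (1 / 2) ^ k)
  have e4 : Gg m k a1 = fun t : ℝ => (m.descFactorial k : ℝ) * (1 / 2) ^ k *
    (((a1 + t) / 2) ^ (m - k) + (-1) ^ k * ((a1 - t) / 2) ^ (m - k)) := rfl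
  rw [e4]
  refine e3.congr_deriv ?_
  unfold Gg
  rw [Nat.descFactorial_succ, Nat.sub_sub]
  push_cast
  rw [pow_succ (1 / 2 : ℝ) k, pow_succ (-1 : ℝ) k]
  ring

theorem gg_iter (m k : ℕ) (a1 : ℝ) : iteratedDeriv k (Gg m 0 a1) = Gg m k a1 := by
  induction k with
  | zero => simp
  | succ k ih =>
    rw [iteratedDeriv_succ, ih]
    funext z
    exact (gg_deriv m k a1 z).deriv

/-- `|Gg m k a1 z| ≤ m!·2·X^{m-k}` when both points are `≤ X` in absolute value. -/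
theorem gg_bound (m k : ℕ) (hk : k ≤ m) (a1 z X : ℝ) (h1 : |(a1 + z) / 2| ≤ X) (h2 : |(a1 - z) / 2| ≤ X) :
    |Gg m k a1 z| ≤ 2 * (m.factorial : ℝ) * X ^ (m - k) := by
  have hX : 0 ≤ X := le_trans (abs_nonneg _) h1
  unfold Gg
  rw [abs_mul, abs_mul, abs_pow]
  have h3 : |((a1 + z) / 2) ^ (m - k) + (-1) ^ k * ((a1 - z) / 2) ^ (m - k)| ≤
      X ^ (m - k) + X ^ (m - k) := by
    refine (abs_add_le _ _).trans (add_le_add ?_ ?_)
    · rw [abs_pow]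
      exact pow_le_pow_left₀ (abs_nonneg _) h1 _
    · rw [abs_mul, abs_pow, abs_pow, abs_neg, abs_one, one_pow, one_mul]
      exact pow_le_pow_left₀ (abs_nonneg _) h2 _
  have h4 : |(m.descFactorial k : ℝ)| * |(1 / 2 : ℝ)| ^ k ≤ m.factorial := by
    rw [Nat.abs_cast]
    have h5 : |(1 / 2 : ℝ)| ^ k ≤ 1 := by
      apply pow_le_one₀ (abs_nonneg _)
      rw [abs_of_pos (by norm_num)]
      norm_num
    calc (m.descFactorial k : ℝ) * |(1 / 2 : ℝ)| ^ k ≤ (m.factorial : ℝ) * 1 :=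
          mul_le_mul (n2g_desc_le m k hk) h5 (pow_nonneg (abs_nonneg _) _) (Nat.cast_nonneg _)
      _ = m.factorial := mul_one _
  calc _ ≤ (m.factorial : ℝ) * (X ^ (m - k) + X ^ (m - k)) :=
        mul_le_mul h4 h3 (abs_nonneg _) (Nat.cast_nonneg _)
    _ = _ := by ring

theorem gg_top (m k : ℕ) (hk : m < k) (a1 z : ℝ) : Gg m k a1 z = 0 := by
  unfold Gg
  rw [Nat.descFactorial_eq_zero_iff_lt.2 hk]
  simp

/-- odd order derivatives: `X² |G₃| ≤ m⁴ X^{m-2} z` -/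
theorem gg3_bound (m : ℕ) (hm : 3 ≤ m) (a1 z X : ℝ) (hz : 0 ≤ z) (hX : 0 < X) (h1 : |(a1 + z) / 2| ≤ X)
    (h2 : |(a1 - z) / 2| ≤ X) : X ^ 2 * |Gg m 3 a1 z| ≤ (m : ℝ) ^ 4 * X ^ (m - 2) * z := by
  have h3 := n2g_pow_abs (m - 3) _ _ X h1 h2
  rw [n2g_sub, abs_of_nonneg hz] at h3
  have h4 : Gg m 3 a1 z = (m.descFactorial 3 : ℝ) / 8 *
      (((a1 + z) / 2) ^ (m - 3) - ((a1 - z) / 2) ^ (m - 3)) := by
    unfold Gg
    ring
  rw [h4, abs_mul, abs_of_nonneg (by positivity : (0 : ℝ) ≤ (m.descFactorial 3 : ℝ) / 8)]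
  rcases Nat.eq_or_lt_of_le hm with h5 | h5
  · subst h5
    simp only [Nat.sub_self, pow_zero, sub_self, abs_zero, mul_zero]
    positivity
  · have h6 : ((m.descFactorial 3 : ℝ)) * ((m - 3 : ℕ) : ℝ) ≤ (m : ℝ) ^ 4 := by
      have h7 : m.descFactorial 4 ≤ m ^ 4 := Nat.descFactorial_le_pow m 4
      rw [Nat.descFactorial_succ, mul_comm] at h7
      exact_mod_cast h7
    have h8 : X ^ 2 * X ^ (m - 3 - 1) = X ^ (m - 2) := by
      rw [← pow_add]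
      congr 1
      omega
    calc X ^ 2 * ((m.descFactorial 3 : ℝ) / 8 *
          |((a1 + z) / 2) ^ (m - 3) - ((a1 - z) / 2) ^ (m - 3)|)
        ≤ X ^ 2 * ((m.descFactorial 3 : ℝ) / 8 * (((m - 3 : ℕ) : ℝ) * X ^ (m - 3 - 1) * z)) := by
          gcongr
      _ = ((m.descFactorial 3 : ℝ) * ((m - 3 : ℕ) : ℝ)) / 8 * (X ^ 2 * X ^ (m - 3 - 1)) * z := by
          ring
      _ = ((m.descFactorial 3 : ℝ) * ((m - 3 : ℕ) : ℝ)) / 8 * X ^ (m - 2) * z := by rw [h8]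
      _ ≤ (m : ℝ) ^ 4 * X ^ (m - 2) * z := by
          gcongr
          have h9 : (0 : ℝ) ≤ (m.descFactorial 3 : ℝ) * ((m - 3 : ℕ) : ℝ) := by positivity
          linarith

/-- `X² |G₄| ≤ m⁴ X^{m-2}` -/
theorem gg4_bound (m : ℕ) (hm : 3 ≤ m) (a1 z X : ℝ) (hX : 0 < X) (h1 : |(a1 + z) / 2| ≤ X)
    (h2 : |(a1 - z) / 2| ≤ X) : X ^ 2 * |Gg m 4 a1 z| ≤ (m : ℝ) ^ 4 * X ^ (m - 2) := by
  rcases Nat.eq_or_lt_of_le hm with h5 | h5
  · subst h5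
    rw [gg_top 3 4 (by norm_num), abs_zero, mul_zero]
    positivity
  · have h4 : Gg m 4 a1 z = (m.descFactorial 4 : ℝ) / 16 *
        (((a1 + z) / 2) ^ (m - 4) + ((a1 - z) / 2) ^ (m - 4)) := by
      unfold Gg
      ring
    have h3 : |((a1 + z) / 2) ^ (m - 4) + ((a1 - z) / 2) ^ (m - 4)| ≤
        X ^ (m - 4) + X ^ (m - 4) := by
      refine (abs_add_le _ _).trans (add_le_add ?_ ?_)
      · rw [abs_pow]
        exact pow_le_pow_left₀ (abs_nonneg _) h1 _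
      · rw [abs_pow]
        exact pow_le_pow_left₀ (abs_nonneg _) h2 _
    rw [h4, abs_mul, abs_of_nonneg (by positivity : (0 : ℝ) ≤ (m.descFactorial 4 : ℝ) / 16)]
    have h6 : (m.descFactorial 4 : ℝ) ≤ (m : ℝ) ^ 4 := by
      exact_mod_cast Nat.descFactorial_le_pow m 4
    have h8 : X ^ 2 * X ^ (m - 4) = X ^ (m - 2) := by
      rw [← pow_add]
      congr 1
      omega
    calc X ^ 2 * ((m.descFactorial 4 : ℝ) / 16 *
          |((a1 + z) / 2) ^ (m - 4) + ((a1 - z) / 2) ^ (m - 4)|)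
        ≤ X ^ 2 * ((m.descFactorial 4 : ℝ) / 16 * (X ^ (m - 4) + X ^ (m - 4))) := by
          gcongr
      _ = (m.descFactorial 4 : ℝ) / 8 * (X ^ 2 * X ^ (m - 4)) := by ring
      _ = (m.descFactorial 4 : ℝ) / 8 * X ^ (m - 2) := by rw [h8]
      _ ≤ (m : ℝ) ^ 4 * X ^ (m - 2) := by
          gcongr
          have h9 : (0 : ℝ) ≤ (m.descFactorial 4 : ℝ) := by positivity
          linarith

theorem n2g_one (m : ℕ) (a1 z : ℝ) : Gg m 1 a1 z = (m : ℝ) / 2 *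
    (((a1 + z) / 2) ^ (m - 1) - ((a1 - z) / 2) ^ (m - 1)) := by
  unfold Gg
  rw [Nat.descFactorial_one]
  ring

theorem n2g_cast (m : ℕ) (hm : 2 ≤ m) : ((m - 1 : ℕ) : ℝ) = (m : ℝ) - 1 := by
  rw [Nat.cast_sub (by omega)]
  simp

/-- `G₁ ≥ (m(m-1)/2) Y^{m-2} z` when both points are `≥ Y > 0`. -/
theorem gg1_lower (m : ℕ) (hm : 2 ≤ m) (a1 z Y : ℝ) (hz : 0 ≤ z) (hY : 0 < Y) (h2 : Y ≤ (a1 - z) / 2) :
    (m : ℝ) * (m - 1) / 2 * Y ^ (m - 2) * z ≤ Gg m 1 a1 z := by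
  have h3 := n2g_pow_low (m - 1) ((a1 + z) / 2) ((a1 - z) / 2) Y hY.le h2 (by linarith)
  rw [n2g_sub, n2g_cast m hm, Nat.sub_sub] at h3
  rw [n2g_one]
  have h4 : (m : ℝ) * (m - 1) / 2 * Y ^ (m - 2) * z =
    (m : ℝ) / 2 * (((m : ℝ) - 1) * Y ^ (m - 2) * z) := by ring
  rw [h4]
  exact mul_le_mul_of_nonneg_left h3 (by positivity)

/-- `G₁ ≤ (m(m-1)/2) X^{m-2} z` when both points are in `[0,X]`. -/
theorem gg1_upper (m : ℕ) (hm : 2 ≤ m) (a1 z X : ℝ) (hz : 0 ≤ z) (h2 : 0 ≤ (a1 - z) / 2)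
    (h1 : (a1 + z) / 2 ≤ X) : |Gg m 1 a1 z| ≤ (m : ℝ) * (m - 1) / 2 * X ^ (m - 2) * z := by
  have h5 : |(a1 + z) / 2| ≤ X := by rwa [abs_of_nonneg (by linarith)]
  have h6 : |(a1 - z) / 2| ≤ X := by
    rw [abs_of_nonneg h2]
    linarith
  have h3 := n2g_pow_abs (m - 1) _ _ X h5 h6
  rw [n2g_sub, n2g_cast m hm, Nat.sub_sub, abs_of_nonneg hz] at h3
  rw [n2g_one, abs_mul, abs_of_nonneg (by positivity : (0 : ℝ) ≤ (m : ℝ) / 2)]
  have h4 : (m : ℝ) * (m - 1) / 2 * X ^ (m - 2) * z =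
    (m : ℝ) / 2 * (((m : ℝ) - 1) * X ^ (m - 2) * z) := by ring
  rw [h4]
  exact mul_le_mul_of_nonneg_left h3 (by positivity)

/-- `G₂ ≥ (m(m-1)/2) Y^{m-2}`. -/
theorem gg2_lower (m : ℕ) (hm : 2 ≤ m) (a1 z Y : ℝ) (hz : 0 ≤ z) (hY : 0 < Y) (h2 : Y ≤ (a1 - z) / 2) :
    (m : ℝ) * (m - 1) / 2 * Y ^ (m - 2) ≤ Gg m 2 a1 z := by
  have h3 : Y ^ (m - 2) ≤ ((a1 + z) / 2) ^ (m - 2) := pow_le_pow_left₀ hY.le (by linarith) _
  have h4 : Y ^ (m - 2) ≤ ((a1 - z) / 2) ^ (m - 2) := pow_le_pow_left₀ hY.le h2 _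
  have h5 : Gg m 2 a1 z = (m : ℝ) * (m - 1) / 4 *
      (((a1 + z) / 2) ^ (m - 2) + ((a1 - z) / 2) ^ (m - 2)) := by
    unfold Gg
    rw [Nat.descFactorial_succ, Nat.descFactorial_one]
    push_cast
    rw [n2g_cast m hm]
    ring
  rw [h5]
  have h6 : (m : ℝ) * (m - 1) / 2 * Y ^ (m - 2) =
    (m : ℝ) * (m - 1) / 4 * (Y ^ (m - 2) + Y ^ (m - 2)) := by ring
  rw [h6]
  have h7 : (0 : ℝ) ≤ (m : ℝ) - 1 := by
    rw [← n2g_cast m hm]
    positivity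
  exact mul_le_mul_of_nonneg_left (add_le_add h3 h4) (by positivity)

/-- values at `z = 0`, `a₁ = 2u`. -/
theorem gg_zero (m k : ℕ) (u : ℝ) :
    Gg m k (2 * u) 0 = (m.descFactorial k : ℝ) * (1 / 2) ^ k * (1 + (-1) ^ k) * u ^ (m - k) := by
  unfold Gg
  have h1 : (2 * u + 0) / 2 = u := by ring
  have h2 : (2 * u - 0) / 2 = u := by ring
  rw [h1, h2]
  ring

end Pool.Agent.FlatRes
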