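import Pool.Agent.Lib.MP_40a0b6_an.N2MEx
import Pool.Agent.Lib.MP_40a0b6_an.N2EDat
set_option autoImplicit false
open MeasureTheory
open scoped ENNReal FourierTransform SchwartzMap
namespace Pool.Agent.FlatRes

theorem good_exists (m : ℕ) (hm : 2 ≤ m) (g : ℝ × ℝ → ℝ) (hg : FlatAtZero g) :
    ∃ (E : ℝ × (ℝ × ℝ) → ℝ) (vs : ℝ → ℝ × ℝ → ℝ), GoodE m g E vs := by
  obtain ⟨r0, E, vs, hr0, hgs, hE, hev, hM⟩ := m_exists m hm g hg
  exact ⟨E, vs, ⟨r0, hr0, hgs, hM⟩, fun N J ε hε => e_data m hm g hg E hE r0 hr0 hev N J ε hε⟩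

end Pool.Agent.FlatRes
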