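import Pool.Agent.Lib.MP_40a0b6_an.N2Row
import Pool.Agent.Lib.MP_40a0b6_an.Schur
import Pool.Agent.Lib.MP_40a0b6_an.Limit
set_option autoImplicit false
open MeasureTheory
open scoped ENNReal FourierTransform SchwartzMap
namespace Pool.Agent.FlatRes

private theorem N2Sum_holder (f g : E3 → ℝ≥0∞) (hf : Measurable f) (hg : Measurable g)
    (q q1 q2 : ℝ) (hq : 2 ≤ q) (hq1 : 0 < q1) (hq2 : 0 < q2) (hqq : 1 / q1 + 1 / q2 = 2 / q)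
    (a b m n : ℝ≥0∞)
    (h1 : ∫⁻ ξ, f ξ ^ q1 ≤ (a * m) ^ (q1 / 2)) (h2 : ∫⁻ ξ, g ξ ^ q2 ≤ (b * n) ^ (q2 / 2)) :
    (∫⁻ ξ, (f ξ * g ξ) ^ (q / 2)) ^ (1 / (q / 2)) ≤
      (a * b) ^ (1 / 2 : ℝ) * m ^ (1 / 2 : ℝ) * n ^ (1 / 2 : ℝ) := by
  have hQ : 0 < q / 2 := by linarith
  have e0 : 1 / (q / 2) = 1 / q1 + 1 / q2 := by
    rw [hqq]; field_simp
  have hlt : q / 2 < q1 := by
    have h3 : 1 / q1 < 1 / (q / 2) := by
      rw [e0]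
      have : 0 < 1 / q2 := by positivity
      linarith
    exact (one_div_lt_one_div hq1 hQ).1 h3
  have key := ENNReal.lintegral_Lp_mul_le_Lq_mul_Lr hQ hlt e0 (volume : Measure E3)
    hf.aemeasurable hg.aemeasurable
  simp only [Pi.mul_apply] at key
  refine key.trans ?_
  have k1 : (∫⁻ ξ, f ξ ^ q1) ^ (1 / q1) ≤ (a * m) ^ (1 / 2 : ℝ) := by
    refine (ENNReal.rpow_le_rpow h1 (by positivity)).trans ?_
    rw [← ENNReal.rpow_mul]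
    apply le_of_eq
    congr 1
    field_simp
  have k2 : (∫⁻ ξ, g ξ ^ q2) ^ (1 / q2) ≤ (b * n) ^ (1 / 2 : ℝ) := by
    refine (ENNReal.rpow_le_rpow h2 (by positivity)).trans ?_
    rw [← ENNReal.rpow_mul]
    apply le_of_eq
    congr 1
    field_simp
  refine (mul_le_mul' k1 k2).trans ?_
  rw [ENNReal.mul_rpow_of_nonneg _ _ (by norm_num : (0 : ℝ) ≤ 1 / 2),
    ENNReal.mul_rpow_of_nonneg _ _ (by norm_num : (0 : ℝ) ≤ 1 / 2),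
    ENNReal.mul_rpow_of_nonneg _ _ (by norm_num : (0 : ℝ) ≤ 1 / 2)]
  apply le_of_eq
  ring

private theorem N2Sum_sqrt (x y : ℝ) (hx : 0 ≤ x) (hy : 0 ≤ y) :
    (ENNReal.ofReal x * ENNReal.ofReal y) ^ (1 / 2 : ℝ) = ENNReal.ofReal (Real.sqrt (x * y)) := by
  rw [← ENNReal.ofReal_mul hx, ENNReal.ofReal_rpow_of_nonneg (mul_nonneg hx hy) (by norm_num),
    Real.sqrt_eq_rpow]

/-- JOB Sum.  Summation of the pieces.

Proof.  For a finite set `S` of indices: `F_i = extOn Ψ (P i) h` (measurable: `limit_meas_ext`).  Hölder with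
`1/q1+1/q2 = 1/Q`, `Q = q/2` (`ENNReal.lintegral_mul_le_Lp_mul_Lq` applied to `‖F_i‖^Q, ‖F_j‖^Q` with the conjugate
exponents `q1/Q`, `q2/Q`): `(∫⁻(‖F_i‖‖F_j‖)^Q)^{1/Q} ≤ ‖F_i‖_{q1}‖F_j‖_{q2} ≤ √(T₁ᵢT₂ⱼ) massᵢ^{1/2} massⱼ^{1/2}`, and also
with the roles of `q1,q2` exchanged; so `schur_sum` (`Schur.lean`) applies with `c i j = ofReal (min ..)` (symmetric) and the
row bound `R` of `row_sum`.  Then `ext_limit` (`Limit.lean`) with `T = ofReal R`.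
(`Classical.decEq` for `row_sum`.) -/
theorem sum_pieces {ι : Type*} [Countable ι] (Ψ : ℝ × ℝ → ℝ) (hΨ : Measurable Ψ)
    (P : ι → Set (ℝ × ℝ)) (hP : ∀ i, MeasurableSet (P i))
    (hd : Pairwise (Function.onFun Disjoint P)) (hfin : volume (⋃ i, P i) ≠ ⊤)
    (kk ll : ι → ℕ) (F : ℕ)
    (hF : ∀ (S : Finset ι) (k l : ℕ), (S.filter (fun i => kk i = k ∧ ll i = l)).card ≤ F)
    (C A B : ℝ) (hC : 0 < C) (hA0 : 0 < A) (hA1 : A < 1) (hB0 : 0 < B) (hB1 : B < 1)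
    (q q1 q2 : ℝ) (hq : 2 ≤ q) (hq1 : 0 < q1) (hq2 : 0 < q2) (hqq : 1 / q1 + 1 / q2 = 2 / q)
    (h1 : ∀ i, ∀ h : ℝ × ℝ → ℂ, BddMeas h → ∫⁻ ξ, ‖extOn Ψ (P i) h ξ‖ₑ ^ q1 ≤
      (ENNReal.ofReal (C * (A⁻¹) ^ (kk i) * B ^ (ll i)) * mass (P i) h) ^ (q1 / 2))
    (h2 : ∀ i, ∀ h : ℝ × ℝ → ℂ, BddMeas h → ∫⁻ ξ, ‖extOn Ψ (P i) h ξ‖ₑ ^ q2 ≤
      (ENNReal.ofReal (C * A ^ (kk i) * B ^ (ll i)) * mass (P i) h) ^ (q2 / 2)) :
    ∃ T : ℝ≥0∞, T ≠ ⊤ ∧ ∀ h : ℝ × ℝ → ℂ, BddMeas h →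
      ∫⁻ ξ, ‖extOn Ψ (⋃ i, P i) h ξ‖ₑ ^ q ≤ (T * mass (⋃ i, P i) h) ^ (q / 2) := by
  classical
  obtain ⟨R, hR0, hR⟩ := row_sum kk ll F hF C A B hC hA0 hA1 hB0 hB1
  refine ⟨ENNReal.ofReal R, ENNReal.ofReal_ne_top, fun h hh => ?_⟩
  refine ext_limit Ψ hΨ P hP hd hfin h hh q (by linarith) _ fun S => ?_
  have hpos1 : ∀ i, 0 ≤ C * (A⁻¹) ^ (kk i) * B ^ (ll i) := fun i => by positivity
  have hpos2 : ∀ i, 0 ≤ C * A ^ (kk i) * B ^ (ll i) := fun i => by positivity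
  have hm : ∀ i, Measurable (extOn Ψ (P i) h) := fun i => limit_meas_ext hΨ (P i) hh.1
  have key := schur_sum S (fun i => extOn Ψ (P i) h) hm (q / 2) (by linarith)
    (fun i => mass (P i) h)
    (fun i j => ENNReal.ofReal (min
        (Real.sqrt ((C * (A⁻¹) ^ (kk i) * B ^ (ll i)) * (C * A ^ (kk j) * B ^ (ll j))))
        (Real.sqrt ((C * A ^ (kk i) * B ^ (ll i)) * (C * (A⁻¹) ^ (kk j) * B ^ (ll j))))))
    (ENNReal.ofReal R) ?_ ?_ ?_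
  · rw [show 2 * (q / 2) = q by ring] at key
    exact key
  · intro i _ j _
    have b1 := N2Sum_holder (fun ξ => ‖extOn Ψ (P i) h ξ‖ₑ) (fun ξ => ‖extOn Ψ (P j) h ξ‖ₑ)
      (hm i).enorm (hm j).enorm q q1 q2 hq hq1 hq2 hqq _ _ _ _ (h1 i h hh) (h2 j h hh)
    have b2 := N2Sum_holder (fun ξ => ‖extOn Ψ (P i) h ξ‖ₑ) (fun ξ => ‖extOn Ψ (P j) h ξ‖ₑ)
      (hm i).enorm (hm j).enorm q q2 q1 hq hq2 hq1 (by rw [add_comm]; exact hqq) _ _ _ _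
      (h2 i h hh) (h1 j h hh)
    rw [N2Sum_sqrt _ _ (hpos1 i) (hpos2 j)] at b1
    rw [N2Sum_sqrt _ _ (hpos2 i) (hpos1 j)] at b2
    rcases min_choice
        (Real.sqrt ((C * (A⁻¹) ^ (kk i) * B ^ (ll i)) * (C * A ^ (kk j) * B ^ (ll j))))
        (Real.sqrt ((C * A ^ (kk i) * B ^ (ll i)) * (C * (A⁻¹) ^ (kk j) * B ^ (ll j)))) with
      hc | hc
    · rw [hc]; exact b1
    · rw [hc]; exact b2
  · intro i j
    rw [min_comm]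
    congr 2
    · rw [mul_comm]
    · rw [mul_comm]
  · intro i _
    rw [← ENNReal.ofReal_sum_of_nonneg]
    · exact ENNReal.ofReal_le_ofReal (hR i S)
    · intro j _
      exact le_min (Real.sqrt_nonneg _) (Real.sqrt_nonneg _)

end Pool.Agent.FlatRes
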