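import Pool.Agent.Lib.MP_40a0b6_an.N2MDer
import Pool.Agent.Lib.MP_40a0b6_an.N2Alg
set_option autoImplicit false
open MeasureTheory
open scoped ENNReal FourierTransform SchwartzMap
namespace Pool.Agent.FlatRes

private theorem v2_mv (f f' : ℝ → ℝ) (t C : ℝ) (ht : 0 ≤ t)
    (hf : ∀ s ∈ Set.Icc 0 t, HasDerivAt f (f' s) s) (hb : ∀ s ∈ Set.Icc 0 t, |f' s| ≤ C) :
    |f t - f 0| ≤ C * t := by
  have h1 := Convex.norm_image_sub_le_of_norm_hasDerivWithin_le (f := f) (f' := f') (C := C)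
    (s := Set.Icc 0 t) (x := 0) (y := t) (fun s hs => (hf s hs).hasDerivWithinAt)
    (fun s hs => hb s hs) (convex_Icc 0 t) (Set.left_mem_Icc.mpr ht) (Set.right_mem_Icc.mpr ht)
  rw [sub_zero, Real.norm_eq_abs, Real.norm_eq_abs, abs_of_nonneg ht] at h1
  exact h1

private theorem v2_box {r : ℝ} {x : ℝ × ℝ} (hx : x ∈ box r) : |x.1| ≤ r ∧ |x.2| ≤ r :=
  ⟨(abs_lt.mpr ⟨hx.1.1, hx.1.2⟩).le, (abs_lt.mpr ⟨hx.2.1, hx.2.2⟩).le⟩

private theorem v2_norm {r : ℝ} (hr1 : r ≤ 1 / 16) {x : ℝ × ℝ} (hx : x ∈ box r) : ‖x‖ ≤ 1 := by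
  replace hx := v2_box hx
  rw [Prod.norm_def, Real.norm_eq_abs, Real.norm_eq_abs]
  exact max_le (by linarith [hx.1]) (by linarith [hx.2])

private theorem v2_m4 (a : ℝ × ℝ) (t : ℝ) : iteratedDeriv 4 (fun t => M0 2 t a) t = 3 := by
  rw [m0_iter 2 4 (by norm_num)]
  simp only [Finset.sum_range_succ, Finset.sum_range_zero]
  rw [gg_top 2 4 (by norm_num), gg_top 2 3 (by norm_num)]
  have h1 : Gg 2 2 a.1 t = 1 := by
    unfold Gg
    norm_num [Nat.descFactorial]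
  norm_num [h1, Nat.choose]

private theorem v2_phi4 (Ψ : ℝ × ℝ → ℝ) (r : ℝ) (hr : 0 < r) (hr1 : r ≤ 1 / 16) (E : ℝ × (ℝ × ℝ) → ℝ)
    (hE : EData 2 Ψ r E 4 1 (1 / 100)) (a : ℝ × ℝ) (h1 : |a.1| ≤ 2 * r) (h2 : |a.2| ≤ 2 * r) (t : ℝ)
    (ht0 : 0 ≤ t) (ht : t ≤ 2 * r) :
    |iteratedDeriv 4 (fun t => MM 2 E t a) t - 3| ≤ 1 / 100 := by
  have ht4 : |t| < 4 * r := by rw [abs_of_nonneg ht0]; linarith
  rw [mm_iter 2 Ψ r E 4 1 (1 / 100) hE a h1 h2 t ht4, v2_m4]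
  have h3 := hE.bd a t h1 h2 ht4 (by rw [abs_of_nonneg ht0]; linarith) (by linarith) (by linarith)
    4 le_rfl
  rw [add_sub_cancel_left]
  exact h3

/-- JOB V2 (2 statements).  The case `m = 2`: `Gg 2 1 a₁ z = z`, `Gg 2 2 a₁ z = 1`, `Gg 2 3 = Gg 2 4 = 0`, so
`∂_z³M0 = 3z`, `∂_z⁴M0 = 3`; `lamA 2 E x = -2(x₂-x₁²) + eJ E 2 x`.

Proof of `v2_near` (`z = x₁-x₁' ≤ √δ/8`): `dv_bound` with `X = r ≤ 1/16`: `|x₂-x₂'| ≤ |Δ| + (4r+1/100)z ≤ δ/16 + 0.26z`.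
Second difference of `lamA`: `z²` (from `2(x₁²+x₁'²-2x̄₁²)`) plus at most `(1/100)(z+|x₂-x₂'|)²`: `≤ δ/64 + δ/100 ≤ δ/25`.
So `σ lamA(x̄) ≥ δ/2 - δ/50 ≥ 0.48δ`; `|φ''''| ≤ 3+1/100` on `[0,2z]`, `t² ≤ 4z² ≤ δ/16`:
`σφ''(t) ≥ 0.48δ - ½·3.01·δ/16 ≥ δ/4`, `σφ'(t) ≥ δt/4`.
`v2_far`: `φ'(0) = 0`, `φ''' = 3t + ∂_t³E ≥ 3t - t/100`. -/
theorem v2_near (Ψ : ℝ × ℝ → ℝ) (r : ℝ) (hr : 0 < r) (hr1 : r ≤ 1 / 16) (E : ℝ × (ℝ × ℝ) → ℝ)
    (hE : EData 2 Ψ r E 4 1 (1 / 100)) (δ : ℝ) (hδ : 0 < δ) (hδ1 : δ ≤ 1) (x x' : ℝ × ℝ) (hx : x ∈ box r)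
    (hx' : x' ∈ box r) (σ : ℝ) (hσ : IsSign σ) (h0 : 0 < x'.1) (h1 : x'.1 < x.1)
    (h2 : δ / 2 < σ * lamA 2 E x) (h3 : δ / 2 < σ * lamA 2 E x')
    (h4 : x.1 - x'.1 ≤ 2 * (1 / 16 * Real.sqrt δ / 1)) (h5 : |D1v Ψ x - D1v Ψ x'| ≤ 1 / 16 * δ / 1) :
    NearProp (fun t => MM 2 E t (x + x')) (2 * (x.1 - x'.1)) (1 / 16 * δ) := by
  have hx1 := v2_box hx
  have hx1' := v2_box hx'
  have ha1 : |(x + x').1| ≤ 2 * r := by
    rw [Prod.fst_add]
    exact (abs_add_le _ _).trans (by linarith [hx1.1, hx1'.1])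
  have ha2 : |(x + x').2| ≤ 2 * r := by
    rw [Prod.snd_add]
    exact (abs_add_le _ _).trans (by linarith [hx1.2, hx1'.2])
  have hxr : x.1 ≤ r := (le_abs_self _).trans hx1.1
  set z := x.1 - x'.1 with hz
  have hz0 : 0 < z := by linarith
  have hzr : z < r := by linarith
  set q := Real.sqrt δ with hq
  have hq0 : 0 < q := Real.sqrt_pos.mpr hδ
  have hqq : q * q = δ := Real.mul_self_sqrt hδ.le
  have hq1 : q ≤ 1 := by nlinarith
  have hδq : δ ≤ q := by nlinarith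
  have hzq : z ≤ q / 8 := by linarith
  have hzz : z * z ≤ δ / 64 := by nlinarith
  -- the second coordinates
  have hdv := dv_bound 2 le_rfl Ψ r E 4 1 (1 / 100) hE (by norm_num) (by norm_num) x x' hx hx'
    (v2_norm hr1 hx) (v2_norm hr1 hx') r hr h0.le h1.le hxr
  have hdv1 : |x.2 - x'.2| ≤ 19 / 200 * q := by
    have e1 : (2 * ((2 : ℕ) : ℝ) * r ^ (2 - 1) + 1 / 100) * (x.1 - x'.1) ≤ 26 / 100 * z := by
      have : (2 * ((2 : ℕ) : ℝ) * r ^ (2 - 1) + 1 / 100) ≤ 26 / 100 := by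
        norm_num
        linarith
      exact mul_le_mul_of_nonneg_right this hz0.le
    linarith
  have hsum0 : 0 ≤ z + |x.2 - x'.2| := by positivity
  have hsum : z + |x.2 - x'.2| ≤ 22 / 100 * q := by linarith
  have hsq : (z + |x.2 - x'.2|) ^ 2 ≤ δ / 16 := by nlinarith
  -- second difference of `lamA`
  have hd2 := hE.dif2 x hx x' hx' (v2_norm hr1 hx) (v2_norm hr1 hx') 2 (by norm_num)
  rw [show |x.1 - x'.1| = z from abs_of_pos hz0] at hd2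
  have hl2 : lamA 2 E x + lamA 2 E x' - 2 * lamA 2 E ((x.1 + x'.1) / 2, (x.2 + x'.2) / 2) =
      z * z + (eJ E 2 x + eJ E 2 x' - 2 * eJ E 2 ((x.1 + x'.1) / 2, (x.2 + x'.2) / 2)) := by
    unfold lamA
    rw [hz]
    norm_num
    ring
  have hlam : 48 / 100 * δ ≤ σ * lamA 2 E ((x.1 + x'.1) / 2, (x.2 + x'.2) / 2) := by
    have e1 : |lamA 2 E x + lamA 2 E x' - 2 * lamA 2 E ((x.1 + x'.1) / 2, (x.2 + x'.2) / 2)| ≤
        δ / 50 := by
      rw [hl2]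
      refine (abs_add_le _ _).trans ?_
      rw [abs_of_nonneg (mul_nonneg hz0.le hz0.le)]
      linarith
    have e2 := abs_le.mp e1
    rcases hσ with rfl | rfl
    · linarith [e2.2]
    · linarith [e2.1]
  -- Taylor
  have hσ1 : |σ| = 1 := by
    rcases hσ with rfl | rfl
    · exact abs_one
    · rw [abs_neg, abs_one]
  have hder : ∀ k : ℕ, ∀ t ∈ Set.Icc 0 (2 * z),
      HasDerivAt (iteratedDeriv k (fun t => MM 2 E t (x + x')))
        (iteratedDeriv (k + 1) (fun t => MM 2 E t (x + x')) t) t := by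
    intro k t ht
    refine mm_hasDeriv 2 Ψ r E 4 1 (1 / 100) hE (x + x') ha1 ha2 t ?_ k
    rw [abs_of_nonneg ht.1]
    linarith [ht.2]
  have hodd := mm_odd 2 Ψ r hr E 4 1 (1 / 100) hE (x + x') ha1 ha2
  refine ⟨σ, hσ, iteratedDeriv 1 (fun t => MM 2 E t (x + x')), ?_, ?_⟩
  · intro t ht
    have := hder 0 t ht
    rw [iteratedDeriv_zero] at this
    exact this
  · intro t ht
    have hsub : ∀ s ∈ Set.Icc 0 t, s ∈ Set.Icc 0 (2 * z) := fun s hs => ⟨hs.1, hs.2.trans ht.2⟩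
    have b4 : ∀ s ∈ Set.Icc 0 t, |iteratedDeriv 4 (fun t => MM 2 E t (x + x')) s| ≤ 301 / 100 := by
      intro s hs
      have := abs_le.mp (v2_phi4 Ψ r hr hr1 E hE (x + x') ha1 ha2 s hs.1
        (by linarith [hs.2, ht.2]))
      exact abs_le.mpr ⟨by linarith, by linarith⟩
    have b3 : ∀ s ∈ Set.Icc 0 t, |iteratedDeriv 3 (fun t => MM 2 E t (x + x')) s| ≤
        301 / 100 * t := by
      intro s hs
      have e1 := v2_mv _ _ s (301 / 100) hs.1 (fun u hu => hder 3 u ⟨hu.1, hu.2.trans (hsub s hs).2⟩)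
        (fun u hu => b4 u ⟨hu.1, hu.2.trans hs.2⟩)
      rw [hodd.2, sub_zero] at e1
      exact e1.trans (by linarith [hs.2])
    have b2 : ∀ s ∈ Set.Icc 0 t, |iteratedDeriv 2 (fun t => MM 2 E t (x + x')) s -
        iteratedDeriv 2 (fun t => MM 2 E t (x + x')) 0| ≤ 301 / 100 * t * t := by
      intro s hs
      have e1 := v2_mv _ _ s (301 / 100 * t) hs.1
        (fun u hu => hder 2 u ⟨hu.1, hu.2.trans (hsub s hs).2⟩)
        (fun u hu => b3 u ⟨hu.1, hu.2.trans hs.2⟩)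
      refine e1.trans (mul_le_mul_of_nonneg_left hs.2 ?_)
      linarith [hs.1, hs.2]
    have b1 := v2_mv (fun s => iteratedDeriv 1 (fun t => MM 2 E t (x + x')) s -
        iteratedDeriv 2 (fun t => MM 2 E t (x + x')) 0 * s)
      (fun s => iteratedDeriv 2 (fun t => MM 2 E t (x + x')) s -
        iteratedDeriv 2 (fun t => MM 2 E t (x + x')) 0) t (301 / 100 * t * t) ht.1
      (fun s hs => by
        have e1 := (hder 1 s (hsub s hs)).sub ((hasDerivAt_id s).const_mul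
          (iteratedDeriv 2 (fun t => MM 2 E t (x + x')) 0))
        rw [mul_one] at e1
        exact e1) b2
    simp only [mul_zero, sub_zero] at b1
    rw [hodd.1, sub_zero, mm_lamA 2 le_rfl Ψ r E 4 1 (1 / 100) hE x x' hx hx'] at b1
    set P := iteratedDeriv 1 (fun t => MM 2 E t (x + x')) t with hP
    set Λ := lamA 2 E ((x.1 + x'.1) / 2, (x.2 + x'.2) / 2) with hΛ
    have ht0 := ht.1
    have htt : t * t ≤ δ / 16 := by
      have e1 : t ≤ q / 4 := by linarith [ht.2]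
      nlinarith
    have e3 : |σ * P - σ * Λ * t| ≤ 301 / 100 * t * t * t := by
      rw [show σ * P - σ * Λ * t = σ * (P - Λ * t) by ring, abs_mul, hσ1, one_mul]
      exact b1
    have e4 := (abs_le.mp e3).1
    have e5 : 48 / 100 * δ * t ≤ σ * Λ * t := mul_le_mul_of_nonneg_right hlam ht0
    have e6 : 301 / 100 * t * t * t ≤ 301 / 100 * (δ / 16) * t := by
      have : 301 / 100 * t * t ≤ 301 / 100 * (δ / 16) := by linarith
      exact mul_le_mul_of_nonneg_right this ht0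
    have e7 : 0 ≤ δ * t := mul_nonneg hδ.le ht0
    linarith

theorem v2_far (Ψ : ℝ × ℝ → ℝ) (r : ℝ) (hr : 0 < r) (hr1 : r ≤ 1 / 16) (E : ℝ × (ℝ × ℝ) → ℝ)
    (hE : EData 2 Ψ r E 4 1 (1 / 100)) (x x' : ℝ × ℝ) (hx : x ∈ box r) (hx' : x' ∈ box r)
    (h0 : 0 < x'.1) (h1 : x'.1 < x.1) :
    FarProp (fun t => MM 2 E t (x + x')) (2 * (x.1 - x'.1)) (1 / 16 * (1 : ℝ) ^ 2) := by
  have hx1 := v2_box hx
  have hx1' := v2_box hx'
  have ha1 : |(x + x').1| ≤ 2 * r := by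
    rw [Prod.fst_add]
    exact (abs_add_le _ _).trans (by linarith [hx1.1, hx1'.1])
  have ha2 : |(x + x').2| ≤ 2 * r := by
    rw [Prod.snd_add]
    exact (abs_add_le _ _).trans (by linarith [hx1.2, hx1'.2])
  have hxr : x.1 ≤ r := (le_abs_self _).trans hx1.1
  have hder : ∀ k : ℕ, ∀ t ∈ Set.Icc 0 (2 * (x.1 - x'.1)),
      HasDerivAt (iteratedDeriv k (fun t => MM 2 E t (x + x')))
        (iteratedDeriv (k + 1) (fun t => MM 2 E t (x + x')) t) t := by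
    intro k t ht
    refine mm_hasDeriv 2 Ψ r E 4 1 (1 / 100) hE (x + x') ha1 ha2 t ?_ k
    rw [abs_of_nonneg ht.1]
    linarith [ht.2]
  have hodd := mm_odd 2 Ψ r hr E 4 1 (1 / 100) hE (x + x') ha1 ha2
  refine ⟨iteratedDeriv 1 (fun t => MM 2 E t (x + x')), iteratedDeriv 2 (fun t => MM 2 E t (x + x')),
    iteratedDeriv 3 (fun t => MM 2 E t (x + x')), ?_, hodd.1, ?_⟩
  · intro t ht
    refine ⟨?_, hder 1 t ht, hder 2 t ht⟩
    have := hder 0 t ht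
    rw [iteratedDeriv_zero] at this
    exact this
  · intro t ht
    have b1 := v2_mv (fun s => iteratedDeriv 3 (fun t => MM 2 E t (x + x')) s - 3 * s)
      (fun s => iteratedDeriv 4 (fun t => MM 2 E t (x + x')) s - 3) t (1 / 100) ht.1
      (fun s hs => by
        have e1 := (hder 3 s ⟨hs.1, hs.2.trans ht.2⟩).sub ((hasDerivAt_id s).const_mul 3)
        rw [mul_one] at e1
        exact e1)
      (fun s hs => v2_phi4 Ψ r hr hr1 E hE (x + x') ha1 ha2 s hs.1 (by linarith [hs.2, ht.2]))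
    simp only [mul_zero, sub_zero] at b1
    rw [hodd.2, sub_zero] at b1
    have e2 := (abs_le.mp b1).1
    have ht0 := ht.1
    linarith

end Pool.Agent.FlatRes
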