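import Pool.Agent.Lib.MP_40a0b6_an.N2PDef
import Pool.Agent.Lib.MP_40a0b6_an.N2AC
import Pool.Agent.Lib.MP_40a0b6_an.N2V2
import Pool.Agent.Lib.MP_40a0b6_an.N2Sum
set_option autoImplicit false
open MeasureTheory
open scoped ENNReal FourierTransform SchwartzMap
namespace Pool.Agent.FlatRes

private theorem nReg2_pcrit : pcrit 2 2 = 14 / 3 := by
  unfold pcrit
  norm_num

private theorem nReg2_pow (j : ℕ) (t : ℝ) : ((1 / 2 : ℝ) ^ j) ^ t = ((1 / 2 : ℝ) ^ t) ^ j := by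
  rw [← Real.rpow_natCast ((1 / 2 : ℝ) ^ t) j, ← Real.rpow_natCast (1 / 2 : ℝ) j,
    ← Real.rpow_mul (by norm_num), ← Real.rpow_mul (by norm_num), mul_comm]

private theorem nReg2_sgb (b : Bool) : IsSign (sgb b) := by
  cases b
  · right; rfl
  · left; rfl

/-- JOB Reg2.  `m = 2`, `q = 14/3`: the right half box.

Proof.  `r1` from `GoodE` (`N = 0`, `J = 4`, `ρ = 1`, `ε = 1/100`), `r ≤ 1/16`.  Pieces `pTwo E r j (sgb b)`, `δ = 2^{-j} ≤ 1`, `κ = 1`, `S = 1`, `c = 1/16`, `K = 1`: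
`ac_piece` applies: slices by `lamA_slope` (`m = 2`, `Y = x₁`, `Y^0 = 1`): `|v₁-v₂| ≤ |lamA-lamA'| ≤ δ/2`; near/far: `v2_near`, `v2_far`.
Result at `q'`: `C δ^{3/2-7/q'}`.  `1/q1 = 3/14+1/100`, `1/q2 = 3/14-1/100` (both `q_i ∈ (4,6)`): exponents `-7/100`, `7/100`;
`sum_pieces` with index `(j,b)`, `kk = j`, `ll = 0`, `F = 2`, `A = (1/2)^{7/100}`, `B = 1/2`.
Cover: `|lamA| ≤ 2(r+r²)+1/100 < 1` on the box, `{lamA = 0}` has at most one point on each vertical slice (`lamA_slope`).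
`pcrit 2 2 = 14/3`. -/
theorem reg_two (g : ℝ × ℝ → ℝ) (E : ℝ × (ℝ × ℝ) → ℝ) (vs : ℝ → ℝ × ℝ → ℝ)
    (hG : GoodE 2 g E vs) : ∃ r1 : ℝ, 0 < r1 ∧ ∀ r, 0 < r → r ≤ r1 →
    ∃ T : ℝ≥0∞, T ≠ ⊤ ∧ ∀ h : ℝ × ℝ → ℂ, BddMeas h →
      ∫⁻ ξ, ‖extOn (psi0 2 2 g r) (hbox r) h ξ‖ₑ ^ (pcrit 2 2) ≤
        (T * mass (hbox r) h) ^ (pcrit 2 2 / 2) := by
  classical
  obtain ⟨⟨r0, hr0, -, hM0⟩, hE0⟩ := hG
  obtain ⟨r1', hr1', hE1⟩ := hE0 0 4 (1 / 100) (by norm_num)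
  refine ⟨min r0 (min r1' (1 / 16)), by positivity, fun r hr hr1 => ?_⟩
  have hrr0 : r ≤ r0 := hr1.trans (min_le_left _ _)
  have hrr1 : r ≤ r1' := hr1.trans ((min_le_right _ _).trans (min_le_left _ _))
  have hr16 : r ≤ 1 / 16 := hr1.trans ((min_le_right _ _).trans (min_le_right _ _))
  obtain ⟨hΨ, hM⟩ := hM0 r hr hrr0
  set Ψ : ℝ × ℝ → ℝ := psi0 2 2 g r with hΨdef
  have hE : EData 2 Ψ r E 4 1 (1 / 100) := by
    have h1 := hE1 r hr hrr1 1 one_pos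
    rwa [one_pow, mul_one] at h1
  -- elementary facts about the box
  have hboxm : MeasurableSet (box r) := measurableSet_Ioo.prod measurableSet_Ioo
  have hboxfin : volume (box r) ≠ ⊤ :=
    ((Metric.isBounded_Ioo (-r) r).prod (Metric.isBounded_Ioo (-r) r)).measure_lt_top.ne
  have hhb : hbox r ⊆ box r := fun x hx => hx.1
  have hhm : MeasurableSet (hbox r) := hboxm.inter (measurable_fst measurableSet_Ioi)
  have hnorm : ∀ x ∈ box r, ‖x‖ ≤ 1 := by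
    intro x hx
    obtain ⟨h1, h2⟩ := hx
    rw [Prod.norm_def]
    refine max_le ?_ ?_
    · rw [Real.norm_eq_abs, abs_le]
      constructor <;> linarith [h1.1, h1.2]
    · rw [Real.norm_eq_abs, abs_le]
      constructor <;> linarith [h2.1, h2.2]
  -- measurability of `lamA`
  have hlamc : ContinuousOn (lamA 2 E) (box r) := by
    have h1 : ContinuousOn (eJ E 2) (box r) := hE.ecov 2 (by norm_num)
    have h2 : ContinuousOn (fun x : ℝ × ℝ =>
        -(((2 : ℕ) : ℝ) * (((2 : ℕ) : ℝ) - 1)) * x.1 ^ (2 - 2) * (x.2 - x.1 ^ 2)) (box r) := by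
      fun_prop
    exact h2.add h1
  set D : ℝ × ℝ → ℝ := (box r).piecewise (lamA 2 E) (fun _ => 0) with hDdef
  have hDm : Measurable D := hlamc.measurable_piecewise continuousOn_const hboxm
  have hDe : ∀ x ∈ box r, D x = lamA 2 E x := fun x hx => Set.piecewise_eq_of_mem _ _ _ hx
  -- the bound for `lamA`
  have hlamb : ∀ x ∈ box r, |lamA 2 E x| < 1 := by
    intro x hx
    have h1 : |eJ E 2 x| ≤ 1 / 100 := hE.eval x hx (hnorm x hx) 2 (by norm_num)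
    obtain ⟨h2, h3⟩ := hx
    have h4 : lamA 2 E x = -2 * (x.2 - x.1 ^ 2) + eJ E 2 x := by
      unfold lamA
      norm_num
    have h5 : x.1 ^ 2 ≤ 1 / 16 := by nlinarith [h2.1, h2.2]
    have h6 : 0 ≤ x.1 ^ 2 := sq_nonneg _
    rw [abs_le] at h1
    rw [h4, abs_lt]
    constructor <;> linarith [h3.1, h3.2, h1.1, h1.2]
  -- slope
  have hslope : ∀ u v1 v2 : ℝ, (u, v1) ∈ hbox r → (u, v2) ∈ hbox r →
      |v1 - v2| ≤ |lamA 2 E (u, v1) - lamA 2 E (u, v2)| := by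
    intro u v1 v2 h1 h2
    have h3 := lamA_slope 2 le_rfl Ψ r E 4 1 (1 / 100) (by norm_num) hE u v1 v2 u h1.1 h2.1
      (hnorm _ h1.1) (hnorm _ h2.1) h1.2 le_rfl (by norm_num)
    simpa using h3
  -- the pieces
  set P : ℕ × Bool → Set (ℝ × ℝ) := fun i => pTwo E r i.1 (sgb i.2) with hPdef
  have hPh : ∀ i, P i ⊆ hbox r := fun i x hx => hx.1
  have hPb : ∀ i, P i ⊆ box r := fun i => (hPh i).trans hhb
  have hPm : ∀ i, MeasurableSet (P i) := by
    intro i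
    have e : P i = hbox r ∩ ((fun x => sgb i.2 * D x) ⁻¹'
        Set.Ioc ((1 / 2 : ℝ) ^ (i.1 + 1)) ((1 / 2 : ℝ) ^ i.1)) := by
      ext x
      constructor
      · rintro ⟨h1, h2, h3⟩
        refine ⟨h1, ?_⟩
        rw [Set.mem_preimage, hDe x h1.1]
        exact ⟨h2, h3⟩
      · rintro ⟨h1, h2⟩
        rw [Set.mem_preimage, hDe x h1.1] at h2
        exact ⟨h1, h2.1, h2.2⟩
    rw [e]
    exact hhm.inter ((hDm.const_mul _) measurableSet_Ioc)
  have hpowpos : ∀ j : ℕ, (0 : ℝ) < (1 / 2) ^ j := fun j => by positivity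
  have hPd : Pairwise (Function.onFun Disjoint P) := by
    rintro ⟨j, b⟩ ⟨j', b'⟩ hne
    rw [Function.onFun, Set.disjoint_left]
    rintro x ⟨-, h1, h2⟩ ⟨-, h3, h4⟩
    dsimp only at h1 h2 h3 h4
    by_cases hb : b = b'
    · subst hb
      have hj : j ≠ j' := fun h => hne (by rw [h])
      rcases lt_or_gt_of_ne hj with h | h
      · have h5 : (1 / 2 : ℝ) ^ j' ≤ (1 / 2) ^ (j + 1) :=
          pow_le_pow_of_le_one (by norm_num) (by norm_num) h
        linarith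
      · have h5 : (1 / 2 : ℝ) ^ j ≤ (1 / 2) ^ (j' + 1) :=
          pow_le_pow_of_le_one (by norm_num) (by norm_num) h
        linarith
    · have h5 := hpowpos (j + 1)
      have h6 := hpowpos (j' + 1)
      cases b <;> cases b' <;> simp only [sgb] at h1 h3 <;>
        first
          | exact hb rfl
          | (simp only [if_true, if_false, reduceCtorEq] at h1 h3; linarith)
  have hUh : (⋃ i, P i) ⊆ hbox r := Set.iUnion_subset hPh
  have hfin : volume (⋃ i, P i) ≠ ⊤ :=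
    ((measure_mono (hUh.trans hhb)).trans_lt (lt_top_iff_ne_top.mpr hboxfin)).ne
  -- the exponents
  obtain ⟨C1, hC1, hac1⟩ := ac_piece (700 / 157) (by norm_num) (by norm_num) 1 (1 / 16) one_pos
    (by norm_num)
  obtain ⟨C2, hC2, hac2⟩ := ac_piece (700 / 143) (by norm_num) (by norm_num) 1 (1 / 16) one_pos
    (by norm_num)
  -- hypotheses of `ac_piece`
  have hy6 : ∀ i, ∀ x ∈ P i, ∀ x' ∈ P i, x.1 - x'.1 ≤ 1 := by
    intro i x hx x' hx'
    have h1 := (hPb i hx).1.2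
    have h2 := (hPh i hx').2
    linarith
  have hy7 : ∀ i, ∀ u : ℝ, volume {v : ℝ | (u, v) ∈ P i} ≤
      ENNReal.ofReal (1 * (1 / 2 : ℝ) ^ i.1 / 1) := by
    intro i u
    refine (Real.volume_le_diam _).trans (Metric.ediam_le fun v1 h1 v2 h2 => ?_)
    rw [edist_dist]
    apply ENNReal.ofReal_le_ofReal
    rw [Real.dist_eq]
    refine (hslope u v1 v2 h1.1 h2.1).trans ?_
    obtain ⟨-, h3, h4⟩ := h1
    obtain ⟨-, h5, h6⟩ := h2
    have h7 := hpowpos (i.1 + 1)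
    have h8 : |lamA 2 E (u, v1) - lamA 2 E (u, v2)| =
        |sgb i.2 * lamA 2 E (u, v1) - sgb i.2 * lamA 2 E (u, v2)| := by
      rw [← mul_sub, abs_mul]
      rcases nReg2_sgb i.2 with h | h <;> rw [h] <;> simp
    rw [h8, abs_le]
    constructor <;> linarith
  have hhalf : ∀ j : ℕ, (1 / 2 : ℝ) ^ j / 2 = (1 / 2) ^ (j + 1) := fun j => by
    rw [pow_succ]; ring
  have hle1 : ∀ j : ℕ, (1 / 2 : ℝ) ^ j ≤ 1 := fun j => pow_le_one₀ (by norm_num) (by norm_num)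
  have hy8 : ∀ i, ∀ x ∈ P i, ∀ x' ∈ P i, 0 < x.1 - x'.1 →
      x.1 - x'.1 ≤ 2 * (1 / 16 * Real.sqrt ((1 / 2 : ℝ) ^ i.1) / 1) →
      |D1v Ψ x - D1v Ψ x'| ≤ 1 / 16 * (1 / 2 : ℝ) ^ i.1 / 1 →
      NearProp (fun t => MM 2 E t (x + x')) (2 * (x.1 - x'.1)) (1 / 16 * (1 / 2 : ℝ) ^ i.1) := by
    intro i x hx x' hx' h1 h2 h3
    refine v2_near Ψ r hr hr16 E hE _ (hpowpos _) (hle1 _) x x' (hPb i hx) (hPb i hx') (sgb i.2)
      (nReg2_sgb _) (hPh i hx').2 (by linarith) ?_ ?_ h2 h3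
    · rw [hhalf]; exact hx.2.1
    · rw [hhalf]; exact hx'.2.1
  have hy9 : ∀ i, ∀ x ∈ P i, ∀ x' ∈ P i,
      1 / 16 * Real.sqrt ((1 / 2 : ℝ) ^ i.1) / 1 < x.1 - x'.1 →
      FarProp (fun t => MM 2 E t (x + x')) (2 * (x.1 - x'.1)) (1 / 16 * (1 : ℝ) ^ 2) := by
    intro i x hx x' hx' h1
    refine v2_far Ψ r hr hr16 E hE x x' (hPb i hx) (hPb i hx') (hPh i hx').2 ?_
    have h2 : 0 ≤ 1 / 16 * Real.sqrt ((1 / 2 : ℝ) ^ i.1) / 1 := by positivity
    linarith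
  set A : ℝ := (1 / 2 : ℝ) ^ (7 / 100 : ℝ) with hAdef
  have hA0 : 0 < A := Real.rpow_pos_of_pos (by norm_num) _
  have hA1 : A < 1 := Real.rpow_lt_one (by norm_num) (by norm_num) (by norm_num)
  have hb1 : ∀ i, ∀ h : ℝ × ℝ → ℂ, BddMeas h → ∫⁻ ξ, ‖extOn Ψ (P i) h ξ‖ₑ ^ (700 / 157 : ℝ) ≤
      (ENNReal.ofReal (max C1 C2 * (A⁻¹) ^ i.1 * (1 / 2 : ℝ) ^ 0) * mass (P i) h) ^
        ((700 / 157 : ℝ) / 2) := by
    intro i h hh
    refine (hac1 Ψ r (MM 2 E) vs (P i) 1 ((1 / 2 : ℝ) ^ i.1) 1 hΨ hM (hPm i) (hPb i) one_pos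
      (hpowpos _) one_pos (hy6 i) (hy7 i) (hy8 i) (hy9 i) h hh).trans ?_
    refine ENNReal.rpow_le_rpow (mul_le_mul_left (ENNReal.ofReal_le_ofReal ?_) _) (by norm_num)
    rw [Real.one_rpow, mul_one, pow_zero, mul_one, nReg2_pow]
    have e : (1 / 2 : ℝ) ^ (3 / 2 - 7 / (700 / 157 : ℝ)) = A⁻¹ := by
      rw [hAdef, ← Real.rpow_neg (by norm_num)]
      congr 1
      norm_num
    rw [e]
    exact mul_le_mul_of_nonneg_right (le_max_left _ _) (by positivity)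
  have hb2 : ∀ i, ∀ h : ℝ × ℝ → ℂ, BddMeas h → ∫⁻ ξ, ‖extOn Ψ (P i) h ξ‖ₑ ^ (700 / 143 : ℝ) ≤
      (ENNReal.ofReal (max C1 C2 * A ^ i.1 * (1 / 2 : ℝ) ^ 0) * mass (P i) h) ^
        ((700 / 143 : ℝ) / 2) := by
    intro i h hh
    refine (hac2 Ψ r (MM 2 E) vs (P i) 1 ((1 / 2 : ℝ) ^ i.1) 1 hΨ hM (hPm i) (hPb i) one_pos
      (hpowpos _) one_pos (hy6 i) (hy7 i) (hy8 i) (hy9 i) h hh).trans ?_
    refine ENNReal.rpow_le_rpow (mul_le_mul_left (ENNReal.ofReal_le_ofReal ?_) _) (by norm_num)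
    rw [Real.one_rpow, mul_one, pow_zero, mul_one, nReg2_pow]
    have e : (1 / 2 : ℝ) ^ (3 / 2 - 7 / (700 / 143 : ℝ)) = A := by
      rw [hAdef]
      congr 1
      norm_num
    rw [e]
    exact mul_le_mul_of_nonneg_right (le_max_right _ _) (by positivity)
  obtain ⟨T, hT, hTb⟩ := sum_pieces Ψ hΨ P hPm hPd hfin (fun i => i.1) (fun _ => 0) 2 (by
      intro S k l
      have h1 : S.filter (fun i : ℕ × Bool => i.1 = k ∧ 0 = l) ⊆ {(k, true), (k, false)} := by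
        rintro ⟨j, b⟩ hi
        rw [Finset.mem_filter] at hi
        obtain ⟨-, h2, -⟩ := hi
        dsimp only at h2
        subst h2
        cases b <;> simp
      exact (Finset.card_le_card h1).trans (Finset.card_insert_le _ _))
    (max C1 C2) A (1 / 2) (lt_max_of_lt_left hC1) hA0 hA1 (by norm_num) (by norm_num)
    (14 / 3) (700 / 157) (700 / 143) (by norm_num) (by norm_num) (by norm_num) (by norm_num) hb1 hb2
  -- the cover
  have hZ : volume (hbox r \ ⋃ i, P i) = 0 := by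
    have hsub : hbox r \ (⋃ i, P i) ⊆ hbox r ∩ D ⁻¹' {0} := by
      rintro x ⟨hx, hxU⟩
      refine ⟨hx, ?_⟩
      rw [Set.mem_preimage, hDe x hx.1, Set.mem_singleton_iff]
      by_contra hne
      apply hxU
      have hpos : 0 < |lamA 2 E x| := abs_pos.mpr hne
      obtain ⟨j, hj1, hj2⟩ := exists_nat_pow_near_of_lt_one hpos (hlamb x hx.1).le
        (show (0 : ℝ) < 1 / 2 by norm_num) (by norm_num)
      rw [Set.mem_iUnion]
      rcases lt_or_gt_of_ne hne with h | h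
      · rw [abs_of_neg h] at hj1 hj2
        have e : sgb false * lamA 2 E x = -lamA 2 E x := by simp [sgb]
        exact ⟨(j, false), hx, by rw [e]; exact hj1, by rw [e]; exact hj2⟩
      · rw [abs_of_pos h] at hj1 hj2
        have e : sgb true * lamA 2 E x = lamA 2 E x := by simp [sgb]
        exact ⟨(j, true), hx, by rw [e]; exact hj1, by rw [e]; exact hj2⟩
    refine measure_mono_null hsub ?_
    rw [Measure.volume_eq_prod, Measure.measure_prod_null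
      (hhm.inter (hDm (measurableSet_singleton 0)))]
    refine Filter.Eventually.of_forall fun u => ?_
    apply Set.Subsingleton.measure_zero
    intro v1 h1 v2 h2
    have h3 := hslope u v1 v2 h1.1 h2.1
    have h4 : lamA 2 E (u, v1) = 0 := by
      rw [← hDe _ h1.1.1]; exact h1.2
    have h5 : lamA 2 E (u, v2) = 0 := by
      rw [← hDe _ h2.1.1]; exact h2.2
    rw [h4, h5, sub_zero, abs_zero] at h3
    exact sub_eq_zero.mp (abs_nonpos_iff.mp h3)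
  have hae : (hbox r : Set (ℝ × ℝ)) =ᵐ[volume] (⋃ i, P i : Set (ℝ × ℝ)) := by
    rw [ae_eq_set]
    exact ⟨hZ, by rw [Set.sdiff_eq_empty.mpr hUh, measure_empty]⟩
  refine ⟨T, hT, fun h hh => ?_⟩
  have e1 : ∀ ξ, extOn Ψ (hbox r) h ξ = extOn Ψ (⋃ i, P i) h ξ := by
    intro ξ
    unfold extOn
    rw [Measure.restrict_congr_set hae]
  have e2 : mass (hbox r) h = mass (⋃ i, P i) h := by
    unfold mass
    rw [Measure.restrict_congr_set hae]
  rw [nReg2_pcrit, e2]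
  simp only [e1]
  exact hTb h hh

end Pool.Agent.FlatRes
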