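import Pool.Agent.Lib.MP_40a0b6_an.N2BEB
import Pool.Agent.Lib.MP_40a0b6_an.N2BOB
import Pool.Agent.Lib.MP_40a0b6_an.N2BC
import Pool.Agent.Lib.MP_40a0b6_an.N2Exp
import Pool.Agent.Lib.MP_40a0b6_an.N2Sum
set_option autoImplicit false
open MeasureTheory
open scoped ENNReal FourierTransform SchwartzMap
namespace Pool.Agent.FlatRes


theorem RegB_pcrit (m : ℕ) : 2 ≤ pcrit 2 m := by
  unfold pcrit
  split_ifs
  · have : (0 : ℝ) ≤ (((2 : ℕ) : ℝ) * m) / (m + 1) := by positivity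
    linarith
  · norm_num

theorem RegB_volbox (r : ℝ) : volume (box r) ≠ ⊤ := by
  unfold box
  rw [Measure.volume_eq_prod, Measure.prod_prod]
  simp only [Real.volume_Ioo]
  exact ENNReal.mul_ne_top ENNReal.ofReal_ne_top ENNReal.ofReal_ne_top

/-- the constants in the form of `sum_pieces` -/
theorem RegB_conv1 (m : ℕ) (hm : 3 ≤ m) (ω C C' : ℝ) (hC : 0 < C) (hCC : C ≤ C') (j : ℕ) (e : ℝ)
    (he : e = -((6 * m + 2) * ω)) :
    ENNReal.ofReal (C * ((1 / 2 : ℝ) ^ j) ^ (e / m)) ≤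
      ENNReal.ofReal (C' * (((1 / 2 : ℝ) ^ ((6 * m + 2) * ω / m))⁻¹) ^ j * (1 / 2 : ℝ) ^ 0) := by
  apply ENNReal.ofReal_le_ofReal
  have h1 : ((1 / 2 : ℝ) ^ j) ^ (e / m) = (((1 / 2 : ℝ) ^ ((6 * m + 2) * ω / m))⁻¹) ^ j := by
    rw [← Real.rpow_neg (by norm_num), ← Real.rpow_natCast, ← Real.rpow_natCast,
      ← Real.rpow_mul (by norm_num), ← Real.rpow_mul (by norm_num), he]
    congr 1
    ring
  rw [h1, pow_zero, mul_one]
  exact mul_le_mul_of_nonneg_right hCC (by positivity)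

theorem RegB_conv2 (m : ℕ) (hm : 3 ≤ m) (ω C C' : ℝ) (hC : 0 < C) (hCC : C ≤ C') (j : ℕ) (e : ℝ)
    (he : e = (6 * m + 2) * ω) :
    ENNReal.ofReal (C * ((1 / 2 : ℝ) ^ j) ^ (e / m)) ≤
      ENNReal.ofReal (C' * ((1 / 2 : ℝ) ^ ((6 * m + 2) * ω / m)) ^ j * (1 / 2 : ℝ) ^ 0) := by
  apply ENNReal.ofReal_le_ofReal
  have h1 : ((1 / 2 : ℝ) ^ j) ^ (e / m) = ((1 / 2 : ℝ) ^ ((6 * m + 2) * ω / m)) ^ j := by
    rw [← Real.rpow_natCast, ← Real.rpow_natCast,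
      ← Real.rpow_mul (by norm_num), ← Real.rpow_mul (by norm_num), he]
    congr 1
    ring
  rw [h1, pow_zero, mul_one]
  exact mul_le_mul_of_nonneg_right hCC (by positivity)

theorem RegB_card2 (S : Finset (ℕ × Bool)) (k l : ℕ) :
    (S.filter (fun i => i.1 = k ∧ (0 : ℕ) = l)).card ≤ 2 := by
  have hsub : S.filter (fun i => i.1 = k ∧ (0 : ℕ) = l) ⊆
      (Finset.univ : Finset Bool).image (fun b => (k, b)) := by
    intro i hi
    rw [Finset.mem_filter] at hi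
    rw [Finset.mem_image]
    exact ⟨i.2, Finset.mem_univ _, by rw [← hi.2.1]⟩
  exact (Finset.card_le_card hsub).trans (Finset.card_image_le.trans (by simp))

theorem RegB_card4 (S : Finset (ℕ × Bool × Bool)) (k l : ℕ) :
    (S.filter (fun i => i.1 = k ∧ (0 : ℕ) = l)).card ≤ 4 := by
  have hsub : S.filter (fun i => i.1 = k ∧ (0 : ℕ) = l) ⊆
      (Finset.univ : Finset (Bool × Bool)).image (fun b => (k, b)) := by
    intro i hi
    rw [Finset.mem_filter] at hi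
    rw [Finset.mem_image]
    exact ⟨i.2, Finset.mem_univ _, by rw [← hi.2.1]⟩
  exact (Finset.card_le_card hsub).trans (Finset.card_image_le.trans (by simp))

theorem RegB_A (m : ℕ) (hm : 3 ≤ m) (ω : ℝ) (hω : 0 < ω) :
    0 < (1 / 2 : ℝ) ^ ((6 * m + 2) * ω / m) ∧ (1 / 2 : ℝ) ^ ((6 * m + 2) * ω / m) < 1 := by
  have hm' : (0 : ℝ) < m := by
    have : 0 < m := by omega
    exact_mod_cast this
  refine ⟨by positivity, Real.rpow_lt_one (by norm_num) (by norm_num) (by positivity)⟩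

theorem RegB_sgb (b : Bool) : IsSign (sgb b) := by
  unfold sgb IsSign
  cases b <;> simp

/-- JOB RegB.  The extension estimate on `regB`, `m ≥ 3`.  `m` even (so `m ≥ 4`): `sum_pieces` with index `(j,b)`; `m` odd: index
`(j,b,b')` (`F = 2` resp. `4`), `kk = j`, `ll = 0`, `q1,q2,τ` from `exps` (`ι = 0` resp. `1`), `A = (1/2)^{(6m+2)ω/m}`, `B = 1/2`.
`C1` = max of the constants. -/
theorem reg_b (m : ℕ) (hm : 3 ≤ m) : ∃ C0 : ℝ, 1 ≤ C0 ∧
    ∀ (g : ℝ × ℝ → ℝ) (E : ℝ × (ℝ × ℝ) → ℝ) (vs : ℝ → ℝ × ℝ → ℝ), GoodE m g E vs →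
    ∃ r1 : ℝ, 0 < r1 ∧ ∀ r, 0 < r → r ≤ r1 →
    ∃ T : ℝ≥0∞, T ≠ ⊤ ∧ ∀ h : ℝ × ℝ → ℂ, BddMeas h →
      ∫⁻ ξ, ‖extOn (psi0 2 m g r) (regB m C0 r) h ξ‖ₑ ^ (pcrit 2 m) ≤
        (T * mass (regB m C0 r) h) ^ (pcrit 2 m / 2) := by
  rcases Nat.even_or_odd m with heven | hodd
  · -- even
    have hm4 : 4 ≤ m := by
      rcases heven with ⟨k, hk⟩
      omega
    obtain ⟨C0, hC0, hB⟩ := pb_bound_even m hm4 heven
    refine ⟨C0, hC0, ?_⟩
    intro g E vs hG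
    obtain ⟨ω, q1, q2, hω, hq1, hq2, h41, h61, h42, h62, h71, h72, he1, he2, hτ⟩ := exps m hm
    obtain ⟨r0, hr0, hg0, hr0'⟩ := hG.1
    obtain ⟨t0, t1, t2, t3⟩ := hτ 0 (by norm_num) q1 (Or.inl rfl)
    obtain ⟨u0, u1, u2, u3⟩ := hτ 0 (by norm_num) q2 (Or.inr rfl)
    obtain ⟨Ca, hCa, ra, hra, hba⟩ := hB C0 le_rfl g E vs hG q1 _ h41 t0 t1 t2 t3
    obtain ⟨Cb, hCb, rb, hrb, hbb⟩ := hB C0 le_rfl g E vs hG q2 _ h42 u0 u1 u2 u3
    refine ⟨min (min r0 (1 / 2)) (min ra rb), by positivity, ?_⟩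
    intro r hr hrle
    have h1 : r ≤ r0 := hrle.trans ((min_le_left _ _).trans (min_le_left _ _))
    have h2 : r ≤ 1 / 2 := hrle.trans ((min_le_left _ _).trans (min_le_right _ _))
    have h3 : r ≤ ra := hrle.trans ((min_le_right _ _).trans (min_le_left _ _))
    have h4 : r ≤ rb := hrle.trans ((min_le_right _ _).trans (min_le_right _ _))
    obtain ⟨hmeas, hdisj, hun⟩ := pb_cover m hm C0 r hC0 hr h2
    obtain ⟨hA0, hA1⟩ := RegB_A m hm ω hω
    have hsum := sum_pieces (ι := ℕ × Bool) (psi0 2 m g r) (hr0' r hr h1).1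
      (fun i => pB m C0 r i.1 (sgb i.2)) (fun i => hmeas i.1 i.2) hdisj
      (ne_top_of_le_ne_top (RegB_volbox r) (measure_mono (by
        rw [← hun]
        exact fun x hx => hx.1))) (fun i => i.1) (fun _ => 0) 2 RegB_card2
      (max Ca Cb) ((1 / 2 : ℝ) ^ ((6 * m + 2) * ω / m)) (1 / 2) (by positivity) hA0 hA1
      (by norm_num) (by norm_num) (pcrit 2 m) q1 q2 (RegB_pcrit m) (by linarith) (by linarith)
      (by rw [hq1, hq2]; ring)
      (fun i h hh => (hba r hr h3 i.1 (sgb i.2) (RegB_sgb i.2) h hh).trans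
        (ENNReal.rpow_le_rpow (mul_le_mul_left (RegB_conv1 m hm ω Ca _ hCa (le_max_left _ _)
          i.1 _ he1) _) (by linarith)))
      (fun i h hh => (hbb r hr h4 i.1 (sgb i.2) (RegB_sgb i.2) h hh).trans
        (ENNReal.rpow_le_rpow (mul_le_mul_left (RegB_conv2 m hm ω Cb _ hCb (le_max_right _ _)
          i.1 _ he2) _) (by linarith)))
    rw [← hun] at hsum
    exact hsum
  · -- odd
    obtain ⟨C1, hC1, hB⟩ := pb_bound_odd m hm hodd
    obtain ⟨C2, hC2, hcov⟩ := pbo_cover m hm hodd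
    refine ⟨max C1 C2, le_max_of_le_left hC1, ?_⟩
    intro g E vs hG
    obtain ⟨ω, q1, q2, hω, hq1, hq2, h41, h61, h42, h62, h71, h72, he1, he2, hτ⟩ := exps m hm
    obtain ⟨r0, hr0, hg0, hr0'⟩ := hG.1
    obtain ⟨t0, t1, t2, t3⟩ := hτ 1 le_rfl q1 (Or.inl rfl)
    obtain ⟨u0, u1, u2, u3⟩ := hτ 1 le_rfl q2 (Or.inr rfl)
    obtain ⟨Ca, hCa, ra, hra, hba⟩ := hB (max C1 C2) (le_max_left _ _) g E vs hG q1 _ h41 t0 t1 t2 t3
    obtain ⟨Cb, hCb, rb, hrb, hbb⟩ := hB (max C1 C2) (le_max_left _ _) g E vs hG q2 _ h42 u0 u1 u2 u3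
    obtain ⟨rc, hrc, hc⟩ := hcov (max C1 C2) (le_max_right _ _) g E vs hG
    refine ⟨min (min r0 rc) (min ra rb), by positivity, ?_⟩
    intro r hr hrle
    have h1 : r ≤ r0 := hrle.trans ((min_le_left _ _).trans (min_le_left _ _))
    have h2 : r ≤ rc := hrle.trans ((min_le_left _ _).trans (min_le_right _ _))
    have h3 : r ≤ ra := hrle.trans ((min_le_right _ _).trans (min_le_left _ _))
    have h4 : r ≤ rb := hrle.trans ((min_le_right _ _).trans (min_le_right _ _))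
    obtain ⟨hmeas, hdisj, hreg, hsub, hnull⟩ := hc r hr h2
    obtain ⟨hA0, hA1⟩ := RegB_A m hm ω hω
    have hsum := sum_pieces (ι := ℕ × Bool × Bool) (psi0 2 m g r) (hr0' r hr h1).1
      (fun i => pBo m E (max C1 C2) r i.1 (sgb i.2.1) (sgb i.2.2))
      (fun i => hmeas i.1 i.2.1 i.2.2) hdisj
      (ne_top_of_le_ne_top (RegB_volbox r) (measure_mono (hsub.trans (fun x hx => hx.1))))
      (fun i => i.1) (fun _ => 0) 4 RegB_card4
      (max Ca Cb) ((1 / 2 : ℝ) ^ ((6 * m + 2) * ω / m)) (1 / 2) (by positivity) hA0 hA1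
      (by norm_num) (by norm_num) (pcrit 2 m) q1 q2 (RegB_pcrit m) (by linarith) (by linarith)
      (by rw [hq1, hq2]; ring)
      (fun i h hh => (hba r hr h3 i.1 (sgb i.2.1) (sgb i.2.2) (RegB_sgb _) (RegB_sgb _) h hh).trans
        (ENNReal.rpow_le_rpow (mul_le_mul_left (RegB_conv1 m hm ω Ca _ hCa (le_max_left _ _)
          i.1 _ he1) _) (by linarith)))
      (fun i h hh => (hbb r hr h4 i.1 (sgb i.2.1) (sgb i.2.2) (RegB_sgb _) (RegB_sgb _) h hh).trans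
        (ENNReal.rpow_le_rpow (mul_le_mul_left (RegB_conv2 m hm ω Cb _ hCb (le_max_right _ _)
          i.1 _ he2) _) (by linarith)))
    have hae : (⋃ i : ℕ × Bool × Bool, pBo m E (max C1 C2) r i.1 (sgb i.2.1) (sgb i.2.2))
        =ᵐ[volume] regB m (max C1 C2) r := by
      rw [ae_eq_set]
      refine ⟨?_, hnull⟩
      rw [Set.sdiff_eq_empty.mpr hsub]
      exact measure_empty
    obtain ⟨T, hT, hTT⟩ := hsum
    refine ⟨T, hT, fun h hh => ?_⟩
    have h5 := hTT h hh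
    unfold extOn mass at h5 ⊢
    rw [Measure.restrict_congr_set hae] at h5
    exact h5

end Pool.Agent.FlatRes
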