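import Pool.Agent.Lib.MP_40a0b6_an.N2RegAC
import Pool.Agent.Lib.MP_40a0b6_an.N2RegB
import Pool.Agent.Lib.MP_40a0b6_an.N2Reg2
import Pool.Agent.Lib.MP_40a0b6_an.N2Good
import Pool.Agent.Lib.MP_40a0b6_an.Limit
set_option autoImplicit false
open MeasureTheory
open scoped ENNReal FourierTransform SchwartzMap
namespace Pool.Agent.FlatRes

/-- additivity of `extOn` over two disjoint sets, `L^q` form -/
theorem half_union (Ψ : ℝ × ℝ → ℝ) (hΨ : Measurable Ψ) (A B : Set (ℝ × ℝ))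
    (hA : volume A ≠ ⊤) (hB : volume B ≠ ⊤) (hBm : MeasurableSet B) (hd : Disjoint A B)
    (q : ℝ) (hq : 1 ≤ q) (h : ℝ × ℝ → ℂ) (hh : BddMeas h) (IA IB : ℝ≥0∞)
    (h1 : ∫⁻ ξ, ‖extOn Ψ A h ξ‖ₑ ^ q ≤ IA) (h2 : ∫⁻ ξ, ‖extOn Ψ B h ξ‖ₑ ^ q ≤ IB) :
    ∫⁻ ξ, ‖extOn Ψ (A ∪ B) h ξ‖ₑ ^ q ≤ 2 ^ (q - 1) * (IA + IB) := by
  have hadd : ∀ ξ, extOn Ψ (A ∪ B) h ξ = extOn Ψ A h ξ + extOn Ψ B h ξ := by
    intro ξ
    unfold extOn extN
    exact setIntegral_union hd hBm (limit_integrable hΨ hA hh ξ) (limit_integrable hΨ hB hh ξ)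
  have hpt : ∀ ξ, ‖extOn Ψ (A ∪ B) h ξ‖ₑ ^ q ≤
      2 ^ (q - 1) * (‖extOn Ψ A h ξ‖ₑ ^ q + ‖extOn Ψ B h ξ‖ₑ ^ q) := by
    intro ξ
    rw [hadd]
    calc ‖extOn Ψ A h ξ + extOn Ψ B h ξ‖ₑ ^ q ≤ (‖extOn Ψ A h ξ‖ₑ + ‖extOn Ψ B h ξ‖ₑ) ^ q :=
          ENNReal.rpow_le_rpow (enorm_add_le _ _) (by linarith)
      _ ≤ _ := ENNReal.rpow_add_le_mul_rpow_add_rpow _ _ hq
  have hmA : Measurable (fun ξ => ‖extOn Ψ A h ξ‖ₑ ^ q) :=
    (limit_meas_ext hΨ A hh.1).enorm.pow_const q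
  have hmB : Measurable (fun ξ => ‖extOn Ψ B h ξ‖ₑ ^ q) :=
    (limit_meas_ext hΨ B hh.1).enorm.pow_const q
  calc ∫⁻ ξ, ‖extOn Ψ (A ∪ B) h ξ‖ₑ ^ q
      ≤ ∫⁻ ξ, 2 ^ (q - 1) * (‖extOn Ψ A h ξ‖ₑ ^ q + ‖extOn Ψ B h ξ‖ₑ ^ q) :=
        lintegral_mono hpt
    _ = 2 ^ (q - 1) * ((∫⁻ ξ, ‖extOn Ψ A h ξ‖ₑ ^ q) + (∫⁻ ξ, ‖extOn Ψ B h ξ‖ₑ ^ q)) := by
        rw [lintegral_const_mul' _ _ (by
          exact ENNReal.rpow_ne_top_of_nonneg (by linarith) (by norm_num)), lintegral_add_left hmA]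
    _ ≤ _ := by gcongr

theorem half_combine (q : ℝ) (hq : 1 ≤ q) (TA TB M MA MB : ℝ≥0∞) (hA : MA ≤ M) (hB : MB ≤ M) :
    2 ^ (q - 1) * ((TA * MA) ^ (q / 2) + (TB * MB) ^ (q / 2)) ≤
      (4 * (TA + TB) * M) ^ (q / 2) := by
  have e1 : (TA * MA) ^ (q / 2) ≤ ((TA + TB) * M) ^ (q / 2) := by
    apply ENNReal.rpow_le_rpow _ (by linarith)
    gcongr
    exact le_self_add
  have e2 : (TB * MB) ^ (q / 2) ≤ ((TA + TB) * M) ^ (q / 2) := by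
    apply ENNReal.rpow_le_rpow _ (by linarith)
    gcongr
    exact le_add_self
  have e3 : (4 : ℝ≥0∞) ^ (q / 2) = 2 ^ q := by
    have : (4 : ℝ≥0∞) = 2 ^ (2 : ℝ) := by norm_num
    rw [this, ← ENNReal.rpow_mul]
    congr 1
    ring
  have e4 : (2 : ℝ≥0∞) ^ q = 2 ^ (q - 1) * 2 := by
    have : q = (q - 1) + 1 := by ring
    conv_lhs => rw [this]
    rw [ENNReal.rpow_add _ _ (by norm_num) (by norm_num), ENNReal.rpow_one]
  calc 2 ^ (q - 1) * ((TA * MA) ^ (q / 2) + (TB * MB) ^ (q / 2))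
      ≤ 2 ^ (q - 1) * (((TA + TB) * M) ^ (q / 2) + ((TA + TB) * M) ^ (q / 2)) := by gcongr
    _ = 2 ^ (q - 1) * 2 * ((TA + TB) * M) ^ (q / 2) := by ring
    _ = (4 * (TA + TB) * M) ^ (q / 2) := by
        rw [← e4, ← e3, ← ENNReal.mul_rpow_of_nonneg _ _ (by linarith : (0 : ℝ) ≤ q / 2), mul_assoc]

theorem half_pcrit (m : ℕ) (hm : 2 ≤ m) : 1 ≤ pcrit 2 m := by
  unfold pcrit
  rw [if_pos (by omega)]
  have : 0 ≤ 2 * ((((2 : ℕ) : ℝ) * m) / ((m : ℝ) + 1)) := by positivity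
  push_cast at this ⊢
  linarith

theorem half_box_vol (r : ℝ) : volume (box r) ≠ ⊤ := by
  unfold box
  rw [Measure.volume_eq_prod, Measure.prod_prod]
  simp only [Real.volume_Ioo]
  exact ENNReal.mul_ne_top ENNReal.ofReal_ne_top ENNReal.ofReal_ne_top

theorem half_meas_box (r : ℝ) : MeasurableSet (box r) := measurableSet_Ioo.prod measurableSet_Ioo

theorem half_meas_regB (m : ℕ) (C0 r : ℝ) : MeasurableSet (regB m C0 r) := by
  have h1 : MeasurableSet {x : ℝ × ℝ | 0 < x.1} := measurableSet_lt measurable_const measurable_fst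
  have h2 : MeasurableSet {x : ℝ × ℝ | C0 * x.1 ^ m < |x.2 - x.1 ^ m|} := by
    apply measurableSet_lt
    · fun_prop
    · have : Measurable (fun x : ℝ × ℝ => x.2 - x.1 ^ m) := by fun_prop
      exact this.abs
  exact (half_meas_box r).inter (h1.inter h2)

theorem half_union_eq (m : ℕ) (C0 r : ℝ) : regAC m C0 r ∪ regB m C0 r = hbox r := by
  ext x
  simp only [regAC, regB, hbox, Set.mem_union, Set.mem_ofPred_eq]
  constructor
  · rintro (⟨a, b, _⟩ | ⟨a, b, _⟩) <;> exact ⟨a, b⟩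
  · rintro ⟨a, b⟩
    rcases le_or_gt (|x.2 - x.1 ^ m|) (C0 * x.1 ^ m) with h | h
    · exact Or.inl ⟨a, b, h⟩
    · exact Or.inr ⟨a, b, h⟩

theorem half_disj (m : ℕ) (C0 r : ℝ) : Disjoint (regAC m C0 r) (regB m C0 r) := by
  rw [Set.disjoint_left]
  rintro x ⟨_, _, h⟩ ⟨_, _, h'⟩
  exact absurd h (not_le.mpr h')

/-- JOB Half.  The right half of the box.  `m = 2`: `reg_two`.  `m ≥ 3`: `C0` from `reg_b`; `hbox r = regAC m C0 r ∪ regB m C0 r` (disjoint), so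
`‖E_h‖^q ≤ 2^{q-1}(‖E_AC‖^q + ‖E_B‖^q)` (`extOn` is additive over disjoint measurable sets: `limit_integrable`), each mass is `≤` the mass of `hbox`.
`GoodE` from `good_exists`. -/
theorem half_bound (m : ℕ) (hm : 2 ≤ m) (g : ℝ × ℝ → ℝ) (hg : FlatAtZero g) :
    ∃ r1 : ℝ, 0 < r1 ∧ ∀ r, 0 < r → r ≤ r1 → ContDiffOn ℝ (⊤ : ℕ∞) g (box r) ∧
      Measurable (psi0 2 m g r) ∧
      ∃ T : ℝ≥0∞, T ≠ ⊤ ∧ ∀ h : ℝ × ℝ → ℂ, BddMeas h →
        ∫⁻ ξ, ‖extOn (psi0 2 m g r) (hbox r) h ξ‖ₑ ^ (pcrit 2 m) ≤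
          (T * mass (hbox r) h) ^ (pcrit 2 m / 2) := by
  obtain ⟨E, vs, hG⟩ := good_exists m hm g hg
  obtain ⟨r0, hr0, hgs, hM⟩ := hG.1
  have hsub : ∀ r, r ≤ r0 → box r ⊆ box r0 := by
    intro r hr x hx
    simp only [box, Set.mem_prod, Set.mem_Ioo] at hx ⊢
    exact ⟨⟨by linarith [hx.1.1], by linarith [hx.1.2]⟩, ⟨by linarith [hx.2.1], by linarith [hx.2.2]⟩⟩
  have hvol : ∀ (r : ℝ) (S : Set (ℝ × ℝ)), S ⊆ box r → volume S ≠ ⊤ := fun r S hS =>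
    ne_top_of_le_ne_top (half_box_vol r) (measure_mono hS)
  rcases Nat.lt_or_ge 2 m with h3 | h3
  · obtain ⟨C0, hC0, hB⟩ := reg_b m h3
    obtain ⟨rB, hrB, hB'⟩ := hB g E vs hG
    obtain ⟨rA, hrA, hA'⟩ := reg_ac m h3 g E vs hG C0 hC0
    refine ⟨min r0 (min rA rB), lt_min hr0 (lt_min hrA hrB), ?_⟩
    intro r hr hr1
    have k0 : r ≤ r0 := hr1.trans (min_le_left _ _)
    have kA : r ≤ rA := hr1.trans ((min_le_right _ _).trans (min_le_left _ _))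
    have kB : r ≤ rB := hr1.trans ((min_le_right _ _).trans (min_le_right _ _))
    refine ⟨hgs.mono (hsub r k0), (hM r hr k0).1, ?_⟩
    obtain ⟨TA, hTA, hTA'⟩ := hA' r hr kA
    obtain ⟨TB, hTB, hTB'⟩ := hB' r hr kB
    refine ⟨4 * (TA + TB), ENNReal.mul_ne_top (by norm_num) (ENNReal.add_ne_top.mpr ⟨hTA, hTB⟩), ?_⟩
    intro h hh
    have hq := half_pcrit m hm
    have s1 : regAC m C0 r ⊆ box r := fun x hx => hx.1
    have s2 : regB m C0 r ⊆ box r := fun x hx => hx.1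
    have := half_union (psi0 2 m g r) (hM r hr k0).1 (regAC m C0 r) (regB m C0 r)
      (hvol r _ s1) (hvol r _ s2) (half_meas_regB m C0 r) (half_disj m C0 r) (pcrit 2 m) hq h hh _ _
      (hTA' h hh) (hTB' h hh)
    rw [half_union_eq] at this
    refine this.trans (half_combine _ hq TA TB _ _ _ ?_ ?_)
    · unfold mass
      refine lintegral_mono_set ?_
      rw [← half_union_eq m C0 r]
      exact Set.subset_union_left
    · unfold mass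
      refine lintegral_mono_set ?_
      rw [← half_union_eq m C0 r]
      exact Set.subset_union_right
  · have h2 : m = 2 := le_antisymm h3 hm
    subst h2
    obtain ⟨r1, hr1, hR⟩ := reg_two g E vs hG
    refine ⟨min r0 r1, lt_min hr0 hr1, ?_⟩
    intro r hr hrr
    have k0 : r ≤ r0 := hrr.trans (min_le_left _ _)
    exact ⟨hgs.mono (hsub r k0), (hM r hr k0).1, hR r hr (hrr.trans (min_le_right _ _))⟩

end Pool.Agent.FlatRes
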