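import Pool.Agent.Lib.MP_40a0b6_an.N2FlatA
import Pool.Agent.Lib.MP_40a0b6_an.N2FlatB
import Pool.Agent.Lib.MP_40a0b6_an.N2FlatC
set_option autoImplicit false
open MeasureTheory
open scoped ENNReal FourierTransform SchwartzMap
namespace Pool.Agent.FlatRes

theorem impl_flat (f : (ℝ × (ℝ × ℝ)) × ℝ → ℝ) (hf : FlatV f) :
    ∃ es : ℝ × (ℝ × ℝ) → ℝ, FlatV es ∧ es 0 = 0 ∧
      ∀ᶠ p in nhds (0 : ℝ × (ℝ × ℝ)), es p + fderiv ℝ f (p, es p) (0, 1) = 0 := by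
  set fe : (ℝ × (ℝ × ℝ)) × ℝ → ℝ := fun x => fderiv ℝ f x (0, 1) with hfe
  have hfl : FlatV fe := flatV_dir f hf (0, 1)
  obtain ⟨⟨U, hUo, hU0, hU⟩, hflat⟩ := id hfl
  have hC : ContDiffAt ℝ (⊤ : ℕ∞) fe 0 := hU.contDiffAt (hUo.mem_nhds hU0)
  have hn : ((⊤ : ℕ∞) : WithTop ℕ∞) ≠ 0 := by simp
  have hh0 : fe 0 = 0 := by
    have h1 := norm_iteratedFDeriv_zero (𝕜 := ℝ) (f := fe) (x := 0)
    rw [hflat 0, norm_zero] at h1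
    exact norm_eq_zero.1 h1.symm
  have hd0 : HasFDerivAt fe (0 : (ℝ × (ℝ × ℝ)) × ℝ →L[ℝ] ℝ) 0 := by
    have h1 := (hC.differentiableAt (by simp)).hasFDerivAt
    have h2 := norm_iteratedFDeriv_one (𝕜 := ℝ) fe (x := 0)
    rw [hflat 1, norm_zero] at h2
    rw [norm_eq_zero.1 h2.symm] at h1
    exact h1
  set T : (ℝ × (ℝ × ℝ)) × ℝ → (ℝ × (ℝ × ℝ)) × ℝ := fun x => (x.1, x.2 + fe x) with hT
  have hTU : ContDiffOn ℝ (⊤ : ℕ∞) T U := by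
    have h1 : ContDiffOn ℝ (⊤ : ℕ∞) (fun x : (ℝ × (ℝ × ℝ)) × ℝ => x.1) U := by fun_prop
    have h2 : ContDiffOn ℝ (⊤ : ℕ∞) (fun x : (ℝ × (ℝ × ℝ)) × ℝ => x.2) U := by fun_prop
    exact h1.prodMk (h2.add hU)
  have hT0 : T 0 = 0 := by simp [hT, hh0]
  have hTC : ContDiffAt ℝ (⊤ : ℕ∞) T 0 := hTU.contDiffAt (hUo.mem_nhds hU0)
  have hTd : HasFDerivAt T
      ((ContinuousLinearEquiv.refl ℝ ((ℝ × (ℝ × ℝ)) × ℝ) : ((ℝ × (ℝ × ℝ)) × ℝ) ≃L[ℝ] ((ℝ × (ℝ × ℝ)) × ℝ)) :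
        ((ℝ × (ℝ × ℝ)) × ℝ) →L[ℝ] ((ℝ × (ℝ × ℝ)) × ℝ)) 0 := by
    have h1 : HasFDerivAt (fun x : (ℝ × (ℝ × ℝ)) × ℝ => x.1)
        (ContinuousLinearMap.fst ℝ (ℝ × (ℝ × ℝ)) ℝ) 0 := hasFDerivAt_fst
    have h2 : HasFDerivAt (fun x : (ℝ × (ℝ × ℝ)) × ℝ => x.2)
        (ContinuousLinearMap.snd ℝ (ℝ × (ℝ × ℝ)) ℝ) 0 := hasFDerivAt_snd
    have h7 := h1.prodMk (h2.add hd0)
    have h8 : ((ContinuousLinearMap.fst ℝ (ℝ × (ℝ × ℝ)) ℝ).prod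
        (ContinuousLinearMap.snd ℝ (ℝ × (ℝ × ℝ)) ℝ + 0)) =
        ((ContinuousLinearEquiv.refl ℝ ((ℝ × (ℝ × ℝ)) × ℝ)) :
        ((ℝ × (ℝ × ℝ)) × ℝ) →L[ℝ] ((ℝ × (ℝ × ℝ)) × ℝ)) := by
      ext <;> simp
    rw [h8] at h7
    exact h7
  set Φ := hTC.toOpenPartialHomeomorph T hTd hn with hΦ
  have hΦc : ∀ x, Φ x = T x := fun x => rfl
  have hs0 : (0 : (ℝ × (ℝ × ℝ)) × ℝ) ∈ Φ.source := hTC.mem_toOpenPartialHomeomorph_source hTd hn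
  have ht0 : (0 : (ℝ × (ℝ × ℝ)) × ℝ) ∈ Φ.target := by
    have h1 := Φ.map_source hs0
    rw [hΦc, hT0] at h1
    exact h1
  have hsy0 : Φ.symm 0 = 0 := by
    have h1 := Φ.left_inv hs0
    rwa [hΦc, hT0] at h1
  -- the derivative is invertible near `0`
  have hinvn : ∀ᶠ x in nhds (0 : (ℝ × (ℝ × ℝ)) × ℝ), ∃ e : ((ℝ × (ℝ × ℝ)) × ℝ) ≃L[ℝ] ((ℝ × (ℝ × ℝ)) × ℝ),
      (e : ((ℝ × (ℝ × ℝ)) × ℝ) →L[ℝ] ((ℝ × (ℝ × ℝ)) × ℝ)) = fderiv ℝ T x := by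
    have h1 : ContinuousAt (fderiv ℝ T) 0 :=
      (hTC.fderiv_right (m := (⊤ : ℕ∞)) (by simp)).continuousAt
    have h2 : fderiv ℝ T 0 = ((ContinuousLinearEquiv.refl ℝ ((ℝ × (ℝ × ℝ)) × ℝ)) :
        ((ℝ × (ℝ × ℝ)) × ℝ) →L[ℝ] ((ℝ × (ℝ × ℝ)) × ℝ)) := hTd.fderiv
    have h3 := (ContinuousLinearEquiv.nhds (𝕜 := ℝ) (ContinuousLinearEquiv.refl ℝ ((ℝ × (ℝ × ℝ)) × ℝ)))
    rw [← h2] at h3
    filter_upwards [h1 h3] with x hx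
    obtain ⟨e, he⟩ := hx
    exact ⟨e, he⟩
  have hUn : ∀ᶠ x in nhds (0 : (ℝ × (ℝ × ℝ)) × ℝ), x ∈ U := hUo.mem_nhds hU0
  have hsym : ContinuousAt Φ.symm 0 := Φ.symm.continuousAt ht0
  have hev1 : ∀ᶠ y in nhds (0 : (ℝ × (ℝ × ℝ)) × ℝ), ContDiffAt ℝ (⊤ : ℕ∞) Φ.symm y := by
    have h4 : ∀ᶠ y in nhds (0 : (ℝ × (ℝ × ℝ)) × ℝ), Φ.symm y ∈ U ∧
        ∃ e : ((ℝ × (ℝ × ℝ)) × ℝ) ≃L[ℝ] ((ℝ × (ℝ × ℝ)) × ℝ),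
        (e : ((ℝ × (ℝ × ℝ)) × ℝ) →L[ℝ] ((ℝ × (ℝ × ℝ)) × ℝ)) = fderiv ℝ T (Φ.symm y) := by
      have h5 := hsym.tendsto
      rw [hsy0] at h5
      exact h5.eventually (hUn.and hinvn)
    filter_upwards [h4, Φ.open_target.mem_nhds ht0] with y hy hyt
    obtain ⟨hyU, e, he⟩ := hy
    have h6 : ContDiffAt ℝ (⊤ : ℕ∞) T (Φ.symm y) := hTU.contDiffAt (hUo.mem_nhds hyU)
    have h7 : HasFDerivAt Φ (e : ((ℝ × (ℝ × ℝ)) × ℝ) →L[ℝ] ((ℝ × (ℝ × ℝ)) × ℝ)) (Φ.symm y) := by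
      rw [he]
      exact (h6.differentiableAt (by simp)).hasFDerivAt
    exact Φ.contDiffAt_symm hyt h7 h6
  set es : ℝ × (ℝ × ℝ) → ℝ := fun p => (Φ.symm (p, 0)).2 with hes
  have hemb : Filter.Tendsto (fun p : ℝ × (ℝ × ℝ) => ((p, (0 : ℝ)) : (ℝ × (ℝ × ℝ)) × ℝ)) (nhds 0)
      (nhds 0) := by
    have : ContinuousAt (fun p : ℝ × (ℝ × ℝ) => ((p, (0 : ℝ)) : (ℝ × (ℝ × ℝ)) × ℝ)) 0 := by fun_prop
    have h5 := this.tendsto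
    exact h5
  have hes0 : es 0 = 0 := by
    show (Φ.symm ((0 : ℝ × (ℝ × ℝ)), (0 : ℝ))).2 = 0
    have : (((0 : ℝ × (ℝ × ℝ)), (0 : ℝ)) : (ℝ × (ℝ × ℝ)) × ℝ) = 0 := rfl
    rw [this, hsy0]; rfl
  have hesev : ∀ᶠ p in nhds (0 : ℝ × (ℝ × ℝ)), ContDiffAt ℝ (⊤ : ℕ∞) es p := by
    filter_upwards [hemb.eventually hev1] with p hp
    have h1 : ContDiffAt ℝ (⊤ : ℕ∞) (fun p : ℝ × (ℝ × ℝ) => ((p, (0 : ℝ)) : (ℝ × (ℝ × ℝ)) × ℝ)) p := by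
      fun_prop
    exact (hp.comp p h1).snd
  obtain ⟨V, hV, hVo, hV0⟩ := eventually_nhds_iff.1 hesev
  have hesV : ContDiffOn ℝ (⊤ : ℕ∞) es V := fun p hp => (hV p hp).contDiffWithinAt
  have hpair : ∀ᶠ p in nhds (0 : ℝ × (ℝ × ℝ)), (p, 0) ∈ Φ.target :=
    hemb.eventually (Φ.open_target.mem_nhds ht0)
  have hev : ∀ᶠ p in nhds (0 : ℝ × (ℝ × ℝ)), es p + fderiv ℝ f (p, es p) (0, 1) = 0 := by
    filter_upwards [hpair] with p hp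
    have h1 := Φ.right_inv hp
    rw [hΦc] at h1
    have h2 : (Φ.symm (p, 0)).1 = p := congrArg Prod.fst h1
    have h3 : (Φ.symm (p, 0)).2 + fe (Φ.symm (p, 0)) = 0 := congrArg Prod.snd h1
    have h4 : (p, es p) = Φ.symm (p, 0) := Prod.ext h2.symm rfl
    show es p + fe (p, es p) = 0
    rw [h4]
    exact h3
  refine ⟨es, ?_, hes0, hev⟩
  have hg : ∃ V : Set (ℝ × (ℝ × ℝ)), IsOpen V ∧ (0 : ℝ × (ℝ × ℝ)) ∈ V ∧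
      ContDiffOn ℝ (⊤ : ℕ∞) (fun p : ℝ × (ℝ × ℝ) => (p, es p)) V :=
    ⟨V, hVo, hV0, contDiffOn_id.prodMk hesV⟩
  have hg0 : (fun p : ℝ × (ℝ × ℝ) => (p, es p)) 0 = 0 := by
    show ((0 : ℝ × (ℝ × ℝ)), es 0) = 0
    rw [hes0]
    rfl
  have h1 : FlatV (fun p : ℝ × (ℝ × ℝ) => fe (p, es p)) := flatV_comp fe hfl _ hg hg0
  have h2 := flatV_const_mul (-1) _ h1
  refine flatV_congr _ _ h2 ?_
  filter_upwards [hev] with p hp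
  have h3 : es p + fe (p, es p) = 0 := hp
  linarith

end Pool.Agent.FlatRes
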