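import Pool.Agent.Lib.MP_40a0b6_an.N2G
set_option autoImplicit false
open MeasureTheory
open scoped ENNReal FourierTransform SchwartzMap
namespace Pool.Agent.FlatRes

/-- JOB M0 (6 statements).  Derivatives of `M0 m z a = (a₂ - G)²/2`, `G = Gg m 0 a₁`. -/
theorem m0_smooth (m : ℕ) (a : ℝ × ℝ) : ContDiff ℝ (⊤ : ℕ∞) (fun z => M0 m z a) := by
  unfold M0 Gg
  fun_prop

theorem m0_d1 (m : ℕ) (a : ℝ × ℝ) (z : ℝ) :
    HasDerivAt (fun z => M0 m z a) (-(a.2 - Gg m 0 a.1 z) * Gg m 1 a.1 z) z := by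
  have h := ((gg_deriv m 0 a.1 z).const_sub a.2).pow 2
  have h2 := h.div_const 2
  unfold M0
  refine h2.congr_deriv ?_
  norm_num
  ring

theorem m0_d2 (m : ℕ) (a : ℝ × ℝ) (z : ℝ) :
    HasDerivAt (fun z => -(a.2 - Gg m 0 a.1 z) * Gg m 1 a.1 z)
      (Gg m 1 a.1 z ^ 2 - (a.2 - Gg m 0 a.1 z) * Gg m 2 a.1 z) z := by
  have h := (((gg_deriv m 0 a.1 z).const_sub a.2).neg).mul (gg_deriv m 1 a.1 z)
  refine h.congr_deriv ?_
  simp only [Pi.neg_apply]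
  ring

theorem m0_d3 (m : ℕ) (a : ℝ × ℝ) (z : ℝ) :
    HasDerivAt (fun z => Gg m 1 a.1 z ^ 2 - (a.2 - Gg m 0 a.1 z) * Gg m 2 a.1 z)
      (3 * Gg m 1 a.1 z * Gg m 2 a.1 z - (a.2 - Gg m 0 a.1 z) * Gg m 3 a.1 z) z := by
  have h := ((gg_deriv m 1 a.1 z).pow 2).sub
    (((gg_deriv m 0 a.1 z).const_sub a.2).mul (gg_deriv m 2 a.1 z))
  refine h.congr_deriv ?_
  norm_num
  ring

theorem m0_d4 (m : ℕ) (a : ℝ × ℝ) (z : ℝ) :
    HasDerivAt (fun z => 3 * Gg m 1 a.1 z * Gg m 2 a.1 z - (a.2 - Gg m 0 a.1 z) * Gg m 3 a.1 z)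
      (3 * Gg m 2 a.1 z ^ 2 + 4 * Gg m 1 a.1 z * Gg m 3 a.1 z -
        (a.2 - Gg m 0 a.1 z) * Gg m 4 a.1 z) z := by
  have h := (((gg_deriv m 1 a.1 z).const_mul 3).mul (gg_deriv m 2 a.1 z)).sub
    (((gg_deriv m 0 a.1 z).const_sub a.2).mul (gg_deriv m 3 a.1 z))
  refine h.congr_deriv ?_
  norm_num
  ring

/-- general order (Leibniz; `iteratedDeriv_mul` if available, or induction with Pascal's rule):
`M0 = a₂²/2 - a₂G + G²/2`. -/
theorem m0_iter (m j : ℕ) (hj : 1 ≤ j) (a : ℝ × ℝ) (z : ℝ) :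
    iteratedDeriv j (fun z => M0 m z a) z = -a.2 * Gg m j a.1 z +
      (1 / 2) * ∑ i ∈ Finset.range (j + 1), (j.choose i : ℝ) * Gg m i a.1 z * Gg m (j - i) a.1 z := by
  have hG : ContDiff ℝ (j : ℕ∞) (Gg m 0 a.1) := by
    unfold Gg
    fun_prop
  have hGa : ContDiffAt ℝ j (Gg m 0 a.1) z := hG.contDiffAt
  have e : (fun z => M0 m z a) =
      (fun z => a.2 ^ 2 / 2 + ((fun z => -a.2 * Gg m 0 a.1 z) +
        (fun z => (1 / 2) * (Gg m 0 a.1 * Gg m 0 a.1) z)) z) := by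
    funext w
    simp only [M0, Pi.add_apply, Pi.mul_apply]
    ring
  rw [e, iteratedDeriv_const_add (by omega)]
  rw [iteratedDeriv_add]
  · rw [iteratedDeriv_const_mul_field, iteratedDeriv_const_mul_field,
      iteratedDeriv_mul hGa hGa]
    simp only [gg_iter]
  · exact contDiffAt_const.mul hGa
  · exact contDiffAt_const.mul (hGa.mul hGa)

end Pool.Agent.FlatRes
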