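import Pool.Agent.Lib.MP_40a0b6_an.N2Impl
set_option autoImplicit false
open MeasureTheory
open scoped ENNReal FourierTransform SchwartzMap
namespace Pool.Agent.FlatRes

/-- the perturbation in the coordinates `(z,a,e)` -/
noncomputable def mexF (m : ℕ) (g : ℝ × ℝ → ℝ) (q : (ℝ × (ℝ × ℝ)) × ℝ) : ℝ :=
  g ((q.1.2.1 + q.1.1) / 2, (q.1.2.2 + (Hh m q.1.2.1 q.1.1 + q.2)) / 2) +
    g ((q.1.2.1 - q.1.1) / 2, (q.1.2.2 - (Hh m q.1.2.1 q.1.1 + q.2)) / 2)

theorem mex_flat (m : ℕ) (g : ℝ × ℝ → ℝ) (hg : FlatV g) : FlatV (mexF m g) := by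
  have h1 : ContDiff ℝ (⊤ : ℕ∞) (fun q : (ℝ × (ℝ × ℝ)) × ℝ => ((q.1.2.1 + q.1.1) / 2,
      (q.1.2.2 + (Hh m q.1.2.1 q.1.1 + q.2)) / 2)) := by
    unfold Hh
    fun_prop
  have h2 : ContDiff ℝ (⊤ : ℕ∞) (fun q : (ℝ × (ℝ × ℝ)) × ℝ => ((q.1.2.1 - q.1.1) / 2,
      (q.1.2.2 - (Hh m q.1.2.1 q.1.1 + q.2)) / 2)) := by
    unfold Hh
    fun_prop
  exact flatV_add _ _ (flatV_comp g hg _ ⟨Set.univ, isOpen_univ, Set.mem_univ _, h1.contDiffOn⟩ (by simp [Hh]))
    (flatV_comp g hg _ ⟨Set.univ, isOpen_univ, Set.mem_univ _, h2.contDiffOn⟩ (by simp [Hh]))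

theorem mex_quad {φ φ1 : ℝ → ℝ} {e0 e a b : ℝ}
    (hd : ∀ s ∈ Set.Icc (0 : ℝ) 1, HasDerivAt φ (φ1 (e0 + s * (e - e0))) (e0 + s * (e - e0)))
    (hlo : ∀ s ∈ Set.Icc (0 : ℝ) 1, a * (s * (e - e0)) ^ 2 ≤
      φ1 (e0 + s * (e - e0)) * (s * (e - e0)))
    (hup : ∀ s ∈ Set.Icc (0 : ℝ) 1, φ1 (e0 + s * (e - e0)) * (s * (e - e0)) ≤
      b * (s * (e - e0)) ^ 2) :
    a / 2 * (e - e0) ^ 2 ≤ φ e - φ e0 ∧ φ e - φ e0 ≤ b / 2 * (e - e0) ^ 2 := by
  set h : ℝ → ℝ := fun s => φ (e0 + s * (e - e0)) with hh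
  have hder : ∀ s ∈ Set.Icc (0 : ℝ) 1, HasDerivAt h (φ1 (e0 + s * (e - e0)) * (e - e0)) s := by
    intro s hs
    have h1 : HasDerivAt (fun s : ℝ => e0 + s * (e - e0)) (e - e0) s := by
      simpa using ((hasDerivAt_id s).mul_const (e - e0)).const_add e0
    exact (hd s hs).comp s h1
  have h0 : h 0 = φ e0 := by simp [hh]
  have h1 : h 1 = φ e := by simp [hh]
  have hcont : ContinuousOn h (Set.Icc 0 1) := fun s hs => (hder s hs).continuousAt.continuousWithinAt
  constructor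
  · have hk : ∀ s ∈ Set.Icc (0 : ℝ) 1, HasDerivAt (fun s => h s - a / 2 * (e - e0) ^ 2 * s ^ 2)
        (φ1 (e0 + s * (e - e0)) * (e - e0) - a * (e - e0) ^ 2 * s) s := by
      intro s hs
      have h2 : HasDerivAt (fun s => h s - a / 2 * (e - e0) ^ 2 * s ^ 2)
          (φ1 (e0 + s * (e - e0)) * (e - e0) -
            a / 2 * (e - e0) ^ 2 * (((2 : ℕ) : ℝ) * s ^ (2 - 1))) s :=
        (hder s hs).sub ((hasDerivAt_pow 2 s).const_mul (a / 2 * (e - e0) ^ 2))
      refine h2.congr_deriv ?_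
      push_cast
      ring
    have hmono : MonotoneOn (fun s => h s - a / 2 * (e - e0) ^ 2 * s ^ 2) (Set.Icc 0 1) := by
      refine monotoneOn_of_deriv_nonneg (convex_Icc 0 1)
        (fun s hs => (hk s hs).continuousAt.continuousWithinAt) ?_ ?_
      · intro s hs
        rw [interior_Icc] at hs
        exact (hk s ⟨hs.1.le, hs.2.le⟩).differentiableAt.differentiableWithinAt
      · intro s hs
        rw [interior_Icc] at hs
        rw [(hk s ⟨hs.1.le, hs.2.le⟩).deriv]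
        have h3 := hlo s ⟨hs.1.le, hs.2.le⟩
        have h4 : 0 ≤ s * (φ1 (e0 + s * (e - e0)) * (e - e0) - a * (e - e0) ^ 2 * s) := by
          nlinarith
        exact nonneg_of_mul_nonneg_right h4 hs.1
    have h5 := hmono (Set.left_mem_Icc.2 zero_le_one) (Set.right_mem_Icc.2 zero_le_one) zero_le_one
    simp only [h0, h1] at h5
    linarith
  · have hk : ∀ s ∈ Set.Icc (0 : ℝ) 1, HasDerivAt (fun s => b / 2 * (e - e0) ^ 2 * s ^ 2 - h s)
        (b * (e - e0) ^ 2 * s - φ1 (e0 + s * (e - e0)) * (e - e0)) s := by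
      intro s hs
      have h2 : HasDerivAt (fun s => b / 2 * (e - e0) ^ 2 * s ^ 2 - h s)
          (b / 2 * (e - e0) ^ 2 * (((2 : ℕ) : ℝ) * s ^ (2 - 1)) -
            φ1 (e0 + s * (e - e0)) * (e - e0)) s :=
        ((hasDerivAt_pow 2 s).const_mul (b / 2 * (e - e0) ^ 2)).sub (hder s hs)
      refine h2.congr_deriv ?_
      push_cast
      ring
    have hmono : MonotoneOn (fun s => b / 2 * (e - e0) ^ 2 * s ^ 2 - h s) (Set.Icc 0 1) := by
      refine monotoneOn_of_deriv_nonneg (convex_Icc 0 1)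
        (fun s hs => (hk s hs).continuousAt.continuousWithinAt) ?_ ?_
      · intro s hs
        rw [interior_Icc] at hs
        exact (hk s ⟨hs.1.le, hs.2.le⟩).differentiableAt.differentiableWithinAt
      · intro s hs
        rw [interior_Icc] at hs
        rw [(hk s ⟨hs.1.le, hs.2.le⟩).deriv]
        have h3 := hup s ⟨hs.1.le, hs.2.le⟩
        have h4 : 0 ≤ s * (b * (e - e0) ^ 2 * s - φ1 (e0 + s * (e - e0)) * (e - e0)) := by
          nlinarith
        exact nonneg_of_mul_nonneg_right h4 hs.1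
    have h5 := hmono (Set.left_mem_Icc.2 zero_le_one) (Set.right_mem_Icc.2 zero_le_one) zero_le_one
    simp only [h0, h1] at h5
    linarith

theorem mex_FF (m : ℕ) (g : ℝ × ℝ → ℝ) {r : ℝ} {a : ℝ × ℝ} {u v : ℝ} (h1 : (u, v) ∈ box r)
    (h2 : (a.1 - u, a.2 - v) ∈ box r) :
    FF (psi0 2 m g r) a u v = M0 m (2 * u - a.1) a +
      ((2 * v - a.2 - Hh m a.1 (2 * u - a.1)) ^ 2 / 2 +
        mexF m g ((2 * u - a.1, a), 2 * v - a.2 - Hh m a.1 (2 * u - a.1))) := by
  have e1 : (a.1 + (2 * u - a.1)) / 2 = u := by ring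
  have e2 : (a.1 - (2 * u - a.1)) / 2 = a.1 - u := by ring
  unfold FF psi0
  rw [Set.indicator_of_mem h1, Set.indicator_of_mem h2]
  unfold M0 mexF Gg Hh phi
  simp only [e1, e2]
  have e3 : (a.2 + (u ^ m - (a.1 - u) ^ m + (2 * v - a.2 - (u ^ m - (a.1 - u) ^ m)))) / 2 = v := by
    ring
  have e4 : (a.2 - (u ^ m - (a.1 - u) ^ m + (2 * v - a.2 - (u ^ m - (a.1 - u) ^ m)))) / 2 =
      a.2 - v := by ring
  rw [e3, e4]
  simp only [Nat.descFactorial_zero, Nat.cast_one, pow_zero, one_mul, Nat.sub_zero]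
  ring

theorem mex_open {r : ℝ} : IsOpen (box r) := isOpen_Ioo.prod isOpen_Ioo

theorem mex_box {r : ℝ} {x : ℝ × ℝ} : x ∈ box r ↔ |x.1| < r ∧ |x.2| < r := by
  unfold box
  rw [Set.mem_prod, Set.mem_Ioo, Set.mem_Ioo, abs_lt, abs_lt]

theorem mex_ball {r : ℝ} {x : ℝ × ℝ} (h : x ∈ box r) : ‖x‖ < r := by
  rw [mex_box] at h
  rw [Prod.norm_def, Real.norm_eq_abs, Real.norm_eq_abs]
  exact max_lt h.1 h.2

theorem mex_near {r : ℝ} {x : ℝ × ℝ} (h : x ∈ box r) :
    ∀ᶠ t in nhds x.2, (x.1, t) ∈ box r := by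
  have hc : ContinuousAt (fun t : ℝ => (x.1, t)) x.2 := by fun_prop
  exact hc.eventually (mex_open.mem_nhds h)

/-- derivative of `Ψ` in the second variable -/
theorem mex_d (m : ℕ) (g : ℝ × ℝ → ℝ) {r : ℝ} (hg : ContDiffOn ℝ (⊤ : ℕ∞) g (box r)) {x : ℝ × ℝ}
    (h : x ∈ box r) : HasDerivAt (fun t => psi0 2 m g r (x.1, t))
      (2 * (x.2 - x.1 ^ m) + fderiv ℝ g x (0, 1)) x.2 := by
  have h1 : DifferentiableAt ℝ g x :=
    (hg.contDiffAt (mex_open.mem_nhds h)).differentiableAt (by simp)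
  have h2 : HasDerivAt (fun t : ℝ => ((x.1, t) : ℝ × ℝ)) (0, 1) x.2 :=
    (hasDerivAt_const x.2 x.1).prodMk (hasDerivAt_id x.2)
  have h3 : HasFDerivAt g (fderiv ℝ g x) ((x.1, x.2) : ℝ × ℝ) := h1.hasFDerivAt
  have h4 : HasDerivAt (fun t => g (x.1, t)) (fderiv ℝ g x (0, 1)) x.2 :=
    h3.comp_hasDerivAt x.2 h2
  have h5 : HasDerivAt (fun t : ℝ => (t - x.1 ^ m) ^ 2) (2 * (x.2 - x.1 ^ m)) x.2 := by
    have h6 : HasDerivAt (fun t : ℝ => t - x.1 ^ m) 1 x.2 := (hasDerivAt_id x.2).sub_const _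
    have h7 : HasDerivAt (fun t : ℝ => (t - x.1 ^ m) ^ 2)
        (((2 : ℕ) : ℝ) * (x.2 - x.1 ^ m) ^ (2 - 1) * 1) x.2 := h6.pow 2
    refine h7.congr_deriv ?_
    push_cast
    ring
  refine (h5.add h4).congr_of_eventuallyEq ?_
  filter_upwards [mex_near h] with t ht
  unfold psi0
  rw [Set.indicator_of_mem ht]
  rfl

theorem mex_D1v (m : ℕ) (g : ℝ × ℝ → ℝ) {r : ℝ} (hg : ContDiffOn ℝ (⊤ : ℕ∞) g (box r))
    {x : ℝ × ℝ} (h : x ∈ box r) :
    D1v (psi0 2 m g r) x = 2 * (x.2 - x.1 ^ m) + fderiv ℝ g x (0, 1) := (mex_d m g hg h).deriv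

theorem mex_meas {r : ℝ} {F : ℝ × ℝ → ℝ} (hF : ContinuousOn F (box r)) :
    Measurable ((box r).indicator F) := by
  classical
  rw [← Set.piecewise_eq_indicator]
  exact hF.measurable_piecewise continuousOn_const mex_open.measurableSet

/-- JOB MEx (main local lemma; may be split).  `M = M0 + E` with `E` flat and even in `z`.

Proof.  For `p = (z,a)` and `e ∈ ℝ` put `η = Hh m a₁ z + e` and
`f(p,e) = g((a₁+z)/2,(a₂+η)/2) + g((a₁-z)/2,(a₂-η)/2)`; it is flat on `(ℝ×(ℝ×ℝ))×ℝ` (`flatV_comp` twice, `flatV_add`; for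
`V = ℝ×ℝ` `FlatV` and `FlatAtZero` are the same).  With `u = (a₁+z)/2`, `v = (a₂+η)/2`, `u' = a₁-u`, `v' = a₂-v`, `y = v-u^m`,
`y' = v'-u'^m` one has `y+y' = a₂ - Gg m 0 a₁ z`, `y-y' = e`, so
`FF Ψ a u v = y²+y'²+f = M0 m z a + φ_p(e)`, `φ_p(e) = e²/2 + f(p,e)`.
`impl_flat` gives `es` flat with `φ_p'(es p) = 0`.  `E(p) = es(p)²/2 + f(p,es p)` is flat.  `vs z a = (a₂+Hh m a₁ z+es(z,a))/2`,
so `v - vs = (e - es)/2`.
On a small ball (radius `δ`) `|∂_e² f| ≤ 1/4`, so `φ_p'' ∈ [3/4,5/4]` and, by Taylor/monotonicity,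
`(3/8)(e-es)² ≤ φ_p(e)-φ_p(es) ≤ (5/8)(e-es)²`, i.e. `low`, `up` (`(3/2)(v-vs)²`, `(5/2)(v-vs)²`);
`∂_v FF = 2φ_p'(e)`, which gives `hder` (also `D1v Ψ` is `2(v-u^m)+∂₂g` on the box) and `slope`; `mono`: `∂₂²Ψ = 2+∂₂²g ≥ 1`.
For `(u,v), (a₁-u,a₂-v) ∈ box r` all arguments are `≤ 3r` in absolute value (`|e| = |v-v'-H| ≤ 2r + 2r^m ≤ 4r`), choose `r0` small.
`psi0 2 m g r` is measurable: continuous on the open box, `0` outside; `measD` similarly.
Evenness: `f((-z,a),-e) = f((z,a),e)` (`Hh m a₁ (-z) = -Hh m a₁ z`), so `-es(z,a)` solves the equation for `(-z,a)`; the zero of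
`φ_p'` in the small ball is unique (strictly increasing), hence `es(-z,a) = -es(z,a)`, `E(-z,a) = E(z,a)`. -/
theorem m_exists (m : ℕ) (hm : 2 ≤ m) (g : ℝ × ℝ → ℝ) (hg : FlatAtZero g) :
    ∃ (r0 : ℝ) (E : ℝ × (ℝ × ℝ) → ℝ) (vs : ℝ → ℝ × ℝ → ℝ), 0 < r0 ∧
      ContDiffOn ℝ (⊤ : ℕ∞) g (box r0) ∧ FlatV E ∧
      (∀ z : ℝ, ∀ a : ℝ × ℝ, |z| < 4 * r0 → |a.1| < 4 * r0 → |a.2| < 4 * r0 → E (-z, a) = E (z, a)) ∧
      ∀ r, 0 < r → r ≤ r0 → Measurable (psi0 2 m g r) ∧ MData (psi0 2 m g r) r (MM m E) vs := by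
  classical
  have hgV : FlatV g := hg
  have hf := mex_flat m g hgV
  set f := mexF m g with hfdef
  obtain ⟨es, hes, hes0, heq⟩ := impl_flat f hf
  have hfe := flatV_dir f hf ((0, 1) : (ℝ × (ℝ × ℝ)) × ℝ)
  set fe : (ℝ × (ℝ × ℝ)) × ℝ → ℝ := fun q => fderiv ℝ f q (0, 1) with hfedef
  obtain ⟨δ1, hδ1, -, hfd⟩ := flatV_diff fe hfe 0 (1 / 4) (by norm_num)
  have hge := flatV_dir g hgV ((0, 1) : ℝ × ℝ)
  obtain ⟨δ2, hδ2, -, hgd⟩ := flatV_diff _ hge 0 1 one_pos
  obtain ⟨⟨Uf, hUf, hUf0, hUfs⟩, -⟩ := id hf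
  obtain ⟨⟨Ug, hUg, hUg0, hUgs⟩, -⟩ := id hgV
  obtain ⟨⟨Ue, hUe, hUe0, hUes⟩, -⟩ := id hes
  obtain ⟨δ3, hδ3, hb3⟩ := Metric.isOpen_iff.1 hUf 0 hUf0
  obtain ⟨δ4, hδ4, hb4⟩ := Metric.isOpen_iff.1 hUg 0 hUg0
  obtain ⟨δ, hδ, hδ1', hδ3'⟩ : ∃ δ : ℝ, 0 < δ ∧ δ ≤ δ1 ∧ δ ≤ δ3 :=
    ⟨min δ1 δ3, lt_min hδ1 hδ3, min_le_left _ _, min_le_right _ _⟩
  have hesc : ContDiffAt ℝ (⊤ : ℕ∞) es 0 := hUes.contDiffAt (hUe.mem_nhds hUe0)
  have hev : ∀ᶠ p in nhds (0 : ℝ × (ℝ × ℝ)), es p + fe (p, es p) = 0 ∧ |es p| < δ := by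
    refine heq.and ?_
    have hc : ContinuousAt (fun p => |es p|) 0 := hesc.continuousAt.abs
    refine hc.eventually (gt_mem_nhds ?_)
    show |es 0| < δ
    rw [hes0, abs_zero]
    exact hδ
  obtain ⟨δ5, hδ5, hb5⟩ := Metric.eventually_nhds_iff_ball.1 hev
  obtain ⟨r0, hr0, hr1, hrδ, hr2, hr4, hr5⟩ : ∃ r0 : ℝ, 0 < r0 ∧ r0 ≤ 1 ∧ 4 * r0 ≤ δ ∧ r0 ≤ δ2 ∧
      r0 ≤ δ4 ∧ 4 * r0 ≤ δ5 := by
    refine ⟨min (min 1 (δ / 4)) (min (min δ2 δ4) (δ5 / 4)), by positivity, ?_, ?_, ?_, ?_, ?_⟩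
    · exact (min_le_left _ _).trans (min_le_left _ _)
    · have := (min_le_left (min 1 (δ / 4)) (min (min δ2 δ4) (δ5 / 4))).trans (min_le_right _ _)
      linarith
    · exact (min_le_right _ _).trans ((min_le_left _ _).trans (min_le_left _ _))
    · exact (min_le_right _ _).trans ((min_le_left _ _).trans (min_le_right _ _))
    · have := (min_le_right (min 1 (δ / 4)) (min (min δ2 δ4) (δ5 / 4))).trans (min_le_right _ _)
      linarith
  have hgs : ContDiffOn ℝ (⊤ : ℕ∞) g (box r0) := by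
    refine hUgs.mono fun x hx => hb4 ?_
    rw [mem_ball_zero_iff]
    exact (mex_ball hx).trans_le hr4
  -- the function `φ`
  have hφ : ∀ (p : ℝ × (ℝ × ℝ)) (e : ℝ), ‖p‖ < δ → |e| < δ →
      HasDerivAt (fun e => e ^ 2 / 2 + f (p, e)) (e + fe (p, e)) e := by
    intro p e hp he
    have hmem : (p, e) ∈ Uf := by
      refine hb3 ?_
      rw [mem_ball_zero_iff, Prod.norm_def]
      exact max_lt (hp.trans_le hδ3') (he.trans_le hδ3')
    have h1 : DifferentiableAt ℝ f (p, e) :=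
      (hUfs.contDiffAt (hUf.mem_nhds hmem)).differentiableAt (by simp)
    have h2 : HasDerivAt (fun t : ℝ => (p, t)) ((0 : ℝ × (ℝ × ℝ)), (1 : ℝ)) e :=
      (hasDerivAt_const e p).prodMk (hasDerivAt_id e)
    have h4 : HasDerivAt (fun t => f (p, t)) (fe (p, e)) e :=
      h1.hasFDerivAt.comp_hasDerivAt e h2
    have h5 : HasDerivAt (fun t : ℝ => t ^ 2 / 2) e e := by
      have := (hasDerivAt_pow 2 e).div_const 2
      simpa using this
    exact h5.add h4
  have hfe4 : ∀ (p : ℝ × (ℝ × ℝ)) (e e' : ℝ), ‖p‖ < δ → |e| < δ → |e'| < δ →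
      |fe (p, e) - fe (p, e')| ≤ 1 / 4 * |e - e'| := by
    intro p e e' hp he he'
    have hn : ∀ t : ℝ, |t| < δ → ‖((p, t) : (ℝ × (ℝ × ℝ)) × ℝ)‖ < δ := by
      intro t ht
      rw [Prod.norm_def]
      exact max_lt hp ht
    have h1 := (hfd δ hδ (p, e) (p, e') ((hn e he).trans_le hδ1') ((hn e' he').trans_le hδ1')
      (hn e he).le (hn e' he').le).2.1
    rw [pow_zero, mul_one] at h1
    have h2 : ‖((p, e) : (ℝ × (ℝ × ℝ)) × ℝ) - (p, e')‖ = |e - e'| := by
      rw [Prod.mk_sub_mk, sub_self, Prod.norm_def]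
      simp
    rwa [h2] at h1
  have hnp : ∀ (z : ℝ) (a : ℝ × ℝ) (R : ℝ), |z| < R → |a.1| < R → |a.2| < R →
      ‖((z, a) : ℝ × (ℝ × ℝ))‖ < R := by
    intro z a R hz h1 h2
    rw [Prod.norm_def, Prod.norm_def]
    exact max_lt hz (max_lt h1 h2)
  have hsol : ∀ p : ℝ × (ℝ × ℝ), ‖p‖ < 4 * r0 → es p + fe (p, es p) = 0 ∧ |es p| < δ := by
    intro p hp
    refine hb5 p ?_
    rw [mem_ball_zero_iff]
    exact hp.trans_le hr5
  set E : ℝ × (ℝ × ℝ) → ℝ := fun p => es p ^ 2 / 2 + f (p, es p) with hE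
  have hEflat : FlatV E := by
    have h1 : FlatV (fun p => 1 / 2 * (es p * es p)) :=
      flatV_const_mul _ _ (flatV_mul es es hes hes.1)
    have h2 : FlatV (fun p => f (p, es p)) :=
      flatV_comp f hf (fun p => (p, es p)) (by
        obtain ⟨V, hV1, hV2, hV3⟩ := hes.1
        exact ⟨V, hV1, hV2, contDiffOn_id.prodMk hV3⟩) (by
        show ((0 : ℝ × (ℝ × ℝ)), es 0) = 0
        rw [hes0]
        rfl)
    refine flatV_congr _ _ (flatV_add _ _ h1 h2) ?_
    filter_upwards with p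
    simp only [hE]
    ring
  refine ⟨r0, E, fun z a => (a.2 + Hh m a.1 z + es (z, a)) / 2, hr0, hgs, hEflat, ?_, ?_⟩
  · -- evenness
    intro z a hz h1 h2
    have hH : Hh m a.1 (-z) = -Hh m a.1 z := by
      unfold Hh
      rw [sub_neg_eq_add, ← sub_eq_add_neg]
      ring
    have hfsym : ∀ e, f ((-z, a), e) = f ((z, a), -e) := by
      intro e
      simp only [hfdef, mexF, hH]
      rw [show a.1 + -z = a.1 - z by ring, show a.1 - -z = a.1 + z by ring,
        show a.2 + (-Hh m a.1 z + e) = a.2 - (Hh m a.1 z + -e) by ring,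
        show a.2 - (-Hh m a.1 z + e) = a.2 + (Hh m a.1 z + -e) by ring]
      ring
    have hz' : |-z| < 4 * r0 := by rwa [abs_neg]
    have hp := hnp z a _ hz h1 h2
    have hp' := hnp (-z) a _ hz' h1 h2
    obtain ⟨s1, s2⟩ := hsol _ hp
    obtain ⟨s3, s4⟩ := hsol _ hp'
    have hneg : |-es (z, a)| < δ := by rwa [abs_neg]
    have hfeneg : fe ((-z, a), -es (z, a)) = -fe ((z, a), es (z, a)) := by
      have d1 := hφ (-z, a) (-es (z, a)) (hp'.trans_le hrδ) hneg
      have d2 := hφ (z, a) (es (z, a)) (hp.trans_le hrδ) s2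
      have d3 : HasDerivAt (fun e => (-e) ^ 2 / 2 + f ((z, a), -e))
          (-(es (z, a) + fe ((z, a), es (z, a)))) (-es (z, a)) := by
        have d2' : HasDerivAt (fun e => e ^ 2 / 2 + f ((z, a), e))
            (es (z, a) + fe ((z, a), es (z, a))) (-(-es (z, a))) := by
          rw [neg_neg]
          exact d2
        have d4 := HasDerivAt.comp (-es (z, a)) d2' (hasDerivAt_neg (-es (z, a)))
        refine HasDerivAt.congr_deriv (f' := (es (z, a) + fe ((z, a), es (z, a))) * -1) d4 ?_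
        ring
      have d5 : HasDerivAt (fun e => e ^ 2 / 2 + f ((-z, a), e))
          (-(es (z, a) + fe ((z, a), es (z, a)))) (-es (z, a)) := by
        refine d3.congr_of_eventuallyEq ?_
        filter_upwards with e
        rw [hfsym e, neg_sq]
      have := d1.unique d5
      linarith
    have huniq : es (-z, a) = -es (z, a) := by
      have h3 := hfe4 (-z, a) (es (-z, a)) (-es (z, a)) (hp'.trans_le hrδ) s4 hneg
      have h4 : es (-z, a) - -es (z, a) =
          -(fe ((-z, a), es (-z, a)) - fe ((-z, a), -es (z, a))) := by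
        rw [hfeneg]
        linarith
      have h5 : |es (-z, a) - -es (z, a)| ≤ 1 / 4 * |es (-z, a) - -es (z, a)| := by
        calc |es (-z, a) - -es (z, a)| =
            |fe ((-z, a), es (-z, a)) - fe ((-z, a), -es (z, a))| := by rw [h4, abs_neg]
          _ ≤ _ := h3
      have h6 : |es (-z, a) - -es (z, a)| = 0 := by
        have := abs_nonneg (es (-z, a) - -es (z, a))
        linarith
      exact sub_eq_zero.1 (abs_eq_zero.1 h6)
    simp only [hE]
    rw [huniq, hfsym, neg_neg, neg_sq]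
  · intro r hr hrr
    have hsub : box r ⊆ box r0 := by
      intro x hx
      rw [mex_box] at hx ⊢
      exact ⟨hx.1.trans_le hrr, hx.2.trans_le hrr⟩
    have hgr : ContDiffOn ℝ (⊤ : ℕ∞) g (box r) := hgs.mono hsub
    have hgf : ContinuousOn (fun x => fderiv ℝ g x (0, 1)) (box r) := by
      have := (hgr.continuousOn_fderiv_of_isOpen mex_open (by simp)).clm_apply
        (continuousOn_const (c := ((0, 1) : ℝ × ℝ)))
      exact this
    -- the coordinates of a pair of points of the box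
    have hco : ∀ (a : ℝ × ℝ) (u v : ℝ), (u, v) ∈ box r → (a.1 - u, a.2 - v) ∈ box r →
        ‖((2 * u - a.1, a) : ℝ × (ℝ × ℝ))‖ < 4 * r0 ∧
        |2 * v - a.2 - Hh m a.1 (2 * u - a.1)| < 4 * r0 := by
      intro a u v h1 h2
      rw [mex_box] at h1 h2
      simp only at h1 h2
      obtain ⟨h1a, h1b⟩ := h1
      obtain ⟨h2a, h2b⟩ := h2
      have hu := abs_lt.1 h1a
      have hv := abs_lt.1 h1b
      have hu' := abs_lt.1 h2a
      have hv' := abs_lt.1 h2b
      constructor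
      · refine hnp _ _ _ ?_ ?_ ?_ <;> rw [abs_lt] <;> constructor <;> linarith
      · have e1 : (a.1 + (2 * u - a.1)) / 2 = u := by ring
        have e2 : (a.1 - (2 * u - a.1)) / 2 = a.1 - u := by ring
        have hpw : ∀ t : ℝ, |t| < r → |t ^ m| < r := by
          intro t ht
          have ht1 : |t| ≤ 1 := ht.le.trans (hrr.trans hr1)
          rw [abs_pow]
          exact (pow_le_of_le_one (abs_nonneg _) ht1 (by omega)).trans_lt ht
        have p1 := abs_lt.1 (hpw u h1a)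
        have p2 := abs_lt.1 (hpw (a.1 - u) h2a)
        unfold Hh
        rw [e1, e2, abs_lt]
        constructor <;> linarith
    have hkey : ∀ (a : ℝ × ℝ) (u v : ℝ), (u, v) ∈ box r → (a.1 - u, a.2 - v) ∈ box r →
        HasDerivAt (fun t => FF (psi0 2 m g r) a u t)
          (D1v (psi0 2 m g r) (u, v) - D1v (psi0 2 m g r) (a.1 - u, a.2 - v)) v := by
      intro a u v h1 h2
      have d1 := mex_d m g hgr h1
      have d2 := mex_d m g hgr h2
      rw [← mex_D1v m g hgr h1] at d1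
      rw [← mex_D1v m g hgr h2] at d2
      simp only at d1 d2
      have d3 : HasDerivAt (fun t => psi0 2 m g r (a.1 - u, a.2 - t))
          (-D1v (psi0 2 m g r) (a.1 - u, a.2 - v)) v := by
        have := HasDerivAt.comp_const_sub (f := fun t => psi0 2 m g r (a.1 - u, t)) a.2 v d2
        exact this
      have := d1.add d3
      rwa [← sub_eq_add_neg] at this
    have hslope : ∀ (a : ℝ × ℝ) (u v : ℝ), (u, v) ∈ box r → (a.1 - u, a.2 - v) ∈ box r →
        D1v (psi0 2 m g r) (u, v) - D1v (psi0 2 m g r) (a.1 - u, a.2 - v) =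
          2 * ((2 * v - a.2 - Hh m a.1 (2 * u - a.1)) +
            fe ((2 * u - a.1, a), 2 * v - a.2 - Hh m a.1 (2 * u - a.1))) := by
      intro a u v h1 h2
      obtain ⟨c1, c2⟩ := hco a u v h1 h2
      have d1 := hφ _ _ (c1.trans_le hrδ) (c2.trans_le hrδ)
      have d2 : HasDerivAt (fun t : ℝ => 2 * t - a.2 - Hh m a.1 (2 * u - a.1)) 2 v := by
        simpa using (((hasDerivAt_id v).const_mul 2).sub_const a.2).sub_const
          (Hh m a.1 (2 * u - a.1))
      have d3 := (d1.comp v d2).const_add (M0 m (2 * u - a.1) a)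
      have d4 : HasDerivAt (fun t => FF (psi0 2 m g r) a u t)
          (((2 * v - a.2 - Hh m a.1 (2 * u - a.1)) +
            fe ((2 * u - a.1, a), 2 * v - a.2 - Hh m a.1 (2 * u - a.1))) * 2) v := by
        refine d3.congr_of_eventuallyEq ?_
        have n1 := mex_near h1
        have n2 : ∀ᶠ t in nhds v, (a.1 - u, a.2 - t) ∈ box r := by
          have hc : ContinuousAt (fun t : ℝ => (a.1 - u, a.2 - t)) v := by fun_prop
          exact hc.eventually (mex_open.mem_nhds h2)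
        filter_upwards [n1, n2] with t t1 t2
        exact mex_FF m g t1 t2
      rw [(hkey a u v h1 h2).unique d4]
      ring
    have hquad : ∀ (a : ℝ × ℝ) (u v : ℝ), (u, v) ∈ box r → (a.1 - u, a.2 - v) ∈ box r →
        (v - (a.2 + Hh m a.1 (2 * u - a.1) + es (2 * u - a.1, a)) / 2) ^ 2 ≤
          FF (psi0 2 m g r) a u v - MM m E (2 * u - a.1) a ∧
        FF (psi0 2 m g r) a u v - MM m E (2 * u - a.1) a ≤
          4 * (v - (a.2 + Hh m a.1 (2 * u - a.1) + es (2 * u - a.1, a)) / 2) ^ 2 ∧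
        2 * (v - (a.2 + Hh m a.1 (2 * u - a.1) + es (2 * u - a.1, a)) / 2) ^ 2 ≤
          (D1v (psi0 2 m g r) (u, v) - D1v (psi0 2 m g r) (a.1 - u, a.2 - v)) *
            (v - (a.2 + Hh m a.1 (2 * u - a.1) + es (2 * u - a.1, a)) / 2) := by
      intro a u v h1 h2
      obtain ⟨c1, c2⟩ := hco a u v h1 h2
      obtain ⟨s1, s2⟩ := hsol _ c1
      rw [hslope a u v h1 h2, mex_FF m g h1 h2]
      set z := 2 * u - a.1 with hz
      set e := 2 * v - a.2 - Hh m a.1 z with he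
      have hve : v - (a.2 + Hh m a.1 z + es (z, a)) / 2 = (e - es (z, a)) / 2 := by
        rw [he]; ring
      rw [hve]
      have hp : ‖((z, a) : ℝ × (ℝ × ℝ))‖ < δ := c1.trans_le hrδ
      have hseg : ∀ s ∈ Set.Icc (0 : ℝ) 1, |es (z, a) + s * (e - es (z, a))| < δ := by
        intro s hs
        have q1 := abs_lt.1 s2
        have q2 := abs_lt.1 (c2.trans_le hrδ)
        have e3 : es (z, a) + s * (e - es (z, a)) = (1 - s) * es (z, a) + s * e := by ring
        rw [e3]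
        rcases eq_or_lt_of_le hs.1 with h0 | h0
        · rw [← h0]
          simpa using s2
        · have a1 : |(1 - s) * es (z, a)| ≤ (1 - s) * δ := by
            rw [abs_mul, abs_of_nonneg (by linarith [hs.2])]
            exact mul_le_mul_of_nonneg_left s2.le (by linarith [hs.2])
          have a2 : |s * e| < s * δ := by
            rw [abs_mul, abs_of_pos h0]
            exact mul_lt_mul_of_pos_left (c2.trans_le hrδ) h0
          calc |(1 - s) * es (z, a) + s * e| ≤ |(1 - s) * es (z, a)| + |s * e| := abs_add_le _ _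
            _ < (1 - s) * δ + s * δ := by linarith
            _ = δ := by ring
      have hbd : ∀ t : ℝ, |t| < δ →
          3 / 4 * (t - es (z, a)) ^ 2 ≤ (t + fe ((z, a), t)) * (t - es (z, a)) ∧
          (t + fe ((z, a), t)) * (t - es (z, a)) ≤ 5 / 4 * (t - es (z, a)) ^ 2 := by
        intro t ht
        have h3 := hfe4 (z, a) t (es (z, a)) hp ht s2
        have h4 : t + fe ((z, a), t) =
            (t - es (z, a)) + (fe ((z, a), t) - fe ((z, a), es (z, a))) := by linarith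
        rw [h4]
        have h5 : |(fe ((z, a), t) - fe ((z, a), es (z, a))) * (t - es (z, a))| ≤
            1 / 4 * (t - es (z, a)) ^ 2 := by
          rw [abs_mul, ← sq_abs (t - es (z, a)), pow_two, ← mul_assoc]
          exact mul_le_mul_of_nonneg_right h3 (abs_nonneg _)
        have h6 := abs_le.1 h5
        constructor <;> nlinarith [h6.1, h6.2]
      have hq := mex_quad (φ := fun e => e ^ 2 / 2 + f ((z, a), e))
        (φ1 := fun e => e + fe ((z, a), e)) (e0 := es (z, a)) (e := e) (a := 3 / 4) (b := 5 / 4)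
        (fun s hs => hφ _ _ hp (hseg s hs))
        (fun s hs => by
          have := (hbd _ (hseg s hs)).1
          simpa using this)
        (fun s hs => by
          have := (hbd _ (hseg s hs)).2
          simpa using this)
      have hM : MM m E z a = M0 m z a + (es (z, a) ^ 2 / 2 + f ((z, a), es (z, a))) := rfl
      rw [hM]
      have hb := (hbd e (c2.trans_le hrδ)).1
      have hsq := sq_nonneg (e - es (z, a))
      have hS : ((e - es (z, a)) / 2) ^ 2 = (e - es (z, a)) ^ 2 / 4 := by ring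
      have hS2 : 2 * (e + fe ((z, a), e)) * ((e - es (z, a)) / 2) =
          (e + fe ((z, a), e)) * (e - es (z, a)) := by ring
      obtain ⟨hq1, hq2⟩ := hq
      rw [hS, hS2]
      refine ⟨?_, ?_, ?_⟩
      · linarith
      · linarith
      · linarith
    refine ⟨?_, ?_⟩
    · refine mex_meas ?_
      refine ContinuousOn.add ?_ hgr.continuousOn
      unfold phi
      fun_prop
    · exact
        { hder := hkey
          low := fun a u v h1 h2 => (hquad a u v h1 h2).1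
          up := fun a u v h1 h2 => (hquad a u v h1 h2).2.1
          slope := fun a u v h1 h2 => (hquad a u v h1 h2).2.2
          mono := by
            intro u v1 v2 h1 h2 h12
            rw [mex_D1v m g hgr h1, mex_D1v m g hgr h2]
            have n1 := (mex_ball h1).trans_le (hrr.trans hr2)
            have n2 := (mex_ball h2).trans_le (hrr.trans hr2)
            have h3 := (hgd δ2 hδ2 (u, v2) (u, v1) n2 n1 n2.le n1.le).2.1
            rw [pow_zero, mul_one, one_mul] at h3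
            have h4 : ‖((u, v2) : ℝ × ℝ) - (u, v1)‖ = v2 - v1 := by
              rw [Prod.mk_sub_mk, sub_self, Prod.norm_def]
              simp only [norm_zero, Real.norm_eq_abs]
              rw [abs_of_nonneg (by linarith)]
              exact max_eq_right (by linarith)
            rw [h4] at h3
            have h5 := abs_le.1 h3
            simp only
            linarith [h5.1]
          measD := by
            have : (box r).indicator (D1v (psi0 2 m g r)) =
                (box r).indicator (fun x => 2 * (x.2 - x.1 ^ m) + fderiv ℝ g x (0, 1)) := by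
              refine Set.indicator_congr fun x hx => ?_
              exact mex_D1v m g hgr hx
            rw [this]
            refine mex_meas (ContinuousOn.add ?_ hgf)
            fun_prop }

end Pool.Agent.FlatRes
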