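import Pool.Agent.Lib.MP_40a0b6_an.N2Defs
set_option autoImplicit false
open MeasureTheory
open scoped ENNReal FourierTransform SchwartzMap
namespace Pool.Agent.FlatRes

/-- finite Minkowski inequality -/
theorem mink_finset {ι X : Type*} [MeasurableSpace X] (μ : Measure X) (f : ι → X → ℝ≥0∞)
    (hf : ∀ i, Measurable (f i)) (Q : ℝ) (hQ : 1 ≤ Q) (S : Finset ι) :
    (∫⁻ x, (∑ i ∈ S, f i x) ^ Q ∂μ) ^ (1 / Q) ≤ ∑ i ∈ S, (∫⁻ x, (f i x) ^ Q ∂μ) ^ (1 / Q) := by
  classical
  have hQ0 : 0 < Q := by linarith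
  induction S using Finset.induction_on with
  | empty =>
    simp only [Finset.sum_empty]
    rw [ENNReal.zero_rpow_of_pos hQ0, lintegral_zero, ENNReal.zero_rpow_of_pos (by positivity)]
  | insert a s ha ih =>
    rw [Finset.sum_insert ha]
    have h1 := ENNReal.lintegral_Lp_add_le (μ := μ) (p := Q) (f := f a)
      (g := fun x => ∑ i ∈ s, f i x) (hf a).aemeasurable
      (Finset.measurable_sum s fun i _ => hf i).aemeasurable hQ
    have h2 : ∀ x, (∑ i ∈ insert a s, f i x) = (f a + fun x => ∑ i ∈ s, f i x) x := by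
      intro x
      rw [Finset.sum_insert ha]
      rfl
    simp only [h2]
    exact h1.trans (by gcongr)

/-- JOB Mink.  Countable Minkowski inequality (finite sums: `ENNReal.lintegral_Lp_add_le` and induction;
then monotone convergence along finite sets / `ENNReal.tsum_eq_iSup_sum`, `lintegral_iSup` for a
sequence, use an injection of `ι` into `ℕ` or `Countable` enumeration; also fine for `ι` finite/empty). -/
theorem mink_tsum {ι X : Type*} [Countable ι] [MeasurableSpace X] (μ : Measure X) (f : ι → X → ℝ≥0∞)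
    (hf : ∀ i, Measurable (f i)) (Q : ℝ) (hQ : 1 ≤ Q) :
    (∫⁻ x, (∑' i, f i x) ^ Q ∂μ) ^ (1 / Q) ≤ ∑' i, (∫⁻ x, (f i x) ^ Q ∂μ) ^ (1 / Q) := by
  have hQ0 : 0 < Q := by linarith
  set R : ℝ≥0∞ := ∑' i, (∫⁻ x, (f i x) ^ Q ∂μ) ^ (1 / Q) with hR
  have hS : ∀ S : Finset ι, ∫⁻ x, (∑ i ∈ S, f i x) ^ Q ∂μ ≤ R ^ Q := by
    intro S
    have h1 := (mink_finset μ f hf Q hQ S).trans (ENNReal.sum_le_tsum S)
    have h2 := ENNReal.rpow_le_rpow h1 hQ0.le
    rw [← ENNReal.rpow_mul, one_div_mul_cancel hQ0.ne', ENNReal.rpow_one] at h2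
    exact h2
  have hlim : ∀ x, Filter.Tendsto (fun S : Finset ι => (∑ i ∈ S, f i x) ^ Q) Filter.atTop
      (nhds ((∑' i, f i x) ^ Q)) := by
    intro x
    have h1 : Filter.Tendsto (fun S : Finset ι => ∑ i ∈ S, f i x) Filter.atTop
      (nhds (∑' i, f i x)) := ENNReal.summable.hasSum
    exact (ENNReal.continuous_rpow_const.tendsto _).comp h1
  have hfat : ∫⁻ x, (∑' i, f i x) ^ Q ∂μ ≤ R ^ Q := by
    calc ∫⁻ x, (∑' i, f i x) ^ Q ∂μ =
        ∫⁻ x, Filter.liminf (fun S : Finset ι => (∑ i ∈ S, f i x) ^ Q) Filter.atTop ∂μ := by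
          apply lintegral_congr
          intro x
          exact (hlim x).liminf_eq.symm
      _ ≤ Filter.liminf (fun S : Finset ι => ∫⁻ x, (∑ i ∈ S, f i x) ^ Q ∂μ) Filter.atTop :=
          lintegral_liminf_le fun S =>
            (Finset.measurable_sum S fun i _ => hf i).pow_const Q
      _ ≤ R ^ Q := by
          refine Filter.liminf_le_of_le (by isBoundedDefault) ?_
          intro b hb
          obtain ⟨S, hS1⟩ := hb.exists
          exact hS1.trans (hS S)
  have h2 := ENNReal.rpow_le_rpow hfat (by positivity : 0 ≤ 1 / Q)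
  rw [← ENNReal.rpow_mul, mul_one_div_cancel hQ0.ne', ENNReal.rpow_one] at h2
  exact h2

end Pool.Agent.FlatRes
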