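import Pool.Agent.Lib.MP_40a0b6_an.N2Defs
import Pool.Agent.Lib.MP_40a0b6_an.LemA
import Pool.Agent.Lib.MP_40a0b6_an.Limit
set_option autoImplicit false
open MeasureTheory
open scoped ENNReal FourierTransform SchwartzMap
namespace Pool.Agent.FlatRes

theorem pairOne_row (P : Set (ℝ × ℝ)) (W : Set ((ℝ × ℝ) × (ℝ × ℝ))) (hW : MeasurableSet W)
    (hWP : ∀ p ∈ W, p.1 ∈ P) (N : ℝ≥0∞) (hP : MeasurableSet P)
    (hN1 : ∀ x, volume {x' | (x, x') ∈ W} ≤ N) (f : ℝ × ℝ → ℝ≥0∞) (hf : Measurable f) :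
    ∫⁻ p in W, f p.1 ≤ N * ∫⁻ x in P, f x := by
  rw [← lintegral_indicator hW, Measure.volume_eq_prod, lintegral_prod]
  swap
  · exact ((hf.comp measurable_fst).indicator hW).aemeasurable
  rw [← lintegral_const_mul _ hf, ← lintegral_indicator hP]
  apply lintegral_mono
  intro x
  have h1 : ∀ y : ℝ × ℝ, W.indicator (fun p : (ℝ × ℝ) × (ℝ × ℝ) => f p.1) (x, y) =
      {x' | (x, x') ∈ W}.indicator (fun _ => f x) y := by
    intro y
    by_cases hy : (x, y) ∈ W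
    · rw [Set.indicator_of_mem hy, Set.indicator_of_mem]
      exact hy
    · rw [Set.indicator_of_notMem hy, Set.indicator_of_notMem]
      exact hy
  have hm : MeasurableSet {x' | (x, x') ∈ W} := measurable_prodMk_left hW
  show ∫⁻ y, W.indicator (fun p : (ℝ × ℝ) × (ℝ × ℝ) => f p.1) (x, y) ≤ _
  rw [lintegral_congr h1, lintegral_indicator hm, setLIntegral_const]
  by_cases hx : x ∈ P
  · rw [Set.indicator_of_mem hx, mul_comm]
    exact mul_le_mul_left (hN1 x) _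
  · rw [Set.indicator_of_notMem hx]
    have h2 : {x' | (x, x') ∈ W} = ∅ := by
      ext y
      simp only [Set.mem_ofPred_eq, Set.mem_empty_iff_false, iff_false]
      intro hy
      exact hx (hWP _ hy)
    rw [h2]
    simp

theorem pairOne_col (P : Set (ℝ × ℝ)) (W : Set ((ℝ × ℝ) × (ℝ × ℝ))) (hW : MeasurableSet W)
    (hWP : ∀ p ∈ W, p.2 ∈ P) (N : ℝ≥0∞) (hP : MeasurableSet P)
    (hN2 : ∀ x', volume {x | (x, x') ∈ W} ≤ N) (f : ℝ × ℝ → ℝ≥0∞) (hf : Measurable f) :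
    ∫⁻ p in W, f p.2 ≤ N * ∫⁻ x in P, f x := by
  rw [← lintegral_indicator hW, Measure.volume_eq_prod, lintegral_prod_symm]
  swap
  · exact ((hf.comp measurable_snd).indicator hW).aemeasurable
  rw [← lintegral_const_mul _ hf, ← lintegral_indicator hP]
  apply lintegral_mono
  intro x
  have h1 : ∀ y : ℝ × ℝ, W.indicator (fun p : (ℝ × ℝ) × (ℝ × ℝ) => f p.2) (y, x) =
      {x' | (x', x) ∈ W}.indicator (fun _ => f x) y := by
    intro y
    by_cases hy : (y, x) ∈ W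
    · rw [Set.indicator_of_mem hy, Set.indicator_of_mem]
      exact hy
    · rw [Set.indicator_of_notMem hy, Set.indicator_of_notMem]
      exact hy
  have hm : MeasurableSet {x' | (x', x) ∈ W} := measurable_prodMk_right hW
  show ∫⁻ y, W.indicator (fun p : (ℝ × ℝ) × (ℝ × ℝ) => f p.2) (y, x) ≤ _
  rw [lintegral_congr h1, lintegral_indicator hm, setLIntegral_const]
  by_cases hx : x ∈ P
  · rw [Set.indicator_of_mem hx, mul_comm]
    exact mul_le_mul_left (hN2 x) _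
  · rw [Set.indicator_of_notMem hx]
    have h2 : {x' | (x', x) ∈ W} = ∅ := by
      ext y
      simp only [Set.mem_ofPred_eq, Set.mem_empty_iff_false, iff_false]
      intro hy
      exact hx (hWP _ hy)
    rw [h2]
    simp

theorem pairOne_sup (P : Set (ℝ × ℝ)) (W : Set ((ℝ × ℝ) × (ℝ × ℝ))) (hW : MeasurableSet W)
    (hWP : W ⊆ P ×ˢ P) (N : ℝ≥0∞) (hP : MeasurableSet P)
    (hN1 : ∀ x, volume {x' | (x, x') ∈ W} ≤ N) (hN2 : ∀ x', volume {x | (x, x') ∈ W} ≤ N)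
    (Ψ : ℝ × ℝ → ℝ) (h : ℝ × ℝ → ℂ) (hh : Measurable h) (ξ : E3) :
    ‖Bop Ψ W h ξ‖ₑ ≤ N * mass P h := by
  have h0 : ‖Bop Ψ W h ξ‖ₑ ≤ ∫⁻ p in W, ‖h p.1‖ₑ * ‖h p.2‖ₑ := by
    unfold Bop extN
    refine (enorm_integral_le_lintegral_enorm _).trans (le_of_eq ?_)
    apply lintegral_congr
    intro p
    rw [enorm_mul, enorm_mul]
    have : ‖Complex.exp (((2 * Real.pi * inner ℝ ξ (gpt Ψ p.1 + gpt Ψ p.2) : ℝ) : ℂ) *
        Complex.I)‖ₑ = 1 := by
      rw [← ofReal_norm, Complex.norm_exp_ofReal_mul_I]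
      simp
    rw [this, one_mul]
  have hm2 : Measurable (fun x => ‖h x‖ₑ ^ (2 : ℕ)) := hh.enorm.pow_const 2
  have h1 : 2 * ∫⁻ p in W, ‖h p.1‖ₑ * ‖h p.2‖ₑ ≤ 2 * (N * mass P h) := by
    have hmm : Measurable (fun p : (ℝ × ℝ) × (ℝ × ℝ) => ‖h p.1‖ₑ * ‖h p.2‖ₑ) :=
      (hh.comp measurable_fst).enorm.mul (hh.comp measurable_snd).enorm
    rw [← lintegral_const_mul _ hmm]
    calc ∫⁻ p in W, 2 * (‖h p.1‖ₑ * ‖h p.2‖ₑ)
        ≤ ∫⁻ p in W, (‖h p.1‖ₑ ^ (2 : ℕ) + ‖h p.2‖ₑ ^ (2 : ℕ)) := by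
          apply lintegral_mono
          intro p
          exact lemA_young _ _
      _ = (∫⁻ p in W, ‖h p.1‖ₑ ^ (2 : ℕ)) + ∫⁻ p in W, ‖h p.2‖ₑ ^ (2 : ℕ) :=
          lintegral_add_left (hm2.comp measurable_fst) _
      _ ≤ N * mass P h + N * mass P h := by
          gcongr
          · exact pairOne_row P W hW (fun p hp => (hWP hp).1) N hP hN1 _ hm2
          · exact pairOne_col P W hW (fun p hp => (hWP hp).2) N hP hN2 _ hm2
      _ = 2 * (N * mass P h) := by ring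
  refine h0.trans ?_
  exact (ENNReal.mul_le_mul_iff_right (by norm_num) (by norm_num)).mp h1

/-- JOB PairOne.  The bound for one group of pairs.

Proof.  `Bop Ψ W h` is `extN (volume.restrict W) ...` of `f(x,x') = h x · h x'` (bounded measurable; the
measure is finite because `W ⊆ P ×ˢ P`).  `ext_plancherel` with `hD` gives
`∫⁻ ‖Bop‖² ≤ D ∫⁻_W |h x|²|h x'|² ≤ D · mass²` (`lintegral_prod_mul` on `P ×ˢ P`).
Sup bound: `‖Bop ξ‖ ≤ ∫⁻_W |h x||h x'| ≤ ½ ∫⁻_W (|h x|² + |h x'|²) ≤ N · mass` (Tonelli, `hN1`, `hN2`;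
both coordinates of points of `W` lie in `P`).
Hence `∫⁻ ‖Bop‖^{q/2} ≤ (N mass)^{q/2-2} · D · mass²`, and take the power `2/q`:
`D^{2/q} · N^{1-4/q} · mass`.  (If `mass = ⊤` cannot happen: `h` bounded, `P` of finite volume.) -/
theorem pair_one (Ψ : ℝ × ℝ → ℝ) (hΨ : Measurable Ψ) (P : Set (ℝ × ℝ)) (hP : MeasurableSet P)
    (hfin : volume P ≠ ⊤) (W : Set ((ℝ × ℝ) × (ℝ × ℝ))) (hW : MeasurableSet W) (hWP : W ⊆ P ×ˢ P)
    (D N : ℝ≥0∞) (hDf : D ≠ ⊤) (hNf : N ≠ ⊤)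
    (hD : ∀ A : Set E3, MeasurableSet A →
      volume {p : (ℝ × ℝ) × (ℝ × ℝ) | p ∈ W ∧ gpt Ψ p.1 + gpt Ψ p.2 ∈ A} ≤ D * volume A)
    (hN1 : ∀ x, volume {x' | (x, x') ∈ W} ≤ N) (hN2 : ∀ x', volume {x | (x, x') ∈ W} ≤ N)
    (q : ℝ) (hq : 4 < q) (h : ℝ × ℝ → ℂ) (hh : BddMeas h) :
    (∫⁻ ξ, ‖Bop Ψ W h ξ‖ₑ ^ (q / 2)) ^ (2 / q) ≤ D ^ (2 / q) * N ^ (1 - 4 / q) * mass P h := by
  have hWfin : volume W < ⊤ := by
    refine (measure_mono hWP).trans_lt ?_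
    rw [Measure.volume_eq_prod, Measure.prod_prod]
    exact ENNReal.mul_lt_top hfin.lt_top hfin.lt_top
  have hfm : IsFiniteMeasure ((volume : Measure ((ℝ × ℝ) × (ℝ × ℝ))).restrict W) :=
    ⟨by rw [Measure.restrict_apply_univ]; exact hWfin⟩
  have hΦ : Measurable (fun p : (ℝ × ℝ) × (ℝ × ℝ) => gpt Ψ p.1 + gpt Ψ p.2) :=
    ((limit_meas_gpt hΨ).comp measurable_fst).add ((limit_meas_gpt hΨ).comp measurable_snd)
  have hb : BddMeas (fun p : (ℝ × ℝ) × (ℝ × ℝ) => h p.1 * h p.2) := by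
    obtain ⟨hm, M, hM⟩ := hh
    refine ⟨(hm.comp measurable_fst).mul (hm.comp measurable_snd), M * M, fun p => ?_⟩
    rw [norm_mul]
    have a1 := hM p.1
    have a2 := hM p.2
    exact mul_le_mul a1 a2 (norm_nonneg _) ((norm_nonneg _).trans a1)
  set m := mass P h with hmdef
  have hL2 : ∫⁻ ξ, ‖Bop Ψ W h ξ‖ₑ ^ (2 : ℕ) ≤ D * (m * m) := by
    have h1 := ext_plancherel (volume.restrict W)
      (fun p : (ℝ × ℝ) × (ℝ × ℝ) => gpt Ψ p.1 + gpt Ψ p.2) hΦ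
      (fun p => h p.1 * h p.2) hb D hDf (fun A hA => by
        rw [Measure.restrict_apply (hΦ hA)]
        refine le_trans (le_of_eq ?_) (hD A hA)
        congr 1
        ext p
        simp only [Set.mem_inter_iff, Set.mem_preimage, Set.mem_ofPred_eq]
        tauto)
    refine h1.trans ?_
    gcongr
    have h2 : ∫⁻ p in W, ‖h p.1 * h p.2‖ₑ ^ (2 : ℕ) ≤ ∫⁻ p in P ×ˢ P, ‖h p.1 * h p.2‖ₑ ^ (2 : ℕ) :=
      lintegral_mono_set hWP
    refine h2.trans (le_of_eq ?_)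
    rw [Measure.volume_eq_prod, ← Measure.prod_restrict]
    have h3 : ∀ p : (ℝ × ℝ) × (ℝ × ℝ), ‖h p.1 * h p.2‖ₑ ^ (2 : ℕ) =
        ‖h p.1‖ₑ ^ (2 : ℕ) * ‖h p.2‖ₑ ^ (2 : ℕ) := by
      intro p
      rw [enorm_mul, mul_pow]
    rw [lintegral_congr h3]
    exact lintegral_prod_mul (hh.1.enorm.pow_const 2).aemeasurable
      (hh.1.enorm.pow_const 2).aemeasurable
  have hsup : ∀ ξ, ‖Bop Ψ W h ξ‖ₑ ≤ N * m := fun ξ =>
    pairOne_sup P W hW hWP N hP hN1 hN2 Ψ h hh.1 ξ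
  have e1 : 0 ≤ q / 2 - 2 := by linarith
  have hmeas : Measurable (fun ξ => ‖Bop Ψ W h ξ‖ₑ) := by
    have : Continuous (Bop Ψ W h) := by
      obtain ⟨hm, M, hM⟩ := hb
      unfold Bop extN
      refine continuous_of_dominated (bound := fun _ => M) ?_ ?_ (integrable_const M) ?_
      · intro ξ
        apply Measurable.aestronglyMeasurable
        fun_prop
      · intro ξ
        refine Filter.Eventually.of_forall fun x => ?_
        rw [norm_mul, Complex.norm_exp_ofReal_mul_I, one_mul]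
        exact hM x
      · refine Filter.Eventually.of_forall fun x => ?_
        fun_prop
    exact this.measurable.enorm
  have hmain : ∫⁻ ξ, ‖Bop Ψ W h ξ‖ₑ ^ (q / 2) ≤ (N * m) ^ (q / 2 - 2) * (D * (m * m)) := by
    calc ∫⁻ ξ, ‖Bop Ψ W h ξ‖ₑ ^ (q / 2)
        ≤ ∫⁻ ξ, (N * m) ^ (q / 2 - 2) * ‖Bop Ψ W h ξ‖ₑ ^ (2 : ℕ) := by
          apply lintegral_mono
          intro ξ
          have h1 : ‖Bop Ψ W h ξ‖ₑ ^ (q / 2) =
              ‖Bop Ψ W h ξ‖ₑ ^ (q / 2 - 2) * ‖Bop Ψ W h ξ‖ₑ ^ (2 : ℕ) := by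
            rw [← ENNReal.rpow_natCast, ← ENNReal.rpow_add_of_nonneg _ _ e1 (by norm_num)]
            congr 1
            push_cast
            ring
          show ‖Bop Ψ W h ξ‖ₑ ^ (q / 2) ≤ _
          rw [h1]
          exact mul_le_mul_left (ENNReal.rpow_le_rpow (hsup ξ) e1) _
      _ = (N * m) ^ (q / 2 - 2) * ∫⁻ ξ, ‖Bop Ψ W h ξ‖ₑ ^ (2 : ℕ) :=
          lintegral_const_mul _ (hmeas.pow_const 2)
      _ ≤ _ := by gcongr
  have hq0 : (0 : ℝ) ≤ 2 / q := by positivity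
  have hq1 : (0 : ℝ) ≤ 1 - 4 / q := by
    rw [sub_nonneg, div_le_one (by linarith)]
    exact hq.le
  have hqne : q ≠ 0 := by linarith
  calc (∫⁻ ξ, ‖Bop Ψ W h ξ‖ₑ ^ (q / 2)) ^ (2 / q)
      ≤ ((N * m) ^ (q / 2 - 2) * (D * (m * m))) ^ (2 / q) := by gcongr
    _ = D ^ (2 / q) * N ^ (1 - 4 / q) * m := by
        have e3 : (q / 2 - 2) * (2 / q) = 1 - 4 / q := by
          field_simp
          ring
        rw [ENNReal.mul_rpow_of_nonneg _ _ hq0, ← ENNReal.rpow_mul, e3,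
          ENNReal.mul_rpow_of_nonneg _ _ hq1, ENNReal.mul_rpow_of_nonneg _ _ hq0]
        have e4 : (m * m) ^ (2 / q) = m ^ (4 / q) := by
          have : m * m = m ^ (2 : ℝ) := by
            rw [show (2 : ℝ) = ((2 : ℕ) : ℝ) by norm_num, ENNReal.rpow_natCast]
            ring
          rw [this, ← ENNReal.rpow_mul]
          congr 1
          ring
        have e5 : m ^ (1 - 4 / q) * m ^ (4 / q) = m := by
          rw [← ENNReal.rpow_add_of_nonneg _ _ hq1 (by positivity)]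
          have : 1 - 4 / q + 4 / q = 1 := by ring
          rw [this, ENNReal.rpow_one]
        rw [e4]
        calc N ^ (1 - 4 / q) * m ^ (1 - 4 / q) * (D ^ (2 / q) * m ^ (4 / q))
            = D ^ (2 / q) * N ^ (1 - 4 / q) * (m ^ (1 - 4 / q) * m ^ (4 / q)) := by ring
          _ = _ := by rw [e5]

end Pool.Agent.FlatRes
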