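import Pool.Agent.Lib.MP_40a0b6_an.N2Defs
import Pool.Agent.Lib.MP_40a0b6_an.Limit
set_option autoImplicit false
open MeasureTheory
open scoped ENNReal FourierTransform SchwartzMap
namespace Pool.Agent.FlatRes

/-- JOB PairSer.  `(E h)²` as the sum over the groups of pairs.

Proof.  Put `k(x) = exp(2πi⟨ξ,gpt x⟩) h x`, bounded, integrable on `P` (`limit_integrable` in `Limit.lean`).
`(E h)² = ∫_P∫_P k(x)k(x') = ∫_{P×P} k(x)k(x')` (`integral_prod_mul`).  Split `P × P` into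
`{x₁' < x₁}`, `{x₁ < x₁'}`, `{x₁ = x₁'}`; the last set is null (Fubini), the first two integrals are equal
(`Measure.prod_swap`).  `{x₁' < x₁} ∩ P×P` is the disjoint union of the `W i` up to a null set, so its
integral is the sum of the series of the integrals over `W i` (`hasSum_integral_iUnion`), and
`⟨ξ,gpt x⟩ + ⟨ξ,gpt x'⟩ = ⟨ξ, gpt x + gpt x'⟩` identifies them with `Bop Ψ (W i) h ξ`.  Take norms
(`enorm_tsum_le_tsum_enorm` or an equivalent). -/
theorem pair_series {ι : Type*} [Countable ι] (Ψ : ℝ × ℝ → ℝ) (hΨ : Measurable Ψ) (P : Set (ℝ × ℝ))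
    (hP : MeasurableSet P) (hfin : volume P ≠ ⊤) (W : ι → Set ((ℝ × ℝ) × (ℝ × ℝ)))
    (hW : ∀ i, MeasurableSet (W i)) (hWP : ∀ i, W i ⊆ P ×ˢ P) (hWo : ∀ i, ∀ p ∈ W i, p.2.1 < p.1.1)
    (hWd : Pairwise (Function.onFun Disjoint W))
    (hcov : volume ({p : (ℝ × ℝ) × (ℝ × ℝ) | p.1 ∈ P ∧ p.2 ∈ P ∧ p.2.1 < p.1.1} \ ⋃ i, W i) = 0)
    (h : ℝ × ℝ → ℂ) (hh : BddMeas h) (ξ : E3) :
    ‖extOn Ψ P h ξ‖ₑ ^ (2 : ℕ) ≤ 2 * ∑' i, ‖Bop Ψ (W i) h ξ‖ₑ := by
  obtain ⟨hm, B, hB⟩ := hh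
  set e : (ℝ × ℝ) → ℂ := fun x =>
    Complex.exp (((2 * Real.pi * inner ℝ ξ (gpt Ψ x) : ℝ) : ℂ) * Complex.I) * h x with he
  have hek : ∀ x x' : ℝ × ℝ, Complex.exp (((2 * Real.pi * inner ℝ ξ (gpt Ψ x + gpt Ψ x') : ℝ) : ℂ) *
      Complex.I) * (h x * h x') = e x * e x' := by
    intro x x'
    simp only [he]
    rw [inner_add_right]
    have h2 : Complex.exp (((2 * Real.pi * (inner ℝ ξ (gpt Ψ x) + inner ℝ ξ (gpt Ψ x')) : ℝ) : ℂ) *
        Complex.I) = Complex.exp (((2 * Real.pi * inner ℝ ξ (gpt Ψ x) : ℝ) : ℂ) * Complex.I) *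
        Complex.exp (((2 * Real.pi * inner ℝ ξ (gpt Ψ x') : ℝ) : ℂ) * Complex.I) := by
      rw [← Complex.exp_add]
      congr 1
      push_cast
      ring
    rw [h2]
    ring
  set K : (ℝ × ℝ) × (ℝ × ℝ) → ℂ := fun p => e p.1 * e p.2 with hK
  have hem : Measurable e := limit_meas_kernel1 hΨ hm ξ
  have hKm : Measurable K := (hem.comp measurable_fst).mul (hem.comp measurable_snd)
  have hen : ∀ x, ‖e x‖ ≤ B := fun x => (limit_norm_kernel Ψ h ξ x).le.trans (hB x)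
  have hKn : ∀ p, ‖K p‖ ≤ B * B := by
    intro p
    simp only [hK]
    rw [norm_mul]
    exact mul_le_mul (hen _) (hen _) (norm_nonneg _) ((norm_nonneg _).trans (hen p.1))
  have hPP : volume (P ×ˢ P) < ⊤ := by
    rw [Measure.volume_eq_prod, Measure.prod_prod]
    exact ENNReal.mul_lt_top hfin.lt_top hfin.lt_top
  have hKint : IntegrableOn K (P ×ˢ P) volume :=
    IntegrableOn.of_bound hPP hKm.aestronglyMeasurable (B * B)
      (Filter.Eventually.of_forall hKn)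
  have hsq : (extOn Ψ P h ξ) ^ 2 = ∫ p in P ×ˢ P, K p := by
    have h1 : extOn Ψ P h ξ = ∫ x in P, e x := rfl
    rw [h1, sq, ← setIntegral_prod_mul]
    rfl
  set A : Set ((ℝ × ℝ) × (ℝ × ℝ)) := {p | p.1 ∈ P ∧ p.2 ∈ P ∧ p.2.1 < p.1.1} with hA
  set A' : Set ((ℝ × ℝ) × (ℝ × ℝ)) := {p | p.1 ∈ P ∧ p.2 ∈ P ∧ p.1.1 < p.2.1} with hA'
  set C : Set ((ℝ × ℝ) × (ℝ × ℝ)) := {p | p.1 ∈ P ∧ p.2 ∈ P ∧ p.1.1 = p.2.1} with hC
  have m11 : Measurable (fun p : (ℝ × ℝ) × (ℝ × ℝ) => p.1.1) := measurable_fst.comp measurable_fst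
  have m21 : Measurable (fun p : (ℝ × ℝ) × (ℝ × ℝ) => p.2.1) := measurable_fst.comp measurable_snd
  have hAm : MeasurableSet A := by
    have : A = (P ×ˢ P) ∩ {p | p.2.1 < p.1.1} := by
      ext p
      simp only [hA, Set.mem_ofPred_eq, Set.mem_inter_iff, Set.mem_prod]
      tauto
    rw [this]
    exact (hP.prod hP).inter (measurableSet_lt m21 m11)
  have hAm' : MeasurableSet A' := by
    have : A' = (P ×ˢ P) ∩ {p | p.1.1 < p.2.1} := by
      ext p
      simp only [hA', Set.mem_ofPred_eq, Set.mem_inter_iff, Set.mem_prod]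
      tauto
    rw [this]
    exact (hP.prod hP).inter (measurableSet_lt m11 m21)
  have hC0 : volume C = 0 := by
    have hsub : C ⊆ {p | p.1.1 = p.2.1} := by
      intro p hp
      exact hp.2.2
    refine measure_mono_null hsub ?_
    have hms : MeasurableSet {p : (ℝ × ℝ) × (ℝ × ℝ) | p.1.1 = p.2.1} := measurableSet_eq_fun m11 m21
    rw [Measure.volume_eq_prod, Measure.measure_prod_null hms]
    refine Filter.Eventually.of_forall fun x => ?_
    have h1 : (Prod.mk x ⁻¹' {p : (ℝ × ℝ) × (ℝ × ℝ) | p.1.1 = p.2.1}) =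
        ({x.1} : Set ℝ) ×ˢ (Set.univ : Set ℝ) := by
      ext y
      simp only [Set.mem_preimage, Set.mem_ofPred_eq, Set.mem_prod, Set.mem_singleton_iff,
        Set.mem_univ, and_true]
      exact eq_comm
    show volume (Prod.mk x ⁻¹' {p : (ℝ × ℝ) × (ℝ × ℝ) | p.1.1 = p.2.1}) = 0
    rw [h1, Measure.volume_eq_prod, Measure.prod_prod]
    simp
  have hsubA : A ⊆ P ×ˢ P := fun p hp => ⟨hp.1, hp.2.1⟩
  have hsubA' : A' ⊆ P ×ˢ P := fun p hp => ⟨hp.1, hp.2.1⟩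
  have hunion : (P ×ˢ P : Set ((ℝ × ℝ) × (ℝ × ℝ))) =ᵐ[volume] (A ∪ A' : Set _) := by
    have h1 : (P ×ˢ P : Set ((ℝ × ℝ) × (ℝ × ℝ))) = (A ∪ A') ∪ C := by
      ext p
      simp only [hA, hA', hC, Set.mem_union, Set.mem_ofPred_eq, Set.mem_prod]
      rcases lt_trichotomy p.1.1 p.2.1 with h | h | h
      · tauto
      · tauto
      · tauto
    rw [h1]
    exact union_ae_eq_left_of_ae_eq_empty (ae_eq_empty.mpr hC0)
  have hdisj : Disjoint A A' := by
    rw [Set.disjoint_left]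
    intro p hp hp'
    exact absurd hp.2.2 (not_lt.mpr hp'.2.2.le)
  have hsplit : ∫ p in P ×ˢ P, K p = (∫ p in A, K p) + ∫ p in A', K p := by
    rw [setIntegral_congr_set hunion]
    exact setIntegral_union hdisj hAm' (hKint.mono_set hsubA) (hKint.mono_set hsubA')
  have hswap : ∫ p in A', K p = ∫ p in A, K p := by
    have hmp : MeasurePreserving (Prod.swap : (ℝ × ℝ) × (ℝ × ℝ) → (ℝ × ℝ) × (ℝ × ℝ))
        volume volume := by
      rw [Measure.volume_eq_prod]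
      exact Measure.measurePreserving_swap
    have h1 := hmp.setIntegral_preimage_emb (MeasurableEquiv.prodComm.measurableEmbedding) K A
    have h2 : Prod.swap ⁻¹' A = A' := by
      ext p
      simp only [hA, hA', Set.mem_preimage, Set.mem_ofPred_eq, Prod.fst_swap, Prod.snd_swap]
      tauto
    rw [h2] at h1
    rw [← h1]
    apply setIntegral_congr_fun hAm'
    intro p _
    simp only [hK, Prod.fst_swap, Prod.snd_swap]
    ring
  have hUsub : (⋃ i, W i) ⊆ A := by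
    intro p hp
    obtain ⟨i, hi⟩ := Set.mem_iUnion.mp hp
    exact ⟨(hWP i hi).1, (hWP i hi).2, hWo i p hi⟩
  have hAU : (A : Set ((ℝ × ℝ) × (ℝ × ℝ))) =ᵐ[volume] (⋃ i, W i : Set _) := by
    have h1 : (A : Set ((ℝ × ℝ) × (ℝ × ℝ))) = (⋃ i, W i) ∪ (A \ ⋃ i, W i) := by
      rw [Set.union_diff_cancel hUsub]
    rw [h1]
    exact union_ae_eq_left_of_ae_eq_empty (ae_eq_empty.mpr hcov)
  have hser : HasSum (fun i => ∫ p in W i, K p) (∫ p in A, K p) := by
    rw [setIntegral_congr_set hAU]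
    exact hasSum_integral_iUnion hW hWd (hKint.mono_set (hUsub.trans hsubA))
  have hB' : ∀ i, ∫ p in W i, K p = Bop Ψ (W i) h ξ := by
    intro i
    unfold Bop extN
    congr 1
    ext p
    exact (hek p.1 p.2).symm
  have hfinal : ‖∫ p in A, K p‖ₑ ≤ ∑' i, ‖Bop Ψ (W i) h ξ‖ₑ := by
    rw [← hser.tsum_eq]
    refine enorm_tsum_le_tsum_enorm.trans (le_of_eq ?_)
    simp_rw [hB']
  calc ‖extOn Ψ P h ξ‖ₑ ^ (2 : ℕ) = ‖(extOn Ψ P h ξ) ^ 2‖ₑ := by rw [enorm_pow]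
    _ = ‖2 * ∫ p in A, K p‖ₑ := by rw [hsq, hsplit, hswap, two_mul]
    _ = 2 * ‖∫ p in A, K p‖ₑ := by
        rw [enorm_mul]
        congr 1
        rw [← ofReal_norm]
        simp
    _ ≤ _ := by gcongr

end Pool.Agent.FlatRes
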