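import Pool.Agent.Lib.MP_40a0b6_an.N2PairOne
import Pool.Agent.Lib.MP_40a0b6_an.N2PairSer
import Pool.Agent.Lib.MP_40a0b6_an.N2Mink
import Pool.Agent.Lib.MP_40a0b6_an.LemB
set_option autoImplicit false
open MeasureTheory
open scoped ENNReal FourierTransform SchwartzMap
namespace Pool.Agent.FlatRes

/-- JOB PairThm.  Assembly of `pair_one`, `pair_series`, `mink_tsum` (with `Q = q/2 > 2`):
`∫⁻‖E h‖^q = ∫⁻ (‖E h‖²)^{q/2} ≤ ∫⁻ (2 Σ‖B_i‖)^{q/2} ≤ (2 Σ_i (∫⁻‖B_i‖^{q/2})^{2/q})^{q/2}`.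
Measurability of `‖Bop‖ₑ`: `ext_continuous` (`LemB.lean`). -/
theorem pair_thm {ι : Type*} [Countable ι] (Ψ : ℝ × ℝ → ℝ) (hΨ : Measurable Ψ) (P : Set (ℝ × ℝ))
    (hP : MeasurableSet P) (hfin : volume P ≠ ⊤) (W : ι → Set ((ℝ × ℝ) × (ℝ × ℝ)))
    (hW : ∀ i, MeasurableSet (W i)) (hWP : ∀ i, W i ⊆ P ×ˢ P) (hWo : ∀ i, ∀ p ∈ W i, p.2.1 < p.1.1)
    (hWd : Pairwise (Function.onFun Disjoint W))
    (hcov : volume ({p : (ℝ × ℝ) × (ℝ × ℝ) | p.1 ∈ P ∧ p.2 ∈ P ∧ p.2.1 < p.1.1} \ ⋃ i, W i) = 0)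
    (D N : ι → ℝ≥0∞) (hDf : ∀ i, D i ≠ ⊤) (hNf : ∀ i, N i ≠ ⊤)
    (hD : ∀ i, ∀ A : Set E3, MeasurableSet A →
      volume {p : (ℝ × ℝ) × (ℝ × ℝ) | p ∈ W i ∧ gpt Ψ p.1 + gpt Ψ p.2 ∈ A} ≤ D i * volume A)
    (hN1 : ∀ i x, volume {x' | (x, x') ∈ W i} ≤ N i) (hN2 : ∀ i x', volume {x | (x, x') ∈ W i} ≤ N i)
    (q : ℝ) (hq : 4 < q) (h : ℝ × ℝ → ℂ) (hh : BddMeas h) :
    ∫⁻ ξ, ‖extOn Ψ P h ξ‖ₑ ^ q ≤
      (2 * (∑' i, (D i) ^ (2 / q) * (N i) ^ (1 - 4 / q)) * mass P h) ^ (q / 2) := by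
  have hq0 : (0 : ℝ) < q := by linarith
  have hq2 : (0 : ℝ) ≤ q / 2 := by linarith
  have hQ : (1 : ℝ) ≤ q / 2 := by linarith
  have hWfin : ∀ i, volume (W i) < ⊤ := by
    intro i
    refine (measure_mono (hWP i)).trans_lt ?_
    rw [Measure.volume_eq_prod, Measure.prod_prod]
    exact ENNReal.mul_lt_top hfin.lt_top hfin.lt_top
  have hΦ : Measurable (fun p : (ℝ × ℝ) × (ℝ × ℝ) => gpt Ψ p.1 + gpt Ψ p.2) :=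
    ((limit_meas_gpt hΨ).comp measurable_fst).add ((limit_meas_gpt hΨ).comp measurable_snd)
  have hf : ∀ i, Measurable (fun ξ => ‖Bop Ψ (W i) h ξ‖ₑ) := by
    intro i
    have hfm : IsFiniteMeasure ((volume : Measure ((ℝ × ℝ) × (ℝ × ℝ))).restrict (W i)) :=
      ⟨by rw [Measure.restrict_apply_univ]; exact hWfin i⟩
    have h1 : Continuous (Bop Ψ (W i) h) :=
      ext_continuous (volume.restrict (W i)) _ hΦ _ (lemB_bdd hh hh)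
    exact h1.measurable.enorm
  have hmink := mink_tsum (volume : Measure E3) (fun i ξ => ‖Bop Ψ (W i) h ξ‖ₑ) hf (q / 2) hQ
  have hone : ∀ i, (∫⁻ ξ, ‖Bop Ψ (W i) h ξ‖ₑ ^ (q / 2)) ^ (1 / (q / 2)) ≤
      D i ^ (2 / q) * N i ^ (1 - 4 / q) * mass P h := by
    intro i
    have h1 := pair_one Ψ hΨ P hP hfin (W i) (hW i) (hWP i) (D i) (N i) (hDf i) (hNf i) (hD i)
      (hN1 i) (hN2 i) q hq h hh
    have h2 : 1 / (q / 2) = 2 / q := by field_simp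
    rw [h2]
    exact h1
  have hsum : (∫⁻ ξ, (∑' i, ‖Bop Ψ (W i) h ξ‖ₑ) ^ (q / 2)) ^ (1 / (q / 2)) ≤
      (∑' i, D i ^ (2 / q) * N i ^ (1 - 4 / q)) * mass P h := by
    refine hmink.trans ?_
    rw [← ENNReal.tsum_mul_right]
    exact ENNReal.tsum_le_tsum hone
  have hint : ∫⁻ ξ, (∑' i, ‖Bop Ψ (W i) h ξ‖ₑ) ^ (q / 2) ≤
      ((∑' i, D i ^ (2 / q) * N i ^ (1 - 4 / q)) * mass P h) ^ (q / 2) := by
    have h1 := ENNReal.rpow_le_rpow hsum hq2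
    rw [← ENNReal.rpow_mul, one_div, inv_mul_cancel₀ (by linarith : q / 2 ≠ 0),
      ENNReal.rpow_one] at h1
    exact h1
  have hpt : ∀ ξ, ‖extOn Ψ P h ξ‖ₑ ^ q ≤
      2 ^ (q / 2) * (∑' i, ‖Bop Ψ (W i) h ξ‖ₑ) ^ (q / 2) := by
    intro ξ
    have h1 := pair_series Ψ hΨ P hP hfin W hW hWP hWo hWd hcov h hh ξ
    have h2 : ‖extOn Ψ P h ξ‖ₑ ^ q = (‖extOn Ψ P h ξ‖ₑ ^ (2 : ℕ)) ^ (q / 2) := by
      rw [← ENNReal.rpow_natCast, ← ENNReal.rpow_mul]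
      congr 1
      push_cast
      ring
    rw [h2, ← ENNReal.mul_rpow_of_nonneg _ _ hq2]
    exact ENNReal.rpow_le_rpow h1 hq2
  have hS : Measurable (fun ξ => (∑' i, ‖Bop Ψ (W i) h ξ‖ₑ) ^ (q / 2)) :=
    (Measurable.tsum hf).pow_const _
  calc ∫⁻ ξ, ‖extOn Ψ P h ξ‖ₑ ^ q
      ≤ ∫⁻ ξ, 2 ^ (q / 2) * (∑' i, ‖Bop Ψ (W i) h ξ‖ₑ) ^ (q / 2) := lintegral_mono hpt
    _ = 2 ^ (q / 2) * ∫⁻ ξ, (∑' i, ‖Bop Ψ (W i) h ξ‖ₑ) ^ (q / 2) := lintegral_const_mul _ hS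
    _ ≤ 2 ^ (q / 2) * ((∑' i, D i ^ (2 / q) * N i ^ (1 - 4 / q)) * mass P h) ^ (q / 2) := by
        gcongr
    _ = _ := by
        rw [← ENNReal.mul_rpow_of_nonneg _ _ hq2]
        congr 1
        ring

end Pool.Agent.FlatRes
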