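import Pool.Agent.Lib.MP_40a0b6_an.N2ACB
import Pool.Agent.Lib.MP_40a0b6_an.N2ACC
import Pool.Agent.Lib.MP_40a0b6_an.N2Exp
import Pool.Agent.Lib.MP_40a0b6_an.N2Sum
set_option autoImplicit false
open MeasureTheory
open scoped ENNReal FourierTransform SchwartzMap
namespace Pool.Agent.FlatRes

private theorem n2regac_sgb (b : Bool) : IsSign (sgb b) := by
  cases b
  · right; rfl
  · left; rfl

private theorem n2regac_card (S : Finset (ℕ × ℕ × Bool)) (k l : ℕ) :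
    (S.filter (fun i => i.1 = k ∧ i.2.1 = l)).card ≤ 2 := by
  have h : S.filter (fun i => i.1 = k ∧ i.2.1 = l) ⊆
      (Finset.univ : Finset Bool).image (fun b => ((k, l, b) : ℕ × ℕ × Bool)) := by
    rintro ⟨a, b, c⟩ hi
    rw [Finset.mem_filter] at hi
    rw [Finset.mem_image]
    exact ⟨c, Finset.mem_univ _, by rw [← hi.2.1, ← hi.2.2]⟩
  calc _ ≤ _ := Finset.card_le_card h
    _ ≤ _ := Finset.card_image_le
    _ = 2 := by simp

private theorem n2regac_congr {Ω Ω' : Set (ℝ × ℝ)} (h : Ω ⊆ Ω') (h0 : volume (Ω' \ Ω) = 0) :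
    volume.restrict Ω = volume.restrict Ω' := by
  apply Measure.restrict_congr_set
  have h1 : Ω ≤ᵐ[volume] Ω' := Filter.Eventually.of_forall fun x hx => h hx
  have h2 : Ω' ≤ᵐ[volume] Ω := by rw [ae_le_set]; exact h0
  exact h1.antisymm h2

private theorem n2regac_box (r : ℝ) : volume (box r) ≠ ⊤ := by
  unfold box
  rw [Measure.volume_eq_prod, Measure.prod_prod, Real.volume_Ioo]
  exact ENNReal.mul_ne_top ENNReal.ofReal_ne_top ENNReal.ofReal_ne_top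

private theorem n2regac_pow {ϱ e : ℝ} (h0 : 0 < ϱ) (k : ℕ) : (ϱ ^ k) ^ e = (ϱ ^ e) ^ k := by
  rw [← Real.rpow_natCast, ← Real.rpow_mul h0.le, mul_comm, Real.rpow_mul h0.le, Real.rpow_natCast]

/-- JOB RegAC.  The extension estimate on `regAC`, `m ≥ 3`: `sum_pieces` with index `(k,j,b)`, `kk = k`, `ll = j`, `F = 2`, the exponents
`q1, q2` of `exps`, `A = ϱ^{(6m+2)ω}`, `B = (1/2)^{min(3/2-7/q1, 3/2-7/q2)}`, `C = max` of the two constants of `pac_bound`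
(`mass`, `extOn` over `⋃ P_i` and over `regAC` agree, as the difference is null). -/
theorem reg_ac (m : ℕ) (hm : 3 ≤ m) (g : ℝ × ℝ → ℝ) (E : ℝ × (ℝ × ℝ) → ℝ) (vs : ℝ → ℝ × ℝ → ℝ)
    (hG : GoodE m g E vs) (C0 : ℝ) (hC0 : 1 ≤ C0) : ∃ r1 : ℝ, 0 < r1 ∧ ∀ r, 0 < r → r ≤ r1 →
    ∃ T : ℝ≥0∞, T ≠ ⊤ ∧ ∀ h : ℝ × ℝ → ℂ, BddMeas h →
      ∫⁻ ξ, ‖extOn (psi0 2 m g r) (regAC m C0 r) h ξ‖ₑ ^ (pcrit 2 m) ≤
        (T * mass (regAC m C0 r) h) ^ (pcrit 2 m / 2) := by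
  obtain ⟨ϱ, hϱ0, hϱ1, hb⟩ := pac_bound m hm g E vs hG C0 hC0
  obtain ⟨ω, q1, q2, hω, e1, e2, a1, a2, a3, a4, a5, a6, a7, a8, -⟩ := exps m hm
  obtain ⟨C1, hC1, ra, hra, hb1⟩ := hb q1 a1 a2
  obtain ⟨C2, hC2, rb, hrb, hb2⟩ := hb q2 a3 a4
  obtain ⟨rc, hrc, hcov⟩ := pac_cover m hm g E vs hG C0 hC0 ϱ hϱ0 hϱ1
  obtain ⟨rd, hrd, -, hmeas⟩ := hG.1
  have hϱ : 0 < ϱ := by linarith
  have hm0 : (0 : ℝ) < 6 * m + 2 := by positivity
  set e : ℝ := min (3 / 2 - 7 / q1) (3 / 2 - 7 / q2) with he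
  have he0 : 0 < e := lt_min a5 a6
  refine ⟨min (min ra rb) (min rc rd), lt_min (lt_min hra hrb) (lt_min hrc hrd),
    fun r hr0 hr => ?_⟩
  have h1 : r ≤ ra := hr.trans ((min_le_left _ _).trans (min_le_left _ _))
  have h2 : r ≤ rb := hr.trans ((min_le_left _ _).trans (min_le_right _ _))
  have h3 : r ≤ rc := hr.trans ((min_le_right _ _).trans (min_le_left _ _))
  have h4 : r ≤ rd := hr.trans ((min_le_right _ _).trans (min_le_right _ _))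
  obtain ⟨c1, c2, c3, c4⟩ := hcov r hr0 h3
  have hΨ := (hmeas r hr0 h4).1
  have hsub : (⋃ i : ℕ × ℕ × Bool, pAC m E C0 r ϱ i.1 i.2.1 (sgb i.2.2)) ⊆ regAC m C0 r :=
    Set.iUnion_subset fun i x hx => hx.1
  have hfin : volume (⋃ i : ℕ × ℕ × Bool, pAC m E C0 r ϱ i.1 i.2.1 (sgb i.2.2)) ≠ ⊤ :=
    measure_ne_top_of_subset (hsub.trans fun x hx => hx.1) (n2regac_box r)
  have hpow : ∀ (q' : ℝ), e ≤ 3 / 2 - 7 / q' → ∀ j : ℕ,
      ((1 / 2 : ℝ) ^ j) ^ (3 / 2 - 7 / q') ≤ ((1 / 2 : ℝ) ^ e) ^ j := fun q' hq' j => by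
    rw [← n2regac_pow (by norm_num)]
    exact Real.rpow_le_rpow_of_exponent_ge (by positivity) (pow_le_one₀ (by norm_num) (by norm_num))
      hq'
  have hpc : (2 : ℝ) ≤ pcrit 2 m := by
    unfold pcrit
    split_ifs with h
    · have : (0 : ℝ) ≤ 2 * (((2 : ℕ) : ℝ) * m / (m + 1)) := by positivity
      linarith
    · norm_num
  obtain ⟨T, hT, hmain⟩ := sum_pieces (psi0 2 m g r) hΨ
    (fun i : ℕ × ℕ × Bool => pAC m E C0 r ϱ i.1 i.2.1 (sgb i.2.2)) (fun i => c1 _ _ _) c2 hfin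
    (fun i => i.1) (fun i => i.2.1) 2 n2regac_card (max C1 C2) (ϱ ^ ((6 * m + 2) * ω))
    ((1 / 2 : ℝ) ^ e) (lt_max_of_lt_left hC1) (Real.rpow_pos_of_pos hϱ _)
    (Real.rpow_lt_one hϱ.le hϱ1 (by positivity)) (Real.rpow_pos_of_pos (by norm_num) _)
    (Real.rpow_lt_one (by norm_num) (by norm_num) he0) (pcrit 2 m) q1 q2 hpc (by linarith)
    (by linarith) (by rw [e1, e2]; ring)
    (fun i h hh => by
      refine (hb1 r hr0 h1 i.1 i.2.1 (sgb i.2.2) (n2regac_sgb _) h hh).trans ?_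
      refine ENNReal.rpow_le_rpow ?_ (by linarith)
      refine mul_le_mul_left (ENNReal.ofReal_le_ofReal ?_) _
      rw [a7]
      have h5 : (ϱ ^ i.1) ^ (-((6 * (m : ℝ) + 2) * ω)) = ((ϱ ^ ((6 * (m : ℝ) + 2) * ω))⁻¹) ^ i.1 := by
        rw [n2regac_pow hϱ, Real.rpow_neg hϱ.le]
      rw [h5]
      have h6 := hpow q1 (min_le_left _ _) i.2.1
      have h7 : 0 ≤ ((ϱ ^ ((6 * (m : ℝ) + 2) * ω))⁻¹) ^ i.1 := by positivity
      have h8 : C1 ≤ max C1 C2 := le_max_left _ _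
      gcongr)
    (fun i h hh => by
      refine (hb2 r hr0 h2 i.1 i.2.1 (sgb i.2.2) (n2regac_sgb _) h hh).trans ?_
      refine ENNReal.rpow_le_rpow ?_ (by linarith)
      refine mul_le_mul_left (ENNReal.ofReal_le_ofReal ?_) _
      rw [a8]
      have h5 : (ϱ ^ i.1) ^ ((6 * (m : ℝ) + 2) * ω) = (ϱ ^ ((6 * (m : ℝ) + 2) * ω)) ^ i.1 :=
        n2regac_pow hϱ _
      rw [h5]
      have h6 := hpow q2 (min_le_right _ _) i.2.1
      have h7 : 0 ≤ (ϱ ^ ((6 * (m : ℝ) + 2) * ω)) ^ i.1 := by positivity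
      have h8 : C2 ≤ max C1 C2 := le_max_right _ _
      gcongr)
  refine ⟨T, hT, fun h hh => ?_⟩
  have h5 := hmain h hh
  have h6 := n2regac_congr hsub c4
  unfold extOn mass at h5 ⊢
  rw [h6] at h5
  exact h5

end Pool.Agent.FlatRes
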