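import Pool.Agent.Lib.MP_40a0b6_an.N2Defs
set_option autoImplicit false
open MeasureTheory
open scoped ENNReal FourierTransform SchwartzMap
namespace Pool.Agent.FlatRes

theorem row_summable (a : ℝ) (ha0 : 0 < a) (ha1 : a < 1) :
    Summable (fun z : ℤ => a ^ z.natAbs) := by
  rw [summable_int_iff_summable_nat_and_neg]
  simp only [Int.natAbs_natCast, Int.natAbs_neg]
  exact ⟨summable_geometric_of_lt_one ha0.le ha1, summable_geometric_of_lt_one ha0.le ha1⟩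

theorem row_aux {C A B : ℝ} (hC : 0 < C) (hA0 : 0 < A) (hB0 : 0 < B) (hB1 : B < 1) (k d l l' : ℕ) :
    Real.sqrt ((C * (A⁻¹) ^ k * B ^ l) * (C * A ^ (k + d) * B ^ l')) ≤
      C * (Real.sqrt A ^ d * Real.sqrt B ^ l') := by
  rw [Real.sqrt_le_iff]
  refine ⟨by positivity, ?_⟩
  have h1 : (Real.sqrt A ^ d) ^ 2 = A ^ d := by
    rw [← pow_mul, mul_comm, pow_mul, Real.sq_sqrt hA0.le]
  have h2 : (Real.sqrt B ^ l') ^ 2 = B ^ l' := by
    rw [← pow_mul, mul_comm, pow_mul, Real.sq_sqrt hB0.le]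
  have h3 : (C * (Real.sqrt A ^ d * Real.sqrt B ^ l')) ^ 2 = C ^ 2 * A ^ d * B ^ l' := by
    rw [mul_pow, mul_pow, h1, h2]
    ring
  have h4 : (C * (A⁻¹) ^ k * B ^ l) * (C * A ^ (k + d) * B ^ l') =
      (C ^ 2 * A ^ d * B ^ l') * B ^ l := by
    rw [pow_add, inv_pow]
    field_simp
  rw [h3, h4]
  have h5 : B ^ l ≤ 1 := pow_le_one₀ hB0.le hB1.le
  have h6 : 0 ≤ C ^ 2 * A ^ d * B ^ l' := by positivity
  nlinarith

/-- JOB Row.  Row sums.  `card` of the fibres of `(kk,ll)` on any finite set is `≤ F`.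

Proof.  `min(√(T₁ᵢT₂ⱼ), √(T₂ᵢT₁ⱼ)) ≤ C A^{|kᵢ-kⱼ|/2} B^{(lᵢ+lⱼ)/2} ≤ C a^{|kᵢ-kⱼ|} b^{lⱼ}`, `a = √A`, `b = √B`; group by
`(k,l)`: `Σ_j ≤ F C Σ_{k,l} a^{|kᵢ-k|} b^l ≤ F C · 2/(1-a) · 1/(1-b)`.
(`T₁ᵢ = C A^{-kᵢ} B^{lᵢ}`, `T₂ᵢ = C A^{kᵢ} B^{lᵢ}`.) -/
theorem row_sum {ι : Type*} [DecidableEq ι] (kk ll : ι → ℕ) (F : ℕ)
    (hF : ∀ (S : Finset ι) (k l : ℕ), (S.filter (fun i => kk i = k ∧ ll i = l)).card ≤ F)
    (C A B : ℝ) (hC : 0 < C) (hA0 : 0 < A) (hA1 : A < 1) (hB0 : 0 < B) (hB1 : B < 1) :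
    ∃ R : ℝ, 0 < R ∧ ∀ (i : ι) (S : Finset ι), ∑ j ∈ S,
      min (Real.sqrt ((C * (A⁻¹) ^ (kk i) * B ^ (ll i)) * (C * A ^ (kk j) * B ^ (ll j))))
        (Real.sqrt ((C * A ^ (kk i) * B ^ (ll i)) * (C * (A⁻¹) ^ (kk j) * B ^ (ll j)))) ≤ R := by
  set a : ℝ := Real.sqrt A with ha
  set b : ℝ := Real.sqrt B with hb
  have ha0 : 0 < a := Real.sqrt_pos.2 hA0
  have hb0 : 0 < b := Real.sqrt_pos.2 hB0
  have ha1 : a < 1 := by
    rw [ha, Real.sqrt_lt' one_pos]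
    simpa using hA1
  have hb1 : b < 1 := by
    rw [hb, Real.sqrt_lt' one_pos]
    simpa using hB1
  set H : ℤ × ℕ → ℝ := fun p => a ^ p.1.natAbs * b ^ p.2 with hH
  have hHs : Summable H := (row_summable a ha0 ha1).mul_of_nonneg
    (summable_geometric_of_lt_one hb0.le hb1) (fun z => by positivity) (fun l => by positivity)
  have hH0 : ∀ p, 0 ≤ H p := fun p => by positivity
  set T : ℝ := ∑' p, H p with hT
  have hT0 : 0 ≤ T := tsum_nonneg hH0
  refine ⟨C * (F * T) + 1, by positivity, ?_⟩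
  intro i S
  have key : ∀ j ∈ S,
      min (Real.sqrt ((C * (A⁻¹) ^ (kk i) * B ^ (ll i)) * (C * A ^ (kk j) * B ^ (ll j))))
        (Real.sqrt ((C * A ^ (kk i) * B ^ (ll i)) * (C * (A⁻¹) ^ (kk j) * B ^ (ll j)))) ≤
      C * H ((kk j : ℤ) - kk i, ll j) := by
    intro j _
    rcases le_total (kk i) (kk j) with h | h
    · obtain ⟨d, hd⟩ := Nat.exists_eq_add_of_le h
      refine (min_le_left _ _).trans ?_
      rw [hd]
      refine (row_aux hC hA0 hB0 hB1 (kk i) d (ll i) (ll j)).trans (le_of_eq ?_)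
      simp only [hH]
      congr 3
      omega
    · obtain ⟨d, hd⟩ := Nat.exists_eq_add_of_le h
      refine (min_le_right _ _).trans ?_
      rw [hd]
      have h1 := row_aux hC hA0 hB0 hB1 (kk j) d 0 (ll j)
      have h2 : (C * A ^ (kk j + d) * B ^ (ll i)) * (C * (A⁻¹) ^ (kk j) * B ^ (ll j)) ≤
          (C * (A⁻¹) ^ (kk j) * B ^ 0) * (C * A ^ (kk j + d) * B ^ (ll j)) := by
        have h5 : B ^ (ll i) ≤ 1 := pow_le_one₀ hB0.le hB1.le
        have h6 : 0 ≤ (C * (A⁻¹) ^ (kk j)) * (C * A ^ (kk j + d) * B ^ (ll j)) := by positivity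
        calc (C * A ^ (kk j + d) * B ^ (ll i)) * (C * (A⁻¹) ^ (kk j) * B ^ (ll j)) =
            ((C * (A⁻¹) ^ (kk j)) * (C * A ^ (kk j + d) * B ^ (ll j))) * B ^ (ll i) := by ring
          _ ≤ ((C * (A⁻¹) ^ (kk j)) * (C * A ^ (kk j + d) * B ^ (ll j))) * 1 :=
            mul_le_mul_of_nonneg_left h5 h6
          _ = _ := by ring
      refine (Real.sqrt_le_sqrt h2).trans (h1.trans (le_of_eq ?_))
      simp only [hH]
      congr 3
      omega
  refine (Finset.sum_le_sum key).trans ?_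
  rw [← Finset.mul_sum]
  have h1 : ∑ j ∈ S, H ((kk j : ℤ) - kk i, ll j) ≤ F * T := by
    rw [Finset.sum_comp H (fun j => (((kk j : ℤ) - kk i, ll j) : ℤ × ℕ))]
    calc ∑ p ∈ S.image (fun j => (((kk j : ℤ) - kk i, ll j) : ℤ × ℕ)),
          (S.filter (fun j => (((kk j : ℤ) - kk i, ll j) : ℤ × ℕ) = p)).card • H p
        ≤ ∑ p ∈ S.image (fun j => (((kk j : ℤ) - kk i, ll j) : ℤ × ℕ)), (F : ℝ) * H p := by
          apply Finset.sum_le_sum
          intro p hp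
          obtain ⟨j0, -, rfl⟩ := Finset.mem_image.1 hp
          rw [nsmul_eq_mul]
          apply mul_le_mul_of_nonneg_right _ (hH0 _)
          have h2 := hF S (kk j0) (ll j0)
          have h3 : (S.filter (fun j => (((kk j : ℤ) - kk i, ll j) : ℤ × ℕ) =
              ((kk j0 : ℤ) - kk i, ll j0))) = S.filter (fun j => kk j = kk j0 ∧ ll j = ll j0) := by
            ext j
            simp only [Finset.mem_filter, Prod.mk.injEq]
            constructor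
            · rintro ⟨q1, q2, q3⟩
              exact ⟨q1, by omega, q3⟩
            · rintro ⟨q1, q2, q3⟩
              exact ⟨q1, by omega, q3⟩
          rw [h3]
          exact_mod_cast h2
      _ = F * ∑ p ∈ S.image (fun j => (((kk j : ℤ) - kk i, ll j) : ℤ × ℕ)), H p := by
          rw [Finset.mul_sum]
      _ ≤ F * T := mul_le_mul_of_nonneg_left (hHs.sum_le_tsum _ (fun p _ => hH0 p))
          (Nat.cast_nonneg _)
  have h2 := mul_le_mul_of_nonneg_left h1 hC.le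
  linarith

end Pool.Agent.FlatRes
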