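import Pool.Agent.Lib.MP_40a0b6_an.N2Defs
set_option autoImplicit false
open MeasureTheory
open scoped ENNReal FourierTransform SchwartzMap
namespace Pool.Agent.FlatRes

private theorem n2Slice_up (f f' : ℝ → ℝ) (S : Set ℝ) (hS : S.OrdConnected)
    (hder : ∀ v ∈ S, HasDerivAt f (f' v) v) (c : ℝ) (hc : 0 < c) (hf' : ∀ v ∈ S, c ≤ f' v)
    (β β' : ℝ) :
    volume {v | v ∈ S ∧ f v ∈ Set.Ioc β β'} ≤ ENNReal.ofReal ((β' - β) / c) := by
  have key : ∀ v1 ∈ {v | v ∈ S ∧ f v ∈ Set.Ioc β β'}, ∀ v2 ∈ {v | v ∈ S ∧ f v ∈ Set.Ioc β β'},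
      v1 < v2 → v2 - v1 ≤ (β' - β) / c := by
    rintro v1 ⟨h1, h1a, h1b⟩ v2 ⟨h2, h2a, h2b⟩ h12
    have hsub : Set.Icc v1 v2 ⊆ S := hS.out h1 h2
    obtain ⟨x, hx, he⟩ := exists_hasDerivAt_eq_slope f f' h12
      (fun y hy => (hder y (hsub hy)).continuousAt.continuousWithinAt)
      (fun y hy => hder y (hsub (Set.Ioo_subset_Icc_self hy)))
    have h3 := hf' x (hsub (Set.Ioo_subset_Icc_self hx))
    rw [he, le_div_iff₀ (by linarith)] at h3
    rw [le_div_iff₀ hc]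
    nlinarith
  refine (Real.volume_le_diam _).trans ?_
  apply Metric.ediam_le
  intro x hx y hy
  rw [edist_dist, Real.dist_eq]
  apply ENNReal.ofReal_le_ofReal
  rcases lt_trichotomy x y with h | h | h
  · rw [abs_of_neg (by linarith)]
    have := key x hx y hy h
    linarith
  · rw [h, sub_self, abs_zero]
    have : 0 ≤ β' - β := by
      have h1 := hx.2.1
      have h2 := hx.2.2
      linarith
    positivity
  · rw [abs_of_pos (by linarith)]
    exact key y hy x hx h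

private theorem n2Slice_down (f f' : ℝ → ℝ) (S : Set ℝ) (hS : S.OrdConnected)
    (hder : ∀ v ∈ S, HasDerivAt f (f' v) v) (c : ℝ) (hc : 0 < c) (hf' : ∀ v ∈ S, f' v ≤ -c)
    (β β' : ℝ) :
    volume {v | v ∈ S ∧ f v ∈ Set.Ioc β β'} ≤ ENNReal.ofReal ((β' - β) / c) := by
  have key : ∀ v1 ∈ {v | v ∈ S ∧ f v ∈ Set.Ioc β β'}, ∀ v2 ∈ {v | v ∈ S ∧ f v ∈ Set.Ioc β β'},
      v1 < v2 → v2 - v1 ≤ (β' - β) / c := by
    rintro v1 ⟨h1, h1a, h1b⟩ v2 ⟨h2, h2a, h2b⟩ h12
    have hsub : Set.Icc v1 v2 ⊆ S := hS.out h1 h2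
    obtain ⟨x, hx, he⟩ := exists_hasDerivAt_eq_slope f f' h12
      (fun y hy => (hder y (hsub hy)).continuousAt.continuousWithinAt)
      (fun y hy => hder y (hsub (Set.Ioo_subset_Icc_self hy)))
    have h3 := hf' x (hsub (Set.Ioo_subset_Icc_self hx))
    rw [he, div_le_iff₀ (by linarith)] at h3
    rw [le_div_iff₀ hc]
    nlinarith
  refine (Real.volume_le_diam _).trans ?_
  apply Metric.ediam_le
  intro x hx y hy
  rw [edist_dist, Real.dist_eq]
  apply ENNReal.ofReal_le_ofReal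
  rcases lt_trichotomy x y with h | h | h
  · rw [abs_of_neg (by linarith)]
    have := key x hx y hy h
    linarith
  · rw [h, sub_self, abs_zero]
    have : 0 ≤ β' - β := by
      have h1 := hx.2.1
      have h2 := hx.2.2
      linarith
    positivity
  · rw [abs_of_pos (by linarith)]
    exact key y hy x hx h

/-- JOB Slice (2 statements).  One-dimensional shells of a convex-like function.

Proof.  Put `τ = β'-β`.  If `β' ≤ m`: on the set `f v = m`, so `v = e0`: measure `0` (and the right side is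
`ofReal 0` since `√(β'-m) = 0`).  Let `m < β'`.  Case `2(β-m) < β'-m`: then `τ ≥ (β'-m)/2` and
`(v-e0)² ≤ f v - m ≤ β'-m`, so the measure is `≤ 2√(β'-m) ≤ 4τ/√(β'-m)`.  Case `2(β-m) ≥ β'-m`: on the set
`4(v-e0)² ≥ f v - m > β - m ≥ (β'-m)/2`, so `|v-e0| ≥ ρ := √((β'-m)/8)`.  On `J ∩ {v ≥ e0+ρ}` the derivative is
`≥ 2(v-e0) ≥ 2ρ`, so `f v₂ - f v₁ ≥ 2ρ(v₂-v₁)` (mean value) and the set has diameter `≤ τ/(2ρ)`; same on the
left.  Total `≤ τ/ρ = √8 τ/√(β'-m) ≤ 4τ/√(β'-m)`. -/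
theorem slice_shell (f f' : ℝ → ℝ) (J : Set ℝ) (hJ : J.OrdConnected) (m e0 : ℝ)
    (hder : ∀ v ∈ J, HasDerivAt f (f' v) v) (hlow : ∀ v ∈ J, (v - e0) ^ 2 ≤ f v - m)
    (hup : ∀ v ∈ J, f v - m ≤ 4 * (v - e0) ^ 2)
    (hslope : ∀ v ∈ J, 2 * (v - e0) ^ 2 ≤ f' v * (v - e0)) (β β' : ℝ) (hβ : β < β') :
    volume {v | v ∈ J ∧ f v ∈ Set.Ioc β β'} ≤
      ENNReal.ofReal (4 * (β' - β) / Real.sqrt (β' - m)) := by
  by_cases hm : β' ≤ m
  · have hsub : {v | v ∈ J ∧ f v ∈ Set.Ioc β β'} ⊆ {e0} := by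
      rintro v ⟨hv, -, hv2⟩
      have h1 := hlow v hv
      have h2 : (v - e0) ^ 2 ≤ 0 := by linarith
      have h3 : v - e0 = 0 := by
        apply pow_eq_zero_iff (two_ne_zero) |>.mp
        exact le_antisymm h2 (sq_nonneg _)
      rw [Set.mem_singleton_iff]
      linarith
    calc volume {v | v ∈ J ∧ f v ∈ Set.Ioc β β'} ≤ volume ({e0} : Set ℝ) := measure_mono hsub
      _ = 0 := Real.volume_singleton
      _ ≤ _ := zero_le
  · push Not at hm
    obtain ⟨R, hR⟩ : ∃ R, R = Real.sqrt (β' - m) := ⟨_, rfl⟩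
    have hR0 : 0 < R := by rw [hR]; exact Real.sqrt_pos.mpr (by linarith)
    have hR2 : R ^ 2 = β' - m := by rw [hR]; exact Real.sq_sqrt (by linarith)
    rw [← hR]
    by_cases hc : 2 * (β - m) < β' - m
    · have hsub : {v | v ∈ J ∧ f v ∈ Set.Ioc β β'} ⊆ Set.Icc (e0 - R) (e0 + R) := by
        rintro v ⟨hv, -, hv2⟩
        have h1 := hlow v hv
        have h2 : (v - e0) ^ 2 ≤ R ^ 2 := by linarith
        have h3 := abs_le_of_sq_le_sq' h2 hR0.le
        constructor <;> linarith [h3.1, h3.2]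
      refine (measure_mono hsub).trans ?_
      rw [Real.volume_Icc]
      apply ENNReal.ofReal_le_ofReal
      rw [le_div_iff₀ hR0]
      nlinarith
    · push Not at hc
      have hbig : ∀ v ∈ J, f v ∈ Set.Ioc β β' → R / 4 ≤ |v - e0| := by
        rintro v hv ⟨hv1, -⟩
        have h1 := hup v hv
        have h2 : R ^ 2 / 8 ≤ (v - e0) ^ 2 := by linarith
        apply abs_le_of_sq_le_sq' _ (abs_nonneg _) |>.2
        rw [sq_abs]
        nlinarith
      have hsub : {v | v ∈ J ∧ f v ∈ Set.Ioc β β'} ⊆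
          {v | v ∈ J ∩ Set.Ici (e0 + R / 4) ∧ f v ∈ Set.Ioc β β'} ∪
          {v | v ∈ J ∩ Set.Iic (e0 - R / 4) ∧ f v ∈ Set.Ioc β β'} := by
        rintro v ⟨hv, hv2⟩
        rcases le_abs.mp (hbig v hv hv2) with h | h
        · left
          exact ⟨⟨hv, by rw [Set.mem_Ici]; linarith⟩, hv2⟩
        · right
          exact ⟨⟨hv, by rw [Set.mem_Iic]; linarith⟩, hv2⟩
      have e1 := n2Slice_up f f' (J ∩ Set.Ici (e0 + R / 4)) (hJ.inter Set.ordConnected_Ici)
        (fun v hv => hder v hv.1) (R / 2) (by positivity) (by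
          rintro v ⟨hv, hv2⟩
          rw [Set.mem_Ici] at hv2
          have h1 := hslope v hv
          have h2 : 0 < v - e0 := by linarith
          have h3 : 2 * (v - e0) ≤ f' v := by
            by_contra hcon
            push Not at hcon
            nlinarith
          linarith) β β'
      have e2 := n2Slice_down f f' (J ∩ Set.Iic (e0 - R / 4)) (hJ.inter Set.ordConnected_Iic)
        (fun v hv => hder v hv.1) (R / 2) (by positivity) (by
          rintro v ⟨hv, hv2⟩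
          rw [Set.mem_Iic] at hv2
          have h1 := hslope v hv
          have h2 : v - e0 < 0 := by linarith
          have h3 : f' v ≤ 2 * (v - e0) := by
            by_contra hcon
            push Not at hcon
            nlinarith
          linarith) β β'
      refine (measure_mono hsub).trans ((measure_union_le _ _).trans ((add_le_add e1 e2).trans ?_))
      rw [← ENNReal.ofReal_add (by have := sub_pos.mpr hβ; positivity)
        (by have := sub_pos.mpr hβ; positivity)]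
      apply ENNReal.ofReal_le_ofReal
      apply le_of_eq
      field_simp
      ring

/-- `{f' > w}` is an up-set of `J` (`f'` monotone), there `f` has slope `≥ w`: diameter `≤ τ/w`; same for
`{f' < -w}`. -/
theorem slice_shell_w (f f' : ℝ → ℝ) (J : Set ℝ) (hJ : J.OrdConnected)
    (hder : ∀ v ∈ J, HasDerivAt f (f' v) v) (hmono : ∀ v1 ∈ J, ∀ v2 ∈ J, v1 ≤ v2 → f' v1 ≤ f' v2)
    (w : ℝ) (hw : 0 < w) (β β' : ℝ) (hβ : β < β') :
    volume {v | v ∈ J ∧ w < |f' v| ∧ f v ∈ Set.Ioc β β'} ≤ ENNReal.ofReal (2 * (β' - β) / w) := by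
  have hsub : {v | v ∈ J ∧ w < |f' v| ∧ f v ∈ Set.Ioc β β'} ⊆
      {v | v ∈ {v | v ∈ J ∧ w < f' v} ∧ f v ∈ Set.Ioc β β'} ∪
      {v | v ∈ {v | v ∈ J ∧ f' v < -w} ∧ f v ∈ Set.Ioc β β'} := by
    rintro v ⟨hv, hv1, hv2⟩
    rcases lt_abs.mp hv1 with h | h
    · left
      exact ⟨⟨hv, h⟩, hv2⟩
    · right
      exact ⟨⟨hv, by linarith⟩, hv2⟩
  have e1 := n2Slice_up f f' {v | v ∈ J ∧ w < f' v}
    ⟨fun x hx y hy z hz => ⟨hJ.out hx.1 hy.1 hz,
      lt_of_lt_of_le hx.2 (hmono x hx.1 z (hJ.out hx.1 hy.1 hz) hz.1)⟩⟩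
    (fun v hv => hder v hv.1) w hw (fun v hv => hv.2.le) β β'
  have e2 := n2Slice_down f f' {v | v ∈ J ∧ f' v < -w}
    ⟨fun x hx y hy z hz => ⟨hJ.out hx.1 hy.1 hz,
      lt_of_le_of_lt (hmono z (hJ.out hx.1 hy.1 hz) y hy.1 hz.2) hy.2⟩⟩
    (fun v hv => hder v hv.1) w hw (fun v hv => hv.2.le) β β'
  refine (measure_mono hsub).trans ((measure_union_le _ _).trans ((add_le_add e1 e2).trans ?_))
  rw [← ENNReal.ofReal_add (by have := sub_pos.mpr hβ; positivity)
    (by have := sub_pos.mpr hβ; positivity)]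
  apply ENNReal.ofReal_le_ofReal
  apply le_of_eq
  ring

end Pool.Agent.FlatRes
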