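import Pool.Agent.Lib.MP_40a0b6_an.SixOut
import Pool.Agent.Lib.MP_40a0b6_an.BuildC
set_option autoImplicit false
open MeasureTheory
open scoped ENNReal FourierTransform SchwartzMap
namespace Pool.Agent.FlatRes

theorem outGeo_gpt_meas (Ψ : ℝ × ℝ → ℝ) (hΨ : Measurable Ψ) : Measurable (gpt Ψ) := by
  unfold gpt
  refine (MeasurableEquiv.toLp 2 (Fin 3 → ℝ)).measurable.comp ?_
  refine measurable_pi_iff.2 fun i => ?_
  fin_cases i
  · exact measurable_fst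
  · exact measurable_snd
  · exact hΨ

/-- the extension operator gives measurable functions -/
theorem outGeo_ext_meas (Ψ : ℝ × ℝ → ℝ) (hΨ : Measurable Ψ) (Ω : Set (ℝ × ℝ)) (h : ℝ × ℝ → ℂ)
    (hh : Measurable h) : Measurable (extOn Ψ Ω h) := by
  unfold extOn extN
  have h1 : Measurable (fun p : E3 × (ℝ × ℝ) =>
      Complex.exp (((2 * Real.pi * inner ℝ p.1 (gpt Ψ p.2) : ℝ) : ℂ) * Complex.I) * h p.2) := by
    have h2 : Measurable (fun p : E3 × (ℝ × ℝ) => inner ℝ p.1 (gpt Ψ p.2)) :=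
      Measurable.inner measurable_fst ((outGeo_gpt_meas Ψ hΨ).comp measurable_snd)
    have h3 : Measurable (fun p : E3 × (ℝ × ℝ) =>
        Complex.exp (((2 * Real.pi * inner ℝ p.1 (gpt Ψ p.2) : ℝ) : ℂ) * Complex.I)) :=
      ((Complex.measurable_ofReal.comp (h2.const_mul (2 * Real.pi))).mul_const Complex.I).cexp
    exact h3.mul (hh.comp measurable_snd)
  exact (h1.stronglyMeasurable.integral_prod_right (ν := volume.restrict Ω)).measurable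

theorem outGeo_two_rpow (x : ℝ) : (2 : ℝ≥0∞) ^ x = ENNReal.ofReal ((2 : ℝ) ^ x) := by
  rw [← ENNReal.ofReal_rpow_of_pos (by norm_num)]
  norm_num

theorem outGeo_mass_fin (Ω : Set (ℝ × ℝ)) (h : ℝ × ℝ → ℂ) (hh : BddMeas h)
    (hfin : volume Ω ≠ ⊤) : mass Ω h ≠ ⊤ := by
  obtain ⟨M, hM⟩ := hh.2
  unfold mass
  have h1 : ∫⁻ x in Ω, ‖h x‖ₑ ^ (2 : ℕ) ≤ ∫⁻ x in Ω, ENNReal.ofReal M ^ (2 : ℕ) := by
    refine lintegral_mono fun x => ?_
    have : ‖h x‖ₑ ≤ ENNReal.ofReal M := by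
      rw [← ofReal_norm]
      exact ENNReal.ofReal_le_ofReal (hM x)
    exact pow_le_pow_left' this 2
  rw [setLIntegral_const] at h1
  exact ne_top_of_le_ne_top (ENNReal.mul_ne_top (ENNReal.pow_ne_top ENNReal.ofReal_ne_top) hfin) h1

/-- JOB U2.  The outer family satisfies the hypotheses of `outer_sum`. -/
theorem outer_of_geo (n m : ℕ) (hn : 3 ≤ n) (hm : 2 ≤ m) (Ψ : ℝ × ℝ → ℝ) (γ : ℝ → ℝ)
    (a c κ s e : ℝ) (G : Geo n m Ψ γ a c κ s e) :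
    ∃ C0 : ℝ≥0∞, C0 ≠ ⊤ ∧ ∀ h : ℝ × ℝ → ℂ, BddMeas h →
      (∀ t, Measurable (extOn Ψ (outP m Ψ γ a t) h)) ∧ (∀ t, mass (outP m Ψ γ a t) h ≠ ⊤) ∧
      (∀ t ξ, ‖extOn Ψ (outP m Ψ γ a t) h ξ‖ₑ ^ (2 : ℕ) ≤
        C0 * (2 : ℝ≥0∞) ^ (-(t : ℝ) * (1 + 1 / m)) * mass (outP m Ψ γ a t) h) ∧
      (∀ t, ∫⁻ ξ, ‖extOn Ψ (outP m Ψ γ a t) h ξ‖ₑ ^ (6 : ℕ) ≤
        C0 * (2 : ℝ≥0∞) ^ (((n : ℝ) - 2) * t - 2 * t / m) * (mass (outP m Ψ γ a t) h) ^ (3 : ℕ)) := by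
  have hc := G.hc
  have hmR : (0 : ℝ) < m := by
    have : 0 < m := by omega
    exact_mod_cast this
  set A : ℝ := 32 * ((4 ^ n : ℕ) : ℝ) ^ 3 * 2 ^ (n - 2) / c with hA
  have hA0 : 0 < A := by positivity
  refine ⟨1 + ENNReal.ofReal A, by simp, fun h hh => ⟨?_, ?_, ?_, ?_⟩⟩
  · intro t
    exact outGeo_ext_meas Ψ G.measΨ _ h hh.1
  · intro t
    obtain ⟨-, -, -, -, hvol⟩ := outP_props n m hn hm Ψ γ a c κ s e G t
    exact outGeo_mass_fin _ h hh (ne_top_of_le_ne_top ENNReal.ofReal_ne_top hvol)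
  · intro t ξ
    obtain ⟨hmeas, -, -, -, hvol⟩ := outP_props n m hn hm Ψ γ a c κ s e G t
    have hfin : volume (outP m Ψ γ a t) ≠ ⊤ := ne_top_of_le_ne_top ENNReal.ofReal_ne_top hvol
    refine (sup_bound Ψ _ h hh hmeas hfin ξ).trans ?_
    gcongr
    refine hvol.trans ?_
    have e1 : (2 : ℝ) ^ (-(t : ℝ) / m) * (1 / 2) ^ t = (2 : ℝ) ^ (-(t : ℝ) * (1 + 1 / m)) := by
      have e2 : ((1 : ℝ) / 2) ^ t = (2 : ℝ) ^ (-(t : ℝ)) := by
        rw [Real.rpow_neg (by norm_num), Real.rpow_natCast, one_div, inv_pow]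
      rw [e2, ← Real.rpow_add (by norm_num)]
      congr 1
      field_simp
      ring
    rw [e1, outGeo_two_rpow]
    calc ENNReal.ofReal ((2 : ℝ) ^ (-(t : ℝ) * (1 + 1 / m)))
        = 1 * ENNReal.ofReal ((2 : ℝ) ^ (-(t : ℝ) * (1 + 1 / m))) := (one_mul _).symm
      _ ≤ _ := by
        gcongr
        exact le_self_add
  · intro t
    obtain ⟨hmeas, hconv, hu, hv, hvol⟩ := outP_props n m hn hm Ψ γ a c κ s e G t
    have hlam : 0 < c * ((1 / 2 : ℝ) ^ t / 2) ^ (n - 2) := by positivity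
    have h6 := six_outer Ψ _ (4 ^ n) ((2 : ℝ) ^ (-(t : ℝ) / m)) 1 _ G.measΨ G.bddΨ hmeas
      (by positivity) hlam hconv hu hv h hh
    refine h6.trans ?_
    gcongr
    have e1 : 32 * ((4 ^ n : ℕ) : ℝ) ^ 3 * ((2 : ℝ) ^ (-(t : ℝ) / m)) ^ 2 /
        (c * ((1 / 2 : ℝ) ^ t / 2) ^ (n - 2)) =
        A * (2 : ℝ) ^ (((n : ℝ) - 2) * t - 2 * t / m) := by
      have e2 : ((2 : ℝ) ^ (-(t : ℝ) / m)) ^ 2 = (2 : ℝ) ^ (-(2 * t / m : ℝ)) := by
        rw [← Real.rpow_natCast, ← Real.rpow_mul (by norm_num)]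
        congr 1
        push_cast
        ring
      have e3 : ((1 / 2 : ℝ) ^ t / 2) ^ (n - 2) * (2 : ℝ) ^ (((n : ℝ) - 2) * t) *
          2 ^ (n - 2) = 1 := by
        have e4 : (2 : ℝ) ^ (((n : ℝ) - 2) * t) = (2 ^ t) ^ (n - 2) := by
          rw [← pow_mul, ← Real.rpow_natCast]
          congr 1
          push_cast [Nat.cast_sub (by omega : 2 ≤ n)]
          ring
        rw [e4, ← mul_pow, ← mul_pow]
        have e5 : (1 / 2 : ℝ) ^ t / 2 * 2 ^ t * 2 = 1 := by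
          have : (1 / 2 : ℝ) ^ t * 2 ^ t = 1 := by
            rw [← mul_pow]; norm_num
          linarith
        rw [e5, one_pow]
      rw [Real.rpow_sub (by norm_num), e2, Real.rpow_neg (by norm_num), hA]
      have p1 : ((1 / 2 : ℝ) ^ t / 2) ^ (n - 2) ≠ 0 := by positivity
      have p2 : (2 : ℝ) ^ ((2 * t / m : ℝ)) ≠ 0 := by positivity
      have p3 : c ≠ 0 := hc.ne'
      rw [div_eq_iff (by positivity)]
      generalize ((1 / 2 : ℝ) ^ t / 2) ^ (n - 2) = x1 at e3 p1 ⊢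
      generalize (2 : ℝ) ^ ((2 * t / m : ℝ)) = x2 at p2 ⊢
      generalize (2 : ℝ) ^ (((n : ℝ) - 2) * t) = x3 at e3 ⊢
      generalize (2 : ℝ) ^ (n - 2) = x4 at e3 ⊢
      generalize ((4 ^ n : ℕ) : ℝ) = x5
      have e6 : 32 * x5 ^ 3 * x4 / c * (x3 / x2) * (c * x1) =
          32 * x5 ^ 3 * x2⁻¹ * (x1 * x3 * x4) := by
        field_simp
      rw [e6, e3, mul_one]
    rw [e1, ENNReal.ofReal_mul hA0.le, ← outGeo_two_rpow]
    gcongr
    exact le_add_self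

end Pool.Agent.FlatRes
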