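import Pool.Agent.Lib.MP_40a0b6_an.Bil
import Pool.Agent.Lib.MP_40a0b6_an.Schur
set_option autoImplicit false
open MeasureTheory
open scoped ENNReal FourierTransform SchwartzMap
namespace Pool.Agent.FlatRes

/-- algebra of the powers in `bil_one` -/
theorem OuterSum_alg (C0 M M' : ℝ≥0∞) (a a' b b' Q δ : ℝ) (hδ : |δ| ≤ 3) (hQ : 3 + |δ| ≤ Q) :
    (C0 * (2 : ℝ≥0∞) ^ a * M ^ (3 : ℕ)) ^ ((3 + δ) / 6) *
      (C0 * (2 : ℝ≥0∞) ^ a' * M' ^ (3 : ℕ)) ^ ((3 - δ) / 6) *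
      ((C0 * (2 : ℝ≥0∞) ^ b * M) ^ (1 / 2 : ℝ)) ^ (Q - 3 - δ) *
      ((C0 * (2 : ℝ≥0∞) ^ b' * M') ^ (1 / 2 : ℝ)) ^ (Q - 3 + δ) =
    C0 ^ (Q - 2) * (2 : ℝ≥0∞) ^ (a * ((3 + δ) / 6) + a' * ((3 - δ) / 6) + b * ((Q - 3 - δ) / 2) +
      b' * ((Q - 3 + δ) / 2)) * M ^ (Q / 2) * M' ^ (Q / 2) := by
  have h1 : 0 ≤ (3 + δ) / 6 := by
    have := (abs_le.1 hδ).1
    linarith
  have h2 : 0 ≤ (3 - δ) / 6 := by
    have := (abs_le.1 hδ).2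
    linarith
  have h3 : 0 ≤ (Q - 3 - δ) / 2 := by
    have := le_abs_self δ
    linarith
  have h4 : 0 ≤ (Q - 3 + δ) / 2 := by
    have := neg_abs_le δ
    linarith
  have e3 : (1 / 2 : ℝ) * (Q - 3 - δ) = (Q - 3 - δ) / 2 := by ring
  have e4 : (1 / 2 : ℝ) * (Q - 3 + δ) = (Q - 3 + δ) / 2 := by ring
  rw [← ENNReal.rpow_mul, ← ENNReal.rpow_mul, e3, e4]
  simp only [ENNReal.mul_rpow_of_nonneg _ _ h1, ENNReal.mul_rpow_of_nonneg _ _ h2,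
    ENNReal.mul_rpow_of_nonneg _ _ h3, ENNReal.mul_rpow_of_nonneg _ _ h4]
  have hC : C0 ^ ((3 + δ) / 6) * C0 ^ ((3 - δ) / 6) * C0 ^ ((Q - 3 - δ) / 2) *
      C0 ^ ((Q - 3 + δ) / 2) = C0 ^ (Q - 2) := by
    rw [← ENNReal.rpow_add_of_nonneg _ _ h1 h2, ← ENNReal.rpow_add_of_nonneg _ _ (by linarith) h3,
      ← ENNReal.rpow_add_of_nonneg _ _ (by linarith) h4]
    congr 1
    ring
  have h2' : ((2 : ℝ≥0∞) ^ a) ^ ((3 + δ) / 6) * ((2 : ℝ≥0∞) ^ a') ^ ((3 - δ) / 6) *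
      ((2 : ℝ≥0∞) ^ b) ^ ((Q - 3 - δ) / 2) * ((2 : ℝ≥0∞) ^ b') ^ ((Q - 3 + δ) / 2) =
      (2 : ℝ≥0∞) ^ (a * ((3 + δ) / 6) + a' * ((3 - δ) / 6) + b * ((Q - 3 - δ) / 2) +
      b' * ((Q - 3 + δ) / 2)) := by
    rw [← ENNReal.rpow_mul, ← ENNReal.rpow_mul, ← ENNReal.rpow_mul, ← ENNReal.rpow_mul,
      ENNReal.rpow_add _ _ (by norm_num) (by norm_num),
      ENNReal.rpow_add _ _ (by norm_num) (by norm_num),
      ENNReal.rpow_add _ _ (by norm_num) (by norm_num)]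
  have hM : (M ^ (3 : ℕ)) ^ ((3 + δ) / 6) * M ^ ((Q - 3 - δ) / 2) = M ^ (Q / 2) := by
    rw [← ENNReal.rpow_natCast, ← ENNReal.rpow_mul, ← ENNReal.rpow_add_of_nonneg _ _ (by
      push_cast; linarith) h3]
    congr 1
    push_cast
    ring
  have hM' : (M' ^ (3 : ℕ)) ^ ((3 - δ) / 6) * M' ^ ((Q - 3 + δ) / 2) = M' ^ (Q / 2) := by
    rw [← ENNReal.rpow_natCast, ← ENNReal.rpow_mul, ← ENNReal.rpow_add_of_nonneg _ _ (by
      push_cast; linarith) h4]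
    congr 1
    push_cast
    ring
  rw [← hC, ← h2', ← hM, ← hM']
  ring

/-- the bilinear bound from the basic bounds -/
theorem OuterSum_bil (F G : E3 → ℂ) (hF : Measurable F) (hG : Measurable G) (C0 M M' : ℝ≥0∞)
    (hC0 : C0 ≠ ⊤) (hM : M ≠ ⊤) (hM' : M' ≠ ⊤)
    (a a' b b' Q δ : ℝ) (hδ : |δ| ≤ 3) (hQ : 3 + |δ| ≤ Q)
    (h1 : ∀ ξ, ‖F ξ‖ₑ ^ (2 : ℕ) ≤ C0 * (2 : ℝ≥0∞) ^ b * M)
    (h1' : ∀ ξ, ‖G ξ‖ₑ ^ (2 : ℕ) ≤ C0 * (2 : ℝ≥0∞) ^ b' * M')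
    (h2 : ∫⁻ ξ, ‖F ξ‖ₑ ^ (6 : ℕ) ≤ C0 * (2 : ℝ≥0∞) ^ a * M ^ (3 : ℕ))
    (h2' : ∫⁻ ξ, ‖G ξ‖ₑ ^ (6 : ℕ) ≤ C0 * (2 : ℝ≥0∞) ^ a' * M' ^ (3 : ℕ)) :
    (∫⁻ ξ, (‖F ξ‖ₑ * ‖G ξ‖ₑ) ^ Q) ^ (1 / Q) ≤
      C0 ^ ((Q - 2) / Q) * (2 : ℝ≥0∞) ^ ((a * ((3 + δ) / 6) + a' * ((3 - δ) / 6) +
        b * ((Q - 3 - δ) / 2) + b' * ((Q - 3 + δ) / 2)) / Q) * M ^ (1 / 2 : ℝ) *
        M' ^ (1 / 2 : ℝ) := by
  have hQ0 : 0 < Q := by
    have := abs_nonneg δ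
    linarith
  have hsq : ∀ (x V : ℝ≥0∞), x ^ (2 : ℕ) ≤ V → x ≤ V ^ (1 / 2 : ℝ) := by
    intro x V hx
    have h := ENNReal.rpow_le_rpow hx (show (0 : ℝ) ≤ 1 / 2 by norm_num)
    rw [← ENNReal.rpow_natCast, ← ENNReal.rpow_mul] at h
    norm_num at h
    convert h using 2
  have htop : ∀ (e : ℝ) (M : ℝ≥0∞), M ≠ ⊤ → (C0 * (2 : ℝ≥0∞) ^ e * M) ^ (1 / 2 : ℝ) ≠ ⊤ := by
    intro e M hM
    refine ENNReal.rpow_ne_top_of_nonneg (by norm_num) (ENNReal.mul_ne_top (ENNReal.mul_ne_top hC0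
      ?_) hM)
    exact ENNReal.rpow_ne_top_of_ne_zero (by norm_num) (by norm_num)
  have hb := bil_one (fun ξ => ‖F ξ‖ₑ) (fun ξ => ‖G ξ‖ₑ) hF.enorm hG.enorm Q δ hδ hQ
    ((C0 * (2 : ℝ≥0∞) ^ b * M) ^ (1 / 2 : ℝ)) ((C0 * (2 : ℝ≥0∞) ^ b' * M') ^ (1 / 2 : ℝ))
    (fun ξ => hsq _ _ (h1 ξ)) (fun ξ => hsq _ _ (h1' ξ)) (htop b M hM) (htop b' M' hM')
  have h3 : 0 ≤ (3 + δ) / 6 := by
    have := (abs_le.1 hδ).1
    linarith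
  have h4 : 0 ≤ (3 - δ) / 6 := by
    have := (abs_le.1 hδ).2
    linarith
  have hb2 := hb.trans (mul_le_mul' (mul_le_mul' (mul_le_mul' (ENNReal.rpow_le_rpow h2 h3)
    (ENNReal.rpow_le_rpow h2' h4)) le_rfl) le_rfl)
  rw [OuterSum_alg C0 M M' a a' b b' Q δ hδ hQ] at hb2
  have h5 := ENNReal.rpow_le_rpow hb2 (show (0 : ℝ) ≤ 1 / Q by positivity)
  refine h5.trans (le_of_eq ?_)
  have hq : (0 : ℝ) ≤ 1 / Q := by positivity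
  rw [ENNReal.mul_rpow_of_nonneg _ _ hq, ENNReal.mul_rpow_of_nonneg _ _ hq,
    ENNReal.mul_rpow_of_nonneg _ _ hq, ← ENNReal.rpow_mul, ← ENNReal.rpow_mul,
    ← ENNReal.rpow_mul, ← ENNReal.rpow_mul]
  have e1 : (Q - 2) * (1 / Q) = (Q - 2) / Q := by ring
  have e2 : Q / 2 * (1 / Q) = 1 / 2 := by field_simp
  rw [e1, e2, mul_one_div]

theorem OuterSum_Q (n m : ℕ) (hn : 3 ≤ n) (hm : 2 ≤ m) (h32 : ¬ (n = 3 ∧ m = 2)) :
    3 < pcrit n m / 2 ∧ (n : ℝ) * m / (m + 1) + 1 ≤ pcrit n m / 2 := by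
  have hnr : (3 : ℝ) ≤ n := by exact_mod_cast hn
  have hmr : (2 : ℝ) ≤ m := by exact_mod_cast hm
  have hm1 : (0 : ℝ) < (m : ℝ) + 1 := by linarith
  unfold pcrit
  split_ifs with h
  · have e : (2 * ((n * m : ℝ) / (m + 1)) + 2) / 2 = (n : ℝ) * m / (m + 1) + 1 := by ring
    rw [e]
    refine ⟨?_, le_rfl⟩
    have h1 : (2 : ℝ) < (n : ℝ) * m / (m + 1) := by
      rw [lt_div_iff₀ hm1]
      rcases Nat.lt_or_ge 3 n with h3 | h3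
      · have : (4 : ℝ) ≤ n := by exact_mod_cast h3
        nlinarith
      · have hn3 : n = 3 := by omega
        have hm3 : 3 ≤ m := by
          by_contra hc
          exact h32 ⟨hn3, by omega⟩
        have : (3 : ℝ) ≤ m := by exact_mod_cast hm3
        rw [hn3]
        push_cast
        nlinarith
    linarith
  · rw [not_le] at h
    have h4 : (m : ℝ) + 2 ≤ n := by exact_mod_cast h
    have e : (2 * (n : ℝ)) / 2 = n := by ring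
    rw [e]
    refine ⟨by linarith, ?_⟩
    rw [← le_sub_iff_add_le, div_le_iff₀ hm1]
    nlinarith

theorem OuterSum_row (r : ℝ≥0∞) (S : Finset ℕ) (s : ℕ) :
    ∑ s' ∈ S, r ^ (max s s' - min s s') ≤ 2 * ∑' j : ℕ, r ^ j := by
  classical
  rw [← Finset.sum_filter_add_sum_filter_not S (fun s' => s' ≤ s), two_mul]
  refine add_le_add ?_ ?_
  · have h1 : ∑ s' ∈ S.filter (fun s' => s' ≤ s), r ^ (max s s' - min s s') =
        ∑ j ∈ (S.filter (fun s' => s' ≤ s)).image (fun s' => s - s'), r ^ j := by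
      rw [Finset.sum_image]
      · refine Finset.sum_congr rfl fun x hx => ?_
        have := (Finset.mem_filter.1 hx).2
        congr 1
        omega
      · intro x hx y hy hxy
        have h2 := (Finset.mem_filter.1 hx).2
        have h3 := (Finset.mem_filter.1 hy).2
        simp only at hxy
        omega
    rw [h1]
    exact ENNReal.sum_le_tsum _
  · have h1 : ∑ s' ∈ S.filter (fun s' => ¬ s' ≤ s), r ^ (max s s' - min s s') =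
        ∑ j ∈ (S.filter (fun s' => ¬ s' ≤ s)).image (fun s' => s' - s), r ^ j := by
      rw [Finset.sum_image]
      · refine Finset.sum_congr rfl fun x hx => ?_
        have := (Finset.mem_filter.1 hx).2
        congr 1
        omega
      · intro x hx y hy hxy
        have h2 := (Finset.mem_filter.1 hx).2
        have h3 := (Finset.mem_filter.1 hy).2
        simp only at hxy
        omega
    rw [h1]
    exact ENNReal.sum_le_tsum _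

/-- JOB T.  The family of the outer pieces.  For `s ≠ s'`: `bil_one` with `Q = pcrit/2 > 3`; with
`V = 2^{-s(1+1/m)}`, `A = 2^{(n-2)s-2s/m}` the exponent is
`-ρ(s+s')/2 + (δ/6)(θ_s - θ_{s'})`, `ρ = (Q-3)(1+1/m) - (n-2) + 2/m = ((m+1)/m)(Q - (d+1)) ≥ 0`,
`θ_s = (n+1+1/m) s`; then `schur_sum`. -/
theorem outer_sum (n m : ℕ) (hn : 3 ≤ n) (hm : 2 ≤ m) (h32 : ¬ (n = 3 ∧ m = 2)) (C0 : ℝ≥0∞)
    (hC0 : C0 ≠ ⊤) : ∃ T : ℝ≥0∞, T ≠ ⊤ ∧ ∀ (F : ℕ → E3 → ℂ) (M : ℕ → ℝ≥0∞),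
      (∀ s, Measurable (F s)) → (∀ s, M s ≠ ⊤) →
      (∀ s ξ, ‖F s ξ‖ₑ ^ (2 : ℕ) ≤ C0 * (2 : ℝ≥0∞) ^ (-(s : ℝ) * (1 + 1 / m)) * M s) →
      (∀ s, ∫⁻ ξ, ‖F s ξ‖ₑ ^ (6 : ℕ) ≤
        C0 * (2 : ℝ≥0∞) ^ (((n : ℝ) - 2) * s - 2 * s / m) * (M s) ^ (3 : ℕ)) →
      ∀ S : Finset ℕ, ∫⁻ ξ, ‖∑ s ∈ S, F s ξ‖ₑ ^ (pcrit n m) ≤
        (T * ∑ s ∈ S, M s) ^ (pcrit n m / 2) := by
  obtain ⟨Q, hQdef⟩ : ∃ Q : ℝ, Q = pcrit n m / 2 := ⟨_, rfl⟩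
  obtain ⟨hQ3, hQd⟩ := OuterSum_Q n m hn hm h32
  rw [← hQdef] at hQ3 hQd
  have hp : pcrit n m = 2 * Q := by rw [hQdef]; ring
  have hQ0 : 0 < Q := by linarith
  have hmr : (2 : ℝ) ≤ m := by exact_mod_cast hm
  have hnr : (3 : ℝ) ≤ n := by exact_mod_cast hn
  have hm0 : (0 : ℝ) < m := by linarith
  obtain ⟨δ0, hδ0⟩ : ∃ δ0 : ℝ, δ0 = min 1 (Q - 3) := ⟨_, rfl⟩
  have hδp : 0 < δ0 := by
    rw [hδ0]
    exact lt_min one_pos (by linarith)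
  have hδ1 : δ0 ≤ 1 := by rw [hδ0]; exact min_le_left _ _
  have hδ2 : δ0 ≤ Q - 3 := by rw [hδ0]; exact min_le_right _ _
  obtain ⟨θ, hθ⟩ : ∃ θ : ℝ, θ = (n : ℝ) + 1 + 1 / m := ⟨_, rfl⟩
  have hθp : 0 < θ := by rw [hθ]; positivity
  obtain ⟨η, hη⟩ : ∃ η : ℝ, η = δ0 * θ / (6 * Q) := ⟨_, rfl⟩
  have hηp : 0 < η := by rw [hη]; positivity
  obtain ⟨r, hr⟩ : ∃ r : ℝ≥0∞, r = (2 : ℝ≥0∞) ^ (-η) := ⟨_, rfl⟩
  have hr1 : r < 1 := by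
    rw [hr]
    exact ENNReal.rpow_lt_one_of_one_lt_of_neg (by norm_num) (by linarith)
  have hρ : 0 ≤ (1 + 1 / (m : ℝ)) * (Q - 3) - ((n : ℝ) - 2) + 2 / m := by
    have h1 : (1 + 1 / (m : ℝ)) * (Q - 3) - ((n : ℝ) - 2) + 2 / m =
        ((m + 1) / m) * (Q - ((n : ℝ) * m / (m + 1) + 1)) := by
      field_simp
      ring
    rw [h1]
    exact mul_nonneg (by positivity) (by linarith)
  obtain ⟨ρ, hρdef⟩ : ∃ ρ : ℝ, ρ = (1 + 1 / (m : ℝ)) * (Q - 3) - ((n : ℝ) - 2) + 2 / m := ⟨_, rfl⟩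
  rw [← hρdef] at hρ
  obtain ⟨T, hT⟩ : ∃ T : ℝ≥0∞, T = C0 ^ ((Q - 2) / Q) * (2 * ∑' j : ℕ, r ^ j) := ⟨_, rfl⟩
  refine ⟨T, ?_, ?_⟩
  · rw [hT, ENNReal.tsum_geometric]
    refine ENNReal.mul_ne_top (ENNReal.rpow_ne_top_of_nonneg (by
      apply div_nonneg <;> linarith) hC0) (ENNReal.mul_ne_top (by norm_num) ?_)
    rw [ENNReal.inv_ne_top]
    exact (tsub_pos_of_lt hr1).ne'
  · intro F M hF hM hsup hsix S
    rw [hp]
    have e2 : 2 * Q / 2 = Q := by ring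
    rw [e2]
    refine schur_sum S F hF Q (by linarith) M
      (fun s s' => C0 ^ ((Q - 2) / Q) * r ^ (max s s' - min s s')) T ?_ ?_ ?_
    · intro s _ s' _
      obtain ⟨δ, hδ, hδs⟩ : ∃ δ : ℝ, |δ| = δ0 ∧
          δ * ((s : ℝ) - s') = -(δ0 * ((max s s' - min s s' : ℕ) : ℝ)) := by
        rcases le_total s s' with h | h
        · refine ⟨δ0, abs_of_pos hδp, ?_⟩
          rw [max_eq_right h, min_eq_left h, Nat.cast_sub h]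
          ring
        · refine ⟨-δ0, by rw [abs_neg, abs_of_pos hδp], ?_⟩
          rw [max_eq_left h, min_eq_right h, Nat.cast_sub h]
          ring
      have hb := OuterSum_bil (F s) (F s') (hF s) (hF s') C0 (M s) (M s') hC0 (hM s) (hM s')
        (((n : ℝ) - 2) * s - 2 * s / m) (((n : ℝ) - 2) * s' - 2 * s' / m)
        (-(s : ℝ) * (1 + 1 / m)) (-(s' : ℝ) * (1 + 1 / m)) Q δ (by rw [hδ]; linarith)
        (by rw [hδ]; linarith) (hsup s) (hsup s') (hsix s) (hsix s')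
      refine hb.trans (mul_le_mul' (mul_le_mul' (mul_le_mul' le_rfl ?_) le_rfl) le_rfl)
      rw [hr, ← ENNReal.rpow_natCast, ← ENNReal.rpow_mul]
      refine ENNReal.rpow_le_rpow_of_exponent_le (by norm_num) ?_
      have hexp : (((n : ℝ) - 2) * s - 2 * s / m) * ((3 + δ) / 6) +
          (((n : ℝ) - 2) * s' - 2 * s' / m) * ((3 - δ) / 6) +
          -(s : ℝ) * (1 + 1 / m) * ((Q - 3 - δ) / 2) + -(s' : ℝ) * (1 + 1 / m) * ((Q - 3 + δ) / 2) =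
          -(ρ * ((s : ℝ) + s') / 2) + (θ / 6) * (δ * ((s : ℝ) - s')) := by
        rw [hρdef, hθ]
        field_simp
        ring
      rw [hexp, hδs, div_le_iff₀ hQ0, hη]
      have h6 : -(δ0 * θ / (6 * Q)) * ((max s s' - min s s' : ℕ) : ℝ) * Q =
          θ / 6 * -(δ0 * ((max s s' - min s s' : ℕ) : ℝ)) := by
        field_simp
      rw [h6]
      have h7 : 0 ≤ ρ * ((s : ℝ) + s') / 2 := by positivity
      linarith
    · intro s s'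
      rw [max_comm, min_comm]
    · intro s _
      rw [hT, ← Finset.mul_sum]
      exact mul_le_mul' le_rfl (OuterSum_row r S s)

end Pool.Agent.FlatRes
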