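import Pool.Agent.Lib.MP_40a0b6_an.FamGeo
import Pool.Agent.Lib.MP_40a0b6_an.OutGeo
import Pool.Agent.Lib.MP_40a0b6_an.Limit
import Pool.Agent.Lib.MP_40a0b6_an.OuterSum
import Pool.Agent.Lib.MP_40a0b6_an.InnerSum
set_option autoImplicit false
open MeasureTheory
open scoped ENNReal FourierTransform SchwartzMap
namespace Pool.Agent.FlatRes

theorem Region_two_le_pcrit (n m : ℕ) (hn : 3 ≤ n) : 2 ≤ pcrit n m := by
  unfold pcrit
  have h3 : (3 : ℝ) ≤ n := by exact_mod_cast hn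
  split_ifs with h
  · have : 0 ≤ (n * m : ℝ) / (m + 1) := by positivity
    linarith
  · linarith

theorem Region_vol {n m : ℕ} {Ψ : ℝ × ℝ → ℝ} {γ : ℝ → ℝ} {a c κ s e : ℝ}
    (G : Geo n m Ψ γ a c κ s e) : volume (region Ψ γ a) ≠ ⊤ := by
  have hsub : region Ψ γ a ⊆ Set.Icc 0 a ×ˢ Set.Icc (-a) a := by
    rintro x ⟨h1, h2, h3, h4, -⟩
    refine ⟨⟨h1.le, h2.le⟩, ⟨?_, h4.le⟩⟩
    have := (abs_lt.1 (G.gb x.1 ⟨h1, h2⟩)).1
    linarith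
  refine ne_top_of_le_ne_top ?_ (measure_mono hsub)
  rw [Measure.volume_eq_prod, Measure.prod_prod, Real.volume_Icc, Real.volume_Icc]
  exact ENNReal.mul_ne_top ENNReal.ofReal_ne_top ENNReal.ofReal_ne_top

/-- JOB U4.  The extension estimate for a quadrant region. -/
theorem region_bound (n m : ℕ) (hn : 3 ≤ n) (hm : 2 ≤ m) (h32 : ¬ (n = 3 ∧ m = 2))
    (Ψ : ℝ × ℝ → ℝ) (γ : ℝ → ℝ) (a c κ s e : ℝ) (G : Geo n m Ψ γ a c κ s e) :
    ∃ T : ℝ≥0∞, T ≠ ⊤ ∧ ∀ h : ℝ × ℝ → ℂ, BddMeas h →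
      ∫⁻ ξ, ‖extOn Ψ (region Ψ γ a) h ξ‖ₑ ^ (pcrit n m) ≤
        (T * mass (region Ψ γ a) h) ^ (pcrit n m / 2) := by
  obtain ⟨C1, hC1, hF⟩ := fam_of_geo n m hn hm Ψ γ a c κ s e G
  obtain ⟨T1, hT1, h1⟩ := inner_sum n m hn hm h32 C1 hC1
  obtain ⟨C2, hC2, hO⟩ := outer_of_geo n m hn hm Ψ γ a c κ s e G
  obtain ⟨T2, hT2, h2⟩ := outer_sum n m hn hm h32 C2 hC2
  have hq2 := Region_two_le_pcrit n m hn
  refine ⟨4 * (T1 + T2), ENNReal.mul_ne_top (by simp) (ENNReal.add_ne_top.2 ⟨hT1, hT2⟩),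
    fun h hh => ?_⟩
  obtain ⟨hO1, hO2, hO3, hO4⟩ := hO h hh
  have hFam := hF h hh
  have hc0 : 0 < min (c / 2) 1 := lt_min (half_pos G.hc) one_pos
  set P : (ℕ × ℕ × ℕ) ⊕ ℕ → Set (ℝ × ℝ) :=
    Sum.elim (fun p => inP n m Ψ γ a (min (c / 2) 1) p.1 p.2.1 p.2.2) (fun t => outP m Ψ γ a t)
    with hPdef
  have hcov : region Ψ γ a = ⋃ i, P i := by
    rw [region_cover n m hn Ψ γ a c κ s e G, Set.iUnion_sum]
    rfl
  have hfin : volume (⋃ i, P i) ≠ ⊤ := by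
    rw [← hcov]; exact Region_vol G
  obtain ⟨W0, -, hW⟩ := inP_piece n m hn Ψ γ a c κ s e G
  have hPm : ∀ i, MeasurableSet (P i) := by
    rintro (p | t)
    · exact (hW p.1 p.2.1 p.2.2).meas
    · exact (outP_props n m hn hm Ψ γ a c κ s e G t).1
  have hd : Pairwise (Function.onFun Disjoint P) := by
    rintro (p | t) (p' | t') hne
    · exact inP_disjoint n m Ψ γ a _ hc0 (fun h => hne (by rw [h]))
    · exact inP_outP_disjoint n m Ψ γ a _ p t'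
    · exact (inP_outP_disjoint n m Ψ γ a _ p' t).symm
    · exact outP_disjoint m Ψ γ a (fun h => hne (by rw [h]))
  rw [hcov]
  refine ext_limit Ψ G.measΨ P hPm hd hfin h hh _ (by linarith) _ ?_
  intro S
  set q : ℝ := pcrit n m with hq
  have hsum : ∀ {X : Type} [AddCommMonoid X] (f : (ℕ × ℕ × ℕ) ⊕ ℕ → X),
      ∑ i ∈ S, f i = ∑ p ∈ S.toLeft, f (Sum.inl p) + ∑ t ∈ S.toRight, f (Sum.inr t) := by
    intro X _ f
    conv_lhs => rw [← Finset.toLeft_disjSum_toRight (u := S)]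
    rw [Finset.sum_disjSum]
  have e1 := h1 _ _ hFam S.toLeft
  have e2 := h2 _ _ hO1 hO2 hO3 hO4 S.toRight
  set A : E3 → ℂ := fun ξ => ∑ α ∈ S.toLeft,
    extOn Ψ (inP n m Ψ γ a (min (c / 2) 1) α.1 α.2.1 α.2.2) h ξ with hA
  set B : E3 → ℂ := fun ξ => ∑ t ∈ S.toRight, extOn Ψ (outP m Ψ γ a t) h ξ with hB
  have hAm : Measurable A := by
    refine Finset.measurable_fun_sum _ (fun α _ => ?_)
    exact hFam.meas α
  set M1 : ℝ≥0∞ := ∑ α ∈ S.toLeft, mass (inP n m Ψ γ a (min (c / 2) 1) α.1 α.2.1 α.2.2) h with hM1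
  set M2 : ℝ≥0∞ := ∑ t ∈ S.toRight, mass (outP m Ψ γ a t) h with hM2
  have hsumA : ∀ ξ, ∑ i ∈ S, extOn Ψ (P i) h ξ = A ξ + B ξ := fun ξ => hsum _
  have hsumM : ∑ i ∈ S, mass (P i) h = M1 + M2 := hsum _
  simp only [hsumA]
  rw [hsumM]
  have hq1 : 1 ≤ q := by linarith
  calc ∫⁻ ξ, ‖A ξ + B ξ‖ₑ ^ q ≤ ∫⁻ ξ, (2 : ℝ≥0∞) ^ (q - 1) * (‖A ξ‖ₑ ^ q + ‖B ξ‖ₑ ^ q) := by
        apply lintegral_mono
        intro ξ
        refine le_trans ?_ (ENNReal.rpow_add_le_mul_rpow_add_rpow _ _ hq1)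
        exact ENNReal.rpow_le_rpow (enorm_add_le _ _) (by linarith)
    _ = (2 : ℝ≥0∞) ^ (q - 1) * ∫⁻ ξ, (‖A ξ‖ₑ ^ q + ‖B ξ‖ₑ ^ q) := by
        apply lintegral_const_mul'
        exact ENNReal.rpow_ne_top_of_nonneg (by linarith) (by simp)
    _ = (2 : ℝ≥0∞) ^ (q - 1) * ((∫⁻ ξ, ‖A ξ‖ₑ ^ q) + ∫⁻ ξ, ‖B ξ‖ₑ ^ q) := by
        rw [lintegral_add_left (hAm.enorm.pow_const q)]
    _ ≤ (2 : ℝ≥0∞) ^ (q - 1) * ((T1 * M1) ^ (q / 2) + (T2 * M2) ^ (q / 2)) := by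
        gcongr
    _ ≤ (2 : ℝ≥0∞) ^ (q - 1) * (((T1 + T2) * (M1 + M2)) ^ (q / 2) +
          ((T1 + T2) * (M1 + M2)) ^ (q / 2)) := by
        gcongr
        · exact le_self_add
        · exact le_self_add
        · exact le_add_self
        · exact le_add_self
    _ = (2 : ℝ≥0∞) ^ q * ((T1 + T2) * (M1 + M2)) ^ (q / 2) := by
        rw [← two_mul, ← mul_assoc]
        congr 1
        nth_rewrite 2 [← ENNReal.rpow_one 2]
        rw [← ENNReal.rpow_add _ _ (by simp) (by simp)]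
        congr 1
        ring
    _ = (4 * (T1 + T2) * (M1 + M2)) ^ (q / 2) := by
        have h4 : (4 : ℝ≥0∞) ^ (q / 2) = 2 ^ q := by
          have : (4 : ℝ≥0∞) = 2 ^ (2 : ℝ) := by
            rw [show (2 : ℝ) = ((2 : ℕ) : ℝ) by norm_num, ENNReal.rpow_natCast]
            norm_num
          rw [this, ← ENNReal.rpow_mul]
          congr 1
          ring
        rw [mul_assoc 4, ENNReal.mul_rpow_of_nonneg 4 _ (by linarith : (0 : ℝ) ≤ q / 2), h4]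

end Pool.Agent.FlatRes
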