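import Pool.Agent.Lib.MP_40a0b6_an.Defs

/-!
# 1D Strichartz route for `n ≥ m+1`, `n ≥ 3`: basic definitions (helper27)

Everything is normalised with `e(x) = exp(2πix)`.
-/

set_option autoImplicit false
open MeasureTheory
open scoped ENNReal
namespace Pool.Agent.FlatRes

/-- `e(x) = exp(2πix)` -/
noncomputable def ee (x : ℝ) : ℂ := Complex.exp (((2 * Real.pi * x : ℝ) : ℂ) * Complex.I)

/-- bounded measurable, vanishing outside a set of finite measure -/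
def Nice {X : Type*} [MeasurableSpace X] (μ : Measure X) (u : X → ℂ) : Prop :=
  Measurable u ∧ (∃ M : ℝ, ∀ x, ‖u x‖ ≤ M) ∧ μ (Function.support u) ≠ ⊤

/-- the `L^p` norm as an extended nonnegative real -/
noncomputable def lp {X : Type*} [MeasurableSpace X] (p : ℝ) (μ : Measure X) (u : X → ℂ) : ℝ≥0∞ :=
  (∫⁻ x, ‖u x‖ₑ ^ p ∂μ) ^ (1 / p)

/-- The curve operator `T_φ g(ξ,t) = ∫ e(yξ + tφ(y)) g(y) dy`. -/
noncomputable def TT (φ : ℝ → ℝ) (g : ℝ → ℂ) (ξ t : ℝ) : ℂ := ∫ y, ee (y * ξ + t * φ y) * g y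

/-- mixed norm `L^a_t L^b_ξ` of `F ξ t` -/
noncomputable def mix2 (a b : ℝ) (F : ℝ → ℝ → ℂ) : ℝ≥0∞ :=
  (∫⁻ t, (∫⁻ ξ, ‖F ξ t‖ₑ ^ b) ^ (a / b)) ^ (1 / a)

/-- mixed norm `L^a_t L^b_{ξ₂} L^c_{ξ₁}` of `F ξ₁ ξ₂ t` -/
noncomputable def mix3 (a b c : ℝ) (F : ℝ → ℝ → ℝ → ℂ) : ℝ≥0∞ :=
  (∫⁻ t, (∫⁻ ξ₂, (∫⁻ ξ₁, ‖F ξ₁ ξ₂ t‖ₑ ^ c) ^ (b / c)) ^ (a / b)) ^ (1 / a)

/-- `T_φ : L²(E) → L^a_t L^b_ξ` with bound `A`, on bounded measurable functions vanishing off `E` -/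
def StrB (φ : ℝ → ℝ) (E : Set ℝ) (a b : ℝ) (A : ℝ≥0∞) : Prop :=
  ∀ g : ℝ → ℂ, BddMeas g → (∀ y, y ∉ E → g y = 0) →
    mix2 a b (TT φ g) ≤ A * (∫⁻ y, ‖g y‖ₑ ^ (2 : ℝ)) ^ (1 / (2 : ℝ))

/-- The two-curve operator
`F(ξ₁,ξ₂,t) = ∫∫ e(xξ₁ + (Γ(x)+y)ξ₂ + tΦ(x,y)) h(x,y) dy dx = T_Γ (x ↦ T_{Φ(x,·)} h(x,·) (ξ₂,t)) (ξ₁,ξ₂)`. -/
noncomputable def FFs (Γ : ℝ → ℝ) (Φ : ℝ → ℝ → ℝ) (h : ℝ → ℝ → ℂ) (ξ₁ ξ₂ t : ℝ) : ℂ :=
  TT Γ (fun x => TT (Φ x) (h x) ξ₂ t) ξ₁ ξ₂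

/-- `L²` norm squared of a function of two variables -/
noncomputable def mass2 (h : ℝ → ℝ → ℂ) : ℝ≥0∞ := ∫⁻ x, ∫⁻ y, ‖h x y‖ₑ ^ (2 : ℝ)

/-- bounded, jointly measurable -/
def BM2 (h : ℝ → ℝ → ℂ) : Prop :=
  Measurable (fun p : ℝ × ℝ => h p.1 p.2) ∧ ∃ M : ℝ, ∀ x y, ‖h x y‖ ≤ M

theorem norm_ee (x : ℝ) : ‖ee x‖ = 1 := by
  unfold ee
  rw [Complex.norm_exp_ofReal_mul_I]

theorem enorm_ee (x : ℝ) : ‖ee x‖ₑ = 1 := by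
  rw [← ofReal_norm, norm_ee]; simp

theorem ee_add (x y : ℝ) : ee (x + y) = ee x * ee y := by
  unfold ee
  rw [← Complex.exp_add]
  congr 1
  push_cast
  ring

@[simp] theorem ee_zero : ee 0 = 1 := by simp [ee]

theorem ee_neg (x : ℝ) : ee (-x) = (starRingEnd ℂ) (ee x) := by
  unfold ee
  rw [← Complex.exp_conj, map_mul, Complex.conj_ofReal, Complex.conj_I]
  congr 1
  push_cast
  ring

theorem continuous_ee : Continuous ee := by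
  unfold ee
  fun_prop

theorem measurable_ee : Measurable ee := continuous_ee.measurable

theorem hasDerivAt_ee (x : ℝ) : HasDerivAt ee (2 * Real.pi * Complex.I * ee x) x := by
  unfold ee
  have h1 : HasDerivAt (fun x : ℝ => ((2 * Real.pi * x : ℝ) : ℂ) * Complex.I)
      (2 * Real.pi * Complex.I) x := by
    have h2 : HasDerivAt (fun x : ℝ => ((2 * Real.pi * x : ℝ) : ℂ)) ((2 * Real.pi : ℝ) : ℂ) x := by
      have := ((hasDerivAt_id x).const_mul (2 * Real.pi)).ofReal_comp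
      simpa using this
    have h3 := h2.mul_const Complex.I
    simpa using h3
  have := h1.cexp
  convert this using 1
  ring

end Pool.Agent.FlatRes
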