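import Pool.Agent.Lib.MP_40a0b6_an.S_Mink
set_option autoImplicit false
open MeasureTheory
open scoped ENNReal
namespace Pool.Agent.FlatRes

/-- the iterated norm -/
private noncomputable def keyN {X Z : Type*} [MeasurableSpace X] [MeasurableSpace Z] (μ : Measure X)
    (ν : Measure Z) (b c : ℝ) (f : Z → X → ℝ≥0∞) : ℝ≥0∞ :=
  (∫⁻ x, (∫⁻ z, f z x ^ c ∂ν) ^ (b / c) ∂μ) ^ (1 / b)

private theorem keyN_mono {X Z : Type*} [MeasurableSpace X] [MeasurableSpace Z] {μ : Measure X}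
    {ν : Measure Z} {b c : ℝ} (hb : 1 ≤ b) (hc : 1 ≤ c) {f g : Z → X → ℝ≥0∞}
    (h : ∀ z x, f z x ≤ g z x) : keyN μ ν b c f ≤ keyN μ ν b c g := by
  unfold keyN
  apply ENNReal.rpow_le_rpow _ (by positivity)
  apply lintegral_mono
  intro x
  apply ENNReal.rpow_le_rpow _ (by positivity)
  apply lintegral_mono
  intro z
  exact ENNReal.rpow_le_rpow (h z x) (by linarith)

private theorem key_pow {c b : ℝ} (hc : 1 ≤ c) (A : ℝ≥0∞) : A ^ (b / c) = (A ^ (1 / c)) ^ b := by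
  rw [← ENNReal.rpow_mul]; congr 1; field_simp

private theorem keyN_eq {X Z : Type*} [MeasurableSpace X] [MeasurableSpace Z] (μ : Measure X)
    (ν : Measure Z) (b : ℝ) {c : ℝ} (hc : 1 ≤ c) (f : Z → X → ℝ≥0∞) :
    keyN μ ν b c f = (∫⁻ x, ((∫⁻ z, f z x ^ c ∂ν) ^ (1 / c)) ^ b ∂μ) ^ (1 / b) := by
  unfold keyN
  congr 1
  apply lintegral_congr
  intro x
  exact key_pow hc _

private theorem keyN_add {X Z : Type*} [MeasurableSpace X] [MeasurableSpace Z] {μ : Measure X}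
    {ν : Measure Z} [SigmaFinite μ] [SigmaFinite ν] {b c : ℝ} (hb : 1 ≤ b) (hc : 1 ≤ c)
    {f g : Z → X → ℝ≥0∞} (hf : Measurable (fun p : Z × X => f p.1 p.2))
    (hg : Measurable (fun p : Z × X => g p.1 p.2)) :
    keyN μ ν b c (fun z x => f z x + g z x) ≤ keyN μ ν b c f + keyN μ ν b c g := by
  simp only [keyN_eq _ _ _ hc]
  have hfc : Measurable (fun x => (∫⁻ z, f z x ^ c ∂ν) ^ (1 / c)) := by
    apply Measurable.pow_const
    exact (hf.pow_const c).lintegral_prod_left'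
  have hgc : Measurable (fun x => (∫⁻ z, g z x ^ c ∂ν) ^ (1 / c)) := by
    apply Measurable.pow_const
    exact (hg.pow_const c).lintegral_prod_left'
  have h2 := ENNReal.lintegral_Lp_add_le hfc.aemeasurable hgc.aemeasurable (μ := μ) hb
  refine le_trans ?_ h2
  apply ENNReal.rpow_le_rpow _ (by positivity)
  apply lintegral_mono
  intro x
  apply ENNReal.rpow_le_rpow _ (by linarith)
  have hfx : Measurable (fun z => f z x) := hf.comp (measurable_id.prodMk measurable_const)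
  have hgx : Measurable (fun z => g z x) := hg.comp (measurable_id.prodMk measurable_const)
  exact ENNReal.lintegral_Lp_add_le hfx.aemeasurable hgx.aemeasurable (μ := ν) hc

private theorem keyN_int {X Z W : Type*} [MeasurableSpace X] [MeasurableSpace Z]
    [MeasurableSpace W] {μ : Measure X} {ν : Measure Z} {ρ : Measure W} [SigmaFinite μ]
    [SigmaFinite ν] [SigmaFinite ρ] {b c : ℝ} (hb : 1 ≤ b) (hc : 1 ≤ c)
    {f : W → Z → X → ℝ≥0∞} (hf : Measurable (fun p : W × Z × X => f p.1 p.2.1 p.2.2)) :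
    keyN μ ν b c (fun z x => ∫⁻ w, f w z x ∂ρ) ≤ ∫⁻ w, keyN μ ν b c (f w) ∂ρ := by
  simp only [keyN_eq _ _ _ hc]
  have h1 : ∀ x, (∫⁻ z, (∫⁻ w, f w z x ∂ρ) ^ c ∂ν) ^ (1 / c) ≤
      ∫⁻ w, (∫⁻ z, f w z x ^ c ∂ν) ^ (1 / c) ∂ρ := by
    intro x
    apply lint_mink ν ρ c hc (fun z w => f w z x)
    exact hf.comp (measurable_snd.prodMk (measurable_fst.prodMk measurable_const))
  have hm : Measurable (Function.uncurry fun (x : X) (w : W) => (∫⁻ z, f w z x ^ c ∂ν) ^ (1 / c)) := by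
    apply Measurable.pow_const
    have h3 : Measurable (fun p : Z × (X × W) => f p.2.2 p.1 p.2.1 ^ c) := by
      apply Measurable.pow_const
      exact hf.comp (measurable_snd.snd.prodMk (measurable_fst.prodMk measurable_snd.fst))
    exact h3.lintegral_prod_left'
  have h2 := lint_mink μ ρ b hb (fun x w => (∫⁻ z, f w z x ^ c ∂ν) ^ (1 / c)) hm
  refine le_trans ?_ h2
  apply ENNReal.rpow_le_rpow _ (by positivity)
  apply lintegral_mono
  intro x
  exact ENNReal.rpow_le_rpow (h1 x) (by linarith)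

private theorem keyN_const_mul {X Z : Type*} [MeasurableSpace X] [MeasurableSpace Z]
    {μ : Measure X} {ν : Measure Z} [SigmaFinite ν] {b c : ℝ} (hb : 1 ≤ b) (hc : 1 ≤ c)
    {f : Z → X → ℝ≥0∞} (hf : Measurable (fun p : Z × X => f p.1 p.2)) (K : ℝ≥0∞) :
    keyN μ ν b c (fun z x => K * f z x) = K * keyN μ ν b c f := by
  simp only [keyN_eq _ _ _ hc]
  have h1 : ∀ x, (∫⁻ z, (K * f z x) ^ c ∂ν) ^ (1 / c) = K * (∫⁻ z, f z x ^ c ∂ν) ^ (1 / c) := by
    intro x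
    have hfx : Measurable (fun z => f z x) := hf.comp (measurable_id.prodMk measurable_const)
    simp only [ENNReal.mul_rpow_of_nonneg _ _ (by linarith : (0 : ℝ) ≤ c)]
    rw [lintegral_const_mul _ (hfx.pow_const c), ENNReal.mul_rpow_of_nonneg _ _ (by positivity),
      ← ENNReal.rpow_mul]
    rw [mul_one_div_cancel (by linarith), ENNReal.rpow_one]
  have hfc : Measurable (fun x => (∫⁻ z, f z x ^ c ∂ν) ^ (1 / c)) := by
    apply Measurable.pow_const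
    exact (hf.pow_const c).lintegral_prod_left'
  simp only [h1, ENNReal.mul_rpow_of_nonneg _ _ (by linarith : (0 : ℝ) ≤ b)]
  rw [lintegral_const_mul _ (hfc.pow_const b), ENNReal.mul_rpow_of_nonneg _ _ (by positivity),
    ← ENNReal.rpow_mul]
  rw [mul_one_div_cancel (by linarith), ENNReal.rpow_one]

private theorem key_measTT {X : Type*} [MeasurableSpace X] {φ : X → ℝ → ℝ} {g : X → ℝ → ℂ}
    {u v : X → ℝ} (hφ : Measurable (fun p : X × ℝ => φ p.1 p.2))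
    (hg : Measurable (fun p : X × ℝ => g p.1 p.2)) (hu : Measurable u) (hv : Measurable v) :
    Measurable (fun p => TT (φ p) (g p) (u p) (v p)) := by
  have h1 : Measurable (fun p : X × ℝ => ee (p.2 * u p.1 + v p.1 * φ p.1 p.2) * g p.1 p.2) := by
    apply Measurable.mul _ hg
    apply measurable_ee.comp
    apply Measurable.add
    · exact measurable_snd.mul (hu.comp measurable_fst)
    · exact (hv.comp measurable_fst).mul hφ
  exact (h1.stronglyMeasurable.integral_prod_right').measurable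

private theorem key_integrable {X : Type*} [MeasurableSpace X] {μ : Measure X} {f : X → ℂ}
    (hf : Measurable f) {M : ℝ} (hM : ∀ x, ‖f x‖ ≤ M) {S : Set X} (hμ : μ S ≠ ⊤)
    (h0 : ∀ x, x ∉ S → f x = 0) : Integrable f μ := by
  rw [← integrableOn_iff_integrable_of_support_subset (s := S)]
  · exact Measure.integrableOn_of_bounded hμ hf.aestronglyMeasurable (M := M)
      (Filter.Eventually.of_forall hM)
  · intro x hx
    by_contra hc
    exact hx (h0 x hc)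

private theorem key_inner (y ζ τ s : ℝ) (hτ : 0 ≤ τ) :
    2 * Real.pi * Complex.I * y * ∫ τ' in Set.Ioc 0 τ, ee (y * (ζ + τ') + s) =
      ee (y * (ζ + τ) + s) - ee (y * ζ + s) := by
  rw [← intervalIntegral.integral_of_le hτ, ← intervalIntegral.integral_const_mul]
  have h1 : ∀ r ∈ Set.uIcc 0 τ, HasDerivAt (fun r : ℝ => ee (y * (ζ + r) + s))
      (2 * Real.pi * Complex.I * y * ee (y * (ζ + r) + s)) r := by
    intro r _
    have h2 : HasDerivAt (fun r : ℝ => y * (ζ + r) + s) y r := by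
      have := (((hasDerivAt_id' r).const_add ζ).const_mul y).add_const s
      simpa using this
    have h3 := (hasDerivAt_ee (y * (ζ + r) + s)).scomp r h2
    have h4 : y • (2 * (Real.pi : ℂ) * Complex.I * ee (y * (ζ + r) + s)) =
        2 * Real.pi * Complex.I * y * ee (y * (ζ + r) + s) := by
      rw [Complex.real_smul]; ring
    rw [h4] at h3
    exact h3
  rw [intervalIntegral.integral_eq_sub_of_hasDerivAt h1]
  · simp
  · apply Continuous.intervalIntegrable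
    have := continuous_ee
    fun_prop

private theorem key_TT_bound {φ : ℝ → ℝ} {g : ℝ → ℂ} {M Y : ℝ} (hY : 0 < Y)
    (hM : ∀ y, ‖g y‖ ≤ M) (h0 : ∀ y, y ∉ Set.Icc (-Y) Y → g y = 0) (ξ t : ℝ) :
    ‖TT φ g ξ t‖ ≤ M * (2 * Y) := by
  unfold TT
  have h1 : ∫ y, ee (y * ξ + t * φ y) * g y = ∫ y in Set.Icc (-Y) Y, ee (y * ξ + t * φ y) * g y := by
    rw [setIntegral_eq_integral_of_forall_compl_eq_zero]
    intro y hy
    rw [h0 y hy, mul_zero]
  rw [h1]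
  have h2 := norm_setIntegral_le_of_norm_le_const (μ := volume) (s := Set.Icc (-Y) Y)
    (f := fun y => ee (y * ξ + t * φ y) * g y) (C := M) (by simp) (by
      intro y _
      rw [norm_mul, norm_ee, one_mul]; exact hM y)
  refine h2.trans ?_
  have h3 : volume.real (Set.Icc (-Y) Y) = 2 * Y := by
    rw [Real.volume_real_Icc_of_le (by linarith)]; ring
  rw [h3]

private theorem key_FTC {φ : ℝ → ℝ} (hφ : Measurable φ) {g : ℝ → ℂ} (hg : BddMeas g) {Y : ℝ}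
    (hY : 0 < Y) (h0 : ∀ y, y ∉ Set.Icc (-Y) Y → g y = 0) (ζ τ t : ℝ) (hτ : 0 ≤ τ) :
    TT φ g (ζ + τ) t = TT φ g ζ t + 2 * Real.pi * Complex.I * Y *
      ∫ τ' in Set.Ioc 0 τ, TT φ (fun y => ((y / Y : ℝ) : ℂ) * g y) (ζ + τ') t := by
  obtain ⟨hgm, M, hM⟩ := hg
  have hYc : (Y : ℂ) ≠ 0 := by exact_mod_cast hY.ne'
  have hmul : ∀ y, ‖((y / Y : ℝ) : ℂ) * g y‖ ≤ M := by
    intro y
    by_cases hy : y ∈ Set.Icc (-Y) Y
    · rw [norm_mul, Complex.norm_real, Real.norm_eq_abs]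
      have h1 : |y / Y| ≤ 1 := by
        rw [abs_div, abs_of_pos hY, div_le_one hY, abs_le]
        exact ⟨by linarith [hy.1], hy.2⟩
      have h2 := hM y
      have h3 := norm_nonneg (g y)
      nlinarith [abs_nonneg (y / Y)]
    · rw [h0 y hy, mul_zero, norm_zero]
      exact (norm_nonneg (g y)).trans (hM y)
  have hswap : ∫ τ' in Set.Ioc 0 τ, TT φ (fun y => ((y / Y : ℝ) : ℂ) * g y) (ζ + τ') t =
      ∫ y, ∫ τ' in Set.Ioc 0 τ, ee (y * (ζ + τ') + t * φ y) * (((y / Y : ℝ) : ℂ) * g y) := by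
    unfold TT
    apply integral_integral_swap
    apply key_integrable (M := M) (S := Set.univ ×ˢ Set.Icc (-Y) Y)
    · have h1 : Measurable (fun p : ℝ × ℝ => ee (p.2 * (ζ + p.1) + t * φ p.2)) := by
        apply measurable_ee.comp
        have h5 : Measurable (fun p : ℝ × ℝ => φ p.2) := hφ.comp measurable_snd
        exact (measurable_snd.mul (measurable_const.add measurable_fst)).add
          (measurable_const.mul h5)
      apply h1.mul
      apply Measurable.mul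
      · exact Complex.measurable_ofReal.comp (measurable_snd.div_const Y)
      · exact hgm.comp measurable_snd
    · intro p
      simp only [Function.uncurry]
      rw [norm_mul, norm_ee, one_mul]
      exact hmul p.2
    · rw [Measure.prod_prod]
      simp
      exact ENNReal.mul_ne_top ENNReal.ofReal_ne_top ENNReal.ofReal_ne_top
    · intro p hp
      simp only [Function.uncurry]
      rw [h0 p.2 (fun h => hp ⟨Set.mem_univ _, h⟩)]
      simp
  rw [hswap, ← integral_const_mul]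
  have h1 : ∀ y, 2 * Real.pi * Complex.I * Y *
      ∫ τ' in Set.Ioc 0 τ, ee (y * (ζ + τ') + t * φ y) * (((y / Y : ℝ) : ℂ) * g y) =
      ee (y * (ζ + τ) + t * φ y) * g y - ee (y * ζ + t * φ y) * g y := by
    intro y
    rw [integral_mul_const, ← sub_mul, ← key_inner y ζ τ (t * φ y) hτ]
    push_cast
    field_simp
  simp only [h1]
  unfold TT
  have hi : ∀ ξ : ℝ, Integrable (fun y => ee (y * ξ + t * φ y) * g y) := by
    intro ξ
    apply key_integrable (M := M) (S := Set.Icc (-Y) Y)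
    · apply Measurable.mul _ hgm
      exact measurable_ee.comp ((measurable_id.mul_const ξ).add (hφ.const_mul t))
    · intro y
      rw [norm_mul, norm_ee, one_mul]; exact hM y
    · simp
    · intro y hy
      rw [h0 y hy, mul_zero]
  rw [integral_sub (hi _) (hi _)]
  ring

/-- `(y/Y) h` -/
private noncomputable def keyH (Y : ℝ) (h : ℝ → ℝ → ℂ) (x y : ℝ) : ℂ := ((y / Y : ℝ) : ℂ) * h x y

private theorem keyH_le {Y : ℝ} (hY : 0 < Y) {h : ℝ → ℝ → ℂ}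
    (h0 : ∀ x y, y ∉ Set.Icc (-Y) Y → h x y = 0) (x y : ℝ) : ‖keyH Y h x y‖ ≤ ‖h x y‖ := by
  unfold keyH
  by_cases hy : y ∈ Set.Icc (-Y) Y
  · rw [norm_mul, Complex.norm_real, Real.norm_eq_abs]
    have h1 : |y / Y| ≤ 1 := by
      rw [abs_div, abs_of_pos hY, div_le_one hY, abs_le]
      exact ⟨by linarith [hy.1], hy.2⟩
    have h3 := norm_nonneg (h x y)
    nlinarith [abs_nonneg (y / Y)]
  · rw [h0 x y hy, mul_zero]

private theorem keyH_bm {Y : ℝ} (hY : 0 < Y) {h : ℝ → ℝ → ℂ} (hh : BM2 h)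
    (h0 : ∀ x y, y ∉ Set.Icc (-Y) Y → h x y = 0) : BM2 (keyH Y h) := by
  obtain ⟨hm, M, hM⟩ := hh
  refine ⟨?_, M, fun x y => (keyH_le hY h0 x y).trans (hM x y)⟩
  unfold keyH
  exact (Complex.measurable_ofReal.comp (measurable_snd.div_const Y)).mul hm

private theorem key_slice {h : ℝ → ℝ → ℂ} (hh : BM2 h) (x : ℝ) : BddMeas (h x) := by
  obtain ⟨hm, M, hM⟩ := hh
  exact ⟨hm.comp (measurable_const.prodMk measurable_id), M, hM x⟩

private theorem key_F {Γ : ℝ → ℝ} {Φ : ℝ → ℝ → ℝ} {Y R : ℝ} (hY : 0 < Y) (hΓ : Measurable Γ)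
    (hΦ : Measurable (fun p : ℝ × ℝ => Φ p.1 p.2)) {h : ℝ → ℝ → ℂ} (hh : BM2 h)
    (h0 : ∀ x y, y ∉ Set.Icc (-Y) Y → h x y = 0) (h0' : ∀ x y, x ∉ Set.Icc (-R) R → h x y = 0)
    (ξ₁ ζ t τ : ℝ) (hτ : 0 ≤ τ) :
    FFs Γ Φ h ξ₁ (ζ + τ) t = TT Γ (fun x => ee (ζ * Γ x) * TT (Φ x) (h x) ζ t) ξ₁ τ +
      2 * Real.pi * Complex.I * Y * ∫ τ' in Set.Ioc 0 τ,
        TT Γ (fun x => ee (ζ * Γ x) * TT (Φ x) (keyH Y h x) (ζ + τ') t) ξ₁ τ := by
  have hFTC : ∀ x, TT (Φ x) (h x) (ζ + τ) t = TT (Φ x) (h x) ζ t + 2 * Real.pi * Complex.I * Y *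
      ∫ τ' in Set.Ioc 0 τ, TT (Φ x) (keyH Y h x) (ζ + τ') t := by
    intro x
    exact key_FTC (hΦ.comp (measurable_const.prodMk measurable_id)) (key_slice hh x) hY (h0 x)
      ζ τ t hτ
  have hH := keyH_bm hY hh h0
  have hHm := hH.1
  obtain ⟨hm, M, hM⟩ := hh
  have hM' : ∀ x y, ‖keyH Y h x y‖ ≤ M := fun x y => (keyH_le hY h0 x y).trans (hM x y)
  have h01 : ∀ x y, y ∉ Set.Icc (-Y) Y → keyH Y h x y = 0 := fun x y hy => by
    unfold keyH; rw [h0 x y hy, mul_zero]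
  have h01' : ∀ x, x ∉ Set.Icc (-R) R → ∀ ξ s, TT (Φ x) (keyH Y h x) ξ s = 0 := fun x hx ξ s => by
    unfold TT keyH; simp [h0' x _ hx]
  have h00' : ∀ x, x ∉ Set.Icc (-R) R → ∀ ξ s, TT (Φ x) (h x) ξ s = 0 := fun x hx ξ s => by
    unfold TT; simp [h0' x _ hx]
  have hee : ∀ x, ee (x * ξ₁ + τ * Γ x) * ee (ζ * Γ x) = ee (x * ξ₁ + (ζ + τ) * Γ x) := by
    intro x; rw [← ee_add]; congr 1; ring
  have hmee : Measurable (fun x => ee (x * ξ₁ + (ζ + τ) * Γ x)) :=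
    measurable_ee.comp ((measurable_id.mul_const ξ₁).add (hΓ.const_mul (ζ + τ)))
  have hmΦ : Measurable (fun p : (ℝ × ℝ) × ℝ => Φ p.1.1 p.2) :=
    hΦ.comp (measurable_fst.fst.prodMk measurable_snd)
  -- integrability of the first term
  have hi1 : Integrable (fun x => ee (x * ξ₁ + (ζ + τ) * Γ x) * TT (Φ x) (h x) ζ t) := by
    apply key_integrable (M := M * (2 * Y)) (S := Set.Icc (-R) R)
    · exact hmee.mul (key_measTT hΦ hm measurable_const measurable_const)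
    · intro x
      rw [norm_mul, norm_ee, one_mul]
      exact key_TT_bound hY (hM x) (h0 x) ζ t
    · simp
    · intro x hx
      rw [h00' x hx, mul_zero]
  -- integrability of the double integral
  have hi2 : Integrable (Function.uncurry fun (x τ' : ℝ) =>
      ee (x * ξ₁ + (ζ + τ) * Γ x) * TT (Φ x) (keyH Y h x) (ζ + τ') t)
      (volume.prod (volume.restrict (Set.Ioc 0 τ))) := by
    apply key_integrable (M := M * (2 * Y)) (S := Set.Icc (-R) R ×ˢ Set.univ)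
    · apply (hmee.comp measurable_fst).mul
      apply key_measTT (X := ℝ × ℝ) (φ := fun p => Φ p.1) (g := fun p => keyH Y h p.1)
        (u := fun p => ζ + p.2) (v := fun _ => t) hmΦ
      · exact hHm.comp (measurable_fst.fst.prodMk measurable_snd)
      · exact measurable_const.add measurable_snd
      · exact measurable_const
    · intro p
      simp only [Function.uncurry]
      rw [norm_mul, norm_ee, one_mul]
      exact key_TT_bound hY (hM' p.1) (h01 p.1) _ _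
    · rw [Measure.prod_prod]
      simp
      exact ENNReal.mul_ne_top ENNReal.ofReal_ne_top ENNReal.ofReal_ne_top
    · intro p hp
      simp only [Function.uncurry]
      rw [h01' p.1 (fun h => hp ⟨h, Set.mem_univ _⟩), mul_zero]
  have hi3 : Integrable (fun x => ee (x * ξ₁ + (ζ + τ) * Γ x) *
      ∫ τ' in Set.Ioc 0 τ, TT (Φ x) (keyH Y h x) (ζ + τ') t) := by
    have h1 := hi2.integral_prod_left
    refine h1.congr (Filter.Eventually.of_forall fun x => ?_)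
    simp only [Function.uncurry]
    rw [integral_const_mul]
  have hL : FFs Γ Φ h ξ₁ (ζ + τ) t = ∫ x, (ee (x * ξ₁ + (ζ + τ) * Γ x) * TT (Φ x) (h x) ζ t +
      2 * Real.pi * Complex.I * Y * (ee (x * ξ₁ + (ζ + τ) * Γ x) *
        ∫ τ' in Set.Ioc 0 τ, TT (Φ x) (keyH Y h x) (ζ + τ') t)) := by
    unfold FFs
    rw [TT]
    apply integral_congr_ae
    refine Filter.Eventually.of_forall fun x => ?_
    simp only []
    rw [hFTC x]
    ring
  rw [hL, integral_add hi1 (hi3.const_mul _), integral_const_mul]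
  congr 1
  · rw [TT]
    apply integral_congr_ae
    refine Filter.Eventually.of_forall fun x => ?_
    simp only []
    rw [← mul_assoc, hee]
  · congr 1
    have h5 : ∀ x, ee (x * ξ₁ + (ζ + τ) * Γ x) *
        ∫ τ' in Set.Ioc 0 τ, TT (Φ x) (keyH Y h x) (ζ + τ') t =
        ∫ τ' in Set.Ioc 0 τ, ee (x * ξ₁ + (ζ + τ) * Γ x) * TT (Φ x) (keyH Y h x) (ζ + τ') t := by
      intro x; rw [integral_const_mul]
    simp only [h5]
    rw [integral_integral_swap hi2]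
    apply integral_congr_ae
    refine Filter.Eventually.of_forall fun τ' => ?_
    simp only []
    rw [TT]
    apply integral_congr_ae
    refine Filter.Eventually.of_forall fun x => ?_
    simp only []
    rw [← mul_assoc, hee]

private theorem key_point {Γ : ℝ → ℝ} {Φ : ℝ → ℝ → ℝ} {Y R : ℝ} (hY : 0 < Y) (hΓ : Measurable Γ)
    (hΦ : Measurable (fun p : ℝ × ℝ => Φ p.1 p.2)) {h : ℝ → ℝ → ℂ} (hh : BM2 h)
    (h0 : ∀ x y, y ∉ Set.Icc (-Y) Y → h x y = 0) (h0' : ∀ x y, x ∉ Set.Icc (-R) R → h x y = 0)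
    (ξ₁ ζ t τ : ℝ) (hτ : τ ∈ Set.Ioc 0 (1 / Y)) :
    ‖FFs Γ Φ h ξ₁ (ζ + τ) t‖ₑ ≤
      ‖TT Γ (fun x => ee (ζ * Γ x) * TT (Φ x) (h x) ζ t) ξ₁ τ‖ₑ +
      ENNReal.ofReal (2 * Real.pi * Y) * ∫⁻ τ' in Set.Ioc 0 (1 / Y),
        ‖TT Γ (fun x => ee (ζ * Γ x) * TT (Φ x) (keyH Y h x) (ζ + τ') t) ξ₁ τ‖ₑ := by
  rw [key_F hY hΓ hΦ hh h0 h0' ξ₁ ζ t τ hτ.1.le]
  refine (enorm_add_le _ _).trans ?_
  gcongr
  rw [enorm_mul]
  have h1 : ‖(2 * Real.pi * Complex.I * Y : ℂ)‖ₑ = ENNReal.ofReal (2 * Real.pi * Y) := by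
    rw [← ofReal_norm]
    congr 1
    simp [abs_of_pos Real.pi_pos, abs_of_pos hY]
  rw [h1]
  gcongr
  refine (enorm_integral_le_lintegral_enorm _).trans ?_
  exact lintegral_mono_set (Set.Ioc_subset_Ioc_right hτ.2)

private theorem keyN_mono_set {X Z : Type*} [MeasurableSpace X] [MeasurableSpace Z]
    {μ : Measure X} {ν : Measure Z} {b c : ℝ} (hb : 1 ≤ b) (hc : 1 ≤ c) {f g : Z → X → ℝ≥0∞}
    {S : Set X} (hS : MeasurableSet S) (h : ∀ z, ∀ x ∈ S, f z x ≤ g z x) :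
    keyN (μ.restrict S) ν b c f ≤ keyN (μ.restrict S) ν b c g := by
  unfold keyN
  apply ENNReal.rpow_le_rpow _ (by positivity)
  apply setLIntegral_mono' hS
  intro x hx
  apply ENNReal.rpow_le_rpow _ (by positivity)
  apply lintegral_mono
  intro z
  exact ENNReal.rpow_le_rpow (h z x hx) (by linarith)

private theorem keyN_restrict {X Z : Type*} [MeasurableSpace X] [MeasurableSpace Z]
    {μ : Measure X} {ν : Measure Z} {b c : ℝ} (hb : 1 ≤ b) (f : Z → X → ℝ≥0∞) (S : Set X) :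
    keyN (μ.restrict S) ν b c f ≤ keyN μ ν b c f := by
  unfold keyN
  apply ENNReal.rpow_le_rpow _ (by positivity)
  exact lintegral_mono' Measure.restrict_le_self le_rfl

/-- `L²` norm of the slices -/
private noncomputable def keyn (Φ : ℝ → ℝ → ℝ) (h : ℝ → ℝ → ℂ) (ζ t : ℝ) : ℝ≥0∞ :=
  (∫⁻ x, ‖TT (Φ x) (h x) ζ t‖ₑ ^ (2 : ℝ)) ^ (1 / (2 : ℝ))

private theorem keyn_meas {Φ : ℝ → ℝ → ℝ} (hΦ : Measurable (fun p : ℝ × ℝ => Φ p.1 p.2))
    {h : ℝ → ℝ → ℂ} (hh : BM2 h) {X : Type*} [MeasurableSpace X] {u v : X → ℝ} (hu : Measurable u)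
    (hv : Measurable v) : Measurable (fun p => keyn Φ h (u p) (v p)) := by
  unfold keyn
  apply Measurable.pow_const
  have h1 : Measurable (fun p : X × ℝ => ‖TT (Φ p.2) (h p.2) (u p.1) (v p.1)‖ₑ ^ (2 : ℝ)) := by
    apply Measurable.pow_const
    apply Measurable.enorm
    apply key_measTT (X := X × ℝ) (φ := fun p => Φ p.2) (g := fun p => h p.2)
      (u := fun p => u p.1) (v := fun p => v p.1)
    · exact hΦ.comp (measurable_fst.snd.prodMk measurable_snd)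
    · exact hh.1.comp (measurable_fst.snd.prodMk measurable_snd)
    · exact hu.comp measurable_fst
    · exact hv.comp measurable_fst
  exact h1.lintegral_prod_right'

private theorem key_useJ {Γ : ℝ → ℝ} {Φ : ℝ → ℝ → ℝ} {J : Set ℝ} {Y b c : ℝ} {A1 : ℝ≥0∞}
    (hY : 0 < Y) (hΓ : Measurable Γ)
    (hΦ : Measurable (fun p : ℝ × ℝ => Φ p.1 p.2)) (hJ : StrB Γ J b c A1)
    {h : ℝ → ℝ → ℂ} (hh : BM2 h)
    (h0 : ∀ x y, y ∉ Set.Icc (-Y) Y → h x y = 0) (h0' : ∀ x y, x ∉ J → h x y = 0)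
    (ζ s t : ℝ) :
    keyN volume volume b c
      (fun ξ₁ τ => ‖TT Γ (fun x => ee (ζ * Γ x) * TT (Φ x) (h x) s t) ξ₁ τ‖ₑ) ≤
      A1 * keyn Φ h s t := by
  have hg : BddMeas (fun x => ee (ζ * Γ x) * TT (Φ x) (h x) s t) := by
    obtain ⟨hm, M, hM⟩ := hh
    refine ⟨?_, M * (2 * Y), ?_⟩
    · exact (measurable_ee.comp (hΓ.const_mul ζ)).mul
        (key_measTT hΦ hm measurable_const measurable_const)
    · intro x
      rw [norm_mul, norm_ee, one_mul]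
      exact key_TT_bound hY (hM x) (h0 x) s t
  have hg0 : ∀ x, x ∉ J → ee (ζ * Γ x) * TT (Φ x) (h x) s t = 0 := by
    intro x hx
    unfold TT; simp [h0' x _ hx]
  have h1 := hJ _ hg hg0
  refine h1.trans (le_of_eq ?_)
  unfold keyn
  congr 2
  apply lintegral_congr
  intro x
  rw [enorm_mul, enorm_ee, one_mul]

private theorem key_step {Γ : ℝ → ℝ} {Φ : ℝ → ℝ → ℝ} {J : Set ℝ} {Y R b c : ℝ} {A1 : ℝ≥0∞}
    (hY : 0 < Y) (hb : 1 ≤ b) (hc : 1 ≤ c) (hΓ : Measurable Γ)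
    (hΦ : Measurable (fun p : ℝ × ℝ => Φ p.1 p.2)) (hJR : J ⊆ Set.Icc (-R) R)
    (hJ : StrB Γ J b c A1) {h : ℝ → ℝ → ℂ} (hh : BM2 h)
    (h0 : ∀ x y, y ∉ Set.Icc (-Y) Y → h x y = 0) (h0' : ∀ x y, x ∉ J → h x y = 0)
    (ζ t : ℝ) :
    keyN (volume.restrict (Set.Ioc 0 (1 / Y))) volume b c
      (fun ξ₁ τ => ‖FFs Γ Φ h ξ₁ (ζ + τ) t‖ₑ) ≤
      A1 * keyn Φ h ζ t + ENNReal.ofReal (2 * Real.pi * Y) *
        ∫⁻ τ' in Set.Ioc 0 (1 / Y), A1 * keyn Φ (keyH Y h) (ζ + τ') t := by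
  have hH := keyH_bm hY hh h0
  have h0R : ∀ x y, x ∉ Set.Icc (-R) R → h x y = 0 := fun x y hx => h0' x y (fun h => hx (hJR h))
  have hpt := keyN_mono_set (μ := volume) (ν := volume) hb hc
    (f := fun ξ₁ τ => ‖FFs Γ Φ h ξ₁ (ζ + τ) t‖ₑ)
    (g := fun ξ₁ τ => ‖TT Γ (fun x => ee (ζ * Γ x) * TT (Φ x) (h x) ζ t) ξ₁ τ‖ₑ +
      ENNReal.ofReal (2 * Real.pi * Y) * ∫⁻ τ' in Set.Ioc 0 (1 / Y),
        ‖TT Γ (fun x => ee (ζ * Γ x) * TT (Φ x) (keyH Y h x) (ζ + τ') t) ξ₁ τ‖ₑ)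
    (measurableSet_Ioc (a := (0 : ℝ)) (b := 1 / Y))
    (fun ξ₁ τ hτ => key_point hY hΓ hΦ hh h0 h0R ξ₁ ζ t τ hτ)
  refine hpt.trans ?_
  -- measurability
  have hm0 : Measurable (fun p : ℝ × ℝ =>
      ‖TT Γ (fun x => ee (ζ * Γ x) * TT (Φ x) (h x) ζ t) p.1 p.2‖ₑ) := by
    apply Measurable.enorm
    apply key_measTT (X := ℝ × ℝ) (φ := fun _ => Γ)
      (g := fun _ => fun x => ee (ζ * Γ x) * TT (Φ x) (h x) ζ t) (u := Prod.fst) (v := Prod.snd)
    · exact hΓ.comp measurable_snd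
    · have h5 : Measurable (fun x => ee (ζ * Γ x) * TT (Φ x) (h x) ζ t) :=
        (measurable_ee.comp (hΓ.const_mul ζ)).mul
          (key_measTT hΦ hh.1 measurable_const measurable_const)
      exact h5.comp measurable_snd
    · exact measurable_fst
    · exact measurable_snd
  have hm1 : Measurable (fun p : ℝ × ℝ × ℝ =>
      ‖TT Γ (fun x => ee (ζ * Γ x) * TT (Φ x) (keyH Y h x) (ζ + p.1) t) p.2.1 p.2.2‖ₑ) := by
    apply Measurable.enorm
    apply key_measTT (X := ℝ × ℝ × ℝ) (φ := fun _ => Γ)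
      (g := fun p => fun x => ee (ζ * Γ x) * TT (Φ x) (keyH Y h x) (ζ + p.1) t)
      (u := fun p => p.2.1) (v := fun p => p.2.2)
    · exact hΓ.comp measurable_snd
    · apply Measurable.mul
      · exact measurable_ee.comp ((hΓ.comp measurable_snd).const_mul ζ)
      · apply key_measTT (X := (ℝ × ℝ × ℝ) × ℝ) (φ := fun p => Φ p.2)
          (g := fun p => keyH Y h p.2) (u := fun p => ζ + p.1.1) (v := fun _ => t)
        · exact hΦ.comp (measurable_fst.snd.prodMk measurable_snd)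
        · exact hH.1.comp (measurable_fst.snd.prodMk measurable_snd)
        · exact measurable_const.add measurable_fst.fst
        · exact measurable_const
    · exact measurable_snd.fst
    · exact measurable_snd.snd
  have hm2 : Measurable (fun p : ℝ × ℝ => ∫⁻ τ' in Set.Ioc 0 (1 / Y),
      ‖TT Γ (fun x => ee (ζ * Γ x) * TT (Φ x) (keyH Y h x) (ζ + τ') t) p.1 p.2‖ₑ) := by
    have h6 : Measurable (fun q : ℝ × (ℝ × ℝ) =>
      ‖TT Γ (fun x => ee (ζ * Γ x) * TT (Φ x) (keyH Y h x) (ζ + q.1) t) q.2.1 q.2.2‖ₑ) := hm1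
    exact h6.lintegral_prod_left'
  refine (keyN_add hb hc hm0 (hm2.const_mul _)).trans ?_
  apply add_le_add
  · refine (keyN_restrict hb _ _).trans ?_
    exact key_useJ hY hΓ hΦ hJ hh h0 h0' ζ ζ t
  · rw [keyN_const_mul hb hc hm2]
    gcongr
    refine (keyN_int hb hc (f := fun τ' ξ₁ τ =>
      ‖TT Γ (fun x => ee (ζ * Γ x) * TT (Φ x) (keyH Y h x) (ζ + τ') t) ξ₁ τ‖ₑ) hm1).trans ?_
    apply lintegral_mono
    intro τ'
    refine (keyN_restrict hb _ _).trans ?_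
    refine key_useJ hY hΓ hΦ hJ hH ?_ ?_ ζ (ζ + τ') t
    · intro x y hy; unfold keyH; rw [h0 x y hy, mul_zero]
    · intro x y hx; unfold keyH; rw [h0' x y hx, mul_zero]

private theorem keyn_norm {Φ : ℝ → ℝ → ℝ} {J E : Set ℝ} {a b : ℝ} {A2 : ℝ≥0∞}
    (ha : 2 ≤ a) (hb : 2 ≤ b) (hΦ : Measurable (fun p : ℝ × ℝ => Φ p.1 p.2))
    (hE : ∀ x ∈ J, StrB (Φ x) E a b A2) {h : ℝ → ℝ → ℂ} (hh : BM2 h)
    (h0 : ∀ x y, y ∉ E → h x y = 0) (h0' : ∀ x y, x ∉ J → h x y = 0) :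
    keyN volume volume a b (fun ζ t => keyn Φ h ζ t) ≤ A2 * (mass2 h) ^ (1 / (2 : ℝ)) := by
  have ha0 : 0 < a := by linarith
  have hb0 : 0 < b := by linarith
  have h1 : keyN volume volume a b (fun ζ t => keyn Φ h ζ t) =
      (keyN volume volume (a / 2) (b / 2)
        (fun ζ t => ∫⁻ x, ‖TT (Φ x) (h x) ζ t‖ₑ ^ (2 : ℝ))) ^ (1 / (2 : ℝ)) := by
    unfold keyN keyn
    rw [← ENNReal.rpow_mul]
    congr 1
    · apply lintegral_congr
      intro t
      congr 1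
      · apply lintegral_congr
        intro ζ
        rw [← ENNReal.rpow_mul]
        congr 1
        ring
      · field_simp
    · field_simp
  have hm : Measurable (fun p : ℝ × ℝ × ℝ => ‖TT (Φ p.1) (h p.1) p.2.1 p.2.2‖ₑ ^ (2 : ℝ)) := by
    apply Measurable.pow_const
    apply Measurable.enorm
    apply key_measTT (X := ℝ × ℝ × ℝ) (φ := fun p => Φ p.1) (g := fun p => h p.1)
      (u := fun p => p.2.1) (v := fun p => p.2.2)
    · exact hΦ.comp (measurable_fst.fst.prodMk measurable_snd)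
    · exact hh.1.comp (measurable_fst.fst.prodMk measurable_snd)
    · exact measurable_snd.fst
    · exact measurable_snd.snd
  have h2 := keyN_int (μ := volume) (ν := volume) (ρ := volume) (b := a / 2) (c := b / 2)
    (by linarith) (by linarith) (f := fun x ζ t => ‖TT (Φ x) (h x) ζ t‖ₑ ^ (2 : ℝ)) hm
  have h3 : ∀ x, keyN volume volume (a / 2) (b / 2)
      (fun ζ t => ‖TT (Φ x) (h x) ζ t‖ₑ ^ (2 : ℝ)) ≤ A2 ^ (2 : ℝ) * ∫⁻ y, ‖h x y‖ₑ ^ (2 : ℝ) := by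
    intro x
    have h4 : keyN volume volume (a / 2) (b / 2) (fun ζ t => ‖TT (Φ x) (h x) ζ t‖ₑ ^ (2 : ℝ)) =
        (mix2 a b (TT (Φ x) (h x))) ^ (2 : ℝ) := by
      unfold keyN mix2
      rw [← ENNReal.rpow_mul]
      congr 1
      · apply lintegral_congr
        intro t
        congr 1
        · apply lintegral_congr
          intro ζ
          rw [← ENNReal.rpow_mul]
          congr 1
          ring
        · field_simp
      · field_simp
    rw [h4]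
    by_cases hx : x ∈ J
    · have h5 := hE x hx (h x) (key_slice hh x) (fun y hy => h0 x y hy)
      calc (mix2 a b (TT (Φ x) (h x))) ^ (2 : ℝ) ≤
            (A2 * (∫⁻ y, ‖h x y‖ₑ ^ (2 : ℝ)) ^ (1 / (2 : ℝ))) ^ (2 : ℝ) :=
            ENNReal.rpow_le_rpow h5 (by norm_num)
        _ = A2 ^ (2 : ℝ) * ∫⁻ y, ‖h x y‖ₑ ^ (2 : ℝ) := by
            rw [ENNReal.mul_rpow_of_nonneg _ _ (by norm_num), ← ENNReal.rpow_mul]
            norm_num
    · have h6 : TT (Φ x) (h x) = fun _ _ => 0 := by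
        funext ξ s
        unfold TT; simp [h0' x _ hx]
      have h7 : mix2 a b (TT (Φ x) (h x)) = 0 := by
        rw [h6]
        unfold mix2
        simp [ha0, hb0, ENNReal.zero_rpow_of_pos]
      rw [h7]
      simp
  have h5 : keyN volume volume (a / 2) (b / 2)
      (fun ζ t => ∫⁻ x, ‖TT (Φ x) (h x) ζ t‖ₑ ^ (2 : ℝ)) ≤ A2 ^ (2 : ℝ) * mass2 h := by
    refine h2.trans ?_
    have hmm : Measurable (fun x => ∫⁻ y, ‖h x y‖ₑ ^ (2 : ℝ)) := by
      have h8 : Measurable (fun p : ℝ × ℝ => ‖h p.1 p.2‖ₑ ^ (2 : ℝ)) := hh.1.enorm.pow_const _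
      exact h8.lintegral_prod_right'
    calc ∫⁻ x, keyN volume volume (a / 2) (b / 2)
          (fun ζ t => ‖TT (Φ x) (h x) ζ t‖ₑ ^ (2 : ℝ)) ≤
          ∫⁻ x, A2 ^ (2 : ℝ) * ∫⁻ y, ‖h x y‖ₑ ^ (2 : ℝ) := lintegral_mono h3
      _ = A2 ^ (2 : ℝ) * mass2 h := by
          rw [lintegral_const_mul _ hmm]; rfl
  rw [h1]
  calc _ ≤ (A2 ^ (2 : ℝ) * mass2 h) ^ (1 / (2 : ℝ)) := ENNReal.rpow_le_rpow h5 (by norm_num)
    _ = A2 * (mass2 h) ^ (1 / (2 : ℝ)) := by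
        rw [ENNReal.mul_rpow_of_nonneg _ _ (by norm_num), ← ENNReal.rpow_mul]
        norm_num

private theorem key_lhs {F : ℝ → ℝ → ℝ → ℂ} {Y a b c : ℝ} (hY : 0 < Y) (ha : 1 ≤ a) (hb : 1 ≤ b)
    (hF : Measurable (fun p : ℝ × ℝ × ℝ => F p.1 p.2.1 p.2.2)) :
    mix3 a b c F = ENNReal.ofReal (Y ^ (1 / b)) * keyN volume volume a b (fun ζ t =>
      keyN (volume.restrict (Set.Ioc 0 (1 / Y))) volume b c (fun ξ₁ τ => ‖F ξ₁ (ζ + τ) t‖ₑ)) := by
  have ha0 : 0 < a := by linarith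
  have hb0 : 0 < b := by linarith
  have hW : Measurable (fun p : ℝ × ℝ => (∫⁻ ξ₁, ‖F ξ₁ p.1 p.2‖ₑ ^ c) ^ (b / c)) := by
    apply Measurable.pow_const
    have h1 : Measurable (fun q : ℝ × (ℝ × ℝ) => ‖F q.1 q.2.1 q.2.2‖ₑ ^ c) :=
      (hF.enorm).pow_const c
    exact h1.lintegral_prod_left'
  have h2 : ∀ t, ∫⁻ ζ, (keyN (volume.restrict (Set.Ioc 0 (1 / Y))) volume b c
      (fun ξ₁ τ => ‖F ξ₁ (ζ + τ) t‖ₑ)) ^ b = ENNReal.ofReal (1 / Y) *
        ∫⁻ ξ₂, (∫⁻ ξ₁, ‖F ξ₁ ξ₂ t‖ₑ ^ c) ^ (b / c) := by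
    intro t
    have h3 : ∀ ζ : ℝ, (keyN (volume.restrict (Set.Ioc 0 (1 / Y))) volume b c
        (fun ξ₁ τ => ‖F ξ₁ (ζ + τ) t‖ₑ)) ^ b =
        ∫⁻ τ in Set.Ioc 0 (1 / Y), (∫⁻ ξ₁, ‖F ξ₁ (ζ + τ) t‖ₑ ^ c) ^ (b / c) := by
      intro ζ
      unfold keyN
      rw [← ENNReal.rpow_mul, one_div_mul_cancel hb0.ne', ENNReal.rpow_one]
    simp only [h3]
    rw [lintegral_lintegral_swap]
    · have h4 : ∀ τ : ℝ, ∫⁻ ζ, (∫⁻ ξ₁, ‖F ξ₁ (ζ + τ) t‖ₑ ^ c) ^ (b / c) =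
          ∫⁻ ξ₂, (∫⁻ ξ₁, ‖F ξ₁ ξ₂ t‖ₑ ^ c) ^ (b / c) := fun τ =>
        lintegral_add_right_eq_self (fun ζ => (∫⁻ ξ₁, ‖F ξ₁ ζ t‖ₑ ^ c) ^ (b / c)) τ
      simp only [h4]
      rw [setLIntegral_const, Real.volume_Ioc, sub_zero, mul_comm]
    · apply Measurable.aemeasurable
      have h5 : Measurable (fun p : ℝ × ℝ => ((p.1 + p.2, t) : ℝ × ℝ)) :=
        (measurable_fst.add measurable_snd).prodMk measurable_const
      exact hW.comp h5
  have h6 : keyN volume volume a b (fun ζ t =>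
      keyN (volume.restrict (Set.Ioc 0 (1 / Y))) volume b c (fun ξ₁ τ => ‖F ξ₁ (ζ + τ) t‖ₑ)) =
      ENNReal.ofReal (1 / Y) ^ (1 / b) * mix3 a b c F := by
    rw [keyN]
    simp only [h2]
    have h7 : ∀ t, (ENNReal.ofReal (1 / Y) * ∫⁻ ξ₂, (∫⁻ ξ₁, ‖F ξ₁ ξ₂ t‖ₑ ^ c) ^ (b / c)) ^ (a / b) =
        ENNReal.ofReal (1 / Y) ^ (a / b) *
          (∫⁻ ξ₂, (∫⁻ ξ₁, ‖F ξ₁ ξ₂ t‖ₑ ^ c) ^ (b / c)) ^ (a / b) := fun t =>
      ENNReal.mul_rpow_of_nonneg _ _ (by positivity)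
    simp only [h7]
    rw [lintegral_const_mul _ (by
      apply Measurable.pow_const
      exact hW.lintegral_prod_left'), ENNReal.mul_rpow_of_nonneg _ _ (by positivity),
      ← ENNReal.rpow_mul]
    unfold mix3
    congr 2
    field_simp
  rw [h6, ← mul_assoc]
  have h8 : ENNReal.ofReal (Y ^ (1 / b)) * ENNReal.ofReal (1 / Y) ^ (1 / b) = 1 := by
    rw [ENNReal.ofReal_rpow_of_pos (by positivity), ← ENNReal.ofReal_mul (by positivity),
      ← Real.mul_rpow hY.le (by positivity), mul_one_div_cancel hY.ne', Real.one_rpow,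
      ENNReal.ofReal_one]
  rw [h8, one_mul]

private theorem keyn_shift {Φ : ℝ → ℝ → ℝ} {h : ℝ → ℝ → ℂ} (a b τ' : ℝ) :
    keyN volume volume a b (fun ζ t => keyn Φ h (ζ + τ') t) =
      keyN volume volume a b (fun ζ t => keyn Φ h ζ t) := by
  unfold keyN
  congr 1
  apply lintegral_congr
  intro t
  congr 1
  exact lintegral_add_right_eq_self (fun ζ => keyn Φ h ζ t ^ b) τ'

/-- JOB S_Key.  The key inequality: two curve estimates combine.

Proof.  `h` is bounded, supported in the bounded box `J × E`.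
Write `G x ζ t = ∫ ee(yζ + tΦ x y) h x y dy` and `G1 x ζ t = ∫ ee(yζ + tΦ x y) (y/Y) h x y dy`
(`|y/Y| ≤ 1` on the support).  Both are bounded, jointly measurable, vanish for `x ∉ J`,
and `∂_ζ G = 2πi Y G1`.
`F(ξ₁,ζ+τ,t) = ∫ ee(xξ₁ + Γ(x)(ζ+τ)) G x (ζ+τ) t dx = H τ τ`, where
`H τ τ' ξ₁ = ∫ ee(xξ₁ + Γ(x)(ζ+τ)) G x (ζ+τ') t dx = TT Γ (x ↦ ee(Γ(x)ζ) G x (ζ+τ') t) ξ₁ τ`.
For `0 ≤ τ ≤ 1/Y`: `G x (ζ+τ) t = G x ζ t + 2πiY ∫_0^τ G1 x (ζ+τ') t dτ'`, so
`|F(ξ₁,ζ+τ,t)| ≤ |H τ 0 ξ₁| + 2πY ∫_0^{1/Y} |H1 τ τ' ξ₁| dτ'` (`H1` with `G1`; Fubini).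
Take the norm `L^b_{τ ∈ [0,1/Y]} L^c_{ξ₁}` (Minkowski inequality for the sum,
`ENNReal.lintegral_Lp_add_le`, and `lint_mink` twice for the `τ'` integral), extend the `τ` integral to
all of `ℝ` and use `hJ` for fixed `τ'`:
`(∫_0^{1/Y} ‖F(·,ζ+τ,t)‖_{L^c}^b dτ)^{1/b} ≤ A1 (n(ζ) + 2πY ∫_0^{1/Y} n1(ζ+τ') dτ')`, with
`n(ζ) = ‖G · ζ t‖_{L²(dx)}`, `n1(ζ) = ‖G1 · ζ t‖_{L²(dx)}`.
Take `L^b` in `ζ ∈ ℝ`: by Tonelli and translation invariance the left side becomes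
`(1/Y)^{1/b} ‖F(·,·,t)‖_{L^b_{ξ₂} L^c_{ξ₁}}`; right side `≤ A1 (‖n‖_{L^b} + 2π ‖n1‖_{L^b})` (`lint_mink` and
translation invariance).  Then `L^a` in `t`: `‖F‖ ≤ Y^{1/b} A1 (‖n‖_{L^a_t L^b_ζ} + 2π ‖n1‖_{L^a_t L^b_ζ})`.
Finally (`lint_mink` with exponents `b/2`, `a/2 ≥ 1`, applied to `‖G x ζ t‖ₑ²`):
`‖n‖²_{L^a_t L^b_ζ} = ‖∫ |G|² dx‖_{L^{a/2}_t L^{b/2}_ζ} ≤ ∫ ‖G x‖²_{L^a_t L^b_ζ} dx ≤ A2² ∫ ‖h x ·‖_2² dx` by `hE` for
each `x ∈ J`; same for `n1`.  `1 + 2π ≤ 8`. -/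
theorem key_ineq (Γ : ℝ → ℝ) (Φ : ℝ → ℝ → ℝ) (J E : Set ℝ) (Y R a b c : ℝ) (A1 A2 : ℝ≥0∞)
    (hY : 0 < Y) (ha : 2 ≤ a) (hb : 2 ≤ b) (hc : 1 ≤ c) (hΓ : Measurable Γ)
    (hΦ : Measurable (fun p : ℝ × ℝ => Φ p.1 p.2)) (hJR : J ⊆ Set.Icc (-R) R)
    (hEY : E ⊆ Set.Icc (-Y) Y) (hJ : StrB Γ J b c A1) (hE : ∀ x ∈ J, StrB (Φ x) E a b A2)
    (h : ℝ → ℝ → ℂ) (hh : BM2 h) (hsupp : ∀ x y, ¬ (x ∈ J ∧ y ∈ E) → h x y = 0) :
    mix3 a b c (FFs Γ Φ h) ≤
      ENNReal.ofReal (8 * Y ^ (1 / b)) * A1 * A2 * (mass2 h) ^ (1 / (2 : ℝ)) := by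
  have hb1 : 1 ≤ b := by linarith
  have ha1 : 1 ≤ a := by linarith
  have h0E : ∀ x y, y ∉ E → h x y = 0 := fun x y hy => hsupp x y (fun h => hy h.2)
  have h0J : ∀ x y, x ∉ J → h x y = 0 := fun x y hx => hsupp x y (fun h => hx h.1)
  have h0Y : ∀ x y, y ∉ Set.Icc (-Y) Y → h x y = 0 := fun x y hy => h0E x y (fun h => hy (hEY h))
  have hH := keyH_bm hY hh h0Y
  have h0E' : ∀ x y, y ∉ E → keyH Y h x y = 0 := fun x y hy => by
    unfold keyH; rw [h0E x y hy, mul_zero]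
  have h0J' : ∀ x y, x ∉ J → keyH Y h x y = 0 := fun x y hx => by
    unfold keyH; rw [h0J x y hx, mul_zero]
  have hFm : Measurable (fun p : ℝ × ℝ × ℝ => FFs Γ Φ h p.1 p.2.1 p.2.2) := by
    unfold FFs
    apply key_measTT (X := ℝ × ℝ × ℝ) (φ := fun _ => Γ)
      (g := fun p => fun x => TT (Φ x) (h x) p.2.1 p.2.2) (u := fun p => p.1)
      (v := fun p => p.2.1)
    · exact hΓ.comp measurable_snd
    · apply key_measTT (X := (ℝ × ℝ × ℝ) × ℝ) (φ := fun p => Φ p.2) (g := fun p => h p.2)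
        (u := fun p => p.1.2.1) (v := fun p => p.1.2.2)
      · exact hΦ.comp (measurable_fst.snd.prodMk measurable_snd)
      · exact hh.1.comp (measurable_fst.snd.prodMk measurable_snd)
      · exact measurable_fst.snd.fst
      · exact measurable_fst.snd.snd
    · exact measurable_fst
    · exact measurable_snd.fst
  rw [key_lhs hY ha1 hb1 hFm]
  -- the estimate for the inner norm
  have hstep : keyN volume volume a b (fun ζ t =>
      keyN (volume.restrict (Set.Ioc 0 (1 / Y))) volume b c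
        (fun ξ₁ τ => ‖FFs Γ Φ h ξ₁ (ζ + τ) t‖ₑ)) ≤
      keyN volume volume a b (fun ζ t => A1 * keyn Φ h ζ t + ENNReal.ofReal (2 * Real.pi * Y) *
        ∫⁻ τ' in Set.Ioc 0 (1 / Y), A1 * keyn Φ (keyH Y h) (ζ + τ') t) :=
    keyN_mono ha1 hb1 (fun ζ t => key_step hY hb1 hc hΓ hΦ hJR hJ hh h0Y h0J ζ t)
  have hm1 : Measurable (fun p : ℝ × ℝ => keyn Φ h p.1 p.2) :=
    keyn_meas hΦ hh measurable_fst measurable_snd
  have hm2 : Measurable (fun p : ℝ × ℝ × ℝ => A1 * keyn Φ (keyH Y h) (p.2.1 + p.1) p.2.2) := by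
    apply Measurable.const_mul
    exact keyn_meas hΦ hH (X := ℝ × ℝ × ℝ) (u := fun p => p.2.1 + p.1) (v := fun p => p.2.2)
      (measurable_snd.fst.add measurable_fst) measurable_snd.snd
  have hm3 : Measurable (fun p : ℝ × ℝ => ∫⁻ τ' in Set.Ioc 0 (1 / Y),
      A1 * keyn Φ (keyH Y h) (p.1 + τ') p.2) := by
    have h6 : Measurable (fun q : ℝ × (ℝ × ℝ) => A1 * keyn Φ (keyH Y h) (q.2.1 + q.1) q.2.2) := hm2
    exact h6.lintegral_prod_left'
  have hm4 : Measurable (fun p : ℝ × ℝ => keyn Φ (keyH Y h) p.1 p.2) :=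
    keyn_meas hΦ hH measurable_fst measurable_snd
  have hB1 := keyn_norm ha hb hΦ hE hh h0E h0J
  have hB2 := keyn_norm ha hb hΦ hE hH h0E' h0J'
  have hmass : mass2 (keyH Y h) ≤ mass2 h := by
    unfold mass2
    apply lintegral_mono
    intro x
    apply lintegral_mono
    intro y
    apply ENNReal.rpow_le_rpow _ (by norm_num)
    exact enorm_le_iff_norm_le.mpr (keyH_le hY h0Y x y)
  have hB2' : keyN volume volume a b (fun ζ t => keyn Φ (keyH Y h) ζ t) ≤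
      A2 * (mass2 h) ^ (1 / (2 : ℝ)) :=
    hB2.trans (by gcongr)
  set B : ℝ≥0∞ := A2 * (mass2 h) ^ (1 / (2 : ℝ)) with hBdef
  have hsum : keyN volume volume a b (fun ζ t => A1 * keyn Φ h ζ t +
      ENNReal.ofReal (2 * Real.pi * Y) *
        ∫⁻ τ' in Set.Ioc 0 (1 / Y), A1 * keyn Φ (keyH Y h) (ζ + τ') t) ≤
      A1 * B + ENNReal.ofReal (2 * Real.pi * Y) * (ENNReal.ofReal (1 / Y) * (A1 * B)) := by
    refine (keyN_add ha1 hb1 (hm1.const_mul _) (hm3.const_mul _)).trans ?_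
    apply add_le_add
    · rw [keyN_const_mul ha1 hb1 hm1]
      gcongr
    · rw [keyN_const_mul ha1 hb1 hm3]
      gcongr
      refine (keyN_int ha1 hb1 (f := fun τ' ζ t => A1 * keyn Φ (keyH Y h) (ζ + τ') t) hm2).trans ?_
      have h9 : ∀ τ' : ℝ, keyN volume volume a b
          (fun ζ t => A1 * keyn Φ (keyH Y h) (ζ + τ') t) ≤ A1 * B := by
        intro τ'
        have h10 : Measurable (fun p : ℝ × ℝ => keyn Φ (keyH Y h) (p.1 + τ') p.2) :=
          keyn_meas hΦ hH (measurable_fst.add_const τ') measurable_snd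
        rw [keyN_const_mul ha1 hb1 h10, keyn_shift]
        gcongr
      calc ∫⁻ τ' in Set.Ioc 0 (1 / Y), keyN volume volume a b
            (fun ζ t => A1 * keyn Φ (keyH Y h) (ζ + τ') t) ≤
            ∫⁻ τ' in Set.Ioc 0 (1 / Y), A1 * B := lintegral_mono h9
        _ = ENNReal.ofReal (1 / Y) * (A1 * B) := by
            rw [setLIntegral_const, Real.volume_Ioc, sub_zero, mul_comm]
  have hconst : A1 * B + ENNReal.ofReal (2 * Real.pi * Y) * (ENNReal.ofReal (1 / Y) * (A1 * B)) =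
      ENNReal.ofReal (1 + 2 * Real.pi) * (A1 * B) := by
    rw [← mul_assoc (ENNReal.ofReal (2 * Real.pi * Y)) (ENNReal.ofReal (1 / Y)) (A1 * B),
      ← ENNReal.ofReal_mul (by positivity)]
    have h11 : 2 * Real.pi * Y * (1 / Y) = 2 * Real.pi := by field_simp
    rw [h11, ENNReal.ofReal_add (by norm_num) (by positivity), ENNReal.ofReal_one, add_mul, one_mul]
  have h8 : ENNReal.ofReal (1 + 2 * Real.pi) ≤ ENNReal.ofReal 8 := by
    apply ENNReal.ofReal_le_ofReal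
    have := Real.pi_lt_d2
    linarith
  calc ENNReal.ofReal (Y ^ (1 / b)) * keyN volume volume a b (fun ζ t =>
        keyN (volume.restrict (Set.Ioc 0 (1 / Y))) volume b c
          (fun ξ₁ τ => ‖FFs Γ Φ h ξ₁ (ζ + τ) t‖ₑ)) ≤
      ENNReal.ofReal (Y ^ (1 / b)) * (ENNReal.ofReal 8 * (A1 * B)) := by
        gcongr
        refine hstep.trans (hsum.trans ?_)
        rw [hconst]
        gcongr
    _ = ENNReal.ofReal (8 * Y ^ (1 / b)) * A1 * A2 * (mass2 h) ^ (1 / (2 : ℝ)) := by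
        rw [ENNReal.ofReal_mul (by norm_num), hBdef]
        ring

end Pool.Agent.FlatRes
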