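import Pool.Agent.Lib.MP_40a0b6_an.S_Basic
set_option autoImplicit false
open MeasureTheory
open scoped ENNReal
namespace Pool.Agent.FlatRes

/-- Hölder's inequality without outer roots. -/
theorem S_MixHol_step {α : Type*} [MeasurableSpace α] (μ : Measure α) {r a a' : ℝ} (hr : 0 < r)
    (ha : 0 < a) (ha' : 0 < a') (h : 1 / a + 1 / a' = 1 / r) {f g : α → ℝ≥0∞}
    (hf : AEMeasurable f μ) (hg : AEMeasurable g μ) :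
    (∫⁻ x, (f x * g x) ^ r ∂μ) ^ (1 / r) ≤
      (∫⁻ x, f x ^ a ∂μ) ^ (1 / a) * (∫⁻ x, g x ^ a' ∂μ) ^ (1 / a') := by
  have h1 : 0 < 1 / a' := by positivity
  have h2 : r < a := by
    have h3 : 1 / a < 1 / r := by linarith
    exact (one_div_lt_one_div ha hr).1 h3
  exact ENNReal.lintegral_Lp_mul_le_Lq_mul_Lr hr h2 h.symm μ hf hg

theorem S_MixHol_step' {α : Type*} [MeasurableSpace α] (μ : Measure α) {r a a' : ℝ} (hr : 0 < r)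
    (ha : 0 < a) (ha' : 0 < a') (h : 1 / a + 1 / a' = 1 / r) {f g : α → ℝ≥0∞}
    (hf : AEMeasurable f μ) (hg : AEMeasurable g μ) :
    (∫⁻ x, (f x * g x) ^ r ∂μ) ≤
      ((∫⁻ x, f x ^ a ∂μ) ^ (1 / a) * (∫⁻ x, g x ^ a' ∂μ) ^ (1 / a')) ^ r := by
  have h1 := ENNReal.rpow_le_rpow (S_MixHol_step μ hr ha ha' h hf hg) hr.le
  rwa [← ENNReal.rpow_mul, one_div_mul_cancel hr.ne', ENNReal.rpow_one] at h1

/-- JOB S_MixHol.  Mixed norm Hölder inequality: apply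
`ENNReal.lintegral_mul_le_Lp_mul_Lq` (exponents `a/r` and `a'/r`, which are conjugate) three times. -/
theorem mix_holder (F G : ℝ → ℝ → ℝ → ℂ)
    (hF : Measurable (fun p : ℝ × ℝ × ℝ => F p.1 p.2.1 p.2.2))
    (hG : Measurable (fun p : ℝ × ℝ × ℝ => G p.1 p.2.1 p.2.2)) (r a b c a' b' c' : ℝ)
    (hr : 0 < r) (ha : 0 < a) (hb : 0 < b) (hc : 0 < c) (ha' : 0 < a') (hb' : 0 < b')
    (hc' : 0 < c') (h1 : 1 / a + 1 / a' = 1 / r) (h2 : 1 / b + 1 / b' = 1 / r)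
    (h3 : 1 / c + 1 / c' = 1 / r) :
    (∫⁻ t, ∫⁻ ξ₂, ∫⁻ ξ₁, (‖F ξ₁ ξ₂ t‖ₑ * ‖G ξ₁ ξ₂ t‖ₑ) ^ r) ^ (1 / r) ≤
      mix3 a b c F * mix3 a' b' c' G := by
  -- measurability of the partial norms
  have m1 : ∀ (H : ℝ → ℝ → ℝ → ℂ), Measurable (fun p : ℝ × ℝ × ℝ => H p.1 p.2.1 p.2.2) →
      ∀ c : ℝ, Measurable (fun q : ℝ × ℝ => ∫⁻ ξ₁, ‖H ξ₁ q.2 q.1‖ₑ ^ c) := by
    intro H hH c
    have h : Measurable (fun p : (ℝ × ℝ) × ℝ => ‖H p.2 p.1.2 p.1.1‖ₑ ^ c) := by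
      have e : (fun p : (ℝ × ℝ) × ℝ => H p.2 p.1.2 p.1.1) =
          (fun p : ℝ × ℝ × ℝ => H p.1 p.2.1 p.2.2) ∘
            (fun p : (ℝ × ℝ) × ℝ => (p.2, p.1.2, p.1.1)) := rfl
      have h' : Measurable (fun p : (ℝ × ℝ) × ℝ => H p.2 p.1.2 p.1.1) := by
        rw [e]
        exact hH.comp (by fun_prop)
      exact h'.enorm.pow_const c
    exact h.lintegral_prod_right'
  have m2 : ∀ (H : ℝ → ℝ → ℝ → ℂ), Measurable (fun p : ℝ × ℝ × ℝ => H p.1 p.2.1 p.2.2) →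
      ∀ (c d : ℝ), Measurable (fun t : ℝ => ∫⁻ ξ₂, (∫⁻ ξ₁, ‖H ξ₁ ξ₂ t‖ₑ ^ c) ^ d) := by
    intro H hH c d
    have h : Measurable (fun q : ℝ × ℝ => (∫⁻ ξ₁, ‖H ξ₁ q.2 q.1‖ₑ ^ c) ^ d) :=
      (m1 H hH c).pow_const d
    exact h.lintegral_prod_right'
  have key1 : ∀ t ξ₂, (∫⁻ ξ₁, (‖F ξ₁ ξ₂ t‖ₑ * ‖G ξ₁ ξ₂ t‖ₑ) ^ r) ≤
      ((∫⁻ ξ₁, ‖F ξ₁ ξ₂ t‖ₑ ^ c) ^ (1 / c) * (∫⁻ ξ₁, ‖G ξ₁ ξ₂ t‖ₑ ^ c') ^ (1 / c')) ^ r := by
    intro t ξ₂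
    refine S_MixHol_step' volume hr hc hc' h3 ?_ ?_
    · exact (hF.comp (by fun_prop : Measurable fun x : ℝ => (x, ξ₂, t))).enorm.aemeasurable
    · exact (hG.comp (by fun_prop : Measurable fun x : ℝ => (x, ξ₂, t))).enorm.aemeasurable
  have key2 : ∀ t, (∫⁻ ξ₂, ∫⁻ ξ₁, (‖F ξ₁ ξ₂ t‖ₑ * ‖G ξ₁ ξ₂ t‖ₑ) ^ r) ≤
      ((∫⁻ ξ₂, (∫⁻ ξ₁, ‖F ξ₁ ξ₂ t‖ₑ ^ c) ^ (b / c)) ^ (1 / b) *
        (∫⁻ ξ₂, (∫⁻ ξ₁, ‖G ξ₁ ξ₂ t‖ₑ ^ c') ^ (b' / c')) ^ (1 / b')) ^ r := by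
    intro t
    refine (lintegral_mono fun ξ₂ => key1 t ξ₂).trans ?_
    have h := S_MixHol_step' (μ := (volume : Measure ℝ)) hr hb hb' h2
      (f := fun ξ₂ => (∫⁻ ξ₁, ‖F ξ₁ ξ₂ t‖ₑ ^ c) ^ (1 / c))
      (g := fun ξ₂ => (∫⁻ ξ₁, ‖G ξ₁ ξ₂ t‖ₑ ^ c') ^ (1 / c'))
      (((m1 F hF c).comp (by fun_prop : Measurable fun x : ℝ => (t, x))).pow_const _).aemeasurable
      (((m1 G hG c').comp (by fun_prop : Measurable fun x : ℝ => (t, x))).pow_const _).aemeasurable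
    simp only [← ENNReal.rpow_mul] at h
    rw [one_div_mul_eq_div, one_div_mul_eq_div] at h
    exact h
  have h := S_MixHol_step (μ := (volume : Measure ℝ)) hr ha ha' h1
    (f := fun t => (∫⁻ ξ₂, (∫⁻ ξ₁, ‖F ξ₁ ξ₂ t‖ₑ ^ c) ^ (b / c)) ^ (1 / b))
    (g := fun t => (∫⁻ ξ₂, (∫⁻ ξ₁, ‖G ξ₁ ξ₂ t‖ₑ ^ c') ^ (b' / c')) ^ (1 / b'))
    ((m2 F hF c _).pow_const _).aemeasurable ((m2 G hG c' _).pow_const _).aemeasurable
  simp only [← ENNReal.rpow_mul] at h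
  rw [one_div_mul_eq_div, one_div_mul_eq_div] at h
  refine le_trans ?_ h
  refine ENNReal.rpow_le_rpow (lintegral_mono fun t => ?_) (by positivity)
  exact key2 t

/-- `FFs Γ Φ h` is jointly measurable. (`BM2 h`, `h` vanishes outside a bounded box; measurability of
parameter integrals: `MeasureTheory.StronglyMeasurable.integral_prod_right`.) -/
theorem measurable_FF (Γ : ℝ → ℝ) (Φ : ℝ → ℝ → ℝ) (hΓ : Measurable Γ)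
    (hΦ : Measurable (fun p : ℝ × ℝ => Φ p.1 p.2)) (h : ℝ → ℝ → ℂ)
    (hh : Measurable (fun p : ℝ × ℝ => h p.1 p.2)) :
    Measurable (fun p : ℝ × ℝ × ℝ => FFs Γ Φ h p.1 p.2.1 p.2.2) := by
  unfold FFs TT
  -- the inner integral as a function of `(ξ₂, t, x)`
  have h1 : StronglyMeasurable (fun q : (ℝ × ℝ × ℝ) × ℝ =>
      ∫ y, ee (y * q.1.2.1 + q.1.2.2 * Φ q.2 y) * h q.2 y) := by
    have h2 : StronglyMeasurable (fun w : ((ℝ × ℝ × ℝ) × ℝ) × ℝ =>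
        ee (w.2 * w.1.1.2.1 + w.1.1.2.2 * Φ w.1.2 w.2) * h w.1.2 w.2) := by
      apply Measurable.stronglyMeasurable
      have hm : Measurable (fun w : ((ℝ × ℝ × ℝ) × ℝ) × ℝ => (w.1.2, w.2)) := by fun_prop
      have hΦ' : Measurable (fun w : ((ℝ × ℝ × ℝ) × ℝ) × ℝ => Φ w.1.2 w.2) := hΦ.comp hm
      have hh' : Measurable (fun w : ((ℝ × ℝ × ℝ) × ℝ) × ℝ => h w.1.2 w.2) := hh.comp hm
      refine Measurable.mul (measurable_ee.comp ?_) hh'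
      exact (by fun_prop : Measurable fun w : ((ℝ × ℝ × ℝ) × ℝ) × ℝ => w.2 * w.1.1.2.1).add
        ((by fun_prop : Measurable fun w : ((ℝ × ℝ × ℝ) × ℝ) × ℝ => w.1.1.2.2).mul hΦ')
    exact h2.integral_prod_right'
  have h3 : StronglyMeasurable (fun q : (ℝ × ℝ × ℝ) × ℝ =>
      ee (q.2 * q.1.1 + q.1.2.1 * Γ q.2) *
        ∫ y, ee (y * q.1.2.1 + q.1.2.2 * Φ q.2 y) * h q.2 y) := by
    refine StronglyMeasurable.mul (Measurable.stronglyMeasurable (measurable_ee.comp ?_)) h1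
    exact (by fun_prop : Measurable fun q : (ℝ × ℝ × ℝ) × ℝ => q.2 * q.1.1).add
      ((by fun_prop : Measurable fun q : (ℝ × ℝ × ℝ) × ℝ => q.1.2.1).mul
        (hΓ.comp (by fun_prop)))
  exact h3.integral_prod_right'.measurable

end Pool.Agent.FlatRes
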