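import Pool.Agent.Lib.MP_40a0b6_an.S_DualB
set_option autoImplicit false
open MeasureTheory
open scoped ENNReal
namespace Pool.Agent.FlatRes

theorem Str_int {g : ℝ → ℂ} (hg : BddMeas g) {α β : ℝ} (h0 : ∀ y, y ∉ Set.Icc α β → g y = 0) :
    Integrable g := by
  obtain ⟨hm, M, hM⟩ := hg
  have h1 : volume (Function.support g) ≤ volume (Set.Icc α β) :=
    measure_mono (fun y hy => by_contra fun hc => hy (h0 y hc))
  have : Nice volume g :=
    ⟨hm, ⟨M, hM⟩, ne_top_of_le_ne_top (by rw [Real.volume_Icc]; exact ENNReal.ofReal_ne_top) h1⟩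
  exact Form_int this

theorem Str_F_meas (φ : ℝ → ℝ) (hφ : Measurable φ) {g : ℝ → ℂ} (hg : Measurable g) :
    Measurable (fun p : ℝ × ℝ => TT φ g p.1 p.2) := by
  unfold TT
  have h : StronglyMeasurable
      (fun p : (ℝ × ℝ) × ℝ => ee (p.2 * p.1.1 + p.1.2 * φ p.2) * g p.2) := by
    apply Measurable.stronglyMeasurable
    exact (measurable_ee.comp (by fun_prop)).mul (hg.comp measurable_snd)
  exact h.integral_prod_right.measurable

theorem Str_F_bdd (φ : ℝ → ℝ) (g : ℝ → ℂ) (ξ t : ℝ) : ‖TT φ g ξ t‖ ≤ ∫ y, ‖g y‖ := by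
  unfold TT
  refine (norm_integral_le_integral_norm _).trans (le_of_eq ?_)
  congr 1
  funext y
  rw [norm_mul, norm_ee, one_mul]

/-- cancellation: `S ≤ K S^{1/a'}` with `S < ∞` gives `S ≤ K^a`. -/
theorem Str_cancel {a : ℝ} (ha : 1 < a) {S K : ℝ≥0∞} (hS : S ≠ ⊤)
    (h : S ≤ K * S ^ (1 / (a / (a - 1)))) : S ≤ K ^ a := by
  have ha0 : 0 < a := by linarith
  have ha1 : 0 < a - 1 := by linarith
  rcases eq_or_ne S 0 with h0 | h0
  · rw [h0]; exact zero_le
  have e1 : S = S ^ (1 / a) * S ^ (1 / (a / (a - 1))) := by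
    rw [← ENNReal.rpow_add _ _ h0 hS]
    rw [show 1 / a + 1 / (a / (a - 1)) = 1 by field_simp; ring, ENNReal.rpow_one]
  have h2 : S ^ (1 / (a / (a - 1))) ≠ 0 := by
    intro hc
    rcases ENNReal.rpow_eq_zero_iff.mp hc with h3 | h3
    · exact h0 h3.1
    · exact hS h3.1
  have h3 : S ^ (1 / (a / (a - 1))) ≠ ⊤ :=
    ENNReal.rpow_ne_top_of_nonneg (by positivity) hS
  have h4 : S ^ (1 / a) ≤ K := by
    have h5 : S ^ (1 / a) * S ^ (1 / (a / (a - 1))) ≤ K * S ^ (1 / (a / (a - 1))) := by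
      rw [← e1]; exact h
    exact (ENNReal.mul_le_mul_iff_left h2 h3).mp h5
  calc S = (S ^ (1 / a)) ^ a := by
        rw [← ENNReal.rpow_mul, one_div_mul_cancel ha0.ne', ENNReal.rpow_one]
    _ ≤ K ^ a := ENNReal.rpow_le_rpow h4 ha0.le

theorem Str_enorm_rpow (z : ℂ) (b : ℝ) (hb : 0 ≤ b) : ‖z‖ₑ ^ b = ENNReal.ofReal (‖z‖ ^ b) := by
  rw [← ofReal_norm, ENNReal.ofReal_rpow_of_nonneg (norm_nonneg _) hb]

/-- the core duality step for fixed truncation parameters -/
theorem Str_fix (a b : ℝ) (ha : 2 < a) (hb : 2 < b) (F : ℝ → ℝ → ℂ)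
    (mF : Measurable (fun p : ℝ × ℝ => F p.1 p.2)) (G : ℝ) (bF : ∀ ξ t, ‖F ξ t‖ ≤ G) (K : ℝ≥0∞)
    (hK : ∀ f : ℝ → ℝ → ℂ, BM2 f → (∃ R : ℝ, ∀ ξ t, R < |ξ| ∨ R < |t| → f ξ t = 0) →
      ‖∫ t, ∫ ξ, F ξ t * f ξ t‖ₑ ≤ K * mix2 (a / (a - 1)) (b / (b - 1)) f)
    (R ε : ℝ) (hε : 0 < ε) :
    ∫⁻ t, (if |t| ≤ R ∧ ENNReal.ofReal ε ≤ ∫⁻ ξ in Set.Icc (-R) R, ‖F ξ t‖ₑ ^ b then
      (∫⁻ ξ in Set.Icc (-R) R, ‖F ξ t‖ₑ ^ b) ^ (a / b) else 0) ≤ K ^ a := by
  classical
  have ha0 : 0 < a := by linarith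
  have ha1 : 0 < a - 1 := by linarith
  have hb0 : 0 < b := by linarith
  have hb1 : 0 < b - 1 := by linarith
  have hGn : 0 ≤ G := (norm_nonneg _).trans (bF 0 0)
  have hfin : volume (Set.Icc (-R) R) ≠ ⊤ := by
    rw [Real.volume_Icc]
    exact ENNReal.ofReal_ne_top
  set m : ℝ → ℝ := fun t => ∫ ξ in Set.Icc (-R) R, ‖F ξ t‖ ^ b with hm
  have mslice : ∀ t, Measurable (fun ξ => F ξ t) := fun t =>
    mF.comp (g := fun p : ℝ × ℝ => F p.1 p.2) (f := fun ξ : ℝ => (ξ, t)) (by fun_prop)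
  have hint : ∀ t, IntegrableOn (fun ξ => ‖F ξ t‖ ^ b) (Set.Icc (-R) R) := by
    intro t
    refine Measure.integrableOn_of_bounded (M := G ^ b) hfin
      (((mslice t).norm.pow_const b).aestronglyMeasurable) (Filter.Eventually.of_forall fun ξ => ?_)
    rw [Real.norm_of_nonneg (by positivity)]
    exact Real.rpow_le_rpow (norm_nonneg _) (bF ξ t) hb0.le
  have hm0 : ∀ t, 0 ≤ m t := fun t => integral_nonneg fun ξ => by positivity
  have em : ∀ t, ∫⁻ ξ in Set.Icc (-R) R, ‖F ξ t‖ₑ ^ b = ENNReal.ofReal (m t) := by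
    intro t
    rw [hm]
    simp only
    rw [ofReal_integral_eq_lintegral_ofReal (hint t)
      (Filter.Eventually.of_forall fun ξ => by positivity)]
    congr 1
    funext ξ
    exact Str_enorm_rpow _ _ hb0.le
  set B : ℝ := G ^ b * (volume.real (Set.Icc (-R) R)) with hB
  have hB0 : 0 ≤ B := by positivity
  have mB : ∀ t, m t ≤ B := by
    intro t
    have := norm_setIntegral_le_of_norm_le_const (μ := volume) (s := Set.Icc (-R) R)
      (f := fun ξ => ‖F ξ t‖ ^ b) (C := G ^ b) (lt_top_iff_ne_top.mpr hfin) (fun ξ _ => by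
        rw [Real.norm_of_nonneg (by positivity)]
        exact Real.rpow_le_rpow (norm_nonneg _) (bF ξ t) hb0.le)
    exact (le_abs_self _).trans this
  have mm : Measurable m := by
    have h : StronglyMeasurable (fun p : ℝ × ℝ => ‖F p.2 p.1‖ ^ b) :=
      (((mF.comp measurable_swap).norm).pow_const b).stronglyMeasurable
    exact (h.integral_prod_right (ν := volume.restrict (Set.Icc (-R) R))).measurable
  set w : ℝ → ℝ := fun t => if |t| ≤ R ∧ ε ≤ m t then (m t) ^ ((a - b) / b) else 0 with hw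
  have mset : MeasurableSet {t : ℝ | |t| ≤ R ∧ ε ≤ m t} := by
    have h1 : MeasurableSet {t : ℝ | |t| ≤ R} := measurableSet_le (by fun_prop) measurable_const
    have h2 : MeasurableSet {t : ℝ | ε ≤ m t} := measurableSet_le measurable_const mm
    exact h1.inter h2
  have mw : Measurable w := Measurable.ite mset (mm.pow_const _) measurable_const
  have hw0 : ∀ t, 0 ≤ w t := by
    intro t
    rw [hw]
    simp only
    split_ifs
    · exact Real.rpow_nonneg (hm0 t) _
    · exact le_rfl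
  set W : ℝ := max (ε ^ ((a - b) / b)) (B ^ ((a - b) / b)) with hW
  have hW0 : 0 ≤ W := le_max_of_le_left (by positivity)
  have wW : ∀ t, w t ≤ W := by
    intro t
    rw [hw]
    simp only
    split_ifs with h
    · rcases le_total 0 ((a - b) / b) with hs | hs
      · exact le_max_of_le_right (Real.rpow_le_rpow (hm0 t) (mB t) hs)
      · exact le_max_of_le_left (Real.rpow_le_rpow_of_nonpos hε h.2 hs)
    · exact hW0
  -- the dual function
  set f : ℝ → ℝ → ℂ := fun ξ t => if |ξ| ≤ R then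
    (starRingEnd ℂ) (F ξ t) * ((‖F ξ t‖ ^ (b - 2) * w t : ℝ) : ℂ) else 0 with hf
  have normf : ∀ ξ t, ‖f ξ t‖ = if |ξ| ≤ R then ‖F ξ t‖ ^ (b - 1) * w t else 0 := by
    intro ξ t
    rw [hf]
    simp only
    split_ifs with h
    · rw [norm_mul, RCLike.norm_conj, Complex.norm_real, Real.norm_of_nonneg
        (mul_nonneg (by positivity) (hw0 t)), ← mul_assoc]
      congr 1
      rw [show b - 1 = 1 + (b - 2) by ring, Real.rpow_one_add' (norm_nonneg _) (by linarith)]
    · exact norm_zero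
  have mf : Measurable (fun p : ℝ × ℝ => f p.1 p.2) := by
    rw [hf]
    simp only
    refine Measurable.ite (measurableSet_le (by fun_prop) measurable_const) ?_ measurable_const
    refine (Complex.continuous_conj.measurable.comp mF).mul (Complex.measurable_ofReal.comp ?_)
    exact (mF.norm.pow_const _).mul (mw.comp measurable_snd)
  have hfB : BM2 f := by
    refine ⟨mf, G ^ (b - 1) * W, fun ξ t => ?_⟩
    rw [normf]
    split_ifs
    · exact mul_le_mul (Real.rpow_le_rpow (norm_nonneg _) (bF ξ t) hb1.le) (wW t) (hw0 t)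
        (by positivity)
    · positivity
  have hfz : ∀ ξ t, R < |ξ| ∨ R < |t| → f ξ t = 0 := by
    intro ξ t h
    rw [hf]
    simp only
    rcases h with h | h
    · rw [if_neg (not_le.mpr h)]
    · have : w t = 0 := by
        rw [hw]
        simp only
        rw [if_neg (fun hc => absurd hc.1 (not_le.mpr h))]
      rw [this]
      simp
  -- the integrand of S in real form
  have eI : ∀ t, (if |t| ≤ R ∧ ENNReal.ofReal ε ≤ ∫⁻ ξ in Set.Icc (-R) R, ‖F ξ t‖ₑ ^ b then
      (∫⁻ ξ in Set.Icc (-R) R, ‖F ξ t‖ₑ ^ b) ^ (a / b) else 0) = ENNReal.ofReal (m t * w t) := by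
    intro t
    rw [em t, hw]
    simp only
    by_cases h : |t| ≤ R ∧ ε ≤ m t
    · have hmpos : 0 < m t := lt_of_lt_of_le hε h.2
      rw [if_pos ⟨h.1, ENNReal.ofReal_le_ofReal h.2⟩, if_pos h,
        ENNReal.ofReal_rpow_of_nonneg (hm0 t) (by positivity)]
      congr 1
      rw [show a / b = 1 + (a - b) / b by field_simp; ring, Real.rpow_add hmpos, Real.rpow_one]
    · rw [if_neg (fun hc => h ⟨hc.1, (ENNReal.ofReal_le_ofReal_iff (hm0 t)).mp hc.2⟩), if_neg h]
      simp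
  -- pairing
  have ind : ∀ ξ : ℝ, (|ξ| ≤ R) ↔ ξ ∈ Set.Icc (-R) R := fun ξ => abs_le
  have pair1 : ∀ t, ∫ ξ, F ξ t * f ξ t = ((m t * w t : ℝ) : ℂ) := by
    intro t
    have e : (fun ξ => F ξ t * f ξ t) =
        (Set.Icc (-R) R).indicator (fun ξ => ((‖F ξ t‖ ^ b * w t : ℝ) : ℂ)) := by
      funext ξ
      by_cases h : |ξ| ≤ R
      · rw [Set.indicator_of_mem ((ind ξ).mp h), hf]
        simp only
        rw [if_pos h, ← mul_assoc, RCLike.mul_conj]
        have : ‖F ξ t‖ ^ b = ‖F ξ t‖ ^ 2 * ‖F ξ t‖ ^ (b - 2) := by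
          rw [← Real.rpow_natCast, ← Real.rpow_add' (norm_nonneg _) (by push_cast; linarith)]
          congr 1
          push_cast
          ring
        rw [this]
        push_cast
        simp only [Complex.coe_algebraMap]
        ring
      · rw [Set.indicator_of_notMem (fun hc => h ((ind ξ).mpr hc)), hf]
        simp only
        rw [if_neg h, mul_zero]
    rw [e, integral_indicator measurableSet_Icc, integral_complex_ofReal, integral_mul_const]
  have hmw : ∀ t, m t * w t ≤ (Set.Icc (-R) R).indicator (fun _ => B * W) t := by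
    intro t
    by_cases h : |t| ≤ R
    · rw [Set.indicator_of_mem ((ind t).mp h)]
      exact mul_le_mul (mB t) (wW t) (hw0 t) hB0
    · rw [Set.indicator_of_notMem (fun hc => h ((ind t).mpr hc)), hw]
      simp only
      rw [if_neg (fun hc => h hc.1), mul_zero]
  have hmwint : Integrable (fun t => m t * w t) := by
    refine (DualB_ind R (B * W)).mono' (mm.mul mw).aestronglyMeasurable
      (Filter.Eventually.of_forall fun t => ?_)
    rw [Real.norm_of_nonneg (mul_nonneg (hm0 t) (hw0 t))]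
    exact hmw t
  have pair2 : ‖∫ t, ∫ ξ, F ξ t * f ξ t‖ₑ = ∫⁻ t, ENNReal.ofReal (m t * w t) := by
    simp_rw [pair1]
    rw [integral_complex_ofReal, ← ofReal_norm, Complex.norm_real,
      Real.norm_of_nonneg (integral_nonneg fun t => mul_nonneg (hm0 t) (hw0 t)),
      ofReal_integral_eq_lintegral_ofReal hmwint
        (Filter.Eventually.of_forall fun t => mul_nonneg (hm0 t) (hw0 t))]
  have hSfin : ∫⁻ t, ENNReal.ofReal (m t * w t) ≠ ⊤ := by
    rw [← ofReal_integral_eq_lintegral_ofReal hmwint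
        (Filter.Eventually.of_forall fun t => mul_nonneg (hm0 t) (hw0 t))]
    exact ENNReal.ofReal_ne_top
  have ab' : 0 < a / (a - 1) := by positivity
  have bb' : 0 < b / (b - 1) := by positivity
  have mixf : mix2 (a / (a - 1)) (b / (b - 1)) f =
      (∫⁻ t, ENNReal.ofReal (m t * w t)) ^ (1 / (a / (a - 1))) := by
    unfold mix2
    congr 2
    funext t
    have e1 : ∫⁻ ξ, ‖f ξ t‖ₑ ^ (b / (b - 1)) = ENNReal.ofReal (m t * w t ^ (b / (b - 1))) := by
      have e : (fun ξ => ‖f ξ t‖ₑ ^ (b / (b - 1))) = (Set.Icc (-R) R).indicator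
          (fun ξ => ENNReal.ofReal (‖F ξ t‖ ^ b * w t ^ (b / (b - 1)))) := by
        funext ξ
        rw [Str_enorm_rpow _ _ bb'.le, normf]
        by_cases h : |ξ| ≤ R
        · rw [Set.indicator_of_mem ((ind ξ).mp h), if_pos h]
          congr 1
          rw [Real.mul_rpow (by positivity) (hw0 t), ← Real.rpow_mul (norm_nonneg _)]
          congr 2
          field_simp
        · rw [Set.indicator_of_notMem (fun hc => h ((ind ξ).mpr hc)), if_neg h,
            Real.zero_rpow bb'.ne', ENNReal.ofReal_zero]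
      rw [e, lintegral_indicator measurableSet_Icc,
        ← ofReal_integral_eq_lintegral_ofReal ((hint t).mul_const _)
          (Filter.Eventually.of_forall fun ξ => mul_nonneg (by positivity)
            (Real.rpow_nonneg (hw0 t) _)), integral_mul_const]
    rw [e1, ENNReal.ofReal_rpow_of_nonneg
      (mul_nonneg (hm0 t) (Real.rpow_nonneg (hw0 t) _)) (by positivity)]
    congr 1
    rw [Real.mul_rpow (hm0 t) (Real.rpow_nonneg (hw0 t) _), ← Real.rpow_mul (hw0 t)]
    by_cases h : |t| ≤ R ∧ ε ≤ m t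
    · have hmpos : 0 < m t := lt_of_lt_of_le hε h.2
      have ew : w t = (m t) ^ ((a - b) / b) := by
        rw [hw]
        simp only
        rw [if_pos h]
      rw [ew, ← Real.rpow_mul hmpos.le, ← Real.rpow_add hmpos]
      nth_rewrite 2 [← Real.rpow_one (m t)]
      rw [← Real.rpow_add hmpos]
      congr 1
      field_simp
      ring
    · have ew : w t = 0 := by
        rw [hw]
        simp only
        rw [if_neg h]
      rw [ew, Real.zero_rpow (by positivity), mul_zero, mul_zero]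
  simp_rw [eI]
  have key := hK f hfB ⟨R, hfz⟩
  rw [pair2, mixf] at key
  exact Str_cancel (by linarith) hSfin key

theorem Str_duality (a b : ℝ) (ha : 2 < a) (hb : 2 < b) (F : ℝ → ℝ → ℂ)
    (mF : Measurable (fun p : ℝ × ℝ => F p.1 p.2)) (G : ℝ) (bF : ∀ ξ t, ‖F ξ t‖ ≤ G) (K : ℝ≥0∞)
    (hK : ∀ f : ℝ → ℝ → ℂ, BM2 f → (∃ R : ℝ, ∀ ξ t, R < |ξ| ∨ R < |t| → f ξ t = 0) →
      ‖∫ t, ∫ ξ, F ξ t * f ξ t‖ₑ ≤ K * mix2 (a / (a - 1)) (b / (b - 1)) f) :
    mix2 a b F ≤ K := by
  classical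
  have ha0 : 0 < a := by linarith
  have hb0 : 0 < b := by linarith
  have hab0 : 0 < a / b := by positivity
  set M : ℕ → ℝ → ℝ≥0∞ := fun n t => ∫⁻ ξ in Set.Icc (-(n : ℝ)) n, ‖F ξ t‖ₑ ^ b with hM
  have mM : ∀ n, Measurable (M n) := by
    intro n
    have m1 : Measurable (fun p : ℝ × ℝ => ‖F p.2 p.1‖ₑ ^ b) :=
      ((mF.comp measurable_swap).enorm).pow_const _
    exact m1.lintegral_prod_right' (ν := volume.restrict (Set.Icc (-(n : ℝ)) n))
  have mslice : ∀ t, Measurable (fun ξ => ‖F ξ t‖ₑ ^ b) := fun t =>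
    ((mF.comp (g := fun p : ℝ × ℝ => F p.1 p.2) (f := fun ξ : ℝ => (ξ, t))
      (by fun_prop)).enorm).pow_const _
  have limM : ∀ t, Filter.Tendsto (fun n => M n t) Filter.atTop (nhds (∫⁻ ξ, ‖F ξ t‖ₑ ^ b)) := by
    intro t
    have hc : AECover volume Filter.atTop (fun n : ℕ => Set.Icc (-(n : ℝ)) n) :=
      aecover_Icc (Filter.tendsto_neg_atTop_atBot.comp tendsto_natCast_atTop_atTop)
        tendsto_natCast_atTop_atTop
    exact hc.lintegral_tendsto_of_countably_generated (mslice t).aemeasurable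
  set h : ℕ → ℝ → ℝ≥0∞ := fun n t =>
    if |t| ≤ (n : ℝ) ∧ ENNReal.ofReal (1 / ((n : ℝ) + 1)) ≤ M n t then M n t ^ (a / b) else 0 with hh
  have mh : ∀ n, Measurable (h n) := by
    intro n
    have h1 : MeasurableSet {t : ℝ | |t| ≤ (n : ℝ)} :=
      measurableSet_le (by fun_prop) measurable_const
    have h2 : MeasurableSet {t : ℝ | ENNReal.ofReal (1 / ((n : ℝ) + 1)) ≤ M n t} :=
      measurableSet_le measurable_const (mM n)
    exact Measurable.ite (h1.inter h2) ((mM n).pow_const _) measurable_const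
  have hlim : ∀ t, Filter.Tendsto (fun n => h n t) Filter.atTop
      (nhds ((∫⁻ ξ, ‖F ξ t‖ₑ ^ b) ^ (a / b))) := by
    intro t
    rcases eq_or_ne (∫⁻ ξ, ‖F ξ t‖ₑ ^ b) 0 with h0 | h0
    · have e : (fun n => h n t) = fun _ => 0 := by
        funext n
        have : M n t = 0 := by
          have h3 : M n t ≤ ∫⁻ ξ, ‖F ξ t‖ₑ ^ b := setLIntegral_le_lintegral _ _
          rw [h0] at h3
          exact le_antisymm h3 zero_le
        rw [hh]
        simp only
        rw [this, ENNReal.zero_rpow_of_pos hab0, ite_self]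
      rw [e, h0, ENNReal.zero_rpow_of_pos hab0]
      exact tendsto_const_nhds
    · have e1 : ∀ᶠ n : ℕ in Filter.atTop, |t| ≤ (n : ℝ) := by
        filter_upwards [Filter.eventually_ge_atTop ⌈|t|⌉₊] with n hn
        exact (Nat.le_ceil _).trans (by exact_mod_cast hn)
      have e2 : ∀ᶠ n : ℕ in Filter.atTop, ENNReal.ofReal (1 / ((n : ℝ) + 1)) < M n t := by
        have h3 : Filter.Tendsto (fun n : ℕ => ENNReal.ofReal (1 / ((n : ℝ) + 1))) Filter.atTop
            (nhds 0) := by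
          have := ENNReal.tendsto_ofReal (tendsto_one_div_add_atTop_nhds_zero_nat (𝕜 := ℝ))
          rwa [ENNReal.ofReal_zero] at this
        exact h3.eventually_lt (limM t) (pos_iff_ne_zero.mpr h0)
      have h4 : Filter.Tendsto (fun n => M n t ^ (a / b)) Filter.atTop
          (nhds ((∫⁻ ξ, ‖F ξ t‖ₑ ^ b) ^ (a / b))) :=
        (ENNReal.continuous_rpow_const.tendsto _).comp (limM t)
      refine h4.congr' ?_
      filter_upwards [e1, e2] with n hn1 hn2
      rw [hh]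
      simp only
      rw [if_pos ⟨hn1, hn2.le⟩]
  have hn : ∀ n, ∫⁻ t, h n t ≤ K ^ a := fun n =>
    Str_fix a b ha hb F mF G bF K hK n (1 / ((n : ℝ) + 1)) (by positivity)
  have main : ∫⁻ t, (∫⁻ ξ, ‖F ξ t‖ₑ ^ b) ^ (a / b) ≤ K ^ a := by
    calc ∫⁻ t, (∫⁻ ξ, ‖F ξ t‖ₑ ^ b) ^ (a / b)
        = ∫⁻ t, Filter.liminf (fun n => h n t) Filter.atTop := by
          congr 1
          funext t
          exact (hlim t).liminf_eq.symm
      _ ≤ Filter.liminf (fun n => ∫⁻ t, h n t) Filter.atTop := lintegral_liminf_le mh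
      _ ≤ Filter.liminf (fun _ : ℕ => K ^ a) Filter.atTop :=
          Filter.liminf_le_liminf (Filter.Eventually.of_forall hn)
      _ = K ^ a := by simp
  unfold mix2
  calc (∫⁻ t, (∫⁻ ξ, ‖F ξ t‖ₑ ^ b) ^ (a / b)) ^ (1 / a) ≤ (K ^ a) ^ (1 / a) :=
        ENNReal.rpow_le_rpow main (by positivity)
    _ = K := by rw [← ENNReal.rpow_mul, mul_one_div_cancel ha0.ne', ENNReal.rpow_one]

theorem Str_f_int {f : ℝ → ℝ → ℂ} (hf : BM2 f) {R : ℝ}
    (hR : ∀ ξ t, R < |ξ| ∨ R < |t| → f ξ t = 0) :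
    Integrable (fun p : ℝ × ℝ => f p.2 p.1) (volume.prod volume) := by
  obtain ⟨hm, M, hM⟩ := hf
  have h5 : Integrable (fun p : ℝ × ℝ => (Set.Icc (-R) R).indicator (fun _ : ℝ => (1 : ℝ)) p.1 *
      (Set.Icc (-R) R).indicator (fun _ : ℝ => M) p.2) (volume.prod volume) :=
    (DualB_ind R 1).mul_prod (DualB_ind R M)
  refine h5.mono' (hm.comp measurable_swap).aestronglyMeasurable
    (Filter.Eventually.of_forall fun p => ?_)
  by_cases h1 : p.1 ∈ Set.Icc (-R) R
  · by_cases h2 : p.2 ∈ Set.Icc (-R) R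
    · rw [Set.indicator_of_mem h1, Set.indicator_of_mem h2, one_mul]
      exact hM _ _
    · rw [Set.indicator_of_notMem h2, hR, norm_zero, mul_zero]
      left
      by_contra hc
      exact h2 (abs_le.mp (not_lt.mp hc))
  · rw [Set.indicator_of_notMem h1, hR, norm_zero, zero_mul]
    right
    by_contra hc
    exact h1 (abs_le.mp (not_lt.mp hc))

theorem Str_fubini {φ : ℝ → ℝ} (hφ : Measurable φ) {g : ℝ → ℂ} (mg : Measurable g)
    (hg : Integrable g) {f : ℝ → ℝ → ℂ} (hf : BM2 f) {R : ℝ}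
    (hR : ∀ ξ t, R < |ξ| ∨ R < |t| → f ξ t = 0) :
    ∫ t, ∫ ξ, TT φ g ξ t * f ξ t =
      ∫ y, g y * ∫ t, ∫ ξ, ee (y * ξ + t * φ y) * f ξ t := by
  have hfi := Str_f_int hf hR
  have hI : Integrable (Function.uncurry fun (p : ℝ × ℝ) (y : ℝ) =>
      ee (y * p.2 + p.1 * φ y) * (f p.2 p.1 * g y)) ((volume.prod volume).prod volume) := by
    have h1 : Integrable (fun q : (ℝ × ℝ) × ℝ => f q.1.2 q.1.1 * g q.2)
      ((volume.prod volume).prod volume) := hfi.mul_prod hg
    have m1 : Measurable (fun q : (ℝ × ℝ) × ℝ => ee (q.2 * q.1.2 + q.1.1 * φ q.2)) :=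
      measurable_ee.comp (by fun_prop)
    refine h1.norm.mono' (m1.aestronglyMeasurable.mul h1.aestronglyMeasurable)
      (Filter.Eventually.of_forall fun q => ?_)
    simp only [Function.uncurry]
    rw [norm_mul, norm_ee, one_mul]
  have hIy : ∀ y, Integrable (fun p : ℝ × ℝ => ee (y * p.2 + p.1 * φ y) * (f p.2 p.1 * g y))
      (volume.prod volume) := by
    intro y
    have h1 : Integrable (fun p : ℝ × ℝ => f p.2 p.1 * g y) (volume.prod volume) :=
      hfi.mul_const _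
    have m1 : Measurable (fun p : ℝ × ℝ => ee (y * p.2 + p.1 * φ y)) :=
      measurable_ee.comp (by fun_prop)
    refine h1.norm.mono' (m1.aestronglyMeasurable.mul h1.aestronglyMeasurable)
      (Filter.Eventually.of_forall fun q => ?_)
    rw [norm_mul, norm_ee, one_mul]
  calc ∫ t, ∫ ξ, TT φ g ξ t * f ξ t
      = ∫ t, ∫ ξ, ∫ y, ee (y * ξ + t * φ y) * (f ξ t * g y) := by
        congr 1
        funext t
        congr 1
        funext ξ
        unfold TT
        rw [← integral_mul_const]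
        congr 1
        funext y
        ring
    _ = ∫ p : ℝ × ℝ, (∫ y, ee (y * p.2 + p.1 * φ y) * (f p.2 p.1 * g y)) ∂(volume.prod volume) := by
        rw [integral_prod]
        exact hI.integral_prod_left
    _ = ∫ y, (∫ p : ℝ × ℝ, ee (y * p.2 + p.1 * φ y) * (f p.2 p.1 * g y) ∂(volume.prod volume)) := by
        rw [integral_integral_swap hI]
    _ = ∫ y, g y * ∫ t, ∫ ξ, ee (y * ξ + t * φ y) * f ξ t := by
        congr 1
        funext y
        rw [integral_prod _ (hIy y), ← integral_const_mul]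
        congr 1
        funext t
        rw [← integral_const_mul]
        congr 1
        funext ξ
        ring

theorem str2 (a b : ℝ) (ha : 2 < a) (hb : 2 < b) (hab : 4 / a = 1 - 2 / b) :
    ∃ C : ℝ, 0 < C ∧ ∀ (φ φ1 φ2 : ℝ → ℝ) (α β lam : ℝ), 0 < lam → Measurable φ →
      (∀ x ∈ Set.Icc α β, HasDerivAt φ (φ1 x) x) →
      (∀ x ∈ Set.Icc α β, HasDerivAt φ1 (φ2 x) x) →
      (∀ x ∈ Set.Icc α β, lam ≤ φ2 x) →
      StrB φ (Set.Icc α β) a b (ENNReal.ofReal (C * lam ^ (-(1 / a)))) := by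
  obtain ⟨C, hC, hdual⟩ := dual_bound a b ha hb hab
  refine ⟨C ^ (1 / 2 : ℝ), by positivity, ?_⟩
  intro φ φ1 φ2 α β lam hlam hφ h1 h2 h3 g hg h0
  have hgi := Str_int hg h0
  have mg := hg.1
  refine Str_duality a b ha hb (TT φ g) (Str_F_meas φ hφ mg) _ (Str_F_bdd φ g) _ ?_
  rintro f hf ⟨R, hR⟩
  rw [Str_fubini hφ mg hgi hf hR]
  have hd := hdual φ φ1 φ2 α β lam hlam hφ h1 h2 h3 f hf ⟨R, hR⟩
  set Ψ : ℝ → ℂ := fun y => ∫ t, ∫ ξ, ee (y * ξ + t * φ y) * f ξ t with hΨ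
  have mΨ : Measurable Ψ := by
    have mU := DualB_U_meas φ hφ f hf
    have h : StronglyMeasurable (fun p : ℝ × ℝ => DualB_U φ f p.2 p.1) :=
      (mU.comp measurable_swap).stronglyMeasurable
    exact h.integral_prod_right.measurable
  set Mx := mix2 (a / (a - 1)) (b / (b - 1)) f with hMx
  calc ‖∫ y, g y * Ψ y‖ₑ ≤ ∫⁻ y, ‖g y * Ψ y‖ₑ := enorm_integral_le_lintegral_enorm _
    _ = ∫⁻ y in Set.Icc α β, ‖g y * Ψ y‖ₑ := by
        rw [← lintegral_indicator measurableSet_Icc]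
        congr 1
        funext y
        by_cases hy : y ∈ Set.Icc α β
        · rw [Set.indicator_of_mem hy]
        · rw [Set.indicator_of_notMem hy, h0 y hy, zero_mul, enorm_zero]
    _ = ∫⁻ y in Set.Icc α β, ((fun y => ‖g y‖ₑ) * (fun y => ‖Ψ y‖ₑ)) y := by
        congr 1
        funext y
        rw [enorm_mul]
        rfl
    _ ≤ (∫⁻ y in Set.Icc α β, ‖g y‖ₑ ^ (2 : ℝ)) ^ (1 / (2 : ℝ)) *
        (∫⁻ y in Set.Icc α β, ‖Ψ y‖ₑ ^ (2 : ℝ)) ^ (1 / (2 : ℝ)) :=
        ENNReal.lintegral_mul_le_Lp_mul_Lq _ Real.HolderConjugate.two_two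
          mg.enorm.aemeasurable mΨ.enorm.aemeasurable
    _ ≤ (∫⁻ y, ‖g y‖ₑ ^ (2 : ℝ)) ^ (1 / (2 : ℝ)) *
        (ENNReal.ofReal (C * lam ^ (-(2 / a))) * Mx ^ (2 : ℝ)) ^ (1 / (2 : ℝ)) :=
        mul_le_mul' (ENNReal.rpow_le_rpow (setLIntegral_le_lintegral _ _) (by norm_num))
          (ENNReal.rpow_le_rpow hd (by norm_num))
    _ = _ := by
        rw [ENNReal.mul_rpow_of_nonneg _ _ (by norm_num : (0 : ℝ) ≤ 1 / 2), ← ENNReal.rpow_mul,
          show (2 : ℝ) * (1 / 2) = 1 by norm_num, ENNReal.rpow_one,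
          ENNReal.ofReal_rpow_of_nonneg (by positivity) (by norm_num),
          Real.mul_rpow hC.le (by positivity), ← Real.rpow_mul hlam.le,
          show -(2 / a) * (1 / 2) = -(1 / a) by ring]
        ring

theorem Str_TT_neg (φ : ℝ → ℝ) (g : ℝ → ℂ) (ξ t : ℝ) :
    TT φ g ξ t = TT (fun y => -φ y) g ξ (-t) := by
  unfold TT
  congr 1
  funext y
  congr 2
  ring

theorem str2_neg (a b : ℝ) (ha : 2 < a) (hb : 2 < b) (hab : 4 / a = 1 - 2 / b) :
    ∃ C : ℝ, 0 < C ∧ ∀ (φ φ1 φ2 : ℝ → ℝ) (α β lam : ℝ), 0 < lam → Measurable φ →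
      (∀ x ∈ Set.Icc α β, HasDerivAt φ (φ1 x) x) →
      (∀ x ∈ Set.Icc α β, HasDerivAt φ1 (φ2 x) x) →
      (∀ x ∈ Set.Icc α β, φ2 x ≤ -lam) →
      StrB φ (Set.Icc α β) a b (ENNReal.ofReal (C * lam ^ (-(1 / a)))) := by
  obtain ⟨C, hC, hstr⟩ := str2 a b ha hb hab
  refine ⟨C, hC, ?_⟩
  intro φ φ1 φ2 α β lam hlam hφ h1 h2 h3 g hg h0
  have key := hstr (fun y => -φ y) (fun y => -φ1 y) (fun y => -φ2 y) α β lam hlam hφ.neg
    (fun x hx => (h1 x hx).neg) (fun x hx => (h2 x hx).neg)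
    (fun x hx => by have := h3 x hx; linarith) g hg h0
  refine le_trans (le_of_eq ?_) key
  unfold mix2
  congr 1
  simp_rw [Str_TT_neg φ g]
  exact (Measure.measurePreserving_neg (volume : Measure ℝ)).lintegral_comp_emb
    (MeasurableEquiv.neg ℝ).measurableEmbedding
    (fun t => (∫⁻ ξ, ‖TT (fun y => -φ y) g ξ t‖ₑ ^ b) ^ (a / b))

end Pool.Agent.FlatRes
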