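import Pool.Agent.Lib.MP_40a0b6_an.S_Geo32
import Pool.Agent.Lib.MP_40a0b6_an.S_Str
import Pool.Agent.Lib.MP_40a0b6_an.S_Key
import Pool.Agent.Lib.MP_40a0b6_an.S_MixHol
set_option autoImplicit false
open MeasureTheory
open scoped ENNReal
namespace Pool.Agent.FlatRes

/-- `h` lives over `|x| ≤ a`, `L ≤ y ≤ 2L` or over `|x| ≤ a`, `-2L ≤ y ≤ -L` -/
def Lives (a L : ℝ) (h : ℝ → ℝ → ℂ) : Prop :=
  (∀ x y, ¬ (x ∈ Set.Icc (-a) a ∧ y ∈ Set.Icc L (2 * L)) → h x y = 0) ∨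
  (∀ x y, ¬ (x ∈ Set.Icc (-a) a ∧ y ∈ Set.Icc (-(2 * L)) (-L)) → h x y = 0)

/-- bookkeeping of the constants -/
theorem S_Bil32_const (p q C1 C2 D c L : ℝ) (hp : 2 < p) (hq : 2 < q)
    (hpq : 4 / p = 1 - 2 / q) (hC1 : 0 < C1) (hC2 : 0 < C2) (hD : C2 ≤ D) (hc : 0 < c)
    (hL : 0 < L) : 8 * (2 * L) ^ (1 / q) * C1 * (C2 * (c * L) ^ (-(1 / p))) ≤
      8 * 2 ^ (1 / q) * C1 * c ^ (-(1 / p)) * D * L ^ (1 / 2 - 3 / p) := by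
  have h1 : (2 * L) ^ (1 / q) = 2 ^ (1 / q) * L ^ (1 / q) :=
    Real.mul_rpow (by norm_num) hL.le
  have h2 : (c * L) ^ (-(1 / p)) = c ^ (-(1 / p)) * L ^ (-(1 / p)) :=
    Real.mul_rpow hc.le hL.le
  have h3 : L ^ (1 / 2 - 3 / p) = L ^ (1 / q) * L ^ (-(1 / p)) := by
    rw [← Real.rpow_add hL]
    congr 1
    have h4 : 1 / q = 1 / 2 - 2 / p := by
      have e1 : 4 / p = 2 * (2 / p) := by ring
      have e2 : 2 / q = 2 * (1 / q) := by ring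
      rw [e1, e2] at hpq
      linarith
    have e3 : 3 / p = 2 / p + 1 / p := by ring
    rw [h4, e3]
    ring
  rw [h1, h2, h3]
  have h5 : 8 * (2 ^ (1 / q) * L ^ (1 / q)) * C1 * (C2 * (c ^ (-(1 / p)) * L ^ (-(1 / p)))) =
      (8 * 2 ^ (1 / q) * C1 * c ^ (-(1 / p)) * (L ^ (1 / q) * L ^ (-(1 / p)))) * C2 := by ring
  have h6 : 8 * 2 ^ (1 / q) * C1 * c ^ (-(1 / p)) * D * (L ^ (1 / q) * L ^ (-(1 / p))) =
      (8 * 2 ^ (1 / q) * C1 * c ^ (-(1 / p)) * (L ^ (1 / q) * L ^ (-(1 / p)))) * D := by ring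
  rw [h5, h6]
  exact mul_le_mul_of_nonneg_left hD (by positivity)

/-- JOB S_Bil32 (a).  One piece.
Proof.  `Φ2 x y ≥ c L` on `[L,2L]` (resp. `≤ -c L` on `[-2L,-L]`): `str2` (resp. `str2_neg`) with `lam = c L`
gives `StrB (Φ x) [L,2L] p q (C (cL)^{-1/p})` for `|x| ≤ a` (`Φ x` is measurable: `measΦ`), and
`str2` with `lam = 1` gives `StrB Γ [-a,a] q r C'`.  `key_ineq` with `Y = 2L`, exponents `(p,q,r)`:
`≤ 8 (2L)^{1/q} C' C (cL)^{-1/p} ‖h‖₂`, and `1/q - 1/p = 1/2 - 3/p` since `2/q = 1 - 4/p`. -/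
theorem piece32 {Ψ : ℝ × ℝ → ℝ} {a c : ℝ} {Γ Γ1 Γ2 : ℝ → ℝ} {Φ Φ1 Φ2 : ℝ → ℝ → ℝ}
    (G : Geo32 Ψ a c Γ Γ1 Γ2 Φ Φ1 Φ2) (p q r : ℝ) (hp : 2 < p) (hq : 2 < q) (hr : 2 < r)
    (hpq : 4 / p = 1 - 2 / q) (hqr : 4 / q = 1 - 2 / r) :
    ∃ C : ℝ, 0 < C ∧ ∀ L : ℝ, 0 < L → L ≤ a → ∀ h : ℝ → ℝ → ℂ, BM2 h → Lives a L h →
      mix3 p q r (FFs Γ Φ h) ≤
        ENNReal.ofReal (C * L ^ (1 / 2 - 3 / p)) * (mass2 h) ^ (1 / (2 : ℝ)) := by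
  obtain ⟨C1, hC1, hS1⟩ := str2 q r hq hr hqr
  obtain ⟨C2, hC2, hS2⟩ := str2 p q hp hq hpq
  obtain ⟨C3, hC3, hS3⟩ := str2_neg p q hp hq hpq
  have hc := G.hc
  have hJ : StrB Γ (Set.Icc (-a) a) q r (ENNReal.ofReal C1) := by
    have h := hS1 Γ Γ1 Γ2 (-a) a 1 one_pos G.measΓ G.dΓ G.dΓ1 G.curv
    rw [Real.one_rpow, mul_one] at h
    exact h
  have hmeas : ∀ x, Measurable (Φ x) := fun x =>
    G.measΦ.comp (measurable_const.prodMk measurable_id)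
  refine ⟨8 * 2 ^ (1 / q) * C1 * c ^ (-(1 / p)) * (C2 + C3), by positivity, ?_⟩
  intro L hL hLa h hh hlives
  rcases hlives with hl | hl
  · have hE : ∀ x ∈ Set.Icc (-a) a, StrB (Φ x) (Set.Icc L (2 * L)) p q
        (ENNReal.ofReal (C2 * (c * L) ^ (-(1 / p)))) := by
      intro x hx
      refine hS2 (Φ x) (Φ1 x) (Φ2 x) L (2 * L) (c * L) (by positivity) (hmeas x) ?_ ?_ ?_
      · intro y hy
        exact G.dΦ x hx y ⟨by linarith [hy.1], by linarith [hy.2]⟩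
      · intro y hy
        exact G.dΦ1 x hx y ⟨by linarith [hy.1], by linarith [hy.2]⟩
      · intro y hy
        have h1 := G.pos x hx y ⟨by linarith [hy.1], by linarith [hy.2]⟩ (by linarith [hy.1])
        have h2 := mul_le_mul_of_nonneg_left hy.1 hc.le
        linarith
    have hkey := key_ineq Γ Φ (Set.Icc (-a) a) (Set.Icc L (2 * L)) (2 * L) a p q r _ _
      (by positivity) hp.le hq.le (by linarith) G.measΓ G.measΦ (le_refl _)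
      (Set.Icc_subset_Icc (by linarith) (le_refl _)) hJ hE h hh hl
    refine hkey.trans (mul_le_mul_left ?_ _)
    rw [← ENNReal.ofReal_mul (by positivity), ← ENNReal.ofReal_mul (by positivity)]
    exact ENNReal.ofReal_le_ofReal
      (S_Bil32_const p q C1 C2 (C2 + C3) c L hp hq hpq hC1 hC2 (by linarith) hc hL)
  · have hE : ∀ x ∈ Set.Icc (-a) a, StrB (Φ x) (Set.Icc (-(2 * L)) (-L)) p q
        (ENNReal.ofReal (C3 * (c * L) ^ (-(1 / p)))) := by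
      intro x hx
      refine hS3 (Φ x) (Φ1 x) (Φ2 x) (-(2 * L)) (-L) (c * L) (by positivity) (hmeas x) ?_ ?_ ?_
      · intro y hy
        exact G.dΦ x hx y ⟨by linarith [hy.1], by linarith [hy.2]⟩
      · intro y hy
        exact G.dΦ1 x hx y ⟨by linarith [hy.1], by linarith [hy.2]⟩
      · intro y hy
        have h1 := G.neg x hx y ⟨by linarith [hy.1], by linarith [hy.2]⟩ (by linarith [hy.2])
        have h2 := mul_le_mul_of_nonneg_left hy.2 hc.le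
        linarith
    have hkey := key_ineq Γ Φ (Set.Icc (-a) a) (Set.Icc (-(2 * L)) (-L)) (2 * L) a p q r _ _
      (by positivity) hp.le hq.le (by linarith) G.measΓ G.measΦ (le_refl _)
      (Set.Icc_subset_Icc (le_refl _) (by linarith)) hJ hE h hh hl
    refine hkey.trans (mul_le_mul_left ?_ _)
    rw [← ENNReal.ofReal_mul (by positivity), ← ENNReal.ofReal_mul (by positivity)]
    exact ENNReal.ofReal_le_ofReal
      (S_Bil32_const p q C1 C3 (C2 + C3) c L hp hq hpq hC1 hC3 (by linarith) hc hL)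

/-- JOB S_Bil32 (b).  Two pieces.
Proof.  Let `L' ≤ L` (otherwise exchange).  `mix_holder` with `r = 3` and
`(p,q,r) = (16/3, 8, 4)` for `h` (`4/p = 3/4 = 1 - 2/8`, `4/8 = 1/2 = 1 - 2/4`) and
`(p',q',r') = (48/7, 24/5, 12)` for `h'` (`4/p' = 7/12 = 1 - 10/24`, `4/q' = 5/6 = 1 - 2/12`):
`3/16 + 7/48 = 1/3`, `1/8 + 5/24 = 1/3`, `1/4 + 1/12 = 1/3`.  `piece32`: powers
`L^{1/2-9/16} L'^{1/2-21/48} = (L'/L)^{1/16}`. -/
theorem bil32 {Ψ : ℝ × ℝ → ℝ} {a c : ℝ} {Γ Γ1 Γ2 : ℝ → ℝ} {Φ Φ1 Φ2 : ℝ → ℝ → ℝ}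
    (G : Geo32 Ψ a c Γ Γ1 Γ2 Φ Φ1 Φ2) :
    ∃ C : ℝ, 0 < C ∧ ∀ L L' : ℝ, 0 < L → L ≤ a → 0 < L' → L' ≤ a →
      ∀ h h' : ℝ → ℝ → ℂ, BM2 h → BM2 h' → Lives a L h → Lives a L' h' →
      (∫⁻ t, ∫⁻ ξ₂, ∫⁻ ξ₁, (‖FFs Γ Φ h ξ₁ ξ₂ t‖ₑ * ‖FFs Γ Φ h' ξ₁ ξ₂ t‖ₑ) ^ (3 : ℝ)) ^ (1 / (3 : ℝ)) ≤
        ENNReal.ofReal (C * (min L L' / max L L') ^ ((1 : ℝ) / 16)) *
          (mass2 h) ^ (1 / (2 : ℝ)) * (mass2 h') ^ (1 / (2 : ℝ)) := by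
  obtain ⟨CA, hCA, hA⟩ := piece32 G (16 / 3) 8 4 (by norm_num) (by norm_num) (by norm_num)
    (by norm_num) (by norm_num)
  obtain ⟨CB, hCB, hB⟩ := piece32 G (48 / 7) (24 / 5) 12 (by norm_num) (by norm_num)
    (by norm_num) (by norm_num) (by norm_num)
  have key : ∀ L L' : ℝ, 0 < L → L ≤ a → 0 < L' → L' ≤ L →
      ∀ h h' : ℝ → ℝ → ℂ, BM2 h → BM2 h' → Lives a L h → Lives a L' h' →
      (∫⁻ t, ∫⁻ ξ₂, ∫⁻ ξ₁, (‖FFs Γ Φ h ξ₁ ξ₂ t‖ₑ * ‖FFs Γ Φ h' ξ₁ ξ₂ t‖ₑ) ^ (3 : ℝ)) ^ (1 / (3 : ℝ)) ≤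
        ENNReal.ofReal (CA * CB * (L' / L) ^ ((1 : ℝ) / 16)) *
          (mass2 h) ^ (1 / (2 : ℝ)) * (mass2 h') ^ (1 / (2 : ℝ)) := by
    intro L L' hL hLa hL' hLL h h' hh hh' hl hl'
    have hm := mix_holder (FFs Γ Φ h) (FFs Γ Φ h') (measurable_FF Γ Φ G.measΓ G.measΦ h hh.1)
      (measurable_FF Γ Φ G.measΓ G.measΦ h' hh'.1) 3 (16 / 3) 8 4 (48 / 7) (24 / 5) 12
      (by norm_num) (by norm_num) (by norm_num) (by norm_num) (by norm_num) (by norm_num)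
      (by norm_num) (by norm_num) (by norm_num) (by norm_num)
    have h1 := hA L hL hLa h hh hl
    have h2 := hB L' hL' (hLL.trans hLa) h' hh' hl'
    refine (hm.trans (mul_le_mul' h1 h2)).trans (le_of_eq ?_)
    have e1 : CA * CB * (L' / L) ^ ((1 : ℝ) / 16) =
        CA * L ^ ((1 : ℝ) / 2 - 3 / (16 / 3)) * (CB * L' ^ ((1 : ℝ) / 2 - 3 / (48 / 7))) := by
      rw [Real.div_rpow hL'.le hL.le]
      have e2 : (1 : ℝ) / 2 - 3 / (16 / 3) = -(1 / 16) := by norm_num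
      have e3 : (1 : ℝ) / 2 - 3 / (48 / 7) = 1 / 16 := by norm_num
      rw [e2, e3, Real.rpow_neg hL.le]
      have : L ^ ((1 : ℝ) / 16) ≠ 0 := (Real.rpow_pos_of_pos hL _).ne'
      field_simp
    rw [e1, ENNReal.ofReal_mul
      (show 0 ≤ CA * L ^ ((1 : ℝ) / 2 - 3 / (16 / 3)) by positivity)]
    generalize ENNReal.ofReal (CA * L ^ ((1 : ℝ) / 2 - 3 / (16 / 3))) = u
    generalize ENNReal.ofReal (CB * L' ^ ((1 : ℝ) / 2 - 3 / (48 / 7))) = v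
    generalize (mass2 h) ^ (1 / (2 : ℝ)) = w
    generalize (mass2 h') ^ (1 / (2 : ℝ)) = z
    ring
  refine ⟨CA * CB, by positivity, ?_⟩
  intro L L' hL hLa hL' hL'a h h' hh hh' hl hl'
  rcases le_total L' L with hle | hle
  · rw [min_eq_right hle, max_eq_left hle]
    exact key L L' hL hLa hL' hle h h' hh hh' hl hl'
  · rw [min_eq_left hle, max_eq_right hle]
    have hk := key L' L hL' hL'a hL hle h' h hh' hh hl' hl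
    have hcomm : ∀ ξ₁ ξ₂ t, (‖FFs Γ Φ h ξ₁ ξ₂ t‖ₑ * ‖FFs Γ Φ h' ξ₁ ξ₂ t‖ₑ) =
        (‖FFs Γ Φ h' ξ₁ ξ₂ t‖ₑ * ‖FFs Γ Φ h ξ₁ ξ₂ t‖ₑ) := fun _ _ _ => mul_comm _ _
    simp_rw [hcomm]
    exact hk.trans (le_of_eq (mul_right_comm _ _ _))

end Pool.Agent.FlatRes
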