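import Pool.Agent.Lib.MP_40a0b6_an.S_Basic
set_option autoImplicit false
open MeasureTheory
open scoped ENNReal
namespace Pool.Agent.FlatRes

private lemma S_HLS_even (F : ℝ → ℝ≥0∞) :
    ∫⁻ x, F |x| = 2 * ∫⁻ x in Set.Ioi 0, F x := by
  have h1 : ∫⁻ x in Set.Ioi (0 : ℝ), F |x| = ∫⁻ x in Set.Ioi 0, F x :=
    setLIntegral_congr_fun measurableSet_Ioi (fun x hx => by
      show F |x| = F x
      rw [abs_of_pos hx])
  have h2 : ∫⁻ x in Set.Iio (0 : ℝ), F |x| = ∫⁻ x in Set.Ioi 0, F x := by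
    rw [← lintegral_indicator measurableSet_Iio, ← lintegral_indicator measurableSet_Ioi,
      ← lintegral_neg_eq_self]
    congr 1
    ext x
    by_cases hx : 0 < x
    · have h3 : -x ∈ Set.Iio (0 : ℝ) := by simpa using hx
      rw [Set.indicator_of_mem h3, Set.indicator_of_mem (Set.mem_Ioi.2 hx), abs_neg,
        abs_of_pos hx]
    · have h3 : -x ∉ Set.Iio (0 : ℝ) := by simpa using not_lt.1 hx
      rw [Set.indicator_of_notMem h3, Set.indicator_of_notMem (by simpa using not_lt.1 hx)]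
  rw [← lintegral_add_compl (fun x => F |x|) (measurableSet_Ioi (a := (0 : ℝ))), h1,
    Set.compl_Ioi, ← setLIntegral_congr (Iio_ae_eq_Iic (a := (0 : ℝ))), h2, two_mul]

/-- the near part of the kernel -/
private lemma S_HLS_near (γ : ℝ) (h1 : γ < 1) (R : ℝ) (hR : 0 < R) (s : ℝ) :
    ∫⁻ t in {t | |s - t| ≤ R}, ENNReal.ofReal (|s - t| ^ (-γ)) ≤
      ENNReal.ofReal (2 * R ^ (1 - γ) / (1 - γ)) := by
  have hm : MeasurableSet {t : ℝ | |s - t| ≤ R} :=
    measurableSet_le ((measurable_const.sub measurable_id).abs) measurable_const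
  rw [← lintegral_indicator hm]
  let F : ℝ → ℝ≥0∞ := fun r => (Set.Iic R).indicator (fun r => ENNReal.ofReal (r ^ (-γ))) r
  have e1 : ∀ t, {t : ℝ | |s - t| ≤ R}.indicator (fun t => ENNReal.ofReal (|s - t| ^ (-γ))) t =
      (fun x => F |x|) (s - t) := by
    intro t
    simp only [F, Set.indicator_apply, Set.mem_ofPred_eq, Set.mem_Iic]
  rw [lintegral_congr e1, lintegral_sub_left_eq_self (fun x => F |x|) s, S_HLS_even]
  have e2 : ∫⁻ x in Set.Ioi 0, F x = ENNReal.ofReal (R ^ (1 - γ) / (1 - γ)) := by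
    rw [← lintegral_indicator measurableSet_Ioi]
    have e3 : ∀ x, (Set.Ioi (0 : ℝ)).indicator F x =
        (Set.Ioc 0 R).indicator (fun r => ENNReal.ofReal (r ^ (-γ))) x := by
      intro x
      simp only [F, Set.indicator_apply, Set.mem_Ioi, Set.mem_Iic, Set.mem_Ioc]
      by_cases hx : 0 < x <;> by_cases hx' : x ≤ R <;> simp [hx, hx']
    rw [lintegral_congr e3, lintegral_indicator measurableSet_Ioc,
      ← ofReal_integral_eq_lintegral_ofReal]
    · rw [← intervalIntegral.integral_of_le hR.le, integral_rpow (Or.inl (by linarith))]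
      congr 1
      rw [Real.zero_rpow (by linarith), sub_zero]
      congr 1 <;> ring_nf
    · exact (intervalIntegrable_iff_integrableOn_Ioc_of_le hR.le).1
        (intervalIntegral.intervalIntegrable_rpow' (by linarith))
    · refine (ae_restrict_iff' measurableSet_Ioc).2 (Filter.Eventually.of_forall fun x hx => ?_)
      exact Real.rpow_nonneg hx.1.le _
  rw [e2]
  apply le_of_eq
  rw [show (2 : ℝ≥0∞) = ENNReal.ofReal 2 by simp, ← ENNReal.ofReal_mul (by norm_num)]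
  congr 1
  ring

/-- the far part of the kernel -/
private lemma S_HLS_far (γ : ℝ) (h0 : 0 < γ) (R : ℝ) (hR : 0 < R) (s : ℝ) :
    ∫⁻ t in {t | R < |s - t|}, ENNReal.ofReal (|s - t| ^ (-γ)) ^ (2 / γ) ≤
      ENNReal.ofReal (2 / R) := by
  have hm : MeasurableSet {t : ℝ | R < |s - t|} :=
    measurableSet_lt measurable_const ((measurable_const.sub measurable_id).abs)
  rw [← lintegral_indicator hm]
  let F : ℝ → ℝ≥0∞ := fun r =>
    (Set.Ioi R).indicator (fun r => ENNReal.ofReal (r ^ (-γ)) ^ (2 / γ)) r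
  have e1 : ∀ t, {t : ℝ | R < |s - t|}.indicator
      (fun t => ENNReal.ofReal (|s - t| ^ (-γ)) ^ (2 / γ)) t = (fun x => F |x|) (s - t) := by
    intro t
    simp only [F, Set.indicator_apply, Set.mem_ofPred_eq, Set.mem_Ioi]
  rw [lintegral_congr e1, lintegral_sub_left_eq_self (fun x => F |x|) s, S_HLS_even]
  have e2 : ∫⁻ x in Set.Ioi 0, F x = ENNReal.ofReal (1 / R) := by
    rw [← lintegral_indicator measurableSet_Ioi]
    have e3 : ∀ x, (Set.Ioi (0 : ℝ)).indicator F x =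
        (Set.Ioi R).indicator (fun r => ENNReal.ofReal (r ^ (-2 : ℝ))) x := by
      intro x
      simp only [F, Set.indicator_apply, Set.mem_Ioi]
      by_cases hx' : R < x
      · have hx : 0 < x := hR.trans hx'
        simp only [hx, hx', if_true]
        rw [ENNReal.ofReal_rpow_of_nonneg (Real.rpow_nonneg hx.le _) (by positivity),
          ← Real.rpow_mul hx.le]
        congr 2
        field_simp
      · simp [hx']
    rw [lintegral_congr e3, lintegral_indicator measurableSet_Ioi,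
      ← ofReal_integral_eq_lintegral_ofReal]
    · rw [integral_Ioi_rpow_of_lt (by norm_num) hR]
      congr 1
      have : (-2 : ℝ) + 1 = -1 := by norm_num
      rw [this, Real.rpow_neg_one]
      field_simp
    · exact integrableOn_Ioi_rpow_of_lt (by norm_num) hR
    · refine (ae_restrict_iff' measurableSet_Ioi).2 (Filter.Eventually.of_forall fun x hx => ?_)
      exact Real.rpow_nonneg (hR.le.trans (le_of_lt hx)) _
  rw [e2]
  apply le_of_eq
  rw [show (2 : ℝ≥0∞) = ENNReal.ofReal 2 by simp, ← ENNReal.ofReal_mul (by norm_num)]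
  congr 1
  ring

/-- potential of a truncated function -/
private lemma S_HLS_pot (γ : ℝ) (h0 : 0 < γ) (h1 : γ < 1) (v : ℝ → ℝ≥0∞) (hv : Measurable v)
    (z M : ℝ) (hz : 0 < z) (hM : 0 < M) (hZ : ∫⁻ t, v t ^ (2 / (2 - γ)) ≤ ENNReal.ofReal z)
    (s : ℝ) :
    ∫⁻ t, min (v t) (ENNReal.ofReal M) * ENNReal.ofReal (|s - t| ^ (-γ)) ≤
      ENNReal.ofReal ((2 / (1 - γ) + 2) * z ^ (1 - γ) * M ^ (γ / (2 - γ))) := by
  set R : ℝ := z * M ^ (-(2 / (2 - γ))) with hRdef
  have hR : 0 < R := by positivity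
  have hm : MeasurableSet {t : ℝ | |s - t| ≤ R} :=
    measurableSet_le ((measurable_const.sub measurable_id).abs) measurable_const
  have hc : {t : ℝ | |s - t| ≤ R}ᶜ = {t : ℝ | R < |s - t|} := by
    ext t
    simp
  have hK : Measurable (fun t : ℝ => ENNReal.ofReal (|s - t| ^ (-γ))) :=
    (((measurable_const.sub measurable_id).abs).pow_const _).ennreal_ofReal
  rw [← lintegral_add_compl _ hm, hc]
  have near : ∫⁻ t in {t | |s - t| ≤ R}, min (v t) (ENNReal.ofReal M) *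
      ENNReal.ofReal (|s - t| ^ (-γ)) ≤
      ENNReal.ofReal (2 / (1 - γ) * z ^ (1 - γ) * M ^ (γ / (2 - γ))) := by
    calc ∫⁻ t in {t | |s - t| ≤ R}, min (v t) (ENNReal.ofReal M) *
        ENNReal.ofReal (|s - t| ^ (-γ))
        ≤ ∫⁻ t in {t | |s - t| ≤ R}, ENNReal.ofReal M *
          ENNReal.ofReal (|s - t| ^ (-γ)) := by
          refine lintegral_mono fun t => ?_
          exact mul_le_mul_left (min_le_right _ _) _
      _ = ENNReal.ofReal M * ∫⁻ t in {t | |s - t| ≤ R}, ENNReal.ofReal (|s - t| ^ (-γ)) :=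
          lintegral_const_mul _ hK
      _ ≤ ENNReal.ofReal M * ENNReal.ofReal (2 * R ^ (1 - γ) / (1 - γ)) := by
          gcongr
          exact S_HLS_near γ h1 R hR s
      _ = ENNReal.ofReal (2 / (1 - γ) * z ^ (1 - γ) * M ^ (γ / (2 - γ))) := by
          rw [← ENNReal.ofReal_mul hM.le]
          congr 1
          have e : M ^ (γ / (2 - γ)) = M * (M ^ (-(2 / (2 - γ)))) ^ (1 - γ) := by
            rw [← Real.rpow_mul hM.le]
            nth_rewrite 2 [← Real.rpow_one M]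
            rw [← Real.rpow_add hM]
            congr 1
            have : (2 - γ) ≠ 0 := by linarith
            field_simp
            ring
          rw [e, hRdef, Real.mul_rpow hz.le (by positivity)]
          ring
  have hγ2 : (0 : ℝ) < 2 - γ := by linarith
  have far : ∫⁻ t in {t | R < |s - t|}, min (v t) (ENNReal.ofReal M) *
      ENNReal.ofReal (|s - t| ^ (-γ)) ≤
      ENNReal.ofReal (2 * z ^ (1 - γ) * M ^ (γ / (2 - γ))) := by
    have hpq : (2 / (2 - γ)).HolderConjugate (2 / γ) := by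
      rw [Real.holderConjugate_iff]
      constructor
      · rw [lt_div_iff₀ hγ2]
        linarith
      · field_simp
        ring
    have hol := ENNReal.lintegral_mul_le_Lp_mul_Lq (volume.restrict {t : ℝ | R < |s - t|}) hpq
      (f := fun t => min (v t) (ENNReal.ofReal M)) (g := fun t => ENNReal.ofReal (|s - t| ^ (-γ)))
      (hv.min measurable_const).aemeasurable hK.aemeasurable
    have b1 : ∫⁻ t in {t : ℝ | R < |s - t|}, min (v t) (ENNReal.ofReal M) ^ (2 / (2 - γ)) ≤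
        ENNReal.ofReal z := by
      refine le_trans ?_ hZ
      refine (setLIntegral_le_lintegral _ _).trans (lintegral_mono fun t => ?_)
      exact ENNReal.rpow_le_rpow (min_le_left _ _) (by positivity)
    have b2 := S_HLS_far γ h0 R hR s
    calc ∫⁻ t in {t | R < |s - t|}, min (v t) (ENNReal.ofReal M) *
        ENNReal.ofReal (|s - t| ^ (-γ))
        ≤ (∫⁻ t in {t : ℝ | R < |s - t|}, min (v t) (ENNReal.ofReal M) ^ (2 / (2 - γ))) ^
            (1 / (2 / (2 - γ))) *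
          (∫⁻ t in {t | R < |s - t|}, ENNReal.ofReal (|s - t| ^ (-γ)) ^ (2 / γ)) ^
            (1 / (2 / γ)) := hol
      _ ≤ (ENNReal.ofReal z) ^ (1 / (2 / (2 - γ))) * (ENNReal.ofReal (2 / R)) ^ (1 / (2 / γ)) := by
          gcongr
      _ = ENNReal.ofReal (z ^ ((2 - γ) / 2) * (2 / R) ^ (γ / 2)) := by
          rw [one_div_div, one_div_div, ENNReal.ofReal_rpow_of_nonneg hz.le (by positivity),
            ENNReal.ofReal_rpow_of_nonneg (by positivity) (by positivity),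
            ← ENNReal.ofReal_mul (by positivity)]
      _ ≤ ENNReal.ofReal (2 * z ^ (1 - γ) * M ^ (γ / (2 - γ))) := by
          apply ENNReal.ofReal_le_ofReal
          have e : M ^ (γ / (2 - γ)) = ((M ^ (-(2 / (2 - γ)))) ^ (γ / 2))⁻¹ := by
            rw [← Real.rpow_mul hM.le, ← Real.rpow_neg hM.le]
            congr 1
            field_simp
          have e' : z ^ ((2 - γ) / 2) = z ^ (1 - γ) * z ^ (γ / 2) := by
            rw [← Real.rpow_add hz]
            congr 1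
            ring
          rw [Real.div_rpow (by norm_num) hR.le, hRdef, Real.mul_rpow hz.le (by positivity), e, e']
          have h2 : (2 : ℝ) ^ (γ / 2) ≤ 2 := by
            calc (2 : ℝ) ^ (γ / 2) ≤ 2 ^ (1 : ℝ) :=
                  Real.rpow_le_rpow_of_exponent_le (by norm_num) (by linarith)
              _ = 2 := Real.rpow_one 2
          have h3 : 0 < z ^ (γ / 2) := by positivity
          have h4 : 0 < (M ^ (-(2 / (2 - γ)))) ^ (γ / 2) := by positivity
          have h5 : 0 < z ^ (1 - γ) := by positivity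
          have h6 : z ^ (1 - γ) * z ^ (γ / 2) *
              (2 ^ (γ / 2) / (z ^ (γ / 2) * (M ^ (-(2 / (2 - γ)))) ^ (γ / 2))) =
              2 ^ (γ / 2) * (z ^ (1 - γ) * ((M ^ (-(2 / (2 - γ)))) ^ (γ / 2))⁻¹) := by
            field_simp
          rw [h6, mul_assoc]
          gcongr
  refine (add_le_add near far).trans (le_of_eq ?_)
  rw [← ENNReal.ofReal_add (by
    have : 0 < 1 - γ := by linarith
    positivity) (by positivity)]
  congr 1
  ring

/-- the same for all levels `M ∈ [0,∞]` -/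
private lemma S_HLS_pot' (γ : ℝ) (h0 : 0 < γ) (h1 : γ < 1) (v : ℝ → ℝ≥0∞) (hv : Measurable v)
    (z : ℝ) (hz : 0 < z) (hZ : ∫⁻ t, v t ^ (2 / (2 - γ)) ≤ ENNReal.ofReal z)
    (M : ℝ≥0∞) (s : ℝ) :
    ∫⁻ t, min (v t) M * ENNReal.ofReal (|s - t| ^ (-γ)) ≤
      ENNReal.ofReal ((2 / (1 - γ) + 2) * z ^ (1 - γ)) * M ^ (γ / (2 - γ)) := by
  have hγ1 : (0 : ℝ) < 1 - γ := by linarith
  have hγ2 : (0 : ℝ) < 2 - γ := by linarith
  have hc : 0 < (2 / (1 - γ) + 2) * z ^ (1 - γ) := by positivity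
  by_cases hM : M = ⊤
  · rw [hM, ENNReal.top_rpow_of_pos (by positivity),
      ENNReal.mul_top (by simpa using hc)]
    exact le_top
  by_cases hM0 : M = 0
  · rw [hM0]
    simp
  have hMr : 0 < M.toReal := ENNReal.toReal_pos hM0 hM
  have h := S_HLS_pot γ h0 h1 v hv z M.toReal hz hMr hZ s
  rw [ENNReal.ofReal_toReal hM] at h
  refine h.trans (le_of_eq ?_)
  rw [ENNReal.ofReal_mul hc.le, ← ENNReal.ofReal_rpow_of_pos hMr, ENNReal.ofReal_toReal hM]

private lemma S_HLS_split (x y l : ℝ≥0∞) (hl : l ≠ 0) (hl' : l ≠ ⊤) :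
    x * y ≤ x * min y (l * x) + y * min x (l⁻¹ * y) := by
  rcases le_total y (l * x) with h | h
  · rw [min_eq_left h]
    exact le_self_add
  · have h2 : x ≤ l⁻¹ * y := by
      calc x = l⁻¹ * (l * x) := by rw [← mul_assoc, ENNReal.inv_mul_cancel hl hl', one_mul]
        _ ≤ l⁻¹ * y := by gcongr
    rw [min_eq_left h2, mul_comm y x]
    exact le_add_self

private lemma S_HLS_half (γ : ℝ) (h0 : 0 < γ) (h1 : γ < 1) (u v : ℝ → ℝ≥0∞) (hu : Measurable u)
    (hv : Measurable v) (z : ℝ) (hz : 0 < z)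
    (hZ : ∫⁻ t, v t ^ (2 / (2 - γ)) ≤ ENNReal.ofReal z) (l : ℝ≥0∞) :
    ∫⁻ s, ∫⁻ t, u s * min (v t) (l * u s) * ENNReal.ofReal (|s - t| ^ (-γ)) ≤
      ENNReal.ofReal ((2 / (1 - γ) + 2) * z ^ (1 - γ)) * l ^ (γ / (2 - γ)) *
        ∫⁻ s, u s ^ (2 / (2 - γ)) := by
  have hγ2 : (0 : ℝ) < 2 - γ := by linarith
  have key : ∀ s, ∫⁻ t, u s * min (v t) (l * u s) * ENNReal.ofReal (|s - t| ^ (-γ)) ≤
      ENNReal.ofReal ((2 / (1 - γ) + 2) * z ^ (1 - γ)) * l ^ (γ / (2 - γ)) *
        u s ^ (2 / (2 - γ)) := by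
    intro s
    have hK : Measurable (fun t : ℝ => ENNReal.ofReal (|s - t| ^ (-γ))) :=
      (((measurable_const.sub measurable_id).abs).pow_const _).ennreal_ofReal
    calc ∫⁻ t, u s * min (v t) (l * u s) * ENNReal.ofReal (|s - t| ^ (-γ))
        = ∫⁻ t, u s * (min (v t) (l * u s) * ENNReal.ofReal (|s - t| ^ (-γ))) := by
          simp only [mul_assoc]
      _ = u s * ∫⁻ t, min (v t) (l * u s) * ENNReal.ofReal (|s - t| ^ (-γ)) :=
          lintegral_const_mul _ ((hv.min measurable_const).mul hK)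
      _ ≤ u s * (ENNReal.ofReal ((2 / (1 - γ) + 2) * z ^ (1 - γ)) *
            (l * u s) ^ (γ / (2 - γ))) := by
          gcongr
          exact S_HLS_pot' γ h0 h1 v hv z hz hZ (l * u s) s
      _ = ENNReal.ofReal ((2 / (1 - γ) + 2) * z ^ (1 - γ)) * l ^ (γ / (2 - γ)) *
            u s ^ (2 / (2 - γ)) := by
          have e : u s ^ (2 / (2 - γ)) = u s * u s ^ (γ / (2 - γ)) := by
            have e1 : 2 / (2 - γ) = 1 + γ / (2 - γ) := by
              field_simp
              ring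
            rw [e1, ENNReal.rpow_add_of_nonneg _ _ zero_le_one (by positivity), ENNReal.rpow_one]
          rw [ENNReal.mul_rpow_of_nonneg _ _ (by positivity), e]
          ring
  refine (lintegral_mono key).trans (le_of_eq ?_)
  rw [lintegral_const_mul _ (hu.pow_const _)]

/-- JOB S_HLS.  One-dimensional Hardy–Littlewood–Sobolev inequality, `p = 2/(2-γ)`, `2/p + γ = 2`.

Proof: `x y ≤ x min(y, l x) + y min(x, y/l)`; the potential of a function truncated at the level `M`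
is `≤ C Z^{1-γ} M^{p-1}`, `Z = ∫ v^p` (near part trivial, far part by Hölder); optimise `l`. -/
theorem hls (γ : ℝ) (h0 : 0 < γ) (h1 : γ < 1) : ∃ C : ℝ, 0 < C ∧ ∀ u v : ℝ → ℝ≥0∞,
    Measurable u → Measurable v →
    ∫⁻ s, ∫⁻ t, u s * v t * ENNReal.ofReal (|s - t| ^ (-γ)) ≤
      ENNReal.ofReal C * (∫⁻ s, u s ^ (2 / (2 - γ))) ^ (1 - γ / 2) *
        (∫⁻ t, v t ^ (2 / (2 - γ))) ^ (1 - γ / 2) := by
  have hγ1 : (0 : ℝ) < 1 - γ := by linarith
  have hγ2 : (0 : ℝ) < 2 - γ := by linarith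
  have hp : (0 : ℝ) < 2 / (2 - γ) := by positivity
  have hq : (0 : ℝ) < 1 - γ / 2 := by linarith
  have hC : (0 : ℝ) < 2 / (1 - γ) + 2 := by positivity
  refine ⟨2 * (2 / (1 - γ) + 2), by positivity, fun u v hu hv => ?_⟩
  by_cases hW0 : ∫⁻ s, u s ^ (2 / (2 - γ)) = 0
  · have h2 : ∀ᵐ s, u s = 0 := by
      have h3 := (lintegral_eq_zero_iff (hu.pow_const _)).1 hW0
      filter_upwards [h3] with s hs
      exact (ENNReal.rpow_eq_zero_iff_of_pos hp).1 hs
    have h4 : ∫⁻ s, ∫⁻ t, u s * v t * ENNReal.ofReal (|s - t| ^ (-γ)) = 0 := by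
      rw [← lintegral_zero (μ := (volume : Measure ℝ))]
      refine lintegral_congr_ae ?_
      filter_upwards [h2] with s hs
      simp [hs]
    rw [h4]
    exact bot_le
  by_cases hZ0 : ∫⁻ t, v t ^ (2 / (2 - γ)) = 0
  · have h2 : ∀ᵐ t, v t = 0 := by
      have h3 := (lintegral_eq_zero_iff (hv.pow_const _)).1 hZ0
      filter_upwards [h3] with s hs
      exact (ENNReal.rpow_eq_zero_iff_of_pos hp).1 hs
    have h4 : ∀ s, ∫⁻ t, u s * v t * ENNReal.ofReal (|s - t| ^ (-γ)) = 0 := by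
      intro s
      rw [← lintegral_zero (μ := (volume : Measure ℝ))]
      refine lintegral_congr_ae ?_
      filter_upwards [h2] with t ht
      simp [ht]
    simp only [h4, lintegral_zero]
    exact bot_le
  have hWq : (∫⁻ s, u s ^ (2 / (2 - γ))) ^ (1 - γ / 2) ≠ 0 := by
    rw [ne_eq, ENNReal.rpow_eq_zero_iff_of_pos hq]
    exact hW0
  have hZq : (∫⁻ t, v t ^ (2 / (2 - γ))) ^ (1 - γ / 2) ≠ 0 := by
    rw [ne_eq, ENNReal.rpow_eq_zero_iff_of_pos hq]
    exact hZ0
  have hC0 : ENNReal.ofReal (2 * (2 / (1 - γ) + 2)) ≠ 0 := by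
    simpa using hC
  by_cases hWt : ∫⁻ s, u s ^ (2 / (2 - γ)) = ⊤
  · rw [hWt, ENNReal.top_rpow_of_pos hq, ENNReal.mul_top hC0, ENNReal.top_mul hZq]
    exact le_top
  by_cases hZt : ∫⁻ t, v t ^ (2 / (2 - γ)) = ⊤
  · rw [hZt, ENNReal.top_rpow_of_pos hq, ENNReal.mul_top (mul_ne_zero hC0 hWq)]
    exact le_top
  set W : ℝ := (∫⁻ s, u s ^ (2 / (2 - γ))).toReal with hWdef
  set Z : ℝ := (∫⁻ t, v t ^ (2 / (2 - γ))).toReal with hZdef
  have hW : 0 < W := ENNReal.toReal_pos hW0 hWt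
  have hZ : 0 < Z := ENNReal.toReal_pos hZ0 hZt
  have hWe : ∫⁻ s, u s ^ (2 / (2 - γ)) = ENNReal.ofReal W := (ENNReal.ofReal_toReal hWt).symm
  have hZe : ∫⁻ t, v t ^ (2 / (2 - γ)) = ENNReal.ofReal Z := (ENNReal.ofReal_toReal hZt).symm
  set lr : ℝ := (Z / W) ^ ((2 - γ) / 2) with hlr
  have hlrpos : 0 < lr := by positivity
  set l : ℝ≥0∞ := ENNReal.ofReal lr with hl
  have hl0 : l ≠ 0 := by simpa [hl] using hlrpos
  have hlt : l ≠ ⊤ := ENNReal.ofReal_ne_top
  have hKm : Measurable (fun q : ℝ × ℝ => ENNReal.ofReal (|q.1 - q.2| ^ (-γ))) :=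
    (((measurable_fst.sub measurable_snd).abs).pow_const _).ennreal_ofReal
  have hu1 : Measurable (fun q : ℝ × ℝ => u q.1) := hu.comp measurable_fst
  have hv2 : Measurable (fun q : ℝ × ℝ => v q.2) := hv.comp measurable_snd
  have m1 : Measurable (fun q : ℝ × ℝ => u q.1 * min (v q.2) (l * u q.1) *
      ENNReal.ofReal (|q.1 - q.2| ^ (-γ))) :=
    (hu1.mul (hv2.min (measurable_const.mul hu1))).mul hKm
  have m2 : Measurable (fun q : ℝ × ℝ => v q.2 * min (u q.1) (l⁻¹ * v q.2) *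
      ENNReal.ofReal (|q.1 - q.2| ^ (-γ))) :=
    (hv2.mul (hu1.min (measurable_const.mul hv2))).mul hKm
  have e1 : ∫⁻ s, ∫⁻ t, u s * v t * ENNReal.ofReal (|s - t| ^ (-γ)) ≤
      (∫⁻ s, ∫⁻ t, u s * min (v t) (l * u s) * ENNReal.ofReal (|s - t| ^ (-γ))) +
      ∫⁻ s, ∫⁻ t, v t * min (u s) (l⁻¹ * v t) * ENNReal.ofReal (|s - t| ^ (-γ)) := by
    have q1 : Measurable (fun s => ∫⁻ t, u s * min (v t) (l * u s) *
        ENNReal.ofReal (|s - t| ^ (-γ))) := Measurable.lintegral_prod_right' m1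
    rw [← lintegral_add_left q1]
    refine lintegral_mono fun s => ?_
    have q2 : Measurable (fun t => u s * min (v t) (l * u s) *
        ENNReal.ofReal (|s - t| ^ (-γ))) := m1.comp measurable_prodMk_left
    show ∫⁻ t, u s * v t * ENNReal.ofReal (|s - t| ^ (-γ)) ≤
      (∫⁻ t, u s * min (v t) (l * u s) * ENNReal.ofReal (|s - t| ^ (-γ))) +
        ∫⁻ t, v t * min (u s) (l⁻¹ * v t) * ENNReal.ofReal (|s - t| ^ (-γ))
    rw [← lintegral_add_left q2]
    refine lintegral_mono fun t => ?_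
    show u s * v t * ENNReal.ofReal (|s - t| ^ (-γ)) ≤
      u s * min (v t) (l * u s) * ENNReal.ofReal (|s - t| ^ (-γ)) +
        v t * min (u s) (l⁻¹ * v t) * ENNReal.ofReal (|s - t| ^ (-γ))
    rw [← add_mul]
    gcongr
    exact S_HLS_split (u s) (v t) l hl0 hlt
  have e2 : ∫⁻ s, ∫⁻ t, v t * min (u s) (l⁻¹ * v t) * ENNReal.ofReal (|s - t| ^ (-γ)) =
      ∫⁻ t, ∫⁻ s, v t * min (u s) (l⁻¹ * v t) * ENNReal.ofReal (|t - s| ^ (-γ)) := by
    rw [lintegral_lintegral_swap m2.aemeasurable]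
    refine lintegral_congr fun t => lintegral_congr fun s => ?_
    rw [abs_sub_comm]
  have f1 := S_HLS_half γ h0 h1 u v hu hv Z hZ hZe.le l
  have f2 := S_HLS_half γ h0 h1 v u hv hu W hW hWe.le l⁻¹
  rw [e2] at e1
  refine e1.trans ((add_le_add f1 f2).trans ?_)
  rw [hWe, hZe, hl, ← ENNReal.ofReal_inv_of_pos hlrpos,
    ENNReal.ofReal_rpow_of_pos hlrpos, ENNReal.ofReal_rpow_of_pos (inv_pos.2 hlrpos),
    ENNReal.ofReal_rpow_of_pos hW, ENNReal.ofReal_rpow_of_pos hZ,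
    ← ENNReal.ofReal_mul (by positivity), ← ENNReal.ofReal_mul (by positivity),
    ← ENNReal.ofReal_mul (by positivity), ← ENNReal.ofReal_mul (by positivity),
    ← ENNReal.ofReal_mul (by positivity), ← ENNReal.ofReal_mul (by positivity),
    ← ENNReal.ofReal_add (by positivity) (by positivity)]
  apply ENNReal.ofReal_le_ofReal
  apply le_of_eq
  have g1 : lr ^ (γ / (2 - γ)) = Z ^ (γ / 2) * (W ^ (γ / 2))⁻¹ := by
    rw [hlr, ← Real.rpow_mul (by positivity), Real.div_rpow hZ.le hW.le]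
    have : (2 - γ) / 2 * (γ / (2 - γ)) = γ / 2 := by field_simp
    rw [this, div_eq_mul_inv]
  have g2 : lr⁻¹ ^ (γ / (2 - γ)) = W ^ (γ / 2) * (Z ^ (γ / 2))⁻¹ := by
    rw [Real.inv_rpow hlrpos.le, g1, mul_inv, inv_inv, mul_comm]
  have g3 : Z ^ (1 - γ / 2) = Z ^ (1 - γ) * Z ^ (γ / 2) := by
    rw [← Real.rpow_add hZ]
    congr 1
    ring
  have g4 : W ^ (1 - γ / 2) = W ^ (1 - γ) * W ^ (γ / 2) := by
    rw [← Real.rpow_add hW]
    congr 1
    ring
  have g5 : W = W ^ (1 - γ) * W ^ (γ / 2) * W ^ (γ / 2) := by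
    nth_rewrite 1 [← Real.rpow_one W]
    rw [← Real.rpow_add hW, ← Real.rpow_add hW]
    congr 1
    ring
  have g6 : Z = Z ^ (1 - γ) * Z ^ (γ / 2) * Z ^ (γ / 2) := by
    nth_rewrite 1 [← Real.rpow_one Z]
    rw [← Real.rpow_add hZ, ← Real.rpow_add hZ]
    congr 1
    ring
  have p1 : W ^ (γ / 2) ≠ 0 := by positivity
  have p2 : Z ^ (γ / 2) ≠ 0 := by positivity
  rw [g1, g2, g3, g4]
  have t1 : (2 / (1 - γ) + 2) * Z ^ (1 - γ) * (Z ^ (γ / 2) * (W ^ (γ / 2))⁻¹) * W =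
      (2 / (1 - γ) + 2) * (W ^ (1 - γ) * W ^ (γ / 2)) * (Z ^ (1 - γ) * Z ^ (γ / 2)) := by
    nth_rewrite 2 [g5]
    field_simp
  have t2 : (2 / (1 - γ) + 2) * W ^ (1 - γ) * (W ^ (γ / 2) * (Z ^ (γ / 2))⁻¹) * Z =
      (2 / (1 - γ) + 2) * (W ^ (1 - γ) * W ^ (γ / 2)) * (Z ^ (1 - γ) * Z ^ (γ / 2)) := by
    nth_rewrite 2 [g6]
    field_simp
  rw [t1, t2]
  ring

end Pool.Agent.FlatRes
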