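import Pool.Agent.Lib.MP_40a0b6_an.S_Form
import Pool.Agent.Lib.MP_40a0b6_an.S_HLS
set_option autoImplicit false
open MeasureTheory
open scoped ENNReal
namespace Pool.Agent.FlatRes

theorem DualB_ind (R M : ℝ) : Integrable ((Set.Icc (-R) R).indicator (fun _ : ℝ => M)) := by
  rw [integrable_indicator_iff measurableSet_Icc]
  exact integrableOn_const (by rw [Real.volume_Icc]; exact ENNReal.ofReal_ne_top)

theorem DualB_bd {h : ℝ → ℂ} {M R : ℝ} (hM : ∀ x, ‖h x‖ ≤ M) (hR : ∀ x, R < |x| → h x = 0) :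
    ‖∫ x, h x‖ ≤ ∫ x, (Set.Icc (-R) R).indicator (fun _ : ℝ => M) x := by
  refine norm_integral_le_of_norm_le (DualB_ind R M) (Filter.Eventually.of_forall fun x => ?_)
  by_cases hx : x ∈ Set.Icc (-R) R
  · rw [Set.indicator_of_mem hx]
    exact hM x
  · rw [Set.indicator_of_notMem hx, hR x ?_, norm_zero]
    by_contra hc
    exact hx (abs_le.mp (not_lt.mp hc))

/-- the inner integral -/
noncomputable def DualB_U (φ : ℝ → ℝ) (f : ℝ → ℝ → ℂ) (t y : ℝ) : ℂ :=
  ∫ ξ, ee (y * ξ + t * φ y) * f ξ t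

theorem DualB_U_meas (φ : ℝ → ℝ) (hφ : Measurable φ) (f : ℝ → ℝ → ℂ) (hf : BM2 f) :
    Measurable (fun p : ℝ × ℝ => DualB_U φ f p.1 p.2) := by
  unfold DualB_U
  have h : StronglyMeasurable
      (fun p : (ℝ × ℝ) × ℝ => ee (p.1.2 * p.2 + p.1.1 * φ p.1.2) * f p.2 p.1.1) := by
    apply Measurable.stronglyMeasurable
    have m1 : Measurable (fun p : (ℝ × ℝ) × ℝ => (p.2, p.1.1)) := by fun_prop
    exact (measurable_ee.comp (by fun_prop)).mul (hf.1.comp m1)
  exact h.integral_prod_right.measurable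

theorem DualB_slice {f : ℝ → ℝ → ℂ} (hf : BM2 f) {R : ℝ}
    (hR : ∀ ξ t, R < |ξ| ∨ R < |t| → f ξ t = 0) (t : ℝ) : Nice volume (fun ξ => f ξ t) := by
  obtain ⟨hm, M, hM⟩ := hf
  refine ⟨hm.comp (g := fun p : ℝ × ℝ => f p.1 p.2) (f := fun ξ : ℝ => (ξ, t)) (by fun_prop),
    ⟨M, fun ξ => hM ξ t⟩, ?_⟩
  have h1 : Function.support (fun ξ => f ξ t) ⊆ Set.Icc (-R) R := by
    intro ξ hξ
    by_contra hc
    apply hξ
    apply hR
    left
    by_contra hc2
    exact hc (abs_le.mp (not_lt.mp hc2))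
  refine ne_top_of_le_ne_top ?_ (measure_mono h1)
  rw [Real.volume_Icc]
  exact ENNReal.ofReal_ne_top

theorem DualB_slice_conj {f : ℝ → ℝ → ℂ} (hf : BM2 f) {R : ℝ}
    (hR : ∀ ξ t, R < |ξ| ∨ R < |t| → f ξ t = 0) (t : ℝ) :
    Nice volume (fun ξ => (starRingEnd ℂ) (f ξ t)) := by
  obtain ⟨h1, ⟨M, hM⟩, h3⟩ := DualB_slice hf hR t
  refine ⟨Complex.continuous_conj.measurable.comp h1, ⟨M, fun x => ?_⟩, ?_⟩
  · rw [RCLike.norm_conj]
    exact hM x
  · have : Function.support (fun ξ => (starRingEnd ℂ) (f ξ t)) = Function.support (fun ξ => f ξ t) := by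
      ext ξ
      simp
    rw [this]
    exact h3

theorem DualB_id {φ : ℝ → ℝ} {f : ℝ → ℝ → ℂ} (I : Set ℝ) (t t' : ℝ) :
    ∫ y in I, DualB_U φ f t y * (starRingEnd ℂ) (DualB_U φ f t' y) =
      Bf φ I t t' (fun ξ => f ξ t) (fun ξ => (starRingEnd ℂ) (f ξ t')) := by
  unfold Bf DualB_U
  congr 1
  funext y
  congr 1
  rw [← integral_conj]
  congr 1
  funext ξ
  rw [map_mul, ← ee_neg]

theorem DualB_joint {μ : Measure ℝ} [IsFiniteMeasure μ] {U : ℝ → ℝ → ℂ}
    (mU : Measurable (fun p : ℝ × ℝ => U p.1 p.2)) {K R : ℝ} (bU : ∀ t y, ‖U t y‖ ≤ K)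
    (zU : ∀ t y, R < |t| → U t y = 0) :
    Integrable (Function.uncurry fun (y : ℝ) (p : ℝ × ℝ) =>
      U p.1 y * (starRingEnd ℂ) (U p.2 y)) (μ.prod (volume.prod volume)) := by
  have hKn : 0 ≤ K := (norm_nonneg _).trans (bU 0 0)
  have h5 : Integrable (fun p : ℝ × ℝ => (Set.Icc (-R) R).indicator (fun _ : ℝ => K) p.1 *
      (Set.Icc (-R) R).indicator (fun _ : ℝ => K) p.2) (volume.prod volume) :=
    (DualB_ind R K).mul_prod (DualB_ind R K)
  have h6 := h5.comp_snd μ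
  have m1 : Measurable (fun q : ℝ × (ℝ × ℝ) => (q.2.1, q.1)) :=
    (measurable_fst.comp measurable_snd).prodMk measurable_fst
  have m2 : Measurable (fun q : ℝ × (ℝ × ℝ) => (q.2.2, q.1)) :=
    (measurable_snd.comp measurable_snd).prodMk measurable_fst
  have m3 : Measurable (fun q : ℝ × (ℝ × ℝ) => U q.2.1 q.1) := mU.comp m1
  have m4 : Measurable (fun q : ℝ × (ℝ × ℝ) => U q.2.2 q.1) := mU.comp m2
  have m5 : Measurable (fun q : ℝ × (ℝ × ℝ) => (starRingEnd ℂ) (U q.2.2 q.1)) :=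
    Complex.continuous_conj.measurable.comp m4
  have m6 : AEStronglyMeasurable (fun q : ℝ × (ℝ × ℝ) => U q.2.1 q.1 *
    (starRingEnd ℂ) (U q.2.2 q.1)) (μ.prod (volume.prod volume)) :=
    (m3.mul m5).aestronglyMeasurable
  have aux : ∀ t y, ‖U t y‖ ≤ (Set.Icc (-R) R).indicator (fun _ : ℝ => K) t := by
    intro t y
    by_cases ht : t ∈ Set.Icc (-R) R
    · rw [Set.indicator_of_mem ht]
      exact bU t y
    · rw [Set.indicator_of_notMem ht, zU t y ?_, norm_zero]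
      by_contra hc
      exact ht (abs_le.mp (not_lt.mp hc))
  refine h6.mono' m6 (Filter.Eventually.of_forall fun q => ?_)
  simp only [Function.uncurry]
  rw [norm_mul, RCLike.norm_conj]
  exact mul_le_mul (aux _ _) (aux _ _) (norm_nonneg _)
    (Set.indicator_nonneg (fun _ _ => hKn) _)

theorem DualB_sq {φ : ℝ → ℝ} (hφ : Measurable φ) {α β : ℝ} {f : ℝ → ℝ → ℂ} (hf : BM2 f) {R : ℝ}
    (hR : ∀ ξ t, R < |ξ| ∨ R < |t| → f ξ t = 0) :
    ∫⁻ y in Set.Icc α β, ‖∫ t, ∫ ξ, ee (y * ξ + t * φ y) * f ξ t‖ₑ ^ (2 : ℝ) ≤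
      ∫⁻ t, ∫⁻ t', ‖Bf φ (Set.Icc α β) t t' (fun ξ => f ξ t)
        (fun ξ => (starRingEnd ℂ) (f ξ t'))‖ₑ := by
  obtain ⟨hm, M, hM⟩ := hf
  have hf : BM2 f := ⟨hm, M, hM⟩
  have hMn : 0 ≤ M := (norm_nonneg _).trans (hM 0 0)
  have mU := DualB_U_meas φ hφ f hf
  set K : ℝ := ∫ x, (Set.Icc (-R) R).indicator (fun _ : ℝ => M) x with hK
  have hKn : 0 ≤ K := by
    rw [hK]
    exact integral_nonneg fun x => Set.indicator_nonneg (fun _ _ => hMn) x
  have bU : ∀ t y, ‖DualB_U φ f t y‖ ≤ K := by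
    intro t y
    unfold DualB_U
    refine DualB_bd (fun ξ => ?_) (fun ξ hξ => ?_)
    · rw [norm_mul, norm_ee, one_mul]
      exact hM ξ t
    · rw [hR ξ t (Or.inl hξ), mul_zero]
  have zU : ∀ t y, R < |t| → DualB_U φ f t y = 0 := by
    intro t y ht
    unfold DualB_U
    rw [show (fun ξ => ee (y * ξ + t * φ y) * f ξ t) = fun _ => 0 from by
      funext ξ
      rw [hR ξ t (Or.inr ht), mul_zero]]
    simp
  set K' : ℝ := ∫ x, (Set.Icc (-R) R).indicator (fun _ : ℝ => K) x with hK'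
  have bg : ∀ y, ‖∫ t, DualB_U φ f t y‖ ≤ K' := fun y => DualB_bd (fun t => bU t y) (fun t ht => zU t y ht)
  have mg : Measurable (fun y => ∫ t, DualB_U φ f t y) := by
    have h : StronglyMeasurable (fun p : ℝ × ℝ => DualB_U φ f p.2 p.1) :=
      (mU.comp measurable_swap).stronglyMeasurable
    exact h.integral_prod_right.measurable
  have hfin : volume (Set.Icc α β) ≠ ⊤ := by
    rw [Real.volume_Icc]
    exact ENNReal.ofReal_ne_top
  have : IsFiniteMeasure (volume.restrict (Set.Icc α β)) := by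
    constructor
    rw [Measure.restrict_apply_univ]
    exact lt_top_iff_ne_top.mpr hfin
  have hI : Integrable (Function.uncurry fun (y : ℝ) (p : ℝ × ℝ) =>
      DualB_U φ f p.1 y * (starRingEnd ℂ) (DualB_U φ f p.2 y))
      ((volume.restrict (Set.Icc α β)).prod (volume.prod volume)) :=
    DualB_joint mU bU zU
  -- the square as a double integral
  have e1 : ∫ y in Set.Icc α β, ((‖∫ t, DualB_U φ f t y‖ ^ 2 : ℝ) : ℂ) =
      ∫ t, ∫ t', Bf φ (Set.Icc α β) t t' (fun ξ => f ξ t) (fun ξ => (starRingEnd ℂ) (f ξ t')) := by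
    calc ∫ y in Set.Icc α β, ((‖∫ t, DualB_U φ f t y‖ ^ 2 : ℝ) : ℂ)
        = ∫ y in Set.Icc α β, (∫ p : ℝ × ℝ, DualB_U φ f p.1 y *
            (starRingEnd ℂ) (DualB_U φ f p.2 y) ∂(volume.prod volume)) := by
          congr 1
          funext y
          rw [integral_prod_mul (fun t => DualB_U φ f t y)
            (fun t => (starRingEnd ℂ) (DualB_U φ f t y)), integral_conj, RCLike.mul_conj]
          push_cast
          rfl
      _ = ∫ p : ℝ × ℝ, (∫ y in Set.Icc α β, DualB_U φ f p.1 y *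
            (starRingEnd ℂ) (DualB_U φ f p.2 y)) ∂(volume.prod volume) := by
          rw [integral_integral_swap hI]
      _ = ∫ t, ∫ t', ∫ y in Set.Icc α β, DualB_U φ f t y *
            (starRingEnd ℂ) (DualB_U φ f t' y) := by
          rw [integral_prod]
          exact hI.integral_prod_right
      _ = _ := by
          congr 1
          funext t
          congr 1
          funext t'
          exact DualB_id _ _ _
  have e2 : ∫⁻ y in Set.Icc α β, ‖∫ t, DualB_U φ f t y‖ₑ ^ (2 : ℝ) =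
      ‖∫ y in Set.Icc α β, ((‖∫ t, DualB_U φ f t y‖ ^ 2 : ℝ) : ℂ)‖ₑ := by
    rw [integral_complex_ofReal]
    rw [← ofReal_norm, Complex.norm_real, Real.norm_of_nonneg (integral_nonneg fun _ => by positivity)]
    rw [ofReal_integral_eq_lintegral_ofReal]
    · congr 1
      funext y
      rw [← ofReal_norm, ENNReal.ofReal_rpow_of_nonneg (norm_nonneg _) (by norm_num), Real.rpow_two]
    · refine Measure.integrableOn_of_bounded (M := K' ^ 2) hfin
        ((mg.norm.pow_const 2).aestronglyMeasurable) (Filter.Eventually.of_forall fun y => ?_)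
      rw [Real.norm_of_nonneg (by positivity)]
      exact pow_le_pow_left₀ (norm_nonneg _) (bg y) 2
    · exact Filter.Eventually.of_forall fun y => by positivity
  have e3 : ∫⁻ y in Set.Icc α β, ‖∫ t, ∫ ξ, ee (y * ξ + t * φ y) * f ξ t‖ₑ ^ (2 : ℝ) =
      ∫⁻ y in Set.Icc α β, ‖∫ t, DualB_U φ f t y‖ₑ ^ (2 : ℝ) := rfl
  rw [e3, e2, e1]
  refine (enorm_integral_le_lintegral_enorm _).trans ?_
  apply lintegral_mono
  intro t
  exact enorm_integral_le_lintegral_enorm _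

theorem dual_bound (a b : ℝ) (ha : 2 < a) (hb : 2 < b) (hab : 4 / a = 1 - 2 / b) :
    ∃ C : ℝ, 0 < C ∧ ∀ (φ φ1 φ2 : ℝ → ℝ) (α β lam : ℝ), 0 < lam → Measurable φ →
      (∀ x ∈ Set.Icc α β, HasDerivAt φ (φ1 x) x) →
      (∀ x ∈ Set.Icc α β, HasDerivAt φ1 (φ2 x) x) →
      (∀ x ∈ Set.Icc α β, lam ≤ φ2 x) →
      ∀ f : ℝ → ℝ → ℂ, BM2 f → (∃ R : ℝ, ∀ ξ t, R < |ξ| ∨ R < |t| → f ξ t = 0) →
        ∫⁻ y in Set.Icc α β, ‖∫ t, ∫ ξ, ee (y * ξ + t * φ y) * f ξ t‖ₑ ^ (2 : ℝ) ≤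
          ENNReal.ofReal (C * lam ^ (-(2 / a))) *
            (mix2 (a / (a - 1)) (b / (b - 1)) f) ^ (2 : ℝ) := by
  have ha0 : 0 < a := by linarith
  have ha1 : 0 < a - 1 := by linarith
  have hb0 : 0 < b := by linarith
  have hb1 : 0 < b - 1 := by linarith
  have hγ0 : 0 < 2 / a := by positivity
  have hγ1 : 2 / a < 1 := by rw [div_lt_one ha0]; exact ha
  obtain ⟨C, hC, hls⟩ := hls (2 / a) hγ0 hγ1
  refine ⟨8 ^ (1 - 2 / b) * C, by positivity, ?_⟩
  rintro φ φ1 φ2 α β lam hlam hφ h1 h2 h3 f hf ⟨R, hR⟩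
  refine (DualB_sq hφ hf hR).trans ?_
  set N : ℝ → ℝ≥0∞ := fun t => lp (b / (b - 1)) volume (fun ξ => f ξ t) with hN
  have mN : Measurable N := by
    rw [hN]
    unfold lp
    apply Measurable.pow_const
    have m1 : Measurable (fun p : ℝ × ℝ => ‖f p.2 p.1‖ₑ ^ (b / (b - 1))) :=
      ((hf.1.comp measurable_swap).enorm).pow_const _
    exact m1.lintegral_prod_right'
  have hNc : ∀ t, lp (b / (b - 1)) volume (fun ξ => (starRingEnd ℂ) (f ξ t)) = N t := by
    intro t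
    rw [hN]
    unfold lp
    congr 2
    funext ξ
    rw [← ofReal_norm, ← ofReal_norm, RCLike.norm_conj]
  have hform : ∀ t t', t ≠ t' →
      ‖Bf φ (Set.Icc α β) t t' (fun ξ => f ξ t) (fun ξ => (starRingEnd ℂ) (f ξ t'))‖ₑ ≤
        ENNReal.ofReal (8 ^ (1 - 2 / b) * lam ^ (-(2 / a))) *
          (N t * N t' * ENNReal.ofReal (|t - t'| ^ (-(2 / a)))) := by
    intro t t' htt
    have := form_bound φ φ1 φ2 α β lam hlam h1 h2 h3 hφ b hb t t' htt _ _
      (DualB_slice hf hR t) (DualB_slice_conj hf hR t')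
    rw [hNc t'] at this
    refine this.trans (le_of_eq ?_)
    have hpos : 0 < |t - t'| := abs_pos.mpr (sub_ne_zero.mpr htt)
    have e : (8 * (lam * |t - t'|) ^ (-(1 / 2) : ℝ)) ^ (1 - 2 / b) =
        (8 ^ (1 - 2 / b) * lam ^ (-(2 / a))) * |t - t'| ^ (-(2 / a)) := by
      rw [Real.mul_rpow (by norm_num) (by positivity), ← Real.rpow_mul (by positivity),
        Real.mul_rpow hlam.le hpos.le, ← hab]
      rw [show -(1 / 2 : ℝ) * (4 / a) = -(2 / a) by ring]
      ring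
    rw [e, ENNReal.ofReal_mul (by positivity)]
    simp only [hN]
    ring
  calc ∫⁻ t, ∫⁻ t', ‖Bf φ (Set.Icc α β) t t' (fun ξ => f ξ t)
        (fun ξ => (starRingEnd ℂ) (f ξ t'))‖ₑ
      ≤ ∫⁻ t, ∫⁻ t', ENNReal.ofReal (8 ^ (1 - 2 / b) * lam ^ (-(2 / a))) *
          (N t * N t' * ENNReal.ofReal (|t - t'| ^ (-(2 / a)))) := by
        apply lintegral_mono
        intro t
        apply lintegral_mono_ae
        have : ∀ᵐ t' : ℝ, t' ≠ t := by
          rw [ae_iff]
          simp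
        filter_upwards [this] with t' ht'
        exact hform t t' (Ne.symm ht')
    _ = ENNReal.ofReal (8 ^ (1 - 2 / b) * lam ^ (-(2 / a))) *
          ∫⁻ t, ∫⁻ t', N t * N t' * ENNReal.ofReal (|t - t'| ^ (-(2 / a))) := by
        rw [← lintegral_const_mul' _ _ ENNReal.ofReal_ne_top]
        congr 1
        funext t
        rw [lintegral_const_mul' _ _ ENNReal.ofReal_ne_top]
    _ ≤ ENNReal.ofReal (8 ^ (1 - 2 / b) * lam ^ (-(2 / a))) *
          (ENNReal.ofReal C * (∫⁻ s, N s ^ (2 / (2 - 2 / a))) ^ (1 - 2 / a / 2) *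
            (∫⁻ t, N t ^ (2 / (2 - 2 / a))) ^ (1 - 2 / a / 2)) := by
        gcongr
        exact hls N N mN mN
    _ = _ := by
        have e1 : 2 / (2 - 2 / a) = a / (a - 1) := by
          field_simp
        have e2 : 1 - 2 / a / 2 = 1 / (a / (a - 1)) := by
          field_simp
        rw [e1, e2]
        have e3 : (∫⁻ s, N s ^ (a / (a - 1))) ^ (1 / (a / (a - 1))) =
            mix2 (a / (a - 1)) (b / (b - 1)) f := by
          unfold mix2
          congr 2
          funext t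
          rw [hN]
          unfold lp
          rw [← ENNReal.rpow_mul]
          congr 1
          ring
        rw [e3, ENNReal.rpow_two, sq]
        rw [show 8 ^ (1 - 2 / b) * C * lam ^ (-(2 / a)) = 8 ^ (1 - 2 / b) * lam ^ (-(2 / a)) * C by ring,
          ENNReal.ofReal_mul (p := 8 ^ (1 - 2 / b) * lam ^ (-(2 / a))) (by positivity)]
        ring

end Pool.Agent.FlatRes
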