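import Pool.Agent.Lib.MP_40a0b6_an.S_Basic
set_option autoImplicit false
open MeasureTheory
open scoped ENNReal
namespace Pool.Agent.FlatRes

section interp

variable {X : Type*} [MeasurableSpace X] {μ : Measure X}

theorem interp_nice_zero : Nice μ (0 : X → ℂ) :=
  ⟨measurable_const, ⟨0, fun x => by simp⟩, by simp⟩

theorem interp_nice_add {u v : X → ℂ} (hu : Nice μ u) (hv : Nice μ v) : Nice μ (u + v) := by
  obtain ⟨hu1, ⟨M, hM⟩, hu3⟩ := hu
  obtain ⟨hv1, ⟨N, hN⟩, hv3⟩ := hv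
  refine ⟨hu1.add hv1, ⟨M + N, fun x => (norm_add_le _ _).trans (add_le_add (hM x) (hN x))⟩, ?_⟩
  refine ne_top_of_le_ne_top (ENNReal.add_ne_top.2 ⟨hu3, hv3⟩) ?_
  exact (measure_mono (Function.support_add u v)).trans (measure_union_le _ _)

theorem interp_nice_smul (c : ℂ) {u : X → ℂ} (hu : Nice μ u) : Nice μ (c • u) := by
  obtain ⟨hu1, ⟨M, hM⟩, hu3⟩ := hu
  refine ⟨hu1.const_smul c, ⟨‖c‖ * M, fun x => ?_⟩, ?_⟩
  · rw [Pi.smul_apply, norm_smul]
    exact mul_le_mul_of_nonneg_left (hM x) (norm_nonneg _)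
  · refine ne_top_of_le_ne_top hu3 (measure_mono ?_)
    intro x hx
    simp only [Function.mem_support, Pi.smul_apply, smul_eq_mul, ne_eq, mul_eq_zero, not_or] at hx
    exact hx.2

theorem interp_nice_sub {u v : X → ℂ} (hu : Nice μ u) (hv : Nice μ v) : Nice μ (u - v) := by
  have h := interp_nice_add hu (interp_nice_smul (-1) hv)
  have e : u + (-1 : ℂ) • v = u - v := by
    funext x; simp [sub_eq_add_neg]
  rwa [e] at h

theorem interp_nice_ind {A : Set X} (hA : MeasurableSet A) (hf : μ A ≠ ⊤) :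
    Nice μ (A.indicator (fun _ => (1 : ℂ))) := by
  refine ⟨measurable_const.indicator hA, ⟨1, fun x => ?_⟩, ?_⟩
  · by_cases h : x ∈ A <;> simp [h]
  · exact ne_top_of_le_ne_top hf (measure_mono Set.support_indicator_subset)

theorem interp_sum (L : (X → ℂ) → ℂ)
    (hadd : ∀ u u', Nice μ u → Nice μ u' → L (u + u') = L u + L u')
    (hsmul : ∀ (c : ℂ) u, Nice μ u → L (c • u) = c * L u)
    {ι : Type*} (F : Finset ι) (c : ι → ℂ) (f : ι → X → ℂ) (hf : ∀ i ∈ F, Nice μ (f i)) :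
    Nice μ (∑ i ∈ F, c i • f i) ∧ L (∑ i ∈ F, c i • f i) = ∑ i ∈ F, c i * L (f i) := by
  classical
  induction F using Finset.induction_on with
  | empty =>
    refine ⟨by simpa using interp_nice_zero, ?_⟩
    have := hsmul 0 0 interp_nice_zero
    simpa using this
  | insert a F ha ih =>
    have h1 := ih (fun i hi => hf i (Finset.mem_insert_of_mem hi))
    have h2 : Nice μ (c a • f a) := interp_nice_smul _ (hf a (Finset.mem_insert_self _ _))
    rw [Finset.sum_insert ha, Finset.sum_insert ha]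
    refine ⟨interp_nice_add h2 h1.1, ?_⟩
    rw [hadd _ _ h2 h1.1, hsmul _ _ (hf a (Finset.mem_insert_self _ _)), h1.2]

/-- decomposition of a function of a simple function -/
theorem interp_decomp (s : SimpleFunc X ℂ) (φ : ℂ → ℂ) (h0 : φ 0 = 0) :
    (fun x => φ (s x)) = ∑ c ∈ s.range.filter (fun c => c ≠ 0),
      φ c • (s ⁻¹' {c}).indicator (fun _ => (1 : ℂ)) := by
  classical
  funext x
  rw [Finset.sum_apply]
  by_cases hx : s x = 0
  · rw [hx, h0]
    symm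
    refine Finset.sum_eq_zero fun c hc => ?_
    rw [Finset.mem_filter] at hc
    have : x ∉ s ⁻¹' {c} := by
      intro h
      rw [Set.mem_preimage, Set.mem_singleton_iff] at h
      exact hc.2 (h.symm.trans hx)
    simp [this]
  · rw [Finset.sum_eq_single (s x)]
    · simp
    · intro c _ hc
      have : x ∉ s ⁻¹' {c} := by
        intro h
        rw [Set.mem_preimage, Set.mem_singleton_iff] at h
        exact hc h.symm
      simp [this]
    · intro h
      exact absurd (Finset.mem_filter.2 ⟨s.mem_range_self x, hx⟩) h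

theorem interp_nice_level (s : SimpleFunc X ℂ) (hs : μ (Function.support s) ≠ ⊤) (c : ℂ)
    (hc : c ≠ 0) : Nice μ ((s ⁻¹' {c}).indicator (fun _ => (1 : ℂ))) := by
  refine interp_nice_ind (s.measurableSet_preimage _) (ne_top_of_le_ne_top hs (measure_mono ?_))
  intro x hx
  rw [Set.mem_preimage, Set.mem_singleton_iff] at hx
  rw [Function.mem_support, hx]
  exact hc

theorem interp_nice_map (s : SimpleFunc X ℂ) (hs : μ (Function.support s) ≠ ⊤) (φ : ℂ → ℂ)
    (h0 : φ 0 = 0) : Nice μ (fun x => φ (s x)) := by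
  rw [interp_decomp s φ h0]
  refine (interp_sum (fun _ => 0) (by simp) (by simp) _ _ _ ?_).1
  intro c hc
  exact interp_nice_level s hs c (Finset.mem_filter.1 hc).2

theorem interp_lintegral_ne_top {u : X → ℂ} (hu : Nice μ u) {r : ℝ} (hr : 0 < r) :
    ∫⁻ x, ‖u x‖ₑ ^ r ∂μ ≠ ⊤ := by
  obtain ⟨hu1, ⟨M, hM⟩, hu3⟩ := hu
  have hle : ∫⁻ x, ‖u x‖ₑ ^ r ∂μ ≤ ∫⁻ x, (Function.support u).indicator
      (fun _ => (ENNReal.ofReal M) ^ r) x ∂μ := by
    refine lintegral_mono fun x => ?_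
    by_cases hx : u x = 0
    · have : x ∉ Function.support u := by simpa using hx
      simp [hx, hr]
    · have h1 : x ∈ Function.support u := by simpa using hx
      rw [Set.indicator_of_mem h1]
      refine ENNReal.rpow_le_rpow ?_ hr.le
      rw [← ofReal_norm]
      exact ENNReal.ofReal_le_ofReal (hM x)
  refine ne_top_of_le_ne_top ?_ hle
  rw [lintegral_indicator_const (measurableSet_support hu1)]
  exact ENNReal.mul_ne_top (ENNReal.rpow_ne_top_of_nonneg hr.le ENNReal.ofReal_ne_top) hu3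

/-- the analytic power function -/
noncomputable def interp_pw (p : ℝ) (z c : ℂ) : ℂ :=
  if c = 0 then 0 else ((‖c‖ : ℝ) : ℂ) ^ ((p : ℂ) * (1 - z / 2)) * (c / ((‖c‖ : ℝ) : ℂ))

theorem interp_pw_zero (p : ℝ) (z : ℂ) : interp_pw p z 0 = 0 := by simp [interp_pw]

theorem interp_pw_norm (p : ℝ) (z c : ℂ) (hc : c ≠ 0) :
    ‖interp_pw p z c‖ = ‖c‖ ^ (p * (1 - z.re / 2)) := by
  have hpos : 0 < ‖c‖ := norm_pos_iff.2 hc
  rw [interp_pw, if_neg hc, norm_mul, Complex.norm_cpow_eq_rpow_re_of_pos hpos, norm_div,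
    Complex.norm_real, norm_norm, div_self hpos.ne', mul_one]
  congr 1
  simp

theorem interp_pw_theta (p : ℝ) (hp : 0 < p) (c : ℂ) :
    interp_pw p ((2 - 2 / p : ℝ) : ℂ) c = c := by
  by_cases hc : c = 0
  · simp [interp_pw, hc]
  · have hpos : 0 < ‖c‖ := norm_pos_iff.2 hc
    have hne : ((‖c‖ : ℝ) : ℂ) ≠ 0 := by exact_mod_cast hpos.ne'
    have hpne : (p : ℂ) ≠ 0 := by exact_mod_cast hp.ne'
    rw [interp_pw, if_neg hc]
    have e : (p : ℂ) * (1 - ((2 - 2 / p : ℝ) : ℂ) / 2) = 1 := by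
      push_cast
      field_simp
      ring
    rw [e, Complex.cpow_one]
    field_simp

theorem interp_pw_diff (p : ℝ) (c : ℂ) : Differentiable ℂ (fun z => interp_pw p z c) := by
  by_cases hc : c = 0
  · simp [interp_pw, hc]
  · have hpos : 0 < ‖c‖ := norm_pos_iff.2 hc
    have hne : ((‖c‖ : ℝ) : ℂ) ≠ 0 := by exact_mod_cast hpos.ne'
    simp only [interp_pw, if_neg hc]
    refine Differentiable.mul_const ?_ _
    intro z
    refine DifferentiableAt.const_cpow ?_ (Or.inl hne)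
    fun_prop

theorem interp_pw_bound (p : ℝ) (hp : 0 < p) (z c : ℂ) (hz0 : 0 ≤ z.re) (hz1 : z.re ≤ 1) :
    ‖interp_pw p z c‖ ≤ (1 + ‖c‖) ^ p := by
  by_cases hc : c = 0
  · subst hc
    simp [interp_pw]
  · rw [interp_pw_norm p z c hc]
    have h1 : 0 ≤ p * (1 - z.re / 2) := mul_nonneg hp.le (by linarith)
    have h2 : p * (1 - z.re / 2) ≤ p := by
      have : p * (1 - z.re / 2) ≤ p * 1 := mul_le_mul_of_nonneg_left (by linarith) hp.le
      linarith
    calc ‖c‖ ^ (p * (1 - z.re / 2)) ≤ (1 + ‖c‖) ^ (p * (1 - z.re / 2)) :=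
          Real.rpow_le_rpow (norm_nonneg _) (by linarith) h1
      _ ≤ (1 + ‖c‖) ^ p :=
          Real.rpow_le_rpow_of_exponent_le (by linarith [norm_nonneg c]) h2

theorem interp_pw_enorm (p : ℝ) (hp : 0 < p) (z c : ℂ) (_hz0 : 0 ≤ z.re) (hz1 : z.re ≤ 1) :
    ‖interp_pw p z c‖ₑ = ‖c‖ₑ ^ (p * (1 - z.re / 2)) := by
  have h1 : 0 < p * (1 - z.re / 2) := mul_pos hp (by linarith)
  by_cases hc : c = 0
  · subst hc
    simp [interp_pw, h1]
  · rw [← ofReal_norm, interp_pw_norm p z c hc, ← ofReal_norm,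
      ENNReal.ofReal_rpow_of_nonneg (norm_nonneg _) h1.le]

theorem interp_lp1 (p : ℝ) (hp : 0 < p) (s : X → ℂ) (z : ℂ) (hz : z.re = 0) :
    lp 1 μ (fun x => interp_pw p z (s x)) = ∫⁻ x, ‖s x‖ₑ ^ p ∂μ := by
  unfold lp
  rw [div_one, ENNReal.rpow_one]
  refine lintegral_congr fun x => ?_
  rw [ENNReal.rpow_one, interp_pw_enorm p hp z _ hz.ge (by rw [hz]; norm_num), hz]
  simp

theorem interp_lp2 (p : ℝ) (hp : 0 < p) (s : X → ℂ) (z : ℂ) (hz : z.re = 1) :
    lp 2 μ (fun x => interp_pw p z (s x)) = (∫⁻ x, ‖s x‖ₑ ^ p ∂μ) ^ (1 / (2 : ℝ)) := by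
  unfold lp
  congr 1
  refine lintegral_congr fun x => ?_
  rw [interp_pw_enorm p hp z _ (by rw [hz]; norm_num) hz.le, hz, ← ENNReal.rpow_mul]
  congr 1
  ring

end interp

section interp2

variable {X Y : Type*} [MeasurableSpace X] [MeasurableSpace Y] (μ : Measure X)
    (ν : Measure Y) (B : (X → ℂ) → (Y → ℂ) → ℂ)

theorem interp_formula
    (hadd1 : ∀ u u' v, Nice μ u → Nice μ u' → Nice ν v → B (u + u') v = B u v + B u' v)
    (hsmul1 : ∀ (c : ℂ) u v, Nice μ u → Nice ν v → B (c • u) v = c * B u v)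
    (hadd2 : ∀ u v v', Nice μ u → Nice ν v → Nice ν v' → B u (v + v') = B u v + B u v')
    (hsmul2 : ∀ (c : ℂ) u v, Nice μ u → Nice ν v → B u (c • v) = c * B u v)
    (s : SimpleFunc X ℂ) (t : SimpleFunc Y ℂ) (hs : μ (Function.support s) ≠ ⊤)
    (ht : ν (Function.support t) ≠ ⊤) (φ : ℂ → ℂ) (h0 : φ 0 = 0) :
    B (fun x => φ (s x)) (fun y => φ (t y)) =
      ∑ c ∈ s.range.filter (fun c => c ≠ 0), φ c * ∑ d ∈ t.range.filter (fun c => c ≠ 0),
        φ d * B ((s ⁻¹' {c}).indicator (fun _ => (1 : ℂ))) ((t ⁻¹' {d}).indicator (fun _ => (1 : ℂ))) := by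
  have ht' : Nice ν (fun y => φ (t y)) := interp_nice_map t ht φ h0
  conv_lhs => rw [interp_decomp s φ h0]
  rw [(interp_sum (μ := μ) (fun u => B u (fun y => φ (t y)))
    (fun u u' h h' => hadd1 u u' _ h h' ht') (fun c u h => hsmul1 c u _ h ht') _ _ _
    (fun c hc => interp_nice_level s hs c (Finset.mem_filter.1 hc).2)).2]
  refine Finset.sum_congr rfl fun c hc => ?_
  congr 1
  have hc' := interp_nice_level s hs c (Finset.mem_filter.1 hc).2
  conv_lhs => rw [interp_decomp t φ h0]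
  exact (interp_sum (μ := ν) (fun v => B _ v)
    (fun v v' h h' => hadd2 _ v v' hc' h h') (fun c v h => hsmul2 c _ v hc' h) _ _ _
    (fun d hd => interp_nice_level t ht d (Finset.mem_filter.1 hd).2)).2

theorem interp_simple
    (hadd1 : ∀ u u' v, Nice μ u → Nice μ u' → Nice ν v → B (u + u') v = B u v + B u' v)
    (hsmul1 : ∀ (c : ℂ) u v, Nice μ u → Nice ν v → B (c • u) v = c * B u v)
    (hadd2 : ∀ u v v', Nice μ u → Nice ν v → Nice ν v' → B u (v + v') = B u v + B u v')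
    (hsmul2 : ∀ (c : ℂ) u v, Nice μ u → Nice ν v → B u (c • v) = c * B u v)
    (A0 A1 : ℝ) (hA0 : 0 ≤ A0) (hA1 : 0 ≤ A1)
    (h0 : ∀ u v, Nice μ u → Nice ν v → ‖B u v‖ₑ ≤ ENNReal.ofReal A0 * lp 1 μ u * lp 1 ν v)
    (h1 : ∀ u v, Nice μ u → Nice ν v → ‖B u v‖ₑ ≤ ENNReal.ofReal A1 * lp 2 μ u * lp 2 ν v)
    (p : ℝ) (hp1 : 1 < p) (hp2 : p < 2)
    (s : SimpleFunc X ℂ) (t : SimpleFunc Y ℂ) (hs : μ (Function.support s) ≠ ⊤)
    (ht : ν (Function.support t) ≠ ⊤) :
    ‖B s t‖ₑ ≤ ENNReal.ofReal (A0 ^ (2 / p - 1) * A1 ^ (2 - 2 / p)) * lp p μ s * lp p ν t := by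
  have hp0 : 0 < p := by linarith
  have hNs : ∀ z, Nice μ (fun x => interp_pw p z (s x)) := fun z =>
    interp_nice_map s hs _ (interp_pw_zero p z)
  have hNt : ∀ z, Nice ν (fun x => interp_pw p z (t x)) := fun z =>
    interp_nice_map t ht _ (interp_pw_zero p z)
  have hNs0 : Nice μ (fun x => s x) := interp_nice_map s hs (fun c => c) rfl
  have hNt0 : Nice ν (fun x => t x) := interp_nice_map t ht (fun c => c) rfl
  set P : ℝ≥0∞ := ∫⁻ x, ‖s x‖ₑ ^ p ∂μ with hPdef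
  set Q : ℝ≥0∞ := ∫⁻ x, ‖t x‖ₑ ^ p ∂ν with hQdef
  have hP : P ≠ ⊤ := interp_lintegral_ne_top hNs0 hp0
  have hQ : Q ≠ ⊤ := interp_lintegral_ne_top hNt0 hp0
  set G : ℂ → ℂ := fun z => B (fun x => interp_pw p z (s x)) (fun y => interp_pw p z (t y)) with hG
  have hGf : G = fun z => ∑ c ∈ s.range.filter (fun c => c ≠ 0), interp_pw p z c *
      ∑ d ∈ t.range.filter (fun c => c ≠ 0), interp_pw p z d *
        B ((s ⁻¹' {c}).indicator (fun _ => (1 : ℂ))) ((t ⁻¹' {d}).indicator (fun _ => (1 : ℂ))) := by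
    funext z
    exact interp_formula μ ν B hadd1 hsmul1 hadd2 hsmul2 s t hs ht (interp_pw p z)
      (interp_pw_zero p z)
  have hGd : Differentiable ℂ G := by
    rw [hGf]
    refine Differentiable.fun_sum fun c _ => ?_
    refine (interp_pw_diff p c).mul ?_
    refine Differentiable.fun_sum fun d _ => ?_
    exact (interp_pw_diff p d).mul_const _
  have hGb : BddAbove ((norm ∘ G) '' Complex.HadamardThreeLines.verticalClosedStrip 0 1) := by
    refine ⟨∑ c ∈ s.range.filter (fun c => c ≠ 0), (1 + ‖c‖) ^ p *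
      ∑ d ∈ t.range.filter (fun c => c ≠ 0), (1 + ‖d‖) ^ p *
        ‖B ((s ⁻¹' {c}).indicator (fun _ => (1 : ℂ))) ((t ⁻¹' {d}).indicator (fun _ => (1 : ℂ)))‖, ?_⟩
    rintro _ ⟨z, hz, rfl⟩
    have hz' : 0 ≤ z.re ∧ z.re ≤ 1 := hz
    rw [Function.comp_apply, hGf]
    refine (norm_sum_le _ _).trans (Finset.sum_le_sum fun c _ => ?_)
    rw [norm_mul]
    refine mul_le_mul (interp_pw_bound p hp0 z c hz'.1 hz'.2) ?_ (norm_nonneg _)
      (Real.rpow_nonneg (by positivity) _)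
    refine (norm_sum_le _ _).trans (Finset.sum_le_sum fun d _ => ?_)
    rw [norm_mul]
    exact mul_le_mul_of_nonneg_right (interp_pw_bound p hp0 z d hz'.1 hz'.2) (norm_nonneg _)
  have ha : ∀ z ∈ Complex.re ⁻¹' {0}, ‖G z‖ ≤ A0 * P.toReal * Q.toReal := by
    intro z hz
    have hz' : z.re = 0 := hz
    have h := h0 _ _ (hNs z) (hNt z)
    rw [interp_lp1 p hp0 _ z hz', interp_lp1 p hp0 _ z hz'] at h
    have e : ENNReal.ofReal A0 * P * Q = ENNReal.ofReal (A0 * P.toReal * Q.toReal) := by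
      rw [ENNReal.ofReal_mul (by positivity), ENNReal.ofReal_mul hA0, ENNReal.ofReal_toReal hP,
        ENNReal.ofReal_toReal hQ]
    rw [← hPdef, ← hQdef, e, ← ofReal_norm, ENNReal.ofReal_le_ofReal_iff (by positivity)] at h
    exact h
  have hb : ∀ z ∈ Complex.re ⁻¹' {1},
      ‖G z‖ ≤ A1 * P.toReal ^ (1 / (2 : ℝ)) * Q.toReal ^ (1 / (2 : ℝ)) := by
    intro z hz
    have hz' : z.re = 1 := hz
    have h := h1 _ _ (hNs z) (hNt z)
    rw [interp_lp2 p hp0 _ z hz', interp_lp2 p hp0 _ z hz'] at h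
    have e : ENNReal.ofReal A1 * P ^ (1 / (2 : ℝ)) * Q ^ (1 / (2 : ℝ)) =
        ENNReal.ofReal (A1 * P.toReal ^ (1 / (2 : ℝ)) * Q.toReal ^ (1 / (2 : ℝ))) := by
      rw [ENNReal.ofReal_mul (by positivity), ENNReal.ofReal_mul hA1,
        ← ENNReal.ofReal_rpow_of_nonneg (by positivity) (by positivity),
        ← ENNReal.ofReal_rpow_of_nonneg (by positivity) (by positivity),
        ENNReal.ofReal_toReal hP, ENNReal.ofReal_toReal hQ]
    rw [← hPdef, ← hQdef, e, ← ofReal_norm, ENNReal.ofReal_le_ofReal_iff (by positivity)] at h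
    exact h
  have hθ0 : 0 < 2 / p - 1 := by
    rw [sub_pos, lt_div_iff₀ hp0]; linarith
  have hθ1 : 0 < 1 - 1 / p := by
    rw [sub_pos, div_lt_one hp0]; exact hp1
  have hθ2 : 0 < 2 - 2 / p := by
    have : 2 - 2 / p = 2 * (1 - 1 / p) := by ring
    rw [this]; linarith
  have key := Complex.HadamardThreeLines.norm_le_interp_of_mem_verticalClosedStrip₀₁' G
    (z := ((2 - 2 / p : ℝ) : ℂ)) (a := A0 * P.toReal * Q.toReal)
    (b := A1 * P.toReal ^ (1 / (2 : ℝ)) * Q.toReal ^ (1 / (2 : ℝ)))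
    (by
      change (((2 - 2 / p : ℝ) : ℂ)).re ∈ Set.Icc (0 : ℝ) 1
      rw [Complex.ofReal_re]
      exact ⟨hθ2.le, by linarith⟩)
    hGd.diffContOnCl hGb ha hb
  have hGθ : G ((2 - 2 / p : ℝ) : ℂ) = B s t := by
    simp only [hG]
    have e1 : (fun x => interp_pw p ((2 - 2 / p : ℝ) : ℂ) (s x)) = s := by
      funext x; exact interp_pw_theta p hp0 _
    have e2 : (fun x => interp_pw p ((2 - 2 / p : ℝ) : ℂ) (t x)) = t := by
      funext x; exact interp_pw_theta p hp0 _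
    rw [e1, e2]
  rw [hGθ, Complex.ofReal_re] at key
  have hP0 : 0 ≤ P.toReal := ENNReal.toReal_nonneg
  have hQ0 : 0 ≤ Q.toReal := ENNReal.toReal_nonneg
  have ereal : (A0 * P.toReal * Q.toReal) ^ (1 - (2 - 2 / p)) *
      (A1 * P.toReal ^ (1 / (2 : ℝ)) * Q.toReal ^ (1 / (2 : ℝ))) ^ (2 - 2 / p) =
      A0 ^ (2 / p - 1) * A1 ^ (2 - 2 / p) * P.toReal ^ (1 / p) * Q.toReal ^ (1 / p) := by
    have ex : 1 - (2 - 2 / p) = 2 / p - 1 := by ring
    rw [ex, Real.mul_rpow (by positivity) hQ0, Real.mul_rpow hA0 hP0,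
      Real.mul_rpow (by positivity) (by positivity), Real.mul_rpow hA1 (by positivity),
      ← Real.rpow_mul hP0, ← Real.rpow_mul hQ0]
    have e3 : 1 / p = (2 / p - 1) + 1 / 2 * (2 - 2 / p) := by ring
    rw [e3, Real.rpow_add_of_nonneg hP0 hθ0.le (by linarith),
      Real.rpow_add_of_nonneg hQ0 hθ0.le (by linarith)]
    ring
  rw [ereal] at key
  have hfin : ENNReal.ofReal (A0 ^ (2 / p - 1) * A1 ^ (2 - 2 / p)) * lp p μ s * lp p ν t =
      ENNReal.ofReal (A0 ^ (2 / p - 1) * A1 ^ (2 - 2 / p) * P.toReal ^ (1 / p) *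
        Q.toReal ^ (1 / p)) := by
    unfold lp
    have hC0 : 0 ≤ A0 ^ (2 / p - 1) * A1 ^ (2 - 2 / p) := by positivity
    rw [ENNReal.ofReal_mul (mul_nonneg hC0 (Real.rpow_nonneg hP0 _)), ENNReal.ofReal_mul hC0,
      ← ENNReal.ofReal_rpow_of_nonneg hP0 (by positivity),
      ← ENNReal.ofReal_rpow_of_nonneg hQ0 (by positivity),
      ENNReal.ofReal_toReal hP, ENNReal.ofReal_toReal hQ]
  rw [hfin, ← ofReal_norm]
  exact ENNReal.ofReal_le_ofReal key

end interp2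

section interp3

variable {X : Type*} [MeasurableSpace X] {μ : Measure X}

/-- simple approximation -/
theorem interp_approx {u : X → ℂ} (hu : Nice μ u) (p : ℝ) (hp : 0 < p) :
    ∃ s : ℕ → SimpleFunc X ℂ, (∀ n, μ (Function.support (s n)) ≠ ⊤) ∧
      (∀ n, lp 1 μ (s n) ≤ 2 * lp 1 μ u) ∧
      Filter.Tendsto (fun n => lp 1 μ (u - s n)) Filter.atTop (nhds 0) ∧
      Filter.Tendsto (fun n => lp p μ (s n)) Filter.atTop (nhds (lp p μ u)) := by
  set s : ℕ → SimpleFunc X ℂ := fun n =>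
    SimpleFunc.approxOn u hu.1 Set.univ 0 (Set.mem_univ _) n with hs
  have hle : ∀ n x, ‖s n x‖ ≤ ‖u x‖ + ‖u x‖ := fun n x =>
    SimpleFunc.norm_approxOn_zero_le hu.1 (Set.mem_univ _) x n
  have hle2 : ∀ n x, ‖s n x‖ₑ ≤ 2 * ‖u x‖ₑ := by
    intro n x
    rw [← ofReal_norm, ← ofReal_norm, two_mul, ← ENNReal.ofReal_add (norm_nonneg _) (norm_nonneg _)]
    exact ENNReal.ofReal_le_ofReal (hle n x)
  have hpt : ∀ x, Filter.Tendsto (fun n => s n x) Filter.atTop (nhds (u x)) := fun x =>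
    SimpleFunc.tendsto_approxOn hu.1 (Set.mem_univ _) (by simp)
  have hsup : ∀ n, Function.support (s n) ⊆ Function.support u := by
    intro n x hx hux
    apply hx
    have := hle n x
    rw [hux] at this
    simpa using this
  have hu1 : ∫⁻ x, ‖u x‖ₑ ^ (1 : ℝ) ∂μ ≠ ⊤ := interp_lintegral_ne_top hu one_pos
  refine ⟨s, fun n => ne_top_of_le_ne_top hu.2.2 (measure_mono (hsup n)), ?_, ?_, ?_⟩
  · intro n
    unfold lp
    simp only [div_one, ENNReal.rpow_one]
    rw [← lintegral_const_mul _ hu.1.enorm]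
    exact lintegral_mono fun x => hle2 n x
  · unfold lp
    simp only [div_one, ENNReal.rpow_one]
    have h1 : Filter.Tendsto (fun n => ∫⁻ x, ‖(u - ⇑(s n)) x‖ₑ ∂μ) Filter.atTop
        (nhds (∫⁻ _, 0 ∂μ)) := by
      refine tendsto_lintegral_of_dominated_convergence (fun x => 3 * ‖u x‖ₑ) ?_ ?_ ?_ ?_
      · intro n
        exact (hu.1.sub (s n).measurable).enorm
      · intro n
        refine Filter.Eventually.of_forall fun x => ?_
        calc ‖(u - ⇑(s n)) x‖ₑ ≤ ‖u x‖ₑ + ‖s n x‖ₑ := enorm_sub_le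
          _ ≤ ‖u x‖ₑ + 2 * ‖u x‖ₑ := by gcongr; exact hle2 n x
          _ = 3 * ‖u x‖ₑ := by ring
      · rw [lintegral_const_mul _ hu.1.enorm]
        refine ENNReal.mul_ne_top (by norm_num) ?_
        simpa using hu1
      · refine Filter.Eventually.of_forall fun x => ?_
        have h2 : Filter.Tendsto (fun n => ‖u x - s n x‖ₑ) Filter.atTop (nhds ‖u x - u x‖ₑ) :=
          (tendsto_const_nhds.sub (hpt x)).enorm
        simpa using h2
    simpa using h1
  · unfold lp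
    refine ((ENNReal.continuous_rpow_const).tendsto _).comp ?_
    refine tendsto_lintegral_of_dominated_convergence (fun x => (2 * ‖u x‖ₑ) ^ p) ?_ ?_ ?_ ?_
    · intro n
      exact (s n).measurable.enorm.pow_const _
    · intro n
      exact Filter.Eventually.of_forall fun x => ENNReal.rpow_le_rpow (hle2 n x) hp.le
    · have : ∀ x, (2 * ‖u x‖ₑ) ^ p = 2 ^ p * ‖u x‖ₑ ^ p := fun x =>
        ENNReal.mul_rpow_of_nonneg _ _ hp.le
      simp only [this]
      rw [lintegral_const_mul _ (hu.1.enorm.pow_const _)]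
      exact ENNReal.mul_ne_top (ENNReal.rpow_ne_top_of_nonneg hp.le (by norm_num))
        (interp_lintegral_ne_top hu hp)
    · refine Filter.Eventually.of_forall fun x => ?_
      exact ((ENNReal.continuous_rpow_const).tendsto _).comp (hpt x).enorm

theorem interp_lp_ne_top {u : X → ℂ} (hu : Nice μ u) (p : ℝ) (hp : 0 < p) : lp p μ u ≠ ⊤ := by
  unfold lp
  exact ENNReal.rpow_ne_top_of_nonneg (by positivity) (interp_lintegral_ne_top hu hp)

end interp3

/-- JOB S_Interp.  Bilinear Riesz–Thorin interpolation between `L¹ × L¹` and `L² × L²` (constant `1`).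

Proof.  Step 1: `u = Σ_i c_i 1_{A_i}`, `v = Σ_j d_j 1_{C_j}` simple functions (finite sums, the `A_i`
pairwise disjoint measurable of finite measure, `c_i ≠ 0`; same for `v`).  For `z ∈ ℂ` put
`u_z = Σ_i |c_i|^{p(1-z/2)} (c_i/|c_i|) 1_{A_i}` and `v_z` likewise, and
`G(z) = B u_z v_z = Σ_{i,j} |c_i|^{p(1-z/2)} |d_j|^{p(1-z/2)} (c_i/|c_i|)(d_j/|d_j|) B 1_{A_i} 1_{C_j}`:
entire, bounded on the strip `0 ≤ Re z ≤ 1`.  On `Re z = 0`: `|u_z| = |u|^p`, so
`‖G‖ ≤ A0 ‖u‖_p^p ‖v‖_p^p`; on `Re z = 1`: `|u_z| = |u|^{p/2}`, so `‖G‖ ≤ A1 ‖u‖_p^{p/2} ‖v‖_p^{p/2}`.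
Hadamard three lines (`Complex.HadamardThreeLines.norm_le_interp_of_mem_verticalClosedStrip'`) at
`θ = 2 - 2/p` where `p(1-θ/2) = 1`, `u_θ = u`: `‖B u v‖ ≤ A0^{1-θ} A1^θ ‖u‖_p ‖v‖_p`.
Step 2: `u, v` nice: approximate by simple functions `u_k → u` vanishing outside the support of `u`,
`|u_k - u| ≤ 2^{-k}` (uniform convergence: bounded measurable functions; or dominated convergence
with `SimpleFunc.approxOn`), then `‖u_k - u‖_1 → 0`, `lp p u_k → lp p u` and
`B u_k v_k → B u v` by `h0`. -/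
theorem bil_interp {X Y : Type*} [MeasurableSpace X] [MeasurableSpace Y] (μ : Measure X)
    (ν : Measure Y) (B : (X → ℂ) → (Y → ℂ) → ℂ)
    (hadd1 : ∀ u u' v, Nice μ u → Nice μ u' → Nice ν v → B (u + u') v = B u v + B u' v)
    (hsmul1 : ∀ (c : ℂ) u v, Nice μ u → Nice ν v → B (c • u) v = c * B u v)
    (hadd2 : ∀ u v v', Nice μ u → Nice ν v → Nice ν v' → B u (v + v') = B u v + B u v')
    (hsmul2 : ∀ (c : ℂ) u v, Nice μ u → Nice ν v → B u (c • v) = c * B u v)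
    (A0 A1 : ℝ) (hA0 : 0 ≤ A0) (hA1 : 0 ≤ A1)
    (h0 : ∀ u v, Nice μ u → Nice ν v → ‖B u v‖ₑ ≤ ENNReal.ofReal A0 * lp 1 μ u * lp 1 ν v)
    (h1 : ∀ u v, Nice μ u → Nice ν v → ‖B u v‖ₑ ≤ ENNReal.ofReal A1 * lp 2 μ u * lp 2 ν v)
    (p : ℝ) (hp1 : 1 < p) (hp2 : p < 2) (u : X → ℂ) (v : Y → ℂ) (hu : Nice μ u) (hv : Nice ν v) :
    ‖B u v‖ₑ ≤ ENNReal.ofReal (A0 ^ (2 / p - 1) * A1 ^ (2 - 2 / p)) * lp p μ u * lp p ν v := by
  have hp0 : 0 < p := by linarith
  obtain ⟨s, hs1, hs2, hs3, hs4⟩ := interp_approx hu p hp0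
  obtain ⟨t, ht1, ht2, ht3, ht4⟩ := interp_approx hv p hp0
  have hNs : ∀ n, Nice μ (s n) := fun n => interp_nice_map (s n) (hs1 n) (fun c => c) rfl
  have hNt : ∀ n, Nice ν (t n) := fun n => interp_nice_map (t n) (ht1 n) (fun c => c) rfl
  set C : ℝ≥0∞ := ENNReal.ofReal (A0 ^ (2 / p - 1) * A1 ^ (2 - 2 / p)) with hC
  have hstep : ∀ n, ‖B u v‖ₑ ≤ C * lp p μ (s n) * lp p ν (t n) +
      (ENNReal.ofReal A0 * lp 1 μ (u - s n) * lp 1 ν v +
        ENNReal.ofReal A0 * (2 * lp 1 μ u) * lp 1 ν (v - t n)) := by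
    intro n
    have d1 : Nice μ (u - s n) := interp_nice_sub hu (hNs n)
    have d2 : Nice ν (v - t n) := interp_nice_sub hv (hNt n)
    have e1 : B u v = B (u - s n) v + B (s n) v := by
      rw [← hadd1 _ _ _ d1 (hNs n) hv]
      congr 1
      funext x; simp
    have e2 : B (s n) v = B (s n) (v - t n) + B (s n) (t n) := by
      rw [← hadd2 _ _ _ (hNs n) d2 (hNt n)]
      congr 1
      funext x; simp
    have e3 : B u v = B (s n) (t n) + (B (u - s n) v + B (s n) (v - t n)) := by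
      rw [e1, e2]; ring
    rw [e3]
    refine (enorm_add_le _ _).trans (add_le_add ?_ ((enorm_add_le _ _).trans (add_le_add ?_ ?_)))
    · exact interp_simple μ ν B hadd1 hsmul1 hadd2 hsmul2 A0 A1 hA0 hA1 h0 h1 p hp1 hp2 (s n) (t n)
        (hs1 n) (ht1 n)
    · exact h0 _ _ d1 hv
    · refine (h0 _ _ (hNs n) d2).trans ?_
      gcongr
      exact hs2 n
  have hlim : Filter.Tendsto (fun n => C * lp p μ (s n) * lp p ν (t n) +
      (ENNReal.ofReal A0 * lp 1 μ (u - s n) * lp 1 ν v +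
        ENNReal.ofReal A0 * (2 * lp 1 μ u) * lp 1 ν (v - t n))) Filter.atTop
      (nhds (C * lp p μ u * lp p ν v + (ENNReal.ofReal A0 * 0 * lp 1 ν v +
        ENNReal.ofReal A0 * (2 * lp 1 μ u) * 0))) := by
    have hCt : C ≠ ⊤ := ENNReal.ofReal_ne_top
    have hA0t : ENNReal.ofReal A0 ≠ ⊤ := ENNReal.ofReal_ne_top
    have hu1 := interp_lp_ne_top hu 1 one_pos
    have hv1 := interp_lp_ne_top hv 1 one_pos
    have hup := interp_lp_ne_top hu p hp0
    have hvp := interp_lp_ne_top hv p hp0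
    refine Filter.Tendsto.add ?_ (Filter.Tendsto.add ?_ ?_)
    · refine ENNReal.Tendsto.mul (ENNReal.Tendsto.const_mul hs4 (Or.inr hCt)) (Or.inr hvp) ht4
        (Or.inr (ENNReal.mul_ne_top hCt hup))
    · refine ENNReal.Tendsto.mul_const (ENNReal.Tendsto.const_mul hs3 (Or.inr hA0t)) (Or.inr hv1)
    · refine ENNReal.Tendsto.const_mul ht3 (Or.inr ?_)
      exact ENNReal.mul_ne_top hA0t (ENNReal.mul_ne_top (by norm_num) hu1)
  have := ge_of_tendsto' hlim hstep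
  simpa using this

end Pool.Agent.FlatRes
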