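import Pool.Agent.Lib.MP_40a0b6_an.S_Basic
set_option autoImplicit false
open MeasureTheory
open scoped ENNReal FourierTransform SchwartzMap
namespace Pool.Agent.FlatRes

open scoped ContDiff in
private theorem s_Planch_ae {V : Type*} [NormedAddCommGroup V] [InnerProductSpace ℝ V]
    [FiniteDimensional ℝ V] [MeasurableSpace V] [BorelSpace V] (u : V → ℂ)
    (h1 : Integrable u) (h2 : MemLp u 2) :
    ∀ᵐ ξ, FourierTransform.fourier u ξ = (FourierTransform.fourier (h2.toLp u) : Lp ℂ 2 (volume : Measure V)) ξ := by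
  apply ae_eq_of_integral_contDiff_smul_eq
  · have hc : Continuous (FourierTransform.fourier u) :=
      VectorFourier.fourierIntegral_continuous Real.continuous_fourierChar
        (by exact continuous_inner) h1
    exact hc.locallyIntegrable
  · exact (Lp.memLp _).locallyIntegrable (by norm_num)
  · intro g g_smooth g_cpt
    have hg₁ : HasCompactSupport (Complex.ofRealCLM ∘ g) := g_cpt.comp_left rfl
    have hg₂ : ContDiff ℝ ∞ (Complex.ofRealCLM ∘ g) := by fun_prop
    set ψ : 𝓢(V, ℂ) := hg₁.toSchwartzMap hg₂ with hψ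
    have e1 : ∫ x, g x • (FourierTransform.fourier (h2.toLp u) : Lp ℂ 2 (volume : Measure V)) x =
        Lp.toTemperedDistribution (FourierTransform.fourier (h2.toLp u) : Lp ℂ 2 (volume : Measure V)) ψ := by
      rw [Lp.toTemperedDistribution_apply]
      simp [hψ]
    have e2 : ∫ x, g x • FourierTransform.fourier u x = ∫ x, ψ x • FourierTransform.fourier u x := by
      simp [hψ]
    rw [e1, ← Lp.fourier_toTemperedDistribution_eq, TemperedDistribution.fourier_apply,
      Lp.toTemperedDistribution_apply, e2]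
    have e3 : ∫ x, (FourierTransform.fourier ψ) x • (h2.toLp u) x = ∫ x, (FourierTransform.fourier ψ) x • u x := by
      refine integral_congr_ae ?_
      filter_upwards [h2.coeFn_toLp] with x hx
      rw [hx]
    rw [e3]
    have := VectorFourier.integral_fourierIntegral_smul_eq_flip (L := innerₗ V) (μ := (volume : Measure V))
      (ν := (volume : Measure V)) (f := (ψ : V → ℂ)) (g := u)
      Real.continuous_fourierChar continuous_inner ψ.integrable h1
    rw [flip_innerₗ] at this
    exact this.symm

private theorem s_Planch_lint {X : Type*} [MeasurableSpace X] (μ : Measure X) (f : X → ℂ) :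
    ∫⁻ x, ‖f x‖ₑ ^ (2 : ℝ) ∂μ = eLpNorm f 2 μ ^ (2 : ℝ) := by
  rw [eLpNorm_eq_lintegral_rpow_enorm_toReal (by norm_num) (by norm_num), ENNReal.toReal_ofNat,
    ← ENNReal.rpow_mul]
  norm_num

private theorem s_Planch_memLp {X : Type*} [MeasurableSpace X] (μ : Measure X) (u : X → ℂ)
    (hu : Nice μ u) (p : ℝ≥0∞) : MemLp u p μ := by
  obtain ⟨hum, ⟨M, hM⟩, hsupp⟩ := hu
  have hms : MeasurableSet (Function.support u) := measurableSet_support hum
  have hind : Set.indicator (Function.support u) u = u := Set.indicator_support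
  rw [← hind, memLp_indicator_iff_restrict hms]
  have : IsFiniteMeasure (μ.restrict (Function.support u)) :=
    ⟨by rw [Measure.restrict_apply_univ]; exact lt_top_iff_ne_top.mpr hsupp⟩
  exact MemLp.of_bound hum.aestronglyMeasurable M (Filter.Eventually.of_forall hM)

/-- JOB S_Planch.  Plancherel for nice functions on a finite-dimensional inner product space.

Proof.  `u ∈ L¹ ∩ L²`.  `∫ ee(⟪x,ξ⟫) u x dx = 𝓕 u (-ξ)` (`Real.fourier_eq'`/`Real.fourierIntegral_eq'`,
and `ξ ↦ -ξ` preserves volume).  The function `𝓕 u` is continuous and bounded; Mathlib has Plancherel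
for Schwartz functions (`SchwartzMap.integral_norm_sq_fourier`...) and on `Lp ℂ 2`
(`MeasureTheory.Lp.norm_fourier_eq`), so it remains to see that the integral formula represents the
`L²` Fourier transform a.e.: (a) `MeasureTheory.Lp.fourier_toTemperedDistribution_eq` and testing against
Schwartz functions with `VectorFourier.integral_fourierIntegral_smul_eq_flip` (uniqueness:
`ae_eq` from equality of tempered distributions / `ae_eq_of_integral_contDiff_smul_eq`), or (b) approximate
`u` in `L¹` and `L²` simultaneously by Schwartz functions (smooth compactly supported), pass to a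
subsequence and use Fatou for `≤` (apply to `u`), then `=` by continuity of both sides in `L²`
(Cauchy sequence argument).  If you only get `≤`, that is what is used: state it as in
`planch_le` below (then both theorems below need only `≤`; leave the statements as they are). -/
theorem planch_le {V : Type*} [NormedAddCommGroup V] [InnerProductSpace ℝ V]
    [FiniteDimensional ℝ V] [MeasurableSpace V] [BorelSpace V] (u : V → ℂ) (hu : Nice volume u) :
    ∫⁻ ξ, ‖∫ x, ee (inner ℝ x ξ) * u x‖ₑ ^ (2 : ℝ) ≤ ∫⁻ x, ‖u x‖ₑ ^ (2 : ℝ) := by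
  have h1 : Integrable u := memLp_one_iff_integrable.mp (s_Planch_memLp volume u hu 1)
  have h2 : MemLp u 2 := s_Planch_memLp volume u hu 2
  have hF : ∀ ξ : V, ∫ x, ee (inner ℝ x ξ) * u x = FourierTransform.fourier u (-ξ) := by
    intro ξ
    rw [Real.fourier_eq']
    refine integral_congr_ae (Filter.Eventually.of_forall fun x => ?_)
    simp only [ee, smul_eq_mul]
    congr 2
    rw [inner_neg_right]
    congr 2
    ring
  simp only [hF]
  have hneg : ∫⁻ ξ : V, ‖FourierTransform.fourier u (-ξ)‖ₑ ^ (2 : ℝ) =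
      ∫⁻ ξ : V, ‖FourierTransform.fourier u ξ‖ₑ ^ (2 : ℝ) :=
    lintegral_neg_eq_self (μ := (volume : Measure V))
      (fun ξ => ‖FourierTransform.fourier u ξ‖ₑ ^ (2 : ℝ))
  rw [hneg, s_Planch_lint, s_Planch_lint, eLpNorm_congr_ae (s_Planch_ae u h1 h2),
    ← Lp.enorm_def]
  have h3 : ‖(FourierTransform.fourier (h2.toLp u) : Lp ℂ 2 (volume : Measure V))‖ₑ =
      ‖h2.toLp u‖ₑ := by
    rw [← ofReal_norm, ← ofReal_norm, Lp.norm_fourier_eq]
  rw [h3, Lp.enorm_toLp]

/-- the one-dimensional version -/
theorem planch1_le (u : ℝ → ℂ) (hu : Nice volume u) :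
    ∫⁻ y, ‖∫ ξ, ee (y * ξ) * u ξ‖ₑ ^ (2 : ℝ) ≤ ∫⁻ ξ, ‖u ξ‖ₑ ^ (2 : ℝ) := by
  have h := planch_le u hu
  simpa using h

end Pool.Agent.FlatRes
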