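import Pool.Agent.Lib.MP_40a0b6_an.S_VdC2
import Pool.Agent.Lib.MP_40a0b6_an.S_Interp
import Pool.Agent.Lib.MP_40a0b6_an.S_Planch
set_option autoImplicit false
open MeasureTheory
open scoped ENNReal
namespace Pool.Agent.FlatRes

/-- the bilinear form at a pair of times `(t,t')` -/
noncomputable def Bf (φ : ℝ → ℝ) (I : Set ℝ) (t t' : ℝ) (u v : ℝ → ℂ) : ℂ :=
  ∫ y in I, (∫ ξ, ee (y * ξ + t * φ y) * u ξ) * (∫ ξ, ee (-(y * ξ + t' * φ y)) * v ξ)

theorem Form_int {X : Type*} [MeasurableSpace X] {μ : Measure X} {u : X → ℂ} (hu : Nice μ u) :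
    Integrable u μ := by
  obtain ⟨hm, ⟨M, hM⟩, hs⟩ := hu
  have h1 : IntegrableOn u (Function.support u) μ :=
    Measure.integrableOn_of_bounded hs hm.aestronglyMeasurable
      (Filter.Eventually.of_forall hM)
  rwa [integrableOn_iff_integrable_of_support_subset (fun x hx => hx)] at h1

/-- the plain exponential integral -/
noncomputable def FormHat (u : ℝ → ℂ) (y : ℝ) : ℂ := ∫ ξ, ee (y * ξ) * u ξ

theorem Form_int_mul {u : ℝ → ℂ} (hu : Integrable u) (f : ℝ → ℝ) (hf : Measurable f) :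
    Integrable (fun ξ => ee (f ξ) * u ξ) := by
  refine (hu.norm).mono' ((measurable_ee.comp hf).aestronglyMeasurable.mul hu.aestronglyMeasurable) ?_
  refine Filter.Eventually.of_forall fun ξ => ?_
  rw [norm_mul, norm_ee, one_mul]

theorem Form_hat_pos (φ : ℝ → ℝ) (t : ℝ) (u : ℝ → ℂ) (y : ℝ) :
    (∫ ξ, ee (y * ξ + t * φ y) * u ξ) = ee (t * φ y) * FormHat u y := by
  unfold FormHat
  rw [← integral_const_mul]
  congr 1
  funext ξ
  rw [ee_add]
  ring

theorem Form_hat_neg (φ : ℝ → ℝ) (t : ℝ) (u : ℝ → ℂ) (y : ℝ) :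
    (∫ ξ, ee (-(y * ξ + t * φ y)) * u ξ) = ee (-(t * φ y)) * FormHat u (-y) := by
  unfold FormHat
  rw [← integral_const_mul]
  congr 1
  funext ξ
  rw [show -(y * ξ + t * φ y) = (-y) * ξ + -(t * φ y) by ring, ee_add]
  ring

theorem Form_hat_bdd {u : ℝ → ℂ} (y : ℝ) : ‖FormHat u y‖ ≤ ∫ ξ, ‖u ξ‖ := by
  unfold FormHat
  refine (norm_integral_le_integral_norm _).trans (le_of_eq ?_)
  congr 1
  funext ξ
  rw [norm_mul, norm_ee, one_mul]

theorem Form_hat_meas {u : ℝ → ℂ} (hu : Measurable u) : Measurable (FormHat u) := by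
  unfold FormHat
  have h : StronglyMeasurable (fun p : ℝ × ℝ => ee (p.1 * p.2) * u p.2) := by
    apply Measurable.stronglyMeasurable
    exact (measurable_ee.comp (measurable_fst.mul measurable_snd)).mul (hu.comp measurable_snd)
  exact h.integral_prod_right.measurable

theorem Form_hat_add {u u' : ℝ → ℂ} (hu : Integrable u) (hu' : Integrable u') (y : ℝ) :
    FormHat (u + u') y = FormHat u y + FormHat u' y := by
  unfold FormHat
  rw [← integral_add (Form_int_mul hu _ (by fun_prop)) (Form_int_mul hu' _ (by fun_prop))]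
  congr 1
  funext ξ
  simp only [Pi.add_apply]
  ring

theorem Form_hat_smul (c : ℂ) (u : ℝ → ℂ) (y : ℝ) :
    FormHat (c • u) y = c * FormHat u y := by
  unfold FormHat
  rw [← integral_const_mul]
  congr 1
  funext ξ
  simp only [Pi.smul_apply, smul_eq_mul]
  ring

theorem Form_Bf_eq (φ : ℝ → ℝ) (I : Set ℝ) (t t' : ℝ) (u v : ℝ → ℂ) :
    Bf φ I t t' u v = ∫ y in I, (ee (t * φ y) * FormHat u y) * (ee (-(t' * φ y)) * FormHat v (-y)) := by
  unfold Bf
  congr 1
  funext y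
  rw [Form_hat_pos, Form_hat_neg]

theorem Form_integrable (φ : ℝ → ℝ) (hφ : Measurable φ) (α β : ℝ) (t t' : ℝ) {u v : ℝ → ℂ}
    (hu : Nice volume u) (hv : Nice volume v) :
    IntegrableOn (fun y => (ee (t * φ y) * FormHat u y) * (ee (-(t' * φ y)) * FormHat v (-y)))
      (Set.Icc α β) := by
  have m1 := Form_hat_meas hu.1
  have m2 := Form_hat_meas hv.1
  refine Measure.integrableOn_of_bounded (M := (∫ ξ, ‖u ξ‖) * ∫ ξ, ‖v ξ‖) ?_ ?_ ?_
  · rw [Real.volume_Icc]; exact ENNReal.ofReal_ne_top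
  · apply Measurable.aestronglyMeasurable
    have := measurable_ee
    exact ((this.comp (hφ.const_mul t)).mul m1).mul
      ((this.comp (hφ.const_mul t').neg).mul (m2.comp measurable_neg))
  · refine Filter.Eventually.of_forall fun y => ?_
    rw [norm_mul, norm_mul, norm_mul, norm_ee, norm_ee, one_mul, one_mul]
    exact mul_le_mul (Form_hat_bdd y) (Form_hat_bdd (-y)) (norm_nonneg _)
      (integral_nonneg fun _ => norm_nonneg _)

theorem Form_add1 (φ : ℝ → ℝ) (hφ : Measurable φ) (α β : ℝ) (t t' : ℝ) {u u' v : ℝ → ℂ}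
    (hu : Nice volume u) (hu' : Nice volume u') (hv : Nice volume v) :
    Bf φ (Set.Icc α β) t t' (u + u') v =
      Bf φ (Set.Icc α β) t t' u v + Bf φ (Set.Icc α β) t t' u' v := by
  rw [Form_Bf_eq, Form_Bf_eq, Form_Bf_eq,
    ← integral_add (Form_integrable φ hφ α β t t' hu hv) (Form_integrable φ hφ α β t t' hu' hv)]
  congr 1
  funext y
  rw [Form_hat_add (Form_int hu) (Form_int hu')]
  ring

theorem Form_add2 (φ : ℝ → ℝ) (hφ : Measurable φ) (α β : ℝ) (t t' : ℝ) {u v v' : ℝ → ℂ}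
    (hu : Nice volume u) (hv : Nice volume v) (hv' : Nice volume v') :
    Bf φ (Set.Icc α β) t t' u (v + v') =
      Bf φ (Set.Icc α β) t t' u v + Bf φ (Set.Icc α β) t t' u v' := by
  rw [Form_Bf_eq, Form_Bf_eq, Form_Bf_eq,
    ← integral_add (Form_integrable φ hφ α β t t' hu hv) (Form_integrable φ hφ α β t t' hu hv')]
  congr 1
  funext y
  rw [Form_hat_add (Form_int hv) (Form_int hv')]
  ring

theorem Form_smul1 (φ : ℝ → ℝ) (α β : ℝ) (t t' : ℝ) (c : ℂ) (u v : ℝ → ℂ) :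
    Bf φ (Set.Icc α β) t t' (c • u) v = c * Bf φ (Set.Icc α β) t t' u v := by
  rw [Form_Bf_eq, Form_Bf_eq, ← integral_const_mul]
  congr 1
  funext y
  rw [Form_hat_smul]
  ring

theorem Form_smul2 (φ : ℝ → ℝ) (α β : ℝ) (t t' : ℝ) (c : ℂ) (u v : ℝ → ℂ) :
    Bf φ (Set.Icc α β) t t' u (c • v) = c * Bf φ (Set.Icc α β) t t' u v := by
  rw [Form_Bf_eq, Form_Bf_eq, ← integral_const_mul]
  congr 1
  funext y
  rw [Form_hat_smul]
  ring

/-- the `L² × L²` bound -/
theorem Form_L2 (φ : ℝ → ℝ) (hφ : Measurable φ) (α β : ℝ) (t t' : ℝ) {u v : ℝ → ℂ}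
    (hu : Nice volume u) (hv : Nice volume v) :
    ‖Bf φ (Set.Icc α β) t t' u v‖ₑ ≤ lp 2 volume u * lp 2 volume v := by
  have m1 := Form_hat_meas hu.1
  have m2 := Form_hat_meas hv.1
  have p1 : ∫⁻ y, ‖FormHat u y‖ₑ ^ (2 : ℝ) ≤ ∫⁻ ξ, ‖u ξ‖ₑ ^ (2 : ℝ) := planch1_le u hu
  have p2 : ∫⁻ y, ‖FormHat v (-y)‖ₑ ^ (2 : ℝ) ≤ ∫⁻ ξ, ‖v ξ‖ₑ ^ (2 : ℝ) := by
    have : ∫⁻ y, ‖FormHat v (-y)‖ₑ ^ (2 : ℝ) = ∫⁻ y, ‖FormHat v y‖ₑ ^ (2 : ℝ) :=
      (Measure.measurePreserving_neg volume).lintegral_comp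
        (f := fun y => ‖FormHat v y‖ₑ ^ (2 : ℝ)) (m2.enorm.pow_const _)
    rw [this]
    exact planch1_le v hv
  rw [Form_Bf_eq]
  calc ‖∫ y in Set.Icc α β, (ee (t * φ y) * FormHat u y) * (ee (-(t' * φ y)) * FormHat v (-y))‖ₑ
      ≤ ∫⁻ y in Set.Icc α β, ‖(ee (t * φ y) * FormHat u y) * (ee (-(t' * φ y)) * FormHat v (-y))‖ₑ :=
        enorm_integral_le_lintegral_enorm _
    _ = ∫⁻ y in Set.Icc α β, ((fun y => ‖FormHat u y‖ₑ) * (fun y => ‖FormHat v (-y)‖ₑ)) y := by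
        congr 1
        funext y
        rw [enorm_mul, enorm_mul, enorm_mul, enorm_ee, enorm_ee, one_mul, one_mul]
        rfl
    _ ≤ (∫⁻ y in Set.Icc α β, ‖FormHat u y‖ₑ ^ (2 : ℝ)) ^ (1 / (2 : ℝ)) *
        (∫⁻ y in Set.Icc α β, ‖FormHat v (-y)‖ₑ ^ (2 : ℝ)) ^ (1 / (2 : ℝ)) := by
        refine ENNReal.lintegral_mul_le_Lp_mul_Lq _ Real.HolderConjugate.two_two ?_ ?_
        · exact m1.enorm.aemeasurable
        · exact (m2.comp measurable_neg).enorm.aemeasurable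
    _ ≤ lp 2 volume u * lp 2 volume v := by
        unfold lp
        exact mul_le_mul'
          (ENNReal.rpow_le_rpow ((setLIntegral_le_lintegral _ _).trans p1) (by norm_num))
          (ENNReal.rpow_le_rpow ((setLIntegral_le_lintegral _ _).trans p2) (by norm_num))

theorem Form_vdc (φ φ1 φ2 : ℝ → ℝ) (α β lam : ℝ) (hlam : 0 < lam)
    (h1 : ∀ x ∈ Set.Icc α β, HasDerivAt φ (φ1 x) x)
    (h2 : ∀ x ∈ Set.Icc α β, HasDerivAt φ1 (φ2 x) x)
    (h3 : ∀ x ∈ Set.Icc α β, lam ≤ φ2 x) (t t' : ℝ) (htt : t ≠ t') (ξ ξ' : ℝ) :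
    ‖∫ y in Set.Icc α β, ee (y * ξ + t * φ y) * ee (-(y * ξ' + t' * φ y))‖ₑ ≤
      ENNReal.ofReal (8 * (lam * |t - t'|) ^ (-(1 / 2) : ℝ)) := by
  rw [← ofReal_norm]
  apply ENNReal.ofReal_le_ofReal
  rcases lt_or_gt_of_ne htt with h | h
  · -- t < t'
    have e1 : ∀ y, ee (y * ξ + t * φ y) * ee (-(y * ξ' + t' * φ y)) =
        (starRingEnd ℂ) (ee ((t' - t) * φ y + (ξ' - ξ) * y)) := by
      intro y
      rw [← ee_add, ← ee_neg]
      congr 1
      ring
    have e2 : ∫ y in Set.Icc α β, ee (y * ξ + t * φ y) * ee (-(y * ξ' + t' * φ y)) =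
        (starRingEnd ℂ) (∫ y in Set.Icc α β, ee ((t' - t) * φ y + (ξ' - ξ) * y)) := by
      rw [← integral_conj]
      congr 1
      funext y
      exact e1 y
    rw [e2, RCLike.norm_conj]
    have hpos : 0 < t' - t := by linarith
    have h4 := vdc2 (fun y => (t' - t) * φ y + (ξ' - ξ) * y)
      (fun y => (t' - t) * φ1 y + (ξ' - ξ)) (fun y => (t' - t) * φ2 y) α β (lam * |t - t'|)
      (mul_pos hlam (abs_pos.mpr (sub_ne_zero.mpr htt)))
      (fun x hx => by
        have := ((h1 x hx).const_mul (t' - t)).add ((hasDerivAt_id x).const_mul (ξ' - ξ))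
        rw [mul_one] at this
        exact this)
      (fun x hx => by
        have := ((h2 x hx).const_mul (t' - t)).add_const (ξ' - ξ)
        simpa using this)
      (fun x hx => by
        rw [abs_sub_comm, abs_of_pos hpos, mul_comm]
        exact mul_le_mul_of_nonneg_left (h3 x hx) hpos.le)
    exact h4
  · have e1 : ∀ y, ee (y * ξ + t * φ y) * ee (-(y * ξ' + t' * φ y)) =
        ee ((t - t') * φ y + (ξ - ξ') * y) := by
      intro y
      rw [← ee_add]
      congr 1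
      ring
    simp_rw [e1]
    have hpos : 0 < t - t' := by linarith
    have h4 := vdc2 (fun y => (t - t') * φ y + (ξ - ξ') * y)
      (fun y => (t - t') * φ1 y + (ξ - ξ')) (fun y => (t - t') * φ2 y) α β (lam * |t - t'|)
      (mul_pos hlam (abs_pos.mpr (sub_ne_zero.mpr htt)))
      (fun x hx => by
        have := ((h1 x hx).const_mul (t - t')).add ((hasDerivAt_id x).const_mul (ξ - ξ'))
        rw [mul_one] at this
        exact this)
      (fun x hx => by
        have := ((h2 x hx).const_mul (t - t')).add_const (ξ - ξ')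
        simpa using this)
      (fun x hx => by
        rw [abs_of_pos hpos, mul_comm]
        exact mul_le_mul_of_nonneg_left (h3 x hx) hpos.le)
    exact h4

/-- the `L¹ × L¹` bound -/
theorem Form_L1 (φ φ1 φ2 : ℝ → ℝ) (α β lam : ℝ) (hlam : 0 < lam)
    (h1 : ∀ x ∈ Set.Icc α β, HasDerivAt φ (φ1 x) x)
    (h2 : ∀ x ∈ Set.Icc α β, HasDerivAt φ1 (φ2 x) x)
    (h3 : ∀ x ∈ Set.Icc α β, lam ≤ φ2 x) (hφ : Measurable φ)
    (t t' : ℝ) (htt : t ≠ t') (u v : ℝ → ℂ) (hu : Nice volume u) (hv : Nice volume v) :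
    ‖Bf φ (Set.Icc α β) t t' u v‖ₑ ≤
      ENNReal.ofReal (8 * (lam * |t - t'|) ^ (-(1 / 2) : ℝ)) * lp 1 volume u * lp 1 volume v := by
  have iu := Form_int hu
  have iv := Form_int hv
  have hw : Integrable (fun p : ℝ × ℝ => u p.1 * v p.2) (volume.prod volume) := iu.mul_prod iv
  have e1 : Bf φ (Set.Icc α β) t t' u v =
      ∫ y in Set.Icc α β, ∫ p : ℝ × ℝ, (ee (y * p.1 + t * φ y) * ee (-(y * p.2 + t' * φ y))) *
        (u p.1 * v p.2) ∂(volume.prod volume) := by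
    unfold Bf
    congr 1
    funext y
    rw [← integral_prod_mul (fun ξ => ee (y * ξ + t * φ y) * u ξ)
      (fun ξ => ee (-(y * ξ + t' * φ y)) * v ξ)]
    congr 1
    funext p
    ring
  have hI : Integrable (Function.uncurry fun (y : ℝ) (p : ℝ × ℝ) =>
      (ee (y * p.1 + t * φ y) * ee (-(y * p.2 + t' * φ y))) * (u p.1 * v p.2))
      ((volume.restrict (Set.Icc α β)).prod (volume.prod volume)) := by
    have : IsFiniteMeasure (volume.restrict (Set.Icc α β)) := by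
      constructor
      rw [Measure.restrict_apply_univ, Real.volume_Icc]
      exact ENNReal.ofReal_lt_top
    have h5 : Integrable (fun q : ℝ × (ℝ × ℝ) => u q.2.1 * v q.2.2)
        ((volume.restrict (Set.Icc α β)).prod (volume.prod volume)) := hw.comp_snd _
    refine h5.norm.mono' ?_ ?_
    · apply Measurable.aestronglyMeasurable
      have me := measurable_ee
      have mu := hu.1
      have mv := hv.1
      refine Measurable.mul (Measurable.mul (me.comp ?_) (me.comp ?_)) (Measurable.mul (mu.comp ?_) (mv.comp ?_))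
      · fun_prop
      · fun_prop
      · fun_prop
      · fun_prop
    · refine Filter.Eventually.of_forall fun q => ?_
      simp only [Function.uncurry]
      rw [norm_mul, norm_mul (ee _), norm_ee, norm_ee, one_mul, one_mul]
  have e2 : Bf φ (Set.Icc α β) t t' u v =
      ∫ p : ℝ × ℝ, (∫ y in Set.Icc α β, ee (y * p.1 + t * φ y) * ee (-(y * p.2 + t' * φ y))) *
        (u p.1 * v p.2) ∂(volume.prod volume) := by
    rw [e1, integral_integral_swap hI]
    congr 1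
    funext p
    rw [← integral_mul_const]
  rw [e2]
  calc ‖∫ p : ℝ × ℝ, (∫ y in Set.Icc α β, ee (y * p.1 + t * φ y) * ee (-(y * p.2 + t' * φ y))) *
        (u p.1 * v p.2) ∂(volume.prod volume)‖ₑ
      ≤ ∫⁻ p : ℝ × ℝ, ‖(∫ y in Set.Icc α β, ee (y * p.1 + t * φ y) * ee (-(y * p.2 + t' * φ y))) *
        (u p.1 * v p.2)‖ₑ ∂(volume.prod volume) := enorm_integral_le_lintegral_enorm _
    _ ≤ ∫⁻ p : ℝ × ℝ, ENNReal.ofReal (8 * (lam * |t - t'|) ^ (-(1 / 2) : ℝ)) *
        (‖u p.1‖ₑ * ‖v p.2‖ₑ) ∂(volume.prod volume) := by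
        apply lintegral_mono
        intro p
        simp only
        rw [enorm_mul, enorm_mul]
        gcongr
        exact Form_vdc φ φ1 φ2 α β lam hlam h1 h2 h3 t t' htt p.1 p.2
    _ = ENNReal.ofReal (8 * (lam * |t - t'|) ^ (-(1 / 2) : ℝ)) * lp 1 volume u * lp 1 volume v := by
        rw [lintegral_const_mul' _ _ ENNReal.ofReal_ne_top,
          lintegral_prod_mul hu.1.enorm.aemeasurable hv.1.enorm.aemeasurable]
        unfold lp
        simp only [ENNReal.rpow_one, one_div, inv_one]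
        rw [mul_assoc]

theorem form_bound (φ φ1 φ2 : ℝ → ℝ) (α β lam : ℝ) (hlam : 0 < lam)
    (h1 : ∀ x ∈ Set.Icc α β, HasDerivAt φ (φ1 x) x)
    (h2 : ∀ x ∈ Set.Icc α β, HasDerivAt φ1 (φ2 x) x)
    (h3 : ∀ x ∈ Set.Icc α β, lam ≤ φ2 x) (hφ : Measurable φ) (b : ℝ) (hb : 2 < b)
    (t t' : ℝ) (htt : t ≠ t') (u v : ℝ → ℂ) (hu : Nice volume u) (hv : Nice volume v) :
    ‖Bf φ (Set.Icc α β) t t' u v‖ₑ ≤
      ENNReal.ofReal ((8 * (lam * |t - t'|) ^ (-(1 / 2) : ℝ)) ^ (1 - 2 / b)) *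
        lp (b / (b - 1)) volume u * lp (b / (b - 1)) volume v := by
  have hb1 : 0 < b - 1 := by linarith
  have hb0 : 0 < b := by linarith
  have hA : 0 ≤ 8 * (lam * |t - t'|) ^ (-(1 / 2) : ℝ) := by positivity
  have key := bil_interp volume volume (Bf φ (Set.Icc α β) t t')
    (fun u u' v hu hu' hv => Form_add1 φ hφ α β t t' hu hu' hv)
    (fun c u v _ _ => Form_smul1 φ α β t t' c u v)
    (fun u v v' hu hv hv' => Form_add2 φ hφ α β t t' hu hv hv')
    (fun c u v _ _ => Form_smul2 φ α β t t' c u v)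
    (8 * (lam * |t - t'|) ^ (-(1 / 2) : ℝ)) 1 hA zero_le_one
    (fun u v hu hv => Form_L1 φ φ1 φ2 α β lam hlam h1 h2 h3 hφ t t' htt u v hu hv)
    (fun u v hu hv => by
      rw [ENNReal.ofReal_one, one_mul]
      exact Form_L2 φ hφ α β t t' hu hv)
    (b / (b - 1)) (by rw [lt_div_iff₀ hb1]; linarith) (by rw [div_lt_iff₀ hb1]; linarith) u v hu hv
  rw [Real.one_rpow, mul_one] at key
  have e : 2 / (b / (b - 1)) - 1 = 1 - 2 / b := by
    field_simp
    ring
  rwa [e] at key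

end Pool.Agent.FlatRes
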