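import Mathlib
import Pool.Agent.Lib.MP_40a0b6_an.S_Basic
import Pool.Agent.Lib.MP_40a0b6_an.Curve
set_option autoImplicit false
open MeasureTheory
open scoped ENNReal
namespace Pool.Agent.FlatRes

/-- Geometric data for `(n,m) = (3,2)`: `Γ` is the zero curve of `∂₂²Ψ`, `Φ(x,y) = Ψ(x, Γ(x)+y)`. -/
structure Geo32 (Ψ : ℝ × ℝ → ℝ) (a c : ℝ) (Γ Γ1 Γ2 : ℝ → ℝ) (Φ Φ1 Φ2 : ℝ → ℝ → ℝ) : Prop where
  ha : 0 < a
  hc : 0 < c
  measΨ : Measurable Ψ
  measΓ : Measurable Γ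
  measΦ : Measurable (fun p : ℝ × ℝ => Φ p.1 p.2)
  bdΓ : ∀ x ∈ Set.Icc (-a) a, |Γ x| ≤ a
  dΓ : ∀ x ∈ Set.Icc (-a) a, HasDerivAt Γ (Γ1 x) x
  dΓ1 : ∀ x ∈ Set.Icc (-a) a, HasDerivAt Γ1 (Γ2 x) x
  curv : ∀ x ∈ Set.Icc (-a) a, 1 ≤ Γ2 x
  dΦ : ∀ x ∈ Set.Icc (-a) a, ∀ y ∈ Set.Icc (-(2 * a)) (2 * a), HasDerivAt (Φ x) (Φ1 x y) y
  dΦ1 : ∀ x ∈ Set.Icc (-a) a, ∀ y ∈ Set.Icc (-(2 * a)) (2 * a), HasDerivAt (Φ1 x) (Φ2 x y) y
  pos : ∀ x ∈ Set.Icc (-a) a, ∀ y ∈ Set.Icc (-(2 * a)) (2 * a), 0 ≤ y → c * y ≤ Φ2 x y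
  neg : ∀ x ∈ Set.Icc (-a) a, ∀ y ∈ Set.Icc (-(2 * a)) (2 * a), y ≤ 0 → Φ2 x y ≤ c * y
  eqΨ : ∀ x y, (x, Γ x + y) ∈ box a → Φ x y = Ψ (x, Γ x + y)

theorem geo32_it {f : ℝ → ℝ} {U : Set ℝ} (hU : IsOpen U) (hf : ContDiffOn ℝ (⊤ : ℕ∞) f U)
    (k : ℕ) : ContDiffOn ℝ (⊤ : ℕ∞) (iteratedDeriv k f) U := by
  induction k with
  | zero => simpa using hf
  | succ k ih =>
    rw [iteratedDeriv_succ]
    exact ih.deriv_of_isOpen hU (by simp)

theorem geo32_hd {f : ℝ → ℝ} {U : Set ℝ} (hU : IsOpen U) (hf : ContDiffOn ℝ (⊤ : ℕ∞) f U)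
    (k : ℕ) (t : ℝ) (ht : t ∈ U) :
    HasDerivAt (iteratedDeriv k f) (iteratedDeriv (k + 1) f t) t := by
  rw [iteratedDeriv_succ]
  have h1 := (geo32_it hU hf k).contDiffAt (hU.mem_nhds ht)
  exact (h1.differentiableAt (by simp)).hasDerivAt

theorem geo32_cube (b t : ℝ) : iteratedDeriv 3 (fun t : ℝ => (t - b) ^ 3) t = 6 := by
  have h1 : deriv (fun t : ℝ => (t - b) ^ 3) = fun t => 3 * (t - b) ^ 2 := by
    funext t
    have := ((hasDerivAt_id t).sub_const b).pow 3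
    simpa using this.deriv
  have h2 : deriv (fun t : ℝ => 3 * (t - b) ^ 2) = fun t => 6 * (t - b) := by
    funext t
    have h4 : HasDerivAt (fun t : ℝ => 3 * (t - b) ^ 2) (3 * (((2 : ℕ) : ℝ) * (t - b) ^ (2 - 1) * 1)) t :=
      (((hasDerivAt_id t).sub_const b).pow 2).const_mul 3
    rw [h4.deriv]
    norm_num
    ring
  have h3 : deriv (fun t : ℝ => 6 * (t - b)) = fun _ => 6 := by
    funext t
    have := ((hasDerivAt_id t).sub_const b).const_mul 6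
    simpa using this.deriv
  rw [iteratedDeriv_succ, iteratedDeriv_succ, iteratedDeriv_one, h1, h2, h3]

theorem geo32_contDiff_phi (n m : ℕ) : ContDiff ℝ (⊤ : ℕ∞) (phi n m) := by
  unfold phi
  fun_prop

theorem geo32_box_open (a : ℝ) : IsOpen (box a) := isOpen_Ioo.prod isOpen_Ioo

theorem geo32_mem_box {a : ℝ} {x : ℝ × ℝ} : x ∈ box a ↔ |x.1| < a ∧ |x.2| < a := by
  simp only [box, Set.mem_prod, Set.mem_Ioo, abs_lt]

theorem geo32_norm {a : ℝ} {x : ℝ × ℝ} (hx : x ∈ box a) : ‖x‖ < a := by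
  rw [geo32_mem_box] at hx
  rw [Prod.norm_def]
  exact max_lt (by simpa using hx.1) (by simpa using hx.2)

theorem geo32_meas {f : ℝ × ℝ → ℝ} {s : Set (ℝ × ℝ)} (hs : IsOpen s) (hf : ContinuousOn f s) :
    Measurable (s.indicator f) := by
  classical
  have h := hf.measurable_piecewise (g := (0 : ℝ × ℝ → ℝ)) continuousOn_const hs.measurableSet
  rwa [Set.piecewise_eq_indicator] at h

theorem geo32_meas1 {f : ℝ → ℝ} {s : Set ℝ} (hs : IsOpen s) (hf : ContinuousOn f s) :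
    Measurable (s.indicator f) := by
  classical
  have h := hf.measurable_piecewise (g := (0 : ℝ → ℝ)) continuousOn_const hs.measurableSet
  rwa [Set.piecewise_eq_indicator] at h

/-- JOB S_Geo32.  The geometric data exist for `Ψ = psi0 3 2 g a`.

Proof.  Let `a0, γ` be given by `curve_exists 3 2` (so `γ'' ≥ 2 - 1/2` and `|γ u - u²| ≤ u²/4` on
`(-a0,a0)`, `∂₂²(φ+g)(u,γ u) = 0`), `V` the open set where `g` is smooth.  By `flat_bound` (`N = 0`, `j = 3`,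
`ε` small) `|∂₂³ g| ≤ 1` near `0`.  Choose `0 < a < a0/2`, `a ≤ 1/2` with `box (5a) ⊆ V` and the last bound on
`box (5a)`; then `|γ x| ≤ (5/4)x² ≤ a` for `|x| ≤ a`.  `Γ = γ` on `(-a0,a0)` and `0` elsewhere (measurable: continuous
on an open set); `Γ1 = deriv γ`, `Γ2 = deriv (deriv γ)`.  `Φ x y = φ+g` at `(x, Γ x + y)` if
`|x| < a0` and `(x, Γ x + y) ∈ box (5a)`, and `0` otherwise (measurable); for `|x| ≤ a`, `|y| ≤ 2a`:
`|Γ x + y| ≤ 3a`, so near `y` the function `Φ x` equals `t ↦ (φ+g)(x, Γ x + t)`.  `Φ1, Φ2` are the first two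
partial derivatives.  `Φ2 x 0 = 0` and `∂_y Φ2 = 6 + ∂₂³g ≥ 5`, so `c = 5` works (mean value theorem). -/
theorem geo32_exists (g : ℝ × ℝ → ℝ) (hg : FlatAtZero g) :
    ∃ (a c : ℝ) (Γ Γ1 Γ2 : ℝ → ℝ) (Φ Φ1 Φ2 : ℝ → ℝ → ℝ),
      ContDiffOn ℝ (⊤ : ℕ∞) g (box a) ∧ Geo32 (psi0 3 2 g a) a c Γ Γ1 Γ2 Φ Φ1 Φ2 := by
  obtain ⟨a0, γ, ha0, hγC, hγ0, hγz, hγb, hγd⟩ := curve_exists 3 2 le_rfl le_rfl g hg
  obtain ⟨⟨V, hVo, hV0, hgV⟩, -⟩ := id hg
  obtain ⟨δ, hδ, hδb⟩ := flat_bound _ (flat_partial g hg 3) 0 0 1 one_pos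
  obtain ⟨r0, hr0, hr0V⟩ := Metric.isOpen_iff.1 hVo 0 hV0
  -- the size of the neighbourhood
  set a : ℝ := min (min (a0 / 4) (1 / 2)) (min (r0 / 5) (δ / 5)) with ha
  have ha_pos : 0 < a := by
    rw [ha]; exact lt_min (lt_min (by linarith) (by norm_num)) (lt_min (by linarith) (by linarith))
  have ha1 : a ≤ a0 / 4 := (min_le_left _ _).trans (min_le_left _ _)
  have ha2 : a ≤ 1 / 2 := (min_le_left _ _).trans (min_le_right _ _)
  have ha3 : a ≤ r0 / 5 := (min_le_right _ _).trans (min_le_left _ _)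
  have ha4 : a ≤ δ / 5 := (min_le_right _ _).trans (min_le_right _ _)
  have hbV : box (5 * a) ⊆ V := fun x hx => hr0V (by
    rw [mem_ball_zero_iff]
    have := geo32_norm hx
    linarith)
  have hsub : box a ⊆ box (5 * a) := fun x hx => by
    rw [geo32_mem_box] at hx ⊢
    constructor <;> linarith [hx.1, hx.2]
  set F : ℝ × ℝ → ℝ := fun x => phi 3 2 x + g x with hF
  have hFC : ContDiffOn ℝ (⊤ : ℕ∞) F (box (5 * a)) :=
    (geo32_contDiff_phi 3 2).contDiffOn.add (hgV.mono hbV)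
  set U : Set ℝ := Set.Ioo (-(5 * a)) (5 * a) with hU
  have hUo : IsOpen U := isOpen_Ioo
  -- the slices
  have hslice : ∀ x ∈ U, ContDiffOn ℝ (⊤ : ℕ∞) (fun t => F (x, t)) U := by
    intro x hx
    have h1 : ContDiff ℝ (⊤ : ℕ∞) (fun t : ℝ => ((x, t) : ℝ × ℝ)) := by fun_prop
    exact hFC.comp h1.contDiffOn (fun t ht => ⟨hx, ht⟩)
  have hgslice : ∀ x ∈ U, ContDiffOn ℝ (⊤ : ℕ∞) (fun t => g (x, t)) U := by
    intro x hx
    have h1 : ContDiff ℝ (⊤ : ℕ∞) (fun t : ℝ => ((x, t) : ℝ × ℝ)) := by fun_prop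
    exact (hgV.mono hbV).comp h1.contDiffOn (fun t ht => ⟨hx, ht⟩)
  have hthird : ∀ x ∈ U, ∀ t ∈ U, 5 ≤ iteratedDeriv 3 (fun t => F (x, t)) t := by
    intro x hx t ht
    have e1 : (fun t => F (x, t)) = (fun t : ℝ => (t - x ^ 2) ^ 3) + (fun t => g (x, t)) := by
      funext t; simp [hF, phi]
    rw [e1, iteratedDeriv_add (by fun_prop)
      (((hgslice x hx).contDiffAt (hUo.mem_nhds ht)).of_le
        (WithTop.coe_le_coe.2 (le_top : (3 : ℕ∞) ≤ ⊤))), geo32_cube]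
    have h2 := hδb (x, t) (by
      have : (x, t) ∈ box (5 * a) := ⟨hx, ht⟩
      have := geo32_norm this
      linarith)
    rw [norm_iteratedFDeriv_zero, Real.norm_eq_abs, pow_zero, mul_one] at h2
    have := (abs_le.1 h2).1
    linarith
  -- the curve
  have hI0 : IsOpen (Set.Ioo (-a0) a0) := isOpen_Ioo
  have hmemI : ∀ x ∈ Set.Icc (-a) a, x ∈ Set.Ioo (-a0) a0 := fun x hx =>
    ⟨by linarith [hx.1], by linarith [hx.2]⟩
  have hmemU : ∀ x ∈ Set.Icc (-a) a, x ∈ U := fun x hx =>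
    ⟨by linarith [hx.1], by linarith [hx.2]⟩
  set Γ : ℝ → ℝ := (Set.Ioo (-a0) a0).indicator γ with hΓ
  have hΓeq : ∀ x ∈ Set.Ioo (-a0) a0, Γ x = γ x := fun x hx => by
    rw [hΓ, Set.indicator_of_mem hx]
  have hγbd : ∀ x ∈ Set.Icc (-a) a, |Γ x| ≤ a := by
    intro x hx
    rw [hΓeq x (hmemI x hx)]
    have h1 := hγb x (hmemI x hx)
    have h2 : |x| ≤ a := abs_le.2 hx
    have h3 : |γ x| ≤ |γ x - x ^ 2| + |x ^ 2| := by
      have := abs_add_le (γ x - x ^ 2) (x ^ 2)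
      simpa using this
    have h4 : |x ^ 2| = |x| ^ 2 := abs_pow x 2
    have h5 : |x| ^ 2 ≤ a * a := by nlinarith [abs_nonneg x]
    nlinarith
  have hmem3 : ∀ x ∈ Set.Icc (-a) a, ∀ y ∈ Set.Icc (-(2 * a)) (2 * a), Γ x + y ∈ U := by
    intro x hx y hy
    have h1 := abs_le.1 (hγbd x hx)
    exact ⟨by linarith [h1.1, hy.1], by linarith [h1.2, hy.2]⟩
  refine ⟨a, 5, Γ, deriv γ, deriv (deriv γ),
    fun x y => (box (5 * a)).indicator F (x, Γ x + y),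
    fun x y => iteratedDeriv 1 (fun t => F (x, t)) (Γ x + y),
    fun x y => iteratedDeriv 2 (fun t => F (x, t)) (Γ x + y),
    hgV.mono (hsub.trans hbV), ?_⟩
  have hder : ∀ (k : ℕ), ∀ x ∈ Set.Icc (-a) a, ∀ y ∈ Set.Icc (-(2 * a)) (2 * a),
      HasDerivAt (fun y => iteratedDeriv k (fun t => F (x, t)) (Γ x + y))
        (iteratedDeriv (k + 1) (fun t => F (x, t)) (Γ x + y)) y := by
    intro k x hx y hy
    exact (geo32_hd hUo (hslice x (hmemU x hx)) k _ (hmem3 x hx y hy)).comp_const_add (Γ x) y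
  have hzero : ∀ x ∈ Set.Icc (-a) a, iteratedDeriv 2 (fun t => F (x, t)) (Γ x) = 0 := by
    intro x hx
    have h1 := hγz x (hmemI x hx)
    rw [hΓeq x (hmemI x hx)]
    exact h1
  have hmono : ∀ x ∈ Set.Icc (-a) a, ∀ y ∈ Set.Icc (-(2 * a)) (2 * a),
      ∀ z ∈ Set.Icc (-(2 * a)) (2 * a), y ≤ z →
      5 * (z - y) ≤ iteratedDeriv 2 (fun t => F (x, t)) (Γ x + z) -
        iteratedDeriv 2 (fun t => F (x, t)) (Γ x + y) := by
    intro x hx y hy z hz hyz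
    refine (convex_Icc (-(2 * a)) (2 * a)).mul_sub_le_image_sub_of_le_deriv
      (f := fun y => iteratedDeriv 2 (fun t => F (x, t)) (Γ x + y)) ?_ ?_ ?_ y hy z hz hyz
    · intro w hw
      exact (hder 2 x hx w hw).continuousAt.continuousWithinAt
    · intro w hw
      exact (hder 2 x hx w (interior_subset hw)).differentiableAt.differentiableWithinAt
    · intro w hw
      rw [(hder 2 x hx w (interior_subset hw)).deriv]
      exact hthird x (hmemU x hx) _ (hmem3 x hx w (interior_subset hw))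
  have h0mem : (0 : ℝ) ∈ Set.Icc (-(2 * a)) (2 * a) := ⟨by linarith, by linarith⟩
  have hΓmeas : Measurable Γ := geo32_meas1 hI0 hγC.continuousOn
  refine ⟨ha_pos, by norm_num, ?_, hΓmeas, ?_, hγbd, ?_, ?_, ?_, ?_, ?_, ?_, ?_, ?_⟩
  · exact geo32_meas (geo32_box_open a) (hFC.continuousOn.mono hsub)
  · have h1 := geo32_meas (geo32_box_open (5 * a)) hFC.continuousOn
    exact h1.comp (measurable_fst.prodMk ((hΓmeas.comp measurable_fst).add measurable_snd))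
  · intro x hx
    have h1 : HasDerivAt γ (deriv γ x) x :=
      ((hγC.contDiffAt (hI0.mem_nhds (hmemI x hx))).differentiableAt (by norm_num)).hasDerivAt
    refine h1.congr_of_eventuallyEq ?_
    filter_upwards [hI0.mem_nhds (hmemI x hx)] with t ht
    exact hΓeq t ht
  · intro x hx
    have h1 : ContDiffOn ℝ 1 (deriv γ) (Set.Ioo (-a0) a0) :=
      hγC.deriv_of_isOpen hI0 (by norm_num)
    exact ((h1.contDiffAt (hI0.mem_nhds (hmemI x hx))).differentiableAt (by norm_num)).hasDerivAt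
  · intro x hx
    have h1 := hγd x (hmemI x hx)
    norm_num at h1
    have := (abs_le.1 h1).1
    linarith
  · intro x hx y hy
    have h1 := hder 0 x hx y hy
    simp only [iteratedDeriv_zero, zero_add] at h1
    refine h1.congr_of_eventuallyEq ?_
    have h2 : ∀ᶠ t in nhds y, Γ x + t ∈ U := by
      have hc : ContinuousAt (fun t => Γ x + t) y := by fun_prop
      exact hc.eventually_mem (hUo.mem_nhds (hmem3 x hx y hy))
    filter_upwards [h2] with t ht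
    exact Set.indicator_of_mem (show (x, Γ x + t) ∈ box (5 * a) from ⟨hmemU x hx, ht⟩) _
  · intro x hx y hy
    exact hder 1 x hx y hy
  · intro x hx y hy hy0
    have := hmono x hx 0 h0mem y hy hy0
    rw [add_zero, hzero x hx] at this
    simpa using this
  · intro x hx y hy hy0
    have := hmono x hx y hy 0 h0mem hy0
    rw [add_zero, hzero x hx] at this
    linarith
  · intro x y hxy
    show (box (5 * a)).indicator F (x, Γ x + y) = psi0 3 2 g a (x, Γ x + y)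
    unfold psi0
    rw [Set.indicator_of_mem hxy, Set.indicator_of_mem (hsub hxy)]

end Pool.Agent.FlatRes
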