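import Pool.Agent.Lib.MP_40a0b6_an.S_Basic
set_option autoImplicit false
open MeasureTheory
open scoped ENNReal
namespace Pool.Agent.FlatRes

/-- the key step of Minkowski's inequality: if `g ≤ ∫ f dν` has finite `p`-th moment -/
theorem mink_step {X Y : Type*} [MeasurableSpace X] [MeasurableSpace Y] (μ : Measure X)
    (ν : Measure Y) [SigmaFinite μ] [SigmaFinite ν] (p : ℝ) (hp : 1 < p) (f : X → Y → ℝ≥0∞)
    (hf : Measurable (Function.uncurry f)) (g : X → ℝ≥0∞) (hg : Measurable g)
    (hgN : ∀ x, g x ≤ ∫⁻ y, f x y ∂ν) (hgt : ∫⁻ x, g x ^ p ∂μ ≠ ⊤) :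
    (∫⁻ x, g x ^ p ∂μ) ^ (1 / p) ≤ ∫⁻ y, (∫⁻ x, f x y ^ p ∂μ) ^ (1 / p) ∂ν := by
  have hp0 : 0 < p := by linarith
  set q : ℝ := p / (p - 1) with hq
  have hpq : p.HolderConjugate q := Real.HolderConjugate.conjExponent hp
  have hq0 : 0 < q := hpq.symm.pos
  set A : ℝ≥0∞ := ∫⁻ x, g x ^ p ∂μ with hA
  set R : ℝ≥0∞ := ∫⁻ y, (∫⁻ x, f x y ^ p ∂μ) ^ (1 / p) ∂ν with hR
  have hfy : ∀ y, Measurable (fun x => f x y) := fun y => hf.comp measurable_prodMk_right
  have hfx : ∀ x, Measurable (fun y => f x y) := fun x => hf.comp measurable_prodMk_left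
  have h1 : A ≤ R * A ^ (1 / q) := by
    calc A ≤ ∫⁻ x, g x ^ (p - 1) * ∫⁻ y, f x y ∂ν ∂μ := by
          apply lintegral_mono
          intro x
          have e1 : g x ^ p = g x ^ (p - 1) * g x := by
            have e2 : p = (p - 1) + 1 := by ring
            conv_lhs => rw [e2]
            rw [ENNReal.rpow_add_of_nonneg _ _ (by linarith) zero_le_one, ENNReal.rpow_one]
          simp only [e1]
          gcongr
          exact hgN x
      _ = ∫⁻ x, ∫⁻ y, g x ^ (p - 1) * f x y ∂ν ∂μ := by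
          apply lintegral_congr
          intro x
          rw [lintegral_const_mul _ (hfx x)]
      _ = ∫⁻ y, ∫⁻ x, g x ^ (p - 1) * f x y ∂μ ∂ν := by
          apply lintegral_lintegral_swap
          apply Measurable.aemeasurable
          exact ((hg.comp measurable_fst).pow_const _).mul hf
      _ ≤ ∫⁻ y, (∫⁻ x, f x y ^ p ∂μ) ^ (1 / p) * A ^ (1 / q) ∂ν := by
          apply lintegral_mono
          intro y
          have e1 := ENNReal.lintegral_mul_le_Lp_mul_Lq μ hpq (f := fun x => f x y)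
            (g := fun x => g x ^ (p - 1)) (hfy y).aemeasurable (hg.pow_const _).aemeasurable
          have e2 : ∀ x, (g x ^ (p - 1)) ^ q = g x ^ p := by
            intro x
            rw [← ENNReal.rpow_mul]
            congr 1
            rw [hq]
            have : p - 1 ≠ 0 := by linarith
            field_simp
          simp only [e2] at e1
          refine le_trans (le_of_eq ?_) e1
          apply lintegral_congr
          intro x
          simp only [Pi.mul_apply]
          exact mul_comm _ _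
      _ = R * A ^ (1 / q) := by
          rw [lintegral_mul_const'']
          apply AEMeasurable.pow_const
          apply Measurable.aemeasurable
          exact Measurable.lintegral_prod_left' (hf.pow_const p)
  rcases eq_or_ne A 0 with h0 | h0
  · rw [h0, ENNReal.zero_rpow_of_pos (by positivity)]
    exact zero_le
  · have e0 : A ^ (1 / q) ≠ 0 := by
      rw [Ne, ENNReal.rpow_eq_zero_iff]
      push Not
      exact ⟨fun h => absurd h h0, fun h => absurd h hgt⟩
    have e1 : A ^ (1 / q) ≠ ⊤ := ENNReal.rpow_ne_top_of_nonneg (by positivity) hgt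
    have e2 : A = A ^ (1 / p) * A ^ (1 / q) := by
      rw [← ENNReal.rpow_add _ _ h0 hgt]
      have e3 : 1 / p + 1 / q = 1 := by
        rw [one_div, one_div]
        exact hpq.inv_add_inv_eq_one
      rw [e3, ENNReal.rpow_one]
    have e4 : A ^ (1 / p) * A ^ (1 / q) ≤ R * A ^ (1 / q) := by
      rw [← e2]
      exact h1
    exact (ENNReal.mul_le_mul_iff_left e0 e1).1 e4

/-- JOB S_Mink.  Minkowski's integral inequality for nonnegative functions.

Proof.  `p = 1`: Tonelli.  `p > 1`: put `N x = ∫⁻ y, f x y ∂ν`.  First assume `∫⁻ N^p < ∞`.  By Tonelli and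
Hölder (`ENNReal.lintegral_mul_le_Lp_mul_Lq`)
`∫⁻ N^p = ∫⁻ x, N^{p-1} ∫⁻ y, f = ∫⁻ y, ∫⁻ x, N^{p-1} f ≤ ∫⁻ y, (∫⁻ x, f^p)^{1/p} (∫⁻ N^p)^{(p-1)/p}`; divide
by the finite quantity `(∫⁻ N^p)^{(p-1)/p}` (trivial if it is `0`).
General case: monotone approximation.  With `μ`-finite sets `S_k ↑ X` and `ν`-finite `R_k ↑ Y`
(`spanningSets`) put `f_k = min(f, k) 1_{S_k × R_k}`: then `N_k ≤ k ν(R_k)` on `S_k` and `0` outside, so
`∫⁻ N_k^p < ∞`; `N_k ↑ N` and `∫⁻ N_k^p ↑ ∫⁻ N^p` (monotone convergence `lintegral_iSup`), and the right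
side for `f_k` is `≤` the right side for `f`. -/
theorem lint_mink {X Y : Type*} [MeasurableSpace X] [MeasurableSpace Y] (μ : Measure X)
    (ν : Measure Y) [SigmaFinite μ] [SigmaFinite ν] (p : ℝ) (hp : 1 ≤ p) (f : X → Y → ℝ≥0∞)
    (hf : Measurable (Function.uncurry f)) :
    (∫⁻ x, (∫⁻ y, f x y ∂ν) ^ p ∂μ) ^ (1 / p) ≤ ∫⁻ y, (∫⁻ x, f x y ^ p ∂μ) ^ (1 / p) ∂ν := by
  rcases eq_or_lt_of_le hp with h | h
  · subst h
    simp only [ENNReal.rpow_one, div_one]
    exact (lintegral_lintegral_swap hf.aemeasurable).le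
  have hp0 : 0 < p := by linarith
  set N : X → ℝ≥0∞ := fun x => ∫⁻ y, f x y ∂ν with hN
  have hNm : Measurable N := Measurable.lintegral_prod_right' hf
  set g : ℕ → X → ℝ≥0∞ := fun k => (spanningSets μ k).indicator (fun x => min (N x) k) with hg
  have hgm : ∀ k, Measurable (g k) := fun k =>
    (hNm.min measurable_const).indicator (measurableSet_spanningSets μ k)
  have hgN : ∀ k x, g k x ≤ N x := by
    intro k x
    by_cases hx : x ∈ spanningSets μ k
    · simp only [hg, Set.indicator_of_mem hx]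
      exact min_le_left _ _
    · simp only [hg, Set.indicator_of_notMem hx]
      exact zero_le
  have hgt : ∀ k, ∫⁻ x, g k x ^ p ∂μ ≠ ⊤ := by
    intro k
    have e1 : ∫⁻ x, g k x ^ p ∂μ ≤ ∫⁻ x, (spanningSets μ k).indicator
        (fun _ => ((k : ℝ≥0∞)) ^ p) x ∂μ := by
      apply lintegral_mono
      intro x
      by_cases hx : x ∈ spanningSets μ k
      · simp only [hg, Set.indicator_of_mem hx]
        gcongr
        exact min_le_right _ _
      · simp only [hg, Set.indicator_of_notMem hx]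
        rw [ENNReal.zero_rpow_of_pos hp0]
    refine ne_top_of_le_ne_top ?_ e1
    rw [lintegral_indicator_const (measurableSet_spanningSets μ k)]
    exact ENNReal.mul_ne_top (ENNReal.rpow_ne_top_of_nonneg hp0.le (ENNReal.natCast_ne_top k))
      (measure_spanningSets_lt_top μ k).ne
  set R : ℝ≥0∞ := ∫⁻ y, (∫⁻ x, f x y ^ p ∂μ) ^ (1 / p) ∂ν with hR
  have hk : ∀ k, ∫⁻ x, g k x ^ p ∂μ ≤ R ^ p := by
    intro k
    have e1 := mink_step μ ν p h f hf (g k) (hgm k) (hgN k) (hgt k)
    have e2 := ENNReal.rpow_le_rpow e1 hp0.le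
    rw [← ENNReal.rpow_mul, one_div_mul_cancel hp0.ne', ENNReal.rpow_one] at e2
    exact e2
  have hlim : ∀ x, Filter.Tendsto (fun k => g k x ^ p) Filter.atTop (nhds (N x ^ p)) := by
    intro x
    apply (ENNReal.continuous_rpow_const.tendsto _).comp
    have e1 : Filter.Tendsto (fun k : ℕ => min (N x) (k : ℝ≥0∞)) Filter.atTop (nhds (N x)) := by
      have e2 := (tendsto_const_nhds (x := N x) (f := Filter.atTop)).min
        ENNReal.tendsto_nat_nhds_top
      rwa [min_eq_left le_top] at e2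
    refine e1.congr' ?_
    filter_upwards [eventually_mem_spanningSets μ x] with k hk
    simp only [hg, Set.indicator_of_mem hk]
  have hfat : ∫⁻ x, N x ^ p ∂μ ≤ R ^ p := by
    calc ∫⁻ x, N x ^ p ∂μ = ∫⁻ x, Filter.liminf (fun k => g k x ^ p) Filter.atTop ∂μ := by
          apply lintegral_congr
          intro x
          exact (hlim x).liminf_eq.symm
      _ ≤ Filter.liminf (fun k => ∫⁻ x, g k x ^ p ∂μ) Filter.atTop :=
          lintegral_liminf_le fun k => (hgm k).pow_const p
      _ ≤ R ^ p := by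
          refine Filter.liminf_le_of_le (by isBoundedDefault) ?_
          intro b hb
          obtain ⟨k, hk1⟩ := hb.exists
          exact hk1.trans (hk k)
  have e2 := ENNReal.rpow_le_rpow hfat (by positivity : 0 ≤ 1 / p)
  rw [← ENNReal.rpow_mul, mul_one_div_cancel hp0.ne', ENNReal.rpow_one] at e2
  exact e2

end Pool.Agent.FlatRes
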