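import Pool.Agent.Lib.MP_40a0b6_an.S_Basic
set_option autoImplicit false
open MeasureTheory
open scoped ENNReal
namespace Pool.Agent.FlatRes

theorem svdc2_first (φ φ1 φ2 : ℝ → ℝ) (a b μ : ℝ) (hab : a ≤ b) (hμ : 0 < μ)
    (h1 : ∀ x ∈ Set.Icc a b, HasDerivAt φ (φ1 x) x)
    (h2 : ∀ x ∈ Set.Icc a b, HasDerivAt φ1 (φ2 x) x)
    (h3 : ∀ x ∈ Set.Icc a b, 0 ≤ φ2 x) (h4 : ∀ x ∈ Set.Icc a b, μ ≤ φ1 x) :
    ‖∫ x in a..b, ee (φ x)‖ ≤ 1 / μ := by
  have hpos : ∀ x ∈ Set.Icc a b, 0 < φ1 x := fun x hx => lt_of_lt_of_le hμ (h4 x hx)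
  have c1 : ContinuousOn φ (Set.Icc a b) := fun x hx => (h1 x hx).continuousAt.continuousWithinAt
  have c2 : ContinuousOn φ1 (Set.Icc a b) := fun x hx => (h2 x hx).continuousAt.continuousWithinAt
  have hsub : Set.Ioo a b ⊆ Set.Icc a b := Set.Ioo_subset_Icc_self
  -- derivative of `-1/φ1`
  have dinv : ∀ x ∈ Set.Icc a b, HasDerivAt (fun x => -(φ1 x)⁻¹) (φ2 x / φ1 x ^ 2) x := by
    intro x hx
    have h : HasDerivAt (fun x => -(φ1 x)⁻¹) (-(-(φ2 x) / φ1 x ^ 2)) x :=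
      ((h2 x hx).inv (hpos x hx).ne').neg
    refine h.congr_deriv ?_
    ring
  have cinv : ContinuousOn (fun x => -(φ1 x)⁻¹) (Set.Icc a b) :=
    fun x hx => (dinv x hx).continuousAt.continuousWithinAt
  have i1 : IntegrableOn (fun x => φ2 x / φ1 x ^ 2) (Set.Ioc a b) :=
    intervalIntegral.integrableOn_deriv_of_nonneg cinv (fun x hx => dinv x (hsub hx))
      (fun x hx => div_nonneg (h3 x (hsub hx)) (by positivity))
  have i1' : IntervalIntegrable (fun x => φ2 x / φ1 x ^ 2) volume a b :=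
    (intervalIntegrable_iff_integrableOn_Ioc_of_le hab).2 i1
  have e1 : ∫ x in a..b, φ2 x / φ1 x ^ 2 = (φ1 a)⁻¹ - (φ1 b)⁻¹ := by
    rw [intervalIntegral.integral_eq_sub_of_hasDerivAt_of_le hab cinv
      (fun x hx => dinv x (hsub hx)) i1']
    ring
  have cee : ContinuousOn (fun x => ee (φ x)) (Set.Icc a b) := continuous_ee.comp_continuousOn c1
  have i2 : IntervalIntegrable (fun x => ee (φ x)) volume a b := by
    refine ContinuousOn.intervalIntegrable ?_
    rwa [Set.uIcc_of_le hab]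
  have i3 : IntervalIntegrable (fun x => ee (φ x) * ((φ2 x / φ1 x ^ 2 : ℝ) : ℂ)) volume a b := by
    have i1c : IntervalIntegrable (fun x => ((φ2 x / φ1 x ^ 2 : ℝ) : ℂ)) volume a b := by
      rw [intervalIntegrable_iff_integrableOn_Ioc_of_le hab]
      exact Integrable.ofReal i1
    refine IntervalIntegrable.continuousOn_mul i1c ?_
    rwa [Set.uIcc_of_le hab]
  -- the primitive
  set G : ℝ → ℂ := fun x => ee (φ x) * (((φ1 x)⁻¹ : ℝ) : ℂ) with hG
  have dG : ∀ x ∈ Set.Icc a b, HasDerivAt G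
      (2 * Real.pi * Complex.I * ee (φ x) - ee (φ x) * ((φ2 x / φ1 x ^ 2 : ℝ) : ℂ)) x := by
    intro x hx
    have d1 : HasDerivAt (fun x => ee (φ x)) (φ1 x • (2 * Real.pi * Complex.I * ee (φ x))) x :=
      (hasDerivAt_ee (φ x)).scomp x (h1 x hx)
    have d2 : HasDerivAt (fun x => (((φ1 x)⁻¹ : ℝ) : ℂ)) ((-(φ2 x) / φ1 x ^ 2 : ℝ) : ℂ) x :=
      ((h2 x hx).inv (hpos x hx).ne').ofReal_comp
    have d3 : HasDerivAt G (φ1 x • (2 * Real.pi * Complex.I * ee (φ x)) *
        (((φ1 x)⁻¹ : ℝ) : ℂ) + ee (φ x) * ((-(φ2 x) / φ1 x ^ 2 : ℝ) : ℂ)) x := d1.mul d2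
    have hx0 : ((φ1 x : ℝ) : ℂ) ≠ 0 := by exact_mod_cast (hpos x hx).ne'
    refine d3.congr_deriv ?_
    rw [Complex.real_smul]
    push_cast
    field_simp
    ring
  have cG : ContinuousOn G (Set.Icc a b) := fun x hx => (dG x hx).continuousAt.continuousWithinAt
  have e2 : ∫ x in a..b, (2 * Real.pi * Complex.I * ee (φ x) -
      ee (φ x) * ((φ2 x / φ1 x ^ 2 : ℝ) : ℂ)) = G b - G a := by
    refine intervalIntegral.integral_eq_sub_of_hasDerivAt_of_le hab cG
      (fun x hx => dG x (hsub hx)) ?_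
    exact (i2.const_mul _).sub i3
  rw [intervalIntegral.integral_sub (i2.const_mul _) i3,
    intervalIntegral.integral_const_mul] at e2
  have e3 : (2 * Real.pi * Complex.I) * ∫ x in a..b, ee (φ x) =
      G b - G a + ∫ x in a..b, ee (φ x) * ((φ2 x / φ1 x ^ 2 : ℝ) : ℂ) := by
    rw [← e2]
    ring
  have n1 : ‖∫ x in a..b, ee (φ x) * ((φ2 x / φ1 x ^ 2 : ℝ) : ℂ)‖ ≤
      (φ1 a)⁻¹ - (φ1 b)⁻¹ := by
    rw [← e1]
    refine intervalIntegral.norm_integral_le_of_norm_le hab ?_ i1'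
    refine Filter.Eventually.of_forall fun x hx => ?_
    have hx' : x ∈ Set.Icc a b := ⟨hx.1.le, hx.2⟩
    rw [norm_mul, norm_ee, one_mul, Complex.norm_real, Real.norm_eq_abs, abs_of_nonneg]
    exact div_nonneg (h3 x hx') (by positivity)
  have ha : a ∈ Set.Icc a b := ⟨le_rfl, hab⟩
  have hb : b ∈ Set.Icc a b := ⟨hab, le_rfl⟩
  have n2 : ∀ x ∈ Set.Icc a b, ‖G x‖ = (φ1 x)⁻¹ := by
    intro x hx
    rw [hG]
    simp only
    rw [norm_mul, norm_ee, one_mul, Complex.norm_real, Real.norm_eq_abs, abs_of_pos]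
    exact inv_pos.2 (hpos x hx)
  have n3 : ‖(2 * Real.pi * Complex.I) * ∫ x in a..b, ee (φ x)‖ ≤ 2 * (φ1 a)⁻¹ := by
    rw [e3]
    refine (norm_add_le _ _).trans ?_
    have := norm_sub_le (G b) (G a)
    rw [n2 a ha, n2 b hb] at this
    linarith
  have n4 : ‖(2 * Real.pi * Complex.I) * ∫ x in a..b, ee (φ x)‖ =
      2 * Real.pi * ‖∫ x in a..b, ee (φ x)‖ := by
    rw [norm_mul, norm_mul, norm_mul, Complex.norm_I, Complex.norm_real, Real.norm_eq_abs,
      abs_of_pos Real.pi_pos]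
    norm_num
  rw [n4] at n3
  have n5 : (φ1 a)⁻¹ ≤ 1 / μ := by
    rw [one_div]
    exact inv_anti₀ hμ (h4 a ha)
  have hpi := Real.pi_gt_three
  have hn := norm_nonneg (∫ x in a..b, ee (φ x))
  nlinarith

theorem svdc2_growth (φ1 φ2 : ℝ → ℝ) (a b lam : ℝ)
    (h2 : ∀ x ∈ Set.Icc a b, HasDerivAt φ1 (φ2 x) x)
    (h3 : ∀ x ∈ Set.Icc a b, lam ≤ φ2 x) {x y : ℝ} (hx : x ∈ Set.Icc a b) (hy : y ∈ Set.Icc a b)
    (hxy : x ≤ y) : φ1 x + lam * (y - x) ≤ φ1 y := by
  have hd : ∀ z ∈ Set.Icc a b, HasDerivAt (fun z => φ1 z - lam * z) (φ2 z - lam) z := by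
    intro z hz
    have h : HasDerivAt (fun z => φ1 z - lam * z) (φ2 z - lam * 1) z :=
      (h2 z hz).sub ((hasDerivAt_id z).const_mul lam)
    refine h.congr_deriv ?_
    ring
  have hm : MonotoneOn (fun z => φ1 z - lam * z) (Set.Icc a b) := by
    refine monotoneOn_of_deriv_nonneg (convex_Icc a b)
      (fun z hz => (hd z hz).continuousAt.continuousWithinAt) ?_ ?_
    · intro z hz
      exact (hd z (interior_subset hz)).differentiableAt.differentiableWithinAt
    · intro z hz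
      rw [(hd z (interior_subset hz)).deriv]
      have := h3 z (interior_subset hz)
      linarith
  have := hm hx hy hxy
  simp only at this
  linarith

theorem svdc2_half (φ φ1 φ2 : ℝ → ℝ) (a b lam : ℝ) (hab : a ≤ b) (hlam : 0 < lam)
    (h1 : ∀ x ∈ Set.Icc a b, HasDerivAt φ (φ1 x) x)
    (h2 : ∀ x ∈ Set.Icc a b, HasDerivAt φ1 (φ2 x) x)
    (h3 : ∀ x ∈ Set.Icc a b, lam ≤ φ2 x) (h4 : 0 ≤ φ1 a) :
    ‖∫ x in a..b, ee (φ x)‖ ≤ 2 / √lam := by
  have hs : 0 < √lam := Real.sqrt_pos.2 hlam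
  set c := min b (a + 1 / √lam) with hc
  have hac : a ≤ c := le_min hab (by linarith [one_div_pos.2 hs])
  have hcb : c ≤ b := min_le_left _ _
  have c1 : ContinuousOn φ (Set.Icc a b) := fun x hx => (h1 x hx).continuousAt.continuousWithinAt
  have cee : ContinuousOn (fun x => ee (φ x)) (Set.Icc a b) := continuous_ee.comp_continuousOn c1
  have i1 : IntervalIntegrable (fun x => ee (φ x)) volume a c := by
    refine ContinuousOn.intervalIntegrable (cee.mono ?_)
    rw [Set.uIcc_of_le hac]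
    exact Set.Icc_subset_Icc le_rfl hcb
  have i2 : IntervalIntegrable (fun x => ee (φ x)) volume c b := by
    refine ContinuousOn.intervalIntegrable (cee.mono ?_)
    rw [Set.uIcc_of_le hcb]
    exact Set.Icc_subset_Icc hac le_rfl
  rw [← intervalIntegral.integral_add_adjacent_intervals i1 i2]
  have n1 : ‖∫ x in a..c, ee (φ x)‖ ≤ 1 / √lam := by
    have h := intervalIntegral.norm_integral_le_of_norm_le_const (a := a) (b := c) (C := 1)
      (f := fun x => ee (φ x)) fun x _ => (norm_ee _).le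
    refine h.trans ?_
    rw [one_mul, abs_of_nonneg (by linarith)]
    have := min_le_right b (a + 1 / √lam)
    rw [← hc] at this
    linarith
  have n2 : ‖∫ x in c..b, ee (φ x)‖ ≤ 1 / √lam := by
    rcases eq_or_lt_of_le hcb with h | h
    · rw [h, intervalIntegral.integral_same, norm_zero]
      positivity
    · have hce : c = a + 1 / √lam := by
        rw [hc]
        refine min_eq_right ?_
        by_contra hn
        have := min_eq_left (not_le.1 hn).le
        rw [← hc] at this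
        linarith
      have hsub : Set.Icc c b ⊆ Set.Icc a b := Set.Icc_subset_Icc hac le_rfl
      refine svdc2_first φ φ1 φ2 c b (√lam) hcb hs (fun x hx => h1 x (hsub hx))
        (fun x hx => h2 x (hsub hx)) (fun x hx => hlam.le.trans (h3 x (hsub hx))) fun x hx => ?_
      have hg := svdc2_growth φ1 φ2 a b lam h2 h3 (x := a) (y := x) ⟨le_rfl, hab⟩ (hsub hx)
        (hac.trans hx.1)
      have hx1 : 1 / √lam ≤ x - a := by
        have := hx.1
        rw [hce] at this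
        linarith
      have hx2 : lam * (1 / √lam) ≤ lam * (x - a) := mul_le_mul_of_nonneg_left hx1 hlam.le
      have hx3 : lam * (1 / √lam) = √lam := by
        rw [mul_one_div, Real.div_sqrt]
      linarith
  refine (norm_add_le _ _).trans ?_
  have : 2 / √lam = 1 / √lam + 1 / √lam := by ring
  rw [this]
  exact add_le_add n1 n2

theorem svdc2_half' (φ φ1 φ2 : ℝ → ℝ) (a b lam : ℝ) (hab : a ≤ b) (hlam : 0 < lam)
    (h1 : ∀ x ∈ Set.Icc a b, HasDerivAt φ (φ1 x) x)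
    (h2 : ∀ x ∈ Set.Icc a b, HasDerivAt φ1 (φ2 x) x)
    (h3 : ∀ x ∈ Set.Icc a b, lam ≤ φ2 x) (h4 : φ1 b ≤ 0) :
    ‖∫ x in a..b, ee (φ x)‖ ≤ 2 / √lam := by
  have hmem : ∀ x ∈ Set.Icc (-b) (-a), -x ∈ Set.Icc a b := fun x hx =>
    ⟨by linarith [hx.2], by linarith [hx.1]⟩
  have h := svdc2_half (fun x => φ (-x)) (fun x => -φ1 (-x)) (fun x => φ2 (-x)) (-b) (-a) lam
    (by linarith) hlam
    (fun x hx => by
      have h : HasDerivAt (fun x => φ (-x)) ((-1 : ℝ) • φ1 (-x)) x :=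
        (h1 (-x) (hmem x hx)).scomp x (hasDerivAt_neg x)
      refine h.congr_deriv ?_
      simp)
    (fun x hx => by
      have h : HasDerivAt (fun x => -φ1 (-x)) (-((-1 : ℝ) • φ2 (-x))) x :=
        ((h2 (-x) (hmem x hx)).scomp x (hasDerivAt_neg x)).neg
      refine h.congr_deriv ?_
      simp)
    (fun x hx => h3 _ (hmem x hx)) (by simpa using h4)
  have e := intervalIntegral.integral_comp_neg (a := -b) (b := -a) (fun x => ee (φ x))
  rw [neg_neg, neg_neg] at e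
  rw [← e]
  exact h

/-- JOB S_VdC2.  Van der Corput lemma of order two, `φ'' ≥ lam` on `[α,β]`. -/
theorem vdc2 (φ φ1 φ2 : ℝ → ℝ) (α β lam : ℝ) (hlam : 0 < lam)
    (h1 : ∀ x ∈ Set.Icc α β, HasDerivAt φ (φ1 x) x)
    (h2 : ∀ x ∈ Set.Icc α β, HasDerivAt φ1 (φ2 x) x)
    (h3 : ∀ x ∈ Set.Icc α β, lam ≤ φ2 x) :
    ‖∫ x in Set.Icc α β, ee (φ x)‖ ≤ 8 * lam ^ (-(1 / 2) : ℝ) := by
  have hs : 0 < √lam := Real.sqrt_pos.2 hlam
  have e0 : lam ^ (-(1 / 2) : ℝ) = 1 / √lam := by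
    rw [Real.rpow_neg hlam.le, Real.sqrt_eq_rpow, one_div (lam ^ (1 / 2 : ℝ))]
  rw [e0]
  have hp : 0 < 1 / √lam := one_div_pos.2 hs
  have e1 : 2 / √lam = 2 * (1 / √lam) := by ring
  rcases lt_or_ge β α with hab | hab
  · rw [Set.Icc_eq_empty (not_le.2 hab)]
    simp only [Measure.restrict_empty, integral_zero_measure, norm_zero]
    positivity
  · rw [integral_Icc_eq_integral_Ioc, ← intervalIntegral.integral_of_le hab]
    by_cases ha : 0 ≤ φ1 α
    · have := svdc2_half φ φ1 φ2 α β lam hab hlam h1 h2 h3 ha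
      rw [e1] at this
      linarith
    by_cases hb : φ1 β ≤ 0
    · have := svdc2_half' φ φ1 φ2 α β lam hab hlam h1 h2 h3 hb
      rw [e1] at this
      linarith
    have c2 : ContinuousOn φ1 (Set.Icc α β) :=
      fun x hx => (h2 x hx).continuousAt.continuousWithinAt
    obtain ⟨z, hz, hz0⟩ := intermediate_value_Icc hab c2
      (⟨(not_le.1 ha).le, (not_le.1 hb).le⟩ : (0 : ℝ) ∈ Set.Icc (φ1 α) (φ1 β))
    have s1 : Set.Icc α z ⊆ Set.Icc α β := Set.Icc_subset_Icc le_rfl hz.2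
    have s2 : Set.Icc z β ⊆ Set.Icc α β := Set.Icc_subset_Icc hz.1 le_rfl
    have c1 : ContinuousOn φ (Set.Icc α β) :=
      fun x hx => (h1 x hx).continuousAt.continuousWithinAt
    have cee : ContinuousOn (fun x => ee (φ x)) (Set.Icc α β) :=
      continuous_ee.comp_continuousOn c1
    have i1 : IntervalIntegrable (fun x => ee (φ x)) volume α z := by
      refine ContinuousOn.intervalIntegrable (cee.mono ?_)
      rw [Set.uIcc_of_le hz.1]
      exact s1
    have i2 : IntervalIntegrable (fun x => ee (φ x)) volume z β := by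
      refine ContinuousOn.intervalIntegrable (cee.mono ?_)
      rw [Set.uIcc_of_le hz.2]
      exact s2
    rw [← intervalIntegral.integral_add_adjacent_intervals i1 i2]
    have n1 := svdc2_half' φ φ1 φ2 α z lam hz.1 hlam (fun x hx => h1 x (s1 hx))
      (fun x hx => h2 x (s1 hx)) (fun x hx => h3 x (s1 hx)) hz0.le
    have n2 := svdc2_half φ φ1 φ2 z β lam hz.2 hlam (fun x hx => h1 x (s2 hx))
      (fun x hx => h2 x (s2 hx)) (fun x hx => h3 x (s2 hx)) hz0.ge
    rw [e1] at n1 n2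
    refine (norm_add_le _ _).trans ?_
    linarith

end Pool.Agent.FlatRes
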