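import Pool.Agent.Lib.MP_40a0b6_an.LemB
import Pool.Agent.Lib.MP_40a0b6_an.Dens3
import Pool.Agent.Lib.MP_40a0b6_an.Hyp2
import Pool.Agent.Lib.MP_40a0b6_an.Window
set_option autoImplicit false
open MeasureTheory
open scoped ENNReal FourierTransform SchwartzMap
namespace Pool.Agent.FlatRes

private theorem Six_gpt_measurable (Ψ : ℝ × ℝ → ℝ) (hΨ : Measurable Ψ) : Measurable (gpt Ψ) := by
  have h1 : Measurable (fun x : ℝ × ℝ => (![x.1, x.2, Ψ x] : Fin 3 → ℝ)) := by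
    refine measurable_pi_lambda _ fun i => ?_
    fin_cases i
    · exact measurable_fst
    · exact measurable_snd
    · exact hΨ
  exact (PiLp.continuous_toLp 2 (fun _ : Fin 3 => ℝ)).measurable.comp h1

private theorem Six_finite (Ψ : ℝ × ℝ → ℝ) (γ : ℝ → ℝ) (Ω : Set (ℝ × ℝ)) (N : ℕ)
    (K B W lam : ℝ) (hbγ : ∃ M : ℝ, ∀ u, |γ u| ≤ M) (hP : Piece Ψ γ Ω N K B W lam) :
    volume Ω < ⊤ := by
  obtain ⟨M, hM⟩ := hbγ
  have hsub : Ω ⊆ Set.Icc (K / 2) K ×ˢ Set.Icc (-M) (M + B) := by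
    intro x hx
    obtain ⟨h1, h2⟩ := hP.uran x hx
    obtain ⟨h3, h4⟩ := hP.yran x hx
    have h5 := abs_le.mp (hM x.1)
    exact ⟨⟨h1.le, h2⟩, ⟨by linarith [h5.1], by linarith [h5.2]⟩⟩
  refine (measure_mono hsub).trans_lt ?_
  exact (isCompact_Icc.prod isCompact_Icc).measure_lt_top

/-- JOB I.  `L⁶` bound of an inner piece.  `volume Ω ≤ K·B < ∞`.  `six_of_density` with
`D = d·e`, `d = N³·32/lam` (`hyp2`, `√(lam·lam) = lam`), `e = 96 B/μ0` (`window` with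
`c = z2 - 3B/2`, `τ = 3B/2`: if `v1+v2+v3 = z2`, `0 < v_j - γ(u_j) ≤ B` then
`z2 - 3B ≤ Σγ(u_j) < z2`). -/
theorem six_piece (Ψ : ℝ × ℝ → ℝ) (γ : ℝ → ℝ) (Ω : Set (ℝ × ℝ)) (N : ℕ) (a K B W lam μ0 e : ℝ)
    (hΨ : Measurable Ψ) (hγ : Measurable γ) (hbΨ : ∃ M : ℝ, ∀ x, |Ψ x| ≤ M)
    (hbγ : ∃ M : ℝ, ∀ u, |γ u| ≤ M) (hK : 0 < K) (hB : 0 < B) (hlam : 0 < lam) (hμ : 0 < μ0)
    (he : e = 1 ∨ e = -1)
    (hc : StrongConvexOn (Set.Ioc (K / 2) K ∩ Set.Iio a) μ0 (fun u => e * γ u))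
    (hP : Piece Ψ γ Ω N K B W lam) (ha : ∀ x ∈ Ω, x.1 < a) (h : ℝ × ℝ → ℂ) (hh : BddMeas h) :
    ∫⁻ ξ, ‖extOn Ψ Ω h ξ‖ₑ ^ (6 : ℕ) ≤
      ENNReal.ofReal (3072 * N ^ 3 * B / (lam * μ0)) * (mass Ω h) ^ (3 : ℕ) := by
  have hfin := Six_finite Ψ γ Ω N K B W lam hbγ hP
  have : IsFiniteMeasure (volume.restrict Ω) := ⟨by
    rw [Measure.restrict_apply_univ]
    exact hfin⟩
  set d : ℝ≥0∞ := (N : ℝ≥0∞) ^ 3 * ENNReal.ofReal (32 / Real.sqrt (lam * lam)) with hd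
  set w : ℝ≥0∞ := ENNReal.ofReal (64 * (3 * B / 2) / μ0) with hw
  have hdw : d * w = ENNReal.ofReal (3072 * N ^ 3 * B / (lam * μ0)) := by
    rw [hd, hw, Real.sqrt_mul_self hlam.le]
    have h1 : (N : ℝ≥0∞) = ENNReal.ofReal (N : ℝ) := (ENNReal.ofReal_natCast N).symm
    rw [h1, ← ENNReal.ofReal_pow (Nat.cast_nonneg N), ← ENNReal.ofReal_mul (by positivity),
      ← ENNReal.ofReal_mul (by positivity)]
    congr 1
    field_simp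
    ring
  have hdens := dens3 Ψ hΨ Ω hP.meas d w
    (fun u1 u2 u3 Y A hA => hyp2 Ψ hΨ hbΨ Ω Ω Ω N lam lam lam hlam hlam hlam hP.conv hP.conv
      hP.conv u1 u2 u3 Y A hA)
    (by
      intro z1 z2
      refine (measure_mono ?_).trans
        (window γ a K μ0 e he hμ hbγ hc z1 (z2 - 3 * B / 2) (3 * B / 2) (by positivity))
      rintro p ⟨v1, v2, hp1, hp2, hp3⟩
      obtain ⟨a1, a2⟩ := hP.uran _ hp1
      obtain ⟨b1, b2⟩ := hP.yran _ hp1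
      obtain ⟨a3, a4⟩ := hP.uran _ hp2
      obtain ⟨b3, b4⟩ := hP.yran _ hp2
      obtain ⟨a5, a6⟩ := hP.uran _ hp3
      obtain ⟨b5, b6⟩ := hP.yran _ hp3
      refine ⟨⟨⟨a1, a2⟩, ha (p.1, v1) hp1⟩, ⟨⟨a3, a4⟩, ha (p.2, v2) hp2⟩,
        ⟨⟨a5, a6⟩, ha (z1 - p.1 - p.2, z2 - v1 - v2) hp3⟩, ?_⟩
      simp only at b1 b2 b3 b4 b5 b6
      rw [abs_le]
      constructor <;> linarith)
  have h6 := six_of_density (volume.restrict Ω) (gpt Ψ) (Six_gpt_measurable Ψ hΨ) h hh (d * w)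
    (by rw [hdw]; exact ENNReal.ofReal_ne_top) hdens
  rw [hdw] at h6
  exact h6

end Pool.Agent.FlatRes
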